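import Pool.Agent.CutSeq.Sib

/-!
S19271, NJ: amplification.  If a fresh sibling is lucky (lies in a small set) with a probability which
is not too small, then a few siblings have many linearly independent lucky combinations, and this is
visible.
-/

set_option autoImplicit false

namespace Pool.Agent.CutSeq.NJ.A43

open Finset

/-! ### An event of small uniform measure -/

section Event

variable {Ω A B : Type*} [Fintype Ω] [Fintype A]

open Classical in
/-- (A1) if `X` lies in a set of uniform measure at most `u` with weight `p`, then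
`KK w X Y ≥ p * log (1 / u) - tot w * log 2` -/
theorem KK_event (w : Ω → ℝ) (hw : ∀ ω, 0 ≤ w ω) (X : Ω → A) (Y : Ω → B) (G : B → Set A) (u : ℝ)
    (hu : 0 < u) (hG : ∀ b, (Nat.card (G b) : ℝ) ≤ u * Fintype.card A) :
    (∑ ω, if X ω ∈ G (Y ω) then w ω else 0) * Real.log (1 / u) - tot w * Real.log 2 ≤ KK w X Y := by
  have key := DV w hw X Y (fun a b => if a ∈ G b then Real.log (1 / u) else 0)
  have h1 : ∑ ω, w ω * (if X ω ∈ G (Y ω) then Real.log (1 / u) else 0)
      = (∑ ω, if X ω ∈ G (Y ω) then w ω else 0) * Real.log (1 / u) := by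
    rw [Finset.sum_mul]
    refine Finset.sum_congr rfl fun ω _ => ?_
    split <;> simp
  have h2 : ∑ ω, w ω * Real.log ((∑ a, Real.exp (if a ∈ G (Y ω) then Real.log (1 / u) else 0))
      / Fintype.card A) ≤ tot w * Real.log 2 := by
    unfold tot
    rw [Finset.sum_mul]
    refine Finset.sum_le_sum fun ω _ => ?_
    refine mul_le_mul_of_nonneg_left ?_ (hw ω)
    have hA : (0 : ℝ) < Fintype.card A := by
      have : Nonempty A := ⟨X ω⟩
      exact_mod_cast Fintype.card_pos
    have h3 : ∑ a, Real.exp (if a ∈ G (Y ω) then Real.log (1 / u) else 0)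
        ≤ 2 * Fintype.card A := by
      have h4 : ∀ a : A, Real.exp (if a ∈ G (Y ω) then Real.log (1 / u) else 0)
          ≤ (if a ∈ G (Y ω) then 1 / u else 0) + 1 := by
        intro a
        split
        · rw [Real.exp_log (by positivity)]
          linarith
        · rw [Real.exp_zero]
          linarith
      refine (Finset.sum_le_sum fun a _ => h4 a).trans ?_
      rw [Finset.sum_add_distrib, ← Finset.sum_filter, Finset.sum_const, Finset.sum_const,
        nsmul_eq_mul, nsmul_eq_mul, mul_one, Finset.card_univ]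
      have h5 : ((Finset.univ.filter fun a => a ∈ G (Y ω)).card : ℝ) ≤ u * Fintype.card A := by
        have := hG (Y ω)
        rw [Nat.card_eq_fintype_card, Fintype.card_subtype] at this
        exact this
      have h6 : ((Finset.univ.filter fun a => a ∈ G (Y ω)).card : ℝ) * (1 / u) ≤ Fintype.card A := by
        rw [mul_one_div, div_le_iff₀ hu]
        linarith
      linarith
    have h7 : 0 < ∑ a, Real.exp (if a ∈ G (Y ω) then Real.log (1 / u) else 0) := by
      have : Nonempty A := ⟨X ω⟩
      exact Finset.sum_pos (fun a _ => Real.exp_pos _) Finset.univ_nonempty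
    refine Real.log_le_log (by positivity) ?_
    rw [div_le_iff₀ hA]
    exact h3
  linarith

end Event

/-! ### Combinations of uniform vectors -/

section Comb

variable {H : Type*} [AddCommGroup H] [Module (ZMod 2) H]

/-- combination with coefficients `c` -/
def comb {r : ℕ} (c : Fin r → ZMod 2) (x : Fin r → H) : H := ∑ l, c l • x l

/-- averages along a surjective homomorphism of finite groups -/
lemma sum_surj {G K : Type*} [AddCommGroup G] [AddCommGroup K] [Fintype G] [Fintype K] (f : G →+ K)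
    (hf : Function.Surjective f) (g : K → ℝ) :
    (∑ x, g (f x)) * Fintype.card K = Fintype.card G * ∑ y, g y := by
  classical
  have h1 : ∑ x, g (f x) = ∑ y, ((Finset.univ.filter fun x => f x = y).card : ℝ) * g y := by
    rw [← Finset.sum_fiberwise_of_maps_to (s := (Finset.univ : Finset G))
      (t := (Finset.univ : Finset K)) (g := f) (fun _ _ => Finset.mem_univ _)]
    refine Finset.sum_congr rfl fun y _ => ?_
    rw [Finset.sum_congr rfl (g := fun _ => g y)]
    · rw [Finset.sum_const, nsmul_eq_mul]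
    · intro a ha
      rw [Finset.mem_filter] at ha
      rw [ha.2]
  have h2 : ∀ y, (Finset.univ.filter fun x => f x = y).card
      = (Finset.univ.filter fun x => f x = 0).card := fun y =>
    AddMonoidHom.card_fiber_eq_of_mem_range f (hf y) (hf 0)
  have h3 : Fintype.card G = Fintype.card K * (Finset.univ.filter fun x => f x = 0).card := by
    rw [← Finset.card_univ, Finset.card_eq_sum_card_fiberwise (f := f) (t := Finset.univ)
      (fun _ _ => Finset.mem_univ _)]
    rw [Finset.sum_congr rfl fun y _ => h2 y, Finset.sum_const, Finset.card_univ, smul_eq_mul]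
  rw [h1, Finset.sum_congr rfl fun y _ => by rw [h2 y], ← Finset.mul_sum, h3]
  push_cast
  ring

/-- linearly independent coefficient vectors: the combinations are independent and uniform -/
lemma comb_surj {r s : ℕ} (e : Fin s → Fin r → ZMod 2) (he : LinearIndependent (ZMod 2) e)
    (y : Fin s → H) : ∃ x : Fin r → H, ∀ j, comb (e j) x = y j := by
  classical
  obtain ⟨g, hg⟩ := LinearMap.exists_leftInverse_of_injective
    (Fintype.linearCombination (ZMod 2) e) (by
      rw [LinearMap.ker_eq_bot]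
      exact he.fintypeLinearCombination_injective)
  have h1 : ∀ j, g (e j) = Pi.single j 1 := by
    intro j
    have h2 := LinearMap.congr_fun hg (Pi.single j 1)
    simpa [Fintype.linearCombination_apply, Pi.single_apply] using h2
  refine ⟨fun l => ∑ j, g (Pi.single l 1) j • y j, fun j => ?_⟩
  unfold comb
  simp only [Finset.smul_sum, smul_smul]
  rw [Finset.sum_comm]
  have h3 : ∀ i, ∑ l, e j l * g (Pi.single l 1) i = if i = j then 1 else 0 := by
    intro i
    have h4 : e j = ∑ l, e j l • (Pi.single l (1 : ZMod 2) : Fin r → ZMod 2) := by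
      funext k
      simp [Finset.sum_apply, Pi.single_apply]
    have h5 : g (e j) i = ∑ l, e j l * g (Pi.single l 1) i := by
      conv_lhs => rw [h4]
      rw [map_sum, Finset.sum_apply]
      refine Finset.sum_congr rfl fun l _ => ?_
      rw [map_smul, Pi.smul_apply, smul_eq_mul]
    rw [← h5, h1, Pi.single_apply]
  rw [Finset.sum_congr rfl fun i _ => by rw [← Finset.sum_smul, h3 i]]
  simp

/-- the homomorphism of combinations -/
def combHom {r s : ℕ} (e : Fin s → Fin r → ZMod 2) : (Fin r → H) →+ (Fin s → H) where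
  toFun x := fun j => comb (e j) x
  map_zero' := by
    funext j
    simp [comb]
  map_add' x y := by
    funext j
    simp [comb, Finset.sum_add_distrib, smul_add]

lemma combHom_surj {r s : ℕ} (e : Fin s → Fin r → ZMod 2) (he : LinearIndependent (ZMod 2) e) :
    Function.Surjective (combHom (H := H) e) := by
  intro y
  obtain ⟨x, hx⟩ := comb_surj e he y
  exact ⟨x, funext hx⟩

variable [Fintype H]

lemma sum_combHom {r s : ℕ} (e : Fin s → Fin r → ZMod 2) (he : LinearIndependent (ZMod 2) e)
    (g : (Fin s → H) → ℝ) :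
    (∑ x : Fin r → H, g (fun j => comb (e j) x)) * (Fintype.card H : ℝ) ^ s
      = (Fintype.card H : ℝ) ^ r * ∑ y, g y := by
  have h := sum_surj (combHom (H := H) e) (combHom_surj e he) g
  rw [Fintype.card_fun, Fintype.card_fun, Fintype.card_fin, Fintype.card_fin] at h
  push_cast at h
  exact h

open Classical in
/-- number of nonzero combinations in `S` -/
noncomputable def cnt {r : ℕ} (S : Set H) (x : Fin r → H) : ℝ :=
  ∑ c : Fin r → ZMod 2, if c ≠ 0 ∧ comb c x ∈ S then 1 else 0

lemma indep_one {r : ℕ} {c : Fin r → ZMod 2} (hc : c ≠ 0) :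
    LinearIndependent (ZMod 2) (fun _ : Fin 1 => c) := by
  rw [linearIndependent_unique_iff]
  exact hc

lemma indep_two {r : ℕ} {c d : Fin r → ZMod 2} (hc : c ≠ 0) (hd : d ≠ 0) (hcd : c ≠ d) :
    LinearIndependent (ZMod 2) ![c, d] := by
  rw [LinearIndependent.pair_iff]
  intro s t h
  have hz : ∀ a : ZMod 2, a = 0 ∨ a = 1 := by decide
  rcases hz s with hs | hs <;> rcases hz t with ht | ht <;> subst hs <;> subst ht
  · exact ⟨rfl, rfl⟩
  · rw [zero_smul, zero_add, one_smul] at h
    exact absurd h hd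
  · rw [zero_smul, add_zero, one_smul] at h
    exact absurd h hc
  · rw [one_smul, one_smul] at h
    exfalso
    apply hcd
    funext i
    have h1 := congrFun h i
    have h2 : ∀ a b : ZMod 2, a + b = 0 → a = b := by decide
    exact h2 _ _ h1

open Classical in
/-- first moment -/
lemma sum_comb_one {r : ℕ} (S : Set H) {c : Fin r → ZMod 2} (hc : c ≠ 0) :
    (∑ x : Fin r → H, if comb c x ∈ S then (1 : ℝ) else 0) * Fintype.card H
      = (Fintype.card H : ℝ) ^ r * Nat.card S := by
  have h := sum_combHom (H := H) (fun _ : Fin 1 => c) (indep_one hc)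
    (fun y => if y 0 ∈ S then (1 : ℝ) else 0)
  simp only [pow_one] at h
  rw [h]
  congr 1
  rw [← (Equiv.funUnique (Fin 1) H).symm.sum_comp]
  simp only [Equiv.funUnique_symm_apply, uniqueElim_const]
  rw [← Finset.sum_filter, Finset.sum_const, nsmul_eq_mul, mul_one, Nat.card_eq_fintype_card,
    Fintype.card_subtype]

open Classical in
/-- second moment -/
lemma sum_comb_two {r : ℕ} (S : Set H) {c d : Fin r → ZMod 2} (hc : c ≠ 0) (hd : d ≠ 0)
    (hcd : c ≠ d) :
    (∑ x : Fin r → H, (if comb c x ∈ S then (1 : ℝ) else 0) * (if comb d x ∈ S then (1 : ℝ) else 0))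
        * (Fintype.card H : ℝ) ^ 2
      = (Fintype.card H : ℝ) ^ r * (Nat.card S : ℝ) ^ 2 := by
  have h := sum_combHom (H := H) ![c, d] (indep_two hc hd hcd)
    (fun y => (if y 0 ∈ S then (1 : ℝ) else 0) * (if y 1 ∈ S then (1 : ℝ) else 0))
  simp only [Matrix.cons_val_zero, Matrix.cons_val_one] at h
  refine Eq.trans h ?_
  congr 1
  rw [← (finTwoArrowEquiv H).symm.sum_comp, Fintype.sum_prod_type]
  simp only [finTwoArrowEquiv_symm_apply, Matrix.cons_val_zero, Matrix.cons_val_one]
  have h1 : ∑ x : H, (if x ∈ S then (1 : ℝ) else 0) = Nat.card S := by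
    rw [← Finset.sum_filter, Finset.sum_const, nsmul_eq_mul, mul_one, Nat.card_eq_fintype_card,
      Fintype.card_subtype]
  simp only [← Finset.mul_sum, ← Finset.sum_mul, h1]
  ring

/-- density of a set -/
noncomputable def dns (S : Set H) : ℝ := Nat.card S / Fintype.card H

lemma cardH_pos : (0 : ℝ) < Fintype.card H := by
  have : Nonempty H := ⟨0⟩
  exact_mod_cast Fintype.card_pos

lemma dns_nonneg (S : Set H) : 0 ≤ dns S := by
  unfold dns
  positivity

lemma dns_le_one (S : Set H) : dns S ≤ 1 := by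
  classical
  unfold dns
  rw [div_le_one cardH_pos]
  rw [Nat.card_eq_fintype_card]
  exact_mod_cast Fintype.card_subtype_le _

open Classical in
lemma avg_one {r : ℕ} (S : Set H) {c : Fin r → ZMod 2} (hc : c ≠ 0) :
    (∑ x : Fin r → H, if comb c x ∈ S then (1 : ℝ) else 0) = (Fintype.card H : ℝ) ^ r * dns S := by
  have h := sum_comb_one S hc
  unfold dns
  rw [← mul_div_assoc, eq_div_iff cardH_pos.ne']
  exact h

open Classical in
lemma avg_two {r : ℕ} (S : Set H) {c d : Fin r → ZMod 2} (hc : c ≠ 0) (hd : d ≠ 0) (hcd : c ≠ d) :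
    (∑ x : Fin r → H, (if comb c x ∈ S then (1 : ℝ) else 0) * (if comb d x ∈ S then (1 : ℝ) else 0))
      = (Fintype.card H : ℝ) ^ r * dns S ^ 2 := by
  have h := sum_comb_two S hc hd hcd
  have h1 : (0 : ℝ) < (Fintype.card H : ℝ) ^ 2 := by
    have := cardH_pos (H := H)
    positivity
  unfold dns
  rw [div_pow, ← mul_div_assoc, eq_div_iff h1.ne']
  exact h

open Classical in
/-- the centred indicator of a combination -/
noncomputable def cen {r : ℕ} (S : Set H) (c : Fin r → ZMod 2) (x : Fin r → H) : ℝ :=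
  if c = 0 then 0 else (if comb c x ∈ S then (1 : ℝ) else 0) - dns S

lemma card_vec (r : ℕ) : (Fintype.card (Fin r → H) : ℝ) = (Fintype.card H : ℝ) ^ r := by
  rw [Fintype.card_fun, Fintype.card_fin]
  push_cast
  rfl

lemma sum_cen_two {r : ℕ} (S : Set H) {c d : Fin r → ZMod 2} (hcd : c ≠ d) :
    ∑ x : Fin r → H, cen S c x * cen S d x = 0 := by
  classical
  unfold cen
  by_cases hc : c = 0
  · simp [hc]
  by_cases hd : d = 0
  · simp [hd]
  simp only [if_neg hc, if_neg hd]
  have h1 : ∀ x : Fin r → H, ((if comb c x ∈ S then (1 : ℝ) else 0) - dns S) *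
      ((if comb d x ∈ S then (1 : ℝ) else 0) - dns S)
      = (if comb c x ∈ S then (1 : ℝ) else 0) * (if comb d x ∈ S then (1 : ℝ) else 0)
        - dns S * (if comb c x ∈ S then (1 : ℝ) else 0)
        - dns S * (if comb d x ∈ S then (1 : ℝ) else 0) + dns S ^ 2 := fun x => by ring
  rw [Finset.sum_congr rfl fun x _ => h1 x, Finset.sum_add_distrib, Finset.sum_sub_distrib,
    Finset.sum_sub_distrib, avg_two S hc hd hcd, ← Finset.mul_sum, ← Finset.mul_sum,
    avg_one S hc, avg_one S hd, Finset.sum_const, Finset.card_univ, nsmul_eq_mul, card_vec]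
  ring

lemma sum_cen_one {r : ℕ} (S : Set H) (c : Fin r → ZMod 2) :
    ∑ x : Fin r → H, cen S c x * cen S c x
      ≤ if c = 0 then 0 else (Fintype.card H : ℝ) ^ r * dns S := by
  classical
  unfold cen
  by_cases hc : c = 0
  · simp [hc]
  simp only [if_neg hc]
  have h1 : ∀ x : Fin r → H, ((if comb c x ∈ S then (1 : ℝ) else 0) - dns S) *
      ((if comb c x ∈ S then (1 : ℝ) else 0) - dns S)
      = (if comb c x ∈ S then (1 : ℝ) else 0)
        - 2 * dns S * (if comb c x ∈ S then (1 : ℝ) else 0) + dns S ^ 2 := fun x => by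
    split <;> ring
  rw [Finset.sum_congr rfl fun x _ => h1 x, Finset.sum_add_distrib, Finset.sum_sub_distrib,
    ← Finset.mul_sum, avg_one S hc, Finset.sum_const, Finset.card_univ, nsmul_eq_mul, card_vec]
  have h2 : (0 : ℝ) ≤ (Fintype.card H : ℝ) ^ r := by positivity
  have h3 := sq_nonneg (dns S)
  have h4 := mul_nonneg h2 h3
  linarith

lemma card_nonzero (r : ℕ) :
    (∑ c : Fin r → ZMod 2, if c = 0 then (0 : ℝ) else 1) = 2 ^ r - 1 := by
  classical
  have h1 : ∀ c : Fin r → ZMod 2, (if c = 0 then (0 : ℝ) else 1) = 1 - if c = 0 then 1 else 0 := by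
    intro c
    split <;> simp
  rw [Finset.sum_congr rfl fun c _ => h1 c, Finset.sum_sub_distrib, Finset.sum_const,
    Finset.card_univ, nsmul_eq_mul, mul_one, Finset.sum_ite_eq' Finset.univ (0 : Fin r → ZMod 2)]
  rw [Fintype.card_fun, Fintype.card_fin, ZMod.card]
  push_cast
  simp

lemma cnt_sub {r : ℕ} (S : Set H) (x : Fin r → H) :
    cnt S x - (2 ^ r - 1) * dns S = ∑ c : Fin r → ZMod 2, cen S c x := by
  classical
  rw [← card_nonzero, Finset.sum_mul]
  unfold cnt cen
  rw [← Finset.sum_sub_distrib]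
  refine Finset.sum_congr rfl fun c _ => ?_
  by_cases hc : c = 0
  · simp [hc]
  · simp [hc]

/-- variance of the number of lucky combinations -/
lemma var_cnt (r : ℕ) (S : Set H) :
    ∑ x : Fin r → H, (cnt S x - (2 ^ r - 1) * dns S) ^ 2
      ≤ (Fintype.card H : ℝ) ^ r * ((2 ^ r - 1) * dns S) := by
  classical
  have h1 : ∀ x : Fin r → H, (cnt S x - (2 ^ r - 1) * dns S) ^ 2
      = ∑ c : Fin r → ZMod 2, ∑ d : Fin r → ZMod 2, cen S c x * cen S d x := by
    intro x
    rw [cnt_sub, sq, Finset.sum_mul_sum]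
  rw [Finset.sum_congr rfl fun x _ => h1 x, Finset.sum_comm]
  have h2 : ∀ c : Fin r → ZMod 2, ∑ x : Fin r → H, ∑ d : Fin r → ZMod 2, cen S c x * cen S d x
      ≤ if c = 0 then 0 else (Fintype.card H : ℝ) ^ r * dns S := by
    intro c
    rw [Finset.sum_comm, Finset.sum_eq_single c]
    · exact sum_cen_one S c
    · intro d _ hd
      exact sum_cen_two S (Ne.symm hd)
    · intro h
      exact absurd (Finset.mem_univ c) h
  refine (Finset.sum_le_sum fun c _ => h2 c).trans (le_of_eq ?_)
  have h3 : ∀ c : Fin r → ZMod 2, (if c = 0 then 0 else (Fintype.card H : ℝ) ^ r * dns S)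
      = (if c = 0 then (0 : ℝ) else 1) * ((Fintype.card H : ℝ) ^ r * dns S) := by
    intro c
    split <;> simp
  rw [Finset.sum_congr rfl fun c _ => h3 c, ← Finset.sum_mul, card_nonzero]
  ring

open Classical in
/-- (A2) few lucky combinations are unlikely -/
theorem few_lucky (r : ℕ) (S : Set H) (hμ : 0 < (2 ^ r - 1) * dns S) :
    (∑ x : Fin r → H, if cnt S x < (2 ^ r - 1) * dns S / 2 then (1 : ℝ) else 0)
      ≤ 4 / ((2 ^ r - 1) * dns S) * (Fintype.card H : ℝ) ^ r := by
  set μ := (2 ^ r - 1) * dns S with hμdef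
  have h1 : (∑ x : Fin r → H, if cnt S x < μ / 2 then (1 : ℝ) else 0) * (μ / 2) ^ 2
      ≤ ∑ x : Fin r → H, (cnt S x - μ) ^ 2 := by
    rw [Finset.sum_mul]
    refine Finset.sum_le_sum fun x _ => ?_
    split
    · rename_i h
      rw [one_mul]
      nlinarith
    · rw [zero_mul]
      exact sq_nonneg _
  have h2 := h1.trans (var_cnt r S)
  rw [← hμdef] at h2
  have h3 : (0 : ℝ) < (μ / 2) ^ 2 := by positivity
  rw [← le_div_iff₀ h3] at h2
  refine h2.trans (le_of_eq ?_)
  field_simp
  ring

/-- tuples with `r'` linearly independent combinations in `S` -/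
def Gd {H : Type*} [AddCommGroup H] [Module (ZMod 2) H] {r : ℕ} (S : Set H) (r' : ℕ) :
    Set (Fin r → H) :=
  {x | ∃ e : Fin r' → Fin r → ZMod 2, LinearIndependent (ZMod 2) e ∧ ∀ j, comb (e j) x ∈ S}

/-- (A3) many nonzero vectors contain many independent ones -/
lemma indep_of_many {r r' : ℕ} (C : Finset (Fin r → ZMod 2)) (h0 : ∀ c ∈ C, c ≠ 0)
    (hC : 2 ^ r' ≤ 2 * C.card) :
    ∃ e : Fin r' → Fin r → ZMod 2, LinearIndependent (ZMod 2) e ∧ ∀ j, e j ∈ C := by
  classical
  set W := Submodule.span (ZMod 2) (C : Set (Fin r → ZMod 2)) with hW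
  have h1 : C.card + 1 ≤ 2 ^ Module.finrank (ZMod 2) W := by
    have h2 : Fintype.card W = 2 ^ Module.finrank (ZMod 2) W := by
      have := Module.card_eq_pow_finrank (K := ZMod 2) (V := W)
      rwa [ZMod.card] at this
    rw [← h2]
    have h3 : (insert 0 C : Finset (Fin r → ZMod 2)).card = C.card + 1 :=
      Finset.card_insert_of_notMem (fun h => h0 0 h rfl)
    rw [← h3, ← Fintype.card_coe]
    refine Fintype.card_le_of_injective
      (fun c => (⟨c.1, ?_⟩ : W)) ?_
    · rcases Finset.mem_insert.1 c.2 with h | h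
      · rw [h]
        exact W.zero_mem
      · exact Submodule.subset_span h
    · intro a b h
      exact Subtype.ext (congrArg (fun z : W => (z : Fin r → ZMod 2)) h)
  have h4 : r' ≤ Module.finrank (ZMod 2) W := by
    by_contra h
    push Not at h
    obtain ⟨k, rfl⟩ : ∃ k, r' = k + 1 := ⟨r' - 1, by omega⟩
    have h5 : 2 ^ Module.finrank (ZMod 2) W ≤ 2 ^ k := Nat.pow_le_pow_right (by norm_num) (by omega)
    rw [pow_succ] at hC
    omega
  obtain ⟨b, hbC, hspan, hli⟩ := exists_linearIndependent (ZMod 2) (C : Set (Fin r → ZMod 2))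
  have hbfin : b.Finite := C.finite_toSet.subset hbC
  have : Fintype b := hbfin.fintype
  have h6 : Fintype.card b = Module.finrank (ZMod 2) W := by
    rw [hW, ← hspan]
    have := finrank_span_eq_card hli
    rw [Subtype.range_coe] at this
    exact this.symm
  have h7 : Fintype.card (Fin r') ≤ Fintype.card b := by
    rw [Fintype.card_fin, h6]
    exact h4
  obtain ⟨f⟩ := Function.Embedding.nonempty_of_card_le h7
  refine ⟨fun j => (f j : Fin r → ZMod 2), ?_, fun j => hbC (f j).2⟩
  exact hli.comp f f.injective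

open Classical in
/-- with probability at least `3 / 4` there are `r'` independent lucky combinations -/
theorem many_indep {r r' : ℕ} (S : Set H) (h16 : 16 ≤ (2 ^ r - 1) * dns S)
    (hr' : 2 ^ r' ≤ (2 ^ r - 1) * dns S) :
    3 / 4 * (Fintype.card H : ℝ) ^ r ≤ ∑ x : Fin r → H, if x ∈ Gd S r' then (1 : ℝ) else 0 := by
  set μ := (2 ^ r - 1) * dns S with hμ
  have hμ0 : 0 < μ := by linarith
  have h1 := few_lucky r S hμ0
  rw [← hμ] at h1
  have h2 : ∀ x : Fin r → H, 1 - (if cnt S x < μ / 2 then (1 : ℝ) else 0)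
      ≤ if x ∈ Gd S r' then (1 : ℝ) else 0 := by
    intro x
    by_cases hx : cnt S x < μ / 2
    · rw [if_pos hx, sub_self]
      split <;> norm_num
    · rw [if_neg hx, sub_zero]
      push Not at hx
      set C : Finset (Fin r → ZMod 2) := Finset.univ.filter fun c => c ≠ 0 ∧ comb c x ∈ S with hC
      have h3 : cnt S x = C.card := by
        unfold cnt
        rw [← Finset.sum_filter, Finset.sum_const, nsmul_eq_mul, mul_one]
      have h4 : 2 ^ r' ≤ 2 * C.card := by
        have : (2 : ℝ) ^ r' ≤ 2 * C.card := by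
          rw [← h3]
          linarith
        exact_mod_cast this
      obtain ⟨e, he, heC⟩ := indep_of_many C (fun c hc => (Finset.mem_filter.1 hc).2.1) h4
      rw [if_pos]
      exact ⟨e, he, fun j => (Finset.mem_filter.1 (heC j)).2.2⟩
  refine le_trans ?_ (Finset.sum_le_sum fun x _ => h2 x)
  rw [Finset.sum_sub_distrib, Finset.sum_const, Finset.card_univ, nsmul_eq_mul, mul_one, card_vec]
  have h5 : 4 / μ ≤ 1 / 4 := by
    rw [div_le_div_iff₀ hμ0 (by norm_num)]
    linarith
  have h6 : (0 : ℝ) ≤ (Fintype.card H : ℝ) ^ r := by positivity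
  have h7 := mul_le_mul_of_nonneg_right h5 h6
  linarith

/-- (A3) few tuples have `r'` independent combinations in a small set -/
theorem card_Gd {r : ℕ} (r' : ℕ) (S : Set H) :
    (Nat.card (Gd (r := r) S r') : ℝ) * (Fintype.card H : ℝ) ^ r'
      ≤ 2 ^ (r * r') * (Nat.card S : ℝ) ^ r' * (Fintype.card H : ℝ) ^ r := by
  classical
  have h1 : ∀ e : Fin r' → Fin r → ZMod 2, LinearIndependent (ZMod 2) e →
      (∑ x : Fin r → H, if ∀ j, comb (e j) x ∈ S then (1 : ℝ) else 0) * (Fintype.card H : ℝ) ^ r'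
        = (Fintype.card H : ℝ) ^ r * (Nat.card S : ℝ) ^ r' := by
    intro e he
    rw [sum_combHom e he (fun y => if ∀ j, y j ∈ S then (1 : ℝ) else 0)]
    congr 1
    rw [← Finset.sum_filter, Finset.sum_const, nsmul_eq_mul, mul_one]
    have h2 : (Finset.univ.filter fun y : Fin r' → H => ∀ j, y j ∈ S).card
        = Fintype.card (Fin r' → S) := by
      rw [← Fintype.card_subtype]
      refine Fintype.card_congr
        { toFun := fun y j => ⟨y.1 j, y.2 j⟩
          invFun := fun y => ⟨fun j => (y j).1, fun j => (y j).2⟩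
          left_inv := fun _ => rfl
          right_inv := fun _ => rfl }
    rw [h2, Fintype.card_fun, Fintype.card_fin, Nat.card_eq_fintype_card]
    push_cast
    rfl
  have h2 : (Nat.card (Gd (r := r) S r') : ℝ)
      ≤ ∑ e : Fin r' → Fin r → ZMod 2, if LinearIndependent (ZMod 2) e then
        (∑ x : Fin r → H, if ∀ j, comb (e j) x ∈ S then (1 : ℝ) else 0) else 0 := by
    have h3 : (Nat.card (Gd (r := r) S r') : ℝ)
        = ∑ x : Fin r → H, if x ∈ Gd S r' then (1 : ℝ) else 0 := by
      rw [← Finset.sum_filter, Finset.sum_const, nsmul_eq_mul, mul_one, Nat.card_eq_fintype_card,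
        Fintype.card_subtype]
    have h4 : ∀ e : Fin r' → Fin r → ZMod 2, (if LinearIndependent (ZMod 2) e then
        (∑ x : Fin r → H, if ∀ j, comb (e j) x ∈ S then (1 : ℝ) else 0) else 0)
        = ∑ x : Fin r → H, if LinearIndependent (ZMod 2) e ∧ ∀ j, comb (e j) x ∈ S
          then (1 : ℝ) else 0 := by
      intro e
      by_cases he : LinearIndependent (ZMod 2) e
      · simp [he]
      · simp [he]
    rw [h3, Finset.sum_congr rfl fun e _ => h4 e, Finset.sum_comm]
    refine Finset.sum_le_sum fun x _ => ?_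
    split
    · rename_i hx
      obtain ⟨e, he, hj⟩ := hx
      have h5 := Finset.single_le_sum (f := fun e : Fin r' → Fin r → ZMod 2 =>
        if LinearIndependent (ZMod 2) e ∧ ∀ j, comb (e j) x ∈ S then (1 : ℝ) else 0)
        (fun e _ => by
          show 0 ≤ (if LinearIndependent (ZMod 2) e ∧ ∀ j, comb (e j) x ∈ S then (1 : ℝ) else 0)
          split <;> norm_num) (Finset.mem_univ e)
      simp only [he, hj, true_and, implies_true, if_true] at h5
      exact h5
    · exact Finset.sum_nonneg fun e _ => by split <;> norm_num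
  have h6 : (0 : ℝ) ≤ (Fintype.card H : ℝ) ^ r' := by positivity
  refine (mul_le_mul_of_nonneg_right h2 h6).trans ?_
  rw [Finset.sum_mul]
  have h7 : ∀ e ∈ (Finset.univ : Finset (Fin r' → Fin r → ZMod 2)),
      (if LinearIndependent (ZMod 2) e then
        (∑ x : Fin r → H, if ∀ j, comb (e j) x ∈ S then (1 : ℝ) else 0) else 0)
        * (Fintype.card H : ℝ) ^ r' ≤ (Fintype.card H : ℝ) ^ r * (Nat.card S : ℝ) ^ r' := by
    intro e _
    by_cases he : LinearIndependent (ZMod 2) e
    · rw [if_pos he, h1 e he]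
    · rw [if_neg he, zero_mul]
      positivity
  refine (Finset.sum_le_sum h7).trans (le_of_eq ?_)
  rw [Finset.sum_const, Finset.card_univ, nsmul_eq_mul, Fintype.card_fun, Fintype.card_fun,
    Fintype.card_fin, Fintype.card_fin, ZMod.card]
  push_cast
  rw [← pow_mul]
  ring

end Comb

/-! ### Amplification -/

section Amp

variable {Ω B H A : Type*} [Fintype Ω] [AddCommGroup H] [Module (ZMod 2) H] [Fintype H]
  [AddCommGroup A] [Module (ZMod 2) A] [Fintype A]

/-- `r` independent uniform elements of `H` (coin vectors) -/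
noncomputable def coinW {Ω : Type*} (H : Type*) [Fintype H] (w : Ω → ℝ) (r : ℕ) :
    Ω × (Fin r → H) → ℝ := fun p => w p.1 / (Fintype.card H : ℝ) ^ r

lemma comb_map {r : ℕ} (φ : H →ₗ[ZMod 2] A) (c : Fin r → ZMod 2) (x : Fin r → H) :
    comb c (fun l => φ (x l)) = φ (comb c x) := by
  unfold comb
  rw [map_sum]
  exact Finset.sum_congr rfl fun l _ => (map_smul _ _ _).symm

lemma Gd_map {r r' : ℕ} (φ : H →ₗ[ZMod 2] A) (S : Set A) (x : Fin r → H) :
    (fun l => φ (x l)) ∈ Gd S r' ↔ x ∈ Gd (φ ⁻¹' S) r' := by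
  unfold Gd
  simp only [Set.mem_ofPred_eq, comb_map, Set.mem_preimage]

lemma coinW_nonneg (w : Ω → ℝ) (hw : ∀ ω, 0 ≤ w ω) (r : ℕ) (p : Ω × (Fin r → H)) :
    0 ≤ coinW H w r p := div_nonneg (hw _) (by positivity)

lemma tot_coinW (w : Ω → ℝ) (r : ℕ) : tot (coinW H w r) = tot w := by
  classical
  unfold tot coinW
  rw [Fintype.sum_prod_type]
  refine Finset.sum_congr rfl fun ω _ => ?_
  simp only
  rw [Finset.sum_const, Finset.card_univ, nsmul_eq_mul, card_vec]
  have : (0 : ℝ) < (Fintype.card H : ℝ) ^ r := pow_pos cardH_pos r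
  field_simp

open Classical in
/-- (A4) AMPLIFICATION, coin form.  If for `ω` in `good` the image of a uniform coin vector lies in the
small set `S (D ω)` with probability at least `μ / (2 ^ r - 1)`, then `r` siblings are visible. -/
theorem amp_coin (w : Ω → ℝ) (hw : ∀ ω, 0 ≤ w ω) (φ : Ω → H →ₗ[ZMod 2] A) (D : Ω → B)
    (S : B → Set A) (L : ℝ) (r r' : ℕ) (hL : (r : ℝ) ≤ L)
    (hS : ∀ b, (Nat.card (S b) : ℝ) * (2 : ℝ) ^ L ≤ Fintype.card A) (good : Set Ω) (μ : ℝ)
    (hμ : 16 ≤ μ) (hr' : 2 ^ r' ≤ μ)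
    (hgood : ∀ ω ∈ good, w ω ≠ 0 → μ ≤ (2 ^ r - 1) * dns (φ ω ⁻¹' S (D ω))) :
    3 / 4 * (∑ ω, if ω ∈ good then w ω else 0) * (r' * (L - r) * Real.log 2) - tot w * Real.log 2
      ≤ KK (coinW H w r) (fun p => fun l => φ p.1 (p.2 l)) (fun p => D p.1) := by
  have hcH : (0 : ℝ) < (Fintype.card H : ℝ) ^ r := pow_pos cardH_pos r
  have hcA : (0 : ℝ) < Fintype.card A := cardH_pos
  set u : ℝ := 2 ^ (r * r') * ((2 : ℝ) ^ (-L)) ^ r' with hu
  have h2L : (0 : ℝ) < (2 : ℝ) ^ (-L) := Real.rpow_pos_of_pos (by norm_num) _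
  have hu0 : 0 < u := by positivity
  have hG : ∀ b, (Nat.card (Gd (r := r) (S b) r') : ℝ) ≤ u * Fintype.card (Fin r → A) := by
    intro b
    have h1 := card_Gd (r := r) r' (S b)
    have h2 : (Nat.card (S b) : ℝ) ≤ (2 : ℝ) ^ (-L) * Fintype.card A := by
      have h3 := hS b
      rw [Real.rpow_neg (by norm_num), ← div_eq_inv_mul, le_div_iff₀ (Real.rpow_pos_of_pos (by norm_num) _)]
      exact h3
    have h4 : (Nat.card (S b) : ℝ) ^ r' ≤ ((2 : ℝ) ^ (-L)) ^ r' * (Fintype.card A : ℝ) ^ r' := by
      rw [← mul_pow]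
      exact pow_le_pow_left₀ (Nat.cast_nonneg _) h2 r'
    have h5 : (0 : ℝ) < (Fintype.card A : ℝ) ^ r' := by positivity
    rw [card_vec]
    have h6 : (Nat.card (Gd (r := r) (S b) r') : ℝ) * (Fintype.card A : ℝ) ^ r'
        ≤ (u * (Fintype.card A : ℝ) ^ r) * (Fintype.card A : ℝ) ^ r' := by
      refine h1.trans ?_
      have h7 : (2 : ℝ) ^ (r * r') * (Nat.card (S b) : ℝ) ^ r' * (Fintype.card A : ℝ) ^ r
          ≤ 2 ^ (r * r') * (((2 : ℝ) ^ (-L)) ^ r' * (Fintype.card A : ℝ) ^ r')
            * (Fintype.card A : ℝ) ^ r := by gcongr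
      refine h7.trans (le_of_eq ?_)
      rw [hu]
      ring
    exact le_of_mul_le_mul_right h6 h5
  have key := KK_event (coinW H w r) (coinW_nonneg w hw r) (fun p => fun l => φ p.1 (p.2 l))
    (fun p => D p.1) (fun b => Gd (S b) r') u hu0 hG
  rw [tot_coinW] at key
  have hlog : Real.log (1 / u) = r' * (L - r) * Real.log 2 := by
    rw [hu, one_div, Real.log_inv, Real.log_mul (by positivity) (by positivity), Real.log_pow,
      Real.log_pow, Real.log_rpow (by norm_num)]
    push_cast
    ring
  rw [hlog] at key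
  have hl0 : 0 ≤ r' * (L - r) * Real.log 2 := by
    have := Real.log_nonneg (by norm_num : (1 : ℝ) ≤ 2)
    have h3 : 0 ≤ L - r := by linarith
    positivity
  have hp : 3 / 4 * (∑ ω, if ω ∈ good then w ω else 0)
      ≤ ∑ p : Ω × (Fin r → H), if (fun l => φ p.1 (p.2 l)) ∈ Gd (S (D p.1)) r'
        then coinW H w r p else 0 := by
    rw [Fintype.sum_prod_type, Finset.mul_sum]
    refine Finset.sum_le_sum fun ω _ => ?_
    by_cases hω : ω ∈ good ∧ w ω ≠ 0
    · obtain ⟨hg, hw0⟩ := hω
      rw [if_pos hg]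
      have h1 := hgood ω hg hw0
      have h2 := many_indep (r := r) (r' := r') (φ ω ⁻¹' S (D ω)) (hμ.trans h1) (hr'.trans h1)
      have h3 : ∀ x : Fin r → H, (if (fun l => φ ω (x l)) ∈ Gd (S (D ω)) r'
          then coinW H w r (ω, x) else 0)
          = (w ω / (Fintype.card H : ℝ) ^ r) * if x ∈ Gd (φ ω ⁻¹' S (D ω)) r' then (1 : ℝ) else 0 := by
        intro x
        simp only [Gd_map, coinW]
        split <;> simp
      simp only
      rw [Finset.sum_congr rfl fun x _ => h3 x, ← Finset.mul_sum]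
      have h4 : 0 ≤ w ω / (Fintype.card H : ℝ) ^ r := div_nonneg (hw ω) hcH.le
      refine le_trans (le_of_eq ?_) (mul_le_mul_of_nonneg_left h2 h4)
      field_simp
    · have h1 : 3 / 4 * (if ω ∈ good then w ω else 0) = 0 := by
        by_cases hg : ω ∈ good
        · have : w ω = 0 := by
            by_contra h
            exact hω ⟨hg, h⟩
          simp [this]
        · simp [hg]
      rw [h1]
      refine Finset.sum_nonneg fun x _ => ?_
      split
      · exact coinW_nonneg w hw r _
      · exact le_rfl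
  have := mul_le_mul_of_nonneg_right hp hl0
  linarith

open Classical in
/-- the law of the siblings is the image of the uniform law on the power of `T` -/
lemma sum_prod_uT_sub {n r : ℕ} (T : Submodule (ZMod 2) (V n)) (g : (Fin r → V n) → ℝ) :
    ∑ x : Fin r → V n, (∏ l, uT T (x l)) * g x
      = (∑ y : Fin r → T, g (fun l => (y l : V n))) / (Fintype.card T : ℝ) ^ r := by
  classical
  have hc : (Nat.card T : ℝ) = Fintype.card T := by rw [Nat.card_eq_fintype_card]
  rw [Finset.sum_div]
  symm
  refine Fintype.sum_of_injective (fun (y : Fin r → T) l => (y l : V n)) ?_ _ _ ?_ ?_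
  · intro y y' h
    funext l
    exact Subtype.ext (congrFun h l)
  · intro x hx
    have h1 : ∃ l, x l ∉ T := by
      by_contra h
      push Not at h
      exact hx ⟨fun l => ⟨x l, h l⟩, rfl⟩
    obtain ⟨l, hl⟩ := h1
    have h2 : ∏ l, uT T (x l) = 0 := by
      refine Finset.prod_eq_zero (Finset.mem_univ l) ?_
      unfold uT
      rw [if_neg hl]
    rw [h2, zero_mul]
  · intro y
    have h2 : ∏ l, uT T (y l : V n) = 1 / (Fintype.card T : ℝ) ^ r := by
      have h3 : ∀ l ∈ (Finset.univ : Finset (Fin r)), uT T (y l : V n) = 1 / (Fintype.card T : ℝ) := by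
        intro l _
        unfold uT
        rw [if_pos (y l).2, hc]
      rw [Finset.prod_congr rfl h3, Finset.prod_const, Finset.card_univ, Fintype.card_fin, one_div,
        one_div, inv_pow]
    simp only [h2]
    ring

open Classical in
/-- the mass of a set under the uniform weight of `T` is its density -/
lemma mass_uT_dns {n : ℕ} (T : Submodule (ZMod 2) (V n)) (S : Set (V n)) :
    (∑ x, if x ∈ S then uT T x else 0) = dns ((T.subtype : T →ₗ[ZMod 2] V n) ⁻¹' S) := by
  have hc : (Nat.card T : ℝ) = Fintype.card T := by rw [Nat.card_eq_fintype_card]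
  unfold dns uT
  rw [← Finset.sum_filter, ← Finset.sum_filter, Finset.sum_const, nsmul_eq_mul, hc, mul_one_div]
  congr 2
  rw [Nat.card_eq_fintype_card, ← Fintype.card_coe]
  refine Fintype.card_congr
    { toFun := fun x => ⟨⟨x.1, ?_⟩, ?_⟩
      invFun := fun x => ⟨x.1.1, ?_⟩
      left_inv := fun _ => rfl
      right_inv := fun _ => rfl }
  · exact (Finset.mem_filter.1 x.2).2
  · exact (Finset.mem_filter.1 (Finset.mem_filter.1 x.2).1).2
  · rw [Finset.mem_filter, Finset.mem_filter]
    exact ⟨⟨Finset.mem_univ _, x.2⟩, x.1.2⟩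

open Classical in
/-- (A4) AMPLIFICATION, sibling form.  If for `ω` in `good` a fresh sibling lies in the small set
`S (D ω)` with probability at least `μ / (2 ^ r - 1)`, then `r` siblings are visible. -/
theorem amp_sib (w : Ω → ℝ) (hw : ∀ ω, 0 ≤ w ω) {n : ℕ} (T : Ω → Submodule (ZMod 2) (V n))
    (D : Ω → B) (S : B → Set (V n)) (L : ℝ) (r r' : ℕ) (hL : (r : ℝ) ≤ L)
    (hS : ∀ b, (Nat.card (S b) : ℝ) * (2 : ℝ) ^ L ≤ 2 ^ n) (good : Set Ω) (μ : ℝ)
    (hμ : 16 ≤ μ) (hr' : 2 ^ r' ≤ μ)
    (hgood : ∀ ω ∈ good, w ω ≠ 0 →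
      μ ≤ (2 ^ r - 1) * ∑ x, if x ∈ S (D ω) then uT (T ω) x else 0) :
    3 / 4 * (∑ ω, if ω ∈ good then w ω else 0) * (r' * (L - r) * Real.log 2) - tot w * Real.log 2
      ≤ KK (sib w T r) (fun p => p.2) (fun p => D p.1) := by
  have hcA : (Fintype.card (V n) : ℝ) = 2 ^ n := by
    simp [V, ZMod.card]
  set u : ℝ := 2 ^ (r * r') * ((2 : ℝ) ^ (-L)) ^ r' with hu
  have h2L : (0 : ℝ) < (2 : ℝ) ^ (-L) := Real.rpow_pos_of_pos (by norm_num) _
  have hu0 : 0 < u := by positivity
  have hG : ∀ b, (Nat.card (Gd (r := r) (S b) r') : ℝ) ≤ u * Fintype.card (Fin r → V n) := by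
    intro b
    have h1 := card_Gd (r := r) r' (S b)
    have h2 : (Nat.card (S b) : ℝ) ≤ (2 : ℝ) ^ (-L) * Fintype.card (V n) := by
      have h3 := hS b
      rw [Real.rpow_neg (by norm_num), ← div_eq_inv_mul, le_div_iff₀ (Real.rpow_pos_of_pos (by norm_num) _), hcA]
      exact h3
    have h4 : (Nat.card (S b) : ℝ) ^ r' ≤ ((2 : ℝ) ^ (-L)) ^ r' * (Fintype.card (V n) : ℝ) ^ r' := by
      rw [← mul_pow]
      exact pow_le_pow_left₀ (Nat.cast_nonneg _) h2 r'
    have hcV : (0 : ℝ) < Fintype.card (V n) := cardH_pos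
    have h5 : (0 : ℝ) < (Fintype.card (V n) : ℝ) ^ r' := by positivity
    rw [card_vec]
    have h6 : (Nat.card (Gd (r := r) (S b) r') : ℝ) * (Fintype.card (V n) : ℝ) ^ r'
        ≤ (u * (Fintype.card (V n) : ℝ) ^ r) * (Fintype.card (V n) : ℝ) ^ r' := by
      refine h1.trans ?_
      have h7 : (2 : ℝ) ^ (r * r') * (Nat.card (S b) : ℝ) ^ r' * (Fintype.card (V n) : ℝ) ^ r
          ≤ 2 ^ (r * r') * (((2 : ℝ) ^ (-L)) ^ r' * (Fintype.card (V n) : ℝ) ^ r')
            * (Fintype.card (V n) : ℝ) ^ r := by gcongr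
      refine h7.trans (le_of_eq ?_)
      rw [hu]
      ring
    exact le_of_mul_le_mul_right h6 h5
  have key := KK_event (sib w T r) (sib_nonneg_sib w hw T r) (fun p => p.2)
    (fun p => D p.1) (fun b => Gd (S b) r') u hu0 hG
  rw [tot_sib] at key
  have hlog : Real.log (1 / u) = r' * (L - r) * Real.log 2 := by
    rw [hu, one_div, Real.log_inv, Real.log_mul (by positivity) (by positivity), Real.log_pow,
      Real.log_pow, Real.log_rpow (by norm_num)]
    push_cast
    ring
  rw [hlog] at key
  have hl0 : 0 ≤ r' * (L - r) * Real.log 2 := by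
    have := Real.log_nonneg (by norm_num : (1 : ℝ) ≤ 2)
    have h3 : 0 ≤ L - r := by linarith
    positivity
  have hp : 3 / 4 * (∑ ω, if ω ∈ good then w ω else 0)
      ≤ ∑ p : Ω × (Fin r → V n), if p.2 ∈ Gd (S (D p.1)) r' then sib w T r p else 0 := by
    rw [Fintype.sum_prod_type, Finset.mul_sum]
    refine Finset.sum_le_sum fun ω _ => ?_
    by_cases hω : ω ∈ good ∧ w ω ≠ 0
    · obtain ⟨hg, hw0⟩ := hω
      rw [if_pos hg]
      have h1 := hgood ω hg hw0
      rw [mass_uT_dns] at h1
      have h2 := many_indep (r := r) (r' := r') (((T ω).subtype : T ω →ₗ[ZMod 2] V n) ⁻¹' S (D ω))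
        (hμ.trans h1) (hr'.trans h1)
      have hcT : (0 : ℝ) < (Fintype.card (T ω) : ℝ) ^ r := pow_pos cardH_pos r
      have h3 : ∀ x : Fin r → V n, (if x ∈ Gd (S (D ω)) r' then sib w T r (ω, x) else 0)
          = w ω * ((∏ l, uT (T ω) (x l)) * if x ∈ Gd (S (D ω)) r' then (1 : ℝ) else 0) := by
        intro x
        simp only [sib]
        split <;> simp
      simp only
      rw [Finset.sum_congr rfl fun x _ => h3 x, ← Finset.mul_sum, sum_prod_uT_sub,
        mul_comm (3 / 4 : ℝ)]
      refine mul_le_mul_of_nonneg_left ?_ (hw ω)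
      rw [le_div_iff₀ hcT]
      refine h2.trans (le_of_eq ?_)
      refine Finset.sum_congr rfl fun y _ => ?_
      have h4 := Gd_map (r' := r') ((T ω).subtype : T ω →ₗ[ZMod 2] V n) (S (D ω)) y
      have h5 : (fun l => ((T ω).subtype (y l) : V n)) = fun l => (y l : V n) := rfl
      rw [h5] at h4
      simp only [h4]
    · have h1 : 3 / 4 * (if ω ∈ good then w ω else 0) = 0 := by
        by_cases hg : ω ∈ good
        · have : w ω = 0 := by
            by_contra h
            exact hω ⟨hg, h⟩
          simp [this]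
        · simp [hg]
      rw [h1]
      refine Finset.sum_nonneg fun x _ => ?_
      split
      · exact sib_nonneg_sib w hw T r _
      · exact le_rfl
  have := mul_le_mul_of_nonneg_right hp hl0
  linarith

end Amp

end Pool.Agent.CutSeq.NJ.A43
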