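import Pool.Agent.NJ.Prod13

/-!
S19271 / linear NOJUMP (helper16's page, section 2), row LC (helper58).

LEMMA C: if two laws `p`, `q` have small Jensen-Shannon divergence, then the conditional entropies of one
bit differ by at most a constant times the root of (divergence times the sum of the two deficits).
-/

set_option autoImplicit false

namespace Pool.Agent.CutSeq.NJ

open Finset

/-- `log² x ≤ 4 (log x - 1 + 1 / x)` for `0 < x ≤ 2` -/
lemma sq_log_le58 (x : ℝ) (h0 : 0 < x) (h2 : x ≤ 2) :
    Real.log x ^ 2 ≤ 4 * (Real.log x - 1 + 1 / x) := by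
  set u := Real.log x with hu
  have hx : 1 / x = Real.exp (-u) := by
    rw [Real.exp_neg, hu, Real.exp_log h0, one_div]
  have hu1 : u ≤ 1 := by
    have h3 : u ≤ Real.log 2 := Real.log_le_log h0 h2
    have h4 := Real.log_two_lt_d9
    linarith
  rw [hx]
  rcases le_total u 0 with h | h
  · have h5 := Real.quadratic_le_exp_of_nonneg (x := -u) (by linarith)
    nlinarith [sq_nonneg u]
  · have h6 := Real.exp_bound (x := -u) (n := 3) (by rw [abs_neg, abs_of_nonneg h]; exact hu1)
      (by norm_num)
    rw [abs_neg, abs_of_nonneg h] at h6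
    have h7 := (abs_le.1 h6).1
    simp only [Finset.sum_range_succ, Finset.sum_range_zero, Nat.factorial] at h7
    norm_num at h7
    nlinarith [sq_nonneg u, mul_nonneg (sq_nonneg u) h, mul_le_mul_of_nonneg_left hu1 (sq_nonneg u)]

section C

variable {S A B : Type*} [Fintype S] [Fintype A]

/-- **LEMMA C**. -/
theorem lemC58 (hA : Fintype.card A = 2) (p q : S → ℝ) (hp : ∀ s, 0 ≤ p s) (hq : ∀ s, 0 ≤ q s)
    (hpq : tot p = tot q) (X : S → A) (Y : S → B) :
    KK p X Y - KK q X Y ≤ 8 * Real.sqrt (((ent p + ent q) / 2 - ent (fun s => (p s + q s) / 2)) *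
      (KK p X Y + KK q X Y)) := by
  classical
  set m : S → ℝ := fun s => (p s + q s) / 2 with hm
  have hm0 : ∀ s, 0 ≤ m s := fun s => by
    simp only [hm]
    linarith [hp s, hq s]
  have hpm : ∀ s, p s ≠ 0 → m s ≠ 0 := fun s h => by
    simp only [hm]
    have := lt_of_le_of_ne (hp s) h.symm
    linarith [hq s]
  have hqm : ∀ s, q s ≠ 0 → m s ≠ 0 := fun s h => by
    simp only [hm]
    have := lt_of_le_of_ne (hq s) h.symm
    linarith [hp s]
  have htm : tot m = tot p := by
    unfold tot at hpq ⊢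
    simp only [hm]
    rw [← Finset.sum_div, Finset.sum_add_distrib, ← hpq]
    ring
  have htm' : tot m = tot q := htm.trans hpq
  have hA' : ((Fintype.card A : ℕ) : ℝ) = 2 := by rw [hA]; norm_num
  -- the conditional density of `m`
  set ψ : A → B → ℝ := fun a b => 2 * mass m (fun s => (X s, Y s)) (a, b) / mass m Y b with hψd
  set f : S → ℝ := fun s => Real.log (ψ (X s) (Y s)) with hf
  have hM1 : ∀ s, m s ≠ 0 → 0 < mass m (fun s => (X s, Y s)) (X s, Y s) := fun s h =>
    mass_pos m hm0 (fun s => (X s, Y s)) h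
  have hM2 : ∀ s, m s ≠ 0 → 0 < mass m Y (Y s) := fun s h => mass_pos m hm0 Y h
  have hψ0 : ∀ a b, 0 ≤ ψ a b := fun a b =>
    div_nonneg (mul_nonneg (by norm_num) (mass_nonneg m hm0 _ _)) (mass_nonneg m hm0 _ _)
  have hψ1 : ∀ s, m s ≠ 0 → 0 < ψ (X s) (Y s) := fun s h =>
    div_pos (mul_pos (by norm_num) (hM1 s h)) (hM2 s h)
  have hψ2 : ∀ s, m s ≠ 0 → ∑ a, ψ a (Y s) = Fintype.card A := by
    intro s h
    simp only [hψd]
    rw [← Finset.sum_div, ← Finset.mul_sum, sum_mass m X Y (Y s), hA', mul_div_assoc,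
      div_self (hM2 s h).ne', mul_one]
  have hψle : ∀ s, m s ≠ 0 → ψ (X s) (Y s) ≤ 2 := by
    intro s h
    rw [← hA', ← hψ2 s h]
    exact Finset.single_le_sum (f := fun a => ψ a (Y s)) (fun a _ => hψ0 a _) (Finset.mem_univ _)
  have hKm : KK m X Y = ∑ s, m s * f s := by
    unfold KK
    refine Finset.sum_congr rfl fun s _ => ?_
    simp only [hf, hψd, hA']
  have hKq : ∑ s, q s * f s ≤ KK q X Y := DV_density q hq X Y ψ hψ0 (fun s h => hψ1 s (hqm s h))
    (fun s h => hψ2 s (hqm s h))
  have hKp : ∑ s, p s * f s ≤ KK p X Y := DV_density p hp X Y ψ hψ0 (fun s h => hψ1 s (hpm s h))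
    (fun s h => hψ2 s (hpm s h))
  have hmf : ∑ s, m s * f s ≤ (KK p X Y + KK q X Y) / 2 := by
    have : ∑ s, m s * f s = (∑ s, p s * f s + ∑ s, q s * f s) / 2 := by
      rw [← Finset.sum_add_distrib, Finset.sum_div]
      refine Finset.sum_congr rfl fun s _ => ?_
      simp only [hm]
      ring
    rw [this]
    linarith
  -- second moment
  have hf2 : ∑ s, m s * f s ^ 2 ≤ 4 * ∑ s, m s * f s := by
    have h1 := basic_count m hm0 X Y (fun _ _ => 1 / 2) (fun _ _ => by norm_num)
    have h2 : ∑ s, m s * ∑ _a : A, (1 / 2 : ℝ) = ∑ s, m s := by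
      refine Finset.sum_congr rfl fun s _ => ?_
      rw [Finset.sum_const, Finset.card_univ, nsmul_eq_mul, hA']
      ring
    rw [h2] at h1
    have h3 : ∀ s ∈ (Finset.univ : Finset S), m s * f s ^ 2 ≤ 4 * (m s * f s) - 4 * m s +
        4 * (m s * (1 / 2 * mass m Y (Y s) / mass m (fun s => (X s, Y s)) (X s, Y s))) := by
      intro s _
      by_cases h : m s = 0
      · simp [h]
      · have h4 := sq_log_le58 (ψ (X s) (Y s)) (hψ1 s h) (hψle s h)
        have h5 : 1 / ψ (X s) (Y s) =
            1 / 2 * mass m Y (Y s) / mass m (fun s => (X s, Y s)) (X s, Y s) := by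
          simp only [hψd]
          have h6 := (hM1 s h).ne'
          have h7 := (hM2 s h).ne'
          field_simp
        rw [h5] at h4
        have h8 := mul_le_mul_of_nonneg_left h4 (hm0 s)
        simp only [hf]
        nlinarith [h8]
    have h9 := Finset.sum_le_sum h3
    rw [Finset.sum_add_distrib, Finset.sum_sub_distrib, ← Finset.mul_sum, ← Finset.mul_sum,
      ← Finset.mul_sum] at h9
    linarith
  -- the divergence
  set Φ : S → ℝ := fun s => p s * Real.log (p s) + q s * Real.log (q s)
    - 2 * ((p s + q s) / 2 * Real.log ((p s + q s) / 2)) with hΦ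
  have hΦ0 : ∀ s, 0 ≤ Φ s := by
    intro s
    rcases (add_nonneg (hp s) (hq s)).eq_or_lt with h | h
    · have h1 : p s = 0 := by linarith [hp s, hq s]
      have h2 : q s = 0 := by linarith [hp s, hq s]
      simp only [hΦ]
      rw [h1, h2]
      simp
    · have h3 := pair_ineq _ _ (hp s) (hq s)
      by_contra h4
      push Not at h4
      have h5 : 4 * (p s + q s) * Φ s < 0 := mul_neg_of_pos_of_neg (by linarith) h4
      simp only [hΦ] at h5
      nlinarith [sq_nonneg (p s - q s)]
  have hΦs : ∑ s, Φ s = 2 * ((ent p + ent q) / 2 - ent m) := by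
    unfold ent
    simp only [hΦ, hm]
    rw [Finset.sum_sub_distrib, Finset.sum_add_distrib, ← Finset.mul_sum]
    ring
  set J : ℝ := (ent p + ent q) / 2 - ent m with hJ
  have hJ0 : 0 ≤ J := by
    have : 0 ≤ ∑ s, Φ s := Finset.sum_nonneg fun s _ => hΦ0 s
    linarith
  -- first term
  have hT1 : (∑ s, (p s - q s) * f s) ^ 2 ≤ 32 * (J * (KK p X Y + KK q X Y)) := by
    have h1 : (∑ s, (p s - q s) * f s) ^ 2 ≤ (∑ s, 4 * Φ s) * ∑ s, 2 * (m s * f s ^ 2) := by
      refine Finset.sum_sq_le_sum_mul_sum_of_sq_le_mul _ (fun s _ => ?_) (fun s _ => ?_)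
        (fun s _ => ?_)
      · exact mul_nonneg (by norm_num) (hΦ0 s)
      · exact mul_nonneg (by norm_num) (mul_nonneg (hm0 s) (sq_nonneg _))
      · have h2 := mul_le_mul_of_nonneg_right (pair_ineq _ _ (hp s) (hq s)) (sq_nonneg (f s))
        simp only [hΦ, hm]
        nlinarith [h2]
    rw [← Finset.mul_sum, ← Finset.mul_sum, hΦs] at h1
    have h3 : (4 * (2 * J)) * (2 * ∑ s, m s * f s ^ 2) ≤
        (4 * (2 * J)) * (2 * (4 * ((KK p X Y + KK q X Y) / 2))) :=
      mul_le_mul_of_nonneg_left (by linarith) (by positivity)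
    nlinarith [h1, h3]
  -- second term
  have hT2 : KK p X Y - ∑ s, p s * f s ≤ 2 * J := by
    have h1 := basic_count m hm0 X Y
      (fun a b => mass p (fun s => (X s, Y s)) (a, b) / mass p Y b)
      (fun a b => div_nonneg (mass_nonneg p hp _ _) (mass_nonneg p hp _ _))
    have h2 : ∑ s, m s * ∑ a : A, mass p (fun s => (X s, Y s)) (a, Y s) / mass p Y (Y s)
        ≤ ∑ s, m s := by
      refine Finset.sum_le_sum fun s _ => ?_
      rw [← Finset.sum_div, sum_mass p X Y (Y s)]
      exact mul_le_of_le_one_right (hm0 s) (div_self_le_one _)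
    have h3 : ∀ s ∈ (Finset.univ : Finset S), p s * Real.log (Fintype.card A *
        mass p (fun s => (X s, Y s)) (X s, Y s) / mass p Y (Y s)) - p s * f s ≤
        (p s * Real.log (p s) - p s * Real.log (m s)) - p s +
        m s * (mass p (fun s => (X s, Y s)) (X s, Y s) / mass p Y (Y s) * mass m Y (Y s) /
          mass m (fun s => (X s, Y s)) (X s, Y s)) := by
      intro s _
      have hnn : 0 ≤ m s * (mass p (fun s => (X s, Y s)) (X s, Y s) / mass p Y (Y s) *
          mass m Y (Y s) / mass m (fun s => (X s, Y s)) (X s, Y s)) :=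
        mul_nonneg (hm0 s) (div_nonneg (mul_nonneg (div_nonneg (mass_nonneg p hp _ _)
          (mass_nonneg p hp _ _)) (mass_nonneg m hm0 _ _)) (mass_nonneg m hm0 _ _))
      by_cases h : p s = 0
      · rw [h]
        simp only [zero_mul, sub_zero, zero_add]
        exact hnn
      · have hp1 : 0 < p s := lt_of_le_of_ne (hp s) (Ne.symm h)
        have hm1 : 0 < m s := lt_of_le_of_ne (hm0 s) (Ne.symm (hpm s h))
        have a1 := mass_pos p hp (fun s => (X s, Y s)) h
        have a2 := mass_pos p hp Y h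
        have a3 := hM1 s (hpm s h)
        have a4 := hM2 s (hpm s h)
        have h4 := Real.log_le_sub_one_of_pos (x := m s * (mass p (fun s => (X s, Y s)) (X s, Y s) /
          mass p Y (Y s) * mass m Y (Y s) / mass m (fun s => (X s, Y s)) (X s, Y s)) / p s)
          (by positivity)
        have h5 : Real.log (m s * (mass p (fun s => (X s, Y s)) (X s, Y s) /
            mass p Y (Y s) * mass m Y (Y s) / mass m (fun s => (X s, Y s)) (X s, Y s)) / p s) =
            Real.log (m s) - Real.log (p s) + (Real.log (Fintype.card A *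
              mass p (fun s => (X s, Y s)) (X s, Y s) / mass p Y (Y s)) - f s) := by
          simp only [hf, hψd, hA']
          rw [← Real.log_div hm1.ne' hp1.ne', ← Real.log_div (by positivity) (by positivity),
            ← Real.log_mul (by positivity) (by positivity)]
          apply congrArg
          field_simp
        rw [h5] at h4
        have h6 := mul_le_mul_of_nonneg_left h4 hp1.le
        have h7 : p s * (m s * (mass p (fun s => (X s, Y s)) (X s, Y s) / mass p Y (Y s) *
            mass m Y (Y s) / mass m (fun s => (X s, Y s)) (X s, Y s)) / p s - 1) =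
            m s * (mass p (fun s => (X s, Y s)) (X s, Y s) / mass p Y (Y s) *
            mass m Y (Y s) / mass m (fun s => (X s, Y s)) (X s, Y s)) - p s := by
          field_simp
        rw [h7] at h6
        linarith
    have h8 := Finset.sum_le_sum h3
    rw [Finset.sum_sub_distrib, Finset.sum_add_distrib, Finset.sum_sub_distrib] at h8
    have h9 : ∑ s, (q s - m s) ≤ ∑ s, (q s * Real.log (q s) - q s * Real.log (m s)) := by
      refine Finset.sum_le_sum fun s _ => ?_
      by_cases h : q s = 0
      · rw [h]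
        simp only [zero_mul, sub_zero, zero_sub]
        linarith [hm0 s]
      · have hq1 : 0 < q s := lt_of_le_of_ne (hq s) (Ne.symm h)
        have hm1 : 0 < m s := lt_of_le_of_ne (hm0 s) (Ne.symm (hqm s h))
        have h4 := Real.log_le_sub_one_of_pos (x := m s / q s) (by positivity)
        rw [Real.log_div hm1.ne' hq1.ne'] at h4
        have h6 := mul_le_mul_of_nonneg_left h4 hq1.le
        have h7 : q s * (m s / q s - 1) = m s - q s := by
          field_simp
        rw [h7] at h6
        linarith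
    have h10 : ∑ s, (p s * Real.log (p s) - p s * Real.log (m s)) +
        ∑ s, (q s * Real.log (q s) - q s * Real.log (m s)) = 2 * J := by
      rw [← hΦs, ← Finset.sum_add_distrib]
      refine Finset.sum_congr rfl fun s _ => ?_
      simp only [hΦ, hm]
      ring
    have h11 : KK p X Y = ∑ s, p s * Real.log (Fintype.card A *
        mass p (fun s => (X s, Y s)) (X s, Y s) / mass p Y (Y s)) := rfl
    rw [Finset.sum_sub_distrib] at h9
    unfold tot at htm htm'
    rw [h11]
    linarith
  -- conclusion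
  have hK0 : 0 ≤ KK p X Y + KK q X Y := add_nonneg (KK_nonneg p hp X Y) (KK_nonneg q hq X Y)
  set K : ℝ := KK p X Y + KK q X Y with hK
  have hr0 := Real.sqrt_nonneg (J * K)
  have hr := Real.mul_self_sqrt (mul_nonneg hJ0 hK0)
  have hd : KK p X Y - KK q X Y ≤ K := by
    have := KK_nonneg q hq X Y
    linarith
  rcases le_total J K with h | h
  · have h1 : ∑ s, (p s - q s) * f s ≤ 6 * Real.sqrt (J * K) := by
      refine abs_le_of_sq_le_sq' ?_ (by positivity) |>.2
      nlinarith
    have h2 : J ≤ Real.sqrt (J * K) := by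
      refine Real.le_sqrt_of_sq_le ?_
      nlinarith
    have h3 : ∑ s, (p s - q s) * f s = ∑ s, p s * f s - ∑ s, q s * f s := by
      rw [← Finset.sum_sub_distrib]
      refine Finset.sum_congr rfl fun s _ => ?_
      ring
    linarith
  · have h2 : K ≤ Real.sqrt (J * K) := by
      refine Real.le_sqrt_of_sq_le ?_
      nlinarith
    linarith

/-- the divergence is nonnegative -/
theorem js_nonneg58 (p q : S → ℝ) (hp : ∀ s, 0 ≤ p s) (hq : ∀ s, 0 ≤ q s) :
    0 ≤ (ent p + ent q) / 2 - ent (fun s => (p s + q s) / 2) := by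
  have h0 : ∀ s ∈ (Finset.univ : Finset S), 0 ≤ p s * Real.log (p s) + q s * Real.log (q s)
      - 2 * ((p s + q s) / 2 * Real.log ((p s + q s) / 2)) := by
    intro s _
    rcases (add_nonneg (hp s) (hq s)).eq_or_lt with h | h
    · have h1 : p s = 0 := by linarith [hp s, hq s]
      have h2 : q s = 0 := by linarith [hp s, hq s]
      rw [h1, h2]
      simp
    · have h3 := pair_ineq _ _ (hp s) (hq s)
      by_contra h4
      push Not at h4
      have h5 : 4 * (p s + q s) * (p s * Real.log (p s) + q s * Real.log (q s)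
        - 2 * ((p s + q s) / 2 * Real.log ((p s + q s) / 2))) < 0 :=
        mul_neg_of_pos_of_neg (by linarith) h4
      nlinarith [sq_nonneg (p s - q s)]
  have h1 := Finset.sum_nonneg h0
  rw [Finset.sum_sub_distrib, Finset.sum_add_distrib, ← Finset.mul_sum] at h1
  unfold ent
  linarith

/-- **LEMMA C** for an involution of the values: law `f`, image `f ∘ σ` -/
theorem lemC_inv58 (hA : Fintype.card A = 2) (f : S → ℝ) (hf : ∀ s, 0 ≤ f s) (σ : S → S)
    (hσ : ∀ s, σ (σ s) = s) (X : S → A) (Y : S → B) :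
    KK f X Y - KK (fun s => f (σ s)) X Y ≤ 8 * Real.sqrt ((ent f - ent (avg2 σ f)) *
      (KK f X Y + KK (fun s => f (σ s)) X Y)) := by
  have hs : ∀ g : S → ℝ, ∑ a, g (σ a) = ∑ a, g a := fun g =>
    Equiv.sum_comp (⟨σ, σ, hσ, hσ⟩ : S ≃ S) g
  have h1 := lemC58 hA f (fun s => f (σ s)) hf (fun s => hf _) (by
    unfold tot
    exact (hs f).symm) X Y
  have h2 : ent (fun s => f (σ s)) = ent f := by
    unfold ent
    exact hs (fun a => f a * Real.log (f a))
  rw [h2] at h1
  have h3 : (ent f + ent f) / 2 = ent f := by ring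
  rw [h3] at h1
  exact h1

lemma mass_inv58 {C : Type*} (f : S → ℝ) (σ : S → S) (hσ : ∀ s, σ (σ s) = s) (Z : S → C) (c : C) :
    mass (fun s => f (σ s)) Z c = mass f (fun s => Z (σ s)) c := by
  classical
  have hs : ∀ g : S → ℝ, ∑ a, g (σ a) = ∑ a, g a := fun g =>
    Equiv.sum_comp (⟨σ, σ, hσ, hσ⟩ : S ≃ S) g
  unfold mass
  rw [← hs (fun s => if Z s = c then f (σ s) else 0)]
  refine Finset.sum_congr rfl fun s _ => ?_
  rw [hσ]

/-- moving an involution from the weight to the variables -/
theorem KK_inv58 {A' B' : Type*} [Fintype A'] (f : S → ℝ) (σ : S → S) (hσ : ∀ s, σ (σ s) = s)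
    (X : S → A') (Y : S → B') :
    KK (fun s => f (σ s)) X Y = KK f (fun s => X (σ s)) (fun s => Y (σ s)) := by
  classical
  have hs : ∀ g : S → ℝ, ∑ a, g (σ a) = ∑ a, g a := fun g =>
    Equiv.sum_comp (⟨σ, σ, hσ, hσ⟩ : S ≃ S) g
  unfold KK
  rw [← hs (fun s => f (σ s) * Real.log (Fintype.card A' *
    mass (fun s => f (σ s)) (fun s => (X s, Y s)) (X s, Y s) / mass (fun s => f (σ s)) Y (Y s)))]
  refine Finset.sum_congr rfl fun s _ => ?_
  rw [hσ, mass_inv58 f σ hσ, mass_inv58 f σ hσ]

/-- the form used by (UP): `K (X | Y) - K (X' | Y)` where `X' = X ∘ σ` and `Y ∘ σ` is equivalent to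
`Y`: drop of the deficit of one bit, bounded by production times the deficit of two bits -/
theorem lemC_bit58 (hA : Fintype.card A = 2) (f : S → ℝ) (hf : ∀ s, 0 ≤ f s) (σ : S → S)
    (hσ : ∀ s, σ (σ s) = s) (X : S → A) (Y : S → B)
    (hY : ∀ s s', Y (σ s) = Y (σ s') ↔ Y s = Y s') :
    KK f X Y - KK f (fun s => X (σ s)) Y ≤ 8 * Real.sqrt ((ent f - ent (avg2 σ f)) *
      (KK f X Y + KK f (fun s => X (σ s)) Y)) := by
  classical
  have h1 := lemC_inv58 hA f hf σ hσ X Y
  have h2 : KK (fun s => f (σ s)) X Y = KK f (fun s => X (σ s)) Y := by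
    rw [KK_inv58 f σ hσ X Y]
    unfold KK
    refine Finset.sum_congr rfl fun s _ => ?_
    have e1 : mass f (fun s => (X (σ s), Y (σ s))) (X (σ s), Y (σ s))
        = mass f (fun s => (X (σ s), Y s)) (X (σ s), Y s) := by
      refine mass_congr f _ _ _ _ fun s' _ => ?_
      simp only [Prod.mk.injEq, hY]
    have e2 : mass f (fun s => Y (σ s)) (Y (σ s)) = mass f Y (Y s) := by
      refine mass_congr f _ _ _ _ fun s' _ => ?_
      exact hY s' s
    rw [e1, e2]
  rw [h2] at h1
  exact h1

end C

end Pool.Agent.CutSeq.NJ
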