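import Pool.Agent.CutSeq.Ent

/-!
S19271, linear NOJUMP, section 1, abstract half: prefixes of the row under one right letter.

`w` is a weight on a finite set, `R` the row, `D` the full data (first array and all letters), `Y` the
coarser data (present array).  One further letter `(β, ξ)` adds `ξ R_(β+1)` to `R_β` (`R_n := 1`).
-/

set_option autoImplicit false

namespace Pool.Agent.CutSeq.NJ.P63

open Finset

variable {Ω A A' B B' : Type*} [Fintype Ω] [Fintype A] [Fintype A']

/-! #### the information of `X` in the finer data -/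

/-- information about the finer data `D` (against the coarser data `Y`) in `X` -/
noncomputable def Jx (w : Ω → ℝ) (X : Ω → A) (D : Ω → B) (Y : Ω → B') : ℝ := KK w X D - KK w X Y

theorem Jx_nonneg (w : Ω → ℝ) (hw : ∀ ω, 0 ≤ w ω) (X : Ω → A) (D : Ω → B) (Y : Ω → B')
    (h : ∀ ω ω', w ω ≠ 0 → w ω' ≠ 0 → D ω = D ω' → Y ω = Y ω') : 0 ≤ Jx w X D Y :=
  sub_nonneg.2 (KK_finer w hw X Y D h)

/-- `Jx` is monotone in `X` -/
theorem Jx_pair (w : Ω → ℝ) (hw : ∀ ω, 0 ≤ w ω) (X : Ω → A) (X' : Ω → A') (D : Ω → B) (Y : Ω → B')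
    (h : ∀ ω ω', w ω ≠ 0 → w ω' ≠ 0 → D ω = D ω' → Y ω = Y ω') :
    Jx w X D Y ≤ Jx w (fun ω => (X ω, X' ω)) D Y := by
  unfold Jx
  rw [KK_chain w hw X X' D, KK_chain w hw X X' Y]
  have h1 := KK_finer w hw X' (fun ω => (X ω, Y ω)) (fun ω => (X ω, D ω)) (by
    intro ω ω' hω hω' he
    have he' := Prod.mk.inj he
    exact Prod.ext he'.1 (h ω ω' hω hω' he'.2))
  linarith

theorem Jx_bij (w : Ω → ℝ) (hw : ∀ ω, 0 ≤ w ω) (X : Ω → A) (X' : Ω → A') (D : Ω → B) (Y : Ω → B')
    (σ : A ≃ A') (h : ∀ ω, X' ω = σ (X ω)) : Jx w X' D Y = Jx w X D Y := by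
  unfold Jx
  rw [KK_bij w hw X X' D (fun _ => σ) (fun ω _ => h ω), KK_bij w hw X X' Y (fun _ => σ) (fun ω _ => h ω)]

/-! #### an independent letter in the data -/

omit [Fintype A'] in
theorem mass_prod {P : Type*} [Fintype P] (w : Ω → ℝ) (u : P → ℝ) {C : Type*} (Z : Ω → P → C)
    (z : C) (p : P) : mass (fun q : Ω × P => w q.1 * u q.2) (fun q => (Z q.1 q.2, q.2)) (z, p)
      = u p * mass w (fun ω => Z ω p) z := by
  classical
  unfold mass
  rw [Fintype.sum_prod_type, mul_sum]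
  refine sum_congr rfl fun ω _ => ?_
  rw [sum_eq_single p]
  · by_cases h : Z ω p = z
    · rw [if_pos (show (Z ω p, p) = (z, p) by rw [h]), if_pos h, mul_comm]
    · rw [if_neg (fun hh => h (Prod.mk.inj hh).1), if_neg h, mul_zero]
  · intro p' _ hp'
    exact if_neg fun hh => hp' (Prod.mk.inj hh).2
  · intro h
    exact absurd (mem_univ _) h

/-- an independent letter which belongs to the data: the mean over the letter -/
theorem KK_letter {P : Type*} [Fintype P] (w : Ω → ℝ) (u : P → ℝ) (X : Ω → P → A) (Y : Ω → B) :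
    KK (fun q : Ω × P => w q.1 * u q.2) (fun q => X q.1 q.2) (fun q => (Y q.1, q.2))
      = ∑ p, u p * KK w (fun ω => X ω p) Y := by
  classical
  unfold KK
  rw [Fintype.sum_prod_type, sum_comm]
  refine sum_congr rfl fun p _ => ?_
  rw [mul_sum]
  refine sum_congr rfl fun ω _ => ?_
  have h1 : mass (fun q : Ω × P => w q.1 * u q.2) (fun q => (X q.1 q.2, Y q.1, q.2)) (X ω p, Y ω, p)
      = u p * mass w (fun ω => (X ω p, Y ω)) (X ω p, Y ω) := by
    rw [← mass_prod w u (fun ω p => (X ω p, Y ω)) (X ω p, Y ω) p]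
    unfold mass
    refine sum_congr rfl fun q _ => ?_
    by_cases h : (X q.1 q.2, Y q.1, q.2) = (X ω p, Y ω, p)
    · rw [if_pos h, if_pos]
      have h2 := Prod.mk.inj h
      have h3 := Prod.mk.inj h2.2
      exact Prod.ext (Prod.ext h2.1 h3.1) h3.2
    · rw [if_neg h, if_neg]
      intro hh
      have h2 := Prod.mk.inj hh
      have h3 := Prod.mk.inj h2.1
      exact h (Prod.ext h3.1 (Prod.ext h3.2 h2.2))
  have h2 : mass (fun q : Ω × P => w q.1 * u q.2) (fun q => (Y q.1, q.2)) (Y ω, p)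
      = u p * mass w Y (Y ω) := mass_prod w u (fun ω _ => Y ω) (Y ω) p
  rw [h1, h2]
  by_cases hu : u p = 0
  · rw [hu]
    simp
  · have e : (Fintype.card A : ℝ) * (u p * mass w (fun ω => (X ω p, Y ω)) (X ω p, Y ω))
        / (u p * mass w Y (Y ω)) = Fintype.card A * mass w (fun ω => (X ω p, Y ω)) (X ω p, Y ω)
        / mass w Y (Y ω) := by
      rw [mul_left_comm, mul_div_mul_left _ _ hu]
    rw [e]
    ring

/-! #### prefixes -/

variable {n : ℕ}

/-- the coordinate `k` of the row, with `R_n := 1` -/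
def up (R : V n) (k : ℕ) : ZMod 2 := if h : k < n then R ⟨k, h⟩ else if k = n then 1 else 0

/-- the first `b` entries -/
def pfx (b : ℕ) (R : V n) : V b := fun j => if h : j.val < n then R ⟨j.val, h⟩ else 0

theorem pfx_apply (b : ℕ) (R : V n) (j : Fin b) : pfx b R j = if h : j.val < n then R ⟨j.val, h⟩ else 0 :=
  rfl

theorem pfx_self (R : V n) : pfx n R = R := by
  funext j
  rw [pfx_apply, dif_pos j.isLt]

/-- splitting off the last entry -/
def snocE (b : ℕ) : V b × ZMod 2 ≃ V (b + 1) where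
  toFun p := Fin.snoc (α := fun _ => ZMod 2) p.1 p.2
  invFun x := (fun j => x j.castSucc, x (Fin.last b))
  left_inv p := by simp
  right_inv x := by
    funext j
    refine Fin.lastCases ?_ (fun j => ?_) j
    · simp
    · simp

theorem pfx_succ (b : ℕ) (hb : b < n) (R : V n) :
    pfx (b + 1) R = snocE b (pfx b R, R ⟨b, hb⟩) := by
  funext j
  refine Fin.lastCases ?_ (fun j => ?_) j
  · show _ = Fin.snoc (α := fun _ => ZMod 2) (pfx b R) (R ⟨b, hb⟩) (Fin.last b)
    rw [Fin.snoc_last, pfx_apply, dif_pos (by simpa using hb)]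
    rfl
  · show _ = Fin.snoc (α := fun _ => ZMod 2) (pfx b R) (R ⟨b, hb⟩) j.castSucc
    rw [Fin.snoc_castSucc, pfx_apply, pfx_apply]
    rfl

variable (w : Ω → ℝ) (hw : ∀ ω, 0 ≤ w ω) (R : Ω → V n) (D : Ω → B) (Y : Ω → B')

omit [Fintype A] [Fintype A'] in
include hw in
theorem KK_pfx_succ (b : ℕ) (hb : b < n) : KK w (fun ω => pfx (b + 1) (R ω)) Y
    = KK w (fun ω => pfx b (R ω)) Y + KK w (fun ω => R ω ⟨b, hb⟩) (fun ω => (pfx b (R ω), Y ω)) := by
  rw [← KK_chain w hw]
  exact KK_bij w hw _ _ Y (fun _ => snocE b) (fun ω _ => pfx_succ b hb (R ω))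

/-- the changed prefix: `(R_<β, R_β + R_(β+1))` -/
def Xs (β : ℕ) (R : V n) : V β × ZMod 2 := (pfx β R, up R β + up R (β + 1))

omit [Fintype A] [Fintype A'] in
include hw in
theorem KK_Xs (β : ℕ) : KK w (fun ω => Xs β (R ω)) Y = KK w (fun ω => pfx β (R ω)) Y
    + KK w (fun ω => up (R ω) β + up (R ω) (β + 1)) (fun ω => (pfx β (R ω), Y ω)) :=
  KK_chain w hw _ _ Y

omit [Fintype A] [Fintype A'] in
include hw in
theorem Jx_pfx_Xs (h : ∀ ω ω', w ω ≠ 0 → w ω' ≠ 0 → D ω = D ω' → Y ω = Y ω') (β : ℕ) :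
    Jx w (fun ω => pfx β (R ω)) D Y ≤ Jx w (fun ω => Xs β (R ω)) D Y :=
  Jx_pair w hw _ _ D Y h

omit [Fintype A] [Fintype A'] in
include hw in
theorem Jx_pfx_succ (h : ∀ ω ω', w ω ≠ 0 → w ω' ≠ 0 → D ω = D ω' → Y ω = Y ω') (b : ℕ) (hb : b < n) :
    Jx w (fun ω => pfx b (R ω)) D Y ≤ Jx w (fun ω => pfx (b + 1) (R ω)) D Y := by
  refine (Jx_pair w hw (fun ω => pfx b (R ω)) (fun ω => R ω ⟨b, hb⟩) D Y h).trans (le_of_eq ?_)
  exact (Jx_bij w hw _ _ D Y (snocE b) (fun ω => pfx_succ b hb (R ω))).symm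

omit [Fintype A] [Fintype A'] in
include hw in
theorem Jx_pfx_mono (h : ∀ ω ω', w ω ≠ 0 → w ω' ≠ 0 → D ω = D ω' → Y ω = Y ω') {b b' : ℕ}
    (hb : b ≤ b') (hb' : b' ≤ n) :
    Jx w (fun ω => pfx b (R ω)) D Y ≤ Jx w (fun ω => pfx b' (R ω)) D Y := by
  induction b' with
  | zero =>
    have : b = 0 := by omega
    subst this
    exact le_rfl
  | succ b' ih =>
    rcases Nat.eq_or_lt_of_le hb with h1 | h1
    · rw [h1]
    · exact (ih (by omega) (by omega)).trans (Jx_pfx_succ w hw R D Y h b' (by omega))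

omit [Fintype A] [Fintype A'] in
theorem KK_pfx_zero (hw : ∀ ω, 0 ≤ w ω) : KK w (fun ω => pfx 0 (R ω)) Y = 0 := by
  refine le_antisymm ?_ (KK_nonneg w hw _ _)
  refine (KK_le w hw _ _).trans (le_of_eq ?_)
  have : Fintype.card (V 0) = 1 := by simp [V]
  rw [this]
  simp

/-! #### one right letter -/

/-- one letter `(β, ξ)` on the row: `R_β += ξ R_(β+1)` (`R_n := 1`) -/
def rxR (β : ℕ) (ξ : ZMod 2) (R : V n) : V n := fun j =>
  R j + if j.val = β then ξ * up R (β + 1) else 0

theorem rxR_zero (β : ℕ) (R : V n) : rxR β 0 R = R := by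
  funext j
  unfold rxR
  rw [zero_mul, ite_self, add_zero]

theorem up_rxR_of_ne (β : ℕ) (ξ : ZMod 2) (R : V n) {k : ℕ} (hk : k ≠ β) :
    up (rxR β ξ R) k = up R k := by
  unfold up
  by_cases h : k < n
  · rw [dif_pos h, dif_pos h]
    unfold rxR
    rw [if_neg (by simpa using hk), add_zero]
  · rw [dif_neg h, dif_neg h]

theorem rxR_rxR (β : ℕ) (ξ : ZMod 2) (R : V n) : rxR β ξ (rxR β ξ R) = R := by
  funext j
  have h1 : up (rxR β ξ R) (β + 1) = up R (β + 1) := up_rxR_of_ne β ξ R (by omega)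
  show rxR β ξ R j + (if j.val = β then ξ * up (rxR β ξ R) (β + 1) else 0) = R j
  rw [h1]
  show (R j + if j.val = β then ξ * up R (β + 1) else 0) +
    (if j.val = β then ξ * up R (β + 1) else 0) = R j
  rw [add_assoc, CharTwo.add_self_eq_zero, add_zero]

/-- a letter on the bond `β` does not change the prefixes of length `≤ β` -/
theorem pfx_rxR_low (β : ℕ) (ξ : ZMod 2) (R : V n) {b : ℕ} (hb : b ≤ β) :
    pfx b (rxR β ξ R) = pfx b R := by
  funext j
  rw [pfx_apply, pfx_apply]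
  by_cases h : j.val < n
  · rw [dif_pos h, dif_pos h]
    unfold rxR
    rw [if_neg (by have := j.isLt; simp only; omega), add_zero]
  · rw [dif_neg h, dif_neg h]

/-- the prefix of length `≥ β + 2` is changed by a bijection -/
def hiE (b β : ℕ) (ξ : ZMod 2) : V b ≃ V b where
  toFun x := fun j => x j + if j.val = β then ξ * (if h : β + 1 < b then x ⟨β + 1, h⟩ else 0) else 0
  invFun x := fun j => x j + if j.val = β then ξ * (if h : β + 1 < b then x ⟨β + 1, h⟩ else 0) else 0
  left_inv x := by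
    funext j
    by_cases h : β + 1 < b
    · simp only [dif_pos h]
      rw [if_neg (by omega : ¬ β + 1 = β), add_zero, add_assoc, CharTwo.add_self_eq_zero, add_zero]
    · simp [dif_neg h]
  right_inv x := by
    funext j
    by_cases h : β + 1 < b
    · simp only [dif_pos h]
      rw [if_neg (by omega : ¬ β + 1 = β), add_zero, add_assoc, CharTwo.add_self_eq_zero, add_zero]
    · simp [dif_neg h]

theorem pfx_rxR_high (β : ℕ) (ξ : ZMod 2) (R : V n) {b : ℕ} (hb : β + 2 ≤ b) (hbn : b ≤ n) :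
    pfx b (rxR β ξ R) = hiE b β ξ (pfx b R) := by
  funext j
  have hj : j.val < n := lt_of_lt_of_le j.isLt hbn
  rw [pfx_apply, dif_pos hj]
  show R ⟨j.val, hj⟩ + (if j.val = β then ξ * up R (β + 1) else 0) =
    pfx b R j + if j.val = β then ξ * (if h : β + 1 < b then pfx b R ⟨β + 1, h⟩ else 0) else 0
  have h1 : β + 1 < b := by omega
  have h2 : β + 1 < n := by omega
  rw [dif_pos h1, pfx_apply, pfx_apply, dif_pos hj, dif_pos (show (⟨β + 1, h1⟩ : Fin b).val < n from h2)]
  unfold up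
  rw [dif_pos h2]

/-- the last bond: a translation of the last coordinate -/
theorem pfx_rxR_last (β : ℕ) (ξ : ZMod 2) (R : V n) (hβ : n ≤ β + 1) :
    pfx n (rxR β ξ R) = Equiv.addRight (fun j : Fin n => if j.val = β then ξ else 0) (pfx n R) := by
  rw [pfx_self, pfx_self]
  funext j
  show R j + (if j.val = β then ξ * up R (β + 1) else 0) = R j + if j.val = β then ξ else 0
  by_cases h : j.val = β
  · rw [if_pos h, if_pos h]
    have h2 : β + 1 = n := by
      have := j.isLt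
      omega
    unfold up
    rw [dif_neg (by omega), if_pos h2, mul_one]
  · rw [if_neg h, if_neg h]

theorem pfx_rxR_mid (β : ℕ) (R : V n) (hβ : β + 1 < n) :
    pfx (β + 1) (rxR β 1 R) = snocE β (Xs β R) := by
  rw [pfx_succ β (by omega)]
  have h1 : pfx β (rxR β 1 R) = pfx β R := pfx_rxR_low β 1 R le_rfl
  have h2 : rxR β 1 R ⟨β, by omega⟩ = up R β + up R (β + 1) := by
    unfold rxR
    rw [if_pos rfl, one_mul]
    congr 1
    unfold up
    rw [dif_pos (by omega)]
  rw [h1, h2]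
  rfl

omit [Fintype A] [Fintype A'] in
include hw in
/-- a letter changes the prefix entropies only at `b = β + 1`, coin `1` -/
theorem KK_rxR (β : ℕ) (ξ : ZMod 2) {b : ℕ} (hb : b ≤ n) : KK w (fun ω => pfx b (rxR β ξ (R ω))) D
    = if b = β + 1 ∧ b < n ∧ ξ = 1 then KK w (fun ω => Xs β (R ω)) D
      else KK w (fun ω => pfx b (R ω)) D := by
  by_cases hξ : ξ = 1
  · by_cases h1 : b = β + 1
    · by_cases h2 : b < n
      · rw [if_pos ⟨h1, h2, hξ⟩, hξ]
        subst h1
        exact KK_bij w hw _ _ D (fun _ => snocE β) (fun ω _ => pfx_rxR_mid β (R ω) h2)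
      · rw [if_neg (fun h => h2 h.2.1)]
        have h3 : b = n := by omega
        subst h3
        exact KK_bij w hw _ _ D
          (fun _ => Equiv.addRight (fun j : Fin b => if j.val = β then ξ else 0))
          (fun ω _ => pfx_rxR_last β ξ (R ω) (by omega))
    · rw [if_neg (fun h => h1 h.1)]
      rcases Nat.lt_or_ge β b with h3 | h3
      · exact KK_bij w hw _ _ D (fun _ => hiE b β ξ)
          (fun ω _ => pfx_rxR_high β ξ (R ω) (by omega) hb)
      · exact KK_bij w hw _ _ D (fun _ => Equiv.refl _) (fun ω _ => pfx_rxR_low β ξ (R ω) h3)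
  · rw [if_neg (fun h => hξ h.2.2)]
    have h0 : ξ = 0 := by
      revert hξ
      revert ξ
      decide
    rw [h0]
    simp only [rxR_zero]

end Pool.Agent.CutSeq.NJ.P63
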