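import Pool.Agent.NJ.Defs84

/-! S19271, row MODEL, section E: translation and reflection of the letter model. -/

set_option autoImplicit false

namespace Pool.Agent.CutSeq.NJ

open Finset

variable {B L : ℕ}

/-! #### letters of translated and reflected words -/

theorem ext_lt (ω : Wd B L) {i : ℕ} (h : i < L) :
    ext ω i = ((ω ⟨i, h⟩).1.val, (ω ⟨i, h⟩).2) := by
  unfold ext
  rw [dif_pos h]

theorem ext_ge (ω : Wd B L) {i : ℕ} (h : L ≤ i) : ext ω i = (B, 0) := by
  unfold ext
  rw [dif_neg (by omega)]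

theorem ext_fst_lt (ω : Wd B L) {i : ℕ} (h : i < L) : (ext ω i).1 < B := by
  rw [ext_lt ω h]
  exact (ω ⟨i, h⟩).1.isLt

theorem tau_apply (ω : Wd B L) (i : Fin L) :
    tau B L ω i = (finRotate B (ω i).1, (ω i).2) := rfl

theorem rho_apply (ω : Wd B L) (i : Fin L) :
    rho B L ω i = (Fin.rev (ω (Fin.rev i)).1, (ω (Fin.rev i)).2) := rfl

theorem rot_val {B : ℕ} (b : Fin B) :
    (finRotate B b).val = if b.val + 1 = B then 0 else b.val + 1 := by
  obtain ⟨m, rfl⟩ : ∃ m, B = m + 1 := ⟨B - 1, by have := b.isLt; omega⟩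
  split_ifs with h
  · have h1 : b = Fin.last m := Fin.ext (by rw [Fin.val_last]; omega)
    rw [h1, finRotate_last]
    rfl
  · exact coe_finRotate_of_ne_last (fun h2 => h (by rw [h2, Fin.val_last]))

theorem ext_tau (ω : Wd B L) {i : ℕ} (h : i < L) :
    ext (tau B L ω) i =
      (if (ext ω i).1 + 1 = B then 0 else (ext ω i).1 + 1, (ext ω i).2) := by
  rw [ext_lt _ h, ext_lt _ h, tau_apply]
  show ((finRotate B (ω ⟨i, h⟩).1).val, (ω ⟨i, h⟩).2) = _
  rw [rot_val]

theorem ext_rho (ω : Wd B L) {i : ℕ} (h : i < L) :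
    ext (rho B L ω) i = (B - 1 - (ext ω (L - 1 - i)).1, (ext ω (L - 1 - i)).2) := by
  have h' : L - 1 - i < L := by omega
  have e : Fin.rev (⟨i, h⟩ : Fin L) = ⟨L - 1 - i, h'⟩ := by
    apply Fin.ext
    rw [Fin.val_rev]
    show L - (i + 1) = L - 1 - i
    omega
  rw [ext_lt _ h, ext_lt _ h', rho_apply, e]
  show ((Fin.rev (ω ⟨L - 1 - i, h'⟩).1).val, (ω ⟨L - 1 - i, h'⟩).2) = _
  rw [Fin.val_rev]
  show (B - ((ω ⟨L - 1 - i, h'⟩).1.val + 1), (ω ⟨L - 1 - i, h'⟩).2) = _
  have e2 : B - ((ω ⟨L - 1 - i, h'⟩).1.val + 1) = B - 1 - (ω ⟨L - 1 - i, h'⟩).1.val := by omega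
  rw [e2]

/-! #### translation -/

/-- the array of the translated word, seen from any starting time -/
theorem Mst_tau (s l k j : ℕ) (hk : k + 1 ≤ B) (ω : Wd B L) :
    Mst (shift (ext (tau B L ω)) s) l (k + 1) (j + 1) = Mst (shift (ext ω) s) l k j := by
  induction l generalizing k with
  | zero =>
    show (if k + 1 = j + 1 then (1 : ZMod 2) else 0) = if k = j then 1 else 0
    by_cases h : k = j
    · rw [if_pos h, if_pos (by omega)]
    · rw [if_neg h, if_neg (by omega)]
  | succ l ih =>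
    show Mst (shift (ext (tau B L ω)) s) l (k + 1) (j + 1) +
        (if k + 1 = (ext (tau B L ω) (s + l)).1 + 1 then (ext (tau B L ω) (s + l)).2 *
          Mst (shift (ext (tau B L ω)) s) l (ext (tau B L ω) (s + l)).1 (j + 1) else 0) =
      Mst (shift (ext ω) s) l k j + (if k = (ext ω (s + l)).1 + 1 then (ext ω (s + l)).2 *
          Mst (shift (ext ω) s) l (ext ω (s + l)).1 j else 0)
    rw [ih k hk]
    congr 1
    rcases Nat.lt_or_ge (s + l) L with h | h
    · rw [ext_tau ω h]
      simp only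
      have hb := ext_fst_lt ω h
      by_cases h1 : (ext ω (s + l)).1 + 1 = B
      · rw [if_pos h1, if_neg (show ¬ k = (ext ω (s + l)).1 + 1 by omega)]
        split_ifs with h2
        · rw [Mst_upper _ l 0 (j + 1) (by omega), mul_zero]
        · rfl
      · rw [if_neg h1]
        by_cases h2 : k = (ext ω (s + l)).1 + 1
        · rw [if_pos h2, if_pos (by omega), ih (ext ω (s + l)).1 (by omega)]
        · rw [if_neg h2, if_neg (by omega)]
    · rw [ext_ge _ h, ext_ge _ h]
      simp only [zero_mul, ite_self]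

theorem shift_zero (α : Seq) : shift α 0 = α := by
  funext i
  show α (0 + i) = α i
  rw [Nat.zero_add]

theorem Mst_tau' (l k j : ℕ) (hk : k + 1 ≤ B) (ω : Wd B L) :
    Mst (ext (tau B L ω)) l (k + 1) (j + 1) = Mst (ext ω) l k j := by
  have h := Mst_tau 0 l k j hk ω
  rwa [shift_zero, shift_zero] at h

/-- the letter map of the translation -/
def tl (B : ℕ) (p : ℕ × ZMod 2) : ℕ × ZMod 2 := (if p.1 + 1 = B then 0 else p.1 + 1, p.2)

/-- the plain shift of a letter -/
def sl (p : ℕ × ZMod 2) : ℕ × ZMod 2 := (p.1 + 1, p.2)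

theorem sl_inj : Function.Injective sl := by
  rintro ⟨b, x⟩ ⟨c, y⟩ h
  have h1 : b + 1 = c + 1 := congrArg Prod.fst h
  have h2 : x = y := congrArg Prod.snd h
  rw [h2, show b = c by omega]

theorem mskW_tl {a n : ℕ} (ha0 : 1 ≤ a) (ha : a + n + 1 ≤ B) (p : ℕ × ZMod 2) (hp : p.1 < B) :
    mskW (a + 1) n (tl B p) = (mskW a n p).map sl := by
  obtain ⟨b, x⟩ := p
  simp only at hp
  unfold mskW tl
  simp only
  by_cases h : b + 1 = B
  · rw [if_pos h, if_neg (by omega), if_neg (by omega), if_neg (by omega), if_neg (by omega)]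
    rfl
  · rw [if_neg h]
    by_cases h1 : a ≤ b ∧ b + 1 < a + n
    · rw [if_pos h1, if_pos (by omega)]
      rfl
    · rw [if_neg h1, if_neg (by omega)]
      by_cases h2 : b + 1 = a ∨ b + 1 = a + n
      · rw [if_pos h2, if_pos (by omega)]
        rfl
      · rw [if_neg h2, if_neg (by omega)]
        rfl

theorem mskW_tl_zero {n : ℕ} (ha : n + 1 ≤ B) (p : ℕ × ZMod 2) (hp : p.1 < B) :
    mskW 1 n (tl B p) = if p.1 + 1 = B then some (0, 0) else (mskW 0 n p).map sl := by
  obtain ⟨b, x⟩ := p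
  simp only at hp
  unfold mskW tl
  simp only
  by_cases h : b + 1 = B
  · rw [if_pos h, if_neg (by omega), if_pos (by omega), if_pos h]
  · rw [if_neg h, if_neg h]
    by_cases h1 : 0 ≤ b ∧ b + 1 < 0 + n
    · rw [if_pos h1, if_pos (by omega)]
      rfl
    · rw [if_neg h1, if_neg (by omega)]
      by_cases h2 : b + 1 = 0 ∨ b + 1 = 0 + n
      · rw [if_pos h2, if_pos (by omega)]
        rfl
      · rw [if_neg h2, if_neg (by omega)]
        rfl

theorem mskW_zero_last {n : ℕ} (ha : n + 1 ≤ B) (p : ℕ × ZMod 2) (hp : p.1 + 1 = B) :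
    mskW 0 n p = none := by
  unfold mskW
  rw [if_neg (by omega), if_neg (by omega)]

theorem map_sl_ne (x : Option (ℕ × ZMod 2)) : x.map sl ≠ some (0, 0) := by
  cases x with
  | none => simp
  | some p =>
    intro h
    have h1 : p.1 + 1 = 0 := congrArg Prod.fst (Option.some_injective _ h)
    omega

theorem sameW_tau (a n : ℕ) (ha : a + n + 1 ≤ B) (ω ω' : Wd B L) :
    SameW (a + 1) n (tau B L ω) (tau B L ω') ↔ (if a = 0 then
      ∀ i < L, mskW 0 n (ext ω i) = mskW 0 n (ext ω' i) ∧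
        ((ext ω i).1 + 1 = B ↔ (ext ω' i).1 + 1 = B) else SameW a n ω ω') := by
  by_cases h0 : a = 0
  · subst h0
    rw [if_pos rfl]
    unfold SameW
    refine forall_congr' fun i => forall_congr' fun hi => ?_
    have hb := ext_fst_lt ω hi
    have hc := ext_fst_lt ω' hi
    rw [ext_tau ω hi, ext_tau ω' hi]
    change mskW (0 + 1) n (tl B (ext ω i)) = mskW (0 + 1) n (tl B (ext ω' i)) ↔ _
    rw [Nat.zero_add, mskW_tl_zero (by omega) _ hb, mskW_tl_zero (by omega) _ hc]
    by_cases h1 : (ext ω i).1 + 1 = B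
    · by_cases h2 : (ext ω' i).1 + 1 = B
      · rw [if_pos h1, if_pos h2, mskW_zero_last (by omega) _ h1, mskW_zero_last (by omega) _ h2]
        simp [h1, h2]
      · rw [if_pos h1, if_neg h2]
        constructor
        · intro h
          exact absurd h.symm (map_sl_ne _)
        · rintro ⟨_, h⟩
          exact absurd (h.1 h1) h2
    · by_cases h2 : (ext ω' i).1 + 1 = B
      · rw [if_neg h1, if_pos h2]
        constructor
        · intro h
          exact absurd h (map_sl_ne _)
        · rintro ⟨_, h⟩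
          exact absurd (h.2 h2) h1
      · rw [if_neg h1, if_neg h2]
        constructor
        · intro h
          exact ⟨Option.map_injective sl_inj h, by simp [h1, h2]⟩
        · rintro ⟨h, _⟩
          rw [h]
  · rw [if_neg h0]
    unfold SameW
    refine forall_congr' fun i => forall_congr' fun hi => ?_
    have hb := ext_fst_lt ω hi
    have hc := ext_fst_lt ω' hi
    rw [ext_tau ω hi, ext_tau ω' hi]
    change mskW (a + 1) n (tl B (ext ω i)) = mskW (a + 1) n (tl B (ext ω' i)) ↔ _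
    rw [mskW_tl (by omega) ha _ hb, mskW_tl (by omega) ha _ hc]
    exact (Option.map_injective sl_inj).eq_iff

theorem sameW_tau' (a n : ℕ) (ha0 : 1 ≤ a) (ha : a + n + 1 ≤ B) (ω ω' : Wd B L) :
    SameW (a + 1) n (tau B L ω) (tau B L ω') ↔ SameW a n ω ω' := by
  rw [sameW_tau a n ha, if_neg (by omega)]

theorem wm_tau (a n : ℕ) (ha : a + n ≤ B) (ω : Wd B L) :
    wm (ext (tau B L ω)) L (a + 1) n = wm (ext ω) L a n := by
  funext k j
  show Mst (ext (tau B L ω)) L (a + 1 + k.val) (a + 1 + j.val) = Mst (ext ω) L (a + k.val) (a + j.val)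
  rw [show a + 1 + k.val = a + k.val + 1 by omega, show a + 1 + j.val = a + j.val + 1 by omega]
  exact Mst_tau' L _ _ (by have := k.isLt; omega) ω

theorem TR_tau (a n : ℕ) (ha : a + n + 1 ≤ B) (ω : Wd B L) :
    TR (ext (tau B L ω)) L (a + 1) n = TR (ext ω) L a n := by
  rcases Nat.eq_zero_or_pos n with hn | hn
  · subst hn
    exact Subsingleton.elim _ _
  unfold TR
  congr 1
  ext x
  simp only [Set.mem_setOf_eq]
  refine exists_congr fun i => and_congr_right fun hi => ?_
  have hb := ext_fst_lt ω hi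
  have h1 : ((ext (tau B L ω) i).1 + 1 = a + 1 + n) ↔ ((ext ω i).1 + 1 = a + n) := by
    rw [ext_tau ω hi]
    simp only
    split_ifs with h2
    · constructor
      · intro h; omega
      · intro h; omega
    · constructor
      · intro h; omega
      · intro h; omega
  have h2 : lowW (ext (tau B L ω)) i (a + 1) n = lowW (ext ω) i a n := by
    funext j
    show Mst (ext (tau B L ω)) i (a + 1 + n - 1) (a + 1 + j.val) = Mst (ext ω) i (a + n - 1) (a + j.val)
    rw [show a + 1 + n - 1 = (a + n - 1) + 1 by omega, show a + 1 + j.val = a + j.val + 1 by omega]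
    exact Mst_tau' i _ _ (by omega) ω
  rw [h1, h2]

theorem TC_tau (a n : ℕ) (ha0 : 1 ≤ a) (ha : a + n + 1 ≤ B) (ω : Wd B L) :
    TC (ext (tau B L ω)) L (a + 1) n = TC (ext ω) L a n := by
  unfold TC
  congr 1
  ext x
  simp only [Set.mem_setOf_eq]
  refine exists_congr fun i => and_congr_right fun hi => ?_
  have hb := ext_fst_lt ω hi
  have h1 : ((ext (tau B L ω) i).1 + 1 = a + 1) ↔ ((ext ω i).1 + 1 = a) := by
    rw [ext_tau ω hi]
    simp only
    split_ifs with h2
    · constructor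
      · intro h; omega
      · intro h; omega
    · constructor
      · intro h; omega
      · intro h; omega
  have h2 : colV (ext (tau B L ω)) L i (a + 1) n = colV (ext ω) L i a n := by
    funext k
    show Mst (shift (ext (tau B L ω)) (i + 1)) (L - (i + 1)) (a + 1 + k.val) (a + 1) =
      Mst (shift (ext ω) (i + 1)) (L - (i + 1)) (a + k.val) a
    rw [show a + 1 + k.val = a + k.val + 1 by omega]
    exact Mst_tau _ _ _ _ (by have := k.isLt; omega) ω
  rw [h1, h2]

/-! #### reflection -/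

theorem rho_rho (ω : Wd B L) : rho B L (rho B L ω) = ω := by
  funext i
  rw [rho_apply, rho_apply]
  simp only [Fin.rev_rev]

theorem rho_symm : (rho B L).symm = rho B L := by
  ext1 ω
  rw [Equiv.symm_apply_eq, rho_rho]

/-- the first letter acts on the columns -/
theorem Mst_first (α : Seq) (s k j : ℕ) :
    Mst α (s + 1) k j = Mst (shift α 1) s k j +
      if j = (α 0).1 then (α 0).2 * Mst (shift α 1) s k ((α 0).1 + 1) else 0 := by
  induction s generalizing k with
  | zero =>
    show (if k = j then (1 : ZMod 2) else 0) +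
        (if k = (α 0).1 + 1 then (α 0).2 * (if (α 0).1 = j then (1 : ZMod 2) else 0) else 0) =
      (if k = j then (1 : ZMod 2) else 0) +
        if j = (α 0).1 then (α 0).2 * (if k = (α 0).1 + 1 then (1 : ZMod 2) else 0) else 0
    congr 1
    by_cases h1 : k = (α 0).1 + 1
    · by_cases h2 : j = (α 0).1
      · rw [if_pos h1, if_pos h2.symm, if_pos h2, if_pos h1]
      · rw [if_pos h1, if_neg (Ne.symm h2), if_neg h2, mul_zero]
    · by_cases h2 : j = (α 0).1
      · rw [if_neg h1, if_pos h2, if_neg h1, mul_zero]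
      · rw [if_neg h1, if_neg h2]
  | succ s ih =>
    show Mst α (s + 1) k j + (if k = (α (s + 1)).1 + 1 then
        (α (s + 1)).2 * Mst α (s + 1) (α (s + 1)).1 j else 0) =
      (Mst (shift α 1) s k j + if k = (α (1 + s)).1 + 1 then
        (α (1 + s)).2 * Mst (shift α 1) s (α (1 + s)).1 j else 0) +
      if j = (α 0).1 then (α 0).2 * (Mst (shift α 1) s k ((α 0).1 + 1) +
        if k = (α (1 + s)).1 + 1 then
          (α (1 + s)).2 * Mst (shift α 1) s (α (1 + s)).1 ((α 0).1 + 1) else 0) else 0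
    rw [Nat.add_comm 1 s, ih k, ih (α (s + 1)).1]
    by_cases h1 : k = (α (s + 1)).1 + 1
    · simp only [if_pos h1]
      by_cases h2 : j = (α 0).1
      · simp only [if_pos h2]
        ring
      · simp only [if_neg h2]
        ring
    · simp only [if_neg h1]
      by_cases h2 : j = (α 0).1
      · simp only [if_pos h2]
        ring
      · simp only [if_neg h2]

theorem shift_shift (α : Seq) (l : ℕ) : shift (shift α l) 1 = shift α (l + 1) := by
  funext i
  show α (l + (1 + i)) = α (l + 1 + i)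
  rw [Nat.add_assoc]

/-- the array of the reflected word -/
theorem Mst_rho (s : ℕ) (hs : s ≤ L) (k j : ℕ) (hk : k ≤ B) (hj : j ≤ B) (ω : Wd B L) :
    Mst (ext (rho B L ω)) s k j = Mst (shift (ext ω) (L - s)) s (B - j) (B - k) := by
  induction s generalizing k with
  | zero =>
    show (if k = j then (1 : ZMod 2) else 0) = if B - j = B - k then 1 else 0
    by_cases h : k = j
    · rw [if_pos h, if_pos (by omega)]
    · rw [if_neg h, if_neg (by omega)]
  | succ s ih =>
    have hsL : s < L := by omega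
    have hl' : L - 1 - s < L := by omega
    rw [Mst_first (shift (ext ω) (L - (s + 1))) s, shift_shift]
    have e0 : shift (ext ω) (L - (s + 1)) 0 = ext ω (L - 1 - s) := by
      show ext ω (L - (s + 1) + 0) = ext ω (L - 1 - s)
      congr 1
      omega
    have e1 : L - (s + 1) + 1 = L - s := by omega
    rw [e0, e1]
    show Mst (ext (rho B L ω)) s k j + (if k = (ext (rho B L ω) s).1 + 1 then
        (ext (rho B L ω) s).2 * Mst (ext (rho B L ω)) s (ext (rho B L ω) s).1 j else 0) = _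
    rw [ih (by omega) k hk, ext_rho ω hsL]
    simp only
    congr 1
    have hb := ext_fst_lt ω hl'
    by_cases h1 : B - k = (ext ω (L - 1 - s)).1
    · rw [if_pos h1, if_pos (by omega), ih (by omega) _ (by omega)]
      have e2 : B - (B - 1 - (ext ω (L - 1 - s)).1) = (ext ω (L - 1 - s)).1 + 1 := by omega
      rw [e2]
    · rw [if_neg h1, if_neg (by omega)]

theorem sameW_rho (a n : ℕ) (ha : a + n ≤ B + 1) (ω ω' : Wd B L) :
    SameW a n (rho B L ω) (rho B L ω') ↔ SameW (B + 1 - a - n) n ω ω' := by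
  have key : ∀ p q : ℕ × ZMod 2, p.1 < B → q.1 < B →
      (mskW a n ((B - 1 - p.1, p.2) : ℕ × ZMod 2) = mskW a n ((B - 1 - q.1, q.2) : ℕ × ZMod 2) ↔
        mskW (B + 1 - a - n) n p = mskW (B + 1 - a - n) n q) := by
    rintro ⟨b, x⟩ ⟨c, y⟩ hb hc
    simp only at hb hc
    unfold mskW
    simp only
    have eb1 : (a ≤ B - 1 - b ∧ B - 1 - b + 1 < a + n) ↔
        (B + 1 - a - n ≤ b ∧ b + 1 < B + 1 - a - n + n) := by omega
    have eb2 : (B - 1 - b + 1 = a ∨ B - 1 - b + 1 = a + n) ↔
        (b + 1 = B + 1 - a - n ∨ b + 1 = B + 1 - a - n + n) := by omega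
    have ec1 : (a ≤ B - 1 - c ∧ B - 1 - c + 1 < a + n) ↔
        (B + 1 - a - n ≤ c ∧ c + 1 < B + 1 - a - n + n) := by omega
    have ec2 : (B - 1 - c + 1 = a ∨ B - 1 - c + 1 = a + n) ↔
        (c + 1 = B + 1 - a - n ∨ c + 1 = B + 1 - a - n + n) := by omega
    simp only [eb1, eb2, ec1, ec2]
    have e3 : B - 1 - b = B - 1 - c ↔ b = c := by omega
    split_ifs <;> simp [e3]
  unfold SameW
  constructor
  · intro h i hi
    have h1 := h (L - 1 - i) (by omega)
    rw [ext_rho ω (by omega), ext_rho ω' (by omega)] at h1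
    have e : L - 1 - (L - 1 - i) = i := by omega
    rw [e] at h1
    exact (key _ _ (ext_fst_lt ω hi) (ext_fst_lt ω' hi)).1 h1
  · intro h i hi
    rw [ext_rho ω hi, ext_rho ω' hi]
    exact (key _ _ (ext_fst_lt ω (by omega)) (ext_fst_lt ω' (by omega))).2 (h (L - 1 - i) (by omega))

theorem wm_rho (a n : ℕ) (ha : a + n ≤ B + 1) (ω : Wd B L) :
    wm (ext (rho B L ω)) L a n = trU (wm (ext ω) L (B + 1 - a - n) n) := by
  funext k j
  have hk := k.isLt
  have hj := j.isLt
  show Mst (ext (rho B L ω)) L (a + k.val) (a + j.val) =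
    Mst (ext ω) L (B + 1 - a - n + (n - 1 - j.val)) (B + 1 - a - n + (n - 1 - k.val))
  rw [Mst_rho L le_rfl _ _ (by omega) (by omega), Nat.sub_self, shift_zero]
  congr 1 <;> omega

theorem lowW_rho (a n : ℕ) (ha : a + n ≤ B + 1) (hn : 1 ≤ n) (ω : Wd B L) (i : ℕ) (hi : i < L) :
    lowW (ext (rho B L ω)) i a n = revV n (colV (ext ω) L (L - 1 - i) (B + 1 - a - n) n) := by
  funext j
  have hj := j.isLt
  show Mst (ext (rho B L ω)) i (a + n - 1) (a + j.val) =
    Mst (shift (ext ω) (L - 1 - i + 1)) (L - (L - 1 - i + 1))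
      (B + 1 - a - n + (Fin.revPerm j).val) (B + 1 - a - n)
  rw [Mst_rho i hi.le _ _ (by omega) (by omega), Fin.revPerm_apply, Fin.val_rev]
  congr 1
  · congr 1
    omega
  · omega
  · omega
  · omega

theorem TR_rho (a n : ℕ) (ha : a + n ≤ B + 1) (hn : 1 ≤ n) (ω : Wd B L) :
    TR (ext (rho B L ω)) L a n = (TC (ext ω) L (B + 1 - a - n) n).map (revV n).toLinearMap := by
  unfold TR TC
  rw [Submodule.map_span]
  congr 1
  ext x
  simp only [Set.mem_setOf_eq, Set.mem_image, LinearEquiv.coe_coe]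
  constructor
  · rintro ⟨i, hi, h1, rfl⟩
    refine ⟨_, ⟨L - 1 - i, by omega, ?_, rfl⟩, (lowW_rho a n ha hn ω i hi).symm⟩
    rw [ext_rho ω hi] at h1
    have hb := ext_fst_lt ω (show L - 1 - i < L by omega)
    simp only at h1
    omega
  · rintro ⟨y, ⟨i, hi, h1, rfl⟩, rfl⟩
    have hb := ext_fst_lt ω hi
    have e : L - 1 - (L - 1 - i) = i := by omega
    refine ⟨L - 1 - i, by omega, ?_, ?_⟩
    · rw [ext_rho ω (by omega), e]
      simp only
      omega
    · rw [lowW_rho a n ha hn ω (L - 1 - i) (by omega), e]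

theorem revV_revV (n : ℕ) (x : V n) : revV n (revV n x) = x := by
  funext j
  show x (Fin.revPerm (Fin.revPerm j)) = x j
  simp

theorem TC_rho (a n : ℕ) (ha : a + n ≤ B + 1) (hn : 1 ≤ n) (ω : Wd B L) :
    TC (ext (rho B L ω)) L a n = (TR (ext ω) L (B + 1 - a - n) n).map (revV n).toLinearMap := by
  have h := TR_rho (B + 1 - a - n) n (by omega) hn (rho B L ω)
  rw [rho_rho, show B + 1 - (B + 1 - a - n) - n = a by omega] at h
  rw [h, ← Submodule.map_comp]
  have e : (revV n).toLinearMap ∘ₗ (revV n).toLinearMap = LinearMap.id :=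
    LinearMap.ext fun x => revV_revV n x
  rw [e, Submodule.map_id]

/-! #### true rows and columns, sums over words -/

theorem rowW_tau (a n i : ℕ) (hi : i + 1 ≤ B) (ω : Wd B L) :
    rowW (ext (tau B L ω)) L (a + 1) n (i + 1) = rowW (ext ω) L a n i := by
  funext j
  show Mst (ext (tau B L ω)) L (i + 1) (a + 1 + j.val) = Mst (ext ω) L i (a + j.val)
  rw [show a + 1 + j.val = a + j.val + 1 by omega]
  exact Mst_tau' L _ _ hi ω

theorem colW_tau (a n j : ℕ) (ha : a + n ≤ B) (ω : Wd B L) :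
    colW (ext (tau B L ω)) L (a + 1) n (j + 1) = colW (ext ω) L a n j := by
  funext k
  show Mst (ext (tau B L ω)) L (a + 1 + k.val) (j + 1) = Mst (ext ω) L (a + k.val) j
  rw [show a + 1 + k.val = a + k.val + 1 by omega]
  exact Mst_tau' L _ _ (by have := k.isLt; omega) ω

theorem rowW_rho (a n i : ℕ) (ha : a + n ≤ B + 1) (hi : i ≤ B) (ω : Wd B L) :
    rowW (ext (rho B L ω)) L a n i = revV n (colW (ext ω) L (B + 1 - a - n) n (B - i)) := by
  funext j
  have hj := j.isLt
  show Mst (ext (rho B L ω)) L i (a + j.val) =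
    Mst (ext ω) L (B + 1 - a - n + (Fin.revPerm j).val) (B - i)
  rw [Mst_rho L le_rfl _ _ hi (by omega), Nat.sub_self, shift_zero, Fin.revPerm_apply, Fin.val_rev]
  congr 1
  omega

theorem colW_rho (a n j : ℕ) (ha : a + n ≤ B + 1) (hj : j ≤ B) (ω : Wd B L) :
    colW (ext (rho B L ω)) L a n j = revV n (rowW (ext ω) L (B + 1 - a - n) n (B - j)) := by
  funext k
  have hk := k.isLt
  show Mst (ext (rho B L ω)) L (a + k.val) j =
    Mst (ext ω) L (B - j) (B + 1 - a - n + (Fin.revPerm k).val)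
  rw [Mst_rho L le_rfl _ _ (by omega) hj, Nat.sub_self, shift_zero, Fin.revPerm_apply, Fin.val_rev]
  congr 1
  omega

theorem trU_trU {n : ℕ} (x : Un n) : trU (trU x) = x := by
  funext k j
  have hk := k.isLt
  have hj := j.isLt
  have e : ∀ (k' : Fin n) (h : k'.val = k.val) (j' : ℕ) (hj' : j' < k'.val) (_ : j' = j.val),
      x k' ⟨j', hj'⟩ = x k j := by
    intro k' h j' hj' h2
    obtain rfl : k' = k := Fin.ext h
    congr 1
    exact Fin.ext h2
  exact e _ (by simp only; omega) _ _ (by simp only; omega)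

theorem trU_bijective (n : ℕ) : Function.Bijective (trU : Un n → Un n) :=
  Function.Involutive.bijective trU_trU

theorem LevW.tau {a n : ℕ} (ha0 : 1 ≤ a) (ha : a + n + 1 ≤ B) {G : Set (Wd B L)}
    (h : LevW (a + 1) n G) : LevW a n (NJ.tau B L ⁻¹' G) := by
  intro ω ω' hs
  exact h _ _ ((sameW_tau' a n ha0 ha ω ω').2 hs)

theorem LevW.rho {a n : ℕ} (ha : a + n ≤ B + 1) {G : Set (Wd B L)}
    (h : LevW a n G) : LevW (B + 1 - a - n) n (NJ.rho B L ⁻¹' G) := by
  intro ω ω' hs
  exact h _ _ ((sameW_rho a n ha ω ω').2 hs)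

theorem MeasW.tau {C : Type*} {a n : ℕ} (ha0 : 1 ≤ a) (ha : a + n + 1 ≤ B) {f : Wd B L → C}
    (h : MeasW (a + 1) n f) : MeasW a n (fun ω => f (NJ.tau B L ω)) := by
  intro ω ω' hs
  exact h _ _ ((sameW_tau' a n ha0 ha ω ω').2 hs)

theorem MeasW.rho {C : Type*} {a n : ℕ} (ha : a + n ≤ B + 1) {f : Wd B L → C}
    (h : MeasW a n f) : MeasW (B + 1 - a - n) n (fun ω => f (NJ.rho B L ω)) := by
  intro ω ω' hs
  exact h _ _ ((sameW_rho a n ha ω ω').2 hs)

theorem sum_tau {M : Type*} [AddCommMonoid M] (f : Wd B L → M) :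
    ∑ ω, f (tau B L ω) = ∑ ω, f ω := Equiv.sum_comp (tau B L) f

theorem sum_rho {M : Type*} [AddCommMonoid M] (f : Wd B L → M) :
    ∑ ω, f (rho B L ω) = ∑ ω, f ω := Equiv.sum_comp (rho B L) f

theorem uw_tau (ω : Wd B L) : uw B L (tau B L ω) = uw B L ω := rfl

theorem uw_rho (ω : Wd B L) : uw B L (rho B L ω) = uw B L ω := rfl

end Pool.Agent.CutSeq.NJ
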