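import Pool.Agent.NJ.CurM13
import Pool.Agent.NJ.Sym80

/-!
S19271, NOJUMP, row B2: letters prepended to a word act on the rows from the right.

`cat lam om` is the word `om` with the `t` letters `lam` in front of it; the newest letter comes
first, so `Fin.cons p lam` is `lam` followed by one more right letter `p`.
-/

set_option autoImplicit false

namespace Pool.Agent.CutSeq.NJ

open Finset Module Bwd

variable {n B L t : ℕ}

/-- first `b` entries (total in `b`) -/
def pfx {n : ℕ} (b : ℕ) (R : V n) : V b := fun j => zx R j.val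

/-- a right letter on the row of level `n` -/
def rx {n : ℕ} (p : ℕ × ZMod 2) (R : V n) : V n := fun k =>
  R k + if k.val = p.1 then p.2 * (if h : k.val + 1 < n then R ⟨k.val + 1, h⟩ else 1) else 0

/-- a right letter on an array -/
def rxU {n : ℕ} (p : ℕ × ZMod 2) (A : Un n) : Un n := fun k => rx p (A k)

theorem rx_rx (p : ℕ × ZMod 2) (R : V n) : rx p (rx p R) = R := by
  funext k
  unfold rx
  by_cases hk : k.val = p.1
  · simp only [if_pos hk]
    by_cases h : k.val + 1 < n
    · simp only [dif_pos h]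
      rw [if_neg (by omega), add_zero, add_assoc, CharTwo.add_self_eq_zero, add_zero]
    · simp only [dif_neg h]
      rw [add_assoc, CharTwo.add_self_eq_zero, add_zero]
  · simp only [if_neg hk, add_zero]

theorem rxU_rxU (p : ℕ × ZMod 2) (A : Un n) : rxU p (rxU p A) = A := by
  funext k
  exact rx_rx p (A k)

theorem rx_zero (b : ℕ) (R : V n) : rx (b, 0) R = R := by
  funext k
  unfold rx
  simp

theorem rxU_zero (b : ℕ) (A : Un n) : rxU (b, 0) A = A := by
  funext k
  exact rx_zero b (A k)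

/-- right letters as permutations of the rows -/
def rxEquiv (p : ℕ × ZMod 2) : V n ≃ V n := ⟨rx p, rx p, rx_rx p, rx_rx p⟩

/-- right letters as permutations of the arrays -/
def rxUEquiv (p : ℕ × ZMod 2) : Un n ≃ Un n := ⟨rxU p, rxU p, rxU_rxU p, rxU_rxU p⟩

theorem rxU_jnU (p : ℕ × ZMod 2) (A : Un n) (R : V n) :
    rxU p (jnU A R) = jnU (rxU p A) (rx p R) := by
  funext ⟨k, hk⟩ j
  by_cases h : k < n
  · have e1 : jnU A R ⟨k, hk⟩ = A ⟨k, h⟩ := by
      funext j
      exact dif_pos h
    show rx p (jnU A R ⟨k, hk⟩) j = (if h : k < n then _ else _)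
    rw [dif_pos h, e1]
    rfl
  · have hk' : k = n := by omega
    subst hk'
    have e1 : jnU A R ⟨k, hk⟩ = R := by
      funext j
      exact dif_neg h
    show rx p (jnU A R ⟨k, hk⟩) j = (if h : k < k then _ else _)
    rw [dif_neg h, e1]

/-! #### prefixes -/

theorem pfx_self (R : V n) : pfx n R = R := by
  funext k
  exact zx_eq R k

theorem pfx_zero (R : V n) : pfx 0 R = 0 := Subsingleton.elim _ _

theorem pfx_pfx {b b' : ℕ} (h : b ≤ b') (R : V n) : pfx b (pfx b' R) = pfx b R := by
  funext j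
  show zx (pfx b' R) j.val = zx R j.val
  unfold zx
  rw [dif_pos (show j.val < b' by have := j.isLt; omega)]
  rfl

/-- splitting off the last entry of a vector -/
def snE (b : ℕ) : V b × ZMod 2 ≃ V (b + 1) where
  toFun p := fun j => if h : j.val < b then p.1 ⟨j.val, h⟩ else p.2
  invFun x := (fun j => x ⟨j.val, by omega⟩, x ⟨b, by omega⟩)
  left_inv p := by
    refine Prod.ext ?_ ?_
    · funext j
      exact dif_pos j.isLt
    · exact dif_neg (lt_irrefl b)
  right_inv x := by
    funext ⟨j, hj⟩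
    by_cases h : j < b
    · exact dif_pos h
    · have hj' : j = b := by omega
      subst hj'
      exact dif_neg h

theorem pfx_succ (b : ℕ) (R : V n) : pfx (b + 1) R = snE b (pfx b R, zx R b) := by
  funext j
  by_cases h : j.val < b
  · show zx R j.val = (if h : j.val < b then _ else _)
    rw [dif_pos h]
    rfl
  · have hj : j.val = b := by have := j.isLt; omega
    show zx R j.val = (if h : j.val < b then _ else _)
    rw [dif_neg h, hj]

theorem zx_rx (p : ℕ × ZMod 2) (R : V n) (k : ℕ) (hk : k < n) : zx (rx p R) k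
    = zx R k + if k = p.1 then p.2 * (if k + 1 < n then zx R (k + 1) else 1) else 0 := by
  have h1 : zx (rx p R) k = rx p R ⟨k, hk⟩ := zx_eq (rx p R) ⟨k, hk⟩
  have h2 : zx R k = R ⟨k, hk⟩ := zx_eq R ⟨k, hk⟩
  rw [h1, h2]
  unfold rx
  congr 1
  by_cases h : k = p.1
  · rw [if_pos h, if_pos h]
    congr 1
    by_cases h' : k + 1 < n
    · rw [dif_pos h', if_pos h']
      exact (zx_eq R ⟨k + 1, h'⟩).symm
    · rw [dif_neg h', if_neg h']
  · rw [if_neg h, if_neg h]

theorem zx_rx_ne (p : ℕ × ZMod 2) (R : V n) (k : ℕ) (h : k ≠ p.1) : zx (rx p R) k = zx R k := by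
  by_cases hk : k < n
  · rw [zx_rx p R k hk, if_neg h, add_zero]
  · unfold zx
    rw [dif_neg hk, dif_neg hk]

/-- a letter above the prefix does nothing -/
theorem pfx_rx_ge {b : ℕ} (p : ℕ × ZMod 2) (h : b ≤ p.1) (R : V n) : pfx b (rx p R) = pfx b R := by
  funext j
  exact zx_rx_ne p R j.val (by have := j.isLt; omega)

/-- a letter inside the prefix permutes the prefixes -/
theorem pfx_rx_lt {b : ℕ} (p : ℕ × ZMod 2) (h : p.1 + 1 < b) (hb : b ≤ n) (R : V n) :
    pfx b (rx p R) = rx p (pfx b R) := by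
  funext j
  show zx (rx p R) j.val = _
  rw [zx_rx p R j.val (by have := j.isLt; omega)]
  unfold rx
  congr 1
  by_cases hj : j.val = p.1
  · rw [if_pos hj, if_pos hj, if_pos (by omega), dif_pos (show j.val + 1 < b by omega)]
    rfl
  · rw [if_neg hj, if_neg hj]

/-- the full row is permuted by every letter -/
theorem pfx_rx_self (p : ℕ × ZMod 2) (R : V n) : pfx n (rx p R) = rx p (pfx n R) := by
  rw [pfx_self, pfx_self]

/-- the only prefix which is changed essentially -/
theorem pfx_rx_eq {b : ℕ} (hb : b + 1 < n) (R : V n) :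
    pfx (b + 1) (rx (b, 1) R) = snE b (pfx b R, zx R b + zx R (b + 1)) := by
  rw [pfx_succ, pfx_rx_ge (b, 1) le_rfl, zx_rx (b, 1) R b (by omega), if_pos rfl, if_pos hb, one_mul]

/-! #### words -/

/-- the word `om` with the letters `lam` in front -/
def cat {B L t : ℕ} (lam : Wd B t) (om : Wd B L) : Seq := fun i =>
  if i < t then ext lam i else ext om (i - t)

/-- one more right letter -/
abbrev cns {B t : ℕ} (p : Fin B × ZMod 2) (lam : Wd B t) : Wd B (t + 1) :=
  Fin.cons (α := fun _ => Fin B × ZMod 2) p lam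

theorem ext_cns_zero (p : Fin B × ZMod 2) (lam : Wd B t) :
    ext (cns p lam) 0 = (p.1.val, p.2) := by
  unfold ext
  rw [dif_pos (Nat.succ_pos t)]
  rfl

theorem ext_cns_succ (p : Fin B × ZMod 2) (lam : Wd B t) (i : ℕ) (hi : i < t) :
    ext (cns p lam) (i + 1) = ext lam i := by
  unfold ext
  rw [dif_pos (by omega : i + 1 < t + 1), dif_pos hi]
  rfl

theorem cat_cns_zero (p : Fin B × ZMod 2) (lam : Wd B t) (om : Wd B L) :
    cat (cns p lam) om 0 = (p.1.val, p.2) := by
  unfold cat
  rw [if_pos (Nat.succ_pos t), ext_cns_zero]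

theorem shift_cat_cns (p : Fin B × ZMod 2) (lam : Wd B t) (om : Wd B L) :
    shift (cat (cns p lam) om) 1 = cat lam om := by
  funext i
  show cat (cns p lam) om (1 + i) = cat lam om i
  unfold cat
  by_cases h : i < t
  · rw [if_pos h, if_pos (by omega : 1 + i < t + 1), Nat.add_comm 1 i, ext_cns_succ p lam i h]
  · rw [if_neg h, if_neg (by omega : ¬ 1 + i < t + 1)]
    congr 1
    omega

theorem shift_cat (lam : Wd B t) (om : Wd B L) : shift (cat lam om) t = ext om := by
  funext i
  show cat lam om (t + i) = ext om i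
  unfold cat
  rw [if_neg (by omega)]
  congr 1
  omega

theorem Mst_cns (p : Fin B × ZMod 2) (lam : Wd B t) (om : Wd B L) (s k j : ℕ) :
    Mst (cat (cns p lam) om) (s + 1) k j = Mst (cat lam om) s k j +
      if j = p.1.val then p.2 * Mst (cat lam om) s k (p.1.val + 1) else 0 := by
  rw [Mst_first, shift_cat_cns, cat_cns_zero]

/-- the array after the right letters -/
def At (n : ℕ) {B L t : ℕ} (q : Wd B L × Wd B t) : Un n := mm (cat q.2 q.1) (L + t) n

/-- the row of level `n` after the right letters -/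
def Rt (n : ℕ) {B L t : ℕ} (q : Wd B L × Wd B t) : V n := row (cat q.2 q.1) (L + t) n

theorem jnU_At (n : ℕ) (q : Wd B L × Wd B t) : jnU (At n q) (Rt n q) = At (n + 1) q :=
  (mm_jnU _ _).symm

theorem Rt_cns (p : Fin B × ZMod 2) (om : Wd B L) (lam : Wd B t) :
    Rt n (om, cns p lam) = rx (p.1.val, p.2) (Rt n (om, lam)) := by
  funext j
  show Mst (cat (cns p lam) om) (L + t + 1) n j.val = _
  rw [Mst_cns]
  unfold rx
  show _ = Mst (cat lam om) (L + t) n j.val + _
  congr 1
  by_cases h : j.val = p.1.val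
  · rw [if_pos h, if_pos h]
    congr 1
    by_cases h' : j.val + 1 < n
    · rw [dif_pos h', ← h]
      rfl
    · rw [dif_neg h', ← h, show j.val + 1 = n by have := j.isLt; omega, Mst_diag]
  · rw [if_neg h, if_neg h]

theorem At_cns (p : Fin B × ZMod 2) (om : Wd B L) (lam : Wd B t) :
    At n (om, cns p lam) = rxU (p.1.val, p.2) (At n (om, lam)) := by
  funext k
  exact Rt_cns p om lam

theorem cat_zero (lam : Wd B 0) (om : Wd B L) : cat lam om = ext om := by
  funext i
  unfold cat
  rw [if_neg (by omega)]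
  rfl

theorem At_zero (q : Wd B L × Wd B 0) : At n q = mm (ext q.1) L n := by
  unfold At
  rw [cat_zero]
  rfl

theorem Rt_zero (q : Wd B L × Wd B 0) : Rt n q = row (ext q.1) L n := by
  unfold Rt
  rw [cat_zero]
  rfl

/-- the array after the right letters is a product -/
theorem At_eq (q : Wd B L × Wd B t) :
    At n q = mulU (mm (ext q.1) L n) (mm (ext q.2) t n) := by
  unfold At
  rw [Nat.add_comm, mm_add, shift_cat]
  congr 1
  refine Brg.mm_congr fun i hi => ?_
  unfold cat
  rw [if_pos hi]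

/-! #### laws -/

/-- weight of a word and of `t` further letters -/
noncomputable def w2 (B L t : ℕ) : Wd B L × Wd B t → ℝ := fun q => uw B L q.1 * uw B t q.2

theorem w2_eq (q : Wd B L × Wd B t) : w2 B L t q = 1 / ((B : ℝ) * 2) ^ (L + t) := by
  unfold w2
  rw [Brg.uw_eq, Brg.uw_eq, pow_add]
  rw [div_mul_div_comm, one_mul]

theorem w2_nonneg (q : Wd B L × Wd B t) : 0 ≤ w2 B L t q := by
  rw [w2_eq]
  positivity

theorem tot_w2 (hB : 0 < B) : tot (w2 B L t) = 1 := by
  unfold tot w2
  rw [Fintype.sum_prod_type]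
  have h1 := Brg.tot_uw B L hB
  have h2 := Brg.tot_uw B t hB
  unfold tot at h1 h2
  have : ∀ x : Wd B L, ∑ y : Wd B t, uw B L x * uw B t y = uw B L x := fun x => by
    rw [← mul_sum, h2, mul_one]
  rw [Finset.sum_congr rfl fun x _ => this x, h1]

/-- words of length `L + t` -/
def catE (B L t : ℕ) : Wd B L × Wd B t ≃ Wd B (t + L) :=
  (Equiv.prodComm _ _).trans (Fin.appendEquiv t L)

theorem ext_catE (q : Wd B L × Wd B t) (i : ℕ) :
    ext (catE B L t q) i = cat q.2 q.1 i := by
  unfold cat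
  by_cases h : i < t
  · rw [if_pos h]
    exact Brg.ext_left q.2 q.1 i h
  · rw [if_neg h]
    have := Brg.ext_right q.2 q.1 (i - t)
    rw [show t + (i - t) = i by omega] at this
    exact this

theorem sum_w2_law {C : Type*} (F : Un (n + 1) → C) (G : C → ℝ) :
    ∑ q : Wd B L × Wd B t, w2 B L t q * G (F (At (n + 1) q))
      = ∑ ω : Wd B (L + t), uw B (L + t) ω * G (F (mm (ext ω) (L + t) (n + 1))) := by
  rw [Nat.add_comm L t, ← (catE B L t).sum_comp]
  refine sum_congr rfl fun q _ => ?_
  rw [w2_eq, Brg.uw_eq, Nat.add_comm L t]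
  congr 3
  unfold At
  rw [Nat.add_comm L t]
  exact Brg.mm_congr fun i _ => (ext_catE q i).symm

/-- (law2) the pair after `t` right letters has the law of the pair of a word of length `L + t` -/
theorem KK_law2 {A C : Type*} [Fintype A] (X : Un n → V n → A) (Y : Un n → V n → C) :
    KK (w2 B L t) (fun q => X (At n q) (Rt n q)) (fun q => Y (At n q) (Rt n q))
      = KK (uw B (L + t)) (fun ω => X (mm (ext ω) (L + t) n) (row (ext ω) (L + t) n))
        (fun ω => Y (mm (ext ω) (L + t) n) (row (ext ω) (L + t) n)) := by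
  classical
  refine KK_law _ _ _ _ _ _ fun a c => ?_
  rw [Brg.mass_eq, Brg.mass_eq]
  have h := sum_w2_law (B := B) (L := L) (t := t) (n := n)
    (fun x => (X ((jnE n).symm x).1 ((jnE n).symm x).2, Y ((jnE n).symm x).1 ((jnE n).symm x).2))
    (fun z => if z = (a, c) then (1 : ℝ) else 0)
  have e1 : ∀ q : Wd B L × Wd B t, (jnE n).symm (At (n + 1) q) = (At n q, Rt n q) := by
    intro q
    rw [Equiv.symm_apply_eq]
    exact (jnU_At n q).symm
  have e2 : ∀ ω : Wd B (L + t), (jnE n).symm (mm (ext ω) (L + t) (n + 1))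
      = (mm (ext ω) (L + t) n, row (ext ω) (L + t) n) := by
    intro ω
    rw [Equiv.symm_apply_eq]
    exact mm_jnU _ _
  simp only [e1, e2] at h
  refine (Finset.sum_congr rfl fun q _ => ?_).trans (h.trans (Finset.sum_congr rfl fun ω _ => ?_))
  · split_ifs
    · rw [mul_one]
    · rw [mul_zero]
  · split_ifs
    · rw [mul_one]
    · rw [mul_zero]

/-! #### conditioning on the newest letter -/

/-- splitting off the newest letter -/
def cnsE (B L t : ℕ) : (Fin B × ZMod 2) × (Wd B L × Wd B t) ≃ Wd B L × Wd B (t + 1) where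
  toFun p := (p.2.1, cns p.1 p.2.2)
  invFun q := (q.2 0, (q.1, fun i => q.2 i.succ))
  left_inv p := by
    refine Prod.ext ?_ (Prod.ext rfl ?_)
    · rfl
    · funext i
      rfl
  right_inv q := by
    refine Prod.ext rfl ?_
    funext i
    refine Fin.cases ?_ (fun i => ?_) i
    · rfl
    · rfl

theorem cns_inj {p p' : Fin B × ZMod 2} {lam lam' : Wd B t} :
    cns p lam = cns p' lam' ↔ p = p' ∧ lam = lam' := Fin.cons_inj

theorem w2_cns (p : Fin B × ZMod 2) (q : Wd B L × Wd B t) :
    w2 B L (t + 1) (q.1, cns p q.2) = 1 / ((B : ℝ) * 2) * w2 B L t q := by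
  rw [w2_eq, w2_eq, ← Nat.add_assoc, pow_succ, one_div_mul_one_div, mul_comm]

theorem mass_cns {C : Type*} (Z : Wd B L × Wd B (t + 1) → C) (c : C) (p : Fin B × ZMod 2)
    (lam : Wd B t) :
    mass (w2 B L (t + 1)) (fun q => (Z q, q.2)) (c, cns p lam)
      = 1 / ((B : ℝ) * 2) * mass (w2 B L t) (fun q => (Z (q.1, cns p q.2), q.2)) (c, lam) := by
  classical
  rw [Brg.mass_eq, Brg.mass_eq, ← (cnsE B L t).sum_comp, Fintype.sum_prod_type,
    Finset.sum_eq_single p]
  · rw [mul_sum]
    refine sum_congr rfl fun q _ => ?_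
    show (if (Z (q.1, cns p q.2), cns p q.2) = (c, cns p lam) then w2 B L (t + 1) (q.1, cns p q.2)
      else 0) = _
    by_cases h : (Z (q.1, cns p q.2), q.2) = (c, lam)
    · rw [if_pos h, if_pos, w2_cns]
      rw [Prod.mk.injEq] at h ⊢
      exact ⟨h.1, by rw [h.2]⟩
    · rw [if_neg h, if_neg, mul_zero]
      intro h'
      rw [Prod.mk.injEq, cns_inj] at h'
      exact h (Prod.ext h'.1 h'.2.2)
  · intro p' _ hp'
    refine sum_eq_zero fun q _ => ?_
    show (if (Z (q.1, cns p' q.2), cns p' q.2) = (c, cns p lam) then w2 B L (t + 1) (q.1, cns p' q.2)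
      else 0) = 0
    rw [if_neg]
    intro h'
    rw [Prod.mk.injEq, cns_inj] at h'
    exact hp' h'.2.1
  · intro h
    exact absurd (mem_univ p) h

/-- conditioning on the newest letter -/
theorem KK_cns {A C : Type*} [Fintype A] (hB : 0 < B) (X : Wd B L × Wd B (t + 1) → A)
    (Y : Wd B L × Wd B (t + 1) → C) :
    KK (w2 B L (t + 1)) X (fun q => (Y q, q.2))
      = ∑ p : Fin B × ZMod 2, 1 / ((B : ℝ) * 2) *
        KK (w2 B L t) (fun q => X (q.1, cns p q.2)) (fun q => (Y (q.1, cns p q.2), q.2)) := by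
  have hB' : (0 : ℝ) < B := by exact_mod_cast hB
  unfold KK
  rw [← (cnsE B L t).sum_comp, Fintype.sum_prod_type]
  refine sum_congr rfl fun p _ => ?_
  rw [mul_sum]
  refine sum_congr rfl fun q _ => ?_
  show w2 B L (t + 1) (q.1, cns p q.2) * Real.log (_ * mass _ _
    (X (q.1, cns p q.2), (Y (q.1, cns p q.2), cns p q.2)) /
    mass _ _ (Y (q.1, cns p q.2), cns p q.2)) = _
  have h1 : mass (w2 B L (t + 1)) (fun q => (X q, (Y q, q.2)))
      (X (q.1, cns p q.2), (Y (q.1, cns p q.2), cns p q.2))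
      = 1 / ((B : ℝ) * 2) * mass (w2 B L t) (fun q => (X (q.1, cns p q.2), (Y (q.1, cns p q.2), q.2)))
        (X (q.1, cns p q.2), (Y (q.1, cns p q.2), q.2)) := by
    have := mass_cns (fun q : Wd B L × Wd B (t + 1) => (X q, Y q))
      (X (q.1, cns p q.2), Y (q.1, cns p q.2)) p q.2
    have e1 : mass (w2 B L (t + 1)) (fun q => (X q, (Y q, q.2)))
        (X (q.1, cns p q.2), (Y (q.1, cns p q.2), cns p q.2))
        = mass (w2 B L (t + 1)) (fun q => ((X q, Y q), q.2))
        ((X (q.1, cns p q.2), Y (q.1, cns p q.2)), cns p q.2) :=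
      mass_congr _ _ _ _ _ fun _ _ => by simp only [Prod.mk.injEq, and_assoc]
    have e2 : mass (w2 B L t) (fun q => (X (q.1, cns p q.2), (Y (q.1, cns p q.2), q.2)))
        (X (q.1, cns p q.2), (Y (q.1, cns p q.2), q.2))
        = mass (w2 B L t) (fun q => ((X (q.1, cns p q.2), Y (q.1, cns p q.2)), q.2))
        ((X (q.1, cns p q.2), Y (q.1, cns p q.2)), q.2) :=
      mass_congr _ _ _ _ _ fun _ _ => by simp only [Prod.mk.injEq, and_assoc]
    rw [e1, e2]
    exact this
  have h2 := mass_cns Y (Y (q.1, cns p q.2)) p q.2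
  rw [h1, h2, w2_cns]
  have h3 : ∀ a b c : ℝ, c * (1 / ((B : ℝ) * 2) * a) / (1 / ((B : ℝ) * 2) * b) = c * a / b := by
    intro a b c
    rw [show c * (1 / ((B : ℝ) * 2) * a) = 1 / ((B : ℝ) * 2) * (c * a) by ring,
      mul_div_mul_left _ _ (by positivity)]
  rw [h3, mul_assoc]

end Pool.Agent.CutSeq.NJ
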