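import Pool.Agent.NJ.Many85

/-! Coin brooms (helper85).

A world `ω` gives an array `R.m ω`, a linear map `R.X ω` (row sibling of a coin vector), a linear map
`R.Y ω` (column sibling) and a bilinear form `R.C ω` (corner bit).  The broom with row index set `I`
and column index set `J` is `obs R ω ξ η`.

* `obs_mix`: public combinations of siblings.
* `pub_bal`: the public maps have fibres of equal size.
* `tb_broom`: `tb_event` for brooms.
* `unif_lin`: the image of uniform coins under a linear map is uniform on the range.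
-/

set_option autoImplicit false

namespace Pool.Agent.NJ

open Finset Pool.Agent.CutSeq

/-- ring data of the worlds -/
structure Rg (Ω A0 : Type*) (P Q n n' : ℕ) where
  /-- array -/
  m : Ω → A0
  /-- row siblings -/
  X : Ω → V P →ₗ[ZMod 2] V n
  /-- column siblings -/
  Y : Ω → V Q →ₗ[ZMod 2] V n'
  /-- corner bits -/
  C : Ω → V P →ₗ[ZMod 2] V Q →ₗ[ZMod 2] ZMod 2

/-- the linear part of the broom space -/
abbrev BL (n n' : ℕ) (I J : Type*) := (I → V n) × (J → V n') × (I → J → ZMod 2)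

/-- the broom space -/
abbrev BT (A0 : Type*) (n n' : ℕ) (I J : Type*) := A0 × BL n n' I J

section Obs

variable {Ω A0 : Type*} {P Q n n' : ℕ} {I J Z Z' : Type*}

/-- the broom -/
def obs (R : Rg Ω A0 P Q n n') (ω : Ω) (ξ : I → V P) (η : J → V Q) : BT A0 n n' I J :=
  (R.m ω, fun a => R.X ω (ξ a), fun b => R.Y ω (η b), fun a b => R.C ω (ξ a) (η b))

/-- adding public combinations of further siblings -/
def mx {M : Type*} [AddCommGroup M] [Module (ZMod 2) M] [Fintype Z] (D : I → Z → ZMod 2)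
    (f : I ⊕ Z → M) : I → M := fun a => f (Sum.inl a) + ∑ z, D a z • f (Sum.inr z)

lemma map_mx {M M' : Type*} [AddCommGroup M] [Module (ZMod 2) M] [AddCommGroup M']
    [Module (ZMod 2) M'] [Fintype Z] (L : M →ₗ[ZMod 2] M') (D : I → Z → ZMod 2) (f : I ⊕ Z → M)
    (a : I) : L (mx D f a) = mx D (fun i => L (f i)) a := by
  unfold mx
  rw [map_add, map_sum]
  congr 1
  refine Finset.sum_congr rfl fun z _ => ?_
  rw [map_smul]

/-- the public map (linear part) -/
def pubL [Fintype Z] [Fintype Z'] (D : I → Z → ZMod 2) (D' : J → Z' → ZMod 2) :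
    BL n n' (I ⊕ Z) (J ⊕ Z') →+ BL n n' I J where
  toFun := fun β => (mx D β.1, mx D' β.2.1, fun a => mx D' (mx D β.2.2 a))
  map_zero' := by
    refine Prod.ext ?_ (Prod.ext ?_ ?_)
    · funext a
      simp [mx]
    · funext a
      simp [mx]
    · funext a b
      simp [mx]
  map_add' := by
    intro β β'
    refine Prod.ext ?_ (Prod.ext ?_ ?_)
    · funext a
      simp only [mx, Prod.fst_add, Pi.add_apply, smul_add, Finset.sum_add_distrib]
      abel
    · funext a
      simp only [mx, Prod.fst_add, Prod.snd_add, Pi.add_apply, smul_add, Finset.sum_add_distrib]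
      abel
    · funext a b
      simp only [mx, Prod.snd_add, Pi.add_apply, smul_add, Finset.sum_add_distrib,
        Finset.sum_apply, Pi.smul_apply]
      abel

/-- the public map -/
def pub [Fintype Z] [Fintype Z'] (k : (I → Z → ZMod 2) × (J → Z' → ZMod 2))
    (β : BT A0 n n' (I ⊕ Z) (J ⊕ Z')) : BT A0 n n' I J := (β.1, pubL k.1 k.2 β.2)

/-- the broom of the combined siblings is a public function of the larger broom -/
theorem obs_mix [Fintype Z] [Fintype Z'] (R : Rg Ω A0 P Q n n') (ω : Ω)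
    (k : (I → Z → ZMod 2) × (J → Z' → ZMod 2)) (ξ : I ⊕ Z → V P) (η : J ⊕ Z' → V Q) :
    obs R ω (mx k.1 ξ) (mx k.2 η) = pub k (obs R ω ξ η) := by
  refine Prod.ext rfl (Prod.ext ?_ (Prod.ext ?_ ?_))
  · funext a
    exact map_mx (R.X ω) k.1 ξ a
  · funext b
    exact map_mx (R.Y ω) k.2 η b
  · funext a b
    change R.C ω (mx k.1 ξ a) (mx k.2 η b) =
      mx k.2 (mx k.1 (fun a b => R.C ω (ξ a) (η b)) a) b
    rw [map_mx (R.C ω (mx k.1 ξ a)) k.2 η b]
    congr 1
    funext b'
    rw [map_mx (R.C ω) k.1 ξ a]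
    unfold mx
    simp only [LinearMap.add_apply, LinearMap.sum_apply, LinearMap.smul_apply, Pi.add_apply,
      Finset.sum_apply, Pi.smul_apply]

lemma pubL_surj [Fintype Z] [Fintype Z'] (D : I → Z → ZMod 2) (D' : J → Z' → ZMod 2) :
    Function.Surjective (pubL (n := n) (n' := n') D D') := by
  intro β
  refine ⟨(Sum.elim β.1 0, Sum.elim β.2.1 0, Sum.elim (fun a => Sum.elim (β.2.2 a) 0) 0), ?_⟩
  refine Prod.ext ?_ (Prod.ext ?_ ?_)
  · funext a
    simp [pubL, mx]
  · funext b
    simp [pubL, mx]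
  · funext a b
    simp [pubL, mx]

/-- the public maps have fibres of equal size -/
theorem pub_bal [Fintype A0] [Fintype I] [Fintype J] [Fintype Z] [Fintype Z'] [DecidableEq I]
    [DecidableEq J] [DecidableEq Z] [DecidableEq Z']
    (k : (I → Z → ZMod 2) × (J → Z' → ZMod 2)) (a : BT A0 n n' I J) :
    Nat.card {β // pub (A0 := A0) (n := n) (n' := n') k β = a} * Fintype.card (BT A0 n n' I J) =
      Fintype.card (BT A0 n n' (I ⊕ Z) (J ⊕ Z')) := by
  have h1 : Nat.card {β // pub (A0 := A0) (n := n) (n' := n') k β = a} =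
      Nat.card {x // pubL (n := n) (n' := n') k.1 k.2 x = a.2} := by
    refine Nat.card_congr
      { toFun := fun β => ⟨β.1.2, (Prod.ext_iff.1 β.2).2⟩
        invFun := fun x => ⟨(a.1, x.1), Prod.ext rfl x.2⟩
        left_inv := ?_
        right_inv := fun x => rfl }
    rintro ⟨⟨u, v⟩, h⟩
    have := (Prod.ext_iff.1 h).1
    apply Subtype.ext
    exact Prod.ext this.symm rfl
  have h2 := hom_bal (pubL (n := n) (n' := n') k.1 k.2) (pubL_surj k.1 k.2) a.2
  have h3 : Fintype.card (BT A0 n n' I J) = Fintype.card A0 * Fintype.card (BL n n' I J) :=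
    Fintype.card_prod _ _
  have h4 : Fintype.card (BT A0 n n' (I ⊕ Z) (J ⊕ Z')) =
      Fintype.card A0 * Fintype.card (BL n n' (I ⊕ Z) (J ⊕ Z')) := Fintype.card_prod _ _
  rw [h1, h3, h4, mul_left_comm, h2]

end Obs

section TBB

variable {Ω A0 : Type*} [Fintype Ω] [Fintype A0] {P Q n n' : ℕ} {I J Z Z' : Type*}
  [Fintype I] [Fintype J] [Fintype Z] [Fintype Z'] [DecidableEq I] [DecidableEq J] [DecidableEq Z]
  [DecidableEq Z']

/-- Lemma V for the coins of the siblings -/
def VarOK (P Q : ℕ) (I J Z Z' : Type*) [Fintype I] [Fintype J] [Fintype Z] [Fintype Z']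
    [DecidableEq I] [DecidableEq J] [DecidableEq Z] [DecidableEq Z'] (e : ℝ) : Prop :=
  ∀ g : (I → V P) × (J → V Q) → ℝ,
    (∑ c : (I ⊕ Z → V P) × (J ⊕ Z' → V Q),
      ((∑ k : (I → Z → ZMod 2) × (J → Z' → ZMod 2), g (mx k.1 c.1, mx k.2 c.2)) /
          Fintype.card ((I → Z → ZMod 2) × (J → Z' → ZMod 2)) -
        (∑ c, g c) / Fintype.card ((I → V P) × (J → V Q))) ^ 2) /
      Fintype.card ((I ⊕ Z → V P) × (J ⊕ Z' → V Q)) ≤
    e * ((∑ c, g c ^ 2) / Fintype.card ((I → V P) × (J → V Q)))

/-- the worlds with uniform coins -/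
noncomputable abbrev cw (w : Ω → ℝ) (P Q : ℕ) (I J : Type*) [Fintype I] [Fintype J]
    [DecidableEq I] [DecidableEq J] : Ω × ((I → V P) × (J → V Q)) → ℝ :=
  pw w ((I → V P) × (J → V Q))

/-- (TB) for brooms -/
theorem tb_broom (w : Ω → ℝ) (hw : ∀ ω, 0 ≤ w ω) (hw1 : tot w ≤ 1) (R : Rg Ω A0 P Q n n')
    (e : ℝ) (hvar : VarOK P Q I J Z Z' e) (M : ℝ) (hM : 0 ≤ M)
    (E : Set (BT A0 n n' I J)) (lam : ℝ)
    (hE : (Nat.card E : ℝ) ≤ Real.exp (-lam) * Fintype.card (BT A0 n n' I J))
    (q : ℝ) (hq0 : 0 < q)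
    (hq : q ≤ pr (cw w P Q I J) {p | obs R p.1 p.2.1 p.2.2 ∈ E}) (he : 16 * e ≤ q)
    (hSC : ∀ S : Set Ω, (∀ ω ω', R.m ω = R.m ω' → R.X ω = R.X ω' → R.Y ω = R.Y ω' →
        R.C ω = R.C ω' → (ω ∈ S ↔ ω' ∈ S)) → q / 2 ≤ tot (ind S w) →
      K0 (cw (ind S w) P Q (I ⊕ Z) (J ⊕ Z')) (fun p => obs R p.1 p.2.1 p.2.2) ≤
        tot (ind S w) * (M + Real.log (1 / tot (ind S w)))) :
    lam ≤ 2 * M + 3 * Real.log (1 / q) + 6 * Real.log 2 := by
  classical
  -- the set `S` of `tb_event` depends on the ring data only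
  set code : Ω → A0 × (V P →ₗ[ZMod 2] V n) × (V Q →ₗ[ZMod 2] V n') ×
      (V P →ₗ[ZMod 2] V Q →ₗ[ZMod 2] ZMod 2) := fun ω => (R.m ω, R.X ω, R.Y ω, R.C ω) with hcode
  refine tb_event (C := (I → V P) × (J → V Q)) (C' := (I ⊕ Z → V P) × (J ⊕ Z' → V Q))
    (K := (I → Z → ZMod 2) × (J → Z' → ZMod 2)) w hw hw1
    (fun ω c => obs R ω c.1 c.2) (fun ω c => obs R ω c.1 c.2)
    (fun k c => (mx k.1 c.1, mx k.2 c.2)) pub
    (fun ω k c => obs_mix R ω k c.1 c.2) (fun k a => pub_bal k a) e hvar M hM E lam hE q hq0 hq he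
    ?_
  intro S hS hS1
  refine hSC S ?_ hS1
  intro ω ω' h1 h2 h3 h4
  refine hS ω ω' ?_
  funext c
  simp only [obs, h1, h2, h3, h4]

end TBB

section Lin

variable {P n : ℕ}

open Classical in
/-- the image of a uniform vector under a linear map is uniform on the range -/
theorem unif_lin (L : V P →ₗ[ZMod 2] V n) (v : V n) :
    (Nat.card {x // L x = v} : ℝ) / Fintype.card (V P) = uT (LinearMap.range L) v := by
  have hP : (0 : ℝ) < Fintype.card (V P) := by
    have : 0 < Fintype.card (V P) := Fintype.card_pos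
    exact_mod_cast this
  unfold uT
  by_cases hv : v ∈ LinearMap.range L
  · rw [if_pos hv]
    have h1 := hom_bal L.rangeRestrict.toAddMonoidHom
      (LinearMap.surjective_rangeRestrict L) ⟨v, hv⟩
    have h2 : Nat.card {x // L.rangeRestrict.toAddMonoidHom x = (⟨v, hv⟩ : LinearMap.range L)} =
        Nat.card {x // L x = v} := by
      refine Nat.card_congr (Equiv.subtypeEquivRight fun x => ?_)
      constructor
      · intro h
        exact congrArg Subtype.val h
      · intro h
        exact Subtype.ext h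
    rw [h2, ← Nat.card_eq_fintype_card (α := LinearMap.range L)] at h1
    have h3 : (Nat.card {x // L x = v} : ℝ) * Nat.card (LinearMap.range L) = Fintype.card (V P) := by
      exact_mod_cast h1
    have h4 : ((Nat.card (LinearMap.range L) : ℕ) : ℝ) ≠ 0 := by
      have : 0 < Nat.card (LinearMap.range L) := Nat.card_pos
      exact_mod_cast this.ne'
    rw [div_eq_div_iff hP.ne' h4, one_mul]
    exact h3
  · rw [if_neg hv]
    have : IsEmpty {x // L x = v} := by
      constructor
      rintro ⟨x, hx⟩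
      exact hv ⟨x, hx⟩
    rw [Nat.card_of_isEmpty]
    simp

/-- sums over coins -/
theorem sum_coin (L : V P →ₗ[ZMod 2] V n) (g : V n → ℝ) :
    (∑ x : V P, g (L x)) / Fintype.card (V P) = ∑ v, uT (LinearMap.range L) v * g v := by
  classical
  have h1 : ∑ x : V P, g (L x) = ∑ v, (Nat.card {x // L x = v} : ℝ) * g v := by
    rw [← Finset.sum_fiberwise_of_maps_to (s := (Finset.univ : Finset (V P)))
      (t := (Finset.univ : Finset (V n))) (g := L) (fun _ _ => Finset.mem_univ _)]
    refine Finset.sum_congr rfl fun v _ => ?_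
    rw [Finset.sum_congr rfl (g := fun _ => g v)]
    · rw [Finset.sum_const, nsmul_eq_mul]
      congr 2
      rw [Nat.card_eq_fintype_card, Fintype.card_subtype]
    · intro x hx
      rw [Finset.mem_filter] at hx
      rw [hx.2]
  rw [h1, Finset.sum_div]
  refine Finset.sum_congr rfl fun v _ => ?_
  rw [← unif_lin L v]
  ring

/-- sums over the coins of several siblings -/
theorem sum_coins (L : V P →ₗ[ZMod 2] V n) (s : ℕ) (g : (Fin s → V n) → ℝ) :
    (∑ x : Fin s → V P, g (fun i => L (x i))) / Fintype.card (Fin s → V P) =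
      ∑ y : Fin s → V n, (∏ i, uT (LinearMap.range L) (y i)) * g y := by
  classical
  have hcard : (Fintype.card (Fin s → V P) : ℝ) = (Fintype.card (V P) : ℝ) ^ s := by
    have := @Fintype.card_fun (Fin s) (V P) _ _ _
    rw [Fintype.card_fin] at this
    exact_mod_cast this
  have h1 : ∑ x : Fin s → V P, g (fun i => L (x i)) =
      ∑ y : Fin s → V n, (Nat.card {x : Fin s → V P // (fun i => L (x i)) = y} : ℝ) * g y := by
    rw [← Finset.sum_fiberwise_of_maps_to (s := (Finset.univ : Finset (Fin s → V P)))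
      (t := (Finset.univ : Finset (Fin s → V n))) (g := fun x i => L (x i))
      (fun _ _ => Finset.mem_univ _)]
    refine Finset.sum_congr rfl fun v _ => ?_
    rw [Finset.sum_congr rfl (g := fun _ => g v)]
    · rw [Finset.sum_const, nsmul_eq_mul]
      congr 2
      rw [Nat.card_eq_fintype_card, Fintype.card_subtype]
    · intro x hx
      rw [Finset.mem_filter] at hx
      rw [hx.2]
  have h2 : ∀ y : Fin s → V n, (Nat.card {x : Fin s → V P // (fun i => L (x i)) = y} : ℝ) =
      ∏ i, (Nat.card {x // L x = y i} : ℝ) := by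
    intro y
    have h3 : Nat.card {x : Fin s → V P // (fun i => L (x i)) = y} =
        Nat.card ((i : Fin s) → {x // L x = y i}) := by
      refine Nat.card_congr
        { toFun := fun x i => ⟨x.1 i, congrFun x.2 i⟩
          invFun := fun x => ⟨fun i => (x i).1, funext fun i => (x i).2⟩
          left_inv := fun x => rfl
          right_inv := fun x => rfl }
    rw [h3, Nat.card_pi]
    push_cast
    rfl
  rw [h1, Finset.sum_div]
  refine Finset.sum_congr rfl fun y _ => ?_
  rw [h2, hcard]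
  have h4 : ∏ i, uT (LinearMap.range L) (y i) =
      (∏ i, (Nat.card {x // L x = y i} : ℝ)) / (Fintype.card (V P) : ℝ) ^ s := by
    simp only [← unif_lin]
    rw [Finset.prod_div_distrib, Finset.prod_const, Finset.card_univ, Fintype.card_fin]
  rw [h4]
  ring

end Lin

end Pool.Agent.NJ
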