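import Pool.Agent.NJ.Loc50
import Pool.Agent.NJ.Brm85

/-!
Row BT, definitions: extended columns in coin space.  The world is a history together with the coins
of `m` row siblings; the extended column with coins `η` is the column sibling followed by its corner
bits with the `m` row siblings.
-/

set_option autoImplicit false

namespace Pool.Agent.NJ

open Finset Pool.Agent.CutSeq

namespace Loc

variable {H A : Type*} {n t : ℕ} (S : Loc H A n t)

/-- extended column as a linear map of the coins -/
noncomputable def ecL {m : ℕ} (h : H) (ξ : Fin m → V t) : V t →ₗ[ZMod 2] V (n + m) :=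
  Fintype.linearCombination (ZMod 2)
    (fun r' => (Fin.append (S.C h r') (fun l => ∑ r, ξ l r * S.Q h r r') : V (n + m)))

theorem ecL_apply {m : ℕ} (h : H) (ξ : Fin m → V t) (η : V t) :
    S.ecL h ξ η = Fin.append (S.col h η) (fun l => S.cor h (ξ l) η) := by
  unfold ecL
  rw [Fintype.linearCombination_apply]
  funext x
  rw [Finset.sum_apply]
  refine Fin.addCases (fun j => ?_) (fun l => ?_) x
  · rw [Fin.append_left]
    unfold col
    rw [Finset.sum_apply]
    refine Finset.sum_congr rfl fun r' _ => ?_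
    rw [Pi.smul_apply, Pi.smul_apply, Fin.append_left]
  · rw [Fin.append_right]
    unfold cor
    rw [Finset.sum_comm]
    refine Finset.sum_congr rfl fun r' _ => ?_
    rw [Pi.smul_apply, Fin.append_right, smul_eq_mul, Finset.mul_sum]
    refine Finset.sum_congr rfl fun r _ => ?_
    ring

/-- space of the extended columns -/
noncomputable def TE {m : ℕ} (q : H × (Fin m → V t)) : Submodule (ZMod 2) (V (n + m)) :=
  LinearMap.range (S.ecL q.1 q.2)

/-- array and row siblings -/
def dX {m : ℕ} (q : H × (Fin m → V t)) : A × (Fin m → V n) :=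
  (S.m q.1, fun l => S.row q.1 (q.2 l))

variable [Fintype H]

/-- extended column siblings from coins -/
theorem sum_TE {m s : ℕ} (u : H × (Fin m → V t) → ℝ)
    (G : H × (Fin m → V t) → (Fin s → V (n + m)) → ℝ) :
    ∑ p, sib u (fun q => S.TE q) s p * G p.1 p.2 =
      ∑ r, pw u (Fin s → V t) r * G r.1 (fun j => S.ecL r.1.1 r.1.2 (r.2 j)) := by
  rw [sum_sib u (fun q => S.TE q) s G,
    sum_pw u (fun q (η : Fin s → V t) => G q (fun j => S.ecL q.1 q.2 (η j)))]
  refine Finset.sum_congr rfl fun q _ => ?_
  rw [sum_coins (S.ecL q.1 q.2) s (G q)]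
  rfl

/-- entropies of extended column siblings from coins -/
theorem KK_TE {A' B' : Type*} [Fintype A'] {m s : ℕ} (u : H × (Fin m → V t) → ℝ)
    (X : H × (Fin m → V t) → (Fin s → V (n + m)) → A')
    (Y : H × (Fin m → V t) → (Fin s → V (n + m)) → B') :
    KK (sib u (fun q => S.TE q) s) (fun p => X p.1 p.2) (fun p => Y p.1 p.2) =
      KK (pw u (Fin s → V t)) (fun r => X r.1 (fun j => S.ecL r.1.1 r.1.2 (r.2 j)))
        (fun r => Y r.1 (fun j => S.ecL r.1.1 r.1.2 (r.2 j))) := by
  classical
  refine KK_law _ _ _ _ _ _ fun a b => ?_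
  unfold mass
  have h := S.sum_TE (s := s) u (fun q x => if (X q x, Y q x) = (a, b) then (1 : ℝ) else 0)
  refine Eq.trans (Eq.trans ?_ h) ?_
  · refine Finset.sum_congr rfl fun p _ => ?_
    by_cases h1 : (X p.1 p.2, Y p.1 p.2) = (a, b)
    · rw [if_pos h1, if_pos h1, mul_one]
    · rw [if_neg h1, if_neg h1, mul_zero]
  · refine Finset.sum_congr rfl fun r _ => ?_
    by_cases h1 : (X r.1 (fun j => S.ecL r.1.1 r.1.2 (r.2 j)),
        Y r.1 (fun j => S.ecL r.1.1 r.1.2 (r.2 j))) = (a, b)
    · rw [if_pos h1, if_pos h1, mul_one]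
    · rw [if_neg h1, if_neg h1, mul_zero]

end Loc

end Pool.Agent.NJ
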