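import Pool.Agent.NJ.Tail85

/-! Rows (SC'), (V*) (helper85).

* `K0_sub_tail`: entropy of a smaller weight: `K0 w' X ≤ tot w' (lam + log (tot w / tot w')) + log |A| P(L ≥ lam)`.
* `sib_mul_le`: `S U(s) ≤ s U(S)` for `U(s) = K(next s siblings | data)`, `s ≤ S`.
* `KK_snd_le`: `K(siblings | data) ≤ K0(data, siblings)`.
-/

set_option autoImplicit false

namespace Pool.Agent.NJ

open Finset Pool.Agent.CutSeq

section Sub

variable {Ω A B : Type*} [Fintype Ω] [Fintype A]

/-- log density of the law of `X` -/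
noncomputable def ld (w : Ω → ℝ) (X : Ω → A) (a : A) : ℝ :=
  Real.log (Fintype.card A * mass w X a / tot w)

lemma ld_le (w : Ω → ℝ) (hw : ∀ ω, 0 ≤ w ω) (X : Ω → A) {ω : Ω} (h : w ω ≠ 0) :
    ld w X (X ω) ≤ Real.log (Fintype.card A) := by
  have hA : (0 : ℝ) < Fintype.card A := by
    have : Nonempty A := ⟨X ω⟩
    exact_mod_cast Fintype.card_pos
  have m1 := mass_pos w hw X h
  have t1 : 0 < tot w := lt_of_lt_of_le (lt_of_le_of_ne (hw ω) (Ne.symm h)) (le_tot w hw ω)
  unfold ld
  refine Real.log_le_log (by positivity) ?_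
  rw [div_le_iff₀ t1]
  have h1 : mass w X (X ω) ≤ tot w := by
    have := mass_mono w hw X (fun _ => ()) (X ω) () (fun _ _ => rfl)
    rwa [mass_const] at this
  gcongr

/-- entropy of a smaller weight in terms of the density of the larger one -/
lemma K0_le_ld (w w' : Ω → ℝ) (hw' : ∀ ω, 0 ≤ w' ω) (hle : ∀ ω, w' ω ≤ w ω) (X : Ω → A) :
    K0 w' X ≤ ∑ ω, w' ω * ld w X (X ω) + tot w' * Real.log (tot w / tot w') := by
  have hw : ∀ ω, 0 ≤ w ω := fun ω => (hw' ω).trans (hle ω)
  rw [K0_eq]
  conv_rhs => rw [show tot w' * Real.log (tot w / tot w') =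
    ∑ ω, w' ω * Real.log (tot w / tot w') by rw [← Finset.sum_mul]; rfl]
  rw [← Finset.sum_add_distrib]
  refine Finset.sum_le_sum fun ω _ => ?_
  by_cases h : w' ω = 0
  · simp [h]
  · have hzp : 0 < w' ω := lt_of_le_of_ne (hw' ω) (Ne.symm h)
    have hwp : 0 < w ω := lt_of_lt_of_le hzp (hle ω)
    have t1 : 0 < tot w' := lt_of_lt_of_le hzp (le_tot w' hw' ω)
    have t2 : 0 < tot w := lt_of_lt_of_le hwp (le_tot w hw ω)
    have m1 := mass_pos w' hw' X h
    have m2 := mass_pos w hw X hwp.ne'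
    have m3 := mass_le_mass w w' hle X (X ω)
    have hA : (0 : ℝ) < Fintype.card A := by
      have : Nonempty A := ⟨X ω⟩
      exact_mod_cast Fintype.card_pos
    rw [← mul_add]
    refine mul_le_mul_of_nonneg_left ?_ (hw' ω)
    unfold ld
    rw [← Real.log_mul (by positivity) (by positivity)]
    refine Real.log_le_log (by positivity) ?_
    have e : Fintype.card A * mass w X (X ω) / tot w * (tot w / tot w') =
        Fintype.card A * mass w X (X ω) / tot w' := by
      field_simp
    rw [e]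
    gcongr

/-- (SC') in abstract form -/
theorem K0_sub_tail (w w' : Ω → ℝ) (hw' : ∀ ω, 0 ≤ w' ω) (hle : ∀ ω, w' ω ≤ w ω) (X : Ω → A)
    (lam : ℝ) (hlam : 0 ≤ lam) :
    K0 w' X ≤ tot w' * (lam + Real.log (tot w / tot w')) +
      Real.log (Fintype.card A) * pr w {ω | lam ≤ ld w X (X ω)} := by
  classical
  have hw : ∀ ω, 0 ≤ w ω := fun ω => (hw' ω).trans (hle ω)
  refine (K0_le_ld w w' hw' hle X).trans ?_
  have h1 : ∑ ω, w' ω * ld w X (X ω) ≤ tot w' * lam +
      Real.log (Fintype.card A) * pr w {ω | lam ≤ ld w X (X ω)} := by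
    rw [pr_eq_sum]
    unfold tot
    rw [Finset.sum_mul, Finset.mul_sum, ← Finset.sum_add_distrib]
    refine Finset.sum_le_sum fun ω _ => ?_
    by_cases h : w' ω = 0
    · rw [h]
      simp only [zero_mul, zero_add, Set.mem_ofPred_eq]
      split
      · refine mul_nonneg (Real.log_nonneg ?_) (hw ω)
        have : Nonempty A := ⟨X ω⟩
        exact_mod_cast Nat.one_le_iff_ne_zero.2 Fintype.card_ne_zero
      · simp
    · have hzp : 0 < w' ω := lt_of_le_of_ne (hw' ω) (Ne.symm h)
      have hwp : w ω ≠ 0 := (lt_of_lt_of_le hzp (hle ω)).ne'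
      have h2 := ld_le w hw X hwp
      have hl : 0 ≤ Real.log (Fintype.card A) := by
        refine Real.log_nonneg ?_
        have : Nonempty A := ⟨X ω⟩
        exact_mod_cast Nat.one_le_iff_ne_zero.2 Fintype.card_ne_zero
      simp only [Set.mem_ofPred_eq]
      split
      · rename_i h3
        have h4 := mul_le_mul_of_nonneg_left h2 hzp.le
        have h5 := mul_le_mul_of_nonneg_left (hle ω) hl
        have h6 := mul_nonneg hzp.le hlam
        nlinarith
      · rename_i h3
        have h4 := mul_le_mul_of_nonneg_left (not_le.1 h3).le hzp.le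
        linarith
  linarith

/-- conditional entropy of the second part -/
lemma KK_snd_le {A' : Type*} [Fintype A'] (w : Ω → ℝ) (hw : ∀ ω, 0 ≤ w ω) (X : Ω → A) (D : Ω → A') :
    KK w X D ≤ K0 w (fun ω => (D ω, X ω)) := by
  have h1 := KK_chain w hw D X (fun _ => ())
  have h2 : KK w X (fun ω => (D ω, ())) = KK w X D := by
    refine le_antisymm ?_ ?_
    · refine KK_finer w hw X _ _ ?_
      intro ω ω' _ _ h
      rw [h]
    · refine KK_finer w hw X _ _ ?_
      intro ω ω' _ _ h
      exact (Prod.mk.inj h).1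
  have h3 := KK_nonneg w hw D (fun _ => ())
  unfold K0
  rw [h1, h2]
  linarith

end Sub

section Convex

variable {Ω B : Type*} [Fintype Ω] {n : ℕ}

/-- `U(s)`: information of `s` further siblings -/
noncomputable def US (w : Ω → ℝ) (T : Ω → Submodule (ZMod 2) (V n)) (D : Ω → B) (s : ℕ) : ℝ :=
  KK (sib w T s) (fun p => p.2) (fun p => D p.1)

/-- `e(s)`: information of the next sibling given `s` siblings -/
noncomputable def eS (w : Ω → ℝ) (T : Ω → Submodule (ZMod 2) (V n)) (D : Ω → B) (s : ℕ) : ℝ :=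
  KK (sib w T (s + 1)) (fun p => p.2 (Fin.last s)) (fun p => ((fun i : Fin s => p.2 i.castSucc), D p.1))

lemma US_succ (w : Ω → ℝ) (hw : ∀ ω, 0 ≤ w ω) (T : Ω → Submodule (ZMod 2) (V n)) (D : Ω → B)
    (k : ℕ) : US w T D (k + 1) = US w T D k + eS w T D k := by
  have hW : ∀ p, 0 ≤ sib w T (k + 1) p := sib_nonneg_sib w hw T (k + 1)
  have h1 := KK_chain (sib w T (k + 1)) hW (fun p => fun i : Fin k => p.2 i.castSucc)
    (fun p => p.2 (Fin.last k)) (fun p => D p.1)
  have h2 := KK_sib_init (k := k) w T D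
  have h3 : KK (sib w T (k + 1)) (fun p => ((fun i : Fin k => p.2 i.castSucc), p.2 (Fin.last k)))
      (fun p => D p.1) = KK (sib w T (k + 1)) (fun p => p.2) (fun p => D p.1) := by
    refine KK_bij (sib w T (k + 1)) hW (fun p => p.2)
      (fun p => ((fun i : Fin k => p.2 i.castSucc), p.2 (Fin.last k))) (fun p => D p.1)
      (fun _ => (Fin.snocEquiv (fun _ : Fin (k + 1) => V n)).symm.trans (Equiv.prodComm _ _)) ?_
    intro p _
    simp [Fin.snocEquiv]
    rfl
  unfold US eS
  rw [← h3, h1, h2]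

/-- the increments increase -/
lemma eS_mono (w : Ω → ℝ) (hw : ∀ ω, 0 ≤ w ω) (T : Ω → Submodule (ZMod 2) (V n)) (D : Ω → B)
    (k : ℕ) : eS w T D k ≤ eS w T D (k + 1) := by
  classical
  have hW : ∀ p, 0 ≤ sib w T (k + 2) p := sib_nonneg_sib w hw T (k + 2)
  -- the last sibling of `k + 2`, given the first `k`
  have h1 : eS w T D k = KK (sib w T (k + 2)) (fun p => p.2 (Fin.last (k + 1)))
      (fun p => ((fun i : Fin k => p.2 i.castSucc.castSucc), D p.1)) := by
    unfold eS
    symm
    refine KK_law _ _ _ _ _ _ fun a b => ?_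
    unfold mass
    rw [Fintype.sum_prod_type, Fintype.sum_prod_type]
    refine Finset.sum_congr rfl fun ω _ => ?_
    -- insert the sibling number `k`
    rw [← Equiv.sum_comp (Fin.insertNthEquiv (fun _ : Fin (k + 2) => V n) (Fin.last k).castSucc)]
    rw [Fintype.sum_prod_type, Finset.sum_comm]
    refine Finset.sum_congr rfl fun y _ => ?_
    have hy : ∀ x : V n, ∀ i : Fin (k + 1), (Fin.insertNthEquiv (fun _ : Fin (k + 2) => V n)
        (Fin.last k).castSucc) (x, y) (((Fin.last k).castSucc).succAbove i) = y i := by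
      intro x i
      simp [Fin.insertNthEquiv]
    have hl : ((Fin.last k).castSucc).succAbove (Fin.last k) = Fin.last (k + 1) := by
      simp [Fin.succAbove]
    have hi : ∀ i : Fin k, ((Fin.last k).castSucc).succAbove i.castSucc = i.castSucc.castSucc := by
      intro i
      rw [Fin.succAbove_of_castSucc_lt]
      simp [Fin.lt_def]
    have hlast : ∀ x : V n, (Fin.insertNthEquiv (fun _ : Fin (k + 2) => V n)
        (Fin.last k).castSucc) (x, y) (Fin.last (k + 1)) = y (Fin.last k) := by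
      intro x
      rw [← hl, hy]
    have hfst : ∀ x : V n, ∀ i : Fin k, (Fin.insertNthEquiv (fun _ : Fin (k + 2) => V n)
        (Fin.last k).castSucc) (x, y) i.castSucc.castSucc = y i.castSucc := by
      intro x i
      rw [← hi, hy]
    simp only [hlast, hfst]
    by_cases h : (y (Fin.last k), ((fun i : Fin k => y i.castSucc), D ω)) = (a, b)
    · simp only [h, if_true]
      unfold sib
      simp only
      rw [← Finset.mul_sum]
      congr 1
      have hprod : ∀ x : V n, ∏ i, uT (T ω) ((Fin.insertNthEquiv (fun _ : Fin (k + 2) => V n)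
          (Fin.last k).castSucc) (x, y) i) = uT (T ω) x * ∏ i, uT (T ω) (y i) := by
        intro x
        rw [Fin.prod_univ_succAbove _ (Fin.last k).castSucc]
        simp only [hy]
        congr 2
        simp [Fin.insertNthEquiv]
      simp only [hprod]
      rw [← Finset.sum_mul, sum_uT, one_mul]
    · simp only [h, if_false, Finset.sum_const_zero]
  rw [h1]
  unfold eS
  refine KK_finer _ hW _ _ _ ?_
  intro p p' _ _ h
  obtain ⟨ha, hb⟩ := Prod.mk.inj h
  rw [hb]
  congr 1
  funext i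
  have := congrFun ha i.castSucc
  exact this

lemma US_zero (w : Ω → ℝ) (hw : ∀ ω, 0 ≤ w ω) (T : Ω → Submodule (ZMod 2) (V n)) (D : Ω → B) :
    US w T D 0 = 0 := KK_sib_zero w hw T _

lemma eS_mono' (w : Ω → ℝ) (hw : ∀ ω, 0 ≤ w ω) (T : Ω → Submodule (ZMod 2) (V n)) (D : Ω → B) :
    Monotone (eS w T D) := monotone_nat_of_le_succ (eS_mono w hw T D)

lemma US_eq_sum (w : Ω → ℝ) (hw : ∀ ω, 0 ≤ w ω) (T : Ω → Submodule (ZMod 2) (V n)) (D : Ω → B)
    (s : ℕ) : US w T D s = ∑ i ∈ range s, eS w T D i := by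
  induction s with
  | zero => rw [US_zero w hw]; simp
  | succ s ih => rw [US_succ w hw, ih, Finset.sum_range_succ]

/-- (V*) convexity in the number of siblings -/
theorem sib_mul_le (w : Ω → ℝ) (hw : ∀ ω, 0 ≤ w ω) (T : Ω → Submodule (ZMod 2) (V n)) (D : Ω → B)
    (s S : ℕ) (hsS : s ≤ S) : (S : ℝ) * US w T D s ≤ s * US w T D S := by
  rw [US_eq_sum w hw T D s, US_eq_sum w hw T D S]
  set f := eS w T D with hf
  have hm := eS_mono' w hw T D
  obtain ⟨r, rfl⟩ := Nat.exists_eq_add_of_le hsS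
  rw [Finset.sum_range_add]
  have h1 : ∑ i ∈ range s, f i ≤ s * f s := by
    calc ∑ i ∈ range s, f i ≤ ∑ _i ∈ range s, f s :=
          Finset.sum_le_sum fun i hi => hm (Finset.mem_range.1 hi).le
      _ = s * f s := by rw [Finset.sum_const, Finset.card_range, nsmul_eq_mul]
  have h2 : (r : ℝ) * f s ≤ ∑ i ∈ range r, f (s + i) := by
    calc (r : ℝ) * f s = ∑ _i ∈ range r, f s := by rw [Finset.sum_const, Finset.card_range, nsmul_eq_mul]
      _ ≤ ∑ i ∈ range r, f (s + i) := Finset.sum_le_sum fun i _ => hm (Nat.le_add_right _ _)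
  push_cast
  have hr : (0 : ℝ) ≤ r := Nat.cast_nonneg _
  have hs : (0 : ℝ) ≤ s := Nat.cast_nonneg _
  nlinarith

end Convex

end Pool.Agent.NJ
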