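import Pool.Agent.NJ.TBl85
import Pool.Agent.NJ.BTd49
import Pool.Agent.NJ.Slope85

/-! Row BT, slope half (helper85): `Loc.slopeE`, and (SC') for every weight below the extended broom. -/

set_option autoImplicit false

namespace Pool.Agent.NJ

open Finset Pool.Agent.CutSeq

section Gen

variable {Ω Ω' A A' B : Type*} [Fintype Ω] [Fintype Ω'] [Fintype A] [Fintype A']

/-- entropy under a bijection of the worlds -/
lemma KK_world85 (e : Ω ≃ Ω') (w : Ω' → ℝ) (X : Ω' → A) (Y : Ω' → B) :
    KK (fun ω => w (e ω)) (fun ω => X (e ω)) (fun ω => Y (e ω)) = KK w X Y := by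
  classical
  refine KK_law _ _ _ _ _ _ fun a b => ?_
  unfold mass
  rw [← Equiv.sum_comp e]

/-- entropy under a bijection of the values -/
lemma K0_val85 (σ : A ≃ A') (w : Ω → ℝ) (hw : ∀ ω, 0 ≤ w ω) (X : Ω → A) :
    K0 w (fun ω => σ (X ω)) = K0 w X :=
  KK_bij w hw X (fun ω => σ (X ω)) (fun _ => ()) (fun _ => σ) fun _ _ => rfl

/-- the set of large density, seen from the worlds -/
lemma ld_set85 (w : Ω → ℝ) (hw : ∀ ω, 0 ≤ w ω) (X : Ω → A) (lam : ℝ) :
    pr w {ω | lam ≤ ld w X (X ω)} =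
      pr w {ω | X ω ∈ {a : A | lam ≤ Real.log (Fintype.card A * mass w X a / tot w) ∧
        mass w X a ≠ 0}} := by
  classical
  rw [pr_eq_sum, pr_eq_sum]
  refine Finset.sum_congr rfl fun ω _ => ?_
  by_cases h0 : w ω = 0
  · simp [h0]
  · have hm := mass_pos w hw X h0
    have : ω ∈ {ω | lam ≤ ld w X (X ω)} ↔ ω ∈ {ω | X ω ∈ {a : A | lam ≤
        Real.log (Fintype.card A * mass w X a / tot w) ∧ mass w X a ≠ 0}} := by
      simp only [Set.mem_ofPred_eq, ld]
      exact ⟨fun h => ⟨h, hm.ne'⟩, fun h => h.1⟩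
    by_cases h1 : ω ∈ {ω | lam ≤ ld w X (X ω)}
    · rw [if_pos h1, if_pos (this.1 h1)]
    · rw [if_neg h1, if_neg (fun h => h1 (this.2 h))]

end Gen

section SCp

variable {H A : Type*} [Fintype H] [Fintype A] {n t : ℕ} (S : Loc H A n t)

/-- the density of the extended broom is large with small probability -/
theorem Loc.dens_tail85 (w : H → ℝ) (hw : ∀ h, 0 ≤ w h) (hw1 : tot w ≤ 1) (M : ℝ) (hM : 0 ≤ M)
    (I : ℕ) (hSC : S.SC w M I) (i j l : ℕ) (hI : (i + l) + (j + l) ≤ I) (lam : ℝ)
    (hlam : 2 * M + 3 * l * Real.log 2 - 6 * Real.log 2 < lam) :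
    pr (pw w (Co t i j)) {p | lam ≤ ld (pw w (Co t i j)) (S.edat i j) (S.edat i j p)} ≤
      16 * (1 / 2) ^ l := by
  classical
  have hpw : ∀ p, 0 ≤ pw w (Co t i j) p := fun p => pw_nonneg w hw p
  rw [ld_set85 _ hpw]
  by_contra hcon
  push Not at hcon
  have hne : Nonempty ((A × (Fin i → V n) × (Fin j → V n)) × (Fin i → Fin j → ZMod 2)) := by
    by_contra hne
    have hH : IsEmpty (H × Co t i j) := ⟨fun p => hne ⟨S.edat i j p⟩⟩
    have : pr (pw w (Co t i j)) {p | S.edat i j p ∈ {a | lam ≤ Real.log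
        (Fintype.card ((A × (Fin i → V n) × (Fin j → V n)) × (Fin i → Fin j → ZMod 2)) *
          mass (pw w (Co t i j)) (S.edat i j) a / tot (pw w (Co t i j))) ∧
        mass (pw w (Co t i j)) (S.edat i j) a ≠ 0}} = 0 := by
      rw [pr_eq_sum]
      exact Finset.sum_eq_zero fun p _ => (hH.false p).elim
    rw [this] at hcon
    have : (0 : ℝ) < 16 * (1 / 2) ^ l := by positivity
    linarith
  have h := S.tb_ext w hw hw1 M hM I hSC i j l hI _ lam
    (card_dens_le (pw w (Co t i j)) hpw (S.edat i j) hne lam) (16 * (1 / 2) ^ l) (by positivity)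
    hcon.le le_rfl
  have hlog : Real.log (1 / (16 * (1 / 2) ^ l)) = l * Real.log 2 - 4 * Real.log 2 := by
    have : (1 : ℝ) / (16 * (1 / 2) ^ l) = 2 ^ l / 2 ^ 4 := by
      rw [one_div_pow]
      field_simp
      norm_num
    rw [this, Real.log_div (by positivity) (by positivity), Real.log_pow, Real.log_pow]
    norm_num
  rw [hlog] at h
  have hl2 := Real.log_pos (show (1 : ℝ) < 2 by norm_num)
  linarith

/-- (SC') for every weight below the extended broom -/
theorem Loc.sc_sub85 (w : H → ℝ) (hw : ∀ h, 0 ≤ w h) (hw1 : tot w ≤ 1) (M : ℝ) (hM : 0 ≤ M)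
    (I : ℕ) (hSC : S.SC w M I) (i j l : ℕ) (hI : (i + l) + (j + l) ≤ I)
    (w' : H × Co t i j → ℝ) (hw' : ∀ p, 0 ≤ w' p) (hle : ∀ p, w' p ≤ pw w (Co t i j) p) :
    K0 w' (S.edat i j) ≤ tot w' * (2 * M + 3 * l * Real.log 2 + Real.log (1 / tot w')) +
      Real.log (Fintype.card ((A × (Fin i → V n) × (Fin j → V n)) × (Fin i → Fin j → ZMod 2))) *
        (16 * (1 / 2) ^ l) := by
  classical
  have hl2 := Real.log_pos (show (1 : ℝ) < 2 by norm_num)
  have h1 := K0_sub_tail (pw w (Co t i j)) w' hw' hle (S.edat i j)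
    (2 * M + 3 * l * Real.log 2) (by positivity)
  have h2 := S.dens_tail85 w hw hw1 M hM I hSC i j l hI (2 * M + 3 * l * Real.log 2) (by linarith)
  have h3 : tot w' * (2 * M + 3 * l * Real.log 2 + Real.log (tot (pw w (Co t i j)) / tot w')) ≤
      tot w' * (2 * M + 3 * l * Real.log 2 + Real.log (1 / tot w')) := by
    rcases eq_or_lt_of_le (tot_nonneg w' hw') with h0 | h0
    · rw [← h0]
      simp
    · refine mul_le_mul_of_nonneg_left ?_ h0.le
      have ht : 0 < tot (pw w (Co t i j)) :=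
        lt_of_lt_of_le h0 (Finset.sum_le_sum fun p _ => hle p)
      have ht1 : tot (pw w (Co t i j)) ≤ 1 := by
        rw [tot_pw]
        exact hw1
      have : Real.log (tot (pw w (Co t i j)) / tot w') ≤ Real.log (1 / tot w') := by
        refine Real.log_le_log (by positivity) ?_
        gcongr
      linarith
  have h4 : 0 ≤ Real.log (Fintype.card ((A × (Fin i → V n) × (Fin j → V n)) ×
      (Fin i → Fin j → ZMod 2))) := Real.log_natCast_nonneg _
  have h5 := mul_le_mul_of_nonneg_left h2 h4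
  linarith

end SCp

section SlopeE

variable {H A : Type*} [Fintype H] [Fintype A] {n t : ℕ} (S : Loc H A n t)

/-- rearranging the extended data -/
def eqv85 (A : Type*) (n m s : ℕ) : ((A × (Fin m → V n)) × (Fin s → V (n + m))) ≃
    ((A × (Fin m → V n) × (Fin s → V n)) × (Fin m → Fin s → ZMod 2)) where
  toFun := fun y => ((y.1.1, y.1.2, fun j x => y.2 j (Fin.castAdd m x)),
    fun a j => y.2 j (Fin.natAdd n a))
  invFun := fun z => ((z.1.1, z.1.2.1), fun j => Fin.append (z.1.2.2 j) (fun a => z.2 a j))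
  left_inv := by
    intro y
    refine Prod.ext rfl ?_
    funext j x
    refine Fin.addCases (fun x => ?_) (fun x => ?_) x
    · simp only [Fin.append_left]
    · simp only [Fin.append_right]
  right_inv := by
    intro z
    refine Prod.ext (Prod.ext rfl (Prod.ext rfl ?_)) ?_
    · funext j x
      simp only [Fin.append_left]
    · funext a j
      simp only [Fin.append_right]

/-- slope of the extended column siblings -/
theorem Loc.slopeE (w : H → ℝ) (hw : ∀ h, 0 ≤ w h) (hw1 : tot w ≤ 1) (M : ℝ) (hM : 0 ≤ M) (I : ℕ)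
    (hSC : S.SC w M I) (m s l : ℕ) (hI : (m + l) + (s + l) ≤ I) (be LA : ℝ) (hbe : 0 < be)
    (hbe1 : be ≤ 1)
    (hLA : LA = Real.log (Fintype.card A) + (m * n + s * n + m * s : ℕ) * Real.log 2)
    (h1 : 2 ^ 6 * (1 / 2) ^ l * LA ≤ be) (S' : Set (H × (Fin m → V t)))
    (hS' : be / 4 ≤ tot (ind S' (pw w (Fin m → V t)))) :
    KK (sib (ind S' (pw w (Fin m → V t))) (fun q => S.TE q) s) (fun p => p.2)
        (fun p => S.dX p.1) ≤
      tot (ind S' (pw w (Fin m → V t))) * (2 * M + 3 * l + 12 + Real.log (4 / be)) := by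
  classical
  set u : H × (Fin m → V t) → ℝ := ind S' (pw w (Fin m → V t)) with hu
  have hpw0 : ∀ q, 0 ≤ pw w (Fin m → V t) q := fun q => pw_nonneg w hw q
  have hu0 : ∀ q, 0 ≤ u q := fun q => Set.indicator_nonneg (fun _ _ => hpw0 _) _
  have hule : ∀ q, u q ≤ pw w (Fin m → V t) q := fun q =>
    Set.indicator_le_self' (fun _ _ => hpw0 _) _
  have htot : tot (pw u (Fin s → V t)) = tot u := tot_pw u
  -- to coins
  have c1 := S.KK_TE (s := s) u (fun _ x => x) (fun q _ => S.dX q)
  have c1' : KK (sib u (fun q => S.TE q) s) (fun p => p.2) (fun p => S.dX p.1) =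
      KK (pw u (Fin s → V t)) (fun r => fun j => S.ecL r.1.1 r.1.2 (r.2 j))
        (fun r => S.dX r.1) := c1
  rw [c1']
  have c2 := KK_snd_le (pw u (Fin s → V t)) (fun r => pw_nonneg u hu0 r)
    (fun r => fun j => S.ecL r.1.1 r.1.2 (r.2 j)) (fun r => S.dX r.1)
  refine c2.trans ?_
  -- rearranging
  set e : (H × (Fin m → V t)) × (Fin s → V t) ≃ H × Co t m s := Equiv.prodAssoc _ _ _ with he
  set w' : H × Co t m s → ℝ := fun p => pw u (Fin s → V t) (e.symm p) with hw'
  have hw'0 : ∀ p, 0 ≤ w' p := fun p => pw_nonneg u hu0 _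
  have hle : ∀ p, w' p ≤ pw w (Co t m s) p := by
    intro p
    have h2 := hule (p.1, p.2.1)
    change u (p.1, p.2.1) / (Fintype.card (Fin s → V t) : ℝ) ≤
      w p.1 / (Fintype.card (Co t m s) : ℝ)
    have h3 : (Fintype.card (Co t m s) : ℝ) =
        Fintype.card (Fin m → V t) * Fintype.card (Fin s → V t) := by
      rw [Fintype.card_prod]
      push_cast
      rfl
    rw [h3, ← div_div]
    exact div_le_div_of_nonneg_right h2 (by positivity)
  have c3 : K0 (pw u (Fin s → V t)) (fun r => (S.dX r.1, fun j => S.ecL r.1.1 r.1.2 (r.2 j))) =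
      K0 w' (S.edat m s) := by
    rw [← K0_val85 (eqv85 A n m s) (pw u (Fin s → V t)) (fun r => pw_nonneg u hu0 r)]
    have c4 := KK_world85 e w' (S.edat m s) (fun _ => ())
    unfold K0
    rw [← c4]
    have hww : (fun ω => w' (e ω)) = pw u (Fin s → V t) := by
      funext r
      simp only [hw', Equiv.symm_apply_apply]
    rw [hww]
    congr 1
    funext r
    refine Prod.ext (Prod.ext rfl (Prod.ext rfl ?_)) ?_
    · funext j x
      change S.ecL r.1.1 r.1.2 (r.2 j) (Fin.castAdd m x) = S.col r.1.1 (r.2 j) x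
      rw [S.ecL_apply, Fin.append_left]
    · funext a j
      change S.ecL r.1.1 r.1.2 (r.2 j) (Fin.natAdd n a) = S.cor r.1.1 (r.1.2 a) (r.2 j)
      rw [S.ecL_apply, Fin.append_right]
  rw [c3]
  have htw : tot w' = tot u := by
    rw [← htot]
    exact Equiv.sum_comp e.symm (fun r => pw u (Fin s → V t) r)
  have h5 := S.sc_sub85 w hw hw1 M hM I hSC m s l hI w' hw'0 hle
  rw [htw] at h5
  have hpos : 0 < tot u := lt_of_lt_of_le (by positivity) hS'
  have hne : Nonempty A := by
    by_contra hne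
    have hH : IsEmpty H := ⟨fun p => hne ⟨S.m p⟩⟩
    have : tot u = 0 := Finset.sum_eq_zero fun p _ => (hH.false p.1).elim
    linarith
  have hcard : Real.log (Fintype.card ((A × (Fin m → V n) × (Fin s → V n)) ×
      (Fin m → Fin s → ZMod 2))) = LA := by
    rw [hLA]
    have hcA : (0 : ℝ) < Fintype.card A := by exact_mod_cast Fintype.card_pos
    have e1 : (Fintype.card ((A × (Fin m → V n) × (Fin s → V n)) × (Fin m → Fin s → ZMod 2)) : ℝ) =
        Fintype.card A * 2 ^ (m * n + s * n + m * s) := by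
      have hV : Fintype.card (V n) = 2 ^ n := by simp [ZMod.card]
      rw [Fintype.card_prod, Fintype.card_prod, Fintype.card_prod]
      have k1 : Fintype.card (Fin m → V n) = 2 ^ (m * n) := by
        rw [Fintype.card_fun, hV, Fintype.card_fin, ← pow_mul, mul_comm]
      have k2 : Fintype.card (Fin s → V n) = 2 ^ (s * n) := by
        rw [Fintype.card_fun, hV, Fintype.card_fin, ← pow_mul, mul_comm]
      have k3 : Fintype.card (Fin m → Fin s → ZMod 2) = 2 ^ (m * s) := by
        rw [Fintype.card_fun, Fintype.card_fun, ZMod.card, Fintype.card_fin, Fintype.card_fin,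
          ← pow_mul, mul_comm]
      rw [k1, k2, k3]
      push_cast
      ring
    rw [e1, Real.log_mul hcA.ne' (by positivity), Real.log_pow]
  rw [hcard] at h5
  have hl2 := Real.log_pos (show (1 : ℝ) < 2 by norm_num)
  have hl2' : Real.log 2 ≤ 1 := by
    have := Real.log_two_lt_d9
    linarith
  have h6 : LA * (16 * (1 / 2) ^ l) ≤ tot u := by
    have : LA * (16 * (1 / 2) ^ l) = (2 ^ 6 * (1 / 2) ^ l * LA) / 4 := by ring
    rw [this]
    linarith
  have h7 : Real.log (1 / tot u) ≤ Real.log (4 / be) := by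
    refine Real.log_le_log (by positivity) ?_
    rw [div_le_div_iff₀ hpos hbe]
    linarith
  have h8 : tot u * (2 * M + 3 * l * Real.log 2 + Real.log (1 / tot u)) ≤
      tot u * (2 * M + 3 * l + Real.log (4 / be)) := by
    refine mul_le_mul_of_nonneg_left ?_ hpos.le
    have : 3 * (l : ℝ) * Real.log 2 ≤ 3 * l := by
      have hl0 : (0 : ℝ) ≤ l := Nat.cast_nonneg l
      nlinarith
    linarith
  have h9 : tot u * (2 * M + 3 * l + Real.log (4 / be)) + tot u ≤
      tot u * (2 * M + 3 * l + 12 + Real.log (4 / be)) := by nlinarith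
  linarith

end SlopeE

end Pool.Agent.NJ
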