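import Pool.Agent.NJ.BTc49
import Pool.Agent.NJ.BTs85

/-!
Row BT: the corner bits of `i` row siblings with one column cost at most `i β`.
-/

set_option autoImplicit false

namespace Pool.Agent.NJ

open Finset Pool.Agent.CutSeq

variable {H A : Type*} [Fintype H] [Fintype A] {n t : ℕ} (S : Loc H A n t)

/-- BT: the corner bits of `i` row siblings with one column cost at most `i β` -/
theorem Loc.bott (w : H → ℝ) (hw : ∀ h, 0 ≤ w h) (hw1 : tot w ≤ 1) (M : ℝ) (hM : 0 ≤ M)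
    (I : ℕ) (hSC : S.SC w M I) (i S₁ S₂ l : ℕ) (hI : (i + S₁ + l) + (S₂ + l) ≤ I) (hS : 1 ≤ S₂)
    (β LA : ℝ) (hβ : 0 < β) (hβ1 : β ≤ 1)
    (hLA : LA = Real.log (Fintype.card A) + ((i + S₁) * n + S₂ * n + (i + S₁) * S₂ : ℕ) * Real.log 2)
    (h1 : 2 ^ 6 * (1 / 2) ^ l * LA ≤ β) (h3 : Real.log (16 / β) / Real.log 2 + 2 ≤ S₂)
    (h2 : (Real.log (16 / β) / Real.log 2 + 2) * (Real.log 2 + 3 * ((2 * M + 3 * l + 12 + Real.log (4 / β)) / S₂))
      + Real.log (2 / β) + 3 * Real.log 2 < S₁ * Real.log 2) :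
    S.E w i 1 - S.U w i 1 ≤ i * β := by
  have h4 := S.E_eq49 w hw i 1
  rcases Nat.eq_zero_or_pos i with h0 | h0
  · subst h0
    have h5 := KK_le (pw w (Co t 0 1)) (pw_nonneg w hw)
      (fun p => fun (a : Fin 0) (b : Fin 1) => S.cor p.1 (p.2.1 a) (p.2.2 b)) (S.dat 0 1)
    have h6 : Fintype.card (Fin 0 → Fin 1 → ZMod 2) = 1 := by simp
    rw [h6] at h5
    simp only [Nat.cast_one, Real.log_one, mul_zero] at h5
    rw [h4]
    simp only [Nat.cast_zero, zero_mul]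
    linarith
  obtain ⟨k, rfl⟩ : ∃ k, i = k + 1 := ⟨i - 1, by omega⟩
  have l2 : 0 < Real.log 2 := Real.log_pos (by norm_num)
  have hl4 : 0 ≤ Real.log (4 / β) := by
    refine Real.log_nonneg ?_
    rw [le_div_iff₀ hβ]
    linarith
  have hVV : 0 ≤ 2 * M + 3 * l + 12 + Real.log (4 / β) := by positivity
  have e1 : k + (S₁ + 1) = k + 1 + S₁ := by omega
  have hb : S.bb49 w k ≤ β := by
    refine S.bb_le_beta49 w hw hw1 k (S₁ + 1) S₂ hS β (2 * M + 3 * l + 12 + Real.log (4 / β)) hβ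
      hβ1 hVV ?_ h3 ?_
    · intro G hG
      exact S.slopeE w hw hw1 M hM I hSC (k + (S₁ + 1)) S₂ l (by omega) β LA hβ hβ1
        (by rw [hLA, e1]) h1 G hG
    · push_cast
      linarith
  have h5 := S.cor_chain49 w hw k
  have h6 : ((k + 1 : ℕ) : ℝ) * S.bb49 w k ≤ ((k + 1 : ℕ) : ℝ) * β :=
    mul_le_mul_of_nonneg_left hb (Nat.cast_nonneg _)
  rw [h4]
  linarith

end Pool.Agent.NJ
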