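import Pool.Agent.CutSeq.Sib
import Pool.Agent.CutSeq.Quant

/-!
The corner bits of the siblings (NOJUNK2, paragraph 7), as pure finite statements.

`collP w X Y` is the unnormalised collision probability of `X` given `Y`.  One bit has relative
entropy at most `2 * collP - tot`; the collision probability of `S` bits is the average of the
collision numbers of their `2 ^ S` linear forms; hence, if every nonzero linear form of the bits
has relative entropy at least `b`, then with probability at least `b / 2` the bits have conditional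
probability at least `b / 2`.
-/

set_option autoImplicit false

namespace Pool.Agent.NJ

open Finset Pool.Agent.CutSeq

variable {Ω A B C : Type*} [Fintype Ω]

/-- unnormalised collision probability of `X` given `Y` -/
noncomputable def collP (w : Ω → ℝ) (X : Ω → A) (Y : Ω → B) : ℝ :=
  ∑ ω, w ω * (mass w (fun ω => (X ω, Y ω)) (X ω, Y ω) / mass w Y (Y ω))

/-- relative entropy is at most the collision excess -/
theorem KK_le_collP [Fintype A] (w : Ω → ℝ) (hw : ∀ ω, 0 ≤ w ω) (X : Ω → A) (Y : Ω → B) :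
    KK w X Y ≤ Fintype.card A * collP w X Y - tot w := by
  classical
  unfold KK collP tot
  rw [Finset.mul_sum, ← Finset.sum_sub_distrib]
  refine Finset.sum_le_sum fun ω _ => ?_
  by_cases h : w ω = 0
  · simp [h]
  · have hpos : 0 < mass w (fun ω => (X ω, Y ω)) (X ω, Y ω) := mass_pos w hw _ h
    have hpos' : 0 < mass w Y (Y ω) := mass_pos w hw _ h
    have : Nonempty A := ⟨X ω⟩
    have hA : (0 : ℝ) < Fintype.card A := by exact_mod_cast Fintype.card_pos
    have h1 : 0 < Fintype.card A * mass w (fun ω => (X ω, Y ω)) (X ω, Y ω) / mass w Y (Y ω) := by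
      positivity
    have h2 := Real.log_le_sub_one_of_pos h1
    have h3 := mul_le_mul_of_nonneg_left h2 (hw ω)
    refine h3.trans (le_of_eq ?_)
    ring

/-- the collision number of a vector of bits is the average of those of its linear forms -/
theorem collP_bits {S : ℕ} (w : Ω → ℝ) (hw : ∀ ω, 0 ≤ w ω) (X : Ω → V S) (Y : Ω → B) :
    (2 : ℝ) ^ S * collP w X Y = ∑ a : V S, (2 * collP w (fun ω => X ω ⬝ᵥ a) Y - tot w) := by
  classical
  have hz : ∀ z : ZMod 2, z = 0 ∨ z = 1 := by decide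
  have key : ∀ ω, (2 : ℝ) ^ S * mass w (fun ω => (X ω, Y ω)) (X ω, Y ω) =
      ∑ a : V S, (2 * mass w (fun ω => (X ω ⬝ᵥ a, Y ω)) (X ω ⬝ᵥ a, Y ω) - mass w Y (Y ω)) := by
    intro ω
    have h1 : ∀ ω', (2 : ℝ) ^ S * (if (X ω', Y ω') = (X ω, Y ω) then w ω' else 0) =
        ∑ a : V S, (if Y ω' = Y ω then w ω' else 0) * sg ((X ω' + X ω) ⬝ᵥ a) := by
      intro ω'
      rw [← Finset.mul_sum, sum_sg]
      by_cases hY : Y ω' = Y ω
      · by_cases hX : X ω' = X ω
        · rw [if_pos (by rw [hX, hY]), if_pos hY, if_pos (by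
            rw [hX]; funext i; exact CharTwo.add_self_eq_zero _)]
          ring
        · rw [if_neg (fun h => hX (Prod.mk.inj h).1), if_pos hY, if_neg (fun h => hX (by
            have h5 := congrArg (fun v => v + X ω) h
            simp only [zero_add] at h5
            rw [← h5]
            exact (add_add_self_V _ _).symm))]
          ring
      · rw [if_neg (fun h => hY (Prod.mk.inj h).2), if_neg hY]
        ring
    have h2 : ∀ (a : V S) (ω' : Ω), (if Y ω' = Y ω then w ω' else 0) * sg ((X ω' + X ω) ⬝ᵥ a) =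
        2 * (if (X ω' ⬝ᵥ a, Y ω') = (X ω ⬝ᵥ a, Y ω) then w ω' else 0) -
          (if Y ω' = Y ω then w ω' else 0) := by
      intro a ω'
      rw [add_dotProduct]
      by_cases hY : Y ω' = Y ω
      · by_cases hX : X ω' ⬝ᵥ a = X ω ⬝ᵥ a
        · rw [if_pos hY, if_pos (by rw [hX, hY]), hX, CharTwo.add_self_eq_zero, sg_zero]
          ring
        · rw [if_pos hY, if_neg (fun h => hX (Prod.mk.inj h).1)]
          have h3 : X ω' ⬝ᵥ a + X ω ⬝ᵥ a ≠ 0 := by
            rcases hz (X ω' ⬝ᵥ a) with h4 | h4 <;> rcases hz (X ω ⬝ᵥ a) with h5 | h5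
            · exact absurd (h4.trans h5.symm) hX
            · rw [h4, h5]; decide
            · rw [h4, h5]; decide
            · exact absurd (h4.trans h5.symm) hX
          rw [sg_ne h3]
          ring
      · rw [if_neg hY, if_neg (fun h => hY (Prod.mk.inj h).2)]
        ring
    have e1 : (2 : ℝ) ^ S * mass w (fun ω => (X ω, Y ω)) (X ω, Y ω) =
        ∑ ω', ∑ a : V S, (if Y ω' = Y ω then w ω' else 0) * sg ((X ω' + X ω) ⬝ᵥ a) := by
      unfold mass
      rw [Finset.mul_sum]
      refine Finset.sum_congr rfl fun ω' _ => ?_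
      rw [← h1 ω']
      congr
    rw [e1, Finset.sum_comm]
    refine Finset.sum_congr rfl fun a _ => ?_
    unfold mass
    rw [Finset.mul_sum, ← Finset.sum_sub_distrib]
    refine Finset.sum_congr rfl fun ω' _ => ?_
    rw [h2 a ω']
    congr
  unfold collP tot
  rw [Finset.mul_sum]
  have h3 : ∀ ω, (2 : ℝ) ^ S * (w ω * (mass w (fun ω => (X ω, Y ω)) (X ω, Y ω) / mass w Y (Y ω))) =
      ∑ a : V S, (2 * (w ω * (mass w (fun ω => (X ω ⬝ᵥ a, Y ω)) (X ω ⬝ᵥ a, Y ω) /
        mass w Y (Y ω))) - w ω) := by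
    intro ω
    by_cases h : w ω = 0
    · simp [h]
    · have hpos' : mass w Y (Y ω) ≠ 0 := (mass_pos w hw Y h).ne'
      have h4 : (2 : ℝ) ^ S * (w ω * (mass w (fun ω => (X ω, Y ω)) (X ω, Y ω) / mass w Y (Y ω))) =
          w ω / mass w Y (Y ω) * ((2 : ℝ) ^ S * mass w (fun ω => (X ω, Y ω)) (X ω, Y ω)) := by
        ring
      rw [h4, key ω, Finset.mul_sum]
      refine Finset.sum_congr rfl fun a _ => ?_
      field_simp
  rw [Finset.sum_congr rfl fun ω _ => h3 ω, Finset.sum_comm]
  refine Finset.sum_congr rfl fun a _ => ?_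
  rw [Finset.sum_sub_distrib, Finset.mul_sum]

/-- if all nonzero linear forms have relative entropy at least `b`, so has the collision number -/
theorem le_collP_bits {S : ℕ} (w : Ω → ℝ) (hw : ∀ ω, 0 ≤ w ω) (X : Ω → V S) (Y : Ω → B) (b : ℝ)
    (hb : ∀ a : V S, a ≠ 0 → b ≤ KK w (fun ω => X ω ⬝ᵥ a) Y) (hb1 : b ≤ tot w) :
    b ≤ collP w X Y := by
  classical
  have h1 : ∀ a : V S, b ≤ 2 * collP w (fun ω => X ω ⬝ᵥ a) Y - tot w := by
    intro a
    by_cases ha : a = 0
    · have h2 : collP w (fun ω => X ω ⬝ᵥ a) Y = tot w := by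
        unfold collP tot
        refine Finset.sum_congr rfl fun ω _ => ?_
        by_cases h : w ω = 0
        · simp [h]
        · have hpos' : mass w Y (Y ω) ≠ 0 := (mass_pos w hw Y h).ne'
          have h3 : mass w (fun ω => (X ω ⬝ᵥ a, Y ω)) (X ω ⬝ᵥ a, Y ω) = mass w Y (Y ω) := by
            refine mass_congr w _ _ _ _ fun ω' _ => ?_
            simp [ha]
          rw [h3, div_self hpos', mul_one]
      rw [h2]
      linarith
    · have h2 := KK_le_collP w hw (fun ω => X ω ⬝ᵥ a) Y
      rw [ZMod.card] at h2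
      have h3 := hb a ha
      push_cast at h2
      linarith
  have h2 := collP_bits w hw X Y
  have h3 : ∑ _a : V S, b ≤ ∑ a : V S, (2 * collP w (fun ω => X ω ⬝ᵥ a) Y - tot w) :=
    Finset.sum_le_sum fun a _ => h1 a
  rw [← h2, Finset.sum_const, Finset.card_univ, nsmul_eq_mul] at h3
  have h4 : (Fintype.card (V S) : ℝ) = 2 ^ S := by
    simp [V, ZMod.card]
  rw [h4] at h3
  exact le_of_mul_le_mul_left h3 (by positivity)

lemma div_mass_le_one49 (w : Ω → ℝ) (hw : ∀ ω, 0 ≤ w ω) (X : Ω → A) (Y : Ω → B) (ω : Ω) :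
    mass w (fun ω => (X ω, Y ω)) (X ω, Y ω) / mass w Y (Y ω) ≤ 1 := by
  refine div_le_one_of_le₀ (mass_mono w hw _ _ _ _ fun ω' h => (Prod.mk.inj h).2)
    (mass_nonneg w hw _ _)

/-- a large collision number gives a large conditional probability with some probability -/
theorem collP_prob (w : Ω → ℝ) (hw : ∀ ω, 0 ≤ w ω) (htot : tot w ≤ 1) (X : Ω → A) (Y : Ω → B) (b : ℝ)
    (hb0 : 0 ≤ b) (hb : b ≤ collP w X Y) :
    b / 2 ≤ pr w {ω | b / 2 ≤ mass w (fun ω => (X ω, Y ω)) (X ω, Y ω) / mass w Y (Y ω)} := by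
  classical
  set G : Set Ω := {ω | b / 2 ≤ mass w (fun ω => (X ω, Y ω)) (X ω, Y ω) / mass w Y (Y ω)} with hG
  have h1 : collP w X Y ≤ ∑ ω, (ind G w ω + b / 2 * w ω) := by
    unfold collP
    refine Finset.sum_le_sum fun ω _ => ?_
    by_cases hω : ω ∈ G
    · have h2 := mul_le_mul_of_nonneg_left (div_mass_le_one49 w hw X Y ω) (hw ω)
      have h3 : ind G w ω = w ω := by simp [ind, hω]
      have h4 : 0 ≤ b / 2 * w ω := mul_nonneg (by linarith) (hw ω)
      rw [h3]
      linarith
    · have h3 : ind G w ω = 0 := by simp [ind, hω]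
      have h4 : mass w (fun ω => (X ω, Y ω)) (X ω, Y ω) / mass w Y (Y ω) ≤ b / 2 := by
        by_contra h5
        exact hω (le_of_lt (not_le.1 h5))
      have h5 := mul_le_mul_of_nonneg_left h4 (hw ω)
      rw [h3]
      linarith
  have h2 : ∑ ω, (ind G w ω + b / 2 * w ω) = pr w G + b / 2 * tot w := by
    unfold pr tot
    rw [Finset.sum_add_distrib, Finset.mul_sum]
  rw [h2] at h1
  have h3 : b / 2 * tot w ≤ b / 2 * 1 := mul_le_mul_of_nonneg_left htot (by linarith)
  linarith

/-! ### Siblings -/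

/-- a nonzero combination of siblings is a sibling -/
lemma sum_prod_uT_comb49 {n S : ℕ} (T : Submodule (ZMod 2) (V n)) (a : V S) (ha : a ≠ 0)
    (G : V n → ℝ) :
    ∑ x : Fin S → V n, (∏ i, uT T (x i)) * G (∑ i, a i • x i) = ∑ v, uT T v * G v := by
  classical
  obtain ⟨s, hs⟩ : ∃ s, a s ≠ 0 := by
    by_contra h
    push Not at h
    exact ha (funext h)
  have hs1 : a s = 1 := by
    have h2 : ∀ z : ZMod 2, z = 0 ∨ z = 1 := by decide
    exact (h2 _).resolve_left hs
  set R : (Fin S → V n) → V n := fun x => ∑ i ∈ univ.erase s, a i • x i with hR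
  have hRx : ∀ x : Fin S → V n, ∑ i, a i • x i = x s + R x := by
    intro x
    rw [hR, ← Finset.add_sum_erase univ (fun i => a i • x i) (mem_univ s), hs1, one_smul]
  have hRup : ∀ (x : Fin S → V n) (v : V n), R (Function.update x s v) = R x := by
    intro x v
    refine Finset.sum_congr rfl fun i hi => ?_
    rw [Function.update_of_ne (Finset.ne_of_mem_erase hi)]
  set e : (Fin S → V n) → (Fin S → V n) := fun x => Function.update x s (x s + R x) with he
  have hinv : Function.Involutive e := by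
    intro x
    funext i
    by_cases hi : i = s
    · subst hi
      simp only [he, Function.update_self]
      rw [hRup, add_add_self_V]
    · simp only [he, Function.update_of_ne hi]
  have hw : ∀ x, ∏ i, uT T (e x i) = ∏ i, uT T (x i) := by
    intro x
    rw [← Finset.mul_prod_erase univ (fun i => uT T (e x i)) (mem_univ s),
      ← Finset.mul_prod_erase univ (fun i => uT T (x i)) (mem_univ s)]
    have h1 : ∏ i ∈ univ.erase s, uT T (e x i) = ∏ i ∈ univ.erase s, uT T (x i) := by
      refine Finset.prod_congr rfl fun i hi => ?_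
      simp only [he, Function.update_of_ne (Finset.ne_of_mem_erase hi)]
    rw [h1]
    by_cases h2 : ∏ i ∈ univ.erase s, uT T (x i) = 0
    · rw [h2, mul_zero, mul_zero]
    · congr 1
      simp only [he, Function.update_self]
      refine uT_add T ?_ _
      refine Submodule.sum_mem _ fun i hi => T.smul_mem _ ?_
      exact (uT_pos_iff T _).1 ((Finset.prod_ne_zero_iff.1 h2) i hi)
  rw [← sum_prod_uT_coord T S s G, ← Equiv.sum_comp (hinv.toPerm e)]
  refine Finset.sum_congr rfl fun x _ => ?_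
  have h3 : (hinv.toPerm e) x = e x := rfl
  rw [h3, hw, hRx]
  congr 2
  simp only [he, Function.update_self]
  rw [hRup, add_add_self_V]

lemma mass_eq_sum_ite49 (w : Ω → ℝ) (X : Ω → C) (c : C) [DecidableEq C] :
    mass w X c = ∑ ω, w ω * (if X ω = c then 1 else 0) := by
  unfold mass
  refine Finset.sum_congr rfl fun ω _ => ?_
  by_cases h : X ω = c
  · rw [if_pos h, if_pos h, mul_one]
  · rw [if_neg h, if_neg h, mul_zero]

/-- a nonzero combination of the siblings has the law of one sibling -/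
lemma sum_sib_comb49 {n S : ℕ} (w : Ω → ℝ) (T : Ω → Submodule (ZMod 2) (V n)) (a : V S) (ha : a ≠ 0)
    (G : Ω → V n → ℝ) :
    ∑ p, sib w T S p * G p.1 (∑ i, a i • p.2 i) = ∑ p, sib w T 1 p * G p.1 (p.2 0) := by
  rw [sum_sib w T S (fun ω x => G ω (∑ i, a i • x i)), sum_sib w T 1 (fun ω x => G ω (x 0))]
  refine Finset.sum_congr rfl fun ω _ => ?_
  rw [sum_prod_uT_comb49 (T ω) a ha (G ω), sum_prod_uT_coord (T ω) 1 0 (G ω)]

/-- the corner bit of a nonzero combination of further siblings -/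
theorem KK_comb {n n1 S : ℕ} (w : Ω → ℝ) (hw : ∀ ω, 0 ≤ w ω) (T : Ω → Submodule (ZMod 2) (V n))
    (Y : Ω → B) (π : V n →ₗ[ZMod 2] V n1) (lam : V n →ₗ[ZMod 2] ZMod 2) (a : V S) (ha : a ≠ 0) :
    KK (sib w T 1) (fun p => lam (p.2 0)) (fun p => (Y p.1, π (p.2 0))) ≤
      KK (sib w T S) (fun p => (fun i => lam (p.2 i)) ⬝ᵥ a)
        (fun p => (Y p.1, fun i => π (p.2 i))) := by
  classical
  have hdot : ∀ x : Fin S → V n, (fun i => lam (x i)) ⬝ᵥ a = lam (∑ i, a i • x i) := by
    intro x
    rw [map_sum]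
    unfold dotProduct
    refine Finset.sum_congr rfl fun i _ => ?_
    rw [map_smul, smul_eq_mul, mul_comm]
  have hπ : ∀ x : Fin S → V n, π (∑ i, a i • x i) = ∑ i, a i • π (x i) := by
    intro x
    rw [map_sum]
    refine Finset.sum_congr rfl fun i _ => ?_
    rw [map_smul]
  have h1 : KK (sib w T S) (fun p => lam (∑ i, a i • p.2 i))
      (fun p => (Y p.1, π (∑ i, a i • p.2 i))) ≤
      KK (sib w T S) (fun p => lam (∑ i, a i • p.2 i)) (fun p => (Y p.1, fun i => π (p.2 i))) := by
    refine KK_finer _ (sib_nonneg w hw T S) _ _ _ fun p p' _ _ h => ?_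
    have h2 := (Prod.mk.inj h).1
    have h3 := (Prod.mk.inj h).2
    refine Prod.ext h2 ?_
    simp only [hπ]
    refine Finset.sum_congr rfl fun i _ => ?_
    rw [show π (p.2 i) = π (p'.2 i) from congrFun h3 i]
  have h2 : KK (sib w T 1) (fun p => lam (p.2 0)) (fun p => (Y p.1, π (p.2 0))) =
      KK (sib w T S) (fun p => lam (∑ i, a i • p.2 i))
      (fun p => (Y p.1, π (∑ i, a i • p.2 i))) := by
    refine KK_law _ _ _ _ _ _ fun u v => ?_
    rw [mass_eq_sum_ite49, mass_eq_sum_ite49]
    exact (sum_sib_comb49 w T a ha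
      (fun ω x => if (lam x, (Y ω, π x)) = (u, v) then 1 else 0)).symm
  rw [h2]
  simp only [hdot]
  exact h1

/-- chain rule bound for a vector of variables -/
theorem KK_fin_le49 [Fintype A] (w : Ω → ℝ) (hw : ∀ ω, 0 ≤ w ω) (k : ℕ) (X : Ω → Fin k → A)
    (Y : Ω → B) (Z : Fin k → Ω → C)
    (hZ : ∀ l ω ω', Z l ω = Z l ω' → Y ω = Y ω' ∧ ∀ j < l, X ω j = X ω' j) :
    KK w X Y ≤ ∑ l, KK w (fun ω => X ω l) (Z l) := by
  induction k with
  | zero =>
    have h1 := KK_le w hw X Y
    have h3 : Fintype.card (Fin 0 → A) = 1 := by simp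
    rw [h3] at h1
    simp only [Nat.cast_one, Real.log_one, mul_zero] at h1
    simpa using h1
  | succ k ih =>
    have h1 : KK w X Y = KK w (fun ω => ((fun i : Fin k => X ω i.castSucc), X ω (Fin.last k))) Y := by
      refine KK_bij w hw (fun ω => ((fun i : Fin k => X ω i.castSucc), X ω (Fin.last k))) X Y
        (fun _ => (Equiv.prodComm _ _).trans (Fin.snocEquiv (fun _ : Fin (k + 1) => A))) ?_
      intro ω _
      funext i
      refine Fin.lastCases ?_ (fun i => ?_) i
      · simp [Fin.snocEquiv]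
      · simp [Fin.snocEquiv]
    rw [h1, KK_chain w hw, Fin.sum_univ_castSucc]
    refine add_le_add ?_ ?_
    · refine ih _ _ fun l ω ω' h => ?_
      obtain ⟨h2, h3⟩ := hZ _ _ _ h
      exact ⟨h2, fun j hj => h3 _ (Fin.castSucc_lt_castSucc_iff.2 hj)⟩
    · refine KK_finer w hw _ _ _ fun ω ω' _ _ h => ?_
      obtain ⟨h2, h3⟩ := hZ _ _ _ h
      exact Prod.ext (funext fun i => h3 _ (Fin.castSucc_lt_last i)) h2

/-- permuting the siblings -/
lemma sum_sib_perm49 {n m : ℕ} (w : Ω → ℝ) (T : Ω → Submodule (ZMod 2) (V n)) (σ : Equiv.Perm (Fin m))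
    (G : Ω → (Fin m → V n) → ℝ) :
    ∑ p, sib w T m p * G p.1 (p.2 ∘ σ) = ∑ p, sib w T m p * G p.1 p.2 := by
  rw [sum_sib w T m (fun ω x => G ω (x ∘ σ)), sum_sib w T m G]
  refine Finset.sum_congr rfl fun ω _ => ?_
  congr 1
  rw [← Equiv.sum_comp (Equiv.arrowCongr σ.symm (Equiv.refl (V n)))
    (fun x : Fin m → V n => (∏ i, uT (T ω) (x i)) * G ω x)]
  refine Finset.sum_congr rfl fun x _ => ?_
  have h1 : (Equiv.arrowCongr σ.symm (Equiv.refl (V n))) x = x ∘ σ := by
    funext i
    simp [Equiv.arrowCongr]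
  rw [h1]
  congr 1
  exact (Equiv.prod_comp σ (fun i => uT (T ω) (x i))).symm

/-- the corner bits of `k + 1` siblings cost at most `k + 1` times one corner bit -/
theorem bott_chain {n n1 k : ℕ} (w : Ω → ℝ) (hw : ∀ ω, 0 ≤ w ω) (T : Ω → Submodule (ZMod 2) (V n))
    (Y : Ω → B) (π : V n → V n1) (lam : V n → ZMod 2) :
    KK (sib w T (k + 1)) (fun p => fun i => lam (p.2 i)) (fun p => (Y p.1, fun i => π (p.2 i))) ≤
      (k + 1 : ℕ) * KK (sib w T (k + 1)) (fun p => lam (p.2 (Fin.last k)))
        (fun p => ((Y p.1, fun i : Fin k => p.2 i.castSucc), π (p.2 (Fin.last k)))) := by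
  classical
  set W := sib w T (k + 1) with hW
  have hW0 : ∀ p, 0 ≤ W p := sib_nonneg w hw T (k + 1)
  set σ : Fin (k + 1) → Equiv.Perm (Fin (k + 1)) := fun l => Equiv.swap l (Fin.last k) with hσ
  set Z : Fin (k + 1) → Ω × (Fin (k + 1) → V n) → (B × (Fin k → V n)) × V n1 :=
    fun l p => ((Y p.1, fun i : Fin k => p.2 (σ l i.castSucc)), π (p.2 l)) with hZ
  have h1 := KK_fin_le49 W hW0 (k + 1) (fun p => fun i => lam (p.2 i))
    (fun p => (Y p.1, fun i => π (p.2 i))) Z (by
      intro l p p' h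
      have h2 : Y p.1 = Y p'.1 := (Prod.mk.inj (Prod.mk.inj h).1).1
      have h3 := (Prod.mk.inj (Prod.mk.inj h).1).2
      have h4 : π (p.2 l) = π (p'.2 l) := (Prod.mk.inj h).2
      have h5 : ∀ j, j ≠ l → p.2 j = p'.2 j := by
        intro j hj
        have h6 : σ l j ≠ Fin.last k := by
          intro h7
          have h8 : σ l (σ l j) = j := Equiv.swap_apply_self _ _ _
          rw [h7] at h8
          exact hj (h8.symm.trans (Equiv.swap_apply_right _ _))
        obtain ⟨j', hj'⟩ := Fin.exists_castSucc_eq.2 h6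
        have h9 : p.2 (σ l j'.castSucc) = p'.2 (σ l j'.castSucc) := congrFun h3 j'
        rw [hj', show σ l (σ l j) = j from Equiv.swap_apply_self _ _ _] at h9
        exact h9
      refine ⟨Prod.ext h2 (funext fun i => ?_), fun j hj => ?_⟩
      · by_cases hi : i = l
        · rw [hi]; exact h4
        · simp only [h5 i hi]
      · simp only [h5 j hj.ne])
  have h2 : ∀ l, KK W (fun p => lam (p.2 l)) (Z l) = KK W (fun p => lam (p.2 (Fin.last k)))
      (fun p => ((Y p.1, fun i : Fin k => p.2 i.castSucc), π (p.2 (Fin.last k)))) := by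
    intro l
    refine KK_law _ _ _ _ _ _ fun u v => ?_
    rw [mass_eq_sum_ite49, mass_eq_sum_ite49]
    have h3 := sum_sib_perm49 w T (σ l) (fun ω x => if (lam (x (Fin.last k)),
      ((Y ω, fun i : Fin k => x i.castSucc), π (x (Fin.last k)))) = (u, v) then 1 else 0)
    rw [← hW] at h3
    rw [← h3]
    refine Finset.sum_congr rfl fun p _ => ?_
    have h4 : (p.2 ∘ (σ l)) (Fin.last k) = p.2 l := by
      simp only [Function.comp_apply, hσ, Equiv.swap_apply_right]
    rw [h4]
    rfl
  rw [Finset.sum_congr rfl fun l _ => h2 l, Finset.sum_const, Finset.card_univ, Fintype.card_fin,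
    nsmul_eq_mul] at h1
  exact h1

/-- the last sibling as a sibling over the extended world -/
theorem KK_last_sib {n k : ℕ} (w : Ω → ℝ) (T : Ω → Submodule (ZMod 2) (V n)) [Fintype A]
    (F : V n → A) (Y : Ω → (Fin k → V n) → V n → B) :
    KK (sib w T (k + 1)) (fun p => F (p.2 (Fin.last k)))
        (fun p => Y p.1 (fun i : Fin k => p.2 i.castSucc) (p.2 (Fin.last k))) =
      KK (sib (sib w T k) (fun p => T p.1) 1) (fun p => F (p.2 0))
        (fun p => Y p.1.1 p.1.2 (p.2 0)) := by
  classical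
  refine KK_law _ _ _ _ _ _ fun u v => ?_
  rw [mass_eq_sum_ite49, mass_eq_sum_ite49]
  rw [sum_sib w T (k + 1) (fun ω x => if (F (x (Fin.last k)),
      Y ω (fun i : Fin k => x i.castSucc) (x (Fin.last k))) = (u, v) then 1 else 0),
    sum_sib (sib w T k) (fun p => T p.1) 1 (fun p x => if (F (x 0), Y p.1 p.2 (x 0)) = (u, v)
      then 1 else 0),
    sum_sib w T k (fun ω y => ∑ x : Fin 1 → V n, (∏ i, uT (T ω) (x i)) *
      (if (F (x 0), Y ω y (x 0)) = (u, v) then 1 else 0))]
  refine Finset.sum_congr rfl fun ω _ => ?_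
  congr 1
  rw [← (Fin.snocEquiv (fun _ : Fin (k + 1) => V n)).sum_comp, Fintype.sum_prod_type,
    Finset.sum_comm]
  refine Finset.sum_congr rfl fun y _ => ?_
  rw [sum_prod_uT_coord (T ω) 1 0 (fun x => if (F x, Y ω y x) = (u, v) then 1 else 0),
    Finset.mul_sum]
  refine Finset.sum_congr rfl fun x _ => ?_
  simp only [Fin.snocEquiv_apply, Fin.snoc_last, Fin.snoc_castSucc, Fin.prod_univ_castSucc]
  ring

end Pool.Agent.NJ
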