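import Pool.Agent.NJ.BTd49
import Pool.Agent.NJ.Bott49

/-!
Row BT, first half: the corner bits of `k + 1` row siblings with one column cost at most `k + 1`
times one corner bit (`bb`), and every nonzero form of the corner bits of `S` further row siblings
has at least this entropy, given the extended column up to the first `k` bits.
-/

set_option autoImplicit false

namespace Pool.Agent.NJ

open Finset Pool.Agent.CutSeq

/-- measure preserving change of variable -/
theorem KK_equiv49 {Ω Ω' A B : Type*} [Fintype Ω] [Fintype Ω'] [Fintype A] (e : Ω ≃ Ω')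
    (w : Ω → ℝ) (w' : Ω' → ℝ) (he : ∀ ω, w' (e ω) = w ω) (X : Ω' → A) (Y : Ω' → B) :
    KK w (fun ω => X (e ω)) (fun ω => Y (e ω)) = KK w' X Y := by
  classical
  refine KK_law _ _ _ _ _ _ fun a b => ?_
  unfold mass
  rw [← e.sum_comp]
  refine Finset.sum_congr rfl fun ω _ => ?_
  rw [he]

lemma card_V_pos (t : ℕ) : (0 : ℝ) < Fintype.card (V t) := by
  have : 0 < Fintype.card (V t) := Fintype.card_pos
  exact_mod_cast this

lemma card_fun49 (m t : ℕ) : (Fintype.card (Fin m → V t) : ℝ) = (Fintype.card (V t) : ℝ) ^ m := by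
  have := @Fintype.card_fun (Fin m) (V t) _ _ _
  rw [Fintype.card_fin] at this
  exact_mod_cast this

lemma card_Co (t i j : ℕ) : (Fintype.card (Co t i j) : ℝ) =
    (Fintype.card (V t) : ℝ) ^ i * (Fintype.card (V t) : ℝ) ^ j := by
  have : Fintype.card (Co t i j) = Fintype.card (Fin i → V t) * Fintype.card (Fin j → V t) :=
    Fintype.card_prod _ _
  rw [this, Nat.cast_mul, card_fun49, card_fun49]

/-- averages over a nonzero combination of coins -/
lemma avg_comb49 {t S : ℕ} (c : V S) (hc : c ≠ 0) (F : V t → ℝ) :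
    (∑ x : Fin S → V t, F (∑ s, c s • x s)) / (Fintype.card (V t) : ℝ) ^ S =
      (∑ v, F v) / Fintype.card (V t) := by
  classical
  have h := sum_prod_uT_comb49 (⊤ : Submodule (ZMod 2) (V t)) c hc F
  have h1 : ∀ v : V t, uT (⊤ : Submodule (ZMod 2) (V t)) v = 1 / (Fintype.card (V t) : ℝ) := by
    intro v
    unfold uT
    rw [if_pos Submodule.mem_top]
    congr 2
    rw [Nat.card_congr (Equiv.subtypeUnivEquiv fun x => Submodule.mem_top), Nat.card_eq_fintype_card]
  simp only [h1, Finset.prod_const, Finset.card_univ, Fintype.card_fin] at h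
  rw [← Finset.mul_sum, ← Finset.mul_sum] at h
  rw [div_eq_inv_mul, div_eq_inv_mul]
  rw [one_div, inv_pow] at h
  exact h

lemma avg_snoc49 {t k S : ℕ} (c : V S) (hc : c ≠ 0) (g : (Fin (k + 1) → V t) → ℝ) :
    (∑ ξ : Fin (k + S) → V t, g (Fin.snoc (α := fun _ => V t) (fun l => ξ (Fin.castAdd S l))
      (∑ s, c s • ξ (Fin.natAdd k s)))) / (Fintype.card (V t) : ℝ) ^ (k + S) =
      (∑ ξ, g ξ) / (Fintype.card (V t) : ℝ) ^ (k + 1) := by
  classical
  have h1 : ∑ ξ : Fin (k + S) → V t, g (Fin.snoc (α := fun _ => V t)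
      (fun l => ξ (Fin.castAdd S l)) (∑ s, c s • ξ (Fin.natAdd k s))) =
      ∑ y : Fin k → V t, ∑ x : Fin S → V t, g (Fin.snoc (α := fun _ => V t) y
        (∑ s, c s • x s)) := by
    rw [← Equiv.sum_comp (Fin.appendEquiv k S), Fintype.sum_prod_type]
    refine Finset.sum_congr rfl fun y _ => Finset.sum_congr rfl fun x _ => ?_
    simp [Fin.appendEquiv]
  have h2 : ∑ ξ : Fin (k + 1) → V t, g ξ =
      ∑ y : Fin k → V t, ∑ v : V t, g (Fin.snoc (α := fun _ => V t) y v) := by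
    rw [← (Fin.snocEquiv (fun _ : Fin (k + 1) => V t)).sum_comp, Fintype.sum_prod_type,
      Finset.sum_comm]
    rfl
  have h3 : ∀ (F : (Fin k → V t) → ℝ) (a : ℝ), (∑ y, F y) / ((Fintype.card (V t) : ℝ) ^ k * a) =
      (∑ y, F y / a) / (Fintype.card (V t) : ℝ) ^ k := by
    intro F a
    rw [← Finset.sum_div, div_div, mul_comm]
  rw [h1, h2, pow_add, pow_succ, h3, h3]
  have h4 : ∀ y : Fin k → V t, (∑ x : Fin S → V t, g (Fin.snoc (α := fun _ => V t) y
      (∑ s, c s • x s))) / (Fintype.card (V t) : ℝ) ^ S =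
      (∑ v : V t, g (Fin.snoc (α := fun _ => V t) y v)) / (Fintype.card (V t) : ℝ) :=
    fun y => avg_comb49 c hc (fun v => g (Fin.snoc (α := fun _ => V t) y v))
  rw [Finset.sum_congr rfl fun y _ => h4 y]

namespace Loc

variable {H A : Type*} {n t : ℕ} (S : Loc H A n t)

lemma row_sum49 (h : H) {S' : ℕ} (c : V S') (ξ : Fin S' → V t) :
    S.row h (∑ s, c s • ξ s) = ∑ s, c s • S.row h (ξ s) := by
  have h1 : ∀ x : V t, S.row h x = Fintype.linearCombination (ZMod 2) (S.R h) x := fun x => by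
    rw [Fintype.linearCombination_apply]
    rfl
  rw [h1, map_sum]
  refine Finset.sum_congr rfl fun s _ => ?_
  rw [map_smul, h1]

lemma cor_sum49 (h : H) {S' : ℕ} (c : V S') (ξ : Fin S' → V t) (η : V t) :
    S.cor h (∑ s, c s • ξ s) η = ∑ s, c s * S.cor h (ξ s) η := by
  have h1 : ∀ x : V t, S.cor h x η = Fintype.linearCombination (ZMod 2)
      (fun r => ∑ r', η r' * S.Q h r r') x := fun x => by
    rw [Fintype.linearCombination_apply]
    unfold cor
    refine Finset.sum_congr rfl fun r _ => ?_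
    rw [smul_eq_mul, Finset.mul_sum]
    refine Finset.sum_congr rfl fun r' _ => ?_
    ring
  rw [h1, map_sum]
  refine Finset.sum_congr rfl fun s _ => ?_
  rw [map_smul, h1, smul_eq_mul]

variable [Fintype H] [Fintype A]

/-- the cost of the corner bits -/
theorem E_eq49 (w : H → ℝ) (hw : ∀ h, 0 ≤ w h) (i j : ℕ) : S.E w i j = S.U w i j +
    KK (pw w (Co t i j)) (fun p => fun a b => S.cor p.1 (p.2.1 a) (p.2.2 b)) (S.dat i j) := by
  have hW : ∀ p, 0 ≤ pw w (Co t i j) p := pw_nonneg w hw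
  have h1 := KK_chain (pw w (Co t i j)) hW (S.dat i j)
    (fun p => fun a b => S.cor p.1 (p.2.1 a) (p.2.2 b)) (fun _ => ())
  unfold E U K0
  have h2 : KK (pw w (Co t i j)) (fun p => fun a b => S.cor p.1 (p.2.1 a) (p.2.2 b))
      (fun p => (S.dat i j p, ())) =
      KK (pw w (Co t i j)) (fun p => fun a b => S.cor p.1 (p.2.1 a) (p.2.2 b)) (S.dat i j) := by
    refine le_antisymm ?_ ?_
    · refine KK_finer _ hW _ _ _ ?_
      intro ω ω' _ _ h
      rw [h]
    · refine KK_finer _ hW _ _ _ ?_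
      intro ω ω' _ _ h
      exact (Prod.mk.inj h).1
  rw [← h2]
  exact h1

/-- last corner bit -/
def xs49 (k : ℕ) (p : H × Co t (k + 1) 1) : ZMod 2 := S.cor p.1 (p.2.1 (Fin.last k)) (p.2.2 0)

/-- everything before the last corner bit -/
def bs49 (k : ℕ) (p : H × Co t (k + 1) 1) :
    (A × (Fin (k + 1) → V n) × (Fin 1 → V n)) × (Fin k → ZMod 2) :=
  (S.dat (k + 1) 1 p, fun l => S.cor p.1 (p.2.1 l.castSucc) (p.2.2 0))

/-- entropy of the last corner bit -/
noncomputable def bb49 (w : H → ℝ) (k : ℕ) : ℝ :=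
  KK (pw w (Co t (k + 1) 1)) (S.xs49 k) (S.bs49 k)

/-- permutation of the row coins -/
def prm49 {k : ℕ} (σ : Equiv.Perm (Fin (k + 1))) : H × Co t (k + 1) 1 ≃ H × Co t (k + 1) 1 where
  toFun := fun p => (p.1, (fun a => p.2.1 (σ a), p.2.2))
  invFun := fun p => (p.1, (fun a => p.2.1 (σ.symm a), p.2.2))
  left_inv := fun p => by simp
  right_inv := fun p => by simp

/-- chain rule for the corner bits -/
theorem cor_chain49 (w : H → ℝ) (hw : ∀ h, 0 ≤ w h) (k : ℕ) :
    KK (pw w (Co t (k + 1) 1)) (fun p => fun a b => S.cor p.1 (p.2.1 a) (p.2.2 b))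
      (S.dat (k + 1) 1) ≤ (k + 1 : ℕ) * S.bb49 w k := by
  classical
  set W := pw w (Co t (k + 1) 1) with hW
  have hW0 : ∀ p, 0 ≤ W p := pw_nonneg w hw
  have h0 : KK W (fun p => fun a b => S.cor p.1 (p.2.1 a) (p.2.2 b)) (S.dat (k + 1) 1) =
      KK W (fun p => fun a => S.cor p.1 (p.2.1 a) (p.2.2 0)) (S.dat (k + 1) 1) := by
    refine KK_bij W hW0 _ _ _ (fun _ => Equiv.piCongrRight
      (fun _ : Fin (k + 1) => (Equiv.funUnique (Fin 1) (ZMod 2)).symm)) fun p _ => ?_
    funext a b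
    have hb : b = 0 := Subsingleton.elim _ _
    subst hb
    rfl
  rw [h0]
  set σ : Fin (k + 1) → Equiv.Perm (Fin (k + 1)) := fun l => Equiv.swap l (Fin.last k) with hσ
  have h1 := KK_fin_le49 W hW0 (k + 1) (fun p => fun a => S.cor p.1 (p.2.1 a) (p.2.2 0))
    (S.dat (k + 1) 1) (fun l p => S.bs49 k (prm49 (σ l) p)) (by
      intro l p p' h
      have h2 : S.dat (k + 1) 1 (prm49 (σ l) p) = S.dat (k + 1) 1 (prm49 (σ l) p') :=
        (Prod.mk.inj h).1
      have h3 : (fun a : Fin k => S.cor p.1 (p.2.1 (σ l a.castSucc)) (p.2.2 0)) =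
        fun a => S.cor p'.1 (p'.2.1 (σ l a.castSucc)) (p'.2.2 0) := (Prod.mk.inj h).2
      have h4 : S.m p.1 = S.m p'.1 := (Prod.mk.inj h2).1
      have h5 : (fun a => S.row p.1 (p.2.1 (σ l a))) = fun a => S.row p'.1 (p'.2.1 (σ l a)) :=
        (Prod.mk.inj (Prod.mk.inj h2).2).1
      have h6 : (fun b => S.col p.1 (p.2.2 b)) = fun b => S.col p'.1 (p'.2.2 b) :=
        (Prod.mk.inj (Prod.mk.inj h2).2).2
      refine ⟨Prod.ext h4 (Prod.ext (funext fun a => ?_) h6), fun j hj => ?_⟩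
      · have h7 := congrFun h5 (σ l a)
        have h8 : σ l (σ l a) = a := Equiv.swap_apply_self _ _ _
        simp only [h8] at h7
        exact h7
      · have h8 : σ l (σ l j) = j := Equiv.swap_apply_self _ _ _
        have h9 : σ l j ≠ Fin.last k := by
          intro h10
          rw [h10] at h8
          have h11 : σ l (Fin.last k) = l := Equiv.swap_apply_right _ _
          exact hj.ne (h8.symm.trans h11)
        obtain ⟨j', hj'⟩ := Fin.exists_castSucc_eq.2 h9
        have h10 : S.cor p.1 (p.2.1 (σ l j'.castSucc)) (p.2.2 0) =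
          S.cor p'.1 (p'.2.1 (σ l j'.castSucc)) (p'.2.2 0) := congrFun h3 j'
        rw [hj', h8] at h10
        exact h10)
  have h2 : ∀ l : Fin (k + 1), KK W (fun p => S.cor p.1 (p.2.1 l) (p.2.2 0))
      (fun p => S.bs49 k (prm49 (σ l) p)) = S.bb49 w k := by
    intro l
    have h3 := KK_equiv49 (prm49 (H := H) (t := t) (σ l)) W W (fun _ => rfl) (S.xs49 k) (S.bs49 k)
    have h4 : (fun p : H × Co t (k + 1) 1 => S.xs49 k (prm49 (σ l) p)) =
        fun p => S.cor p.1 (p.2.1 l) (p.2.2 0) := by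
      funext p
      show S.cor p.1 (p.2.1 (σ l (Fin.last k))) (p.2.2 0) = _
      rw [show σ l (Fin.last k) = l from Equiv.swap_apply_right _ _]
    rw [h4] at h3
    exact h3
  rw [Finset.sum_congr rfl fun l _ => h2 l, Finset.sum_const, Finset.card_univ, Fintype.card_fin,
    nsmul_eq_mul] at h1
  exact h1

/-- the first part of an extended column: the column and `k` corner bits -/
def eC49 (n k S' : ℕ) (v : V (n + (k + S'))) : V n × V k :=
  (fun j => v (Fin.castAdd (k + S') j), fun l => v (Fin.natAdd n (Fin.castAdd S' l)))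

/-- the last `S'` corner bits of an extended column -/
def eX49 (n k S' : ℕ) (v : V (n + (k + S'))) : V S' := fun s => v (Fin.natAdd n (Fin.natAdd k s))

/-- every nonzero form of the last corner bits -/
theorem bb_le49 (w : H → ℝ) (hw : ∀ h, 0 ≤ w h) (k S' : ℕ) (c : V S') (hc : c ≠ 0) :
    S.bb49 w k ≤ KK (sib (pw w (Fin (k + S') → V t)) (fun q => S.TE q) 1)
      (fun p => eX49 n k S' (p.2 0) ⬝ᵥ c) (fun p => (eC49 n k S' (p.2 0), S.dX p.1)) := by
  classical
  -- transfer of the right side to coins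
  have e1 := S.KK_TE (s := 1) (pw w (Fin (k + S') → V t))
    (fun _ x => eX49 n k S' (x 0) ⬝ᵥ c) (fun q x => (eC49 n k S' (x 0), S.dX q))
  rw [e1]
  -- the joined coins
  set e : (H × (Fin (k + S') → V t)) × (Fin 1 → V t) ≃ H × Co t (k + S') 1 :=
    Equiv.prodAssoc _ _ _ with he
  set φ : H × Co t (k + S') 1 → H × Co t (k + 1) 1 := fun p =>
    (p.1, (Fin.snoc (α := fun _ => V t) (fun l => p.2.1 (Fin.castAdd S' l))
      (∑ s, c s • p.2.1 (Fin.natAdd k s)), p.2.2)) with hφ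
  have e2 : S.bb49 w k = KK (pw w (Co t (k + S') 1)) (fun p => S.xs49 k (φ p))
      (fun p => S.bs49 k (φ p)) := by
    unfold bb49
    refine KK_law _ _ _ _ _ _ fun u v => ?_
    rw [mass_eq_sum_ite49, mass_eq_sum_ite49]
    have h1 := sum_pw (C := Co t (k + 1) 1) w (fun h ξ => if (S.xs49 k (h, ξ), S.bs49 k (h, ξ)) =
      (u, v) then (1 : ℝ) else 0)
    have h2 := sum_pw (C := Co t (k + S') 1) w (fun h ξ => if (S.xs49 k (φ (h, ξ)),
      S.bs49 k (φ (h, ξ))) = (u, v) then (1 : ℝ) else 0)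
    refine h1.trans (Eq.trans ?_ h2.symm)
    refine Finset.sum_congr rfl fun h _ => ?_
    congr 1
    have h5 : ∀ (i : ℕ) (F : (Fin i → V t) → (Fin 1 → V t) → ℝ),
        (∑ ξ : Co t i 1, F ξ.1 ξ.2) / (Fintype.card (Co t i 1) : ℝ) =
        (∑ η : Fin 1 → V t, (∑ ξ : Fin i → V t, F ξ η) / (Fintype.card (V t) : ℝ) ^ i) /
          (Fintype.card (V t) : ℝ) ^ 1 := by
      intro i F
      rw [← Finset.sum_div, div_div, card_Co, Fintype.sum_prod_type_right]
    refine (h5 (k + 1) (fun ξ η => if (S.xs49 k (h, (ξ, η)), S.bs49 k (h, (ξ, η))) =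
      (u, v) then (1 : ℝ) else 0)).trans (Eq.trans ?_ (h5 (k + S') (fun ξ η =>
      if (S.xs49 k (φ (h, (ξ, η))), S.bs49 k (φ (h, (ξ, η)))) = (u, v) then (1 : ℝ) else 0)).symm)
    congr 1
    refine Finset.sum_congr rfl fun η _ => ?_
    exact (avg_snoc49 c hc (fun ξ => if (S.xs49 k (h, (ξ, η)), S.bs49 k (h, (ξ, η))) =
      (u, v) then (1 : ℝ) else 0)).symm
  have e3 : KK (pw w (Co t (k + S') 1)) (fun p => S.xs49 k (φ p)) (fun p => S.bs49 k (φ p)) ≤
      KK (pw w (Co t (k + S') 1)) (fun p => eX49 n k S' (S.ecL p.1 p.2.1 (p.2.2 0)) ⬝ᵥ c)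
        (fun p => (eC49 n k S' (S.ecL p.1 p.2.1 (p.2.2 0)), S.dX (p.1, p.2.1))) := by
    have h1 : ∀ p : H × Co t (k + S') 1, S.xs49 k (φ p) =
        eX49 n k S' (S.ecL p.1 p.2.1 (p.2.2 0)) ⬝ᵥ c := by
      intro p
      show S.cor p.1 (Fin.snoc (α := fun _ => V t) (fun l => p.2.1 (Fin.castAdd S' l))
        (∑ s, c s • p.2.1 (Fin.natAdd k s)) (Fin.last k)) (p.2.2 0) = _
      rw [Fin.snoc_last, cor_sum49]
      unfold dotProduct eX49
      refine Finset.sum_congr rfl fun s _ => ?_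
      rw [ecL_apply, Fin.append_right, mul_comm]
    simp only [h1]
    refine KK_finer _ (pw_nonneg w hw) _ _ _ fun p p' _ _ h => ?_
    have h2 : eC49 n k S' (S.ecL p.1 p.2.1 (p.2.2 0)) =
      eC49 n k S' (S.ecL p'.1 p'.2.1 (p'.2.2 0)) := (Prod.mk.inj h).1
    have h3 : S.dX (p.1, p.2.1) = S.dX (p'.1, p'.2.1) := (Prod.mk.inj h).2
    rw [ecL_apply, ecL_apply] at h2
    have h4 : (fun j => (Fin.append (S.col p.1 (p.2.2 0)) (fun l => S.cor p.1 (p.2.1 l) (p.2.2 0)) :
        V (n + (k + S'))) (Fin.castAdd (k + S') j)) = fun j => (Fin.append (S.col p'.1 (p'.2.2 0))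
        (fun l => S.cor p'.1 (p'.2.1 l) (p'.2.2 0)) : V (n + (k + S'))) (Fin.castAdd (k + S') j) :=
      (Prod.mk.inj h2).1
    have h5 : (fun l => (Fin.append (S.col p.1 (p.2.2 0)) (fun l => S.cor p.1 (p.2.1 l) (p.2.2 0)) :
        V (n + (k + S'))) (Fin.natAdd n (Fin.castAdd S' l))) = fun l =>
        (Fin.append (S.col p'.1 (p'.2.2 0)) (fun l => S.cor p'.1 (p'.2.1 l) (p'.2.2 0)) :
        V (n + (k + S'))) (Fin.natAdd n (Fin.castAdd S' l)) := (Prod.mk.inj h2).2
    simp only [Fin.append_left] at h4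
    simp only [Fin.append_right] at h5
    have h6 : S.m p.1 = S.m p'.1 := (Prod.mk.inj h3).1
    have h7 : (fun l => S.row p.1 (p.2.1 l)) = fun l => S.row p'.1 (p'.2.1 l) := (Prod.mk.inj h3).2
    refine Prod.ext (Prod.ext h6 (Prod.ext (funext fun a => ?_) (funext fun b => ?_)))
      (funext fun l => ?_)
    · show S.row p.1 (Fin.snoc (α := fun _ => V t) (fun l => p.2.1 (Fin.castAdd S' l))
        (∑ s, c s • p.2.1 (Fin.natAdd k s)) a) = S.row p'.1 (Fin.snoc (α := fun _ => V t)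
        (fun l => p'.2.1 (Fin.castAdd S' l)) (∑ s, c s • p'.2.1 (Fin.natAdd k s)) a)
      refine Fin.lastCases ?_ (fun a' => ?_) a
      · rw [Fin.snoc_last, Fin.snoc_last, row_sum49, row_sum49]
        refine Finset.sum_congr rfl fun s _ => ?_
        rw [show S.row p.1 (p.2.1 (Fin.natAdd k s)) = S.row p'.1 (p'.2.1 (Fin.natAdd k s)) from
          congrFun h7 (Fin.natAdd k s)]
      · rw [Fin.snoc_castSucc, Fin.snoc_castSucc]
        exact congrFun h7 (Fin.castAdd S' a')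
    · have hb : b = 0 := Subsingleton.elim _ _
      subst hb
      exact h4
    · show S.cor p.1 (Fin.snoc (α := fun _ => V t) (fun l => p.2.1 (Fin.castAdd S' l))
        (∑ s, c s • p.2.1 (Fin.natAdd k s)) l.castSucc) (p.2.2 0) =
        S.cor p'.1 (Fin.snoc (α := fun _ => V t) (fun l => p'.2.1 (Fin.castAdd S' l))
        (∑ s, c s • p'.2.1 (Fin.natAdd k s)) l.castSucc) (p'.2.2 0)
      rw [Fin.snoc_castSucc, Fin.snoc_castSucc]
      exact congrFun h5 l
  have e4 : KK (pw (pw w (Fin (k + S') → V t)) (Fin 1 → V t))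
      (fun r => eX49 n k S' (S.ecL r.1.1 r.1.2 (r.2 0)) ⬝ᵥ c)
      (fun r => (eC49 n k S' (S.ecL r.1.1 r.1.2 (r.2 0)), S.dX r.1)) =
      KK (pw w (Co t (k + S') 1)) (fun p => eX49 n k S' (S.ecL p.1 p.2.1 (p.2.2 0)) ⬝ᵥ c)
        (fun p => (eC49 n k S' (S.ecL p.1 p.2.1 (p.2.2 0)), S.dX (p.1, p.2.1))) := by
    exact KK_equiv49 e (pw (pw w (Fin (k + S') → V t)) (Fin 1 → V t)) (pw w (Co t (k + S') 1))
      (by
        intro r
        show w r.1.1 / (Fintype.card (Co t (k + S') 1) : ℝ) =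
          w r.1.1 / (Fintype.card (Fin (k + S') → V t) : ℝ) / (Fintype.card (Fin 1 → V t) : ℝ)
        rw [card_Co, card_fun49, card_fun49, div_div])
      (fun p => eX49 n k S' (S.ecL p.1 p.2.1 (p.2.2 0)) ⬝ᵥ c)
      (fun p => (eC49 n k S' (S.ecL p.1 p.2.1 (p.2.2 0)), S.dX (p.1, p.2.1)))
  rw [e2, e4]
  exact e3

end Loc

end Pool.Agent.NJ
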