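import Pool.Agent.CutSeq.Quant
import Pool.Agent.CutSeq.Sib

/-! Rows TB / TAIL (helper85): amplification by public combinations of siblings.

* `DV_event`: an event of small uniform probability costs entropy.
* `tail_event`: (TAIL) for linear siblings.
* `tb_event`: (TB), abstract form.
* `K0_sub_tail`: entropy of smaller weights, with the tail of the density ((SC')).
* `sib_mul_le`: convexity in the number of siblings ((V*)).
-/

set_option autoImplicit false

namespace Pool.Agent.NJ

open Finset Pool.Agent.CutSeq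

section Event

variable {Ω A B : Type*} [Fintype Ω] [Fintype A]

open Classical in
lemma pr_eq_sum (w : Ω → ℝ) (G : Set Ω) : pr w G = ∑ ω, if ω ∈ G then w ω else 0 := by
  unfold pr tot ind
  refine Finset.sum_congr rfl fun ω _ => ?_
  by_cases h : ω ∈ G
  · rw [Set.indicator_of_mem h, if_pos h]
  · rw [Set.indicator_of_notMem h, if_neg h]

/-- an event of small conditional uniform probability costs entropy -/
theorem DV_event (w : Ω → ℝ) (hw : ∀ ω, 0 ≤ w ω) (X : Ω → A) (Y : Ω → B) (E : B → Set A) (κ : ℝ)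
    (hE : ∀ ω, w ω ≠ 0 → (Nat.card (E (Y ω)) : ℝ) ≤ Real.exp (-κ) * Fintype.card A) :
    κ * pr w {ω | X ω ∈ E (Y ω)} ≤ KK w X Y + tot w * Real.log 2 := by
  classical
  have h := DV w hw X Y (fun a b => if a ∈ E b then κ else 0)
  have h1 : ∑ ω, w ω * (if X ω ∈ E (Y ω) then κ else 0) = κ * pr w {ω | X ω ∈ E (Y ω)} := by
    rw [pr_eq_sum, Finset.mul_sum]
    refine Finset.sum_congr rfl fun ω _ => ?_
    simp only [Set.mem_ofPred_eq]
    split
    · ring
    · simp
  have h2 : ∑ ω, w ω * Real.log ((∑ a, Real.exp (if a ∈ E (Y ω) then κ else 0)) / Fintype.card A) ≤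
      tot w * Real.log 2 := by
    unfold tot
    rw [Finset.sum_mul]
    refine Finset.sum_le_sum fun ω _ => ?_
    by_cases hω : w ω = 0
    · simp [hω]
    refine mul_le_mul_of_nonneg_left ?_ (hw ω)
    have hA : (0 : ℝ) < Fintype.card A := by
      have : Nonempty A := ⟨X ω⟩
      exact_mod_cast Fintype.card_pos
    have h3 : ∑ a, Real.exp (if a ∈ E (Y ω) then κ else 0) ≤ 2 * Fintype.card A := by
      have h4 : ∀ a, Real.exp (if a ∈ E (Y ω) then κ else 0) ≤
          1 + (if a ∈ E (Y ω) then Real.exp κ else 0) := by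
        intro a
        split
        · linarith
        · simp
      refine (Finset.sum_le_sum fun a _ => h4 a).trans ?_
      rw [Finset.sum_add_distrib, Finset.sum_const, Finset.card_univ, nsmul_eq_mul, mul_one,
        ← Finset.sum_filter, Finset.sum_const, nsmul_eq_mul]
      have h5 : ((Finset.univ.filter fun a => a ∈ E (Y ω)).card : ℝ) = Nat.card (E (Y ω)) := by
        rw [Nat.card_eq_fintype_card, ← Set.toFinset_card]
        congr 2
        ext a
        simp
      rw [h5]
      have h6 := mul_le_mul_of_nonneg_right (hE ω hω) (Real.exp_pos κ).le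
      have h7 : Real.exp (-κ) * Fintype.card A * Real.exp κ = Fintype.card A := by
        rw [mul_comm (Real.exp (-κ)), mul_assoc, ← Real.exp_add]
        simp
      rw [h7] at h6
      linarith
    have h8 : 0 < ∑ a, Real.exp (if a ∈ E (Y ω) then κ else 0) := by
      have : Nonempty A := ⟨X ω⟩
      exact Finset.sum_pos (fun a _ => Real.exp_pos _) Finset.univ_nonempty
    refine Real.log_le_log (by positivity) ?_
    rw [div_le_iff₀ hA]
    exact h3
  rw [h1] at h
  linarith

/-- the set of large density has small uniform probability -/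
theorem card_dens_le (w : Ω → ℝ) (hw : ∀ ω, 0 ≤ w ω) (X : Ω → A) (hA : Nonempty A) (lam : ℝ) :
    (Nat.card {a : A | lam ≤ Real.log (Fintype.card A * mass w X a / tot w) ∧ mass w X a ≠ 0} : ℝ) ≤
      Real.exp (-lam) * Fintype.card A := by
  classical
  have hA0 : (0 : ℝ) < Fintype.card A := by exact_mod_cast Fintype.card_pos
  rcases eq_or_lt_of_le (tot_nonneg w hw) with ht | ht
  · -- no mass at all
    have : {a : A | lam ≤ Real.log (Fintype.card A * mass w X a / tot w) ∧ mass w X a ≠ 0} = ∅ := by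
      ext a
      simp only [Set.mem_ofPred_eq, Set.mem_empty_iff_false, iff_false, not_and, not_not]
      intro _
      have h1 : mass w X a ≤ tot w := by
        have := mass_mono w hw X (fun _ => ()) a () (fun _ _ => rfl)
        rwa [mass_const] at this
      have h2 := mass_nonneg w hw X a
      linarith
    rw [this]
    simp only [Nat.card_eq_fintype_card]
    simp
    positivity
  · have h1 : ∑ a, mass w X a = tot w := by
      have := sum_mass w X (fun _ => ()) ()
      rw [mass_const] at this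
      rw [← this]
      refine Finset.sum_congr rfl fun a _ => ?_
      refine mass_congr w _ _ _ _ fun ω' _ => ?_
      simp
    set s := Finset.univ.filter fun a : A =>
      lam ≤ Real.log (Fintype.card A * mass w X a / tot w) ∧ mass w X a ≠ 0 with hs
    have h2 : (Nat.card {a : A | lam ≤ Real.log (Fintype.card A * mass w X a / tot w) ∧
        mass w X a ≠ 0} : ℝ) = s.card := by
      rw [Nat.card_eq_fintype_card, ← Set.toFinset_card]
      congr 2
      ext a
      simp [hs]
    rw [h2]
    have h3 : ∀ a ∈ s, Real.exp lam * tot w / Fintype.card A ≤ mass w X a := by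
      intro a ha
      rw [hs, Finset.mem_filter] at ha
      obtain ⟨_, hl, hm⟩ := ha
      have hm0 : 0 < mass w X a := lt_of_le_of_ne (mass_nonneg w hw X a) (Ne.symm hm)
      have h4 : Real.exp lam ≤ Fintype.card A * mass w X a / tot w := by
        rw [← Real.exp_log (by positivity : 0 < Fintype.card A * mass w X a / tot w)]
        exact Real.exp_le_exp.2 hl
      rw [div_le_iff₀ hA0]
      rw [le_div_iff₀ ht] at h4
      linarith
    have h5 : (s.card : ℝ) * (Real.exp lam * tot w / Fintype.card A) ≤ tot w := by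
      calc (s.card : ℝ) * (Real.exp lam * tot w / Fintype.card A)
          = ∑ a ∈ s, Real.exp lam * tot w / Fintype.card A := by
            rw [Finset.sum_const, nsmul_eq_mul]
        _ ≤ ∑ a ∈ s, mass w X a := Finset.sum_le_sum h3
        _ ≤ ∑ a, mass w X a := Finset.sum_le_univ_sum_of_nonneg fun a => mass_nonneg w hw X a
        _ = tot w := h1
    have h6 : (s.card : ℝ) * Real.exp lam ≤ Fintype.card A := by
      have h7 : (s.card : ℝ) * (Real.exp lam * tot w / Fintype.card A) =
          (s.card : ℝ) * Real.exp lam * (tot w / Fintype.card A) := by ring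
      rw [h7] at h5
      have h8 : tot w = Fintype.card A * (tot w / Fintype.card A) := by field_simp
      rw [h8] at h5
      have h9 : 0 < tot w / Fintype.card A := by positivity
      have : Fintype.card A * (tot w / Fintype.card A) / Fintype.card A = tot w / Fintype.card A := by
        field_simp
      rw [this] at h5
      exact le_of_mul_le_mul_right h5 h9
    rw [Real.exp_neg, ← div_eq_inv_mul, le_div_iff₀ (Real.exp_pos _)]
    exact h6

end Event

section Comb

variable {n : ℕ}

/-- weight of independent siblings -/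
lemma prod_uT_add (T : Submodule (ZMod 2) (V n)) (s : ℕ) (z : Fin s → V n) (hz : ∀ i, z i ∈ T)
    (y : Fin s → V n) : ∏ i, uT T ((y + z) i) = ∏ i, uT T (y i) :=
  Finset.prod_congr rfl fun i _ => uT_add T (hz i) (y i)

lemma prod_uT_nonneg (T : Submodule (ZMod 2) (V n)) (s : ℕ) (y : Fin s → V n) :
    0 ≤ ∏ i, uT T (y i) := Finset.prod_nonneg fun _ _ => uT_nonneg _ _

lemma prod_uT_mem {T : Submodule (ZMod 2) (V n)} {s : ℕ} {y : Fin s → V n}
    (h : ∏ i, uT T (y i) ≠ 0) (i : Fin s) : y i ∈ T := by
  rw [Finset.prod_ne_zero_iff] at h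
  exact (uT_pos_iff _ _).1 (h i (Finset.mem_univ i))

/-- combination of siblings -/
def comb {s : ℕ} (c : Fin s → ZMod 2) (y : Fin s → V n) : V n := ∑ i, c i • y i

lemma comb_add {s : ℕ} (c : Fin s → ZMod 2) (y z : Fin s → V n) :
    comb c (y + z) = comb c y + comb c z := by
  unfold comb
  rw [← Finset.sum_add_distrib]
  refine Finset.sum_congr rfl fun i _ => ?_
  rw [Pi.add_apply, smul_add]

lemma comb_single {s : ℕ} (c : Fin s → ZMod 2) (k : Fin s) (t : V n) :
    comb c (Pi.single k t) = c k • t := by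
  classical
  unfold comb
  rw [Finset.sum_eq_single k]
  · rw [Pi.single_eq_same]
  · intro i _ hi
    rw [Pi.single_eq_of_ne hi, smul_zero]
  · intro h
    exact absurd (Finset.mem_univ k) h

lemma comb_mem {s : ℕ} (T : Submodule (ZMod 2) (V n)) (c : Fin s → ZMod 2) (y : Fin s → V n)
    (hy : ∀ i, y i ∈ T) : comb c y ∈ T :=
  Submodule.sum_mem _ fun i _ => T.smul_mem _ (hy i)

/-- averaging one sibling out -/
lemma sum_comb (T : Submodule (ZMod 2) (V n)) (s : ℕ) (c : Fin s → ZMod 2) (k : Fin s)
    (hk : c k = 1) (F : (Fin s → V n) → ℝ) (hF : ∀ y t, F (y + Pi.single k t) = F y) (g : V n → ℝ) :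
    ∑ y : Fin s → V n, (∏ i, uT T (y i)) * (F y * g (comb c y)) =
      (∑ v, uT T v * g v) * ∑ y : Fin s → V n, (∏ i, uT T (y i)) * F y := by
  classical
  have h1 : ∀ t ∈ T, ∑ y : Fin s → V n, (∏ i, uT T (y i)) * (F y * g (comb c y)) =
      ∑ y : Fin s → V n, (∏ i, uT T (y i)) * (F y * g (comb c y + t)) := by
    intro t ht
    symm
    rw [← Equiv.sum_comp (Equiv.addRight (Pi.single k t : Fin s → V n))
      (fun y => (∏ i, uT T (y i)) * (F y * g (comb c y)))]
    refine Finset.sum_congr rfl fun y _ => ?_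
    simp only [Equiv.coe_addRight]
    rw [prod_uT_add T s _ _ y, hF, comb_add, comb_single, hk, one_smul]
    intro i
    by_cases hi : i = k
    · subst hi
      rw [Pi.single_eq_same]
      exact ht
    · rw [Pi.single_eq_of_ne hi]
      exact T.zero_mem
  have h2 : ∑ y : Fin s → V n, (∏ i, uT T (y i)) * (F y * g (comb c y)) =
      ∑ t, uT T t * ∑ y : Fin s → V n, (∏ i, uT T (y i)) * (F y * g (comb c y + t)) := by
    have h3 : ∑ t, uT T t * ∑ y : Fin s → V n, (∏ i, uT T (y i)) * (F y * g (comb c y + t)) =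
        ∑ t, uT T t * ∑ y : Fin s → V n, (∏ i, uT T (y i)) * (F y * g (comb c y)) := by
      refine Finset.sum_congr rfl fun t _ => ?_
      by_cases ht : uT T t = 0
      · rw [ht, zero_mul, zero_mul]
      · rw [h1 t ((uT_pos_iff _ _).1 ht)]
    rw [h3, ← Finset.sum_mul, sum_uT, one_mul]
  rw [h2]
  simp only [Finset.mul_sum]
  rw [Finset.sum_comm]
  refine Finset.sum_congr rfl fun y _ => ?_
  by_cases hy : ∏ i, uT T (y i) = 0
  · simp [hy]
  · have hm : comb c y ∈ T := comb_mem T c y fun i => prod_uT_mem hy i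
    have h4 : ∑ t, uT T t * g (comb c y + t) = ∑ v, uT T v * g v := by
      rw [← Equiv.sum_comp (Equiv.addLeft (comb c y)) (fun v => uT T v * g v)]
      refine Finset.sum_congr rfl fun t _ => ?_
      simp only [Equiv.coe_addLeft]
      rw [add_comm (comb c y) t, uT_add T hm, add_comm t]
    rw [← h4, Finset.sum_mul]
    refine Finset.sum_congr rfl fun t _ => ?_
    ring

lemma exists_one {s : ℕ} (c : Fin s → ZMod 2) (hc : c ≠ 0) : ∃ k, c k = 1 := by
  by_contra h
  push Not at h
  refine hc (funext fun i => ?_)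
  have : ∀ z : ZMod 2, z ≠ 1 → z = 0 := by decide
  exact this _ (h i)

/-- mean of one combination -/
lemma sum_comb_one (T : Submodule (ZMod 2) (V n)) (s : ℕ) (c : Fin s → ZMod 2) (hc : c ≠ 0)
    (g : V n → ℝ) :
    ∑ y : Fin s → V n, (∏ i, uT T (y i)) * g (comb c y) = ∑ v, uT T v * g v := by
  obtain ⟨k, hk⟩ := exists_one c hc
  have := sum_comb T s c k hk (fun _ => 1) (fun _ _ => rfl) g
  simp only [one_mul, mul_one] at this
  rw [this, sum_prod_uT, mul_one]

/-- pairwise independence -/
lemma sum_comb_two (T : Submodule (ZMod 2) (V n)) (s : ℕ) (c c' : Fin s → ZMod 2) (hc : c ≠ 0)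
    (hc' : c' ≠ 0) (hne : c ≠ c') (g : V n → ℝ) :
    ∑ y : Fin s → V n, (∏ i, uT T (y i)) * (g (comb c y) * g (comb c' y)) =
      (∑ v, uT T v * g v) ^ 2 := by
  obtain ⟨k, hk⟩ : ∃ k, c k ≠ c' k := by
    by_contra h
    push Not at h
    exact hne (funext h)
  have h2 : ∀ u v : ZMod 2, u ≠ v → (u = 1 ∧ v = 0) ∨ (u = 0 ∧ v = 1) := by decide
  rcases h2 _ _ hk with ⟨h1, h0⟩ | ⟨h0, h1⟩
  · have := sum_comb T s c k h1 (fun y => g (comb c' y)) (fun y t => by
      rw [comb_add, comb_single, h0, zero_smul, add_zero]) g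
    rw [sum_comb_one T s c' hc' g] at this
    rw [pow_two, ← this]
    refine Finset.sum_congr rfl fun y _ => ?_
    ring
  · have := sum_comb T s c' k h1 (fun y => g (comb c y)) (fun y t => by
      rw [comb_add, comb_single, h0, zero_smul, add_zero]) g
    rw [sum_comb_one T s c hc g] at this
    rw [pow_two, ← this]

/-- the hitting event -/
def Hit {s : ℕ} (E : Set (V n)) (y : Fin s → V n) : Prop := ∃ c : Fin s → ZMod 2, c ≠ 0 ∧ comb c y ∈ E

open Classical in
/-- second moment: the combinations of `s` siblings hit a set of probability `p` -/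
theorem hit_prob (T : Submodule (ZMod 2) (V n)) (s : ℕ) (E : Set (V n)) (p : ℝ)
    (hp : p = ∑ v, uT T v * (if v ∈ E then 1 else 0)) (hs : 1 / 2 ≤ ((2 : ℝ) ^ s - 1) * p) :
    1 / 3 ≤ ∑ y : Fin s → V n, (∏ i, uT T (y i)) * (if Hit E y then 1 else 0) := by
  set g : V n → ℝ := fun v => if v ∈ E then 1 else 0 with hg
  set S : Finset (Fin s → ZMod 2) := Finset.univ.filter fun c => c ≠ 0 with hS
  have hcard : (S.card : ℝ) = 2 ^ s - 1 := by
    have h1 : S = Finset.univ.erase 0 := by
      ext c
      simp [hS]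
    rw [h1, Finset.card_erase_of_mem (Finset.mem_univ _), Finset.card_univ]
    simp only [Fintype.card_fun, ZMod.card, Fintype.card_fin]
    rw [Nat.cast_sub (Nat.one_le_two_pow)]
    push_cast
    ring
  set a : ℝ := (2 ^ s - 1) * p with ha
  have ha0 : 0 < 1 + a := by linarith
  set N : (Fin s → V n) → ℝ := fun y => ∑ c ∈ S, g (comb c y) with hN
  have hEN : ∑ y : Fin s → V n, (∏ i, uT T (y i)) * N y = a := by
    simp only [hN, Finset.mul_sum]
    rw [Finset.sum_comm]
    have : ∀ c ∈ S, ∑ y : Fin s → V n, (∏ i, uT T (y i)) * g (comb c y) = p := by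
      intro c hc
      rw [hS, Finset.mem_filter] at hc
      rw [sum_comb_one T s c hc.2 g, hp]
    rw [Finset.sum_congr rfl this, Finset.sum_const, nsmul_eq_mul, hcard]
  have hp0 : 0 ≤ p := by
    rw [hp]
    refine Finset.sum_nonneg fun v _ => mul_nonneg (uT_nonneg _ _) ?_
    split <;> norm_num
  have hgg : ∀ v, g v * g v = g v := by
    intro v
    simp only [hg]
    split <;> norm_num
  have hEN2 : ∑ y : Fin s → V n, (∏ i, uT T (y i)) * N y ^ 2 ≤ a + a ^ 2 := by
    have h1 : ∀ y : Fin s → V n, (∏ i, uT T (y i)) * N y ^ 2 =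
        ∑ c ∈ S, ∑ c' ∈ S, (∏ i, uT T (y i)) * (g (comb c y) * g (comb c' y)) := by
      intro y
      simp only [hN]
      rw [pow_two, Finset.sum_mul_sum, Finset.mul_sum]
      refine Finset.sum_congr rfl fun c _ => ?_
      rw [Finset.mul_sum]
    simp only [h1]
    rw [Finset.sum_comm]
    have h2 : ∀ c ∈ S, ∑ y : Fin s → V n, ∑ c' ∈ S, (∏ i, uT T (y i)) * (g (comb c y) * g (comb c' y)) ≤
        p + S.card * p ^ 2 := by
      intro c hc
      rw [Finset.sum_comm]
      have hc0 : c ≠ 0 := by
        rw [hS, Finset.mem_filter] at hc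
        exact hc.2
      rw [← Finset.add_sum_erase S _ hc]
      have h3 : ∑ y : Fin s → V n, (∏ i, uT T (y i)) * (g (comb c y) * g (comb c y)) = p := by
        simp only [hgg]
        rw [sum_comb_one T s c hc0 g, hp]
      rw [h3]
      have h4 : ∀ c' ∈ S.erase c, ∑ y : Fin s → V n,
          (∏ i, uT T (y i)) * (g (comb c y) * g (comb c' y)) = p ^ 2 := by
        intro c' hc'
        rw [Finset.mem_erase, hS, Finset.mem_filter] at hc'
        rw [sum_comb_two T s c c' hc0 hc'.2.2 (Ne.symm hc'.1) g, hp]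
      rw [Finset.sum_congr rfl h4, Finset.sum_const, nsmul_eq_mul]
      have h5 : ((S.erase c).card : ℝ) ≤ S.card := by
        exact_mod_cast Finset.card_le_card (Finset.erase_subset _ _)
      have h6 : 0 ≤ p ^ 2 := by positivity
      nlinarith
    refine (Finset.sum_le_sum h2).trans ?_
    rw [Finset.sum_const, nsmul_eq_mul, hcard]
    apply le_of_eq
    rw [ha]
    ring
  -- quadratic lower bound of the indicator
  set θ : ℝ := 1 / (1 + a) with hθ
  have hkey : ∀ y : Fin s → V n, 2 * θ * N y - θ ^ 2 * N y ^ 2 ≤ if Hit E y then 1 else 0 := by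
    intro y
    by_cases h : Hit E y
    · rw [if_pos h]
      nlinarith [sq_nonneg (1 - θ * N y)]
    · rw [if_neg h]
      have h0 : N y = 0 := by
        simp only [hN]
        refine Finset.sum_eq_zero fun c hc => ?_
        rw [hS, Finset.mem_filter] at hc
        simp only [hg]
        rw [if_neg]
        intro hE
        exact h ⟨c, hc.2, hE⟩
      rw [h0]
      simp
  have h1 : ∑ y : Fin s → V n, (∏ i, uT T (y i)) * (2 * θ * N y - θ ^ 2 * N y ^ 2) ≤
      ∑ y : Fin s → V n, (∏ i, uT T (y i)) * (if Hit E y then 1 else 0) :=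
    Finset.sum_le_sum fun y _ => mul_le_mul_of_nonneg_left (hkey y) (prod_uT_nonneg T s y)
  refine le_trans ?_ h1
  have h2 : ∑ y : Fin s → V n, (∏ i, uT T (y i)) * (2 * θ * N y - θ ^ 2 * N y ^ 2) =
      2 * θ * (∑ y : Fin s → V n, (∏ i, uT T (y i)) * N y) -
        θ ^ 2 * ∑ y : Fin s → V n, (∏ i, uT T (y i)) * N y ^ 2 := by
    rw [Finset.mul_sum, Finset.mul_sum, ← Finset.sum_sub_distrib]
    refine Finset.sum_congr rfl fun y _ => ?_
    ring
  rw [h2, hEN]
  have h3 : θ ^ 2 * ∑ y : Fin s → V n, (∏ i, uT T (y i)) * N y ^ 2 ≤ θ ^ 2 * (a + a ^ 2) :=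
    mul_le_mul_of_nonneg_left hEN2 (by positivity)
  have h4 : 2 * θ * a - θ ^ 2 * (a + a ^ 2) = a / (1 + a) := by
    rw [hθ]
    field_simp
    ring
  have h5 : 1 / 3 ≤ a / (1 + a) := by
    rw [le_div_iff₀ ha0]
    linarith
  linarith

/-- the hitting event has small uniform probability -/
theorem card_hit_le (s : ℕ) (E : Set (V n)) (x : ℝ)
    (hE : (Nat.card E : ℝ) ≤ Real.exp (-x) * Fintype.card (V n)) :
    (Nat.card {y : Fin s → V n | Hit E y} : ℝ) ≤
      Real.exp (-(x - s * Real.log 2)) * Fintype.card (Fin s → V n) := by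
  classical
  have hcount : ∀ (ι : Type) [Fintype ι] (P : ι → Prop), (Nat.card {y : ι | P y} : ℝ) =
      ∑ y : ι, if P y then (1 : ℝ) else 0 := by
    intro ι _ P
    rw [Nat.card_eq_fintype_card, ← Set.toFinset_card, Finset.sum_boole]
    congr 2
    ext y
    simp
  have hV : (Fintype.card (V n) : ℝ) ≠ 0 := by
    have : 0 < Fintype.card (V n) := Fintype.card_pos
    exact_mod_cast this.ne'
  -- use the uniform law of the whole space
  set T : Submodule (ZMod 2) (V n) := ⊤ with hT
  have huT : ∀ v, uT T v = 1 / (Fintype.card (V n) : ℝ) := by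
    intro v
    unfold uT
    rw [if_pos (by rw [hT]; trivial)]
    congr 2
    rw [hT, Nat.card_eq_fintype_card]
    exact Fintype.card_congr (Submodule.topEquiv (R := ZMod 2) (M := V n)).toEquiv
  have hprod : ∀ y : Fin s → V n, ∏ i, uT T (y i) = 1 / (Fintype.card (Fin s → V n) : ℝ) := by
    intro y
    simp only [huT]
    rw [Finset.prod_const, Finset.card_univ, Fintype.card_fin]
    have h0 : (Fintype.card (Fin s → V n) : ℝ) = (Fintype.card (V n) : ℝ) ^ s := by
      have := @Fintype.card_fun (Fin s) (V n) _ _ _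
      rw [Fintype.card_fin] at this
      exact_mod_cast this
    rw [h0, one_div, one_div, inv_pow]
  have h1 : ∀ y : Fin s → V n, (if Hit E y then (1 : ℝ) else 0) ≤
      ∑ c ∈ Finset.univ.filter (fun c : Fin s → ZMod 2 => c ≠ 0), if comb c y ∈ E then (1 : ℝ) else 0 := by
    intro y
    by_cases h : Hit E y
    · rw [if_pos h]
      obtain ⟨c, hc, hcE⟩ := h
      have := Finset.single_le_sum (f := fun c : Fin s → ZMod 2 => if comb c y ∈ E then (1 : ℝ) else 0)
        (s := Finset.univ.filter (fun c : Fin s → ZMod 2 => c ≠ 0))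
        (fun i _ => by
          show 0 ≤ (if comb i y ∈ E then (1 : ℝ) else 0)
          split <;> norm_num)
        (Finset.mem_filter.2 ⟨Finset.mem_univ c, hc⟩)
      simp only [hcE, if_true] at this
      exact this
    · rw [if_neg h]
      refine Finset.sum_nonneg fun c _ => ?_
      split <;> norm_num
  have h2 : ∀ c : Fin s → ZMod 2, c ≠ 0 →
      ∑ y : Fin s → V n, (if comb c y ∈ E then (1 : ℝ) else 0) =
        (Fintype.card (Fin s → V n) : ℝ) * (Nat.card E / Fintype.card (V n)) := by
    intro c hc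
    have h3 := sum_comb_one T s c hc (fun v => if v ∈ E then (1 : ℝ) else 0)
    simp only [hprod] at h3
    simp only [huT] at h3
    rw [← Finset.mul_sum, ← Finset.mul_sum] at h3
    have h4 : ∑ v : V n, (if v ∈ E then (1 : ℝ) else 0) = Nat.card E := by
      rw [← hcount (V n) (fun v => v ∈ E)]
      rfl
    rw [h4] at h3
    have hVs : (Fintype.card (Fin s → V n) : ℝ) ≠ 0 := by
      have : 0 < Fintype.card (Fin s → V n) := Fintype.card_pos
      exact_mod_cast this.ne'
    field_simp at h3 ⊢
    linarith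
  rw [hcount (Fin s → V n) (fun y => Hit E y)]
  refine (Finset.sum_le_sum fun y _ => h1 y).trans ?_
  rw [Finset.sum_comm]
  rw [Finset.sum_congr rfl fun c hc => h2 c (Finset.mem_filter.1 hc).2, Finset.sum_const,
    nsmul_eq_mul]
  have h5 : ((Finset.univ.filter (fun c : Fin s → ZMod 2 => c ≠ 0)).card : ℝ) ≤ 2 ^ s := by
    have : (Finset.univ.filter (fun c : Fin s → ZMod 2 => c ≠ 0)).card ≤
        Fintype.card (Fin s → ZMod 2) := Finset.card_le_univ _
    rw [Fintype.card_fun, ZMod.card, Fintype.card_fin] at this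
    exact_mod_cast this
  have h6 : (Nat.card E : ℝ) / Fintype.card (V n) ≤ Real.exp (-x) := by
    rw [div_le_iff₀ (by positivity)]
    exact hE
  have h7 : Real.exp (-(x - s * Real.log 2)) = Real.exp (-x) * 2 ^ s := by
    rw [neg_sub, sub_eq_add_neg, add_comm, Real.exp_add, mul_comm (s : ℝ), Real.exp_mul,
      Real.exp_log (by norm_num)]
    norm_num
  rw [h7]
  have hc0 : (0 : ℝ) ≤ Fintype.card (Fin s → V n) := by positivity
  have h8 : 0 ≤ (Nat.card E : ℝ) / Fintype.card (V n) := by positivity
  calc ((Finset.univ.filter (fun c : Fin s → ZMod 2 => c ≠ 0)).card : ℝ) *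
        ((Fintype.card (Fin s → V n) : ℝ) * (Nat.card E / Fintype.card (V n)))
      ≤ 2 ^ s * ((Fintype.card (Fin s → V n) : ℝ) * Real.exp (-x)) := by gcongr
    _ = Real.exp (-x) * 2 ^ s * (Fintype.card (Fin s → V n) : ℝ) := by ring

end Comb

section Tail

variable {Ω B : Type*} [Fintype Ω] {n : ℕ}

open Classical in
/-- conditional probability of the event for the next sibling -/
noncomputable def pe (T : Ω → Submodule (ZMod 2) (V n)) (D : Ω → B) (E : B → Set (V n)) (ω : Ω) : ℝ :=
  ∑ v, uT (T ω) v * (if v ∈ E (D ω) then 1 else 0)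

omit [Fintype Ω] in
lemma pe_nonneg (T : Ω → Submodule (ZMod 2) (V n)) (D : Ω → B) (E : B → Set (V n)) (ω : Ω) :
    0 ≤ pe T D E ω := by
  classical
  unfold pe
  refine Finset.sum_nonneg fun v _ => mul_nonneg (uT_nonneg _ _) ?_
  split <;> norm_num

omit [Fintype Ω] in
lemma pe_le_one (T : Ω → Submodule (ZMod 2) (V n)) (D : Ω → B) (E : B → Set (V n)) (ω : Ω) :
    pe T D E ω ≤ 1 := by
  classical
  have h1 : pe T D E ω ≤ ∑ v, uT (T ω) v := by
    unfold pe
    refine Finset.sum_le_sum fun v _ => ?_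
    have := uT_nonneg (T ω) v
    split
    · linarith
    · linarith
  exact h1.trans (le_of_eq (sum_uT (T ω)))

/-- a set of worlds of large conditional probability -/
lemma half_le (w : Ω → ℝ) (hw : ∀ ω, 0 ≤ w ω) (hw1 : tot w ≤ 1) (f : Ω → ℝ)
    (hf : ∀ ω, f ω ≤ 1) (q : ℝ) (hq0 : 0 ≤ q) (hq : q ≤ ∑ ω, w ω * f ω) :
    q / 2 ≤ tot (ind {ω | q / 2 ≤ f ω} w) := by
  classical
  have h1 : ∑ ω, w ω * f ω ≤ tot (ind {ω | q / 2 ≤ f ω} w) + q / 2 * tot w := by
    unfold tot ind
    rw [Finset.mul_sum, ← Finset.sum_add_distrib]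
    refine Finset.sum_le_sum fun ω _ => ?_
    by_cases h : ω ∈ {ω | q / 2 ≤ f ω}
    · rw [Set.indicator_of_mem h]
      have := hw ω
      nlinarith [hf ω]
    · rw [Set.indicator_of_notMem h]
      have h' : f ω < q / 2 := not_le.1 h
      have := hw ω
      nlinarith
  have h2 : q / 2 * tot w ≤ q / 2 := by
    have : 0 ≤ q / 2 := by linarith
    nlinarith
  linarith

/-- (TAIL) for linear siblings: an event of conditional uniform probability `exp (-x)` which happens
with probability `q` for the next sibling forces `x` to be small -/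
theorem tail_event (w : Ω → ℝ) (hw : ∀ ω, 0 ≤ w ω) (hw1 : tot w ≤ 1)
    (T : Ω → Submodule (ZMod 2) (V n)) (D : Ω → B) (E : B → Set (V n)) (s : ℕ) (v x q : ℝ)
    (hv : 0 ≤ v)
    (hV : ∀ S : Set Ω, (∀ ω ω', T ω = T ω' → D ω = D ω' → (ω ∈ S ↔ ω' ∈ S)) →
      q / 2 ≤ tot (ind S w) →
      KK (sib (ind S w) T s) (fun p => p.2) (fun p => D p.1) ≤ tot (ind S w) * (s * v))
    (hE : ∀ d, (Nat.card (E d) : ℝ) ≤ Real.exp (-x) * Fintype.card (V n))
    (hq0 : 0 < q) (hq : q ≤ ∑ ω, w ω * pe T D E ω) (hs : 1 + 1 / q ≤ 2 ^ s) :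
    x ≤ s * Real.log 2 + 3 * (s * v + Real.log 2) := by
  classical
  set S : Set Ω := {ω | q / 2 ≤ pe T D E ω} with hSdef
  have hS1 : q / 2 ≤ tot (ind S w) := half_le w hw hw1 _ (pe_le_one T D E) q hq0.le hq
  have hinv : ∀ ω ω', T ω = T ω' → D ω = D ω' → (ω ∈ S ↔ ω' ∈ S) := by
    intro ω ω' h1 h2
    simp only [hSdef, Set.mem_ofPred_eq]
    unfold pe
    rw [h1, h2]
  have hK := hV S hinv hS1
  set W := sib (ind S w) T s with hW
  have hind : ∀ ω, 0 ≤ ind S w ω := fun ω => Set.indicator_nonneg (fun _ _ => hw _) _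
  have hW0 : ∀ p, 0 ≤ W p := sib_nonneg _ hind T s
  have hdv := DV_event W hW0 (fun p => p.2) (fun p => D p.1) (fun d => {y | Hit (E d) y})
    (x - s * Real.log 2) (fun p _ => card_hit_le s (E (D p.1)) x (hE _))
  -- the probability of a hit
  have hhit : tot (ind S w) * (1 / 3) ≤
      pr W {p | p.2 ∈ (fun d => {y | Hit (E d) y}) (D p.1)} := by
    rw [pr_eq_sum]
    have h1 : ∑ p, (if p ∈ {p : Ω × (Fin s → V n) | p.2 ∈ (fun d => {y | Hit (E d) y}) (D p.1)}
        then W p else 0) = ∑ p, sib (ind S w) T s p * (if Hit (E (D p.1)) p.2 then 1 else 0) := by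
      refine Finset.sum_congr rfl fun p _ => ?_
      simp only [Set.mem_ofPred_eq]
      rw [hW]
      split <;> simp
    rw [h1, sum_sib (ind S w) T s (fun ω y => if Hit (E (D ω)) y then (1 : ℝ) else 0)]
    unfold tot
    rw [Finset.sum_mul]
    refine Finset.sum_le_sum fun ω _ => ?_
    by_cases hω : ω ∈ S
    · refine mul_le_mul_of_nonneg_left ?_ (hind ω)
      refine hit_prob (T ω) s (E (D ω)) (pe T D E ω) rfl ?_
      have h2 : q / 2 ≤ pe T D E ω := hω
      have h3 : 1 / q ≤ 2 ^ s - 1 := by linarith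
      have h4 : 1 ≤ (2 ^ s - 1) * q := by
        rw [div_le_iff₀ hq0] at h3
        exact h3
      have h5 : 0 ≤ (2 : ℝ) ^ s - 1 := by
        have := one_le_pow₀ (M₀ := ℝ) (a := 2) (by norm_num) (n := s)
        linarith
      nlinarith
    · have : ind S w ω = 0 := by
        unfold ind
        rw [Set.indicator_of_notMem hω]
      rw [this]
      simp
  have htotW : tot W = tot (ind S w) := tot_sib _ T s
  rw [htotW] at hdv
  have htp : 0 < tot (ind S w) := by linarith
  have hlog2 : 0 < Real.log 2 := Real.log_pos (by norm_num)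
  by_cases hx : x - s * Real.log 2 ≤ 0
  · have h1 : (0 : ℝ) ≤ s * v := mul_nonneg (Nat.cast_nonneg _) hv
    linarith
  · push Not at hx
    have h1 : (x - s * Real.log 2) * (tot (ind S w) * (1 / 3)) ≤
        tot (ind S w) * (s * v) + tot (ind S w) * Real.log 2 := by
      have := mul_le_mul_of_nonneg_left hhit hx.le
      linarith
    have h2 : tot (ind S w) * ((x - s * Real.log 2) * (1 / 3)) ≤
        tot (ind S w) * (s * v + Real.log 2) := by nlinarith
    have h3 := le_of_mul_le_mul_left h2 htp
    linarith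

end Tail

section TB

variable {H C C' K A A' : Type*} [Fintype H] [Fintype C] [Fintype C'] [Fintype K] [Fintype A]
  [Fintype A']

/-- product with the uniform law -/
noncomputable def pw (w : H → ℝ) (C : Type*) [Fintype C] : H × C → ℝ :=
  fun p => w p.1 / (Fintype.card C : ℝ)

omit [Fintype H] in
lemma pw_nonneg (w : H → ℝ) (hw : ∀ h, 0 ≤ w h) (p : H × C) : 0 ≤ pw w C p :=
  div_nonneg (hw _) (Nat.cast_nonneg _)

lemma tot_pw [Nonempty C] (w : H → ℝ) : tot (pw w C) = tot w := by
  unfold tot pw
  rw [Fintype.sum_prod_type]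
  refine Finset.sum_congr rfl fun h _ => ?_
  simp only
  rw [Finset.sum_const, Finset.card_univ, nsmul_eq_mul]
  have : ((Fintype.card C : ℕ) : ℝ) ≠ 0 := by exact_mod_cast Fintype.card_ne_zero
  field_simp

lemma sum_pw (w : H → ℝ) (F : H → C → ℝ) :
    ∑ p : H × C, pw w C p * F p.1 p.2 = ∑ h, w h * ((∑ c, F h c) / Fintype.card C) := by
  unfold pw
  rw [Fintype.sum_prod_type]
  refine Finset.sum_congr rfl fun h _ => ?_
  simp only
  rw [Finset.sum_div, Finset.mul_sum]
  refine Finset.sum_congr rfl fun c _ => ?_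
  ring

open Classical in
/-- (TB): an event of uniform probability `exp (-lam)` has probability at most
`max (16 e) (exp (-(lam - 2 M - 6 log 2) / 3))` -/
theorem tb_event [Nonempty C] [Nonempty C'] [Nonempty K]
    (w : H → ℝ) (hw : ∀ h, 0 ≤ w h) (hw1 : tot w ≤ 1)
    (obs : H → C → A) (obs' : H → C' → A') (mix : K → C' → C) (Φ : K → A' → A)
    (hobs : ∀ h k c, obs h (mix k c) = Φ k (obs' h c))
    (hbal : ∀ k a, Nat.card {a' // Φ k a' = a} * Fintype.card A = Fintype.card A')
    (e : ℝ) (hvar : ∀ g : C → ℝ, (∑ c, ((∑ k, g (mix k c)) / Fintype.card K -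
      (∑ c, g c) / Fintype.card C) ^ 2) / Fintype.card C' ≤ e * ((∑ c, g c ^ 2) / Fintype.card C))
    (M : ℝ) (hM : 0 ≤ M)
    (E : Set A) (lam : ℝ) (hE : (Nat.card E : ℝ) ≤ Real.exp (-lam) * Fintype.card A)
    (q : ℝ) (hq0 : 0 < q) (hq : q ≤ pr (pw w C) {p | obs p.1 p.2 ∈ E}) (he : 16 * e ≤ q)
    (hSC : ∀ S : Set H, (∀ h h', obs h = obs h' → (h ∈ S ↔ h' ∈ S)) → q / 2 ≤ tot (ind S w) →
      K0 (pw (ind S w) C') (fun p => obs' p.1 p.2) ≤
        tot (ind S w) * (M + Real.log (1 / tot (ind S w)))) :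
    lam ≤ 2 * M + 3 * Real.log (1 / q) + 6 * Real.log 2 := by
  set f : H → ℝ := fun h => (∑ c, if obs h c ∈ E then (1 : ℝ) else 0) / Fintype.card C with hf
  have hC0 : (0 : ℝ) < Fintype.card C := by exact_mod_cast Fintype.card_pos
  have hC'0 : (0 : ℝ) < Fintype.card C' := by exact_mod_cast Fintype.card_pos
  have hK0 : (0 : ℝ) < Fintype.card K := by exact_mod_cast Fintype.card_pos
  have hf0 : ∀ h, 0 ≤ f h := fun h => div_nonneg (Finset.sum_nonneg fun c _ => by
    split <;> norm_num) hC0.le
  have hf1 : ∀ h, f h ≤ 1 := by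
    intro h
    simp only [hf]
    rw [div_le_one hC0]
    calc ∑ c, (if obs h c ∈ E then (1 : ℝ) else 0) ≤ ∑ _c : C, (1 : ℝ) :=
          Finset.sum_le_sum fun c _ => by split <;> norm_num
      _ = Fintype.card C := by simp
  have hqf : q ≤ ∑ h, w h * f h := by
    refine hq.trans (le_of_eq ?_)
    rw [pr_eq_sum, ← sum_pw w (fun h c => if obs h c ∈ E then (1 : ℝ) else 0)]
    refine Finset.sum_congr rfl fun p _ => ?_
    simp only [Set.mem_ofPred_eq]
    split <;> simp
  set S : Set H := {h | q / 2 ≤ f h} with hSdef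
  have hS1 : q / 2 ≤ tot (ind S w) := half_le w hw hw1 f hf1 q hq0.le hqf
  have hinv : ∀ h h', obs h = obs h' → (h ∈ S ↔ h' ∈ S) := by
    intro h h' hh
    simp only [hSdef, Set.mem_ofPred_eq, hf]
    rw [hh]
  have hK := hSC S hinv hS1
  have hind : ∀ ω, 0 ≤ ind S w ω := fun ω => Set.indicator_nonneg (fun _ _ => hw _) _
  set τ := tot (ind S w) with hτ
  have hτ0 : 0 < τ := by linarith
  have hτ1 : τ ≤ 1 := by
    refine le_trans ?_ hw1
    rw [hτ]
    unfold tot ind
    refine Finset.sum_le_sum fun ω _ => ?_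
    exact Set.indicator_le_self' (fun _ _ => hw _) _
  -- the public statistic
  set Γ : A' → ℝ := fun a' => (∑ k, if Φ k a' ∈ E then (1 : ℝ) else 0) / Fintype.card K with hΓ
  set E' : Set A' := {a' | q / 4 ≤ Γ a'} with hE'
  have hA'sum : ∑ a', Γ a' ≤ Real.exp (-lam) * Fintype.card A' := by
    have h1 : ∀ k : K, ∑ a', (if Φ k a' ∈ E then (1 : ℝ) else 0) * Fintype.card A =
        Nat.card E * Fintype.card A' := by
      intro k
      have h2 : ∑ a', (if Φ k a' ∈ E then (1 : ℝ) else 0) =
          ∑ a, (Nat.card {a' // Φ k a' = a} : ℝ) * (if a ∈ E then 1 else 0) := by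
        rw [← Finset.sum_fiberwise_of_maps_to (s := (Finset.univ : Finset A'))
          (t := (Finset.univ : Finset A)) (g := Φ k) (fun _ _ => Finset.mem_univ _)]
        refine Finset.sum_congr rfl fun a _ => ?_
        rw [Finset.sum_congr rfl (g := fun _ => if a ∈ E then (1 : ℝ) else 0)]
        · rw [Finset.sum_const, nsmul_eq_mul]
          congr 2
          rw [Nat.card_eq_fintype_card, Fintype.card_subtype]
        · intro a' ha'
          rw [Finset.mem_filter] at ha'
          rw [ha'.2]
      rw [← Finset.sum_mul, h2, Finset.sum_mul]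
      have h3 : (Nat.card E : ℝ) = ∑ a, if a ∈ E then (1 : ℝ) else 0 := by
        rw [Nat.card_eq_fintype_card, ← Set.toFinset_card, Finset.sum_boole]
        congr 2
        ext y
        simp
      rw [h3, Finset.sum_mul]
      refine Finset.sum_congr rfl fun a _ => ?_
      have h4 : (Nat.card {a' // Φ k a' = a} : ℝ) * (Fintype.card A : ℝ) = Fintype.card A' := by
        exact_mod_cast hbal k a
      split
      · rw [mul_one, one_mul, h4]
      · simp
    rcases isEmpty_or_nonempty A with hA | hA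
    · have : IsEmpty A' := by
        by_contra hne
        rw [not_isEmpty_iff] at hne
        obtain ⟨a'⟩ := hne
        exact hA.elim (Φ (Classical.arbitrary K) a')
      simp
    · have hA0 : (0 : ℝ) < Fintype.card A := by exact_mod_cast Fintype.card_pos
      have h5 : (∑ a', Γ a') * (Fintype.card K * Fintype.card A) =
          Fintype.card K * (Nat.card E * Fintype.card A') := by
        simp only [hΓ]
        rw [← Finset.sum_div, Finset.sum_comm, div_mul_eq_mul_div, mul_comm (Fintype.card K : ℝ)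
          (Fintype.card A : ℝ), ← mul_assoc, mul_div_assoc, div_self hK0.ne', mul_one]
        rw [Finset.sum_mul]
        have : ∀ k : K, (∑ a', (if Φ k a' ∈ E then (1 : ℝ) else 0)) * Fintype.card A =
            Nat.card E * Fintype.card A' := by
          intro k
          rw [Finset.sum_mul]
          exact h1 k
        rw [Finset.sum_congr rfl fun k _ => this k, Finset.sum_const, Finset.card_univ, nsmul_eq_mul]
      have h6 : (∑ a', Γ a') * Fintype.card A = Nat.card E * Fintype.card A' := by
        have h7 : (Fintype.card K : ℝ) * ((∑ a', Γ a') * Fintype.card A) =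
            Fintype.card K * (Nat.card E * Fintype.card A') := by
          rw [← h5]
          ring
        exact mul_left_cancel₀ hK0.ne' h7
      have h8 : (∑ a', Γ a') * Fintype.card A ≤
          (Real.exp (-lam) * Fintype.card A') * Fintype.card A := by
        rw [h6]
        have : (0 : ℝ) ≤ Fintype.card A' := Nat.cast_nonneg _
        nlinarith
      exact le_of_mul_le_mul_right h8 hA0
  have hΓ0 : ∀ a', 0 ≤ Γ a' := fun a' => div_nonneg (Finset.sum_nonneg fun c _ => by
    split <;> norm_num) hK0.le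
  have hE'card : (Nat.card E' : ℝ) ≤ Real.exp (-(lam - Real.log (4 / q))) * Fintype.card A' := by
    have h1 : (Nat.card E' : ℝ) * (q / 4) ≤ ∑ a', Γ a' := by
      have h2 : (Nat.card E' : ℝ) = ((Finset.univ.filter fun a' => a' ∈ E').card : ℝ) := by
        rw [Nat.card_eq_fintype_card, ← Set.toFinset_card]
        congr 2
        ext y
        simp
      rw [h2]
      calc ((Finset.univ.filter fun a' => a' ∈ E').card : ℝ) * (q / 4)
          = ∑ a' ∈ Finset.univ.filter fun a' => a' ∈ E', q / 4 := by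
            rw [Finset.sum_const, nsmul_eq_mul]
        _ ≤ ∑ a' ∈ Finset.univ.filter fun a' => a' ∈ E', Γ a' := by
            refine Finset.sum_le_sum fun a' ha' => ?_
            rw [Finset.mem_filter] at ha'
            exact ha'.2
        _ ≤ ∑ a', Γ a' := Finset.sum_le_univ_sum_of_nonneg hΓ0
    have h3 : Real.exp (-(lam - Real.log (4 / q))) = Real.exp (-lam) * (4 / q) := by
      rw [neg_sub, sub_eq_add_neg, add_comm, Real.exp_add, Real.exp_log (by positivity)]
    rw [h3]
    have h4 : (Nat.card E' : ℝ) ≤ (Real.exp (-lam) * Fintype.card A') * (4 / q) := by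
      have h5 : (Nat.card E' : ℝ) = (Nat.card E' : ℝ) * (q / 4) * (4 / q) := by
        field_simp
      rw [h5]
      exact mul_le_mul_of_nonneg_right (h1.trans hA'sum) (by positivity)
    linarith
  -- entropy cost of the event
  have hdv := DV_event (pw (ind S w) C') (pw_nonneg _ hind) (fun p => obs' p.1 p.2) (fun _ => ())
    (fun _ => E') (lam - Real.log (4 / q)) (fun _ _ => hE'card)
  rw [tot_pw] at hdv
  -- its probability
  have hprob : τ * (1 / 2) ≤ pr (pw (ind S w) C') {p | obs' p.1 p.2 ∈ E'} := by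
    rw [pr_eq_sum]
    have h1 : ∑ p, (if p ∈ {p : H × C' | obs' p.1 p.2 ∈ E'} then pw (ind S w) C' p else 0) =
        ∑ p : H × C', pw (ind S w) C' p * (if obs' p.1 p.2 ∈ E' then 1 else 0) := by
      refine Finset.sum_congr rfl fun p _ => ?_
      simp only [Set.mem_ofPred_eq]
      split <;> simp
    rw [h1, sum_pw (ind S w) (fun h c => if obs' h c ∈ E' then (1 : ℝ) else 0), hτ]
    unfold tot
    rw [Finset.sum_mul]
    refine Finset.sum_le_sum fun h _ => ?_
    by_cases hh : h ∈ S
    · refine mul_le_mul_of_nonneg_left ?_ (hind h)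
      have hp : q / 2 ≤ f h := hh
      have hp0 : 0 < f h := by linarith
      -- Chebyshev
      have hv := hvar (fun c => if obs h c ∈ E then (1 : ℝ) else 0)
      have hsq : ∀ c, (if obs h c ∈ E then (1 : ℝ) else 0) ^ 2 = if obs h c ∈ E then (1 : ℝ) else 0 := by
        intro c
        split <;> norm_num
      simp only [hsq] at hv
      change (∑ c, ((∑ k, if obs h (mix k c) ∈ E then (1 : ℝ) else 0) / Fintype.card K - f h) ^ 2) /
        Fintype.card C' ≤ e * f h at hv
      have hG : ∀ c, (∑ k, if obs h (mix k c) ∈ E then (1 : ℝ) else 0) / Fintype.card K =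
          Γ (obs' h c) := by
        intro c
        simp only [hΓ, hobs]
      simp only [hG] at hv
      have hch : ∀ c, 1 - 4 / f h ^ 2 * (Γ (obs' h c) - f h) ^ 2 ≤
          if obs' h c ∈ E' then (1 : ℝ) else 0 := by
        intro c
        by_cases hc : obs' h c ∈ E'
        · rw [if_pos hc]
          have : 0 ≤ 4 / f h ^ 2 * (Γ (obs' h c) - f h) ^ 2 := by positivity
          linarith
        · rw [if_neg hc]
          have h2 : Γ (obs' h c) < q / 4 := not_le.1 hc
          have h3 : Γ (obs' h c) ≤ f h / 2 := by linarith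
          have h4 : f h ^ 2 / 4 ≤ (Γ (obs' h c) - f h) ^ 2 := by nlinarith
          have h5 : 1 ≤ 4 / f h ^ 2 * (Γ (obs' h c) - f h) ^ 2 := by
            rw [div_mul_eq_mul_div, le_div_iff₀ (by positivity)]
            linarith
          linarith
      have h6 : 1 - 4 / f h ^ 2 * (e * f h) ≤
          (∑ c, if obs' h c ∈ E' then (1 : ℝ) else 0) / Fintype.card C' := by
        have h7 : ∑ c, (1 - 4 / f h ^ 2 * (Γ (obs' h c) - f h) ^ 2) ≤
            ∑ c, if obs' h c ∈ E' then (1 : ℝ) else 0 := Finset.sum_le_sum fun c _ => hch c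
        rw [Finset.sum_sub_distrib, ← Finset.mul_sum, Finset.sum_const, Finset.card_univ,
          nsmul_eq_mul, mul_one] at h7
        rw [le_div_iff₀ hC'0]
        rw [div_le_iff₀ hC'0] at hv
        have h8 : 4 / f h ^ 2 * ∑ c, (Γ (obs' h c) - f h) ^ 2 ≤
            4 / f h ^ 2 * (e * f h * Fintype.card C') :=
          mul_le_mul_of_nonneg_left hv (by positivity)
        nlinarith
      refine le_trans ?_ h6
      have h9 : 4 / f h ^ 2 * (e * f h) = 4 * e / f h := by
        field_simp
      rw [h9]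
      have h10 : 4 * e / f h ≤ 1 / 2 := by
        rw [div_le_iff₀ hp0]
        linarith
      linarith
    · have : ind S w h = 0 := by
        unfold ind
        rw [Set.indicator_of_notMem hh]
      rw [this]
      simp
  have hlog2 : 0 < Real.log 2 := Real.log_pos (by norm_num)
  have hq1 : q ≤ 1 := by
    refine hqf.trans (le_trans ?_ hw1)
    unfold tot
    refine Finset.sum_le_sum fun h _ => ?_
    have := hw h
    nlinarith [hf1 h]
  have hlq : 0 ≤ Real.log (1 / q) := Real.log_nonneg (by
    rw [le_div_iff₀ hq0]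
    linarith)
  have hl4 : Real.log (4 / q) = 2 * Real.log 2 + Real.log (1 / q) := by
    have : (4 : ℝ) / q = 2 ^ 2 * (1 / q) := by ring
    rw [this, Real.log_mul (by norm_num) (by positivity), Real.log_pow]
    norm_num
  have hlτ : Real.log (1 / τ) ≤ Real.log 2 + Real.log (1 / q) := by
    rw [← Real.log_mul (by norm_num) (by positivity)]
    refine Real.log_le_log (by positivity) ?_
    rw [div_le_iff₀ hτ0]
    have : 2 * (1 / q) * τ = 2 * τ / q := by ring
    rw [this, le_div_iff₀ hq0]
    linarith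
  by_cases hx : lam - Real.log (4 / q) ≤ 0
  · linarith
  · push Not at hx
    have h1 := mul_le_mul_of_nonneg_left hprob hx.le
    have h2 : τ * ((lam - Real.log (4 / q)) * (1 / 2)) ≤ τ * (M + Real.log (1 / τ) + Real.log 2) := by
      have h3 : K0 (pw (ind S w) C') (fun p => obs' p.1 p.2) =
        KK (pw (ind S w) C') (fun p => obs' p.1 p.2) (fun _ => ()) := rfl
      rw [h3] at hK
      have h4 : (lam - Real.log (4 / q)) * pr (pw (ind S w) C') {p | obs' p.1 p.2 ∈ E'} ≤
          τ * (M + Real.log (1 / τ)) + τ * Real.log 2 := by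
        linarith
      nlinarith
    have h5 := le_of_mul_le_mul_left h2 hτ0
    linarith

end TB

end Pool.Agent.NJ
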