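import Pool.Agent.NJ.BTb49
import Pool.Agent.NJ.Tail85
import Pool.Agent.NJ.Slope85

/-!
Row BT, second half: one corner bit costs at most `β`, given the slope bound for the extended column
siblings.
-/

set_option autoImplicit false

namespace Pool.Agent.NJ

open Finset Pool.Agent.CutSeq

/-- the number of siblings -/
lemma exists_sib49 (β : ℝ) (hβ : 0 < β) (hβ1 : β ≤ 1) :
    ∃ s : ℕ, 1 + 1 / (β / 2) ≤ 2 ^ s ∧ (s : ℝ) ≤ Real.log (16 / β) / Real.log 2 + 2 := by
  have h0 : 1 ≤ 1 + 1 / (β / 2) := by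
    have : 0 < 1 / (β / 2) := by positivity
    linarith
  obtain ⟨m, hm1, hm2⟩ := exists_nat_pow_near h0 (by norm_num : (1 : ℝ) < 2)
  refine ⟨m + 1, hm2.le, ?_⟩
  have l2 : 0 < Real.log 2 := Real.log_pos (by norm_num)
  have h1 : (2 : ℝ) ^ m ≤ 16 / β := by
    refine hm1.trans ?_
    rw [one_div_div, le_div_iff₀ hβ, add_mul, div_mul_cancel₀ _ hβ.ne']
    linarith
  have h2 := Real.log_le_log (by positivity) h1
  rw [Real.log_pow] at h2
  push_cast
  have h3 : (m : ℝ) ≤ Real.log (16 / β) / Real.log 2 := by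
    rw [le_div_iff₀ l2]
    exact h2
  linarith

/-- values of large conditional probability are few -/
lemma card_post_le49 {Ω A B : Type*} [Fintype Ω] [Fintype A] (w : Ω → ℝ) (hw : ∀ ω, 0 ≤ w ω)
    (X : Ω → A) (Y : Ω → B) (δ : ℝ) (hδ : 0 < δ) (y : B) :
    (Nat.card {x : A // δ ≤ mass w (fun ω => (X ω, Y ω)) (x, y) / mass w Y y} : ℝ) ≤ 1 / δ := by
  classical
  rw [le_div_iff₀ hδ]
  have h1 : (Nat.card {x : A // δ ≤ mass w (fun ω => (X ω, Y ω)) (x, y) / mass w Y y} : ℝ) =
      ∑ x : A, if δ ≤ mass w (fun ω => (X ω, Y ω)) (x, y) / mass w Y y then (1 : ℝ) else 0 := by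
    rw [Finset.sum_boole, Nat.card_eq_fintype_card, Fintype.card_subtype]
  rw [h1, Finset.sum_mul]
  have h2 : ∑ x : A, (if δ ≤ mass w (fun ω => (X ω, Y ω)) (x, y) / mass w Y y then (1 : ℝ) else 0)
      * δ ≤ ∑ x : A, mass w (fun ω => (X ω, Y ω)) (x, y) / mass w Y y := by
    refine Finset.sum_le_sum fun x _ => ?_
    by_cases hx : δ ≤ mass w (fun ω => (X ω, Y ω)) (x, y) / mass w Y y
    · rw [if_pos hx, one_mul]
      exact hx
    · rw [if_neg hx, zero_mul]
      exact div_nonneg (mass_nonneg w hw _ _) (mass_nonneg w hw _ _)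
  refine h2.trans ?_
  rw [← Finset.sum_div, sum_mass]
  exact div_self_le_one _

namespace Loc

variable {H A : Type*} {n t : ℕ} (S : Loc H A n t) [Fintype H] [Fintype A]

/-- the entropy of one corner bit -/
theorem bb_le_beta49 (w : H → ℝ) (hw : ∀ h, 0 ≤ w h) (hw1 : tot w ≤ 1) (k S' S₂ : ℕ) (hS : 1 ≤ S₂)
    (β VV : ℝ) (hβ : 0 < β) (hβ1 : β ≤ 1) (hVV : 0 ≤ VV)
    (hslope : ∀ G : Set (H × (Fin (k + S') → V t)),
      β / 4 ≤ tot (ind G (pw w (Fin (k + S') → V t))) →
      KK (sib (ind G (pw w (Fin (k + S') → V t))) (fun q => S.TE q) S₂) (fun p => p.2)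
        (fun p => S.dX p.1) ≤ tot (ind G (pw w (Fin (k + S') → V t))) * VV)
    (h3 : Real.log (16 / β) / Real.log 2 + 2 ≤ S₂)
    (h2 : (Real.log (16 / β) / Real.log 2 + 2) * (Real.log 2 + 3 * (VV / S₂))
      + Real.log (2 / β) + 3 * Real.log 2 < S' * Real.log 2) :
    S.bb49 w k ≤ β := by
  classical
  by_contra hcon
  have hlt : β < S.bb49 w k := not_le.1 hcon
  set wh := pw w (Fin (k + S') → V t) with hwh
  have hwh0 : ∀ q, 0 ≤ wh q := pw_nonneg w hw
  have htwh : tot wh ≤ 1 := by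
    rw [hwh, tot_pw]
    exact hw1
  set W := sib wh (fun q => S.TE q) 1 with hWdef
  have hW : ∀ p, 0 ≤ W p := sib_nonneg wh hwh0 _ 1
  have htW : tot W = tot wh := tot_sib wh _ 1
  set Xp : (H × (Fin (k + S') → V t)) × (Fin 1 → V (n + (k + S'))) → V S' :=
    fun p => eX49 n k S' (p.2 0) with hXp
  set Yp : (H × (Fin (k + S') → V t)) × (Fin 1 → V (n + (k + S'))) →
      (V n × V k) × (A × (Fin (k + S') → V n)) :=
    fun p => (eC49 n k S' (p.2 0), S.dX p.1) with hYp
  -- the collision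
  have hbt : β ≤ tot W := by
    have h := KK_le (pw w (Co t (k + 1) 1)) (pw_nonneg w hw) (S.xs49 k) (S.bs49 k)
    rw [tot_pw, ZMod.card] at h
    have l2 : Real.log ((2 : ℕ) : ℝ) < 1 := by
      push_cast
      have := Real.log_two_lt_d9
      linarith
    have h4 := tot_nonneg w hw
    have h5 : S.bb49 w k ≤ tot w := by
      unfold bb49
      nlinarith
    rw [htW, hwh, tot_pw]
    linarith
  have hcol : β ≤ collP W Xp Yp :=
    le_collP_bits W hW Xp Yp β (fun c hc => hlt.le.trans (S.bb_le49 w hw k S' c hc)) hbt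
  have hpr := collP_prob W hW (by rw [htW]; exact htwh) Xp Yp β hβ.le hcol
  -- the event
  set E : A × (Fin (k + S') → V n) → Set (V (n + (k + S'))) := fun d =>
    {v | β / 2 ≤ mass W (fun p => (Xp p, Yp p)) (eX49 n k S' v, (eC49 n k S' v, d)) /
      mass W Yp (eC49 n k S' v, d)} with hE
  have hcardE : ∀ d, (Nat.card (E d) : ℝ) ≤
      Real.exp (-(S' * Real.log 2 - Real.log (2 / β))) * Fintype.card (V (n + (k + S'))) := by
    intro d
    -- the values as pairs
    have h4 : (Nat.card (E d) : ℝ) ≤ Fintype.card (V n × V k) * (2 / β) := by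
      have hinj : Function.Injective (fun v : E d => (⟨eC49 n k S' v.1, ⟨eX49 n k S' v.1, v.2⟩⟩ :
          Σ c : V n × V k, {x : V S' // β / 2 ≤ mass W (fun p => (Xp p, Yp p)) (x, (c, d)) /
            mass W Yp (c, d)})) := by
        intro v v' h
        have h5 : eC49 n k S' v.1 = eC49 n k S' v'.1 := congrArg Sigma.fst h
        have h6 : eX49 n k S' v.1 = eX49 n k S' v'.1 := by
          have h7 := (Sigma.mk.inj_iff.1 h).2
          have h8 := (Subtype.heq_iff_coe_eq (by
            intro x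
            rw [h5])).1 h7
          exact h8
        refine Subtype.ext ?_
        have h7 : (fun j => v.1 (Fin.castAdd (k + S') j)) = fun j => v'.1 (Fin.castAdd (k + S') j) :=
          (Prod.mk.inj h5).1
        have h8 : (fun l : Fin k => v.1 (Fin.natAdd n (Fin.castAdd S' l))) =
            fun l => v'.1 (Fin.natAdd n (Fin.castAdd S' l)) := (Prod.mk.inj h5).2
        funext x
        refine Fin.addCases (fun j => ?_) (fun l => ?_) x
        · exact congrFun h7 j
        · refine Fin.addCases (fun i => ?_) (fun s => ?_) l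
          · exact congrFun h8 i
          · exact congrFun h6 s
      have h5 := Nat.card_le_card_of_injective _ hinj
      rw [Nat.card_sigma] at h5
      have h6 : ((Nat.card (E d) : ℕ) : ℝ) ≤ ∑ c : V n × V k,
          (Nat.card {x : V S' // β / 2 ≤ mass W (fun p => (Xp p, Yp p)) (x, (c, d)) /
            mass W Yp (c, d)} : ℝ) := by exact_mod_cast h5
      refine h6.trans ?_
      have h7 : ∀ c : V n × V k, (Nat.card {x : V S' // β / 2 ≤
          mass W (fun p => (Xp p, Yp p)) (x, (c, d)) / mass W Yp (c, d)} : ℝ) ≤ 2 / β := by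
        intro c
        have h8 := card_post_le49 W hW Xp Yp (β / 2) (by positivity) (c, d)
        rwa [one_div_div] at h8
      calc ∑ c : V n × V k, (Nat.card {x : V S' // β / 2 ≤ mass W (fun p => (Xp p, Yp p))
            (x, (c, d)) / mass W Yp (c, d)} : ℝ) ≤ ∑ _c : V n × V k, 2 / β :=
          Finset.sum_le_sum fun c _ => h7 c
        _ = _ := by rw [Finset.sum_const, Finset.card_univ, nsmul_eq_mul]
    refine h4.trans (le_of_eq ?_)
    have h5 : (Fintype.card (V n × V k) : ℝ) = 2 ^ n * 2 ^ k := by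
      rw [Fintype.card_prod, Fintype.card_fun, Fintype.card_fun, ZMod.card, Fintype.card_fin,
        Fintype.card_fin]
      push_cast
      ring
    have h6 : (Fintype.card (V (n + (k + S'))) : ℝ) = 2 ^ n * 2 ^ k * 2 ^ S' := by
      rw [Fintype.card_fun, ZMod.card, Fintype.card_fin]
      push_cast
      rw [pow_add, pow_add]
      ring
    rw [h5, h6, neg_sub, Real.exp_sub, Real.exp_log (by positivity), mul_comm (S' : ℝ),
      Real.exp_mul, Real.exp_log (by norm_num), Real.rpow_natCast]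
    field_simp
  -- its probability
  have hq : β / 2 ≤ ∑ q, wh q * pe (fun q => S.TE q) (fun q => S.dX q) E q := by
    refine hpr.trans (le_of_eq ?_)
    rw [pr_eq_sum]
    have h7 : ∑ p, (if p ∈ {ω | β / 2 ≤ mass W (fun ω => (Xp ω, Yp ω)) (Xp ω, Yp ω) /
        mass W Yp (Yp ω)} then W p else 0) =
        ∑ p, sib wh (fun q => S.TE q) 1 p * (fun (q : H × (Fin (k + S') → V t))
          (x : Fin 1 → V (n + (k + S'))) => if x 0 ∈ E (S.dX q) then (1 : ℝ) else 0) p.1 p.2 := by
      refine Finset.sum_congr rfl fun p _ => ?_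
      have h8 : (p ∈ {ω | β / 2 ≤ mass W (fun ω => (Xp ω, Yp ω)) (Xp ω, Yp ω) /
        mass W Yp (Yp ω)}) ↔ p.2 0 ∈ E (S.dX p.1) := Iff.rfl
      by_cases h9 : p.2 0 ∈ E (S.dX p.1)
      · rw [if_pos (h8.2 h9)]
        simp only [if_pos h9, mul_one]
        rfl
      · rw [if_neg (fun h => h9 (h8.1 h))]
        simp only [if_neg h9, mul_zero]
    rw [h7, sum_sib wh (fun q => S.TE q) 1 (fun (q : H × (Fin (k + S') → V t))
          (x : Fin 1 → V (n + (k + S'))) => if x 0 ∈ E (S.dX q) then (1 : ℝ) else 0)]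
    refine Finset.sum_congr rfl fun q _ => ?_
    rw [sum_prod_uT_coord (S.TE q) 1 0 (fun x => if x ∈ E (S.dX q) then (1 : ℝ) else 0)]
    unfold pe
    congr 1
  -- the tail
  obtain ⟨s, hs1, hs2⟩ := exists_sib49 β hβ hβ1
  have hsS : s ≤ S₂ := by
    have : (s : ℝ) ≤ S₂ := hs2.trans h3
    exact_mod_cast this
  have hS0 : (0 : ℝ) < S₂ := by exact_mod_cast hS
  have ht := tail_event wh hwh0 htwh (fun q => S.TE q) (fun q => S.dX q) E s (VV / S₂)
    (S' * Real.log 2 - Real.log (2 / β)) (β / 2) (div_nonneg hVV hS0.le) (by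
      intro G _ hG
      have h4 := hslope G (by linarith)
      have hG0 : ∀ q, 0 ≤ ind G wh q := fun q => Set.indicator_nonneg (fun _ _ => hwh0 _) _
      have h5 := sib_mul_le (ind G wh) hG0 (fun q => S.TE q) (fun q => S.dX q) s S₂ hsS
      have h6 : US (ind G wh) (fun q => S.TE q) (fun q => S.dX q) S₂ ≤ tot (ind G wh) * VV := h4
      have h7 : (S₂ : ℝ) * US (ind G wh) (fun q => S.TE q) (fun q => S.dX q) s ≤
          s * (tot (ind G wh) * VV) := h5.trans (mul_le_mul_of_nonneg_left h6 (Nat.cast_nonneg s))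
      have h8 : US (ind G wh) (fun q => S.TE q) (fun q => S.dX q) s ≤
          tot (ind G wh) * (s * (VV / S₂)) := by
        have h9 : tot (ind G wh) * (s * (VV / S₂)) = s * (tot (ind G wh) * VV) / S₂ := by ring
        rw [h9, le_div_iff₀ hS0]
        linarith
      exact h8) hcardE (by positivity) hq hs1
  have l2 : 0 < Real.log 2 := Real.log_pos (by norm_num)
  have h4 : (s : ℝ) * (Real.log 2 + 3 * (VV / S₂)) ≤
      (Real.log (16 / β) / Real.log 2 + 2) * (Real.log 2 + 3 * (VV / S₂)) := by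
    refine mul_le_mul_of_nonneg_right hs2 ?_
    have : 0 ≤ VV / S₂ := div_nonneg hVV hS0.le
    linarith
  nlinarith

end Loc

end Pool.Agent.NJ
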