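import Pool.Agent.CutSeq.Sib

/-!
Fresh siblings are seen less than true rows: the one step inequality, and the walk which replaces
`i` fresh siblings by `i + m` true rows.
-/

set_option autoImplicit false

namespace Pool.Agent.NJ

open Finset Pool.Agent.CutSeq

variable {Ω A B : Type*} [Fintype Ω] [Fintype A]

/-- (T1) a fresh sibling `x` is seen less than any vector `X'` of the space `T`, when `x` is added to
the data -/
theorem T1 (w : Ω → ℝ) (hw : ∀ ω, 0 ≤ w ω) {n k : ℕ} (T : Ω → Submodule (ZMod 2) (V n))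
    (X' : Ω → V n) (hX' : ∀ ω, w ω ≠ 0 → X' ω ∈ T ω) (Z : Ω → (Fin k → V n) → B) :
    KK (sib w T (k + 1)) (fun p => p.2 (Fin.last k)) (fun p => Z p.1 (fun i : Fin k => p.2 i.castSucc))
      ≤ KK (sib w T (k + 1)) (fun p => X' p.1)
        (fun p => (Z p.1 (fun i : Fin k => p.2 i.castSucc), p.2 (Fin.last k))) := by
  have hW := sib_nonneg_sib w hw T (k + 1)
  rw [← KK_sib_shift w T X' hX' Z]
  refine le_trans (KK_finer _ hW (fun p => p.2 (Fin.last k) + X' p.1) _
    (fun p => (Z p.1 (fun i : Fin k => p.2 i.castSucc), p.2 (Fin.last k))) ?_) (le_of_eq ?_)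
  · intro p p' _ _ h
    exact (Prod.mk.inj h).1
  · exact KK_bij _ hW (fun p => X' p.1) (fun p => p.2 (Fin.last k) + X' p.1) _
      (fun z => Equiv.addLeft z.2) (fun p _ => rfl)

/-- entropy of the data, `l` true vectors and `i` siblings -/
noncomputable def brm (w : Ω → ℝ) {n : ℕ} (T : Ω → Submodule (ZMod 2) (V n)) (Z : Ω → A)
    (R : ℕ → Ω → V n) (l i : ℕ) : ℝ :=
  K0 (sib w T i) (fun p => ((Z p.1, fun a : Fin l => R a.val p.1), p.2))

/-- monotone in the number of true vectors, no sibling -/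
theorem K0_fst_le {A' : Type*} [Fintype A'] (w : Ω → ℝ) (hw : ∀ ω, 0 ≤ w ω) (X : Ω → A)
    (X' : Ω → A') : K0 w X ≤ K0 w (fun ω => (X ω, X' ω)) := by
  unfold K0
  rw [KK_chain w hw X X' (fun _ => ())]
  have := KK_nonneg w hw X' (fun ω => (X ω, ()))
  linarith

theorem K0_bij {A' : Type*} [Fintype A'] (w : Ω → ℝ) (hw : ∀ ω, 0 ≤ w ω) (X : Ω → A)
    (X' : Ω → A') (σ : A ≃ A') (h : ∀ ω, w ω ≠ 0 → X' ω = σ (X ω)) : K0 w X' = K0 w X :=
  KK_bij w hw X X' (fun _ => ()) (fun _ => σ) h

/-- forgetting the last sibling -/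
theorem K0_sib_init {n k : ℕ} (w : Ω → ℝ) (T : Ω → Submodule (ZMod 2) (V n)) (Y : Ω → A) :
    K0 (sib w T (k + 1)) (fun p => (Y p.1, fun i : Fin k => p.2 i.castSucc))
      = K0 (sib w T k) (fun p => (Y p.1, p.2)) := by
  classical
  unfold K0
  refine KK_law _ _ _ _ _ _ fun a b => ?_
  unfold mass sib
  rw [Fintype.sum_prod_type, Fintype.sum_prod_type]
  refine Finset.sum_congr rfl fun ω _ => ?_
  rw [← (Fin.snocEquiv (fun _ : Fin (k + 1) => V n)).sum_comp]
  rw [Fintype.sum_prod_type]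
  rw [Finset.sum_comm]
  refine Finset.sum_congr rfl fun x _ => ?_
  simp only [Fin.snocEquiv_apply, Fin.snoc_castSucc, Fin.prod_univ_castSucc, Fin.snoc_last]
  by_cases h : ((Y ω, x), ()) = (a, b)
  · simp only [h, if_true]
    rw [← Finset.mul_sum, ← Finset.mul_sum, sum_uT, mul_one]
  · simp only [h, if_false, Finset.sum_const_zero]

theorem brm_step (w : Ω → ℝ) (hw : ∀ ω, 0 ≤ w ω) {n : ℕ} (T : Ω → Submodule (ZMod 2) (V n))
    (Z : Ω → A) (R : ℕ → Ω → V n) (l i : ℕ) (hR : ∀ ω, w ω ≠ 0 → R l ω ∈ T ω) :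
    2 * brm w T Z R l (i + 1) ≤ brm w T Z R l i + brm w T Z R (l + 1) (i + 1) := by
  classical
  set W := sib w T (i + 1) with hWdef
  have hW : ∀ p, 0 ≤ W p := sib_nonneg_sib w hw T (i + 1)
  set D : Ω × (Fin (i + 1) → V n) → (A × (Fin l → V n)) × (Fin i → V n) :=
    fun p => ((Z p.1, fun a : Fin l => R a.val p.1), fun a : Fin i => p.2 a.castSucc) with hD
  set xl : Ω × (Fin (i + 1) → V n) → V n := fun p => p.2 (Fin.last i) with hxl
  -- the data with all siblings
  have e1 : brm w T Z R l (i + 1) = K0 W D + KK W xl (fun p => (D p, ())) := by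
    have h1 : brm w T Z R l (i + 1) = K0 W (fun p => (D p, xl p)) := by
      refine K0_bij W hW (fun p => (D p, xl p)) _
        { toFun := fun q => (q.1.1, Fin.snoc (α := fun _ => V n) q.1.2 q.2)
          invFun := fun q => ((q.1, fun a : Fin i => q.2 a.castSucc), q.2 (Fin.last i))
          left_inv := ?_
          right_inv := ?_ } ?_
      · rintro ⟨⟨a, x⟩, y⟩
        simp
      · rintro ⟨a, x⟩
        refine Prod.ext rfl ?_
        funext j
        refine Fin.lastCases ?_ (fun j => ?_) j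
        · simp
        · simp
      · rintro ⟨ω, x⟩ _
        refine Prod.ext rfl ?_
        funext j
        refine Fin.lastCases ?_ (fun j => ?_) j
        · simp [hD, hxl]
        · simp [hD, hxl]
    rw [h1]
    exact KK_chain W hW D xl (fun _ => ())
  have e2 : K0 W D = brm w T Z R l i := K0_sib_init w T (fun ω => (Z ω, fun a : Fin l => R a.val ω))
  have e3 : brm w T Z R (l + 1) (i + 1)
      = K0 W (fun p => (D p, xl p)) + KK W (fun p => R l p.1) (fun p => ((D p, xl p), ())) := by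
    have h1 : brm w T Z R (l + 1) (i + 1) = K0 W (fun p => ((D p, xl p), R l p.1)) := by
      refine K0_bij W hW (fun p => ((D p, xl p), R l p.1)) _
        { toFun := fun q => ((q.1.1.1.1, Fin.snoc (α := fun _ => V n) q.1.1.1.2 q.2),
            Fin.snoc (α := fun _ => V n) q.1.1.2 q.1.2)
          invFun := fun q => ((((q.1.1, fun a : Fin l => q.1.2 a.castSucc),
            fun a : Fin i => q.2 a.castSucc), q.2 (Fin.last i)), q.1.2 (Fin.last l))
          left_inv := ?_
          right_inv := ?_ } ?_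
      · rintro ⟨⟨⟨⟨a, r⟩, x⟩, y⟩, z⟩
        simp
      · rintro ⟨⟨a, r⟩, x⟩
        refine Prod.ext (Prod.ext rfl ?_) ?_
        · funext j
          refine Fin.lastCases ?_ (fun j => ?_) j
          · simp
          · simp
        · funext j
          refine Fin.lastCases ?_ (fun j => ?_) j
          · simp
          · simp
      · rintro ⟨ω, x⟩ _
        refine Prod.ext (Prod.ext rfl ?_) ?_
        · funext j
          refine Fin.lastCases ?_ (fun j => ?_) j
          · simp [hD]
          · simp [hD]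
        · funext j
          refine Fin.lastCases ?_ (fun j => ?_) j
          · simp [hD, hxl]
          · simp [hD, hxl]
    rw [h1]
    exact KK_chain W hW (fun p => (D p, xl p)) (fun p => R l p.1) (fun _ => ())
  have e4 : K0 W (fun p => (D p, xl p)) = K0 W D + KK W xl (fun p => (D p, ())) :=
    KK_chain W hW D xl (fun _ => ())
  have e5 := T1 w hw T (R l) hR (k := i)
    (fun ω x => (((Z ω, fun a : Fin l => R a.val ω), x) : (A × (Fin l → V n)) × (Fin i → V n)))
  have e6 : KK W xl (fun p => (D p, ())) ≤ KK W xl D := by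
    refine KK_finer W hW _ _ _ ?_
    intro p p' _ _ h
    simp only [h]
  have e7 : KK W (fun p => R l p.1) (fun p => (D p, xl p))
      ≤ KK W (fun p => R l p.1) (fun p => ((D p, xl p), ())) := by
    refine KK_finer W hW _ _ _ ?_
    intro p p' _ _ h
    exact (Prod.mk.inj h).1
  have e8 : KK W xl D ≤ KK W (fun p => R l p.1) (fun p => (D p, xl p)) := e5
  linarith

/-- monotone in the number of true vectors -/
theorem brm_mono (w : Ω → ℝ) (hw : ∀ ω, 0 ≤ w ω) {n : ℕ} (T : Ω → Submodule (ZMod 2) (V n))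
    (Z : Ω → A) (R : ℕ → Ω → V n) (l i : ℕ) :
    brm w T Z R l i ≤ brm w T Z R (l + 1) i := by
  classical
  set W := sib w T i with hWdef
  have hW : ∀ p, 0 ≤ W p := sib_nonneg_sib w hw T i
  have h1 : brm w T Z R (l + 1) i
      = K0 W (fun p => (((Z p.1, fun a : Fin l => R a.val p.1), p.2), R l p.1)) := by
    refine K0_bij W hW (fun p => (((Z p.1, fun a : Fin l => R a.val p.1), p.2), R l p.1)) _
      { toFun := fun q => ((q.1.1.1, Fin.snoc (α := fun _ => V n) q.1.1.2 q.2), q.1.2)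
        invFun := fun q => (((q.1.1, fun a : Fin l => q.1.2 a.castSucc), q.2), q.1.2 (Fin.last l))
        left_inv := ?_
        right_inv := ?_ } ?_
    · rintro ⟨⟨⟨a, r⟩, x⟩, y⟩
      simp
    · rintro ⟨⟨a, r⟩, x⟩
      refine Prod.ext (Prod.ext rfl ?_) rfl
      funext j
      refine Fin.lastCases ?_ (fun j => ?_) j
      · simp
      · simp
    · rintro ⟨ω, x⟩ _
      refine Prod.ext (Prod.ext rfl ?_) rfl
      funext j
      refine Fin.lastCases ?_ (fun j => ?_) j
      · simp
      · simp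
  rw [h1]
  exact K0_fst_le W hW _ _

/-- trivial bound -/
theorem brm_le (w : Ω → ℝ) (hw : ∀ ω, 0 ≤ w ω) {n : ℕ} (T : Ω → Submodule (ZMod 2) (V n))
    (Z : Ω → A) (R : ℕ → Ω → V n) (l i : ℕ) :
    brm w T Z R l i ≤ tot w * (Real.log (Fintype.card A) + (l + i) * (n * Real.log 2)) := by
  classical
  by_cases hA : IsEmpty A
  · have hΩ : IsEmpty Ω := ⟨fun ω => hA.elim (Z ω)⟩
    have : IsEmpty (Ω × (Fin i → V n)) := ⟨fun p => hΩ.elim p.1⟩
    unfold brm K0 KK tot
    rw [Finset.univ_eq_empty, Finset.univ_eq_empty, Finset.sum_empty, Finset.sum_empty, zero_mul]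
  · have hA' : Nonempty A := not_isEmpty_iff.1 hA
    have h1 := KK_le (sib w T i) (sib_nonneg_sib w hw T i)
      (fun p => ((Z p.1, fun a : Fin l => R a.val p.1), p.2)) (fun _ => ())
    rw [tot_sib] at h1
    refine le_trans h1 (le_of_eq ?_)
    congr 1
    rw [Fintype.card_prod, Fintype.card_prod]
    push_cast
    rw [Real.log_mul, Real.log_mul, log_card_sib, log_card_sib]
    · ring
    · exact_mod_cast Fintype.card_ne_zero
    · exact_mod_cast Fintype.card_ne_zero
    · have : (Fintype.card A : ℝ) ≠ 0 := by exact_mod_cast Fintype.card_ne_zero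
      have h3 : (Fintype.card (Fin l → V n) : ℝ) ≠ 0 := by exact_mod_cast Fintype.card_ne_zero
      exact mul_ne_zero this h3
    · exact_mod_cast Fintype.card_ne_zero

/-- the walk: `i` downward steps before `r` upward steps -/
theorem walk_abs (G : ℕ → ℕ → ℝ) (M e : ℝ) (he : 0 < e) (he1 : e < 1) (hM : 0 ≤ M)
    (hstep : ∀ l i, 2 * G l (i + 1) ≤ G l i + G (l + 1) (i + 1))
    (hmono : ∀ l, G l 0 ≤ G (l + 1) 0) (I R : ℕ)
    (hmax : ∀ l i, l ≤ R → i ≤ I → G l i ≤ G 0 0 + M) :
    ∀ s l i r, i + r = s → i ≤ I → l + r ≤ R →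
      G l i ≤ G (l + r) 0 + M * ((1 - e)⁻¹ ^ i * (1 + e)⁻¹ ^ r) := by
  have hmono' : ∀ l r, G l 0 ≤ G (l + r) 0 := by
    intro l r
    induction r with
    | zero => exact le_rfl
    | succ r ih => exact ih.trans (hmono (l + r))
  have h1e : 0 < 1 - e := by linarith
  have h2e : 0 < 1 + e := by linarith
  have hinv : (1 - e)⁻¹ * (1 - e) = 1 := inv_mul_cancel₀ h1e.ne'
  have hinv2 : (1 + e)⁻¹ * (1 + e) = 1 := inv_mul_cancel₀ h2e.ne'
  intro s
  induction s with
  | zero =>
    intro l i r hs _ _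
    have hi : i = 0 := by omega
    have hr : r = 0 := by omega
    subst hi
    subst hr
    have : 0 ≤ M * ((1 - e)⁻¹ ^ 0 * (1 + e)⁻¹ ^ 0) := by positivity
    rw [Nat.add_zero]
    linarith
  | succ s ih =>
    intro l i r hs hiI hlR
    rcases Nat.eq_zero_or_pos i with hi | hi
    · subst hi
      have : 0 ≤ M * ((1 - e)⁻¹ ^ 0 * (1 + e)⁻¹ ^ r) := by positivity
      linarith [hmono' l r]
    rcases Nat.eq_zero_or_pos r with hr | hr
    · subst hr
      rw [Nat.add_zero, pow_zero, mul_one]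
      have h1 := hmax l i (by omega) hiI
      have h2 : G 0 0 ≤ G l 0 := by
        have := hmono' 0 l
        rwa [Nat.zero_add] at this
      have h3 : 1 ≤ (1 - e)⁻¹ ^ i := one_le_pow₀ ((one_le_inv₀ h1e).2 (by linarith))
      nlinarith
    · obtain ⟨i, rfl⟩ : ∃ i', i = i' + 1 := ⟨i - 1, by omega⟩
      obtain ⟨r, rfl⟩ : ∃ r', r = r' + 1 := ⟨r - 1, by omega⟩
      have a1 := ih l i (r + 1) (by omega) (by omega) hlR
      have a2 := ih (l + 1) (i + 1) r (by omega) hiI (by omega)
      have a3 := hstep l i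
      have a4 : l + 1 + r = l + (r + 1) := by omega
      rw [a4] at a2
      set a := (1 - e)⁻¹ with ha
      set b := (1 + e)⁻¹ with hb
      have key : a ^ i * b ^ (r + 1) + a ^ (i + 1) * b ^ r = 2 * (a ^ (i + 1) * b ^ (r + 1)) := by
        have h3 : a ^ i * b ^ (r + 1) = a ^ (i + 1) * b ^ (r + 1) * (1 - e) := by
          have : a ^ (i + 1) * b ^ (r + 1) * (1 - e) = a ^ i * b ^ (r + 1) * (a * (1 - e)) := by ring
          rw [this, hinv, mul_one]
        have h4 : a ^ (i + 1) * b ^ r = a ^ (i + 1) * b ^ (r + 1) * (1 + e) := by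
          have : a ^ (i + 1) * b ^ (r + 1) * (1 + e) = a ^ (i + 1) * b ^ r * (b * (1 + e)) := by ring
          rw [this, hinv2, mul_one]
        rw [h3, h4]
        ring
      have : 2 * G l (i + 1) ≤ 2 * G (l + (r + 1)) 0 + M * (2 * (a ^ (i + 1) * b ^ (r + 1))) := by
        rw [← key]
        linarith
      linarith

/-- the tail of the walk -/
theorem walk_tail (i m : ℕ) (hm : 1 ≤ m) :
    ∃ e : ℝ, 0 < e ∧ e < 1 ∧
      (1 - e)⁻¹ ^ i * (1 + e)⁻¹ ^ (i + m) ≤ Real.exp (-((m : ℝ) ^ 2 / (16 * (i + m)))) := by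
  have hmR : (1 : ℝ) ≤ m := by exact_mod_cast hm
  have hiR : (0 : ℝ) ≤ i := Nat.cast_nonneg i
  have hs : (0 : ℝ) < i + m := by linarith
  set e : ℝ := m / (4 * (i + m)) with he
  have he0 : 0 < e := by positivity
  have he4 : e ≤ 1 / 4 := by
    rw [he, div_le_iff₀ (by positivity)]
    linarith
  refine ⟨e, he0, by linarith, ?_⟩
  have h1e : 0 < 1 - e := by linarith
  have h2e : 0 < 1 + e := by linarith
  have l1 : (1 - e)⁻¹ ≤ Real.exp (e + 2 * e ^ 2) := by
    rw [inv_le_iff_one_le_mul₀ h1e]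
    have h := Real.add_one_le_exp (e + 2 * e ^ 2)
    have h9 : 0 ≤ e ^ 2 * (1 - 2 * e) := mul_nonneg (sq_nonneg e) (by linarith)
    have : 1 ≤ (e + 2 * e ^ 2 + 1) * (1 - e) := by nlinarith
    exact this.trans (mul_le_mul_of_nonneg_right h h1e.le)
  have l2 : (1 + e)⁻¹ ≤ Real.exp (-e + e ^ 2) := by
    rw [inv_le_iff_one_le_mul₀ h2e]
    have h := Real.add_one_le_exp (-e + e ^ 2)
    have : 1 ≤ (-e + e ^ 2 + 1) * (1 + e) := by nlinarith [pow_pos he0 3]
    exact this.trans (mul_le_mul_of_nonneg_right h h2e.le)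
  have l3 : (1 - e)⁻¹ ^ i * (1 + e)⁻¹ ^ (i + m)
      ≤ Real.exp (e + 2 * e ^ 2) ^ i * Real.exp (-e + e ^ 2) ^ (i + m) := by
    have p1 : 0 ≤ (1 - e)⁻¹ := by positivity
    have p2 : 0 ≤ (1 + e)⁻¹ := by positivity
    exact mul_le_mul (pow_le_pow_left₀ p1 l1 i) (pow_le_pow_left₀ p2 l2 (i + m)) (by positivity)
      (by positivity)
  refine l3.trans ?_
  rw [← Real.exp_nat_mul, ← Real.exp_nat_mul, ← Real.exp_add]
  refine Real.exp_le_exp.2 ?_
  push_cast
  have h5 : (i : ℝ) * (e + 2 * e ^ 2) + (i + m) * (-e + e ^ 2) = -(m * e) + (3 * i + m) * e ^ 2 := by ring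
  rw [h5]
  have h6 : (m : ℝ) * e = m ^ 2 / (4 * (i + m)) := by
    rw [he]
    ring
  have h7 : (3 * (i : ℝ) + m) * e ^ 2 ≤ 3 * (m ^ 2 / (16 * (i + m))) := by
    have h9 : (3 * (i : ℝ) + m) * e ^ 2 ≤ (3 * (i + m)) * e ^ 2 :=
      mul_le_mul_of_nonneg_right (by linarith) (sq_nonneg e)
    refine h9.trans (le_of_eq ?_)
    rw [he]
    field_simp
    ring
  rw [h6]
  have h8 : (m : ℝ) ^ 2 / (4 * (i + m)) = 4 * (m ^ 2 / (16 * (i + m))) := by
    field_simp
    ring
  rw [h8]
  linarith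

/-- **Siblings are seen less than true rows**: `i` fresh siblings against `i + m` true vectors -/
theorem brm_walk (w : Ω → ℝ) (hw : ∀ ω, 0 ≤ w ω) {n : ℕ} (T : Ω → Submodule (ZMod 2) (V n))
    (Z : Ω → A) (R : ℕ → Ω → V n) (hR : ∀ l ω, w ω ≠ 0 → R l ω ∈ T ω) (i m : ℕ) (hm : 1 ≤ m) :
    K0 (sib w T i) (fun p => (Z p.1, p.2))
      ≤ K0 w (fun ω => (Z ω, fun a : Fin (i + m) => R a.val ω))
        + tot w * (Real.log (Fintype.card A) + (2 * i + m) * (n * Real.log 2))
          * Real.exp (-((m : ℝ) ^ 2 / (16 * (i + m)))) := by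
  classical
  obtain ⟨e, he, he1, hexp⟩ := walk_tail i m hm
  set M : ℝ := tot w * (Real.log (Fintype.card A) + (2 * i + m) * (n * Real.log 2)) with hMdef
  have htot : 0 ≤ tot w := tot_nonneg w hw
  have hlA : 0 ≤ Real.log (Fintype.card A) := by
    rcases Nat.eq_zero_or_pos (Fintype.card A) with h | h
    · rw [h]
      simp
    · exact Real.log_nonneg (by exact_mod_cast h)
  have hl2 : 0 ≤ Real.log 2 := Real.log_nonneg (by norm_num)
  have hM : 0 ≤ M := by positivity
  have hG00 : 0 ≤ brm w T Z R 0 0 := KK_nonneg _ (sib_nonneg_sib w hw T 0) _ _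
  have h := walk_abs (fun l i => brm w T Z R l i) M e he he1 hM
    (fun l i => brm_step w hw T Z R l i (hR l)) (fun l => brm_mono w hw T Z R l 0) i (i + m)
    (by
      intro l j hl hj
      have h1 := brm_le w hw T Z R l j
      have h2 : tot w * (Real.log (Fintype.card A) + (l + j) * (n * Real.log 2)) ≤ M := by
        rw [hMdef]
        refine mul_le_mul_of_nonneg_left ?_ htot
        have h3 : (l : ℝ) + j ≤ 2 * i + m := by
          have : l + j ≤ 2 * i + m := by omega
          exact_mod_cast this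
        have h4 : 0 ≤ (n : ℝ) * Real.log 2 := by positivity
        nlinarith
      linarith)
    (i + (i + m)) 0 i (i + m) rfl le_rfl (by omega)
  have e1 : brm w T Z R 0 i = K0 (sib w T i) (fun p => (Z p.1, p.2)) := by
    refine K0_bij _ (sib_nonneg_sib w hw T i) (fun p => (Z p.1, p.2)) _
      { toFun := fun q => ((q.1, fun a : Fin 0 => a.elim0), q.2)
        invFun := fun q => (q.1.1, q.2)
        left_inv := fun _ => rfl
        right_inv := ?_ } ?_
    · rintro ⟨⟨a, r⟩, x⟩
      refine Prod.ext (Prod.ext rfl ?_) rfl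
      funext a
      exact a.elim0
    · rintro ⟨ω, x⟩ _
      refine Prod.ext (Prod.ext rfl ?_) rfl
      funext a
      exact a.elim0
  have e2 : brm w T Z R (0 + (i + m)) 0
      = K0 w (fun ω => (Z ω, fun a : Fin (i + m) => R a.val ω)) := by
    rw [Nat.zero_add]
    have h2 : brm w T Z R (i + m) 0
        = K0 (sib w T 0) (fun p => (Z p.1, fun a : Fin (i + m) => R a.val p.1)) := by
      refine K0_bij _ (sib_nonneg_sib w hw T 0)
        (fun p => (Z p.1, fun a : Fin (i + m) => R a.val p.1)) _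
        { toFun := fun q => (q, fun a : Fin 0 => a.elim0)
          invFun := fun q => q.1
          left_inv := fun _ => rfl
          right_inv := ?_ } ?_
      · rintro ⟨q, x⟩
        refine Prod.ext rfl ?_
        funext a
        exact a.elim0
      · rintro ⟨ω, x⟩ _
        refine Prod.ext rfl ?_
        funext a
        exact a.elim0
    rw [h2]
    exact KK_sib_fst w T 0 (fun ω => (Z ω, fun a : Fin (i + m) => R a.val ω)) (fun _ => ())
  simp only [e1, e2] at h
  refine h.trans ?_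
  have := mul_le_mul_of_nonneg_left hexp hM
  linarith

end Pool.Agent.NJ
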