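import Pool.Agent.NJ.Slope85
import Pool.Agent.NJ.T1s59

/-!
S19271 / NJ (helper50): local structure at one window, in coin space.

`H` = histories of the window (finite), `A` = values of the array, `n` = size, `t` = number of letters.
A row sibling with coins `ξ : V t` is `row h ξ = ∑ r, ξ r • R h r`, a column sibling with coins `η` is
`col h η`, and `cor h ξ η` is their corner bit (bilinear).
-/

set_option autoImplicit false

namespace Pool.Agent.NJ

open Finset Pool.Agent.CutSeq

/-- local structure at a window -/
structure Loc (H A : Type*) (n t : ℕ) where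
  m : H → A
  R : H → Fin t → V n
  C : H → Fin t → V n
  Q : H → Fin t → Fin t → ZMod 2

/-- coins of `i` row siblings and `j` column siblings -/
abbrev Co (t i j : ℕ) := (Fin i → V t) × (Fin j → V t)

namespace Loc

variable {H A : Type*} {n t : ℕ} (S : Loc H A n t)

/-- exchange rows and columns -/
def swap : Loc H A n t := ⟨S.m, S.C, S.R, fun h r r' => S.Q h r' r⟩

/-- row sibling with coins `ξ` -/
def row (h : H) (ξ : V t) : V n := ∑ r, ξ r • S.R h r

/-- column sibling with coins `η` -/
def col (h : H) (η : V t) : V n := ∑ r, η r • S.C h r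

/-- corner bit of a row sibling and a column sibling -/
def cor (h : H) (ξ η : V t) : ZMod 2 := ∑ r, ∑ r', ξ r * η r' * S.Q h r r'

/-- row space -/
def TR (h : H) : Submodule (ZMod 2) (V n) := Submodule.span (ZMod 2) (Set.range (S.R h))

/-- column space -/
def TC (h : H) : Submodule (ZMod 2) (V n) := Submodule.span (ZMod 2) (Set.range (S.C h))

/-- double broom, without the corner bits -/
def dat (i j : ℕ) (p : H × Co t i j) : A × (Fin i → V n) × (Fin j → V n) :=
  (S.m p.1, fun a => S.row p.1 (p.2.1 a), fun b => S.col p.1 (p.2.2 b))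

/-- extended double broom, with the corner bits -/
def edat (i j : ℕ) (p : H × Co t i j) :
    (A × (Fin i → V n) × (Fin j → V n)) × (Fin i → Fin j → ZMod 2) :=
  (S.dat i j p, fun a b => S.cor p.1 (p.2.1 a) (p.2.2 b))

variable [Fintype H] [Fintype A]

/-- entropy of the double broom -/
noncomputable def U (w : H → ℝ) (i j : ℕ) : ℝ := K0 (pw w (Co t i j)) (S.dat i j)

/-- entropy of the extended double broom -/
noncomputable def E (w : H → ℝ) (i j : ℕ) : ℝ := K0 (pw w (Co t i j)) (S.edat i j)

/-- (SC) every set of histories is sparse, also as seen by the extended brooms with `i + j ≤ I` -/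
def SC (w : H → ℝ) (M : ℝ) (I : ℕ) : Prop := ∀ (G : Set H) (i j : ℕ), i + j ≤ I →
  S.E (ind G w) i j ≤ tot (ind G w) * (M + Real.log (1 / tot (ind G w)))

end Loc

end Pool.Agent.NJ
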