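import Pool.Agent.NJ.Rg31
import Pool.Agent.NJ.T1s59

/-!
S19271, extended walks: a broom (row siblings, column siblings, corner bits) of a window is seen less
than a true larger window, under any weight.

* `K0_hom`: data processing for surjective homomorphisms.
* `mass_coin`, `mass_cw`: siblings from coins.
* `sub_le`: a sub-window is seen less than the window.
* `row_walk`: row siblings against true rows.
* `col_walk`: extended column siblings against true columns, extended to the row siblings.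
* `broom_le`: both.
-/

set_option autoImplicit false

namespace Pool.Agent.CutSeq.NJ

open Finset Pool.Agent.NJ

section Abs

variable {Ω C : Type*} [Fintype Ω]

/-- data processing for surjective homomorphisms -/
theorem K0_hom {G G' : Type*} [AddCommGroup G] [AddCommGroup G'] [Fintype G] [Fintype G']
    (w : Ω → ℝ) (hw : ∀ ω, 0 ≤ w ω) (f : G' →+ G) (hf : Function.Surjective f) (X : Ω → G') :
    K0 w (fun ω => f (X ω)) ≤ K0 w X :=
  KK_map w hw X (fun _ => ()) f (hom_bal f hf)

/-- siblings with uniform coins -/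
theorem mass_coin (w : Ω → ℝ) {P n : ℕ} (Λ : Ω → V P →ₗ[ZMod 2] V n) (s : ℕ)
    (F : Ω → (Fin s → V n) → C) (c : C) :
    mass (pw w (Fin s → V P)) (fun p => F p.1 (fun l => Λ p.1 (p.2 l))) c =
      mass (sib w (fun ω => LinearMap.range (Λ ω)) s) (fun p => F p.1 p.2) c := by
  classical
  unfold mass
  have h1 : ∑ p : Ω × (Fin s → V P),
      (if F p.1 (fun l => Λ p.1 (p.2 l)) = c then pw w (Fin s → V P) p else 0) =
      ∑ p : Ω × (Fin s → V P), pw w (Fin s → V P) p *
        (if F p.1 (fun l => Λ p.1 (p.2 l)) = c then (1 : ℝ) else 0) := by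
    refine Finset.sum_congr rfl fun p _ => ?_
    split_ifs <;> ring
  rw [h1]
  refine (sum_pw w (fun (ω : Ω) (x : Fin s → V P) =>
    if F ω (fun l => Λ ω (x l)) = c then (1 : ℝ) else 0)).trans ?_
  rw [Fintype.sum_prod_type]
  refine Finset.sum_congr rfl fun ω _ => ?_
  rw [sum_coins (Λ ω) s (fun y => if F ω y = c then (1 : ℝ) else 0), Finset.mul_sum]
  refine Finset.sum_congr rfl fun y _ => ?_
  simp only [sib]
  split_ifs <;> ring

/-- rows coins and column coins, one after the other -/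
theorem mass_cw (w : Ω → ℝ) (P Q : ℕ) (I J : Type*) [Fintype I] [Fintype J] [DecidableEq I]
    [DecidableEq J] (F : Ω → (I → V P) → (J → V Q) → C) (c : C) :
    mass (cw w P Q I J) (fun p => F p.1 p.2.1 p.2.2) c =
      mass (pw (pw w (I → V P)) (J → V Q)) (fun p => F p.1.1 p.1.2 p.2) c := by
  classical
  unfold mass
  rw [← Equiv.sum_comp (Equiv.prodAssoc Ω (I → V P) (J → V Q))]
  refine Finset.sum_congr rfl fun p _ => ?_
  simp only [Equiv.prodAssoc_apply, pw]
  rw [Fintype.card_prod]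
  push_cast
  rw [div_div]

theorem K0_coin {A : Type*} [Fintype A] (w : Ω → ℝ) {P n : ℕ} (Λ : Ω → V P →ₗ[ZMod 2] V n) (s : ℕ)
    (F : Ω → (Fin s → V n) → A) :
    K0 (pw w (Fin s → V P)) (fun p => F p.1 (fun l => Λ p.1 (p.2 l))) =
      K0 (sib w (fun ω => LinearMap.range (Λ ω)) s) (fun p => F p.1 p.2) := by
  refine KK_law _ _ _ _ _ _ fun a b => ?_
  exact mass_coin w Λ s (fun ω y => (F ω y, ())) (a, b)

theorem K0_cw {A : Type*} [Fintype A] (w : Ω → ℝ) (P Q : ℕ) (I J : Type*) [Fintype I] [Fintype J]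
    [DecidableEq I] [DecidableEq J] (F : Ω → (I → V P) → (J → V Q) → A) :
    K0 (cw w P Q I J) (fun p => F p.1 p.2.1 p.2.2) =
      K0 (pw (pw w (I → V P)) (J → V Q)) (fun p => F p.1.1 p.1.2 p.2) := by
  refine KK_law _ _ _ _ _ _ fun a b => ?_
  exact mass_cw w P Q I J (fun ω x y => (F ω x y, ())) (a, b)

lemma log_card_Un_le31 (n : ℕ) : Real.log (Fintype.card (Un n)) ≤ (n : ℝ) * (n * Real.log 2) := by
  have h1 : Fintype.card (Un n) ≤ 2 ^ (n * n) := by
    have h2 : Fintype.card (Un n) = ∏ k : Fin n, Fintype.card (V k.val) := Fintype.card_pi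
    rw [h2]
    calc ∏ k : Fin n, Fintype.card (V k.val) ≤ ∏ _k : Fin n, 2 ^ n := by
          refine Finset.prod_le_prod' fun k _ => ?_
          have h3 : Fintype.card (V k.val) = 2 ^ k.val := by
            rw [Fintype.card_fun, ZMod.card, Fintype.card_fin]
          rw [h3]
          exact Nat.pow_le_pow_right (by norm_num) k.isLt.le
      _ = 2 ^ (n * n) := by
          rw [Finset.prod_const, Finset.card_univ, Fintype.card_fin, ← pow_mul]
  have h2 : (Fintype.card (Un n) : ℝ) ≤ 2 ^ (n * n) := by exact_mod_cast h1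
  have h0 : (0 : ℝ) < Fintype.card (Un n) := by
    have : 0 < Fintype.card (Un n) := Fintype.card_pos_iff.mpr ⟨0⟩
    exact_mod_cast this
  refine (Real.log_le_log h0 h2).trans (le_of_eq ?_)
  rw [Real.log_pow]
  push_cast
  ring

end Abs

/-! #### sub-windows -/

/-- restriction to a sub-window -/
def subU31 {n1 : ℕ} (d n : ℕ) (h : d + n ≤ n1) : Un n1 →+ Un n where
  toFun := fun x k j => x ⟨d + k.val, by have := k.isLt; omega⟩ ⟨d + j.val, by
    have := j.isLt
    simp only
    omega⟩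
  map_zero' := rfl
  map_add' := fun _ _ => rfl

theorem subU_surj31 {n1 : ℕ} (d n : ℕ) (h : d + n ≤ n1) :
    Function.Surjective (subU31 d n h : Un n1 →+ Un n) := by
  intro y
  refine ⟨fun k j => if hk : d ≤ j.val ∧ k.val < d + n then
    y ⟨k.val - d, by have := j.isLt; omega⟩ ⟨j.val - d, by
      have := j.isLt
      simp only
      omega⟩ else 0, ?_⟩
  funext k j
  have hk := k.isLt
  have hj := j.isLt
  show (if hk : d ≤ d + j.val ∧ d + k.val < d + n then _ else 0) = _
  rw [dif_pos (by omega)]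
  have e1 : (⟨d + k.val - d, by omega⟩ : Fin n) = k := Fin.ext (by simp)
  have : ∀ (k' : Fin n) (hk' : k' = k) (j' : Fin k'.val), j'.val = j.val → y k' j' = y k j := by
    intro k' hk' j' hj'
    subst hk'
    rw [Fin.ext hj']
  exact this _ e1 _ (by simp)

theorem subU_wm31 (α : Seq) (L c n1 d n : ℕ) (h : d + n ≤ n1) :
    subU31 d n h (wm α L c n1) = wm α L (c + d) n := by
  funext k j
  show Mst α L (c + (d + k.val)) (c + (d + j.val)) = Mst α L (c + d + k.val) (c + d + j.val)
  rw [Nat.add_assoc, Nat.add_assoc]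

section Win

variable {Ω : Type*} [Fintype Ω] {L : ℕ}

/-- a sub-window is seen less than the window -/
theorem sub_le (w : Ω → ℝ) (hw : ∀ ω, 0 ≤ w ω) (α : Ω → Seq) (c n1 d n : ℕ) (h : d + n ≤ n1) :
    K0 w (fun ω => wm (α ω) L (c + d) n) ≤ K0 w (fun ω => wm (α ω) L c n1) := by
  have h1 := K0_hom w hw (subU31 d n h) (subU_surj31 d n h) (fun ω => wm (α ω) L c n1)
  simp only [subU_wm31] at h1
  exact h1

/-! #### rows -/

/-- a window and further rows from a larger window -/
def rowU (n I : ℕ) : Un (n + I) →+ Un n × (Fin I → V n) where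
  toFun := fun x => (fun k j => x ⟨k.val, by have := k.isLt; omega⟩ j,
    fun l j => x ⟨n + l.val, by have := l.isLt; omega⟩ ⟨j.val, by
      have := j.isLt
      simp only
      omega⟩)
  map_zero' := rfl
  map_add' := fun _ _ => rfl

theorem rowU_surj (n I : ℕ) : Function.Surjective (rowU n I) := by
  rintro ⟨y, z⟩
  refine ⟨fun k j => if hk : k.val < n then y ⟨k.val, hk⟩ j
    else if hj : j.val < n then z ⟨k.val - n, by have := k.isLt; omega⟩ ⟨j.val, hj⟩ else 0, ?_⟩
  refine Prod.ext ?_ ?_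
  · funext k j
    show (if hk : k.val < n then y ⟨k.val, hk⟩ j else _) = _
    rw [dif_pos k.isLt]
  · funext l j
    show (if hk : n + l.val < n then _ else if hj : j.val < n then
      z ⟨n + l.val - n, _⟩ ⟨j.val, hj⟩ else 0) = _
    rw [dif_neg (by omega), dif_pos j.isLt]
    have e1 : (⟨n + l.val - n, by have := l.isLt; omega⟩ : Fin I) = l := Fin.ext (by simp)
    rw [e1]

theorem rowU_wm (α : Seq) (b n I : ℕ) :
    rowU n I (wm α L b (n + I)) = (wm α L b n, fun l => rowW α L b n (b + n + l.val)) := by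
  refine Prod.ext rfl ?_
  funext l j
  show Mst α L (b + (n + l.val)) (b + j.val) = Mst α L (b + n + l.val) (b + j.val)
  rw [Nat.add_assoc]

/-- row siblings are seen less than true rows -/
theorem row_walk (w : Ω → ℝ) (hw : ∀ ω, 0 ≤ w ω) (α : Ω → Seq) (b n i m : ℕ) (hm : 1 ≤ m) :
    K0 (sib w (fun ω => TR (α ω) L b n) i) (fun p => (wm (α p.1) L b n, p.2))
      ≤ K0 w (fun ω => wm (α ω) L b (n + (i + m)))
        + tot w * (Real.log (Fintype.card (Un n)) + (2 * i + m) * (n * Real.log 2))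
          * Real.exp (-((m : ℝ) ^ 2 / (16 * (i + m)))) := by
  have h1 := brm_walk w hw (fun ω => TR (α ω) L b n) (fun ω => wm (α ω) L b n)
    (fun l ω => rowW (α ω) L b n (b + n + l)) (fun l ω _ => rowW_mem (α ω) b n (b + n + l) (by omega))
    i m hm
  have h2 := K0_hom w hw (rowU n (i + m)) (rowU_surj n (i + m)) (fun ω => wm (α ω) L b (n + (i + m)))
  simp only [rowU_wm] at h2
  linarith

/-! #### columns -/

/-- a window with row siblings and the columns before it, from the larger window -/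
def colF (J n i : ℕ) (x : Un (J + n) × (Fin i → V (J + n))) :
    (Un n × (Fin i → V n)) × (Fin J → V (n + i)) :=
  ((fun k j => x.1 ⟨J + k.val, by have := k.isLt; omega⟩ ⟨J + j.val, by
      have := j.isLt
      simp only
      omega⟩, fun l j => x.2 l ⟨J + j.val, by have := j.isLt; omega⟩),
    fun c => Fin.append (fun k : Fin n => x.1 ⟨J + k.val, by have := k.isLt; omega⟩
      ⟨J - 1 - c.val, by have := c.isLt; simp only; omega⟩)
      (fun l : Fin i => x.2 l ⟨J - 1 - c.val, by have := c.isLt; omega⟩))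

theorem colF_l (J n i : ℕ) (x : Un (J + n) × (Fin i → V (J + n))) (c : Fin J) (k : Fin n) :
    (colF J n i x).2 c (Fin.castAdd i k) = x.1 ⟨J + k.val, by have := k.isLt; omega⟩
      ⟨J - 1 - c.val, by have := c.isLt; simp only; omega⟩ := by
  unfold colF
  simp only [Fin.append_left]

theorem colF_r (J n i : ℕ) (x : Un (J + n) × (Fin i → V (J + n))) (c : Fin J) (l : Fin i) :
    (colF J n i x).2 c (Fin.natAdd n l) = x.2 l ⟨J - 1 - c.val, by have := c.isLt; omega⟩ := by
  unfold colF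
  simp only [Fin.append_right]

/-- `colF` as a homomorphism -/
def colU (J n i : ℕ) : Un (J + n) × (Fin i → V (J + n)) →+
    (Un n × (Fin i → V n)) × (Fin J → V (n + i)) where
  toFun := colF J n i
  map_zero' := by
    refine Prod.ext rfl ?_
    funext c t
    refine Fin.addCases (fun k => ?_) (fun l => ?_) t
    · rw [colF_l]
      rfl
    · rw [colF_r]
      rfl
  map_add' := by
    intro x y
    refine Prod.ext rfl ?_
    funext c t
    rw [Prod.snd_add, Pi.add_apply, Pi.add_apply]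
    refine Fin.addCases (fun k => ?_) (fun l => ?_) t
    · rw [colF_l, colF_l, colF_l]
      rfl
    · rw [colF_r, colF_r, colF_r]
      rfl

theorem colU_apply (J n i : ℕ) (x : Un (J + n) × (Fin i → V (J + n))) :
    colU J n i x = colF J n i x := rfl

theorem colU_surj (J n i : ℕ) : Function.Surjective (colU J n i) := by
  rintro ⟨⟨y, z⟩, u⟩
  refine ⟨(fun k j => if hk : J ≤ k.val then (if hj : J ≤ j.val then
      y ⟨k.val - J, by have := k.isLt; omega⟩ ⟨j.val - J, by have := j.isLt; simp only; omega⟩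
    else u ⟨J - 1 - j.val, by omega⟩ (Fin.castAdd i ⟨k.val - J, by have := k.isLt; omega⟩)) else 0,
    fun l j => if hj : J ≤ j.val then z l ⟨j.val - J, by have := j.isLt; omega⟩
      else u ⟨J - 1 - j.val, by omega⟩ (Fin.natAdd n l)), ?_⟩
  rw [colU_apply]
  refine Prod.ext (Prod.ext ?_ ?_) ?_
  · funext k j
    have hk := k.isLt
    have hj := j.isLt
    show (if hk : J ≤ J + k.val then (if hj : J ≤ J + j.val then
      y ⟨J + k.val - J, _⟩ ⟨J + j.val - J, _⟩ else _) else _) = _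
    rw [dif_pos (by omega), dif_pos (by omega)]
    have e1 : (⟨J + k.val - J, by omega⟩ : Fin n) = k := Fin.ext (by simp)
    have : ∀ (k' : Fin n) (hk' : k' = k) (j' : Fin k'.val), j'.val = j.val → y k' j' = y k j := by
      intro k' hk' j' hj'
      subst hk'
      rw [Fin.ext hj']
    exact this _ e1 _ (by simp)
  · funext l j
    show (if hj : J ≤ J + j.val then z l ⟨J + j.val - J, _⟩ else _) = _
    rw [dif_pos (by omega)]
    have e1 : (⟨J + j.val - J, by have := j.isLt; omega⟩ : Fin n) = j := Fin.ext (by simp)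
    rw [e1]
  · funext c t
    have hc := c.isLt
    have e2 : (⟨J - 1 - (J - 1 - c.val), by omega⟩ : Fin J) = c := Fin.ext (by simp only; omega)
    refine Fin.addCases (fun k => ?_) (fun l => ?_) t
    · rw [colF_l]
      show (if hk : J ≤ J + k.val then (if hj : J ≤ J - 1 - c.val then _ else
        u ⟨J - 1 - (J - 1 - c.val), _⟩ (Fin.castAdd i ⟨J + k.val - J, _⟩)) else _) = _
      rw [dif_pos (by omega), dif_neg (by omega), e2]
      have e1 : (⟨J + k.val - J, by have := k.isLt; omega⟩ : Fin n) = k := Fin.ext (by simp)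
      rw [e1]
    · rw [colF_r]
      show (if hj : J ≤ J - 1 - c.val then _ else
        u ⟨J - 1 - (J - 1 - c.val), _⟩ (Fin.natAdd n l)) = _
      rw [dif_neg (by omega), e2]

theorem colU_wm (α : Seq) (b J n : ℕ) {i : ℕ} (ξ : Fin i → Fin L → ZMod 2) :
    colU J n i (wm α L b (J + n), fun l => Xc α L b (J + n) (ξ l)) =
      ((wm α L (b + J) n, fun l => Xc α L (b + J) n (ξ l)),
        fun c : Fin J => colE α L (b + J) n ξ (b + J - 1 - c.val)) := by
  rw [colU_apply]
  refine Prod.ext (Prod.ext ?_ ?_) ?_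
  · funext k j
    show Mst α L (b + (J + k.val)) (b + (J + j.val)) = Mst α L (b + J + k.val) (b + J + j.val)
    rw [Nat.add_assoc, Nat.add_assoc]
  · funext l j
    show Xl α L (b + (J + n)) (ξ l) (b + (J + j.val)) = Xl α L (b + J + n) (ξ l) (b + J + j.val)
    rw [Nat.add_assoc, Nat.add_assoc]
  · funext c t
    have hc := c.isLt
    have e : b + (J - 1 - c.val) = b + J - 1 - c.val := by omega
    refine Fin.addCases (fun k => ?_) (fun l => ?_) t
    · rw [colF_l]
      show _ = Fin.append (colW α L (b + J) n (b + J - 1 - c.val))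
        (fun l => Xl α L (b + J + n) (ξ l) (b + J - 1 - c.val)) (Fin.castAdd i k)
      rw [Fin.append_left]
      show Mst α L (b + (J + k.val)) (b + (J - 1 - c.val)) = Mst α L (b + J + k.val) (b + J - 1 - c.val)
      rw [Nat.add_assoc b J k.val, e]
    · rw [colF_r]
      show _ = Fin.append (colW α L (b + J) n (b + J - 1 - c.val))
        (fun l => Xl α L (b + J + n) (ξ l) (b + J - 1 - c.val)) (Fin.natAdd n l)
      rw [Fin.append_right]
      show Xl α L (b + (J + n)) (ξ l) (b + (J - 1 - c.val)) =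
        Xl α L (b + J + n) (ξ l) (b + J - 1 - c.val)
      rw [e, Nat.add_assoc b J n]

/-- extended column siblings are seen less than true columns -/
theorem col_walk (w : Ω → ℝ) (hw : ∀ ω, 0 ≤ w ω) (α : Ω → Seq) (b n i j m : ℕ) (hn : 1 ≤ n)
    (hm : 1 ≤ m) (ξ : Ω → Fin i → Fin L → ZMod 2) :
    K0 (sib w (fun ω => TCE (α ω) L (b + (j + m)) n (ξ ω)) j)
        (fun p => ((wm (α p.1) L (b + (j + m)) n, fun l => Xc (α p.1) L (b + (j + m)) n (ξ p.1 l)),
          p.2))
      ≤ K0 w (fun ω => (wm (α ω) L b (j + m + n), fun l => Xc (α ω) L b (j + m + n) (ξ ω l)))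
        + tot w * (Real.log (Fintype.card (Un n × (Fin i → V n)))
          + (2 * j + m) * ((n + i : ℕ) * Real.log 2))
          * Real.exp (-((m : ℝ) ^ 2 / (16 * (j + m)))) := by
  have h1 := brm_walk w hw (fun ω => TCE (α ω) L (b + (j + m)) n (ξ ω))
    (fun ω => (wm (α ω) L (b + (j + m)) n, fun l => Xc (α ω) L (b + (j + m)) n (ξ ω l)))
    (fun l ω => colE (α ω) L (b + (j + m)) n (ξ ω) (b + (j + m) - 1 - l))
    (fun l ω _ => colE_mem (α ω) (b + (j + m)) n _ hn (by omega) (ξ ω)) j m hm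
  have h2 := K0_hom w hw (colU (j + m) n i) (colU_surj (j + m) n i)
    (fun ω => (wm (α ω) L b (j + m + n), fun l => Xc (α ω) L b (j + m + n) (ξ ω l)))
  simp only [colU_wm] at h2
  linarith

/-! #### brooms -/

/-- the broom as a window with row siblings and extended columns -/
def bmE (A0 : Type*) (n i j : ℕ) : BT A0 n n (Fin i) (Fin j) ≃
    (A0 × (Fin i → V n)) × (Fin j → V (n + i)) where
  toFun := fun β => ((β.1, β.2.1), fun b => Fin.append (β.2.2.1 b) (fun l => β.2.2.2 l b))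
  invFun := fun γ => (γ.1.1, γ.1.2, (fun b k => γ.2 b (Fin.castAdd i k)),
    fun l b => γ.2 b (Fin.natAdd n l))
  left_inv := by
    rintro ⟨m, x, y, c⟩
    refine Prod.ext rfl (Prod.ext rfl (Prod.ext ?_ ?_))
    · funext b k
      exact Fin.append_left (y b) (fun l => c l b) k
    · funext l b
      exact Fin.append_right (y b) (fun l => c l b) l
  right_inv := by
    rintro ⟨⟨m, x⟩, u⟩
    refine Prod.ext rfl ?_
    funext b t
    refine Fin.addCases (fun k => ?_) (fun l => ?_) t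
    · exact Fin.append_left (fun k => u b (Fin.castAdd i k)) (fun l => u b (Fin.natAdd n l)) k
    · exact Fin.append_right (fun k => u b (Fin.castAdd i k)) (fun l => u b (Fin.natAdd n l)) l

theorem bmE_obs {B : ℕ} (a n i j : ℕ) (ω : Wd B L) (ξ : Fin i → V L) (η : Fin j → V L) :
    bmE (Un n) n i j (obs (rg B L a n) ω ξ η) =
      ((wm (ext ω) L a n, fun l => Xc (ext ω) L a n (ξ l)),
        fun b => coinL (ext ω) L a (extC (ext ω) L a n ξ) (η b)) := by
  rw [obs_rg]
  refine Prod.ext rfl ?_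
  funext b
  exact (extC_coins (ext ω) a n ξ (η b)).symm

/-- column siblings with coins as fresh extended column siblings -/
theorem K0_broom_eq {B : ℕ} (w : Ω → ℝ) (hw : ∀ ω, 0 ≤ w ω) (α : Ω → Wd B L) (a n i j : ℕ) :
    K0 (cw w L L (Fin i) (Fin j)) (fun p => obs (rg B L a n) (α p.1) p.2.1 p.2.2) =
      K0 (sib (pw w (Fin i → V L)) (fun q => TCE (ext (α q.1)) L a n q.2) j)
        (fun p => ((wm (ext (α p.1.1)) L a n, fun l => Xc (ext (α p.1.1)) L a n (p.1.2 l)),
          p.2)) := by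
  have h1 := K0_cw w L L (Fin i) (Fin j) (fun ω ξ η => obs (rg B L a n) (α ω) ξ η)
  have hw1 : ∀ q, 0 ≤ pw w (Fin i → V L) q := pw_nonneg w hw
  have h2 := K0_bij (pw (pw w (Fin i → V L)) (Fin j → V L)) (pw_nonneg _ hw1)
    (fun p => obs (rg B L a n) (α p.1.1) p.1.2 p.2)
    (fun p => ((wm (ext (α p.1.1)) L a n, fun l => Xc (ext (α p.1.1)) L a n (p.1.2 l)),
      fun b => coinL (ext (α p.1.1)) L a (extC (ext (α p.1.1)) L a n p.1.2) (p.2 b)))
    (bmE (Un n) n i j) (fun p _ => (bmE_obs a n i j (α p.1.1) p.1.2 p.2).symm)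
  have h3 := K0_coin (pw w (Fin i → V L))
    (fun q : Ω × (Fin i → V L) => coinL (ext (α q.1)) L a (extC (ext (α q.1)) L a n q.2)) j
    (fun q y => (((wm (ext (α q.1)) L a n, fun l => Xc (ext (α q.1)) L a n (q.2 l)) :
      Un n × (Fin i → V n)), y))
  simp only [← TCE_eq_range] at h3
  rw [h1, ← h2, h3]

/-- row siblings with coins as fresh row siblings -/
theorem K0_rows_eq {B : ℕ} (w : Ω → ℝ) (α : Ω → Wd B L) (a n i : ℕ) :
    K0 (pw w (Fin i → V L))
        (fun q => (wm (ext (α q.1)) L a n, fun l => Xc (ext (α q.1)) L a n (q.2 l))) =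
      K0 (sib w (fun ω => TR (ext (α ω)) L a n) i) (fun p => (wm (ext (α p.1)) L a n, p.2)) := by
  have h3 := K0_coin w
    (fun ω : Ω => coinL (ext (α ω)) L (a + n) (fun i => lowW (ext (α ω)) i a n)) i
    (fun ω y => ((wm (ext (α ω)) L a n, y) : Un n × (Fin i → V n)))
  simp only [← TR_eq_range, ← Xc_eq] at h3
  exact h3

lemma walk_num (X Y Z N x : ℝ) (t : ℝ) (ht : 0 ≤ t) (hX0 : 0 ≤ X) (hX : X ≤ N) (hY0 : 0 ≤ Y)
    (hY : Y ≤ 2 * N) (hZ0 : 0 < Z) (hZ : Z ≤ N) :
    t * (X * (Y * Real.log 2)) * Real.exp (-(x ^ 2 / (16 * Z))) ≤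
      t * (2 * N ^ 2) * Real.exp (-(x ^ 2 / (16 * N))) := by
  have hN : 0 < N := hZ0.trans_le hZ
  have h2 : Real.log 2 ≤ 1 := by
    have := Real.log_two_lt_d9
    linarith
  have h20 : 0 ≤ Real.log 2 := Real.log_nonneg (by norm_num)
  have h3 : X * (Y * Real.log 2) ≤ 2 * N ^ 2 := by
    have a1 : Y * Real.log 2 ≤ 2 * N * 1 := mul_le_mul hY h2 h20 (by linarith)
    have a2 : X * (Y * Real.log 2) ≤ N * (2 * N * 1) :=
      mul_le_mul hX a1 (mul_nonneg hY0 h20) hN.le
    nlinarith
  have h4 : Real.exp (-(x ^ 2 / (16 * Z))) ≤ Real.exp (-(x ^ 2 / (16 * N))) := by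
    refine Real.exp_le_exp.2 (neg_le_neg ?_)
    exact div_le_div_of_nonneg_left (sq_nonneg x) (by positivity) (by linarith)
  refine mul_le_mul (mul_le_mul_of_nonneg_left h3 ht) h4 (Real.exp_nonneg _) (by positivity)

/-- brooms against true windows, window starting at the lowest column used -/
theorem broom_le_aux {B : ℕ} (w : Ω → ℝ) (hw : ∀ ω, 0 ≤ w ω) (α : Ω → Wd B L) (b n i j m : ℕ)
    (hn : 1 ≤ n) (hm : 1 ≤ m) (N : ℝ) (hN : ((j + m + n + (i + m) : ℕ) : ℝ) ≤ N) :
    K0 (cw w L L (Fin i) (Fin j)) (fun p => obs (rg B L (b + (j + m)) n) (α p.1) p.2.1 p.2.2)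
      ≤ K0 w (fun ω => wm (ext (α ω)) L b (j + m + n + (i + m)))
        + tot w * (4 * N ^ 2) * Real.exp (-((m : ℝ) ^ 2 / (16 * N))) := by
  have hw1 : ∀ q, 0 ≤ pw w (Fin i → V L) q := pw_nonneg w hw
  have h1 := col_walk (pw w (Fin i → V L)) hw1 (fun q => ext (α q.1)) b n i j m hn hm
    (fun q => q.2) (L := L)
  have h2 := row_walk w hw (fun ω => ext (α ω)) b (j + m + n) i m hm (L := L)
  rw [K0_broom_eq w hw α (b + (j + m)) n i j]
  have h3 := K0_rows_eq w α b (j + m + n) i
  rw [tot_pw] at h1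
  have ht := tot_nonneg w hw
  have hl2 : 0 ≤ Real.log 2 := Real.log_nonneg (by norm_num)
  push_cast at hN
  have n0 : (0 : ℝ) ≤ n := Nat.cast_nonneg n
  have i0 : (0 : ℝ) ≤ i := Nat.cast_nonneg i
  have j0 : (0 : ℝ) ≤ j := Nat.cast_nonneg j
  have m0 : (1 : ℝ) ≤ m := by exact_mod_cast hm
  have e1 : tot w * (Real.log (Fintype.card (Un n × (Fin i → V n)))
          + (2 * j + m) * ((n + i : ℕ) * Real.log 2)) * Real.exp (-((m : ℝ) ^ 2 / (16 * (j + m))))
      ≤ tot w * (2 * N ^ 2) * Real.exp (-((m : ℝ) ^ 2 / (16 * N))) := by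
    have c1 : Real.log (Fintype.card (Un n × (Fin i → V n))) ≤
        (n : ℝ) * (n * Real.log 2) + i * (n * Real.log 2) := by
      rw [Fintype.card_prod]
      push_cast
      have p1 : (Fintype.card (Un n) : ℝ) ≠ 0 := by
        have : 0 < Fintype.card (Un n) := Fintype.card_pos_iff.mpr ⟨0⟩
        exact_mod_cast this.ne'
      have p2 : (Fintype.card (Fin i → V n) : ℝ) ≠ 0 := by
        exact_mod_cast Fintype.card_ne_zero
      rw [Real.log_mul p1 p2, log_card_sib]
      have := log_card_Un_le31 n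
      linarith
    have c2 : Real.log (Fintype.card (Un n × (Fin i → V n)))
          + (2 * j + m) * ((n + i : ℕ) * Real.log 2) ≤
        ((n : ℝ) + i) * ((n + 2 * j + m) * Real.log 2) := by
      push_cast
      nlinarith
    refine (mul_le_mul_of_nonneg_right (mul_le_mul_of_nonneg_left c2 ht) (Real.exp_nonneg _)).trans ?_
    exact walk_num ((n : ℝ) + i) (n + 2 * j + m) (j + m) N m (tot w) ht (by linarith)
      (by linarith) (by linarith) (by linarith) (by linarith) (by linarith)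
  have e2 : tot w * (Real.log (Fintype.card (Un (j + m + n)))
          + (2 * i + m) * ((j + m + n : ℕ) * Real.log 2)) *
            Real.exp (-((m : ℝ) ^ 2 / (16 * (i + m))))
      ≤ tot w * (2 * N ^ 2) * Real.exp (-((m : ℝ) ^ 2 / (16 * N))) := by
    have c2 : Real.log (Fintype.card (Un (j + m + n)))
          + (2 * i + m) * ((j + m + n : ℕ) * Real.log 2) ≤
        ((j : ℝ) + m + n) * ((j + m + n + 2 * i + m) * Real.log 2) := by
      have := log_card_Un_le31 (j + m + n)
      push_cast at this ⊢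
      nlinarith
    refine (mul_le_mul_of_nonneg_right (mul_le_mul_of_nonneg_left c2 ht) (Real.exp_nonneg _)).trans ?_
    exact walk_num ((j : ℝ) + m + n) (j + m + n + 2 * i + m) (i + m) N m (tot w) ht (by linarith)
      (by linarith) (by linarith) (by linarith) (by linarith) (by linarith)
  have e3 : tot w * (4 * N ^ 2) * Real.exp (-((m : ℝ) ^ 2 / (16 * N))) =
      tot w * (2 * N ^ 2) * Real.exp (-((m : ℝ) ^ 2 / (16 * N))) +
        tot w * (2 * N ^ 2) * Real.exp (-((m : ℝ) ^ 2 / (16 * N))) := by ring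
  rw [e3]
  linarith

/-- **(D2)** a broom of the window `[c + d, c + d + n)` is seen less than the true window
`[c, c + n1)` -/
theorem broom_le {B : ℕ} (w : Ω → ℝ) (hw : ∀ ω, 0 ≤ w ω) (α : Ω → Wd B L)
    (c d n n1 i j x : ℕ) (hn : 1 ≤ n) (hx : 1 ≤ x) (h1 : j + x ≤ d) (h2 : d + n + i + x ≤ n1) :
    K0 (cw w L L (Fin i) (Fin j)) (fun p => obs (rg B L (c + d) n) (α p.1) p.2.1 p.2.2)
      ≤ K0 w (fun ω => wm (ext (α ω)) L c n1)
        + tot w * (4 * (n1 : ℝ) ^ 2) * Real.exp (-((x : ℝ) ^ 2 / (16 * n1))) := by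
  have hN : ((j + x + n + (i + x) : ℕ) : ℝ) ≤ (n1 : ℝ) := by
    exact_mod_cast (by omega : j + x + n + (i + x) ≤ n1)
  have h3 := broom_le_aux w hw α (c + (d - (j + x))) n i j x hn hx n1 hN
  have h4 := sub_le w hw (fun ω => ext (α ω)) c n1 (d - (j + x)) (j + x + n + (i + x)) (by omega)
    (L := L)
  rw [show c + (d - (j + x)) + (j + x) = c + d by omega] at h3
  linarith

/-- (D2) for standard windows of rotated words -/
theorem broom_le_rot {B : ℕ} (w : Ω → ℝ) (hw : ∀ ω, 0 ≤ w ω) (α : Ω → Wd B L)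
    (c d n n1 i j x : ℕ) (hn : 1 ≤ n) (hx : 1 ≤ x) (h1 : j + x ≤ d) (h2 : d + n + i + x ≤ n1)
    (hB : 1 + n1 ≤ B) :
    K0 (cw w L L (Fin i) (Fin j))
        (fun p => obs (rg B L 1 n) (rot B L (c + d) (α p.1)) p.2.1 p.2.2)
      ≤ K0 w (fun ω => wm (ext (rot B L c (α ω))) L 1 n1)
        + tot w * (4 * (n1 : ℝ) ^ 2) * Real.exp (-((x : ℝ) ^ 2 / (16 * n1))) := by
  have h3 := broom_le w hw (fun ω => rot B L c (α ω)) 1 d n n1 i j x hn hx h1 h2
  have e : ∀ p : Ω × ((Fin i → V L) × (Fin j → V L)),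
      obs (rg B L 1 n) (rot B L (c + d) (α p.1)) p.2.1 p.2.2 =
        obs (rg B L (1 + d) n) (rot B L c (α p.1)) p.2.1 p.2.2 := by
    intro p
    rw [Nat.add_comm c d, rot_add, obs_rot d 1 n le_rfl hn (by omega)]
  simp only [e]
  exact h3

/-! #### brooms without corner bits -/

theorem mass_sib2 {C : Type*} (w : Ω → ℝ) {P Q n : ℕ} (Λ : Ω → V P →ₗ[ZMod 2] V n)
    (Λ' : Ω → V Q →ₗ[ZMod 2] V n) (i j : ℕ) (F : Ω → (Fin i → V n) → (Fin j → V n) → C) (c : C) :
    mass (cw w P Q (Fin i) (Fin j))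
        (fun p => F p.1 (fun l => Λ p.1 (p.2.1 l)) (fun l => Λ' p.1 (p.2.2 l))) c =
      mass (sib2 w (fun ω => LinearMap.range (Λ ω)) (fun ω => LinearMap.range (Λ' ω)) i j)
        (fun p => F p.1 p.2.1 p.2.2) c := by
  classical
  unfold mass
  have h1 : ∑ p : Ω × ((Fin i → V P) × (Fin j → V Q)),
      (if F p.1 (fun l => Λ p.1 (p.2.1 l)) (fun l => Λ' p.1 (p.2.2 l)) = c then
        cw w P Q (Fin i) (Fin j) p else 0) =
      ∑ p : Ω × ((Fin i → V P) × (Fin j → V Q)), cw w P Q (Fin i) (Fin j) p *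
        (if F p.1 (fun l => Λ p.1 (p.2.1 l)) (fun l => Λ' p.1 (p.2.2 l)) = c
          then (1 : ℝ) else 0) := by
    refine Finset.sum_congr rfl fun p _ => ?_
    split_ifs <;> ring
  rw [h1]
  refine (sum_pw w (fun (ω : Ω) (x : (Fin i → V P) × (Fin j → V Q)) =>
    if F ω (fun l => Λ ω (x.1 l)) (fun l => Λ' ω (x.2 l)) = c then (1 : ℝ) else 0)).trans ?_
  rw [Fintype.sum_prod_type]
  refine Finset.sum_congr rfl fun ω _ => ?_
  rw [Fintype.sum_prod_type, Fintype.sum_prod_type, Fintype.card_prod]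
  simp only
  have h2 : ∀ x : Fin i → V P, (∑ y : Fin j → V Q,
      if F ω (fun l => Λ ω (x l)) (fun l => Λ' ω (y l)) = c then (1 : ℝ) else 0) =
      (Fintype.card (Fin j → V Q) : ℝ) * ∑ y : Fin j → V n,
        (∏ l, uT (LinearMap.range (Λ' ω)) (y l)) *
          (if F ω (fun l => Λ ω (x l)) y = c then (1 : ℝ) else 0) := by
    intro x
    have h3 := sum_coins (Λ' ω) j (fun y => if F ω (fun l => Λ ω (x l)) y = c then (1 : ℝ) else 0)
    have h4 : (Fintype.card (Fin j → V Q) : ℝ) ≠ 0 := by exact_mod_cast Fintype.card_ne_zero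
    rw [← h3]
    field_simp
  rw [Finset.sum_congr rfl fun x _ => h2 x, ← Finset.mul_sum]
  have h5 := sum_coins (Λ ω) i (fun x => ∑ y : Fin j → V n,
        (∏ l, uT (LinearMap.range (Λ' ω)) (y l)) *
          (if F ω x y = c then (1 : ℝ) else 0))
  have h4 : (Fintype.card (Fin j → V Q) : ℝ) ≠ 0 := by exact_mod_cast Fintype.card_ne_zero
  have h4' : (Fintype.card (Fin i → V P) : ℝ) ≠ 0 := by exact_mod_cast Fintype.card_ne_zero
  have h6 : (Fintype.card (Fin j → V Q) : ℝ) * (∑ x : Fin i → V P, ∑ y : Fin j → V n,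
        (∏ l, uT (LinearMap.range (Λ' ω)) (y l)) *
          (if F ω (fun l => Λ ω (x l)) y = c then (1 : ℝ) else 0)) /
        ((Fintype.card (Fin i → V P) * Fintype.card (Fin j → V Q) : ℕ) : ℝ) =
      (∑ x : Fin i → V P, ∑ y : Fin j → V n,
        (∏ l, uT (LinearMap.range (Λ' ω)) (y l)) *
          (if F ω (fun l => Λ ω (x l)) y = c then (1 : ℝ) else 0)) /
        (Fintype.card (Fin i → V P) : ℝ) := by
    push_cast
    field_simp
  rw [h6, h5, Finset.mul_sum]
  refine Finset.sum_congr rfl fun x _ => ?_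
  rw [Finset.mul_sum, Finset.mul_sum]
  refine Finset.sum_congr rfl fun y _ => ?_
  simp only [sib2]
  split_ifs <;> ring

/-- forgetting the corner bits -/
def prU (n i j : ℕ) : BT (Un n) n n (Fin i) (Fin j) →+ Un n × (Fin i → V n) × (Fin j → V n) where
  toFun := fun β => (β.1, β.2.1, β.2.2.1)
  map_zero' := rfl
  map_add' := fun _ _ => rfl

theorem prU_surj (n i j : ℕ) : Function.Surjective (prU n i j) :=
  fun γ => ⟨(γ.1, γ.2.1, γ.2.2, 0), rfl⟩

/-- the broom without corner bits is seen less than the broom -/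
theorem sib2_le_broom {B : ℕ} (w : Ω → ℝ) (hw : ∀ ω, 0 ≤ w ω) (α : Ω → Wd B L) (a n i j : ℕ) :
    K0 (sib2 w (fun ω => TR (ext (α ω)) L a n) (fun ω => TC (ext (α ω)) L a n) i j)
        (fun p => (wm (ext (α p.1)) L a n, p.2.1, p.2.2)) ≤
      K0 (cw w L L (Fin i) (Fin j)) (fun p => obs (rg B L a n) (α p.1) p.2.1 p.2.2) := by
  have h1 : K0 (cw w L L (Fin i) (Fin j)) (fun p => prU n i j
      (obs (rg B L a n) (α p.1) p.2.1 p.2.2)) =
      K0 (sib2 w (fun ω => TR (ext (α ω)) L a n) (fun ω => TC (ext (α ω)) L a n) i j)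
        (fun p => (wm (ext (α p.1)) L a n, p.2.1, p.2.2)) := by
    refine KK_law _ _ _ _ _ _ fun u v => ?_
    have h2 := mass_sib2 w (fun ω => (rg B L a n).X (α ω)) (fun ω => (rg B L a n).Y (α ω)) i j
      (fun ω x y => ((wm (ext (α ω)) L a n, x, y), ())) (u, v)
    simp only [range_rg_X, range_rg_Y] at h2
    exact h2
  rw [← h1]
  exact K0_hom _ (pw_nonneg w hw) (prU n i j) (prU_surj n i j) _

/-- (SC form) siblings of both kinds against true windows -/
theorem sib2_le {B : ℕ} (w : Ω → ℝ) (hw : ∀ ω, 0 ≤ w ω) (α : Ω → Wd B L)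
    (c d n n1 i j x : ℕ) (hn : 1 ≤ n) (hx : 1 ≤ x) (h1 : j + x ≤ d) (h2 : d + n + i + x ≤ n1) :
    K0 (sib2 w (fun ω => TR (ext (α ω)) L (c + d) n) (fun ω => TC (ext (α ω)) L (c + d) n) i j)
        (fun p => (wm (ext (α p.1)) L (c + d) n, p.2.1, p.2.2))
      ≤ K0 w (fun ω => wm (ext (α ω)) L c n1)
        + tot w * (4 * (n1 : ℝ) ^ 2) * Real.exp (-((x : ℝ) ^ 2 / (16 * n1))) :=
  (sib2_le_broom w hw α (c + d) n i j).trans (broom_le w hw α c d n n1 i j x hn hx h1 h2)

end Win

end Pool.Agent.CutSeq.NJ
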