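import Pool.Agent.NJ.WtArc19

/-!
S19271 / NJ, the weights (helper19), second part: the comparison weight for an arbitrary set of words
inside the next family (not necessarily determined by the history).
-/

set_option autoImplicit false

namespace Pool.Agent.NJ

open Finset Pool.Agent.CutSeq

variable {Ω : Type} [Fintype Ω] (W : Win Ω) (w : Ω → ℝ)

/-- the weight `g 1_{WEE K} w / P(WEE K | h_J)` -/
noncomputable def tiltf (G : W.ι → Set Ω) (κ : ℝ) (J K : W.ι) (g : Ω → ℝ) (ω : Ω) : ℝ :=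
  g ω * (ind (WEE W w G κ K) w ω / wcnd W w J (WEE W w G κ K) ω)

theorem tiltf_nonneg (hw : ∀ ω, 0 ≤ w ω) (G : W.ι → Set Ω) (κ : ℝ) (J K : W.ι) {g : Ω → ℝ}
    (hg : ∀ ω, 0 ≤ g ω) (ω : Ω) : 0 ≤ tiltf W w G κ J K g ω :=
  mul_nonneg (hg ω) (div_nonneg (ind_nonneg19 _ hw ω) (cnd_nonneg19 W w hw _ _ _))

theorem tiltf_le (hw : ∀ ω, 0 ≤ w ω) {G : W.ι → Set Ω} {adm : W.ι → Prop} {κ ε : ℝ} (hε : 0 < ε)
    {J K : W.ι} (hJK : W.le J K) (hK : adm K) {g : Ω → ℝ}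
    (hg1 : ∀ ω, g ω ≤ 1) (hgN : ∀ ω, g ω ≠ 0 → ω ∈ WNext W w G adm κ ε J) (ω : Ω) :
    tiltf W w G κ J K g ω ≤ ind (G K) w ω / ε := by
  classical
  unfold tiltf
  by_cases h : g ω = 0
  · rw [h, zero_mul]
    exact div_nonneg (ind_nonneg19 _ hw ω) hε.le
  · have hc := cnd_ge19 W w hJK hK (hgN ω h)
    have h1 : ind (WEE W w G κ K) w ω ≤ ind (G K) w ω :=
      Set.indicator_le_indicator_of_subset (fun x hx => hx.1) (fun x => hw x) ω
    have h2 : ind (WEE W w G κ K) w ω / wcnd W w J (WEE W w G κ K) ω ≤ ind (G K) w ω / ε :=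
      div_le_div₀ (ind_nonneg19 _ hw ω) h1 hε hc
    calc g ω * (ind (WEE W w G κ K) w ω / wcnd W w J (WEE W w G κ K) ω) ≤
        1 * (ind (G K) w ω / ε) := by
          refine mul_le_mul (hg1 ω) h2 ?_ zero_le_one
          exact div_nonneg (ind_nonneg19 _ hw ω) (cnd_nonneg19 W w hw _ _ _)
      _ = _ := one_mul _

open Classical in
/-- sums over the classes of the history -/
lemma sum_classes19 (J : W.ι) (f f' : Ω → ℝ)
    (h : ∀ ω₀, (∑ ω, if W.S J ω₀ ω then f ω else 0) = ∑ ω, if W.S J ω₀ ω then f' ω else 0) :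
    ∑ ω, f ω = ∑ ω, f' ω := by
  classical
  let st : Setoid Ω := ⟨W.S J, W.eqv J⟩
  have hsum : ∀ f : Ω → ℝ, ∑ ω, f ω = ∑ c : Quotient st, ∑ ω, if (⟦ω⟧ : Quotient st) = c then f ω else 0 := by
    intro f
    rw [Finset.sum_comm]
    refine Finset.sum_congr rfl fun ω _ => ?_
    simp
  rw [hsum, hsum f']
  refine Finset.sum_congr rfl fun c _ => ?_
  obtain ⟨ω₀, rfl⟩ := Quotient.exists_rep c
  have hcl : ∀ ω, ((⟦ω⟧ : Quotient st) = ⟦ω₀⟧) ↔ W.S J ω₀ ω := by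
    intro ω
    rw [Quotient.eq]
    exact ⟨fun h => (W.eqv J).symm h, fun h => (W.eqv J).symm h⟩
  have e : ∀ f : Ω → ℝ, (∑ ω, if (⟦ω⟧ : Quotient st) = ⟦ω₀⟧ then f ω else 0) =
      ∑ ω, if W.S J ω₀ ω then f ω else 0 := by
    intro f
    refine Finset.sum_congr rfl fun ω _ => ?_
    by_cases h1 : W.S J ω₀ ω
    · rw [if_pos ((hcl ω).2 h1), if_pos h1]
    · rw [if_neg (fun h2 => h1 ((hcl ω).1 h2)), if_neg h1]
  rw [e, e]
  exact h ω₀

open Classical in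
lemma sum_class_pr19 (J : W.ι) (E : Set Ω) (ω₀ : Ω) (c : ℝ) (f : Ω → ℝ)
    (hf : ∀ ω, W.S J ω₀ ω → f ω = ind E w ω * c) :
    (∑ ω, if W.S J ω₀ ω then f ω else 0) =
      pr w (E ∩ {ω' | W.S J ω₀ ω'}) * c := by
  classical
  unfold pr tot
  rw [Finset.sum_mul]
  refine Finset.sum_congr rfl fun ω _ => ?_
  by_cases h1 : W.S J ω₀ ω
  · rw [if_pos h1, hf ω h1]
    congr 1
    unfold ind
    simp only [Set.indicator_apply, Set.mem_inter_iff, Set.mem_ofPred_eq, h1, and_true]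
  · rw [if_neg h1]
    have e5 : ind (E ∩ {ω' | W.S J ω₀ ω'}) w ω = 0 :=
      Set.indicator_of_notMem (fun h => h1 h.2) w
    rw [e5, zero_mul]

lemma class_pos19 (hw : ∀ ω, 0 < w ω) (J : W.ι) (ω₀ : Ω) : 0 < pr w {ω' | W.S J ω₀ ω'} := by
  refine Finset.sum_pos' (fun ω _ => ind_nonneg19 _ (fun ω => (hw ω).le) ω)
    ⟨ω₀, Finset.mem_univ _, ?_⟩
  have e6 : ind {ω' | W.S J ω₀ ω'} w ω₀ = w ω₀ :=
    Set.indicator_of_mem (show ω₀ ∈ {ω' | W.S J ω₀ ω'} from (W.eqv J).refl ω₀) w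
  rw [e6]
  exact hw ω₀

/-- same law of the history -/
theorem tiltf_sum (hw : ∀ ω, 0 < w ω) {G : W.ι → Set Ω} {adm : W.ι → Prop} {κ ε : ℝ} (hε : 0 < ε)
    {J K : W.ι} (hJK : W.le J K) (hK : adm K) {g : Ω → ℝ}
    (hgN : ∀ ω, g ω ≠ 0 → ω ∈ WNext W w G adm κ ε J) (hgS : ∀ ω ω', W.S J ω ω' → g ω = g ω')
    (F : Ω → ℝ) (hF : ∀ ω ω', W.S J ω ω' → F ω = F ω') :
    ∑ ω, tiltf W w G κ J K g ω * F ω = ∑ ω, (g ω * w ω) * F ω := by
  classical
  refine sum_classes19 W J _ _ fun ω₀ => ?_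
  set E := WEE W w G κ K with hE
  have e1 := sum_class_pr19 W w J E ω₀ (g ω₀ / wcnd W w J E ω₀ * F ω₀)
    (fun ω => tiltf W w G κ J K g ω * F ω) (by
      intro ω h1
      unfold tiltf
      rw [← hE, ← hgS ω₀ ω h1, ← hF ω₀ ω h1, ← cnd_congr19 W w J E ω₀ ω h1]
      ring)
  have e2 := sum_class_pr19 W w J Set.univ ω₀ (g ω₀ * F ω₀) (fun ω => (g ω * w ω) * F ω) (by
      intro ω h1
      rw [← hgS ω₀ ω h1, ← hF ω₀ ω h1, show ind Set.univ w ω = w ω from Set.indicator_of_mem (Set.mem_univ ω) w]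
      ring)
  have e3 : (∑ ω, if W.S J ω₀ ω then tiltf W w G κ J K g ω * F ω else 0) =
      pr w (E ∩ {ω' | W.S J ω₀ ω'}) * (g ω₀ / wcnd W w J E ω₀ * F ω₀) := e1
  have e4 : (∑ ω, if W.S J ω₀ ω then (g ω * w ω) * F ω else 0) =
      pr w {ω' | W.S J ω₀ ω'} * (g ω₀ * F ω₀) := by
    rw [Set.univ_inter] at e2
    exact e2
  rw [e3, e4]
  by_cases hg : g ω₀ = 0
  · rw [hg]
    simp
  · have hc : 0 < wcnd W w J E ω₀ := lt_of_lt_of_le hε (cnd_ge19 W w hJK hK (hgN ω₀ hg))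
    have hp := class_pos19 W w hw J ω₀
    have e7 : pr w (E ∩ {ω' | W.S J ω₀ ω'}) = wcnd W w J E ω₀ * pr w {ω' | W.S J ω₀ ω'} := by
      unfold wcnd
      field_simp
    rw [e7]
    field_simp

theorem tiltf_tot (hw : ∀ ω, 0 < w ω) {G : W.ι → Set Ω} {adm : W.ι → Prop} {κ ε : ℝ} (hε : 0 < ε)
    {J K : W.ι} (hJK : W.le J K) (hK : adm K) {g : Ω → ℝ}
    (hgN : ∀ ω, g ω ≠ 0 → ω ∈ WNext W w G adm κ ε J) (hgS : ∀ ω ω', W.S J ω ω' → g ω = g ω') :
    tot (tiltf W w G κ J K g) = ∑ ω, g ω * w ω := by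
  have := tiltf_sum W w hw hε hJK hK hgN hgS (fun _ => 1) (fun _ _ _ => rfl)
  simpa [tot] using this

/-- entropy of the outer window -/
theorem tiltf_K0 (hw : ∀ ω, 0 < w ω) {G : W.ι → Set Ω} {adm : W.ι → Prop} {κ ε : ℝ} (hε : 0 < ε)
    {J K : W.ι} (hJK : W.le J K) (hK : adm K) {g : Ω → ℝ} (hg0 : ∀ ω, 0 ≤ g ω)
    (hg1 : ∀ ω, g ω ≤ 1) (hgN : ∀ ω, g ω ≠ 0 → ω ∈ WNext W w G adm κ ε J)
    (hgS : ∀ ω ω', W.S J ω ω' → g ω = g ω') :
    K0 (tiltf W w G κ J K g) (W.m K) ≤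
      (∑ ω, g ω * w ω) * (κ + Real.log (1 / ε) + Real.log (1 / ∑ ω, g ω * w ω)) := by
  classical
  have hw' : ∀ ω, 0 ≤ w ω := fun ω => (hw ω).le
  have ht := tiltf_tot W w hw hε hJK hK hgN hgS
  set R := tiltf W w G κ J K g with hR
  have hR0 : ∀ ω, 0 ≤ R ω := tiltf_nonneg W w hw' G κ J K hg0
  rw [K0_eq, ht, ← ht]
  unfold tot
  rw [Finset.sum_mul]
  refine Finset.sum_le_sum fun ω _ => ?_
  by_cases h : R ω = 0
  · simp [h]
  · have hRp : 0 < R ω := lt_of_le_of_ne (hR0 ω) (Ne.symm h)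
    have htp : 0 < tot R := lt_of_lt_of_le hRp (le_tot R hR0 ω)
    refine mul_le_mul_of_nonneg_left ?_ hRp.le
    have hmem : ω ∈ WEE W w G κ K := by
      by_contra hcon
      apply h
      rw [hR]
      unfold tiltf
      rw [show ind (WEE W w G κ K) w ω = 0 from Set.indicator_of_notMem hcon w, zero_div, mul_zero]
    have hd := dens_pos19 W w hw (K := K) hmem.1
    have hmR := mass_pos R hR0 (W.m K) h
    have hA : (0 : ℝ) < Fintype.card (W.A K) := by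
      have : Nonempty (W.A K) := ⟨W.m K ω⟩
      exact_mod_cast Fintype.card_pos
    have h1 : mass R (W.m K) (W.m K ω) ≤ mass (ind (G K) w) (W.m K) (W.m K ω) / ε := by
      unfold mass
      rw [Finset.sum_div]
      refine Finset.sum_le_sum fun ω' _ => ?_
      split
      · exact tiltf_le W w hw' hε hJK hK hg1 hgN ω'
      · simp
    have h2 : (Fintype.card (W.A K) : ℝ) * mass R (W.m K) (W.m K ω) / tot R ≤
        wdens W w (G K) K ω * (1 / ε) * (1 / tot R) := by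
      unfold wdens
      rw [mul_one_div, mul_one_div]
      refine div_le_div_of_nonneg_right ?_ htp.le
      rw [mul_div_assoc]
      exact mul_le_mul_of_nonneg_left h1 hA.le
    have h3 := Real.log_le_log (by positivity) h2
    rw [Real.log_mul (by positivity) (by positivity), Real.log_mul hd.ne' (by positivity)] at h3
    have h4 : Real.log (wdens W w (G K) K ω) ≤ κ := hmem.2
    have h5 : (∑ i, R i) = tot R := rfl
    rw [h5]
    linarith

/-- the conditional probability of a set as a density -/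
theorem cnd_sum19 (hw : ∀ ω, 0 < w ω) (J : W.ι) (S : Set Ω) (F : Ω → ℝ)
    (hF : ∀ ω ω', W.S J ω ω' → F ω = F ω') :
    ∑ ω, (wcnd W w J S ω * w ω) * F ω = ∑ ω, ind S w ω * F ω := by
  classical
  refine sum_classes19 W J _ _ fun ω₀ => ?_
  have e1 := sum_class_pr19 W w J Set.univ ω₀ (wcnd W w J S ω₀ * F ω₀)
    (fun ω => (wcnd W w J S ω * w ω) * F ω) (by
      intro ω h1
      rw [← hF ω₀ ω h1, ← cnd_congr19 W w J S ω₀ ω h1,
        show ind Set.univ w ω = w ω from Set.indicator_of_mem (Set.mem_univ ω) w]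
      ring)
  have e2 := sum_class_pr19 W w J S ω₀ (F ω₀) (fun ω => ind S w ω * F ω) (by
      intro ω h1
      rw [← hF ω₀ ω h1])
  rw [e1, e2, Set.univ_inter]
  have hp := class_pos19 W w hw J ω₀
  unfold wcnd
  field_simp

theorem cnd_le_one19 (hw : ∀ ω, 0 < w ω) (J : W.ι) (S : Set Ω) (ω : Ω) : wcnd W w J S ω ≤ 1 := by
  unfold wcnd
  rw [div_le_one (class_pos19 W w hw J ω)]
  exact pr_mono19 (fun ω => (hw ω).le) Set.inter_subset_right

/-- a class which meets `S` with positive conditional probability -/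
theorem cnd_ne_zero19 (J : W.ι) (S : Set Ω) (ω : Ω) (h : wcnd W w J S ω ≠ 0) :
    ∃ ω', W.S J ω ω' ∧ ω' ∈ S := by
  by_contra hcon
  push Not at hcon
  apply h
  have e : S ∩ {ω' | W.S J ω ω'} = (∅ : Set Ω) := by
    ext x
    constructor
    · rintro ⟨h1, h2⟩
      exact hcon x h2 h1
    · intro h1
      exact absurd h1 (by simp)
  unfold wcnd
  rw [e]
  simp [pr, tot, ind]

end Pool.Agent.NJ

namespace Pool.Agent.CutSeq.NJ

open Finset Pool.Agent.NJ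

variable {B L n0 : ℕ} {G : ℕ → Set (Wd B L)}

/-- **SC** for an arbitrary set of words inside the next family -/
theorem sc_weight_any (h : n0 + 2 ≤ B) (hG : Fam19 B L n0 G) (nA n d nK : ℕ) (hd : d + n ≤ nK)
    (hnK : nK ≤ nA) (hnA : nA ≤ n0) (κ ε : ℝ) (hε : 0 < ε) (S : Set (Wd B L))
    (hS : S ⊆ nextG h G nA κ ε n) :
    ∃ u : Wd B L → ℝ, (∀ ω, 0 ≤ u ω) ∧ tot u = pr (uw B L) S ∧
      (∀ ω, u ω ≤ ind (G nK) (uw B L) ω / ε) ∧
      (∀ F : Wd B L → ℝ, MeasW 1 n F →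
        ∑ ω, u ω * F (rot B L d ω) = ∑ ω, ind S (uw B L) ω * F ω) ∧
      K0 u (fun ω => wm (ext ω) L 1 nK) ≤
        pr (uw B L) S * (κ + Real.log (1 / ε) + Real.log (1 / pr (uw B L) S)) := by
  classical
  have hB : 0 < B := by omega
  have hw : ∀ ω : Wd B L, 0 < uw B L ω := uw_pos19
  have hw' : ∀ ω : Wd B L, 0 ≤ uw B L ω := fun ω => (hw ω).le
  set W := arcWin B L n0 h with hW
  let J : W.ι := std h ⟨n, by omega⟩
  let K : W.ι := ((⟨(B - d) % B, Nat.mod_lt _ hB⟩, ⟨nK, by omega⟩) : Arc B n0)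
  have hJK : W.le J K := by
    refine ⟨d, hd, ?_⟩
    show 0 = ((B - d) % B + d) % B
    rw [Nat.mod_add_mod, Nat.sub_add_cancel (by omega), Nat.mod_self]
  have hK : (fun K : W.ι => K.2.val ≤ nA) K := hnK
  have hsys := next_sys W (uw B L) (arcG_sys h hG) (fun K => K.2.val ≤ nA) κ ε
  have hSJ : ∀ ω ∈ S, ω ∈ WNext W (uw B L) (arcG h G) (fun K => K.2.val ≤ nA) κ ε J := by
    intro ω hω
    obtain ⟨_, h2⟩ := hS hω
    exact h2
  set g : Wd B L → ℝ := wcnd W (uw B L) J S with hg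
  have hg0 : ∀ ω, 0 ≤ g ω := fun ω => cnd_nonneg19 W (uw B L) hw' J S ω
  have hg1 : ∀ ω, g ω ≤ 1 := fun ω => cnd_le_one19 W (uw B L) hw J S ω
  have hgS : ∀ ω ω', W.S J ω ω' → g ω = g ω' := fun ω ω' hs =>
    cnd_congr19 W (uw B L) J S ω ω' hs
  have hgN : ∀ ω, g ω ≠ 0 → ω ∈ WNext W (uw B L) (arcG h G) (fun K => K.2.val ≤ nA) κ ε J := by
    intro ω hne
    obtain ⟨ω', h1, h2⟩ := cnd_ne_zero19 W (uw B L) J S ω hne
    exact (hsys.sat J ω ω' h1).2 (hSJ ω' h2)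
  have htot : ∑ ω, g ω * uw B L ω = pr (uw B L) S := by
    have := cnd_sum19 W (uw B L) hw J S (fun _ => 1) (fun _ _ _ => rfl)
    simpa [pr, tot] using this
  have hrot : ∀ ω : Wd B L, rot B L K.1.val (rot B L d ω) = ω := by
    intro ω
    show rot B L ((B - d) % B) (rot B L d ω) = ω
    rw [← rot_mod, ← rot_add, Nat.sub_add_cancel (by omega), rot_B]
  refine ⟨fun ω => tiltf W (uw B L) (arcG h G) κ J K g (rot B L d ω), ?_, ?_, ?_, ?_, ?_⟩
  · intro ω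
    exact tiltf_nonneg W (uw B L) hw' _ _ _ _ hg0 _
  · show tot (fun ω => tiltf W (uw B L) (arcG h G) κ J K g (rot B L d ω)) = _
    rw [← htot, ← tiltf_tot W (uw B L) hw hε hJK hK hgN hgS]
    exact sum_rot d (tiltf W (uw B L) (arcG h G) κ J K g)
  · intro ω
    refine (tiltf_le W (uw B L) hw' hε hJK hK hg1 hgN (rot B L d ω)).trans (le_of_eq ?_)
    congr 1
    have e : ind (arcG h G K) (uw B L) (rot B L d ω) = ind (G nK) (uw B L) ω := by
      have h1 : (rot B L d ω ∈ arcG h G K) ↔ ω ∈ G nK := by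
        show rot B L K.1.val (rot B L d ω) ∈ G nK ↔ _
        rw [hrot]
      unfold ind
      simp only [Set.indicator_apply, h1, uw_rot]
    exact e
  · intro F hF
    have hF' : ∀ ω ω', W.S J ω ω' → F ω = F ω' := fun ω ω' hs => hF ω ω' hs
    rw [← cnd_sum19 W (uw B L) hw J S F hF', ← tiltf_sum W (uw B L) hw hε hJK hK hgN hgS F hF']
    exact sum_rot d (fun ω => tiltf W (uw B L) (arcG h G) κ J K g ω * F ω)
  · have hK0 := tiltf_K0 W (uw B L) hw hε hJK hK hg0 hg1 hgN hgS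
    rw [htot] at hK0
    refine le_trans (le_of_eq ?_) hK0
    have e : (fun ω : Wd B L => wm (ext ω) L 1 nK) = fun ω => W.m K (rot B L d ω) := by
      funext ω
      show _ = wm (ext (rot B L K.1.val (rot B L d ω))) L 1 nK
      rw [hrot]
    have e2 := K0_rot19 d (tiltf W (uw B L) (arcG h G) κ J K g) (W.m K)
    rw [← e] at e2
    exact e2

end Pool.Agent.CutSeq.NJ
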