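import Pool.Agent.NJ.CoinA88
import Pool.Agent.NJ.Loc50
import Pool.Agent.NJ.Wtb19
import Pool.Agent.NJ.Walk31

/-!
S19271, row SC of the real model (helper88): the entropy bound for the extended brooms of the standard
window under the weights `nextG`, for every set of words.

* `sc_obs88` : in terms of `cw`, `obs`, `rg`;
* `locR B L n` : the local structure `Loc` of the standard window (histories = words);
* `locR_SC` : `Loc.SC`;
* `locR_U` : `Loc.U` is `UU`; `locR_TR`, `locR_TC`.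
-/

set_option autoImplicit false

namespace Pool.Agent.CutSeq.NJ

open Finset Pool.Agent.NJ

variable {B L : ℕ}

/-! ### (SC) in terms of coins -/

/-- law of the broom under a weight with the same law of the history -/
theorem K0_shift88 {n d : ℕ} (hn : 1 ≤ n) (hd : 1 + d + n ≤ B) {S : Set (Wd B L)} {u : Wd B L → ℝ}
    (hu : ∀ F : Wd B L → ℝ, MeasW 1 n F →
        ∑ ω, u ω * F (rot B L d ω) = ∑ ω, ind S (uw B L) ω * F ω) (i j : ℕ) :
    K0 (cw (ind S (uw B L)) L L (Fin i) (Fin j))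
        (fun p => obs (rg B L 1 n) p.1 p.2.1 p.2.2) =
      K0 (cw u L L (Fin i) (Fin j)) (fun p => obs (rg B L (1 + d) n) p.1 p.2.1 p.2.2) := by
  unfold K0
  refine KK_law _ _ _ _ _ _ fun x y => ?_
  have h1 := mass_of_sum19 (n := n) (d := d) (S := S) (u := u) hu
    (C := (Fin i → V L) × (Fin j → V L))
    (fun _ _ => 1 / (Fintype.card ((Fin i → V L) × (Fin j → V L)) : ℝ)) (fun _ _ _ => rfl)
    (fun ω c => (obs (rg B L 1 n) ω c.1 c.2, ())) (by
      intro ω ω' hs
      funext c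
      show (obs (rg B L 1 n) ω c.1 c.2, ()) = (obs (rg B L 1 n) ω' c.1 c.2, ())
      rw [hs.obs_eq hn]) (x, y)
  have e1 : (fun p : Wd B L × ((Fin i → V L) × (Fin j → V L)) =>
      ind S (uw B L) p.1 * (1 / (Fintype.card ((Fin i → V L) × (Fin j → V L)) : ℝ))) =
      cw (ind S (uw B L)) L L (Fin i) (Fin j) := by
    funext p
    show _ = ind S (uw B L) p.1 / (Fintype.card ((Fin i → V L) × (Fin j → V L)) : ℝ)
    rw [mul_one_div]
  have e2 : (fun p : Wd B L × ((Fin i → V L) × (Fin j → V L)) =>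
      u p.1 * (1 / (Fintype.card ((Fin i → V L) × (Fin j → V L)) : ℝ))) =
      cw u L L (Fin i) (Fin j) := by
    funext p
    show _ = u p.1 / (Fintype.card ((Fin i → V L) × (Fin j → V L)) : ℝ)
    rw [mul_one_div]
  rw [e1, e2] at h1
  refine h1.symm.trans ?_
  refine mass_congr _ _ _ _ _ fun p _ => ?_
  rw [obs_rot d 1 n le_rfl hn (by omega)]

/-- **(SC)** for every set of words of the new weight -/
theorem sc_obs88 {n0 : ℕ} {G : ℕ → Set (Wd B L)} (h : n0 + 2 ≤ B) (hG : Fam19 B L n0 G)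
    (nA n i j x : ℕ) (hn : 1 ≤ n) (hx : 1 ≤ x) (hs : n + i + j + 2 * x ≤ nA) (hnA : nA ≤ n0)
    (κ ε : ℝ) (hε : 0 < ε) (S : Set (Wd B L)) (hS : S ⊆ nextG h G nA κ ε n) :
    K0 (cw (ind S (uw B L)) L L (Fin i) (Fin j)) (fun p => obs (rg B L 1 n) p.1 p.2.1 p.2.2) ≤
      pr (uw B L) S * (κ + Real.log (1 / ε) +
        4 * (nA : ℝ) ^ 2 * Real.exp (-((x : ℝ) ^ 2 / (16 * nA))) +
        Real.log (1 / pr (uw B L) S)) := by
  obtain ⟨u, hu0, hut, _, hul, huK⟩ := sc_weight_any h hG nA n (j + x) nA (by omega) le_rfl hnA κ ε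
    hε S hS
  have h1 := K0_shift88 (B := B) (L := L) hn (by omega) hul i j
  have h2 := broom_le u hu0 id 1 (j + x) n nA i j x hn hx le_rfl (by omega)
  simp only [id] at h2
  rw [h1]
  refine h2.trans ?_
  rw [hut]
  linarith

/-! ### the local structure of the real model -/

/-- local structure of the standard window; histories are words -/
def locR (B L n : ℕ) : Loc (Wd B L) (Un n) n L where
  m := fun ω => wm (ext ω) L 1 n
  R := fun ω r => if (ext ω r.val).1 + 1 = 1 + n then lowW (ext ω) r.val 1 n else 0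
  C := fun ω s => if (ext ω s.val).1 + 1 = 1 then colV (ext ω) L s.val 1 n else 0
  Q := fun ω r s => if (ext ω s.val).1 + 1 = 1 ∧ s.val < r.val ∧ (ext ω r.val).1 + 1 = 1 + n then
    Mst (shift (ext ω) (s.val + 1)) (r.val - (s.val + 1)) (1 + n - 1) 1 else 0

theorem locR_m (n : ℕ) (ω : Wd B L) : (locR B L n).m ω = wm (ext ω) L 1 n := rfl

theorem locR_row (n : ℕ) (ω : Wd B L) (ξ : V L) :
    (locR B L n).row ω ξ = (rg B L 1 n).X ω ξ := by
  show _ = coinL (ext ω) L (1 + n) (fun i => lowW (ext ω) i 1 n) ξ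
  unfold coinL
  rw [Fintype.linearCombination_apply]
  rfl

theorem locR_col (n : ℕ) (ω : Wd B L) (η : V L) :
    (locR B L n).col ω η = (rg B L 1 n).Y ω η := by
  show _ = coinL (ext ω) L 1 (fun i => colV (ext ω) L i 1 n) η
  unfold coinL
  rw [Fintype.linearCombination_apply]
  rfl

theorem locR_cor (n : ℕ) (ω : Wd B L) (ξ η : V L) :
    (locR B L n).cor ω ξ η = (rg B L 1 n).C ω ξ η := by
  rw [rg_C]
  unfold Loc.cor crn
  rw [Finset.sum_comm]
  refine Finset.sum_congr rfl fun s _ => ?_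
  by_cases hs : (ext ω s.val).1 + 1 = 1
  · rw [if_pos hs]
    unfold qv
    rw [Finset.mul_sum]
    refine Finset.sum_congr rfl fun r _ => ?_
    show ξ r * η s * (if (ext ω s.val).1 + 1 = 1 ∧ s.val < r.val ∧ (ext ω r.val).1 + 1 = 1 + n then
      Mst (shift (ext ω) (s.val + 1)) (r.val - (s.val + 1)) (1 + n - 1) 1 else 0) = _
    by_cases h1 : s.val < r.val ∧ (ext ω r.val).1 + 1 = 1 + n
    · rw [if_pos h1, if_pos ⟨hs, h1⟩]
      ring
    · rw [if_neg h1, if_neg (fun h => h1 h.2), mul_zero, mul_zero]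
  · rw [if_neg hs]
    refine Finset.sum_eq_zero fun r _ => ?_
    show ξ r * η s * (if (ext ω s.val).1 + 1 = 1 ∧ s.val < r.val ∧ (ext ω r.val).1 + 1 = 1 + n then
      Mst (shift (ext ω) (s.val + 1)) (r.val - (s.val + 1)) (1 + n - 1) 1 else 0) = 0
    rw [if_neg (fun h => hs h.1), mul_zero]

theorem locR_TR (n : ℕ) (ω : Wd B L) : (locR B L n).TR ω = TR (ext ω) L 1 n := by
  rw [TR_eq_range]
  unfold coinL
  rw [Fintype.range_linearCombination]
  rfl

theorem locR_TC (n : ℕ) (ω : Wd B L) : (locR B L n).TC ω = TC (ext ω) L 1 n := by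
  rw [TC_eq_range]
  unfold coinL
  rw [Fintype.range_linearCombination]
  rfl

/-- regrouping of the extended broom -/
def regr88 (A : Type*) (n i j : ℕ) : BT A n n (Fin i) (Fin j) ≃
    (A × (Fin i → V n) × (Fin j → V n)) × (Fin i → Fin j → ZMod 2) where
  toFun x := ((x.1, x.2.1, x.2.2.1), x.2.2.2)
  invFun y := (y.1.1, y.1.2.1, y.1.2.2, y.2)
  left_inv _ := rfl
  right_inv _ := rfl

theorem locR_edat (n i j : ℕ) (p : Wd B L × Co L i j) :
    (locR B L n).edat i j p = regr88 (Un n) n i j (obs (rg B L 1 n) p.1 p.2.1 p.2.2) := by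
  refine Prod.ext (Prod.ext rfl (Prod.ext ?_ ?_)) ?_
  · funext a
    exact locR_row n p.1 (p.2.1 a)
  · funext b
    exact locR_col n p.1 (p.2.2 b)
  · funext a b
    exact locR_cor n p.1 (p.2.1 a) (p.2.2 b)

/-- entropy of the extended double broom -/
theorem locR_E (n : ℕ) (w : Wd B L → ℝ) (hw : ∀ ω, 0 ≤ w ω) (i j : ℕ) :
    (locR B L n).E w i j =
      K0 (cw w L L (Fin i) (Fin j)) (fun p => obs (rg B L 1 n) p.1 p.2.1 p.2.2) := by
  refine K0_bij (cw w L L (Fin i) (Fin j)) (cw_nonneg88 w hw)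
    (fun p => obs (rg B L 1 n) p.1 p.2.1 p.2.2) _ (regr88 (Un n) n i j) ?_
  intro p _
  exact locR_edat n i j p

/-- entropy of the double broom -/
theorem locR_U (n : ℕ) (w : Wd B L → ℝ) (i j : ℕ) :
    (locR B L n).U w i j = UU w (fun ω => TR (ext ω) L 1 n) (fun ω => TC (ext ω) L 1 n)
      (fun ω => wm (ext ω) L 1 n) i j := by
  have h1 := (push_coins88 w (rg B L 1 n).X (rg B L 1 n).Y i j).K0
    (fun p => (wm (ext p.1) L 1 n, p.2.1, p.2.2))
  have h2 : (fun ω => LinearMap.range ((rg B L 1 n).X ω)) = fun ω => TR (ext ω) L 1 n :=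
    funext fun ω => range_rg_X 1 n ω
  have h3 : (fun ω => LinearMap.range ((rg B L 1 n).Y ω)) = fun ω => TC (ext ω) L 1 n :=
    funext fun ω => range_rg_Y 1 n ω
  rw [h2, h3] at h1
  unfold UU
  rw [← h1]
  unfold Loc.U
  congr 1

/-- **(SC)** for the local structure of the real model -/
theorem locR_SC {n0 : ℕ} {G : ℕ → Set (Wd B L)} (h : n0 + 2 ≤ B) (hG : Fam19 B L n0 G)
    (nA n I x : ℕ) (hn : 1 ≤ n) (hx : 1 ≤ x) (hs : n + I + 2 * x ≤ nA) (hnA : nA ≤ n0)
    (κ ε : ℝ) (hε : 0 < ε) :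
    (locR B L n).SC (ind (nextG h G nA κ ε n) (uw B L))
      (κ + Real.log (1 / ε) + 4 * (nA : ℝ) ^ 2 * Real.exp (-((x : ℝ) ^ 2 / (16 * nA)))) I := by
  intro S i j hij
  have e : ind S (ind (nextG h G nA κ ε n) (uw B L)) =
      ind (S ∩ nextG h G nA κ ε n) (uw B L) := by
    unfold ind
    rw [Set.indicator_indicator]
  rw [e, locR_E n _ (fun ω => ind_nonneg19 _ (fun _ => (uw_pos19 _).le) ω)]
  exact sc_obs88 h hG nA n i j x hn hx (by omega) hnA κ ε hε _ Set.inter_subset_right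

/-! ### symmetry -/

lemma uT_map_equiv88 {n : ℕ} (T : Submodule (ZMod 2) (V n)) (e : V n ≃ₗ[ZMod 2] V n) (x : V n) :
    uT (T.map e.toLinearMap) (e x) = uT T x := by
  classical
  have h1 : e x ∈ T.map e.toLinearMap ↔ x ∈ T := by
    constructor
    · rintro ⟨y, hy, he⟩
      have : y = x := e.injective he
      exact this ▸ hy
    · intro hx
      exact ⟨x, hx, rfl⟩
  have h2 : Nat.card (T.map e.toLinearMap) = Nat.card T :=
    (Nat.card_congr (e.submoduleMap T).toEquiv).symm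
  unfold uT
  rw [h2]
  by_cases hx : x ∈ T
  · rw [if_pos hx, if_pos (h1.2 hx)]
  · rw [if_neg hx, if_neg (fun h => hx (h1.1 h))]

/-- change of variables -/
lemma K0_comp88 {Ω A : Type*} [Fintype Ω] [Fintype A] (e : Ω ≃ Ω) (w : Ω → ℝ) (X : Ω → A) :
    K0 (fun ω => w (e ω)) (fun ω => X (e ω)) = K0 w X := by
  unfold K0
  refine KK_law _ _ _ _ _ _ fun a b => ?_
  unfold mass
  exact Equiv.sum_comp e (fun ω => @ite _ ((X ω, ()) = (a, b)) (Classical.propDecidable _) (w ω) 0)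

/-- reflection exchanges rows and columns -/
theorem UU_refl88 (n : ℕ) (hn : 1 ≤ n) (h : n + 1 ≤ B) (w : Wd B L → ℝ) (hw0 : ∀ ω, 0 ≤ w ω)
    (hw : ∀ ω, w (refl B L n ω) = w ω) (i j : ℕ) :
    UU w (fun ω => TR (ext ω) L 1 n) (fun ω => TC (ext ω) L 1 n) (fun ω => wm (ext ω) L 1 n) i j =
      UU w (fun ω => TR (ext ω) L 1 n) (fun ω => TC (ext ω) L 1 n)
        (fun ω => wm (ext ω) L 1 n) j i := by
  rw [UU_swap w hw0 _ _ _ j i]
  unfold UU
  set e : Wd B L × (Fin i → V n) × (Fin j → V n) ≃ Wd B L × (Fin i → V n) × (Fin j → V n) :=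
    (refl B L n).prodCongr ((Equiv.arrowCongr (Equiv.refl _) (revV n).toEquiv).prodCongr
      (Equiv.arrowCongr (Equiv.refl _) (revV n).toEquiv)) with he
  have h1 := K0_comp88 e (sib2 w (fun ω => TR (ext ω) L 1 n) (fun ω => TC (ext ω) L 1 n) i j)
    (fun p => (wm (ext p.1) L 1 n, p.2.1, p.2.2))
  rw [← h1]
  have h2 : (fun p => sib2 w (fun ω => TR (ext ω) L 1 n) (fun ω => TC (ext ω) L 1 n) i j (e p)) =
      sib2 w (fun ω => TC (ext ω) L 1 n) (fun ω => TR (ext ω) L 1 n) i j := by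
    funext p
    obtain ⟨ω, x, y⟩ := p
    show w (refl B L n ω) * (∏ l, uT (TR (ext (refl B L n ω)) L 1 n) (revV n (x l))) *
      (∏ l, uT (TC (ext (refl B L n ω)) L 1 n) (revV n (y l))) =
      w ω * (∏ l, uT (TC (ext ω) L 1 n) (x l)) * ∏ l, uT (TR (ext ω) L 1 n) (y l)
    rw [hw, refl_TR n h hn, refl_TC n h hn]
    simp only [uT_map_equiv88]
  rw [h2]
  refine K0_bij _ (sib2_nonneg w hw0 _ _ i j)
    (fun p : Wd B L × (Fin i → V n) × (Fin j → V n) => (wm (ext p.1) L 1 n, p.2.1, p.2.2)) _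
    ((Equiv.ofBijective trU (trU_bijective n)).prodCongr
      ((Equiv.arrowCongr (Equiv.refl _) (revV n).toEquiv).prodCongr
      (Equiv.arrowCongr (Equiv.refl _) (revV n).toEquiv))) ?_
  intro p _
  obtain ⟨ω, x, y⟩ := p
  refine Prod.ext ?_ (Prod.ext ?_ ?_)
  · exact refl_wm n h ω
  · rfl
  · rfl

end Pool.Agent.CutSeq.NJ
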