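import Pool.Agent.NJ.BT49
import Pool.Agent.NJ.SC88

/-!
The corner bits in the real model: Loc.bott for the standard window, with numbers.
-/

set_option autoImplicit false

namespace Pool.Agent.NJ

open Finset Pool.Agent.CutSeq Pool.Agent.CutSeq.NJ

section Trivial

variable {H A : Type*} [Fintype H] [Fintype A] {n t : ℕ} (S : Loc H A n t)

/-- the trivial bound for the corner bits -/
theorem Loc.bott_triv49 (w : H → ℝ) (hw : ∀ h, 0 ≤ w h) (hw1 : tot w ≤ 1) (i : ℕ) :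
    S.E w i 1 - S.U w i 1 ≤ i := by
  rw [S.E_eq49 w hw i 1]
  have h := KK_le (pw w (Co t i 1)) (pw_nonneg w hw)
    (fun p => fun (a : Fin i) (b : Fin 1) => S.cor p.1 (p.2.1 a) (p.2.2 b)) (S.dat i 1)
  rw [tot_pw] at h
  have h1 : Real.log (Fintype.card (Fin i → Fin 1 → ZMod 2)) = i * Real.log 2 := by
    rw [Fintype.card_fun, Fintype.card_fun, ZMod.card, Fintype.card_fin, Fintype.card_fin, pow_one]
    push_cast
    rw [Real.log_pow]
  rw [h1] at h
  have l2 : Real.log 2 < 1 := by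
    have := Real.log_two_lt_d9
    linarith
  have l0 : 0 < Real.log 2 := Real.log_pos (by norm_num)
  have ht := tot_nonneg w hw
  have hi : (0 : ℝ) ≤ i := Nat.cast_nonneg i
  have h2 : tot w * (i * Real.log 2) ≤ 1 * (i * Real.log 2) :=
    mul_le_mul_of_nonneg_right hw1 (by positivity)
  nlinarith

/-- Loc.bott with numbers -/
theorem Loc.bott_num49 (w : H → ℝ) (hw : ∀ h, 0 ≤ w h) (hw1 : tot w ≤ 1) (M : ℝ) (hM : 0 ≤ M)
    (I : ℕ) (hSC : S.SC w M I) (i D : ℕ) (hD : 100 ≤ D) (hI : i + 4 * D ≤ I)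
    (hLA : Real.log (Fintype.card A) + ((i + D) * n + D * n + (i + D) * D : ℕ) * Real.log 2 ≤
      (2 : ℝ) ^ ((D : ℝ) / 2)) :
    S.E w i 1 - S.U w i 1 ≤
      i * (64 * Real.exp (-(Real.log 2 * (D : ℝ) ^ 2 / (24 * D + 10 * M)))) := by
  have l2a : 0.69 < Real.log 2 := by have := Real.log_two_gt_d9; linarith
  have l2b : Real.log 2 < 0.7 := by have := Real.log_two_lt_d9; linarith
  have l0 : 0 < Real.log 2 := by linarith
  have hD' : (100 : ℝ) ≤ D := by exact_mod_cast hD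
  have hi : (0 : ℝ) ≤ i := Nat.cast_nonneg i
  set y : ℝ := (D : ℝ) ^ 2 / (24 * D + 10 * M) with hy
  have hden : 0 < 24 * (D : ℝ) + 10 * M := by linarith
  have hy0 : 0 ≤ y := by positivity
  have hyD : y * (24 * D + 10 * M) = (D : ℝ) ^ 2 := by
    rw [hy]
    exact div_mul_cancel₀ _ hden.ne'
  have hy24 : y ≤ D / 24 := by
    rw [hy, div_le_div_iff₀ hden (by norm_num)]
    nlinarith
  set β : ℝ := 64 * Real.exp (-(Real.log 2 * y)) with hβdef
  have hβe : 64 * Real.exp (-(Real.log 2 * (D : ℝ) ^ 2 / (24 * D + 10 * M))) = β := by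
    rw [hβdef, hy, mul_div_assoc]
  rw [hβe]
  have hβ0 : 0 < β := by positivity
  rcases le_or_gt β 1 with hβ1 | hβ1
  swap
  · refine (S.bott_triv49 w hw hw1 i).trans ?_
    nlinarith
  have hlogβ : Real.log β = 6 * Real.log 2 - Real.log 2 * y := by
    rw [hβdef, Real.log_mul (by norm_num) (Real.exp_pos _).ne', Real.log_exp,
      show (64 : ℝ) = 2 ^ 6 by norm_num, Real.log_pow]
    push_cast
    ring
  have hl : ∀ c : ℕ, Real.log (2 ^ c / β) = c * Real.log 2 - 6 * Real.log 2 + Real.log 2 * y := by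
    intro c
    rw [Real.log_div (by positivity) hβ0.ne', Real.log_pow, hlogβ]
    ring
  have h16 : Real.log (16 / β) / Real.log 2 + 2 = y := by
    have := hl 4
    rw [show (16 : ℝ) = 2 ^ 4 by norm_num, this]
    field_simp
    push_cast
    ring
  have h4 : Real.log (4 / β) = Real.log 2 * (y - 4) := by
    have := hl 2
    rw [show (4 : ℝ) = 2 ^ 2 by norm_num, this]
    push_cast
    ring
  have h2 : Real.log (2 / β) = Real.log 2 * (y - 5) := by
    have := hl 1
    rw [show (2 : ℝ) = 2 ^ 1 by norm_num, this]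
    push_cast
    norm_num
    ring
  have hD0 : (0 : ℝ) < D := by linarith
  refine S.bott w hw hw1 M hM I hSC i D D D (by omega) (by omega) β _ hβ0 hβ1 rfl ?_ ?_ ?_
  · -- h1
    have h5 : (2 : ℝ) ^ ((D : ℝ) / 2) ≤ 2 ^ D * Real.exp (-(Real.log 2 * y)) := by
      rw [← Real.rpow_natCast 2 D, Real.rpow_def_of_pos (by norm_num), Real.rpow_def_of_pos
        (by norm_num), ← Real.exp_add]
      refine Real.exp_le_exp.2 ?_
      nlinarith
    have h6 : (0 : ℝ) < 2 ^ D := by positivity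
    rw [one_div, inv_pow, hβdef]
    have h7 := hLA.trans h5
    have h8 : ((2 : ℝ) ^ D)⁻¹ * (Real.log (Fintype.card A) +
        ((i + D) * n + D * n + (i + D) * D : ℕ) * Real.log 2) ≤ Real.exp (-(Real.log 2 * y)) := by
      rw [inv_mul_le_iff₀ h6]
      exact h7
    have h9 : (2 : ℝ) ^ 6 = 64 := by norm_num
    rw [h9, mul_assoc]
    exact mul_le_mul_of_nonneg_left h8 (by norm_num)
  · rw [h16]
    linarith
  · rw [h16, h4, h2]
    -- multiply out
    have h5 : y * (3 * ((2 * M + 3 * D + 12 + Real.log 2 * (y - 4)) / D)) =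
        3 * y * (2 * M + 3 * D + 12 + Real.log 2 * (y - 4)) / D := by
      field_simp
    have h6 : 3 * y * (2 * M + 3 * D + 12 + Real.log 2 * (y - 4)) / D ≤
        (6 * M * y + 9.5 * (y * D)) / D := by
      rw [div_le_div_iff_of_pos_right hD0]
      have h7 : y * y ≤ y * (D / 24) := mul_le_mul_of_nonneg_left hy24 hy0
      have h8 : 36 * y ≤ 0.36 * (y * D) := by nlinarith
      have h9 : 3 * Real.log 2 * (y * y) ≤ 2.1 * (y * y) := by
        have := mul_nonneg hy0 hy0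
        nlinarith
      nlinarith [mul_nonneg hy0 hD0.le, mul_nonneg hy0 l0.le]
    have h7 : 6 * M * y + 9.5 * (y * D) ≤ 0.6 * (y * (24 * D + 10 * M)) - 4.9 * (y * D) := by
      nlinarith
    rw [hyD] at h7
    have h8 : (6 * M * y + 9.5 * (y * D)) / D ≤ 0.6 * D - 4.9 * y := by
      rw [div_le_iff₀ hD0]
      nlinarith
    rw [mul_add, h5]
    nlinarith

end Trivial

variable {B L : ℕ}

lemma log_card_Un49 (n : ℕ) : Real.log (Fintype.card (Un n)) ≤ (n : ℝ) ^ 2 * Real.log 2 := by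
  have h : Fintype.card (Un n) ≤ 2 ^ (n * n) := by
    have h1 : Fintype.card (Un n) = ∏ k : Fin n, Fintype.card (V k.val) := Fintype.card_pi
    rw [h1]
    calc ∏ k : Fin n, Fintype.card (V k.val) ≤ ∏ _k : Fin n, 2 ^ n := by
          refine Finset.prod_le_prod' fun k _ => ?_
          rw [Fintype.card_fun, ZMod.card, Fintype.card_fin]
          exact Nat.pow_le_pow_right (by norm_num) k.isLt.le
      _ = 2 ^ (n * n) := by
          rw [Finset.prod_const, Finset.card_univ, Fintype.card_fin, ← pow_mul]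
  have h0 : 0 < Fintype.card (Un n) := Fintype.card_pos
  have h2 : (Fintype.card (Un n) : ℝ) ≤ 2 ^ (n * n) := by exact_mod_cast h
  have h3 := Real.log_le_log (by exact_mod_cast h0) h2
  rw [Real.log_pow] at h3
  refine h3.trans (le_of_eq ?_)
  push_cast
  ring

/-- the corner bits at the standard window -/
theorem bott_fin49 {n0 : ℕ} {G : ℕ → Set (Wd B L)} (h : n0 + 2 ≤ B) (hG : Fam19 B L n0 G)
    (nA n x : ℕ) (hn : 1 ≤ n) (hx : 1 ≤ x) (hnA : nA ≤ n0) (κ ε : ℝ) (hε : 0 < ε) (M : ℝ)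
    (hMdef : M = κ + Real.log (1 / ε) + 4 * (nA : ℝ) ^ 2 * Real.exp (-((x : ℝ) ^ 2 / (16 * nA))))
    (hM : 0 ≤ M) (i D : ℕ) (hD : 100 ≤ D) (hs : n + (i + 4 * D) + 2 * x ≤ nA)
    (hA : (nA : ℝ) ^ 2 ≤ (2 : ℝ) ^ ((D : ℝ) / 2)) :
    K0 (cw (ind (nextG h G nA κ ε n) (uw B L)) L L (Fin i) (Fin 1))
        (fun p => obs (rg B L 1 n) p.1 p.2.1 p.2.2) -
      UU (ind (nextG h G nA κ ε n) (uw B L)) (fun ω => TR (ext ω) L 1 n)
        (fun ω => TC (ext ω) L 1 n) (fun ω => wm (ext ω) L 1 n) i 1 ≤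
      i * (64 * Real.exp (-(Real.log 2 * (D : ℝ) ^ 2 / (24 * D + 10 * M)))) := by
  set w := ind (nextG h G nA κ ε n) (uw B L) with hwdef
  have hw : ∀ ω, 0 ≤ w ω := fun ω => ind_nonneg19 _ (fun _ => (uw_pos19 _).le) ω
  have hw1 : tot w ≤ 1 := by
    have h1 := pr_le_tot19 (w := uw B L) (nextG h G nA κ ε n) (fun _ => (uw_pos19 _).le)
    have h2 : tot (uw B L) = 1 := by
      unfold tot uw
      rw [Finset.sum_const, Finset.card_univ, nsmul_eq_mul, mul_one_div, div_self]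
      have : Nonempty (Wd B L) := ⟨fun _ => (⟨0, by omega⟩, 0)⟩
      exact_mod_cast Fintype.card_ne_zero
    rw [h2] at h1
    exact h1
  rw [← locR_E n w hw i 1, ← locR_U n w i 1]
  refine (locR B L n).bott_num49 w hw hw1 M hM (i + 4 * D) ?_ i D hD le_rfl ?_
  · rw [hMdef]
    exact locR_SC h hG nA n (i + 4 * D) x hn hx hs hnA κ ε hε
  · refine le_trans ?_ hA
    have l2b : Real.log 2 < 1 := by have := Real.log_two_lt_d9; linarith
    have l0 : 0 < Real.log 2 := Real.log_pos (by norm_num)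
    have h1 := log_card_Un49 n
    have h2 : ((n + i + 4 * D : ℕ) : ℝ) ≤ nA := by exact_mod_cast (by omega : n + i + 4 * D ≤ nA)
    push_cast at h2 ⊢
    have hn0 : (0 : ℝ) ≤ n := Nat.cast_nonneg n
    have hi0 : (0 : ℝ) ≤ i := Nat.cast_nonneg i
    have hD0 : (0 : ℝ) ≤ D := Nat.cast_nonneg D
    have h3 : ((n : ℝ) + i + 4 * D) ^ 2 ≤ (nA : ℝ) ^ 2 := by
      refine pow_le_pow_left₀ (by positivity) h2 2
    have h4 : (n : ℝ) ^ 2 + (((i : ℝ) + D) * n + D * n + (i + D) * D) ≤ ((n : ℝ) + i + 4 * D) ^ 2 := by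
      nlinarith [mul_nonneg hn0 hi0, mul_nonneg hn0 hD0, mul_nonneg hi0 hD0, mul_nonneg hi0 hi0,
        mul_nonneg hD0 hD0]
    have h5 : 0 ≤ (n : ℝ) ^ 2 + (((i : ℝ) + D) * n + D * n + (i + D) * D) := by positivity
    nlinarith

end Pool.Agent.NJ
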