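import Pool.Agent.NJ.Bott49
import Pool.Agent.NJ.Tail85

/-!
The corner bits against TAIL (NOJUNK2, paragraph 7): if every nonzero linear form of the `S` corner
bits of the extended column sibling has relative entropy at least `b`, and the extended column
siblings satisfy the slope bound `v` on all events of probability at least `b / 8`, then
`b ≤ 16 exp (- S / (8 (v + 1)))`.
-/

set_option autoImplicit false

namespace Pool.Agent.NJ

open Finset Pool.Agent.CutSeq

variable {Ω A B C : Type*} [Fintype Ω]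

/-- a small density is unlikely -/
theorem low_dens49 [Fintype A] (w : Ω → ℝ) (hw : ∀ ω, 0 ≤ w ω) (X : Ω → A) (Y : Ω → B) (δ : ℝ)
    (hδ : 0 < δ) :
    pr w {ω | Fintype.card A * mass w (fun ω => (X ω, Y ω)) (X ω, Y ω) / mass w Y (Y ω) < δ} ≤
      δ * tot w := by
  classical
  set G : Set Ω :=
    {ω | Fintype.card A * mass w (fun ω => (X ω, Y ω)) (X ω, Y ω) / mass w Y (Y ω) < δ} with hG
  rcases isEmpty_or_nonempty A with hA | hA
  · have hΩ : ∀ ω : Ω, False := fun ω => hA.elim (X ω)
    have h1 : pr w G = 0 := Finset.sum_eq_zero fun ω _ => (hΩ ω).elim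
    have h2 : tot w = 0 := Finset.sum_eq_zero fun ω _ => (hΩ ω).elim
    rw [h1, h2, mul_zero]
  have hA0 : (0 : ℝ) < Fintype.card A := by exact_mod_cast Fintype.card_pos
  have h := basic_count w hw X Y (fun _ _ => 1) (fun _ _ => zero_le_one)
  simp only [one_mul, Finset.sum_const, Finset.card_univ, nsmul_eq_mul, mul_one] at h
  rw [← Finset.sum_mul] at h
  have h1 : pr w G * (Fintype.card A / δ) ≤
      ∑ ω, w ω * (mass w Y (Y ω) / mass w (fun ω => (X ω, Y ω)) (X ω, Y ω)) := by
    unfold pr tot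
    rw [Finset.sum_mul]
    refine Finset.sum_le_sum fun ω _ => ?_
    by_cases h0 : w ω = 0
    · have : ind G w ω = 0 := by
        by_cases hω : ω ∈ G
        · simp [ind, hω, h0]
        · simp [ind, hω]
      rw [this, h0, zero_mul, zero_mul]
    · have hp1 := mass_pos w hw (fun ω => (X ω, Y ω)) h0
      have hp2 := mass_pos w hw Y h0
      by_cases hω : ω ∈ G
      · have h3 : ind G w ω = w ω := by simp [ind, hω]
        rw [h3]
        refine mul_le_mul_of_nonneg_left ?_ (hw ω)
        have h4 : Fintype.card A * mass w (fun ω => (X ω, Y ω)) (X ω, Y ω) / mass w Y (Y ω) < δ := hω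
        rw [div_lt_iff₀ hp2] at h4
        rw [div_le_div_iff₀ hδ hp1]
        linarith
      · have h3 : ind G w ω = 0 := by simp [ind, hω]
        rw [h3, zero_mul]
        exact mul_nonneg (hw ω) (div_nonneg hp2.le hp1.le)
  have h2 : pr w G * (Fintype.card A / δ) ≤ tot w * Fintype.card A := h1.trans h
  have h3 : pr w G * Fintype.card A ≤ δ * tot w * Fintype.card A := by
    have h4 := mul_le_mul_of_nonneg_right h2 hδ.le
    have h5 : pr w G * (Fintype.card A / δ) * δ = pr w G * Fintype.card A := by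
      field_simp
    rw [h5] at h4
    linarith
  exact le_of_mul_le_mul_right h3 hA0

/-- numbers -/
theorem bott_num (S s : ℕ) (b v : ℝ) (hb0 : 0 < b) (hb1 : b ≤ 1) (hv : 0 ≤ v)
    (hs2 : (2 : ℝ) ^ s ≤ 2 * (1 + 4 / b))
    (h : Real.log (2 ^ S * (b ^ 2 / 8)) ≤ s * Real.log 2 + 3 * (s * v + Real.log 2)) :
    b ≤ 16 * Real.exp (-(S / (8 * (v + 1)))) := by
  have l2a : 0.69 < Real.log 2 := by have := Real.log_two_gt_d9; linarith
  have l2b : Real.log 2 < 0.7 := by have := Real.log_two_lt_d9; linarith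
  set L := Real.log (1 / b) with hL
  have hLb : Real.log b = -L := by rw [hL, one_div, Real.log_inv, neg_neg]
  have hL0 : 0 ≤ L := by
    rw [hL]
    refine Real.log_nonneg ?_
    rw [le_div_iff₀ hb0]
    linarith
  have l8 : Real.log 8 = 3 * Real.log 2 := by
    rw [show (8 : ℝ) = 2 ^ 3 by norm_num, Real.log_pow]
    norm_num
  have l16 : Real.log 16 = 4 * Real.log 2 := by
    rw [show (16 : ℝ) = 2 ^ 4 by norm_num, Real.log_pow]
    norm_num
  have h1 : Real.log (2 ^ S * (b ^ 2 / 8)) = S * Real.log 2 - 2 * L - 3 * Real.log 2 := by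
    rw [Real.log_mul (by positivity) (by positivity), Real.log_div (by positivity) (by norm_num),
      Real.log_pow, Real.log_pow, hLb, l8]
    push_cast
    ring
  rw [h1] at h
  have h2 : (s : ℝ) * Real.log 2 ≤ L + 4 * Real.log 2 := by
    have h3 : (2 : ℝ) ^ s ≤ 16 * (1 / b) := by
      refine hs2.trans ?_
      have h4 : 1 ≤ 1 / b := by
        rw [le_div_iff₀ hb0]
        linarith
      have h5 : 4 / b = 4 * (1 / b) := by ring
      rw [h5]
      linarith
    have h4 := Real.log_le_log (by positivity) h3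
    rwa [Real.log_pow, Real.log_mul (by norm_num) (by positivity), l16, ← hL, add_comm] at h4
  have hs0 : (0 : ℝ) ≤ s := Nat.cast_nonneg s
  have h3 : (s : ℝ) ≤ L / 0.69 + 4.1 := by
    have h4 : (s : ℝ) * 0.69 ≤ L + 2.8 := by
      have : (s : ℝ) * 0.69 ≤ s * Real.log 2 := mul_le_mul_of_nonneg_left l2a.le hs0
      linarith
    rw [div_add' _ _ _ (by norm_num), le_div_iff₀ (by norm_num)]
    linarith
  -- the main inequality
  have h4 : (S : ℝ) / 8 ≤ (v + 1) * (L + 2.7) := by
    have h5 : (s : ℝ) * v ≤ (L / 0.69 + 4.1) * v := mul_le_mul_of_nonneg_right h3 hv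
    have hS0 : (0 : ℝ) ≤ S := Nat.cast_nonneg S
    have h6 : (S : ℝ) * 0.69 ≤ S * Real.log 2 := mul_le_mul_of_nonneg_left l2a.le hS0
    have h7 : (S : ℝ) * 0.69 ≤ 3 * L + 7 + 3 * ((L / 0.69 + 4.1) * v) := by linarith
    have h8 : (L / 0.69) * v ≤ 1.45 * (L * v) := by
      have : 0 ≤ L * v := mul_nonneg hL0 hv
      have h9 : (L / 0.69) * v = (L * v) / 0.69 := by ring
      rw [h9, div_le_iff₀ (by norm_num)]
      linarith
    have h9 : 0 ≤ L * v := mul_nonneg hL0 hv
    nlinarith
  have h5 : (S : ℝ) / (8 * (v + 1)) ≤ L + 2.7 := by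
    rw [div_le_iff₀ (by positivity)]
    rw [div_le_iff₀ (by norm_num)] at h4
    linarith
  have h6 : Real.log b ≤ Real.log (16 * Real.exp (-(S / (8 * (v + 1))))) := by
    rw [hLb, Real.log_mul (by norm_num) (Real.exp_pos _).ne', Real.log_exp, l16]
    linarith
  exact (Real.log_le_log_iff hb0 (by positivity)).1 h6

/-- the number of extra siblings -/
theorem exists_s49 (b : ℝ) (hb0 : 0 < b) : ∃ s : ℕ, 1 + 4 / b ≤ 2 ^ s ∧ (2 : ℝ) ^ s ≤ 2 * (1 + 4 / b) := by
  have h0 : 1 ≤ 1 + 4 / b := by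
    have : 0 < 4 / b := by positivity
    linarith
  obtain ⟨n, hn1, hn2⟩ := exists_nat_pow_near h0 (by norm_num : (1 : ℝ) < 2)
  refine ⟨n + 1, hn2.le, ?_⟩
  rw [pow_succ]
  linarith

/-- the corner bit of the next sibling is exponentially small -/
theorem bott_bound {N S : ℕ} [Fintype A] (w : Ω → ℝ) (hw : ∀ ω, 0 ≤ w ω) (htot : tot w ≤ 1)
    (T : Ω → Submodule (ZMod 2) (V N)) (D : Ω → B) (Cc : V N → A) (X : V N → V S)
    (hcard : Fintype.card A * 2 ^ S = 2 ^ N) (hinj : Function.Injective (fun x => (Cc x, X x)))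
    (b v : ℝ) (hb0 : 0 < b) (hb1 : b ≤ tot w) (hv : 0 ≤ v) (s : ℕ) (hs1 : 1 + 4 / b ≤ 2 ^ s)
    (hs2 : (2 : ℝ) ^ s ≤ 2 * (1 + 4 / b))
    (hb : ∀ a : V S, a ≠ 0 → b ≤ KK (sib w T 1) (fun p => X (p.2 0) ⬝ᵥ a)
      (fun p => (Cc (p.2 0), D p.1)))
    (hV : ∀ S' : Set Ω, (∀ ω ω', T ω = T ω' → D ω = D ω' → (ω ∈ S' ↔ ω' ∈ S')) →
      b / 8 ≤ tot (ind S' w) →
      KK (sib (ind S' w) T s) (fun p => p.2) (fun p => D p.1) ≤ tot (ind S' w) * (s * v)) :
    b ≤ 16 * Real.exp (-(S / (8 * (v + 1)))) := by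
  classical
  set W := sib w T 1 with hWdef
  have hW : ∀ p, 0 ≤ W p := sib_nonneg w hw T 1
  have htW : tot W = tot w := tot_sib w T 1
  set Cp : Ω × (Fin 1 → V N) → A := fun p => Cc (p.2 0) with hCp
  set Xp : Ω × (Fin 1 → V N) → V S := fun p => X (p.2 0) with hXp
  set Dp : Ω × (Fin 1 → V N) → B := fun p => D p.1 with hDp
  set κ : ℝ := 2 ^ S * (b ^ 2 / 8) with hκ
  have hκ0 : 0 < κ := by positivity
  -- the collision
  have h1 : b ≤ collP W Xp (fun p => (Cp p, Dp p)) :=
    le_collP_bits W hW Xp (fun p => (Cp p, Dp p)) b hb (by rw [htW]; exact hb1)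
  have h2 := collP_prob W hW (by rw [htW]; exact htot) Xp (fun p => (Cp p, Dp p)) b hb0.le h1
  have h3 := low_dens49 W hW Cp Dp (b / 4) (by positivity)
  -- the density of the extended sibling
  set E : B → Set (V N) := fun d =>
    {x | κ ≤ 2 ^ N * mass W (fun p => (p.2 0, Dp p)) (x, d) / mass W Dp d} with hE
  have h4 : b / 4 ≤ pr W {p | p.2 0 ∈ E (D p.1)} := by
    have h5 : pr W {ω | b / 2 ≤ mass W (fun ω => (Xp ω, Cp ω, Dp ω)) (Xp ω, Cp ω, Dp ω) /
        mass W (fun p => (Cp p, Dp p)) (Cp ω, Dp ω)} ≤ pr W {p | p.2 0 ∈ E (D p.1)} +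
        pr W {ω | Fintype.card A * mass W (fun ω => (Cp ω, Dp ω)) (Cp ω, Dp ω) /
          mass W Dp (Dp ω) < b / 4} := by
      unfold pr tot
      rw [← Finset.sum_add_distrib]
      refine Finset.sum_le_sum fun p _ => ?_
      by_cases hp0 : W p = 0
      · have hz : ∀ G : Set (Ω × (Fin 1 → V N)), ind G W p = 0 := by
          intro G
          by_cases hG : p ∈ G
          · simp [ind, hG, hp0]
          · simp [ind, hG]
        rw [hz, hz, hz, add_zero]
      have hnn : ∀ G : Set (Ω × (Fin 1 → V N)), 0 ≤ ind G W p := fun G =>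
        Set.indicator_nonneg (fun _ _ => hW _) _
      have hmem : ∀ G : Set (Ω × (Fin 1 → V N)), p ∈ G → ind G W p = W p := by
        intro G hG
        simp [ind, hG]
      have hnmem : ∀ G : Set (Ω × (Fin 1 → V N)), p ∉ G → ind G W p = 0 := by
        intro G hG
        simp [ind, hG]
      by_cases hA1 : p ∈ {ω | b / 2 ≤ mass W (fun ω => (Xp ω, Cp ω, Dp ω)) (Xp ω, Cp ω, Dp ω) /
        mass W (fun p => (Cp p, Dp p)) (Cp ω, Dp ω)}
      · by_cases hA2 : p ∈ {ω | Fintype.card A * mass W (fun ω => (Cp ω, Dp ω)) (Cp ω, Dp ω) /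
          mass W Dp (Dp ω) < b / 4}
        · rw [hmem _ hA1, hmem _ hA2]
          linarith [hnn {p | p.2 0 ∈ E (D p.1)}]
        · have hA3 : p ∈ {p : Ω × (Fin 1 → V N) | p.2 0 ∈ E (D p.1)} := by
            have e1 : b / 2 ≤ mass W (fun ω => (Xp ω, Cp ω, Dp ω)) (Xp p, Cp p, Dp p) /
              mass W (fun p => (Cp p, Dp p)) (Cp p, Dp p) := hA1
            have e2 : b / 4 ≤ Fintype.card A * mass W (fun ω => (Cp ω, Dp ω)) (Cp p, Dp p) /
              mass W Dp (Dp p) := not_lt.1 hA2
            have e3 : mass W (fun p => (p.2 0, Dp p)) (p.2 0, Dp p) =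
                mass W (fun ω => (Xp ω, Cp ω, Dp ω)) (Xp p, Cp p, Dp p) := by
              refine mass_congr W _ _ _ _ fun p' _ => ?_
              constructor
              · intro h
                have h6 : p'.2 0 = p.2 0 := (Prod.mk.inj h).1
                have h7 : Dp p' = Dp p := (Prod.mk.inj h).2
                simp only [hXp, hCp, h6, h7]
              · intro h
                have h6 := Prod.mk.inj h
                have h7 := Prod.mk.inj h6.2
                have h8 : p'.2 0 = p.2 0 := hinj (Prod.ext h7.1 h6.1)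
                rw [h8, h7.2]
            show κ ≤ 2 ^ N * mass W (fun p => (p.2 0, Dp p)) (p.2 0, Dp p) / mass W Dp (Dp p)
            rw [e3]
            have hm1 := mass_pos W hW (fun p => (Cp p, Dp p)) hp0
            have hm2 := mass_pos W hW Dp hp0
            rw [le_div_iff₀ hm1] at e1
            rw [le_div_iff₀ hm2] at e2 ⊢
            have hc : (2 : ℝ) ^ N = Fintype.card A * 2 ^ S := by exact_mod_cast hcard.symm
            rw [hc, hκ]
            have hA0 : (0 : ℝ) ≤ Fintype.card A := Nat.cast_nonneg _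
            have e4 : (Fintype.card A : ℝ) * (b / 2 * mass W (fun p => (Cp p, Dp p)) (Cp p, Dp p)) ≤
                Fintype.card A * mass W (fun ω => (Xp ω, Cp ω, Dp ω)) (Xp p, Cp p, Dp p) :=
              mul_le_mul_of_nonneg_left e1 hA0
            have e5 : b / 2 * (b / 4 * mass W Dp (Dp p)) ≤
                b / 2 * (Fintype.card A * mass W (fun ω => (Cp ω, Dp ω)) (Cp p, Dp p)) :=
              mul_le_mul_of_nonneg_left e2 (by positivity)
            have e6 : b ^ 2 / 8 * mass W Dp (Dp p) ≤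
                Fintype.card A * mass W (fun ω => (Xp ω, Cp ω, Dp ω)) (Xp p, Cp p, Dp p) := by
              nlinarith
            have e7 : (0 : ℝ) ≤ 2 ^ S := by positivity
            calc 2 ^ S * (b ^ 2 / 8) * mass W Dp (Dp p) = 2 ^ S * (b ^ 2 / 8 * mass W Dp (Dp p)) := by
                  ring
              _ ≤ 2 ^ S * (Fintype.card A *
                  mass W (fun ω => (Xp ω, Cp ω, Dp ω)) (Xp p, Cp p, Dp p)) :=
                mul_le_mul_of_nonneg_left e6 e7
              _ = _ := by ring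
          rw [hmem _ hA1, hmem _ hA3]
          linarith [hnn {ω | Fintype.card A * mass W (fun ω => (Cp ω, Dp ω)) (Cp ω, Dp ω) /
            mass W Dp (Dp ω) < b / 4}]
      · rw [hnmem _ hA1]
        exact add_nonneg (hnn _) (hnn _)
    have h6 : b / 4 * tot W ≤ b / 4 := by
      rw [htW]
      have : 0 ≤ b / 4 := by positivity
      nlinarith
    have h7 := h2.trans h5
    linarith
  -- the number of values of large density
  have h5 : ∀ d, (Nat.card (E d) : ℝ) ≤ Real.exp (-Real.log κ) * Fintype.card (V N) := by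
    intro d
    have hcV : (Fintype.card (V N) : ℝ) = 2 ^ N := by simp [V, ZMod.card]
    rw [hcV, Real.exp_neg, Real.exp_log hκ0]
    have h6 : (Nat.card (E d) : ℝ) = ∑ x : V N, if x ∈ E d then (1 : ℝ) else 0 := by
      rw [Finset.sum_boole, Nat.card_eq_fintype_card, Fintype.card_subtype]
    have h7 : (Nat.card (E d) : ℝ) * κ ≤ 2 ^ N := by
      rw [h6, Finset.sum_mul]
      have h8 : ∑ x : V N, (if x ∈ E d then (1 : ℝ) else 0) * κ ≤
          ∑ x : V N, 2 ^ N * mass W (fun p => (p.2 0, Dp p)) (x, d) / mass W Dp d := by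
        refine Finset.sum_le_sum fun x _ => ?_
        by_cases hx : x ∈ E d
        · rw [if_pos hx, one_mul]
          exact hx
        · rw [if_neg hx, zero_mul]
          exact div_nonneg (mul_nonneg (by positivity) (mass_nonneg W hW _ _))
            (mass_nonneg W hW _ _)
      refine h8.trans ?_
      rw [← Finset.sum_div, ← Finset.mul_sum, sum_mass W (fun p => p.2 0) Dp d, mul_div_assoc]
      have h9 : mass W Dp d / mass W Dp d ≤ 1 := div_self_le_one _
      have h10 : (0 : ℝ) ≤ 2 ^ N := by positivity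
      nlinarith
    rw [inv_mul_eq_div, le_div_iff₀ hκ0]
    exact h7
  -- the probability
  have h6 : b / 4 ≤ ∑ ω, w ω * pe T D E ω := by
    refine h4.trans (le_of_eq ?_)
    rw [pr_eq_sum]
    have h7 : ∑ p, (if p ∈ {p : Ω × (Fin 1 → V N) | p.2 0 ∈ E (D p.1)} then W p else 0) =
        ∑ p, sib w T 1 p * (fun (ω : Ω) (x : Fin 1 → V N) => if x 0 ∈ E (D ω) then (1 : ℝ) else 0)
          p.1 p.2 := by
      refine Finset.sum_congr rfl fun p _ => ?_
      simp only [Set.mem_ofPred_eq]
      split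
      · rw [mul_one]
      · rw [mul_zero]
    rw [h7, sum_sib w T 1 (fun (ω : Ω) (x : Fin 1 → V N) => if x 0 ∈ E (D ω) then (1 : ℝ) else 0)]
    refine Finset.sum_congr rfl fun ω _ => ?_
    rw [sum_prod_uT_coord (T ω) 1 0 (fun x => if x ∈ E (D ω) then (1 : ℝ) else 0)]
    unfold pe
    congr 1
  have h7 := tail_event w hw htot T D E s v (Real.log κ) (b / 4) hv (by
    intro S' hS' hq
    exact hV S' hS' (by linarith)) h5 (by positivity) h6 (by
      rw [one_div_div]
      exact hs1)
  exact bott_num S s b v hb0 (hb1.trans htot) hv hs2 h7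

end Pool.Agent.NJ
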