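import Pool.Agent.NJ.Chain81

/-!
S19271 / NJ, the corner bits of the chain (helper81): the window `[1, 1 + (n + 1))` with `i` row siblings
is the extended broom of the window `[2, 2 + n)` with `i` row siblings and one column sibling.
-/

set_option autoImplicit false

namespace Pool.Agent.CutSeq.NJ

open Finset Pool.Agent.CutSeq Pool.Agent.NJ

variable {B L n0 : ℕ}

/-- array, rows, extended column from the larger array and rows -/
def splitF81 (n i : ℕ) : (Un (n + 1) × (Fin i → V (n + 1))) ≃ (Un n × (Fin i → V n)) × V (n + i) :=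
  (splitE n i).trans
    { toFun := fun q => (q.1.1, Fin.append q.1.2 q.2)
      invFun := fun q => ((q.1, fun k => q.2 (Fin.castAdd i k)), fun l => q.2 (Fin.natAdd n l))
      left_inv := by
        rintro ⟨⟨a, v⟩, b⟩
        refine Prod.ext (Prod.ext rfl ?_) ?_
        · funext k
          exact Fin.append_left v b k
        · funext l
          exact Fin.append_right v b l
      right_inv := by
        rintro ⟨a, v⟩
        refine Prod.ext rfl ?_
        funext x
        refine Fin.addCases (fun k => ?_) (fun l => ?_) x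
        · exact Fin.append_left (fun k => v (Fin.castAdd i k)) (fun l => v (Fin.natAdd n l)) k
        · exact Fin.append_right (fun k => v (Fin.castAdd i k)) (fun l => v (Fin.natAdd n l)) l }

theorem splitF_apply81 (α : Seq) (n i : ℕ) (ξ : Fin i → V L) :
    splitF81 n i (wm α L 1 (n + 1), fun l => Xc α L 1 (n + 1) (ξ l)) =
      ((wm α L 2 n, fun l => Xc α L 2 n (ξ l)), colE α L 2 n ξ 1) := by
  have h1 := lowE_wm (L := L) α 1 n
  show (((lowE n (wm α L 1 (n + 1))).1, fun l => tl1 n (Xc α L 1 (n + 1) (ξ l))),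
    Fin.append (lowE n (wm α L 1 (n + 1))).2 (fun l => Xc α L 1 (n + 1) (ξ l) 0)) = _
  rw [h1]
  have h2 : ∀ l, tl1 n (Xc α L 1 (n + 1) (ξ l)) = Xc α L 2 n (ξ l) := by
    intro l
    funext j
    show Xl α L (1 + (n + 1)) (ξ l) (1 + (j.val + 1)) = Xl α L (2 + n) (ξ l) (2 + j.val)
    rw [show 1 + (n + 1) = 2 + n by omega, show 1 + (j.val + 1) = 2 + j.val by omega]
  have h3 : (fun l => Xc α L 1 (n + 1) (ξ l) 0) = fun l => Xl α L (2 + n) (ξ l) 1 := by
    funext l
    show Xl α L (1 + (n + 1)) (ξ l) (1 + 0) = Xl α L (2 + n) (ξ l) 1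
    rw [show 1 + (n + 1) = 2 + n by omega]
  simp only [h2]
  refine Prod.ext rfl ?_
  show Fin.append (colW α L 2 n 1) (fun l => Xc α L 1 (n + 1) (ξ l) 0) = colE α L 2 n ξ 1
  rw [h3]
  rfl

/-- the true extended column as an extended column sibling -/
theorem K0_colE81 (w : Wd B L → ℝ) (hf : FlipInv 2 w) (n i : ℕ) (hn : 1 ≤ n) :
    K0 (pw w (Fin i → V L)) (fun q => ((wm (ext q.1) L 2 n, fun l => Xc (ext q.1) L 2 n (q.2 l)),
        colE (ext q.1) L 2 n q.2 1)) =
      K0 (sib (pw w (Fin i → V L)) (fun q => TCE (ext q.1) L 2 n q.2) 1)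
        (fun p => ((wm (ext p.1.1) L 2 n, fun l => Xc (ext p.1.1) L 2 n (p.1.2 l)), p.2 0)) := by
  classical
  refine KK_law _ _ _ _ _ _ fun a b => ?_
  obtain ⟨⟨m, x⟩, y⟩ := a
  unfold mass
  -- the sum over the words for fixed coins
  have key : ∀ ξ : Fin i → V L, ∑ ω : Wd B L, (if wm (ext ω) L 2 n = m ∧
      (fun l => Xc (ext ω) L 2 n (ξ l)) = x then w ω else 0) *
        (if colE (ext ω) L 2 n ξ 1 = y then (1 : ℝ) else 0) =
      ∑ ω : Wd B L, (if wm (ext ω) L 2 n = m ∧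
        (fun l => Xc (ext ω) L 2 n (ξ l)) = x then w ω else 0) * uT (TCE (ext ω) L 2 n ξ) y := by
    intro ξ
    have h := colE_uniform (B := B) (L := L) 2 n (by omega) hn ξ
      (fun ω => if wm (ext ω) L 2 n = m ∧ (fun l => Xc (ext ω) L 2 n (ξ l)) = x then w ω else 0)
      (by
        intro c ω
        have e1 := sameW_flip (B := B) (L := L) 2 n 2 (Or.inl le_rfl) c ω
        have e2 := hf c ω
        simp only [e1.wm_eq, e1.Xc_eq, e2]) y
    exact h
  have hb : b = () := rfl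
  have L1 : (∑ q : Wd B L × (Fin i → V L), if (((wm (ext q.1) L 2 n,
      fun l => Xc (ext q.1) L 2 n (q.2 l)), colE (ext q.1) L 2 n q.2 1), ()) = (((m, x), y), b) then
        pw w (Fin i → V L) q else 0) =
      (∑ ξ : Fin i → V L, ∑ ω : Wd B L, (if wm (ext ω) L 2 n = m ∧
      (fun l => Xc (ext ω) L 2 n (ξ l)) = x then w ω else 0) *
        (if colE (ext ω) L 2 n ξ 1 = y then (1 : ℝ) else 0)) / (Fintype.card (Fin i → V L) : ℝ) := by
    rw [Fintype.sum_prod_type, Finset.sum_comm, Finset.sum_div]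
    refine Finset.sum_congr rfl fun ξ _ => ?_
    rw [Finset.sum_div]
    refine Finset.sum_congr rfl fun ω _ => ?_
    unfold pw
    simp only [Prod.mk.injEq, and_true]
    by_cases h1 : wm (ext ω) L 2 n = m ∧ (fun l => Xc (ext ω) L 2 n (ξ l)) = x
    · by_cases h2 : colE (ext ω) L 2 n ξ 1 = y
      · rw [if_pos ⟨h1, h2⟩, if_pos h1, if_pos h2, mul_one]
      · rw [if_neg (fun h => h2 h.2), if_pos h1, if_neg h2, mul_zero, zero_div]
    · rw [if_neg (fun h => h1 h.1), if_neg h1, zero_mul, zero_div]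
  have L2 : (∑ p : (Wd B L × (Fin i → V L)) × (Fin 1 → V (n + i)), if (((wm (ext p.1.1) L 2 n,
      fun l => Xc (ext p.1.1) L 2 n (p.1.2 l)), p.2 0), ()) = (((m, x), y), b) then
        sib (pw w (Fin i → V L)) (fun q => TCE (ext q.1) L 2 n q.2) 1 p else 0) =
      (∑ ξ : Fin i → V L, ∑ ω : Wd B L, (if wm (ext ω) L 2 n = m ∧
      (fun l => Xc (ext ω) L 2 n (ξ l)) = x then w ω else 0) *
        uT (TCE (ext ω) L 2 n ξ) y) / (Fintype.card (Fin i → V L) : ℝ) := by
    rw [Fintype.sum_prod_type, Fintype.sum_prod_type, Finset.sum_comm, Finset.sum_div]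
    refine Finset.sum_congr rfl fun ξ _ => ?_
    rw [Finset.sum_div]
    refine Finset.sum_congr rfl fun ω _ => ?_
    rw [← Equiv.sum_comp (Equiv.funUnique (Fin 1) (V (n + i))).symm]
    unfold pw sib
    simp only [Prod.mk.injEq, and_true, Equiv.funUnique_symm_apply, uniqueElim_const,
      Finset.univ_unique, Finset.prod_singleton]
    by_cases h1 : wm (ext ω) L 2 n = m ∧ (fun l => Xc (ext ω) L 2 n (ξ l)) = x
    · rw [if_pos h1, Finset.sum_eq_single y]
      · rw [if_pos ⟨h1, rfl⟩]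
        ring
      · intro z _ hz
        rw [if_neg (fun h => hz h.2)]
      · intro hz
        exact absurd (Finset.mem_univ y) hz
    · rw [if_neg h1, zero_mul, zero_div]
      refine Finset.sum_eq_zero fun z _ => ?_
      rw [if_neg (fun h => h1 h.1)]
  have L3 := Finset.sum_congr (rfl : (Finset.univ : Finset (Fin i → V L)) = Finset.univ)
    (fun ξ _ => key ξ)
  refine Eq.trans ?_ (L1.trans ((congrArg (· / (Fintype.card (Fin i → V L) : ℝ)) L3).trans
    (L2.symm.trans ?_)))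
  · refine Finset.sum_congr rfl fun q _ => ?_
    split_ifs <;> rfl
  · refine Finset.sum_congr rfl fun q _ => ?_
    split_ifs <;> rfl

/-- the window `[1, 1 + (n + 1))` with row siblings is the extended broom with one column sibling -/
theorem Dw_EB81 (w : Wd B L → ℝ) (hw : ∀ ω, 0 ≤ w ω) (n i : ℕ) (hn : 1 ≤ n) (h : n + 2 ≤ B)
    (hf : FlipInv 2 (mv81 1 w)) : Dw (mv81 1 w) 1 (n + 1) i = EB81 w n i 1 := by
  have hw' := mv81_nonneg 1 w hw
  have hp : ∀ q, 0 ≤ pw (mv81 1 w) (Fin i → V L) q := pw_nonneg _ hw'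
  have hA : K0 (pw (mv81 1 w) (Fin i → V L))
      (fun q => (wm (ext q.1) L 1 (n + 1), fun l => Xc (ext q.1) L 1 (n + 1) (q.2 l))) =
      Dw (mv81 1 w) 1 (n + 1) i := K0_rows_eq (mv81 1 w) (fun ω => ω) 1 (n + 1) i
  have hB : K0 (pw (mv81 1 w) (Fin i → V L)) (fun q => ((wm (ext q.1) L 2 n,
        fun l => Xc (ext q.1) L 2 n (q.2 l)), colE (ext q.1) L 2 n q.2 1)) =
      K0 (pw (mv81 1 w) (Fin i → V L))
        (fun q => (wm (ext q.1) L 1 (n + 1), fun l => Xc (ext q.1) L 1 (n + 1) (q.2 l))) :=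
    K0_bij _ hp _ _ (splitF81 n i) fun q _ => (splitF_apply81 (ext q.1) n i q.2).symm
  have hC := K0_colE81 (mv81 1 w) hf n i hn
  have hD : K0 (cw (mv81 1 w) L L (Fin i) (Fin 1))
      (fun p => obs (rg B L 2 n) p.1 p.2.1 p.2.2) =
      K0 (sib (pw (mv81 1 w) (Fin i → V L)) (fun q => TCE (ext q.1) L 2 n q.2) 1)
        (fun p => ((wm (ext p.1.1) L 2 n, fun l => Xc (ext p.1.1) L 2 n (p.1.2 l)), p.2)) :=
    K0_broom_eq (mv81 1 w) hw' (fun ω => ω) 2 n i 1
  have hE : K0 (sib (pw (mv81 1 w) (Fin i → V L)) (fun q => TCE (ext q.1) L 2 n q.2) 1)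
        (fun p => ((wm (ext p.1.1) L 2 n, fun l => Xc (ext p.1.1) L 2 n (p.1.2 l)), p.2 0)) =
      K0 (sib (pw (mv81 1 w) (Fin i → V L)) (fun q => TCE (ext q.1) L 2 n q.2) 1)
        (fun p => ((wm (ext p.1.1) L 2 n, fun l => Xc (ext p.1.1) L 2 n (p.1.2 l)), p.2)) :=
    K0_bij _ (sib_nonneg_sib _ hp _ 1) _ _
      ((Equiv.refl (Un n × (Fin i → V n))).prodCongr (Equiv.funUnique (Fin 1) (V (n + i))))
      fun p _ => rfl
  have hF := EB_mv81 w 1 n i 1 hn (by omega)
  rw [← hA, ← hB, hC, hE, ← hD, ← hF]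

/-- the corner bits of the chain -/
theorem bott_eq81 (w : Wd B L → ℝ) (hw : ∀ ω, 0 ≤ w ω) (n i : ℕ) (hn : 1 ≤ n) (h : n + 2 ≤ B)
    (hf : FlipInv 2 (fun ω => w (rot B L 1 ω))) :
    bott (fun ω => w (rot B L 1 ω)) 1 n i =
      K0 (cw w L L (Fin i) (Fin 1)) (fun p => obs (rg B L 1 n) p.1 p.2.1 p.2.2) -
        UU w (fun ω => TR (ext ω) L 1 n) (fun ω => TC (ext ω) L 1 n)
          (fun ω => wm (ext ω) L 1 n) i 1 := by
  have hw' := mv81_nonneg 1 w hw
  have h1 := chain_step (mv81 1 w) hw' 1 n i hf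
  have h2 := Dw_EB81 w hw n i hn h hf
  have h3 := Dw_mv81 w 1 n i (by omega)
  have h4 := fw_mv81 w 1 n i (by omega)
  have h5 := Dw_eq_UU81 w hw 1 n i
  have h6 := fw_eq_UU81 w hw 1 n i
  have h7 : bott (fun ω => w (rot B L 1 ω)) 1 n i = bott (mv81 1 w) 1 n i := rfl
  have h8 : EB81 w n i 1 =
      K0 (cw w L L (Fin i) (Fin 1)) (fun p => obs (rg B L 1 n) p.1 p.2.1 p.2.2) := rfl
  rw [h7, ← h8, ← h2]
  rw [h3, h4, h5, h6] at h1
  linarith

/-- the corner bits of the chain, for the weights of a family of events -/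
theorem bott_ind81 (h : n0 + 2 ≤ B) {G : ℕ → Set (Wd B L)} (hG : Fam19 B L n0 G) (n i : ℕ)
    (hn : 1 ≤ n) (hn0 : n ≤ n0) :
    bott (ind {ω | rot B L 1 ω ∈ G n} (uw B L)) 1 n i =
      K0 (cw (ind (G n) (uw B L)) L L (Fin i) (Fin 1))
          (fun p => obs (rg B L 1 n) p.1 p.2.1 p.2.2) -
        UU (ind (G n) (uw B L)) (fun ω => TR (ext ω) L 1 n) (fun ω => TC (ext ω) L 1 n)
          (fun ω => wm (ext ω) L 1 n) i 1 := by
  have h1 := bott_eq81 (ind (G n) (uw B L)) (ind_nonneg81 _) n i hn (by omega)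
    (flipInv81 (G n) n (by omega) (hG.lev n hn0))
  rw [← h1, ← tot_ind_pull81]
  rfl

end Pool.Agent.CutSeq.NJ
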