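import Pool.Agent.CutSeq.Ent

/-! Entropy toolbox: conditional entropy with arbitrary codomain, mutual information.
Same conventions as `CutSeq/Ent.lean`: weights of total mass at most one (or arbitrary), nats,
everything unnormalised. -/

set_option autoImplicit false

namespace Pool.Agent.CutSeq.NJ

open Finset

variable {Ω Ω' A A' A'' B B' : Type*} [Fintype Ω] [Fintype Ω']

/-- unnormalised conditional entropy of `X` given `Y` -/
noncomputable def CE (w : Ω → ℝ) (X : Ω → A) (Y : Ω → B) : ℝ :=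
  ∑ ω, w ω * Real.log (mass w Y (Y ω) / mass w (fun ω => (X ω, Y ω)) (X ω, Y ω))

/-- unnormalised conditional mutual information of `X` and `X'` given `Y` -/
noncomputable def MI (w : Ω → ℝ) (X : Ω → A) (X' : Ω → A') (Y : Ω → B) : ℝ :=
  CE w X Y - CE w X (fun ω => (X' ω, Y ω))

/-- the joint mass is at most the marginal mass -/
lemma mass_pair_le (w : Ω → ℝ) (hw : ∀ ω, 0 ≤ w ω) (X : Ω → A) (Y : Ω → B) (a : A) (b : B) :
    mass w (fun ω => (X ω, Y ω)) (a, b) ≤ mass w Y b :=
  mass_mono w hw _ _ _ _ (fun _ h => (Prod.mk.inj h).2)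

/-- (A1) -/
theorem CE_nonneg (w : Ω → ℝ) (hw : ∀ ω, 0 ≤ w ω) (X : Ω → A) (Y : Ω → B) : 0 ≤ CE w X Y := by
  unfold CE
  refine Finset.sum_nonneg fun ω _ => ?_
  by_cases h : w ω = 0
  · simp [h]
  · refine mul_nonneg (hw ω) (Real.log_nonneg ?_)
    rw [le_div_iff₀ (mass_pos w hw (fun ω => (X ω, Y ω)) h), one_mul]
    exact mass_pair_le w hw X Y _ _

/-- (A2) relation with the relative entropy -/
theorem KK_eq_sub_CE [Fintype A] (w : Ω → ℝ) (hw : ∀ ω, 0 ≤ w ω) (X : Ω → A) (Y : Ω → B) :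
    KK w X Y = tot w * Real.log (Fintype.card A) - CE w X Y := by
  unfold KK CE tot
  rw [Finset.sum_mul, ← Finset.sum_sub_distrib]
  refine Finset.sum_congr rfl fun ω _ => ?_
  by_cases h : w ω = 0
  · simp [h]
  · have m1 := mass_pos w hw (fun ω => (X ω, Y ω)) h
    have m2 := mass_pos w hw Y h
    have hA : (0 : ℝ) < Fintype.card A := by
      have : Nonempty A := ⟨X ω⟩
      exact_mod_cast Fintype.card_pos
    rw [← mul_sub, ← Real.log_div hA.ne' (by positivity)]
    congr 2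
    field_simp

/-- the basic counting inequality -/
lemma basic_count' (w : Ω → ℝ) (hw : ∀ ω, 0 ≤ w ω) (X : Ω → A) (Y : Ω → B) (s : Finset A)
    (hs : ∀ ω, w ω ≠ 0 → X ω ∈ s) (ψ : A → B → ℝ) (hψ : ∀ a b, 0 ≤ ψ a b) :
    ∑ ω, w ω * (ψ (X ω) (Y ω) * mass w Y (Y ω) / mass w (fun ω => (X ω, Y ω)) (X ω, Y ω)) ≤
      ∑ ω, w ω * ∑ a ∈ s, ψ a (Y ω) := by
  classical
  set sB : Finset B := Finset.univ.image Y with hsB
  have h1 := sum_eq_sum_mass w (fun ω => (X ω, Y ω)) (s ×ˢ sB)
    (by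
      intro ω hω
      simp [hsB, hs ω hω])
    (fun c => ψ c.1 c.2 * mass w Y c.2 / mass w (fun ω => (X ω, Y ω)) c)
  have h2 := sum_eq_sum_mass w Y sB
    (by
      intro ω _
      simp [hsB])
    (fun b => ∑ a ∈ s, ψ a b)
  rw [h1, h2, Finset.sum_product_right]
  refine Finset.sum_le_sum fun b _ => ?_
  rw [Finset.mul_sum]
  refine Finset.sum_le_sum fun a _ => ?_
  have hb := mass_nonneg w hw Y b
  by_cases hm : mass w (fun ω => (X ω, Y ω)) (a, b) = 0
  · rw [hm, zero_mul]
    exact mul_nonneg hb (hψ a b)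
  · have : mass w (fun ω => (X ω, Y ω)) (a, b) *
        (ψ (a, b).1 (a, b).2 * mass w Y (a, b).2 / mass w (fun ω => (X ω, Y ω)) (a, b)) =
        mass w Y b * ψ a b := by
      field_simp
    exact this.le

/-- (A3) Gibbs inequality: a conditional sub-density bounds the entropy from above -/
theorem CE_gibbs (w : Ω → ℝ) (hw : ∀ ω, 0 ≤ w ω) (X : Ω → A) (Y : Ω → B) (s : Finset A)
    (hs : ∀ ω, w ω ≠ 0 → X ω ∈ s) (ψ : A → B → ℝ) (hψ : ∀ a b, 0 ≤ ψ a b)
    (hpos : ∀ ω, w ω ≠ 0 → 0 < ψ (X ω) (Y ω))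
    (hsum : ∀ ω, w ω ≠ 0 → ∑ a ∈ s, ψ a (Y ω) ≤ 1) :
    CE w X Y ≤ ∑ ω, w ω * Real.log (1 / ψ (X ω) (Y ω)) := by
  have h1 := basic_count' w hw X Y s hs ψ hψ
  have h2 : ∑ ω, w ω * ∑ a ∈ s, ψ a (Y ω) ≤ ∑ ω, w ω * 1 := by
    refine Finset.sum_le_sum fun ω _ => ?_
    by_cases h : w ω = 0
    · simp [h]
    · exact mul_le_mul_of_nonneg_left (hsum ω h) (hw ω)
  have h3 : ∀ ω ∈ (Finset.univ : Finset Ω),
      w ω * Real.log (mass w Y (Y ω) / mass w (fun ω => (X ω, Y ω)) (X ω, Y ω)) -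
        w ω * Real.log (1 / ψ (X ω) (Y ω)) ≤
      w ω * (ψ (X ω) (Y ω) * mass w Y (Y ω) / mass w (fun ω => (X ω, Y ω)) (X ω, Y ω)) -
        w ω * 1 := by
    intro ω _
    by_cases h : w ω = 0
    · simp [h]
    · have m1 := mass_pos w hw (fun ω => (X ω, Y ω)) h
      have m2 := mass_pos w hw Y h
      have hp := hpos ω h
      rw [← mul_sub, ← mul_sub]
      refine mul_le_mul_of_nonneg_left ?_ (hw ω)
      rw [← Real.log_div (by positivity) (by positivity)]
      refine le_trans (le_of_eq ?_) (Real.log_le_sub_one_of_pos (x := ψ (X ω) (Y ω) *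
        mass w Y (Y ω) / mass w (fun ω => (X ω, Y ω)) (X ω, Y ω)) (by positivity))
      congr 1
      field_simp
  have h4 := Finset.sum_le_sum h3
  rw [Finset.sum_sub_distrib, Finset.sum_sub_distrib] at h4
  unfold CE
  linarith

/-- (A4) chain rule -/
theorem CE_chain (w : Ω → ℝ) (hw : ∀ ω, 0 ≤ w ω) (X : Ω → A) (X' : Ω → A') (Y : Ω → B) :
    CE w (fun ω => (X ω, X' ω)) Y = CE w X Y + CE w X' (fun ω => (X ω, Y ω)) := by
  unfold CE
  rw [← Finset.sum_add_distrib]
  refine Finset.sum_congr rfl fun ω _ => ?_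
  by_cases h : w ω = 0
  · simp [h]
  · have e1 : mass w (fun ω => ((X ω, X' ω), Y ω)) ((X ω, X' ω), Y ω) =
        mass w (fun ω => (X' ω, (X ω, Y ω))) (X' ω, (X ω, Y ω)) := by
      refine mass_congr w _ _ _ _ fun ω' _ => ?_
      simp only [Prod.mk.injEq]
      tauto
    have m1 := mass_pos w hw (fun ω => (X' ω, (X ω, Y ω))) h
    have m2 := mass_pos w hw (fun ω => (X ω, Y ω)) h
    have m3 := mass_pos w hw Y h
    rw [← mul_add, ← Real.log_mul (by positivity) (by positivity), e1]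
    congr 2
    field_simp

/-- (A5) only the joint law matters -/
theorem CE_law (w : Ω → ℝ) (w' : Ω' → ℝ) (X : Ω → A) (Y : Ω → B) (X' : Ω' → A) (Y' : Ω' → B)
    (h : ∀ a b, mass w (fun ω => (X ω, Y ω)) (a, b) = mass w' (fun ω => (X' ω, Y' ω)) (a, b)) :
    CE w X Y = CE w' X' Y' := by
  classical
  set s : Finset A := Finset.univ.image X ∪ Finset.univ.image X' with hsdef
  have hY : ∀ b, mass w Y b = mass w' Y' b := by
    intro b
    have e1 : mass w Y b = ∑ a ∈ s, mass w (fun ω => (X ω, Y ω)) (a, b) := by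
      unfold mass
      rw [Finset.sum_comm]
      refine Finset.sum_congr rfl fun ω _ => ?_
      by_cases hb : Y ω = b
      · rw [if_pos hb, Finset.sum_eq_single_of_mem (X ω) (by simp [hsdef])]
        · simp [hb]
        · intro a _ ha
          rw [if_neg]
          rw [Prod.mk.injEq]
          rintro ⟨h1, -⟩
          exact ha h1.symm
      · rw [if_neg hb]
        symm
        refine Finset.sum_eq_zero fun a _ => ?_
        rw [if_neg]
        rw [Prod.mk.injEq]
        rintro ⟨-, h1⟩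
        exact hb h1
    have e2 : mass w' Y' b = ∑ a ∈ s, mass w' (fun ω => (X' ω, Y' ω)) (a, b) := by
      unfold mass
      rw [Finset.sum_comm]
      refine Finset.sum_congr rfl fun ω _ => ?_
      by_cases hb : Y' ω = b
      · rw [if_pos hb, Finset.sum_eq_single_of_mem (X' ω) (by simp [hsdef])]
        · simp [hb]
        · intro a _ ha
          rw [if_neg]
          rw [Prod.mk.injEq]
          rintro ⟨h1, -⟩
          exact ha h1.symm
      · rw [if_neg hb]
        symm
        refine Finset.sum_eq_zero fun a _ => ?_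
        rw [if_neg]
        rw [Prod.mk.injEq]
        rintro ⟨-, h1⟩
        exact hb h1
    rw [e1, e2]
    exact Finset.sum_congr rfl fun a _ => h a b
  set t : Finset (A × B) := s ×ˢ (Finset.univ.image Y ∪ Finset.univ.image Y') with ht
  have h1 := sum_eq_sum_mass w (fun ω => (X ω, Y ω)) t (by
      intro ω _
      simp [ht, hsdef])
    (fun c => Real.log (mass w Y c.2 / mass w (fun ω => (X ω, Y ω)) c))
  have h2 := sum_eq_sum_mass w' (fun ω => (X' ω, Y' ω)) t (by
      intro ω _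
      simp [ht, hsdef])
    (fun c => Real.log (mass w' Y' c.2 / mass w' (fun ω => (X' ω, Y' ω)) c))
  unfold CE
  rw [h1, h2]
  refine Finset.sum_congr rfl fun c _ => ?_
  obtain ⟨a, b⟩ := c
  simp only [h a b, hY b]

/-- (A6) finer conditioning decreases the entropy -/
theorem CE_finer (w : Ω → ℝ) (hw : ∀ ω, 0 ≤ w ω) (X : Ω → A) (Y : Ω → B) (Y' : Ω → B')
    (h : ∀ ω ω', w ω ≠ 0 → w ω' ≠ 0 → Y' ω = Y' ω' → Y ω = Y ω') : CE w X Y' ≤ CE w X Y := by
  classical
  set ψ : A → B' → ℝ := fun a b' =>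
    if hb : ∃ ω, w ω ≠ 0 ∧ Y' ω = b' then
      mass w (fun ω => (X ω, Y ω)) (a, Y hb.choose) / mass w Y (Y hb.choose)
    else 0 with hψdef
  have hval : ∀ ω, w ω ≠ 0 → ∀ a, ψ a (Y' ω) =
      mass w (fun ω => (X ω, Y ω)) (a, Y ω) / mass w Y (Y ω) := by
    intro ω hω a
    have hb : ∃ ω', w ω' ≠ 0 ∧ Y' ω' = Y' ω := ⟨ω, hω, rfl⟩
    have e : Y hb.choose = Y ω := h _ _ hb.choose_spec.1 hω hb.choose_spec.2
    simp only [hψdef]
    rw [dif_pos hb, e]
  have key := CE_gibbs w hw X Y' (Finset.univ.image X) (by simp) ψ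
    (by
      intro a b
      simp only [hψdef]
      split
      · exact div_nonneg (mass_nonneg w hw _ _) (mass_nonneg w hw _ _)
      · exact le_rfl)
    (by
      intro ω hω
      rw [hval ω hω]
      exact div_pos (mass_pos w hw (fun ω => (X ω, Y ω)) hω) (mass_pos w hw Y hω))
    (by
      intro ω hω
      simp only [hval ω hω]
      rw [← Finset.sum_div, div_le_one (mass_pos w hw Y hω)]
      unfold mass
      rw [Finset.sum_comm]
      refine Finset.sum_le_sum fun ω' _ => ?_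
      by_cases hb : Y ω' = Y ω
      · rw [if_pos hb, Finset.sum_eq_single_of_mem (X ω') (by simp)]
        · simp [hb]
        · intro a _ ha
          rw [if_neg]
          rw [Prod.mk.injEq]
          rintro ⟨h1, -⟩
          exact ha h1.symm
      · rw [if_neg hb]
        refine le_of_eq (Finset.sum_eq_zero fun a _ => ?_)
        rw [if_neg]
        rw [Prod.mk.injEq]
        rintro ⟨-, h1⟩
        exact hb h1)
  refine key.trans (le_of_eq ?_)
  unfold CE
  refine Finset.sum_congr rfl fun ω _ => ?_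
  by_cases hω : w ω = 0
  · simp [hω]
  · rw [hval ω hω, one_div_div]

/-- (A7) equivalent conditioning -/
theorem CE_cond_congr (w : Ω → ℝ) (hw : ∀ ω, 0 ≤ w ω) (X : Ω → A) (Y : Ω → B) (Y' : Ω → B')
    (h : ∀ ω ω', w ω ≠ 0 → w ω' ≠ 0 → (Y' ω = Y' ω' ↔ Y ω = Y ω')) : CE w X Y' = CE w X Y :=
  le_antisymm (CE_finer w hw X Y Y' fun ω ω' h1 h2 => (h ω ω' h1 h2).1)
    (CE_finer w hw X Y' Y fun ω ω' h1 h2 => (h ω ω' h1 h2).2)

/-- (A8) determined variables have no entropy -/
theorem CE_eq_zero (w : Ω → ℝ) (hw : ∀ ω, 0 ≤ w ω) (X : Ω → A) (Y : Ω → B)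
    (h : ∀ ω ω', w ω ≠ 0 → w ω' ≠ 0 → Y ω = Y ω' → X ω = X ω') : CE w X Y = 0 := by
  unfold CE
  refine Finset.sum_eq_zero fun ω _ => ?_
  by_cases hω : w ω = 0
  · simp [hω]
  · have e : mass w (fun ω => (X ω, Y ω)) (X ω, Y ω) = mass w Y (Y ω) := by
      refine mass_congr w _ _ _ _ fun ω' hω' => ?_
      rw [Prod.mk.injEq]
      exact ⟨fun h' => h'.2, fun h' => ⟨h ω' ω hω' hω h', h'⟩⟩
    rw [e, div_self (mass_pos w hw Y hω).ne', Real.log_one, mul_zero]

/-- (A9) data processing: a function of `X` and `Y` has smaller entropy given `Y` -/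
theorem CE_map (w : Ω → ℝ) (hw : ∀ ω, 0 ≤ w ω) (X : Ω → A) (X' : Ω → A') (Y : Ω → B)
    (h : ∀ ω ω', w ω ≠ 0 → w ω' ≠ 0 → X ω = X ω' → Y ω = Y ω' → X' ω = X' ω') :
    CE w X' Y ≤ CE w X Y := by
  have h1 := CE_chain w hw X X' Y
  have h2 : CE w X' (fun ω => (X ω, Y ω)) = 0 := by
    refine CE_eq_zero w hw _ _ ?_
    intro ω ω' h1 h2 h3
    exact h ω ω' h1 h2 (Prod.mk.inj h3).1 (Prod.mk.inj h3).2
  have h3 := CE_chain w hw X' X Y
  have h4 : CE w (fun ω => (X' ω, X ω)) Y = CE w (fun ω => (X ω, X' ω)) Y := by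
    unfold CE
    refine Finset.sum_congr rfl fun ω _ => ?_
    congr 3
    refine mass_congr w _ _ _ _ fun ω' _ => ?_
    simp only [Prod.mk.injEq]
    tauto
  have h5 := CE_nonneg w hw X (fun ω => (X' ω, Y ω))
  linarith

/-- (A10) equivalent variables -/
theorem CE_congr (w : Ω → ℝ) (hw : ∀ ω, 0 ≤ w ω) (X : Ω → A) (X' : Ω → A') (Y : Ω → B)
    (h : ∀ ω ω', w ω ≠ 0 → w ω' ≠ 0 → Y ω = Y ω' → (X ω = X ω' ↔ X' ω = X' ω')) :
    CE w X' Y = CE w X Y :=
  le_antisymm (CE_map w hw X X' Y fun ω ω' h1 h2 h3 h4 => (h ω ω' h1 h2 h4).1 h3)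
    (CE_map w hw X' X Y fun ω ω' h1 h2 h3 h4 => (h ω ω' h1 h2 h4).2 h3)

/-- (A11) swap in the chain rule -/
theorem CE_swap (w : Ω → ℝ) (hw : ∀ ω, 0 ≤ w ω) (X : Ω → A) (X' : Ω → A') (Y : Ω → B) :
    CE w X Y + CE w X' (fun ω => (X ω, Y ω)) = CE w X' Y + CE w X (fun ω => (X' ω, Y ω)) := by
  rw [← CE_chain w hw X X' Y, ← CE_chain w hw X' X Y]
  refine CE_congr w hw _ _ Y fun ω ω' _ _ _ => ?_
  simp only [Prod.mk.injEq]
  tauto

/-- (A12) subadditivity -/
theorem CE_sub (w : Ω → ℝ) (hw : ∀ ω, 0 ≤ w ω) (X : Ω → A) (X' : Ω → A') (Y : Ω → B) :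
    CE w (fun ω => (X ω, X' ω)) Y ≤ CE w X Y + CE w X' Y := by
  rw [CE_chain w hw X X' Y]
  have := CE_finer w hw X' Y (fun ω => (X ω, Y ω)) (by
    intro ω ω' _ _ h
    exact (Prod.mk.inj h).2)
  linarith

/-- (A13) list bound: `X` lies in a finite set depending on `Y` -/
theorem CE_le_list (w : Ω → ℝ) (hw : ∀ ω, 0 ≤ w ω) (X : Ω → A) (Y : Ω → B) (L : B → Finset A)
    (hL : ∀ ω, w ω ≠ 0 → X ω ∈ L (Y ω)) :
    CE w X Y ≤ ∑ ω, w ω * Real.log ((L (Y ω)).card) := by
  classical
  have key := CE_gibbs w hw X Y (Finset.univ.image X) (by simp)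
    (fun a b => if a ∈ L b then 1 / ((L b).card : ℝ) else 0)
    (by
      intro a b
      split
      · positivity
      · exact le_rfl)
    (by
      intro ω hω
      rw [if_pos (hL ω hω)]
      have : 0 < (L (Y ω)).card := Finset.card_pos.2 ⟨_, hL ω hω⟩
      positivity)
    (by
      intro ω hω
      rw [← Finset.sum_filter, Finset.sum_const, nsmul_eq_mul]
      have h0 : 0 < (L (Y ω)).card := Finset.card_pos.2 ⟨_, hL ω hω⟩
      have h1 : ((Finset.univ.image X).filter fun a => a ∈ L (Y ω)).card ≤ (L (Y ω)).card := by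
        refine Finset.card_le_card fun a ha => ?_
        exact (Finset.mem_filter.1 ha).2
      rw [mul_one_div, div_le_one (by positivity)]
      exact_mod_cast h1)
  refine key.trans (le_of_eq ?_)
  refine Finset.sum_congr rfl fun ω _ => ?_
  by_cases hω : w ω = 0
  · simp [hω]
  · rw [if_pos (hL ω hω), one_div_one_div]

/-- (A14) support bound -/
theorem CE_le_card (w : Ω → ℝ) (hw : ∀ ω, 0 ≤ w ω) (X : Ω → A) (Y : Ω → B) (s : Finset A)
    (hs : ∀ ω, w ω ≠ 0 → X ω ∈ s) : CE w X Y ≤ tot w * Real.log s.card := by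
  refine (CE_le_list w hw X Y (fun _ => s) hs).trans (le_of_eq ?_)
  unfold tot
  rw [Finset.sum_mul]

theorem CE_le_univ [Fintype A] (w : Ω → ℝ) (hw : ∀ ω, 0 ≤ w ω) (X : Ω → A) (Y : Ω → B) :
    CE w X Y ≤ tot w * Real.log (Fintype.card A) :=
  CE_le_card w hw X Y Finset.univ (fun _ _ => Finset.mem_univ _)

/-- (A15) Fano inequality with lists: `X` lies in the list `L (Y)` except on a set of mass `δ` -/
theorem CE_fano (w : Ω → ℝ) (hw : ∀ ω, 0 ≤ w ω) (X : Ω → A) (Y : Ω → B) (s : Finset A)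
    (hs : ∀ ω, w ω ≠ 0 → X ω ∈ s) (L : B → Finset A) :
    CE w X Y ≤ ∑ ω, ind {ω | X ω ∈ L (Y ω)} w ω * Real.log ((L (Y ω)).card)
      + pr w {ω | X ω ∉ L (Y ω)} * Real.log s.card
      + HH (pr w {ω | X ω ∈ L (Y ω)}) (pr w {ω | X ω ∉ L (Y ω)}) := by
  classical
  set G : Set Ω := {ω | X ω ∈ L (Y ω)} with hG
  set D : Set Ω := {ω | X ω ∉ L (Y ω)} with hD
  set g : ℝ := pr w G with hg
  set δ : ℝ := pr w D with hδ
  have hind : ∀ (E : Set Ω) ω, 0 ≤ ind E w ω := fun E ω =>
    Set.indicator_nonneg (fun ω _ => hw ω) ω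
  have hg0 : 0 ≤ g := Finset.sum_nonneg fun ω _ => hind G ω
  have hδ0 : 0 ≤ δ := Finset.sum_nonneg fun ω _ => hind D ω
  have hgpos : ∀ ω, w ω ≠ 0 → X ω ∈ L (Y ω) → 0 < g := by
    intro ω h1 h2
    have h3 : ind G w ω = w ω := Set.indicator_of_mem (s := G) h2 w
    refine lt_of_lt_of_le ?_ (Finset.single_le_sum (f := ind G w) (fun ω _ => hind G ω)
      (Finset.mem_univ ω))
    rw [h3]
    exact lt_of_le_of_ne (hw ω) (Ne.symm h1)
  have hδpos : ∀ ω, w ω ≠ 0 → X ω ∉ L (Y ω) → 0 < δ := by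
    intro ω h1 h2
    have h3 : ind D w ω = w ω := Set.indicator_of_mem (s := D) h2 w
    refine lt_of_lt_of_le ?_ (Finset.single_le_sum (f := ind D w) (fun ω _ => hind D ω)
      (Finset.mem_univ ω))
    rw [h3]
    exact lt_of_le_of_ne (hw ω) (Ne.symm h1)
  by_cases hz : g + δ = 0
  · -- the weight vanishes
    have hg1 : g = 0 := by linarith
    have hδ1 : δ = 0 := by linarith
    have hw0 : ∀ ω, w ω = 0 := by
      intro ω
      by_contra h
      by_cases h2 : X ω ∈ L (Y ω)
      · exact absurd (hgpos ω h h2) (by rw [hg1]; exact lt_irrefl _)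
      · exact absurd (hδpos ω h h2) (by rw [hδ1]; exact lt_irrefl _)
    have h1 : CE w X Y = 0 := by
      unfold CE
      refine Finset.sum_eq_zero fun ω _ => ?_
      rw [hw0 ω, zero_mul]
    have h2 : ∑ ω, ind G w ω * Real.log ((L (Y ω)).card) = 0 := by
      refine Finset.sum_eq_zero fun ω _ => ?_
      have : ind G w ω = 0 := by
        unfold ind
        by_cases h3 : ω ∈ G
        · rw [Set.indicator_of_mem h3, hw0]
        · rw [Set.indicator_of_notMem h3]
      rw [this, zero_mul]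
    rw [h1, h2, hg1, hδ1]
    simp [HH]
  have hpos : 0 < g + δ := lt_of_le_of_ne (by positivity) (Ne.symm hz)
  have key := CE_gibbs w hw X Y s hs
    (fun a b => if a ∈ L b then (g / (g + δ)) * (1 / ((L b).card : ℝ))
      else (δ / (g + δ)) * (1 / (s.card : ℝ)))
    (by
      intro a b
      split <;> positivity)
    (by
      intro ω hω
      have h0 : 0 < s.card := Finset.card_pos.2 ⟨_, hs ω hω⟩
      by_cases h2 : X ω ∈ L (Y ω)
      · rw [if_pos h2]
        have h3 : 0 < (L (Y ω)).card := Finset.card_pos.2 ⟨_, h2⟩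
        have := hgpos ω hω h2
        positivity
      · rw [if_neg h2]
        have := hδpos ω hω h2
        positivity)
    (by
      intro ω hω
      have h0 : 0 < s.card := Finset.card_pos.2 ⟨_, hs ω hω⟩
      have h1 : ∑ a ∈ s, (if a ∈ L (Y ω) then (g / (g + δ)) * (1 / ((L (Y ω)).card : ℝ))
          else (δ / (g + δ)) * (1 / (s.card : ℝ))) ≤
          ∑ a ∈ s, ((if a ∈ L (Y ω) then (g / (g + δ)) * (1 / ((L (Y ω)).card : ℝ)) else 0)
          + (δ / (g + δ)) * (1 / (s.card : ℝ))) := by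
        refine Finset.sum_le_sum fun a _ => ?_
        split
        · have : 0 ≤ (δ / (g + δ)) * (1 / (s.card : ℝ)) := by positivity
          linarith
        · rw [zero_add]
      refine h1.trans ?_
      rw [Finset.sum_add_distrib, ← Finset.sum_filter, Finset.sum_const, Finset.sum_const,
        nsmul_eq_mul, nsmul_eq_mul]
      have h2 : ((s.filter fun a => a ∈ L (Y ω)).card : ℝ) * ((g / (g + δ)) *
          (1 / ((L (Y ω)).card : ℝ))) ≤ g / (g + δ) := by
        have h3 : (s.filter fun a => a ∈ L (Y ω)).card ≤ (L (Y ω)).card :=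
          Finset.card_le_card fun a ha => (Finset.mem_filter.1 ha).2
        rcases Nat.eq_zero_or_pos (L (Y ω)).card with h4 | h4
        · rw [h4] at h3
          have h5 : (s.filter fun a => a ∈ L (Y ω)).card = 0 := by omega
          rw [h5]
          simp only [Nat.cast_zero, zero_mul]
          positivity
        · have h5 : ((s.filter fun a => a ∈ L (Y ω)).card : ℝ) * (1 / ((L (Y ω)).card : ℝ)) ≤ 1 := by
            rw [mul_one_div, div_le_one (by positivity)]
            exact_mod_cast h3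
          calc ((s.filter fun a => a ∈ L (Y ω)).card : ℝ) * ((g / (g + δ)) *
                (1 / ((L (Y ω)).card : ℝ)))
              = (g / (g + δ)) * (((s.filter fun a => a ∈ L (Y ω)).card : ℝ) *
                (1 / ((L (Y ω)).card : ℝ))) := by ring
            _ ≤ (g / (g + δ)) * 1 := mul_le_mul_of_nonneg_left h5 (by positivity)
            _ = g / (g + δ) := mul_one _
      have h6 : (s.card : ℝ) * ((δ / (g + δ)) * (1 / (s.card : ℝ))) = δ / (g + δ) := by
        field_simp
      rw [h6]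
      have h7 : g / (g + δ) + δ / (g + δ) = 1 := by
        rw [← add_div, div_self hpos.ne']
      linarith)
  refine key.trans (le_of_eq ?_)
  have hsplit : ∀ ω, w ω * Real.log (1 / (if X ω ∈ L (Y ω) then
      (g / (g + δ)) * (1 / ((L (Y ω)).card : ℝ)) else (δ / (g + δ)) * (1 / (s.card : ℝ)))) =
      ind G w ω * Real.log ((L (Y ω)).card) + ind D w ω * Real.log s.card +
        (ind G w ω * Real.log ((g + δ) / g) + ind D w ω * Real.log ((g + δ) / δ)) := by
    intro ω
    by_cases hω : w ω = 0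
    · have h1 : ∀ E : Set Ω, ind E w ω = 0 := by
        intro E
        unfold ind
        by_cases h3 : ω ∈ E
        · rw [Set.indicator_of_mem h3, hω]
        · rw [Set.indicator_of_notMem h3]
      rw [h1, h1, hω]
      ring
    · have h0 : 0 < s.card := Finset.card_pos.2 ⟨_, hs ω hω⟩
      by_cases h2 : X ω ∈ L (Y ω)
      · have h3 : ind G w ω = w ω := Set.indicator_of_mem (s := G) h2 w
        have h4 : ind D w ω = 0 := Set.indicator_of_notMem (s := D) (fun h => h h2) w
        have h5 : 0 < (L (Y ω)).card := Finset.card_pos.2 ⟨_, h2⟩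
        have h6 := hgpos ω hω h2
        rw [if_pos h2, h3, h4, zero_mul, zero_mul, add_zero, add_zero, ← mul_add,
          ← Real.log_mul (by positivity) (by positivity)]
        congr 2
        field_simp
      · have h3 : ind G w ω = 0 := Set.indicator_of_notMem (s := G) h2 w
        have h4 : ind D w ω = w ω := Set.indicator_of_mem (s := D) h2 w
        have h6 := hδpos ω hω h2
        rw [if_neg h2, h3, h4, zero_mul, zero_mul, zero_add, zero_add, ← mul_add,
          ← Real.log_mul (by positivity) (by positivity)]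
        congr 2
        field_simp
  rw [Finset.sum_congr rfl fun ω _ => hsplit ω, Finset.sum_add_distrib, Finset.sum_add_distrib,
    Finset.sum_add_distrib, ← Finset.sum_mul, ← Finset.sum_mul, ← Finset.sum_mul]
  unfold HH
  rfl

/-- masses are monotone, ratio of masses of two weights -/
lemma sum_log_mass_le (w W : Ω → ℝ) (hw : ∀ ω, 0 ≤ w ω) (hle : ∀ ω, w ω ≤ W ω) (Y : Ω → B) :
    ∑ ω, w ω * Real.log (mass W Y (Y ω) / mass w Y (Y ω)) ≤ tot w * Real.log (tot W / tot w) := by
  classical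
  have hW : ∀ ω, 0 ≤ W ω := fun ω => (hw ω).trans (hle ω)
  rcases eq_or_lt_of_le (tot_nonneg w hw) with h0 | h0
  · have hz : ∀ ω, w ω = 0 := by
      intro ω
      have := le_tot w hw ω
      exact le_antisymm (by rw [h0]; exact this) (hw ω)
    rw [← h0, zero_mul]
    refine le_of_eq (Finset.sum_eq_zero fun ω _ => ?_)
    rw [hz ω, zero_mul]
  · have hT : 0 < tot W := lt_of_lt_of_le h0 (Finset.sum_le_sum fun ω _ => hle ω)
    have h1 : ∑ ω, w ω * (mass W Y (Y ω) / mass w Y (Y ω)) ≤ tot W := by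
      have e1 := sum_eq_sum_mass w Y (Finset.univ.image Y) (by simp)
        (fun b => mass W Y b / mass w Y b)
      have e2 := sum_eq_sum_mass W Y (Finset.univ.image Y) (by simp) (fun _ => 1)
      simp only [mul_one] at e2
      rw [e1]
      unfold tot
      rw [e2]
      refine Finset.sum_le_sum fun b _ => ?_
      by_cases hb : mass w Y b = 0
      · rw [hb, zero_mul]
        exact mass_nonneg W hW Y b
      · rw [mul_div_cancel₀ _ hb]
    have h2 : ∀ ω ∈ (Finset.univ : Finset Ω), w ω * Real.log (mass W Y (Y ω) / mass w Y (Y ω)) ≤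
        w ω * (mass W Y (Y ω) / mass w Y (Y ω)) * (tot w / tot W) - w ω +
          w ω * Real.log (tot W / tot w) := by
      intro ω _
      by_cases hω : w ω = 0
      · simp [hω]
      · have m1 := mass_pos w hw Y hω
        have m2 : 0 < mass W Y (Y ω) := lt_of_lt_of_le m1 (mass_le_mass W w hle Y (Y ω))
        have h3 := Real.log_le_sub_one_of_pos
          (x := mass W Y (Y ω) / mass w Y (Y ω) * (tot w / tot W)) (by positivity)
        have h4 : Real.log (mass W Y (Y ω) / mass w Y (Y ω)) =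
            Real.log (mass W Y (Y ω) / mass w Y (Y ω) * (tot w / tot W)) +
              Real.log (tot W / tot w) := by
          rw [← Real.log_mul (by positivity) (by positivity)]
          congr 1
          field_simp
        rw [h4]
        have h5 := mul_le_mul_of_nonneg_left h3 (hw ω)
        rw [mul_add]
        linarith
    refine (Finset.sum_le_sum h2).trans ?_
    rw [Finset.sum_add_distrib, Finset.sum_sub_distrib, ← Finset.sum_mul, ← Finset.sum_mul]
    have h6 : (∑ ω, w ω * (mass W Y (Y ω) / mass w Y (Y ω))) * (tot w / tot W) ≤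
        tot W * (tot w / tot W) := mul_le_mul_of_nonneg_right h1 (by positivity)
    have h7 : tot W * (tot w / tot W) = tot w := by field_simp
    have h8 : ∑ ω, w ω = tot w := rfl
    rw [h8]
    linarith

/-- (A16) concavity of the entropy in the weight -/
theorem CE_add_ge (w w' : Ω → ℝ) (hw : ∀ ω, 0 ≤ w ω) (hw' : ∀ ω, 0 ≤ w' ω) (X : Ω → A)
    (Y : Ω → B) : CE w X Y + CE w' X Y ≤ CE (w + w') X Y := by
  classical
  have hW : ∀ ω, 0 ≤ (w + w') ω := fun ω => add_nonneg (hw ω) (hw' ω)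
  have aux : ∀ u : Ω → ℝ, (∀ ω, 0 ≤ u ω) → (∀ ω, u ω ≠ 0 → (w + w') ω ≠ 0) →
      CE u X Y ≤ ∑ ω, u ω * Real.log (mass (w + w') Y (Y ω) /
        mass (w + w') (fun ω => (X ω, Y ω)) (X ω, Y ω)) := by
    intro u hu hne
    have key := CE_gibbs u hu X Y (Finset.univ.image X) (by simp)
      (fun a b => mass (w + w') (fun ω => (X ω, Y ω)) (a, b) / mass (w + w') Y b)
      (fun a b => div_nonneg (mass_nonneg _ hW _ _) (mass_nonneg _ hW _ _))
      (fun ω hω => div_pos (mass_pos (w + w') hW (fun ω => (X ω, Y ω)) (hne ω hω))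
        (mass_pos (w + w') hW Y (hne ω hω)))
      (by
        intro ω hω
        rw [← Finset.sum_div, div_le_one (mass_pos (w + w') hW Y (hne ω hω))]
        unfold mass
        rw [Finset.sum_comm]
        refine Finset.sum_le_sum fun ω' _ => ?_
        by_cases hb : Y ω' = Y ω
        · rw [if_pos hb, Finset.sum_eq_single_of_mem (X ω') (by simp)]
          · simp [hb]
          · intro a _ ha
            rw [if_neg]
            rw [Prod.mk.injEq]
            rintro ⟨h1, -⟩
            exact ha h1.symm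
        · rw [if_neg hb]
          refine le_of_eq (Finset.sum_eq_zero fun a _ => ?_)
          rw [if_neg]
          rw [Prod.mk.injEq]
          rintro ⟨-, h1⟩
          exact hb h1)
    simpa only [one_div_div] using key
  have h1 := aux w hw (fun ω h => by
    have : 0 < w ω := lt_of_le_of_ne (hw ω) (Ne.symm h)
    have h2 := hw' ω
    show w ω + w' ω ≠ 0
    linarith)
  have h2 := aux w' hw' (fun ω h => by
    have : 0 < w' ω := lt_of_le_of_ne (hw' ω) (Ne.symm h)
    have h2 := hw ω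
    show w ω + w' ω ≠ 0
    linarith)
  have h3 : CE (w + w') X Y = ∑ ω, w ω * Real.log (mass (w + w') Y (Y ω) /
      mass (w + w') (fun ω => (X ω, Y ω)) (X ω, Y ω)) +
      ∑ ω, w' ω * Real.log (mass (w + w') Y (Y ω) /
      mass (w + w') (fun ω => (X ω, Y ω)) (X ω, Y ω)) := by
    unfold CE
    rw [← Finset.sum_add_distrib]
    refine Finset.sum_congr rfl fun ω _ => ?_
    rw [Pi.add_apply, add_mul]
  linarith

/-- (A17) the entropy of a sum of two weights -/
theorem CE_add_le (w w' : Ω → ℝ) (hw : ∀ ω, 0 ≤ w ω) (hw' : ∀ ω, 0 ≤ w' ω) (X : Ω → A)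
    (Y : Ω → B) : CE (w + w') X Y ≤ CE w X Y + CE w' X Y + HH (tot w) (tot w') := by
  classical
  have hW : ∀ ω, 0 ≤ (w + w') ω := fun ω => add_nonneg (hw ω) (hw' ω)
  have htot : tot (w + w') = tot w + tot w' := by
    unfold tot
    rw [← Finset.sum_add_distrib]
    rfl
  have aux : ∀ u : Ω → ℝ, (∀ ω, 0 ≤ u ω) → (∀ ω, u ω ≤ (w + w') ω) →
      ∑ ω, u ω * Real.log (mass (w + w') Y (Y ω) /
        mass (w + w') (fun ω => (X ω, Y ω)) (X ω, Y ω)) ≤
        CE u X Y + tot u * Real.log (tot (w + w') / tot u) := by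
    intro u hu hle
    have h1 := sum_log_mass_le u (w + w') hu hle Y
    refine le_trans ?_ (add_le_add_right h1 _)
    unfold CE
    rw [← Finset.sum_add_distrib]
    refine Finset.sum_le_sum fun ω _ => ?_
    by_cases hω : u ω = 0
    · simp [hω]
    · have m1 := mass_pos u hu (fun ω => (X ω, Y ω)) hω
      have m2 := mass_pos u hu Y hω
      have m3 : 0 < mass (w + w') Y (Y ω) :=
        lt_of_lt_of_le m2 (mass_le_mass _ u hle Y (Y ω))
      have m4 := mass_le_mass _ u hle (fun ω => (X ω, Y ω)) (X ω, Y ω)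
      have m5 : 0 < mass (w + w') (fun ω => (X ω, Y ω)) (X ω, Y ω) := lt_of_lt_of_le m1 m4
      rw [← mul_add]
      refine mul_le_mul_of_nonneg_left ?_ (hu ω)
      rw [← Real.log_mul (by positivity) (by positivity)]
      refine Real.log_le_log (by positivity) ?_
      have e : mass u Y (Y ω) / mass u (fun ω => (X ω, Y ω)) (X ω, Y ω) *
          (mass (w + w') Y (Y ω) / mass u Y (Y ω)) =
          mass (w + w') Y (Y ω) / mass u (fun ω => (X ω, Y ω)) (X ω, Y ω) := by
        field_simp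
      rw [e]
      gcongr
  have h1 := aux w hw (fun ω => by
    show w ω ≤ w ω + w' ω
    linarith [hw' ω])
  have h2 := aux w' hw' (fun ω => by
    show w' ω ≤ w ω + w' ω
    linarith [hw ω])
  have h3 : CE (w + w') X Y = ∑ ω, w ω * Real.log (mass (w + w') Y (Y ω) /
      mass (w + w') (fun ω => (X ω, Y ω)) (X ω, Y ω)) +
      ∑ ω, w' ω * Real.log (mass (w + w') Y (Y ω) /
      mass (w + w') (fun ω => (X ω, Y ω)) (X ω, Y ω)) := by
    unfold CE
    rw [← Finset.sum_add_distrib]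
    refine Finset.sum_congr rfl fun ω _ => ?_
    rw [Pi.add_apply, add_mul]
  rw [htot] at h1 h2
  unfold HH
  linarith

/-- (A18) relative entropy of a sum of two weights, from below -/
theorem KK_add_ge [Fintype A] (w w' : Ω → ℝ) (hw : ∀ ω, 0 ≤ w ω) (hw' : ∀ ω, 0 ≤ w' ω)
    (X : Ω → A) (Y : Ω → B) : KK w X Y + KK w' X Y ≤ KK (w + w') X Y + HH (tot w) (tot w') := by
  have hW : ∀ ω, 0 ≤ (w + w') ω := fun ω => add_nonneg (hw ω) (hw' ω)
  have htot : tot (w + w') = tot w + tot w' := by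
    unfold tot
    rw [← Finset.sum_add_distrib]
    rfl
  rw [KK_eq_sub_CE w hw, KK_eq_sub_CE w' hw', KK_eq_sub_CE (w + w') hW, htot]
  have := CE_add_le w w' hw hw' X Y
  linarith

/-- (A19) smaller weights, conditional version of (E8) -/
theorem KK_sub_le [Fintype A] (w w' : Ω → ℝ) (hw' : ∀ ω, 0 ≤ w' ω) (hle : ∀ ω, w' ω ≤ w ω)
    (X : Ω → A) (Y : Ω → B) : KK w' X Y ≤ KK w X Y + HH (tot w') (tot w - tot w') := by
  have hu0 : ∀ ω, 0 ≤ (w - w') ω := fun ω => sub_nonneg.2 (hle ω)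
  have h1 := KK_add_ge w' (w - w') hw' hu0 X Y
  have h2 : w' + (w - w') = w := by
    funext ω
    show w' ω + (w ω - w' ω) = w ω
    ring
  have h3 : tot (w - w') = tot w - tot w' := by
    unfold tot
    rw [← Finset.sum_sub_distrib]
    rfl
  rw [h2, h3] at h1
  have h4 := KK_nonneg (w - w') hu0 X Y
  linarith

/-- (A20) mutual information: nonnegative -/
theorem MI_nonneg (w : Ω → ℝ) (hw : ∀ ω, 0 ≤ w ω) (X : Ω → A) (X' : Ω → A') (Y : Ω → B) :
    0 ≤ MI w X X' Y := by
  unfold MI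
  have := CE_finer w hw X Y (fun ω => (X' ω, Y ω)) (by
    intro ω ω' _ _ h
    exact (Prod.mk.inj h).2)
  linarith

/-- (A21) mutual information: symmetric -/
theorem MI_comm (w : Ω → ℝ) (hw : ∀ ω, 0 ≤ w ω) (X : Ω → A) (X' : Ω → A') (Y : Ω → B) :
    MI w X X' Y = MI w X' X Y := by
  unfold MI
  have := CE_swap w hw X X' Y
  linarith

/-- (A22) mutual information: bounded by the entropies -/
theorem MI_le_left (w : Ω → ℝ) (hw : ∀ ω, 0 ≤ w ω) (X : Ω → A) (X' : Ω → A') (Y : Ω → B) :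
    MI w X X' Y ≤ CE w X Y := by
  unfold MI
  have := CE_nonneg w hw X (fun ω => (X' ω, Y ω))
  linarith

theorem MI_le_right (w : Ω → ℝ) (hw : ∀ ω, 0 ≤ w ω) (X : Ω → A) (X' : Ω → A') (Y : Ω → B) :
    MI w X X' Y ≤ CE w X' Y := by
  rw [MI_comm w hw]
  exact MI_le_left w hw X' X Y

/-- (A23) chain rule for the mutual information -/
theorem MI_chain (w : Ω → ℝ) (hw : ∀ ω, 0 ≤ w ω) (X : Ω → A) (X' : Ω → A') (X'' : Ω → A'')
    (Y : Ω → B) : MI w X (fun ω => (X' ω, X'' ω)) Y = MI w X X' Y +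
      MI w X X'' (fun ω => (X' ω, Y ω)) := by
  unfold MI
  have : CE w X (fun ω => ((X' ω, X'' ω), Y ω)) = CE w X (fun ω => (X'' ω, (X' ω, Y ω))) := by
    refine CE_cond_congr w hw _ _ _ fun ω ω' _ _ => ?_
    simp only [Prod.mk.injEq]
    tauto
  rw [this]
  ring

/-- (A24) data processing for the mutual information -/
theorem MI_map (w : Ω → ℝ) (hw : ∀ ω, 0 ≤ w ω) (X : Ω → A) (X' : Ω → A') (X'' : Ω → A'')
    (Y : Ω → B)
    (h : ∀ ω ω', w ω ≠ 0 → w ω' ≠ 0 → X' ω = X' ω' → Y ω = Y ω' → X'' ω = X'' ω') :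
    MI w X X'' Y ≤ MI w X X' Y := by
  unfold MI
  have := CE_finer w hw X (fun ω => (X'' ω, Y ω)) (fun ω => (X' ω, Y ω)) (by
    intro ω ω' h1 h2 h3
    have h4 := (Prod.mk.inj h3).1
    have h5 := (Prod.mk.inj h3).2
    rw [Prod.mk.injEq]
    exact ⟨h ω ω' h1 h2 h4 h5, h5⟩)
  linarith

/-- (A25) the increase of the relative entropy under finer conditioning is a mutual information -/
theorem KK_pair_cond [Fintype A] (w : Ω → ℝ) (hw : ∀ ω, 0 ≤ w ω) (X : Ω → A) (X' : Ω → A')
    (Y : Ω → B) : KK w X (fun ω => (X' ω, Y ω)) = KK w X Y + MI w X X' Y := by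
  rw [KK_eq_sub_CE w hw, KK_eq_sub_CE w hw]
  unfold MI
  ring

theorem KK_pair_cond_le [Fintype A] (w : Ω → ℝ) (hw : ∀ ω, 0 ≤ w ω) (X : Ω → A) (X' : Ω → A')
    (Y : Ω → B) : KK w X (fun ω => (X' ω, Y ω)) ≤ KK w X Y + CE w X' Y := by
  rw [KK_pair_cond w hw]
  have := MI_le_right w hw X X' Y
  linarith

end Pool.Agent.CutSeq.NJ
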