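import Pool.Agent.NJ.Defs84
import Pool.Agent.NJ.EntA76
import Pool.Agent.CutSeq.Sib

/-!
S19271, sibling families: marginals and exchangeability of `sib` and `sib2`
(a family of siblings along injections of the index sets is again a family of siblings).
-/

set_option autoImplicit false

namespace Pool.Agent.CutSeq.NJ

open Finset

section Push

variable {Ω Ω' A B C : Type*} [Fintype Ω] [Fintype Ω']

/-- `W'` is the image of `W` under `r` -/
def Push (W : Ω → ℝ) (r : Ω → Ω') (W' : Ω' → ℝ) : Prop := ∀ c, mass W r c = W' c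

/-- integration against the image -/
lemma Push.sum {W : Ω → ℝ} {r : Ω → Ω'} {W' : Ω' → ℝ} (h : Push W r W') (g : Ω' → ℝ) :
    ∑ ω, W ω * g (r ω) = ∑ c, W' c * g c := by
  rw [sum_eq_sum_mass W r Finset.univ (fun _ _ => Finset.mem_univ _) g]
  exact Finset.sum_congr rfl fun c _ => by rw [h c]

/-- the image from integrals -/
lemma push_of_sum {W : Ω → ℝ} {r : Ω → Ω'} {W' : Ω' → ℝ}
    (h : ∀ g : Ω' → ℝ, ∑ ω, W ω * g (r ω) = ∑ c, W' c * g c) : Push W r W' := by
  classical
  intro c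
  have h1 := h (fun c' => if c' = c then 1 else 0)
  simp only [mul_ite, mul_one, mul_zero, Finset.sum_ite_eq', Finset.mem_univ, if_true] at h1
  rw [← h1]
  unfold mass
  refine Finset.sum_congr rfl fun ω _ => ?_
  by_cases hc : r ω = c <;> simp [hc]

lemma Push.mass {W : Ω → ℝ} {r : Ω → Ω'} {W' : Ω' → ℝ} (h : Push W r W') (X : Ω' → C) (c : C) :
    mass W (fun ω => X (r ω)) c = mass W' X c := by
  classical
  have h1 := h.sum (fun c' => if X c' = c then 1 else 0)
  unfold CutSeq.mass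
  simp only [mul_ite, mul_one, mul_zero] at h1
  exact h1

lemma Push.tot {W : Ω → ℝ} {r : Ω → Ω'} {W' : Ω' → ℝ} (h : Push W r W') : tot W = tot W' := by
  have := h.sum (fun _ => 1)
  simpa [CutSeq.tot] using this

lemma Push.KK [Fintype A] {W : Ω → ℝ} {r : Ω → Ω'} {W' : Ω' → ℝ} (h : Push W r W') (X : Ω' → A)
    (Y : Ω' → B) : KK W (fun ω => X (r ω)) (fun ω => Y (r ω)) = KK W' X Y :=
  KK_law _ _ _ _ _ _ fun a b => h.mass (fun c => (X c, Y c)) (a, b)

lemma Push.K0 [Fintype A] {W : Ω → ℝ} {r : Ω → Ω'} {W' : Ω' → ℝ} (h : Push W r W') (X : Ω' → A) :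
    K0 W (fun ω => X (r ω)) = K0 W' X := h.KK X (fun _ => ())

lemma Push.CE {W : Ω → ℝ} {r : Ω → Ω'} {W' : Ω' → ℝ} (h : Push W r W') (X : Ω' → C)
    (Y : Ω' → B) : CE W (fun ω => X (r ω)) (fun ω => Y (r ω)) = CE W' X Y :=
  CE_law _ _ _ _ _ _ fun a b => h.mass (fun c => (X c, Y c)) (a, b)

end Push

section Prod

/-- marginal of a product of copies of a probability weight along an injection -/
theorem sum_prod_comp {ι κ α : Type*} [Fintype ι] [Fintype κ] [DecidableEq ι] [DecidableEq κ]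
    [Fintype α] (u : α → ℝ) (hu : ∑ a, u a = 1) (σ : ι → κ) (hσ : Function.Injective σ)
    (g : (ι → α) → ℝ) :
    ∑ x : κ → α, (∏ k, u (x k)) * g (x ∘ σ) = ∑ x : ι → α, (∏ i, u (x i)) * g x := by
  classical
  let E : ι ⊕ ((Set.range σ)ᶜ : Set κ) ≃ κ :=
    (Equiv.sumCongr (Equiv.ofInjective σ hσ) (Equiv.refl _)).trans (Equiv.Set.sumCompl _)
  have h1 : ∑ x : κ → α, (∏ k, u (x k)) * g (x ∘ σ) =
      ∑ y : ι ⊕ ((Set.range σ)ᶜ : Set κ) → α, (∏ s, u (y s)) * g (fun i => y (Sum.inl i)) := by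
    refine Fintype.sum_equiv (Equiv.arrowCongr E.symm (Equiv.refl α)) _ _ fun x => ?_
    congr 1
    simp only [Equiv.arrowCongr_apply, Equiv.coe_refl, Function.comp_apply, id_eq,
      Equiv.symm_symm]
    exact (Equiv.prod_comp E (fun k => u (x k))).symm
  rw [h1, ← (Equiv.sumArrowEquivProdArrow ι ((Set.range σ)ᶜ : Set κ) α).symm.sum_comp,
    Fintype.sum_prod_type]
  refine Finset.sum_congr rfl fun x _ => ?_
  simp only [Fintype.prod_sum_type, Equiv.sumArrowEquivProdArrow_symm_apply_inl,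
    Equiv.sumArrowEquivProdArrow_symm_apply_inr]
  have h2 : ∑ y : ((Set.range σ)ᶜ : Set κ) → α, ∏ k, u (y k) = 1 := by
    have := Fintype.prod_sum (ι := ((Set.range σ)ᶜ : Set κ)) (κ := fun _ => α) (f := fun _ x => u x)
    simp only [hu, Finset.prod_const_one] at this
    exact this.symm
  rw [← Finset.sum_mul, ← Finset.mul_sum, h2, mul_one]

end Prod

variable {Ω : Type*} [Fintype Ω] {n : ℕ}

/-- siblings along an injection -/
theorem push_sib (w : Ω → ℝ) (T : Ω → Submodule (ZMod 2) (V n)) {i P : ℕ} (σ : Fin i → Fin P)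
    (hσ : Function.Injective σ) :
    Push (sib w T P) (fun p => (p.1, p.2 ∘ σ)) (sib w T i) := by
  classical
  refine push_of_sum fun g => ?_
  unfold sib
  rw [Fintype.sum_prod_type, Fintype.sum_prod_type]
  refine Finset.sum_congr rfl fun ω _ => ?_
  simp only [mul_assoc]
  rw [← Finset.mul_sum, ← Finset.mul_sum,
    sum_prod_comp (uT (T ω)) (sum_uT (T ω)) σ hσ (fun x => g (ω, x))]

/-- row and column siblings along injections -/
theorem push_sib2 (w : Ω → ℝ) (T T' : Ω → Submodule (ZMod 2) (V n)) {i P j Q : ℕ}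
    (σ : Fin i → Fin P) (hσ : Function.Injective σ) (τ : Fin j → Fin Q)
    (hτ : Function.Injective τ) :
    Push (sib2 w T T' P Q) (fun p => (p.1, p.2.1 ∘ σ, p.2.2 ∘ τ)) (sib2 w T T' i j) := by
  classical
  refine push_of_sum fun g => ?_
  unfold sib2
  rw [Fintype.sum_prod_type, Fintype.sum_prod_type]
  refine Finset.sum_congr rfl fun ω _ => ?_
  rw [Fintype.sum_prod_type, Fintype.sum_prod_type]
  simp only [mul_assoc, ← Finset.mul_sum]
  congr 1
  rw [sum_prod_comp (uT (T ω)) (sum_uT (T ω)) σ hσ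
    (fun x => ∑ y : Fin Q → V n, (∏ l, uT (T' ω) (y l)) * g (ω, x, y ∘ τ))]
  refine Finset.sum_congr rfl fun x _ => ?_
  congr 1
  exact sum_prod_comp (uT (T' ω)) (sum_uT (T' ω)) τ hτ (fun y => g (ω, x, y))

omit [Fintype Ω] in
lemma sib2_nonneg (w : Ω → ℝ) (hw : ∀ ω, 0 ≤ w ω) (T T' : Ω → Submodule (ZMod 2) (V n)) (i j : ℕ)
    (p : Ω × (Fin i → V n) × (Fin j → V n)) : 0 ≤ sib2 w T T' i j p :=
  mul_nonneg (mul_nonneg (hw _) (Finset.prod_nonneg fun _ _ => uT_nonneg_sib _ _))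
    (Finset.prod_nonneg fun _ _ => uT_nonneg_sib _ _)

/-- the two forms of the double family -/
theorem push_sib_sib2 (w : Ω → ℝ) (T T' : Ω → Submodule (ZMod 2) (V n)) (i j : ℕ) :
    Push (sib (sib w T i) (fun p => T' p.1) j) (fun p => (p.1.1, p.1.2, p.2))
      (sib2 w T T' i j) := by
  refine push_of_sum fun g => ?_
  refine Fintype.sum_equiv (Equiv.prodAssoc _ _ _) _ _ fun p => ?_
  rfl

/-- rows and columns exchanged -/
theorem push_swap (w : Ω → ℝ) (T T' : Ω → Submodule (ZMod 2) (V n)) (i j : ℕ) :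
    Push (sib2 w T T' i j) (fun p => (p.1, p.2.2, p.2.1)) (sib2 w T' T j i) := by
  refine push_of_sum fun g => ?_
  refine Fintype.sum_equiv ((Equiv.refl Ω).prodCongr (Equiv.prodComm _ _)) _ _ fun p => ?_
  obtain ⟨ω, x, y⟩ := p
  show w ω * (∏ l, uT (T ω) (x l)) * (∏ l, uT (T' ω) (y l)) * g (ω, y, x) =
    w ω * (∏ l, uT (T' ω) (y l)) * (∏ l, uT (T ω) (x l)) * g (ω, y, x)
  ring

/-- no column siblings -/
theorem push_zero (w : Ω → ℝ) (T T' : Ω → Submodule (ZMod 2) (V n)) (i : ℕ) :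
    Push (sib2 w T T' i 0) (fun p => (p.1, p.2.1)) (sib w T i) := by
  refine push_of_sum fun g => ?_
  unfold sib2 sib
  rw [Fintype.sum_prod_type, Fintype.sum_prod_type]
  refine Finset.sum_congr rfl fun ω _ => ?_
  rw [Fintype.sum_prod_type]
  refine Finset.sum_congr rfl fun x _ => ?_
  simp

lemma tot_sib2 (w : Ω → ℝ) (T T' : Ω → Submodule (ZMod 2) (V n)) (i j : ℕ) :
    tot (sib2 w T T' i j) = tot w := by
  rw [← (push_sib_sib2 w T T' i j).tot, tot_sib, tot_sib]

omit [Fintype Ω] in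
lemma sib2_ne_zero {w : Ω → ℝ} {T T' : Ω → Submodule (ZMod 2) (V n)} {i j : ℕ}
    {p : Ω × (Fin i → V n) × (Fin j → V n)} (h : sib2 w T T' i j p ≠ 0) :
    w p.1 ≠ 0 ∧ (∀ l, p.2.1 l ∈ T p.1) ∧ ∀ l, p.2.2 l ∈ T' p.1 := by
  unfold sib2 at h
  have h1 : w p.1 ≠ 0 := fun h0 => h (by rw [h0, zero_mul, zero_mul])
  have h2 : ∏ l, uT (T p.1) (p.2.1 l) ≠ 0 := fun h0 => h (by rw [h0, mul_zero, zero_mul])
  have h3 : ∏ l, uT (T' p.1) (p.2.2 l) ≠ 0 := fun h0 => h (by rw [h0, mul_zero])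
  refine ⟨h1, fun l => ?_, fun l => ?_⟩
  · have := (Finset.prod_ne_zero_iff.1 h2) l (Finset.mem_univ l)
    unfold uT at this
    by_contra hc
    exact this (if_neg hc)
  · have := (Finset.prod_ne_zero_iff.1 h3) l (Finset.mem_univ l)
    unfold uT at this
    by_contra hc
    exact this (if_neg hc)

section Inc

variable {A B : Type*} [Fintype A]

/-- entropy of the broom with `i` row siblings and `j` column siblings -/
noncomputable def UU (w : Ω → ℝ) (T T' : Ω → Submodule (ZMod 2) (V n)) (m : Ω → A)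
    (i j : ℕ) : ℝ :=
  K0 (sib2 w T T' i j) (fun p => (m p.1, p.2.1, p.2.2))

/-- entropy of the row sibling `i`, given the data `D`, the previous row siblings and `j` column
siblings -/
noncomputable def eR (w : Ω → ℝ) (T T' : Ω → Submodule (ZMod 2) (V n)) (D : Ω → B)
    (i j : ℕ) : ℝ :=
  KK (sib2 w T T' (i + 1) j) (fun p => p.2.1 (Fin.last i))
    (fun p => (D p.1, (fun l : Fin i => p.2.1 l.castSucc), p.2.2))

lemma eR_nonneg (w : Ω → ℝ) (hw : ∀ ω, 0 ≤ w ω) (T T' : Ω → Submodule (ZMod 2) (V n))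
    (D : Ω → B) (i j : ℕ) : 0 ≤ eR w T T' D i j :=
  KK_nonneg _ (sib2_nonneg w hw T T' _ _) _ _

/-- the last row sibling inside a larger family -/
lemma eR_eq (w : Ω → ℝ) (T T' : Ω → Submodule (ZMod 2) (V n)) (D : Ω → B) {i P j Q : ℕ}
    (σ : Fin (i + 1) → Fin P) (hσ : Function.Injective σ) (τ : Fin j → Fin Q)
    (hτ : Function.Injective τ) :
    KK (sib2 w T T' P Q) (fun p => p.2.1 (σ (Fin.last i)))
      (fun p => (D p.1, (fun l : Fin i => p.2.1 (σ l.castSucc)), p.2.2 ∘ τ)) = eR w T T' D i j :=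
  (push_sib2 w T T' σ hσ τ hτ).KK (fun p => p.2.1 (Fin.last i))
    (fun p => (D p.1, (fun l : Fin i => p.2.1 l.castSucc), p.2.2))

/-- monotone in the number of previous row siblings -/
lemma eR_mono_left (w : Ω → ℝ) (hw : ∀ ω, 0 ≤ w ω) (T T' : Ω → Submodule (ZMod 2) (V n))
    (D : Ω → B) {i i' : ℕ} (hi : i ≤ i') (j : ℕ) : eR w T T' D i j ≤ eR w T T' D i' j := by
  -- the first `i` siblings, then the last one
  let σ : Fin (i + 1) → Fin (i' + 1) := fun l =>
    if l.val < i then ⟨l.val, by omega⟩ else Fin.last i'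
  have hσ : Function.Injective σ := by
    intro a b h
    have ha := a.isLt
    have hb := b.isLt
    by_cases h1 : a.val < i <;> by_cases h2 : b.val < i
    · simp only [σ, h1, h2, if_true, Fin.mk.injEq] at h
      exact Fin.ext h
    · simp only [σ, h1, h2, if_true, if_false] at h
      have := congrArg Fin.val h
      simp only [Fin.val_last] at this
      omega
    · simp only [σ, h1, h2, if_true, if_false] at h
      have := congrArg Fin.val h
      simp only [Fin.val_last] at this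
      omega
    · exact Fin.ext (by omega)
  have h1 := eR_eq w T T' D σ hσ (id : Fin j → Fin j) Function.injective_id
  rw [← h1]
  have h2 : σ (Fin.last i) = Fin.last i' := by simp [σ]
  rw [h2]
  refine KK_finer _ (sib2_nonneg w hw T T' _ _) _ _ _ ?_
  intro p p' _ _ h
  simp only [Prod.mk.injEq] at h ⊢
  obtain ⟨h3, h4, h5⟩ := h
  refine ⟨h3, ?_, by rw [h5]⟩
  funext l
  have h6 : σ l.castSucc = (⟨l.val, by omega⟩ : Fin i').castSucc := by
    simp [σ, Fin.ext_iff]
  rw [h6]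
  exact congrFun h4 _

/-- monotone in the number of column siblings -/
lemma eR_mono_right (w : Ω → ℝ) (hw : ∀ ω, 0 ≤ w ω) (T T' : Ω → Submodule (ZMod 2) (V n))
    (D : Ω → B) (i : ℕ) {j j' : ℕ} (hj : j ≤ j') : eR w T T' D i j ≤ eR w T T' D i j' := by
  have h1 := eR_eq w T T' D (id : Fin (i + 1) → Fin (i + 1)) Function.injective_id
    (Fin.castLE hj) (Fin.castLE_injective hj)
  rw [← h1]
  refine KK_finer _ (sib2_nonneg w hw T T' _ _) _ _ _ ?_
  intro p p' _ _ h
  simp only [Prod.mk.injEq] at h ⊢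
  obtain ⟨h3, h4, h5⟩ := h
  exact ⟨h3, h4, by rw [h5]⟩

/-- monotone in the data -/
lemma eR_mono_data {B' : Type*} (w : Ω → ℝ) (hw : ∀ ω, 0 ≤ w ω)
    (T T' : Ω → Submodule (ZMod 2) (V n)) (D : Ω → B) (D' : Ω → B') (i j : ℕ)
    (h : ∀ ω ω', w ω ≠ 0 → w ω' ≠ 0 → D' ω = D' ω' → D ω = D ω') :
    eR w T T' D i j ≤ eR w T T' D' i j := by
  refine KK_finer _ (sib2_nonneg w hw T T' _ _) _ _ _ ?_
  intro p p' hp hp' h'
  simp only [Prod.mk.injEq] at h' ⊢
  exact ⟨h _ _ (sib2_ne_zero hp).1 (sib2_ne_zero hp').1 h'.1, h'.2.1, h'.2.2⟩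

/-- additional data, paid by their entropy -/
lemma eR_data_le {C : Type*} (w : Ω → ℝ) (hw : ∀ ω, 0 ≤ w ω)
    (T T' : Ω → Submodule (ZMod 2) (V n)) (D : Ω → B) (S : Ω → C) (i j : ℕ) :
    eR w T T' (fun ω => (S ω, D ω)) i j ≤ eR w T T' D i j +
      CE (sib2 w T T' i j) (fun p => S p.1) (fun p => (D p.1, p.2.1, p.2.2)) := by
  have hW := sib2_nonneg w hw T T' (i + 1) j
  have h1 := KK_pair_cond_le (sib2 w T T' (i + 1) j) hW (fun p => p.2.1 (Fin.last i))
    (fun p => S p.1) (fun p => (D p.1, (fun l : Fin i => p.2.1 l.castSucc), p.2.2))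
  have h2 := (push_sib2 w T T' (Fin.castSucc : Fin i → Fin (i + 1)) (Fin.castSucc_injective i)
    (id : Fin j → Fin j) Function.injective_id).CE (fun p => S p.1) (fun p => (D p.1, p.2.1, p.2.2))
  have h3 : KK (sib2 w T T' (i + 1) j) (fun p => p.2.1 (Fin.last i))
      (fun p => (S p.1, (D p.1, (fun l : Fin i => p.2.1 l.castSucc), p.2.2))) =
      eR w T T' (fun ω => (S ω, D ω)) i j := by
    refine le_antisymm ?_ ?_
    · refine KK_finer _ hW _ _ _ ?_
      intro p p' _ _ h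
      simp only [Prod.mk.injEq] at h ⊢
      exact ⟨h.1.1, h.1.2, h.2.1, h.2.2⟩
    · refine KK_finer _ hW _ _ _ ?_
      intro p p' _ _ h
      simp only [Prod.mk.injEq] at h ⊢
      exact ⟨⟨h.1, h.2.1⟩, h.2.2.1, h.2.2.2⟩
  rw [h3] at h1
  have h4 : CE (sib2 w T T' (i + 1) j) (fun p => S p.1)
      (fun p => (D p.1, (fun l : Fin i => p.2.1 l.castSucc), p.2.2)) =
      CE (sib2 w T T' i j) (fun p => S p.1) (fun p => (D p.1, p.2.1, p.2.2)) := h2
  rw [h4] at h1
  exact h1

/-- chain rule for the row siblings -/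
lemma KR_sum (w : Ω → ℝ) (hw : ∀ ω, 0 ≤ w ω) (T T' : Ω → Submodule (ZMod 2) (V n)) (D : Ω → B)
    (i j : ℕ) : KK (sib2 w T T' i j) (fun p => p.2.1) (fun p => (D p.1, p.2.2)) =
      ∑ l ∈ range i, eR w T T' D l j := by
  induction i with
  | zero =>
    rw [Finset.sum_range_zero]
    have hW := sib2_nonneg w hw T T' 0 j
    have h1 := KK_le _ hW (fun p => p.2.1) (fun p => (D p.1, p.2.2))
    have h2 := KK_nonneg _ hW (fun p => p.2.1) (fun p => (D p.1, p.2.2))
    have h3 : Fintype.card (Fin 0 → V n) = 1 := by simp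
    rw [h3] at h1
    simp only [Nat.cast_one, Real.log_one, mul_zero] at h1
    exact le_antisymm h1 h2
  | succ i ih =>
    rw [Finset.sum_range_succ, ← ih]
    have hW := sib2_nonneg w hw T T' (i + 1) j
    have h1 := KK_chain _ hW (fun p => (fun l : Fin i => p.2.1 l.castSucc))
      (fun p => p.2.1 (Fin.last i)) (fun p => (D p.1, p.2.2))
    have h2 : KK (sib2 w T T' (i + 1) j)
        (fun p => ((fun l : Fin i => p.2.1 l.castSucc), p.2.1 (Fin.last i)))
        (fun p => (D p.1, p.2.2)) =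
        KK (sib2 w T T' (i + 1) j) (fun p => p.2.1) (fun p => (D p.1, p.2.2)) := by
      refine KK_bij _ hW (fun p => p.2.1) _ _
        (fun _ => (Fin.snocEquiv (fun _ : Fin (i + 1) => V n)).symm.trans (Equiv.prodComm _ _)) ?_
      intro p _
      simp [Fin.snocEquiv]
      rfl
    have h3 := (push_sib2 w T T' (Fin.castSucc : Fin i → Fin (i + 1)) (Fin.castSucc_injective i)
      (id : Fin j → Fin j) Function.injective_id).KK (fun p => p.2.1) (fun p => (D p.1, p.2.2))
    have h4 : KK (sib2 w T T' (i + 1) j) (fun p => p.2.1 (Fin.last i))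
        (fun p => ((fun l : Fin i => p.2.1 l.castSucc), (D p.1, p.2.2))) = eR w T T' D i j := by
      refine le_antisymm ?_ ?_
      · refine KK_finer _ hW _ _ _ ?_
        intro p p' _ _ h
        simp only [Prod.mk.injEq] at h ⊢
        exact ⟨h.2.1, h.1, h.2.2⟩
      · refine KK_finer _ hW _ _ _ ?_
        intro p p' _ _ h
        simp only [Prod.mk.injEq] at h ⊢
        exact ⟨h.2.1, h.1, h.2.2⟩
    rw [← h2, h1, h4]
    congr 1

/-- increments of `UU` in the rows -/
lemma UU_succ_left (w : Ω → ℝ) (hw : ∀ ω, 0 ≤ w ω) (T T' : Ω → Submodule (ZMod 2) (V n))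
    (m : Ω → A) (i j : ℕ) : UU w T T' m (i + 1) j = UU w T T' m i j + eR w T T' m i j := by
  have hW := sib2_nonneg w hw T T' (i + 1) j
  have h1 := KK_chain _ hW (fun p => (m p.1, (fun l : Fin i => p.2.1 l.castSucc), p.2.2))
    (fun p => p.2.1 (Fin.last i)) (fun _ => ())
  have h2 : KK (sib2 w T T' (i + 1) j)
      (fun p => ((m p.1, (fun l : Fin i => p.2.1 l.castSucc), p.2.2), p.2.1 (Fin.last i)))
      (fun _ => ()) = UU w T T' m (i + 1) j := by
    refine KK_bij _ hW (fun p => (m p.1, p.2.1, p.2.2)) _ _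
      (fun _ =>
        { toFun := fun q => ((q.1, (fun l : Fin i => q.2.1 l.castSucc), q.2.2), q.2.1 (Fin.last i))
          invFun := fun q => (q.1.1, Fin.snoc (α := fun _ => V n) q.1.2.1 q.2, q.1.2.2)
          left_inv := ?_
          right_inv := ?_ }) ?_
    · rintro ⟨a, x, y⟩
      simp only [Prod.mk.injEq, true_and, and_true]
      exact Fin.snoc_init_self x
    · rintro ⟨⟨a, x, y⟩, z⟩
      simp
    · intro p _
      rfl
  have h3 := (push_sib2 w T T' (Fin.castSucc : Fin i → Fin (i + 1)) (Fin.castSucc_injective i)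
    (id : Fin j → Fin j) Function.injective_id).K0 (fun p => (m p.1, p.2.1, p.2.2))
  have h4 : KK (sib2 w T T' (i + 1) j) (fun p => p.2.1 (Fin.last i))
      (fun p => ((m p.1, (fun l : Fin i => p.2.1 l.castSucc), p.2.2), ())) =
      eR w T T' m i j := by
    refine le_antisymm ?_ ?_
    · refine KK_finer _ hW _ _ _ ?_
      intro p p' _ _ h
      simp only [Prod.mk.injEq] at h ⊢
      exact ⟨h, trivial⟩
    · refine KK_finer _ hW _ _ _ ?_
      intro p p' _ _ h
      simp only [Prod.mk.injEq] at h ⊢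
      exact h.1
  rw [← h2, h1, h4]
  congr 1

/-- rows and columns exchanged -/
lemma UU_swap (w : Ω → ℝ) (hw : ∀ ω, 0 ≤ w ω) (T T' : Ω → Submodule (ZMod 2) (V n))
    (m : Ω → A) (i j : ℕ) : UU w T T' m i j = UU w T' T m j i := by
  have h1 := (push_swap w T T' i j).K0 (fun p => (m p.1, p.2.1, p.2.2))
  unfold UU
  rw [← h1]
  exact (KK_bij _ (sib2_nonneg w hw T T' i j) (fun p => (m p.1, p.2.1, p.2.2)) _ _
    (fun _ => (Equiv.refl A).prodCongr (Equiv.prodComm _ _)) (fun p _ => rfl)).symm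

/-- increments of `UU` in the columns -/
lemma UU_succ_right (w : Ω → ℝ) (hw : ∀ ω, 0 ≤ w ω) (T T' : Ω → Submodule (ZMod 2) (V n))
    (m : Ω → A) (i j : ℕ) : UU w T T' m i (j + 1) = UU w T T' m i j + eR w T' T m j i := by
  rw [UU_swap w hw T T' m i (j + 1), UU_swap w hw T T' m i j, UU_succ_left w hw T' T m j i]

lemma UU_eq_sum_left (w : Ω → ℝ) (hw : ∀ ω, 0 ≤ w ω) (T T' : Ω → Submodule (ZMod 2) (V n))
    (m : Ω → A) (i j : ℕ) :
    UU w T T' m i j = UU w T T' m 0 j + ∑ l ∈ range i, eR w T T' m l j := by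
  induction i with
  | zero => simp
  | succ i ih => rw [Finset.sum_range_succ, UU_succ_left w hw, ih]; ring

lemma UU_eq_sum_right (w : Ω → ℝ) (hw : ∀ ω, 0 ≤ w ω) (T T' : Ω → Submodule (ZMod 2) (V n))
    (m : Ω → A) (i j : ℕ) :
    UU w T T' m i j = UU w T T' m i 0 + ∑ l ∈ range j, eR w T' T m l i := by
  induction j with
  | zero => simp
  | succ j ih => rw [Finset.sum_range_succ, UU_succ_right w hw, ih]; ring

lemma UU_mono (w : Ω → ℝ) (hw : ∀ ω, 0 ≤ w ω) (T T' : Ω → Submodule (ZMod 2) (V n))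
    (m : Ω → A) {i i' j j' : ℕ} (hi : i ≤ i') (hj : j ≤ j') :
    UU w T T' m i j ≤ UU w T T' m i' j' := by
  have h1 : UU w T T' m i j ≤ UU w T T' m i' j := by
    induction i', hi using Nat.le_induction with
    | base => exact le_rfl
    | succ i' _ ih =>
      rw [UU_succ_left w hw]
      have := eR_nonneg w hw T T' m i' j
      linarith
  refine h1.trans ?_
  induction j', hj using Nat.le_induction with
  | base => exact le_rfl
  | succ j' _ ih =>
    rw [UU_succ_right w hw]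
    have := eR_nonneg w hw T' T m j' i'
    linarith

end Inc

end Pool.Agent.CutSeq.NJ
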