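import Pool.Agent.NJ.KKW84

/-!
S19271, row MODEL (K4): a window of one level.
-/

set_option autoImplicit false

namespace Pool.Agent.CutSeq.NJ

open Finset

variable {B L : ℕ}

/-- probability that a bond does not ring -/
theorem pr_noring (b : ℕ) (hb : b < B) :
    pr (uw B L) {ω : Wd B L | ∀ r < L, (ext ω r).1 ≠ b} = (1 - 1 / (B : ℝ)) ^ L := by
  classical
  have hB : 0 < B := by omega
  have e1 : pr (uw B L) {ω : Wd B L | ∀ r < L, (ext ω r).1 ≠ b} =
      ((univ.filter fun ω : Wd B L => ∀ r < L, (ext ω r).1 ≠ b).card : ℝ) *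
        (1 / (Fintype.card (Wd B L) : ℝ)) := by
    unfold pr tot ind uw
    rw [← nsmul_eq_mul, ← Finset.sum_const, Finset.sum_filter]
    refine Finset.sum_congr rfl fun ω _ => ?_
    rw [Set.indicator_apply]
    rfl
  have e2 : (univ.filter fun ω : Wd B L => ∀ r < L, (ext ω r).1 ≠ b) =
      Fintype.piFinset (fun _ : Fin L => (univ.erase (⟨b, hb⟩ : Fin B)) ×ˢ (univ : Finset (ZMod 2))) := by
    ext ω
    simp only [Finset.mem_filter, Finset.mem_univ, true_and, Fintype.mem_piFinset, Finset.mem_product,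
      Finset.mem_erase, and_true]
    constructor
    · intro h i hi
      have := h i.val i.isLt
      apply this
      simp [ext, hi]
    · intro h r hr hcon
      refine h ⟨r, hr⟩ ?_
      apply Fin.ext
      simpa [ext, hr] using hcon
  rw [e1, e2, Fintype.card_piFinset]
  simp only [Finset.card_product, Finset.card_erase_of_mem (Finset.mem_univ _), Finset.card_univ,
    Fintype.card_fin, Finset.prod_const, ZMod.card]
  have e3 : Fintype.card (Wd B L) = (B * 2) ^ L := by
    unfold Wd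
    rw [Fintype.card_fun, Fintype.card_prod, Fintype.card_fin, ZMod.card, Fintype.card_fin]
  rw [e3]
  push_cast
  have hB' : (B : ℝ) ≠ 0 := by exact_mod_cast hB.ne'
  rw [Nat.cast_sub (by omega : 1 ≤ B), one_div, ← inv_pow, ← mul_pow]
  congr 1
  field_simp
  push_cast
  ring

/-- a ring of the upper boundary bond generates the window of one level -/
theorem TR_one (α : Seq) (L a : ℕ) (h : ∃ r < L, (α r).1 = a) : TR α L a 1 = ⊤ := by
  obtain ⟨r, hr, hra⟩ := h
  rw [eq_top_iff]
  intro x _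
  have h1 : x = x 0 • lowW α r a 1 := by
    funext j
    have : j = 0 := Subsingleton.elim _ _
    subst this
    have h2 : lowW α r a 1 0 = 1 := by
      unfold lowW
      rw [show a + 1 - 1 = a by omega, show a + (0 : Fin 1).val = a by simp]
      exact Mst_diag α r a
    rw [Pi.smul_apply, h2, smul_eq_mul, mul_one]
  rw [h1]
  exact Submodule.smul_mem _ _ (Submodule.subset_span ⟨r, hr, by omega, rfl⟩)

theorem card_Un_one : Fintype.card (Un 1) = 1 := by
  show Fintype.card (∀ k : Fin 1, V k.val) = 1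
  rw [Fintype.card_pi]
  simp

instance : Subsingleton (Un 1) := by
  refine Fintype.card_le_one_iff_subsingleton.1 ?_
  rw [card_Un_one]

/-- siblings which are uniform on everything -/
theorem K0_sib_top {Ω : Type*} [Fintype Ω] (w : Ω → ℝ) (hw : ∀ ω, 0 ≤ w ω) {n : ℕ}
    (T : Ω → Submodule (ZMod 2) (V n)) (i : ℕ) (hT : ∀ ω, w ω ≠ 0 → T ω = ⊤) (X : Ω → Un 1) :
    K0 (sib w T i) (fun p => (X p.1, p.2)) = 0 := by
  classical
  rw [K0_eq]
  refine Finset.sum_eq_zero fun p _ => ?_
  by_cases hp : sib w T i p = 0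
  · rw [hp, zero_mul]
  have hw0 : w p.1 ≠ 0 := by
    intro h
    apply hp
    unfold sib
    rw [h, zero_mul]
  have htot : tot (sib w T i) = tot w := by
    unfold tot sib
    rw [Fintype.sum_prod_type]
    refine Finset.sum_congr rfl fun ω _ => ?_
    simp only
    rw [← Finset.mul_sum, sum_prod_uT, mul_one]
  have htop : ∀ x : V n, uT (⊤ : Submodule (ZMod 2) (V n)) x = 1 / 2 ^ n := by
    intro x
    unfold uT
    rw [if_pos Submodule.mem_top]
    congr 1
    rw [Nat.card_eq_fintype_card, Fintype.card_congr (Submodule.topEquiv (R := ZMod 2) (M := V n)).toEquiv,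
      Fintype.card_fun, ZMod.card, Fintype.card_fin]
    push_cast
    rfl
  have hm : mass (sib w T i) (fun p => (X p.1, p.2)) (X p.1, p.2) = tot w * (1 / 2 ^ n) ^ i := by
    unfold mass sib tot
    rw [Fintype.sum_prod_type, Finset.sum_mul]
    refine Finset.sum_congr rfl fun ω _ => ?_
    have h1 : ∀ y : Fin i → V n, (if (X ω, y) = (X p.1, p.2) then w ω * ∏ l, uT (T ω) (y l) else 0)
        = if y = p.2 then w ω * (1 / 2 ^ n) ^ i else 0 := by
      intro y
      have e : ((X ω, y) = (X p.1, p.2)) ↔ y = p.2 := by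
        rw [Prod.mk.injEq]
        exact ⟨fun h => h.2, fun h => ⟨Subsingleton.elim _ _, h⟩⟩
      by_cases hy : y = p.2
      · rw [if_pos (e.2 hy), if_pos hy]
        by_cases h0 : w ω = 0
        · rw [h0, zero_mul, zero_mul]
        · rw [hT ω h0]
          congr 1
          rw [Finset.prod_congr rfl fun l _ => htop (y l), Finset.prod_const, Finset.card_univ,
            Fintype.card_fin]
      · rw [if_neg (fun h => hy (e.1 h)), if_neg hy]
    simp only
    rw [Finset.sum_congr rfl fun y _ => h1 y, Finset.sum_ite_eq' univ p.2]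
    simp
  have hcard : (Fintype.card (Un 1 × (Fin i → V n)) : ℝ) = (2 ^ n) ^ i := by
    rw [Fintype.card_prod, card_Un_one, Fintype.card_fun, Fintype.card_fun, ZMod.card, Fintype.card_fin,
      Fintype.card_fin]
    push_cast
    ring
  have ht : tot w ≠ 0 := by
    have h1 : 0 < w p.1 := lt_of_le_of_ne (hw _) (Ne.symm hw0)
    exact (lt_of_lt_of_le h1 (le_tot w hw _)).ne'
  rw [hm, htot, hcard]
  have : (2 ^ n : ℝ) ^ i * (tot w * (1 / 2 ^ n) ^ i) / tot w = 1 := by
    rw [one_div, inv_pow]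
    field_simp
  rw [this, Real.log_one, mul_zero]

theorem sib_add {Ω : Type*} {n : ℕ} (w w' : Ω → ℝ) (T : Ω → Submodule (ZMod 2) (V n)) (i : ℕ) :
    sib (w + w') T i = sib w T i + sib w' T i := by
  funext p
  show (w p.1 + w' p.1) * _ = w p.1 * _ + w' p.1 * _
  rw [add_mul]

theorem ind_split {Ω : Type*} (G : Set Ω) (w : Ω → ℝ) : ind G w + ind Gᶜ w = w := by
  classical
  funext ω
  show G.indicator w ω + Gᶜ.indicator w ω = w ω
  rw [Set.indicator_apply, Set.indicator_apply]
  by_cases h : ω ∈ G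
  · have h' : ω ∉ Gᶜ := fun hc => hc h
    rw [if_pos h, if_neg h', add_zero]
  · have h' : ω ∈ Gᶜ := h
    rw [if_neg h, if_pos h', zero_add]

/-- (K4) a window of one level, for an arbitrary weight -/
theorem Dw_one_le (w : Wd B L → ℝ) (hw : ∀ ω, 0 ≤ w ω) (a i : ℕ) :
    Dw w a 1 i ≤ i * Real.log 2 * pr w {ω : Wd B L | ∀ r < L, (ext ω r).1 ≠ a} := by
  classical
  set G : Set (Wd B L) := {ω | ∀ r < L, (ext ω r).1 ≠ a} with hG
  have hw1 : ∀ ω, 0 ≤ ind G w ω := fun ω => Set.indicator_nonneg (fun ω _ => hw ω) ω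
  have hw2 : ∀ ω, 0 ≤ ind Gᶜ w ω := fun ω => Set.indicator_nonneg (fun ω _ => hw ω) ω
  have h1 : Dw w a 1 i ≤ K0 (sib (ind G w) (fun ω => TR (ext ω) L a 1) i)
      (fun p => (wm (ext p.1) L a 1, p.2)) +
      K0 (sib (ind Gᶜ w) (fun ω => TR (ext ω) L a 1) i) (fun p => (wm (ext p.1) L a 1, p.2)) := by
    unfold Dw
    conv_lhs => rw [← ind_split G w]
    rw [sib_add]
    exact KK_add_le _ _ (sib_nonneg' _ hw1 _ _) (sib_nonneg' _ hw2 _ _) _ _
  have h2 : K0 (sib (ind Gᶜ w) (fun ω => TR (ext ω) L a 1) i)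
      (fun p => (wm (ext p.1) L a 1, p.2)) = 0 := by
    refine K0_sib_top (ind Gᶜ w) hw2 (fun ω => TR (ext ω) L a 1) i ?_ (fun ω => wm (ext ω) L a 1)
    intro ω hω
    have hm : ω ∈ Gᶜ := by
      by_contra hc
      exact hω (Set.indicator_of_notMem hc w)
    apply TR_one
    by_contra hc
    push Not at hc
    exact hm hc
  have h3 := KK_le (sib (ind G w) (fun ω => TR (ext ω) L a 1) i) (sib_nonneg' _ hw1 _ _)
      (fun p => (wm (ext p.1) L a 1, p.2)) (fun _ => ())
  have h4 : tot (sib (ind G w) (fun ω => TR (ext ω) L a 1) i) = pr w G := by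
    unfold pr tot sib
    rw [Fintype.sum_prod_type]
    refine Finset.sum_congr rfl fun ω _ => ?_
    simp only
    rw [← Finset.mul_sum, sum_prod_uT, mul_one]
  have h5 : Real.log (Fintype.card (Un 1 × (Fin i → V 1))) = i * Real.log 2 := by
    rw [Fintype.card_prod, card_Un_one, Fintype.card_fun, Fintype.card_fun, ZMod.card, Fintype.card_fin,
      Fintype.card_fin]
    push_cast
    rw [one_mul, Real.log_pow]
  rw [h4, h5] at h3
  unfold K0 at h1 h2
  rw [h2, add_zero] at h1
  linarith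

/-- (K4) the base of the chain -/
theorem Dw_one (G : Set (Wd B L)) (a i : ℕ) (ha : a < B) :
    Dw (ind G (uw B L)) a 1 i ≤ i * Real.log 2 * (1 - 1 / (B : ℝ)) ^ L := by
  classical
  have hu : ∀ ω : Wd B L, 0 ≤ uw B L ω := fun ω => by
    unfold uw
    positivity
  refine (Dw_one_le (ind G (uw B L)) (fun ω => Set.indicator_nonneg (fun ω _ => hu ω) ω) a i).trans ?_
  have h1 : pr (ind G (uw B L)) {ω : Wd B L | ∀ r < L, (ext ω r).1 ≠ a} ≤ (1 - 1 / (B : ℝ)) ^ L := by
    rw [← pr_noring (L := L) a ha]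
    unfold pr tot
    refine Finset.sum_le_sum fun ω _ => ?_
    unfold ind
    by_cases h : ω ∈ {ω : Wd B L | ∀ r < L, (ext ω r).1 ≠ a}
    · rw [Set.indicator_of_mem h, Set.indicator_of_mem h]
      exact Set.indicator_le_self' (fun ω _ => hu ω) ω
    · rw [Set.indicator_of_notMem h, Set.indicator_of_notMem h]
  have h2 : (0 : ℝ) ≤ i * Real.log 2 := mul_nonneg (Nat.cast_nonneg _) (Real.log_nonneg (by norm_num))
  exact mul_le_mul_of_nonneg_left h1 h2

end Pool.Agent.CutSeq.NJ
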