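import Pool.Agent.CutSeq.Mod

/-!
S19271, row MODEL (definitions): two-sided windows in the letter model.

The window `[a, a + n)` consists of the levels `a, ..., a + n - 1`; the inner bonds are
`a, ..., a + n - 2`, the lower boundary bond is `a - 1`, the upper one `a + n - 1`.  The time is fixed:
all `L` letters of a word `ω : Wd B L`.
-/

set_option autoImplicit false

namespace Pool.Agent.CutSeq.NJ

open Finset

/-- what the window `[a, a + n)` sees of a letter: inner bonds with the coin, the two boundary bonds
without the coin, all other letters as `none` -/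
def mskW (a n : ℕ) (p : ℕ × ZMod 2) : Option (ℕ × ZMod 2) :=
  if a ≤ p.1 ∧ p.1 + 1 < a + n then some p
  else if p.1 + 1 = a ∨ p.1 + 1 = a + n then some (p.1, 0)
  else none

variable {B L : ℕ}

/-- same history of the window `[a, a + n)` -/
def SameW (a n : ℕ) (ω ω' : Wd B L) : Prop := ∀ i < L, mskW a n (ext ω i) = mskW a n (ext ω' i)

/-- events of the history of the window `[a, a + n)` -/
def LevW (a n : ℕ) (G : Set (Wd B L)) : Prop := ∀ ω ω', SameW a n ω ω' → (ω ∈ G ↔ ω' ∈ G)

/-- functions of the history of the window -/
def MeasW {C : Type*} (a n : ℕ) (f : Wd B L → C) : Prop := ∀ ω ω', SameW a n ω ω' → f ω = f ω'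

/-- functions which do not depend on the coins of the bond `b` with `b + 1 = n` -/
def FlipInv {C : Type*} (n : ℕ) (f : Wd B L → C) : Prop :=
  ∀ (c : Fin L → ZMod 2) (ω : Wd B L), f (flipW n L c ω) = f ω

/-- the array of the window (after `L` letters) -/
def wm (α : Seq) (L a n : ℕ) : Un n := fun k j => Mst α L (a + k.val) (a + j.val)

/-- the row of level `i`, restricted to the columns of the window -/
def rowW (α : Seq) (L a n i : ℕ) : V n := fun j => Mst α L i (a + j.val)

/-- the column `j`, restricted to the rows of the window -/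
def colW (α : Seq) (L a n j : ℕ) : V n := fun k => Mst α L (a + k.val) j

/-- the top row of the window before letter `i` (diagonal included) -/
def lowW (α : Seq) (i a n : ℕ) : V n := fun j => Mst α i (a + n - 1) (a + j.val)

/-- the first column of the product of the letters after letter `i` -/
def colV (α : Seq) (L i a n : ℕ) : V n := fun k => Mst (shift α (i + 1)) (L - (i + 1)) (a + k.val) a

/-- span of the top row at the rings of the upper boundary bond (row siblings are uniform on it) -/
def TR (α : Seq) (L a n : ℕ) : Submodule (ZMod 2) (V n) :=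
  Submodule.span (ZMod 2) {x | ∃ i < L, (α i).1 + 1 = a + n ∧ x = lowW α i a n}

/-- span of the images of the rings of the lower boundary bond (column siblings are uniform on it) -/
def TC (α : Seq) (L a n : ℕ) : Submodule (ZMod 2) (V n) :=
  Submodule.span (ZMod 2) {x | ∃ i < L, (α i).1 + 1 = a ∧ x = colV α L i a n}

/-- reflection of an array -/
def trU {n : ℕ} (x : Un n) : Un n := fun k j =>
  x ⟨n - 1 - j.val, by have := k.isLt; have := j.isLt; omega⟩
    ⟨n - 1 - k.val, by have := k.isLt; have := j.isLt; simp only; omega⟩

/-- reflection of a vector -/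
def revV (n : ℕ) : V n ≃ₗ[ZMod 2] V n := LinearEquiv.funCongrLeft (ZMod 2) (ZMod 2) Fin.revPerm

/-- translation of the bonds by one (cyclically) -/
def tau (B L : ℕ) : Wd B L ≃ Wd B L :=
  Equiv.arrowCongr (Equiv.refl (Fin L)) ((finRotate B).prodCongr (Equiv.refl (ZMod 2)))

/-- reflection: time reversed, bonds reversed -/
def rho (B L : ℕ) : Wd B L ≃ Wd B L :=
  Equiv.arrowCongr Fin.revPerm (Fin.revPerm.prodCongr (Equiv.refl (ZMod 2)))

/-- `i` row siblings and `j` column siblings of the window, independent given the word -/
noncomputable def sib2 {Ω : Type*} {n : ℕ} (w : Ω → ℝ) (T T' : Ω → Submodule (ZMod 2) (V n))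
    (i j : ℕ) : Ω × (Fin i → V n) × (Fin j → V n) → ℝ :=
  fun p => w p.1 * (∏ l, uT (T p.1) (p.2.1 l)) * ∏ l, uT (T' p.1) (p.2.2 l)

end Pool.Agent.CutSeq.NJ
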