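import Pool.Agent.NJ.EntA76
import Pool.Agent.NJ.Slope85
import Pool.Agent.NJ.T1s59
import Pool.Agent.NJ.Broom36
import Pool.Agent.NJ.Defs84
import Pool.Agent.CutSeq.Quant

/-!
S19271, SIB assembly, part 1: the information `UU i j` of the data with `i` row siblings and `j` column
siblings, its increments in `j`, and the quantised bound of one column sibling.
-/

set_option autoImplicit false

namespace Pool.Agent.CutSeq.NJ.S89

open Finset Pool.Agent.CutSeq Pool.Agent.CutSeq.NJ Pool.Agent.NJ

variable {Ω A B : Type*} [Fintype Ω] [Fintype A] {n : ℕ}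

lemma uT_nonneg89 (T : Submodule (ZMod 2) (V n)) (x : V n) : 0 ≤ uT T x := uT_nonneg T x

lemma sib2_nonneg89 (w : Ω → ℝ) (hw : ∀ ω, 0 ≤ w ω) (T T' : Ω → Submodule (ZMod 2) (V n)) (i j : ℕ)
    (p : Ω × (Fin i → V n) × (Fin j → V n)) : 0 ≤ sib2 w T T' i j p := by
  unfold sib2
  refine mul_nonneg (mul_nonneg (hw _) (Finset.prod_nonneg fun _ _ => uT_nonneg _ _))
    (Finset.prod_nonneg fun _ _ => uT_nonneg _ _)

lemma tot_sib2_89 (w : Ω → ℝ) (T T' : Ω → Submodule (ZMod 2) (V n)) (i j : ℕ) :
    tot (sib2 w T T' i j) = tot w := by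
  unfold tot sib2
  rw [Fintype.sum_prod_type]
  refine Finset.sum_congr rfl fun ω _ => ?_
  rw [Fintype.sum_prod_type]
  simp only
  calc ∑ x : Fin i → V n, ∑ y : Fin j → V n, w ω * (∏ l, uT (T ω) (x l)) * ∏ l, uT (T' ω) (y l)
      = ∑ x : Fin i → V n, w ω * (∏ l, uT (T ω) (x l)) * 1 := by
        refine Finset.sum_congr rfl fun x _ => ?_
        rw [← Finset.mul_sum, sum_prod_uT]
    _ = w ω := by
        simp only [mul_one]
        rw [← Finset.mul_sum, sum_prod_uT, mul_one]

/-- `y + q` column siblings are `y` column siblings and `q` siblings over the enlarged space -/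
lemma UU_add (w : Ω → ℝ) (hw : ∀ ω, 0 ≤ w ω) (T T' : Ω → Submodule (ZMod 2) (V n)) (m : Ω → A)
    (i y q : ℕ) :
    US (sib2 w T T' i y) (fun p => T' p.1) (fun p => (m p.1, p.2.1, p.2.2)) q
      = UU w T T' m i (y + q) - UU w T T' m i y := by
  classical
  set w2 := sib2 w T T' i y with hw2
  have hw2n : ∀ p, 0 ≤ w2 p := sib2_nonneg89 w hw T T' i y
  set ws := sib w2 (fun p => T' p.1) q with hws
  have hwsn : ∀ p, 0 ≤ ws p := sib_nonneg_sib w2 hw2n _ q
  set D : Ω × (Fin i → V n) × (Fin y → V n) → A × (Fin i → V n) × (Fin y → V n) :=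
    fun p => (m p.1, p.2.1, p.2.2) with hD
  -- the chain rule
  have h1 : K0 ws (fun p => (D p.1, p.2)) = K0 ws (fun p => D p.1)
      + KK ws (fun p => p.2) (fun p => (D p.1, ())) := KK_chain ws hwsn (fun p => D p.1) _ _
  have h2 : KK ws (fun p => p.2) (fun p => (D p.1, ())) = KK ws (fun p => p.2) (fun p => D p.1) := by
    refine le_antisymm (KK_finer ws hwsn _ _ _ ?_) (KK_finer ws hwsn _ _ _ ?_)
    · intro p p' _ _ h
      show (D p.1, ()) = (D p'.1, ())
      rw [show D p.1 = D p'.1 from h]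
    · intro p p' _ _ h
      exact (Prod.mk.inj h).1
  have h3 : K0 ws (fun p => D p.1) = K0 w2 D :=
    KK_sib_fst w2 (fun p => T' p.1) q D (fun _ => ())
  have h4 : K0 ws (fun p => (D p.1, p.2)) = UU w T T' m i (y + q) := by
    have hb : K0 ws (fun p => (D p.1, p.2))
        = K0 ws (fun p => (m p.1.1, p.1.2.1, Fin.append p.1.2.2 p.2)) := by
      symm
      refine K0_bij ws hwsn (fun p => (D p.1, p.2))
        (fun p => (m p.1.1, p.1.2.1, Fin.append p.1.2.2 p.2))
        { toFun := fun q => (q.1.1, q.1.2.1, Fin.append q.1.2.2 q.2)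
          invFun := fun q => ((q.1, q.2.1, fun a => q.2.2 (Fin.castAdd _ a)),
            fun a => q.2.2 (Fin.natAdd _ a))
          left_inv := ?_
          right_inv := ?_ } ?_
      · rintro ⟨⟨a, x, b⟩, c⟩
        simp
      · rintro ⟨a, x, b⟩
        refine Prod.ext rfl (Prod.ext rfl ?_)
        funext j
        refine Fin.addCases (fun j => ?_) (fun j => ?_) j
        · simp
        · simp
      · rintro ⟨⟨ω, x, b⟩, c⟩ _
        rfl
    rw [hb]
    unfold UU K0
    refine KK_law _ _ _ _ _ _ fun a b => ?_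
    unfold mass
    rw [Fintype.sum_prod_type, Fintype.sum_prod_type, Fintype.sum_prod_type]
    refine Finset.sum_congr rfl fun ω _ => ?_
    rw [Fintype.sum_prod_type, Fintype.sum_prod_type]
    refine Finset.sum_congr rfl fun x _ => ?_
    rw [← (Fin.appendEquiv (α := V n) y q).sum_comp, Fintype.sum_prod_type]
    refine Finset.sum_congr rfl fun c _ => ?_
    refine Finset.sum_congr rfl fun c' _ => ?_
    have hval : ws ((ω, x, c), c') = sib2 w T T' i (y + q) (ω, x, Fin.append c c') := by
      rw [hws, hw2]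
      unfold sib sib2
      simp only [Fin.prod_univ_add, Fin.append_left, Fin.append_right]
      ring
    simp only [hval]
    have hap : (Fin.appendEquiv (α := V n) y q) (c, c') = Fin.append c c' := rfl
    rw [hap]
    by_cases h : ((m ω, x, Fin.append c c'), ()) = (a, b)
    · rw [if_pos h, if_pos h]
    · rw [if_neg h, if_neg h]
  have h5 : UU w T T' m i y = K0 w2 D := rfl
  unfold US
  rw [← h2, ← h4, h5, ← h3]
  linarith

/-- the increments in the number of column siblings increase -/
lemma UU_incr (w : Ω → ℝ) (hw : ∀ ω, 0 ≤ w ω) (T T' : Ω → Submodule (ZMod 2) (V n)) (m : Ω → A)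
    (i l : ℕ) :
    UU w T T' m i (l + 1) - UU w T T' m i l ≤ UU w T T' m i (l + 2) - UU w T T' m i (l + 1) := by
  have hW : ∀ p, 0 ≤ sib2 w T T' i 0 p := sib2_nonneg89 w hw T T' i 0
  have h0 := UU_add w hw T T' m i 0 l
  have h1 := UU_add w hw T T' m i 0 (l + 1)
  have h2 := UU_add w hw T T' m i 0 (l + 2)
  have s0 := US_succ (sib2 w T T' i 0) hW (fun p => T' p.1) (fun p => (m p.1, p.2.1, p.2.2)) l
  have s1 := US_succ (sib2 w T T' i 0) hW (fun p => T' p.1) (fun p => (m p.1, p.2.1, p.2.2)) (l + 1)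
  have hm := eS_mono (sib2 w T T' i 0) hW (fun p => T' p.1) (fun p => (m p.1, p.2.1, p.2.2)) l
  simp only [Nat.zero_add] at h0 h1 h2
  have e : l + 1 + 1 = l + 2 := rfl
  rw [e] at s1
  linarith

lemma UU_le_succ (w : Ω → ℝ) (hw : ∀ ω, 0 ≤ w ω) (T T' : Ω → Submodule (ZMod 2) (V n)) (m : Ω → A)
    (i l : ℕ) : UU w T T' m i l ≤ UU w T T' m i (l + 1) := by
  have hW : ∀ p, 0 ≤ sib2 w T T' i l p := sib2_nonneg89 w hw T T' i l
  have h1 := UU_add w hw T T' m i l 1
  have h2 : 0 ≤ US (sib2 w T T' i l) (fun p => T' p.1) (fun p => (m p.1, p.2.1, p.2.2)) 1 :=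
    KK_nonneg _ (sib_nonneg_sib _ hW _ 1) _ _
  linarith

/-- averaging over the number of column siblings already present -/
lemma avg_incr (f : ℕ → ℝ)
    (hmono : ∀ l, f l ≤ f (l + 1)) (e : ℝ) (he : 0 ≤ e) (s q : ℕ) (hs : 1 ≤ s)
    (hslope : ∀ l, l < s + q → f (l + 1) - f l ≤ e) :
    ∃ y, y < s ∧ (f (y + q) - f y) - q * (f (y + 1) - f y) ≤ (q : ℝ) ^ 2 * e / s := by
  set a : ℕ → ℝ := fun l => f (l + 1) - f l with ha
  have htel : ∀ y t : ℕ, f (y + t) - f y = ∑ u ∈ range t, a (y + u) := by
    intro y t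
    induction t with
    | zero => simp
    | succ t ih =>
        rw [Finset.sum_range_succ, ← ih, ha]
        simp only
        rw [show y + (t + 1) = y + t + 1 from rfl]
        ring
  have hshift : ∀ t, t ≤ q → ∑ y ∈ range s, a (y + t) ≤ ∑ y ∈ range s, a y + t * e := by
    intro t ht
    induction t with
    | zero => simp
    | succ t ih =>
        have h1 := ih (by omega)
        have h2 : ∑ y ∈ range s, a (y + (t + 1)) = ∑ y ∈ range s, a (y + t) + a (s + t) - a t := by
          have h3 := Finset.sum_range_succ (fun y => a (y + t)) s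
          have h4 := Finset.sum_range_succ' (fun y => a (y + t)) s
          have h5 : ∑ y ∈ range s, a (y + (t + 1)) = ∑ y ∈ range s, a (y + 1 + t) := by
            refine Finset.sum_congr rfl fun y _ => ?_
            rw [show y + (t + 1) = y + 1 + t by omega]
          rw [h5]
          simp only [Nat.zero_add] at h4
          linarith
        have h6 : a (s + t) ≤ e := hslope (s + t) (by omega)
        have h7 : 0 ≤ a t := by
          have := hmono t
          simp only [ha]
          linarith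
        rw [h2]
        push_cast
        linarith
  have hsum : ∑ y ∈ range s, ((f (y + q) - f y) - q * (f (y + 1) - f y))
      ≤ ∑ _y ∈ range s, (q : ℝ) ^ 2 * e / s := by
    have h1 : ∑ y ∈ range s, ((f (y + q) - f y) - q * (f (y + 1) - f y))
        = ∑ u ∈ range q, (∑ y ∈ range s, a (y + u) - ∑ y ∈ range s, a y) := by
      have h3 : ∑ y ∈ range s, ((f (y + q) - f y) - q * (f (y + 1) - f y))
          = ∑ y ∈ range s, ∑ u ∈ range q, (a (y + u) - a y) := by
        refine Finset.sum_congr rfl fun y _ => ?_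
        rw [Finset.sum_sub_distrib, ← htel y q, Finset.sum_const, Finset.card_range, nsmul_eq_mul]
      rw [h3, Finset.sum_comm]
      exact Finset.sum_congr rfl fun u _ => Finset.sum_sub_distrib _ _
    have h2 : ∑ u ∈ range q, (∑ y ∈ range s, a (y + u) - ∑ y ∈ range s, a y)
        ≤ ∑ _u ∈ range q, (q : ℝ) * e := by
      refine Finset.sum_le_sum fun u hu => ?_
      have h3 := hshift u (Finset.mem_range.1 hu).le
      have h4 : (u : ℝ) * e ≤ q * e := by
        refine mul_le_mul_of_nonneg_right ?_ he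
        exact_mod_cast (Finset.mem_range.1 hu).le
      linarith
    rw [h1]
    refine h2.trans (le_of_eq ?_)
    rw [Finset.sum_const, Finset.card_range, nsmul_eq_mul, Finset.sum_const, Finset.card_range,
      nsmul_eq_mul]
    have : (s : ℝ) ≠ 0 := by
      have : (1 : ℝ) ≤ s := by exact_mod_cast hs
      positivity
    field_simp
  obtain ⟨y, hy, h⟩ := Finset.exists_le_of_sum_le (by
    exact ⟨0, Finset.mem_range.2 (by omega)⟩) hsum
  exact ⟨y, Finset.mem_range.1 hy, h⟩

end Pool.Agent.CutSeq.NJ.S89
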