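import Pool.Agent.CutSeq.Ent

/-! Row SUM: the telescoping along the diagonals and the sum over a block of sizes. -/

set_option autoImplicit false

namespace Pool.Agent.NJ

open Finset Pool.Agent.CutSeq

/-- sum of the binary entropies of a decreasing family of weights -/
theorem hh61 (p : ℕ → ℝ) (K : ℕ) (hK : 2 ≤ K) (h0 : p 0 ≤ 1) (hnn : ∀ n ≤ K, 0 ≤ p n)
    (hdec : ∀ n < K, p (n + 1) ≤ p n) :
    ∑ n ∈ range K, HH (p (n + 1)) (p n - p (n + 1)) ≤ 2 * Real.log K + 3 := by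
  have hle : ∀ n ≤ K, p n ≤ 1 := by
    intro n
    induction n with
    | zero => intro _; exact h0
    | succ n ih => intro hn; exact (hdec n (by omega)).trans (ih (by omega))
  have hK2 : (2 : ℝ) ≤ K := by exact_mod_cast hK
  have h1 : ∀ n ∈ range K, HH (p (n + 1)) (p n - p (n + 1))
      ≤ (p n - p (n + 1)) * (1 + 2 * Real.log K) + 2 / K := by
    intro n hn
    rw [mem_range] at hn
    exact HH_le _ _ K (hnn _ (by omega)) (by linarith [hdec n hn])
      (by linarith [hle n (by omega)]) hK2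
  refine (sum_le_sum h1).trans ?_
  rw [sum_add_distrib, ← sum_mul, sum_range_sub', sum_const, card_range, nsmul_eq_mul]
  have hlog : 0 ≤ Real.log (K : ℝ) := Real.log_nonneg (by linarith)
  have h2 : (p 0 - p K) * (1 + 2 * Real.log K) ≤ 1 * (1 + 2 * Real.log K) := by
    refine mul_le_mul_of_nonneg_right ?_ (by positivity)
    linarith [hnn K le_rfl]
  have h3 : (K : ℝ) * (2 / K) = 2 := by
    field_simp
  rw [h3]
  linarith

/-- one size: the sum over a block of numbers of siblings -/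
theorem tele61 (U U' f : ℕ → ℝ) (i₀ m r y : ℕ) (es c : ℝ) (hr : 1 ≤ r) (hes : 0 ≤ es)
    (hsib : ∀ i, i₀ ≤ i → i < i₀ + m → f i ≤ U' (i + r) - U' (i + r - 1) + c)
    (hle : ∀ i, i ≤ i₀ + m + r → U i ≤ U' i)
    (hmono : ∀ i, i < i₀ + m + r → U' i ≤ U' (i + 1))
    (hslope : ∀ i, i < i₀ + m + r → U' (i + 1) - U' i ≤ es)
    (hY : ∀ i, i ≤ i₀ + m + r → U' i - U i ≤ y * es) :
    ∑ i ∈ Ico i₀ (i₀ + m), (f i - (U (i + 1) - U i)) ≤ ((r : ℝ) + y) * es + m * c := by
  have hA : ∑ i ∈ Ico i₀ (i₀ + m), (f i - (U (i + 1) - U i))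
      ≤ ∑ i ∈ Ico i₀ (i₀ + m), ((U' (i + 1 + (r - 1)) - U' (i + (r - 1))) + c
        - (U (i + 1) - U i)) := by
    refine sum_le_sum fun i hi => ?_
    rw [mem_Ico] at hi
    have h1 := hsib i hi.1 hi.2
    have h2 : i + r = i + 1 + (r - 1) := by omega
    have h3 : i + 1 + (r - 1) - 1 = i + (r - 1) := by omega
    rw [h2, h3] at h1
    linarith
  have hT : ∀ (g : ℕ → ℝ), ∑ i ∈ Ico i₀ (i₀ + m), (g (i + 1) - g i) = g (i₀ + m) - g i₀ := by
    intro g
    rw [sum_Ico_eq_sum_range]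
    have : i₀ + m - i₀ = m := by omega
    rw [this]
    have h := sum_range_sub (fun j => g (i₀ + j)) m
    simpa [add_assoc] using h
  have hB : ∑ i ∈ Ico i₀ (i₀ + m), ((U' (i + 1 + (r - 1)) - U' (i + (r - 1))) + c
        - (U (i + 1) - U i))
      = (U' (i₀ + m + (r - 1)) - U' (i₀ + (r - 1))) + m * c - (U (i₀ + m) - U i₀) := by
    rw [sum_sub_distrib, sum_add_distrib, hT U, hT (fun i => U' (i + (r - 1))), sum_const,
      Nat.card_Ico, nsmul_eq_mul]
    have : i₀ + m - i₀ = m := by omega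
    rw [this]
  have hC : ∀ j : ℕ, j + 1 ≤ r → U' (i₀ + m + j) ≤ U' (i₀ + m) + j * es := by
    intro j
    induction j with
    | zero => intro _; simp
    | succ j ih =>
      intro hj
      have h1 := ih (by omega)
      have h2 := hslope (i₀ + m + j) (by omega)
      push_cast
      have h3 : i₀ + m + (j + 1) = i₀ + m + j + 1 := by omega
      rw [h3]
      linarith
  have hD : ∀ j : ℕ, j + 1 ≤ r → U' i₀ ≤ U' (i₀ + j) := by
    intro j
    induction j with
    | zero => intro _; simp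
    | succ j ih =>
      intro hj
      have h1 := ih (by omega)
      have h2 := hmono (i₀ + j) (by omega)
      exact h1.trans h2
  have h1 := hC (r - 1) (by omega)
  have h2 := hD (r - 1) (by omega)
  have h3 := hY (i₀ + m) (by omega)
  have h4 := hle i₀ (by omega)
  have h5 : ((r - 1 : ℕ) : ℝ) * es ≤ r * es := by
    refine mul_le_mul_of_nonneg_right ?_ hes
    exact_mod_cast Nat.sub_le r 1
  rw [hB] at hA
  refine hA.trans ?_
  linarith [add_mul (r : ℝ) (y : ℝ) es]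

/-- the chain for one top level -/
theorem chain61 (U f : ℕ → ℕ → ℝ) (hh : ℕ → ℝ) (b : ℝ) (k : ℕ) (h0 : U 0 k ≤ 0)
    (hchain : ∀ n i, n + i + 1 = k → U (n + 1) i ≤ U n i + f n i + i * b + hh n) :
    U k 0 ≤ ∑ n ∈ range k, ((f n (k - n - 1) - (U n (k - n - 1 + 1) - U n (k - n - 1)))
      + (k - n - 1 : ℕ) * b + hh n) := by
  have h : ∀ n, n ≤ k → U n (k - n) ≤ ∑ j ∈ range n,
      ((f j (k - j - 1) - (U j (k - j - 1 + 1) - U j (k - j - 1)))
      + (k - j - 1 : ℕ) * b + hh j) := by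
    intro n
    induction n with
    | zero => intro _; simpa using h0
    | succ n ih =>
      intro hn
      rw [sum_range_succ]
      have h1 := ih (by omega)
      have h2 := hchain n (k - n - 1) (by omega)
      have h3 : k - (n + 1) = k - n - 1 := by omega
      have h4 : k - n - 1 + 1 = k - n := by omega
      rw [h3, h4]
      linarith
  have := h k le_rfl
  rwa [Nat.sub_self] at this

/-- Row SUM -/
theorem sum61 (U U' f : ℕ → ℕ → ℝ) (hh : ℕ → ℝ) (k₀ R r y : ℕ) (es c b : ℝ) (hR : 0 < R)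
    (hr : 1 ≤ r) (hes : 0 ≤ es) (hc : 0 ≤ c) (hb : 0 ≤ b) (hhh : ∀ n, 0 ≤ hh n)
    (h0 : ∀ i, i < k₀ + R → U 0 i ≤ 0)
    (hchain : ∀ n i, n + i + 1 < k₀ + R → U (n + 1) i ≤ U n i + f n i + i * b + hh n)
    (hsib : ∀ n i, n + i + 1 < k₀ + R → f n i ≤ U' n (i + r) - U' n (i + r - 1) + c)
    (hle : ∀ n i, n + i < k₀ + R + r → U n i ≤ U' n i)
    (hmono : ∀ n i, n + i < k₀ + R + r → U' n i ≤ U' n (i + 1))
    (hslope : ∀ n i, n + i < k₀ + R + r → U' n (i + 1) - U' n i ≤ es)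
    (hY : ∀ n i, n + i < k₀ + R + r → U' n i - U n i ≤ y * es) :
    ∃ k, k₀ ≤ k ∧ k < k₀ + R ∧ U k 0 ≤ ((k₀ : ℝ) + R) * ((((r : ℝ) + y) * es) / R + c)
      + ((k₀ : ℝ) + R) ^ 2 * b + ∑ n ∈ range (k₀ + R), hh n := by
  classical
  set A : ℕ → ℕ → ℝ := fun n i => f n i - (U n (i + 1) - U n i) with hAdef
  have hRR : (0 : ℝ) < R := by exact_mod_cast hR
  -- the sum over the block
  have h1 : ∀ k ∈ Ico k₀ (k₀ + R), U k 0 ≤ ∑ n ∈ range k, A n (k - n - 1)
      + ((k₀ : ℝ) + R) ^ 2 * b + ∑ n ∈ range (k₀ + R), hh n := by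
    intro k hk
    rw [mem_Ico] at hk
    have h2 := chain61 U f hh b k (h0 k hk.2) (fun n i hni => hchain n i (by omega))
    rw [sum_add_distrib, sum_add_distrib] at h2
    refine h2.trans ?_
    have h3 : ∑ n ∈ range k, ((k - n - 1 : ℕ) : ℝ) * b ≤ ((k₀ : ℝ) + R) ^ 2 * b := by
      have h4 : ∀ n ∈ range k, ((k - n - 1 : ℕ) : ℝ) * b ≤ ((k₀ : ℝ) + R) * b := by
        intro n _
        refine mul_le_mul_of_nonneg_right ?_ hb
        have : k - n - 1 ≤ k₀ + R := by omega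
        exact_mod_cast this
      refine (sum_le_sum h4).trans ?_
      rw [sum_const, card_range, nsmul_eq_mul]
      have h5 : (k : ℝ) ≤ (k₀ : ℝ) + R := by exact_mod_cast hk.2.le
      have h6 : 0 ≤ ((k₀ : ℝ) + R) * b := by positivity
      calc (k : ℝ) * (((k₀ : ℝ) + R) * b) ≤ ((k₀ : ℝ) + R) * (((k₀ : ℝ) + R) * b) :=
            mul_le_mul_of_nonneg_right h5 h6
        _ = ((k₀ : ℝ) + R) ^ 2 * b := by ring
    have h4 : ∑ n ∈ range k, hh n ≤ ∑ n ∈ range (k₀ + R), hh n :=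
      sum_le_sum_of_subset_of_nonneg (range_subset_range.2 hk.2.le) fun n _ _ => hhh n
    linarith
  -- exchange of the sums
  have h2 : ∑ k ∈ Ico k₀ (k₀ + R), ∑ n ∈ range k, A n (k - n - 1)
      = ∑ n ∈ range (k₀ + R), ∑ k ∈ Ico (max k₀ (n + 1)) (k₀ + R), A n (k - n - 1) := by
    rw [sum_sigma', sum_sigma']
    refine sum_bij' (fun x _ => ⟨x.2, x.1⟩) (fun x _ => ⟨x.2, x.1⟩) ?_ ?_ ?_ ?_ ?_
    · rintro ⟨k, n⟩ h
      simp only [mem_sigma, mem_Ico, mem_range] at h ⊢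
      omega
    · rintro ⟨n, k⟩ h
      simp only [mem_sigma, mem_Ico, mem_range] at h ⊢
      omega
    · rintro ⟨k, n⟩ _
      rfl
    · rintro ⟨n, k⟩ _
      rfl
    · rintro ⟨k, n⟩ _
      rfl
  have h3 : ∀ n ∈ range (k₀ + R), ∑ k ∈ Ico (max k₀ (n + 1)) (k₀ + R), A n (k - n - 1)
      ≤ ((r : ℝ) + y) * es + R * c := by
    intro n hn
    rw [mem_range] at hn
    set i₀ := max k₀ (n + 1) - n - 1 with hi₀
    set m := k₀ + R - max k₀ (n + 1) with hm
    have hmR : m ≤ R := by omega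
    have h4 : ∑ k ∈ Ico (max k₀ (n + 1)) (k₀ + R), A n (k - n - 1)
        = ∑ i ∈ Ico i₀ (i₀ + m), A n i := by
      refine sum_bij' (fun k _ => k - n - 1) (fun i _ => i + n + 1) ?_ ?_ ?_ ?_ ?_
      · intro k hk
        simp only [mem_Ico] at hk ⊢
        omega
      · intro i hi
        simp only [mem_Ico] at hi ⊢
        omega
      · intro k hk
        simp only [mem_Ico] at hk
        omega
      · intro i hi
        omega
      · intro k hk
        rfl
    rw [h4]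
    have h5 := tele61 (U n) (U' n) (f n) i₀ m r y es c hr hes
      (fun i hi1 hi2 => hsib n i (by omega))
      (fun i hi => hle n i (by omega)) (fun i hi => hmono n i (by omega))
      (fun i hi => hslope n i (by omega)) (fun i hi => hY n i (by omega))
    refine h5.trans ?_
    have h6 : (m : ℝ) * c ≤ R * c := by
      refine mul_le_mul_of_nonneg_right ?_ hc
      exact_mod_cast hmR
    linarith
  have h4 : ∑ k ∈ Ico k₀ (k₀ + R), U k 0 ≤ ∑ k ∈ Ico k₀ (k₀ + R),
      (((k₀ : ℝ) + R) * ((((r : ℝ) + y) * es) / R + c)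
      + ((k₀ : ℝ) + R) ^ 2 * b + ∑ n ∈ range (k₀ + R), hh n) := by
    refine (sum_le_sum h1).trans ?_
    rw [sum_add_distrib, sum_add_distrib, h2]
    have h5 := sum_le_sum h3
    rw [sum_const, card_range, nsmul_eq_mul] at h5
    have h6 : ∑ k ∈ Ico k₀ (k₀ + R), (((k₀ : ℝ) + R) * ((((r : ℝ) + y) * es) / R + c)
      + ((k₀ : ℝ) + R) ^ 2 * b + ∑ n ∈ range (k₀ + R), hh n)
      = ((k₀ + R : ℕ) : ℝ) * (((r : ℝ) + y) * es + R * c)
        + ∑ k ∈ Ico k₀ (k₀ + R), ((k₀ : ℝ) + R) ^ 2 * b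
        + ∑ k ∈ Ico k₀ (k₀ + R), ∑ n ∈ range (k₀ + R), hh n := by
      rw [sum_add_distrib, sum_add_distrib]
      congr 2
      rw [sum_const, Nat.card_Ico, nsmul_eq_mul]
      have : k₀ + R - k₀ = R := by omega
      rw [this]
      push_cast
      field_simp
    rw [h6]
    linarith
  obtain ⟨k, hk, hk2⟩ := exists_le_of_sum_le ⟨k₀, by simp [hR]⟩ h4
  rw [mem_Ico] at hk
  exact ⟨k, hk.1, hk.2, hk2⟩

end Pool.Agent.NJ
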