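import Pool.Agent.NJ.Model84
import Pool.Agent.NJ.Sym80

/-!
S19271, row MODEL: rotation of the bonds, arcs, reflection of the standard window `[1, 1 + n)`.

The arc `(a, n)` of the word `ω` is the standard window of the word `rot B L a ω`.
-/

set_option autoImplicit false

namespace Pool.Agent.CutSeq.NJ

open Finset

variable {B L : ℕ}

/-- rotation of the bonds, `b ↦ b - a` modulo `B` -/
def rot (B L a : ℕ) : Equiv.Perm (Wd B L) := ((tau B L : Equiv.Perm (Wd B L))⁻¹) ^ a

/-- reflection of the standard window of size `n` -/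
def refl (B L n : ℕ) : Wd B L ≃ Wd B L := (rho B L).trans (rot B L (B - n - 1))

theorem rot_zero (ω : Wd B L) : rot B L 0 ω = ω := rfl

theorem rot_add (a b : ℕ) (ω : Wd B L) : rot B L (a + b) ω = rot B L a (rot B L b ω) := by
  unfold rot
  rw [pow_add, Equiv.Perm.mul_apply]

theorem rot_comm (a b : ℕ) (ω : Wd B L) : rot B L a (rot B L b ω) = rot B L b (rot B L a ω) := by
  rw [← rot_add, ← rot_add, Nat.add_comm]

theorem tau_rot_succ (a : ℕ) (ω : Wd B L) : tau B L (rot B L (a + 1) ω) = rot B L a ω := by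
  unfold rot
  rw [pow_succ', Equiv.Perm.mul_apply]
  exact Equiv.apply_symm_apply (tau B L) _

theorem rot_one_tau (ω : Wd B L) : rot B L 1 (tau B L ω) = ω := by
  unfold rot
  rw [pow_one]
  exact Equiv.symm_apply_apply (tau B L) ω

theorem rot_succ_tau (a : ℕ) (ω : Wd B L) : rot B L (a + 1) (tau B L ω) = rot B L a ω := by
  rw [rot_add, rot_one_tau]

/-- `b ↦ b + a` on the cycle -/
theorem finRotate_iter {B : ℕ} (a : ℕ) (b : Fin B) :
    ((finRotate B)^[a] b).val = (b.val + a) % B := by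
  induction a with
  | zero =>
    show b.val = (b.val + 0) % B
    rw [Nat.add_zero, Nat.mod_eq_of_lt b.isLt]
  | succ a ih =>
    rw [Function.iterate_succ_apply', rot_val, ih]
    have hB : 0 < B := by have := b.isLt; omega
    have h1 : (b.val + a) % B < B := Nat.mod_lt _ hB
    have h2 : (b.val + (a + 1)) % B = ((b.val + a) % B + 1) % B := by
      rw [← Nat.add_assoc, Nat.add_mod, Nat.add_mod ((b.val + a) % B) 1 B, Nat.mod_mod]
    rw [h2]
    split_ifs with h3
    · rw [h3, Nat.mod_self]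
    · exact (Nat.mod_eq_of_lt (by omega)).symm

theorem tau_iter (a : ℕ) (ω : Wd B L) (i : Fin L) :
    ((tau B L)^[a] ω) i = ((finRotate B)^[a] (ω i).1, (ω i).2) := by
  induction a generalizing ω with
  | zero => rfl
  | succ a ih =>
    rw [Function.iterate_succ_apply, ih, tau_apply, Function.iterate_succ_apply]

theorem tau_iter_B (ω : Wd B L) : (tau B L)^[B] ω = ω := by
  funext i
  rw [tau_iter]
  refine Prod.ext (Fin.ext ?_) rfl
  show ((finRotate B)^[B] (ω i).1).val = (ω i).1.val
  rw [finRotate_iter, Nat.add_mod_right, Nat.mod_eq_of_lt (ω i).1.isLt]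

theorem rot_tau_iter (a : ℕ) (ω : Wd B L) : rot B L a ((tau B L)^[a] ω) = ω := by
  induction a generalizing ω with
  | zero => rfl
  | succ a ih => rw [Function.iterate_succ_apply', rot_succ_tau, ih]

theorem tau_iter_rot (a : ℕ) (ω : Wd B L) : (tau B L)^[a] (rot B L a ω) = ω := by
  induction a with
  | zero => rfl
  | succ a ih => rw [Function.iterate_succ_apply, tau_rot_succ, ih]

theorem rot_B (ω : Wd B L) : rot B L B ω = ω := by
  have h := rot_tau_iter B ω
  rwa [tau_iter_B] at h

theorem rot_mod (a : ℕ) (ω : Wd B L) : rot B L a ω = rot B L (a % B) ω := by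
  have h1 : ∀ k, rot B L (k * B) ω = ω := by
    intro k
    induction k with
    | zero => rw [Nat.zero_mul]; rfl
    | succ k ih => rw [Nat.succ_mul, rot_add, rot_B, ih]
  conv_lhs => rw [← Nat.mod_add_div' a B]
  rw [rot_add, h1]

theorem rot_inj (a : ℕ) : Function.Injective (rot B L a) := (rot B L a).injective

theorem sum_rot {M : Type*} [AddCommMonoid M] (a : ℕ) (f : Wd B L → M) :
    ∑ ω, f (rot B L a ω) = ∑ ω, f ω := Equiv.sum_comp (rot B L a) f

theorem sum_refl {M : Type*} [AddCommMonoid M] (n : ℕ) (f : Wd B L → M) :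
    ∑ ω, f (refl B L n ω) = ∑ ω, f ω := Equiv.sum_comp (refl B L n) f

theorem uw_rot (a : ℕ) (ω : Wd B L) : uw B L (rot B L a ω) = uw B L ω := rfl

theorem uw_refl (n : ℕ) (ω : Wd B L) : uw B L (refl B L n ω) = uw B L ω := rfl

/-! #### windows of rotated words -/

theorem wm_rot (d c n : ℕ) (h : c + d + n ≤ B) (ω : Wd B L) :
    wm (ext (rot B L d ω)) L c n = wm (ext ω) L (c + d) n := by
  induction d generalizing c with
  | zero => rfl
  | succ d ih =>
    rw [← wm_tau c n (by omega), tau_rot_succ, ih (c + 1) (by omega)]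
    rw [show c + 1 + d = c + (d + 1) by ring]

theorem TR_rot (d c n : ℕ) (h : c + d + n ≤ B) (ω : Wd B L) :
    TR (ext (rot B L d ω)) L c n = TR (ext ω) L (c + d) n := by
  induction d generalizing c with
  | zero => rfl
  | succ d ih =>
    rw [← TR_tau c n (by omega), tau_rot_succ, ih (c + 1) (by omega)]
    rw [show c + 1 + d = c + (d + 1) by ring]

theorem TC_rot (d c n : ℕ) (hc : 1 ≤ c) (h : c + d + n ≤ B) (ω : Wd B L) :
    TC (ext (rot B L d ω)) L c n = TC (ext ω) L (c + d) n := by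
  induction d generalizing c with
  | zero => rfl
  | succ d ih =>
    rw [← TC_tau c n hc (by omega), tau_rot_succ, ih (c + 1) (by omega) (by omega)]
    rw [show c + 1 + d = c + (d + 1) by ring]

theorem sameW_rot (d c n : ℕ) (hc : 1 ≤ c) (h : c + d + n ≤ B) (ω ω' : Wd B L) :
    SameW c n (rot B L d ω) (rot B L d ω') ↔ SameW (c + d) n ω ω' := by
  induction d generalizing c with
  | zero => exact Iff.rfl
  | succ d ih =>
    rw [← sameW_tau' c n hc (by omega), tau_rot_succ, tau_rot_succ, ih (c + 1) (by omega) (by omega)]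
    rw [show c + 1 + d = c + (d + 1) by ring]

/-- sub-arc: the objects of the word `rot (a + d) ω` in the standard window are those of the word
`rot a ω` in the window `[1 + d, 1 + d + n)` -/
theorem arc_wm (a d n : ℕ) (h : 1 + d + n ≤ B) (ω : Wd B L) :
    wm (ext (rot B L (a + d) ω)) L 1 n = wm (ext (rot B L a ω)) L (1 + d) n := by
  rw [Nat.add_comm a d, rot_add, wm_rot d 1 n h]

theorem arc_TR (a d n : ℕ) (h : 1 + d + n ≤ B) (ω : Wd B L) :
    TR (ext (rot B L (a + d) ω)) L 1 n = TR (ext (rot B L a ω)) L (1 + d) n := by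
  rw [Nat.add_comm a d, rot_add, TR_rot d 1 n h]

theorem arc_TC (a d n : ℕ) (h : 1 + d + n ≤ B) (ω : Wd B L) :
    TC (ext (rot B L (a + d) ω)) L 1 n = TC (ext (rot B L a ω)) L (1 + d) n := by
  rw [Nat.add_comm a d, rot_add, TC_rot d 1 n le_rfl h]

theorem arc_sameW (a d n : ℕ) (h : 1 + d + n ≤ B) (ω ω' : Wd B L) :
    SameW 1 n (rot B L (a + d) ω) (rot B L (a + d) ω') ↔
      SameW (1 + d) n (rot B L a ω) (rot B L a ω') := by
  rw [Nat.add_comm a d, rot_add, rot_add, sameW_rot d 1 n le_rfl h]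

/-- the history of an arc contains the histories of its sub-arcs -/
theorem arc_mono (a n d n' : ℕ) (hd : d + n' ≤ n) (h : 1 + n ≤ B) {ω ω' : Wd B L}
    (hs : SameW 1 n (rot B L a ω) (rot B L a ω')) :
    SameW 1 n' (rot B L (a + d) ω) (rot B L (a + d) ω') :=
  (arc_sameW a d n' (by omega) ω ω').2 (hs.mono (by omega) (by omega))

/-! #### reflection of the standard window -/

theorem refl_wm (n : ℕ) (h : n + 1 ≤ B) (ω : Wd B L) :
    wm (ext (refl B L n ω)) L 1 n = trU (wm (ext ω) L 1 n) := by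
  show wm (ext (rot B L (B - n - 1) (rho B L ω))) L 1 n = _
  rw [wm_rot (B - n - 1) 1 n (by omega), wm_rho (1 + (B - n - 1)) n (by omega),
    show B + 1 - (1 + (B - n - 1)) - n = 1 by omega]

theorem refl_TR (n : ℕ) (h : n + 1 ≤ B) (hn : 1 ≤ n) (ω : Wd B L) :
    TR (ext (refl B L n ω)) L 1 n = (TC (ext ω) L 1 n).map (revV n).toLinearMap := by
  show TR (ext (rot B L (B - n - 1) (rho B L ω))) L 1 n = _
  rw [TR_rot (B - n - 1) 1 n (by omega), TR_rho (1 + (B - n - 1)) n (by omega) hn,
    show B + 1 - (1 + (B - n - 1)) - n = 1 by omega]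

theorem refl_TC (n : ℕ) (h : n + 1 ≤ B) (hn : 1 ≤ n) (ω : Wd B L) :
    TC (ext (refl B L n ω)) L 1 n = (TR (ext ω) L 1 n).map (revV n).toLinearMap := by
  show TC (ext (rot B L (B - n - 1) (rho B L ω))) L 1 n = _
  rw [TC_rot (B - n - 1) 1 n le_rfl (by omega), TC_rho (1 + (B - n - 1)) n (by omega) hn,
    show B + 1 - (1 + (B - n - 1)) - n = 1 by omega]

theorem refl_sameW (n : ℕ) (h : n + 1 ≤ B) (ω ω' : Wd B L) :
    SameW 1 n (refl B L n ω) (refl B L n ω') ↔ SameW 1 n ω ω' := by
  show SameW 1 n (rot B L (B - n - 1) (rho B L ω)) (rot B L (B - n - 1) (rho B L ω')) ↔ _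
  rw [sameW_rot (B - n - 1) 1 n le_rfl (by omega), sameW_rho (1 + (B - n - 1)) n (by omega),
    show B + 1 - (1 + (B - n - 1)) - n = 1 by omega]

/-- sub-windows under the reflection -/
theorem refl_wm_sub (n d n' : ℕ) (hd : d + n' ≤ n) (h : n + 1 ≤ B) (ω : Wd B L) :
    wm (ext (refl B L n ω)) L (1 + d) n' = trU (wm (ext ω) L (1 + (n - d - n')) n') := by
  show wm (ext (rot B L (B - n - 1) (rho B L ω))) L (1 + d) n' = _
  rw [wm_rot (B - n - 1) (1 + d) n' (by omega), wm_rho (1 + d + (B - n - 1)) n' (by omega),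
    show B + 1 - (1 + d + (B - n - 1)) - n' = 1 + (n - d - n') by omega]

theorem refl_sameW_sub (n d n' : ℕ) (hd : d + n' ≤ n) (h : n + 1 ≤ B) (ω ω' : Wd B L) :
    SameW (1 + d) n' (refl B L n ω) (refl B L n ω') ↔ SameW (1 + (n - d - n')) n' ω ω' := by
  show SameW (1 + d) n' (rot B L (B - n - 1) (rho B L ω)) (rot B L (B - n - 1) (rho B L ω')) ↔ _
  rw [sameW_rot (B - n - 1) (1 + d) n' (by omega) (by omega),
    sameW_rho (1 + d + (B - n - 1)) n' (by omega),
    show B + 1 - (1 + d + (B - n - 1)) - n' = 1 + (n - d - n') by omega]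

/-! #### reflection and rotation -/

theorem rho_tau (ω : Wd B L) : rho B L (tau B L ω) = rot B L 1 (rho B L ω) := by
  apply (tau B L).injective
  rw [show (1 : ℕ) = 0 + 1 from rfl, tau_rot_succ, rot_zero]
  funext i
  rw [tau_apply, rho_apply, rho_apply, tau_apply]
  refine Prod.ext (Fin.ext ?_) rfl
  show (finRotate B (Fin.rev (finRotate B (ω (Fin.rev i)).1))).val = (Fin.rev (ω (Fin.rev i)).1).val
  have hb := (ω (Fin.rev i)).1.isLt
  rw [rot_val, Fin.val_rev, Fin.val_rev, rot_val]
  split_ifs with h1 h2 h2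
  · omega
  · omega
  · omega
  · omega

/-- `rho (rot a ω) = tau^a (rho ω)` -/
theorem rho_rot (a : ℕ) (ω : Wd B L) : rho B L (rot B L a ω) = (tau B L)^[a] (rho B L ω) := by
  induction a generalizing ω with
  | zero => rfl
  | succ a ih =>
    have h1 : ω = tau B L (rot B L 1 ω) := (tau_rot_succ 0 ω).symm
    have h2 := rho_tau (rot B L 1 ω)
    rw [← h1] at h2
    have h3 : rho B L (rot B L 1 ω) = tau B L (rho B L ω) := by
      rw [h2, show (1 : ℕ) = 0 + 1 from rfl, tau_rot_succ, rot_zero]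
    rw [rot_add a 1, ih (rot B L 1 ω), h3, Function.iterate_succ_apply]

/-- rotation by `a` and then reflection = reflection and then rotation by `B - a` -/
theorem rho_rot' (a : ℕ) (ha : a ≤ B) (ω : Wd B L) :
    rho B L (rot B L a ω) = rot B L (B - a) (rho B L ω) := by
  rw [rho_rot]
  have h1 := rot_tau_iter (B - a) ((tau B L)^[a] (rho B L ω))
  rw [← h1, ← Function.iterate_add_apply, show B - a + a = B by omega, tau_iter_B]

end Pool.Agent.CutSeq.NJ
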