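import Pool.Agent.NJ.Wt19
import Pool.Agent.NJ.Rot84

/-!
S19271 / NJ, the weights on the arcs of the letter model (helper19).

The environment `arcWin B L n0`: windows are the arcs `(a, n)`, `a < B`, `n ≤ n0`, of the cycle; the
arc `(a, n)` of the word `ω` is the standard window `[1, 1 + n)` of `rot a ω`.  A family
`G : ℕ → Set (Wd B L)` (events of the standard windows) gives the system `arcG G`.  `nextG` is the
family of the next stage.
-/

set_option autoImplicit false

namespace Pool.Agent.CutSeq.NJ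

open Finset Pool.Agent.NJ

variable {B L n0 : ℕ}

/-! ### restriction of arrays -/

/-- fibres of a surjective homomorphism -/
lemma card_fibre19 {A A' : Type} [AddCommGroup A] [AddCommGroup A'] [Finite A] [Finite A']
    (φ : A →+ A') (hφ : Function.Surjective φ) (a : A') :
    Nat.card {x // φ x = a} * Nat.card A' = Nat.card A := by
  obtain ⟨x₀, hx₀⟩ := hφ a
  have e1 : Nat.card {x // φ x = a} = Nat.card φ.ker := by
    refine Nat.card_congr
      { toFun := fun x => ⟨x.1 - x₀, ?_⟩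
        invFun := fun x => ⟨x.1 + x₀, ?_⟩
        left_inv := fun x => Subtype.ext (by simp)
        right_inv := fun x => Subtype.ext (by simp) }
    · rw [AddMonoidHom.mem_ker, map_sub, x.2, hx₀, sub_self]
    · rw [map_add, hx₀, (AddMonoidHom.mem_ker).1 x.2, zero_add]
  have e2 : Nat.card (A ⧸ φ.ker) = Nat.card A' :=
    Nat.card_congr (QuotientAddGroup.quotientKerEquivOfSurjective φ hφ).toEquiv
  rw [e1, ← e2, Nat.mul_comm]
  exact (AddSubgroup.card_eq_card_quotient_mul_card_addSubgroup φ.ker).symm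

/-- the array of a sub-window -/
def subU (n n' d : ℕ) (h : d + n' ≤ n) : Un n →+ Un n' where
  toFun x := fun k j => x ⟨d + k.val, by have := k.isLt; omega⟩
    ⟨d + j.val, by have := k.isLt; have := j.isLt; simp only; omega⟩
  map_zero' := rfl
  map_add' _ _ := rfl

lemma subU_surj (n n' d : ℕ) (h : d + n' ≤ n) : Function.Surjective (subU n n' d h) := by
  intro y
  refine ⟨fun k j => if h' : d ≤ j.val ∧ k.val < d + n' then
    y ⟨k.val - d, by have := j.isLt; omega⟩ ⟨j.val - d, by have := j.isLt; simp only; omega⟩ else 0, ?_⟩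
  funext k j
  have hk := k.isLt
  have hj := j.isLt
  show (if h' : d ≤ d + j.val ∧ d + k.val < d + n' then
    y ⟨d + k.val - d, _⟩ ⟨d + j.val - d, _⟩ else 0) = y k j
  rw [dif_pos ⟨by omega, by omega⟩]
  have e : ∀ (k' : Fin n') (hk' : k'.val = k.val) (j' : ℕ) (hj' : j' < k'.val) (_ : j' = j.val),
      y k' ⟨j', hj'⟩ = y k j := by
    intro k' hk' j' hj' h2
    have : k' = k := Fin.ext hk'
    subst this
    subst h2
    rfl
  exact e _ (by simp) _ _ (by simp)

lemma subU_wm (α : Seq) (a n n' d : ℕ) (h : d + n' ≤ n) :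
    subU n n' d h (wm α L a n) = wm α L (a + d) n' := by
  funext k j
  show Mst α L (a + (d + k.val)) (a + (d + j.val)) = Mst α L (a + d + k.val) (a + d + j.val)
  rw [Nat.add_assoc, Nat.add_assoc]

/-! ### the environment -/

/-- arcs -/
abbrev Arc (B n0 : ℕ) := Fin B × Fin (n0 + 1)

/-- inclusion of arcs -/
def arcLe (I J : Arc B n0) : Prop := ∃ d : ℕ, d + I.2.val ≤ J.2.val ∧ I.1.val = (J.1.val + d) % B

open Classical in
/-- restriction -/
noncomputable def arcRes (I J : Arc B n0) : Un J.2.val → Un I.2.val :=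
  if h : arcLe I J then fun x => subU J.2.val I.2.val h.choose h.choose_spec.1 x else fun _ => 0

lemma arc_mono19 (h : n0 + 2 ≤ B) {I J : Arc B n0} (hIJ : arcLe I J) {ω ω' : Wd B L}
    (hs : SameW 1 J.2.val (rot B L J.1.val ω) (rot B L J.1.val ω')) :
    SameW 1 I.2.val (rot B L I.1.val ω) (rot B L I.1.val ω') := by
  obtain ⟨d, hd, he⟩ := hIJ
  rw [he, ← rot_mod, ← rot_mod]
  exact arc_mono J.1.val J.2.val d I.2.val hd (by have := J.2.isLt; omega) hs

/-- the environment of the arcs -/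
noncomputable abbrev arcWin (B L n0 : ℕ) (h : n0 + 2 ≤ B) : Win (Wd B L) where
  ι := Arc B n0
  finι := inferInstance
  le := arcLe
  refl := fun J => ⟨0, by omega, (Nat.mod_eq_of_lt J.1.isLt).symm⟩
  trans := by
    rintro I J K ⟨d, hd, he⟩ ⟨d', hd', he'⟩
    refine ⟨d' + d, by omega, ?_⟩
    rw [he, he', Nat.mod_add_mod, Nat.add_assoc]
  S := fun J ω ω' => SameW 1 J.2.val (rot B L J.1.val ω) (rot B L J.1.val ω')
  eqv := fun J => ⟨fun ω => SameW.refl _ _ _, fun h => h.symm, fun h h' => h.trans h'⟩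
  mono := fun I J hIJ ω ω' hs => arc_mono19 h hIJ hs
  A := fun J => Un J.2.val
  finA := fun J => inferInstance
  m := fun J ω => wm (ext (rot B L J.1.val ω)) L 1 J.2.val
  meas := fun J ω ω' hs => hs.wm_eq
  res := arcRes
  hres := by
    intro I J hIJ ω
    unfold arcRes
    rw [dif_pos hIJ]
    have h0 : ∃ d : ℕ, d + I.2.val ≤ J.2.val ∧ I.1.val = (J.1.val + d) % B := hIJ
    have h1 := h0.choose_spec.1
    have h2 := h0.choose_spec.2
    show subU J.2.val I.2.val h0.choose h1 (wm (ext (rot B L J.1.val ω)) L 1 J.2.val) =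
      wm (ext (rot B L I.1.val ω)) L 1 I.2.val
    rw [subU_wm]
    set d := h0.choose
    rw [h2, ← rot_mod, arc_wm J.1.val d I.2.val (by have := J.2.isLt; omega)]
  hcard := by
    intro I J hIJ a
    unfold arcRes
    rw [dif_pos hIJ]
    exact card_fibre19 _ (subU_surj _ _ _ _) a

/-- the system of events on the arcs -/
def arcG (h : n0 + 2 ≤ B) (G : ℕ → Set (Wd B L)) : (arcWin B L n0 h).ι → Set (Wd B L) :=
  fun J => {ω | rot B L J.1.val ω ∈ G J.2.val}

/-- the standard arc -/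
def std (h : n0 + 2 ≤ B) (n : Fin (n0 + 1)) : (arcWin B L n0 h).ι := (⟨0, by omega⟩, n)

/-- the family of the next stage; `nA` is the largest admissible size of an outer window -/
noncomputable def nextG (h : n0 + 2 ≤ B) (G : ℕ → Set (Wd B L)) (nA : ℕ) (κ ε : ℝ) (n : ℕ) :
    Set (Wd B L) :=
  {ω | ∃ hn : n < n0 + 1, ω ∈ WNext (arcWin B L n0 h) (uw B L) (arcG h G)
    (fun K => K.2.val ≤ nA) κ ε (std h ⟨n, hn⟩)}

/-- what is required of a family of events -/
structure Fam19 (B L n0 : ℕ) (G : ℕ → Set (Wd B L)) : Prop where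
  lev : ∀ n ≤ n0, LevW 1 n (G n)
  sub : ∀ n ≤ n0, ∀ d n', d + n' ≤ n → ∀ ω ∈ G n, rot B L d ω ∈ G n'
  ref : ∀ n ≤ n0, ∀ ω ∈ G n, refl B L n ω ∈ G n

lemma refl_refl19 (n : ℕ) (h : n + 1 ≤ B) (ω : Wd B L) : refl B L n (refl B L n ω) = ω := by
  show rot B L (B - n - 1) (rho B L (rot B L (B - n - 1) (rho B L ω))) = ω
  rw [rho_rot' _ (by omega), rho_rho, ← rot_add, show B - n - 1 + (B - (B - n - 1)) = B by omega,
    rot_B]

variable {G : ℕ → Set (Wd B L)}

lemma Fam19.ref_iff (hG : Fam19 B L n0 G) (h : n0 + 2 ≤ B) {n : ℕ} (hn : n ≤ n0) (ω : Wd B L) :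
    refl B L n ω ∈ G n ↔ ω ∈ G n := by
  constructor
  · intro h1
    have := hG.ref n hn _ h1
    rwa [refl_refl19 n (by omega)] at this
  · exact hG.ref n hn ω

lemma arcG_sys (h : n0 + 2 ≤ B) (hG : Fam19 B L n0 G) : WSys (arcWin B L n0 h) (arcG h G) := by
  constructor
  · intro J ω ω' hs
    exact hG.lev J.2.val (by have := J.2.isLt; omega) _ _ hs
  · rintro ⟨⟨a', ha'⟩, ⟨n', hn'⟩⟩ ⟨⟨a, ha⟩, ⟨n, hn⟩⟩ ⟨d, hd, he⟩ ω hω
    have h1 := hG.sub n (by omega) d n' hd _ hω
    have he' : a' = (a + d) % B := he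
    show rot B L a' ω ∈ G n'
    rw [he', ← rot_mod, Nat.add_comm a d, rot_add]
    exact h1

/-! ### rotations -/

/-- rotation of the starting points of the arcs -/
noncomputable def rotArc (B n0 c : ℕ) : Arc B n0 ≃ Arc B n0 :=
  Equiv.prodCongr ((finRotate B : Equiv.Perm (Fin B)) ^ c) (Equiv.refl _)

lemma rotArc_fst (c : ℕ) (J : Arc B n0) : (rotArc B n0 c J).1.val = (J.1.val + c) % B := by
  show (((finRotate B : Equiv.Perm (Fin B)) ^ c) J.1).val = _
  rw [← Equiv.Perm.iterate_eq_pow]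
  exact finRotate_iter c J.1

lemma rotArc_snd (c : ℕ) (J : Arc B n0) : (rotArc B n0 c J).2 = J.2 := rfl

lemma rot_rotArc (c : ℕ) (hc : c ≤ B) (J : Arc B n0) (ω : Wd B L) :
    rot B L (rotArc B n0 (B - c) J).1.val (rot B L c ω) = rot B L J.1.val ω := by
  rw [rotArc_fst, ← rot_mod, ← rot_add, show J.1.val + (B - c) + c = J.1.val + B by omega, rot_add,
    rot_B]

/-- rotation as a symmetry of the environment -/
noncomputable def rotSym (h : n0 + 2 ≤ B) (c : ℕ) (hc : c ≤ B) : WSym (arcWin B L n0 h) (uw B L) where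
  σ := rot B L c
  π := rotArc B n0 (B - c)
  hle := by
    intro I J
    constructor
    · rintro ⟨d, hd, he⟩
      refine ⟨d, hd, ?_⟩
      rw [rotArc_fst, rotArc_fst, Nat.mod_add_mod] at he
      have h1 : (I.1.val + (B - c) + c) % B = (J.1.val + (B - c) + d + c) % B := by
        rw [Nat.add_mod, he, ← Nat.add_mod]
      rw [show I.1.val + (B - c) + c = I.1.val + B by omega,
        show J.1.val + (B - c) + d + c = J.1.val + d + B by omega, Nat.add_mod_right,
        Nat.add_mod_right, Nat.mod_eq_of_lt I.1.isLt] at h1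
      exact h1
    · rintro ⟨d, hd, he⟩
      refine ⟨d, hd, ?_⟩
      rw [rotArc_fst, rotArc_fst, Nat.mod_add_mod, he, Nat.mod_add_mod]
      congr 1
      omega
  hS := by
    intro J ω ω'
    show SameW 1 J.2.val (rot B L (rotArc B n0 (B - c) J).1.val (rot B L c ω))
      (rot B L (rotArc B n0 (B - c) J).1.val (rot B L c ω')) ↔ _
    rw [rot_rotArc c hc, rot_rotArc c hc]
  hw := fun ω => rfl
  hA := fun J => rfl
  hm := by
    intro J ω ω'
    show wm (ext (rot B L (rotArc B n0 (B - c) J).1.val (rot B L c ω))) L 1 J.2.val =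
      wm (ext (rot B L (rotArc B n0 (B - c) J).1.val (rot B L c ω'))) L 1 J.2.val ↔ _
    rw [rot_rotArc c hc, rot_rotArc c hc]

/-- the next system on an arc is the next family of the rotated word -/
theorem next_arc (h : n0 + 2 ≤ B) (nA : ℕ) (κ ε : ℝ) (J : (arcWin B L n0 h).ι) (ω : Wd B L) :
    ω ∈ WNext (arcWin B L n0 h) (uw B L) (arcG h G) (fun K => K.2.val ≤ nA) κ ε J ↔
      rot B L J.1.val ω ∈ nextG h G nA κ ε J.2.val := by
  have h1 := next_equiv (rotSym (L := L) h J.1.val J.1.isLt.le) (G := arcG h G)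
    (by
      intro K ω
      show rot B L (rotArc B n0 (B - J.1.val) K).1.val (rot B L J.1.val ω) ∈ G K.2.val ↔ _
      rw [rot_rotArc _ J.1.isLt.le]
      exact Iff.rfl)
    (adm := fun K => K.2.val ≤ nA) (fun K => Iff.rfl) κ ε J ω
  have h2 : (rotSym (L := L) h J.1.val J.1.isLt.le).π J = std h J.2 := by
    refine Prod.ext (Fin.ext ?_) rfl
    show (rotArc B n0 (B - J.1.val) J).1.val = 0
    rw [rotArc_fst, show J.1.val + (B - J.1.val) = B by have := J.1.isLt; omega, Nat.mod_self]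
  rw [h2] at h1
  rw [← h1]
  constructor
  · intro h3
    exact ⟨J.2.isLt, h3⟩
  · rintro ⟨h3, h4⟩
    exact h4

/-! ### reflection -/

/-- reflection of the arcs -/
def rhoArc (B n0 : ℕ) (J : Arc B n0) : Arc B n0 :=
  (⟨(3 * B - 1 - J.1.val - J.2.val % B) % B, Nat.mod_lt _ (by have := J.1.isLt; omega)⟩, J.2)

lemma rhoArc_rhoArc (h : n0 + 2 ≤ B) (J : Arc B n0) : rhoArc B n0 (rhoArc B n0 J) = J := by
  obtain ⟨⟨a, ha⟩, ⟨n, hn⟩⟩ := J
  unfold rhoArc
  refine Prod.ext (Fin.ext ?_) rfl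
  simp only
  have hnB : n % B = n := Nat.mod_eq_of_lt (by omega)
  rw [hnB]
  have h1 : (3 * B - 1 - a - n) % B + a + n + 1 ≡ 0 [MOD B] := by
    have : (3 * B - 1 - a - n) + a + n + 1 = 3 * B := by omega
    calc (3 * B - 1 - a - n) % B + a + n + 1 ≡ (3 * B - 1 - a - n) + a + n + 1 [MOD B] := by
          refine Nat.ModEq.add_right _ (Nat.ModEq.add_right _ (Nat.ModEq.add_right _ ?_))
          exact Nat.mod_modEq _ _
      _ = 3 * B := this
      _ ≡ 0 [MOD B] := by rw [Nat.modEq_zero_iff_dvd]; exact Dvd.intro_left _ rfl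
  set b := (3 * B - 1 - a - n) % B with hb
  have hbB : b < B := Nat.mod_lt _ (by omega)
  -- `b + a + n + 1` is a multiple of `B`
  rw [Nat.modEq_zero_iff_dvd] at h1
  obtain ⟨q, hq⟩ := h1
  have hq3 : q < 4 := by
    by_contra hcon
    have : B * 4 ≤ B * q := Nat.mul_le_mul_left _ (not_lt.1 hcon)
    omega
  have e : 3 * B - 1 - b - n = a + (3 - q) * B := by
    interval_cases q <;> omega
  rw [e, Nat.add_mul_mod_self_right, Nat.mod_eq_of_lt ha]

lemma refl_rot (h : n0 + 2 ≤ B) (J : Arc B n0) (ω : Wd B L) :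
    rot B L (rhoArc B n0 J).1.val (rho B L ω) = refl B L J.2.val (rot B L J.1.val ω) := by
  obtain ⟨⟨a, ha⟩, ⟨n, hn⟩⟩ := J
  show rot B L ((3 * B - 1 - a - n % B) % B) (rho B L ω) =
    rot B L (B - n - 1) (rho B L (rot B L a ω))
  rw [← rot_mod, Nat.mod_eq_of_lt (show n < B by omega), rho_rot' a ha.le, ← rot_add,
    show 3 * B - 1 - a - n = B - n - 1 + (B - a) + B by omega, rot_add, rot_B]

lemma rhoArc_le (h : n0 + 2 ≤ B) {I J : Arc B n0} (hIJ : arcLe I J) :
    arcLe (rhoArc B n0 I) (rhoArc B n0 J) := by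
  obtain ⟨⟨a, ha⟩, ⟨n, hn⟩⟩ := J
  obtain ⟨⟨a', ha'⟩, ⟨n', hn'⟩⟩ := I
  obtain ⟨d, hd, he⟩ := hIJ
  simp only at hd he
  refine ⟨n - d - n', ?_, ?_⟩
  · show n - d - n' + n' ≤ n
    omega
  · show (3 * B - 1 - a' - n' % B) % B = ((3 * B - 1 - a - n % B) % B + (n - d - n')) % B
    rw [Nat.mod_eq_of_lt (show n < B by omega), Nat.mod_eq_of_lt (show n' < B by omega),
      Nat.mod_add_mod]
    by_cases h1 : a + d < B
    · rw [Nat.mod_eq_of_lt h1] at he
      congr 1
      omega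
    · have h2 : a' = a + d - B := by
        rw [he, Nat.mod_eq_sub_mod (by omega), Nat.mod_eq_of_lt (by omega)]
      have e : 3 * B - 1 - a' - n' = 3 * B - 1 - a - n + (n - d - n') + B := by omega
      rw [e, Nat.add_mod_right]

/-- reflection as a symmetry of the environment -/
noncomputable def rhoSym (h : n0 + 2 ≤ B) : WSym (arcWin B L n0 h) (uw B L) where
  σ := rho B L
  π := ⟨rhoArc B n0, rhoArc B n0, rhoArc_rhoArc h, rhoArc_rhoArc h⟩
  hle := by
    intro I J
    constructor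
    · intro h1
      have h2 := rhoArc_le h (I := rhoArc B n0 I) (J := rhoArc B n0 J) h1
      rwa [rhoArc_rhoArc h, rhoArc_rhoArc h] at h2
    · exact rhoArc_le h
  hS := by
    intro J ω ω'
    show SameW 1 J.2.val (rot B L (rhoArc B n0 J).1.val (rho B L ω))
      (rot B L (rhoArc B n0 J).1.val (rho B L ω')) ↔ _
    rw [refl_rot h, refl_rot h, refl_sameW _ (by have := J.2.isLt; omega)]
  hw := fun ω => rfl
  hA := fun J => rfl
  hm := by
    intro J ω ω'
    show wm (ext (rot B L (rhoArc B n0 J).1.val (rho B L ω))) L 1 J.2.val =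
      wm (ext (rot B L (rhoArc B n0 J).1.val (rho B L ω'))) L 1 J.2.val ↔ _
    rw [refl_rot h, refl_rot h, refl_wm _ (by have := J.2.isLt; omega),
      refl_wm _ (by have := J.2.isLt; omega)]
    exact (trU_bijective J.2.val).1.eq_iff

/-- **the next family is again a family** -/
theorem nextG_fam (h : n0 + 2 ≤ B) (hG : Fam19 B L n0 G) (nA : ℕ) (κ ε : ℝ) :
    Fam19 B L n0 (nextG h G nA κ ε) := by
  have hsys := next_sys (arcWin B L n0 h) (uw B L) (arcG_sys h hG)
    (fun K => K.2.val ≤ nA) κ ε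
  refine ⟨?_, ?_, ?_⟩
  · intro n hn ω ω' hs
    have hs' : (arcWin B L n0 h).S (std h ⟨n, by omega⟩) ω ω' := hs
    have h1 := hsys.sat (std h ⟨n, by omega⟩) ω ω' hs'
    constructor
    · rintro ⟨h2, h3⟩
      exact ⟨h2, h1.1 h3⟩
    · rintro ⟨h2, h3⟩
      exact ⟨h2, h1.2 h3⟩
  · rintro n hn d n' hd ω ⟨h2, h3⟩
    have hle : (arcWin B L n0 h).le ((⟨d, by omega⟩, ⟨n', by omega⟩) : Arc B n0)
        (std h ⟨n, h2⟩) := by
      refine ⟨d, hd, ?_⟩
      show d = (0 + d) % B
      rw [Nat.zero_add, Nat.mod_eq_of_lt (by omega)]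
    have h4 := hsys.dec _ _ hle h3
    rw [next_arc] at h4
    exact h4
  · rintro n hn ω ⟨h2, h3⟩
    have h4 := next_equiv (rhoSym (L := L) h) (G := arcG h G)
      (by
        intro K ω
        show rot B L (rhoArc B n0 K).1.val (rho B L ω) ∈ G K.2.val ↔ rot B L K.1.val ω ∈ G K.2.val
        rw [refl_rot h]
        exact hG.ref_iff h (by have := K.2.isLt; omega) _)
      (adm := fun K => K.2.val ≤ nA) (fun K => Iff.rfl) κ ε (std h ⟨n, h2⟩) ω
    have h5 := h4.2 h3
    rw [next_arc] at h5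
    have h6 : rot B L (rhoArc B n0 (std (L := L) h ⟨n, h2⟩)).1.val (rho B L ω) = refl B L n ω :=
      refl_rot h (std (L := L) h ⟨n, h2⟩) ω
    have h7 : rot B L (rhoArc B n0 (std (L := L) h ⟨n, h2⟩)).1.val (rho B L ω) ∈
      nextG h G nA κ ε n := h5
    rwa [h6] at h7

/-- the next family is smaller -/
theorem nextG_sub (h : n0 + 2 ≤ B) (nA : ℕ) (κ ε : ℝ) (n : ℕ) : nextG h G nA κ ε n ⊆ G n := by
  rintro ω ⟨h2, h3⟩
  exact h3.1

/-! ### the probability that is lost -/

lemma uw_pos19 (ω : Wd B L) : 0 < uw B L ω := by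
  unfold uw
  have : Nonempty (Wd B L) := ⟨ω⟩
  have h : (0 : ℝ) < Fintype.card (Wd B L) := by exact_mod_cast Fintype.card_pos
  positivity

lemma tot_uw_le19 : tot (uw B L) ≤ 1 := by
  unfold tot uw
  rw [Finset.sum_const, Finset.card_univ, nsmul_eq_mul]
  rcases Nat.eq_zero_or_pos (Fintype.card (Wd B L)) with h | h
  · rw [h]
    norm_num
  · have h' : (0 : ℝ) < Fintype.card (Wd B L) := by exact_mod_cast h
    rw [mul_one_div, div_self h'.ne']

lemma mass_rot19 {A : Type*} (a : ℕ) (w : Wd B L → ℝ) (X : Wd B L → A) (x : A) :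
    mass (fun ω => w (rot B L a ω)) (fun ω => X (rot B L a ω)) x = mass w X x := by
  unfold mass
  exact sum_rot a (fun ω => @ite _ (X ω = x) (Classical.propDecidable _) (w ω) 0)

/-- entropy of the rotated word -/
lemma K0_rot19 {A : Type*} [Fintype A] (a : ℕ) (w : Wd B L → ℝ) (X : Wd B L → A) :
    K0 (fun ω => w (rot B L a ω)) (fun ω => X (rot B L a ω)) = K0 w X := by
  unfold K0
  exact KK_law _ _ _ _ _ _ fun x y => mass_rot19 a w (fun ω => (X ω, ())) (x, y)

lemma ind_rot19 (a : ℕ) (G : Set (Wd B L)) :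
    ind {ω | rot B L a ω ∈ G} (uw B L) = fun ω => ind G (uw B L) (rot B L a ω) := by
  classical
  funext ω
  unfold ind
  simp only [Set.indicator_apply, Set.mem_ofPred_eq, uw_rot]

lemma card_arc19 (h : n0 + 2 ≤ B) :
    (Fintype.card (arcWin B L n0 h).ι : ℝ) = (B : ℝ) * ((n0 : ℝ) + 1) := by
  have : Fintype.card (Arc B n0) = B * (n0 + 1) := by
    rw [Fintype.card_prod, Fintype.card_fin, Fintype.card_fin]
  show (Fintype.card (Arc B n0) : ℝ) = _
  rw [this]
  push_cast
  ring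

/-- number of starting points on the grid -/
lemma card_grid19 (x : ℕ) :
    ((Finset.univ.filter fun J : Arc B n0 => J.2.val = n0 ∧ x ∣ J.1.val).card : ℝ) ≤
      (B : ℝ) / x + 1 := by
  classical
  have h1 : (Finset.univ.filter fun J : Arc B n0 => J.2.val = n0 ∧ x ∣ J.1.val).card ≤
      (Finset.range (B / x + 1)).card := by
    refine Finset.card_le_card_of_injOn (fun J => J.1.val / x) ?_ ?_
    · intro J hJ
      have hlt := J.1.isLt
      simp only [Finset.coe_range, Set.mem_Iio]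
      exact Nat.lt_succ_of_le (Nat.div_le_div_right hlt.le)
    · intro J hJ J' hJ' he
      have hJ1 : J ∈ Finset.univ.filter fun J : Arc B n0 => J.2.val = n0 ∧ x ∣ J.1.val := hJ
      have hJ2 : J' ∈ Finset.univ.filter fun J : Arc B n0 => J.2.val = n0 ∧ x ∣ J.1.val := hJ'
      rw [Finset.mem_filter] at hJ1 hJ2
      have he' : J.1.val / x = J'.1.val / x := he
      have e1 := Nat.div_mul_cancel hJ1.2.2
      have e2 := Nat.div_mul_cancel hJ2.2.2
      refine Prod.ext (Fin.ext ?_) (Fin.ext ?_)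
      · rw [← e1, ← e2, he']
      · rw [hJ1.2.1, hJ2.2.1]
  rw [Finset.card_range] at h1
  have h2 : ((B / x : ℕ) : ℝ) ≤ (B : ℝ) / x := Nat.cast_div_le
  calc ((Finset.univ.filter fun J : Arc B n0 => J.2.val = n0 ∧ x ∣ J.1.val).card : ℝ) ≤
        ((B / x + 1 : ℕ) : ℝ) := by exact_mod_cast h1
    _ ≤ (B : ℝ) / x + 1 := by push_cast; linarith

/-- **the wloss of a stage** -/
theorem nextG_loss (h : n0 + 2 ≤ B) (hG : Fam19 B L n0 G) {Kp p : ℝ}
    (hent : K0 (ind (G n0) (uw B L)) (fun ω => wm (ext ω) L 1 n0) ≤ Kp)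
    (hloss : pr (uw B L) {ω | ∃ a < B, rot B L a ω ∉ G n0} ≤ p) (x nA : ℕ) (hx : 1 ≤ x)
    (hnA : nA + x ≤ n0) (κ ε t : ℝ) (hε : 0 ≤ ε) (ht : t < κ) :
    pr (uw B L) {ω | ∃ a < B, rot B L a ω ∉ nextG h G nA κ ε n0} ≤
      p + ((B : ℝ) * ((n0 : ℝ) + 1)) ^ 2 * (ε + Real.exp (-t)) +
        ((B : ℝ) / x + 1) * ((Kp + 1) / (κ - t)) := by
  classical
  have hB : 0 < B := by omega
  have hw : ∀ ω : Wd B L, 0 < uw B L ω := uw_pos19
  have hw' : ∀ ω : Wd B L, 0 ≤ uw B L ω := fun ω => (hw ω).le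
  set W := arcWin B L n0 h with hW
  set D : Set (Wd B L) := {ω | ∀ J, ω ∈ arcG h G J} \
    {ω | ∀ J, ω ∈ WNext W (uw B L) (arcG h G) (fun K => K.2.val ≤ nA) κ ε J} with hD
  have hsub : {ω | ∃ a < B, rot B L a ω ∉ nextG h G nA κ ε n0} ⊆
      {ω | ∃ a < B, rot B L a ω ∉ G n0} ∪ D := by
    rintro ω ⟨a, ha, h1⟩
    by_cases h2 : ∃ a < B, rot B L a ω ∉ G n0
    · exact Or.inl h2
    · refine Or.inr ⟨?_, ?_⟩
      · intro J
        have h3 : rot B L J.1.val ω ∈ G n0 := by
          by_contra hcon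
          exact h2 ⟨J.1.val, J.1.isLt, hcon⟩
        have h4 := hG.sub n0 le_rfl 0 J.2.val (by have := J.2.isLt; omega) _ h3
        exact h4
      · intro h3
        have h4 := h3 ((⟨a, ha⟩, ⟨n0, by omega⟩) : Arc B n0)
        rw [next_arc] at h4
        exact h1 h4
  refine (pr_mono19 hw' hsub).trans ((pr_union19 _ _ hw').trans ?_)
  -- the grid
  let g : W.ι → W.ι := fun K => ((⟨x * (K.1.val / x), lt_of_le_of_lt (Nat.mul_div_le _ _) K.1.isLt⟩,
    ⟨n0, by omega⟩) : Arc B n0)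
  let Γ : Finset W.ι := Finset.univ.filter fun J : Arc B n0 => J.2.val = n0 ∧ x ∣ J.1.val
  have hloss2 := wloss W (uw B L) hw tot_uw_le19 (arcG h G) (fun K => K.2.val ≤ nA) κ ε t hε g
    (by
      rintro ⟨⟨a, ha⟩, ⟨n, hn⟩⟩ hK
      have hK' : n ≤ nA := hK
      refine ⟨a % x, ?_, ?_⟩
      · show a % x + n ≤ n0
        have := Nat.mod_lt a (show 0 < x by omega)
        omega
      · show a = (x * (a / x) + a % x) % B
        rw [Nat.div_add_mod, Nat.mod_eq_of_lt ha]) Γ
    (by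
      intro K _
      refine Finset.mem_filter.2 ⟨Finset.mem_univ _, rfl, ?_⟩
      exact ⟨_, rfl⟩)
  have hterm : ∀ K ∈ Γ, pr (uw B L) (arcG h G K ∩
      {ω | κ - t < Real.log (wdens W (uw B L) (arcG h G K) K ω)}) ≤ (Kp + 1) / (κ - t) := by
    intro K hK
    refine (wmarkov W (uw B L) hw' tot_uw_le19 (arcG h G K) K (κ - t) (by linarith)).trans ?_
    refine div_le_div_of_nonneg_right ?_ (by linarith)
    have hK2 : K.2.val = n0 := (Finset.mem_filter.1 hK).2.1
    have e1 : K0 (ind (arcG h G K) (uw B L)) (W.m K) =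
        K0 (ind (G K.2.val) (uw B L)) (fun ω => wm (ext ω) L 1 K.2.val) := by
      have := K0_rot19 (L := L) K.1.val (ind (G K.2.val) (uw B L))
        (fun ω => wm (ext ω) L 1 K.2.val)
      rw [← ind_rot19] at this
      exact this
    have e2 : ∀ n : ℕ, n = n0 → K0 (ind (G n) (uw B L)) (fun ω => wm (ext ω) L 1 n) ≤ Kp := by
      rintro n rfl
      exact hent
    rw [e1]
    have := e2 _ hK2
    linarith
  have hcard : (Γ.card : ℝ) ≤ (B : ℝ) / x + 1 := card_grid19 x
  have hKp0 : 0 ≤ (Kp + 1) / (κ - t) := by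
    have h1 : 0 ≤ K0 (ind (G n0) (uw B L)) (fun ω => wm (ext ω) L 1 n0) :=
      KK_nonneg _ (ind_nonneg19 _ hw') _ _
    exact div_nonneg (by linarith) (by linarith)
  have hsum := Finset.sum_le_sum hterm
  rw [Finset.sum_const, nsmul_eq_mul] at hsum
  have h5 : (Γ.card : ℝ) * ((Kp + 1) / (κ - t)) ≤ ((B : ℝ) / x + 1) * ((Kp + 1) / (κ - t)) :=
    mul_le_mul_of_nonneg_right hcard hKp0
  rw [card_arc19 h] at hloss2
  have h6 : pr (uw B L) D ≤ ((B : ℝ) * ((n0 : ℝ) + 1)) ^ 2 * (ε + Real.exp (-t)) +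
      ((B : ℝ) / x + 1) * ((Kp + 1) / (κ - t)) := by
    refine hloss2.trans ?_
    have := hsum.trans h5
    linarith
  linarith

/-! ### the weight for the comparison with an outer window -/

/-- **SC** : for an event `S` of the history of the standard window of size `n` inside the next
family, and an outer window `[1, 1 + nK)` in which the window sits at `[1 + d, 1 + d + n)`, there is a
weight `u` on words with the same law of the history and with small entropy of the outer window -/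
theorem sc_weight (h : n0 + 2 ≤ B) (nA n d nK : ℕ) (hd : d + n ≤ nK)
    (hnK : nK ≤ nA) (hnA : nA ≤ n0) (κ ε : ℝ) (hε : 0 < ε) (S : Set (Wd B L))
    (hS : S ⊆ nextG h G nA κ ε n) (hSl : LevW 1 n S) :
    ∃ u : Wd B L → ℝ, (∀ ω, 0 ≤ u ω) ∧ tot u = pr (uw B L) S ∧
      (∀ ω, u ω ≤ ind (G nK) (uw B L) ω / ε) ∧
      (∀ F : Wd B L → ℝ, MeasW 1 n F →
        ∑ ω, u ω * F (rot B L d ω) = ∑ ω, ind S (uw B L) ω * F ω) ∧
      K0 u (fun ω => wm (ext ω) L 1 nK) ≤
        pr (uw B L) S * (κ + Real.log (1 / ε) + Real.log (1 / pr (uw B L) S)) := by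
  classical
  have hB : 0 < B := by omega
  have hw : ∀ ω : Wd B L, 0 < uw B L ω := uw_pos19
  have hw' : ∀ ω : Wd B L, 0 ≤ uw B L ω := fun ω => (hw ω).le
  set W := arcWin B L n0 h with hW
  let J : W.ι := std h ⟨n, by omega⟩
  let K : W.ι := ((⟨(B - d) % B, Nat.mod_lt _ hB⟩, ⟨nK, by omega⟩) : Arc B n0)
  have hJK : W.le J K := by
    refine ⟨d, hd, ?_⟩
    show 0 = ((B - d) % B + d) % B
    rw [Nat.mod_add_mod, Nat.sub_add_cancel (by omega), Nat.mod_self]
  have hK : (fun K : W.ι => K.2.val ≤ nA) K := hnK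
  have hSJ : S ⊆ WNext W (uw B L) (arcG h G) (fun K => K.2.val ≤ nA) κ ε J := by
    intro ω hω
    obtain ⟨_, h2⟩ := hS hω
    exact h2
  have hSs : WSat W J S := fun ω ω' hs => hSl ω ω' hs
  have hrot : ∀ ω : Wd B L, rot B L K.1.val (rot B L d ω) = ω := by
    intro ω
    show rot B L ((B - d) % B) (rot B L d ω) = ω
    rw [← rot_mod, ← rot_add, Nat.sub_add_cancel (by omega), rot_B]
  refine ⟨fun ω => wtilt W (uw B L) (arcG h G) κ J K S (rot B L d ω), ?_, ?_, ?_, ?_, ?_⟩
  · intro ω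
    exact tilt_nonneg W (uw B L) hw' _ _ _ _ _ _
  · show tot (fun ω => wtilt W (uw B L) (arcG h G) κ J K S (rot B L d ω)) = _
    rw [← tilt_tot W (uw B L) hw hε hJK hK hSJ hSs]
    exact sum_rot d (wtilt W (uw B L) (arcG h G) κ J K S)
  · intro ω
    refine (tilt_le W (uw B L) hw' hε hJK hK hSJ (rot B L d ω)).trans (le_of_eq ?_)
    congr 1
    have e : ind (arcG h G K) (uw B L) (rot B L d ω) = ind (G nK) (uw B L) ω := by
      have h1 : (rot B L d ω ∈ arcG h G K) ↔ ω ∈ G nK := by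
        show rot B L K.1.val (rot B L d ω) ∈ G nK ↔ _
        rw [hrot]
      unfold ind
      simp only [Set.indicator_apply, h1, uw_rot]
    exact e
  · intro F hF
    rw [← tilt_sum W (uw B L) hw hε hJK hK hSJ hSs F (fun ω ω' hs => hF ω ω' hs)]
    exact sum_rot d (fun ω => wtilt W (uw B L) (arcG h G) κ J K S ω * F ω)
  · refine le_trans (le_of_eq ?_) (tilt_K0 W (uw B L) hw hε hJK hK hSJ hSs)
    have e : (fun ω : Wd B L => wm (ext ω) L 1 nK) = fun ω => W.m K (rot B L d ω) := by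
      funext ω
      show _ = wm (ext (rot B L K.1.val (rot B L d ω))) L 1 nK
      rw [hrot]
    have e2 := K0_rot19 d (wtilt W (uw B L) (arcG h G) κ J K S) (W.m K)
    rw [← e] at e2
    exact e2

/-- law of measurable functions with additional coins -/
theorem mass_of_sum19 {n d : ℕ} {S : Set (Wd B L)} {u : Wd B L → ℝ}
    (hu : ∀ F : Wd B L → ℝ, MeasW 1 n F →
        ∑ ω, u ω * F (rot B L d ω) = ∑ ω, ind S (uw B L) ω * F ω)
    {C D : Type*} [Fintype C] (q : Wd B L → C → ℝ) (hq : MeasW 1 n q) (X : Wd B L → C → D)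
    (hX : MeasW 1 n X) (y : D) :
    mass (fun p : Wd B L × C => u p.1 * q (rot B L d p.1) p.2)
        (fun p => X (rot B L d p.1) p.2) y =
      mass (fun p : Wd B L × C => ind S (uw B L) p.1 * q p.1 p.2) (fun p => X p.1 p.2) y := by
  classical
  unfold mass
  rw [Fintype.sum_prod_type, Fintype.sum_prod_type]
  have h1 := hu (fun ω => ∑ c, if X ω c = y then q ω c else 0) (by
    intro ω ω' hs
    simp only
    rw [hX ω ω' hs, hq ω ω' hs])
  have e1 : (∑ ω, ∑ c, if X (rot B L d ω) c = y then u ω * q (rot B L d ω) c else 0) =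
      ∑ ω, u ω * ∑ c, (if X (rot B L d ω) c = y then q (rot B L d ω) c else 0) := by
    refine Finset.sum_congr rfl fun ω _ => ?_
    rw [Finset.mul_sum]
    refine Finset.sum_congr rfl fun c _ => ?_
    split <;> simp
  have e2 : (∑ ω, ∑ c, if X ω c = y then ind S (uw B L) ω * q ω c else 0) =
      ∑ ω, ind S (uw B L) ω * ∑ c, (if X ω c = y then q ω c else 0) := by
    refine Finset.sum_congr rfl fun ω _ => ?_
    rw [Finset.mul_sum]
    refine Finset.sum_congr rfl fun c _ => ?_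
    split <;> simp
  simp only
  rw [e1, e2]
  exact h1

end Pool.Agent.CutSeq.NJ
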