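import Pool.Agent.NJ.Walk31
import Pool.Agent.NJ.K4W84
import Pool.Agent.NJ.WtArc19
import Pool.Agent.NJ.Sum61
import Pool.Agent.NJ.SibA89

/-!
S19271 / NJ, row CHAIN (helper81): the chain of the windows `[1, 1 + n)` with `i` row siblings under the
weights of a family of events, in the form of the hypotheses of `sum61`.
-/

set_option autoImplicit false

namespace Pool.Agent.CutSeq.NJ

open Finset Pool.Agent.CutSeq Pool.Agent.NJ

variable {B L n0 : ℕ}

/-- the weight moved by the rotation `d` -/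
def mv81 (d : ℕ) (w : Wd B L → ℝ) : Wd B L → ℝ := fun ω => w (rot B L d ω)

theorem mass_pull81 {Ω C : Type*} [Fintype Ω] (σ : Ω ≃ Ω) (w : Ω → ℝ) (X : Ω → C) (c : C) :
    mass (fun ω => w (σ ω)) (fun ω => X (σ ω)) c = mass w X c := by
  unfold mass
  exact Equiv.sum_comp σ (fun ω => @ite _ (X ω = c) (Classical.propDecidable _) (w ω) 0)

/-- pulling back along a bijection of the worlds -/
theorem KK_pull81 {Ω A C : Type*} [Fintype Ω] [Fintype A] (σ : Ω ≃ Ω) (w : Ω → ℝ) (X : Ω → A)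
    (Y : Ω → C) :
    KK (fun ω => w (σ ω)) (fun ω => X (σ ω)) (fun ω => Y (σ ω)) = KK w X Y :=
  KK_law _ _ _ _ _ _ fun a b => mass_pull81 σ w (fun ω => (X ω, Y ω)) (a, b)

theorem K0_pull81 {Ω A : Type*} [Fintype Ω] [Fintype A] (σ : Ω ≃ Ω) (w : Ω → ℝ) (X : Ω → A) :
    K0 (fun ω => w (σ ω)) (fun ω => X (σ ω)) = K0 w X := KK_pull81 σ w X (fun _ => ())

theorem tot_mv81 (d : ℕ) (w : Wd B L → ℝ) : tot (mv81 d w) = tot w := by
  unfold tot mv81
  exact sum_rot d w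

theorem mv81_nonneg (d : ℕ) (w : Wd B L → ℝ) (hw : ∀ ω, 0 ≤ w ω) (ω : Wd B L) : 0 ≤ mv81 d w ω :=
  hw _

/-- windows of the rotated word -/
theorem Dw_mv81 (w : Wd B L → ℝ) (d n i : ℕ) (h : 1 + d + n ≤ B) :
    Dw (mv81 d w) (1 + d) n i = Dw w 1 n i := by
  unfold Dw
  have h1 := K0_pull81 ((rot B L d).prodCongr (Equiv.refl (Fin i → V n)))
    (sib w (fun ω => TR (ext ω) L 1 n) i) (fun p => (wm (ext p.1) L 1 n, p.2))
  refine Eq.trans ?_ h1
  congr 1
  · funext p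
    show mv81 d w p.1 * _ = w (rot B L d p.1) * _
    simp only [Equiv.prodCongr_apply, Prod.map_fst, Prod.map_snd, Equiv.refl_apply]
    rw [TR_rot d 1 n h]
    rfl
  · funext p
    show (wm (ext p.1) L (1 + d) n, p.2) = (wm (ext (rot B L d p.1)) L 1 n, p.2)
    rw [wm_rot d 1 n h]

theorem UU_mv81 (w : Wd B L → ℝ) (d n i j : ℕ) (h : 1 + d + n ≤ B) :
    UU (mv81 d w) (fun ω => TR (ext ω) L (1 + d) n) (fun ω => TC (ext ω) L (1 + d) n)
        (fun ω => wm (ext ω) L (1 + d) n) i j =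
      UU w (fun ω => TR (ext ω) L 1 n) (fun ω => TC (ext ω) L 1 n)
        (fun ω => wm (ext ω) L 1 n) i j := by
  unfold UU
  have h1 := K0_pull81 ((rot B L d).prodCongr (Equiv.refl ((Fin i → V n) × (Fin j → V n))))
    (sib2 w (fun ω => TR (ext ω) L 1 n) (fun ω => TC (ext ω) L 1 n) i j)
    (fun p => (wm (ext p.1) L 1 n, p.2.1, p.2.2))
  refine Eq.trans ?_ h1
  congr 1
  · funext p
    show mv81 d w p.1 * _ * _ = w (rot B L d p.1) * _ * _
    simp only [Equiv.prodCongr_apply, Prod.map_fst, Prod.map_snd, Equiv.refl_apply]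
    rw [TR_rot d 1 n h, TC_rot d 1 n le_rfl h]
    rfl
  · funext p
    show (wm (ext p.1) L (1 + d) n, p.2) = (wm (ext (rot B L d p.1)) L 1 n, p.2)
    rw [wm_rot d 1 n h]

/-- the broom with coins at the standard window -/
noncomputable def EB81 (w : Wd B L → ℝ) (n i j : ℕ) : ℝ :=
  K0 (cw w L L (Fin i) (Fin j)) (fun p => obs (rg B L 1 n) p.1 p.2.1 p.2.2)

theorem EB_mv81 (w : Wd B L → ℝ) (d n i j : ℕ) (hn : 1 ≤ n) (h : 1 + d + n ≤ B) :
    K0 (cw (mv81 d w) L L (Fin i) (Fin j)) (fun p => obs (rg B L (1 + d) n) p.1 p.2.1 p.2.2) =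
      EB81 w n i j := by
  unfold EB81
  have h1 := K0_pull81 ((rot B L d).prodCongr (Equiv.refl ((Fin i → V L) × (Fin j → V L))))
    (cw w L L (Fin i) (Fin j)) (fun p => obs (rg B L 1 n) p.1 p.2.1 p.2.2)
  refine Eq.trans ?_ h1
  congr 1
  funext p
  show obs (rg B L (1 + d) n) p.1 p.2.1 p.2.2 = obs (rg B L 1 n) (rot B L d p.1) p.2.1 p.2.2
  rw [obs_rot d 1 n le_rfl hn h]

theorem tot_ind_pull81 (d : ℕ) (G : Set (Wd B L)) :
    mv81 d (ind G (uw B L)) = ind {ω | rot B L d ω ∈ G} (uw B L) := by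
  classical
  funext ω
  unfold mv81 ind
  by_cases h : rot B L d ω ∈ G
  · rw [Set.indicator_of_mem h, Set.indicator_of_mem (s := {ω | rot B L d ω ∈ G}) h]
    rfl
  · rw [Set.indicator_of_notMem h, Set.indicator_of_notMem (s := {ω | rot B L d ω ∈ G}) h]

theorem flipInv81 (G : Set (Wd B L)) (n : ℕ) (hn : n + 2 ≤ B) (hG : LevW 1 n G) :
    FlipInv 2 (mv81 1 (ind G (uw B L))) := by
  have h1 : MeasW 2 n (mv81 1 (ind G (uw B L))) := by
    intro ω ω' hs
    have h2 := (sameW_rot 1 1 n le_rfl (by omega) ω ω').2 hs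
    have h3 := hG _ _ h2
    unfold mv81 ind
    by_cases h : rot B L 1 ω ∈ G
    · rw [Set.indicator_of_mem h, Set.indicator_of_mem (h3.1 h)]
      rfl
    · rw [Set.indicator_of_notMem h, Set.indicator_of_notMem (fun h' => h (h3.2 h'))]
  exact h1.flipInv (Or.inl le_rfl)

/-- smaller weights in the window entropies -/
theorem Dw_sub81 (w w' : Wd B L → ℝ) (hw' : ∀ ω, 0 ≤ w' ω) (hle : ∀ ω, w' ω ≤ w ω) (a n i : ℕ) :
    Dw w' a n i ≤ Dw w a n i + HH (tot w') (tot w - tot w') := by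
  have h1 := K0_sub_le (sib w (fun ω => TR (ext ω) L a n) i) (sib w' (fun ω => TR (ext ω) L a n) i)
    (sib_nonneg_sib w' hw' _ i) (fun p => by
      unfold sib
      refine mul_le_mul_of_nonneg_right (hle _) (Finset.prod_nonneg fun l _ => uT_nonneg_sib _ _))
    (fun p => (wm (ext p.1) L a n, p.2))
  rw [tot_sib, tot_sib] at h1
  exact h1

theorem fw_mv81 (w : Wd B L → ℝ) (d n i : ℕ) (h : 1 + d + n ≤ B) :
    fw (mv81 d w) (1 + d) n i = fw w 1 n i := by
  unfold fw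
  have h1 := KK_pull81 ((rot B L d).prodCongr (Equiv.refl ((Fin i → V n) × (Fin 1 → V n))))
    (sib2 w (fun ω => TR (ext ω) L 1 n) (fun ω => TC (ext ω) L 1 n) i 1) (fun p => p.2.2 0)
    (fun p => (wm (ext p.1) L 1 n, p.2.1))
  refine Eq.trans ?_ h1
  congr 1
  · funext p
    show mv81 d w p.1 * _ * _ = w (rot B L d p.1) * _ * _
    simp only [Equiv.prodCongr_apply, Prod.map_fst, Prod.map_snd, Equiv.refl_apply]
    rw [TR_rot d 1 n h, TC_rot d 1 n le_rfl h]
    rfl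
  · funext p
    show (wm (ext p.1) L (1 + d) n, p.2.1) = (wm (ext (rot B L d p.1)) L 1 n, p.2.1)
    rw [wm_rot d 1 n h]

/-- one step of the chain, without the bound of the corner bits -/
theorem chain81_aux (G : ℕ → Set (Wd B L)) (n i : ℕ) (hB : n + 2 ≤ B) (hlev : LevW 1 n (G n))
    (hsub : ∀ ω ∈ G (n + 1), rot B L 1 ω ∈ G n) :
    Dw (ind (G (n + 1)) (uw B L)) 1 (n + 1) i ≤
      Dw (ind (G n) (uw B L)) 1 n i + fw (ind (G n) (uw B L)) 1 n i +
        bott (ind {ω | rot B L 1 ω ∈ G n} (uw B L)) 1 n i +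
        HH (pr (uw B L) (G (n + 1))) (pr (uw B L) (G n) - pr (uw B L) (G (n + 1))) := by
  have hu : ∀ ω : Wd B L, 0 ≤ uw B L ω := fun ω => by
    unfold uw
    positivity
  have hi : ∀ (S : Set (Wd B L)) ω, 0 ≤ ind S (uw B L) ω := fun S ω =>
    Set.indicator_nonneg (fun ω _ => hu ω) ω
  have h1 := Dw_sub81 (ind {ω | rot B L 1 ω ∈ G n} (uw B L)) (ind (G (n + 1)) (uw B L))
    (hi _) (fun ω => Set.indicator_le_indicator_of_subset (fun ω hω => hsub ω hω) hu ω) 1 (n + 1) i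
  have hT : tot (ind {ω | rot B L 1 ω ∈ G n} (uw B L)) = pr (uw B L) (G n) := by
    rw [← tot_ind_pull81, tot_mv81]
    rfl
  rw [hT] at h1
  have h2 := chain_step (ind {ω | rot B L 1 ω ∈ G n} (uw B L)) (hi _) 1 n i (by
    rw [← tot_ind_pull81]
    exact flipInv81 (G n) n hB hlev)
  have h3 := Dw_mv81 (ind (G n) (uw B L)) 1 n i (by omega)
  have h4 := fw_mv81 (ind (G n) (uw B L)) 1 n i (by omega)
  rw [tot_ind_pull81] at h3 h4
  rw [h2] at h1
  rw [show (1 + 1 : ℕ) = 1 + 1 from rfl] at h1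
  rw [h3, h4] at h1
  exact h1

/-! #### rows and one column -/

theorem UU_zero81 {Ω A : Type*} [Fintype Ω] [Fintype A] {n : ℕ} (w : Ω → ℝ) (hw : ∀ ω, 0 ≤ w ω)
    (T T' : Ω → Submodule (ZMod 2) (V n)) (m : Ω → A) (i : ℕ) :
    UU w T T' m i 0 = K0 (sib w T i) (fun p => (m p.1, p.2)) := by
  have h1 := (push_zero w T T' i).K0 (fun p => (m p.1, p.2))
  rw [← h1]
  unfold UU
  exact K0_bij _ (sib2_nonneg w hw T T' i 0) (fun p => (m p.1, p.2.1)) _
    { toFun := fun q => (q.1, q.2, fun a => a.elim0)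
      invFun := fun q => (q.1, q.2.1)
      left_inv := fun _ => rfl
      right_inv := fun q => Prod.ext rfl (Prod.ext rfl (funext fun a => a.elim0)) }
    (fun p _ => Prod.ext rfl (Prod.ext rfl (funext fun a => a.elim0)))

theorem UU_one81 {Ω A : Type*} [Fintype Ω] [Fintype A] {n : ℕ} (w : Ω → ℝ) (hw : ∀ ω, 0 ≤ w ω)
    (T T' : Ω → Submodule (ZMod 2) (V n)) (m : Ω → A) (i : ℕ) :
    UU w T T' m i 1 = UU w T T' m i 0 +
      KK (sib2 w T T' i 1) (fun p => p.2.2 0) (fun p => (m p.1, p.2.1)) := by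
  have hW := sib2_nonneg w hw T T' i 1
  have h1 := KK_chain _ hW (fun p => (m p.1, p.2.1)) (fun p => p.2.2 0) (fun _ => ())
  have h2 : UU w T T' m i 1 = K0 (sib2 w T T' i 1) (fun p => ((m p.1, p.2.1), p.2.2 0)) := by
    unfold UU
    exact K0_bij _ hW (fun p => ((m p.1, p.2.1), p.2.2 0)) _
      { toFun := fun q => (q.1.1, q.1.2, fun _ => q.2)
        invFun := fun q => ((q.1, q.2.1), q.2.2 0)
        left_inv := fun _ => rfl
        right_inv := fun q => Prod.ext rfl (Prod.ext rfl (funext fun a => by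
          rw [Subsingleton.elim a 0])) }
      (fun p _ => Prod.ext rfl (Prod.ext rfl (funext fun a => by
        show p.2.2 a = p.2.2 0
        rw [Subsingleton.elim a 0])))
  have h3 : K0 (sib2 w T T' i 1) (fun p => (m p.1, p.2.1)) =
      K0 (sib2 w T T' i 0) (fun p => (m p.1, p.2.1)) :=
    (push_sib2 w T T' (id : Fin i → Fin i) Function.injective_id
      (Fin.elim0 : Fin 0 → Fin 1) (fun a => a.elim0)).K0 (fun p => (m p.1, p.2.1))
  have h5 : K0 (sib2 w T T' i 0) (fun p => (m p.1, p.2.1)) = K0 (sib w T i) (fun p => (m p.1, p.2)) :=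
    (push_zero w T T' i).K0 (fun p => (m p.1, p.2))
  have h6 : K0 (sib2 w T T' i 1) (fun p => ((m p.1, p.2.1), p.2.2 0)) =
      K0 (sib2 w T T' i 1) (fun p => (m p.1, p.2.1)) +
      KK (sib2 w T T' i 1) (fun p => p.2.2 0) (fun p => ((m p.1, p.2.1), ())) := h1
  have h4 : KK (sib2 w T T' i 1) (fun p => p.2.2 0) (fun p => ((m p.1, p.2.1), ())) =
      KK (sib2 w T T' i 1) (fun p => p.2.2 0) (fun p => (m p.1, p.2.1)) := by
    refine le_antisymm (KK_finer _ hW _ _ _ ?_) (KK_finer _ hW _ _ _ ?_)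
    · intro p p' _ _ h
      rw [Prod.mk.injEq]
      exact ⟨h, rfl⟩
    · intro p p' _ _ h
      exact (Prod.mk.inj h).1
  rw [h2, UU_zero81 w hw, ← h5, ← h4, h6, h3]

/-- array, rows -/
theorem Dw_eq_UU81 (w : Wd B L → ℝ) (hw : ∀ ω, 0 ≤ w ω) (a n i : ℕ) :
    Dw w a n i = UU w (fun ω => TR (ext ω) L a n) (fun ω => TC (ext ω) L a n)
      (fun ω => wm (ext ω) L a n) i 0 := by
  unfold Dw
  rw [UU_zero81 w hw]

/-- the column sibling -/
theorem fw_eq_UU81 (w : Wd B L → ℝ) (hw : ∀ ω, 0 ≤ w ω) (a n i : ℕ) :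
    fw w a n i = UU w (fun ω => TR (ext ω) L a n) (fun ω => TC (ext ω) L a n)
      (fun ω => wm (ext ω) L a n) i 1 - UU w (fun ω => TR (ext ω) L a n)
        (fun ω => TC (ext ω) L a n) (fun ω => wm (ext ω) L a n) i 0 := by
  rw [UU_one81 w hw]
  unfold fw
  ring

theorem ind_nonneg81 (S : Set (Wd B L)) (ω : Wd B L) : 0 ≤ ind S (uw B L) ω :=
  Set.indicator_nonneg (fun ω _ => by
    unfold uw
    positivity) ω

/-- (C) one step of the chain -/
theorem chain81 (h : n0 + 2 ≤ B) {G : ℕ → Set (Wd B L)} (hG : Fam19 B L n0 G) (n i : ℕ)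
    (hn : n < n0) (b : ℝ)
    (hb : 1 ≤ n → bott (ind {ω | rot B L 1 ω ∈ G n} (uw B L)) 1 n i ≤ i * b)
    (hb0 : Real.log 2 * (1 - 1 / (B : ℝ)) ^ L ≤ b) :
    Dw (ind (G (n + 1)) (uw B L)) 1 (n + 1) i ≤
      Dw (ind (G n) (uw B L)) 1 n i + fw (ind (G n) (uw B L)) 1 n i + i * b +
        HH (pr (uw B L) (G (n + 1))) (pr (uw B L) (G n) - pr (uw B L) (G (n + 1))) := by
  have hsub : ∀ ω ∈ G (n + 1), rot B L 1 ω ∈ G n := hG.sub (n + 1) (by omega) 1 n (by omega)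
  rcases Nat.eq_zero_or_pos n with h0 | h0
  · subst h0
    have h1 := Dw_one (B := B) (L := L) (G (0 + 1)) 1 i (by omega)
    have h2 : 0 ≤ Dw (ind (G 0) (uw B L)) 1 0 i :=
      KK_nonneg _ (sib_nonneg_sib _ (ind_nonneg81 _) _ i) _ _
    have h3 : 0 ≤ fw (ind (G 0) (uw B L)) 1 0 i :=
      KK_nonneg _ (sib2_nonneg _ (ind_nonneg81 _) _ _ i 1) _ _
    have h4 : pr (uw B L) (G (0 + 1)) ≤ pr (uw B L) (G 0) := by
      have h5 : pr (uw B L) (G (0 + 1)) ≤ pr (uw B L) {ω | rot B L 1 ω ∈ G 0} :=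
        Finset.sum_le_sum fun ω _ => Set.indicator_le_indicator_of_subset (fun ω hω => hsub ω hω)
          (fun ω => by
            unfold uw
            positivity) ω
      have h6 : pr (uw B L) {ω | rot B L 1 ω ∈ G 0} = pr (uw B L) (G 0) := by
        unfold pr
        rw [← tot_ind_pull81, tot_mv81]
      linarith
    have h7 : 0 ≤ HH (pr (uw B L) (G (0 + 1))) (pr (uw B L) (G 0) - pr (uw B L) (G (0 + 1))) :=
      HH_nonneg _ _ (Finset.sum_nonneg fun ω _ => ind_nonneg81 _ ω) (by linarith)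
    have h8 : (i : ℝ) * Real.log 2 * (1 - 1 / (B : ℝ)) ^ L ≤ i * b := by
      rw [mul_assoc]
      exact mul_le_mul_of_nonneg_left hb0 (Nat.cast_nonneg i)
    linarith
  · have h1 := chain81_aux G n i (by omega) (hG.lev n (by omega)) hsub
    have h2 := hb h0
    linarith

end Pool.Agent.CutSeq.NJ
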