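import Pool.Agent.NJ.B.Upm58

/-!
S19271, target B: the window inequality from (DISP) and (UP) (helper16).
-/

set_option autoImplicit false

namespace Pool.Agent.CutSeq.NJ

open Finset

/-- (DISP), model form: lower bound for the drop of the profile in one window -/
def DispM16 : Prop := ∃ c₈ C₃ : ℝ, 0 < c₈ ∧ 0 ≤ C₃ ∧ ∀ kap eps : ℝ, 0 < kap → 0 < eps → kap ≤ 1 →
  ∃ N₀ : ℕ, ∀ N ≥ N₀, ∀ n : ℕ, N ≤ n → n + 1 ≤ 2 * N → ∀ l : ℕ, 6 * (n * (4 * N)) ≤ l →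
    c₈ * (⌈kap * (N : ℝ)⌉₊ : ℝ) * (KK (uw (4 * N) l) (fun ω => row (ext ω) l n)
        (fun ω => mm (ext ω) l n) - C₃ * (⌈kap * (N : ℝ)⌉₊ : ℝ)) - eps * (N : ℝ) ^ 2
      ≤ ∑ b ∈ range (n + 1), (KK (uw (4 * N) l) (fun ω => pfx b (row (ext ω) l n))
          (fun ω => mm (ext ω) l n)
        - KK (w2 (4 * N) l (⌈kap * (N : ℝ)⌉₊ * (4 * N))) (fun q => pfx b (Rt n q))
          (fun q => (mm (ext q.1) l n, q.2)))

/-- the window inequality -/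
def WinB16 : Prop := ∃ c₈ C₂ C₃ : ℝ, 0 < c₈ ∧ 0 ≤ C₂ ∧ 0 ≤ C₃ ∧ ∀ kap eps : ℝ, 0 < kap → 0 < eps →
  kap ≤ 1 → ∃ N₀ : ℕ, ∀ N ≥ N₀, ∀ n : ℕ, N ≤ n → n + 1 ≤ 2 * N → ∀ l : ℕ, 6 * (n * (4 * N)) ≤ l →
    c₈ * (⌈kap * (N : ℝ)⌉₊ : ℝ) * (KK (uw (4 * N) l) (fun ω => row (ext ω) l n)
        (fun ω => mm (ext ω) l n) - C₃ * (⌈kap * (N : ℝ)⌉₊ : ℝ)) - eps * (N : ℝ) ^ 2
      ≤ C₂ * Real.sqrt ((K0 (uw (4 * N) l) (fun ω => mm (ext ω) l (n + 1))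
            - K0 (uw (4 * N) (l + ⌈kap * (N : ℝ)⌉₊ * (4 * N)))
              (fun ω => mm (ext ω) (l + ⌈kap * (N : ℝ)⌉₊ * (4 * N)) (n + 1)))
          * (⌈kap * (N : ℝ)⌉₊ : ℝ)
          * KK (uw (4 * N) l) (fun ω => row (ext ω) l n) (fun ω => mm (ext ω) l n))
        + (⌈kap * (N : ℝ)⌉₊ : ℝ) / 2 * (KK (uw (4 * N) l) (fun ω => row (ext ω) l n)
            (fun ω => mm (ext ω) l n)
          - KK (uw (4 * N) (l + ⌈kap * (N : ℝ)⌉₊ * (4 * N)))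
            (fun ω => row (ext ω) (l + ⌈kap * (N : ℝ)⌉₊ * (4 * N)) n)
            (fun ω => mm (ext ω) (l + ⌈kap * (N : ℝ)⌉₊ * (4 * N)) n))

/-- (UP) for a window of `s` units of time -/
theorem up_units16 (N l n s : ℕ) (hN : 0 < N) (hn : n ≤ 4 * N) :
    ∑ b ∈ range (n + 1), (KK (uw (4 * N) l) (fun ω => pfx b (row (ext ω) l n))
          (fun ω => mm (ext ω) l n)
        - KK (w2 (4 * N) l (s * (4 * N))) (fun q => pfx b (Rt n q))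
          (fun q => (mm (ext q.1) l n, q.2)))
      ≤ 12 * Real.sqrt ((K0 (uw (4 * N) l) (fun ω => mm (ext ω) l (n + 1))
            - K0 (uw (4 * N) (l + s * (4 * N)))
              (fun ω => mm (ext ω) (l + s * (4 * N)) (n + 1)))
          * (s : ℝ) * KK (uw (4 * N) l) (fun ω => row (ext ω) l n) (fun ω => mm (ext ω) l n))
        + (s : ℝ) / 2 * (KK (uw (4 * N) l) (fun ω => row (ext ω) l n) (fun ω => mm (ext ω) l n)
          - KK (uw (4 * N) (l + s * (4 * N))) (fun ω => row (ext ω) (l + s * (4 * N)) n)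
            (fun ω => mm (ext ω) (l + s * (4 * N)) n)) := by
  have h := Pool.Agent.NJ.B.upm58 (4 * N) l n (s * (4 * N)) (by omega) hn
  have hB : ((4 * N : ℕ) : ℝ) ≠ 0 := by
    have : (0 : ℝ) < ((4 * N : ℕ) : ℝ) := by exact_mod_cast (by omega : 0 < 4 * N)
    exact this.ne'
  have e1 : ((s * (4 * N) : ℕ) : ℝ) / ((4 * N : ℕ) : ℝ) = s := by
    rw [Nat.cast_mul, mul_div_assoc, div_self hB, mul_one]
  have e2 : ((s * (4 * N) : ℕ) : ℝ) / (2 * ((4 * N : ℕ) : ℝ)) = s / 2 := by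
    rw [mul_comm (2 : ℝ), ← div_div, e1]
  rw [e1, e2] at h
  refine h.trans (le_of_eq ?_)
  congr 3
  ring

/-- **(DISP) + (UP)** -/
theorem winB16 (hD : DispM16) : WinB16 := by
  obtain ⟨c₈, C₃, h8, h3, h⟩ := hD
  refine ⟨c₈, 12, C₃, h8, by norm_num, h3, fun kap eps hk he hk1 => ?_⟩
  obtain ⟨N₀, hN₀⟩ := h kap eps hk he hk1
  refine ⟨max N₀ 1, fun N hN n hn hn2 l hl => ?_⟩
  have hN1 : 1 ≤ N := (le_max_right _ _).trans hN
  exact (hN₀ N ((le_max_left _ _).trans hN) n hn hn2 l hl).trans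
    (up_units16 N l n ⌈kap * (N : ℝ)⌉₊ (by omega) (by omega))

end Pool.Agent.CutSeq.NJ
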