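import Pool.Agent.NJ.DispM37
import Pool.Agent.NJ.WinB16

/-!
S19271, target B: the drop (row DISPM) in the form used by the window inequality.
-/

set_option autoImplicit false

namespace Pool.Agent.CutSeq.NJ

/-- (DISP) from (HOLES) -/
theorem dispM37 (h : Holes37) : DispM16 := dispm37 h

/-- the window inequality from (HOLES) -/
theorem winB37 (h : Holes37) : WinB16 := winB16 (dispM37 h)

end Pool.Agent.CutSeq.NJ
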