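import Pool.Agent.NJ.RL13

/-!
Given the history of level `n`, the prefix of the row of level `n` is uniform on the prefix of `TT`
(NOJUMP, model part of the displacement row).
-/

set_option autoImplicit false

namespace Pool.Agent.CutSeq.NJ

open Finset Module Bwd

variable {n B L : ℕ}

/-- the prefix map as a linear map -/
def pfxL (n b : ℕ) : V n →ₗ[ZMod 2] V b where
  toFun R := pfx b R
  map_add' x y := by
    funext j
    show zx (x + y) j.val = zx x j.val + zx y j.val
    unfold zx
    split
    · rfl
    · exact (add_zero 0).symm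
  map_smul' c x := by
    funext j
    show zx (c • x) j.val = c * zx x j.val
    unfold zx
    split
    · rfl
    · exact (mul_zero c).symm

theorem pfxL_apply (b : ℕ) (R : V n) : pfxL n b R = pfx b R := rfl

/-- dimension of the prefix of a subspace -/
noncomputable def dpf (b : ℕ) (T : Submodule (ZMod 2) (V n)) : ℕ :=
  finrank (ZMod 2) (T.map (pfxL n b))

theorem card_submodule34 (T : Submodule (ZMod 2) (V n)) :
    (Nat.card T : ℝ) = 2 ^ finrank (ZMod 2) T := by
  have h := Module.natCard_eq_pow_finrank (K := ZMod 2) (V := T)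
  rw [h]
  simp

/-- the uniform law on `T`: the mass of a prefix class of an element of `T` -/
theorem sum_uT_pfx (b : ℕ) (T : Submodule (ZMod 2) (V n)) (r : V n) (hr : r ∈ T) :
    (∑ x : V n, if pfx b x = pfx b r then uT T x else 0) * 2 ^ dpf b T = 1 := by
  classical
  -- the kernel of the prefix map on `T`
  set f : T →ₗ[ZMod 2] V b := (pfxL n b).domRestrict T with hf
  have h1 := LinearMap.finrank_range_add_finrank_ker f
  have h2 : finrank (ZMod 2) (LinearMap.range f) = dpf b T := by
    unfold dpf
    rw [hf, LinearMap.range_domRestrict]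
  -- the number of elements of the class
  have h3 : (univ.filter fun x : V n => x ∈ T ∧ pfx b x = pfx b r).card =
      Fintype.card (LinearMap.ker f) := by
    rw [← Fintype.card_coe]
    refine Fintype.card_congr ?_
    refine
      { toFun := fun x => ⟨⟨x.val - r, T.sub_mem (mem_filter.1 x.2).2.1 hr⟩, ?_⟩
        invFun := fun y => ⟨y.val.val + r, mem_filter.2 ⟨mem_univ _, T.add_mem y.val.2 hr, ?_⟩⟩
        left_inv := ?_
        right_inv := ?_ }
    · rw [LinearMap.mem_ker, hf, LinearMap.domRestrict_apply]
      show pfxL n b (x.val - r) = 0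
      rw [map_sub, pfxL_apply, pfxL_apply, (mem_filter.1 x.2).2.2, sub_self]
    · have h : pfxL n b y.val.val = 0 := LinearMap.mem_ker.1 y.2
      rw [← pfxL_apply, map_add, h, zero_add, pfxL_apply]
    · intro x
      apply Subtype.ext
      show x.val - r + r = x.val
      exact sub_add_cancel _ _
    · intro y
      apply Subtype.ext
      apply Subtype.ext
      show y.val.val + r - r = y.val.val
      exact add_sub_cancel_right _ _
  have h4 : (Fintype.card (LinearMap.ker f) : ℝ) = 2 ^ finrank (ZMod 2) (LinearMap.ker f) := by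
    have h := Module.natCard_eq_pow_finrank (K := ZMod 2) (V := LinearMap.ker f)
    rw [Nat.card_eq_fintype_card] at h
    rw [h]
    simp
  have h5 : (∑ x : V n, if pfx b x = pfx b r then uT T x else 0) =
      ((univ.filter fun x : V n => x ∈ T ∧ pfx b x = pfx b r).card : ℝ) / 2 ^ finrank (ZMod 2) T := by
    rw [Finset.card_filter, Nat.cast_sum, Finset.sum_div]
    refine Finset.sum_congr rfl fun x _ => ?_
    unfold uT
    rw [card_submodule34]
    by_cases hx : x ∈ T
    · by_cases hp : pfx b x = pfx b r
      · rw [if_pos hp, if_pos hx, if_pos ⟨hx, hp⟩]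
        norm_num
      · rw [if_neg hp, if_neg (fun h => hp h.2)]
        norm_num
    · have e1 : (if x ∈ T ∧ pfx b x = pfx b r then 1 else 0 : ℕ) = 0 := if_neg (fun h => hx h.1)
      have e2 : (if x ∈ T then 1 / 2 ^ finrank (ZMod 2) T else 0 : ℝ) = 0 := if_neg hx
      rw [e1, e2]
      simp
  rw [h5, h3, h4, ← h1, h2, pow_add]
  field_simp

open Classical in
/-- (HU0) given the history of level `n`, the prefix of the row of level `n` is uniform on the prefix
of `TT`: joint mass of a history class and a prefix -/
theorem HU0 (b l : ℕ) (hl : l ≤ L) (f : Wd B L → ℝ) (hf : ∀ ω ω', Same n l ω ω' → f ω = f ω')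
    (ω₀ : Wd B L) :
    (∑ ω, if Same n l ω₀ ω ∧ pfx b (row (ext ω) l n) = pfx b (row (ext ω₀) l n) then f ω else 0)
      * 2 ^ dpf b (TT (ext ω₀) l n) = ∑ ω, if Same n l ω₀ ω then f ω else 0 := by
  set T := TT (ext ω₀) l n with hT
  set r := row (ext ω₀) l n with hr
  have hrT : r ∈ T := row_mem_TT_self _ _ _
  -- the weight of the class
  set g : Wd B L → ℝ := fun ω => if Same n l ω₀ ω then f ω else 0 with hg
  have hgS : ∀ ω ω', Same n l ω ω' → g ω = g ω' := by
    intro ω ω' h
    have h1 : Same n l ω₀ ω ↔ Same n l ω₀ ω' := ⟨fun h' => h'.trans h, fun h' => h'.trans h.symm⟩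
    show (if Same n l ω₀ ω then f ω else 0) = (if Same n l ω₀ ω' then f ω' else 0)
    by_cases h2 : Same n l ω₀ ω
    · rw [if_pos h2, if_pos (h1.1 h2), hf ω ω' h]
    · rw [if_neg h2, if_neg (fun h3 => h2 (h1.2 h3))]
  have h1 : (∑ ω, if Same n l ω₀ ω ∧ pfx b (row (ext ω) l n) = pfx b r then f ω else 0) =
      ∑ x : V n, if pfx b x = pfx b r then ∑ ω, g ω * (if row (ext ω) l n = x then 1 else 0)
        else 0 := by
    have e : ∀ x : V n, (if pfx b x = pfx b r then
        ∑ ω, g ω * (if row (ext ω) l n = x then (1 : ℝ) else 0) else 0) =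
        ∑ ω, if pfx b x = pfx b r then g ω * (if row (ext ω) l n = x then (1 : ℝ) else 0) else 0 := by
      intro x
      by_cases hx : pfx b x = pfx b r
      · simp only [if_pos hx]
      · simp only [if_neg hx, Finset.sum_const_zero]
    simp only [e]
    rw [Finset.sum_comm]
    refine Finset.sum_congr rfl fun ω _ => ?_
    rw [Finset.sum_eq_single (row (ext ω) l n)]
    · by_cases h2 : pfx b (row (ext ω) l n) = pfx b r
      · rw [if_pos h2, if_pos rfl, mul_one]
        by_cases h3 : Same n l ω₀ ω
        · rw [if_pos ⟨h3, h2⟩]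
          exact (if_pos h3).symm
        · rw [if_neg (fun h => h3 h.1)]
          exact (if_neg h3).symm
      · rw [if_neg h2, if_neg (fun h => h2 h.2)]
    · intro x _ hx
      have e1 : g ω * (if row (ext ω) l n = x then (1 : ℝ) else 0) = 0 := by
        rw [if_neg (fun h => hx h.symm), mul_zero]
      rw [e1]
      simp
    · intro h
      exact absurd (mem_univ _) h
  have h2 : ∀ x : V n, ∑ ω, g ω * (if row (ext ω) l n = x then (1 : ℝ) else 0) =
      (∑ ω, g ω) * uT T x := by
    intro x
    rw [row_uniform n l hl g hgS x, Finset.sum_mul]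
    refine Finset.sum_congr rfl fun ω _ => ?_
    by_cases h3 : Same n l ω₀ ω
    · rw [← h3.TT_eq]
    · have : g ω = 0 := if_neg h3
      rw [this, zero_mul, zero_mul]
  rw [h1]
  have h3 : (∑ x : V n, if pfx b x = pfx b r then
      ∑ ω, g ω * (if row (ext ω) l n = x then (1 : ℝ) else 0) else 0) =
      (∑ ω, g ω) * ∑ x : V n, if pfx b x = pfx b r then uT T x else 0 := by
    rw [Finset.mul_sum]
    refine Finset.sum_congr rfl fun x _ => ?_
    by_cases hx : pfx b x = pfx b r
    · rw [if_pos hx, if_pos hx, h2]
    · rw [if_neg hx, if_neg hx, mul_zero]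
  rw [h3, mul_assoc, sum_uT_pfx b T r hrT, mul_one]

end Pool.Agent.CutSeq.NJ
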