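import Pool.Agent.CutSeq.Mod

/-!
S19271 / NJ, HOLES, deterministic part (helper92's page, (S), (S0), (M1), (M2)).

`rho α l a n` is the rank of the row space `TT α l n` on the columns `< a`.
-/

set_option autoImplicit false

namespace Pool.Agent.NJ

open Finset Pool.Agent.CutSeq

/-- the first `a` coordinates (zero beyond `n`) -/
def pfL (n a : ℕ) : V n →ₗ[ZMod 2] V a where
  toFun x := fun j => if h : j.val < n then x ⟨j.val, h⟩ else 0
  map_add' x y := by
    funext j
    simp only [Pi.add_apply]
    split_ifs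
    · rfl
    · rw [add_zero]
  map_smul' c x := by
    funext j
    simp only [Pi.smul_apply, RingHom.id_apply, smul_eq_mul]
    split_ifs
    · rfl
    · rw [mul_zero]

theorem pfL_apply (n a : ℕ) (x : V n) (j : Fin a) (h : j.val < n) : pfL n a x j = x ⟨j.val, h⟩ := by
  show (if h : j.val < n then x ⟨j.val, h⟩ else 0) = _
  rw [dif_pos h]

theorem pfL_pfL (n a' a : ℕ) (h : a ≤ a') (x : V n) : pfL a' a (pfL n a' x) = pfL n a x := by
  funext j
  rw [pfL_apply a' a _ j (lt_of_lt_of_le j.isLt h)]
  rfl

/-- rank of the row space on the columns `< a` -/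
noncomputable def rho (α : Seq) (l a n : ℕ) : ℕ :=
  Module.finrank (ZMod 2) (Submodule.map (pfL n a) (TT α l n))

/-- submodularity -/
theorem fr_sub {E : Type*} [AddCommGroup E] [Module (ZMod 2) E] [Module.Finite (ZMod 2) E]
    (X X' Q Q' : Submodule (ZMod 2) E) (h1 : X ≤ X') (h2 : X ⊓ Q' ≤ Q) (h4 : Q' ≤ X') :
    Module.finrank (ZMod 2) X + Module.finrank (ZMod 2) Q'
      ≤ Module.finrank (ZMod 2) X' + Module.finrank (ZMod 2) Q := by
  have e1 := Submodule.finrank_sup_add_finrank_inf_eq X Q'
  have e2 : Module.finrank (ZMod 2) ↥(X ⊔ Q') ≤ Module.finrank (ZMod 2) X' :=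
    Submodule.finrank_mono (sup_le h1 h4)
  have e3 : Module.finrank (ZMod 2) ↥(X ⊓ Q') ≤ Module.finrank (ZMod 2) Q :=
    Submodule.finrank_mono h2
  omega

theorem fr_map {E F : Type*} [AddCommGroup E] [Module (ZMod 2) E] [Module.Finite (ZMod 2) E]
    [AddCommGroup F] [Module (ZMod 2) F] (f : E →ₗ[ZMod 2] F) (T : Submodule (ZMod 2) E) :
    Module.finrank (ZMod 2) (Submodule.map f T)
      + Module.finrank (ZMod 2) ↥(T ⊓ LinearMap.ker f) = Module.finrank (ZMod 2) T := by
  have h := LinearMap.finrank_range_add_finrank_ker (f.domRestrict T)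
  have h1 : LinearMap.range (f.domRestrict T) = Submodule.map f T := by
    ext y
    simp only [LinearMap.mem_range, Submodule.mem_map, LinearMap.domRestrict_apply]
    constructor
    · rintro ⟨x, rfl⟩
      exact ⟨x.1, x.2, rfl⟩
    · rintro ⟨x, hx, rfl⟩
      exact ⟨⟨x, hx⟩, rfl⟩
  have h2 : Submodule.map T.subtype (LinearMap.ker (f.domRestrict T)) = T ⊓ LinearMap.ker f := by
    ext y
    simp only [Submodule.mem_map, LinearMap.mem_ker, LinearMap.domRestrict_apply,
      Submodule.mem_inf, Submodule.subtype_apply]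
    constructor
    · rintro ⟨x, hx, rfl⟩
      exact ⟨x.2, hx⟩
    · rintro ⟨hy, hf⟩
      exact ⟨⟨y, hy⟩, hf, rfl⟩
  have h3 : Module.finrank (ZMod 2) ↥(T ⊓ LinearMap.ker f)
      = Module.finrank (ZMod 2) (LinearMap.ker (f.domRestrict T)) := by
    rw [← h2]
    exact Submodule.finrank_map_subtype_eq T _
  rw [h3, ← h1]
  exact h

/-- the kernel of the restriction to the coordinates `< a` -/
theorem mem_ker_pfL (n a : ℕ) (x : V n) :
    x ∈ LinearMap.ker (pfL n a) ↔ ∀ j : Fin n, j.val < a → x j = 0 := by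
  rw [LinearMap.mem_ker]
  constructor
  · intro h j hj
    have h1 := congrFun h ⟨j.val, hj⟩
    rw [pfL_apply n a x ⟨j.val, hj⟩ j.isLt] at h1
    exact h1
  · intro h
    funext j
    show (if h : j.val < n then x ⟨j.val, h⟩ else 0) = 0
    split_ifs with hj
    · exact h ⟨j.val, hj⟩ j.isLt
    · rfl

/-- dimension of the restriction of a subspace to the coordinates `< a` -/
noncomputable def dp {n : ℕ} (T : Submodule (ZMod 2) (V n)) (a : ℕ) : ℕ :=
  Module.finrank (ZMod 2) (Submodule.map (pfL n a) T)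

theorem dp_add {n : ℕ} (T : Submodule (ZMod 2) (V n)) (a : ℕ) :
    dp T a + Module.finrank (ZMod 2) ↥(T ⊓ LinearMap.ker (pfL n a)) = Module.finrank (ZMod 2) T :=
  fr_map (pfL n a) T

/-- a subspace has fewer leads in every interval -/
theorem leads_mono {n : ℕ} (T T' : Submodule (ZMod 2) (V n)) (hT : T' ≤ T) {p q : ℕ} (hpq : p ≤ q) :
    dp T' q + dp T p ≤ dp T q + dp T' p := by
  have e1 := dp_add T q
  have e2 := dp_add T p
  have e3 := dp_add T' q
  have e4 := dp_add T' p
  have h := fr_sub (T' ⊓ LinearMap.ker (pfL n p)) (T ⊓ LinearMap.ker (pfL n p))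
    (T' ⊓ LinearMap.ker (pfL n q)) (T ⊓ LinearMap.ker (pfL n q))
    (inf_le_inf_right _ hT)
    (by
      rintro x ⟨⟨hx1, hx2⟩, hx3, hx4⟩
      exact ⟨hx1, hx4⟩)
    (by
      refine inf_le_inf_left _ ?_
      intro x hx
      rw [mem_ker_pfL] at hx ⊢
      exact fun j hj => hx j (by omega))
  omega

theorem dp_mono_right {n : ℕ} (T : Submodule (ZMod 2) (V n)) {p q : ℕ} (hpq : p ≤ q) :
    dp T p ≤ dp T q := by
  have e1 := dp_add T q
  have e2 := dp_add T p
  have h : Module.finrank (ZMod 2) ↥(T ⊓ LinearMap.ker (pfL n q))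
      ≤ Module.finrank (ZMod 2) ↥(T ⊓ LinearMap.ker (pfL n p)) := by
    refine Submodule.finrank_mono (inf_le_inf_left _ ?_)
    intro x hx
    rw [mem_ker_pfL] at hx ⊢
    exact fun j hj => hx j (by omega)
  omega

theorem dp_mono_left {n : ℕ} (T T' : Submodule (ZMod 2) (V n)) (hT : T' ≤ T) (p : ℕ) :
    dp T' p ≤ dp T p := Submodule.finrank_mono (Submodule.map_mono hT)

theorem dp_le {n : ℕ} (T : Submodule (ZMod 2) (V n)) (p : ℕ) : dp T p ≤ p := by
  unfold dp
  refine (Submodule.finrank_le _).trans ?_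
  rw [Module.finrank_fin_fun]

/-- the first `n` coordinates of a higher row space lie in the row space -/
theorem TT_cut (α : Seq) (l : ℕ) {n n' : ℕ} (h : n ≤ n') :
    Submodule.map (pfL n' n) (TT α l n') ≤ TT α l n := by
  rw [Submodule.map_le_iff_le_comap]
  unfold TT
  rw [Submodule.span_le]
  rintro x ⟨i, hi, hr, rfl⟩
  show pfL n' n (low α i n') ∈ TT α l n
  rcases Nat.lt_or_ge (n' - 1) n with h1 | h1
  · have e : n' = n ∨ n' = 0 := by omega
    rcases e with rfl | rfl
    · refine Submodule.subset_span ⟨i, hi, hr, ?_⟩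
      funext j
      rw [pfL_apply _ _ _ _ j.isLt]
    · omega
  · have h2 := row_mem_TT α i n (n' - 1) h1
    have h3 : pfL n' n (low α i n') = cut h1 (row α i (n' - 1)) := by
      funext j
      rw [pfL_apply _ _ _ _ (by have := j.isLt; omega)]
      rfl
    rw [h3]
    exact TT_mono α n hi.le h2

theorem rho_eq (α : Seq) (l a n : ℕ) : rho α l a n = dp (TT α l n) a := rfl

theorem rho_mono (α : Seq) {l l' : ℕ} (h : l ≤ l') (a n : ℕ) : rho α l a n ≤ rho α l' a n :=
  dp_mono_left _ _ (TT_mono α n h) a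

/-- (M1) the higher level has fewer leads -/
theorem rho_level (α : Seq) (l : ℕ) {n n' p q : ℕ} (hn : n ≤ n') (hpq : p ≤ q) (hq : q ≤ n) :
    rho α l q n' + rho α l p n ≤ rho α l q n + rho α l p n' := by
  have key : ∀ a, a ≤ n → rho α l a n' = dp (Submodule.map (pfL n' n) (TT α l n')) a := by
    intro a ha
    unfold rho dp
    have e : pfL n' a = (pfL n a).comp (pfL n' n) := by
      refine LinearMap.ext fun x => ?_
      rw [LinearMap.comp_apply, pfL_pfL n' n a ha]
    rw [e, Submodule.map_comp]
  rw [key q hq, key p (hpq.trans hq)]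
  exact leads_mono _ _ (TT_cut α l hn) hpq

/-- (S) subadditivity in time and distance -/
theorem rho_subadd (α : Seq) (s₁ s₂ : ℕ) {a a' n : ℕ} (h1 : a ≤ a') (h2 : a' ≤ n) :
    rho α (s₁ + s₂) a n ≤ rho α s₁ a a' + rho (shift α s₁) s₂ a' n := by
  classical
  -- the linear map of the past
  let Λ : V a' →ₗ[ZMod 2] V a :=
    { toFun := fun v => fun j => ∑ k : Fin a', v k * Mst α s₁ k.val j.val
      map_add' := by
        intro v v'
        funext j
        simp only [Pi.add_apply, add_mul, Finset.sum_add_distrib]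
      map_smul' := by
        intro c v
        funext j
        simp only [Pi.smul_apply, RingHom.id_apply, smul_eq_mul, Finset.mul_sum, mul_assoc] }
  have hcutmem : ∀ i ≤ s₁, ∀ k, a' ≤ k → (fun j : Fin a => Mst α i k j.val) ∈
      Submodule.map (pfL a' a) (TT α s₁ a') := by
    intro i hi k hk
    refine ⟨cut hk (row α i k), TT_mono α a' hi (row_mem_TT α i a' k hk), ?_⟩
    funext j
    rw [pfL_apply _ _ _ _ (by have := j.isLt; omega)]
    rfl
  have hle : Submodule.map (pfL n a) (TT α (s₁ + s₂) n) ≤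
      Submodule.map (pfL a' a) (TT α s₁ a') ⊔
        Submodule.map Λ (Submodule.map (pfL n a') (TT (shift α s₁) s₂ n)) := by
    rw [Submodule.map_le_iff_le_comap]
    conv_lhs => unfold TT
    rw [Submodule.span_le]
    rintro x ⟨i, hi, hr, rfl⟩
    show pfL n a (low α i n) ∈ (Submodule.map (pfL a' a) (TT α s₁ a') ⊔
      Submodule.map Λ (Submodule.map (pfL n a') (TT (shift α s₁) s₂ n)) : Submodule (ZMod 2) (V a))
    have hn0 : 1 ≤ n := by omega
    have hx : pfL n a (low α i n) = fun j : Fin a => Mst α i (n - 1) j.val := by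
      funext j
      rw [pfL_apply _ _ _ _ (by have := j.isLt; omega)]
      rfl
    rw [hx]
    rcases Nat.lt_or_ge i s₁ with hlt | hge
    · -- a ring of the past
      refine Submodule.mem_sup_left ?_
      rcases Nat.lt_or_ge (n - 1) a' with h3 | h3
      · have e : a' = n := by omega
        subst e
        refine ⟨low α i a', Submodule.subset_span ⟨i, hlt, hr, rfl⟩, ?_⟩
        exact hx
      · exact hcutmem i hlt.le (n - 1) h3
    · -- a ring of the slab
      obtain ⟨i', rfl⟩ : ∃ i', i = s₁ + i' := ⟨i - s₁, by omega⟩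
      have hr' : (shift α s₁ i').1 + 1 = n := hr
      have hadd : (fun j : Fin a => Mst α (s₁ + i') (n - 1) j.val)
          = (∑ k ∈ (range n).filter (fun k => a' ≤ k),
              Mst (shift α s₁) i' (n - 1) k • (fun j : Fin a => Mst α s₁ k j.val : V a))
            + Λ (pfL n a' (low (shift α s₁) i' n)) := by
        funext j
        rw [Mst_add]
        have e1 : n - 1 + 1 = n := by omega
        rw [e1, ← Finset.sum_filter_add_sum_filter_not (range n) (fun k => a' ≤ k)]
        simp only [Pi.add_apply, Finset.sum_apply, Pi.smul_apply, smul_eq_mul]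
        congr 1
        have e2 : (range n).filter (fun k => ¬ a' ≤ k) = range a' := by
          ext k
          simp only [Finset.mem_filter, Finset.mem_range]
          omega
        rw [e2]
        show _ = ∑ k : Fin a', (pfL n a' (low (shift α s₁) i' n)) k * Mst α s₁ k.val j.val
        rw [← Fin.sum_univ_eq_sum_range (fun k => Mst (shift α s₁) i' (n - 1) k * Mst α s₁ k j.val) a']
        refine Finset.sum_congr rfl fun k _ => ?_
        rw [pfL_apply _ _ _ _ (by have := k.isLt; omega)]
        rfl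
      rw [hadd]
      refine Submodule.add_mem _ ?_ ?_
      · refine Submodule.mem_sup_left (Submodule.sum_mem _ fun k hk => Submodule.smul_mem _ _ ?_)
        exact hcutmem s₁ le_rfl k (Finset.mem_filter.1 hk).2
      · refine Submodule.mem_sup_right ⟨_, ⟨low (shift α s₁) i' n, ?_, rfl⟩, rfl⟩
        exact Submodule.subset_span ⟨i', by omega, hr', rfl⟩
  unfold rho
  refine (Submodule.finrank_mono hle).trans ?_
  refine (Submodule.finrank_add_le_finrank_add_finrank _ _).trans ?_
  exact Nat.add_le_add_left (Submodule.finrank_map_le _ _) _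

/-- (S0) at most the number of rings -/
theorem rho_le_rings (α : Seq) (l a n : ℕ) :
    rho α l a n ≤ ((range l).filter fun i => (α i).1 + 1 = n).card := by
  classical
  unfold rho
  refine (Submodule.finrank_map_le _ _).trans ?_
  have e : TT α l n = Submodule.span (ZMod 2)
      ((((range l).filter fun i => (α i).1 + 1 = n).image fun i => low α i n : Finset (V n)) :
        Set (V n)) := by
    unfold TT
    congr 1
    ext x
    simp only [Finset.coe_image, Set.mem_image, Finset.mem_coe, Finset.mem_filter,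
      Finset.mem_range, Set.mem_ofPred_eq]
    constructor
    · rintro ⟨i, hi, hr, rfl⟩
      exact ⟨i, ⟨hi, hr⟩, rfl⟩
    · rintro ⟨i, ⟨hi, hr⟩, rfl⟩
      exact ⟨i, hi, hr, rfl⟩
  rw [e]
  refine (finrank_span_finset_le_card _).trans ?_
  exact Finset.card_image_le

end Pool.Agent.NJ
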