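import Pool.Agent.NJ.RkA8
import Pool.Agent.NJ.HolS41
import Pool.Agent.CutFull.HolSub48

/-!
S19271 / TARGET B, HOLES (helper48): assembly.

From the law of large numbers of the open corner ranks (one box), the slope of their means, the
positivity at distance `n` and the transfer from letters to continuous time, to the statement about
`TT` in the letter model, with an absolute density `c`.
-/

set_option autoImplicit false
set_option linter.unusedSectionVars false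

namespace Pool.Agent.CutSeq.NJ

open Finset Pool.Agent.CutSeq Pool.Agent.Helper8.UT Pool.Agent.CutFull Pool.Agent.NJ

open Classical in
/-- law of large numbers, in one box for two gaps -/
def LLN48 : Prop := ∀ ε q : ℝ, 0 < ε → 0 < q → ∃ t0 : ℝ, ∀ t : ℝ, t0 ≤ t → ∀ g g' : ℕ, g ≤ g' →
  (g' : ℝ) ≤ t → ∃ N a : ℕ, 1 ≤ a ∧ (a : ℝ) + t ≤ N ∧
    EE N t (fun A => if ε * t < |(crk a (a + g) A : ℝ) - Gg8 g t| then (1 : ℝ) else 0) ≤ q ∧
    EE N t (fun A => if ε * t < |(crk a (a + g') A : ℝ) - Gg8 g' t| then (1 : ℝ) else 0) ≤ q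

/-- slope of the means -/
def Slope48 : Prop := ∀ (t P : ℝ) (n m l : ℕ), 0 ≤ t → P ≤ Gg8 n t → m + l ≤ n →
  (l : ℝ) * (P - 1) / (2 * t + 1) ≤ Gg8 m t - Gg8 (m + l) t

/-- positivity at distance `n` at time `5.9 n` -/
def Pos48 : Prop := ∃ c1 : ℝ, 0 < c1 ∧ ∃ n0 : ℕ, ∀ n : ℕ, n0 ≤ n → c1 * n ≤ Gg8 n (59 / 10 * n)

open Classical in
/-- transfer from letters to continuous time, for monotone functions of `TT` -/
def Tr48 (R : (M n : ℕ) → MM M → Submodule (ZMod 2) (V n)) : Prop :=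
  ∀ (B M n l : ℕ), 0 < B → n ≤ B → n < M → ∀ t : ℝ, 0 ≤ t → (B : ℝ) * t ≤ l →
    2 * ((B : ℝ) * t) ≤ ((l : ℝ) - B * t) ^ 2 → ∀ E : Submodule (ZMod 2) (V n) → Prop,
    (∀ T T' : Submodule (ZMod 2) (V n), T ≤ T' → E T' → E T) →
    pr (uw B l) {ω | E (TT (ext ω) l n)} ≤ 2 * EE M t (fun A => if E (R M n A) then (1 : ℝ) else 0)

open Classical in
/-- one pair of levels -/
theorem hol_pair {N' M a g g' : ℕ} (t ε q x : ℝ) (ht : 0 ≤ t) (h : 0 + M ≤ N') (ha : a ≤ M)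
    (hg : g ≤ g') (hM : a + g' ≤ M)
    (h1 : EE N' t (fun A => if ε * t < |(crk a (a + g) A : ℝ) - Gg8 g t| then (1 : ℝ) else 0) ≤ q)
    (h2 : EE N' t (fun A => if ε * t < |(crk a (a + g') A : ℝ) - Gg8 g' t| then (1 : ℝ) else 0) ≤ q)
    (hx : x + 2 * (ε * t) ≤ Gg8 g t - Gg8 g' t) :
    EE M t (fun A => if (crk a (a + g) A : ℝ) - crk a (a + g') A < x then (1 : ℝ) else 0) ≤ 2 * q := by
  rw [← EE_mid 0 M h t (fun A => if (crk a (a + g) A : ℝ) - crk a (a + g') A < x then (1 : ℝ) else 0)]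
  have h3 : EE N' t (fun A => (if ε * t < |(crk a (a + g) A : ℝ) - Gg8 g t| then (1 : ℝ) else 0) +
      (if ε * t < |(crk a (a + g') A : ℝ) - Gg8 g' t| then (1 : ℝ) else 0)) ≤ 2 * q := by
    rw [EE_add]
    linarith
  refine (EE_mono ht fun A _ => ?_).trans h3
  by_cases h4 : (crk a (a + g) (mid 0 M h A) : ℝ) - crk a (a + g') (mid 0 M h A) < x
  · rw [if_pos h4]
    by_cases h5 : ε * t < |(crk a (a + g) A : ℝ) - Gg8 g t|
    · rw [if_pos h5]
      split_ifs <;> norm_num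
    · by_cases h6 : ε * t < |(crk a (a + g') A : ℝ) - Gg8 g' t|
      · rw [if_pos h6]
        split_ifs <;> norm_num
      · exfalso
        have h7 := crk_mid_incr h A (a := a) (b := a + g) (b' := a + g') ha (by omega) hM
        have h8 : (crk a (a + g) A : ℝ) + crk a (a + g') (mid 0 M h A) ≤
            crk a (a + g) (mid 0 M h A) + crk a (a + g') A := by exact_mod_cast h7
        rw [not_lt, abs_le] at h5 h6
        linarith [h5.1, h6.2]
  · rw [if_neg h4]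
    split_ifs <;> norm_num

/-- **HOLES.** -/
theorem holes_of (hL : LLN48) (hS : Slope48) (hP : Pos48)
    (R : (M n : ℕ) → MM M → Submodule (ZMod 2) (V n)) (hT : Tr48 R)
    (hR : ∀ (M n y : ℕ) (A : MM M), y ≤ n → n ≤ M → dp (R M n A) y = crk (M - n) (M - y) A) :
    ∃ c : ℝ, 0 < c ∧ c ≤ 1 ∧ ∀ κ δ : ℝ, 0 < κ → 0 < δ → ∃ N0 : ℕ, ∀ N : ℕ, N0 ≤ N →
      ∀ n l b y : ℕ, n ≤ 2 * N → 6 * (n * (4 * N)) ≤ l → (b : ℝ) + κ * N ≤ y → y ≤ n →
      pr (uw (4 * N) l) {ω | (rho (ext ω) l y n : ℝ) - rho (ext ω) l b n < c * ((y : ℝ) - b)} ≤ δ := by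
  classical
  obtain ⟨c1, hc1, n0, hn0⟩ := hP
  obtain ⟨c, hc⟩ : ∃ c : ℝ, c = min 1 (c1 / 26) := ⟨_, rfl⟩
  have hcpos : 0 < c := by rw [hc]; exact lt_min one_pos (by positivity)
  have hcc : 26 * c ≤ c1 := by
    have := min_le_right 1 (c1 / 26)
    rw [← hc] at this
    linarith
  refine ⟨c, hcpos, by rw [hc]; exact min_le_left _ _, ?_⟩
  intro κ δ hκ hδ
  obtain ⟨t0, ht0⟩ := hL (c * κ / 24) (δ / 4) (by positivity) (by linarith)
  -- the lower bound for `n`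
  obtain ⟨n1, hn1⟩ : ∃ n1 : ℕ, n0 ≤ n1 ∧ 1 ≤ n1 ∧ t0 ≤ n1 ∧ 1 + c1 / 13 ≤ 12 / 130 * c1 * n1 := by
    obtain ⟨k1, hk1⟩ := exists_nat_ge t0
    obtain ⟨k2, hk2⟩ := exists_nat_ge ((1 + c1 / 13) / (12 / 130 * c1))
    refine ⟨n0 + 1 + k1 + k2, by omega, by omega, ?_, ?_⟩
    · push_cast
      have : (0 : ℝ) ≤ n0 := Nat.cast_nonneg _
      have : (0 : ℝ) ≤ k2 := Nat.cast_nonneg _
      linarith
    · rw [div_le_iff₀ (by positivity)] at hk2
      push_cast
      have h1 : (0 : ℝ) ≤ n0 := Nat.cast_nonneg _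
      have h2 : (0 : ℝ) ≤ k1 := Nat.cast_nonneg _
      nlinarith
  obtain ⟨hn1a, hn1b, hn1c, hn1d⟩ := hn1
  obtain ⟨k3, hk3⟩ := exists_nat_ge ((n1 : ℝ) / κ)
  refine ⟨k3 + 295, ?_⟩
  intro N hN n l b y hn hl hby hy
  have hN1 : (k3 : ℝ) + 295 ≤ N := by exact_mod_cast hN
  have hN295 : (295 : ℝ) ≤ N := by
    have : (0 : ℝ) ≤ k3 := Nat.cast_nonneg _
    linarith
  have hκN : (n1 : ℝ) ≤ κ * N := by
    rw [div_le_iff₀ hκ] at hk3
    nlinarith
  have hb0 : (0 : ℝ) ≤ b := Nat.cast_nonneg _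
  have hyn : (y : ℝ) ≤ n := by exact_mod_cast hy
  have hn2 : (n : ℝ) ≤ 2 * N := by exact_mod_cast hn
  have hnn1R : (n1 : ℝ) ≤ n := by linarith
  have hnn1 : n1 ≤ n := by exact_mod_cast hnn1R
  have hn1R : (1 : ℝ) ≤ n1 := by exact_mod_cast hn1b
  have hbyR : (b : ℝ) ≤ y := by linarith
  have hby' : b ≤ y := by exact_mod_cast hbyR
  obtain ⟨t, ht⟩ : ∃ t : ℝ, t = 59 / 10 * n := ⟨_, rfl⟩
  have htpos : 0 ≤ t := by rw [ht]; positivity
  have htt0 : t0 ≤ t := by rw [ht]; linarith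
  obtain ⟨N', a, ha1, haN, hd1, hd2⟩ := ht0 t htt0 (n - y) (n - b) (by omega) (by
    rw [ht]
    have : ((n - b : ℕ) : ℝ) ≤ n := by exact_mod_cast Nat.sub_le n b
    linarith)
  have haN' : 0 + (a + n) ≤ N' := by
    have h1 : (a : ℝ) + n ≤ N' := by
      refine le_trans ?_ haN
      rw [ht]
      linarith
    have h2 : a + n ≤ N' := by exact_mod_cast h1
    omega
  -- the slope
  have hP1 := hn0 n (hn1a.trans hnn1)
  rw [← ht] at hP1
  have hsl := hS t (c1 * n) n (n - y) (y - b) htpos hP1 (by omega)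
  have e1 : n - y + (y - b) = n - b := by omega
  rw [e1, Nat.cast_sub hby'] at hsl
  have hybpos : 0 ≤ (y : ℝ) - b := by linarith
  have hsl2 : 2 * c * ((y : ℝ) - b) ≤ Gg8 (n - y) t - Gg8 (n - b) t := by
    refine le_trans ?_ hsl
    rw [le_div_iff₀ (by linarith)]
    have h3 : 2 * c * (2 * t + 1) ≤ c1 * n - 1 := by
      rw [ht]
      have h4 : 12 / 130 * c1 * (n1 : ℝ) ≤ 12 / 130 * c1 * n :=
        mul_le_mul_of_nonneg_left hnn1R (by positivity)
      have h5 : c * (n : ℝ) ≤ c1 / 26 * n := mul_le_mul_of_nonneg_right (by linarith) (by linarith)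
      have h6 : 2 * c * (2 * (59 / 10 * (n : ℝ)) + 1) = 23.6 * (c * n) + 2 * c := by ring
      rw [h6]
      nlinarith
    have h5 := mul_le_mul_of_nonneg_left h3 hybpos
    nlinarith
  have hx : c * ((y : ℝ) - b) + 2 * (c * κ / 24 * t) ≤ Gg8 (n - y) t - Gg8 (n - b) t := by
    refine le_trans ?_ hsl2
    have h3 : κ * N ≤ (y : ℝ) - b := by linarith
    have h4 : c * (κ * N) ≤ c * ((y : ℝ) - b) := mul_le_mul_of_nonneg_left h3 hcpos.le
    have h5 : 2 * (c * κ / 24 * t) ≤ c * (κ * N) := by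
      rw [ht]
      have h6 : c * κ * (n : ℝ) ≤ c * κ * (2 * N) := mul_le_mul_of_nonneg_left hn2 (by positivity)
      have h7 : 2 * (c * κ / 24 * (59 / 10 * (n : ℝ))) = 59 / 120 * (c * κ * n) := by ring
      rw [h7]
      have h8 : (0 : ℝ) ≤ c * κ * N := by positivity
      nlinarith
    linarith
  -- the transfer
  have hB : ((4 * N : ℕ) : ℝ) = 4 * N := by push_cast; ring
  have hlR : 6 * ((n : ℝ) * (4 * N)) ≤ l := by exact_mod_cast hl
  have hnpos : (1 : ℝ) ≤ n := by linarith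
  have hxx : (1180 : ℝ) ≤ n * (4 * N) := by nlinarith
  have htr := hT (4 * N) (a + n) n l (by omega) (by omega) (by omega) t htpos
    (by rw [hB, ht]; nlinarith) (by
      rw [hB, ht]
      have h3 : 1 / 10 * ((n : ℝ) * (4 * N)) ≤ l - 4 * N * (59 / 10 * n) := by nlinarith
      have h4 : (1 / 10 * ((n : ℝ) * (4 * N))) ^ 2 ≤ (l - 4 * N * (59 / 10 * n)) ^ 2 :=
        pow_le_pow_left₀ (by positivity) h3 2
      nlinarith)
    (fun T => (dp T y : ℝ) - dp T b < c * ((y : ℝ) - b))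
    (fun T T' hTT h3 => by
      have h4 := leads_mono T' T hTT hby'
      have h5 : (dp T y : ℝ) + dp T' b ≤ dp T' y + dp T b := by exact_mod_cast h4
      change (dp T y : ℝ) - dp T b < c * ((y : ℝ) - b)
      have h6 : (dp T' y : ℝ) - dp T' b < c * ((y : ℝ) - b) := h3
      linarith)
  refine htr.trans ?_
  have e2 : (fun A : MM (a + n) => if (dp (R (a + n) n A) y : ℝ) - dp (R (a + n) n A) b <
      c * ((y : ℝ) - b) then (1 : ℝ) else 0) =
      fun A : MM (a + n) => if (crk a (a + (n - y)) A : ℝ) - crk a (a + (n - b)) A <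
        c * ((y : ℝ) - b) then (1 : ℝ) else 0 := by
    funext A
    rw [hR (a + n) n y A hy (by omega), hR (a + n) n b A (by omega) (by omega)]
    have e3 : a + n - n = a := by omega
    have e4 : a + n - y = a + (n - y) := by omega
    have e5 : a + n - b = a + (n - b) := by omega
    rw [e3, e4, e5]
  rw [e2]
  have h9 := hol_pair t (c * κ / 24) (δ / 4) (c * ((y : ℝ) - b)) htpos haN' (by omega)
    (show n - y ≤ n - b by omega) (by omega) hd1 hd2 hx
  linarith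

end Pool.Agent.CutSeq.NJ
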