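import Pool.Agent.NJ.Lln43
import Pool.Agent.NJ.HolAsm48

/-! S19271, target B, row HOLES (helper43): `LLN48` from `lln_room43`. -/

set_option autoImplicit false

namespace Pool.Agent.CutSeq.NJ

open Finset Pool.Agent.CutSeq Pool.Agent.Helper8.UT Pool.Agent.CutFull Pool.Agent.NJ

theorem lln48_43 : LLN48 := by
  intro eps q heps hq
  obtain ⟨t0, ht0, h⟩ := lln_room43 eps q heps hq
  refine ⟨t0, fun t ht g g' hgg hg' => ?_⟩
  obtain ⟨N, a, -, h1, -, h2, h3, h4⟩ := h t ht g g' hgg hg'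
  refine ⟨N, a, h1, ?_, h3, h4⟩
  have h5 : (0 : ℝ) ≤ g' := Nat.cast_nonneg _
  linarith

end Pool.Agent.CutSeq.NJ
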