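import Pool.Agent.CutFull.RankLLN

/-!
S19271, target B, holes: the ranks of the corners at a distance from the diagonal in wide boxes;
subadditivity, the limit rate and the uniform exponential upper tail.
-/

set_option autoImplicit false
set_option linter.unusedSectionVars false

namespace Pool.Agent.CutFull

open Finset Matrix Filter Topology Pool.Agent.Helper8.UT

variable {N : ℕ}

/-! #### products -/

theorem crk_mul8 (a b d : ℕ) (B A : MM N) : crk a d (B * A) ≤ crk a b B + crk b d A := by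
  obtain ⟨P, hP⟩ : ∃ P : ℕ → MM N, ∀ c, P c =
    Matrix.diagonal (fun i : Fin N => if i.val < c then (1 : ZMod 2) else 0) := ⟨_, fun _ => rfl⟩
  obtain ⟨Q, hQ⟩ : ∃ Q : ℕ → MM N, ∀ c, Q c =
    Matrix.diagonal (fun i : Fin N => if c ≤ i.val then (1 : ZMod 2) else 0) := ⟨_, fun _ => rfl⟩
  have hc : ∀ a b (X : MM N), cblk a b X = P a * X * Q b := by
    intro a b X
    rw [cblk_eq, hP, hQ]
  have h1 : ∀ c, P c + Q c = 1 := by
    intro c
    rw [hP, hQ, Matrix.diagonal_add, ← Matrix.diagonal_one]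
    congr 1
    funext i
    by_cases h : i.val < c
    · have : ¬ c ≤ i.val := by omega
      simp [h]
    · have : c ≤ i.val := by omega
      simp [this]
  have h2 : ∀ c, P c * P c = P c := by
    intro c
    rw [hP, Matrix.diagonal_mul_diagonal]
    congr 1
    funext i
    by_cases h : i.val < c <;> simp [h]
  unfold crk
  rw [hc, hc, hc]
  have h3 : P a * (B * A) * Q d = (P a * B * P b) * (P b * A * Q d) + (P a * B * Q b) * (A * Q d) := by
    have e1 : P a * (B * A) * Q d = P a * B * (P b + Q b) * A * Q d := by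
      rw [h1, Matrix.mul_one, Matrix.mul_assoc (P a) B A]
    have e2 : (P a * B * P b) * (P b * A * Q d) = P a * B * (P b * P b) * A * Q d := by
      simp only [Matrix.mul_assoc]
    have e3 : (P a * B * Q b) * (A * Q d) = P a * B * Q b * A * Q d := by
      simp only [Matrix.mul_assoc]
    rw [e1, e2, e3, h2, Matrix.mul_add, Matrix.add_mul, Matrix.add_mul]
  rw [h3]
  refine (mrank_add_le _ _).trans ?_
  rw [add_comm]
  exact add_le_add (Matrix.rank_mul_le_left _ _) (Matrix.rank_mul_le_right _ _)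

theorem crk_le_rk8 (a g : ℕ) (A : MM N) : crk a (a + g) A ≤ rk a A := by
  rw [← crk_diag]
  exact crk_mono le_rfl (by omega) A

theorem EE_crk_add8 (a g g' : ℕ) (s t : ℝ) (hs : 0 ≤ s) (ht : 0 ≤ t) :
    EE N (s + t) (fun A => (crk a (a + (g + g')) A : ℝ)) ≤
      EE N s (fun A => (crk (a + g) (a + g + g') A : ℝ)) + EE N t (fun A => (crk a (a + g) A : ℝ)) := by
  have h1 : ∀ A : MM N, Sg (stl (N := N)) t (fun A => (crk a (a + (g + g')) A : ℝ)) A ≤
      (crk (a + g) (a + g + g') A : ℝ) + EE N t (fun A => (crk a (a + g) A : ℝ)) := by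
    intro A
    rw [Sg_right]
    have h2 : EE N t (fun B => (crk a (a + (g + g')) (B * A) : ℝ)) ≤
        EE N t (fun B => (crk a (a + g) B : ℝ) + (crk (a + g) (a + g + g') A : ℝ)) :=
      EE_mono ht fun B _ => by
        rw [← add_assoc]
        exact_mod_cast crk_mul8 a (a + g) (a + g + g') B A
    refine h2.trans ?_
    unfold EE
    rw [Sg_add_apply _ t (fun B => (crk a (a + g) B : ℝ))
      (fun _ => (crk (a + g) (a + g + g') A : ℝ)), Sg_const _ t ht, add_comm]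
  refine (EE_semi_le s t hs _ _ h1).trans ?_
  unfold EE
  rw [Sg_add_apply _ s (fun B => (crk (a + g) (a + g + g') B : ℝ)) (fun _ => _), Sg_const _ s hs]

theorem EE_crk_exp_add8 (a g g' : ℕ) (θ s t : ℝ) (hθ : 0 ≤ θ) (hs : 0 ≤ s) (ht : 0 ≤ t) :
    EE N (s + t) (fun A => Real.exp (θ * (crk a (a + (g + g')) A : ℝ))) ≤
      EE N s (fun A => Real.exp (θ * (crk (a + g) (a + g + g') A : ℝ))) *
        EE N t (fun A => Real.exp (θ * (crk a (a + g) A : ℝ))) := by
  have h1 : ∀ A : MM N, Sg (stl (N := N)) t (fun A => Real.exp (θ * (crk a (a + (g + g')) A : ℝ))) A ≤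
      EE N t (fun A => Real.exp (θ * (crk a (a + g) A : ℝ))) *
        Real.exp (θ * (crk (a + g) (a + g + g') A : ℝ)) := by
    intro A
    rw [Sg_right]
    have h2 : EE N t (fun B => Real.exp (θ * (crk a (a + (g + g')) (B * A) : ℝ))) ≤
        EE N t (fun B => Real.exp (θ * (crk (a + g) (a + g + g') A : ℝ)) *
          Real.exp (θ * (crk a (a + g) B : ℝ))) :=
      EE_mono ht fun B _ => by
        rw [← Real.exp_add, ← mul_add]
        refine Real.exp_le_exp.2 (mul_le_mul_of_nonneg_left ?_ hθ)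
        have := crk_mul8 a (a + g) (a + g + g') B A
        rw [add_comm (crk (a + g) (a + g + g') A : ℝ), ← add_assoc a g g']
        exact_mod_cast this
    refine h2.trans ?_
    unfold EE
    rw [Sg_mul_apply, mul_comm]
  refine (EE_semi_le s t hs _ _ h1).trans ?_
  unfold EE
  rw [Sg_mul_apply, mul_comm]

/-! #### the supremum over the boxes -/

/-- expected rank of the corner at distance `g` -/
noncomputable def cg8 (N a g : ℕ) (t : ℝ) : ℝ := EE N t (fun A => (crk a (a + g) A : ℝ))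

/-- supremum over all sizes and cuts -/
noncomputable def Gg8 (g : ℕ) (t : ℝ) : ℝ := ⨆ p : ℕ × ℕ, cg8 p.1 p.2 g t

theorem cg_nonneg8 (N a g : ℕ) {t : ℝ} (ht : 0 ≤ t) : 0 ≤ cg8 N a g t :=
  EE_nonneg ht fun _ => Nat.cast_nonneg _

theorem cg_le8 (N a g : ℕ) {t : ℝ} (ht : 0 ≤ t) : cg8 N a g t ≤ cur N a t :=
  EE_mono ht fun A _ => by exact_mod_cast crk_le_rk8 a g A

theorem Gg_bdd8 (g : ℕ) {t : ℝ} (ht : 0 ≤ t) :
    BddAbove (Set.range fun p : ℕ × ℕ => cg8 p.1 p.2 g t) := by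
  refine ⟨Real.exp ((Real.exp 1 - 1) / 2 * t), ?_⟩
  rintro _ ⟨p, rfl⟩
  exact (cg_le8 _ _ _ ht).trans (cur_le _ _ ht)

theorem cg_le_Gg8 (N a g : ℕ) {t : ℝ} (ht : 0 ≤ t) : cg8 N a g t ≤ Gg8 g t :=
  le_ciSup (Gg_bdd8 g ht) (N, a)

theorem Gg_nonneg8 (g : ℕ) {t : ℝ} (ht : 0 ≤ t) : 0 ≤ Gg8 g t :=
  (cg_nonneg8 0 0 g ht).trans (cg_le_Gg8 0 0 g ht)

theorem Gg_add8 (g g' : ℕ) {s t : ℝ} (hs : 0 ≤ s) (ht : 0 ≤ t) :
    Gg8 (g + g') (s + t) ≤ Gg8 g s + Gg8 g' t := by
  refine ciSup_le fun p => ?_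
  have h := EE_crk_add8 (N := p.1) p.2 g g' t s ht hs
  rw [add_comm t s] at h
  have h1 := cg_le_Gg8 p.1 (p.2 + g) g' ht
  have h2 := cg_le_Gg8 p.1 p.2 g hs
  unfold cg8 at h1 h2 ⊢
  linarith

theorem Gg_anti8 {g g' : ℕ} (h : g ≤ g') {t : ℝ} (ht : 0 ≤ t) : Gg8 g' t ≤ Gg8 g t := by
  refine ciSup_le fun p => le_trans ?_ (cg_le_Gg8 p.1 p.2 g ht)
  unfold cg8
  exact EE_mono ht fun A _ => by exact_mod_cast crk_mono le_rfl (by omega) A

theorem Gg_sub8 (p : ℕ) {τ : ℝ} (hτ : 0 ≤ τ) : Subadditive (fun u : ℕ => Gg8 (p * u) (τ * u)) := by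
  intro m n
  have h := Gg_add8 (p * m) (p * n) (s := τ * m) (t := τ * n) (by positivity) (by positivity)
  beta_reduce
  rw [mul_add, Nat.cast_add, mul_add]
  exact h

/-- the rate of the rank of the corner with gap `p` and time `τ` per unit -/
noncomputable def rr8 (p : ℕ) (τ : ℝ) : ℝ := if h : 0 ≤ τ then (Gg_sub8 p h).lim else 0

theorem Gg_below8 (p : ℕ) {τ : ℝ} (hτ : 0 ≤ τ) :
    BddBelow (Set.range fun u : ℕ => Gg8 (p * u) (τ * u) / u) := by
  refine ⟨0, ?_⟩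
  rintro _ ⟨u, rfl⟩
  exact div_nonneg (Gg_nonneg8 _ (by positivity)) (Nat.cast_nonneg u)

theorem rr_tendsto8 (p : ℕ) {τ : ℝ} (hτ : 0 ≤ τ) :
    Tendsto (fun u : ℕ => Gg8 (p * u) (τ * u) / u) atTop (𝓝 (rr8 p τ)) := by
  unfold rr8
  rw [dif_pos hτ]
  exact (Gg_sub8 p hτ).tendsto_lim (Gg_below8 p hτ)

theorem rr_le8 (p : ℕ) {τ : ℝ} (hτ : 0 ≤ τ) (u : ℕ) : rr8 p τ * u ≤ Gg8 (p * u) (τ * u) := by
  rcases Nat.eq_zero_or_pos u with h | h
  · subst h
    rw [Nat.cast_zero, mul_zero]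
    exact Gg_nonneg8 _ (by simp)
  · have h1 : (0 : ℝ) < u := by exact_mod_cast h
    have h2 : rr8 p τ ≤ Gg8 (p * u) (τ * u) / u := by
      unfold rr8
      rw [dif_pos hτ]
      exact (Gg_sub8 p hτ).lim_le_div (Gg_below8 p hτ) h.ne'
    rwa [le_div_iff₀ h1] at h2

theorem rr_nonneg8 (p : ℕ) {τ : ℝ} (hτ : 0 ≤ τ) : 0 ≤ rr8 p τ :=
  ge_of_tendsto (rr_tendsto8 p hτ) (Filter.Eventually.of_forall fun u =>
    div_nonneg (Gg_nonneg8 _ (by positivity)) (Nat.cast_nonneg u))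

/-! #### the rate: subadditive, homogeneous, convex in the gap -/

theorem rr_add8 (p p' : ℕ) {τ τ' : ℝ} (hτ : 0 ≤ τ) (hτ' : 0 ≤ τ') :
    rr8 (p + p') (τ + τ') ≤ rr8 p τ + rr8 p' τ' := by
  refine le_of_tendsto_of_tendsto (rr_tendsto8 (p + p') (add_nonneg hτ hτ'))
    ((rr_tendsto8 p hτ).add (rr_tendsto8 p' hτ')) (Filter.Eventually.of_forall fun u => ?_)
  beta_reduce
  rw [← add_div]
  refine div_le_div_of_nonneg_right ?_ (Nat.cast_nonneg u)
  rw [add_mul, add_mul]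
  exact Gg_add8 _ _ (by positivity) (by positivity)

theorem rr_two8 (p : ℕ) {τ : ℝ} (hτ : 0 ≤ τ) : rr8 (2 * p) (2 * τ) = 2 * rr8 p τ := by
  have h1 := rr_tendsto8 (2 * p) (τ := 2 * τ) (by positivity)
  have h2 : Tendsto (fun u : ℕ => 2 * u) atTop atTop := tendsto_id.const_mul_atTop' (by norm_num)
  have h3 := ((rr_tendsto8 p hτ).comp h2).const_mul 2
  refine tendsto_nhds_unique h1 (h3.congr fun u => ?_)
  simp only [Function.comp_apply]
  rcases Nat.eq_zero_or_pos u with h | h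
  · subst h
    simp
  · have h5 : (u : ℝ) ≠ 0 := by exact_mod_cast h.ne'
    rw [show p * (2 * u) = 2 * p * u by ring, show τ * ((2 * u : ℕ) : ℝ) = 2 * τ * u by push_cast; ring]
    push_cast
    field_simp

theorem rr_anti8 {p p' : ℕ} (h : p ≤ p') {τ : ℝ} (hτ : 0 ≤ τ) : rr8 p' τ ≤ rr8 p τ := by
  refine le_of_tendsto_of_tendsto (rr_tendsto8 p' hτ) (rr_tendsto8 p hτ)
    (Filter.Eventually.of_forall fun u => ?_)
  exact div_le_div_of_nonneg_right (Gg_anti8 (Nat.mul_le_mul_right u h) (by positivity))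
    (Nat.cast_nonneg u)

/-- convexity in the gap -/
theorem rr_convex8 (p : ℕ) {τ : ℝ} (hτ : 0 ≤ τ) :
    2 * rr8 (p + 1) τ ≤ rr8 p τ + rr8 (p + 2) τ := by
  have h1 := rr_add8 p (p + 2) hτ hτ
  rw [← rr_two8 (p + 1) hτ, show 2 * (p + 1) = p + (p + 2) by ring, two_mul]
  exact h1

/-! #### outside of the light cone -/

theorem crk_le_nR8 (a c : ℕ) (A : MM N) : crk a (a + c) A ≤ nR (a + c) c A := by
  classical
  unfold crk
  refine (rank_le_rows (cblk a (a + c) A) (fun i => i.val < a ∧ RowNZ (a + c) i.val A) ?_).trans ?_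
  · intro i hi j
    unfold cblk
    split_ifs with h
    · by_contra hne
      refine hi ⟨h.1, j, h.2, ?_⟩
      rw [rowN_fin]
      exact hne
    · rfl
  · unfold nR
    refine Finset.card_le_card_of_injOn (fun i : Fin N => i.val) ?_ ?_
    · intro i hi
      rw [Finset.mem_coe, Finset.mem_filter] at hi
      have hi1 := hi.2.1
      rw [Finset.mem_coe, Finset.mem_filter, Finset.mem_range]
      beta_reduce
      exact ⟨by omega, by omega, hi.2.2⟩
    · intro i _ j _ hij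
      exact Fin.ext hij

theorem Gg_far8 {g : ℕ} {t : ℝ} (ht : 0 ≤ t) (h : 2 * t ≤ g) : Gg8 g t ≤ 1 := by
  refine ciSup_le fun p => ?_
  refine le_trans ?_ (EE_nR (N := p.1) (a := p.2 + g) ht h)
  exact EE_mono ht fun A _ => by exact_mod_cast crk_le_nR8 p.2 g A

theorem rr_far8 {p : ℕ} {τ : ℝ} (hτ : 0 ≤ τ) (h : 2 * τ ≤ p) : rr8 p τ = 0 := by
  refine le_antisymm ?_ (rr_nonneg8 p hτ)
  have h1 : Tendsto (fun u : ℕ => (1 : ℝ) / u) atTop (𝓝 0) := tendsto_one_div_atTop_nhds_zero_nat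
  refine le_of_tendsto_of_tendsto (rr_tendsto8 p hτ) h1 (Filter.Eventually.of_forall fun u => ?_)
  refine div_le_div_of_nonneg_right (Gg_far8 (by positivity) ?_) (Nat.cast_nonneg u)
  push_cast
  have := mul_le_mul_of_nonneg_right h (Nat.cast_nonneg (α := ℝ) u)
  linarith

/-- the slope of the rate -/
theorem rr_slope8 {p p0 p1 : ℕ} {τ : ℝ} (hτ : 0 ≤ τ) (h : p ≤ p0) (h01 : p0 ≤ p1)
    (h1 : 2 * τ ≤ p1) : rr8 p0 τ ≤ ((p1 : ℝ) - p0) * (rr8 p τ - rr8 (p + 1) τ) := by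
  obtain ⟨d, hd⟩ : ∃ d : ℕ → ℝ, ∀ j, d j = rr8 j τ - rr8 (j + 1) τ := ⟨_, fun _ => rfl⟩
  have hanti : ∀ j, d (j + 1) ≤ d j := by
    intro j
    rw [hd, hd]
    have := rr_convex8 j hτ
    linarith
  have hanti' : Antitone d := antitone_nat_of_succ_le hanti
  have htel : ∀ k : ℕ, rr8 p0 τ - rr8 (p0 + k) τ = ∑ j ∈ range k, d (p0 + j) := by
    intro k
    induction k with
    | zero => simp
    | succ k ih =>
      rw [sum_range_succ, ← ih, hd]
      ring_nf
  have h2 := htel (p1 - p0)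
  rw [show p0 + (p1 - p0) = p1 by omega, rr_far8 hτ h1, sub_zero] at h2
  rw [h2, ← hd]
  refine (sum_le_card_nsmul _ _ (d p) fun j _ => hanti' (by omega)).trans (le_of_eq ?_)
  rw [Finset.card_range, nsmul_eq_mul, Nat.cast_sub h01]

end Pool.Agent.CutFull
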