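import Pool.Agent.CutFull.HolP62
import Pool.Agent.NJ.RkA8

/-!
S19271, row HOLES, piece (P), in terms of the supremum over all boxes.
-/

set_option autoImplicit false

namespace Pool.Agent.CutFull

open Pool.Agent.Helper8.UT

/-- absolute positivity of the expected rank at distance `n` at times at least `5.9 n` -/
theorem pos62 : ∃ c1 : ℝ, 0 < c1 ∧ c1 ≤ 1 ∧ ∃ n0 : ℕ, ∀ n : ℕ, n0 ≤ n → ∀ t : ℝ,
    59 / 10 * (n : ℝ) ≤ t → c1 * n ≤ Gg8 n t := by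
  obtain ⟨c1, h1, h2, n0, H⟩ := EE_crk_abs
  refine ⟨c1, h1, h2, n0, fun n hn t ht => ?_⟩
  have ht0 : 0 ≤ t := by
    have : (0 : ℝ) ≤ n := Nat.cast_nonneg n
    linarith
  exact (H n hn t ht (3 * n) n le_rfl (by omega)).trans (cg_le_Gg8 (3 * n) n n ht0)

/-- the hypothesis `Pos48` of the assembly, verbatim -/
theorem pos48_62 : ∃ c1 : ℝ, 0 < c1 ∧ ∃ n0 : ℕ, ∀ n : ℕ, n0 ≤ n → c1 * n ≤ Gg8 n (59 / 10 * n) := by
  obtain ⟨c1, h1, _, n0, H⟩ := pos62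
  exact ⟨c1, h1, n0, fun n hn => H n hn _ le_rfl⟩

end Pool.Agent.CutFull
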