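import Pool.Agent.NJ.Slope71
import Pool.Agent.NJ.HolAsm48

/-! S19271, target B, row HOLES (helper71): `Slope48` from `slope71'`. -/

set_option autoImplicit false

namespace Pool.Agent.CutSeq.NJ

open Pool.Agent.CutFull

theorem slope48_71 : Slope48 := fun _ _ _ _ _ ht hP hml => slope71' ht hP hml

end Pool.Agent.CutSeq.NJ
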