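import Pool.Agent.CutFull.RowD
import Pool.Agent.NJ.HolS41

/-!
S19271 / NJ, HOLES, part (T): from the letter model to the continuous time model.

`transfer91`: the probability of an antitone property of `TT` under uniform words of `l` letters with
`B` bonds is at most twice its probability for the span of the rows of level at least `n` of the
continuous time walk in a matrix of any size `N > n`, at a time `t` with `B * t` below `l`.
-/

set_option autoImplicit false
set_option linter.unusedSectionVars false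

namespace Pool.Agent.CutSeq.NJ

open Finset
open Pool.Agent.Helper8.UT (MM EE pm gen Sg Sg_series)

/-! ### Words and semigroups on a finite state space -/

section Gen

variable {S : Type*} [Fintype S]

/-- letters with bond `< n` -/
def stk91 (stp : ℕ × ZMod 2 → S → S) (n : ℕ) : Fin n × ZMod 2 → S → S :=
  fun p s => stp (p.1.val, p.2) s

/-- state after `l` letters -/
def run91 (stp : ℕ × ZMod 2 → S → S) (s0 : S) (α : Seq) : ℕ → S
  | 0 => s0
  | l + 1 => stp (α l) (run91 stp s0 α l)

theorem run91_congr (stp : ℕ × ZMod 2 → S → S) (s0 : S) {α β : Seq} (l : ℕ)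
    (h : ∀ i < l, α i = β i) : run91 stp s0 α l = run91 stp s0 β l := by
  induction l with
  | zero => rfl
  | succ l ih =>
    show stp (α l) (run91 stp s0 α l) = stp (β l) (run91 stp s0 β l)
    rw [h l (Nat.lt_succ_self l), ih fun i hi => h i (hi.trans (Nat.lt_succ_self l))]

theorem gen_shift91 (stp : ℕ × ZMod 2 → S → S) {n B : ℕ} (hn : n ≤ B)
    (htriv : ∀ b c s, n ≤ b → stp (b, c) s = s) (g : S → ℝ) (x : S) :
    gen (stk91 stp n) g x + (B : ℝ) * g x
      = 1 / 2 * ∑ p : Fin B × ZMod 2, g (stp (p.1.val, p.2) x) := by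
  unfold gen stk91
  rw [Fintype.sum_prod_type, Fintype.sum_prod_type]
  simp only
  have e1 := Fin.sum_univ_eq_sum_range
    (fun b : ℕ => ∑ c : ZMod 2, (g (stp (b, c) x) - g x)) n
  have e2 := Fin.sum_univ_eq_sum_range
    (fun b : ℕ => ∑ c : ZMod 2, g (stp (b, c) x)) B
  rw [e1, e2]
  have h1 : ∑ b ∈ range n, ∑ c : ZMod 2, (g (stp (b, c) x) - g x)
      = ∑ b ∈ range B, ∑ c : ZMod 2, (g (stp (b, c) x) - g x) := by
    apply Finset.sum_subset
    · intro b hb
      rw [mem_range] at hb ⊢
      omega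
    · intro b _ hb
      rw [mem_range, not_lt] at hb
      refine Finset.sum_eq_zero fun c _ => ?_
      rw [htriv b c x hb, sub_self]
  rw [h1]
  have h2 : ∀ b : ℕ, ∑ c : ZMod 2, (g (stp (b, c) x) - g x)
      = ∑ c : ZMod 2, g (stp (b, c) x) - 2 * g x := by
    intro b
    rw [Finset.sum_sub_distrib, Finset.sum_const, Finset.card_univ, ZMod.card, nsmul_eq_mul]
    norm_num
  rw [Finset.sum_congr rfl fun b _ => h2 b, Finset.sum_sub_distrib, Finset.sum_const, card_range,
    nsmul_eq_mul]
  ring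

/-- one more letter -/
theorem step91 (stp : ℕ × ZMod 2 → S → S) (s0 : S) (B k : ℕ) (g : S → ℝ) :
    ∑ ω : Wd B (k + 1), g (run91 stp s0 (ext ω) (k + 1))
      = ∑ ω : Wd B k, ∑ p : Fin B × ZMod 2, g (stp (p.1.val, p.2) (run91 stp s0 (ext ω) k)) := by
  rw [Brg.sum_append]
  apply Finset.sum_congr rfl
  intro a _
  have h1 : ∀ c : Wd B 1, g (run91 stp s0 (ext (Fin.append a c : Wd B (k + 1))) (k + 1))
      = g (stp ((c 0).1.val, (c 0).2) (run91 stp s0 (ext a) k)) := by
    intro c
    have e0 : ext (Fin.append a c : Wd B (k + 1)) k = ((c 0).1.val, (c 0).2) := by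
      have := Brg.ext_right a c 0
      rw [add_zero] at this
      rw [this]
      unfold ext
      rw [dif_pos (by norm_num)]
      rfl
    show g (stp (ext (Fin.append a c : Wd B (k + 1)) k) _) = _
    rw [e0, run91_congr stp s0 k fun i hi => Brg.ext_left a c i hi]
  rw [Finset.sum_congr rfl fun c _ => h1 c]
  rw [← (Equiv.funUnique (Fin 1) (Fin B × ZMod 2)).symm.sum_comp]
  rfl

theorem iter91 (stp : ℕ × ZMod 2 → S → S) (s0 : S) {n B : ℕ} (hn : n ≤ B)
    (htriv : ∀ b c s, n ≤ b → stp (b, c) s = s) (k : ℕ) : ∀ g : S → ℝ,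
    (fun g : S → ℝ => gen (stk91 stp n) g + (B : ℝ) • g)^[k] g s0
      = (1 / 2 : ℝ) ^ k * ∑ ω : Wd B k, g (run91 stp s0 (ext ω) k) := by
  induction k with
  | zero =>
    intro g
    rw [Function.iterate_zero, id, pow_zero, one_mul]
    have : (univ : Finset (Wd B 0)) = {default} := by
      ext ω
      simp [Subsingleton.elim ω default]
    rw [this, Finset.sum_singleton]
    rfl
  | succ k ih =>
    intro g
    rw [Function.iterate_succ_apply, ih, step91, pow_succ, mul_assoc,
      Finset.mul_sum (a := (1 / 2 : ℝ))]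
    congr 1
    apply Finset.sum_congr rfl
    intro ω _
    rw [← gen_shift91 stp hn htriv]
    rfl

/-- Poissonisation -/
theorem hasSum91 (stp : ℕ × ZMod 2 → S → S) (s0 : S) {n B : ℕ} (hB : 0 < B) (hn : n ≤ B)
    (htriv : ∀ b c s, n ≤ b → stp (b, c) s = s) (t : ℝ) (F : S → ℝ) :
    HasSum (fun L : ℕ => pois (B * t) L *
      ∑ ω : Wd B L, uw B L ω * F (run91 stp s0 (ext ω) L)) (Sg (stk91 stp n) t F s0) := by
  have hB' : (0 : ℝ) < B := by exact_mod_cast hB
  have h := Sg_series (stk91 stp n) (B : ℝ) t F s0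
  refine h.congr_fun ?_ |> fun h' => h'
  intro L
  rw [iter91 stp s0 hn htriv]
  have h1 : ∑ ω : Wd B L, uw B L ω * F (run91 stp s0 (ext ω) L)
      = 1 / ((B : ℝ) * 2) ^ L * ∑ ω : Wd B L, F (run91 stp s0 (ext ω) L) := by
    rw [Finset.mul_sum]
    refine Finset.sum_congr rfl fun ω _ => ?_
    rw [Brg.uw_eq]
  rw [h1]
  unfold pois
  rw [mul_pow, mul_pow, one_div (2 : ℝ), inv_pow]
  field_simp

end Gen


/-! ### The history of the levels below `n` -/

/-- the row of level `n - 1`, diagonal included -/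
def lowv91 {n : ℕ} (x : Un n) : V n := fun j => if j.val + 1 = n then 1 else Brg.en x (n - 1) j.val

theorem low_eq91 (α : Seq) (l n : ℕ) : low α l n = lowv91 (mm α l n) := by
  funext j
  have hj := j.isLt
  unfold low lowv91
  split_ifs with h
  · have : j.val = n - 1 := by omega
    rw [this, Mst_diag]
  · rw [Brg.en_mm α l (n - 1) j.val (by omega) (by omega)]

/-- one letter acts on the rows below `n` and on the set of the rows of level `n - 1` at the rings -/
def stp91 (n : ℕ) (p : ℕ × ZMod 2) (s : Un n × Finset (V n)) : Un n × Finset (V n) :=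
  (if p.2 = 0 then s.1 else Brg.ro p.1 s.1, if p.1 + 1 = n then insert (lowv91 s.1) s.2 else s.2)

theorem stp_triv91 (n b : ℕ) (c : ZMod 2) (s : Un n × Finset (V n)) (h : n ≤ b) :
    stp91 n (b, c) s = s := by
  unfold stp91
  rw [if_neg (show ¬(b, c).1 + 1 = n by simp only; omega)]
  have h1 : Brg.ro (b, c).1 s.1 = s.1 := Brg.ro_ge _ _ (by simp only; omega)
  rw [h1, ite_self]

theorem run_fst91 (n : ℕ) (α : Seq) (l : ℕ) :
    (run91 (stp91 n) ((0 : Un n), (∅ : Finset (V n))) α l).1 = mm α l n := by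
  induction l with
  | zero => exact (Brg.mm_zero α n).symm
  | succ l ih =>
    rw [Brg.mm_succ, ← ih]
    rfl

theorem run_snd91 (n : ℕ) (α : Seq) (l : ℕ) (x : V n) :
    x ∈ (run91 (stp91 n) ((0 : Un n), (∅ : Finset (V n))) α l).2 ↔
      ∃ i < l, (α i).1 + 1 = n ∧ x = low α i n := by
  induction l with
  | zero =>
    constructor
    · intro h
      exact absurd h (Finset.notMem_empty x)
    · rintro ⟨i, hi, _⟩
      exact absurd hi (Nat.not_lt_zero i)
  | succ l ih =>
    have e1 : (run91 (stp91 n) ((0 : Un n), (∅ : Finset (V n))) α (l + 1)).2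
        = if (α l).1 + 1 = n then insert (lowv91 (mm α l n))
            (run91 (stp91 n) ((0 : Un n), (∅ : Finset (V n))) α l).2
          else (run91 (stp91 n) ((0 : Un n), (∅ : Finset (V n))) α l).2 := by
      rw [← run_fst91 n α l]
      rfl
    rw [e1]
    split_ifs with h
    · rw [Finset.mem_insert, ih]
      constructor
      · rintro (h1 | ⟨i, hi, h1, h2⟩)
        · exact ⟨l, Nat.lt_succ_self l, h, by rw [h1, low_eq91]⟩
        · exact ⟨i, hi.trans (Nat.lt_succ_self l), h1, h2⟩
      · rintro ⟨i, hi, h1, h2⟩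
        rcases Nat.lt_succ_iff_lt_or_eq.mp hi with h3 | h3
        · exact Or.inr ⟨i, h3, h1, h2⟩
        · left
          rw [h2, h3, low_eq91]
    · rw [ih]
      constructor
      · rintro ⟨i, hi, h1, h2⟩
        exact ⟨i, hi.trans (Nat.lt_succ_self l), h1, h2⟩
      · rintro ⟨i, hi, h1, h2⟩
        rcases Nat.lt_succ_iff_lt_or_eq.mp hi with h3 | h3
        · exact ⟨i, h3, h1, h2⟩
        · rw [h3] at h1
          exact absurd h1 h

theorem span_run91 (n : ℕ) (α : Seq) (l : ℕ) :
    Submodule.span (ZMod 2)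
      ((run91 (stp91 n) ((0 : Un n), (∅ : Finset (V n))) α l).2 : Set (V n)) = TT α l n := by
  unfold TT
  congr 1
  ext x
  rw [Finset.mem_coe, run_snd91, Set.mem_ofPred_eq]

open Classical in
/-- indicator of a property of the span -/
noncomputable def F91 {n : ℕ} (E : Submodule (ZMod 2) (V n) → Prop)
    (s : Un n × Finset (V n)) : ℝ :=
  if E (Submodule.span (ZMod 2) (s.2 : Set (V n))) then 1 else 0

open Classical in
theorem F_run91 {n : ℕ} (E : Submodule (ZMod 2) (V n) → Prop) (α : Seq) (l : ℕ) :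
    F91 E (run91 (stp91 n) ((0 : Un n), (∅ : Finset (V n))) α l)
      = if E (TT α l n) then 1 else 0 := by
  unfold F91
  rw [span_run91]

theorem pr_eq91 {B l n : ℕ} (E : Submodule (ZMod 2) (V n) → Prop) :
    pr (uw B l) {ω : Wd B l | E (TT (ext ω) l n)}
      = ∑ ω : Wd B l, uw B l ω * F91 E (run91 (stp91 n) ((0 : Un n), (∅ : Finset (V n))) (ext ω) l) := by
  classical
  unfold pr tot ind
  refine Finset.sum_congr rfl fun ω _ => ?_
  rw [F_run91, Set.indicator_apply]
  simp only [Set.mem_ofPred_eq]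
  split_ifs
  · rw [mul_one]
  · rw [mul_zero]

theorem TT_congr91 {α β : Seq} {l n : ℕ} (h : ∀ i < l, α i = β i) : TT α l n = TT β l n := by
  rw [← span_run91, ← span_run91, run91_congr (stp91 n) _ l h]

theorem pr_succ91 {B l n : ℕ} (hB : 0 < B) (E : Submodule (ZMod 2) (V n) → Prop)
    (hE : ∀ T T', T ≤ T' → E T' → E T) :
    pr (uw B (l + 1)) {ω : Wd B (l + 1) | E (TT (ext ω) (l + 1) n)}
      ≤ pr (uw B l) {ω : Wd B l | E (TT (ext ω) l n)} := by
  classical
  have hB' : (0 : ℝ) < B := by exact_mod_cast hB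
  rw [pr_eq91, pr_eq91, Brg.sum_append]
  refine Finset.sum_le_sum fun a _ => ?_
  have h1 : ∀ c : Wd B 1, uw B (l + 1) (Fin.append a c) *
      F91 E (run91 (stp91 n) ((0 : Un n), (∅ : Finset (V n)))
        (ext (Fin.append a c : Wd B (l + 1))) (l + 1))
      ≤ 1 / ((B : ℝ) * 2) ^ (l + 1) *
        F91 E (run91 (stp91 n) ((0 : Un n), (∅ : Finset (V n))) (ext a) l) := by
    intro c
    rw [Brg.uw_eq]
    refine mul_le_mul_of_nonneg_left ?_ (by positivity)
    rw [F_run91, F_run91]
    have h2 : TT (ext a) l n ≤ TT (ext (Fin.append a c : Wd B (l + 1))) (l + 1) n := by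
      rw [← TT_congr91 fun i hi => Brg.ext_left a c i hi]
      exact TT_mono _ n (Nat.le_succ l)
    by_cases h3 : E (TT (ext (Fin.append a c : Wd B (l + 1))) (l + 1) n)
    · rw [if_pos h3, if_pos (hE _ _ h2 h3)]
    · rw [if_neg h3]
      split_ifs
      · exact zero_le_one
      · exact le_rfl
  refine (Finset.sum_le_sum fun c _ => h1 c).trans (le_of_eq ?_)
  rw [Finset.sum_const, Finset.card_univ, Brg.card_Wd, nsmul_eq_mul, Brg.uw_eq, pow_one]
  push_cast
  rw [pow_succ]
  field_simp

theorem pr_anti91 {B n : ℕ} (hB : 0 < B) (E : Submodule (ZMod 2) (V n) → Prop)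
    (hE : ∀ T T', T ≤ T' → E T' → E T) {l l' : ℕ} (h : l ≤ l') :
    pr (uw B l') {ω : Wd B l' | E (TT (ext ω) l' n)}
      ≤ pr (uw B l) {ω : Wd B l | E (TT (ext ω) l n)} := by
  induction l', h using Nat.le_induction with
  | base => exact le_rfl
  | succ l' _ ih => exact (pr_succ91 hB E hE).trans ih

/-! ### The transfer -/

/-- the rows of level `≥ n` of a matrix of `N` levels, as vectors of the levels `< n` -/
def rspan (N n : ℕ) (M : MM N) : Submodule (ZMod 2) (V n) :=
  Submodule.span (ZMod 2) {x | ∃ i : Fin N, i.val + n < N ∧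
    x = fun j : Fin n => M i ⟨N - 1 - j.val, by have := i.isLt; omega⟩}

theorem rspan_le_TT91 {N n : ℕ} (hN : n < N) (α : Seq) (l : ℕ) :
    rspan N n (toMat N (mm α l N)) ≤ TT α l n := by
  unfold rspan
  rw [Submodule.span_le]
  rintro x ⟨i, hi, rfl⟩
  have h1 : n ≤ N - 1 - i.val := by omega
  have h2 : (fun j : Fin n => toMat N (mm α l N) i ⟨N - 1 - j.val, by have := i.isLt; omega⟩)
      = cut h1 (row α l (N - 1 - i.val)) := by
    funext j
    have hj := j.isLt
    rw [Brg.toMat_apply, if_pos (by simp only; omega), Brg.en_mm α l _ _ (by omega)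
      (by simp only; omega)]
    show Mst α l (N - 1 - i.val) (N - 1 - (N - 1 - j.val)) = Mst α l (N - 1 - i.val) j.val
    congr 1
    omega
  rw [h2]
  exact row_mem_TT α l n _ h1

open Classical in
/-- the Poisson mixture for a function of the array -/
theorem mix91 {N : ℕ} (hN : 2 ≤ N) {t : ℝ} (ht : 0 ≤ t) (φ : Un N → ℝ) :
    HasSum (fun L : ℕ => pois ((N - 1 : ℕ) * t) L *
      ∑ ω : Wd (N - 1) L, uw (N - 1) L ω * φ (mm (ext ω) L N))
      (∑ x : Un N, φ x * pm N t (toMat N x)) := by
  have h1 : ∀ x ∈ (Finset.univ : Finset (Un N)), HasSum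
      (fun L : ℕ => φ x * (pois ((N - 1 : ℕ) * t) L * lw (N - 1) L N x))
      (φ x * pm N t (toMat N x)) := by
    intro x _
    rw [← CutFull.ct_eq_pm hN]
    exact (ct_hasSum (N - 1) N (by omega) (by omega) ht x).mul_left _
  have h2 := hasSum_sum h1
  refine h2.congr_fun ?_ |> fun h' => h'
  intro L
  rw [← Brg.sum_mass_mul (uw (N - 1) L) (fun ω => mm (ext ω) L N) φ, Finset.mul_sum]
  refine Finset.sum_congr rfl fun x _ => ?_
  unfold lw
  ring

open Classical in
/-- **transfer**: letters and continuous time -/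
theorem transfer91 {B N n l : ℕ} (hB : 0 < B) (hn : 0 < n) (hnB : n ≤ B) (hN : n < N) {t : ℝ}
    (ht : 0 ≤ t) (hl : (B : ℝ) * t < l) (hl2 : 2 * ((B : ℝ) * t) ≤ ((l : ℝ) - B * t) ^ 2)
    (E : Submodule (ZMod 2) (V n) → Prop) (hE : ∀ T T', T ≤ T' → E T' → E T) :
    pr (uw B l) {ω : Wd B l | E (TT (ext ω) l n)}
      ≤ 2 * EE N t (fun M => if E (rspan N n M) then (1 : ℝ) else 0) := by
  set s0 : Un n × Finset (V n) := ((0 : Un n), (∅ : Finset (V n))) with hs0
  set G : ℝ := Sg (stk91 (stp91 n) n) t (F91 E) s0 with hG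
  have hx : 0 ≤ (B : ℝ) * t := by positivity
  -- below
  have hA := hasSum91 (stp91 n) s0 hB hnB (fun b c s h => stp_triv91 n b c s h) t (F91 E)
  have hA' : ∀ L : ℕ, pois (B * t) L * ∑ ω : Wd B L, uw B L ω * F91 E (run91 (stp91 n) s0 (ext ω) L)
      = pois (B * t) L * pr (uw B L) {ω : Wd B L | E (TT (ext ω) L n)} := by
    intro L
    rw [pr_eq91]
  have hnn : ∀ L : ℕ, 0 ≤ pr (uw B L) {ω : Wd B L | E (TT (ext ω) L n)} := by
    intro L
    rw [pr_eq91]
    refine Finset.sum_nonneg fun ω _ => mul_nonneg ?_ ?_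
    · rw [Brg.uw_eq]
      positivity
    · rw [F_run91]
      split_ifs
      · exact zero_le_one
      · exact le_rfl
  have h1 : ∑ L ∈ range (l + 1), pois (B * t) L * pr (uw B L) {ω : Wd B L | E (TT (ext ω) L n)}
      ≤ G := by
    have h2 := sum_le_hasSum (range (l + 1)) (fun L _ => ?_) hA
    · refine le_trans (le_of_eq ?_) h2
      exact Finset.sum_congr rfl fun L _ => (hA' L).symm
    · rw [hA' L]
      exact mul_nonneg (pois_nonneg hx L) (hnn L)
  have h2 : pr (uw B l) {ω : Wd B l | E (TT (ext ω) l n)} * ∑ L ∈ range (l + 1), pois (B * t) L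
      ≤ G := by
    refine le_trans ?_ h1
    rw [Finset.mul_sum]
    refine Finset.sum_le_sum fun L hL => ?_
    rw [mul_comm]
    refine mul_le_mul_of_nonneg_left ?_ (pois_nonneg hx L)
    exact pr_anti91 hB E hE (Nat.lt_succ_iff.mp (mem_range.mp hL))
  have h3 : 1 / 2 ≤ ∑ L ∈ range (l + 1), pois (B * t) L := by
    have h4 : (1 : ℝ) ≤ ∑ L ∈ range (l + 1), pois (B * t) L + 1 / 2 := by
      refine hasSum_le_of_sum_le (pois_hasSum ((B : ℝ) * t)) fun s => ?_
      rw [← Finset.sum_filter_add_sum_filter_not s (fun L => L ∈ range (l + 1))]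
      refine add_le_add ?_ ?_
      · refine Finset.sum_le_sum_of_subset_of_nonneg ?_ fun L _ _ => pois_nonneg hx L
        intro L hL
        exact (Finset.mem_filter.mp hL).2
      · have hW : (0 : ℝ) < (l : ℝ) - B * t := by linarith
        refine (pois_tail hx hW _ fun L hL => ?_).trans ?_
        · have h5 := (Finset.mem_filter.mp hL).2
          rw [mem_range, not_lt] at h5
          have h6 : (l : ℝ) + 1 ≤ L := by exact_mod_cast h5
          refine le_trans ?_ (le_abs_self _)
          linarith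
        · rw [div_le_iff₀ (by positivity)]
          linarith
    linarith
  have h4 : pr (uw B l) {ω : Wd B l | E (TT (ext ω) l n)} ≤ 2 * G := by
    have h5 := hnn l
    nlinarith
  refine h4.trans (mul_le_mul_of_nonneg_left ?_ (by norm_num))
  -- above
  have hC := hasSum91 (stp91 n) s0 (show 0 < N - 1 by omega) (show n ≤ N - 1 by omega)
    (fun b c s h => stp_triv91 n b c s h) t (F91 E)
  set φ : Un N → ℝ := fun x => if E (rspan N n (toMat N x)) then 1 else 0 with hφ
  have hφ0 : ∀ x, 0 ≤ φ x := by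
    intro x
    rw [hφ]
    simp only
    split_ifs
    · exact zero_le_one
    · exact le_rfl
  have hD := mix91 (show 2 ≤ N by omega) ht φ
  have h5 : G ≤ ∑ x : Un N, φ x * pm N t (toMat N x) := by
    refine hasSum_le (fun L => ?_) hC hD
    refine mul_le_mul_of_nonneg_left ?_ (pois_nonneg (by positivity) L)
    refine Finset.sum_le_sum fun ω _ => ?_
    refine mul_le_mul_of_nonneg_left ?_ (by rw [Brg.uw_eq]; positivity)
    rw [F_run91, hφ]
    simp only
    by_cases h6 : E (TT (ext ω) L n)
    · rw [if_pos h6, if_pos (hE _ _ (rspan_le_TT91 hN (ext ω) L) h6)]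
    · rw [if_neg h6]
      split_ifs
      · exact zero_le_one
      · exact le_rfl
  refine h5.trans ?_
  rw [CutFull.EE_expand, ← Finset.sum_image (s := Finset.univ) (g := toMat N)
      (f := fun M : MM N => (if E (rspan N n M) then (1 : ℝ) else 0) * pm N t M)
      (fun x _ y _ hxy => toMat_injective N hxy)]
  refine (Finset.sum_le_sum_of_subset_of_nonneg (Finset.subset_univ _) fun M _ _ => ?_).trans
    (le_of_eq ?_)
  · have := Pool.Agent.Helper8.UT.pm_nonneg N ht M
    split_ifs
    · rw [one_mul]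
      exact this
    · rw [zero_mul]
  · refine Finset.sum_congr rfl fun M _ => ?_
    rw [mul_comm]


/-! ### Ranks -/

open Pool.Agent.NJ (pfL pfL_apply)

/-- coordinates reversed and padded by zeros -/
def padR91 (N y : ℕ) : V y →ₗ[ZMod 2] (Fin N → ZMod 2) where
  toFun x := fun j => if h : N - 1 - j.val < y then x ⟨N - 1 - j.val, h⟩ else 0
  map_add' x x' := by
    funext j
    simp only [Pi.add_apply]
    split_ifs
    · rfl
    · rw [add_zero]
  map_smul' c x := by
    funext j
    simp only [Pi.smul_apply, RingHom.id_apply, smul_eq_mul]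
    split_ifs
    · rfl
    · rw [mul_zero]

theorem padR_inj91 {N y : ℕ} (hy : y ≤ N) : Function.Injective (padR91 N y) := by
  intro x x' h
  funext j
  have hj := j.isLt
  have h1 := congrFun h ⟨N - 1 - j.val, by omega⟩
  have e : N - 1 - (N - 1 - j.val) = j.val := by omega
  have h2 : ∀ z : V y, padR91 N y z ⟨N - 1 - j.val, by omega⟩ = z j := by
    intro z
    show (if h : N - 1 - (N - 1 - j.val) < y then z ⟨N - 1 - (N - 1 - j.val), h⟩ else 0) = z j
    rw [dif_pos (by omega)]
    congr 1
    exact Fin.ext e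
  rw [h2, h2] at h1
  exact h1

/-- the rank of the rows of level `≥ n` on the levels `< y` is a corner rank -/
theorem finrank_rspan91 {N n y : ℕ} (hy : y ≤ n) (hN : n < N) (M : MM N) :
    Module.finrank (ZMod 2) (Submodule.map (pfL n y) (rspan N n M))
      = CutFull.crk (N - n) (N - y) M := by
  have hrow : ∀ i : Fin N, i.val + n < N →
      padR91 N y (pfL n y (fun j : Fin n => M i ⟨N - 1 - j.val, by have := i.isLt; omega⟩))
        = (CutFull.cblk (N - n) (N - y) M).row i := by
    intro i hi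
    funext j
    have hj := j.isLt
    show (if h : N - 1 - j.val < y then _ else 0)
      = if i.val < N - n ∧ N - y ≤ j.val then M i j else 0
    by_cases h : N - 1 - j.val < y
    · rw [dif_pos h, if_pos ⟨by omega, by omega⟩, pfL_apply n y _ _ (by simp only; omega)]
      congr 1
      exact Fin.ext (by simp only; omega)
    · rw [dif_neg h, if_neg (fun h' => h (by omega))]
  have h0 : ∀ i : Fin N, ¬ i.val + n < N → (CutFull.cblk (N - n) (N - y) M).row i = 0 := by
    intro i hi
    funext j
    show (if i.val < N - n ∧ N - y ≤ j.val then M i j else 0) = 0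
    rw [if_neg (fun h' => hi (by omega))]
  have h1 : Submodule.map (padR91 N y) (Submodule.map (pfL n y) (rspan N n M))
      = Submodule.span (ZMod 2) (Set.range (CutFull.cblk (N - n) (N - y) M).row) := by
    apply le_antisymm
    · unfold rspan
      rw [Submodule.map_span, Submodule.map_span, Submodule.span_le]
      rintro _ ⟨_, ⟨x, ⟨i, hi, rfl⟩, rfl⟩, rfl⟩
      rw [hrow i hi]
      exact Submodule.subset_span ⟨i, rfl⟩
    · rw [Submodule.span_le]
      rintro _ ⟨i, rfl⟩
      by_cases hi : i.val + n < N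
      · rw [← hrow i hi]
        exact Submodule.mem_map_of_mem (Submodule.mem_map_of_mem
          (Submodule.subset_span ⟨i, hi, rfl⟩))
      · rw [h0 i hi]
        exact Submodule.zero_mem _
  unfold CutFull.crk
  rw [Matrix.rank_eq_finrank_span_row, ← h1]
  exact (LinearEquiv.finrank_eq
    (Submodule.equivMapOfInjective (padR91 N y) (padR_inj91 (by omega)) _)).symm ▸ rfl

open Classical in
/-- **transfer** for the number of leads in a window -/
theorem leads_transfer91 {B N n l : ℕ} (hB : 0 < B) (hn : 0 < n) (hnB : n ≤ B) (hN : n < N) {t : ℝ}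
    (ht : 0 ≤ t) (hl : (B : ℝ) * t < l) (hl2 : 2 * ((B : ℝ) * t) ≤ ((l : ℝ) - B * t) ^ 2)
    {b y : ℕ} (hby : b ≤ y) (hy : y ≤ n) (c : ℝ) :
    pr (uw B l) {ω : Wd B l |
        (Module.finrank (ZMod 2) (Submodule.map (pfL n y) (TT (ext ω) l n)) : ℝ)
          - Module.finrank (ZMod 2) (Submodule.map (pfL n b) (TT (ext ω) l n)) < c}
      ≤ 2 * EE N t (fun M =>
        if (CutFull.crk (N - n) (N - y) M : ℝ) - CutFull.crk (N - n) (N - b) M < c
        then (1 : ℝ) else 0) := by
  have h := transfer91 hB hn hnB hN ht hl hl2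
    (fun T => (Module.finrank (ZMod 2) (Submodule.map (pfL n y) T) : ℝ)
      - Module.finrank (ZMod 2) (Submodule.map (pfL n b) T) < c) (fun T T' hT hT' => ?_)
  · refine h.trans (le_of_eq ?_)
    congr 1
    congr 1
    funext M
    rw [finrank_rspan91 hy hN, finrank_rspan91 (hby.trans hy) hN]
  · have h1 := Pool.Agent.NJ.leads_mono T' T hT hby
    have h2 : ((Pool.Agent.NJ.dp T y + Pool.Agent.NJ.dp T' b : ℕ) : ℝ)
        ≤ ((Pool.Agent.NJ.dp T' y + Pool.Agent.NJ.dp T b : ℕ) : ℝ) := by exact_mod_cast h1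
    push_cast at h2
    unfold Pool.Agent.NJ.dp at h2
    have h3 := hT'
    linarith

end Pool.Agent.CutSeq.NJ
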