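import Pool.Agent.NJ.HolAsm48
import Pool.Agent.NJ.He91

/-!
S19271 / TARGET B, HOLES: the row (T) in the form of `HolAsm48`.
-/

set_option autoImplicit false

namespace Pool.Agent.CutSeq.NJ

open Finset Pool.Agent.CutSeq Pool.Agent.Helper8.UT Pool.Agent.CutFull Pool.Agent.NJ

theorem rspan_top91 (n : ℕ) (M : MM n) : rspan n n M = ⊥ := by
  unfold rspan
  rw [Submodule.span_eq_bot]
  rintro x ⟨i, hi, _⟩
  omega

theorem hR48_91 (M n y : ℕ) (A : MM M) (hy : y ≤ n) (hn : n ≤ M) :
    dp (rspan M n A) y = crk (M - n) (M - y) A := by
  rcases lt_or_eq_of_le hn with h | h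
  · exact finrank_rspan91 hy h A
  · subst h
    have h1 : CutFull.cblk (n - n) (n - y) A = 0 := by
      funext i j
      unfold cblk
      rw [if_neg (fun h' => by omega)]
      rfl
    unfold dp crk
    rw [rspan_top91, h1, Submodule.map_bot, finrank_bot, Matrix.rank_zero]

theorem rspan_zero91 (N : ℕ) (M : MM N) : rspan N 0 M = ⊥ := Subsingleton.elim _ _

open Classical in
theorem tr48_91 : Tr48 rspan := by
  intro B M n l hB hnB hnM t ht hl hl2 E hE
  rcases Nat.eq_zero_or_pos n with hn | hn
  · subst hn
    have h1 : pr (uw B l) {ω : Wd B l | E (TT (ext ω) l 0)} ≤ if E ⊥ then 1 else 0 := by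
      have h2 : ∀ ω : Wd B l, TT (ext ω) l 0 = ⊥ := fun ω => Subsingleton.elim _ _
      by_cases h3 : E ⊥
      · rw [if_pos h3]
        have h4 : pr (uw B l) {ω : Wd B l | E (TT (ext ω) l 0)} ≤ tot (uw B l) := by
          unfold pr tot ind
          refine Finset.sum_le_sum fun ω _ => ?_
          refine Set.indicator_le_self' (fun _ _ => ?_) ω
          rw [Brg.uw_eq]
          positivity
        rwa [Brg.tot_uw B l hB] at h4
      · rw [if_neg h3]
        unfold pr tot ind
        refine le_of_eq (Finset.sum_eq_zero fun ω _ => ?_)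
        rw [Set.indicator_of_notMem]
        intro h4
        rw [Set.mem_ofPred_eq, h2] at h4
        exact h3 h4
    refine h1.trans ?_
    have h5 : EE M t (fun A => if E (rspan M 0 A) then (1 : ℝ) else 0)
        = if E ⊥ then 1 else 0 := by
      have h6 : (fun A : MM M => if E (rspan M 0 A) then (1 : ℝ) else 0)
          = fun _ => if E ⊥ then 1 else 0 := by
        funext A
        rw [rspan_zero91]
      rw [h6, EE_const ht]
    rw [h5]
    split_ifs <;> norm_num
  · rcases lt_or_eq_of_le hl with h | h
    · exact transfer91 hB hn hnB hnM ht h hl2 E hE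
    · have hB' : (0 : ℝ) < B := by exact_mod_cast hB
      rw [h, sub_self] at hl2
      have hl0 : (l : ℝ) = 0 := by
        have : (0 : ℝ) ≤ l := Nat.cast_nonneg l
        nlinarith
      have ht0 : t = 0 := by
        rw [hl0] at h
        rcases mul_eq_zero.mp h with h' | h'
        · exact absurd h' hB'.ne'
        · exact h'
      have hl1 : l = 0 := by exact_mod_cast hl0
      subst hl1
      subst ht0
      have e1 : EE M 0 (fun A => if E (rspan M n A) then (1 : ℝ) else 0)
          = if E (rspan M n 1) then 1 else 0 := by
        unfold EE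
        rw [Sg_zero]
      have e2 : ∀ ω : Wd B 0, TT (ext ω) 0 n = ⊥ := by
        intro ω
        unfold TT
        rw [Submodule.span_eq_bot]
        rintro x ⟨i, hi, _⟩
        exact absurd hi (Nat.not_lt_zero i)
      have e3 : rspan M n (1 : MM M) = ⊥ := by
        unfold rspan
        rw [Submodule.span_eq_bot]
        rintro x ⟨i, hi, rfl⟩
        funext j
        have hj := j.isLt
        show (1 : MM M) i ⟨M - 1 - j.val, _⟩ = 0
        refine Matrix.one_apply_ne (fun h' => ?_)
        have := congrArg Fin.val h'
        simp only at this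
        omega
      rw [e1, e3]
      have h4 : pr (uw B 0) {ω : Wd B 0 | E (TT (ext ω) 0 n)} ≤ if E ⊥ then 1 else 0 := by
        by_cases h3 : E ⊥
        · rw [if_pos h3]
          have h4 : pr (uw B 0) {ω : Wd B 0 | E (TT (ext ω) 0 n)} ≤ tot (uw B 0) := by
            unfold pr tot ind
            refine Finset.sum_le_sum fun ω _ => ?_
            refine Set.indicator_le_self' (fun _ _ => ?_) ω
            rw [Brg.uw_eq]
            positivity
          rwa [Brg.tot_uw B 0 hB] at h4
        · rw [if_neg h3]
          unfold pr tot ind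
          refine le_of_eq (Finset.sum_eq_zero fun ω _ => ?_)
          rw [Set.indicator_of_notMem]
          intro h4
          rw [Set.mem_ofPred_eq, e2] at h4
          exact h3 h4
      refine h4.trans ?_
      split_ifs <;> norm_num

end Pool.Agent.CutSeq.NJ
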