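import Pool.Agent.NJ.HolAsm48
import Pool.Agent.NJ.HolL43
import Pool.Agent.NJ.HolS71
import Pool.Agent.NJ.HolPG62
import Pool.Agent.NJ.HolT91
import Pool.Agent.NJ.HU34

/-!
S19271 / TARGET B, HOLES (helper48): the final statement, and its form with `dpf`.
-/

set_option autoImplicit false

namespace Pool.Agent.CutSeq.NJ

open Finset Pool.Agent.CutSeq Pool.Agent.Helper8.UT Pool.Agent.CutFull Pool.Agent.NJ

/-- **HOLES** -/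
theorem holes48 : ∃ c : ℝ, 0 < c ∧ c ≤ 1 ∧ ∀ κ δ : ℝ, 0 < κ → 0 < δ → ∃ N0 : ℕ, ∀ N : ℕ, N0 ≤ N →
      ∀ n l b y : ℕ, n ≤ 2 * N → 6 * (n * (4 * N)) ≤ l → (b : ℝ) + κ * N ≤ y → y ≤ n →
      pr (uw (4 * N) l) {ω | (Pool.Agent.NJ.rho (ext ω) l y n : ℝ) - Pool.Agent.NJ.rho (ext ω) l b n < c * ((y : ℝ) - b)} ≤ δ :=
  holes_of lln48_43 slope48_71 pos48_62 (fun M n A => rspan M n A) tr48_91
    (fun M n y A hy hn => hR48_91 M n y A hy hn)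

theorem rho_eq_dpf48 (α : Seq) (l y n : ℕ) : Pool.Agent.NJ.rho α l y n = dpf y (TT α l n) := by
  unfold dpf Pool.Agent.NJ.rho
  congr 2

/-- **HOLES**, in the form of `HolesP37` -/
theorem holes48' : ∃ c : ℝ, 0 < c ∧ ∀ κ δ : ℝ, 0 < κ → 0 < δ → ∃ N0 : ℕ, ∀ N : ℕ, N0 ≤ N →
      ∀ n l : ℕ, n ≤ 2 * N → 6 * (n * (4 * N)) ≤ l → ∀ b y : ℕ, (b : ℝ) + κ * N ≤ y → y ≤ n →
      pr (uw (4 * N) l) {ω | (dpf y (TT (ext ω) l n) : ℝ) - dpf b (TT (ext ω) l n) <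
        c * ((y : ℝ) - b)} ≤ δ := by
  obtain ⟨c, hc, _, H⟩ := holes48
  refine ⟨c, hc, ?_⟩
  intro κ δ hκ hδ
  obtain ⟨N0, hN0⟩ := H κ δ hκ hδ
  refine ⟨N0, ?_⟩
  intro N hN n l hn hl b y hby hy
  have h := hN0 N hN n l b y hn hl hby hy
  simpa only [rho_eq_dpf48] using h

end Pool.Agent.CutSeq.NJ
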