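import Pool.Agent.NJ.EndB46
import Pool.Agent.NJ.B.Upm58

/-!
S19271, target B: `AntiB` (the information of the next row decreases in time) and the glue
UP + DISP => `WinB`.
-/

set_option autoImplicit false

namespace Pool.Agent.CutSeq.NJ

open Finset

theorem antiB46 : AntiB := by
  intro B n l l' hn hl
  obtain ⟨S, rfl⟩ := Nat.exists_eq_add_of_le hl
  have h := Pool.Agent.NJ.B.FF_time B S (by omega) (Pool.Agent.NJ.B.lwp B l n)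
    (Pool.Agent.NJ.B.lwp_nonneg B l n)
  rw [Pool.Agent.NJ.B.lwp_iter B l n S (by omega), Pool.Agent.NJ.B.FF_top_w2,
    Pool.Agent.NJ.B.FF_top_w2] at h
  exact h

/-- DISP, model form (helper16's (4)) -/
def DispB : Prop := ∃ c8 C3 : ℝ, 0 < c8 ∧ 0 ≤ C3 ∧ ∀ κ ε : ℝ, 0 < κ → κ ≤ 1 → 0 < ε →
  ∃ N₀ : ℕ, ∀ N ≥ N₀, ∀ n : ℕ, N ≤ n → n + 1 ≤ 2 * N → ∀ l : ℕ, 6 * (n * (4 * N)) ≤ l →
    c8 * ⌈κ * (N : ℝ)⌉₊ * (fB46 (4 * N) n l - C3 * ⌈κ * (N : ℝ)⌉₊) - ε * (N : ℝ) ^ 2 ≤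
      ∑ b ∈ range (n + 1), (KK (uw (4 * N) l) (fun ω => pfx b (row (ext ω) l n))
        (fun ω => mm (ext ω) l n) - KK (w2 (4 * N) l (⌈κ * (N : ℝ)⌉₊ * (4 * N)))
        (fun q => pfx b (Rt n q)) (fun q => (mm (ext q.1) l n, q.2)))

theorem winB46 (h : DispB) : WinB := by
  obtain ⟨c8, C3, hc8, hC3, h⟩ := h
  refine ⟨c8, 12, C3, hc8, by norm_num, hC3, fun κ ε hκ hκ1 hε => ?_⟩
  obtain ⟨N₀, hN₀⟩ := h κ ε hκ hκ1 hε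
  refine ⟨max N₀ 1, fun N hN n hn hn2 l hl => ?_⟩
  have hN1 : 1 ≤ N := (le_max_right _ _).trans hN
  have hNR : (1 : ℝ) ≤ N := by exact_mod_cast hN1
  have h1 := hN₀ N ((le_max_left _ _).trans hN) n hn hn2 l hl
  have h2 := Pool.Agent.NJ.B.upm58 (4 * N) l n (⌈κ * (N : ℝ)⌉₊ * (4 * N)) (by omega) (by omega)
  refine h1.trans (h2.trans (le_of_eq ?_))
  have e1 : ((⌈κ * (N : ℝ)⌉₊ * (4 * N) : ℕ) : ℝ) / ((4 * N : ℕ) : ℝ) = ⌈κ * (N : ℝ)⌉₊ := by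
    push_cast
    field_simp
  have e2 : ((⌈κ * (N : ℝ)⌉₊ * (4 * N) : ℕ) : ℝ) / (2 * ((4 * N : ℕ) : ℝ)) = ⌈κ * (N : ℝ)⌉₊ / 2 := by
    push_cast
    field_simp
  rw [e1, e2]
  show 12 * √(⌈κ * (N : ℝ)⌉₊ * fB46 (4 * N) n l * (pB46 (4 * N) (n + 1) l -
    pB46 (4 * N) (n + 1) (l + ⌈κ * (N : ℝ)⌉₊ * (4 * N)))) + _ = _
  congr 3
  ring

/-- NOJUMP from DISP -/
theorem noJumpB46 (h : DispB) : NoJumpB := noJump46 (winB46 h) antiB46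

end Pool.Agent.CutSeq.NJ
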