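import Pool.Agent.NJ.Fin77
import Pool.Agent.NJ.WinB46
import Pool.Agent.NJ.DispB37
import Pool.Agent.NJ.HolFin48

/-!
S19271, closing step: the NOJUMP estimate without hypotheses.
-/

set_option autoImplicit false

namespace Pool.Agent.CutSeq.NJ

/-- DISP -/
theorem dispB77 : DispB := by
  obtain ⟨c8, C3, h8, h3, h⟩ := dispM37 holes48
  exact ⟨c8, C3, h8, h3, fun kap eps hk hk1 he => h kap eps hk he hk1⟩

/-- **NOJUMP** -/
theorem noJumpB77 : NoJumpB := noJumpB46 dispB77

end Pool.Agent.CutSeq.NJ
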