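import Pool.Agent.CutSeq.Defs

/-!
Closure lemma (page NOJUNK2, section 4): two siblings which are almost independent are almost
uniform on a subspace.
-/

set_option autoImplicit false

namespace Pool.Agent.NJ

open Finset Pool.Agent.CutSeq

section Clos

variable {n : ℕ}

lemma v_add_self (y : V n) : y + y = 0 := by
  funext i
  exact CharTwo.add_self_eq_zero (y i)

lemma v_add_add (x y : V n) : x + y + y = x := by
  rw [add_assoc, v_add_self, add_zero]

lemma sum_shift (f : V n → ℝ) (y : V n) : ∑ x, f (x + y) = ∑ x, f x :=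
  Fintype.sum_equiv (Equiv.addRight y) _ _ fun _ => rfl

/-- total variation (times two) of a law and its translate -/
noncomputable def nrm (P : V n → ℝ) (y : V n) : ℝ := ∑ x, |P x - P (x + y)|

lemma nrm_nonneg (P : V n → ℝ) (y : V n) : 0 ≤ nrm P y := Finset.sum_nonneg fun _ _ => abs_nonneg _

lemma nrm_zero (P : V n → ℝ) : nrm P 0 = 0 := by
  simp [nrm]

lemma nrm_add (P : V n → ℝ) (y z : V n) : nrm P (y + z) ≤ nrm P y + nrm P z := by
  have h : nrm P z = ∑ x, |P (x + y) - P (x + y + z)| := by
    rw [nrm, ← sum_shift (fun x => |P x - P (x + z)|) y]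
  rw [h, nrm, nrm, ← Finset.sum_add_distrib]
  refine Finset.sum_le_sum fun x _ => ?_
  rw [← add_assoc]
  exact abs_sub_le _ _ _

/-- the mean norm is small -/
lemma nrm_mean (P : V n → ℝ) (J : V n → V n → ℝ) (hP : ∀ x, 0 ≤ P x)
    (hs : ∀ x y, J x y = J y x) (ht : ∀ x y, J x (x + y) = J x y) (e : ℝ)
    (he : ∑ x, ∑ y, |J x y - P x * P y| ≤ e) : ∑ y, P y * nrm P y ≤ 2 * e := by
  have h1 : ∀ x y, J (x + y) y = J x y := by
    intro x y
    rw [hs (x + y) y, add_comm x y, ht, hs]
  have h2 : ∑ y, P y * nrm P y = ∑ y, ∑ x, |P x * P y - P (x + y) * P y| := by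
    refine Finset.sum_congr rfl fun y _ => ?_
    rw [nrm, Finset.mul_sum]
    refine Finset.sum_congr rfl fun x _ => ?_
    rw [← sub_mul, abs_mul, abs_of_nonneg (hP y), mul_comm]
  have h3 : ∑ y, ∑ x, |J x y - P x * P y| ≤ e := by rwa [Finset.sum_comm]
  have h4 : ∑ y, ∑ x, |J (x + y) y - P (x + y) * P y| ≤ e := by
    refine le_trans (le_of_eq ?_) h3
    refine Finset.sum_congr rfl fun y _ => ?_
    exact sum_shift (fun x => |J x y - P x * P y|) y
  have h5 : ∑ y, ∑ x, |P x * P y - P (x + y) * P y| ≤
      ∑ y, ∑ x, (|J x y - P x * P y| + |J (x + y) y - P (x + y) * P y|) := by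
    refine Finset.sum_le_sum fun y _ => Finset.sum_le_sum fun x _ => ?_
    rw [h1]
    have := abs_sub_le (P x * P y) (J x y) (P (x + y) * P y)
    rw [abs_sub_comm (P x * P y) (J x y)] at this
    exact this
  rw [h2]
  refine h5.trans ?_
  simp only [Finset.sum_add_distrib]
  linarith

/-- the stabiliser -/
def stab (P : V n → ℝ) (e : ℝ) (he : e ≤ 1 / 256)
    (h : ∀ y, nrm P y ≤ 1 / 4 → nrm P y ≤ 32 * e) : Submodule (ZMod 2) (V n) where
  carrier := {y | nrm P y ≤ 1 / 4}
  add_mem' := by
    intro y z hy hz
    have h1 := h y hy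
    have h2 := h z hz
    have h3 := nrm_add P y z
    show nrm P (y + z) ≤ 1 / 4
    linarith
  zero_mem' := by
    show nrm P 0 ≤ 1 / 4
    rw [nrm_zero]
    norm_num
  smul_mem' := by
    intro c y hy
    have hc : c = 0 ∨ c = 1 := by
      revert c
      decide
    rcases hc with rfl | rfl
    · show nrm P ((0 : ZMod 2) • y) ≤ 1 / 4
      rw [zero_smul, nrm_zero]
      norm_num
    · rw [one_smul]
      exact hy

lemma mem_stab (P : V n → ℝ) (e : ℝ) (he : e ≤ 1 / 256)
    (h : ∀ y, nrm P y ≤ 1 / 4 → nrm P y ≤ 32 * e) (y : V n) :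
    y ∈ stab P e he h ↔ nrm P y ≤ 1 / 4 := Iff.rfl

open Classical in
/-- small norm is very small norm -/
lemma nrm_dich (P : V n → ℝ) (hP : ∀ x, 0 ≤ P x) (hP1 : ∑ x, P x = 1) (e : ℝ) (he0 : 0 ≤ e)
    (he : ∑ y, P y * nrm P y ≤ 2 * e) (z : V n) (hz : nrm P z ≤ 1 / 4) : nrm P z ≤ 32 * e := by
  by_contra hcon
  push Not at hcon
  -- the good set
  set G : V n → Prop := fun y => nrm P y ≤ 16 * e with hG
  have h1 : ∑ y, (if G y then 0 else P y) ≤ 1 / 8 := by
    rcases he0.eq_or_lt with h0 | h0
    · have h2 : ∀ y, P y * nrm P y = 0 := by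
        have h3 : ∑ y, P y * nrm P y = 0 := by
          refine le_antisymm ?_ (Finset.sum_nonneg fun y _ => mul_nonneg (hP y) (nrm_nonneg P y))
          rw [← h0] at he
          linarith
        intro y
        exact (Finset.sum_eq_zero_iff_of_nonneg
          (fun y _ => mul_nonneg (hP y) (nrm_nonneg P y))).1 h3 y (Finset.mem_univ _)
      have h4 : ∀ y, (if G y then 0 else P y) = 0 := by
        intro y
        by_cases hy : G y
        · rw [if_pos hy]
        · rw [if_neg hy]
          have h5 : 0 < nrm P y := by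
            have h6 : ¬ nrm P y ≤ 16 * e := hy
            push Not at h6
            rw [← h0] at h6
            linarith
          rcases mul_eq_zero.1 (h2 y) with h | h
          · exact h
          · exact absurd h h5.ne'
      simp only [h4, Finset.sum_const_zero]
      norm_num
    · have h2 : 16 * e * ∑ y, (if G y then 0 else P y) ≤ 2 * e := by
        refine le_trans ?_ he
        rw [Finset.mul_sum]
        refine Finset.sum_le_sum fun y _ => ?_
        by_cases hy : G y
        · rw [if_pos hy, mul_zero]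
          exact mul_nonneg (hP y) (nrm_nonneg P y)
        · rw [if_neg hy, mul_comm]
          have h6 : ¬ nrm P y ≤ 16 * e := hy
          push Not at h6
          exact mul_le_mul_of_nonneg_left h6.le (hP y)
      have h3 : 16 * e * ∑ y, (if G y then 0 else P y) ≤ 16 * e * (1 / 8) := by linarith
      exact le_of_mul_le_mul_left h3 (by linarith)
  have h2 : 7 / 8 ≤ ∑ y, (if G y then P y else 0) := by
    have h3 : ∑ y, (if G y then P y else 0) + ∑ y, (if G y then 0 else P y) = 1 := by
      rw [← hP1, ← Finset.sum_add_distrib]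
      refine Finset.sum_congr rfl fun y _ => ?_
      split <;> ring
    linarith
  have h3 : 5 / 8 ≤ ∑ y, (if G (y + z) then P y else 0) := by
    have h4 : ∑ y, (if G (y + z) then P y else 0) = ∑ y, (if G y then P (y + z) else 0) := by
      rw [← sum_shift (fun y => if G y then P (y + z) else 0) z]
      refine Finset.sum_congr rfl fun y _ => ?_
      rw [v_add_add]
    have h5 : ∑ y, (if G y then P y else 0) - ∑ y, (if G y then P (y + z) else 0) ≤ nrm P z := by
      rw [← Finset.sum_sub_distrib, nrm]
      refine Finset.sum_le_sum fun y _ => ?_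
      split
      · exact le_abs_self _
      · rw [sub_zero]
        exact abs_nonneg _
    rw [h4]
    linarith
  have h4 : ∃ y, G y ∧ G (y + z) := by
    by_contra hno
    push Not at hno
    have h5 : ∑ y, (if G y then P y else 0) + ∑ y, (if G (y + z) then P y else 0) ≤ 1 := by
      rw [← hP1, ← Finset.sum_add_distrib]
      refine Finset.sum_le_sum fun y _ => ?_
      by_cases hy : G y
      · rw [if_pos hy, if_neg (hno y hy), add_zero]
      · rw [if_neg hy, zero_add]
        split
        · exact le_refl _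
        · exact hP y
    linarith
  obtain ⟨y, hy1, hy2⟩ := h4
  have h5 : nrm P z ≤ nrm P y + nrm P (y + z) := by
    have h6 := nrm_add P y (y + z)
    rwa [← add_assoc, v_add_self, zero_add] at h6
  have h6 : nrm P y ≤ 16 * e := hy1
  have h7 : nrm P (y + z) ≤ 16 * e := hy2
  linarith

open Classical in
/-- (C1) the closure lemma -/
theorem clos (P : V n → ℝ) (J : V n → V n → ℝ) (hP : ∀ x, 0 ≤ P x) (hP1 : ∑ x, P x = 1)
    (hs : ∀ x y, J x y = J y x) (ht : ∀ x y, J x (x + y) = J x y) (e : ℝ)
    (he : ∑ x, ∑ y, |J x y - P x * P y| ≤ e) (hsmall : e ≤ 1 / 256) :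
    ∃ H : Submodule (ZMod 2) (V n), (∑ x, if x ∈ H then 0 else P x) ≤ 8 * e ∧
      ∑ x, |P x - uT H x| ≤ 48 * e := by
  have he0 : 0 ≤ e := le_trans (Finset.sum_nonneg fun x _ => Finset.sum_nonneg fun y _ =>
    abs_nonneg _) he
  have hmean := nrm_mean P J hP hs ht e he
  have hd := nrm_dich P hP hP1 e he0 hmean
  set H := stab P e hsmall hd with hH
  have hmem : ∀ y, y ∈ H ↔ nrm P y ≤ 1 / 4 := mem_stab P e hsmall hd
  have hout : (∑ x, if x ∈ H then 0 else P x) ≤ 8 * e := by
    have h1 : (1 / 4) * (∑ x, if x ∈ H then 0 else P x) ≤ 2 * e := by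
      refine le_trans ?_ hmean
      rw [Finset.mul_sum]
      refine Finset.sum_le_sum fun y _ => ?_
      by_cases hy : y ∈ H
      · rw [if_pos hy, mul_zero]
        exact mul_nonneg (hP y) (nrm_nonneg P y)
      · rw [if_neg hy, mul_comm]
        have h6 : ¬ nrm P y ≤ 1 / 4 := fun h => hy ((hmem y).2 h)
        push Not at h6
        exact mul_le_mul_of_nonneg_left h6.le (hP y)
    linarith
  refine ⟨H, hout, ?_⟩
  -- smoothing by the uniform law of the stabiliser
  have hcard : (0 : ℝ) < Nat.card H := by exact_mod_cast Nat.card_pos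
  have hcs : (Nat.card H : ℝ) = ∑ h : V n, if h ∈ H then (1 : ℝ) else 0 := by
    rw [Finset.sum_ite, Finset.sum_const_zero, add_zero, Finset.sum_const, nsmul_eq_mul, mul_one,
      Nat.card_eq_fintype_card, Fintype.card_subtype]
  have hsumuT : ∑ h : V n, uT H h = 1 := by
    unfold uT
    have h1 : ∀ h : V n, (if h ∈ H then 1 / (Nat.card H : ℝ) else 0) =
        (1 / (Nat.card H : ℝ)) * (if h ∈ H then 1 else 0) := by
      intro h
      split <;> simp
    simp only [h1]
    rw [← Finset.mul_sum, ← hcs]
    field_simp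
  have huT0 : ∀ h : V n, 0 ≤ uT H h := by
    intro h
    unfold uT
    split
    · positivity
    · exact le_refl _
  have hA : ∑ x, |P x - ∑ h, uT H h * P (x + h)| ≤ 32 * e := by
    have h1 : ∀ x, |P x - ∑ h, uT H h * P (x + h)| ≤ ∑ h, uT H h * |P x - P (x + h)| := by
      intro x
      have h2 : P x - ∑ h, uT H h * P (x + h) = ∑ h, uT H h * (P x - P (x + h)) := by
        simp only [mul_sub, Finset.sum_sub_distrib]
        rw [← Finset.sum_mul, hsumuT, one_mul]
      rw [h2]
      refine (Finset.abs_sum_le_sum_abs _ _).trans (le_of_eq ?_)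
      refine Finset.sum_congr rfl fun h _ => ?_
      rw [abs_mul, abs_of_nonneg (huT0 h)]
    refine (Finset.sum_le_sum fun x _ => h1 x).trans ?_
    rw [Finset.sum_comm]
    have h3 : ∀ h : V n, ∑ x, uT H h * |P x - P (x + h)| ≤ uT H h * (32 * e) := by
      intro h
      rw [← Finset.mul_sum]
      by_cases hh : h ∈ H
      · exact mul_le_mul_of_nonneg_left (hd h ((hmem h).1 hh)) (huT0 h)
      · have : uT H h = 0 := by
          unfold uT
          rw [if_neg hh]
        rw [this, zero_mul, zero_mul]
    refine (Finset.sum_le_sum fun h _ => h3 h).trans (le_of_eq ?_)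
    rw [← Finset.sum_mul, hsumuT, one_mul]
  -- the smoothed law
  have hB : ∑ x, |(∑ h, uT H h * P (x + h)) - uT H x| ≤ 16 * e := by
    have h0 : ∀ x, ∑ h, uT H h * P (x + h) = ∑ y, P y * uT H (x + y) := by
      intro x
      rw [← sum_shift (fun y => P y * uT H (x + y)) x]
      refine Finset.sum_congr rfl fun h _ => ?_
      have : x + (h + x) = h := by
        rw [add_comm h x, ← add_assoc, v_add_self, zero_add]
      rw [this, mul_comm, add_comm x h]
    have h1 : ∀ x, uT H x = ∑ y, P y * uT H x := by
      intro x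
      rw [← Finset.sum_mul, hP1, one_mul]
    have h2 : ∀ x, |(∑ h, uT H h * P (x + h)) - uT H x| ≤ ∑ y, P y * |uT H (x + y) - uT H x| := by
      intro x
      rw [h0, h1 x, ← Finset.sum_sub_distrib]
      refine (Finset.abs_sum_le_sum_abs _ _).trans (le_of_eq ?_)
      refine Finset.sum_congr rfl fun y _ => ?_
      rw [← h1 x, ← mul_sub, abs_mul, abs_of_nonneg (hP y)]
    refine (Finset.sum_le_sum fun x _ => h2 x).trans ?_
    rw [Finset.sum_comm]
    have h3 : ∀ y : V n, ∑ x, P y * |uT H (x + y) - uT H x| ≤ 2 * (if y ∈ H then 0 else P y) := by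
      intro y
      rw [← Finset.mul_sum]
      by_cases hy : y ∈ H
      · rw [if_pos hy]
        have h4 : ∀ x, uT H (x + y) = uT H x := by
          intro x
          unfold uT
          have : x + y ∈ H ↔ x ∈ H := by
            constructor
            · intro h
              have := H.add_mem h hy
              rwa [v_add_add] at this
            · intro h
              exact H.add_mem h hy
          simp only [this]
        simp only [h4, sub_self, abs_zero, Finset.sum_const_zero, mul_zero]
        exact le_refl _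
      · rw [if_neg hy]
        have h4 : ∑ x, |uT H (x + y) - uT H x| ≤ 2 := by
          have h5 : ∑ x, |uT H (x + y) - uT H x| ≤ ∑ x, (uT H (x + y) + uT H x) := by
            refine Finset.sum_le_sum fun x _ => ?_
            rw [abs_le]
            constructor
            · linarith [huT0 (x + y), huT0 x]
            · linarith [huT0 (x + y), huT0 x]
          refine h5.trans ?_
          rw [Finset.sum_add_distrib, sum_shift (fun x => uT H x) y, hsumuT]
          norm_num
        have := mul_le_mul_of_nonneg_left h4 (hP y)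
        linarith
    refine (Finset.sum_le_sum fun y _ => h3 y).trans ?_
    rw [← Finset.mul_sum]
    linarith
  have hC : ∑ x, |P x - uT H x| ≤ ∑ x, |P x - ∑ h, uT H h * P (x + h)| +
      ∑ x, |(∑ h, uT H h * P (x + h)) - uT H x| := by
    rw [← Finset.sum_add_distrib]
    exact Finset.sum_le_sum fun x _ => abs_sub_le _ _ _
  linarith

end Clos

end Pool.Agent.NJ
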