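import Pool.Agent.CutSeq.Ent

/-! Integration of an exponential tail over an event of small probability (page NOJUNK2, section 4). -/

set_option autoImplicit false

namespace Pool.Agent.NJ

open Finset Pool.Agent.CutSeq

variable {Ω : Type*} [Fintype Ω]

open Classical in
lemma pr_eq (w : Ω → ℝ) (A : Set Ω) : pr w A = ∑ ω, if ω ∈ A then w ω else 0 := by
  unfold pr tot ind
  refine Finset.sum_congr rfl fun ω _ => ?_
  by_cases h : ω ∈ A
  · rw [if_pos h, Set.indicator_of_mem h]
  · rw [if_neg h, Set.indicator_of_notMem h]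

lemma pr_nonneg (w : Ω → ℝ) (hw : ∀ ω, 0 ≤ w ω) (A : Set Ω) : 0 ≤ pr w A := by
  classical
  rw [pr_eq]
  refine Finset.sum_nonneg fun ω _ => ?_
  split
  · exact hw ω
  · exact le_refl _

lemma exp_neg_one_le : Real.exp (-1) ≤ 1 / 2 := by
  rw [Real.exp_neg, ← one_div]
  refine one_div_le_one_div_of_le (by norm_num) ?_
  have := Real.add_one_le_exp (1 : ℝ)
  linarith

lemma geom_exp (K : ℕ) : ∑ k ∈ range K, Real.exp (-(k : ℝ)) ≤ 2 := by
  have h : ∀ k : ℕ, Real.exp (-(k : ℝ)) = (Real.exp (-1)) ^ k := by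
    intro k
    rw [← Real.exp_nat_mul]
    congr 1
    ring
  simp only [h]
  have h0 : 0 ≤ Real.exp (-1) := (Real.exp_pos _).le
  have h1 : ∑ k ∈ range K, (Real.exp (-1)) ^ k ≤ ∑ k ∈ range K, ((1 : ℝ) / 2) ^ k :=
    Finset.sum_le_sum fun k _ => pow_le_pow_left₀ h0 exp_neg_one_le k
  exact h1.trans (sum_geometric_two_le K)

open Classical in
/-- one step: mean excess over a level -/
lemma excess (w : Ω → ℝ) (hw : ∀ ω, 0 ≤ w ω) (l : Ω → ℝ) (a v X M c : ℝ) (hv : 0 < v)
    (hX : 0 ≤ X) (hM : 0 ≤ M) (hc : 0 ≤ c) (hl : ∀ ω, w ω ≠ 0 → l ω ≤ M)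
    (htail : ∀ x, 0 ≤ x → x ≤ X → pr w {ω | x ≤ l ω} ≤ Real.exp (a - x / v)) :
    ∑ ω, w ω * max (l ω - c) 0 ≤ 2 * v * Real.exp (a - c / v) + M * Real.exp (a - X / v) := by
  set K : ℕ := if c ≤ X then ⌊(X - c) / v⌋₊ + 1 else 0 with hK
  -- pointwise
  have hpt : ∀ ω, w ω * max (l ω - c) 0 ≤
      v * ∑ k ∈ range K, (if c + k * v ≤ l ω then w ω else 0) + M * (if X ≤ l ω then w ω else 0) := by
    intro ω
    have hs0 : 0 ≤ ∑ k ∈ range K, (if c + (k : ℝ) * v ≤ l ω then w ω else 0) := by
      refine Finset.sum_nonneg fun k _ => ?_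
      split
      · exact hw ω
      · exact le_refl _
    have hs1 : 0 ≤ (if X ≤ l ω then w ω else 0) := by
      split
      · exact hw ω
      · exact le_refl _
    by_cases hω : w ω = 0
    · rw [hω, zero_mul]
      rw [hω] at hs0 hs1
      positivity
    have hlM := hl ω hω
    by_cases hlc : l ω ≤ c
    · rw [max_eq_right (by linarith), mul_zero]
      positivity
    push Not at hlc
    rw [max_eq_left (by linarith)]
    by_cases hXl : X ≤ l ω
    · rw [if_pos hXl]
      have h1 : w ω * (l ω - c) ≤ M * w ω := by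
        rw [mul_comm]
        exact mul_le_mul_of_nonneg_right (by linarith) (hw ω)
      have h2 : 0 ≤ v * ∑ k ∈ range K, (if c + (k : ℝ) * v ≤ l ω then w ω else 0) := by positivity
      linarith
    · rw [if_neg hXl, mul_zero, add_zero]
      push Not at hXl
      have hcX : c ≤ X := by linarith
      have hK' : K = ⌊(X - c) / v⌋₊ + 1 := by rw [hK, if_pos hcX]
      set j : ℕ := ⌊(l ω - c) / v⌋₊ + 1 with hj
      have hjK : j ≤ K := by
        rw [hK', hj]
        have : ⌊(l ω - c) / v⌋₊ ≤ ⌊(X - c) / v⌋₊ := Nat.floor_mono (by gcongr)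
        omega
      have h1 : (j : ℝ) * w ω ≤ ∑ k ∈ range K, (if c + (k : ℝ) * v ≤ l ω then w ω else 0) := by
        have h2 : ∑ k ∈ range j, (if c + (k : ℝ) * v ≤ l ω then w ω else 0) ≤
            ∑ k ∈ range K, (if c + (k : ℝ) * v ≤ l ω then w ω else 0) := by
          refine Finset.sum_le_sum_of_subset_of_nonneg ?_ fun k _ _ => ?_
          · intro k hk
            rw [Finset.mem_range] at hk ⊢
            omega
          · split
            · exact hw ω
            · exact le_refl _
        refine le_trans (le_of_eq ?_) h2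
        have h3 : ∀ k ∈ range j, (if c + (k : ℝ) * v ≤ l ω then w ω else 0) = w ω := by
          intro k hk
          rw [Finset.mem_range] at hk
          rw [if_pos]
          have h4 : k ≤ ⌊(l ω - c) / v⌋₊ := by omega
          have h5 : (k : ℝ) ≤ (l ω - c) / v := by
            refine le_trans (Nat.cast_le.2 h4) (Nat.floor_le ?_)
            exact div_nonneg (by linarith) hv.le
          rw [le_div_iff₀ hv] at h5
          linarith
        rw [Finset.sum_congr rfl h3, Finset.sum_const, Finset.card_range, nsmul_eq_mul]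
      have h2 : (l ω - c) ≤ v * j := by
        have h3 : (l ω - c) / v < j := by
          rw [hj]
          push_cast
          exact Nat.lt_floor_add_one _
        rw [div_lt_iff₀ hv] at h3
        linarith
      calc w ω * (l ω - c) ≤ w ω * (v * j) := mul_le_mul_of_nonneg_left h2 (hw ω)
        _ = v * (j * w ω) := by ring
        _ ≤ _ := mul_le_mul_of_nonneg_left h1 hv.le
  refine (Finset.sum_le_sum fun ω _ => hpt ω).trans ?_
  rw [Finset.sum_add_distrib, ← Finset.mul_sum, ← Finset.mul_sum, Finset.sum_comm]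
  have h1 : ∑ k ∈ range K, ∑ ω, (if c + (k : ℝ) * v ≤ l ω then w ω else 0) ≤
      2 * Real.exp (a - c / v) := by
    have h2 : ∀ k ∈ range K, ∑ ω, (if c + (k : ℝ) * v ≤ l ω then w ω else 0) ≤
        Real.exp (a - c / v) * Real.exp (-(k : ℝ)) := by
      intro k hk
      rw [Finset.mem_range] at hk
      have hcX : c ≤ X := by
        by_contra h
        rw [hK, if_neg h] at hk
        omega
      have hk2 : (k : ℝ) ≤ (X - c) / v := by
        have h4 : k ≤ ⌊(X - c) / v⌋₊ := by
          rw [hK, if_pos hcX] at hk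
          omega
        refine le_trans (Nat.cast_le.2 h4) (Nat.floor_le ?_)
        exact div_nonneg (by linarith) hv.le
      rw [le_div_iff₀ hv] at hk2
      have h5 := htail (c + k * v) (by positivity) (by linarith)
      rw [pr_eq] at h5
      refine le_trans (le_of_eq ?_) (h5.trans (le_of_eq ?_))
      · rfl
      · rw [← Real.exp_add]
        congr 1
        field_simp
        ring
    refine (Finset.sum_le_sum h2).trans ?_
    rw [← Finset.mul_sum, mul_comm]
    exact mul_le_mul_of_nonneg_right (geom_exp K) (Real.exp_pos _).le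
  have h2 : ∑ ω, (if X ≤ l ω then w ω else 0) ≤ Real.exp (a - X / v) := by
    have h5 := htail X hX le_rfl
    rw [pr_eq] at h5
    exact h5
  have h3 := mul_le_mul_of_nonneg_left h1 hv.le
  have h4 := mul_le_mul_of_nonneg_left h2 hM
  calc _ ≤ v * (2 * Real.exp (a - c / v)) + M * Real.exp (a - X / v) := add_le_add h3 h4
    _ = _ := by ring

open Classical in
/-- (C3) -/
theorem tail_int (w : Ω → ℝ) (hw : ∀ ω, 0 ≤ w ω) (l : Ω → ℝ) (a v X M : ℝ) (hv : 0 < v)
    (ha : 0 ≤ a) (hX : 0 ≤ X) (hM : 0 ≤ M) (hl : ∀ ω, w ω ≠ 0 → l ω ≤ M)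
    (htail : ∀ x, 0 ≤ x → x ≤ X → pr w {ω | x ≤ l ω} ≤ Real.exp (a - x / v))
    (A : Set Ω) (p : ℝ) (hp0 : 0 < p) (hp1 : p ≤ 1) (hA : pr w A ≤ p) :
    ∑ ω, A.indicator (fun ω => w ω * max (l ω) 0) ω ≤
      p * v * (a + Real.log (1 / p) + 2) + M * Real.exp (a - X / v) := by
  set c : ℝ := v * (a + Real.log (1 / p)) with hc
  have hlog : 0 ≤ Real.log (1 / p) := Real.log_nonneg (by rw [le_div_iff₀ hp0]; linarith)
  have hc0 : 0 ≤ c := by positivity
  have h1 := excess w hw l a v X M c hv hX hM hc0 hl htail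
  have h2 : Real.exp (a - c / v) = p := by
    have : a - c / v = Real.log p := by
      rw [hc, one_div, Real.log_inv]
      field_simp
      ring
    rw [this, Real.exp_log hp0]
  rw [h2] at h1
  have h3 : ∑ ω, A.indicator (fun ω => w ω * max (l ω) 0) ω ≤
      c * pr w A + ∑ ω, w ω * max (l ω - c) 0 := by
    rw [pr_eq, Finset.mul_sum, ← Finset.sum_add_distrib]
    refine Finset.sum_le_sum fun ω _ => ?_
    have h4 : 0 ≤ w ω * max (l ω - c) 0 := mul_nonneg (hw ω) (le_max_right _ _)
    by_cases hωA : ω ∈ A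
    · rw [if_pos hωA, Set.indicator_of_mem hωA]
      have h5 : max (l ω) 0 ≤ c + max (l ω - c) 0 := by
        refine max_le ?_ ?_
        · have := le_max_left (l ω - c) 0
          linarith
        · have := le_max_right (l ω - c) 0
          linarith
      have h6 := mul_le_mul_of_nonneg_left h5 (hw ω)
      linarith
    · rw [if_neg hωA, Set.indicator_of_notMem hωA]
      linarith
  have h4 : c * pr w A ≤ c * p := mul_le_mul_of_nonneg_left hA hc0
  have h5 : c * p + 2 * v * p = p * v * (a + Real.log (1 / p) + 2) := by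
    rw [hc]
    ring
  linarith

end Pool.Agent.NJ
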