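import Pool.Agent.NJ.Two86
import Pool.Agent.NJ.Tail86

/-!
Closure lemma, entropy form (page NOJUNK2, section 4): if two siblings are almost independent given
the data and the density of one sibling has an exponential tail, then the entropy defect of one
sibling is at most `log 2` times the mean dimension of the visible space, up to small terms.
-/

set_option autoImplicit false

namespace Pool.Agent.NJ

open Finset Pool.Agent.CutSeq

section Ent

variable {Ω B : Type*} [Fintype Ω] {n : ℕ}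

lemma card_sub (H : Submodule (ZMod 2) (V n)) :
    (Nat.card H : ℝ) = 2 ^ Module.finrank (ZMod 2) H := by
  have h := Module.natCard_eq_pow_finrank (K := ZMod 2) (V := H)
  rw [h]
  simp

lemma two_pow_uT (H : Submodule (ZMod 2) (V n)) {x : V n} (hx : x ∈ H) :
    (2 : ℝ) ^ n * uT H x = 2 ^ Module.finrank (ZMod 2) (perp H) := by
  unfold uT
  rw [if_pos hx, card_sub]
  have h1 := finrank_perp H
  have h2 : (2 : ℝ) ^ n = 2 ^ Module.finrank (ZMod 2) (perp H) * 2 ^ Module.finrank (ZMod 2) H := by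
    rw [← pow_add, h1]
  rw [h2]
  field_simp

lemma vdim_eq (w : Ω → ℝ) (T : Ω → Submodule (ZMod 2) (V n)) (Y : Ω → B) (y : B)
    (H : Submodule (ZMod 2) (V n)) (h : ∀ a, a ∈ perp H ↔ 1 / 2 ≤ post w T Y a y) :
    vdim w T Y y = Module.finrank (ZMod 2) (perp H) := by
  unfold vdim
  have h1 : {a : V n | (1 / 2 : ℝ) ≤ post w T Y a y} = (perp H : Set (V n)) := by
    ext a
    exact (h a).symm
  rw [h1, Submodule.span_eq]

lemma cl_le_one (w : Ω → ℝ) (hw : ∀ ω, 0 ≤ w ω) (T : Ω → Submodule (ZMod 2) (V n)) (Y : Ω → B)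
    (v : V n) (y : B) (hy : mass w Y y ≠ 0) : cl w T Y v y ≤ 1 := by
  rw [← sum_cl w T Y y hy]
  exact Finset.single_le_sum (f := fun v => cl w T Y v y)
    (fun v _ => cl_nonneg w hw T Y v y) (Finset.mem_univ v)

/-- sums over one sibling of a function of the sibling and the data -/
lemma sum_sib_one (w : Ω → ℝ) (hw : ∀ ω, 0 ≤ w ω) (T : Ω → Submodule (ZMod 2) (V n)) (Y : Ω → B)
    (g : V n → B → ℝ) : ∑ p, sib w T 1 p * g (p.2 0) (Y p.1) =
      ∑ ω, w ω * ∑ v, cl w T Y v (Y ω) * g v (Y ω) := by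
  rw [← tow1 w hw T Y g, sum_sib w T 1 (fun ω x => g (x 0) (Y ω))]
  refine Finset.sum_congr rfl fun ω _ => ?_
  rw [sum_prod_uT_coord (T ω) 1 0 (fun v => g v (Y ω))]

open Classical in
/-- the exceptional event has small probability -/
lemma exc_le (w : Ω → ℝ) (hw : ∀ ω, 0 ≤ w ω) (T : Ω → Submodule (ZMod 2) (V n)) (Y : Ω → B)
    (y : B) (hy : mass w Y y ≠ 0) (H : Submodule (ZMod 2) (V n))
    (h3 : dep w T Y y ≤ 1 / 256 → (∑ x, if x ∈ H then 0 else cl w T Y x y) ≤ 8 * dep w T Y y)
    (h4 : dep w T Y y ≤ 1 / 256 → ∑ x, |cl w T Y x y - uT H x| ≤ 48 * dep w T Y y) :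
    ∑ v, cl w T Y v y * (if ¬ dep w T Y y ≤ 1 / 256 ∨ v ∉ H ∨ 2 * uT H v < cl w T Y v y then 1 else 0)
      ≤ 256 * dep w T Y y := by
  have hd := dep_nonneg w T Y y
  by_cases hg : dep w T Y y ≤ 1 / 256
  · have h5 : ∀ v, cl w T Y v y *
        (if ¬ dep w T Y y ≤ 1 / 256 ∨ v ∉ H ∨ 2 * uT H v < cl w T Y v y then 1 else 0) ≤
        (if v ∈ H then 0 else cl w T Y v y) + 2 * |cl w T Y v y - uT H v| := by
      intro v
      have hc := cl_nonneg w hw T Y v y
      have hu := uT_nonneg H v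
      have ha := abs_nonneg (cl w T Y v y - uT H v)
      by_cases hv : v ∈ H
      · rw [if_pos hv]
        by_cases h6 : 2 * uT H v < cl w T Y v y
        · rw [if_pos (Or.inr (Or.inr h6))]
          have := le_abs_self (cl w T Y v y - uT H v)
          linarith
        · rw [if_neg (by
            rintro (h | h | h)
            · exact h hg
            · exact h hv
            · exact h6 h)]
          linarith
      · rw [if_neg hv, if_pos (Or.inr (Or.inl hv))]
        linarith
    refine (Finset.sum_le_sum fun v _ => h5 v).trans ?_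
    rw [Finset.sum_add_distrib, ← Finset.mul_sum]
    have h6 := h3 hg
    have h7 := h4 hg
    linarith
  · have h5 : ∀ v, cl w T Y v y *
        (if ¬ dep w T Y y ≤ 1 / 256 ∨ v ∉ H ∨ 2 * uT H v < cl w T Y v y then 1 else 0) =
        cl w T Y v y := by
      intro v
      rw [if_pos (Or.inl hg), mul_one]
    simp only [h5]
    rw [sum_cl w T Y y hy]
    push Not at hg
    linarith

open Classical in
/-- (C4) closure lemma, entropy form -/
theorem clos_ent (w : Ω → ℝ) (hw : ∀ ω, 0 ≤ w ω) (htot : tot w ≤ 1)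
    (T : Ω → Submodule (ZMod 2) (V n)) (Y : Ω → B) (z : ℝ)
    (hz : KK (sib w T 2) (fun p => p.2) (fun p => Y p.1) -
      2 * KK (sib w T 1) (fun p => p.2) (fun p => Y p.1) ≤ z)
    (a v X M : ℝ) (hv : 0 < v) (ha : 0 ≤ a) (hX : 0 ≤ X) (hM : Real.log 2 * n ≤ M)
    (htail : ∀ x, 0 ≤ x → x ≤ X →
      pr (sib w T 1) {p | x ≤ Real.log (2 ^ n * cl w T Y (p.2 0) (Y p.1))} ≤ Real.exp (a - x / v))
    (p : ℝ) (hp0 : 0 < p) (hp1 : p ≤ 1) (hzp : 512 * Real.sqrt z ≤ p) :
    KK (sib w T 1) (fun p => p.2) (fun p => Y p.1) ≤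
      Real.log 2 * ∑ ω, (if dep w T Y (Y ω) ≤ 1 / 256 then w ω * (vdim w T Y (Y ω) : ℝ) else 0)
        + 192 * Real.sqrt z + p * v * (a + Real.log (1 / p) + 2) + M * Real.exp (a - X / v) := by
  have hlog2 : 0 ≤ Real.log 2 := Real.log_nonneg (by norm_num)
  have hM0 : 0 ≤ M := le_trans (by positivity) hM
  -- the subspaces
  have hex : ∀ y : B, ∃ H : Submodule (ZMod 2) (V n), mass w Y y ≠ 0 → dep w T Y y ≤ 1 / 256 →
      (∀ a, a ∈ perp H ↔ 1 / 2 ≤ post w T Y a y) ∧
      (∑ x, if x ∈ H then 0 else cl w T Y x y) ≤ 8 * dep w T Y y ∧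
      ∑ x, |cl w T Y x y - uT H x| ≤ 48 * dep w T Y y := by
    intro y
    by_cases hy : mass w Y y ≠ 0 ∧ dep w T Y y ≤ 1 / 256
    · obtain ⟨H, h1, -, h3, h4⟩ := closY w hw T Y y hy.1 hy.2
      exact ⟨H, fun _ _ => ⟨h1, h3, h4⟩⟩
    · exact ⟨⊥, fun h1 h2 => absurd ⟨h1, h2⟩ hy⟩
  choose H hH using hex
  set Bad : V n → B → Prop := fun x y =>
    ¬ dep w T Y y ≤ 1 / 256 ∨ x ∉ H y ∨ 2 * uT (H y) x < cl w T Y x y with hBad
  set A : Set (Ω × (Fin 1 → V n)) := {p | Bad (p.2 0) (Y p.1)} with hA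
  set l : Ω × (Fin 1 → V n) → ℝ := fun p => Real.log (2 ^ n * cl w T Y (p.2 0) (Y p.1)) with hl
  have hsn := sib_nonneg w hw T 1
  have hdep := dep_mean w hw htot T Y z hz
  -- probability of the exceptional event
  have hprA : pr (sib w T 1) A ≤ p := by
    unfold pr tot ind
    have h1 : ∑ q, A.indicator (sib w T 1) q =
        ∑ q, sib w T 1 q * (if Bad (q.2 0) (Y q.1) then 1 else 0) := by
      refine Finset.sum_congr rfl fun q _ => ?_
      by_cases hq : Bad (q.2 0) (Y q.1)
      · rw [Set.indicator_of_mem (show q ∈ A from hq), if_pos hq, mul_one]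
      · rw [Set.indicator_of_notMem (show ¬ q ∈ A from hq), if_neg hq, mul_zero]
    rw [h1, sum_sib_one w hw T Y (fun x y => if Bad x y then (1 : ℝ) else 0)]
    have h2 : ∑ ω, w ω * ∑ x, cl w T Y x (Y ω) * (if Bad x (Y ω) then (1 : ℝ) else 0) ≤
        ∑ ω, 256 * (w ω * dep w T Y (Y ω)) := by
      refine Finset.sum_le_sum fun ω _ => ?_
      by_cases hω : w ω = 0
      · rw [hω]
        simp
      · have hm := (mass_pos w hw Y hω).ne'
        have h3 := exc_le w hw T Y (Y ω) hm (H (Y ω)) (fun hg => (hH (Y ω) hm hg).2.1)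
          (fun hg => (hH (Y ω) hm hg).2.2)
        have h4 := mul_le_mul_of_nonneg_left h3 (hw ω)
        calc _ ≤ _ := h4
          _ = _ := by ring
    refine h2.trans ?_
    rw [← Finset.mul_sum]
    linarith
  -- the tail on the exceptional event
  have hlM : ∀ q, sib w T 1 q ≠ 0 → l q ≤ M := by
    intro q hq
    obtain ⟨hω, hx⟩ := sib_ne hq
    have h1 := cl_pos w hw T Y hω (hx 0)
    have h2 := cl_le_one w hw T Y (q.2 0) (Y q.1) (mass_pos w hw Y hω).ne'
    refine le_trans ?_ hM
    have h3 : Real.log (2 ^ n * cl w T Y (q.2 0) (Y q.1)) ≤ Real.log (2 ^ n) := by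
      refine Real.log_le_log (by positivity) ?_
      have : (0 : ℝ) < 2 ^ n := by positivity
      nlinarith
    rw [Real.log_pow, mul_comm (n : ℝ)] at h3
    exact h3
  have htl := tail_int (sib w T 1) hsn l a v X M hv ha hX hM0 hlM htail A p hp0 hp1 hprA
  -- the good part
  set gB : B → ℝ := fun y => if dep w T Y y ≤ 1 / 256 then Real.log 2 * (vdim w T Y y : ℝ) else 0
    with hgB
  set gA : V n → B → ℝ := fun x y =>
    if Bad x y then 0 else (cl w T Y x y - uT (H y) x) / uT (H y) x with hgA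
  have hgB0 : ∀ y, 0 ≤ gB y := by
    intro y
    simp only [hgB]
    split
    · positivity
    · exact le_refl _
  have hpt : ∀ q, sib w T 1 q * l q ≤ A.indicator (fun q => sib w T 1 q * max (l q) 0) q +
      sib w T 1 q * (gB (Y q.1) + gA (q.2 0) (Y q.1)) := by
    intro q
    by_cases hq0 : sib w T 1 q = 0
    · have h0 : A.indicator (fun q => sib w T 1 q * max (l q) 0) q = 0 := by
        refine Set.indicator_apply_eq_zero.2 fun _ => ?_
        rw [hq0, zero_mul]
      rw [h0, hq0]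
      simp
    obtain ⟨hω, hx⟩ := sib_ne hq0
    have hm := (mass_pos w hw Y hω).ne'
    by_cases hq : Bad (q.2 0) (Y q.1)
    · rw [Set.indicator_of_mem (show q ∈ A from hq)]
      have h1 : gA (q.2 0) (Y q.1) = 0 := by
        simp only [hgA]
        rw [if_pos hq]
      rw [h1, add_zero]
      have h2 := mul_le_mul_of_nonneg_left (le_max_left (l q) 0) (hsn q)
      have h3 := mul_nonneg (hsn q) (hgB0 (Y q.1))
      linarith
    · rw [Set.indicator_of_notMem (show ¬ q ∈ A from hq), zero_add]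
      refine mul_le_mul_of_nonneg_left ?_ (hsn q)
      have hq' : dep w T Y (Y q.1) ≤ 1 / 256 ∧ q.2 0 ∈ H (Y q.1) ∧
          cl w T Y (q.2 0) (Y q.1) ≤ 2 * uT (H (Y q.1)) (q.2 0) := by
        simp only [hBad, not_or, not_not, not_lt] at hq
        exact hq
      obtain ⟨hg, hxH, h2u⟩ := hq'
      obtain ⟨hp1, -, -⟩ := hH (Y q.1) hm hg
      have hc := cl_pos w hw T Y hω (hx 0)
      have hu : 0 < uT (H (Y q.1)) (q.2 0) :=
        lt_of_le_of_ne (uT_nonneg _ _) (Ne.symm ((uT_pos_iff _ _).2 hxH))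
      have h2n : (0 : ℝ) < 2 ^ n := by positivity
      have h1 : l q = Real.log (2 ^ n * uT (H (Y q.1)) (q.2 0)) +
          Real.log (cl w T Y (q.2 0) (Y q.1) / uT (H (Y q.1)) (q.2 0)) := by
        rw [← Real.log_mul (by positivity) (by positivity)]
        simp only [hl]
        congr 1
        field_simp
      rw [h1, two_pow_uT _ hxH, Real.log_pow]
      have h3 : gB (Y q.1) = Real.log 2 * (vdim w T Y (Y q.1) : ℝ) := by
        simp only [hgB]
        rw [if_pos hg]
      rw [h3, vdim_eq w T Y (Y q.1) (H (Y q.1)) hp1]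
      have h4 : gA (q.2 0) (Y q.1) = (cl w T Y (q.2 0) (Y q.1) - uT (H (Y q.1)) (q.2 0)) /
          uT (H (Y q.1)) (q.2 0) := by
        simp only [hgA]
        rw [if_neg hq]
      rw [h4, sub_div, div_self hu.ne']
      have h5 := Real.log_le_sub_one_of_pos (div_pos hc hu)
      linarith
  have hKK : KK (sib w T 1) (fun p => p.2) (fun p => Y p.1) = ∑ q, sib w T 1 q * l q := by
    rw [KK_one w hw T Y, sum_sib w T 1 (fun ω x => Real.log (2 ^ n * cl w T Y (x 0) (Y ω)))]
    refine Finset.sum_congr rfl fun ω _ => ?_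
    rw [sum_prod_uT_coord (T ω) 1 0 (fun v => Real.log (2 ^ n * cl w T Y v (Y ω)))]
  have hgood : ∑ q, sib w T 1 q * (gB (Y q.1) + gA (q.2 0) (Y q.1)) ≤
      Real.log 2 * ∑ ω, (if dep w T Y (Y ω) ≤ 1 / 256 then w ω * (vdim w T Y (Y ω) : ℝ) else 0)
        + 192 * Real.sqrt z := by
    rw [sum_sib_one w hw T Y (fun x y => gB y + gA x y)]
    have h1 : ∀ ω, w ω * ∑ x, cl w T Y x (Y ω) * (gB (Y ω) + gA x (Y ω)) ≤
        Real.log 2 * (if dep w T Y (Y ω) ≤ 1 / 256 then w ω * (vdim w T Y (Y ω) : ℝ) else 0) +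
          96 * (w ω * dep w T Y (Y ω)) := by
      intro ω
      by_cases hω : w ω = 0
      · rw [hω]
        simp
      have hm := (mass_pos w hw Y hω).ne'
      have hd := dep_nonneg w T Y (Y ω)
      have h2 : ∑ x, cl w T Y x (Y ω) * (gB (Y ω) + gA x (Y ω)) =
          gB (Y ω) + ∑ x, cl w T Y x (Y ω) * gA x (Y ω) := by
        simp only [mul_add, Finset.sum_add_distrib]
        rw [← Finset.sum_mul, sum_cl w T Y (Y ω) hm, one_mul]
      rw [h2]
      by_cases hg : dep w T Y (Y ω) ≤ 1 / 256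
      · have h3 : ∑ x, cl w T Y x (Y ω) * gA x (Y ω) ≤ 96 * dep w T Y (Y ω) := by
          have h4 : ∀ x, cl w T Y x (Y ω) * gA x (Y ω) ≤ 2 * |cl w T Y x (Y ω) - uT (H (Y ω)) x| := by
            intro x
            have hc := cl_nonneg w hw T Y x (Y ω)
            have ha := abs_nonneg (cl w T Y x (Y ω) - uT (H (Y ω)) x)
            simp only [hgA]
            by_cases hb : Bad x (Y ω)
            · rw [if_pos hb, mul_zero]
              linarith
            · rw [if_neg hb]
              have hb' : dep w T Y (Y ω) ≤ 1 / 256 ∧ x ∈ H (Y ω) ∧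
                  cl w T Y x (Y ω) ≤ 2 * uT (H (Y ω)) x := by
                simp only [hBad, not_or, not_not, not_lt] at hb
                exact hb
              obtain ⟨-, hxH, h2u⟩ := hb'
              have hu : 0 < uT (H (Y ω)) x :=
                lt_of_le_of_ne (uT_nonneg _ _) (Ne.symm ((uT_pos_iff _ _).2 hxH))
              have h5 : cl w T Y x (Y ω) * ((cl w T Y x (Y ω) - uT (H (Y ω)) x) / uT (H (Y ω)) x) ≤
                  cl w T Y x (Y ω) * (|cl w T Y x (Y ω) - uT (H (Y ω)) x| / uT (H (Y ω)) x) := by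
                refine mul_le_mul_of_nonneg_left ?_ hc
                gcongr
                exact le_abs_self _
              refine h5.trans ?_
              rw [← mul_div_assoc, div_le_iff₀ hu]
              nlinarith
          refine (Finset.sum_le_sum fun x _ => h4 x).trans ?_
          rw [← Finset.mul_sum]
          have := (hH (Y ω) hm hg).2.2
          linarith
        have h4 : gB (Y ω) = Real.log 2 * (vdim w T Y (Y ω) : ℝ) := by
          simp only [hgB]
          rw [if_pos hg]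
        rw [if_pos hg, h4]
        have h5 := mul_le_mul_of_nonneg_left h3 (hw ω)
        nlinarith
      · have h3 : ∀ x, gA x (Y ω) = 0 := by
          intro x
          simp only [hgA]
          rw [if_pos (Or.inl hg)]
        have h4 : gB (Y ω) = 0 := by
          simp only [hgB]
          rw [if_neg hg]
        simp only [h3, h4, mul_zero, Finset.sum_const_zero, add_zero]
        rw [if_neg hg]
        have := mul_nonneg (hw ω) hd
        linarith
    refine (Finset.sum_le_sum fun ω _ => h1 ω).trans ?_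
    rw [Finset.sum_add_distrib, ← Finset.mul_sum, ← Finset.mul_sum]
    linarith
  rw [hKK]
  refine (Finset.sum_le_sum fun q _ => hpt q).trans ?_
  rw [Finset.sum_add_distrib]
  linarith

open Classical in
/-- the visible vectors are true relations, up to a small probability -/
theorem clos_true (w : Ω → ℝ) (hw : ∀ ω, 0 ≤ w ω) (htot : tot w ≤ 1)
    (T : Ω → Submodule (ZMod 2) (V n)) (Y : Ω → B) (z : ℝ)
    (hz : KK (sib w T 2) (fun p => p.2) (fun p => Y p.1) -
      2 * KK (sib w T 1) (fun p => p.2) (fun p => Y p.1) ≤ z) :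
    pr w {ω | dep w T Y (Y ω) ≤ 1 / 256 ∧ ∃ a, 1 / 2 ≤ post w T Y a (Y ω) ∧ a ∉ perp (T ω)} ≤
      32 * Real.sqrt z := by
  have hdep := dep_mean w hw htot T Y z hz
  unfold pr tot ind
  set F : Ω → ℝ := fun ω => if (dep w T Y (Y ω) ≤ 1 / 256 ∧
      ∃ a, 1 / 2 ≤ post w T Y a (Y ω) ∧ a ∉ perp (T ω)) then 1 else 0 with hF
  have h1 : ∑ ω, {ω | dep w T Y (Y ω) ≤ 1 / 256 ∧
      ∃ a, 1 / 2 ≤ post w T Y a (Y ω) ∧ a ∉ perp (T ω)}.indicator w ω =
      ∑ ω, w ω * ∑ d : Unit, F ω * (fun (_ : Unit) (_ : B) => (1 : ℝ)) d (Y ω) := by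
    refine Finset.sum_congr rfl fun ω _ => ?_
    simp only [Finset.univ_unique, Finset.sum_const, Finset.card_singleton, one_smul, mul_one]
    by_cases h : dep w T Y (Y ω) ≤ 1 / 256 ∧ ∃ a, 1 / 2 ≤ post w T Y a (Y ω) ∧ a ∉ perp (T ω)
    · rw [Set.indicator_of_mem (by exact h)]
      simp only [hF]
      rw [if_pos h, mul_one]
    · rw [Set.indicator_of_notMem (by exact h)]
      simp only [hF]
      rw [if_neg h, mul_zero]
  rw [h1, tow w hw Y (fun ω (_ : Unit) => F ω) (fun _ _ => 1)]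
  have h2 : ∀ ω, w ω * ∑ d : Unit, ((∑ ω', if Y ω' = Y ω then w ω' * F ω' else 0) /
      mass w Y (Y ω)) * 1 ≤ 16 * (w ω * dep w T Y (Y ω)) := by
    intro ω
    by_cases hω : w ω = 0
    · rw [hω]
      simp
    have hm0 := mass_pos w hw Y hω
    have hd := dep_nonneg w T Y (Y ω)
    simp only [Finset.univ_unique, Finset.sum_const, Finset.card_singleton, one_smul, mul_one]
    have h3 : (∑ ω', if Y ω' = Y ω then w ω' * F ω' else 0) / mass w Y (Y ω) ≤
        16 * dep w T Y (Y ω) := by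
      rw [div_le_iff₀ hm0]
      by_cases hg : dep w T Y (Y ω) ≤ 1 / 256
      · obtain ⟨H, h4, h5, -, -⟩ := closY w hw T Y (Y ω) hm0.ne' hg
        refine le_trans ?_ h5
        unfold mass ind
        refine Finset.sum_le_sum fun ω' _ => ?_
        by_cases h6 : Y ω' = Y ω
        · rw [if_pos h6, if_pos h6]
          simp only [hF]
          by_cases h7 : dep w T Y (Y ω') ≤ 1 / 256 ∧
              ∃ a, 1 / 2 ≤ post w T Y a (Y ω') ∧ a ∉ perp (T ω')
          · rw [if_pos h7, mul_one]
            obtain ⟨-, a, ha1, ha2⟩ := h7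
            rw [h6] at ha1
            have h8 : ¬ T ω' ≤ H := fun h => ha2 (perp_anti h ((h4 a).2 ha1))
            rw [Set.indicator_of_mem (by exact h8)]
          · rw [if_neg h7, mul_zero]
            exact Set.indicator_nonneg (fun x _ => hw x) ω'
        · rw [if_neg h6, if_neg h6]
      · have h4 : (∑ ω', if Y ω' = Y ω then w ω' * F ω' else 0) = 0 := by
          refine Finset.sum_eq_zero fun ω' _ => ?_
          by_cases h6 : Y ω' = Y ω
          · rw [if_pos h6]
            simp only [hF]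
            rw [if_neg (by
              rintro ⟨h7, -⟩
              rw [h6] at h7
              exact hg h7), mul_zero]
          · rw [if_neg h6]
        rw [h4]
        positivity
    have h4 := mul_le_mul_of_nonneg_left h3 (hw ω)
    calc _ ≤ _ := h4
      _ = _ := by ring
  refine (Finset.sum_le_sum fun ω _ => h2 ω).trans ?_
  rw [← Finset.mul_sum]
  linarith

open Classical in
/-- most data are good -/
theorem clos_good (w : Ω → ℝ) (hw : ∀ ω, 0 ≤ w ω) (htot : tot w ≤ 1)
    (T : Ω → Submodule (ZMod 2) (V n)) (Y : Ω → B) (z : ℝ)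
    (hz : KK (sib w T 2) (fun p => p.2) (fun p => Y p.1) -
      2 * KK (sib w T 1) (fun p => p.2) (fun p => Y p.1) ≤ z) :
    pr w {ω | ¬ dep w T Y (Y ω) ≤ 1 / 256} ≤ 512 * Real.sqrt z := by
  have hdep := dep_mean w hw htot T Y z hz
  unfold pr tot ind
  have h1 : ∑ ω, {ω | ¬ dep w T Y (Y ω) ≤ 1 / 256}.indicator w ω ≤
      ∑ ω, 256 * (w ω * dep w T Y (Y ω)) := by
    refine Finset.sum_le_sum fun ω _ => ?_
    have hd := dep_nonneg w T Y (Y ω)
    by_cases h : ¬ dep w T Y (Y ω) ≤ 1 / 256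
    · rw [Set.indicator_of_mem (by exact h)]
      push Not at h
      nlinarith [hw ω]
    · rw [Set.indicator_of_notMem (by exact h)]
      have := mul_nonneg (hw ω) hd
      linarith
  refine h1.trans ?_
  rw [← Finset.mul_sum]
  linarith

end Ent

end Pool.Agent.NJ
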