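import Pool.Agent.CutSeq.Defs

/-! The orthogonal of a subspace of `V n`: double orthogonal and dimension. -/

set_option autoImplicit false

namespace Pool.Agent.NJ

open Finset Pool.Agent.CutSeq

variable {n : ℕ}

/-- the dot product as a bilinear form -/
noncomputable def dotB (n : ℕ) : LinearMap.BilinForm (ZMod 2) (V n) := Matrix.toBilin' 1

lemma dotB_apply (x y : V n) : dotB n x y = x ⬝ᵥ y := by
  rw [dotB, Matrix.toBilin'_apply', Matrix.one_mulVec]

lemma dotB_refl : (dotB n).IsRefl := by
  intro x y h
  rw [dotB_apply] at h ⊢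
  rw [dotProduct_comm]
  exact h

lemma dotB_nondeg : (dotB n).Nondegenerate := by
  rw [dotB]
  exact LinearMap.BilinForm.nondegenerate_toBilin'_of_det_ne_zero' 1 (by rw [Matrix.det_one]; exact one_ne_zero)

lemma perp_eq (T : Submodule (ZMod 2) (V n)) : perp T = (dotB n).orthogonal T := by
  ext a
  constructor
  · intro h x hx
    show dotB n x a = 0
    rw [dotB_apply]
    exact h x hx
  · intro h x hx
    have := h x hx
    change dotB n x a = 0 at this
    rwa [dotB_apply] at this

lemma perp_perp (T : Submodule (ZMod 2) (V n)) : perp (perp T) = T := by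
  rw [perp_eq, perp_eq]
  exact LinearMap.BilinForm.orthogonal_orthogonal dotB_nondeg dotB_refl T

lemma finrank_perp (T : Submodule (ZMod 2) (V n)) :
    Module.finrank (ZMod 2) (perp T) + Module.finrank (ZMod 2) T = n := by
  have h1 := LinearMap.BilinForm.finrank_orthogonal (dotB_nondeg (n := n)) T
  have h2 : Module.finrank (ZMod 2) T ≤ Module.finrank (ZMod 2) (V n) := Submodule.finrank_le T
  rw [← perp_eq] at h1
  have h3 : Module.finrank (ZMod 2) (V n) = n := by simp
  omega

lemma perp_anti {S T : Submodule (ZMod 2) (V n)} (h : S ≤ T) : perp T ≤ perp S :=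
  fun _ ha x hx => ha x (h hx)

lemma le_iff_perp {S T : Submodule (ZMod 2) (V n)} : S ≤ T ↔ perp T ≤ perp S := by
  refine ⟨perp_anti, fun h => ?_⟩
  have := perp_anti h
  rwa [perp_perp, perp_perp] at this

end Pool.Agent.NJ
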