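import Pool.Agent.CutSeq.Quant
import Pool.Agent.NJ.Clos86
import Pool.Agent.NJ.Perp86

/-!
Closure lemma for a random subspace (page NOJUNK2, section 4): if two siblings are almost independent
given the data, then the vectors which are visible with posterior probability at least `1 / 2` form a
subspace, and they are true relations up to a small probability.
-/

set_option autoImplicit false

namespace Pool.Agent.NJ

open Finset Pool.Agent.CutSeq

section Mix

variable {n : ℕ}

open Classical in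
/-- a subspace which is not contained in `H` has at least half of its points outside `H` -/
lemma uT_out (T H : Submodule (ZMod 2) (V n)) (h : ¬ T ≤ H) :
    1 / 2 ≤ ∑ x, (if x ∈ H then 0 else uT T x) := by
  obtain ⟨x₀, hx₀, hn⟩ := Set.not_subset.1 h
  have h1 : ∑ x, (if x ∈ H then uT T x else 0) = ∑ x, (if x + x₀ ∈ H then uT T x else 0) := by
    rw [← sum_shift (fun x => if x ∈ H then uT T x else 0) x₀]
    refine Finset.sum_congr rfl fun x _ => ?_
    rw [uT_add T hx₀]
  have h2 : ∑ x, (if x + x₀ ∈ H then uT T x else 0) ≤ ∑ x, (if x ∈ H then 0 else uT T x) := by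
    refine Finset.sum_le_sum fun x _ => ?_
    by_cases hx : x ∈ H
    · have : ¬ x + x₀ ∈ H := by
        intro h3
        have h4 := H.add_mem h3 hx
        have h5 : x + x₀ + x = x₀ := by
          rw [add_comm x x₀, add_assoc, v_add_self, add_zero]
        rw [h5] at h4
        exact hn h4
      rw [if_neg this, if_pos hx]
    · rw [if_neg hx]
      split
      · exact le_refl _
      · exact uT_nonneg T x
  have h3 : ∑ x, (if x ∈ H then uT T x else 0) + ∑ x, (if x ∈ H then 0 else uT T x) = 1 := by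
    rw [← sum_uT T, ← Finset.sum_add_distrib]
    refine Finset.sum_congr rfl fun x _ => ?_
    split <;> ring
  linarith

lemma uT_swap (T : Submodule (ZMod 2) (V n)) (x y : V n) :
    uT T x * uT T (x + y) = uT T x * uT T y := by
  by_cases hx : x ∈ T
  · rw [add_comm x y, uT_add T hx]
  · have : uT T x = 0 := by
      by_contra h
      exact hx ((uT_pos_iff T x).1 h)
    rw [this, zero_mul, zero_mul]

open Classical in
/-- (C2) closure lemma for a mixture -/
theorem closMix {Θ : Type*} [Fintype Θ] (q : Θ → ℝ) (hq : ∀ θ, 0 ≤ q θ) (hq1 : ∑ θ, q θ = 1)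
    (T : Θ → Submodule (ZMod 2) (V n)) (e : ℝ)
    (he : ∑ x, ∑ y, |(∑ θ, q θ * (uT (T θ) x * uT (T θ) y)) -
      (∑ θ, q θ * uT (T θ) x) * (∑ θ, q θ * uT (T θ) y)| ≤ e) (hsmall : e ≤ 1 / 256) :
    ∃ H : Submodule (ZMod 2) (V n),
      (∀ a, a ∈ perp H ↔ 1 / 2 ≤ ∑ θ, q θ * (if a ∈ perp (T θ) then 1 else 0)) ∧
      (∑ θ, if T θ ≤ H then 0 else q θ) ≤ 16 * e ∧
      (∑ x, if x ∈ H then 0 else ∑ θ, q θ * uT (T θ) x) ≤ 8 * e ∧
      ∑ x, |(∑ θ, q θ * uT (T θ) x) - uT H x| ≤ 48 * e := by
  set P : V n → ℝ := fun x => ∑ θ, q θ * uT (T θ) x with hPdef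
  have hP0 : ∀ x, 0 ≤ P x := fun x => Finset.sum_nonneg fun θ _ => mul_nonneg (hq θ) (uT_nonneg _ _)
  have hP1 : ∑ x, P x = 1 := by
    rw [hPdef, Finset.sum_comm]
    simp only [← Finset.mul_sum, sum_uT, mul_one, hq1]
  obtain ⟨H, hH1, hH2⟩ := clos P (fun x y => ∑ θ, q θ * (uT (T θ) x * uT (T θ) y)) hP0 hP1
    (fun x y => Finset.sum_congr rfl fun θ _ => by rw [mul_comm (uT (T θ) x)])
    (fun x y => Finset.sum_congr rfl fun θ _ => by rw [uT_swap]) e he hsmall
  refine ⟨H, ?_, ?_, hH1, hH2⟩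
  · intro a
    have h1 : ∑ x, P x * sg (x ⬝ᵥ a) = ∑ θ, q θ * (if a ∈ perp (T θ) then 1 else 0) := by
      rw [hPdef]
      simp only [Finset.sum_mul]
      rw [Finset.sum_comm]
      refine Finset.sum_congr rfl fun θ _ => ?_
      simp only [mul_assoc]
      rw [← Finset.mul_sum, sum_uT_sg]
    have h2 := sum_uT_sg H a
    have h3 : |∑ x, P x * sg (x ⬝ᵥ a) - ∑ x, uT H x * sg (x ⬝ᵥ a)| ≤ 48 * e := by
      rw [← Finset.sum_sub_distrib]
      refine le_trans (Finset.abs_sum_le_sum_abs _ _) (le_trans (Finset.sum_le_sum fun x _ => ?_) hH2)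
      rw [← sub_mul, abs_mul, abs_sg, mul_one]
    rw [h1, h2] at h3
    have h4 := abs_le.1 h3
    by_cases ha : a ∈ perp H
    · rw [if_pos ha] at h4
      exact ⟨fun _ => by linarith [h4.1], fun _ => ha⟩
    · rw [if_neg ha] at h4
      exact ⟨fun h => absurd h ha, fun h => absurd h (by linarith [h4.2])⟩
  · have h1 : (1 / 2) * (∑ θ, if T θ ≤ H then 0 else q θ) ≤ 8 * e := by
      refine le_trans ?_ hH1
      rw [Finset.mul_sum]
      have h2 : (∑ x, if x ∈ H then 0 else P x) =
          ∑ θ, q θ * ∑ x, (if x ∈ H then 0 else uT (T θ) x) := by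
        simp only [Finset.mul_sum]
        rw [Finset.sum_comm]
        refine Finset.sum_congr rfl fun x _ => ?_
        by_cases hx : x ∈ H
        · simp only [if_pos hx, mul_zero, Finset.sum_const_zero]
        · simp only [if_neg hx]
          rfl
      rw [h2]
      refine Finset.sum_le_sum fun θ _ => ?_
      by_cases hθ : T θ ≤ H
      · rw [if_pos hθ, mul_zero]
        refine mul_nonneg (hq θ) (Finset.sum_nonneg fun x _ => ?_)
        split
        · exact le_refl _
        · exact uT_nonneg _ _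
      · rw [if_neg hθ, mul_comm]
        exact mul_le_mul_of_nonneg_left (uT_out (T θ) H hθ) (hq θ)
    linarith

end Mix

section Data

variable {Ω B : Type*} [Fintype Ω] {n : ℕ}

open Classical in
/-- conditional law of two siblings -/
noncomputable def cl2 (w : Ω → ℝ) (T : Ω → Submodule (ZMod 2) (V n)) (Y : Ω → B) (u v : V n)
    (y : B) : ℝ :=
  (∑ ω, if Y ω = y then w ω * (uT (T ω) u * uT (T ω) v) else 0) / mass w Y y

/-- dependence of two siblings given the data -/
noncomputable def dep (w : Ω → ℝ) (T : Ω → Submodule (ZMod 2) (V n)) (Y : Ω → B) (y : B) : ℝ :=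
  ∑ u, ∑ v, |cl2 w T Y u v y - cl w T Y u y * cl w T Y v y|

open Classical in
/-- (C2) in terms of the data: `post` is the posterior probability -/
theorem closY (w : Ω → ℝ) (hw : ∀ ω, 0 ≤ w ω) (T : Ω → Submodule (ZMod 2) (V n)) (Y : Ω → B)
    (y : B) (hy : mass w Y y ≠ 0) (hdep : dep w T Y y ≤ 1 / 256) :
    ∃ H : Submodule (ZMod 2) (V n),
      (∀ a, a ∈ perp H ↔ 1 / 2 ≤ post w T Y a y) ∧
      mass (ind {ω | ¬ T ω ≤ H} w) Y y ≤ 16 * dep w T Y y * mass w Y y ∧
      (∑ x, if x ∈ H then 0 else cl w T Y x y) ≤ 8 * dep w T Y y ∧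
      ∑ x, |cl w T Y x y - uT H x| ≤ 48 * dep w T Y y := by
  have hm0 : 0 < mass w Y y := lt_of_le_of_ne (mass_nonneg w hw Y y) (Ne.symm hy)
  set q : Ω → ℝ := fun ω => (if Y ω = y then w ω else 0) / mass w Y y with hq
  have hq0 : ∀ ω, 0 ≤ q ω := by
    intro ω
    refine div_nonneg ?_ hm0.le
    split
    · exact hw ω
    · exact le_refl _
  have hq1 : ∑ ω, q ω = 1 := by
    rw [hq, ← Finset.sum_div]
    exact div_self hy
  have hcl : ∀ x, ∑ ω, q ω * uT (T ω) x = cl w T Y x y := by
    intro x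
    rw [cl, Finset.sum_div]
    refine Finset.sum_congr rfl fun ω _ => ?_
    by_cases hω : Y ω = y
    · simp only [hq, if_pos hω]
      ring
    · simp only [hq, if_neg hω]
      ring
  have hcl2 : ∀ x x', ∑ ω, q ω * (uT (T ω) x * uT (T ω) x') = cl2 w T Y x x' y := by
    intro x x'
    rw [cl2, Finset.sum_div]
    refine Finset.sum_congr rfl fun ω _ => ?_
    by_cases hω : Y ω = y
    · simp only [hq, if_pos hω]
      ring
    · simp only [hq, if_neg hω]
      ring
  obtain ⟨H, h1, h2, h3, h4⟩ := closMix q hq0 hq1 T (dep w T Y y) (by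
    simp only [hcl, hcl2]
    exact le_refl _) hdep
  simp only [hcl] at h3 h4
  refine ⟨H, ?_, ?_, h3, h4⟩
  · intro a
    rw [h1 a]
    have h5 : ∑ ω, q ω * (if a ∈ perp (T ω) then (1 : ℝ) else 0) = post w T Y a y := by
      rw [← sum_cl_sg w T Y a y]
      simp only [← hcl, Finset.sum_mul]
      rw [Finset.sum_comm]
      refine Finset.sum_congr rfl fun ω _ => ?_
      simp only [mul_assoc]
      rw [← Finset.mul_sum, sum_uT_sg]
    rw [h5]
  · have h5 : (∑ ω, if T ω ≤ H then 0 else q ω) * mass w Y y =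
        mass (ind {ω | ¬ T ω ≤ H} w) Y y := by
      rw [Finset.sum_mul]
      unfold mass ind
      refine Finset.sum_congr rfl fun ω _ => ?_
      by_cases hω : T ω ≤ H
      · rw [if_pos hω, zero_mul, Set.indicator_of_notMem (by exact fun h => h hω)]
        split <;> rfl
      · rw [if_neg hω, Set.indicator_of_mem (by exact hω)]
        exact div_mul_cancel₀ _ hy
    rw [← h5]
    exact mul_le_mul_of_nonneg_right h2 hm0.le

end Data

end Pool.Agent.NJ
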