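import Pool.Agent.NJ.Brm85
import Pool.Agent.NJ.Broom36
import Pool.Agent.NJ.Slope85

/-!
S19271, glue (helper88), abstract part: consequences of the entropy bound (SC) for coin brooms.

* `push_cw88` : forgetting coins; `K0_obs_mono88` : smaller brooms;
* `push_coins88` : coins to siblings; `UU_le_obs88`;
* `push_ext88` : coins to extended columns.
-/

set_option autoImplicit false

namespace Pool.Agent.NJ

open Finset Pool.Agent.CutSeq Pool.Agent.CutSeq.NJ

/-! ### maps of brooms -/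

section Map

variable {Ω A G G' : Type*} [Fintype Ω] [Fintype A] [AddCommGroup G] [AddCommGroup G'] [Fintype G]
  [Fintype G']

/-- a surjective homomorphism on the second part decreases the entropy -/
theorem K0_hom88 (w : Ω → ℝ) (hw : ∀ ω, 0 ≤ w ω) (m : Ω → A) (X : Ω → G) (f : G →+ G')
    (hf : Function.Surjective f) : K0 w (fun ω => (m ω, f (X ω))) ≤ K0 w (fun ω => (m ω, X ω)) := by
  classical
  refine KK_map w hw (fun ω => (m ω, X ω)) (fun _ => ()) (fun a : A × G => (a.1, f a.2)) ?_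
  intro a
  have h1 : Nat.card {x : A × G // (x.1, f x.2) = a} = Nat.card {x : G // f x = a.2} := by
    refine Nat.card_congr
      { toFun := fun x => ⟨x.1.2, (Prod.ext_iff.1 x.2).2⟩
        invFun := fun x => ⟨(a.1, x.1), Prod.ext rfl x.2⟩
        left_inv := ?_
        right_inv := fun x => rfl }
    rintro ⟨⟨u, v⟩, h⟩
    have := (Prod.ext_iff.1 h).1
    apply Subtype.ext
    exact Prod.ext this.symm rfl
  have h2 := hom_bal f hf a.2
  rw [h1, Fintype.card_prod, Fintype.card_prod, mul_left_comm, h2]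

end Map

section Coins

variable {Ω : Type*} [Fintype Ω] {P Q : ℕ} {I J I' J' : Type*} [Fintype I] [Fintype J] [Fintype I']
  [Fintype J'] [DecidableEq I] [DecidableEq J] [DecidableEq I'] [DecidableEq J']

lemma card_coins88 (P : ℕ) (I : Type*) [Fintype I] [DecidableEq I] :
    (1 : ℝ) / (Fintype.card (I → V P) : ℝ) = ∏ _k : I, (1 : ℝ) / (Fintype.card (V P) : ℝ) := by
  rw [Finset.prod_const, Finset.card_univ, Fintype.card_fun]
  push_cast
  rw [one_div, one_div, inv_pow]

lemma coins_avg88 (f : (I → V P) × (J → V Q) → ℝ) :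
    (∑ c, f c) / (Fintype.card ((I → V P) × (J → V Q)) : ℝ) =
      ∑ x : I → V P, (∏ _k : I, (1 : ℝ) / (Fintype.card (V P) : ℝ)) *
        ∑ y : J → V Q, (∏ _k : J, (1 : ℝ) / (Fintype.card (V Q) : ℝ)) * f (x, y) := by
  rw [Fintype.sum_prod_type, Fintype.card_prod, Nat.cast_mul, ← card_coins88, ← card_coins88,
    Finset.sum_div]
  refine Finset.sum_congr rfl fun x _ => ?_
  rw [Finset.mul_sum, Finset.sum_div]
  refine Finset.sum_congr rfl fun y _ => ?_
  have h1 : ((Fintype.card (I → V P) : ℕ) : ℝ) ≠ 0 := by exact_mod_cast Fintype.card_ne_zero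
  have h2 : ((Fintype.card (J → V Q) : ℕ) : ℝ) ≠ 0 := by exact_mod_cast Fintype.card_ne_zero
  field_simp

/-- forgetting coins -/
theorem push_cw88 (w : Ω → ℝ) (σ : I → I') (hσ : Function.Injective σ) (τ : J → J')
    (hτ : Function.Injective τ) :
    Push (cw w P Q I' J') (fun p => (p.1, (p.2.1 ∘ σ, p.2.2 ∘ τ))) (cw w P Q I J) := by
  classical
  refine push_of_sum fun g => ?_
  unfold cw
  rw [sum_pw w (fun ω (c : (I' → V P) × (J' → V Q)) => g (ω, (c.1 ∘ σ, c.2 ∘ τ))),
    sum_pw w (fun ω (c : (I → V P) × (J → V Q)) => g (ω, c))]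
  refine Finset.sum_congr rfl fun ω _ => ?_
  congr 1
  have hu : ∀ R : ℕ, ∑ _a : V R, (1 : ℝ) / (Fintype.card (V R) : ℝ) = 1 := by
    intro R
    rw [Finset.sum_const, Finset.card_univ, nsmul_eq_mul]
    have : ((Fintype.card (V R) : ℕ) : ℝ) ≠ 0 := by exact_mod_cast Fintype.card_ne_zero
    field_simp
  rw [coins_avg88 (fun c : (I' → V P) × (J' → V Q) => g (ω, (c.1 ∘ σ, c.2 ∘ τ))),
    coins_avg88 (fun c : (I → V P) × (J → V Q) => g (ω, c))]
  simp only
  rw [sum_prod_comp (fun _ : V P => (1 : ℝ) / (Fintype.card (V P) : ℝ)) (hu P) σ hσ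
    (fun x => ∑ y : J' → V Q, (∏ _k : J', (1 : ℝ) / (Fintype.card (V Q) : ℝ)) *
      g (ω, (x, y ∘ τ)))]
  refine Finset.sum_congr rfl fun x _ => ?_
  congr 1
  exact sum_prod_comp (fun _ : V Q => (1 : ℝ) / (Fintype.card (V Q) : ℝ)) (hu Q) τ hτ
    (fun y => g (ω, (x, y)))

omit [Fintype Ω] [DecidableEq I] [DecidableEq J] [Fintype I'] [Fintype J'] [DecidableEq I']
  [DecidableEq J'] in
lemma cw_nonneg88 [DecidableEq I] [DecidableEq J] (w : Ω → ℝ) (hw : ∀ ω, 0 ≤ w ω)
    (p : Ω × ((I → V P) × (J → V Q))) : 0 ≤ cw w P Q I J p := pw_nonneg w hw p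

variable {A0 : Type*} [Fintype A0] {n n' : ℕ}

/-- restriction of brooms -/
def restB88 (n n' : ℕ) (σ : I → I') (τ : J → J') : BL n n' I' J' →+ BL n n' I J where
  toFun := fun β => (fun a => β.1 (σ a), fun b => β.2.1 (τ b), fun a b => β.2.2 (σ a) (τ b))
  map_zero' := rfl
  map_add' := fun _ _ => rfl

omit [Fintype I] [Fintype J] [Fintype I'] [Fintype J'] [DecidableEq I] [DecidableEq J]
  [DecidableEq I'] [DecidableEq J'] in
lemma restB_surj88 (σ : I → I') (hσ : Function.Injective σ) (τ : J → J')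
    (hτ : Function.Injective τ) : Function.Surjective (restB88 n n' σ τ) := by
  intro β
  refine ⟨(Function.extend σ β.1 0, Function.extend τ β.2.1 0,
    Function.extend σ (fun a => Function.extend τ (β.2.2 a) 0) 0), ?_⟩
  refine Prod.ext ?_ (Prod.ext ?_ ?_)
  · funext a
    exact hσ.extend_apply β.1 0 a
  · funext b
    exact hτ.extend_apply β.2.1 0 b
  · funext a b
    show Function.extend σ (fun a => Function.extend τ (β.2.2 a) 0) 0 (σ a) (τ b) = β.2.2 a b
    rw [hσ.extend_apply, hτ.extend_apply]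

/-- smaller brooms have smaller entropy -/
theorem K0_obs_mono88 (w : Ω → ℝ) (hw : ∀ ω, 0 ≤ w ω) (R : Rg Ω A0 P Q n n') (σ : I → I')
    (hσ : Function.Injective σ) (τ : J → J') (hτ : Function.Injective τ) :
    K0 (cw w P Q I J) (fun p => obs R p.1 p.2.1 p.2.2) ≤
      K0 (cw w P Q I' J') (fun p => obs R p.1 p.2.1 p.2.2) := by
  rw [← (push_cw88 w σ hσ τ hτ).K0 (fun p => obs R p.1 p.2.1 p.2.2)]
  exact K0_hom88 (cw w P Q I' J') (cw_nonneg88 w hw) (fun p => R.m p.1)
    (fun p => (obs R p.1 p.2.1 p.2.2).2) (restB88 n n' σ τ) (restB_surj88 σ hσ τ hτ)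

/-! ### coins to siblings -/

/-- the siblings of uniform coins -/
theorem push_coins88 (w : Ω → ℝ) (X : Ω → V P →ₗ[ZMod 2] V n) (Y : Ω → V Q →ₗ[ZMod 2] V n)
    (i j : ℕ) : Push (cw w P Q (Fin i) (Fin j))
      (fun p => (p.1, ((fun a => X p.1 (p.2.1 a)), fun b => Y p.1 (p.2.2 b))))
      (sib2 w (fun ω => LinearMap.range (X ω)) (fun ω => LinearMap.range (Y ω)) i j) := by
  classical
  refine push_of_sum fun g => ?_
  unfold cw
  rw [sum_pw w (fun ω (c : (Fin i → V P) × (Fin j → V Q)) =>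
    g (ω, ((fun a => X ω (c.1 a)), fun b => Y ω (c.2 b))))]
  unfold sib2
  rw [Fintype.sum_prod_type]
  refine Finset.sum_congr rfl fun ω _ => ?_
  rw [Fintype.sum_prod_type (f := fun x : (Fin i → V n) × (Fin j → V n) =>
    w (ω, x).1 * (∏ l, uT (LinearMap.range (X (ω, x).1)) ((ω, x).2.1 l)) *
      (∏ l, uT (LinearMap.range (Y (ω, x).1)) ((ω, x).2.2 l)) * g (ω, x))]
  have h1 : (∑ c : (Fin i → V P) × (Fin j → V Q),
      g (ω, ((fun a => X ω (c.1 a)), fun b => Y ω (c.2 b)))) /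
        (Fintype.card ((Fin i → V P) × (Fin j → V Q)) : ℝ) =
      (∑ x : Fin i → V P, (∑ y : Fin j → V Q,
        g (ω, ((fun a => X ω (x a)), fun b => Y ω (y b)))) / (Fintype.card (Fin j → V Q) : ℝ)) /
        (Fintype.card (Fin i → V P) : ℝ) := by
    rw [Fintype.sum_prod_type, Fintype.card_prod, ← Finset.sum_div, div_div]
    push_cast
    rw [mul_comm ((Fintype.card (Fin i → V P) : ℕ) : ℝ)]
  rw [h1]
  have h2 := sum_coins (X ω) i (fun x' => (∑ y : Fin j → V Q,
    g (ω, (x', fun b => Y ω (y b)))) / (Fintype.card (Fin j → V Q) : ℝ))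
  rw [h2, Finset.mul_sum]
  refine Finset.sum_congr rfl fun x _ => ?_
  rw [sum_coins (Y ω) j (fun y' => g (ω, (x, y'))), Finset.mul_sum, Finset.mul_sum]
  refine Finset.sum_congr rfl fun y _ => ?_
  ring

/-- dropping the corner bits -/
def dropC88 (n n' : ℕ) (I J : Type*) : BL n n' I J →+ (I → V n) × (J → V n') where
  toFun := fun β => (β.1, β.2.1)
  map_zero' := rfl
  map_add' := fun _ _ => rfl

theorem UU_le_obs88 (w : Ω → ℝ) (hw : ∀ ω, 0 ≤ w ω) (R : Rg Ω A0 P Q n n) (i j : ℕ) :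
    UU w (fun ω => LinearMap.range (R.X ω)) (fun ω => LinearMap.range (R.Y ω)) R.m i j ≤
      K0 (cw w P Q (Fin i) (Fin j)) (fun p => obs R p.1 p.2.1 p.2.2) := by
  unfold UU
  rw [← (push_coins88 w R.X R.Y i j).K0 (fun p => (R.m p.1, p.2.1, p.2.2))]
  exact K0_hom88 (cw w P Q (Fin i) (Fin j)) (cw_nonneg88 w hw) (fun p => R.m p.1)
    (fun p => (obs R p.1 p.2.1 p.2.2).2) (dropC88 n n (Fin i) (Fin j))
    (fun x => ⟨(x.1, x.2, 0), rfl⟩)

/-! ### extended columns -/

/-- the extended column of a coin vector: the column sibling and its corner bits -/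
def extL88 (R : Rg Ω A0 P Q n n') {i : ℕ} (q : Ω × (Fin i → V P)) : V Q →ₗ[ZMod 2] V (n' + i) where
  toFun := fun η => Fin.append (R.Y q.1 η) (fun a => R.C q.1 (q.2 a) η)
  map_add' := by
    intro η η'
    funext k
    refine Fin.addCases (fun k => ?_) (fun a => ?_) k
    · simp [Fin.append_left]
    · simp [Fin.append_right]
  map_smul' := by
    intro c η
    funext k
    refine Fin.addCases (fun k => ?_) (fun a => ?_) k
    · simp [Fin.append_left]
    · simp [Fin.append_right]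

omit [Fintype A0] in
/-- coins of columns to extended columns -/
theorem push_ext88 (w : Ω → ℝ) (R : Rg Ω A0 P Q n n') (i j : ℕ) :
    Push (cw w P Q (Fin i) (Fin j))
      (fun p => ((p.1, p.2.1), fun b => extL88 R (p.1, p.2.1) (p.2.2 b)))
      (sib (pw w (Fin i → V P)) (fun q => LinearMap.range (extL88 R q)) j) := by
  classical
  refine push_of_sum fun g => ?_
  unfold cw
  rw [sum_pw w (fun ω (c : (Fin i → V P) × (Fin j → V Q)) =>
    g ((ω, c.1), fun b => extL88 R (ω, c.1) (c.2 b)))]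
  unfold sib
  rw [Fintype.sum_prod_type, Fintype.sum_prod_type]
  refine Finset.sum_congr rfl fun ω _ => ?_
  unfold pw
  rw [Fintype.sum_prod_type, Fintype.card_prod, Nat.cast_mul, mul_comm (w ω), div_mul_eq_mul_div,
    Finset.sum_mul, Finset.sum_div]
  refine Finset.sum_congr rfl fun ξ _ => ?_
  have h1 := sum_coins (extL88 R (ω, ξ)) j (fun y' => g ((ω, ξ), y'))
  have h2 : ((Fintype.card (Fin i → V P) : ℕ) : ℝ) ≠ 0 := by exact_mod_cast Fintype.card_ne_zero
  have h3 : ((Fintype.card (Fin j → V Q) : ℕ) : ℝ) ≠ 0 := by exact_mod_cast Fintype.card_ne_zero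
  simp only
  have h4 : ∑ x : Fin j → V (n' + i), w ω / (Fintype.card (Fin i → V P) : ℝ) *
      (∏ l, uT (LinearMap.range (extL88 R (ω, ξ))) (x l)) * g ((ω, ξ), x) =
      w ω / (Fintype.card (Fin i → V P) : ℝ) *
        ((∑ x : Fin j → V Q, g ((ω, ξ), fun b => extL88 R (ω, ξ) (x b))) /
          (Fintype.card (Fin j → V Q) : ℝ)) := by
    rw [h1, Finset.mul_sum]
    refine Finset.sum_congr rfl fun y _ => ?_
    ring
  rw [h4]
  field_simp

end Coins

end Pool.Agent.NJ
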