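import Pool.Agent.CutSeq.Quant

/-!
Collision form for corner bits: if every nonzero combination of `S` bits has deficiency at least `b`
given the data, then with mass at least `b / 2` the `S` bits are almost determined
(their density given the data is at least `2 ^ S * b / 2`).
-/

set_option autoImplicit false

namespace Pool.Agent.NJ

open Finset Pool.Agent.CutSeq

variable {Ω B : Type*} [Fintype Ω]

/-- Parseval for the characters of `V S` -/
theorem parseval {S : ℕ} (P : V S → ℝ) :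
    ∑ c : V S, (∑ x, P x * sg (c ⬝ᵥ x)) ^ 2 = 2 ^ S * ∑ x, P x ^ 2 := by
  classical
  have h1 : ∀ c : V S, (∑ x, P x * sg (c ⬝ᵥ x)) ^ 2
      = ∑ x, ∑ x', P x * P x' * sg ((x + x') ⬝ᵥ c) := by
    intro c
    rw [sq, Finset.sum_mul_sum]
    refine Finset.sum_congr rfl fun x _ => Finset.sum_congr rfl fun x' _ => ?_
    rw [dotProduct_comm (x + x') c, dotProduct_add, sg_add]
    ring
  have h2 : ∀ x : V S, ∑ c : V S, ∑ x', P x * P x' * sg ((x + x') ⬝ᵥ c) = 2 ^ S * P x ^ 2 := by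
    intro x
    rw [Finset.sum_comm]
    have h3 : ∀ x' : V S, ∑ c : V S, P x * P x' * sg ((x + x') ⬝ᵥ c)
        = if x' = x then 2 ^ S * P x ^ 2 else 0 := by
      intro x'
      rw [← Finset.mul_sum, sum_sg]
      by_cases hx : x' = x
      · rw [if_pos hx, hx, if_pos]
        · ring
        · funext i
          exact CharTwo.add_self_eq_zero _
      · rw [if_neg hx, if_neg, mul_zero]
        intro h
        refine hx ?_
        funext i
        have := congrFun h i
        simp only [Pi.add_apply, Pi.zero_apply] at this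
        exact (CharTwo.add_eq_zero.1 this).symm
    simp only [h3]
    rw [Finset.sum_ite_eq' Finset.univ x]
    simp
  simp only [h1]
  rw [Finset.sum_comm]
  simp only [h2]
  rw [Finset.mul_sum]

/-- conditional law of `X` given the data -/
noncomputable def cond {A : Type*} (w : Ω → ℝ) (X : Ω → A) (d : Ω → B) (a : A) (y : B) : ℝ :=
  mass w (fun ω => (X ω, d ω)) (a, y) / mass w d y

theorem cond_nonneg {A : Type*} (w : Ω → ℝ) (hw : ∀ ω, 0 ≤ w ω) (X : Ω → A) (d : Ω → B) (a : A)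
    (y : B) : 0 ≤ cond w X d a y :=
  div_nonneg (CutSeq.mass_nonneg w hw _ _) (CutSeq.mass_nonneg w hw _ _)

theorem cond_le_one {A : Type*} (w : Ω → ℝ) (hw : ∀ ω, 0 ≤ w ω) (X : Ω → A) (d : Ω → B) (a : A)
    (y : B) : cond w X d a y ≤ 1 := by
  refine div_le_one_of_le₀ ?_ (CutSeq.mass_nonneg w hw _ _)
  exact mass_mono w hw _ _ _ _ fun ω h => (Prod.mk.inj h).2

/-- integration of a conditional quantity -/
theorem sum_cond {A : Type*} [Fintype A] (w : Ω → ℝ) (hw : ∀ ω, 0 ≤ w ω) (X : Ω → A) (d : Ω → B)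
    (g : A → B → ℝ) :
    ∑ ω, w ω * g (X ω) (d ω) = ∑ ω, w ω * ∑ a, cond w X d a (d ω) * g a (d ω) := by
  classical
  set sB : Finset B := Finset.univ.image d with hsB
  have h1 := sum_eq_sum_mass w (fun ω => (X ω, d ω)) ((Finset.univ : Finset A) ×ˢ sB)
    (by intro ω _; simp [hsB]) (fun c => g c.1 c.2)
  have h2 := sum_eq_sum_mass w d sB (by intro ω _; simp [hsB])
    (fun b => ∑ a, cond w X d a b * g a b)
  rw [h1, h2, Finset.sum_product_right]
  refine Finset.sum_congr rfl fun b _ => ?_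
  rw [Finset.mul_sum]
  refine Finset.sum_congr rfl fun a _ => ?_
  unfold cond
  by_cases hm : mass w d b = 0
  · have h3 : mass w (fun ω => (X ω, d ω)) (a, b) = 0 := by
      refine le_antisymm ?_ (CutSeq.mass_nonneg w hw _ _)
      rw [← hm]
      exact mass_mono w hw _ _ _ _ fun ω h => (Prod.mk.inj h).2
    rw [h3, hm]
    simp
  · simp only
    field_simp

theorem sum_cond_one {A : Type*} [Fintype A] (w : Ω → ℝ) (hw : ∀ ω, 0 ≤ w ω) (X : Ω → A)
    (d : Ω → B) {ω : Ω} (h : w ω ≠ 0) : ∑ a, cond w X d a (d ω) = 1 := by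
  unfold cond
  rw [← Finset.sum_div, CutSeq.sum_mass, div_self (mass_pos w hw d h).ne']

/-- the mean of the density of the bits is a sum of squared biases -/
theorem coll_mean {S : ℕ} (w : Ω → ℝ) (hw : ∀ ω, 0 ≤ w ω) (β : Ω → V S) (d : Ω → B) :
    ∑ ω, w ω * (2 ^ S * cond w β d (β ω) (d ω))
      = ∑ c : V S, ∑ ω, w ω * (∑ x, cond w β d x (d ω) * sg (c ⬝ᵥ x)) ^ 2 := by
  rw [sum_cond w hw β d (fun a y => 2 ^ S * cond w β d a y)]
  conv_rhs => rw [Finset.sum_comm]
  refine Finset.sum_congr rfl fun ω _ => ?_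
  have h1 : ∑ c : V S, w ω * (∑ x, cond w β d x (d ω) * sg (c ⬝ᵥ x)) ^ 2
      = w ω * ∑ c : V S, (∑ x, cond w β d x (d ω) * sg (c ⬝ᵥ x)) ^ 2 := by
    rw [Finset.mul_sum]
  have h2 : ∑ a, cond w β d a (d ω) * (2 ^ S * cond w β d a (d ω))
      = 2 ^ S * ∑ a, cond w β d a (d ω) ^ 2 := by
    rw [Finset.mul_sum]
    exact Finset.sum_congr rfl fun a _ => by ring
  rw [h1, h2, parseval (fun x => cond w β d x (d ω))]

/-- the law of a combination -/
theorem mass_comb {S : ℕ} (w : Ω → ℝ) (β : Ω → V S) (d : Ω → B) (c : V S) (z : ZMod 2) (y : B) :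
    mass w (fun ω => (c ⬝ᵥ β ω, d ω)) (z, y)
      = ∑ x : V S, if c ⬝ᵥ x = z then mass w (fun ω => (β ω, d ω)) (x, y) else 0 := by
  classical
  have h : ∀ x : V S, (if c ⬝ᵥ x = z then mass w (fun ω => (β ω, d ω)) (x, y) else 0)
      = ∑ ω, if (c ⬝ᵥ x = z ∧ β ω = x ∧ d ω = y) then w ω else 0 := by
    intro x
    by_cases h1 : c ⬝ᵥ x = z
    · rw [if_pos h1]
      unfold mass
      refine Finset.sum_congr rfl fun ω _ => ?_
      by_cases h2 : β ω = x ∧ d ω = y
      · rw [if_pos (Prod.ext h2.1 h2.2), if_pos ⟨h1, h2⟩]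
      · rw [if_neg (fun h3 => h2 (Prod.mk.inj h3)), if_neg (fun h3 => h2 h3.2)]
    · rw [if_neg h1]
      symm
      refine Finset.sum_eq_zero fun ω _ => ?_
      rw [if_neg (fun h3 => h1 h3.1)]
  refine Eq.trans ?_ (Finset.sum_congr rfl fun x _ => (h x).symm)
  conv_rhs => rw [Finset.sum_comm]
  unfold mass
  refine Finset.sum_congr rfl fun ω _ => ?_
  by_cases h1 : c ⬝ᵥ β ω = z ∧ d ω = y
  · rw [if_pos (Prod.ext h1.1 h1.2), Finset.sum_eq_single (β ω)]
    · rw [if_pos ⟨h1.1, rfl, h1.2⟩]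
    · intro x _ hx
      rw [if_neg]
      rintro ⟨_, h2, _⟩
      exact hx h2.symm
    · intro h2
      exact absurd (Finset.mem_univ _) h2
  · rw [if_neg (fun h2 => h1 (Prod.mk.inj h2))]
    symm
    refine Finset.sum_eq_zero fun x _ => ?_
    rw [if_neg]
    rintro ⟨h2, h3, h4⟩
    exact h1 ⟨by rw [h3]; exact h2, h4⟩

/-- the bias of a combination in terms of its own law -/
theorem bias_comb {S : ℕ} (w : Ω → ℝ) (β : Ω → V S) (d : Ω → B) (c : V S) (y : B) :
    ∑ x, cond w β d x y * sg (c ⬝ᵥ x)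
      = cond w (fun ω => c ⬝ᵥ β ω) d 0 y - cond w (fun ω => c ⬝ᵥ β ω) d 1 y := by
  classical
  unfold cond
  rw [mass_comb, mass_comb, ← sub_div, ← Finset.sum_sub_distrib, Finset.sum_div]
  refine Finset.sum_congr rfl fun x _ => ?_
  rcases lv_zmod2 (c ⬝ᵥ x) with h | h
  · rw [h, sg_zero]
    simp
  · rw [h, sg_one]
    simp
    ring
where
  lv_zmod2 (x : ZMod 2) : x = 0 ∨ x = 1 := by
    revert x; decide

/-- the deficiency of a bit is at most its mean squared bias -/
theorem KK_bit_le (w : Ω → ℝ) (hw : ∀ ω, 0 ≤ w ω) (Z : Ω → ZMod 2) (d : Ω → B) :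
    KK w Z d ≤ ∑ ω, w ω * (cond w Z d 0 (d ω) - cond w Z d 1 (d ω)) ^ 2 := by
  classical
  have h1 : KK w Z d ≤ ∑ ω, w ω * (2 * cond w Z d (Z ω) (d ω) - 1) := by
    unfold KK
    refine Finset.sum_le_sum fun ω _ => ?_
    by_cases h : w ω = 0
    · simp [h]
    · refine mul_le_mul_of_nonneg_left ?_ (hw ω)
      have m1 := mass_pos w hw (fun ω => (Z ω, d ω)) h
      have m2 := mass_pos w hw d h
      have h2 := Real.log_le_sub_one_of_pos
        (x := Fintype.card (ZMod 2) * mass w (fun ω => (Z ω, d ω)) (Z ω, d ω) / mass w d (d ω))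
        (by
          have : (0 : ℝ) < Fintype.card (ZMod 2) := by simp [ZMod.card]
          positivity)
      refine h2.trans (le_of_eq ?_)
      unfold cond
      rw [ZMod.card]
      push_cast
      ring
  refine h1.trans (le_of_eq ?_)
  rw [sum_cond w hw Z d (fun a y => 2 * cond w Z d a y - 1)]
  refine Finset.sum_congr rfl fun ω _ => ?_
  by_cases h : w ω = 0
  · simp [h]
  · congr 1
    have h3 := sum_cond_one w hw Z d h
    have h4 : ∀ f : ZMod 2 → ℝ, ∑ a, f a = f 0 + f 1 := by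
      intro f
      rw [show (Finset.univ : Finset (ZMod 2)) = {0, 1} from by decide,
        Finset.sum_pair (by decide)]
    rw [h4] at h3 ⊢
    have h5 : cond w Z d 1 (d ω) = 1 - cond w Z d 0 (d ω) := by linarith
    rw [h5]
    ring

/-- (CB) -/
theorem coll {S : ℕ} (w : Ω → ℝ) (hw : ∀ ω, 0 ≤ w ω) (htot : tot w ≤ 1) (β : Ω → V S)
    (d : Ω → B) (b : ℝ) (hb0 : 0 ≤ b) (hb : b ≤ tot w)
    (h : ∀ c : V S, c ≠ 0 → b ≤ KK w (fun ω => c ⬝ᵥ β ω) d) :
    b / 2 ≤ pr w {ω | 2 ^ S * b / 2 ≤ 2 ^ S * cond w β d (β ω) (d ω)} := by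
  classical
  have hmean := coll_mean w hw β d
  have hsq : ∀ c : V S, b ≤ ∑ ω, w ω * (∑ x, cond w β d x (d ω) * sg (c ⬝ᵥ x)) ^ 2 := by
    intro c
    by_cases hc : c = 0
    · subst hc
      have : ∑ ω, w ω * (∑ x, cond w β d x (d ω) * sg ((0 : V S) ⬝ᵥ x)) ^ 2 = tot w := by
        unfold tot
        refine Finset.sum_congr rfl fun ω _ => ?_
        by_cases h0 : w ω = 0
        · simp [h0]
        · simp only [zero_dotProduct, sg_zero, mul_one]
          rw [sum_cond_one w hw β d h0]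
          ring
      rw [this]
      exact hb
    · refine (h c hc).trans ((KK_bit_le w hw _ d).trans (le_of_eq ?_))
      refine Finset.sum_congr rfl fun ω _ => ?_
      rw [bias_comb]
  have hlow : 2 ^ S * b ≤ ∑ ω, w ω * (2 ^ S * cond w β d (β ω) (d ω)) := by
    rw [hmean]
    have h2 : ∑ _c : V S, b ≤ ∑ c : V S, ∑ ω, w ω * (∑ x, cond w β d x (d ω) * sg (c ⬝ᵥ x)) ^ 2 :=
      Finset.sum_le_sum fun c _ => hsq c
    rw [Finset.sum_const, Finset.card_univ, nsmul_eq_mul] at h2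
    have h3 : ((Fintype.card (V S) : ℕ) : ℝ) = 2 ^ S := by
      simp [ZMod.card]
    rw [h3] at h2
    exact h2
  set G : Set Ω := {ω | 2 ^ S * b / 2 ≤ 2 ^ S * cond w β d (β ω) (d ω)} with hG
  have hup : ∑ ω, w ω * (2 ^ S * cond w β d (β ω) (d ω)) ≤ 2 ^ S * pr w G + 2 ^ S * b / 2 * tot w := by
    unfold pr tot ind
    rw [Finset.mul_sum, Finset.mul_sum, ← Finset.sum_add_distrib]
    refine Finset.sum_le_sum fun ω _ => ?_
    have hc0 := cond_nonneg w hw β d (β ω) (d ω)
    have hc1 := cond_le_one w hw β d (β ω) (d ω)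
    have hp : (0 : ℝ) < 2 ^ S := by positivity
    by_cases hω : ω ∈ G
    · rw [Set.indicator_of_mem hω]
      have h0 : 0 ≤ 2 ^ S * b / 2 * w ω := by
        have := hw ω
        positivity
      have : w ω * (2 ^ S * cond w β d (β ω) (d ω)) ≤ 2 ^ S * w ω := by
        rw [mul_comm (2 ^ S) (w ω)]
        refine mul_le_mul_of_nonneg_left ?_ (hw ω)
        nlinarith
      linarith
    · rw [Set.indicator_of_notMem hω]
      have h1 : 2 ^ S * cond w β d (β ω) (d ω) ≤ 2 ^ S * b / 2 := by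
        rw [hG, Set.mem_ofPred_eq, not_le] at hω
        exact hω.le
      have := mul_le_mul_of_nonneg_left h1 (hw ω)
      linarith
  have hp : (0 : ℝ) < 2 ^ S := by positivity
  have h3 : 2 ^ S * b / 2 * tot w ≤ 2 ^ S * b / 2 := by
    have : 0 ≤ 2 ^ S * b / 2 := by positivity
    nlinarith
  have h4 : 2 ^ S * (b / 2) ≤ 2 ^ S * pr w G := by linarith
  exact le_of_mul_le_mul_left h4 hp

end Pool.Agent.NJ
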