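import Pool.Agent.CutSeq.SoftA

/-! S19271, target B, row HOLES (helper43), part 1: every functional of the array which is Lipschitz for
the rank distance is concentrated at scale `o(N)` (boxes of all scales + `multiscale`). -/

set_option autoImplicit false

namespace Pool.Agent.CutSeq

open Finset

open Pool.Agent.CutSeq.Num in
/-- numbers -/
theorem conc_num43 (δ C : ℝ) (hδ0 : 0 < δ) (hC : 0 < C) (J₀ : ℕ) :
    ∃ N₀ : ℕ, ∀ N ≥ N₀, ∀ t : ℝ, 0 ≤ t → t ≤ C * N →
      ∃ (p A : ℝ) (K U e J : ℕ), 0 < N ∧ 0 < K ∧ J ≤ e ∧ J₀ ≤ J ∧ 0 ≤ p ∧ p ≤ 1 / 2 ∧ p * K ≤ 1 ∧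
        p * ((K * U : ℕ) : ℝ) = t ∧ ((K * U : ℕ) : ℝ) * N ^ 2 * p ^ 2 ≤ δ ∧
        ((J + 1 : ℕ) : ℝ) * ((K * U + 1 : ℕ) : ℝ) * (N : ℝ) * Real.exp (-(2 ^ (e - J) : ℕ)) ≤ δ ∧
        0 ≤ A ∧ A * (2 ^ e) ^ 2 ≤ 2 * (C + 3) * N ^ 2 ∧
        (∀ j ≤ J, (((K * U / (K * 2 ^ (e - j)) + 1) * (N / 2 ^ (e - j) + 1) : ℕ) : ℝ) ≤ A * 4 ^ j) := by
  obtain ⟨F, hF⟩ : ∃ F : ℝ, F = (Nat.factorial 16 : ℝ) * 16 ^ 8 := ⟨_, rfl⟩
  have hF0 : 0 < F := by rw [hF]; positivity
  have ev : ∀ c : ℝ, ∀ᶠ N : ℕ in Filter.atTop, c ≤ (N : ℝ) := fun c =>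
    tendsto_natCast_atTop_atTop.eventually_ge_atTop c
  refine Filter.eventually_atTop.mp ?_
  filter_upwards [ev (C / δ), ev ((C + 3) * F / δ), ev (3 * (C + 3)),
    Filter.eventually_ge_atTop (2 ^ (4 * J₀)),
    Filter.eventually_ge_atTop (2 ^ 40)] with N c1 c2 c3 c9 c10
  intro t ht0 htC
  have hN0 : 0 < N := lt_of_lt_of_le (by norm_num) c10
  obtain ⟨k, hk⟩ : ∃ k : ℕ, k = Nat.log 2 N / 4 := ⟨_, rfl⟩
  obtain ⟨hk1, hk2⟩ := kk N hN0
  rw [← hk] at hk1 hk2
  have hk10 : 10 ≤ k := by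
    have := Nat.le_log_of_pow_le (b := 2) (by norm_num) c10
    omega
  have hkJ : J₀ ≤ k := by
    have := Nat.le_log_of_pow_le (b := 2) (by norm_num) c9
    omega
  obtain ⟨x, hx⟩ : ∃ x : ℝ, x = (N : ℝ) := ⟨_, rfl⟩
  obtain ⟨y, hy⟩ : ∃ y : ℝ, y = (2 : ℝ) ^ k := ⟨_, rfl⟩
  rw [← hx] at c1 c2 c3 htC
  have hx1 : 1 ≤ x := by rw [hx]; exact_mod_cast hN0
  have hx0 : 0 < x := by linarith
  have hy1 : 1 ≤ y := by rw [hy]; exact one_le_pow₀ (by norm_num)
  have hy0 : 0 < y := by linarith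
  have hk1' : (2 : ℝ) ^ (4 * k) ≤ x := by rw [hx]; exact_mod_cast hk1
  have h4k : (2 : ℝ) ^ (4 * k) = y ^ 4 := by rw [hy, ← pow_mul, mul_comm]
  have hy4 : y ^ 4 ≤ x := h4k ▸ hk1'
  have hy3 : y ^ 3 ≤ x := by
    have : y ^ 3 ≤ y ^ 4 := pow_le_pow_right₀ hy1 (by norm_num)
    linarith
  -- `U`
  obtain ⟨U, hU⟩ : ∃ U : ℕ, U = ⌈C * x⌉₊ + 1 := ⟨_, rfl⟩
  have hU0 : 0 < U := by omega
  have hUC : C * x ≤ U := by
    rw [hU]
    push_cast
    have := Nat.le_ceil (C * x)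
    linarith
  have hUC' : (U : ℝ) ≤ C * x + 2 := by
    rw [hU]
    push_cast
    have := Nat.ceil_lt_add_one (show 0 ≤ C * x by positivity)
    linarith
  have hU1 : (1 : ℝ) ≤ U := by exact_mod_cast hU0
  have hUp : (0 : ℝ) < U := by linarith
  -- `K` and `p`
  obtain ⟨K, hK⟩ : ∃ K : ℕ, K = N ^ 4 := ⟨_, rfl⟩
  have hK0 : 0 < K := by rw [hK]; positivity
  have hKx : (K : ℝ) = x ^ 4 := by rw [hK, hx]; push_cast; rfl
  obtain ⟨p, hp⟩ : ∃ p : ℝ, p = t / (x ^ 4 * U) := ⟨_, rfl⟩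
  have hp0 : 0 ≤ p := by rw [hp]; positivity
  have hpK : p * x ^ 4 ≤ 1 := by
    have h1 : p * x ^ 4 = t / U := by
      rw [hp]
      field_simp
    rw [h1, div_le_one hUp]
    linarith
  have hpt : p * (x ^ 4 * U) = t := by
    rw [hp]
    exact div_mul_cancel₀ _ (by positivity)
  have hx2 : (2 : ℝ) ≤ x := by linarith
  have hp1 : p ≤ 1 / 2 := by
    have h1 : (2 : ℝ) ≤ x ^ 4 := by
      calc (2 : ℝ) ≤ x := hx2
        _ = x ^ 1 := (pow_one x).symm
        _ ≤ x ^ 4 := pow_le_pow_right₀ hx1 (by norm_num)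
    have h2 := mul_le_mul_of_nonneg_left h1 hp0
    linarith
  have hek : 3 * k - k = 2 * k := by omega
  have h3k : (2 : ℝ) ^ (3 * k) = y ^ 3 := by rw [hy, ← pow_mul, mul_comm]
  obtain ⟨W, hW⟩ : ∃ W : ℝ, W = ((U : ℝ) + y ^ 3) * (x + y ^ 3) := ⟨_, rfl⟩
  have hW0 : 0 < W := by rw [hW]; positivity
  have hWx : W ≤ 2 * (C + 3) * x ^ 2 := by
    rw [hW]
    have h1 : (U : ℝ) + y ^ 3 ≤ (C + 3) * x := by linarith
    have h2 : x + y ^ 3 ≤ 2 * x := by linarith
    calc ((U : ℝ) + y ^ 3) * (x + y ^ 3) ≤ ((C + 3) * x) * (2 * x) :=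
          mul_le_mul h1 h2 (by positivity) (by positivity)
      _ = _ := by ring
  have hbox : ∀ j ≤ k, (((K * U / (K * 2 ^ (3 * k - j)) + 1) *
      (N / 2 ^ (3 * k - j) + 1) : ℕ) : ℝ) ≤ W / (y ^ 3) ^ 2 * 4 ^ j := by
    intro j hj
    have := boxes (K := K) (U := U) (B := N) (N := N) (e := 3 * k) (j := j) hK0 le_rfl
      (by omega)
    rw [h3k, ← hx, ← hW] at this
    exact this
  refine ⟨p, W / (y ^ 3) ^ 2, K, U, 3 * k, k, hN0, hK0, by omega, hkJ, hp0, hp1, ?_, ?_, ?_, ?_,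
    by positivity, ?_, hbox⟩
  · rw [hKx]
    exact hpK
  · push_cast
    rw [hKx]
    exact hpt
  · -- collisions
    push_cast
    rw [hKx, ← hx]
    rw [div_le_iff₀ hδ0] at c1
    have h1 : x ^ 4 * U * x ^ 2 * p ^ 2 * x ^ 4 ≤ t * x ^ 2 := by
      have e1 : x ^ 4 * U * x ^ 2 * p ^ 2 * x ^ 4 = (p * (x ^ 4 * U)) * (x ^ 2 * (p * x ^ 4)) := by
        ring
      rw [e1, hpt]
      refine mul_le_mul_of_nonneg_left ?_ ht0
      calc x ^ 2 * (p * x ^ 4) ≤ x ^ 2 * 1 := mul_le_mul le_rfl hpK (by positivity) (by positivity)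
        _ = x ^ 2 := mul_one _
    have h3 : t * x ^ 2 ≤ δ * x ^ 4 := by
      calc t * x ^ 2 ≤ (C * x) * x ^ 2 := mul_le_mul_of_nonneg_right htC (by positivity)
        _ ≤ (x * δ * x) * x ^ 2 := by
          refine mul_le_mul_of_nonneg_right ?_ (by positivity)
          exact mul_le_mul_of_nonneg_right c1 hx0.le
        _ = δ * x ^ 4 := by ring
    exact le_of_mul_le_mul_right (h1.trans h3) (by positivity)
  · -- atypical configurations
    rw [hek]
    have h1 := exp_aux hk2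
    rw [← hF, ← hx] at h1
    obtain ⟨E, hE⟩ : ∃ E : ℝ, E = Real.exp (-(2 ^ (2 * k) : ℕ)) := ⟨_, rfl⟩
    have hE0 : 0 < E := by rw [hE]; exact Real.exp_pos _
    rw [← hE] at h1 ⊢
    push_cast
    rw [hKx, ← hx]
    rw [div_le_iff₀ hδ0] at c2
    have h2 : (k : ℝ) + 1 ≤ x := by
      have h3 : k + 1 ≤ N := by
        have h4 : k < 2 ^ k := Nat.lt_two_pow_self
        have h5 : 2 ^ k ≤ 2 ^ (4 * k) := Nat.pow_le_pow_right (by norm_num) (by omega)
        omega
      rw [hx]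
      exact_mod_cast h3
    have h3 : x ^ 4 * U + 1 ≤ (C + 3) * x ^ 5 := by
      have e1 : x ^ 4 * U ≤ x ^ 4 * (C * x + 2) := mul_le_mul_of_nonneg_left hUC' (by positivity)
      have e2 : (1 : ℝ) ≤ x ^ 4 := one_le_pow₀ hx1
      have e3 : x ^ 4 ≤ x ^ 5 := pow_le_pow_right₀ hx1 (by norm_num)
      have e4 : x ^ 4 * (C * x + 2) = C * x ^ 5 + 2 * x ^ 4 := by ring
      have e5 : (C + 3) * x ^ 5 = C * x ^ 5 + 3 * x ^ 5 := by ring
      linarith
    have h4 : ((k : ℝ) + 1) * (x ^ 4 * U + 1) * x * E ≤ (x * ((C + 3) * x ^ 5)) * x * E := by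
      refine mul_le_mul_of_nonneg_right ?_ hE0.le
      refine mul_le_mul ?_ le_rfl hx0.le (by positivity)
      exact mul_le_mul h2 h3 (by positivity) (by positivity)
    have h5 : ((k : ℝ) + 1) * (x ^ 4 * U + 1) * x * E * x ≤ δ * x := by
      calc ((k : ℝ) + 1) * (x ^ 4 * U + 1) * x * E * x
          ≤ (x * ((C + 3) * x ^ 5)) * x * E * x := mul_le_mul_of_nonneg_right h4 hx0.le
        _ = (C + 3) * (x ^ 8 * E) := by ring
        _ ≤ (C + 3) * F := mul_le_mul_of_nonneg_left h1 (by positivity)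
        _ ≤ δ * x := by linarith
    exact le_of_mul_le_mul_right h5 hx0
  · rw [h3k, div_mul_cancel₀ _ (by positivity), ← hx]
    exact hWx

section Slot

variable {S B n : ℕ}

open Classical in
/-- one sided concentration from a set of positive probability, in the slot model -/
theorem conc_one43 {K e J : ℕ} {p V δ a m : ℝ} (hJe : J ≤ e) (hK : 0 < K) (hp : 0 ≤ p) (hp1 : p ≤ 1 / 2)
    (hms : ∀ X : Sl S B → ℝ,
      (∀ j ≤ J, ∀ c, ∀ ω ω' : Sl S B, (∀ i, bx K e j i ≠ c → ω i = ω' i) →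
        |X ω - X ω'| ≤ 2 ^ e / 2 ^ j) →
      ex (sw p) (fun ω => (X ω - ex (sw p) X) ^ 2) ≤ V)
    (hTyp : prw (sw p) (Typ S B K e J)ᶜ ≤ δ) (hδ : δ ≤ 1 / 4) (hm : 0 < m) (hV : 16 * V ≤ m ^ 2)
    (g : Un n → ℝ) (hg : ∀ r x x', RkU r x x' → |g x - g x'| ≤ 2 * r)
    (ha : 1 / 2 ≤ prw (sw p) {ω : Sl S B | g (sm ω n) ≤ a}) :
    prw (sw p) {ω : Sl S B | a + 14 * m < g (sm ω n)} ≤ δ + 4 * V / m ^ 2 := by
  have hw : ∀ s, 0 ≤ sw p s := sw_nonneg hp (by linarith)
  let T : Set (Sl S B) := {ω | ω ∈ Typ S B K e J ∧ g (sm ω n) ≤ a}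
  have hT : 1 / 4 ≤ prw (sw p) T := by
    have h1 : prw (sw p) {ω : Sl S B | g (sm ω n) ≤ a} ≤ prw (sw p) (T ∪ (Typ S B K e J)ᶜ) := by
      refine prw_mono hw fun ω hω => ?_
      by_cases h2 : ω ∈ Typ S B K e J
      · exact Or.inl ⟨h2, hω⟩
      · exact Or.inr h2
    have h3 := prw_union hw T (Typ S B K e J)ᶜ
    linarith
  have hTne : T.Nonempty := by
    by_contra hne
    rw [Set.not_nonempty_iff_eq_empty] at hne
    rw [hne] at hT
    simp [prw] at hT
    linarith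
  obtain ⟨X, hX0, hXT, hXL, hXF⟩ := box_distance (S := S) (B := B) K e J hJe T hTne
  have hVar := hms X hXL
  have h1 := cheb (m := m) (a := 1 / 4) hw (by norm_num) hm hX0 hVar hXT hT (by linarith)
  have h2 : prw (sw p) {ω | m < X ω} ≤ 4 * V / m ^ 2 := by
    rw [le_div_iff₀ (by positivity)]
    exact h1
  have h3 : {ω : Sl S B | a + 14 * m < g (sm ω n)} ⊆ (Typ S B K e J)ᶜ ∪ {ω | m < X ω} := by
    intro ω hω
    by_contra hcon
    rw [Set.mem_union, not_or] at hcon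
    obtain ⟨h4, h5⟩ := hcon
    rw [Set.mem_compl_iff, not_not] at h4
    have h5' : X ω ≤ m := not_lt.1 h5
    obtain ⟨F, hF, ω', hω', hoff, hsize⟩ := hXF ω
    have hrk : RkU (7 * bsize e F) (sm ω n) (sm ω' n) :=
      ⟨_, (rk_boxes K e hK F ω ω' hoff).mono (rank_typ h4 hω'.1 F hF), fun k j => rfl⟩
    have h6 := hg _ _ _ hrk
    have h7 := (abs_le.1 h6).2
    push_cast at h7
    have h8 : g (sm ω' n) ≤ a := hω'.2
    have h9 : a + 14 * m < g (sm ω n) := hω
    have h10 : (bsize e F : ℝ) ≤ m := hsize.trans h5'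
    linarith
  exact (prw_mono hw h3).trans ((prw_union hw _ _).trans (by linarith))

/-- a median -/
theorem median43 {ι S' : Type} [Fintype ι] [DecidableEq ι] [Fintype S'] {w : S' → ℝ}
    (hw : ∀ s, 0 ≤ w s) (hw1 : ∑ s, w s = 1) (G : (ι → S') → ℝ) (b : ℝ) (hb : ∀ ω, |G ω| ≤ b) :
    ∃ a : ℝ, |a| ≤ b ∧ 1 / 2 ≤ prw w {ω | G ω ≤ a} ∧ 1 / 2 ≤ prw w {ω | a ≤ G ω} := by
  classical
  have htot : prw w (Set.univ : Set (ι → S')) = 1 := by
    unfold prw
    rw [← pw_sum (ι := ι) hw1]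
    exact Finset.sum_congr rfl fun ω _ => if_pos trivial
  have hne : Nonempty (ι → S') := by
    by_contra h
    rw [not_nonempty_iff] at h
    have : prw w (Set.univ : Set (ι → S')) = 0 := by
      unfold prw
      exact Finset.sum_of_isEmpty _
    linarith
  set R : Finset ℝ := (univ.image G).filter fun v => 1 / 2 ≤ prw w {ω | G ω ≤ v} with hR
  have hRne : R.Nonempty := by
    have hI : (univ.image G).Nonempty := Finset.univ_nonempty.image G
    refine ⟨(univ.image G).max' hI, ?_⟩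
    rw [hR, Finset.mem_filter]
    refine ⟨Finset.max'_mem _ _, ?_⟩
    have h1 : {ω : ι → S' | G ω ≤ (univ.image G).max' hI} = Set.univ := by
      ext ω
      simp only [Set.mem_ofPred_eq, Set.mem_univ, iff_true]
      exact Finset.le_max' _ _ (Finset.mem_image_of_mem _ (Finset.mem_univ _))
    rw [h1, htot]
    norm_num
  obtain ⟨a, ha⟩ : ∃ a, a = R.min' hRne := ⟨_, rfl⟩
  have haR : a ∈ R := by rw [ha]; exact Finset.min'_mem _ _
  have haR2 := haR
  rw [hR, Finset.mem_filter, Finset.mem_image] at haR2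
  obtain ⟨⟨ω₀, _, hω₀⟩, ha2⟩ := haR2
  refine ⟨a, hω₀ ▸ hb ω₀, ha2, ?_⟩
  by_contra hcon
  rw [not_le] at hcon
  -- then `{G < a}` has mass more than one half
  have hsum : prw w {ω | a ≤ G ω} + prw w {ω | G ω < a} = 1 := by
    rw [← htot]
    unfold prw
    rw [← Finset.sum_add_distrib]
    refine Finset.sum_congr rfl fun ω _ => ?_
    simp only [Set.mem_ofPred_eq, Set.mem_univ, if_true]
    by_cases h : a ≤ G ω
    · rw [if_pos h, if_neg (not_lt.2 h), add_zero]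
    · rw [if_neg h, if_pos (not_le.1 h), zero_add]
  set R' : Finset ℝ := (univ.image G).filter fun v => v < a with hR'
  have hR'ne : R'.Nonempty := by
    by_contra h
    rw [Finset.not_nonempty_iff_eq_empty] at h
    have : {ω : ι → S' | G ω < a} = ∅ := by
      ext ω
      simp only [Set.mem_ofPred_eq, Set.mem_empty_iff_false, iff_false]
      intro h1
      have : G ω ∈ R' := by
        rw [hR', Finset.mem_filter]
        exact ⟨Finset.mem_image_of_mem _ (Finset.mem_univ _), h1⟩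
      rw [h] at this
      simp at this
    rw [this] at hsum
    have h2 : prw w (∅ : Set (ι → S')) = 0 := by simp [prw]
    rw [h2] at hsum
    linarith
  obtain ⟨v, hv⟩ : ∃ v, v = R'.max' hR'ne := ⟨_, rfl⟩
  have hvR : v ∈ R' := by rw [hv]; exact Finset.max'_mem _ _
  rw [hR', Finset.mem_filter] at hvR
  have h3 : {ω : ι → S' | G ω < a} = {ω | G ω ≤ v} := by
    ext ω
    simp only [Set.mem_ofPred_eq]
    constructor
    · intro h
      rw [hv]
      refine Finset.le_max' _ _ ?_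
      rw [hR', Finset.mem_filter]
      exact ⟨Finset.mem_image_of_mem _ (Finset.mem_univ _), h⟩
    · intro h
      exact h.trans_lt hvR.2
  rw [h3] at hsum
  have h4 : v ∈ R := by
    rw [hR, Finset.mem_filter]
    exact ⟨hvR.1, by linarith⟩
  have h5 : a ≤ v := by rw [ha]; exact Finset.min'_le _ _ h4
  exact absurd hvR.2 (not_lt.2 h5)

end Slot

open Classical in
/-- **CONC**: functionals which are Lipschitz for the rank distance are concentrated at scale `o(N)` -/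
theorem conc43 (ε q C : ℝ) (hε : 0 < ε) (hq : 0 < q) (hC : 0 < C) :
    ∃ N₀ : ℕ, ∀ N ≥ N₀, ∀ n ≤ N, ∀ t : ℝ, 0 ≤ t → t ≤ C * N → ∀ g : Un n → ℝ,
      (∀ r x x', RkU r x x' → |g x - g x'| ≤ 2 * r) → (∀ x, |g x| ≤ N) →
      ∑ x, (if ε * N < |g x - ∑ y, ct n t y * g y| then ct n t x else 0) ≤ q := by
  -- first the median with smaller parameters
  have key : ∀ ε q : ℝ, 0 < ε → 0 < q → ∃ N₀ : ℕ, ∀ N ≥ N₀, ∀ n ≤ N, ∀ t : ℝ, 0 ≤ t → t ≤ C * N →
      ∀ g : Un n → ℝ, (∀ r x x', RkU r x x' → |g x - g x'| ≤ 2 * r) → (∀ x, |g x| ≤ N) →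
      ∃ a : ℝ, |a| ≤ N ∧ ∑ x, (if ε * N < |g x - a| then ct n t x else 0) ≤ q := by
    intro ε q hε hq
    obtain ⟨δ, hδ⟩ : ∃ δ : ℝ, δ = min (1 / 4) (q / 16) := ⟨_, rfl⟩
    have hδ0 : 0 < δ := by rw [hδ]; exact lt_min (by norm_num) (by positivity)
    have hδ1 : δ ≤ 1 / 4 := hδ ▸ min_le_left _ _
    have hδ2 : δ ≤ q / 16 := hδ ▸ min_le_right _ _
    obtain ⟨τ, hτ⟩ : ∃ τ : ℝ, τ = min (1 / 16) (q / 64) * (ε / 14) ^ 2 / (2 * (C + 3)) := ⟨_, rfl⟩
    have hmin : (0 : ℝ) < min (1 / 16) (q / 64) := lt_min (by norm_num) (by positivity)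
    have hτ0 : 0 < τ := by rw [hτ]; positivity
    obtain ⟨J₀, hJ₀⟩ := multiscale τ hτ0
    obtain ⟨N₀, hN₀⟩ := conc_num43 δ C hδ0 hC J₀
    refine ⟨N₀, fun N hN n hn t ht htC g hg hgN => ?_⟩
    obtain ⟨p, A, K, U, e, J, hNp, hK, hJe, hJ0, hp, hp1, hpK, hpt, hcol, htyp, hA, hAx, hbox⟩ :=
      hN₀ N hN t ht htC
    have hN0 : (0 : ℝ) < N := by exact_mod_cast hNp
    have hw : ∀ s, 0 ≤ sw p s := sw_nonneg hp (by linarith)
    have hw1 : ∑ s, sw p s = 1 := sw_sum p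
    obtain ⟨V, hV⟩ : ∃ V : ℝ, V = τ * (A * (2 ^ e) ^ 2) := ⟨_, rfl⟩
    have hms : ∀ X : Sl (K * U) N → ℝ,
        (∀ j ≤ J, ∀ c, ∀ ω ω' : Sl (K * U) N, (∀ i, bx K e j i ≠ c → ω i = ω' i) →
          |X ω - X ω'| ≤ 2 ^ e / 2 ^ j) →
        ex (sw p) (fun ω => (X ω - ex (sw p) X) ^ 2) ≤ V := by
      intro X hX
      rw [hV]
      refine hJ₀ (sw p) hw hw1 J hJ0 (fun j => bx K e j)
        (fun j _ i i' h => bx_nested j i i' h) (2 ^ e) A (by positivity) hA (fun j hj => ?_) X ?_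
      · refine le_trans ?_ (hbox j hj)
        exact_mod_cast card_bx (K * U) N K e j hK
      · intro j hj c ω ω' h
        exact hX j hj c ω ω' h
    have hTyp : prw (sw p) (Typ (K * U) N K e J)ᶜ ≤ δ :=
      (prob_typ hK hp (by linarith) hpK).trans htyp
    obtain ⟨m, hm⟩ : ∃ m : ℝ, m = ε / 14 * N := ⟨_, rfl⟩
    have hm0 : 0 < m := by rw [hm]; positivity
    have hVm : V ≤ min (1 / 16) (q / 64) * m ^ 2 := by
      have h1 : τ * (A * (2 ^ e) ^ 2) ≤ τ * (2 * (C + 3) * N ^ 2) :=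
        mul_le_mul_of_nonneg_left hAx hτ0.le
      have h2 : τ * (2 * (C + 3) * (N : ℝ) ^ 2) = min (1 / 16) (q / 64) * m ^ 2 := by
        rw [hτ, hm]
        field_simp
      rw [hV]
      linarith
    have hV16 : 16 * V ≤ m ^ 2 := by
      have h1 : min (1 / 16) (q / 64) * m ^ 2 ≤ 1 / 16 * m ^ 2 :=
        mul_le_mul_of_nonneg_right (min_le_left _ _) (by positivity)
      linarith
    have hVq : 4 * V / m ^ 2 ≤ q / 16 := by
      rw [div_le_iff₀ (by positivity)]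
      have h1 : min (1 / 16) (q / 64) * m ^ 2 ≤ q / 64 * m ^ 2 :=
        mul_le_mul_of_nonneg_right (min_le_right _ _) (by positivity)
      linarith
    obtain ⟨a, haN, ha1, ha2⟩ := median43 hw hw1 (fun ω : Sl (K * U) N => g (sm ω n)) N
      (fun ω => hgN _)
    have hup := conc_one43 (n := n) hJe hK hp hp1 hms hTyp hδ1 hm0 hV16 g hg ha1
    have hdn := conc_one43 (n := n) (a := -a) hJe hK hp hp1 hms hTyp hδ1 hm0 hV16 (fun x => -g x)
      (fun r x x' h => by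
        have h1 := hg r x x' h
        have h2 : -g x - -g x' = -(g x - g x') := by ring
        rw [h2, abs_neg]
        exact h1)
      (by
        refine ha2.trans (prw_mono hw fun ω hω => ?_)
        have h1 : a ≤ g (sm ω n) := hω
        show -g (sm ω n) ≤ -a
        linarith)
    refine ⟨a, haN, ?_⟩
    have hslot := slot_low (S := K * U) (B := N) (n := n) (p := p) hNp (by omega) hp (by linarith)
      (hcol.trans hδ1) (fun x => if ε * N < |g x - a| then 1 else 0)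
      (fun x => by split_ifs <;> norm_num)
      (fun x => by split_ifs <;> norm_num)
    rw [hpt] at hslot
    have h1 : ∑ x, (if ε * N < |g x - a| then ct n t x else 0) =
        ∑ x, ct n t x * (if ε * N < |g x - a| then 1 else 0) := by
      refine Finset.sum_congr rfl fun x _ => ?_
      split_ifs <;> simp
    have h2 : (∑ ω : Sl (K * U) N, if nocol ω then
        pw (sw p) ω * (if ε * N < |g (sm ω n) - a| then (1 : ℝ) else 0) else 0) ≤
        prw (sw p) ({ω : Sl (K * U) N | a + 14 * m < g (sm ω n)} ∪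
          {ω : Sl (K * U) N | -a + 14 * m < -g (sm ω n)}) := by
      unfold prw
      refine Finset.sum_le_sum fun ω _ => ?_
      have h0 := pw_nonneg hw ω
      by_cases h5 : nocol ω
      · rw [if_pos h5]
        by_cases h6 : ε * N < |g (sm ω n) - a|
        · rw [if_pos h6, mul_one, if_pos]
          have h7 : ε * N = 14 * m := by rw [hm]; ring
          rw [h7] at h6
          rcases lt_abs.1 h6 with h8 | h8
          · left
            show a + 14 * m < g (sm ω n)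
            linarith
          · right
            show -a + 14 * m < -g (sm ω n)
            linarith
        · rw [if_neg h6, mul_zero]
          split_ifs
          · exact h0
          · exact le_rfl
      · rw [if_neg h5]
        split_ifs
        · exact h0
        · exact le_rfl
    have h3 := prw_union hw {ω : Sl (K * U) N | a + 14 * m < g (sm ω n)}
          {ω : Sl (K * U) N | -a + 14 * m < -g (sm ω n)}
    rw [h1]
    refine hslot.trans ?_
    have h4 : 6 * (((K * U : ℕ) : ℝ) * N ^ 2 * p ^ 2) ≤ 6 * δ := by linarith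
    have h5 : prw (sw p) {ω : Sl (K * U) N | -a + 14 * m < -g (sm ω n)} ≤ δ + 4 * V / m ^ 2 := hdn
    linarith
  obtain ⟨q', hq'⟩ : ∃ q' : ℝ, q' = min q (ε / 8) := ⟨_, rfl⟩
  have hq'0 : 0 < q' := by rw [hq']; exact lt_min hq (by positivity)
  have hq'1 : q' ≤ q := hq' ▸ min_le_left _ _
  have hq'2 : q' ≤ ε / 8 := hq' ▸ min_le_right _ _
  obtain ⟨N₀, hN₀⟩ := key (ε / 4) q' (by positivity) hq'0
  refine ⟨N₀, fun N hN n hn t ht htC g hg hgN => ?_⟩
  obtain ⟨a, haN, ha⟩ := hN₀ N hN n hn t ht htC g hg hgN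
  have hct : ∀ x, 0 ≤ ct n t x := fun x => by rw [ct_eq_tr]; exact tr_nonneg n ht _ _
  have hsum : ∑ x, ct n t x = 1 := by
    have := tr_sum n t 0
    simpa only [ct_eq_tr] using this
  have hN0 : (0 : ℝ) ≤ N := Nat.cast_nonneg N
  -- the mean is near the median
  have hmean : |∑ y, ct n t y * g y - a| ≤ ε / 2 * N := by
    have h1 : ∑ y, ct n t y * g y - a = ∑ y, ct n t y * (g y - a) := by
      simp only [mul_sub]
      rw [Finset.sum_sub_distrib, ← Finset.sum_mul, hsum, one_mul]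
    rw [h1]
    refine (Finset.abs_sum_le_sum_abs _ _).trans ?_
    have h2 : ∀ y : Un n, |ct n t y * (g y - a)| ≤ ct n t y * (ε / 4 * N) +
        2 * N * (if ε / 4 * N < |g y - a| then ct n t y else 0) := by
      intro y
      rw [abs_mul, abs_of_nonneg (hct y)]
      have h3 : |g y - a| ≤ 2 * N := by
        have := abs_sub (g y) a
        linarith [hgN y]
      split_ifs with h4
      · have h5 := mul_le_mul_of_nonneg_left h3 (hct y)
        have h6 : 0 ≤ ct n t y * (ε / 4 * N) := by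
          have := hct y
          positivity
        linarith
      · have h5 := mul_le_mul_of_nonneg_left (not_lt.1 h4) (hct y)
        linarith
    refine (Finset.sum_le_sum fun y _ => h2 y).trans ?_
    rw [Finset.sum_add_distrib, ← Finset.sum_mul, hsum, one_mul, ← Finset.mul_sum]
    have h5 : 2 * (N : ℝ) * ∑ y, (if ε / 4 * N < |g y - a| then ct n t y else 0) ≤
        2 * N * (ε / 8) := mul_le_mul_of_nonneg_left (ha.trans hq'2) (by positivity)
    linarith
  refine le_trans (Finset.sum_le_sum fun x _ => ?_) (ha.trans hq'1)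
  by_cases h1 : ε * N < |g x - ∑ y, ct n t y * g y|
  · rw [if_pos h1, if_pos]
    have h2 : |g x - ∑ y, ct n t y * g y| ≤ |g x - a| + |∑ y, ct n t y * g y - a| := by
      have h3 : g x - ∑ y, ct n t y * g y = (g x - a) - (∑ y, ct n t y * g y - a) := by ring
      rw [h3]
      exact abs_sub _ _
    have h4 : ε / 4 * N + ε / 2 * N ≤ ε * N := by
      have : 0 ≤ ε * N := by positivity
      linarith
    linarith
  · rw [if_neg h1]
    split_ifs
    · exact hct x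
    · exact le_rfl

end Pool.Agent.CutSeq
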