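import Pool.Agent.NJ.Conc43
import Pool.Agent.CutFull.RowD

/-! S19271, target B, row HOLES piece (K) (helper43): the rank of every corner of the closed system is
concentrated at scale `o(N)`, uniformly in the size `n ≤ N`, the time `t ≤ C N` and the corner. -/

set_option autoImplicit false

namespace Pool.Agent.CutFull

open Finset Pool.Agent.CutSeq
open Pool.Agent.Helper8.UT (MM EE pm UTS EE_mono EE_add pm_nonneg pm_out EE_le_one EE_nonneg)

/-- expectations in triangular coordinates -/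
theorem EE_eq_ct43 {n : ℕ} (hn : 2 ≤ n) {t : ℝ} (ht : 0 ≤ t) (f : MM n → ℝ) :
    EE n t f = ∑ x : Un n, ct n t x * f (toMat n x) := by
  classical
  rw [EE_expand]
  have h1 : ∑ x : Un n, ct n t x * f (toMat n x) =
      ∑ B ∈ Finset.univ.image (toMat n), pm n t B * f B := by
    rw [Finset.sum_image (fun x _ y _ hxy => toMat_injective n hxy)]
    exact Finset.sum_congr rfl fun x _ => by rw [ct_eq_pm hn]
  rw [h1]
  symm
  refine Finset.sum_subset (Finset.subset_univ _) fun B _ hB => ?_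
  rw [pm_out n ht B, zero_mul]
  intro hU
  apply hB
  rw [Finset.mem_image]
  obtain ⟨x, hx⟩ := (mem_range_toMat n B).2 ⟨hU.1, fun a b h => hU.2 a b h⟩
  exact ⟨x, Finset.mem_univ _, hx⟩

/-- entries of the matrix -/
lemma toMat_sub43 {n r : ℕ} {x x' : Un n} {D : ℕ → ℕ → ZMod 2}
    (hD : ∀ (k : Fin n) (j : Fin k.val), x k j - x' k j = D k.val j.val) (i j : Fin n)
    (h : i.val < j.val) :
    toMat n x i j = toMat n x' i j + D (n - 1 - i.val) (n - 1 - j.val) := by
  have _ := r
  unfold toMat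
  rw [dif_pos h, dif_pos h]
  have := hD ⟨n - 1 - i.val, by have := i.isLt; omega⟩
    ⟨n - 1 - j.val, by have := j.isLt; simp only; omega⟩
  simp only at this
  rw [← this]
  ring

/-- corner ranks are Lipschitz for the rank distance -/
theorem crk_lip43 {n r : ℕ} {x x' : Un n} (h : RkU r x x') {a b : ℕ} (hab : a ≤ b) :
    crk a b (toMat n x) ≤ crk a b (toMat n x') + r := by
  classical
  obtain ⟨D, ⟨u, v, huv⟩, hD⟩ := h
  let P : Matrix (Fin n) (Fin r) (ZMod 2) := fun i α => if i.val < a then u α (n - 1 - i.val) else 0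
  let Q : Matrix (Fin r) (Fin n) (ZMod 2) := fun α j => if b ≤ j.val then v α (n - 1 - j.val) else 0
  have h1 : cblk a b (toMat n x) = cblk a b (toMat n x') + P * Q := by
    funext i j
    rw [Matrix.add_apply, Matrix.mul_apply]
    unfold cblk
    by_cases h2 : i.val < a ∧ b ≤ j.val
    · rw [if_pos h2, if_pos h2, toMat_sub43 (r := r) hD i j (by omega), huv]
      congr 1
      refine Finset.sum_congr rfl fun α _ => ?_
      simp only [P, Q]
      rw [if_pos h2.1, if_pos h2.2]
    · rw [if_neg h2, if_neg h2, zero_add]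
      symm
      refine Finset.sum_eq_zero fun α _ => ?_
      simp only [P, Q]
      rw [not_and_or] at h2
      rcases h2 with h2 | h2
      · rw [if_neg h2, zero_mul]
      · rw [if_neg h2, mul_zero]
  unfold crk
  rw [h1]
  refine (Pool.Agent.Helper8.UT.mrank_add_le _ _).trans (Nat.add_le_add_left ?_ _)
  refine (Matrix.rank_mul_le_left P Q).trans ?_
  refine (Matrix.rank_le_card_width P).trans ?_
  rw [Fintype.card_fin]

theorem RkU.symm43 {n r : ℕ} {x x' : Un n} (h : RkU r x x') : RkU r x' x := by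
  obtain ⟨D, ⟨u, v, huv⟩, hD⟩ := h
  refine ⟨fun k j => - D k j, ⟨fun a k => - u a k, v, fun k j => ?_⟩, fun k j => ?_⟩
  · show - D k j = ∑ a, (- u a k) * v a j
    rw [huv, ← Finset.sum_neg_distrib]
    exact Finset.sum_congr rfl fun a _ => (neg_mul _ _).symm
  · show x' k j - x k j = - D k.val j.val
    rw [← hD k j]
    ring

theorem crk_le43 {n : ℕ} (a b : ℕ) (A : MM n) : crk a b A ≤ n := by
  unfold crk
  refine (Matrix.rank_le_card_width _).trans ?_
  rw [Fintype.card_fin]

open Classical in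
/-- **(K)**: every corner rank is concentrated at scale `o(N)` -/
theorem crk_conc43 (ε q C : ℝ) (hε : 0 < ε) (hq : 0 < q) (hC : 0 < C) :
    ∃ N₀ : ℕ, ∀ N ≥ N₀, ∀ n ≤ N, ∀ t : ℝ, 0 ≤ t → t ≤ C * N → ∀ a b : ℕ, a ≤ b →
      EE n t (fun A => if ε * N < |(crk a b A : ℝ) - EE n t (fun A => (crk a b A : ℝ))|
        then (1 : ℝ) else 0) ≤ q := by
  obtain ⟨N₀, hN₀⟩ := conc43 ε q C hε hq hC
  refine ⟨max N₀ ⌈2 / ε⌉₊, fun N hN n hn t ht htC a b hab => ?_⟩
  have hN1 : N₀ ≤ N := (le_max_left _ _).trans hN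
  have hN2 : 2 / ε ≤ N := (Nat.le_ceil _).trans (by exact_mod_cast (le_max_right _ _).trans hN)
  by_cases hn2 : 2 ≤ n
  · rw [EE_eq_ct43 hn2 ht, EE_eq_ct43 hn2 ht]
    have h := hN₀ N hN1 n hn t ht htC (fun x => (crk a b (toMat n x) : ℝ)) (fun r x x' hr => by
      have h1 := crk_lip43 hr hab
      have h2 := crk_lip43 (RkU.symm43 hr) hab
      have h3 : (crk a b (toMat n x) : ℝ) ≤ crk a b (toMat n x') + r := by exact_mod_cast h1
      have h4 : (crk a b (toMat n x') : ℝ) ≤ crk a b (toMat n x) + r := by exact_mod_cast h2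
      have h5 : (0 : ℝ) ≤ r := Nat.cast_nonneg r
      rw [abs_le]
      constructor <;> linarith) (fun x => by
      rw [abs_of_nonneg (Nat.cast_nonneg _)]
      exact_mod_cast (crk_le43 a b _).trans hn)
    refine le_trans (le_of_eq ?_) h
    refine Finset.sum_congr rfl fun x _ => ?_
    split_ifs <;> simp
  · -- small sizes
    have h1 : ∀ A : MM n, (crk a b A : ℝ) ≤ 1 := fun A => by
      exact_mod_cast (crk_le43 a b A).trans (by omega)
    have h2 : EE n t (fun A => (crk a b A : ℝ)) ≤ 1 := EE_le_one ht h1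
    have h3 : 0 ≤ EE n t (fun A => (crk a b A : ℝ)) := EE_nonneg ht fun A => Nat.cast_nonneg _
    have h4 : 2 ≤ ε * N := by
      rw [div_le_iff₀ hε] at hN2
      linarith
    refine le_trans (EE_le_one (c := 0) ht fun A => ?_) hq.le
    rw [if_neg]
    rw [not_lt]
    have h5 := h1 A
    have h6 : (0 : ℝ) ≤ (crk a b A : ℝ) := Nat.cast_nonneg _
    rw [abs_le]
    constructor <;> linarith

open Classical in
/-- (K) for the inverse matrix -/
theorem crk_conc_sub43 (ε q C : ℝ) (hε : 0 < ε) (hq : 0 < q) (hC : 0 < C) :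
    ∃ N₀ : ℕ, ∀ N ≥ N₀, ∀ n ≤ N, ∀ t : ℝ, 0 ≤ t → t ≤ C * N → ∀ a b a' b' : ℕ, a ≤ b → a' ≤ b' →
      EE n t (fun A => if (crk a b A : ℝ) - crk a' b' A <
        EE n t (fun A => (crk a b A : ℝ)) - EE n t (fun A => (crk a' b' A : ℝ)) - ε * N
        then (1 : ℝ) else 0) ≤ q := by
  obtain ⟨N₀, hN₀⟩ := crk_conc43 (ε / 2) (q / 2) C (by positivity) (by positivity) hC
  refine ⟨N₀, fun N hN n hn t ht htC a b a' b' hab hab' => ?_⟩
  have h1 := hN₀ N hN n hn t ht htC a b hab
  have h2 := hN₀ N hN n hn t ht htC a' b' hab'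
  refine le_trans (EE_mono ht (g := fun A =>
    (if ε / 2 * N < |(crk a b A : ℝ) - EE n t (fun A => (crk a b A : ℝ))| then (1 : ℝ) else 0) +
    (if ε / 2 * N < |(crk a' b' A : ℝ) - EE n t (fun A => (crk a' b' A : ℝ))| then (1 : ℝ) else 0))
    fun A _ => ?_) ?_
  · by_cases h3 : (crk a b A : ℝ) - crk a' b' A <
        EE n t (fun A => (crk a b A : ℝ)) - EE n t (fun A => (crk a' b' A : ℝ)) - ε * N
    · rw [if_pos h3]
      by_cases h4 : ε / 2 * N < |(crk a b A : ℝ) - EE n t (fun A => (crk a b A : ℝ))|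
      · rw [if_pos h4]
        split_ifs <;> norm_num
      · rw [if_neg h4, if_pos]
        · norm_num
        · by_contra h5
          have h6 := (abs_le.1 (not_lt.1 h4)).1
          have h7 := (abs_le.1 (not_lt.1 h5)).2
          linarith
    · rw [if_neg h3]
      split_ifs <;> norm_num
  · rw [EE_add]
    linarith

end Pool.Agent.CutFull
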