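import Pool.Agent.NJ.Model84

/-!
S19271, row MODEL: siblings from coins, extended columns (column and its corner bits with row
siblings).
-/

set_option autoImplicit false

namespace Pool.Agent.CutSeq.NJ

open Finset

variable {B L : ℕ}

/-! #### definitions -/

/-- row sibling of level `k` with the coins `ξ`: its entry in the column `j` -/
def Xl (α : Seq) (L k : ℕ) (ξ : Fin L → ZMod 2) (j : ℕ) : ZMod 2 :=
  ∑ r : Fin L, if (α r.val).1 + 1 = k then ξ r * Mst α r.val (k - 1) j else 0

/-- row sibling of the window with the coins `ξ` -/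
def Xc (α : Seq) (L a n : ℕ) (ξ : Fin L → ZMod 2) : V n := fun j => Xl α L (a + n) ξ (a + j.val)

/-- column sibling of the window with the coins `c` -/
def Yc (α : Seq) (L a n : ℕ) (c : Fin L → ZMod 2) : V n :=
  ∑ s : Fin L, if (α s.val).1 + 1 = a then c s • colV α L s.val a n else 0

/-- weight of a ring `s` of the lower boundary bond in the corner bit with the row sibling `ξ` -/
def qv (α : Seq) (L a n : ℕ) (ξ : Fin L → ZMod 2) (s : ℕ) : ZMod 2 :=
  ∑ r : Fin L, if s < r.val ∧ (α r.val).1 + 1 = a + n then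
    ξ r * Mst (shift α (s + 1)) (r.val - (s + 1)) (a + n - 1) a else 0

/-- corner bit of the row sibling `ξ` and the column sibling `c` -/
def crn (α : Seq) (L a n : ℕ) (ξ c : Fin L → ZMod 2) : ZMod 2 :=
  ∑ s : Fin L, if (α s.val).1 + 1 = a then c s * qv α L a n ξ s.val else 0

/-- coefficient vector of the extended column -/
def extC (α : Seq) (L a n : ℕ) {i : ℕ} (ξ : Fin i → Fin L → ZMod 2) (s : ℕ) : V (n + i) :=
  Fin.append (colV α L s a n) (fun l => qv α L a n (ξ l) s)

/-- extended column `j`: the column on the rows of the window, and the entries of the row siblings -/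
def colE (α : Seq) (L a n : ℕ) {i : ℕ} (ξ : Fin i → Fin L → ZMod 2) (j : ℕ) : V (n + i) :=
  Fin.append (colW α L a n j) (fun l => Xl α L (a + n) (ξ l) j)

/-- space of the extended columns -/
def TCE (α : Seq) (L a n : ℕ) {i : ℕ} (ξ : Fin i → Fin L → ZMod 2) : Submodule (ZMod 2) (V (n + i)) :=
  Submodule.span (ZMod 2) {x | ∃ s < L, (α s).1 + 1 = a ∧ x = extC α L a n ξ s}

/-! #### row siblings -/

theorem Xc_eq (α : Seq) (a n : ℕ) (ξ : Fin L → ZMod 2) :
    Xc α L a n ξ = coinL α L (a + n) (fun i => lowW α i a n) ξ := by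
  funext j
  rw [coinL_apply]
  unfold Xc Xl
  rw [Finset.sum_apply, ← Fin.sum_univ_eq_sum_range (fun i : ℕ => (if (α i).1 + 1 = a + n then
      (if h : i < L then ξ ⟨i, h⟩ else 0) • lowW α i a n else 0 : V n) j) L]
  refine Finset.sum_congr rfl fun r _ => ?_
  simp only [r.isLt, dif_pos, Fin.eta]
  by_cases h : (α r.val).1 + 1 = a + n
  · rw [if_pos h, if_pos h]
    rfl
  · rw [if_neg h, if_neg h]
    rfl

theorem Yc_eq (α : Seq) (a n : ℕ) (c : Fin L → ZMod 2) :
    Yc α L a n c = coinL α L a (fun i => colV α L i a n) c := by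
  rw [coinL_apply]
  unfold Yc
  rw [← Fin.sum_univ_eq_sum_range (fun i : ℕ => (if (α i).1 + 1 = a then
      (if h : i < L then c ⟨i, h⟩ else 0) • colV α L i a n else 0 : V n)) L]
  refine Finset.sum_congr rfl fun r _ => ?_
  simp only [r.isLt, dif_pos, Fin.eta]

/-- a uniform coin vector gives the uniform law on the range -/
theorem sum_lin {n : ℕ} (Λ : (Fin L → ZMod 2) →ₗ[ZMod 2] V n) (g : V n → ℝ) :
    ∑ c : Fin L → ZMod 2, g (Λ c)
      = (Fintype.card (Fin L → ZMod 2) : ℝ) * ∑ x, uT (LinearMap.range Λ) x * g x := by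
  classical
  have h1 : ∀ c : Fin L → ZMod 2, g (Λ c) = ∑ x, (if 0 + Λ c = x then (1 : ℝ) else 0) * g x := by
    intro c
    simp only [zero_add, ite_mul, one_mul, zero_mul]
    rw [Finset.sum_ite_eq univ (Λ c) g]
    simp
  rw [Finset.sum_congr rfl fun c _ => h1 c, Finset.sum_comm, Finset.mul_sum]
  refine Finset.sum_congr rfl fun x _ => ?_
  rw [← Finset.sum_mul, count_lin Λ 0 x (Submodule.zero_mem _), mul_assoc]

theorem sum_Xc (α : Seq) (a n : ℕ) (g : V n → ℝ) : ∑ ξ : Fin L → ZMod 2, g (Xc α L a n ξ)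
      = (Fintype.card (Fin L → ZMod 2) : ℝ) * ∑ x, uT (TR α L a n) x * g x := by
  simp only [Xc_eq]
  rw [sum_lin, TR_eq_range]

theorem sum_Yc (α : Seq) (a n : ℕ) (g : V n → ℝ) : ∑ c : Fin L → ZMod 2, g (Yc α L a n c)
      = (Fintype.card (Fin L → ZMod 2) : ℝ) * ∑ x, uT (TC α L a n) x * g x := by
  simp only [Yc_eq]
  rw [sum_lin, TC_eq_range]

/-! #### crossing the lower boundary bond -/

/-- paths from a column before the window to a row of the window cross the bond `a - 1` -/
theorem cross (α : Seq) (a j : ℕ) (hj : j < a) (r k : ℕ) (hk : a ≤ k) :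
    Mst α r k j = ∑ s ∈ range r, if (α s).1 + 1 = a then
      ((α s).2 * Mst α s (a - 1) j) * Mst (shift α (s + 1)) (r - (s + 1)) k a else 0 := by
  induction r generalizing k with
  | zero =>
    show (if k = j then (1 : ZMod 2) else 0) = _
    rw [if_neg (by omega), range_zero, sum_empty]
  | succ r ih =>
    have e : Mst α (r + 1) k j = Mst α r k j +
        if k = (α r).1 + 1 then (α r).2 * Mst α r (α r).1 j else 0 := rfl
    have e2 : ∀ s ∈ range r, (if (α s).1 + 1 = a then ((α s).2 * Mst α s (a - 1) j) *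
          Mst (shift α (s + 1)) (r + 1 - (s + 1)) k a else 0)
        = (if (α s).1 + 1 = a then ((α s).2 * Mst α s (a - 1) j) *
            Mst (shift α (s + 1)) (r - (s + 1)) k a else 0)
          + if k = (α r).1 + 1 then (α r).2 * (if (α s).1 + 1 = a then
            ((α s).2 * Mst α s (a - 1) j) * Mst (shift α (s + 1)) (r - (s + 1)) (α r).1 a else 0)
            else 0 := by
      intro s hs
      rw [mem_range] at hs
      have e3 : r + 1 - (s + 1) = (r - (s + 1)) + 1 := by omega
      have e4 : shift α (s + 1) (r - (s + 1)) = α r := by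
        show α (s + 1 + (r - (s + 1))) = α r
        rw [show s + 1 + (r - (s + 1)) = r by omega]
      have e5 : Mst (shift α (s + 1)) (r + 1 - (s + 1)) k a =
          Mst (shift α (s + 1)) (r - (s + 1)) k a +
          if k = (α r).1 + 1 then (α r).2 * Mst (shift α (s + 1)) (r - (s + 1)) (α r).1 a else 0 := by
        rw [e3]
        show Mst (shift α (s + 1)) (r - (s + 1)) k a + (if k = (shift α (s + 1) (r - (s + 1))).1 + 1
          then (shift α (s + 1) (r - (s + 1))).2 *
            Mst (shift α (s + 1)) (r - (s + 1)) (shift α (s + 1) (r - (s + 1))).1 a else 0) = _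
        rw [e4]
      rw [e5]
      by_cases h1 : (α s).1 + 1 = a
      · by_cases h2 : k = (α r).1 + 1
        · simp only [if_pos h1, if_pos h2]
          ring
        · simp only [if_pos h1, if_neg h2, add_zero]
      · by_cases h2 : k = (α r).1 + 1
        · simp only [if_neg h1, if_pos h2, mul_zero, add_zero]
        · simp only [if_neg h1, if_neg h2, add_zero]
    rw [sum_range_succ, Finset.sum_congr rfl e2, sum_add_distrib, ← ih k hk, e, add_assoc]
    congr 1
    have e6 : Mst (shift α (r + 1)) (r + 1 - (r + 1)) k a = if k = a then 1 else 0 := by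
      rw [Nat.sub_self]
      rfl
    rw [e6]
    by_cases h2 : k = (α r).1 + 1
    · by_cases h3 : a ≤ (α r).1
      · rw [if_pos h2, ih (α r).1 h3, if_neg (show ¬ (α r).1 + 1 = a by omega), add_zero, mul_sum]
        refine Finset.sum_congr rfl fun s _ => ?_
        rw [if_pos h2]
      · have h4 : (α r).1 + 1 = a := by omega
        have h5 : k = a := by omega
        rw [if_pos h2, if_pos h4, if_pos h5, mul_one]
        have h6 : (∑ s ∈ range r, if k = (α r).1 + 1 then (α r).2 * (if (α s).1 + 1 = a then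
            ((α s).2 * Mst α s (a - 1) j) * Mst (shift α (s + 1)) (r - (s + 1)) (α r).1 a else 0)
            else 0) = 0 := by
          refine Finset.sum_eq_zero fun s _ => ?_
          rw [Mst_upper (shift α (s + 1)) (r - (s + 1)) (α r).1 a (by omega)]
          simp
        rw [h6, zero_add, show (α r).1 = a - 1 by omega]
    · have h4 : (∑ s ∈ range r, if k = (α r).1 + 1 then (α r).2 * (if (α s).1 + 1 = a then
            ((α s).2 * Mst α s (a - 1) j) * Mst (shift α (s + 1)) (r - (s + 1)) (α r).1 a else 0)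
            else 0) = 0 := by
        refine Finset.sum_eq_zero fun s _ => ?_
        rw [if_neg h2]
      rw [if_neg h2, h4, zero_add]
      by_cases h5 : (α r).1 + 1 = a
      · rw [if_pos h5, if_neg (by omega), mul_zero]
      · rw [if_neg h5]


theorem Xl_eq (α : Seq) (a n j : ℕ) (hn : 1 ≤ n) (hj : j < a) (ξ : Fin L → ZMod 2) :
    Xl α L (a + n) ξ j = ∑ s ∈ range L, if (α s).1 + 1 = a then
      ((α s).2 * Mst α s (a - 1) j) * qv α L a n ξ s else 0 := by
  have h1 : Xl α L (a + n) ξ j = ∑ r : Fin L, ∑ s ∈ range L,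
      if (α s).1 + 1 = a ∧ s < r.val ∧ (α r.val).1 + 1 = a + n then
        ((α s).2 * Mst α s (a - 1) j) *
          (ξ r * Mst (shift α (s + 1)) (r.val - (s + 1)) (a + n - 1) a) else 0 := by
    unfold Xl
    refine Finset.sum_congr rfl fun r _ => ?_
    by_cases h2 : (α r.val).1 + 1 = a + n
    · rw [if_pos h2, cross α a j hj r.val (a + n - 1) (by omega), mul_sum]
      have h3 : ∑ s ∈ range r.val, ξ r * (if (α s).1 + 1 = a then
          ((α s).2 * Mst α s (a - 1) j) * Mst (shift α (s + 1)) (r.val - (s + 1)) (a + n - 1) a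
          else 0) = ∑ s ∈ (range L).filter (fun s => s < r.val), ξ r * (if (α s).1 + 1 = a then
          ((α s).2 * Mst α s (a - 1) j) * Mst (shift α (s + 1)) (r.val - (s + 1)) (a + n - 1) a
          else 0) := by
        refine Finset.sum_congr ?_ fun _ _ => rfl
        ext s
        have := r.isLt
        simp only [mem_range, mem_filter]
        omega
      rw [h3, Finset.sum_filter]
      refine Finset.sum_congr rfl fun s _ => ?_
      by_cases h4 : s < r.val
      · by_cases h5 : (α s).1 + 1 = a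
        · rw [if_pos h4, if_pos h5, if_pos ⟨h5, h4, h2⟩]
          ring
        · rw [if_pos h4, if_neg h5, if_neg (fun h => h5 h.1), mul_zero]
      · rw [if_neg h4, if_neg (fun h => h4 h.2.1)]
    · rw [if_neg h2]
      refine (Finset.sum_eq_zero fun s _ => ?_).symm
      rw [if_neg (fun h => h2 h.2.2)]
  rw [h1, Finset.sum_comm]
  refine Finset.sum_congr rfl fun s _ => ?_
  by_cases h5 : (α s).1 + 1 = a
  · rw [if_pos h5]
    unfold qv
    rw [mul_sum]
    refine Finset.sum_congr rfl fun r _ => ?_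
    by_cases h6 : s < r.val ∧ (α r.val).1 + 1 = a + n
    · rw [if_pos h6, if_pos ⟨h5, h6⟩]
    · rw [if_neg h6, if_neg (fun h => h6 h.2), mul_zero]
  · rw [if_neg h5]
    refine Finset.sum_eq_zero fun r _ => ?_
    rw [if_neg (fun h => h5 h.1)]

/-- an extended column before the window is a combination of the coefficient vectors -/
theorem colE_eq (α : Seq) (a n j : ℕ) (hn : 1 ≤ n) (hj : j < a) {i : ℕ}
    (ξ : Fin i → Fin L → ZMod 2) :
    colE α L a n ξ j = ∑ s ∈ range L, if (α s).1 + 1 = a then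
      ((α s).2 * Mst α s (a - 1) j) • extC α L a n ξ s else 0 := by
  funext x
  rw [Finset.sum_apply]
  refine Fin.addCases (fun k => ?_) (fun l => ?_) x
  · have h1 : colE α L a n ξ j (Fin.castAdd i k) = Mst α L (a + k.val) j := by
      unfold colE
      rw [Fin.append_left]
      rfl
    rw [h1, cross α a j hj L (a + k.val) (by omega)]
    refine Finset.sum_congr rfl fun s _ => ?_
    by_cases h : (α s).1 + 1 = a
    · rw [if_pos h, if_pos h, Pi.smul_apply]
      unfold extC
      rw [Fin.append_left]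
      rfl
    · rw [if_neg h, if_neg h]
      rfl
  · have h1 : colE α L a n ξ j (Fin.natAdd n l) = Xl α L (a + n) (ξ l) j := by
      unfold colE
      rw [Fin.append_right]
    rw [h1, Xl_eq α a n j hn hj]
    refine Finset.sum_congr rfl fun s _ => ?_
    by_cases h : (α s).1 + 1 = a
    · rw [if_pos h, if_pos h, Pi.smul_apply]
      unfold extC
      rw [Fin.append_right]
      rfl
    · rw [if_neg h, if_neg h]
      rfl

/-- extended columns before the window lie in the space -/
theorem colE_mem (α : Seq) (a n j : ℕ) (hn : 1 ≤ n) (hj : j < a) {i : ℕ}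
    (ξ : Fin i → Fin L → ZMod 2) : colE α L a n ξ j ∈ TCE α L a n ξ := by
  rw [colE_eq α a n j hn hj]
  refine Submodule.sum_mem _ fun s hs => ?_
  split_ifs with h
  · exact Submodule.smul_mem _ _ (Submodule.subset_span ⟨s, mem_range.1 hs, h, rfl⟩)
  · exact Submodule.zero_mem _

theorem TCE_eq_range (α : Seq) (a n : ℕ) {i : ℕ} (ξ : Fin i → Fin L → ZMod 2) :
    TCE α L a n ξ = LinearMap.range (coinL α L a (extC α L a n ξ)) :=
  (range_coinL α a _).symm

/-- the extended column sibling with the coins `c`: column sibling and corner bits -/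
theorem extC_coins (α : Seq) (a n : ℕ) {i : ℕ} (ξ : Fin i → Fin L → ZMod 2) (c : Fin L → ZMod 2) :
    coinL α L a (extC α L a n ξ) c = Fin.append (Yc α L a n c) (fun l => crn α L a n (ξ l) c) := by
  have h0 : coinL α L a (extC α L a n ξ) c =
      ∑ s : Fin L, if (α s.val).1 + 1 = a then c s • extC α L a n ξ s.val else 0 := by
    rw [coinL_apply, ← Fin.sum_univ_eq_sum_range (fun i' : ℕ => (if (α i').1 + 1 = a then
      (if h : i' < L then c ⟨i', h⟩ else 0) • extC α L a n ξ i' else 0 : V (n + i))) L]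
    refine Finset.sum_congr rfl fun r _ => ?_
    simp only [r.isLt, dif_pos, Fin.eta]
  rw [h0]
  funext x
  rw [Finset.sum_apply]
  refine Fin.addCases (fun k => ?_) (fun l => ?_) x
  · rw [Fin.append_left]
    unfold Yc
    rw [Finset.sum_apply]
    refine Finset.sum_congr rfl fun s _ => ?_
    by_cases h : (α s.val).1 + 1 = a
    · rw [if_pos h, if_pos h, Pi.smul_apply, Pi.smul_apply]
      unfold extC
      rw [Fin.append_left]
    · rw [if_neg h, if_neg h]
      rfl
  · rw [Fin.append_right]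
    unfold crn
    refine Finset.sum_congr rfl fun s _ => ?_
    by_cases h : (α s.val).1 + 1 = a
    · rw [if_pos h, if_pos h, Pi.smul_apply]
      unfold extC
      rw [Fin.append_right]
      rfl
    · rw [if_neg h, if_neg h]
      rfl

theorem sum_extC (α : Seq) (a n : ℕ) {i : ℕ} (ξ : Fin i → Fin L → ZMod 2) (g : V (n + i) → ℝ) :
    ∑ c : Fin L → ZMod 2, g (Fin.append (Yc α L a n c) (fun l => crn α L a n (ξ l) c))
      = (Fintype.card (Fin L → ZMod 2) : ℝ) * ∑ x, uT (TCE α L a n ξ) x * g x := by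
  simp only [← extC_coins]
  rw [sum_lin, TCE_eq_range]

/-! #### histories -/

theorem SameW.Xl_eq {a n : ℕ} {ω ω' : Wd B L} (h : SameW a n ω ω') (ξ : Fin L → ZMod 2) (j : ℕ)
    (hj : a ≤ j) (hn : 1 ≤ n) : Xl (ext ω) L (a + n) ξ j = Xl (ext ω') L (a + n) ξ j := by
  unfold Xl
  refine Finset.sum_congr rfl fun r _ => ?_
  by_cases h1 : (ext ω r.val).1 + 1 = a + n
  · have h2 := bond_of_mskW (h r.val r.isLt) (by omega)
    rw [if_pos h1, if_pos (by omega)]
    have h3 := Mst_congrW (α := ext ω) (β := ext ω') (a := a) (n := n) (l := r.val)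
      (fun i hi => h i (by have := r.isLt; omega)) (n - 1) (by omega) (j - a)
    rw [show a + n - 1 = a + (n - 1) by omega, show j = a + (j - a) by omega, h3]
  · have h2 : ¬ (ext ω' r.val).1 + 1 = a + n := by
      intro h3
      have := bond_of_mskW (h r.val r.isLt).symm (by omega)
      omega
    rw [if_neg h1, if_neg h2]

theorem SameW.Xc_eq {a n : ℕ} {ω ω' : Wd B L} (h : SameW a n ω ω') (ξ : Fin L → ZMod 2) :
    Xc (ext ω) L a n ξ = Xc (ext ω') L a n ξ := by
  funext j
  exact h.Xl_eq ξ (a + j.val) (by omega) (by have := j.isLt; omega)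

theorem SameW.colV_eq {a n : ℕ} {ω ω' : Wd B L} (h : SameW a n ω ω') (s : ℕ) :
    colV (ext ω) L s a n = colV (ext ω') L s a n := by
  funext k
  exact Mst_congrW (α := shift (ext ω) (s + 1)) (β := shift (ext ω') (s + 1)) (a := a) (n := n)
    (l := L - (s + 1)) (fun i' hi' => h (s + 1 + i') (by omega)) k.val k.isLt 0

theorem SameW.Yc_eq {a n : ℕ} {ω ω' : Wd B L} (h : SameW a n ω ω') (c : Fin L → ZMod 2) :
    Yc (ext ω) L a n c = Yc (ext ω') L a n c := by
  unfold Yc
  refine Finset.sum_congr rfl fun s _ => ?_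
  by_cases h1 : (ext ω s.val).1 + 1 = a
  · have h2 := bond_of_mskW (h s.val s.isLt) (by omega)
    rw [if_pos h1, if_pos (by omega), h.colV_eq]
  · have h2 : ¬ (ext ω' s.val).1 + 1 = a := by
      intro h3
      have := bond_of_mskW (h s.val s.isLt).symm (by omega)
      omega
    rw [if_neg h1, if_neg h2]

theorem SameW.qv_eq {a n : ℕ} {ω ω' : Wd B L} (h : SameW a n ω ω') (hn : 1 ≤ n)
    (ξ : Fin L → ZMod 2) (s : ℕ) : qv (ext ω) L a n ξ s = qv (ext ω') L a n ξ s := by
  unfold qv
  refine Finset.sum_congr rfl fun r _ => ?_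
  by_cases h1 : (ext ω r.val).1 + 1 = a + n
  · have h2 := bond_of_mskW (h r.val r.isLt) (by omega)
    have h3 := Mst_congrW (α := shift (ext ω) (s + 1)) (β := shift (ext ω') (s + 1)) (a := a)
      (n := n) (l := r.val - (s + 1)) (fun i' hi' => h (s + 1 + i') (by
        have := r.isLt
        omega)) (n - 1) (by omega) 0
    have h4 : (ext ω' r.val).1 + 1 = a + n := by omega
    by_cases h5 : s < r.val
    · rw [if_pos ⟨h5, h1⟩, if_pos ⟨h5, h4⟩, show a + n - 1 = a + (n - 1) by omega]
      exact congrArg (fun x => ξ r * x) h3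
    · rw [if_neg (fun h => h5 h.1), if_neg (fun h => h5 h.1)]
  · have h2 : ¬ (ext ω' r.val).1 + 1 = a + n := by
      intro h3
      have := bond_of_mskW (h r.val r.isLt).symm (by omega)
      omega
    rw [if_neg (fun h => h1 h.2), if_neg (fun h => h2 h.2)]

theorem SameW.crn_eq {a n : ℕ} {ω ω' : Wd B L} (h : SameW a n ω ω') (hn : 1 ≤ n)
    (ξ c : Fin L → ZMod 2) : crn (ext ω) L a n ξ c = crn (ext ω') L a n ξ c := by
  unfold crn
  refine Finset.sum_congr rfl fun s _ => ?_
  by_cases h1 : (ext ω s.val).1 + 1 = a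
  · have h2 := bond_of_mskW (h s.val s.isLt) (by omega)
    rw [if_pos h1, if_pos (by omega), h.qv_eq hn]
  · have h2 : ¬ (ext ω' s.val).1 + 1 = a := by
      intro h3
      have := bond_of_mskW (h s.val s.isLt).symm (by omega)
      omega
    rw [if_neg h1, if_neg h2]

theorem SameW.extC_eq {a n : ℕ} {ω ω' : Wd B L} (h : SameW a n ω ω') (hn : 1 ≤ n) {i : ℕ}
    (ξ : Fin i → Fin L → ZMod 2) (s : ℕ) : extC (ext ω) L a n ξ s = extC (ext ω') L a n ξ s := by
  unfold extC
  rw [h.colV_eq]
  congr 1
  funext l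
  exact h.qv_eq hn (ξ l) s

theorem TCE_congr {a n : ℕ} {ω ω' : Wd B L} (h : SameW a n ω ω') (hn : 1 ≤ n) {i : ℕ}
    (ξ : Fin i → Fin L → ZMod 2) : TCE (ext ω) L a n ξ ≤ TCE (ext ω') L a n ξ := by
  refine Submodule.span_mono ?_
  rintro x ⟨s, hs, h1, rfl⟩
  have h2 := bond_of_mskW (h s hs) (by omega)
  exact ⟨s, hs, by omega, h.extC_eq hn ξ s⟩

theorem SameW.TCE_eq {a n : ℕ} {ω ω' : Wd B L} (h : SameW a n ω ω') (hn : 1 ≤ n) {i : ℕ}
    (ξ : Fin i → Fin L → ZMod 2) : TCE (ext ω) L a n ξ = TCE (ext ω') L a n ξ :=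
  le_antisymm (TCE_congr h hn ξ) (TCE_congr h.symm hn ξ)

/-- (U-colE) the true extended column is uniform on the space of the extended columns -/
theorem colE_uniform (a n : ℕ) (ha : 1 ≤ a) (hn : 1 ≤ n) {i : ℕ} (ξ : Fin i → Fin L → ZMod 2)
    (f : Wd B L → ℝ) (hf : FlipInv a f) (x : V (n + i)) :
    ∑ ω, f ω * (if colE (ext ω) L a n ξ (a - 1) = x then 1 else 0)
      = ∑ ω, f ω * uT (TCE (ext ω) L a n ξ) x := by
  have e : ∀ ω : Wd B L, colE (ext ω) L a n ξ (a - 1) =
      ∑ s ∈ range L, if (ext ω s).1 + 1 = a then (ext ω s).2 • extC (ext ω) L a n ξ s else 0 := by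
    intro ω
    rw [colE_eq _ a n (a - 1) hn (by omega)]
    refine Finset.sum_congr rfl fun s _ => ?_
    rw [Mst_diag, mul_one]
  have h := coin_uniform (B := B) (L := L) a f hf
    (fun ω => coinL (ext ω) L a (extC (ext ω) L a n ξ))
    (fun ω => colE (ext ω) L a n ξ (a - 1)) (by
      intro c ω
      rw [e, e]
      exact sum_coins_flip a (fun ω s => extC (ext ω) L a n ξ s)
          (fun s _ => fun c ω => (sameW_flip a n a (Or.inl le_rfl) c ω).extC_eq hn ξ s) c ω) (by
      intro ω
      rw [e]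
      exact sum_coins_mem _ _ _) x
  simp only [← TCE_eq_range] at h
  exact h

end Pool.Agent.CutSeq.NJ
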