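import Pool.Agent.NJ.Prod13

/-!
The current bound: when the joint law of an array `A` and of one further row `R` is nearly invariant
under the single letters, the visible space `span {a : th ≤ post a A}` carries almost no current, on
average over the threshold.
-/

set_option autoImplicit false

namespace Pool.Agent.CutSeq.NJ

open Finset

/-- character of `ZMod 2` -/
def sgn (x : ZMod 2) : ℝ := if x = 0 then 1 else -1

theorem abs_sgn (x : ZMod 2) : |sgn x| = 1 := by
  unfold sgn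
  split_ifs <;> simp

section Abs

variable {AA : Type*} [Fintype AA] {n : ℕ}

/-- marginal of the array -/
noncomputable def mA (μ : AA → V n → ℝ) (A : AA) : ℝ := ∑ R, μ A R

/-- posterior mean of the character `a` -/
noncomputable def pst (μ : AA → V n → ℝ) (a : V n) (A : AA) : ℝ := ∑ R, μ A R / mA μ A * sgn (R ⬝ᵥ a)

/-- visible space at threshold `th` -/
noncomputable def Vth (μ : AA → V n → ℝ) (th : ℝ) (A : AA) : Submodule (ZMod 2) (V n) :=
  Submodule.span (ZMod 2) {a | th ≤ pst μ a A}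

/-- distance between the conditional laws at `A` and at `σ A` -/
noncomputable def dlt (μ : AA → V n → ℝ) (σ : AA → AA) (A : AA) : ℝ :=
  ∑ R, |μ A R / mA μ A - μ (σ A) R / mA μ (σ A)|

/-- distance between the joint law and its image -/
noncomputable def tvj (μ : AA → V n → ℝ) (σ : AA → AA) : ℝ := ∑ A, ∑ R, |μ A R - μ (σ A) R|

omit [Fintype AA] in
theorem mA_nonneg (μ : AA → V n → ℝ) (hμ : ∀ A R, 0 ≤ μ A R) (A : AA) : 0 ≤ mA μ A :=
  sum_nonneg fun R _ => hμ A R

omit [Fintype AA] in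
theorem dlt_nonneg (μ : AA → V n → ℝ) (σ : AA → AA) (A : AA) : 0 ≤ dlt μ σ A :=
  sum_nonneg fun _ _ => abs_nonneg _

theorem tvj_nonneg (μ : AA → V n → ℝ) (σ : AA → AA) : 0 ≤ tvj μ σ :=
  sum_nonneg fun _ _ => sum_nonneg fun _ _ => abs_nonneg _

omit [Fintype AA] in
theorem abs_mA_sub (μ : AA → V n → ℝ) (σ : AA → AA) (A : AA) :
    |mA μ A - mA μ (σ A)| ≤ ∑ R, |μ A R - μ (σ A) R| := by
  unfold mA
  rw [← sum_sub_distrib]
  exact abs_sum_le_sum_abs _ _

theorem sum_abs_mA_sub (μ : AA → V n → ℝ) (σ : AA → AA) :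
    ∑ A, |mA μ A - mA μ (σ A)| ≤ tvj μ σ :=
  sum_le_sum fun A _ => abs_mA_sub μ σ A

omit [Fintype AA] in
theorem mul_dlt (μ : AA → V n → ℝ) (hμ : ∀ A R, 0 ≤ μ A R) (σ : AA → AA) (A : AA) :
    mA μ A * dlt μ σ A ≤ 2 * ∑ R, |μ A R - μ (σ A) R| := by
  rcases (mA_nonneg μ hμ A).eq_or_lt with h | h
  · rw [← h, zero_mul]
    exact mul_nonneg (by norm_num) (sum_nonneg fun _ _ => abs_nonneg _)
  have h1 : ∀ R, mA μ A * |μ A R / mA μ A - μ (σ A) R / mA μ (σ A)|
      ≤ |μ A R - μ (σ A) R| + μ (σ A) R / mA μ (σ A) * |mA μ A - mA μ (σ A)| := by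
    intro R
    have e1 : mA μ A * (μ A R / mA μ A - μ (σ A) R / mA μ (σ A))
        = (μ A R - μ (σ A) R) + (μ (σ A) R - mA μ A * (μ (σ A) R / mA μ (σ A))) := by
      rw [mul_sub, mul_div_cancel₀ _ h.ne']
      ring
    have e2 : μ (σ A) R - mA μ A * (μ (σ A) R / mA μ (σ A))
        = μ (σ A) R / mA μ (σ A) * (mA μ (σ A) - mA μ A) := by
      rcases (mA_nonneg μ hμ (σ A)).eq_or_lt with h' | h'
      · have h2 : μ (σ A) R = 0 := by
          have := (sum_eq_zero_iff_of_nonneg fun R (_ : R ∈ univ) => hμ (σ A) R).1 h'.symm R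
            (mem_univ R)
          exact this
        rw [h2]
        simp
      · field_simp
    have e3 : 0 ≤ μ (σ A) R / mA μ (σ A) := div_nonneg (hμ _ _) (mA_nonneg μ hμ _)
    calc mA μ A * |μ A R / mA μ A - μ (σ A) R / mA μ (σ A)|
        = |mA μ A * (μ A R / mA μ A - μ (σ A) R / mA μ (σ A))| := by
          rw [abs_mul, abs_of_pos h]
      _ ≤ |μ A R - μ (σ A) R| + |μ (σ A) R / mA μ (σ A) * (mA μ (σ A) - mA μ A)| := by
          rw [e1, e2]
          exact abs_add_le _ _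
      _ = _ := by rw [abs_mul, abs_of_nonneg e3, abs_sub_comm (mA μ (σ A))]
  unfold dlt
  rw [mul_sum]
  refine (sum_le_sum fun R _ => h1 R).trans ?_
  rw [sum_add_distrib, ← sum_mul, ← sum_div]
  have h2 : (∑ R, μ (σ A) R) / mA μ (σ A) ≤ 1 := by
    change mA μ (σ A) / mA μ (σ A) ≤ 1
    exact div_self_le_one _
  have h3 := mul_le_mul h2 (abs_mA_sub μ σ A) (abs_nonneg _) zero_le_one
  rw [one_mul] at h3
  linarith

theorem sum_mul_dlt (μ : AA → V n → ℝ) (hμ : ∀ A R, 0 ≤ μ A R) (σ : AA → AA) :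
    ∑ A, mA μ A * dlt μ σ A ≤ 2 * tvj μ σ := by
  unfold tvj
  rw [mul_sum]
  exact sum_le_sum fun A _ => mul_dlt μ hμ σ A

omit [Fintype AA] in
theorem abs_pst_sub (μ : AA → V n → ℝ) (σ : AA → AA) (a : V n) (A : AA) :
    |pst μ a A - pst μ a (σ A)| ≤ dlt μ σ A := by
  unfold pst dlt
  rw [← sum_sub_distrib]
  refine (abs_sum_le_sum_abs _ _).trans (sum_le_sum fun R _ => ?_)
  rw [← sub_mul, abs_mul, abs_sgn, mul_one]

omit [Fintype AA] in
theorem Vth_anti (μ : AA → V n → ℝ) {th th' : ℝ} (h : th ≤ th') (A : AA) :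
    Vth μ th' A ≤ Vth μ th A :=
  Submodule.span_mono fun _ ha => h.trans ha

omit [Fintype AA] in
theorem Vth_le_right (μ : AA → V n → ℝ) (σ : AA → AA) {th η : ℝ} (A : AA) (h : dlt μ σ A ≤ η) :
    Vth μ (th + η) A ≤ Vth μ th (σ A) := by
  refine Submodule.span_mono fun a ha => ?_
  have h1 := (abs_le.1 (abs_pst_sub μ σ a A)).2
  simp only [Set.mem_ofPred_eq] at ha ⊢
  linarith

omit [Fintype AA] in
theorem Vth_le_left (μ : AA → V n → ℝ) (σ : AA → AA) {th η : ℝ} (A : AA) (h : dlt μ σ A ≤ η) :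
    Vth μ th (σ A) ≤ Vth μ (th - η) A := by
  refine Submodule.span_mono fun a ha => ?_
  have h1 := (abs_le.1 (abs_pst_sub μ σ a A)).1
  simp only [Set.mem_ofPred_eq] at ha ⊢
  linarith

/-- the properties of the pattern functions used here: `J b X A` is odd under the letter `b`, bounded,
and depends on `X` only through its tops at `b` and `b + 1` -/
structure Pat (n : ℕ) (AA : Type*) (σ : ℕ → AA → AA) where
  /-- number of bonds -/
  m : ℕ
  /-- current -/
  J : ℕ → Submodule (ZMod 2) (V n) → AA → ℝ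
  /-- tops -/
  tops : Submodule (ZMod 2) (V n) → AA → Finset ℕ
  inv : ∀ b < m, ∀ A, σ b (σ b A) = A
  odd : ∀ b < m, ∀ X A, J b X (σ b A) = - J b X A
  bdd : ∀ b X A, |J b X A| ≤ 1
  mono : ∀ X X' A, X ≤ X' → tops X A ⊆ tops X' A
  card : ∀ X A, (tops X A).card = Module.finrank (ZMod 2) X
  dep : ∀ b < m, ∀ X X' A, X ≤ X' → (b ∈ tops X' A → b ∈ tops X A) →
    (b + 1 ∈ tops X' A → b + 1 ∈ tops X A) → J b X A = J b X' A

variable {σ : ℕ → AA → AA}

/-- the current at one bond -/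
theorem cur_one (P : Pat n AA σ) (μ : AA → V n → ℝ) (hμ : ∀ A R, 0 ≤ μ A R) {b : ℕ} (hb : b < P.m)
    (th η : ℝ) (hη : 0 < η) :
    2 * |∑ A, mA μ A * P.J b (Vth μ th A) A| ≤ (1 + 4 / η) * tvj μ (σ b) +
      2 * ∑ A, mA μ A * (if b ∈ P.tops (Vth μ (th - η) A) A \ P.tops (Vth μ (th + η) A) A ∨
        b + 1 ∈ P.tops (Vth μ (th - η) A) A \ P.tops (Vth μ (th + η) A) A then (1 : ℝ) else 0) := by
  classical
  set D : AA → Prop := fun A => b ∈ P.tops (Vth μ (th - η) A) A \ P.tops (Vth μ (th + η) A) A ∨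
        b + 1 ∈ P.tops (Vth μ (th - η) A) A \ P.tops (Vth μ (th + η) A) A with hD
  have hs : ∀ g : AA → ℝ, ∑ A, g (σ b A) = ∑ A, g A := fun g =>
    Equiv.sum_comp (⟨σ b, σ b, P.inv b hb, P.inv b hb⟩ : AA ≃ AA) g
  have h1 : 2 * ∑ A, mA μ A * P.J b (Vth μ th A) A
      = ∑ A, ((mA μ A - mA μ (σ b A)) * P.J b (Vth μ th (σ b A)) A
        + mA μ A * (P.J b (Vth μ th A) A - P.J b (Vth μ th (σ b A)) A)) := by
    have e1 : ∑ A, mA μ A * P.J b (Vth μ th A) A
        = ∑ A, mA μ (σ b A) * P.J b (Vth μ th (σ b A)) (σ b A) :=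
      (hs fun A => mA μ A * P.J b (Vth μ th A) A).symm
    have e2 : ∑ A, mA μ (σ b A) * P.J b (Vth μ th (σ b A)) (σ b A)
        = ∑ A, - (mA μ (σ b A) * P.J b (Vth μ th (σ b A)) A) :=
      sum_congr rfl fun A _ => by rw [P.odd b hb]; ring
    rw [two_mul]
    nth_rewrite 2 [e1]
    rw [e2, ← sum_add_distrib]
    exact sum_congr rfl fun A _ => by ring
  have h2 : ∀ A, mA μ A * |P.J b (Vth μ th A) A - P.J b (Vth μ th (σ b A)) A|
      ≤ 2 / η * (mA μ A * dlt μ (σ b) A) + 2 * (mA μ A * (if D A then (1 : ℝ) else 0)) := by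
    intro A
    have hm := mA_nonneg μ hμ A
    have hbd : |P.J b (Vth μ th A) A - P.J b (Vth μ th (σ b A)) A| ≤ 2 :=
      (abs_sub _ _).trans (by linarith [P.bdd b (Vth μ th A) A, P.bdd b (Vth μ th (σ b A)) A])
    have hD0 : 0 ≤ (if D A then (1 : ℝ) else 0) := by split_ifs <;> norm_num
    rcases lt_or_ge η (dlt μ (σ b) A) with h | h
    · have h3 : (1 : ℝ) ≤ dlt μ (σ b) A / η := by
        rw [le_div_iff₀ hη]
        linarith
      have h4 : mA μ A * |P.J b (Vth μ th A) A - P.J b (Vth μ th (σ b A)) A| ≤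
          mA μ A * (2 * (dlt μ (σ b) A / η)) :=
        mul_le_mul_of_nonneg_left (hbd.trans (by linarith)) hm
      have h5 : mA μ A * (2 * (dlt μ (σ b) A / η)) = 2 / η * (mA μ A * dlt μ (σ b) A) := by
        field_simp
      have h6 : 0 ≤ 2 * (mA μ A * (if D A then (1 : ℝ) else 0)) := by positivity
      linarith
    · have h0 : 0 ≤ 2 / η * (mA μ A * dlt μ (σ b) A) := by
        have := dlt_nonneg μ (σ b) A
        positivity
      by_cases hDA : D A
      · rw [if_pos hDA, mul_one]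
        have := mul_le_mul_of_nonneg_left hbd hm
        linarith
      · have hDA' := hDA
        rw [hD] at hDA'
        simp only [mem_sdiff, not_or, not_and, not_not] at hDA'
        obtain ⟨d1, d2⟩ := hDA'
        have key : ∀ X, Vth μ (th + η) A ≤ X → X ≤ Vth μ (th - η) A →
            P.J b (Vth μ (th + η) A) A = P.J b X A := by
          intro X hX1 hX2
          refine P.dep b hb _ _ A hX1 (fun hx => d1 (P.mono _ _ A hX2 hx))
            (fun hx => d2 (P.mono _ _ A hX2 hx))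
        have e1 := key (Vth μ th A) (Vth_anti μ (by linarith) A) (Vth_anti μ (by linarith) A)
        have e2 := key (Vth μ th (σ b A)) (Vth_le_right μ (σ b) A h) (Vth_le_left μ (σ b) A h)
        rw [← e1, ← e2, sub_self, abs_zero, mul_zero, if_neg hDA]
        linarith
  have h3 : 2 * |∑ A, mA μ A * P.J b (Vth μ th A) A|
      ≤ ∑ A, (|mA μ A - mA μ (σ b A)| +
        mA μ A * |P.J b (Vth μ th A) A - P.J b (Vth μ th (σ b A)) A|) := by
    have e1 : 2 * |∑ A, mA μ A * P.J b (Vth μ th A) A|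
        = |2 * ∑ A, mA μ A * P.J b (Vth μ th A) A| := by
      rw [abs_mul, abs_two]
    rw [e1, h1]
    refine (abs_sum_le_sum_abs _ _).trans (sum_le_sum fun A _ => ?_)
    refine (abs_add_le _ _).trans (add_le_add ?_ ?_)
    · rw [abs_mul]
      exact mul_le_of_le_one_right (abs_nonneg _) (P.bdd _ _ _)
    · rw [abs_mul, abs_of_nonneg (mA_nonneg μ hμ A)]
  refine h3.trans ?_
  rw [sum_add_distrib]
  have h4 : ∑ A, mA μ A * |P.J b (Vth μ th A) A - P.J b (Vth μ th (σ b A)) A|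
      ≤ 4 / η * tvj μ (σ b) + 2 * ∑ A, mA μ A * (if D A then (1 : ℝ) else 0) := by
    refine (sum_le_sum fun A _ => h2 A).trans ?_
    rw [sum_add_distrib, ← mul_sum, ← mul_sum]
    have := sum_mul_dlt μ hμ (σ b)
    have h5 := mul_le_mul_of_nonneg_left this (show 0 ≤ 2 / η by positivity)
    have h6 : 2 / η * (2 * tvj μ (σ b)) = 4 / η * tvj μ (σ b) := by ring
    linarith
  have h5 := sum_abs_mA_sub μ (σ b)
  linarith

/-- the current at one threshold -/
theorem cur_th (P : Pat n AA σ) (μ : AA → V n → ℝ) (hμ : ∀ A R, 0 ≤ μ A R) (th η : ℝ)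
    (hη : 0 < η) :
    ∑ b ∈ range P.m, |∑ A, mA μ A * P.J b (Vth μ th A) A| ≤
      (1 / 2 + 2 / η) * ∑ b ∈ range P.m, tvj μ (σ b) +
      2 * ∑ A, mA μ A * ((Module.finrank (ZMod 2) (Vth μ (th - η) A) : ℝ)
        - Module.finrank (ZMod 2) (Vth μ (th + η) A)) := by
  classical
  set D : AA → Finset ℕ := fun A => P.tops (Vth μ (th - η) A) A \ P.tops (Vth μ (th + η) A) A
    with hD
  have h1 : ∀ b ∈ range P.m, |∑ A, mA μ A * P.J b (Vth μ th A) A| ≤
      (1 / 2 + 2 / η) * tvj μ (σ b) +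
        ∑ A, mA μ A * (if b ∈ D A ∨ b + 1 ∈ D A then (1 : ℝ) else 0) := by
    intro b hb
    have := cur_one P μ hμ (mem_range.1 hb) th η hη
    have h2 : (1 + 4 / η) * tvj μ (σ b) = 2 * ((1 / 2 + 2 / η) * tvj μ (σ b)) := by ring
    rw [h2] at this
    linarith
  refine (sum_le_sum h1).trans ?_
  rw [sum_add_distrib, ← mul_sum]
  have h2 : ∑ b ∈ range P.m, ∑ A, mA μ A * (if b ∈ D A ∨ b + 1 ∈ D A then (1 : ℝ) else 0)
      ≤ 2 * ∑ A, mA μ A * ((Module.finrank (ZMod 2) (Vth μ (th - η) A) : ℝ)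
        - Module.finrank (ZMod 2) (Vth μ (th + η) A)) := by
    rw [sum_comm, mul_sum]
    refine sum_le_sum fun A _ => ?_
    rw [← mul_sum]
    have h3 : ∑ b ∈ range P.m, (if b ∈ D A ∨ b + 1 ∈ D A then (1 : ℝ) else 0) ≤
        2 * ((D A).card : ℝ) := by
      have e1 : ∀ b ∈ range P.m, (if b ∈ D A ∨ b + 1 ∈ D A then (1 : ℝ) else 0) ≤
          (if b ∈ D A then (1 : ℝ) else 0) + (if b + 1 ∈ D A then (1 : ℝ) else 0) := by
        intro b _
        by_cases c1 : b ∈ D A <;> by_cases c2 : b + 1 ∈ D A <;> simp [c1, c2]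
      refine (sum_le_sum e1).trans ?_
      rw [sum_add_distrib, ← Finset.sum_filter, ← Finset.sum_filter]
      simp only [sum_const, nsmul_eq_mul, mul_one]
      have e2 : ((range P.m).filter fun b => b ∈ D A).card ≤ (D A).card :=
        card_le_card fun b hb => (mem_filter.1 hb).2
      have e3 : ((range P.m).filter fun b => b + 1 ∈ D A).card ≤ (D A).card := by
        refine card_le_card_of_injOn (fun b => b + 1) (fun b hb => (mem_filter.1 hb).2)
          (fun b _ b' _ h => by simpa using h)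
      have e2' : (((range P.m).filter fun b => b ∈ D A).card : ℝ) ≤ ((D A).card : ℝ) := by
        exact_mod_cast e2
      have e3' : (((range P.m).filter fun b => b + 1 ∈ D A).card : ℝ) ≤ ((D A).card : ℝ) := by
        exact_mod_cast e3
      linarith
    have h4 : ((D A).card : ℝ) = (Module.finrank (ZMod 2) (Vth μ (th - η) A) : ℝ)
        - Module.finrank (ZMod 2) (Vth μ (th + η) A) := by
      rw [hD]
      simp only
      rw [← P.card _ A, ← P.card _ A, ← card_sdiff_add_card_eq_card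
        (P.mono _ _ A (Vth_anti μ (show th - η ≤ th + η by linarith) A))]
      push_cast
      ring
    rw [h4] at h3
    have := mul_le_mul_of_nonneg_left h3 (mA_nonneg μ hμ A)
    linarith
  linarith

/-- the current, averaged over `K` thresholds -/
theorem cur_avg (P : Pat n AA σ) (μ : AA → V n → ℝ) (hμ : ∀ A R, 0 ≤ μ A R) (th η : ℝ)
    (hη : 0 < η) (K : ℕ) :
    ∑ k ∈ range K, ∑ b ∈ range P.m, |∑ A, mA μ A * P.J b (Vth μ (th + (k + 1) * η) A) A| ≤
      K * ((1 / 2 + 2 / η) * ∑ b ∈ range P.m, tvj μ (σ b)) + 4 * n * ∑ A, mA μ A := by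
  have h1 : ∀ k ∈ range K, ∑ b ∈ range P.m,
      |∑ A, mA μ A * P.J b (Vth μ (th + (k + 1) * η) A) A| ≤
      (1 / 2 + 2 / η) * ∑ b ∈ range P.m, tvj μ (σ b) +
      2 * ∑ A, mA μ A * ((Module.finrank (ZMod 2) (Vth μ (th + k * η) A) : ℝ)
        - Module.finrank (ZMod 2) (Vth μ (th + (k + 2) * η) A)) := by
    intro k _
    have := cur_th P μ hμ (th + (k + 1) * η) η hη
    rw [show th + ((k : ℝ) + 1) * η - η = th + k * η by ring,
      show th + ((k : ℝ) + 1) * η + η = th + (k + 2) * η by ring] at this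
    exact this
  refine (sum_le_sum h1).trans ?_
  rw [sum_add_distrib, sum_const, card_range, nsmul_eq_mul, ← mul_sum]
  have h2 : ∑ k ∈ range K, ∑ A, mA μ A * ((Module.finrank (ZMod 2) (Vth μ (th + k * η) A) : ℝ)
        - Module.finrank (ZMod 2) (Vth μ (th + (k + 2) * η) A)) ≤ 2 * n * ∑ A, mA μ A := by
    rw [sum_comm, mul_sum]
    refine sum_le_sum fun A _ => ?_
    rw [← mul_sum, mul_comm]
    refine mul_le_mul_of_nonneg_right ?_ (mA_nonneg μ hμ A)
    set d : ℕ → ℝ := fun k => (Module.finrank (ZMod 2) (Vth μ (th + k * η) A) : ℝ) with hd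
    have hd0 : ∀ k, 0 ≤ d k := fun k => Nat.cast_nonneg _
    have hdn : ∀ k, d k ≤ n := fun k => by
      have := Submodule.finrank_le (Vth μ (th + k * η) A)
      rw [Module.finrank_fin_fun] at this
      change (Module.finrank (ZMod 2) (Vth μ (th + k * η) A) : ℝ) ≤ n
      exact_mod_cast this
    have h3 : ∀ k ∈ range K, (Module.finrank (ZMod 2) (Vth μ (th + k * η) A) : ℝ)
        - Module.finrank (ZMod 2) (Vth μ (th + (k + 2) * η) A)
        = (d k - d (k + 1)) + (d (k + 1) - d (k + 2)) := by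
      intro k _
      have e : d (k + 2) = (Module.finrank (ZMod 2) (Vth μ (th + (k + 2) * η) A) : ℝ) := by
        have c : ((k + 2 : ℕ) : ℝ) = (k : ℝ) + 2 := by
          push_cast
          ring
        change (Module.finrank (ZMod 2) (Vth μ (th + ((k + 2 : ℕ) : ℝ) * η) A) : ℝ) = _
        rw [c]
      rw [e]
      change d k - _ = _
      ring
    rw [sum_congr rfl h3, sum_add_distrib, sum_range_sub', ]
    have h4 : ∑ k ∈ range K, (d (k + 1) - d (k + 2)) = d 1 - d (K + 1) :=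
      sum_range_sub' (fun k => d (k + 1)) K
    rw [h4]
    linarith [hd0 K, hd0 (K + 1), hdn 0, hdn 1]
  linarith

end Abs

end Pool.Agent.CutSeq.NJ
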