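import Pool.Agent.CutSeq.Back

/-!
S19271, NOJUMP, deterministic part: tops of a subspace and their motion under one letter.

`nb W c` is the dimension of the part of `W` which vanishes from the coordinate `c` on; the letter
`(b, 1)` changes `nb W c` only for `c = b + 1`, by `+1` for the pattern `P01` and by `-1` for the
pattern `P10`.
-/

set_option autoImplicit false

namespace Pool.Agent.CutSeq.NJ

open Finset Module Bwd

variable {n : ℕ}

/-! #### coordinates and letters as linear maps -/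

/-- the coordinate `k` (zero outside the range) -/
def zxL (n k : ℕ) : V n →ₗ[ZMod 2] ZMod 2 where
  toFun z := zx z k
  map_add' z z' := by
    unfold zx
    split_ifs
    · rfl
    · rw [add_zero]
  map_smul' c z := by
    unfold zx
    split_ifs
    · rfl
    · rw [smul_zero]

theorem zxL_apply (k : ℕ) (z : V n) : zxL n k z = zx z k := rfl

theorem zx_lt (p : ℕ × ZMod 2) (z : V n) (k : ℕ) (hk : k < n) :
    zx (lt p z) k = zx z k + if k = p.1 + 1 then p.2 * zx z p.1 else 0 := by
  have h1 : zx (lt p z) k = lt p z ⟨k, hk⟩ := zx_eq (lt p z) ⟨k, hk⟩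
  have h2 : zx z k = z ⟨k, hk⟩ := zx_eq z ⟨k, hk⟩
  rw [h1, h2]
  rfl

/-- the letter as a linear map -/
def ltL (n : ℕ) (p : ℕ × ZMod 2) : V n →ₗ[ZMod 2] V n where
  toFun := lt p
  map_add' z z' := by
    funext k
    have h : zx (z + z') p.1 = zx z p.1 + zx z' p.1 := (zxL n p.1).map_add z z'
    show (z k + z' k) + (if k.val = p.1 + 1 then p.2 * zx (z + z') p.1 else 0) =
      (z k + if k.val = p.1 + 1 then p.2 * zx z p.1 else 0) +
        (z' k + if k.val = p.1 + 1 then p.2 * zx z' p.1 else 0)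
    rw [h]
    split_ifs
    · ring
    · ring
  map_smul' c z := by
    funext k
    have h : zx (c • z) p.1 = c * zx z p.1 := (zxL n p.1).map_smul c z
    show c * z k + (if k.val = p.1 + 1 then p.2 * zx (c • z) p.1 else 0) =
      c * (z k + if k.val = p.1 + 1 then p.2 * zx z p.1 else 0)
    rw [h]
    split_ifs
    · ring
    · ring

theorem ltL_apply (p : ℕ × ZMod 2) (z : V n) : ltL n p z = lt p z := rfl

theorem ltL_injective (p : ℕ × ZMod 2) : Function.Injective (ltL n p) := fun z z' h => by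
  have := congrArg (lt p) h
  rwa [ltL_apply, ltL_apply, lt_lt, lt_lt] at this

/-- vectors which vanish from the coordinate `c` on -/
def van (n c : ℕ) : Submodule (ZMod 2) (V n) where
  carrier := {z | ∀ k : ℕ, c ≤ k → zx z k = 0}
  add_mem' := by
    intro a b ha hb k hk
    have h : zx (a + b) k = zx a k + zx b k := (zxL n k).map_add a b
    rw [h, ha k hk, hb k hk, add_zero]
  zero_mem' := fun k _ => (zxL n k).map_zero
  smul_mem' := by
    intro c' a ha k hk
    have h : zx (c' • a) k = c' * zx a k := (zxL n k).map_smul c' a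
    rw [h, ha k hk, mul_zero]

theorem mem_van {c : ℕ} {z : V n} : z ∈ van n c ↔ ∀ k : ℕ, c ≤ k → zx z k = 0 := Iff.rfl

theorem mem_van_iff_tp {c : ℕ} {z : V n} : z ∈ van n c ↔ tp z ≤ c := by
  constructor
  · intro h
    refine tp_le_of z c fun k hk => ?_
    rw [← zx_eq z k]
    exact h k.val hk
  · intro h k hk
    unfold zx
    split_ifs with h1
    · exact eq_zero_of_tp_le z ⟨k, h1⟩ (le_trans h hk)
    · rfl

theorem van_mono {c c' : ℕ} (h : c ≤ c') : van n c ≤ van n c' := fun _ hz k hk => hz k (le_trans h hk)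

theorem van_top {c : ℕ} (h : n ≤ c) : van n c = ⊤ := by
  refine eq_top_iff.2 fun z _ k hk => ?_
  unfold zx
  rw [dif_neg (by omega)]

theorem van_zero : van n 0 = ⊥ := by
  refine eq_bot_iff.2 fun z hz => ?_
  rw [Submodule.mem_bot]
  funext k
  rw [← zx_eq z k]
  exact hz k.val (Nat.zero_le _)

theorem van_succ_ker (k : ℕ) : van n (k + 1) ⊓ LinearMap.ker (zxL n k) = van n k := by
  ext z
  rw [Submodule.mem_inf, LinearMap.mem_ker, zxL_apply]
  constructor
  · rintro ⟨h1, h2⟩ j hj
    rcases Nat.lt_or_ge k j with h | h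
    · exact h1 j h
    · have : j = k := by omega
      rw [this]
      exact h2
  · intro h
    exact ⟨van_mono (Nat.le_succ k) h, h k le_rfl⟩

/-! #### rank of a functional -/

open Classical in
/-- indicator of a proposition -/
noncomputable def bn (p : Prop) : ℕ := if p then 1 else 0

theorem bn_true {p : Prop} (h : p) : bn p = 1 := if_pos h

theorem bn_false {p : Prop} (h : ¬ p) : bn p = 0 := if_neg h

theorem bn_congr {p q : Prop} (h : p ↔ q) : bn p = bn q := by rw [propext h]

theorem bn_le_one (p : Prop) : bn p ≤ 1 := by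
  by_cases h : p
  · rw [bn_true h]
  · rw [bn_false h]
    exact Nat.zero_le _

theorem finrank_ker_add (U : Submodule (ZMod 2) (V n)) (f : V n →ₗ[ZMod 2] ZMod 2) :
    finrank (ZMod 2) (U ⊓ LinearMap.ker f : Submodule (ZMod 2) (V n))
      + bn (∃ z ∈ U, f z ≠ 0) = finrank (ZMod 2) U := by
  have h1 := (f.domRestrict U).finrank_range_add_finrank_ker
  have h2 : finrank (ZMod 2) (LinearMap.ker (f.domRestrict U))
      = finrank (ZMod 2) (U ⊓ LinearMap.ker f : Submodule (ZMod 2) (V n)) := by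
    have h3 : LinearMap.ker (f.domRestrict U) = (LinearMap.ker f).comap U.subtype := by
      ext z
      rw [LinearMap.mem_ker, Submodule.mem_comap, LinearMap.mem_ker]
      rfl
    rw [h3, ← Submodule.map_comap_subtype, Submodule.finrank_map_subtype_eq]
  have h4 : finrank (ZMod 2) (LinearMap.range (f.domRestrict U))
      = bn (∃ z ∈ U, f z ≠ 0) := by
    by_cases h : ∃ z ∈ U, f z ≠ 0
    · rw [bn_true h]
      obtain ⟨z, hz, hfz⟩ := h
      have h5 : LinearMap.range (f.domRestrict U) = ⊤ := by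
        refine eq_top_iff.2 fun y _ => ?_
        refine ⟨(y * (f z)⁻¹) • ⟨z, hz⟩, ?_⟩
        rw [map_smul, LinearMap.domRestrict_apply, smul_eq_mul, mul_assoc, inv_mul_cancel₀ hfz,
          mul_one]
      rw [h5, finrank_top, finrank_self]
    · rw [bn_false h]
      have h5 : LinearMap.range (f.domRestrict U) = ⊥ := by
        refine eq_bot_iff.2 ?_
        rintro y ⟨z, rfl⟩
        rw [Submodule.mem_bot, LinearMap.domRestrict_apply]
        by_contra h6
        exact h ⟨z.1, z.2, h6⟩
      rw [h5, finrank_bot]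
  omega

/-! #### tops -/

/-- dimension of the part which vanishes from `c` on -/
noncomputable def nb (W : Submodule (ZMod 2) (V n)) (c : ℕ) : ℕ :=
  finrank (ZMod 2) (W ⊓ van n c : Submodule (ZMod 2) (V n))

/-- some vector of `W` has its last nonzero coordinate at `k` -/
def hasTop (W : Submodule (ZMod 2) (V n)) (k : ℕ) : Prop := ∃ z ∈ W ⊓ van n (k + 1), zx z k ≠ 0

/-- a top at `b`, none at `b + 1` -/
def P10 (W : Submodule (ZMod 2) (V n)) (b : ℕ) : Prop := hasTop W b ∧ ¬ hasTop W (b + 1)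

/-- a top at `b + 1`, and the coordinates `b`, `b + 1` agree below (so no top at `b`) -/
def P01 (W : Submodule (ZMod 2) (V n)) (b : ℕ) : Prop :=
  hasTop W (b + 1) ∧ ∀ z ∈ W ⊓ van n (b + 2), zx z (b + 1) = zx z b

theorem zmod2_ne_zero {a : ZMod 2} (h : a ≠ 0) : a = 1 := (zmod2_cases a).resolve_left h

theorem P01_not_top {W : Submodule (ZMod 2) (V n)} {b : ℕ} (h : P01 W b) : ¬ hasTop W b := by
  rintro ⟨z, hz, hzb⟩
  have h1 := h.2 z ⟨hz.1, van_mono (by omega) hz.2⟩
  rw [hz.2 (b + 1) le_rfl] at h1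
  exact hzb h1.symm

theorem nb_succ (W : Submodule (ZMod 2) (V n)) (k : ℕ) :
    nb W (k + 1) = nb W k + bn (hasTop W k) := by
  have h := finrank_ker_add (W ⊓ van n (k + 1)) (zxL n k)
  rw [inf_assoc, van_succ_ker] at h
  exact h.symm

theorem nb_zero (W : Submodule (ZMod 2) (V n)) : nb W 0 = 0 := by
  unfold nb
  rw [van_zero, inf_bot_eq, finrank_bot]

theorem nb_top (W : Submodule (ZMod 2) (V n)) {c : ℕ} (h : n ≤ c) : nb W c = finrank (ZMod 2) W := by
  unfold nb
  rw [van_top h, inf_top_eq]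

theorem nb_mono (W : Submodule (ZMod 2) (V n)) {c c' : ℕ} (h : c ≤ c') : nb W c ≤ nb W c' :=
  Submodule.finrank_mono (inf_le_inf_left W (van_mono h))

open Classical in
theorem nb_eq_card (W : Submodule (ZMod 2) (V n)) (c : ℕ) :
    nb W c = ((range c).filter fun k => hasTop W k).card := by
  induction c with
  | zero => rw [nb_zero, range_zero, filter_empty, card_empty]
  | succ c ih =>
    rw [nb_succ, ih, range_add_one, filter_insert]
    by_cases h : hasTop W c
    · rw [if_pos h, bn_true h, card_insert_of_notMem (by simp)]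
    · rw [if_neg h, bn_false h, add_zero]

/-- no top outside the range -/
theorem not_hasTop (W : Submodule (ZMod 2) (V n)) {k : ℕ} (h : n ≤ k) : ¬ hasTop W k := by
  rintro ⟨z, _, hz⟩
  exact hz (by unfold zx; rw [dif_neg (by omega)])

/-! #### one letter -/

theorem lt_van (p : ℕ × ZMod 2) {c : ℕ} (hc : c ≠ p.1 + 1) {z : V n} :
    lt p z ∈ van n c ↔ z ∈ van n c := by
  have key : ∀ z : V n, z ∈ van n c → lt p z ∈ van n c := by
    intro z hz k hk
    rcases Nat.lt_or_ge k n with h | h
    · rw [zx_lt p z k h, hz k hk]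
      split_ifs with h1
      · rw [hz p.1 (by omega), mul_zero, add_zero]
      · rw [add_zero]
    · unfold zx
      rw [dif_neg (by omega)]
  refine ⟨fun h => ?_, key z⟩
  have := key _ h
  rwa [lt_lt] at this

theorem map_inf_van (W : Submodule (ZMod 2) (V n)) (p : ℕ × ZMod 2) {c : ℕ} (hc : c ≠ p.1 + 1) :
    W.map (ltL n p) ⊓ van n c = (W ⊓ van n c).map (ltL n p) := by
  ext z
  rw [Submodule.mem_inf, Submodule.mem_map, Submodule.mem_map]
  constructor
  · rintro ⟨⟨y, hy, rfl⟩, h2⟩
    rw [ltL_apply, lt_van p hc] at h2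
    exact ⟨y, ⟨hy, h2⟩, rfl⟩
  · rintro ⟨y, ⟨hy, h2⟩, rfl⟩
    exact ⟨⟨y, hy, rfl⟩, (lt_van p hc).2 h2⟩

/-- a letter on the bond `b` changes `nb` only at `b + 1` -/
theorem nb_map_of_ne (W : Submodule (ZMod 2) (V n)) (p : ℕ × ZMod 2) {c : ℕ} (hc : c ≠ p.1 + 1) :
    nb (W.map (ltL n p)) c = nb W c := by
  unfold nb
  rw [map_inf_van W p hc]
  exact (LinearEquiv.finrank_eq (Submodule.equivMapOfInjective _ (ltL_injective p) _)).symm

theorem ltL_id (p : ℕ × ZMod 2) (hp : n ≤ p.1 + 1 ∨ p.2 = 0) : ltL n p = LinearMap.id := by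
  refine LinearMap.ext fun z => ?_
  funext k
  show z k + (if k.val = p.1 + 1 then p.2 * zx z p.1 else 0) = z k
  rcases hp with hp | hp
  · rw [if_neg (by have := k.isLt; omega), add_zero]
  · rw [hp, zero_mul, ite_self, add_zero]

/-- coin `0`, or bond outside: nothing moves -/
theorem nb_map_id (W : Submodule (ZMod 2) (V n)) (p : ℕ × ZMod 2) (hp : n ≤ p.1 + 1 ∨ p.2 = 0) (c : ℕ) :
    nb (W.map (ltL n p)) c = nb W c := by
  rw [ltL_id p hp, Submodule.map_id]

theorem hasTop_iff (W : Submodule (ZMod 2) (V n)) (k : ℕ) :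
    hasTop W k ↔ ∃ z ∈ W ⊓ van n (k + 1), zxL n k z ≠ 0 := Iff.rfl

theorem map_inf_van_one (W : Submodule (ZMod 2) (V n)) (b : ℕ) (hb : b + 1 < n) :
    W.map (ltL n (b, 1)) ⊓ van n (b + 1) =
      ((W ⊓ van n (b + 2)) ⊓ LinearMap.ker (zxL n (b + 1) + zxL n b)).map (ltL n (b, 1)) := by
  have key : ∀ y : V n, lt (b, 1) y ∈ van n (b + 1) ↔
      y ∈ van n (b + 2) ∧ zx y (b + 1) + zx y b = 0 := by
    intro y
    constructor
    · intro h
      refine ⟨fun k hk => ?_, ?_⟩
      · rcases Nat.lt_or_ge k n with h1 | h1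
        · have h2 := h k (by omega)
          rw [zx_lt (b, 1) y k h1, if_neg (by simp only; omega), add_zero] at h2
          exact h2
        · unfold zx
          rw [dif_neg (by omega)]
      · have h2 := h (b + 1) le_rfl
        rw [zx_lt (b, 1) y (b + 1) hb, if_pos rfl, one_mul] at h2
        exact h2
    · rintro ⟨h1, h2⟩ k hk
      rcases Nat.lt_or_ge k n with h3 | h3
      · rw [zx_lt (b, 1) y k h3]
        rcases Nat.eq_or_lt_of_le hk with h4 | h4
        · subst h4
          rw [if_pos rfl, one_mul]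
          exact h2
        · rw [if_neg (by simp only; omega), add_zero]
          exact h1 k (by omega)
      · unfold zx
        rw [dif_neg (by omega)]
  ext z
  rw [Submodule.mem_inf, Submodule.mem_map, Submodule.mem_map]
  constructor
  · rintro ⟨⟨y, hy, rfl⟩, h2⟩
    rw [ltL_apply, key] at h2
    exact ⟨y, ⟨⟨hy, h2.1⟩, h2.2⟩, rfl⟩
  · rintro ⟨y, ⟨⟨hy, h1⟩, h2⟩, rfl⟩
    exact ⟨⟨y, hy, rfl⟩, (key y).2 ⟨h1, h2⟩⟩

/-- **the letter `(b, 1)`**: `nb` at `b + 1` goes up by one for the pattern `P01` and down by one for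
the pattern `P10` -/
theorem nb_map_one (W : Submodule (ZMod 2) (V n)) (b : ℕ) (hb : b + 1 < n) :
    nb (W.map (ltL n (b, 1))) (b + 1) + bn (P10 W b) = nb W (b + 1) + bn (P01 W b) := by
  have h1 : nb (W.map (ltL n (b, 1))) (b + 1) =
      finrank (ZMod 2) ((W ⊓ van n (b + 2)) ⊓ LinearMap.ker (zxL n (b + 1) + zxL n b) :
        Submodule (ZMod 2) (V n)) := by
    unfold nb
    rw [map_inf_van_one W b hb]
    exact (LinearEquiv.finrank_eq (Submodule.equivMapOfInjective _ (ltL_injective (b, 1)) _)).symm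
  have h2 := finrank_ker_add (W ⊓ van n (b + 2)) (zxL n (b + 1) + zxL n b)
  have h3 : finrank (ZMod 2) (W ⊓ van n (b + 2) : Submodule (ZMod 2) (V n))
      = nb W (b + 1) + bn (hasTop W (b + 1)) := nb_succ W (b + 1)
  rw [← h1, h3] at h2
  have hne : ∀ z : V n, (zxL n (b + 1) + zxL n b) z ≠ 0 ↔ zx z (b + 1) ≠ zx z b := by
    intro z
    rw [LinearMap.add_apply, zxL_apply, zxL_apply, Ne, Ne, CharTwo.add_eq_zero]
  by_cases hT : hasTop W (b + 1)
  · have hP10 : ¬ P10 W b := fun h => h.2 hT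
    by_cases hQ : ∃ z ∈ W ⊓ van n (b + 2), (zxL n (b + 1) + zxL n b) z ≠ 0
    · have hP01 : ¬ P01 W b := by
        rintro ⟨_, h⟩
        obtain ⟨z, hz, hz1⟩ := hQ
        exact (hne z).1 hz1 (h z hz)
      rw [bn_true hT, bn_true hQ] at h2
      rw [bn_false hP10, bn_false hP01]
      omega
    · have hP01 : P01 W b := by
        refine ⟨hT, fun z hz => ?_⟩
        by_contra h
        exact hQ ⟨z, hz, (hne z).2 h⟩
      rw [bn_true hT, bn_false hQ] at h2
      rw [bn_false hP10, bn_true hP01]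
      omega
  · have hP01 : ¬ P01 W b := fun h => hT h.1
    have hiff : P10 W b ↔ ∃ z ∈ W ⊓ van n (b + 2), (zxL n (b + 1) + zxL n b) z ≠ 0 := by
      constructor
      · rintro ⟨⟨z, hz, hzb⟩, _⟩
        refine ⟨z, ⟨hz.1, van_mono (by omega) hz.2⟩, (hne z).2 ?_⟩
        rw [hz.2 (b + 1) le_rfl]
        exact fun h => hzb h.symm
      · rintro ⟨z, hz, hz1⟩
        rw [hne] at hz1
        have h4 : zx z (b + 1) = 0 := by
          by_contra h
          exact hT ⟨z, hz, h⟩
        refine ⟨⟨z, ⟨hz.1, ?_⟩, ?_⟩, hT⟩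
        · intro k hk
          rcases Nat.eq_or_lt_of_le hk with h5 | h5
          · rw [← h5]
            exact h4
          · exact hz.2 k (by omega)
        · rw [h4] at hz1
          exact fun h => hz1 h.symm
    rw [bn_false hT] at h2
    rw [bn_false hP01, bn_congr hiff]
    omega

/-! #### sums -/

/-- the sum of all `nb` -/
noncomputable def snb (W : Submodule (ZMod 2) (V n)) : ℕ := ∑ c ∈ range n, nb W c

theorem snb_map_one (W : Submodule (ZMod 2) (V n)) (b : ℕ) (hb : b + 1 < n) :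
    snb (W.map (ltL n (b, 1))) + bn (P10 W b) = snb W + bn (P01 W b) := by
  unfold snb
  rw [← add_sum_erase (range n) _ (mem_range.2 hb), ← add_sum_erase (range n) _ (mem_range.2 hb)]
  have h1 : ∑ c ∈ (range n).erase (b + 1), nb (W.map (ltL n (b, 1))) c
      = ∑ c ∈ (range n).erase (b + 1), nb W c :=
    sum_congr rfl fun c hc => nb_map_of_ne W (b, 1) (mem_erase.1 hc).1
  rw [h1]
  have h2 := nb_map_one W b hb
  omega

theorem snb_map_id (W : Submodule (ZMod 2) (V n)) (p : ℕ × ZMod 2) (hp : n ≤ p.1 + 1 ∨ p.2 = 0) :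
    snb (W.map (ltL n p)) = snb W := sum_congr rfl fun c _ => nb_map_id W p hp c

/-- both coins together -/
theorem snb_two (W : Submodule (ZMod 2) (V n)) (b : ℕ) (hb : b + 1 < n) :
    snb (W.map (ltL n (b, 0))) + snb (W.map (ltL n (b, 1))) + bn (P10 W b)
      = 2 * snb W + bn (P01 W b) := by
  have h1 := snb_map_one W b hb
  have h2 := snb_map_id W (b, 0) (Or.inr rfl)
  omega

/-! #### subspaces -/

theorem hasTop_mono {W W' : Submodule (ZMod 2) (V n)} (h : W' ≤ W) {k : ℕ} (h1 : hasTop W' k) :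
    hasTop W k := by
  obtain ⟨z, hz, h2⟩ := h1
  exact ⟨z, ⟨h hz.1, hz.2⟩, h2⟩

theorem nb_le_of_le {W W' : Submodule (ZMod 2) (V n)} (h : W' ≤ W) (c : ℕ) : nb W' c ≤ nb W c :=
  Submodule.finrank_mono (inf_le_inf_right _ h)

theorem bn_le_of_imp {p q : Prop} (h : p → q) : bn p ≤ bn q := by
  by_cases hp : p
  · rw [bn_true hp, bn_true (h hp)]
  · rw [bn_false hp]
    exact Nat.zero_le _

theorem nb_range (W : Submodule (ZMod 2) (V n)) (c : ℕ) : nb W c = ∑ k ∈ range c, bn (hasTop W k) := by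
  induction c with
  | zero => rw [nb_zero, range_zero, sum_empty]
  | succ c ih => rw [nb_succ, ih, sum_range_succ]

/-- the number of the tops of `W` which are not tops of `W'` -/
theorem sum_top_diff {W W' : Submodule (ZMod 2) (V n)} (h : W' ≤ W) (c : ℕ) :
    ∑ k ∈ range c, (bn (hasTop W k) - bn (hasTop W' k))
      ≤ finrank (ZMod 2) W - finrank (ZMod 2) W' := by
  have h1 : ∀ c, ∑ k ∈ range c, (bn (hasTop W k) - bn (hasTop W' k)) + nb W' c = nb W c := by
    intro c
    rw [nb_range, nb_range, ← sum_add_distrib]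
    refine sum_congr rfl fun k _ => ?_
    have := bn_le_of_imp (fun h1 => hasTop_mono h (k := k) h1)
    omega
  have h2 : ∀ c c', c ≤ c' → ∑ k ∈ range c, (bn (hasTop W k) - bn (hasTop W' k))
      ≤ ∑ k ∈ range c', (bn (hasTop W k) - bn (hasTop W' k)) := fun c c' hc =>
    sum_le_sum_of_subset (range_mono hc)
  have h3 := h2 c (max c n) (le_max_left _ _)
  have h4 := h1 (max c n)
  rw [nb_top W (le_max_right _ _), nb_top W' (le_max_right _ _)] at h4
  omega

theorem nb_add_le {W W' : Submodule (ZMod 2) (V n)} (h : W' ≤ W) (c : ℕ) :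
    nb W c + finrank (ZMod 2) W' ≤ nb W' c + finrank (ZMod 2) W := by
  have h1 := sum_top_diff h c
  have h3 : ∑ k ∈ range c, (bn (hasTop W k) - bn (hasTop W' k)) + nb W' c = nb W c := by
    rw [nb_range, nb_range, ← sum_add_distrib]
    refine sum_congr rfl fun k _ => ?_
    have := bn_le_of_imp (fun h1 => hasTop_mono h (k := k) h1)
    omega
  have h4 := Submodule.finrank_mono h
  omega

/-- if the tops at `b`, `b + 1` agree then the pattern `P01` agrees -/
theorem P01_congr {W W' : Submodule (ZMod 2) (V n)} (h : W' ≤ W) {b : ℕ}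
    (h0 : hasTop W b → hasTop W' b) (h1 : hasTop W (b + 1) → hasTop W' (b + 1)) :
    P01 W b ↔ P01 W' b := by
  constructor
  · intro hP
    exact ⟨h1 hP.1, fun z hz => hP.2 z ⟨h hz.1, hz.2⟩⟩
  · intro hP
    have hnt : ¬ hasTop W b := fun hT => P01_not_top hP (h0 hT)
    have hlow : ∀ z ∈ W ⊓ van n (b + 2), zx z (b + 1) = 0 → zx z b = 0 := by
      intro z hz hz1
      by_contra h2
      refine hnt ⟨z, ⟨hz.1, ?_⟩, h2⟩
      intro k hk
      rcases Nat.eq_or_lt_of_le hk with h5 | h5
      · rw [← h5]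
        exact hz1
      · exact hz.2 k (by omega)
    refine ⟨hasTop_mono h hP.1, fun z hz => ?_⟩
    obtain ⟨y, hy, hy1⟩ := hP.1
    have hy1' : zx y (b + 1) = 1 := zmod2_ne_zero hy1
    have hyb : zx y b = 1 := by rw [← hP.2 y hy, hy1']
    by_cases hz1 : zx z (b + 1) = 0
    · rw [hz1, hlow z hz hz1]
    · have hz1' : zx z (b + 1) = 1 := zmod2_ne_zero hz1
      have h11 : (1 : ZMod 2) + 1 = 0 := by decide
      have hadd : ∀ k, zx (z + y) k = zx z k + zx y k := fun k => (zxL n k).map_add z y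
      have h6 := hlow (z + y) (Submodule.add_mem _ hz ⟨h hy.1, hy.2⟩)
        (by rw [hadd, hz1', hy1', h11])
      rw [hadd, hyb] at h6
      rw [hz1']
      rcases zmod2_cases (zx z b) with h7 | h7
      · rw [h7, zero_add] at h6
        exact absurd h6 one_ne_zero
      · exact h7.symm

theorem P10_congr {W W' : Submodule (ZMod 2) (V n)} (h : W' ≤ W) {b : ℕ}
    (h0 : hasTop W b → hasTop W' b) (h1 : hasTop W (b + 1) → hasTop W' (b + 1)) :
    P10 W b ↔ P10 W' b :=
  ⟨fun hP => ⟨h0 hP.1, fun hT => hP.2 (hasTop_mono h hT)⟩,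
    fun hP => ⟨hasTop_mono h hP.1, fun hT => hP.2 (h1 hT)⟩⟩

theorem bn_pat_le {W W' : Submodule (ZMod 2) (V n)} {b : ℕ}
    {p q : Prop} (hpq : (hasTop W b → hasTop W' b) → (hasTop W (b + 1) → hasTop W' (b + 1)) →
      (p ↔ q)) :
    bn p ≤ bn q + ((bn (hasTop W b) - bn (hasTop W' b))
      + (bn (hasTop W (b + 1)) - bn (hasTop W' (b + 1)))) ∧
    bn q ≤ bn p + ((bn (hasTop W b) - bn (hasTop W' b))
      + (bn (hasTop W (b + 1)) - bn (hasTop W' (b + 1)))) := by
  have hp := bn_le_one p
  have hq := bn_le_one q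
  by_cases h0 : hasTop W b → hasTop W' b
  · by_cases h1 : hasTop W (b + 1) → hasTop W' (b + 1)
    · rw [bn_congr (hpq h0 h1)]
      exact ⟨by omega, by omega⟩
    · push Not at h1
      rw [bn_true h1.1, bn_false h1.2]
      exact ⟨by omega, by omega⟩
  · push Not at h0
    rw [bn_true h0.1, bn_false h0.2]
    exact ⟨by omega, by omega⟩

/-- passing to a subspace of codimension `k` changes at most `2 k` patterns -/
theorem pattern_diff {W W' : Submodule (ZMod 2) (V n)} (h : W' ≤ W) (m : ℕ) (P : Submodule (ZMod 2) (V n) → ℕ → Prop)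
    (hP : P = P10 ∨ P = P01) :
    ∑ b ∈ range m, bn (P W b) ≤ ∑ b ∈ range m, bn (P W' b)
      + 2 * (finrank (ZMod 2) W - finrank (ZMod 2) W') ∧
    ∑ b ∈ range m, bn (P W' b) ≤ ∑ b ∈ range m, bn (P W b)
      + 2 * (finrank (ZMod 2) W - finrank (ZMod 2) W') := by
  have hpq : ∀ b, (hasTop W b → hasTop W' b) → (hasTop W (b + 1) → hasTop W' (b + 1)) →
      (P W b ↔ P W' b) := by
    intro b h0 h1
    rcases hP with rfl | rfl
    · exact P10_congr h h0 h1
    · exact P01_congr h h0 h1
  have h1 := sum_top_diff h m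
  have h2 : ∑ b ∈ range m, (bn (hasTop W (b + 1)) - bn (hasTop W' (b + 1)))
      ≤ finrank (ZMod 2) W - finrank (ZMod 2) W' := by
    have h3 := sum_top_diff h (m + 1)
    rw [sum_range_succ'] at h3
    omega
  constructor
  · have h4 : ∑ b ∈ range m, bn (P W b) ≤ ∑ b ∈ range m, (bn (P W' b) +
        ((bn (hasTop W b) - bn (hasTop W' b)) + (bn (hasTop W (b + 1)) - bn (hasTop W' (b + 1))))) :=
      sum_le_sum fun b _ => (bn_pat_le (hpq b)).1
    rw [sum_add_distrib, sum_add_distrib] at h4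
    omega
  · have h4 : ∑ b ∈ range m, bn (P W' b) ≤ ∑ b ∈ range m, (bn (P W b) +
        ((bn (hasTop W b) - bn (hasTop W' b)) + (bn (hasTop W (b + 1)) - bn (hasTop W' (b + 1))))) :=
      sum_le_sum fun b _ => (bn_pat_le (hpq b)).2
    rw [sum_add_distrib, sum_add_distrib] at h4
    omega

/-! #### the moving array -/

/-- the array as a linear map -/
def actL {n : ℕ} (x : Un n) : V n →ₗ[ZMod 2] V n where
  toFun := act x
  map_add' := act_add x
  map_smul' c z := by
    rcases zmod2_cases c with rfl | rfl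
    · rw [zero_smul]
      show act x 0 = (0 : ZMod 2) • act x z
      rw [zero_smul]
      have h := act_add x 0 0
      rw [add_zero] at h
      exact left_eq_add.1 h
    · rw [one_smul]
      show act x z = (1 : ZMod 2) • act x z
      rw [one_smul]

theorem actL_apply {n : ℕ} (x : Un n) (z : V n) : actL x z = act x z := rfl

theorem actL_injective {n : ℕ} (x : Un n) : Function.Injective (actL x) := act_injective x

theorem map_actL_succ (α : Seq) (l : ℕ) (W : Submodule (ZMod 2) (V n)) :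
    W.map (actL (mm α (l + 1) n)) = (W.map (actL (mm α l n))).map (ltL n (α l)) := by
  rw [← Submodule.map_comp]
  congr 1
  refine LinearMap.ext fun z => ?_
  rw [LinearMap.comp_apply, actL_apply, actL_apply, ltL_apply]
  exact act_succ α l z

theorem finrank_map_actL (x : Un n) (W : Submodule (ZMod 2) (V n)) :
    finrank (ZMod 2) (W.map (actL x)) = finrank (ZMod 2) W :=
  (LinearEquiv.finrank_eq (Submodule.equivMapOfInjective _ (actL_injective x) _)).symm

end Pool.Agent.CutSeq.NJ
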