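import Pool.Agent.NJ.Cur13
import Pool.Agent.NJ.Tops63
import Pool.Agent.CutSeq.Quant
import Pool.Agent.CutSeq.Mod2

/-!
The current bound in the letter model: the tops of the image of the visible space of the row of level
`n` move very little under the single letters, when the array of `n + 1` levels produces little
entropy.
-/

set_option autoImplicit false

namespace Pool.Agent.CutSeq.NJ

open Finset Module Bwd

variable {n B L : ℕ}

/-! #### splitting the array of `n + 1` levels -/

/-- array of `n + 1` rows from the first `n` rows and the last one -/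
def jnU (A : Un n) (R : V n) : Un (n + 1) := fun k j =>
  if h : k.val < n then A ⟨k.val, h⟩ j
  else R ⟨j.val, by have := k.isLt; have := j.isLt; omega⟩

/-- splitting off the last row -/
def jnE (n : ℕ) : Un n × V n ≃ Un (n + 1) where
  toFun p := jnU p.1 p.2
  invFun x := (fun k j => x ⟨k.val, by omega⟩ j, fun j => x ⟨n, by omega⟩ j)
  left_inv p := by
    refine Prod.ext ?_ ?_
    · funext k j
      exact dif_pos k.isLt
    · funext j
      exact dif_neg (lt_irrefl n)
  right_inv x := by
    funext k j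
    obtain ⟨k, hk⟩ := k
    by_cases h : k < n
    · exact dif_pos h
    · have hk' : k = n := by omega
      subst hk'
      exact dif_neg h

theorem jnU_inj {A A' : Un n} {R R' : V n} : jnU A R = jnU A' R' ↔ A = A' ∧ R = R' := by
  have := (jnE n).injective.eq_iff (a := (A, R)) (b := (A', R'))
  rw [Prod.mk.injEq] at this
  exact this

theorem sum_jnU (g : Un (n + 1) → ℝ) : ∑ A : Un n, ∑ R : V n, g (jnU A R) = ∑ x, g x := by
  rw [← (jnE n).sum_comp, Fintype.sum_prod_type]
  rfl

theorem mm_jnU (α : Seq) (l : ℕ) : mm α l (n + 1) = jnU (mm α l n) (row α l n) := by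
  funext k j
  unfold jnU
  by_cases h : k.val < n
  · rw [dif_pos h]
    rfl
  · rw [dif_neg h]
    have hk : k.val = n := by have := k.isLt; omega
    exact congrArg (fun m => Mst α l m j.val) hk

theorem en_jnU (A : Un n) (R : V n) (k j : ℕ) (h : k < n) :
    Brg.en (jnU A R) k j = Brg.en A k j := by
  unfold Brg.en
  rw [dif_pos (by omega : k < n + 1), dif_pos h]
  split_ifs with h'
  · exact dif_pos h
  · rfl

theorem en_jnU_last (A : Un n) (R : V n) (j : ℕ) (h : j < n) :
    Brg.en (jnU A R) n j = R ⟨j, h⟩ := by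
  unfold Brg.en
  rw [dif_pos (by omega : n < n + 1), dif_pos h]
  exact dif_neg (lt_irrefl n)

theorem ro_jnU {b : ℕ} (hb : b + 1 < n) (A : Un n) (R : V n) :
    Brg.ro b (jnU A R) = jnU (Brg.ro b A) R := by
  apply Brg.en_ext
  intro k j h1 h2
  rw [Brg.en_ro b _ k j h2 h1]
  rcases Nat.lt_or_ge k n with h | h
  · rw [en_jnU A R k j h, en_jnU _ R k j h, Brg.en_ro b A k j h h1]
    congr 1
    by_cases hk : k = b + 1
    · rw [if_pos hk, if_pos hk, en_jnU A R b j (by omega)]
    · rw [if_neg hk, if_neg hk]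
  · have hk : k = n := by omega
    subst hk
    rw [if_neg (by omega), add_zero, en_jnU_last A R j h1, en_jnU_last _ R j h1]

/-! #### the joint law -/

/-- joint law of the array of `n` levels and of the row of level `n` -/
noncomputable def jlw (B L n : ℕ) (A : Un n) (R : V n) : ℝ := lw B L (n + 1) (jnU A R)

theorem jlw_nonneg (A : Un n) (R : V n) : 0 ≤ jlw B L n A R := Slt.lw_nonneg _ _

theorem jlw_eq (A : Un n) (R : V n) : jlw B L n A R
    = mass (uw B L) (fun ω => (mm (ext ω) L n, row (ext ω) L n)) (A, R) := by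
  unfold jlw lw
  refine mass_congr _ _ _ _ _ fun ω _ => ?_
  rw [mm_jnU, jnU_inj, Prod.mk.injEq]

theorem tvj_jlw {b : ℕ} (hb : b + 1 < n) : tvj (jlw B L n) (Brg.ro b) = tvb B L (n + 1) b := by
  unfold tvj tvb jlw
  rw [← sum_jnU]
  refine sum_congr rfl fun A _ => sum_congr rfl fun R _ => ?_
  rw [ro_jnU hb]

theorem mA_jlw (A : Un n) : mA (jlw B L n) A = lw B L n A := by
  unfold mA
  rw [Finset.sum_congr rfl fun R _ => jlw_eq A R]
  have h := sum_mass (uw B L) (fun ω => row (ext ω) L n) (fun ω => mm (ext ω) L n) A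
  unfold lw
  rw [← h]
  refine sum_congr rfl fun R _ => ?_
  exact mass_congr _ _ _ _ _ fun ω _ => by rw [Prod.mk.injEq, Prod.mk.injEq, and_comm]

theorem sum_lw (hB : 0 < B) : ∑ A, mA (jlw B L n) A = 1 := by
  rw [Finset.sum_congr rfl fun A _ => mA_jlw A]
  exact lw_sum B L n hB

/-- the posterior mean of the character is the posterior probability of the relation -/
theorem pst_jlw (a : V n) (A : Un n) : pst (jlw B L n) a A
    = post (uw B L) (fun ω => TT (ext ω) L n) (fun ω => mm (ext ω) L n) a A := by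
  classical
  unfold pst post
  rw [mA_jlw]
  have h1 : ∀ R : V n, jlw B L n A R / lw B L n A * sgn (R ⬝ᵥ a)
      = (∑ ω : Wd B L, (if mm (ext ω) L n = A then uw B L ω * sgn (R ⬝ᵥ a) else 0) *
        (if row (ext ω) L n = R then 1 else 0)) / lw B L n A := by
    intro R
    rw [div_mul_eq_mul_div, jlw_eq]
    congr 1
    rw [Brg.mass_eq, Finset.sum_mul]
    refine sum_congr rfl fun ω _ => ?_
    by_cases h : mm (ext ω) L n = A
    · by_cases h' : row (ext ω) L n = R
      · rw [if_pos (by rw [h, h']), if_pos h, if_pos h', mul_one]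
      · rw [if_neg (by rw [Prod.mk.injEq]; exact fun e => h' e.2), if_neg h', mul_zero, zero_mul]
    · rw [if_neg (by rw [Prod.mk.injEq]; exact fun e => h e.1), if_neg h, zero_mul, zero_mul]
  have h2 : ∀ R : V n, (∑ ω : Wd B L, (if mm (ext ω) L n = A then uw B L ω * sgn (R ⬝ᵥ a) else 0) *
        (if row (ext ω) L n = R then 1 else 0))
      = ∑ ω : Wd B L, (if mm (ext ω) L n = A then uw B L ω * sgn (R ⬝ᵥ a) else 0) *
        uT (TT (ext ω) L n) R := by
    intro R
    refine row_uniform n L le_rfl _ (fun ω ω' h => ?_) R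
    have := h.mm_eq
    rw [this]
    rfl
  rw [Finset.sum_congr rfl fun R _ => h1 R, ← Finset.sum_div, Finset.sum_congr rfl fun R _ => h2 R,
    Finset.sum_comm]
  have h3 : ∀ ω : Wd B L, ∑ R : V n, (if mm (ext ω) L n = A then uw B L ω * sgn (R ⬝ᵥ a) else 0) *
        uT (TT (ext ω) L n) R = if mm (ext ω) L n = A then
          ind {ω | a ∈ perp (TT (ext ω) L n)} (uw B L) ω else 0 := by
    intro ω
    by_cases h : mm (ext ω) L n = A
    · simp only [if_pos h]
      have e : ∑ R : V n, uw B L ω * sgn (R ⬝ᵥ a) * uT (TT (ext ω) L n) R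
          = uw B L ω * ∑ R : V n, uT (TT (ext ω) L n) R * sg (R ⬝ᵥ a) := by
        rw [mul_sum]
        refine sum_congr rfl fun R _ => ?_
        change uw B L ω * sg (R ⬝ᵥ a) * _ = _
        ring
      rw [e, sum_uT_sg]
      unfold ind
      by_cases h' : a ∈ perp (TT (ext ω) L n)
      · rw [if_pos h', mul_one]
        exact (Set.indicator_of_mem (s := {ω : Wd B L | a ∈ perp (TT (ext ω) L n)}) h' _).symm
      · rw [if_neg h', mul_zero]
        exact (Set.indicator_of_notMem (s := {ω : Wd B L | a ∈ perp (TT (ext ω) L n)}) h' _).symm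
    · simp only [if_neg h, zero_mul, sum_const_zero]
  rw [Finset.sum_congr rfl fun ω _ => h3 ω, Brg.mass_eq]
  rfl

/-! #### the patterns -/

theorem act_ro (b : ℕ) (A : Un n) (z : V n) : act (Brg.ro b A) z = lt (b, 1) (act A z) := by
  unfold Brg.ro
  rw [act_mulU]
  generalize act A z = y
  funext k
  unfold act lt
  refine congrArg (y k + ·) ?_
  by_cases h : k.val = b + 1
  · rw [if_pos h, Finset.sum_eq_single (⟨b, by omega⟩ : Fin k.val)]
    · unfold Brg.el zx
      rw [if_pos ⟨h, rfl⟩, dif_pos (show b < n by have := k.isLt; omega)]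
    · intro j _ hj
      unfold Brg.el
      rw [if_neg (fun e => hj (Fin.ext e.2)), zero_mul]
    · intro h
      exact absurd (mem_univ _) h
  · rw [if_neg h]
    refine Finset.sum_eq_zero fun j _ => ?_
    unfold Brg.el
    rw [if_neg (fun e => h e.1), zero_mul]

theorem map_ro (b : ℕ) (A : Un n) (X : Submodule (ZMod 2) (V n)) :
    X.map (actL (Brg.ro b A)) = (X.map (actL A)).map (ltL n (b, 1)) := by
  rw [← Submodule.map_comp]
  congr 1
  refine LinearMap.ext fun z => ?_
  rw [LinearMap.comp_apply, actL_apply, actL_apply, ltL_apply]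
  exact act_ro b A z

/-- current of the tops of `A X` through the bond `b` -/
noncomputable def Jc (b : ℕ) (X : Submodule (ZMod 2) (V n)) (A : Un n) : ℝ :=
  (bn (P10 (X.map (actL A)) b) : ℝ) - bn (P01 (X.map (actL A)) b)

theorem Jc_eq {b : ℕ} (hb : b + 1 < n) (X : Submodule (ZMod 2) (V n)) (A : Un n) :
    Jc b X A = (nb (X.map (actL A)) (b + 1) : ℝ) - nb (X.map (actL (Brg.ro b A))) (b + 1) := by
  have h := nb_map_one (X.map (actL A)) b hb
  rw [← map_ro] at h
  have h' : (nb (X.map (actL (Brg.ro b A))) (b + 1) : ℝ) + bn (P10 (X.map (actL A)) b)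
      = nb (X.map (actL A)) (b + 1) + bn (P01 (X.map (actL A)) b) := by exact_mod_cast h
  unfold Jc
  linarith

open Classical in
/-- the pattern structure of the letter model -/
noncomputable def patM (n : ℕ) : Pat n (Un n) Brg.ro where
  m := n - 1
  J := Jc
  tops X A := (range n).filter fun k => hasTop (X.map (actL A)) k
  inv b _ A := Brg.ro_ro b A
  odd b hb X A := by
    rw [Jc_eq (by omega), Jc_eq (by omega), Brg.ro_ro]
    ring
  bdd b X A := by
    unfold Jc
    have h1 := bn_le_one (P10 (X.map (actL A)) b)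
    have h2 := bn_le_one (P01 (X.map (actL A)) b)
    have h3 : (bn (P10 (X.map (actL A)) b) : ℝ) ≤ 1 := by exact_mod_cast h1
    have h4 : (bn (P01 (X.map (actL A)) b) : ℝ) ≤ 1 := by exact_mod_cast h2
    have h5 : (0 : ℝ) ≤ bn (P10 (X.map (actL A)) b) := Nat.cast_nonneg _
    have h6 : (0 : ℝ) ≤ bn (P01 (X.map (actL A)) b) := Nat.cast_nonneg _
    rw [abs_le]
    constructor <;> linarith
  mono X X' A h := by
    intro k hk
    rw [mem_filter] at hk ⊢
    exact ⟨hk.1, hasTop_mono (Submodule.map_mono h) hk.2⟩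
  card X A := by
    rw [← finrank_map_actL A X, ← nb_top _ le_rfl, nb_range, card_filter]
    refine sum_congr rfl fun k _ => ?_
    unfold bn
    split_ifs <;> rfl
  dep b hb X X' A h h0 h1 := by
    have hb' : b < n := by omega
    have hb1 : b + 1 < n := by omega
    simp only [mem_filter, mem_range, hb', hb1, true_and] at h0 h1
    have hle : X.map (actL A) ≤ X'.map (actL A) := Submodule.map_mono h
    unfold Jc
    rw [bn_congr (P10_congr hle h0 h1), bn_congr (P01_congr hle h0 h1)]

/-- **the current bound** -/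
theorem current_le (hB : 0 < B) (th η : ℝ) (hη : 0 < η) (K : ℕ) :
    ∑ k ∈ range K, ∑ b ∈ range (n - 1),
      |∑ A, lw B L n A * Jc b (Vth (jlw B L n) (th + (k + 1) * η) A) A| ≤
      K * ((1 / 2 + 2 / η) * ∑ b ∈ range (n - 1), tvb B L (n + 1) b) + 4 * n := by
  have h := cur_avg (patM n) (jlw B L n) (fun _ _ => jlw_nonneg _ _) th η hη K
  rw [sum_lw hB, mul_one] at h
  have h1 : ∑ b ∈ range (patM n).m, tvj (jlw B L n) (Brg.ro b)
      = ∑ b ∈ range (n - 1), tvb B L (n + 1) b :=
    sum_congr rfl fun b hb => tvj_jlw (by have := mem_range.1 hb; change b < n - 1 at this; omega)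
  rw [h1] at h
  simp only [mA_jlw] at h
  exact h

end Pool.Agent.CutSeq.NJ
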