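import Pool.Agent.NJ.LocDefs

/-!
S19271 / NJ, row SB (helper38), auxiliary lemmas: first coins, small entropy, numbers, telescoping.
-/

set_option autoImplicit false

namespace Pool.Agent.NJ

open Finset Pool.Agent.CutSeq

section Marg

variable {H A : Type*} [Fintype H] {n t i j : ℕ}

/-- splitting the coins -/
def coEquiv (t i j x y : ℕ) : Co t i j × Co t x y ≃ Co t (i + x) (j + y) where
  toFun p := (Fin.append p.1.1 p.2.1, Fin.append p.1.2 p.2.2)
  invFun c := (ini x y c, (fun b => c.1 (Fin.natAdd i b), fun b => c.2 (Fin.natAdd j b)))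
  left_inv := by
    rintro ⟨⟨a, b⟩, ⟨c, d⟩⟩
    simp [ini, Fin.append_left, Fin.append_right]
  right_inv := by
    rintro ⟨a, b⟩
    simp only [ini, Prod.mk.injEq]
    constructor
    · funext u
      refine Fin.addCases (fun v => ?_) (fun v => ?_) u
      · rw [Fin.append_left]
      · rw [Fin.append_right]
    · funext u
      refine Fin.addCases (fun v => ?_) (fun v => ?_) u
      · rw [Fin.append_left]
      · rw [Fin.append_right]

lemma ini_coEquiv (t i j x y : ℕ) (c : Co t i j) (z : Co t x y) :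
    ini x y (coEquiv t i j x y (c, z)) = c := by
  have h := (coEquiv t i j x y).left_inv (c, z)
  exact congrArg Prod.fst h

/-- averages over the first coins -/
lemma sum_ini (x y : ℕ) (F : Co t i j → ℝ) :
    (∑ c : Co t (i + x) (j + y), F (ini x y c)) / (Fintype.card (Co t (i + x) (j + y)) : ℝ)
      = (∑ c, F c) / (Fintype.card (Co t i j) : ℝ) := by
  have h1 : ∑ c : Co t (i + x) (j + y), F (ini x y c) =
      ∑ p : Co t i j × Co t x y, F p.1 := by
    rw [← (coEquiv t i j x y).sum_comp]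
    refine Finset.sum_congr rfl fun p _ => ?_
    obtain ⟨c, z⟩ := p
    rw [ini_coEquiv]
  have h2 : ((Fintype.card (Co t (i + x) (j + y)) : ℕ) : ℝ) =
      Fintype.card (Co t i j) * Fintype.card (Co t x y) := by
    rw [← Fintype.card_congr (coEquiv t i j x y), Fintype.card_prod]
    push_cast
    ring
  have h3 : ((Fintype.card (Co t x y) : ℕ) : ℝ) ≠ 0 := by exact_mod_cast Fintype.card_ne_zero
  have h4 : ((Fintype.card (Co t i j) : ℕ) : ℝ) ≠ 0 := by exact_mod_cast Fintype.card_ne_zero
  rw [h1, h2, Fintype.sum_prod_type]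
  simp only [Finset.sum_const, Finset.card_univ, nsmul_eq_mul]
  rw [← Finset.mul_sum]
  field_simp

/-- events of the first coins -/
lemma pr_ini (w : H → ℝ) (x y : ℕ) (G : Set (H × Co t i j)) :
    pr (pw w (Co t (i + x) (j + y))) {p | (p.1, ini x y p.2) ∈ G} = pr (pw w (Co t i j)) G := by
  classical
  rw [pr_eq_sum, pr_eq_sum]
  have e1 : ∀ p : H × Co t (i + x) (j + y),
      (if p ∈ {p : H × Co t (i + x) (j + y) | (p.1, ini x y p.2) ∈ G} then
        pw w (Co t (i + x) (j + y)) p else 0) =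
      pw w (Co t (i + x) (j + y)) p *
        (fun h c => if (h, ini x y c) ∈ G then (1 : ℝ) else 0) p.1 p.2 := by
    intro p
    simp only [Set.mem_ofPred_eq]
    split <;> simp
  have e2 : ∀ p : H × Co t i j, (if p ∈ G then pw w (Co t i j) p else 0) =
      pw w (Co t i j) p * (fun h c => if (h, c) ∈ G then (1 : ℝ) else 0) p.1 p.2 := by
    intro p
    simp only [Prod.mk.eta]
    split <;> simp
  rw [Finset.sum_congr rfl fun p _ => e1 p, Finset.sum_congr rfl fun p _ => e2 p,
    sum_pw w (fun h (c : Co t (i + x) (j + y)) => if (h, ini x y c) ∈ G then (1 : ℝ) else 0),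
    sum_pw w (fun h (c : Co t i j) => if (h, c) ∈ G then (1 : ℝ) else 0)]
  refine Finset.sum_congr rfl fun h _ => ?_
  congr 1
  exact sum_ini x y (fun c => if (h, c) ∈ G then (1 : ℝ) else 0)

end Marg

/-- bound of the binary entropy at a small argument -/
lemma HH_small {a b ε : ℝ} (ha : 0 ≤ a) (hb : 0 ≤ b) (hab : a + b ≤ 1) (haε : a ≤ ε)
    (hε : 0 < ε) (hε1 : ε ≤ 1) : HH a b ≤ ε * Real.log (1 / ε) + ε := by
  have h1 : b * Real.log ((a + b) / b) ≤ a := by
    rcases eq_or_lt_of_le hb with h | h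
    · rw [← h]; simpa using ha
    · have h2 := Real.log_le_sub_one_of_pos (x := (a + b) / b) (by positivity)
      have h3 : (a + b) / b - 1 = a / b := by
        field_simp
        ring
      rw [h3] at h2
      calc b * Real.log ((a + b) / b) ≤ b * (a / b) := mul_le_mul_of_nonneg_left h2 hb
        _ = a := by field_simp
  have hl : 0 ≤ Real.log (1 / ε) := Real.log_nonneg (by rw [le_div_iff₀ hε]; linarith)
  have h2 : a * Real.log ((a + b) / a) + a ≤ ε * Real.log (1 / ε) + ε := by
    rcases eq_or_lt_of_le ha with h | h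
    · rw [← h]
      simp only [zero_mul, zero_add]
      positivity
    · have h3 : a * Real.log ((a + b) / a) ≤ a * Real.log (1 / a) := by
        refine mul_le_mul_of_nonneg_left ?_ ha
        refine Real.log_le_log (by positivity) ?_
        gcongr
      have h4 : Real.log (1 / a) = Real.log (1 / ε) + Real.log (ε / a) := by
        rw [← Real.log_mul (by positivity) (by positivity)]
        congr 1
        field_simp
      have h5 := Real.log_le_sub_one_of_pos (x := ε / a) (by positivity)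
      have h6 : a * Real.log (ε / a) ≤ ε - a := by
        calc a * Real.log (ε / a) ≤ a * (ε / a - 1) := mul_le_mul_of_nonneg_left h5 ha
          _ = ε - a := by field_simp
      have h7 : a * Real.log (1 / ε) ≤ ε * Real.log (1 / ε) :=
        mul_le_mul_of_nonneg_right haε hl
      rw [h4, mul_add] at h3
      linarith
  unfold HH
  linarith

/-- the numerical error -/
lemma sb_err {s N : ℕ} (hN : 64 * (N + 1) ^ 2 ≤ 2 ^ s) {x : ℝ}
    (hx : x ≤ 16 * (1 / 4) ^ s * ((N : ℝ) ^ 2 * Real.log 2) +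
      (16 * (1 / 4 : ℝ) ^ s * Real.log (1 / (16 * (1 / 4) ^ s)) + 16 * (1 / 4) ^ s)) :
    3 * x + 16 * (1 / 4) ^ s ≤ 8 * (1 / 2) ^ s := by
  set p : ℝ := (1 / 2) ^ s with hp
  have hp0 : 0 < p := by positivity
  have e4 : (1 / 4 : ℝ) ^ s = p ^ 2 := by
    rw [hp, ← pow_mul, mul_comm s 2, pow_mul]
    norm_num
  have h2 : (64 : ℝ) * ((N : ℝ) + 1) ^ 2 ≤ 2 ^ s := by exact_mod_cast hN
  have e2 : (2 : ℝ) ^ s * p = 1 := by
    rw [hp, ← mul_pow]
    norm_num
  have h64 : 64 * ((N : ℝ) + 1) ^ 2 * p ≤ 1 := by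
    have h := mul_le_mul_of_nonneg_right h2 hp0.le
    rwa [e2] at h
  have hN0 : (0 : ℝ) ≤ N := Nat.cast_nonneg N
  have hp64 : 64 * p ≤ 1 := by
    have : 0 ≤ (N : ℝ) ^ 2 + 2 * N := by positivity
    nlinarith
  have hNp : 64 * ((N : ℝ) ^ 2 * p) ≤ 1 := by
    have : 0 ≤ (2 * (N : ℝ) + 1) * p := by positivity
    nlinarith
  have hl2 : Real.log 2 < 0.6931471808 := Real.log_two_lt_d9
  have hl2' : 0 < Real.log 2 := Real.log_pos (by norm_num)
  have hlog : Real.log (1 / (16 * p ^ 2)) ≤ 8 * Real.log 2 + 2 * (1 / (64 * p) - 1) := by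
    have h3 : Real.log (1 / (16 * p ^ 2)) = 8 * Real.log 2 + 2 * Real.log (1 / (64 * p)) := by
      have h5 : 1 / (16 * p ^ 2) = 2 ^ 8 * (1 / (64 * p)) ^ 2 := by
        field_simp
        norm_num
      rw [h5, Real.log_mul (by positivity) (by positivity), Real.log_pow, Real.log_pow]
      push_cast
      ring
    have h4 := Real.log_le_sub_one_of_pos (x := 1 / (64 * p)) (by positivity)
    rw [h3]
    linarith
  rw [e4] at hx ⊢
  have h5 : 16 * p ^ 2 * Real.log (1 / (16 * p ^ 2)) ≤
      16 * p ^ 2 * (8 * Real.log 2 + 2 * (1 / (64 * p) - 1)) :=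
    mul_le_mul_of_nonneg_left hlog (by positivity)
  have h6 : 16 * p ^ 2 * (8 * Real.log 2 + 2 * (1 / (64 * p) - 1)) =
      128 * Real.log 2 * p ^ 2 + p / 2 - 32 * p ^ 2 := by
    field_simp
    ring
  have h7 : 16 * p ^ 2 * ((N : ℝ) ^ 2 * Real.log 2) ≤ p / 4 * Real.log 2 := by
    have : 16 * p ^ 2 * ((N : ℝ) ^ 2 * Real.log 2) = (64 * ((N : ℝ) ^ 2 * p)) * (p / 4 * Real.log 2) := by
      ring
    rw [this]
    exact mul_le_of_le_one_left (by positivity) hNp
  have h8 : p ^ 2 ≤ p / 64 := by nlinarith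
  have h9 : Real.log 2 * p ^ 2 ≤ Real.log 2 * (p / 64) := mul_le_mul_of_nonneg_left h8 hl2'.le
  have h10 : p * Real.log 2 ≤ p * 0.6931471808 := mul_le_mul_of_nonneg_left hl2.le hp0.le
  nlinarith

/-- telescoping -/
lemma sb_tele (f : ℕ → ℝ) (hf : ∀ j, f j ≤ f (j + 1)) (hf0 : ∀ j, 0 ≤ f j) (R m : ℕ) :
    ∑ j ∈ range R, (∑ r ∈ range m, f (j + r) - m * f j) ≤ (m : ℝ) ^ 2 / 2 * f (R + m) := by
  have hmono : Monotone f := monotone_nat_of_le_succ hf
  have h1 : ∀ r : ℕ, ∑ j ∈ range R, (f (j + r) - f j) ≤ r * f (R + r) := by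
    intro r
    have e1 : ∑ j ∈ range R, f (j + r) = ∑ j ∈ range (R + r), f j - ∑ j ∈ range r, f j := by
      rw [add_comm R r, Finset.sum_range_add]
      have : ∀ j, f (r + j) = f (j + r) := fun j => by rw [add_comm]
      simp only [this]
      ring
    have e2 : ∑ j ∈ range (R + r), f j = ∑ j ∈ range R, f j + ∑ j ∈ range r, f (R + j) :=
      Finset.sum_range_add _ _ _
    have h3 : ∑ j ∈ range r, f (R + j) ≤ ∑ _j ∈ range r, f (R + r) :=
      Finset.sum_le_sum fun j hj => hmono (by have := Finset.mem_range.1 hj; omega)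
    have h4 : 0 ≤ ∑ j ∈ range r, f j := Finset.sum_nonneg fun j _ => hf0 j
    rw [Finset.sum_const, Finset.card_range, nsmul_eq_mul] at h3
    rw [Finset.sum_sub_distrib, e1, e2]
    linarith
  have h2 : ∑ j ∈ range R, (∑ r ∈ range m, f (j + r) - m * f j) =
      ∑ r ∈ range m, ∑ j ∈ range R, (f (j + r) - f j) := by
    rw [Finset.sum_comm]
    refine Finset.sum_congr rfl fun j _ => ?_
    rw [Finset.sum_sub_distrib, Finset.sum_const, Finset.card_range, nsmul_eq_mul]
  rw [h2]
  calc ∑ r ∈ range m, ∑ j ∈ range R, (f (j + r) - f j)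
      ≤ ∑ r ∈ range m, (r : ℝ) * f (R + m) := by
        refine Finset.sum_le_sum fun r hr => (h1 r).trans ?_
        have := Finset.mem_range.1 hr
        exact mul_le_mul_of_nonneg_left (hmono (by omega)) (Nat.cast_nonneg r)
    _ = (∑ r ∈ range m, (r : ℝ)) * f (R + m) := (Finset.sum_mul _ _ _).symm
    _ ≤ (m : ℝ) ^ 2 / 2 * f (R + m) := by
        refine mul_le_mul_of_nonneg_right ?_ (hf0 _)
        clear h1 h2
        induction m with
        | zero => simp
        | succ m ih =>
            rw [Finset.sum_range_succ]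
            push_cast
            nlinarith


end Pool.Agent.NJ
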