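import Pool.Agent.NJ.RB89
import Pool.Agent.NJ.SBa38

/-!
S19271 / NJ, row DC: decoding of the robust space.
-/

set_option autoImplicit false

namespace Pool.Agent.NJ

open Finset Pool.Agent.CutSeq

variable {H A : Type*} [Fintype H] [Fintype A] {n t : ℕ} (S : Loc H A n t)

namespace DC69

/-! ### Coins -/

/-- sums over `Co t i (j + r)` -/
lemma sum_plus {i j r : ℕ} (F : Co t i (j + r) → ℝ) :
    ∑ c, F c = ∑ c : Co t i j, ∑ η : Fin r → V t, F (c.1, Fin.append c.2 η) := by
  rw [Fintype.sum_prod_type, Fintype.sum_prod_type]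
  refine Finset.sum_congr rfl fun x _ => ?_
  rw [LP86.sum_append]

lemma card_plus (t i j r : ℕ) : (Fintype.card (Co t i (j + r)) : ℝ) =
    (Fintype.card (Co t i j) : ℝ) * (Fintype.card (Fin r → V t) : ℝ) := by
  have h := sum_plus (t := t) (i := i) (j := j) (r := r) (fun _ => 1)
  simp only [Finset.sum_const, Finset.card_univ, nsmul_eq_mul, mul_one] at h
  exact h

lemma avg_plus {i j r : ℕ} (F : Co t i j → (Fin r → V t) → ℝ) :
    (∑ c : Co t i (j + r), F (c.1, fun b => c.2 (Fin.castAdd r b)) (fun b => c.2 (Fin.natAdd j b))) /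
        (Fintype.card (Co t i (j + r)) : ℝ)
      = (∑ c : Co t i j, (∑ η, F c η) / (Fintype.card (Fin r → V t) : ℝ)) /
        (Fintype.card (Co t i j) : ℝ) := by
  rw [sum_plus, card_plus, ← Finset.sum_div, div_div, mul_comm (Fintype.card (Fin r → V t) : ℝ)]
  congr 1
  refine Finset.sum_congr rfl fun c _ => Finset.sum_congr rfl fun η _ => ?_
  congr 1
  · refine Prod.ext rfl ?_
    funext b
    simp [Fin.append_left]
  · funext b
    simp [Fin.append_right]

open Classical in
/-- tests by `r` further columns -/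
lemma test (h : H) (r : ℕ) (a : V n) (ha : a ∉ perp (S.TC h)) :
    (∑ η : Fin r → V t, if ∀ b, S.col h (η b) ⬝ᵥ a = 0 then (1 : ℝ) else 0) /
      (Fintype.card (Fin r → V t) : ℝ) ≤ (1 / 2) ^ r := by
  have hN : (0 : ℝ) < Fintype.card (V t) := by exact_mod_cast Fintype.card_pos
  have hc : (Fintype.card (Fin r → V t) : ℝ) = (Fintype.card (V t) : ℝ) ^ r := by
    have := Fintype.card_fun (α := Fin r) (β := V t)
    rw [Fintype.card_fin] at this
    rw [this, Nat.cast_pow]
  have h1 : (∑ η : Fin r → V t, if ∀ b, S.col h (η b) ⬝ᵥ a = 0 then (1 : ℝ) else 0) =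
      (∑ η : V t, (if S.col h η ⬝ᵥ a = 0 then (1 : ℝ) else 0)) ^ r := by
    have h2 : (∑ η : V t, (if S.col h η ⬝ᵥ a = 0 then (1 : ℝ) else 0)) ^ r =
        ∑ f' : Fin r → V t, ∏ b, (if S.col h (f' b) ⬝ᵥ a = 0 then (1 : ℝ) else 0) := by
      rw [← Fintype.prod_sum (fun (_ : Fin r) η => if S.col h η ⬝ᵥ a = 0 then (1 : ℝ) else 0)]
      simp
    rw [h2]
    refine Finset.sum_congr rfl fun f _ => ?_
    by_cases h4 : ∀ b, S.col h (f b) ⬝ᵥ a = 0
    · rw [if_pos h4]
      symm
      exact Finset.prod_eq_one fun b _ => if_pos (h4 b)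
    · rw [if_neg h4]
      symm
      push Not at h4
      obtain ⟨b, hb⟩ := h4
      exact Finset.prod_eq_zero (Finset.mem_univ b) (if_neg hb)
  have hh := LP86.half_col S h a ha
  have hs0 : 0 ≤ ∑ η : V t, (if S.col h η ⬝ᵥ a = 0 then (1 : ℝ) else 0) :=
    Finset.sum_nonneg fun η _ => by split <;> norm_num
  rw [h1, hc, ← div_pow]
  refine pow_le_pow_left₀ (div_nonneg hs0 hN.le) ?_ r
  rw [div_le_iff₀ hN]
  linarith

/-! ### Statistics -/

open Classical in
/-- `a` is in the capped list -/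
noncomputable def g (w : H → ℝ) (i j k s : ℕ) (h : H) (a : V n) (c : Co t i j) : ℝ :=
  if a ∈ S.cl w i j k s (S.dat i j (h, c)) then 1 else 0

/-- public average -/
noncomputable def F (w : H → ℝ) (i j k s l : ℕ) (h : H) (a : V n) (c : Co t (i + l) (j + l)) : ℝ :=
  (∑ D : Cf i j l, g S w i j k s h a (mix D c)) / (Fintype.card (Cf i j l) : ℝ)

open Classical in
/-- `a` is in the fine list -/
noncomputable def L (w : H → ℝ) (i j l : ℕ) (h : H) (a : V n) (c : Co t (i + l) (j + l)) : ℝ :=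
  if a ∈ S.ls w (i + l) (j + l) 1 (S.dat (i + l) (j + l) (h, c)) then 1 else 0

lemma g_nonneg (w : H → ℝ) (i j k s : ℕ) (h : H) (a : V n) (c : Co t i j) :
    0 ≤ g S w i j k s h a c := by
  unfold g
  split <;> norm_num

lemma g_sq (w : H → ℝ) (i j k s : ℕ) (h : H) (a : V n) (c : Co t i j) :
    g S w i j k s h a c ^ 2 = g S w i j k s h a c := by
  unfold g
  split <;> norm_num

lemma L_nonneg (w : H → ℝ) (i j l : ℕ) (h : H) (a : V n) (c : Co t (i + l) (j + l)) :
    0 ≤ L S w i j l h a c := by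
  unfold L
  split <;> norm_num

lemma L_le_one (w : H → ℝ) (i j l : ℕ) (h : H) (a : V n) (c : Co t (i + l) (j + l)) :
    L S w i j l h a c ≤ 1 := by
  unfold L
  split <;> norm_num

lemma F_nonneg (w : H → ℝ) (i j k s l : ℕ) (h : H) (a : V n) (c : Co t (i + l) (j + l)) :
    0 ≤ F S w i j k s l h a c :=
  div_nonneg (Finset.sum_nonneg fun D _ => g_nonneg S w i j k s h a _) (Nat.cast_nonneg _)

lemma g_sum (w : H → ℝ) (i j k s : ℕ) (h : H) (c : Co t i j) :
    ∑ a, g S w i j k s h a c ≤ 2 ^ s := RB89.cl_card_sum S w i j k s _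

lemma pa_eq (w : H → ℝ) (i j k s : ℕ) (h : H) (a : V n) :
    S.pa w i j k s h a = (∑ c, g S w i j k s h a c) / (Fintype.card (Co t i j) : ℝ) := rfl

lemma pa_nonneg (w : H → ℝ) (i j k s : ℕ) (h : H) (a : V n) : 0 ≤ S.pa w i j k s h a := by
  rw [pa_eq]
  exact div_nonneg (Finset.sum_nonneg fun c _ => g_nonneg S w i j k s h a _) (Nat.cast_nonneg _)

lemma pa_sum (w : H → ℝ) (i j k s : ℕ) (h : H) : ∑ a, S.pa w i j k s h a ≤ 2 ^ s := by
  have hK : (0 : ℝ) < Fintype.card (Co t i j) := by exact_mod_cast Fintype.card_pos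
  simp only [pa_eq]
  rw [← Finset.sum_div, Finset.sum_comm, div_le_iff₀ hK]
  calc ∑ c : Co t i j, ∑ a, g S w i j k s h a c ≤ ∑ _c : Co t i j, (2 : ℝ) ^ s :=
        Finset.sum_le_sum fun c _ => g_sum S w i j k s h c
    _ = 2 ^ s * (Fintype.card (Co t i j) : ℝ) := by
        rw [Finset.sum_const, Finset.card_univ, nsmul_eq_mul, mul_comm]

lemma var (w : H → ℝ) (i j k s l : ℕ) (h : H) :
    ∑ a, (∑ c : Co t (i + l) (j + l), (F S w i j k s l h a c - S.pa w i j k s h a) ^ 2) /
      (Fintype.card (Co t (i + l) (j + l)) : ℝ) ≤ 2 ^ s * (1 / 2) ^ l := by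
  have h1 : ∀ a, (∑ c : Co t (i + l) (j + l), (F S w i j k s l h a c - S.pa w i j k s h a) ^ 2) /
      (Fintype.card (Co t (i + l) (j + l)) : ℝ) ≤ (1 / 2) ^ l * S.pa w i j k s h a := by
    intro a
    have h1 := mix_var (l := l) (fun c : Co t i j => g S w i j k s h a c)
    simp only [g_sq] at h1
    exact h1
  refine (Finset.sum_le_sum fun a _ => h1 a).trans ?_
  rw [← Finset.mul_sum, mul_comm]
  exact mul_le_mul_of_nonneg_right (pa_sum S w i j k s h) (by positivity)

lemma ini_shr {i j l : ℕ} (D : Cf i j l) (c : Co t (i + l) (j + l)) : ini l l (shr D c) = mix D c := by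
  refine Prod.ext ?_ ?_
  · funext b
    simp [ini, mix]
  · funext b
    simp [ini, mix]

/-- the public average against an invariant function -/
lemma avg_F (w : H → ℝ) (hw : ∀ h, 0 ≤ w h) (i j k s l : ℕ) (h : H) (a : V n) :
    ∑ c : Co t (i + l) (j + l), F S w i j k s l h a c * (1 - L S w i j l h a c)
      = ∑ c : Co t (i + l) (j + l), g S w i j k s h a (ini l l c) * (1 - L S w i j l h a c) := by
  have hcf : (0 : ℝ) < (Fintype.card (Cf i j l) : ℝ) := by exact_mod_cast Fintype.card_pos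
  have h1 : ∀ D : Cf i j l,
      ∑ c : Co t (i + l) (j + l), g S w i j k s h a (ini l l c) * (1 - L S w i j l h a c)
      = ∑ c : Co t (i + l) (j + l), g S w i j k s h a (mix D c) * (1 - L S w i j l h a c) := by
    intro D
    rw [← (shrE D).sum_comp]
    refine Finset.sum_congr rfl fun c _ => ?_
    have h2 : L S w i j l h a (shr D c) = L S w i j l h a c := by
      unfold L
      rw [S.ls_shr w hw i j l 1 D h c]
    rw [shrE_apply, h2, ini_shr]
  have h3 : (Fintype.card (Cf i j l) : ℝ) *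
      ∑ c : Co t (i + l) (j + l), g S w i j k s h a (ini l l c) * (1 - L S w i j l h a c)
      = ∑ D : Cf i j l,
        ∑ c : Co t (i + l) (j + l), g S w i j k s h a (mix D c) * (1 - L S w i j l h a c) := by
    rw [Finset.sum_congr rfl fun D _ => (h1 D).symm, Finset.sum_const, Finset.card_univ, nsmul_eq_mul]
  have h4 : (Fintype.card (Cf i j l) : ℝ) *
      ∑ c : Co t (i + l) (j + l), F S w i j k s l h a c * (1 - L S w i j l h a c)
      = ∑ D : Cf i j l,
        ∑ c : Co t (i + l) (j + l), g S w i j k s h a (mix D c) * (1 - L S w i j l h a c) := by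
    rw [Finset.sum_comm, Finset.mul_sum]
    refine Finset.sum_congr rfl fun c _ => ?_
    unfold F
    rw [← Finset.sum_mul]
    field_simp
  exact mul_left_cancel₀ hcf.ne' (h4.trans h3.symm)

lemma sum_pa_le (w : H → ℝ) (hw : ∀ h, 0 ≤ w h) (hw1 : tot w ≤ 1) (i j k s : ℕ) :
    ∑ h, w h * ∑ a, S.pa w i j k s h a ≤ 2 ^ s := by
  calc ∑ h, w h * ∑ a, S.pa w i j k s h a ≤ ∑ h, w h * 2 ^ s :=
        Finset.sum_le_sum fun h _ => mul_le_mul_of_nonneg_left (pa_sum S w i j k s h) (hw h)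
    _ = tot w * 2 ^ s := by rw [← Finset.sum_mul]; rfl
    _ ≤ 1 * 2 ^ s := mul_le_mul_of_nonneg_right hw1 (by positivity)
    _ = 2 ^ s := one_mul _

open Classical in
/-- the relations which are not in the fine list -/
lemma rare (w : H → ℝ) (hw : ∀ h, 0 ≤ w h) (hw1 : tot w ≤ 1) (i j k s l : ℕ) :
    ∑ h, w h * ((∑ c : Co t (i + l) (j + l), ∑ a, (if a ∈ perp (S.TC h) then (1 : ℝ) else 0) *
      (F S w i j k s l h a c * (1 - L S w i j l h a c))) /
        (Fintype.card (Co t (i + l) (j + l)) : ℝ)) ≤ 2 ^ s * (1 / 2) ^ l := by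
  have h1 : ∀ a : V n, ∑ h, w h * ((if a ∈ perp (S.TC h) then (1 : ℝ) else 0) *
      ((∑ c : Co t (i + l) (j + l), g S w i j k s h a (ini l l c) * (1 - L S w i j l h a c)) /
        (Fintype.card (Co t (i + l) (j + l)) : ℝ)))
      ≤ (1 / 2) ^ l * ∑ h, w h * S.pa w i j k s h a := by
    intro a
    have h2 := S.ls_late w hw i j l {y | a ∈ S.cl w i j k s y} a
    have h3 : pr (pw w (Co t i j)) {p | S.dat i j p ∈ {y | a ∈ S.cl w i j k s y}}
        = ∑ h, w h * S.pa w i j k s h a := by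
      simp only [pa_eq]
      rw [← sum_pw w (C := Co t i j) (fun h c => g S w i j k s h a c)]
      unfold pr tot ind
      refine Finset.sum_congr rfl fun p _ => ?_
      by_cases hp : a ∈ S.cl w i j k s (S.dat i j p)
      · rw [Set.indicator_of_mem (by exact hp)]
        unfold g
        rw [if_pos hp, mul_one]
      · rw [Set.indicator_of_notMem (by exact hp)]
        unfold g
        rw [if_neg hp, mul_zero]
    rw [h3] at h2
    refine le_trans (le_of_eq ?_) h2
    have h4 : pr (pw w (Co t (i + l) (j + l))) {p | a ∈ perp (S.TC p.1) ∧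
        S.dat i j (p.1, ini l l p.2) ∈ {y | a ∈ S.cl w i j k s y} ∧
        a ∉ S.ls w (i + l) (j + l) 1 (S.dat (i + l) (j + l) p)}
        = ∑ h, w h * ((∑ c : Co t (i + l) (j + l), (if a ∈ perp (S.TC h) then 1 else 0) *
          (g S w i j k s h a (ini l l c) * (1 - L S w i j l h a c))) /
            (Fintype.card (Co t (i + l) (j + l)) : ℝ)) := by
      rw [← sum_pw w (C := Co t (i + l) (j + l)) (fun h c =>
        (if a ∈ perp (S.TC h) then 1 else 0) *
          (g S w i j k s h a (ini l l c) * (1 - L S w i j l h a c)))]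
      unfold pr tot ind
      refine Finset.sum_congr rfl fun p _ => ?_
      by_cases hp : p ∈ {p : H × Co t (i + l) (j + l) | a ∈ perp (S.TC p.1) ∧
        S.dat i j (p.1, ini l l p.2) ∈ {y | a ∈ S.cl w i j k s y} ∧
        a ∉ S.ls w (i + l) (j + l) 1 (S.dat (i + l) (j + l) p)}
      · rw [Set.indicator_of_mem hp]
        obtain ⟨p1, p2, p3⟩ := hp
        have p2' : a ∈ S.cl w i j k s (S.dat i j (p.1, ini l l p.2)) := p2
        have p3' : a ∉ S.ls w (i + l) (j + l) 1 (S.dat (i + l) (j + l) (p.1, p.2)) := p3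
        unfold g L
        rw [if_pos p1, if_pos p2', if_neg p3']
        ring
      · rw [Set.indicator_of_notMem hp]
        by_cases p1 : a ∈ perp (S.TC p.1)
        · by_cases p2 : a ∈ S.cl w i j k s (S.dat i j (p.1, ini l l p.2))
          · by_cases p3 : a ∈ S.ls w (i + l) (j + l) 1 (S.dat (i + l) (j + l) (p.1, p.2))
            · unfold L
              rw [if_pos p3]
              ring
            · exact absurd ⟨p1, p2, p3⟩ hp
          · unfold g
            rw [if_neg p2]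
            ring
        · rw [if_neg p1]
          ring
    rw [h4]
    refine Finset.sum_congr rfl fun h _ => ?_
    rw [← Finset.mul_sum, mul_div_assoc]
  have h5 : ∑ h, w h * ((∑ c : Co t (i + l) (j + l), ∑ a,
      (if a ∈ perp (S.TC h) then (1 : ℝ) else 0) *
      (F S w i j k s l h a c * (1 - L S w i j l h a c))) /
        (Fintype.card (Co t (i + l) (j + l)) : ℝ))
      = ∑ a : V n, ∑ h, w h * ((if a ∈ perp (S.TC h) then (1 : ℝ) else 0) *
      ((∑ c : Co t (i + l) (j + l), g S w i j k s h a (ini l l c) * (1 - L S w i j l h a c)) /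
        (Fintype.card (Co t (i + l) (j + l)) : ℝ))) := by
    rw [Finset.sum_comm]
    refine Finset.sum_congr rfl fun h _ => ?_
    rw [← Finset.mul_sum]
    congr 1
    rw [Finset.sum_comm, Finset.sum_div]
    refine Finset.sum_congr rfl fun a _ => ?_
    rw [← Finset.mul_sum, avg_F S w hw i j k s l h a, mul_div_assoc]
  rw [h5]
  refine (Finset.sum_le_sum fun a _ => h1 a).trans ?_
  rw [← Finset.mul_sum, Finset.sum_comm, mul_comm]
  refine mul_le_mul_of_nonneg_right ?_ (by positivity)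
  refine le_trans (le_of_eq ?_) (sum_pa_le S w hw hw1 i j k s)
  refine Finset.sum_congr rfl fun h _ => ?_
  rw [← Finset.mul_sum]

open Classical in
/-- pigeonhole: a threshold with few vectors near it -/
lemma window (w : H → ℝ) (hw : ∀ h, 0 ≤ w h) (hw1 : tot w ≤ 1) (i j k s R : ℕ) (hR : 1 ≤ R)
    (θ₀ : ℝ) (hθ : 0 < θ₀) :
    ∃ θ : ℝ, θ₀ ≤ θ ∧ θ ≤ 2 * θ₀ ∧
      ∑ h, w h * ∑ a, (if θ - θ₀ / (2 * R) ≤ S.pa w i j k s h a ∧
        S.pa w i j k s h a < θ + θ₀ / (2 * R) then (1 : ℝ) else 0) ≤ 2 ^ s / (θ₀ * R) := by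
  have hRR : (0 : ℝ) < R := by
    have : 0 < R := hR
    exact_mod_cast this
  set tau : ℝ := θ₀ / (2 * R) with htau
  have htau0 : 0 < tau := by positivity
  have h2J : 2 * (R : ℝ) * tau = θ₀ := by
    rw [htau]
    field_simp
  set thj : ℕ → ℝ := fun u => θ₀ + (2 * u + 1) * tau with hthj
  set cnt : ℕ → ℝ := fun u => ∑ h, w h * ∑ a, (if thj u - tau ≤ S.pa w i j k s h a ∧
    S.pa w i j k s h a < thj u + tau then (1 : ℝ) else 0) with hcnt
  have hsumcnt : ∑ u ∈ range R, cnt u ≤ 2 ^ s / θ₀ := by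
    rw [hcnt]
    simp only
    rw [Finset.sum_comm]
    have h1 : ∀ h, ∑ u ∈ range R, w h * ∑ a, (if thj u - tau ≤ S.pa w i j k s h a ∧
        S.pa w i j k s h a < thj u + tau then (1 : ℝ) else 0)
        ≤ w h * ((∑ a, S.pa w i j k s h a) / θ₀) := by
      intro h
      rw [← Finset.mul_sum]
      refine mul_le_mul_of_nonneg_left ?_ (hw h)
      rw [Finset.sum_comm, Finset.sum_div]
      refine Finset.sum_le_sum fun a _ => ?_
      set p := S.pa w i j k s h a with hp
      have hp0 : 0 ≤ p := pa_nonneg S w i j k s h a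
      by_cases hex : ∃ u ∈ range R, thj u - tau ≤ p ∧ p < thj u + tau
      · obtain ⟨u, hu, hu2⟩ := hex
        rw [Finset.sum_eq_single_of_mem u hu]
        · rw [if_pos hu2, le_div_iff₀ hθ, one_mul]
          have : θ₀ ≤ thj u - tau := by
            simp only [hthj]
            have : (0 : ℝ) ≤ (u : ℝ) * tau := by positivity
            linarith
          linarith [hu2.1]
        · intro u' _ hne
          rw [if_neg]
          rintro ⟨h3, h4⟩
          simp only [hthj] at hu2 h3 h4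
          rcases lt_or_gt_of_ne hne with hlt | hlt
          · have : (u' : ℝ) + 1 ≤ u := by exact_mod_cast hlt
            have := mul_le_mul_of_nonneg_right this htau0.le
            linarith [hu2.1]
          · have : (u : ℝ) + 1 ≤ u' := by exact_mod_cast hlt
            have := mul_le_mul_of_nonneg_right this htau0.le
            linarith [hu2.2]
      · have : ∑ u ∈ range R, (if thj u - tau ≤ p ∧ p < thj u + tau then (1 : ℝ) else 0) = 0 := by
          refine Finset.sum_eq_zero fun u hu => ?_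
          rw [if_neg]
          exact fun h => hex ⟨u, hu, h⟩
        rw [this]
        positivity
    refine (Finset.sum_le_sum fun h _ => h1 h).trans ?_
    have h3 := div_le_div_of_nonneg_right (sum_pa_le S w hw hw1 i j k s) hθ.le
    refine le_trans (le_of_eq ?_) h3
    rw [Finset.sum_div]
    refine Finset.sum_congr rfl fun h _ => ?_
    rw [mul_div_assoc]
  obtain ⟨u, hu, huc⟩ : ∃ u ∈ range R, cnt u ≤ 2 ^ s / (θ₀ * R) := by
    by_contra h
    push Not at h
    have hne : (range R).Nonempty := ⟨0, mem_range.2 hR⟩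
    have h1 := Finset.sum_lt_sum_of_nonempty hne h
    rw [Finset.sum_const, card_range, nsmul_eq_mul] at h1
    have h2 : (R : ℝ) * (2 ^ s / (θ₀ * R)) = 2 ^ s / θ₀ := by
      field_simp
    linarith
  have huR : (u : ℝ) + 1 ≤ R := by
    have := mem_range.1 hu
    exact_mod_cast this
  refine ⟨thj u, ?_, ?_, huc⟩
  · simp only [hthj]
    have : (0 : ℝ) ≤ (u : ℝ) * tau := by positivity
    linarith
  · simp only [hthj]
    have h1 := mul_le_mul_of_nonneg_right huR htau0.le
    linarith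

/-! ### The decoder -/

/-- forget the last `r` columns -/
def rs {i j : ℕ} (r : ℕ) (y : A × (Fin i → V n) × (Fin (j + r) → V n)) :
    A × (Fin i → V n) × (Fin j → V n) := (y.1, y.2.1, fun b => y.2.2 (Fin.castAdd r b))

/-- first data -/
def r0 {i j : ℕ} (l : ℕ) (y : A × (Fin (i + l) → V n) × (Fin (j + l) → V n)) :
    A × (Fin i → V n) × (Fin j → V n) :=
  (y.1, fun b => y.2.1 (Fin.castAdd l b), fun b => y.2.2 (Fin.castAdd l b))

omit [Fintype H] [Fintype A] in
lemma rs_dat (i j r : ℕ) (h : H) (c : Co t i (j + r)) :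
    rs r (S.dat i (j + r) (h, c)) = S.dat i j (h, (c.1, fun b => c.2 (Fin.castAdd r b))) := rfl

omit [Fintype H] [Fintype A] in
lemma r0_dat (i j l : ℕ) (D : Cf i j l) (h : H) (c : Co t (i + l) (j + l)) :
    r0 l (Psi D (S.dat (i + l) (j + l) (h, c))) = S.dat i j (h, mix D c) := by
  rw [← S.dat_shr D h c, ← ini_shr]
  rfl

open Classical in
/-- public average, function of the data -/
noncomputable def Fd (w : H → ℝ) (i j k s l : ℕ) (a : V n)
    (y : A × (Fin (i + l) → V n) × (Fin (j + l) → V n)) : ℝ :=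
  (∑ D : Cf i j l, if a ∈ S.cl w i j k s (r0 l (Psi D y)) then (1 : ℝ) else 0) /
    (Fintype.card (Cf i j l) : ℝ)

omit [Fintype A] in
lemma Fd_dat (w : H → ℝ) (i j k s l : ℕ) (a : V n) (h : H) (c : Co t (i + l) (j + l)) :
    Fd S w i j k s l a (S.dat (i + l) (j + l) (h, c)) = F S w i j k s l h a c := by
  unfold Fd F g
  congr 1
  refine Finset.sum_congr rfl fun D _ => ?_
  rw [r0_dat]

/-- the decoder -/
noncomputable def dec (w : H → ℝ) (i j k s l r : ℕ) (θ : ℝ)
    (y : A × (Fin (i + l) → V n) × (Fin (j + l + r) → V n)) : Submodule (ZMod 2) (V n) :=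
  Submodule.span (ZMod 2) {a | a ∈ S.ls w (i + l) (j + l) 1 (rs r y) ∧
    θ ≤ Fd S w i j k s l a (rs r y) ∧ ∀ b : Fin r, y.2.2 (Fin.natAdd (j + l) b) ⬝ᵥ a = 0}

open Classical in
/-- the fine list is long -/
noncomputable def Bd (w : H → ℝ) (i j s l : ℕ) (h : H) (c : Co t (i + l) (j + l)) : ℝ :=
  if 2 ^ s < Nat.card (S.ls w (i + l) (j + l) 1 (S.dat (i + l) (j + l) (h, c))) then 1 else 0

open Classical in
/-- pointwise comparison -/
lemma dec_pt (w : H → ℝ) (i j k s l r : ℕ) (θ₀ θ tau : ℝ) (hθ₀ : 0 < θ₀) (hθ : θ₀ ≤ θ)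
    (htau : 0 < tau) (h : H) (c : Co t (i + l) (j + l)) (η : Fin r → V t) :
    (if Submodule.span (ZMod 2) {a | a ∈ S.ls w (i + l) (j + l) 1 (S.dat (i + l) (j + l) (h, c)) ∧
        θ ≤ F S w i j k s l h a c ∧ ∀ b : Fin r, S.col h (η b) ⬝ᵥ a = 0} ≠ S.rob w i j k s θ h
      then (1 : ℝ) else 0)
      ≤ Bd S w i j s l h c
        + ∑ a, (F S w i j k s l h a c - S.pa w i j k s h a) ^ 2 / tau ^ 2
        + ∑ a, (if θ - tau ≤ S.pa w i j k s h a ∧ S.pa w i j k s h a < θ + tau then (1 : ℝ) else 0)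
        + (∑ a, (if a ∈ perp (S.TC h) then (1 : ℝ) else 0) *
          (F S w i j k s l h a c * (1 - L S w i j l h a c))) / θ₀
        + ∑ a, (1 - Bd S w i j s l h c) * (if a ∈ perp (S.TC h) then (0 : ℝ) else 1) *
          L S w i j l h a c * (if ∀ b, S.col h (η b) ⬝ᵥ a = 0 then (1 : ℝ) else 0) := by
  set Fa : V n → ℝ := fun a => F S w i j k s l h a c with hFa
  set p : V n → ℝ := fun a => S.pa w i j k s h a with hpdef
  have n1 : ∀ a, 0 ≤ (Fa a - p a) ^ 2 / tau ^ 2 := fun a => by positivity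
  have n2 : ∀ a, 0 ≤ (if θ - tau ≤ p a ∧ p a < θ + tau then (1 : ℝ) else 0) := fun a => by
    split <;> norm_num
  have hF0 : ∀ a, 0 ≤ Fa a := fun a => F_nonneg S w i j k s l h a c
  have hL0 : ∀ a, 0 ≤ L S w i j l h a c := fun a => L_nonneg S w i j l h a c
  have hL1 : ∀ a, L S w i j l h a c ≤ 1 := fun a => L_le_one S w i j l h a c
  have n3 : ∀ a, 0 ≤ (if a ∈ perp (S.TC h) then (1 : ℝ) else 0) * (Fa a * (1 - L S w i j l h a c)) := by
    intro a
    refine mul_nonneg (by split <;> norm_num) (mul_nonneg (hF0 a) ?_)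
    linarith [hL1 a]
  have hB0 : 0 ≤ Bd S w i j s l h c := by
    unfold Bd
    split <;> norm_num
  have hB1 : Bd S w i j s l h c ≤ 1 := by
    unfold Bd
    split <;> norm_num
  have n4 : ∀ a, 0 ≤ (1 - Bd S w i j s l h c) * (if a ∈ perp (S.TC h) then (0 : ℝ) else 1) *
          L S w i j l h a c * (if ∀ b, S.col h (η b) ⬝ᵥ a = 0 then (1 : ℝ) else 0) := by
    intro a
    refine mul_nonneg (mul_nonneg (mul_nonneg ?_ ?_) (hL0 a)) ?_
    · linarith
    · split <;> norm_num
    · split <;> norm_num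
  have s1 := Finset.sum_nonneg fun a (_ : a ∈ (univ : Finset (V n))) => n1 a
  have s2 := Finset.sum_nonneg fun a (_ : a ∈ (univ : Finset (V n))) => n2 a
  have s3 := div_nonneg (Finset.sum_nonneg fun a (_ : a ∈ (univ : Finset (V n))) => n3 a) hθ₀.le
  have s4 := Finset.sum_nonneg fun a (_ : a ∈ (univ : Finset (V n))) => n4 a
  by_cases heq : Submodule.span (ZMod 2) {a | a ∈ S.ls w (i + l) (j + l) 1
      (S.dat (i + l) (j + l) (h, c)) ∧ θ ≤ F S w i j k s l h a c ∧
      ∀ b : Fin r, S.col h (η b) ⬝ᵥ a = 0} = S.rob w i j k s θ h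
  · rw [if_neg (by simpa using heq)]
    linarith
  · rw [if_pos heq]
    have hset : ({a | a ∈ S.ls w (i + l) (j + l) 1 (S.dat (i + l) (j + l) (h, c)) ∧
        θ ≤ Fa a ∧ ∀ b : Fin r, S.col h (η b) ⬝ᵥ a = 0} : Set (V n)) ≠
        {a | a ∈ perp (S.TC h) ∧ θ ≤ p a} := by
      intro h'
      refine heq ?_
      unfold Loc.rob
      rw [← h']
    obtain ⟨a, ha⟩ : ∃ a, ¬ (a ∈ ({a | a ∈ S.ls w (i + l) (j + l) 1
        (S.dat (i + l) (j + l) (h, c)) ∧ θ ≤ Fa a ∧
        ∀ b : Fin r, S.col h (η b) ⬝ᵥ a = 0} : Set (V n)) ↔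
        a ∈ ({a | a ∈ perp (S.TC h) ∧ θ ≤ p a} : Set (V n))) := by
      by_contra h'
      push Not at h'
      exact hset (Set.ext h')
    have m1 := Finset.single_le_sum (f := fun a => (Fa a - p a) ^ 2 / tau ^ 2) (fun a _ => n1 a)
      (mem_univ a)
    have m2 := Finset.single_le_sum
      (f := fun a => if θ - tau ≤ p a ∧ p a < θ + tau then (1 : ℝ) else 0) (fun a _ => n2 a) (mem_univ a)
    have m3 := div_le_div_of_nonneg_right (Finset.single_le_sum
      (f := fun a => (if a ∈ perp (S.TC h) then (1 : ℝ) else 0) * (Fa a * (1 - L S w i j l h a c)))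
      (fun a _ => n3 a) (mem_univ a)) hθ₀.le
    have m4 := Finset.single_le_sum
      (f := fun a => (1 - Bd S w i j s l h c) * (if a ∈ perp (S.TC h) then (0 : ℝ) else 1) *
          L S w i j l h a c * (if ∀ b, S.col h (η b) ⬝ᵥ a = 0 then (1 : ℝ) else 0))
      (fun a _ => n4 a) (mem_univ a)
    have far : tau ≤ |Fa a - p a| → 1 ≤ (Fa a - p a) ^ 2 / tau ^ 2 := by
      intro h'
      rw [le_div_iff₀ (by positivity), one_mul, ← sq_abs (Fa a - p a)]
      exact pow_le_pow_left₀ htau.le h' 2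
    by_cases h1 : a ∈ perp (S.TC h) ∧ θ ≤ p a
    · have h2 : ¬ (a ∈ S.ls w (i + l) (j + l) 1 (S.dat (i + l) (j + l) (h, c)) ∧
          θ ≤ Fa a ∧ ∀ b, S.col h (η b) ⬝ᵥ a = 0) := fun h' => ha ⟨fun _ => h1, fun _ => h'⟩
      have h3 : ∀ b, S.col h (η b) ⬝ᵥ a = 0 := fun b => h1.1 _ (LP86.col_mem S h (η b))
      by_cases h4 : Fa a < θ
      · by_cases h5 : p a < θ + tau
        · rw [if_pos ⟨by linarith [h1.2], h5⟩] at m2
          linarith
        · push Not at h5
          have h6 : tau ≤ |Fa a - p a| := by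
            rw [abs_sub_comm]
            exact (by linarith : tau ≤ p a - Fa a).trans (le_abs_self _)
          have := far h6
          linarith
      · push Not at h4
        have h7 : a ∉ S.ls w (i + l) (j + l) 1 (S.dat (i + l) (j + l) (h, c)) := fun h' =>
          h2 ⟨h', h4, h3⟩
        have h8 : L S w i j l h a c = 0 := if_neg h7
        rw [if_pos h1.1, h8, one_mul, sub_zero, mul_one] at m3
        have h9 : 1 ≤ Fa a / θ₀ := by
          rw [le_div_iff₀ hθ₀, one_mul]
          linarith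
        linarith
    · have h2 : a ∈ S.ls w (i + l) (j + l) 1 (S.dat (i + l) (j + l) (h, c)) ∧
          θ ≤ Fa a ∧ ∀ b, S.col h (η b) ⬝ᵥ a = 0 := by
        by_contra h'
        exact ha ⟨fun h'' => absurd h'' h', fun h'' => absurd h'' h1⟩
      by_cases h3 : a ∈ perp (S.TC h)
      · have h4 : p a < θ := by
          by_contra h'
          push Not at h'
          exact h1 ⟨h3, h'⟩
        by_cases h5 : θ - tau ≤ p a
        · rw [if_pos ⟨h5, by linarith⟩] at m2
          linarith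
        · push Not at h5
          have h6 : tau ≤ |Fa a - p a| :=
            (by linarith [h2.2.1] : tau ≤ Fa a - p a).trans (le_abs_self _)
          have := far h6
          linarith
      · have h8 : L S w i j l h a c = 1 := if_pos h2.1
        rw [if_neg h3, h8, if_pos h2.2.2, mul_one, mul_one, mul_one] at m4
        linarith

end DC69

open DC69

open Classical in
/-- DC -/
theorem Loc.decode (w : H → ℝ) (hw : ∀ h, 0 ≤ w h) (hw1 : tot w ≤ 1) (i j k s l r R : ℕ) (hR : 1 ≤ R)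
    (θ₀ : ℝ) (hθ : 0 < θ₀) :
    ∃ θ : ℝ, θ₀ ≤ θ ∧ θ ≤ 2 * θ₀ ∧
      ∃ Dec : A × (Fin (i + l) → V n) × (Fin (j + l + r) → V n) → Submodule (ZMod 2) (V n),
        pr (pw w (Co t (i + l) (j + l + r)))
          {p | Dec (S.dat (i + l) (j + l + r) p) ≠ S.rob w i j k s θ p.1}
        ≤ 2 ^ (s + 5) * (1 / 2) ^ l * R ^ 2 / θ₀ ^ 2 + 2 ^ (s + 1) * (1 / 2) ^ l / θ₀
          + 2 ^ s * (1 / 2) ^ r + 2 ^ s / (θ₀ * R)
          + pr (pw w (Co t (i + l) (j + l)))
            {p | 2 ^ s < Nat.card (S.ls w (i + l) (j + l) 1 (S.dat (i + l) (j + l) p))} := by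
  have hRR : (0 : ℝ) < R := by
    have : 0 < R := hR
    exact_mod_cast this
  obtain ⟨θ, h1, h2, h3⟩ := window S w hw hw1 i j k s R hR θ₀ hθ
  refine ⟨θ, h1, h2, DC69.dec S w i j k s l r θ, ?_⟩
  set tau : ℝ := θ₀ / (2 * R) with htau
  have htau0 : 0 < tau := by positivity
  set K' : ℝ := (Fintype.card (Co t (i + l) (j + l)) : ℝ) with hK'
  have hK'0 : 0 < K' := by
    rw [hK']
    exact_mod_cast Fintype.card_pos
  set Kr : ℝ := (Fintype.card (Fin r → V t) : ℝ) with hKr
  have hKr0 : 0 < Kr := by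
    rw [hKr]
    exact_mod_cast Fintype.card_pos
  -- the error as an average
  set err : H → Co t (i + l) (j + l) → (Fin r → V t) → ℝ := fun h c η =>
    (if Submodule.span (ZMod 2) {a | a ∈ S.ls w (i + l) (j + l) 1 (S.dat (i + l) (j + l) (h, c)) ∧
        θ ≤ F S w i j k s l h a c ∧ ∀ b : Fin r, S.col h (η b) ⬝ᵥ a = 0} ≠ S.rob w i j k s θ h
      then (1 : ℝ) else 0) with herr
  have hpr : pr (pw w (Co t (i + l) (j + l + r)))
      {p | DC69.dec S w i j k s l r θ (S.dat (i + l) (j + l + r) p) ≠ S.rob w i j k s θ p.1}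
      = ∑ h, w h * ((∑ c : Co t (i + l) (j + l), (∑ η, err h c η) / Kr) / K') := by
    have e1 : ∑ h, w h * ((∑ c : Co t (i + l) (j + l), (∑ η, err h c η) / Kr) / K') =
        ∑ h, w h * ((∑ c : Co t (i + l) (j + l + r), err h
          (c.1, fun b => c.2 (Fin.castAdd r b)) (fun b => c.2 (Fin.natAdd (j + l) b))) /
            (Fintype.card (Co t (i + l) (j + l + r)) : ℝ)) := by
      refine Finset.sum_congr rfl fun h _ => ?_
      rw [avg_plus (t := t) (i := i + l) (j := j + l) (r := r) (err h)]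
    rw [e1, ← sum_pw w (C := Co t (i + l) (j + l + r)) (fun h c => err h
      (c.1, fun b => c.2 (Fin.castAdd r b)) (fun b => c.2 (Fin.natAdd (j + l) b)))]
    unfold pr tot ind
    refine Finset.sum_congr rfl fun p _ => ?_
    have e2 : DC69.dec S w i j k s l r θ (S.dat (i + l) (j + l + r) p) =
        Submodule.span (ZMod 2) {a | a ∈ S.ls w (i + l) (j + l) 1
          (S.dat (i + l) (j + l) (p.1, (p.2.1, fun b => p.2.2 (Fin.castAdd r b)))) ∧
          θ ≤ F S w i j k s l p.1 a (p.2.1, fun b => p.2.2 (Fin.castAdd r b)) ∧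
          ∀ b : Fin r, S.col p.1 (p.2.2 (Fin.natAdd (j + l) b)) ⬝ᵥ a = 0} := by
      unfold DC69.dec
      have e3 : rs r (S.dat (i + l) (j + l + r) p) =
          S.dat (i + l) (j + l) (p.1, (p.2.1, fun b => p.2.2 (Fin.castAdd r b))) := rfl
      rw [e3]
      congr 1
      ext a
      simp only [Set.mem_ofPred_eq]
      rw [Fd_dat]
      rfl
    by_cases hp : DC69.dec S w i j k s l r θ (S.dat (i + l) (j + l + r) p) ≠ S.rob w i j k s θ p.1
    · rw [Set.indicator_of_mem (by exact hp)]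
      simp only [herr]
      rw [e2] at hp
      rw [if_pos hp, mul_one]
    · rw [Set.indicator_of_notMem (by exact hp)]
      simp only [herr]
      rw [e2] at hp
      rw [if_neg hp, mul_zero]
  rw [hpr]
  -- the pointwise bound, averaged over the tests
  set e1 : H → Co t (i + l) (j + l) → ℝ := fun h c =>
    ∑ a, (F S w i j k s l h a c - S.pa w i j k s h a) ^ 2 / tau ^ 2 with he1
  set e2 : H → ℝ := fun h => ∑ a, (if θ - tau ≤ S.pa w i j k s h a ∧
    S.pa w i j k s h a < θ + tau then (1 : ℝ) else 0) with he2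
  set e3 : H → Co t (i + l) (j + l) → ℝ := fun h c =>
    ∑ a, (if a ∈ perp (S.TC h) then (1 : ℝ) else 0) *
          (F S w i j k s l h a c * (1 - L S w i j l h a c)) with he3
  have hpt : ∀ h c, (∑ η, err h c η) / Kr ≤
      Bd S w i j s l h c + e1 h c + e2 h + e3 h c / θ₀ + 2 ^ s * (1 / 2) ^ r := by
    intro h c
    have hB0 : 0 ≤ Bd S w i j s l h c := by
      unfold Bd
      split <;> norm_num
    have hB1 : Bd S w i j s l h c ≤ 1 := by
      unfold Bd
      split <;> norm_num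
    have g1 : (∑ η, err h c η) / Kr ≤ (∑ η : Fin r → V t, (Bd S w i j s l h c + e1 h c + e2 h +
        e3 h c / θ₀ + ∑ a, (1 - Bd S w i j s l h c) * (if a ∈ perp (S.TC h) then (0 : ℝ) else 1) *
          L S w i j l h a c * (if ∀ b, S.col h (η b) ⬝ᵥ a = 0 then (1 : ℝ) else 0))) / Kr := by
      refine div_le_div_of_nonneg_right (Finset.sum_le_sum fun η _ => ?_) hKr0.le
      exact dec_pt S w i j k s l r θ₀ θ tau hθ h1 htau0 h c η
    refine g1.trans ?_
    rw [Finset.sum_add_distrib, Finset.sum_const, Finset.card_univ, nsmul_eq_mul, add_div,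
      mul_div_cancel_left₀ _ (by exact_mod_cast Fintype.card_ne_zero)]
    have g2 : (∑ η : Fin r → V t, ∑ a, (1 - Bd S w i j s l h c) *
        (if a ∈ perp (S.TC h) then (0 : ℝ) else 1) * L S w i j l h a c *
        (if ∀ b, S.col h (η b) ⬝ᵥ a = 0 then (1 : ℝ) else 0)) / Kr ≤ 2 ^ s * (1 / 2) ^ r := by
      rw [Finset.sum_comm, Finset.sum_div]
      have g3 : ∀ a, (∑ η : Fin r → V t, (1 - Bd S w i j s l h c) *
          (if a ∈ perp (S.TC h) then (0 : ℝ) else 1) * L S w i j l h a c *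
          (if ∀ b, S.col h (η b) ⬝ᵥ a = 0 then (1 : ℝ) else 0)) / Kr ≤
          (1 - Bd S w i j s l h c) * L S w i j l h a c * (1 / 2) ^ r := by
        intro a
        rw [← Finset.mul_sum, mul_div_assoc]
        have hL0 := L_nonneg S w i j l h a c
        by_cases ha : a ∈ perp (S.TC h)
        · rw [if_pos ha, mul_zero, zero_mul, zero_mul]
          have : 0 ≤ 1 - Bd S w i j s l h c := by linarith
          positivity
        · rw [if_neg ha, mul_one]
          refine mul_le_mul_of_nonneg_left (test S h r a ha) (mul_nonneg (by linarith) hL0)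
      refine (Finset.sum_le_sum fun a _ => g3 a).trans ?_
      rw [← Finset.sum_mul, ← Finset.mul_sum]
      refine mul_le_mul_of_nonneg_right ?_ (by positivity)
      by_cases hb : 2 ^ s < Nat.card (S.ls w (i + l) (j + l) 1 (S.dat (i + l) (j + l) (h, c)))
      · have : Bd S w i j s l h c = 1 := if_pos hb
        rw [this, sub_self, zero_mul]
        positivity
      · have : Bd S w i j s l h c = 0 := if_neg hb
        rw [this, sub_zero, one_mul]
        have h4 := RB89.ls_card_sum S w (i + l) (j + l) 1 (S.dat (i + l) (j + l) (h, c))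
        have h5 : ∑ a, L S w i j l h a c = ∑ a : V n, (if a ∈ S.ls w (i + l) (j + l) 1
            (S.dat (i + l) (j + l) (h, c)) then (1 : ℝ) else 0) := rfl
        rw [h5, h4]
        have h6 := not_lt.1 hb
        exact_mod_cast h6
    linarith
  -- average over the coins
  have hav : ∀ h, (∑ c : Co t (i + l) (j + l), (∑ η, err h c η) / Kr) / K' ≤
      (∑ c, Bd S w i j s l h c) / K' + 2 ^ s * (1 / 2) ^ l / tau ^ 2 + e2 h +
        ((∑ c, e3 h c) / K') / θ₀ + 2 ^ s * (1 / 2) ^ r := by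
    intro h
    have g1 : (∑ c : Co t (i + l) (j + l), (∑ η, err h c η) / Kr) / K' ≤
        (∑ c : Co t (i + l) (j + l), (Bd S w i j s l h c + e1 h c + e2 h + e3 h c / θ₀
          + 2 ^ s * (1 / 2) ^ r)) / K' :=
      div_le_div_of_nonneg_right (Finset.sum_le_sum fun c _ => hpt h c) hK'0.le
    refine g1.trans ?_
    have g2 : (∑ c : Co t (i + l) (j + l), (Bd S w i j s l h c + e1 h c + e2 h + e3 h c / θ₀
          + 2 ^ s * (1 / 2) ^ r)) / K' = (∑ c, Bd S w i j s l h c) / K' + (∑ c, e1 h c) / K' + e2 h +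
        ((∑ c, e3 h c) / K') / θ₀ + 2 ^ s * (1 / 2) ^ r := by
      rw [Finset.sum_add_distrib, Finset.sum_add_distrib, Finset.sum_add_distrib,
        Finset.sum_add_distrib, Finset.sum_const, Finset.sum_const, Finset.card_univ, nsmul_eq_mul,
        nsmul_eq_mul, ← hK', ← Finset.sum_div]
      field_simp
    rw [g2]
    have g3 : (∑ c, e1 h c) / K' ≤ 2 ^ s * (1 / 2) ^ l / tau ^ 2 := by
      have g4 := div_le_div_of_nonneg_right (var S w i j k s l h) (sq_nonneg tau)
      refine le_trans (le_of_eq ?_) g4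
      simp only [he1]
      rw [Finset.sum_comm, Finset.sum_div, Finset.sum_div]
      refine Finset.sum_congr rfl fun a _ => ?_
      rw [← Finset.sum_div, ← hK', div_div, div_div, mul_comm]
    linarith
  refine (Finset.sum_le_sum fun h _ => mul_le_mul_of_nonneg_left (hav h) (hw h)).trans ?_
  have hBd : ∑ h, w h * ((∑ c, Bd S w i j s l h c) / K') = pr (pw w (Co t (i + l) (j + l)))
      {p | 2 ^ s < Nat.card (S.ls w (i + l) (j + l) 1 (S.dat (i + l) (j + l) p))} := by
    rw [hK', ← sum_pw w (C := Co t (i + l) (j + l)) (fun h c => Bd S w i j s l h c)]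
    unfold pr tot ind
    refine Finset.sum_congr rfl fun p _ => ?_
    by_cases hp : 2 ^ s < Nat.card (S.ls w (i + l) (j + l) 1 (S.dat (i + l) (j + l) (p.1, p.2)))
    · rw [Set.indicator_of_mem (by exact hp)]
      unfold Bd
      rw [if_pos hp, mul_one]
    · rw [Set.indicator_of_notMem (by exact hp)]
      unfold Bd
      rw [if_neg hp, mul_zero]
  have hrare := rare S w hw hw1 i j k s l
  have hsum : ∑ h, w h * ((∑ c, Bd S w i j s l h c) / K' + 2 ^ s * (1 / 2) ^ l / tau ^ 2 + e2 h +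
        ((∑ c, e3 h c) / K') / θ₀ + 2 ^ s * (1 / 2) ^ r) =
      ∑ h, w h * ((∑ c, Bd S w i j s l h c) / K') + tot w * (2 ^ s * (1 / 2) ^ l / tau ^ 2)
        + ∑ h, w h * e2 h + (∑ h, w h * ((∑ c, e3 h c) / K')) / θ₀
        + tot w * (2 ^ s * (1 / 2) ^ r) := by
    unfold tot
    rw [Finset.sum_mul, Finset.sum_mul, Finset.sum_div, ← Finset.sum_add_distrib,
      ← Finset.sum_add_distrib, ← Finset.sum_add_distrib, ← Finset.sum_add_distrib]
    refine Finset.sum_congr rfl fun h _ => ?_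
    ring
  rw [hsum, hBd]
  have f1 : tot w * (2 ^ s * (1 / 2) ^ l / tau ^ 2) ≤ 2 ^ (s + 5) * (1 / 2) ^ l * R ^ 2 / θ₀ ^ 2 := by
    have f2 : (2 : ℝ) ^ s * (1 / 2) ^ l / tau ^ 2 = 2 ^ (s + 2) * (1 / 2) ^ l * R ^ 2 / θ₀ ^ 2 := by
      rw [htau]
      field_simp
      ring
    have f3 : tot w * (2 ^ s * (1 / 2) ^ l / tau ^ 2) ≤ 1 * (2 ^ s * (1 / 2) ^ l / tau ^ 2) :=
      mul_le_mul_of_nonneg_right hw1 (by positivity)
    have f4 : (2 : ℝ) ^ (s + 2) * (1 / 2) ^ l * R ^ 2 / θ₀ ^ 2 ≤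
        2 ^ (s + 5) * (1 / 2) ^ l * R ^ 2 / θ₀ ^ 2 := by
      gcongr
      · norm_num
      · norm_num
    linarith
  have f5 : tot w * (2 ^ s * (1 / 2) ^ r) ≤ 1 * (2 ^ s * (1 / 2) ^ r) :=
    mul_le_mul_of_nonneg_right hw1 (by positivity)
  have f6 : (∑ h, w h * ((∑ c, e3 h c) / K')) / θ₀ ≤ 2 ^ (s + 1) * (1 / 2) ^ l / θ₀ := by
    have f7 : (∑ h, w h * ((∑ c, e3 h c) / K')) ≤ 2 ^ (s + 1) * (1 / 2) ^ l := by
      refine hrare.trans ?_
      gcongr
      · norm_num
      · norm_num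
    exact div_le_div_of_nonneg_right f7 hθ.le
  have f8 : ∑ h, w h * e2 h ≤ 2 ^ s / (θ₀ * R) := h3
  linarith

end Pool.Agent.NJ
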