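import Pool.Agent.NJ.ListBd97

/-!
S19271, row DEC: decoding of the robust space.

`p a` is the probability, given the world, that the vector `a` is in the capped list, `F a` the public
estimate of it by random combinations with further siblings.
-/

set_option autoImplicit false

namespace Pool.Agent.CutSeq.NJ

open Finset

variable {n : ℕ}

/-- adding random combinations of further siblings -/
def mixR {i l : ℕ} (ρ : Fin i → Fin l → ZMod 2) (X : Fin i → V n) (Z : Fin l → V n) : Fin i → V n :=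
  fun a => X a + ∑ b, ρ a b • Z b

/-- probability of a tuple of independent uniform vectors of `T` -/
noncomputable def pT {i : ℕ} (T : Submodule (ZMod 2) (V n)) (X : Fin i → V n) : ℝ := ∏ j, uT T (X j)

lemma pT_nonneg {i : ℕ} (T : Submodule (ZMod 2) (V n)) (X : Fin i → V n) : 0 ≤ pT T X :=
  Finset.prod_nonneg fun _ _ => uT_nonneg T _

lemma sum_pT (i : ℕ) (T : Submodule (ZMod 2) (V n)) : ∑ X : Fin i → V n, pT T X = 1 := sum_prod_uT T i

lemma pT_mem {i : ℕ} {T : Submodule (ZMod 2) (V n)} {X : Fin i → V n} (h : pT T X ≠ 0) (j : Fin i) :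
    X j ∈ T := by
  unfold pT at h
  rw [Finset.prod_ne_zero_iff] at h
  exact (uT_pos_iff T _).1 (h j (mem_univ j))

/-- probability, given the world, that `a` is in the list -/
noncomputable def pL {i : ℕ} (T : Submodule (ZMod 2) (V n)) (Lf : (Fin i → V n) → Finset (V n))
    (a : V n) : ℝ := ∑ X : Fin i → V n, pT T X * (if a ∈ Lf X then 1 else 0)

/-- public estimate of `pL` -/
noncomputable def FL {i l : ℕ} (Lf : (Fin i → V n) → Finset (V n)) (X : Fin i → V n) (Z : Fin l → V n)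
    (a : V n) : ℝ := (∑ ρ : Fin i → Fin l → ZMod 2, if a ∈ Lf (mixR ρ X Z) then (1 : ℝ) else 0) /
      Fintype.card (Fin i → Fin l → ZMod 2)

lemma sum_pL_le {i : ℕ} (T : Submodule (ZMod 2) (V n)) (Lf : (Fin i → V n) → Finset (V n)) (Sz : ℝ)
    (hSz : ∀ X, ((Lf X).card : ℝ) ≤ Sz) : ∑ a, pL T Lf a ≤ Sz := by
  unfold pL
  rw [Finset.sum_comm]
  have h1 : ∀ X : Fin i → V n, ∑ a, pT T X * (if a ∈ Lf X then (1 : ℝ) else 0) ≤ pT T X * Sz := by
    intro X
    rw [← Finset.mul_sum]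
    refine mul_le_mul_of_nonneg_left ?_ (pT_nonneg T X)
    rw [Finset.sum_ite_mem, Finset.univ_inter]
    simpa using hSz X
  refine (Finset.sum_le_sum fun X _ => h1 X).trans ?_
  rw [← Finset.sum_mul, sum_pT, one_mul]

lemma pL_nonneg {i : ℕ} (T : Submodule (ZMod 2) (V n)) (Lf : (Fin i → V n) → Finset (V n)) (a : V n) :
    0 ≤ pL T Lf a := by
  unfold pL
  refine Finset.sum_nonneg fun X _ => mul_nonneg (pT_nonneg T X) ?_
  split <;> norm_num

lemma sum_FL_le {i l : ℕ} (Lf : (Fin i → V n) → Finset (V n)) (X : Fin i → V n) (Z : Fin l → V n)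
    (Sz : ℝ) (hSz : ∀ X, ((Lf X).card : ℝ) ≤ Sz) : ∑ a, FL Lf X Z a ≤ Sz := by
  unfold FL
  rw [← Finset.sum_div, Finset.sum_comm]
  have hc : (0 : ℝ) < Fintype.card (Fin i → Fin l → ZMod 2) := by exact_mod_cast Fintype.card_pos
  rw [div_le_iff₀ hc]
  have h1 : ∀ ρ : Fin i → Fin l → ZMod 2,
      ∑ a, (if a ∈ Lf (mixR ρ X Z) then (1 : ℝ) else 0) ≤ Sz := by
    intro ρ
    rw [Finset.sum_ite_mem, Finset.univ_inter]
    simpa using hSz _
  refine (Finset.sum_le_sum fun ρ _ => h1 ρ).trans ?_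
  rw [Finset.sum_const, Finset.card_univ, nsmul_eq_mul, mul_comm]

lemma FL_nonneg {i l : ℕ} (Lf : (Fin i → V n) → Finset (V n)) (X : Fin i → V n) (Z : Fin l → V n)
    (a : V n) : 0 ≤ FL Lf X Z a := by
  unfold FL
  refine div_nonneg (Finset.sum_nonneg fun ρ _ => ?_) (Nat.cast_nonneg _)
  split <;> norm_num

/-- the robust space -/
def Wsp (T' : Submodule (ZMod 2) (V n)) (p : V n → ℝ) (th : ℝ) : Submodule (ZMod 2) (V n) :=
  Submodule.span (ZMod 2) {a | a ∈ perp T' ∧ th ≤ p a}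

/-- its decoder -/
def Wdec {r : ℕ} (F : V n → ℝ) (Y : Fin r → V n) (th : ℝ) : Submodule (ZMod 2) (V n) :=
  Submodule.span (ZMod 2) {a | th ≤ F a ∧ ∀ b, Y b ⬝ᵥ a = 0}

lemma Wsp_le (T' : Submodule (ZMod 2) (V n)) (p : V n → ℝ) (th : ℝ) : Wsp T' p th ≤ perp T' :=
  Submodule.span_le.2 fun _ ha => ha.1

open Classical in
/-- pointwise comparison -/
lemma dec_pt (T' : Submodule (ZMod 2) (V n)) (p F : V n → ℝ) (th tau : ℝ) (htau : 0 < tau) (r : ℕ)
    (Y : Fin r → V n) (hY : ∀ b, Y b ∈ T') :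
    (if Wsp T' p th ≠ Wdec F Y th then (1 : ℝ) else 0)
      ≤ ∑ a, (F a - p a) ^ 2 / tau ^ 2
        + ∑ a, (if th - tau ≤ p a ∧ p a < th + tau then (1 : ℝ) else 0)
        + ∑ a, (if a ∉ perp T' ∧ th ≤ F a ∧ ∀ b, Y b ⬝ᵥ a = 0 then (1 : ℝ) else 0) := by
  have n1 : ∀ a, 0 ≤ (F a - p a) ^ 2 / tau ^ 2 := fun a => by positivity
  have n2 : ∀ a, 0 ≤ (if th - tau ≤ p a ∧ p a < th + tau then (1 : ℝ) else 0) := fun a => by
    split <;> norm_num
  have n3 : ∀ a, 0 ≤ (if a ∉ perp T' ∧ th ≤ F a ∧ ∀ b, Y b ⬝ᵥ a = 0 then (1 : ℝ) else 0) := fun a => by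
    split <;> norm_num
  have s1 := Finset.sum_nonneg fun a (_ : a ∈ (univ : Finset (V n))) => n1 a
  have s2 := Finset.sum_nonneg fun a (_ : a ∈ (univ : Finset (V n))) => n2 a
  have s3 := Finset.sum_nonneg fun a (_ : a ∈ (univ : Finset (V n))) => n3 a
  by_cases heq : Wsp T' p th = Wdec F Y th
  · rw [if_neg (by simpa using heq)]
    linarith
  · rw [if_pos heq]
    have hset : ({a | a ∈ perp T' ∧ th ≤ p a} : Set (V n)) ≠ {a | th ≤ F a ∧ ∀ b, Y b ⬝ᵥ a = 0} := by
      intro h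
      exact heq (by unfold Wsp Wdec; rw [h])
    obtain ⟨a, ha⟩ : ∃ a, ¬ (a ∈ ({a | a ∈ perp T' ∧ th ≤ p a} : Set (V n)) ↔
        a ∈ ({a | th ≤ F a ∧ ∀ b, Y b ⬝ᵥ a = 0} : Set (V n))) := by
      by_contra h
      push Not at h
      exact hset (Set.ext h)
    have m1 := Finset.single_le_sum (f := fun a => (F a - p a) ^ 2 / tau ^ 2) (fun a _ => n1 a)
      (mem_univ a)
    have m2 := Finset.single_le_sum
      (f := fun a => if th - tau ≤ p a ∧ p a < th + tau then (1 : ℝ) else 0) (fun a _ => n2 a) (mem_univ a)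
    have m3 := Finset.single_le_sum
      (f := fun a => if a ∉ perp T' ∧ th ≤ F a ∧ ∀ b, Y b ⬝ᵥ a = 0 then (1 : ℝ) else 0)
      (fun a _ => n3 a) (mem_univ a)
    have far : tau ≤ |F a - p a| → 1 ≤ (F a - p a) ^ 2 / tau ^ 2 := by
      intro h
      rw [le_div_iff₀ (by positivity), one_mul, ← sq_abs (F a - p a)]
      exact pow_le_pow_left₀ htau.le h 2
    by_cases h1 : a ∈ perp T' ∧ th ≤ p a
    · have h2 : ¬ (th ≤ F a ∧ ∀ b, Y b ⬝ᵥ a = 0) := fun h => ha ⟨fun _ => h, fun _ => h1⟩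
      have h3 : ∀ b, Y b ⬝ᵥ a = 0 := fun b => (mem_perp T' a).1 h1.1 (Y b) (hY b)
      have h4 : F a < th := by
        by_contra h
        push Not at h
        exact h2 ⟨h, h3⟩
      by_cases h5 : p a < th + tau
      · rw [if_pos ⟨by linarith [h1.2], h5⟩] at m2
        linarith
      · push Not at h5
        have h6 : tau ≤ |F a - p a| := by
          rw [abs_sub_comm]
          exact (by linarith : tau ≤ p a - F a).trans (le_abs_self _)
        have := far h6
        linarith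
    · have h2 : th ≤ F a ∧ ∀ b, Y b ⬝ᵥ a = 0 := by
        by_contra h
        exact ha ⟨fun h' => absurd h' h1, fun h' => absurd h' h⟩
      by_cases h3 : a ∈ perp T'
      · have h4 : p a < th := by
          by_contra h
          push Not at h
          exact h1 ⟨h3, h⟩
        by_cases h5 : th - tau ≤ p a
        · rw [if_pos ⟨h5, by linarith⟩] at m2
          linarith
        · push Not at h5
          have h6 : tau ≤ |F a - p a| := (by linarith [h2.1] : tau ≤ F a - p a).trans (le_abs_self _)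
          have := far h6
          linarith
      · rw [if_pos ⟨h3, h2⟩] at m3
        linarith

open Classical in
/-- tests -/
lemma test_prob (T' : Submodule (ZMod 2) (V n)) (r : ℕ) (a : V n) (ha : a ∉ perp T') :
    ∑ Y : Fin r → V n, pT T' Y * (if ∀ b, Y b ⬝ᵥ a = 0 then (1 : ℝ) else 0) = (1 / 2) ^ r := by
  have h1 : ∑ x, uT T' x * (if x ⬝ᵥ a = 0 then (1 : ℝ) else 0) = 1 / 2 := by
    have h2 := sum_uT_sg T' a
    rw [if_neg ha] at h2
    have h3 := sum_uT T'
    have h4 : ∀ x, uT T' x * (if x ⬝ᵥ a = 0 then (1 : ℝ) else 0)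
        = (1 / 2) * (uT T' x + uT T' x * sg (x ⬝ᵥ a)) := by
      intro x
      unfold sg
      split <;> ring
    simp only [h4]
    rw [← Finset.mul_sum, Finset.sum_add_distrib, h2, h3]
    norm_num
  have h5 : ∀ Y : Fin r → V n, pT T' Y * (if ∀ b, Y b ⬝ᵥ a = 0 then (1 : ℝ) else 0)
      = ∏ b, (uT T' (Y b) * (if Y b ⬝ᵥ a = 0 then (1 : ℝ) else 0)) := by
    intro Y
    unfold pT
    rw [Finset.prod_mul_distrib]
    congr 1
    by_cases h : ∀ b, Y b ⬝ᵥ a = 0
    · rw [if_pos h]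
      symm
      refine Finset.prod_eq_one fun b _ => ?_
      rw [if_pos (h b)]
    · rw [if_neg h]
      push Not at h
      obtain ⟨b, hb⟩ := h
      symm
      refine Finset.prod_eq_zero (mem_univ b) ?_
      rw [if_neg hb]
  simp only [h5]
  have h6 := Fintype.prod_sum (ι := Fin r) (κ := fun _ => V n)
    (f := fun _ v => uT T' v * (if v ⬝ᵥ a = 0 then (1 : ℝ) else 0))
  rw [← h6, h1]
  simp

section Main

variable {Ω B : Type*} [Fintype Ω]

open Classical in
/-- **Decoding of the robust space.** -/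
theorem dec_abs (w : Ω → ℝ) (hw : ∀ ω, 0 ≤ w ω) (htot : tot w ≤ 1) (T T' : Ω → Submodule (ZMod 2) (V n))
    (m : Ω → B) (i l r : ℕ) (Lf : B → (Fin i → V n) → Finset (V n)) (Sz : ℝ) (hSz0 : 0 ≤ Sz)
    (hSz : ∀ b X, ((Lf b X).card : ℝ) ≤ Sz) (e : ℝ)
    (hR1 : ∑ ω, w ω * ∑ X : Fin i → V n, pT (T ω) X * ∑ Z : Fin l → V n, pT (T ω) Z *
      ∑ a, (FL (Lf (m ω)) X Z a - pL (T ω) (Lf (m ω)) a) ^ 2 ≤ e * Sz)
    (th0 : ℝ) (hth0 : 0 < th0) (J : ℕ) (hJ : 1 ≤ J) :
    ∃ th : ℝ, th0 ≤ th ∧ th ≤ 2 * th0 ∧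
      ∑ ω, w ω * ∑ X : Fin i → V n, pT (T ω) X * ∑ Z : Fin l → V n, pT (T ω) Z *
        ∑ Y : Fin r → V n, pT (T' ω) Y *
          (if Wsp (T' ω) (pL (T ω) (Lf (m ω))) th ≠ Wdec (FL (Lf (m ω)) X Z) Y th then (1 : ℝ) else 0)
      ≤ e * Sz / (th0 / (2 * J)) ^ 2 + Sz / (th0 * J) + Sz / th0 * (1 / 2) ^ r := by
  have hJR : (0 : ℝ) < J := by
    have : 0 < J := hJ
    exact_mod_cast this
  set tau : ℝ := th0 / (2 * J) with htau
  have htau0 : 0 < tau := by positivity
  have h2J : 2 * (J : ℝ) * tau = th0 := by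
    rw [htau]
    field_simp
  set thj : ℕ → ℝ := fun j => th0 + (2 * j + 1) * tau with hthj
  -- pigeonhole
  set cnt : ℕ → ℝ := fun j => ∑ ω, w ω * ∑ a, (if thj j - tau ≤ pL (T ω) (Lf (m ω)) a ∧
    pL (T ω) (Lf (m ω)) a < thj j + tau then (1 : ℝ) else 0) with hcnt
  have hsumcnt : ∑ j ∈ range J, cnt j ≤ Sz / th0 := by
    rw [hcnt]
    simp only
    rw [Finset.sum_comm]
    have h1 : ∀ ω, ∑ j ∈ range J, w ω * ∑ a, (if thj j - tau ≤ pL (T ω) (Lf (m ω)) a ∧
        pL (T ω) (Lf (m ω)) a < thj j + tau then (1 : ℝ) else 0) ≤ w ω * (Sz / th0) := by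
      intro ω
      rw [← Finset.mul_sum]
      refine mul_le_mul_of_nonneg_left ?_ (hw ω)
      rw [Finset.sum_comm]
      have h2 : ∀ a, ∑ j ∈ range J, (if thj j - tau ≤ pL (T ω) (Lf (m ω)) a ∧
          pL (T ω) (Lf (m ω)) a < thj j + tau then (1 : ℝ) else 0) ≤ pL (T ω) (Lf (m ω)) a / th0 := by
        intro a
        set p := pL (T ω) (Lf (m ω)) a with hp
        have hp0 : 0 ≤ p := pL_nonneg _ _ _
        by_cases hex : ∃ j ∈ range J, thj j - tau ≤ p ∧ p < thj j + tau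
        · obtain ⟨j, hj, hj2⟩ := hex
          rw [Finset.sum_eq_single_of_mem j hj]
          · rw [if_pos hj2, le_div_iff₀ hth0, one_mul]
            have : th0 ≤ thj j - tau := by
              simp only [hthj]
              have : (0 : ℝ) ≤ (j : ℝ) * tau := by positivity
              linarith
            linarith
          · intro j' _ hne
            rw [if_neg]
            rintro ⟨h3, h4⟩
            simp only [hthj] at hj2 h3 h4
            rcases lt_or_gt_of_ne hne with hlt | hlt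
            · have : (j' : ℝ) + 1 ≤ j := by exact_mod_cast hlt
              have := mul_le_mul_of_nonneg_right this htau0.le
              linarith [hj2.1]
            · have : (j : ℝ) + 1 ≤ j' := by exact_mod_cast hlt
              have := mul_le_mul_of_nonneg_right this htau0.le
              linarith [hj2.2]
        · have : ∑ j ∈ range J, (if thj j - tau ≤ p ∧ p < thj j + tau then (1 : ℝ) else 0) = 0 := by
            refine Finset.sum_eq_zero fun j hj => ?_
            rw [if_neg]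
            exact fun h => hex ⟨j, hj, h⟩
          rw [this]
          positivity
      refine (Finset.sum_le_sum fun a _ => h2 a).trans ?_
      rw [← Finset.sum_div]
      exact div_le_div_of_nonneg_right (sum_pL_le _ _ Sz (fun X => hSz _ X)) hth0.le
    refine (Finset.sum_le_sum fun ω _ => h1 ω).trans ?_
    rw [← Finset.sum_mul]
    have h3 : (∑ ω, w ω) * (Sz / th0) ≤ 1 * (Sz / th0) :=
      mul_le_mul_of_nonneg_right htot (by positivity)
    linarith
  obtain ⟨j, hj, hjc⟩ : ∃ j ∈ range J, cnt j ≤ Sz / (th0 * J) := by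
    by_contra h
    push Not at h
    have hne : (range J).Nonempty := ⟨0, mem_range.2 hJ⟩
    have h1 := Finset.sum_lt_sum_of_nonempty hne h
    rw [Finset.sum_const, card_range, nsmul_eq_mul] at h1
    have h2 : (J : ℝ) * (Sz / (th0 * J)) = Sz / th0 := by
      field_simp
    linarith
  have hjJ : (j : ℝ) + 1 ≤ J := by
    have := mem_range.1 hj
    exact_mod_cast this
  have hth1 : th0 ≤ thj j := by
    simp only [hthj]
    have : (0 : ℝ) ≤ (j : ℝ) * tau := by positivity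
    linarith
  refine ⟨thj j, hth1, ?_, ?_⟩
  · simp only [hthj]
    have h1 := mul_le_mul_of_nonneg_right hjJ htau0.le
    linarith
  -- the three errors
  have hF : ∀ ω, w ω * ∑ X : Fin i → V n, pT (T ω) X * ∑ Z : Fin l → V n, pT (T ω) Z *
        ∑ Y : Fin r → V n, pT (T' ω) Y *
          (if Wsp (T' ω) (pL (T ω) (Lf (m ω))) (thj j) ≠ Wdec (FL (Lf (m ω)) X Z) Y (thj j)
            then (1 : ℝ) else 0)
      ≤ w ω * (∑ X : Fin i → V n, pT (T ω) X * ∑ Z : Fin l → V n, pT (T ω) Z *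
          ∑ a, (FL (Lf (m ω)) X Z a - pL (T ω) (Lf (m ω)) a) ^ 2) / tau ^ 2
        + w ω * (∑ a, (if thj j - tau ≤ pL (T ω) (Lf (m ω)) a ∧
          pL (T ω) (Lf (m ω)) a < thj j + tau then (1 : ℝ) else 0))
        + w ω * (Sz / th0 * (1 / 2) ^ r) := by
    intro ω
    set p := pL (T ω) (Lf (m ω)) with hp
    set c2 : ℝ := ∑ a, (if thj j - tau ≤ p a ∧ p a < thj j + tau then (1 : ℝ) else 0) with hc2
    have hXZ : ∀ (X : Fin i → V n) (Z : Fin l → V n), ∑ Y : Fin r → V n, pT (T' ω) Y *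
          (if Wsp (T' ω) p (thj j) ≠ Wdec (FL (Lf (m ω)) X Z) Y (thj j) then (1 : ℝ) else 0)
        ≤ (∑ a, (FL (Lf (m ω)) X Z a - p a) ^ 2) / tau ^ 2 + c2 + Sz / th0 * (1 / 2) ^ r := by
      intro X Z
      set F := FL (Lf (m ω)) X Z with hFdef
      have h1 : ∀ Y : Fin r → V n, pT (T' ω) Y *
          (if Wsp (T' ω) p (thj j) ≠ Wdec F Y (thj j) then (1 : ℝ) else 0)
          ≤ pT (T' ω) Y * ((∑ a, (F a - p a) ^ 2) / tau ^ 2 + c2)
            + ∑ a, (if a ∉ perp (T' ω) ∧ thj j ≤ F a then (1 : ℝ) else 0) *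
              (pT (T' ω) Y * (if ∀ b, Y b ⬝ᵥ a = 0 then (1 : ℝ) else 0)) := by
        intro Y
        by_cases hY : pT (T' ω) Y = 0
        · rw [hY]
          simp
        · have h2 := dec_pt (T' ω) p F (thj j) tau htau0 r Y (fun b => pT_mem hY b)
          have h3 := mul_le_mul_of_nonneg_left h2 (pT_nonneg (T' ω) Y)
          refine h3.trans (le_of_eq ?_)
          rw [← Finset.sum_div, mul_add, Finset.mul_sum _ _ (pT (T' ω) Y)]
          congr 1
          refine Finset.sum_congr rfl fun a _ => ?_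
          by_cases g1 : a ∉ perp (T' ω) ∧ thj j ≤ F a
          · by_cases g2 : ∀ b, Y b ⬝ᵥ a = 0
            · rw [if_pos ⟨g1.1, g1.2, g2⟩, if_pos g1, if_pos g2]
              ring
            · rw [if_neg (fun h => g2 h.2.2), if_neg g2]
              ring
          · rw [if_neg (fun h => g1 ⟨h.1, h.2.1⟩), if_neg g1]
            ring
      refine (Finset.sum_le_sum fun Y _ => h1 Y).trans ?_
      rw [Finset.sum_add_distrib, ← Finset.sum_mul, sum_pT, one_mul, Finset.sum_comm]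
      have h4 : ∑ a, ∑ Y : Fin r → V n, (if a ∉ perp (T' ω) ∧ thj j ≤ F a then (1 : ℝ) else 0) *
              (pT (T' ω) Y * (if ∀ b, Y b ⬝ᵥ a = 0 then (1 : ℝ) else 0)) ≤ Sz / th0 * (1 / 2) ^ r := by
        have h5 : ∀ a, ∑ Y : Fin r → V n, (if a ∉ perp (T' ω) ∧ thj j ≤ F a then (1 : ℝ) else 0) *
              (pT (T' ω) Y * (if ∀ b, Y b ⬝ᵥ a = 0 then (1 : ℝ) else 0))
            ≤ F a / th0 * (1 / 2) ^ r := by
          intro a
          have hFa : 0 ≤ F a := FL_nonneg _ _ _ _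
          rw [← Finset.mul_sum]
          by_cases g1 : a ∉ perp (T' ω) ∧ thj j ≤ F a
          · rw [if_pos g1, one_mul, test_prob (T' ω) r a g1.1]
            have : 1 ≤ F a / th0 := by
              rw [le_div_iff₀ hth0, one_mul]
              linarith [g1.2]
            have h6 : (0 : ℝ) ≤ (1 / 2) ^ r := by positivity
            nlinarith
          · rw [if_neg g1, zero_mul]
            positivity
        refine (Finset.sum_le_sum fun a _ => h5 a).trans ?_
        rw [← Finset.sum_mul, ← Finset.sum_div]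
        refine mul_le_mul_of_nonneg_right ?_ (by positivity)
        exact div_le_div_of_nonneg_right (sum_FL_le _ X Z Sz (fun X => hSz _ X)) hth0.le
      linarith
    have hX : ∀ X : Fin i → V n, ∑ Z : Fin l → V n, pT (T ω) Z * ∑ Y : Fin r → V n, pT (T' ω) Y *
          (if Wsp (T' ω) p (thj j) ≠ Wdec (FL (Lf (m ω)) X Z) Y (thj j) then (1 : ℝ) else 0)
        ≤ (∑ Z : Fin l → V n, pT (T ω) Z * ∑ a, (FL (Lf (m ω)) X Z a - p a) ^ 2) / tau ^ 2
          + c2 + Sz / th0 * (1 / 2) ^ r := by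
      intro X
      refine (Finset.sum_le_sum fun Z _ => mul_le_mul_of_nonneg_left (hXZ X Z)
        (pT_nonneg (T ω) Z)).trans (le_of_eq ?_)
      rw [Finset.sum_div]
      have e1 : ∀ Z : Fin l → V n, pT (T ω) Z * ((∑ a, (FL (Lf (m ω)) X Z a - p a) ^ 2) / tau ^ 2 + c2
          + Sz / th0 * (1 / 2) ^ r) = pT (T ω) Z * (∑ a, (FL (Lf (m ω)) X Z a - p a) ^ 2) / tau ^ 2
          + pT (T ω) Z * (c2 + Sz / th0 * (1 / 2) ^ r) := by
        intro Z
        ring
      simp only [e1]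
      rw [Finset.sum_add_distrib, ← Finset.sum_mul, sum_pT, one_mul]
      ring
    have hall : ∑ X : Fin i → V n, pT (T ω) X * ∑ Z : Fin l → V n, pT (T ω) Z *
          ∑ Y : Fin r → V n, pT (T' ω) Y *
          (if Wsp (T' ω) p (thj j) ≠ Wdec (FL (Lf (m ω)) X Z) Y (thj j) then (1 : ℝ) else 0)
        ≤ (∑ X : Fin i → V n, pT (T ω) X * ∑ Z : Fin l → V n, pT (T ω) Z *
          ∑ a, (FL (Lf (m ω)) X Z a - p a) ^ 2) / tau ^ 2 + c2 + Sz / th0 * (1 / 2) ^ r := by
      refine (Finset.sum_le_sum fun X _ => mul_le_mul_of_nonneg_left (hX X)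
        (pT_nonneg (T ω) X)).trans (le_of_eq ?_)
      rw [Finset.sum_div]
      have e1 : ∀ X : Fin i → V n, pT (T ω) X * ((∑ Z : Fin l → V n, pT (T ω) Z *
          ∑ a, (FL (Lf (m ω)) X Z a - p a) ^ 2) / tau ^ 2 + c2 + Sz / th0 * (1 / 2) ^ r)
          = pT (T ω) X * (∑ Z : Fin l → V n, pT (T ω) Z *
            ∑ a, (FL (Lf (m ω)) X Z a - p a) ^ 2) / tau ^ 2
          + pT (T ω) X * (c2 + Sz / th0 * (1 / 2) ^ r) := by
        intro X
        ring
      simp only [e1]
      rw [Finset.sum_add_distrib, ← Finset.sum_mul, sum_pT, one_mul]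
      ring
    have h9 := mul_le_mul_of_nonneg_left hall (hw ω)
    refine h9.trans (le_of_eq ?_)
    ring
  refine (Finset.sum_le_sum fun ω _ => hF ω).trans ?_
  rw [Finset.sum_add_distrib, Finset.sum_add_distrib, ← Finset.sum_div, ← Finset.sum_mul]
  have h1 : (∑ ω, w ω * ∑ X : Fin i → V n, pT (T ω) X * ∑ Z : Fin l → V n, pT (T ω) Z *
      ∑ a, (FL (Lf (m ω)) X Z a - pL (T ω) (Lf (m ω)) a) ^ 2) / tau ^ 2 ≤ e * Sz / tau ^ 2 :=
    div_le_div_of_nonneg_right hR1 (by positivity)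
  have h2 : (∑ ω, w ω) * (Sz / th0 * (1 / 2) ^ r) ≤ 1 * (Sz / th0 * (1 / 2) ^ r) :=
    mul_le_mul_of_nonneg_right htot (by positivity)
  have h3 : ∑ ω, w ω * ∑ a, (if thj j - tau ≤ pL (T ω) (Lf (m ω)) a ∧
    pL (T ω) (Lf (m ω)) a < thj j + tau then (1 : ℝ) else 0) ≤ Sz / (th0 * J) := hjc
  linarith

end Main

end Pool.Agent.CutSeq.NJ
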