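import Pool.Agent.CutSeq.Dens

/-! S19271, outer shell: density-one statements, abstract form. -/

set_option autoImplicit false

namespace Pool.Agent.CutSeq.NJ

open Filter Topology Finset

/-- a comparison with slightly larger sizes: the exceptional sizes have density zero -/
theorem dens52 (a b : ℕ → ℝ) (hmono : Monotone a) (ha0 : ∀ n, 0 ≤ a n) (C : ℝ) (hC : 0 < C)
    (hup : ∀ᶠ n : ℕ in atTop, a n ≤ C * n) (c : ℝ) (hc : 0 < c)
    (hlow : ∀ᶠ n : ℕ in atTop, c * (n : ℝ) ≤ a n)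
    (hS : ∀ δ : ℝ, 0 < δ → ∀ᶠ M : ℕ in atTop, ∀ n : ℕ, (n : ℝ) ≤ (1 - δ) * M → b n ≤ a M + δ * M)
    (δ : ℝ) (hδ : 0 < δ) (τ : ℝ) (hτ : 0 < τ) :
    ∀ᶠ M : ℕ in atTop, (((range M).filter fun N => (1 + δ) * a N < b N).card : ℝ) ≤ τ * M := by
  -- parameters
  set η : ℝ := min (τ / 4) 1 with hη
  have hη0 : 0 < η := lt_min (by positivity) one_pos
  have hητ : η ≤ τ / 4 := min_le_left _ _
  have hη1 : η ≤ 1 := min_le_right _ _
  set l : ℝ := c * δ * η / 2 with hl
  have hl0 : 0 < l := by positivity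
  set d : ℝ := min (min 1 (l / 2)) (min (l * τ / (16 * C)) (τ / 8)) with hd
  have hd0 : 0 < d := by
    refine lt_min (lt_min one_pos (by positivity)) (lt_min (by positivity) (by positivity))
  have hd1 : d ≤ 1 := (min_le_left _ _).trans (min_le_left _ _)
  have hdl2 : d ≤ l / 2 := (min_le_left _ _).trans (min_le_right _ _)
  have hdl : d ≤ l * τ / (16 * C) := (min_le_right _ _).trans (min_le_left _ _)
  obtain ⟨n₀, hn₀⟩ := eventually_atTop.1 (hlow.and (hup.and (hS (d / 2) (by positivity))))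
  have hE : ∀ᶠ M : ℕ in atTop, max (n₀ / η) (max (8 / τ) (1 / d)) ≤ (M : ℝ) :=
    tendsto_natCast_atTop_atTop.eventually_ge_atTop _
  filter_upwards [hE, eventually_ge_atTop 1] with M hM hM1
  have hMR : (1 : ℝ) ≤ M := by exact_mod_cast hM1
  have hM0 : (0 : ℝ) < M := by linarith
  have hMn : (n₀ : ℝ) ≤ η * M := by
    have : n₀ / η ≤ M := (le_max_left _ _).trans hM
    rw [div_le_iff₀ hη0] at this
    linarith
  have hMτ : 8 ≤ τ * M := by
    have : 8 / τ ≤ M := (le_max_left _ _).trans ((le_max_right _ _).trans hM)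
    rw [div_le_iff₀ hτ] at this
    linarith
  have hMd : 1 ≤ d * M := by
    have : 1 / d ≤ M := (le_max_right _ _).trans ((le_max_right _ _).trans hM)
    rw [div_le_iff₀ hd0] at this
    linarith
  set A : ℕ := ⌈η * M⌉₊ with hA
  have hA1 : η * M ≤ A := Nat.le_ceil _
  have hA2 : (A : ℝ) < η * M + 1 := Nat.ceil_lt_add_one (by positivity)
  have hAM : A ≤ M := Nat.ceil_le.2 (by nlinarith)
  have hn₀A : n₀ ≤ A := by exact_mod_cast hMn.trans hA1
  set h : ℕ := ⌈d * M⌉₊ with hh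
  have hh1 : d * M ≤ h := Nat.le_ceil _
  have hh2 : (h : ℝ) < d * M + 1 := Nat.ceil_lt_add_one (by positivity)
  have hhM : (h : ℝ) ≤ 2 * (d * M) := by linarith
  have hhM' : h ≤ M := Nat.ceil_le.2 (by nlinarith)
  have hhR : (h : ℝ) ≤ M := by exact_mod_cast hhM'
  -- the exceptional set
  have hsub : ((range M).filter fun N => (1 + δ) * a N < b N)
      ⊆ range A ∪ ((Ico A M).filter fun N => l * M < a (N + h) - a N) := by
    intro N hN
    rw [mem_filter, mem_range] at hN
    obtain ⟨hNM, hNb⟩ := hN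
    rw [mem_union, mem_range, mem_filter, mem_Ico]
    rcases Nat.lt_or_ge N A with hNA | hAN
    · exact Or.inl hNA
    · refine Or.inr ⟨⟨hAN, hNM⟩, ?_⟩
      have hNMR : (N : ℝ) ≤ M := by exact_mod_cast hNM.le
      have hANR : (A : ℝ) ≤ N := by exact_mod_cast hAN
      have hcN := (hn₀ N (hn₀A.trans hAN)).1
      have hcomp := (hn₀ (N + h) (by omega)).2.2 N (by
        push_cast
        have h1 : (0 : ℝ) ≤ h := Nat.cast_nonneg h
        have h2 : d / 2 * ((N : ℝ) + h) ≤ d / 2 * (2 * M) :=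
          mul_le_mul_of_nonneg_left (by linarith) (by positivity)
        nlinarith)
      push_cast at hcomp
      have h3 : d / 2 * ((N : ℝ) + h) ≤ d * M := by
        have : d / 2 * ((N : ℝ) + h) ≤ d / 2 * (2 * M) :=
          mul_le_mul_of_nonneg_left (by linarith) (by positivity)
        linarith
      have h4 : c * (η * M) ≤ a N := by
        refine le_trans ?_ hcN
        exact mul_le_mul_of_nonneg_left (hA1.trans hANR) hc.le
      have h5 : δ * (c * (η * M)) ≤ δ * a N := mul_le_mul_of_nonneg_left h4 hδ.le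
      have h6 : δ * (c * (η * M)) = 2 * l * M := by
        rw [hl]
        ring
      have h7 : d * M ≤ l / 2 * M := mul_le_mul_of_nonneg_right hdl2 hM0.le
      have h8 : 0 < l * M := by positivity
      linarith
  -- counting
  have hj := Dens.jump_card a hmono A M h hAM (l * M)
  have hup2 : a (M + h) ≤ 2 * C * M := by
    have h1 := (hn₀ (M + h) (by omega)).2.1
    push_cast at h1
    have h2 : C * ((M : ℝ) + h) ≤ C * (2 * M) := mul_le_mul_of_nonneg_left (by linarith) hC.le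
    linarith
  set X : ℝ := (((Ico A M).filter fun N => l * M < a (N + h) - a N).card : ℝ) with hX
  have hXle : X ≤ τ / 4 * M := by
    have h1 : (h : ℝ) * (a (M + h) - a A) ≤ 2 * (d * M) * (2 * C * M) := by
      apply mul_le_mul hhM _ _ (by positivity)
      · linarith [ha0 A]
      · have : a A ≤ a (M + h) := hmono (by omega)
        linarith
    have h2 : 16 * C * d ≤ l * τ := by
      rw [le_div_iff₀ (by positivity)] at hdl
      linarith
    have h3 : l * M * X ≤ l * M * (τ / 4 * M) := by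
      calc l * M * X ≤ 2 * (d * M) * (2 * C * M) := hj.trans h1
        _ = (16 * C * d) * (M * M) / 4 := by ring
        _ ≤ (l * τ) * (M * M) / 4 := by
            apply div_le_div_of_nonneg_right _ (by norm_num)
            exact mul_le_mul_of_nonneg_right h2 (by positivity)
        _ = l * M * (τ / 4 * M) := by ring
    exact le_of_mul_le_mul_left h3 (by positivity)
  have hcard := Finset.card_le_card hsub
  have hcard2 := hcard.trans (Finset.card_union_le _ _)
  rw [card_range] at hcard2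
  have hcard3 : (((range M).filter fun N => (1 + δ) * a N < b N).card : ℝ) ≤ A + X := by
    rw [hX]
    exact_mod_cast hcard2
  have h5 : η * (M : ℝ) ≤ τ / 4 * M := mul_le_mul_of_nonneg_right hητ hM0.le
  linarith

open Classical in
/-- an increasing family of sets of density zero: one set of density one which meets each of them in a
finite set -/
theorem diag52 (E : ℕ → Set ℕ) (hmono : Monotone E)
    (hE : ∀ m : ℕ, ∀ τ : ℝ, 0 < τ → ∀ᶠ M : ℕ in atTop,
      (((range M).filter fun N => N ∈ E m).card : ℝ) ≤ τ * M) :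
    ∃ S : Set ℕ, Tendsto (fun M : ℕ => (((range M).filter fun N => N ∈ S).card : ℝ) / M) atTop (𝓝 1) ∧
      ∀ m : ℕ, ∃ N₀ : ℕ, ∀ N ≥ N₀, N ∈ S → N ∉ E m := by
  -- the thresholds
  have h1 : ∀ m : ℕ, ∃ Q : ℕ, ∀ M ≥ Q,
      (((range M).filter fun N => N ∈ E m).card : ℝ) ≤ 1 / ((m : ℝ) + 1) * M := by
    intro m
    exact eventually_atTop.1 (hE m (1 / ((m : ℝ) + 1)) (by positivity))
  choose Q hQ using h1
  -- an increasing majorant
  set R : ℕ → ℕ := fun m => ∑ i ∈ range (m + 1), (Q i + 1) with hR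
  have hRQ : ∀ m, Q m ≤ R m := by
    intro m
    have : Q m + 1 ≤ R m :=
      Finset.single_le_sum (f := fun i => Q i + 1) (fun i _ => Nat.zero_le _) (by simp)
    omega
  have hRm : ∀ m, m + 1 ≤ R m := by
    intro m
    have : ∑ i ∈ range (m + 1), 1 ≤ R m :=
      Finset.sum_le_sum fun i _ => by omega
    simpa using this
  have hRmono : StrictMono R := by
    refine strictMono_nat_of_lt_succ fun m => ?_
    rw [hR]
    simp only
    rw [Finset.sum_range_succ _ (m + 1)]
    omega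
  -- the set
  set S : Set ℕ := {N | ∀ m, R m ≤ N → N ∉ E m} with hS
  refine ⟨S, ?_, fun m => ⟨R m, fun N hN hNS => hNS m hN⟩⟩
  -- the complement up to `M`
  have hcompl : ∀ m M : ℕ, R m ≤ M → M < R (m + 1) →
      (((range M).filter fun N => N ∉ S).card : ℝ) ≤ 1 / ((m : ℝ) + 1) * M := by
    intro m M h1 h2
    refine le_trans ?_ (hQ m M ((hRQ m).trans h1))
    have h3 : ((range M).filter fun N => N ∉ S) ⊆ ((range M).filter fun N => N ∈ E m) := by
      intro N hN
      rw [mem_filter, mem_range] at hN ⊢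
      refine ⟨hN.1, ?_⟩
      have h4 : ∃ k, R k ≤ N ∧ N ∈ E k := by
        by_contra hcon
        push Not at hcon
        exact hN.2 fun k hk => hcon k hk
      obtain ⟨k, hk1, hk2⟩ := h4
      have hkm : k ≤ m := by
        by_contra hcon
        have h5 : R (m + 1) ≤ R k := hRmono.monotone (by omega)
        omega
      exact hmono hkm hk2
    exact_mod_cast Finset.card_le_card h3
  have hlim : Tendsto (fun M : ℕ => (((range M).filter fun N => N ∉ S).card : ℝ) / M) atTop (𝓝 0) := by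
    rw [Metric.tendsto_atTop]
    intro ε hε
    obtain ⟨m₀, hm₀⟩ := exists_nat_one_div_lt hε
    refine ⟨R m₀, fun M hM => ?_⟩
    have hM1 : 1 ≤ M := by
      have := hRm m₀
      omega
    have hM0 : (0 : ℝ) < M := by exact_mod_cast hM1
    -- the block of `M`
    have hex : ∃ m, M < R (m + 1) := ⟨M, by
      have := hRm (M + 1)
      omega⟩
    set m := Nat.find hex with hm
    have h1 : M < R (m + 1) := Nat.find_spec hex
    have h2 : R m ≤ M := by
      rcases Nat.eq_zero_or_pos m with h0 | h0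
      · rw [h0]
        exact (hRmono.monotone (Nat.zero_le m₀)).trans hM
      · have h3 := Nat.find_min hex (m := m - 1) (by omega)
        have h4 : m - 1 + 1 = m := by omega
        rw [h4] at h3
        omega
    have h3 : m₀ ≤ m := by
      by_contra hcon
      have : R (m + 1) ≤ R m₀ := hRmono.monotone (by omega)
      omega
    have h4 := hcompl m M h2 h1
    rw [Real.dist_eq, sub_zero, abs_of_nonneg (by positivity), div_lt_iff₀ hM0]
    refine lt_of_le_of_lt h4 ?_
    apply mul_lt_mul_of_pos_right _ hM0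
    refine lt_of_le_of_lt ?_ hm₀
    apply one_div_le_one_div_of_le (by positivity)
    have : (m₀ : ℝ) ≤ m := by exact_mod_cast h3
    linarith
  have heq : ∀ᶠ M : ℕ in atTop, 1 - (((range M).filter fun N => N ∉ S).card : ℝ) / M
      = (((range M).filter fun N => N ∈ S).card : ℝ) / M := by
    filter_upwards [eventually_ge_atTop 1] with M hM1
    have hM0 : (M : ℝ) ≠ 0 := by
      have : (0 : ℝ) < M := by exact_mod_cast hM1
      exact this.ne'
    have h5 := Finset.card_filter_add_card_filter_not (s := range M) (fun N => N ∈ S)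
    rw [card_range] at h5
    have h6 : (((range M).filter fun N => N ∈ S).card : ℝ)
        + (((range M).filter fun N => N ∉ S).card : ℝ) = M := by exact_mod_cast h5
    field_simp
    linarith
  have := (tendsto_const_nhds (x := (1 : ℝ))).sub hlim
  rw [sub_zero] at this
  exact this.congr' heq

open Classical in
/-- the mixing times: cutoff along a set of sizes of density one -/
theorem cut52 (T : ℕ → ℝ → ℝ) (hT0 : ∀ n ε, 0 ≤ T n ε)
    (hmono : ∀ ε : ℝ, 0 < ε → Monotone fun n => T n ε)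
    (hanti : ∀ᶠ n : ℕ in atTop, ∀ ε ε' : ℝ, 0 < ε → ε ≤ ε' → T n ε' ≤ T n ε)
    (C c : ℝ) (hC : 0 < C) (hc : 0 < c)
    (hup : ∀ ε : ℝ, 0 < ε → ε < 1 → ∀ᶠ n : ℕ in atTop, T n ε ≤ C * n)
    (hlow : ∀ ε : ℝ, 0 < ε → ε < 1 → ∀ᶠ n : ℕ in atTop, c * (n : ℝ) ≤ T n ε)
    (hS : ∀ ε δ : ℝ, 0 < ε → ε < 1 → 0 < δ → ∀ᶠ M : ℕ in atTop, ∀ n : ℕ, (n : ℝ) ≤ (1 - δ) * M →
      T n ε ≤ T M (1 - ε) + δ * M) :
    ∃ S : Set ℕ, Tendsto (fun M : ℕ => (((range M).filter fun N => N ∈ S).card : ℝ) / M) atTop (𝓝 1) ∧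
      ∀ ε : ℝ, 0 < ε → ε < 1 →
        Tendsto (fun N => T N ε / T N (1 - ε)) (atTop ⊓ 𝓟 S) (𝓝 1) := by
  obtain ⟨n₁, hn₁⟩ := eventually_atTop.1 hanti
  -- the exceptional sets
  set E : ℕ → Set ℕ := fun m => {N | n₁ ≤ N ∧
    (1 + 1 / ((m : ℝ) + 1)) * T N (1 - 1 / ((m : ℝ) + 2)) < T N (1 / ((m : ℝ) + 2))} with hE
  have hEmono : Monotone E := by
    intro m m' hmm N hN
    obtain ⟨hN1, hN2⟩ := hN
    refine ⟨hN1, ?_⟩
    have hmR : (m : ℝ) ≤ m' := by exact_mod_cast hmm
    have h1 : 1 / ((m' : ℝ) + 2) ≤ 1 / ((m : ℝ) + 2) :=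
      one_div_le_one_div_of_le (by positivity) (by linarith)
    have h2 : 1 / ((m' : ℝ) + 1) ≤ 1 / ((m : ℝ) + 1) :=
      one_div_le_one_div_of_le (by positivity) (by linarith)
    have h3 : T N (1 / ((m : ℝ) + 2)) ≤ T N (1 / ((m' : ℝ) + 2)) :=
      hn₁ N hN1 _ _ (by positivity) h1
    have h5 : 1 / ((m : ℝ) + 2) < 1 := by
      rw [div_lt_one (by positivity)]
      have : (0 : ℝ) ≤ m := Nat.cast_nonneg m
      linarith
    have h4 : T N (1 - 1 / ((m' : ℝ) + 2)) ≤ T N (1 - 1 / ((m : ℝ) + 2)) :=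
      hn₁ N hN1 _ _ (by linarith) (by linarith)
    have h6 : (1 + 1 / ((m' : ℝ) + 1)) * T N (1 - 1 / ((m' : ℝ) + 2))
        ≤ (1 + 1 / ((m : ℝ) + 1)) * T N (1 - 1 / ((m : ℝ) + 2)) :=
      mul_le_mul (by linarith) h4 (hT0 _ _) (by positivity)
    linarith
  have hEd : ∀ m : ℕ, ∀ τ : ℝ, 0 < τ → ∀ᶠ M : ℕ in atTop,
      (((range M).filter fun N => N ∈ E m).card : ℝ) ≤ τ * M := by
    intro m τ hτ
    have h5 : 1 / ((m : ℝ) + 2) < 1 := by
      rw [div_lt_one (by positivity)]
      have : (0 : ℝ) ≤ m := Nat.cast_nonneg m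
      linarith
    have h6 : 0 < 1 / ((m : ℝ) + 2) := by positivity
    have h7 := dens52 (fun n => T n (1 - 1 / ((m : ℝ) + 2))) (fun n => T n (1 / ((m : ℝ) + 2)))
      (hmono _ (by linarith)) (fun n => hT0 _ _) C hC (hup _ (by linarith) (by linarith)) c hc
      (hlow _ (by linarith) (by linarith)) (fun δ hδ => hS _ δ h6 h5 hδ)
      (1 / ((m : ℝ) + 1)) (by positivity) τ hτ
    filter_upwards [h7] with M hM
    refine le_trans ?_ hM
    have h8 : ((range M).filter fun N => N ∈ E m) ⊆ ((range M).filter fun N =>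
        (1 + 1 / ((m : ℝ) + 1)) * T N (1 - 1 / ((m : ℝ) + 2)) < T N (1 / ((m : ℝ) + 2))) := by
      intro N hN
      rw [mem_filter] at hN ⊢
      exact ⟨hN.1, hN.2.2⟩
    exact_mod_cast Finset.card_le_card h8
  obtain ⟨S, hS1, hS2⟩ := diag52 E hEmono (fun m τ hτ => by
    filter_upwards [hEd m τ hτ] with M hM
    refine le_trans (le_of_eq ?_) hM
    congr!)
  refine ⟨S, hS1, fun ε hε hε1 => ?_⟩
  rw [Metric.tendsto_nhds]
  intro ρ hρ
  -- the index
  set ε' : ℝ := min ε (1 - ε) with hε'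
  have hε'0 : 0 < ε' := lt_min hε (by linarith)
  obtain ⟨m, hm⟩ := exists_nat_one_div_lt (lt_min hε'0 (half_pos hρ))
  have hm1 : 1 / ((m : ℝ) + 1) < ε' := hm.trans_le (min_le_left _ _)
  have hm2 : 1 / ((m : ℝ) + 1) < ρ / 2 := hm.trans_le (min_le_right _ _)
  have hm3 : 1 / ((m : ℝ) + 2) ≤ ε' := by
    refine le_trans ?_ hm1.le
    exact one_div_le_one_div_of_le (by positivity) (by linarith)
  obtain ⟨N₀, hN₀⟩ := hS2 m
  obtain ⟨n₂, hn₂⟩ := eventually_atTop.1 (hlow ε hε hε1)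
  obtain ⟨n₃, hn₃⟩ := eventually_atTop.1 (hlow (1 - ε) (by linarith) (by linarith))
  have hev : ∀ᶠ N : ℕ in atTop ⊓ 𝓟 S, N ∈ S ∧ max (max N₀ n₁) (max (max n₂ n₃) 1) ≤ N := by
    rw [eventually_inf_principal]
    filter_upwards [eventually_ge_atTop (max (max N₀ n₁) (max (max n₂ n₃) 1))] with N hN hNS
    exact ⟨hNS, hN⟩
  filter_upwards [hev] with N hN
  obtain ⟨hNS, hN⟩ := hN
  have hNN₀ : N₀ ≤ N := le_trans (le_trans (le_max_left _ _) (le_max_left _ _)) hN
  have hNn₁ : n₁ ≤ N := le_trans (le_trans (le_max_right _ _) (le_max_left _ _)) hN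
  have hNn₂ : n₂ ≤ N :=
    le_trans (le_trans (le_trans (le_max_left _ _) (le_max_left _ _)) (le_max_right _ _)) hN
  have hNn₃ : n₃ ≤ N :=
    le_trans (le_trans (le_trans (le_max_right _ _) (le_max_left _ _)) (le_max_right _ _)) hN
  have hN1 : 1 ≤ N := le_trans (le_trans (le_max_right _ _) (le_max_right _ _)) hN
  have hN0 : (0 : ℝ) < N := by exact_mod_cast hN1
  have hnot := hN₀ N hNN₀ hNS
  have hle : T N (1 / ((m : ℝ) + 2)) ≤ (1 + 1 / ((m : ℝ) + 1)) * T N (1 - 1 / ((m : ℝ) + 2)) := by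
    by_contra hcon
    exact hnot ⟨hNn₁, not_le.1 hcon⟩
  have ha1 : 0 < T N ε := lt_of_lt_of_le (by positivity) (hn₂ N hNn₂)
  have ha2 : 0 < T N (1 - ε) := lt_of_lt_of_le (by positivity) (hn₃ N hNn₃)
  -- bounds for both levels
  have hq0 : 0 < 1 / ((m : ℝ) + 2) := by positivity
  have hb : ∀ e : ℝ, ε' ≤ e → e ≤ 1 - ε' →
      T N (1 - 1 / ((m : ℝ) + 2)) ≤ T N e ∧ T N e ≤ T N (1 / ((m : ℝ) + 2)) := by
    intro e he1 he2
    constructor
    · exact hn₁ N hNn₁ _ _ (by linarith) (by linarith)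
    · exact hn₁ N hNn₁ _ _ hq0 (by linarith)
  have he1 : ε' ≤ ε := min_le_left _ _
  have he2 : ε' ≤ 1 - ε := min_le_right _ _
  obtain ⟨h1, h2⟩ := hb ε he1 (by linarith)
  obtain ⟨h3, h4⟩ := hb (1 - ε) he2 (by linarith)
  set x := T N ε with hx
  set y := T N (1 - ε) with hy
  set p := T N (1 - 1 / ((m : ℝ) + 2)) with hp
  set r := T N (1 / ((m : ℝ) + 2)) with hr
  have hk0 : 0 < 1 / ((m : ℝ) + 1) := by positivity
  have hk1 : 1 / ((m : ℝ) + 1) ≤ 1 := by
    rw [div_le_one (by positivity)]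
    have : (0 : ℝ) ≤ m := Nat.cast_nonneg m
    linarith
  set k := 1 / ((m : ℝ) + 1) with hk
  have hp0 : 0 ≤ p := hT0 _ _
  have hxy : x ≤ (1 + k) * y := by
    have : (1 + k) * p ≤ (1 + k) * y := mul_le_mul_of_nonneg_left h3 (by linarith)
    linarith
  have hyx : y ≤ (1 + k) * x := by
    have : (1 + k) * p ≤ (1 + k) * x := mul_le_mul_of_nonneg_left h1 (by linarith)
    linarith
  rw [Real.dist_eq, abs_lt]
  constructor
  · rw [lt_sub_iff_add_lt, lt_div_iff₀ ha2]
    nlinarith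
  · rw [sub_lt_iff_lt_add, div_lt_iff₀ ha2]
    nlinarith

end Pool.Agent.CutSeq.NJ
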