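import Mathlib

/-!
S19271, target B, row NB-7 (DISP), pure part: from the bound for one prefix length to the sum over
all prefix lengths.
-/

set_option autoImplicit false

namespace Pool.Agent.CutSeq.NJ

open Finset

/-- telescoping with a fixed lag -/
theorem tele37 (F : ℕ → ℝ) (i b1 M : ℕ) (hi : i + 1 ≤ b1) (hM : b1 ≤ M + 1) :
    ∑ b ∈ Ico b1 (M + 1), (F (b - i) - F (b - (i + 1))) = F (M - i) - F (b1 - (i + 1)) := by
  induction M with
  | zero =>
    have h1 : b1 = 1 := by omega
    subst h1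
    have h2 : i = 0 := by omega
    subst h2
    simp
  | succ M ih =>
    by_cases h : b1 ≤ M + 1
    · rw [sum_Ico_succ_top (by omega), ih h]
      have h1 : M + 1 - (i + 1) = M - i := by omega
      rw [h1]
      ring
    · have h1 : b1 = M + 1 + 1 := by omega
      rw [h1]
      have h2 : M + 1 + 1 - (i + 1) = M + 1 - i := by omega
      rw [Ico_self, sum_empty, h2, sub_self]

/-- the sum of the differences with lag `a` -/
theorem lag37 (F : ℕ → ℝ) (a b1 M : ℕ) (ha : a ≤ b1) (hM : b1 ≤ M + 1) :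
    ∑ b ∈ Ico b1 (M + 1), (F b - F (b - a)) = ∑ i ∈ range a, (F (M - i) - F (b1 - (i + 1))) := by
  induction a with
  | zero => simp
  | succ a ih =>
    rw [sum_range_succ, ← ih (by omega), ← tele37 F a b1 M ha hM, ← sum_add_distrib]
    refine sum_congr rfl fun b _ => ?_
    ring

/-- (DISP), pure form -/
theorem disp_sum37 (n a h b1 : ℕ) (F P : ℕ → ℝ) (e : ℝ) (he : 0 ≤ e) (hF0 : F 0 = 0)
    (hF : ∀ b c, b ≤ c → c ≤ n → F b ≤ F c)
    (hL : ∀ b c, b ≤ c → c ≤ n → F c ≤ F b + ((c : ℝ) - b) * Real.log 2)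
    (hP1 : ∀ b ≤ n, P b ≤ b * Real.log 2) (hPn : ∀ b ≤ n, P b ≤ F n) (hab : a ≤ b1)
    (hmid : ∀ b, b1 ≤ b → b + h ≤ n → P b ≤ F (b - a) + e) :
    a * F n - Real.log 2 * ((a : ℝ) * (a + h + b1) + (b1 : ℝ) ^ 2 + (h : ℝ) ^ 2) - (n + 1) * e
      ≤ ∑ b ∈ range (n + 1), (F b - P b) := by
  have hlog : (0 : ℝ) < Real.log 2 := Real.log_pos (by norm_num)
  have hFn : ∀ b ≤ n, F b ≤ b * Real.log 2 := by
    intro b hb
    have := hL 0 b (Nat.zero_le b) hb
    rw [hF0] at this
    simpa using this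
  have hFp : ∀ b ≤ n, 0 ≤ F b := by
    intro b hb
    have := hF 0 b (Nat.zero_le b) hb
    rwa [hF0] at this
  -- the terms
  have hterm : ∀ b ∈ range (n + 1), (if b1 ≤ b ∧ b + h ≤ n then F b - F (b - a) else 0)
      - e - (if b < b1 then (b1 : ℝ) * Real.log 2 else 0)
      - (if n < b + h then (h : ℝ) * Real.log 2 else 0) ≤ F b - P b := by
    intro b hb
    have hbn : b ≤ n := by
      have := mem_range.mp hb
      omega
    by_cases h1 : b < b1
    · rw [if_neg (by omega), if_pos h1]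
      have h2 := hP1 b hbn
      have h3 := hFp b hbn
      have h4 : (b : ℝ) ≤ b1 := by exact_mod_cast h1.le
      have h5 := mul_le_mul_of_nonneg_right h4 hlog.le
      have h6 : 0 ≤ (if n < b + h then (h : ℝ) * Real.log 2 else 0) := by
        split_ifs
        · positivity
        · exact le_rfl
      linarith
    · by_cases h2 : n < b + h
      · rw [if_neg (by omega), if_neg h1, if_pos h2]
        have h3 := hPn b hbn
        have h4 := hL b n hbn le_rfl
        have h5 : ((n : ℝ) - b) ≤ h := by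
          have : (n : ℝ) < b + h := by exact_mod_cast h2
          linarith
        have h6 := mul_le_mul_of_nonneg_right h5 hlog.le
        linarith
      · rw [if_pos ⟨by omega, by omega⟩, if_neg h1, if_neg h2]
        have h3 := hmid b (by omega) (by omega)
        linarith
  refine le_trans ?_ (sum_le_sum hterm)
  rw [sum_sub_distrib, sum_sub_distrib, sum_sub_distrib, sum_const, card_range, nsmul_eq_mul]
  push_cast
  -- the two boundary sums
  have hS1 : ∑ b ∈ range (n + 1), (if b < b1 then (b1 : ℝ) * Real.log 2 else 0)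
      ≤ (b1 : ℝ) ^ 2 * Real.log 2 := by
    rw [← sum_filter, sum_const, nsmul_eq_mul]
    have h1 : ((range (n + 1)).filter fun b => b < b1).card ≤ b1 := by
      refine le_trans (card_le_card (t := range b1) ?_) (by rw [card_range])
      intro b hb
      exact mem_range.mpr (mem_filter.mp hb).2
    have h2 : (((range (n + 1)).filter fun b => b < b1).card : ℝ) ≤ b1 := by exact_mod_cast h1
    have h3 := mul_le_mul_of_nonneg_right h2 (show (0 : ℝ) ≤ (b1 : ℝ) * Real.log 2 by positivity)
    calc _ ≤ (b1 : ℝ) * ((b1 : ℝ) * Real.log 2) := h3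
      _ = _ := by ring
  have hS2 : ∑ b ∈ range (n + 1), (if n < b + h then (h : ℝ) * Real.log 2 else 0)
      ≤ (h : ℝ) ^ 2 * Real.log 2 := by
    rw [← sum_filter, sum_const, nsmul_eq_mul]
    have h1 : ((range (n + 1)).filter fun b => n < b + h).card ≤ h := by
      refine le_trans (card_le_card (t := Ico (n + 1 - h) (n + 1)) ?_)
        (by rw [Nat.card_Ico]; omega)
      intro b hb
      have h2 := mem_filter.mp hb
      have h3 := mem_range.mp h2.1
      rw [mem_Ico]
      omega
    have h2 : (((range (n + 1)).filter fun b => n < b + h).card : ℝ) ≤ h := by exact_mod_cast h1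
    have h3 := mul_le_mul_of_nonneg_right h2 (show (0 : ℝ) ≤ (h : ℝ) * Real.log 2 by positivity)
    calc _ ≤ (h : ℝ) * ((h : ℝ) * Real.log 2) := h3
      _ = _ := by ring
  -- the main sum
  have hmain : (a : ℝ) * (F n - (h + a + b1) * Real.log 2)
      ≤ ∑ b ∈ range (n + 1), (if b1 ≤ b ∧ b + h ≤ n then F b - F (b - a) else 0) := by
    by_cases hc : b1 + h ≤ n + 1
    · have h1 : ∑ b ∈ range (n + 1), (if b1 ≤ b ∧ b + h ≤ n then F b - F (b - a) else 0)
          = ∑ b ∈ Ico b1 (n - h + 1), (F b - F (b - a)) ∨ n < h := by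
        by_cases hnh : n < h
        · exact Or.inr hnh
        · left
          rw [← sum_filter]
          refine sum_congr ?_ fun _ _ => rfl
          ext b
          rw [mem_filter, mem_range, mem_Ico]
          omega
      rcases h1 with h1 | h1
      · by_cases hnh : n < h
        · have : b1 = 0 := by omega
          have ha0 : a = 0 := by omega
          subst ha0
          simp
        · rw [h1, lag37 F a b1 (n - h) hab (by omega)]
          have h2 : ∀ i ∈ range a, F n - (h + a + b1) * Real.log 2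
              ≤ F (n - h - i) - F (b1 - (i + 1)) := by
            intro i hi
            have hia := mem_range.mp hi
            by_cases hh : i + h ≤ n
            · have h3 := hL (n - h - i) n (by omega) le_rfl
              have h4 := hFn (b1 - (i + 1)) (by omega)
              have h5 : ((n : ℝ) - ((n - h - i : ℕ) : ℝ)) = h + i := by
                have : n - h - i = n - (h + i) := by omega
                rw [this, Nat.cast_sub (by omega)]
                push_cast
                ring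
              rw [h5] at h3
              have h6 : ((b1 - (i + 1) : ℕ) : ℝ) ≤ b1 := by
                exact_mod_cast Nat.sub_le _ _
              have h7 : (i : ℝ) ≤ a := by exact_mod_cast hia.le
              have h8 := mul_le_mul_of_nonneg_right h6 hlog.le
              have h9 := mul_le_mul_of_nonneg_right h7 hlog.le
              nlinarith
            · have h3 := hFn n le_rfl
              have h4 := hFp (n - h - i) (by omega)
              have h5 := hFn (b1 - (i + 1)) (by omega)
              have h6 : ((b1 - (i + 1) : ℕ) : ℝ) ≤ b1 := by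
                exact_mod_cast Nat.sub_le _ _
              have h7 : (n : ℝ) ≤ h + a := by
                have : n ≤ h + a := by omega
                exact_mod_cast this
              have h8 := mul_le_mul_of_nonneg_right h6 hlog.le
              have h9 := mul_le_mul_of_nonneg_right h7 hlog.le
              nlinarith
          have h3 := sum_le_sum h2
          rw [sum_const, card_range, nsmul_eq_mul] at h3
          exact h3
      · have : b1 = 0 := by omega
        have ha0 : a = 0 := by omega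
        subst ha0
        simp
    · have h1 : ∑ b ∈ range (n + 1), (if b1 ≤ b ∧ b + h ≤ n then F b - F (b - a) else 0) = 0 := by
        refine sum_eq_zero fun b _ => ?_
        rw [if_neg (by omega)]
      rw [h1]
      have h2 := hFn n le_rfl
      have h3 : (n : ℝ) ≤ h + a + b1 := by
        have : n ≤ h + a + b1 := by omega
        exact_mod_cast this
      have h4 := mul_le_mul_of_nonneg_right h3 hlog.le
      have h5 : F n - (h + a + b1) * Real.log 2 ≤ 0 := by linarith
      exact mul_nonpos_of_nonneg_of_nonpos (by positivity) h5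
  have hfin : (a : ℝ) * F n - Real.log 2 * ((a : ℝ) * (a + h + b1) + (b1 : ℝ) ^ 2 + (h : ℝ) ^ 2)
      = (a : ℝ) * (F n - (h + a + b1) * Real.log 2) - (b1 : ℝ) ^ 2 * Real.log 2
        - (h : ℝ) ^ 2 * Real.log 2 := by ring
  rw [hfin]
  linarith

/-- (DISP) with the parameters of a window of length `s` -/
theorem disp_num37 (α u ε : ℝ) (hα : 0 < α) (hα1 : α ≤ 1) (hu : 0 ≤ u) (hε : 0 < ε) (hε1 : ε ≤ 1)
    (N n s g : ℕ) (hN : 12 / ε ≤ N) (hn : n ≤ 2 * N) (hs : s ≤ 2 * N) (F P : ℕ → ℝ) (e : ℝ)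
    (he : 0 ≤ e) (heN : e ≤ ε / 14 * N) (hgN : (g : ℝ) ≤ ε / 14 * N) (hF0 : F 0 = 0)
    (hF : ∀ b c, b ≤ c → c ≤ n → F b ≤ F c)
    (hL : ∀ b c, b ≤ c → c ≤ n → F c ≤ F b + ((c : ℝ) - b) * Real.log 2)
    (hP1 : ∀ b ≤ n, P b ≤ b * Real.log 2) (hPn : ∀ b ≤ n, P b ≤ F n)
    (hmid : ∀ b, 2 * ⌊α * s⌋₊ + g ≤ b → b + ⌈u * s⌉₊ ≤ n → P b ≤ F (b - ⌊α * s⌋₊) + e) :
    α * s * (F n - (11 * α + u + 2 * u ^ 2 / α) * s) - ε * N ^ 2
      ≤ ∑ b ∈ range (n + 1), (F b - P b) := by
  have hlog : (0 : ℝ) < Real.log 2 := Real.log_pos (by norm_num)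
  have hlog1 : Real.log 2 ≤ 1 := by
    have := Real.log_two_lt_d9
    linarith
  set a : ℕ := ⌊α * s⌋₊ with ha
  set h : ℕ := ⌈u * s⌉₊ with hh
  have h0 := disp_sum37 n a h (2 * a + g) F P e he hF0 hF hL hP1 hPn (by omega) hmid
  refine le_trans ?_ h0
  have hN1 : (1 : ℝ) ≤ N := by
    have : 12 ≤ 12 / ε := by
      rw [le_div_iff₀ hε]
      linarith
    linarith
  have hNε : 12 ≤ ε * N := by
    rw [div_le_iff₀ hε] at hN
    linarith
  have hsr : (s : ℝ) ≤ 2 * N := by exact_mod_cast hs
  have hs0 : (0 : ℝ) ≤ s := by positivity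
  have ha1 : (a : ℝ) ≤ α * s := Nat.floor_le (by positivity)
  have ha2 : α * s - 1 ≤ a := by
    have := Nat.lt_floor_add_one (α * s)
    linarith
  have hh1 : (h : ℝ) ≤ u * s + 1 := by
    have := Nat.ceil_lt_add_one (show (0 : ℝ) ≤ u * s by positivity)
    linarith
  have ha0 : (0 : ℝ) ≤ a := by positivity
  have hh0 : (0 : ℝ) ≤ h := by positivity
  have hg0 : (0 : ℝ) ≤ g := by positivity
  have hFn : F n ≤ 2 * N := by
    have h1 := hL 0 n (Nat.zero_le n) le_rfl
    rw [hF0] at h1
    have h2 : (n : ℝ) ≤ 2 * N := by exact_mod_cast hn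
    have h3 : ((n : ℝ) - ((0 : ℕ) : ℝ)) * Real.log 2 ≤ 2 * N * 1 := by
      push_cast
      rw [sub_zero]
      exact mul_le_mul h2 hlog1 hlog.le (by positivity)
    linarith
  have hF0n : 0 ≤ F n := by
    have := hF 0 n (Nat.zero_le n) le_rfl
    rwa [hF0] at this
  have hnr : (n : ℝ) + 1 ≤ 3 * N := by
    have h2 : (n : ℝ) ≤ 2 * N := by exact_mod_cast hn
    linarith
  -- the quadratic terms
  have hq : (a : ℝ) * (a + h + ((2 * a + g : ℕ) : ℝ)) + (((2 * a + g : ℕ) : ℝ)) ^ 2 + (h : ℝ) ^ 2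
      ≤ (11 * α ^ 2 + α * u + 2 * u ^ 2) * s ^ 2 + α * s * (1 + g) + 2 * g ^ 2 + 2 := by
    push_cast
    have e1 : (a : ℝ) * (a + h + (2 * a + g)) ≤ α * s * (α * s + (u * s + 1) + (2 * (α * s) + g)) := by
      apply mul_le_mul ha1 (by linarith) (by positivity) (by positivity)
    have e2 : (2 * (a : ℝ) + g) ^ 2 ≤ 2 * (2 * (α * s)) ^ 2 + 2 * g ^ 2 := by
      have e3 : 2 * (a : ℝ) + g ≤ 2 * (α * s) + g := by linarith
      have e4 : (2 * (a : ℝ) + g) ^ 2 ≤ (2 * (α * s) + g) ^ 2 :=
        pow_le_pow_left₀ (by positivity) e3 2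
      nlinarith [sq_nonneg (2 * (α * s) - g)]
    have e5 : (h : ℝ) ^ 2 ≤ 2 * (u * s) ^ 2 + 2 := by
      have e4 : (h : ℝ) ^ 2 ≤ (u * s + 1) ^ 2 := pow_le_pow_left₀ hh0 hh1 2
      nlinarith [sq_nonneg (u * s - 1)]
    nlinarith
  have hq0 : (0 : ℝ) ≤ (a : ℝ) * (a + h + ((2 * a + g : ℕ) : ℝ)) + (((2 * a + g : ℕ) : ℝ)) ^ 2
      + (h : ℝ) ^ 2 := by positivity
  have hq1 : Real.log 2 * ((a : ℝ) * (a + h + ((2 * a + g : ℕ) : ℝ)) + (((2 * a + g : ℕ) : ℝ)) ^ 2
      + (h : ℝ) ^ 2)
      ≤ (11 * α ^ 2 + α * u + 2 * u ^ 2) * s ^ 2 + α * s * (1 + g) + 2 * g ^ 2 + 2 := by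
    have := mul_le_mul_of_nonneg_right hlog1 hq0
    rw [one_mul] at this
    exact this.trans hq
  have hα2 : α * s * ((11 * α + u + 2 * u ^ 2 / α) * s)
      = (11 * α ^ 2 + α * u + 2 * u ^ 2) * s ^ 2 := by
    field_simp
  have hm1 : (α * s - 1) * F n ≤ a * F n := mul_le_mul_of_nonneg_right ha2 hF0n
  have hm2 : α * s * (1 + g) ≤ 2 * N * (1 + ε / 14 * N) := by
    have e1 : α * s ≤ 2 * N := by
      have := mul_le_mul hα1 hsr hs0 zero_le_one
      linarith
    exact mul_le_mul e1 (by linarith) (by positivity) (by positivity)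
  have hm3 : (g : ℝ) ^ 2 ≤ ε / 14 * N * N := by
    have e1 : (g : ℝ) ^ 2 ≤ (ε / 14 * N) ^ 2 := pow_le_pow_left₀ hg0 hgN 2
    have e2 : (ε / 14 * N) ^ 2 = (ε / 14 * N) * (ε / 14 * N) := by ring
    have e3 : ε / 14 * N ≤ N := by
      have : ε / 14 ≤ 1 := by linarith
      have := mul_le_mul_of_nonneg_right this (show (0 : ℝ) ≤ N by positivity)
      linarith
    have e4 := mul_le_mul_of_nonneg_left e3 (show (0 : ℝ) ≤ ε / 14 * N by positivity)
    linarith
  have hm4 : ((n : ℝ) + 1) * e ≤ 3 * N * (ε / 14 * N) :=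
    mul_le_mul hnr heN he (by positivity)
  have hN2 : 12 * (N : ℝ) ≤ ε * N ^ 2 := by
    have := mul_le_mul_of_nonneg_right hNε (show (0 : ℝ) ≤ N by positivity)
    nlinarith
  nlinarith

end Pool.Agent.CutSeq.NJ
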