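import Pool.Agent.CutSeq.Ent

/-!
S19271, target B (NOJUMP), helper38: the drop of the profile under a fresh slab, abstract form.

`ρ : Ω → V n` a random vector, `D` the data, `g : Λ → V n → V n` a random additive map with law `ν`,
independent of everything.  `NN38 w ρ D p` is the relative entropy of the first `p` coordinates of
`ρ` given `D`.
-/

set_option autoImplicit false

namespace Pool.Agent.NJ

open Finset Pool.Agent.CutSeq

/-- the first `p` coordinates, the others set to zero -/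
def pz38 {n : ℕ} (p : ℕ) (z : V n) : V n := fun j => if j.val < p then z j else 0

theorem pz38_add {n : ℕ} (p : ℕ) (x y : V n) : pz38 p (x + y) = pz38 p x + pz38 p y := by
  funext j
  simp only [pz38, Pi.add_apply]
  split <;> simp

theorem zadd_eq_zero38 {n : ℕ} (x y : V n) : x + y = 0 ↔ y = x := by
  constructor
  · intro h
    funext j
    have hj : x j + y j = 0 := by simpa using congrFun h j
    have h2 : x j = y j := by
      have h3 : x j + y j + y j = y j := by rw [hj, zero_add]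
      rw [add_assoc, CharTwo.add_self_eq_zero, add_zero] at h3
      exact h3
    exact h2.symm
  · intro h
    rw [h]
    funext j
    simp [CharTwo.add_self_eq_zero]

theorem pz38_sub_iff {n : ℕ} (p : ℕ) (x y : V n) : pz38 p (x + y) = 0 ↔ pz38 p y = pz38 p x := by
  rw [pz38_add]
  exact zadd_eq_zero38 _ _

theorem pz38_comp {n : ℕ} {p q : ℕ} (h : p ≤ q) (x : V n) : pz38 p (pz38 q x) = pz38 p x := by
  funext j
  simp only [pz38]
  by_cases h1 : j.val < p
  · rw [if_pos h1, if_pos (lt_of_lt_of_le h1 h), if_pos h1]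
  · rw [if_neg h1, if_neg h1]

theorem pz38_zero {n : ℕ} (x : V n) : pz38 0 x = 0 := by
  funext j
  simp [pz38]

theorem pz38_eq_of_le {n : ℕ} {p q : ℕ} (h : p ≤ q) {x y : V n} (hxy : pz38 q x = pz38 q y) :
    pz38 p x = pz38 p y := by
  rw [← pz38_comp h x, hxy, pz38_comp h]

/-- existence of the first nonzero coordinate -/
theorem exists_first38 {n : ℕ} (m : ℕ) (z : V n) (h : pz38 m z ≠ 0) :
    ∃ p < m, pz38 p z = 0 ∧ pz38 (p + 1) z ≠ 0 := by
  induction m with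
  | zero => exact absurd (pz38_zero z) h
  | succ m ih =>
    by_cases h1 : pz38 m z = 0
    · exact ⟨m, Nat.lt_succ_self m, h1, h⟩
    · obtain ⟨p, hp, h2, h3⟩ := ih h1
      exact ⟨p, hp.trans (Nat.lt_succ_self m), h2, h3⟩

theorem card_ext38 {n : ℕ} {p q : ℕ} (y : V n) [DecidableEq (V n)] :
    ((univ : Finset (V n)).filter fun a => pz38 q a = a ∧ pz38 p a = y).card ≤ 2 ^ (q - p) := by
  classical
  have h2 : (univ : Finset (Fin (q - p) → ZMod 2)).card = 2 ^ (q - p) := by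
    simp [ZMod.card]
  rw [← h2]
  refine Finset.card_le_card_of_injOn
    (fun a => fun i : Fin (q - p) => if h : p + i.val < n then a ⟨p + i.val, h⟩ else 0)
    (fun a _ => Finset.mem_coe.2 (Finset.mem_univ _)) ?_
  intro a ha a' ha' haa
  simp only [Finset.coe_filter, Finset.mem_univ, true_and, Set.mem_ofPred_eq] at ha ha'
  funext j
  by_cases h1 : j.val < p
  · have e := congrFun (ha.2.trans ha'.2.symm) j
    simp only [pz38, if_pos h1] at e
    exact e
  · by_cases h3 : j.val < q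
    · have e := congrFun haa ⟨j.val - p, by omega⟩
      simp only at e
      have h4 : p + (j.val - p) < n := by omega
      rw [dif_pos h4, dif_pos h4] at e
      have h5 : (⟨p + (j.val - p), h4⟩ : Fin n) = j := Fin.ext (by simp; omega)
      rw [h5] at e
      exact e
    · have e := congrFun ha.1 j
      have e' := congrFun ha'.1 j
      simp only [pz38, if_neg h3] at e e'
      rw [← e, ← e']

section Abs

variable {Ω Λ B : Type*} [Fintype Ω] [Fintype Λ] {n : ℕ}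

/-- mass of the class of the first `p` coordinates -/
noncomputable def cm38 (w : Ω → ℝ) (ρ : Ω → V n) (D : Ω → B) (p : ℕ) (ω : Ω) : ℝ :=
  mass w (fun ω' => (pz38 p (ρ ω'), D ω')) (pz38 p (ρ ω), D ω)

/-- density of the first `p` coordinates given the data -/
noncomputable def rr38 (w : Ω → ℝ) (ρ : Ω → V n) (D : Ω → B) (p : ℕ) (ω : Ω) : ℝ :=
  2 ^ p * cm38 w ρ D p ω / mass w D (D ω)

/-- relative entropy of the first `p` coordinates given the data -/
noncomputable def NN38 (w : Ω → ℝ) (ρ : Ω → V n) (D : Ω → B) (p : ℕ) : ℝ :=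
  ∑ ω, w ω * Real.log (rr38 w ρ D p ω)

variable (w : Ω → ℝ) (hw : ∀ ω, 0 ≤ w ω) (ρ : Ω → V n) (D : Ω → B)

theorem KK_cut38 {b : ℕ} (hb : b ≤ n) : KK w (fun ω => cut hb (ρ ω)) D = NN38 w ρ D b := by
  unfold KK NN38 rr38 cm38
  refine Finset.sum_congr rfl fun ω _ => ?_
  have h1 : mass w (fun ω => (cut hb (ρ ω), D ω)) (cut hb (ρ ω), D ω) =
      mass w (fun ω' => (pz38 b (ρ ω'), D ω')) (pz38 b (ρ ω), D ω) := by
    refine mass_congr w _ _ _ _ fun ω' _ => ?_
    simp only [Prod.mk.injEq]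
    refine and_congr ?_ Iff.rfl
    constructor
    · intro h
      funext j
      simp only [pz38]
      by_cases hj : j.val < b
      · rw [if_pos hj, if_pos hj]
        have := congrFun h ⟨j.val, hj⟩
        simpa [cut] using this
      · rw [if_neg hj, if_neg hj]
    · intro h
      funext j
      have := congrFun h ⟨j.val, lt_of_lt_of_le j.isLt hb⟩
      simp only [pz38, if_pos j.isLt] at this
      exact this
  rw [h1]
  have h2 : ((Fintype.card (V b) : ℕ) : ℝ) = 2 ^ b := by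
    simp [V, ZMod.card]
  rw [h2]

include hw

theorem cm38_pos (p : ℕ) {ω : Ω} (h : w ω ≠ 0) : 0 < cm38 w ρ D p ω :=
  mass_pos w hw (fun ω' => (pz38 p (ρ ω'), D ω')) h

theorem rr38_pos (p : ℕ) {ω : Ω} (h : w ω ≠ 0) : 0 < rr38 w ρ D p ω := by
  have h1 := cm38_pos w hw ρ D p h
  have h2 := mass_pos w hw D h
  unfold rr38
  positivity

theorem cm38_anti {p q : ℕ} (h : p ≤ q) (ω : Ω) : cm38 w ρ D q ω ≤ cm38 w ρ D p ω := by
  unfold cm38
  refine mass_mono w hw _ _ _ _ fun ω' h' => ?_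
  simp only [Prod.mk.injEq] at h' ⊢
  exact ⟨pz38_eq_of_le h h'.1, h'.2⟩

omit hw in
theorem cm38_zero (ω : Ω) : cm38 w ρ D 0 ω = mass w D (D ω) := by
  unfold cm38
  refine mass_congr w _ _ _ _ fun ω' _ => ?_
  simp only [Prod.mk.injEq, pz38_zero, true_and]

omit hw in
/-- the weight of the product with an independent slab -/
theorem mass_slab38 {C : Type*} (ν : Λ → ℝ) (F : Ω × Λ → C) (c : C) (l : Λ) :
    mass (fun q : Ω × Λ => w q.1 * ν q.2) (fun q => (F q, q.2)) (c, l) =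
      ν l * mass w (fun ω => F (ω, l)) c := by
  classical
  unfold mass
  rw [Fintype.sum_prod_type, Finset.mul_sum]
  refine Finset.sum_congr rfl fun ω _ => ?_
  rw [Finset.sum_eq_single l]
  · by_cases h : F (ω, l) = c
    · simp [h, mul_comm]
    · simp [h]
  · intro l' _ hl'
    rw [if_neg]
    intro h
    exact hl' (Prod.mk.inj h).2
  · intro h
    exact absurd (Finset.mem_univ l) h

/-- probability that the slab kills the first `b` coordinates of `z` -/
noncomputable def qq38 (ν : Λ → ℝ) (g : Λ → V n → V n) (b : ℕ) (z : V n) : ℝ :=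
  ∑ l, ν l * (if pz38 b (g l z) = 0 then 1 else 0)

omit hw in
theorem rr38_slab (ν : Λ → ℝ) (g : Λ → V n → V n) (b : ℕ) (ω : Ω) (l : Λ) (hl : ν l ≠ 0) :
    rr38 (fun q : Ω × Λ => w q.1 * ν q.2) (fun q => g q.2 (ρ q.1)) (fun q => (D q.1, q.2)) b (ω, l) =
      2 ^ b * mass w (fun ω' => (pz38 b (g l (ρ ω')), D ω')) (pz38 b (g l (ρ ω)), D ω) /
        mass w D (D ω) := by
  unfold rr38 cm38
  have h1 := mass_slab38 w ν (fun q : Ω × Λ => D q.1) (D ω) l
  have h2 := mass_slab38 w ν (fun q : Ω × Λ => (pz38 b (g q.2 (ρ q.1)), D q.1))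
    (pz38 b (g l (ρ ω)), D ω) l
  have h3 : mass (fun q : Ω × Λ => w q.1 * ν q.2)
      (fun q => (pz38 b (g q.2 (ρ q.1)), D q.1, q.2)) (pz38 b (g l (ρ ω)), D ω, l) =
      mass (fun q : Ω × Λ => w q.1 * ν q.2)
      (fun q => ((pz38 b (g q.2 (ρ q.1)), D q.1), q.2)) ((pz38 b (g l (ρ ω)), D ω), l) := by
    refine mass_congr _ _ _ _ _ fun q _ => ?_
    simp only [Prod.mk.injEq, and_assoc]
  rw [h3, h2, h1]
  rw [mul_left_comm]
  rw [mul_div_mul_left _ _ hl]

/-- average over the slab of the mass of the class of `ω` -/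
theorem sum_slab38 (ν : Λ → ℝ) (hν : ∀ l, 0 ≤ ν l) (g : Λ → V n → V n)
    (hg : ∀ l x y, g l (x + y) = g l x + g l y) {a b h : ℕ} (ω : Ω)
    (hν1 : tot ν = 1) (hab : a ≤ b)
    (hF1 : ∀ p < b, ∀ z : V n, pz38 p z = 0 → pz38 (p + 1) z ≠ 0 →
      qq38 ν g b z ≤ (1 / 2 : ℝ) ^ (b - p))
    (hF2 : ∀ z : V n, pz38 (b + h) z ≠ 0 → qq38 ν g b z ≤ (1 / 2 : ℝ) ^ (2 * a)) :
    ∑ l, ν l * mass w (fun ω' => (pz38 b (g l (ρ ω')), D ω')) (pz38 b (g l (ρ ω)), D ω) ≤
      cm38 w ρ D (b + h) ω + (1 / 2 : ℝ) ^ (2 * a) * cm38 w ρ D (b - a) ω +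
        ∑ p ∈ range (b - a), (1 / 2 : ℝ) ^ (b - p) * cm38 w ρ D p ω := by
  classical
  have hq1 : ∀ z, qq38 ν g b z ≤ 1 := by
    intro z
    rw [← hν1]
    unfold qq38 tot
    refine Finset.sum_le_sum fun l _ => ?_
    split
    · simp
    · simpa using hν l
  have hq0 : ∀ z, 0 ≤ qq38 ν g b z := by
    intro z
    unfold qq38
    refine Finset.sum_nonneg fun l _ => mul_nonneg (hν l) ?_
    split <;> norm_num
  -- pointwise bound of `q`
  have hq : ∀ z, qq38 ν g b z ≤ (if pz38 (b + h) z = 0 then 1 else 0) +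
      (1 / 2 : ℝ) ^ (2 * a) * (if pz38 (b - a) z = 0 then 1 else 0) +
      ∑ p ∈ range (b - a), (1 / 2 : ℝ) ^ (b - p) * (if pz38 p z = 0 then 1 else 0) := by
    intro z
    have hs : 0 ≤ ∑ p ∈ range (b - a), (1 / 2 : ℝ) ^ (b - p) * (if pz38 p z = 0 then 1 else 0) := by
      refine Finset.sum_nonneg fun p _ => ?_
      split <;> positivity
    by_cases h1 : pz38 (b + h) z = 0
    · rw [if_pos h1]
      have h2 : (0 : ℝ) ≤ (1 / 2 : ℝ) ^ (2 * a) * (if pz38 (b - a) z = 0 then 1 else 0) := by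
        split <;> positivity
      linarith [hq1 z]
    · rw [if_neg h1]
      by_cases h2 : pz38 (b - a) z = 0
      · rw [if_pos h2]
        have := hF2 z h1
        linarith
      · rw [if_neg h2]
        obtain ⟨p, hp, h3, h4⟩ := exists_first38 (b - a) z h2
        have h5 := hF1 p (by omega) z h3 h4
        have h6 : (1 / 2 : ℝ) ^ (b - p) ≤
            ∑ p ∈ range (b - a), (1 / 2 : ℝ) ^ (b - p) * (if pz38 p z = 0 then 1 else 0) := by
          refine le_trans (le_of_eq ?_) (Finset.single_le_sum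
            (f := fun p => (1 / 2 : ℝ) ^ (b - p) * (if pz38 p z = 0 then 1 else 0))
            (fun p _ => ?_) (Finset.mem_range.2 hp))
          · simp [h3]
          · show 0 ≤ (1 / 2 : ℝ) ^ (b - p) * (if pz38 p z = 0 then 1 else 0)
            split <;> positivity
        linarith
  -- swap the sums
  have hL : ∑ l, ν l * mass w (fun ω' => (pz38 b (g l (ρ ω')), D ω')) (pz38 b (g l (ρ ω)), D ω) =
      ∑ ω', (if D ω' = D ω then w ω' * qq38 ν g b (ρ ω + ρ ω') else 0) := by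
    unfold mass qq38
    simp only [Finset.mul_sum]
    rw [Finset.sum_comm]
    refine Finset.sum_congr rfl fun ω' _ => ?_
    by_cases hD : D ω' = D ω
    · rw [if_pos hD]
      refine Finset.sum_congr rfl fun l _ => ?_
      have e1 : (pz38 b (g l (ρ ω + ρ ω')) = 0) ↔
          (pz38 b (g l (ρ ω')), D ω') = (pz38 b (g l (ρ ω)), D ω) := by
        rw [hg, pz38_sub_iff]
        simp [hD]
      by_cases h1 : pz38 b (g l (ρ ω + ρ ω')) = 0
      · rw [if_pos h1, if_pos (e1.1 h1)]; ring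
      · rw [if_neg h1, if_neg (fun h => h1 (e1.2 h))]; ring
    · rw [if_neg hD]
      refine Finset.sum_eq_zero fun l _ => ?_
      rw [if_neg (fun h => hD (Prod.mk.inj h).2), mul_zero]
  have hcm : ∀ p, cm38 w ρ D p ω =
      ∑ ω', (if D ω' = D ω then w ω' * (if pz38 p (ρ ω + ρ ω') = 0 then 1 else 0) else 0) := by
    intro p
    unfold cm38 mass
    refine Finset.sum_congr rfl fun ω' _ => ?_
    by_cases hD : D ω' = D ω
    · by_cases h1 : pz38 p (ρ ω') = pz38 p (ρ ω)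
      · rw [if_pos (Prod.ext h1 hD), if_pos hD, if_pos ((pz38_sub_iff _ _ _).2 h1), mul_one]
      · rw [if_neg (fun h => h1 (Prod.mk.inj h).1), if_pos hD,
          if_neg (fun h => h1 ((pz38_sub_iff _ _ _).1 h)), mul_zero]
    · rw [if_neg (fun h => hD (Prod.mk.inj h).2), if_neg hD]
  rw [hL]
  simp only [hcm, Finset.mul_sum]
  rw [Finset.sum_comm, ← Finset.sum_add_distrib, ← Finset.sum_add_distrib]
  refine Finset.sum_le_sum fun ω' _ => ?_
  by_cases hD : D ω' = D ω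
  · simp only [if_pos hD]
    have h1 := mul_le_mul_of_nonneg_left (hq (ρ ω + ρ ω')) (hw ω')
    refine h1.trans (le_of_eq ?_)
    rw [mul_add, mul_add, Finset.mul_sum]
    congr 1
    · congr 1
      ring
    · refine Finset.sum_congr rfl fun p _ => ?_
      ring
  · simp [hD]

/-- pointwise Jensen over the slab -/
theorem jensen_slab38 (ν : Λ → ℝ) (hν : ∀ l, 0 ≤ ν l) (g : Λ → V n → V n)
    (hg : ∀ l x y, g l (x + y) = g l x + g l y) {a b h : ℕ} {ω : Ω} (hω : w ω ≠ 0)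
    (hν1 : tot ν = 1) (hab : a ≤ b)
    (hF1 : ∀ p < b, ∀ z : V n, pz38 p z = 0 → pz38 (p + 1) z ≠ 0 →
      qq38 ν g b z ≤ (1 / 2 : ℝ) ^ (b - p))
    (hF2 : ∀ z : V n, pz38 (b + h) z ≠ 0 → qq38 ν g b z ≤ (1 / 2 : ℝ) ^ (2 * a)) :
    ∑ l, ν l * Real.log (rr38 (fun q : Ω × Λ => w q.1 * ν q.2) (fun q => g q.2 (ρ q.1))
        (fun q => (D q.1, q.2)) b (ω, l)) ≤
      Real.log ((1 / 2 : ℝ) ^ h * rr38 w ρ D (b + h) ω + (1 / 2 : ℝ) ^ a * rr38 w ρ D (b - a) ω +
        ∑ p ∈ range (b - a), rr38 w ρ D p ω) := by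
  classical
  have hD := mass_pos w hw D hω
  set T : Λ → ℝ := fun l => 2 ^ b *
    mass w (fun ω' => (pz38 b (g l (ρ ω')), D ω')) (pz38 b (g l (ρ ω)), D ω) / mass w D (D ω)
    with hT
  have hTpos : ∀ l, 0 < T l := by
    intro l
    have := mass_pos w hw (fun ω' => (pz38 b (g l (ρ ω')), D ω')) hω
    rw [hT]
    positivity
  set S : ℝ := ∑ l, ν l * T l with hS
  have hSpos : 0 < S := by
    have h0 : ∃ l, ν l ≠ 0 := by
      by_contra hcon
      push Not at hcon
      unfold tot at hν1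
      simp [hcon] at hν1
    obtain ⟨l, hl⟩ := h0
    have h1 : 0 < ν l * T l := mul_pos (lt_of_le_of_ne (hν l) (Ne.symm hl)) (hTpos l)
    exact lt_of_lt_of_le h1 (Finset.single_le_sum (f := fun l => ν l * T l)
      (fun l _ => mul_nonneg (hν l) (hTpos l).le) (Finset.mem_univ l))
  have h1 : ∑ l, ν l * Real.log (rr38 (fun q : Ω × Λ => w q.1 * ν q.2) (fun q => g q.2 (ρ q.1))
        (fun q => (D q.1, q.2)) b (ω, l)) ≤ Real.log S := by
    have h2 : ∀ l ∈ (univ : Finset Λ), ν l * Real.log (rr38 (fun q : Ω × Λ => w q.1 * ν q.2)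
        (fun q => g q.2 (ρ q.1)) (fun q => (D q.1, q.2)) b (ω, l)) ≤
        ν l * (Real.log S - 1) + ν l * T l / S := by
      intro l _
      by_cases hl : ν l = 0
      · simp [hl]
      · rw [rr38_slab w ρ D ν g b ω l hl]
        have h3 := Real.log_le_sub_one_of_pos (x := T l / S) (div_pos (hTpos l) hSpos)
        rw [Real.log_div (hTpos l).ne' hSpos.ne'] at h3
        have h4 : Real.log (T l) ≤ Real.log S - 1 + T l / S := by linarith
        calc ν l * Real.log (T l) ≤ ν l * (Real.log S - 1 + T l / S) :=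
              mul_le_mul_of_nonneg_left h4 (hν l)
          _ = ν l * (Real.log S - 1) + ν l * T l / S := by ring
    refine (Finset.sum_le_sum h2).trans (le_of_eq ?_)
    rw [Finset.sum_add_distrib, ← Finset.sum_mul, ← Finset.sum_div, ← hS, div_self hSpos.ne']
    unfold tot at hν1
    rw [hν1]
    ring
  refine h1.trans (Real.log_le_log hSpos ?_)
  have h5 := sum_slab38 w hw ρ D ν hν g hg ω hν1 hab hF1 hF2
  have h6 : S = 2 ^ b / mass w D (D ω) *
      ∑ l, ν l * mass w (fun ω' => (pz38 b (g l (ρ ω')), D ω')) (pz38 b (g l (ρ ω)), D ω) := by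
    rw [hS, Finset.mul_sum]
    refine Finset.sum_congr rfl fun l _ => ?_
    rw [hT]
    ring
  rw [h6]
  refine (mul_le_mul_of_nonneg_left h5 (by positivity)).trans (le_of_eq ?_)
  rw [mul_add, mul_add, Finset.mul_sum]
  unfold rr38
  congr 1
  · congr 1
    · rw [pow_add]
      have : (1 / 2 : ℝ) ^ h * 2 ^ h = 1 := by rw [← mul_pow]; norm_num
      calc 2 ^ b / mass w D (D ω) * cm38 w ρ D (b + h) ω
          = ((1 / 2 : ℝ) ^ h * 2 ^ h) * (2 ^ b / mass w D (D ω) * cm38 w ρ D (b + h) ω) := by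
            rw [this, one_mul]
        _ = _ := by ring
    · have e1 : (2 : ℝ) ^ b = 2 ^ (b - a) * 2 ^ a := by
        rw [← pow_add]; congr 1; omega
      have e2 : (1 / 2 : ℝ) ^ (2 * a) = (1 / 2) ^ a * (1 / 2) ^ a := by
        rw [← pow_add]; congr 1; omega
      have e3 : (1 / 2 : ℝ) ^ a * 2 ^ a = 1 := by rw [← mul_pow]; norm_num
      rw [e1, e2]
      calc 2 ^ (b - a) * 2 ^ a / mass w D (D ω) *
            ((1 / 2) ^ a * (1 / 2) ^ a * cm38 w ρ D (b - a) ω)
          = ((1 / 2 : ℝ) ^ a * 2 ^ a) * ((1 / 2 : ℝ) ^ a * (2 ^ (b - a) *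
            cm38 w ρ D (b - a) ω / mass w D (D ω))) := by ring
        _ = _ := by rw [e3, one_mul]
  · refine Finset.sum_congr rfl fun p hp => ?_
    have hp' := Finset.mem_range.1 hp
    have e1 : (2 : ℝ) ^ b = 2 ^ (b - p) * 2 ^ p := by
      rw [← pow_add]; congr 1; omega
    have e3 : (1 / 2 : ℝ) ^ (b - p) * 2 ^ (b - p) = 1 := by rw [← mul_pow]; norm_num
    rw [e1]
    calc 2 ^ (b - p) * 2 ^ p / mass w D (D ω) * ((1 / 2) ^ (b - p) * cm38 w ρ D p ω)
        = ((1 / 2 : ℝ) ^ (b - p) * 2 ^ (b - p)) * (2 ^ p * cm38 w ρ D p ω / mass w D (D ω)) := by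
          ring
      _ = _ := by rw [e3, one_mul]

theorem lr_up38 {p q : ℕ} (hpq : p ≤ q) :
    ∑ ω, w ω * (rr38 w ρ D p ω / rr38 w ρ D q ω) ≤ tot w := by
  classical
  have h1 := basic_count w hw (fun ω => pz38 q (ρ ω)) (fun ω => (pz38 p (ρ ω), D ω))
    (fun a y => if pz38 q a = a ∧ pz38 p a = y.1 then (1 / 2 : ℝ) ^ (q - p) else 0)
    (fun a y => by
      show (0 : ℝ) ≤ if pz38 q a = a ∧ pz38 p a = y.1 then (1 / 2 : ℝ) ^ (q - p) else 0
      split <;> positivity)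
  have h2 : ∀ ω, w ω * (rr38 w ρ D p ω / rr38 w ρ D q ω) = w ω *
      ((if pz38 q (pz38 q (ρ ω)) = pz38 q (ρ ω) ∧ pz38 p (pz38 q (ρ ω)) = (pz38 p (ρ ω), D ω).1 then
          (1 / 2 : ℝ) ^ (q - p) else 0) *
        mass w (fun ω => (pz38 p (ρ ω), D ω)) (pz38 p (ρ ω), D ω) /
        mass w (fun ω => (pz38 q (ρ ω), (pz38 p (ρ ω), D ω)))
          (pz38 q (ρ ω), (pz38 p (ρ ω), D ω))) := by
    intro ω
    by_cases hω : w ω = 0
    · simp [hω]
    · rw [if_pos ⟨pz38_comp le_rfl _, pz38_comp hpq _⟩]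
      have e1 : mass w (fun ω => (pz38 q (ρ ω), (pz38 p (ρ ω), D ω)))
          (pz38 q (ρ ω), (pz38 p (ρ ω), D ω)) = cm38 w ρ D q ω := by
        unfold cm38
        refine mass_congr w _ _ _ _ fun ω' _ => ?_
        simp only [Prod.mk.injEq]
        constructor
        · rintro ⟨h1, -, h3⟩
          exact ⟨h1, h3⟩
        · rintro ⟨h1, h3⟩
          exact ⟨h1, pz38_eq_of_le hpq h1, h3⟩
      rw [e1]
      have hm := mass_pos w hw D hω
      have hq := cm38_pos w hw ρ D q hω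
      have e2 : (2 : ℝ) ^ q = 2 ^ (q - p) * 2 ^ p := by
        rw [← pow_add]; congr 1; omega
      have e3 : (1 / 2 : ℝ) ^ (q - p) = 1 / 2 ^ (q - p) := by rw [one_div_pow]
      unfold rr38
      rw [e2, e3]
      congr 1
      show _ = 1 / 2 ^ (q - p) * cm38 w ρ D p ω / cm38 w ρ D q ω
      field_simp
  rw [Finset.sum_congr rfl fun ω _ => h2 ω]
  refine h1.trans ?_
  unfold tot
  refine Finset.sum_le_sum fun ω _ => ?_
  refine mul_le_of_le_one_right (hw ω) ?_
  rw [← Finset.sum_filter, Finset.sum_const, nsmul_eq_mul]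
  have h3 := card_ext38 (p := p) (q := q) (pz38 p (ρ ω))
  have h4 : (((univ : Finset (V n)).filter fun a => pz38 q a = a ∧
      pz38 p a = (pz38 p (ρ ω), D ω).1).card : ℝ) ≤ 2 ^ (q - p) := by exact_mod_cast h3
  refine (mul_le_mul_of_nonneg_right h4 (by positivity)).trans (le_of_eq ?_)
  rw [← mul_pow]
  norm_num

theorem lr_hole38 {γ : Type*} (H : Ω → γ) (b h : ℕ) (k : Ω → ℕ)
    (hH : ∀ ω, w ω ≠ 0 →
      mass w (fun ω' => (pz38 (b + h) (ρ ω'), D ω', H ω')) (pz38 (b + h) (ρ ω), D ω, H ω) *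
        2 ^ k ω ≤ mass w (fun ω' => (pz38 b (ρ ω'), D ω', H ω')) (pz38 b (ρ ω), D ω, H ω)) :
    ∑ ω, w ω * (2 ^ k ω * cm38 w ρ D (b + h) ω / cm38 w ρ D b ω) ≤ tot w := by
  classical
  have h1 := basic_count w hw (fun ω => pz38 (b + h) (ρ ω)) (fun ω => (pz38 b (ρ ω), D ω, H ω))
    (fun a y => if pz38 b a = y.1 then
      mass w (fun ω' => (pz38 (b + h) (ρ ω'), D ω')) (a, y.2.1) /
        mass w (fun ω' => (pz38 b (ρ ω'), D ω')) (y.1, y.2.1) else 0)
    (fun a y => by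
      show (0 : ℝ) ≤ if pz38 b a = y.1 then
        mass w (fun ω' => (pz38 (b + h) (ρ ω'), D ω')) (a, y.2.1) /
        mass w (fun ω' => (pz38 b (ρ ω'), D ω')) (y.1, y.2.1) else 0
      have m1 := mass_nonneg w hw (fun ω' => (pz38 (b + h) (ρ ω'), D ω')) (a, y.2.1)
      have m2 := mass_nonneg w hw (fun ω' => (pz38 b (ρ ω'), D ω')) (y.1, y.2.1)
      split
      · exact div_nonneg m1 m2
      · exact le_rfl)
  have h2 : ∀ ω ∈ (univ : Finset Ω), w ω * (2 ^ k ω * cm38 w ρ D (b + h) ω / cm38 w ρ D b ω) ≤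
      w ω * ((if pz38 b (pz38 (b + h) (ρ ω)) = (pz38 b (ρ ω), D ω, H ω).1 then
        mass w (fun ω' => (pz38 (b + h) (ρ ω'), D ω')) (pz38 (b + h) (ρ ω), D ω) /
        mass w (fun ω' => (pz38 b (ρ ω'), D ω')) (pz38 b (ρ ω), D ω) else 0) *
        mass w (fun ω => (pz38 b (ρ ω), D ω, H ω)) (pz38 b (ρ ω), D ω, H ω) /
        mass w (fun ω => (pz38 (b + h) (ρ ω), (pz38 b (ρ ω), D ω, H ω)))
          (pz38 (b + h) (ρ ω), (pz38 b (ρ ω), D ω, H ω))) := by
    intro ω _
    by_cases hω : w ω = 0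
    · simp [hω]
    · refine mul_le_mul_of_nonneg_left ?_ (hw ω)
      rw [if_pos (pz38_comp (by omega) _)]
      have e1 : mass w (fun ω => (pz38 (b + h) (ρ ω), (pz38 b (ρ ω), D ω, H ω)))
          (pz38 (b + h) (ρ ω), (pz38 b (ρ ω), D ω, H ω)) =
          mass w (fun ω' => (pz38 (b + h) (ρ ω'), D ω', H ω')) (pz38 (b + h) (ρ ω), D ω, H ω) := by
        refine mass_congr w _ _ _ _ fun ω' _ => ?_
        simp only [Prod.mk.injEq]
        constructor
        · rintro ⟨h1, -, h3⟩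
          exact ⟨h1, h3⟩
        · rintro ⟨h1, h3⟩
          exact ⟨h1, pz38_eq_of_le (by omega) h1, h3⟩
      rw [e1]
      have p1 := cm38_pos w hw ρ D (b + h) hω
      have p2 := cm38_pos w hw ρ D b hω
      have p3 := mass_pos w hw (fun ω' => (pz38 (b + h) (ρ ω'), D ω', H ω')) hω
      have hh := hH ω hω
      show 2 ^ k ω * cm38 w ρ D (b + h) ω / cm38 w ρ D b ω ≤
        cm38 w ρ D (b + h) ω / cm38 w ρ D b ω *
        mass w (fun ω => (pz38 b (ρ ω), D ω, H ω)) (pz38 b (ρ ω), D ω, H ω) /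
        mass w (fun ω' => (pz38 (b + h) (ρ ω'), D ω', H ω')) (pz38 (b + h) (ρ ω), D ω, H ω)
      rw [le_div_iff₀ p3]
      have h5 : 0 ≤ cm38 w ρ D (b + h) ω / cm38 w ρ D b ω := by positivity
      calc 2 ^ k ω * cm38 w ρ D (b + h) ω / cm38 w ρ D b ω *
            mass w (fun ω' => (pz38 (b + h) (ρ ω'), D ω', H ω')) (pz38 (b + h) (ρ ω), D ω, H ω)
          = cm38 w ρ D (b + h) ω / cm38 w ρ D b ω *
            (mass w (fun ω' => (pz38 (b + h) (ρ ω'), D ω', H ω')) (pz38 (b + h) (ρ ω), D ω, H ω) *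
              2 ^ k ω) := by ring
        _ ≤ _ := mul_le_mul_of_nonneg_left hh h5
  refine (Finset.sum_le_sum h2).trans (h1.trans ?_)
  unfold tot
  refine Finset.sum_le_sum fun ω _ => ?_
  by_cases hω : w ω = 0
  · simp [hω]
  refine mul_le_of_le_one_right (hw ω) ?_
  have p2 := mass_pos w hw (fun ω' => (pz38 b (ρ ω'), D ω')) hω
  have e2 : ∀ a, (if pz38 b a = (pz38 b (ρ ω), D ω, H ω).1 then
      mass w (fun ω' => (pz38 (b + h) (ρ ω'), D ω')) (a, (pz38 b (ρ ω), D ω, H ω).2.1) /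
        mass w (fun ω' => (pz38 b (ρ ω'), D ω'))
          ((pz38 b (ρ ω), D ω, H ω).1, (pz38 b (ρ ω), D ω, H ω).2.1) else 0) =
      (if pz38 b a = pz38 b (ρ ω) then
        mass w (fun ω' => (pz38 (b + h) (ρ ω'), D ω')) (a, D ω) else 0) /
        mass w (fun ω' => (pz38 b (ρ ω'), D ω')) (pz38 b (ρ ω), D ω) := by
    intro a
    simp only
    split <;> simp
  simp only [e2]
  rw [← Finset.sum_div, div_le_one p2]
  have e3 : ∀ a, (if pz38 b a = pz38 b (ρ ω) then
        mass w (fun ω' => (pz38 (b + h) (ρ ω'), D ω')) (a, D ω) else 0) ≤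
      mass w (fun ω' => (pz38 (b + h) (ρ ω'), (pz38 b (ρ ω'), D ω')))
        (a, (pz38 b (ρ ω), D ω)) := by
    intro a
    by_cases ha : pz38 b a = pz38 b (ρ ω)
    · rw [if_pos ha]
      refine mass_mono w hw _ _ _ _ fun ω' h' => ?_
      simp only [Prod.mk.injEq] at h' ⊢
      refine ⟨h'.1, ?_, h'.2⟩
      rw [← ha, ← h'.1]
      exact (pz38_comp (by omega) _).symm
    · rw [if_neg ha]
      exact mass_nonneg w hw _ _
  refine (Finset.sum_le_sum fun a _ => e3 a).trans (le_of_eq ?_)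
  exact sum_mass w (fun ω' => pz38 (b + h) (ρ ω')) (fun ω' => (pz38 b (ρ ω'), D ω'))
    (pz38 b (ρ ω), D ω)

theorem drop_core38 {γ : Type*} (ν : Λ → ℝ) (hν : ∀ l, 0 ≤ ν l) (g : Λ → V n → V n)
    (hg : ∀ l x y, g l (x + y) = g l x + g l y) {a b h : ℕ}
    (hν1 : tot ν = 1) (hab : a ≤ b) (hbn : b ≤ n)
    (hF1 : ∀ p < b, ∀ z : V n, pz38 p z = 0 → pz38 (p + 1) z ≠ 0 →
      qq38 ν g b z ≤ (1 / 2 : ℝ) ^ (b - p))
    (hF2 : ∀ z : V n, pz38 (b + h) z ≠ 0 → qq38 ν g b z ≤ (1 / 2 : ℝ) ^ (2 * a))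
    (H : Ω → γ) (k : Ω → ℕ)
    (hH : ∀ ω, w ω ≠ 0 →
      mass w (fun ω' => (pz38 (b + h) (ρ ω'), D ω', H ω')) (pz38 (b + h) (ρ ω), D ω, H ω) *
        2 ^ k ω ≤ mass w (fun ω' => (pz38 b (ρ ω'), D ω', H ω')) (pz38 b (ρ ω), D ω, H ω)) :
    NN38 (fun q : Ω × Λ => w q.1 * ν q.2) (fun q => g q.2 (ρ q.1)) (fun q => (D q.1, q.2)) b ≤
      ∑ ω, w ω * max (Real.log (rr38 w ρ D b ω) - k ω * Real.log 2)
        (Real.log (rr38 w ρ D (b - a) ω)) + tot w * Real.log (n + 2) := by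
  classical
  set Z : Ω → ℝ := fun ω => 2 ^ k ω * cm38 w ρ D (b + h) ω / cm38 w ρ D b ω with hZ
  set W : Ω → ℝ := fun ω => (1 / 2 : ℝ) ^ a +
    ∑ p ∈ range (b - a), rr38 w ρ D p ω / rr38 w ρ D (b - a) ω with hW
  have hn2 : (0 : ℝ) < (n : ℝ) + 2 := by positivity
  have hpt : ∀ ω ∈ (univ : Finset Ω), w ω * ∑ l, ν l * Real.log (rr38 (fun q : Ω × Λ => w q.1 * ν q.2)
        (fun q => g q.2 (ρ q.1)) (fun q => (D q.1, q.2)) b (ω, l)) ≤
      (w ω * max (Real.log (rr38 w ρ D b ω) - k ω * Real.log 2)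
        (Real.log (rr38 w ρ D (b - a) ω)) + w ω * (Real.log (n + 2) - 1)) +
        (w ω * Z ω + w ω * W ω) / (n + 2) := by
    intro ω _
    by_cases hω : w ω = 0
    · simp [hω]
    have hD := mass_pos w hw D hω
    have p1 := cm38_pos w hw ρ D (b + h) hω
    have p2 := cm38_pos w hw ρ D b hω
    have r1 := rr38_pos w hw ρ D b hω
    have r2 := rr38_pos w hw ρ D (b - a) hω
    have r3 := rr38_pos w hw ρ D (b + h) hω
    have hZpos : 0 < Z ω := by rw [hZ]; positivity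
    have hWpos : 0 < W ω := by
      rw [hW]
      have : 0 ≤ ∑ p ∈ range (b - a), rr38 w ρ D p ω / rr38 w ρ D (b - a) ω :=
        Finset.sum_nonneg fun p _ => (div_pos (rr38_pos w hw ρ D p hω) r2).le
      positivity
    have hJ := jensen_slab38 w hw ρ D ν hν g hg hω hν1 hab hF1 hF2
    set m : ℝ := max (Real.log (rr38 w ρ D b ω) - k ω * Real.log 2)
      (Real.log (rr38 w ρ D (b - a) ω)) with hm
    -- the three terms
    have e1 : (1 / 2 : ℝ) ^ h * rr38 w ρ D (b + h) ω = rr38 w ρ D b ω / 2 ^ k ω * Z ω := by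
      rw [hZ]
      unfold rr38
      have : (1 / 2 : ℝ) ^ h * 2 ^ (b + h) = 2 ^ b := by
        rw [pow_add, mul_comm, mul_assoc, ← mul_pow]; norm_num
      calc (1 / 2 : ℝ) ^ h * (2 ^ (b + h) * cm38 w ρ D (b + h) ω / mass w D (D ω))
          = ((1 / 2 : ℝ) ^ h * 2 ^ (b + h)) * cm38 w ρ D (b + h) ω / mass w D (D ω) := by ring
        _ = 2 ^ b * cm38 w ρ D (b + h) ω / mass w D (D ω) := by rw [this]
        _ = 2 ^ b * cm38 w ρ D b ω / mass w D (D ω) / 2 ^ k ω *
            (2 ^ k ω * cm38 w ρ D (b + h) ω / cm38 w ρ D b ω) := by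
              field_simp
    have e2 : (1 / 2 : ℝ) ^ a * rr38 w ρ D (b - a) ω + ∑ p ∈ range (b - a), rr38 w ρ D p ω =
        rr38 w ρ D (b - a) ω * W ω := by
      rw [hW]
      simp only
      rw [mul_add, Finset.mul_sum]
      congr 1
      · ring
      · refine Finset.sum_congr rfl fun p _ => ?_
        field_simp
    have l1 : rr38 w ρ D b ω / 2 ^ k ω ≤ Real.exp m := by
      have : Real.exp (Real.log (rr38 w ρ D b ω) - k ω * Real.log 2) =
          rr38 w ρ D b ω / 2 ^ k ω := by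
        rw [Real.exp_sub, Real.exp_log r1, Real.exp_nat_mul, Real.exp_log (by norm_num)]
      rw [← this]
      exact Real.exp_le_exp.2 (le_max_left _ _)
    have l2 : rr38 w ρ D (b - a) ω ≤ Real.exp m := by
      rw [← Real.exp_log r2]
      exact Real.exp_le_exp.2 (le_max_right _ _)
    have hsum : (1 / 2 : ℝ) ^ h * rr38 w ρ D (b + h) ω + (1 / 2 : ℝ) ^ a * rr38 w ρ D (b - a) ω +
        ∑ p ∈ range (b - a), rr38 w ρ D p ω ≤ Real.exp m * (Z ω + W ω) := by
      rw [add_assoc, e2, e1, mul_add (Real.exp m)]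
      exact add_le_add (mul_le_mul_of_nonneg_right l1 hZpos.le)
        (mul_le_mul_of_nonneg_right l2 hWpos.le)
    have hpos0 : 0 < (1 / 2 : ℝ) ^ h * rr38 w ρ D (b + h) ω +
        (1 / 2 : ℝ) ^ a * rr38 w ρ D (b - a) ω + ∑ p ∈ range (b - a), rr38 w ρ D p ω := by
      have : 0 ≤ ∑ p ∈ range (b - a), rr38 w ρ D p ω :=
        Finset.sum_nonneg fun p _ => (rr38_pos w hw ρ D p hω).le
      positivity
    have hlog : ∑ l, ν l * Real.log (rr38 (fun q : Ω × Λ => w q.1 * ν q.2)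
        (fun q => g q.2 (ρ q.1)) (fun q => (D q.1, q.2)) b (ω, l)) ≤
        m + (Real.log (n + 2) - 1) + (Z ω + W ω) / (n + 2) := by
      refine hJ.trans ((Real.log_le_log hpos0 hsum).trans ?_)
      rw [Real.log_mul (Real.exp_pos m).ne' (by positivity), Real.log_exp]
      have h3 := Real.log_le_sub_one_of_pos (x := (Z ω + W ω) / (n + 2)) (by positivity)
      rw [Real.log_div (by positivity) hn2.ne'] at h3
      linarith
    calc w ω * ∑ l, ν l * Real.log (rr38 (fun q : Ω × Λ => w q.1 * ν q.2)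
        (fun q => g q.2 (ρ q.1)) (fun q => (D q.1, q.2)) b (ω, l))
        ≤ w ω * (m + (Real.log (n + 2) - 1) + (Z ω + W ω) / (n + 2)) :=
          mul_le_mul_of_nonneg_left hlog (hw ω)
      _ = _ := by ring
  have hL : NN38 (fun q : Ω × Λ => w q.1 * ν q.2) (fun q => g q.2 (ρ q.1))
      (fun q => (D q.1, q.2)) b = ∑ ω, w ω * ∑ l, ν l * Real.log
        (rr38 (fun q : Ω × Λ => w q.1 * ν q.2)
        (fun q => g q.2 (ρ q.1)) (fun q => (D q.1, q.2)) b (ω, l)) := by
    unfold NN38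
    rw [Fintype.sum_prod_type]
    refine Finset.sum_congr rfl fun ω _ => ?_
    rw [Finset.mul_sum]
    refine Finset.sum_congr rfl fun l _ => ?_
    ring
  rw [hL]
  refine (Finset.sum_le_sum hpt).trans ?_
  rw [Finset.sum_add_distrib, Finset.sum_add_distrib, ← Finset.sum_div, Finset.sum_add_distrib,
    ← Finset.sum_mul]
  have hZs : ∑ ω, w ω * Z ω ≤ tot w := lr_hole38 w hw ρ D H b h k hH
  have hWs : ∑ ω, w ω * W ω ≤ (n + 1) * tot w := by
    have h1 : ∑ ω, w ω * W ω = (1 / 2 : ℝ) ^ a * tot w +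
        ∑ p ∈ range (b - a), ∑ ω, w ω * (rr38 w ρ D p ω / rr38 w ρ D (b - a) ω) := by
      rw [Finset.sum_comm]
      unfold tot
      rw [Finset.mul_sum, ← Finset.sum_add_distrib]
      refine Finset.sum_congr rfl fun ω _ => ?_
      rw [hW]
      simp only
      rw [mul_add, Finset.mul_sum]
      ring
    rw [h1]
    have h2 : ∑ p ∈ range (b - a), ∑ ω, w ω * (rr38 w ρ D p ω / rr38 w ρ D (b - a) ω) ≤
        ∑ _p ∈ range (b - a), tot w :=
      Finset.sum_le_sum fun p hp => lr_up38 w hw ρ D (Finset.mem_range.1 hp).le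
    rw [Finset.sum_const, Finset.card_range, nsmul_eq_mul] at h2
    have h3 : (1 / 2 : ℝ) ^ a ≤ 1 := pow_le_one₀ (by norm_num) (by norm_num)
    have ht := tot_nonneg w hw
    have h4 : ((b - a : ℕ) : ℝ) ≤ n := by
      have : b - a ≤ n := by omega
      exact_mod_cast this
    nlinarith
  have hfin : (∑ ω, w ω * Z ω + ∑ ω, w ω * W ω) / ((n : ℝ) + 2) ≤ tot w := by
    rw [div_le_iff₀ hn2]
    linarith
  have htw : ∑ ω, w ω = tot w := rfl
  rw [htw]
  linarith

theorem NN38_mono {p q : ℕ} (hpq : p ≤ q) : NN38 w ρ D p ≤ NN38 w ρ D q := by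
  have h1 := lr_up38 w hw ρ D hpq
  unfold NN38
  have h2 : ∀ ω ∈ (univ : Finset Ω), w ω * Real.log (rr38 w ρ D p ω) ≤
      w ω * Real.log (rr38 w ρ D q ω) + (w ω * (rr38 w ρ D p ω / rr38 w ρ D q ω) - w ω) := by
    intro ω _
    by_cases hω : w ω = 0
    · simp [hω]
    · have r1 := rr38_pos w hw ρ D p hω
      have r2 := rr38_pos w hw ρ D q hω
      have h3 := Real.log_le_sub_one_of_pos (x := rr38 w ρ D p ω / rr38 w ρ D q ω)
        (div_pos r1 r2)
      rw [Real.log_div r1.ne' r2.ne'] at h3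
      have h4 := mul_le_mul_of_nonneg_left h3 (hw ω)
      linarith
  refine (Finset.sum_le_sum h2).trans ?_
  rw [Finset.sum_add_distrib, Finset.sum_sub_distrib]
  unfold tot at h1
  linarith

theorem rr38_le_mul {p q : ℕ} (hpq : p ≤ q) (ω : Ω) :
    rr38 w ρ D q ω ≤ 2 ^ (q - p) * rr38 w ρ D p ω := by
  have h1 := cm38_anti w hw ρ D hpq ω
  have h2 := mass_nonneg w hw D (D ω)
  unfold rr38
  have e2 : (2 : ℝ) ^ q = 2 ^ (q - p) * 2 ^ p := by
    rw [← pow_add]; congr 1; omega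
  rw [e2]
  calc 2 ^ (q - p) * 2 ^ p * cm38 w ρ D q ω / mass w D (D ω)
      ≤ 2 ^ (q - p) * 2 ^ p * cm38 w ρ D p ω / mass w D (D ω) := by
        gcongr
    _ = _ := by ring

theorem log_rr38_le {p q : ℕ} (hpq : p ≤ q) {ω : Ω} (hω : w ω ≠ 0) :
    Real.log (rr38 w ρ D q ω) ≤ Real.log (rr38 w ρ D p ω) + (q - p : ℕ) * Real.log 2 := by
  have r1 := rr38_pos w hw ρ D p hω
  have r2 := rr38_pos w hw ρ D q hω
  have h1 := Real.log_le_log r2 (rr38_le_mul w hw ρ D hpq ω)
  rw [Real.log_mul (by positivity) r1.ne', Real.log_pow] at h1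
  linarith

theorem NN38_le {p q : ℕ} (hpq : p ≤ q) :
    NN38 w ρ D q ≤ NN38 w ρ D p + tot w * ((q - p : ℕ) * Real.log 2) := by
  unfold NN38 tot
  rw [Finset.sum_mul, ← Finset.sum_add_distrib]
  refine Finset.sum_le_sum fun ω _ => ?_
  by_cases hω : w ω = 0
  · simp [hω]
  · have h1 := mul_le_mul_of_nonneg_left (log_rr38_le w hw ρ D hpq hω) (hw ω)
    linarith

theorem NN38_zero : NN38 w ρ D 0 = 0 := by
  unfold NN38
  refine Finset.sum_eq_zero fun ω _ => ?_
  by_cases hω : w ω = 0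
  · simp [hω]
  · have hm := mass_pos w hw D hω
    unfold rr38
    rw [cm38_zero]
    rw [pow_zero, one_mul, div_self hm.ne', Real.log_one, mul_zero]

theorem NN38_nonneg (p : ℕ) : 0 ≤ NN38 w ρ D p := by
  rw [← NN38_zero w hw ρ D]
  exact NN38_mono w hw ρ D (Nat.zero_le p)

omit hw in
theorem NN38_congr {B' : Type*} {n' : ℕ} (ρ' : Ω → V n') (D' : Ω → B') (b : ℕ)
    (hD : ∀ ω ω', D ω' = D ω ↔ D' ω' = D' ω)
    (h : ∀ ω ω', D ω' = D ω → (pz38 b (ρ ω') = pz38 b (ρ ω) ↔ pz38 b (ρ' ω') = pz38 b (ρ' ω))) :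
    NN38 w ρ D b = NN38 w ρ' D' b := by
  unfold NN38 rr38 cm38
  refine Finset.sum_congr rfl fun ω _ => ?_
  have h1 : mass w (fun ω' => (pz38 b (ρ ω'), D ω')) (pz38 b (ρ ω), D ω) =
      mass w (fun ω' => (pz38 b (ρ' ω'), D' ω')) (pz38 b (ρ' ω), D' ω) := by
    refine mass_congr w _ _ _ _ fun ω' _ => ?_
    simp only [Prod.mk.injEq]
    constructor
    · rintro ⟨h2, h3⟩
      exact ⟨(h ω ω' h3).1 h2, (hD ω ω').1 h3⟩
    · rintro ⟨h2, h3⟩
      have h4 := (hD ω ω').2 h3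
      exact ⟨(h ω ω' h4).2 h2, h4⟩
  have h2 : mass w D (D ω) = mass w D' (D' ω) := mass_congr w _ _ _ _ fun ω' _ => hD ω ω'
  rw [h1, h2]

omit hw in
/-- a constant depending on the slab only does not matter -/
theorem NN38_affine (ν : Λ → ℝ) (g : Λ → V n → V n) (c : Λ → V n) (b : ℕ) :
    NN38 (fun q : Ω × Λ => w q.1 * ν q.2) (fun q => g q.2 (ρ q.1) + c q.2)
      (fun q => (D q.1, q.2)) b =
    NN38 (fun q : Ω × Λ => w q.1 * ν q.2) (fun q => g q.2 (ρ q.1)) (fun q => (D q.1, q.2)) b := by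
  refine NN38_congr _ _ _ _ _ b (fun _ _ => Iff.rfl) fun q q' h => ?_
  simp only [Prod.mk.injEq] at h
  rw [pz38_add, pz38_add, h.2]
  exact add_left_inj _

/-- the free bound -/
theorem drop_free38 (ν : Λ → ℝ) (hν : ∀ l, 0 ≤ ν l) (g : Λ → V n → V n)
    (hg : ∀ l x y, g l (x + y) = g l x + g l y) {b : ℕ}
    (hν1 : tot ν = 1) (hbn : b ≤ n)
    (hF1 : ∀ p < b, ∀ z : V n, pz38 p z = 0 → pz38 (p + 1) z ≠ 0 →
      qq38 ν g b z ≤ (1 / 2 : ℝ) ^ (b - p)) :
    NN38 (fun q : Ω × Λ => w q.1 * ν q.2) (fun q => g q.2 (ρ q.1)) (fun q => (D q.1, q.2)) b ≤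
      NN38 w ρ D b + tot w * Real.log (n + 2) := by
  have h1 := drop_core38 w hw ρ D ν hν g hg (a := 0) (b := b) (h := 0) hν1 (Nat.zero_le b) hbn hF1
    (by
      intro z _
      rw [mul_zero, pow_zero, ← hν1]
      unfold qq38 tot
      refine Finset.sum_le_sum fun l _ => ?_
      split
      · simp
      · simpa using hν l) (fun _ => ()) (fun _ => 0)
    (by
      intro ω _
      rw [pow_zero, mul_one, add_zero])
  refine h1.trans (le_of_eq ?_)
  unfold NN38
  congr 1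
  refine Finset.sum_congr rfl fun ω _ => ?_
  simp

/-- the drop at one level -/
theorem drop_b38 {γ : Type*} (ν : Λ → ℝ) (hν : ∀ l, 0 ≤ ν l) (g : Λ → V n → V n)
    (hg : ∀ l x y, g l (x + y) = g l x + g l y) {a b h : ℕ}
    (hν1 : tot ν = 1) (ha : 1 ≤ a) (hab : a ≤ b) (hbn : b ≤ n)
    (hF1 : ∀ p < b, ∀ z : V n, pz38 p z = 0 → pz38 (p + 1) z ≠ 0 →
      qq38 ν g b z ≤ (1 / 2 : ℝ) ^ (b - p))
    (hF2 : ∀ z : V n, pz38 (b + h) z ≠ 0 → qq38 ν g b z ≤ (1 / 2 : ℝ) ^ (2 * a))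
    (H : Ω → γ) (k : Ω → ℕ)
    (hH : ∀ ω, w ω ≠ 0 →
      mass w (fun ω' => (pz38 (b + h) (ρ ω'), D ω', H ω')) (pz38 (b + h) (ρ ω), D ω, H ω) *
        2 ^ k ω ≤ mass w (fun ω' => (pz38 b (ρ ω'), D ω', H ω')) (pz38 b (ρ ω), D ω, H ω))
    (η : ℝ) (hη0 : 0 ≤ η) (hη : η ≤ a * Real.log 2) :
    NN38 (fun q : Ω × Λ => w q.1 * ν q.2) (fun q => g q.2 (ρ q.1)) (fun q => (D q.1, q.2)) b ≤
      NN38 w ρ D b - η / (a * Real.log 2) * (NN38 w ρ D b - NN38 w ρ D (b - a)) +
        η * pr w {ω | k ω * Real.log 2 < η} + tot w * (Real.log (n + 2) + 1) := by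
  classical
  have h1 := drop_core38 w hw ρ D ν hν g hg hν1 hab hbn hF1 hF2 H k hH
  have hl2 : 0 < Real.log 2 := Real.log_pos (by norm_num)
  have ha' : (1 : ℝ) ≤ a := by exact_mod_cast ha
  have hal : 0 < a * Real.log 2 := by positivity
  set c1 : ℝ := η / (a * Real.log 2) with hc1
  have hc1n : 0 ≤ c1 := div_nonneg hη0 hal.le
  have hc11 : c1 ≤ 1 := by rw [hc1, div_le_one hal]; exact hη
  have hc1e : c1 * (a * Real.log 2) = η := by rw [hc1]; field_simp
  have h2 : ∀ ω ∈ (univ : Finset Ω), w ω * max (Real.log (rr38 w ρ D b ω) - k ω * Real.log 2)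
      (Real.log (rr38 w ρ D (b - a) ω)) ≤
      (w ω * Real.log (rr38 w ρ D b ω) - c1 * (w ω * Real.log (rr38 w ρ D b ω) -
        w ω * Real.log (rr38 w ρ D (b - a) ω))) +
      η * (ind {ω | k ω * Real.log 2 < η} w ω) +
      w ω * (rr38 w ρ D (b - a) ω / rr38 w ρ D b ω) := by
    intro ω _
    by_cases hω : w ω = 0
    · have : ind {ω | (k ω : ℝ) * Real.log 2 < η} w ω = 0 := by
        unfold ind
        by_cases hm : ω ∈ {ω | (k ω : ℝ) * Real.log 2 < η}
        · rw [Set.indicator_of_mem hm, hω]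
        · rw [Set.indicator_of_notMem hm]
      simp [hω, this]
    · have r1 := rr38_pos w hw ρ D b hω
      have r2 := rr38_pos w hw ρ D (b - a) hω
      set Δ : ℝ := Real.log (rr38 w ρ D b ω) - Real.log (rr38 w ρ D (b - a) ω) with hΔ
      have hΔ1 : Δ ≤ a * Real.log 2 := by
        have := log_rr38_le w hw ρ D (Nat.sub_le b a) hω
        have e : b - (b - a) = a := by omega
        rw [e] at this
        rw [hΔ]; linarith
      have hex : rr38 w ρ D (b - a) ω / rr38 w ρ D b ω = Real.exp (-Δ) := by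
        rw [hΔ, neg_sub, Real.exp_sub, Real.exp_log r1, Real.exp_log r2]
      have hK : 0 ≤ (k ω : ℝ) * Real.log 2 := by positivity
      have hE := Real.add_one_le_exp (-Δ)
      have hEp := Real.exp_pos (-Δ)
      have hc1Δ : c1 * Δ ≤ η := by
        rw [← hc1e]
        exact mul_le_mul_of_nonneg_left hΔ1 hc1n
      have hmain : max (Real.log (rr38 w ρ D b ω) - k ω * Real.log 2)
          (Real.log (rr38 w ρ D (b - a) ω)) ≤ Real.log (rr38 w ρ D b ω) - c1 * Δ +
          η * (if (k ω : ℝ) * Real.log 2 < η then 1 else 0) + Real.exp (-Δ) := by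
        by_cases hb : (k ω : ℝ) * Real.log 2 < η
        · rw [if_pos hb, mul_one]
          refine max_le ?_ ?_
          · linarith
          · have : Real.log (rr38 w ρ D (b - a) ω) = Real.log (rr38 w ρ D b ω) - Δ := by
              rw [hΔ]; ring
            rw [this]
            rcases le_or_gt 0 Δ with h0 | h0
            · linarith
            · linarith
        · rw [if_neg hb, mul_zero, add_zero]
          have hb' : η ≤ (k ω : ℝ) * Real.log 2 := not_lt.1 hb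
          refine max_le ?_ ?_
          · linarith
          · have : Real.log (rr38 w ρ D (b - a) ω) = Real.log (rr38 w ρ D b ω) - Δ := by
              rw [hΔ]; ring
            rw [this]
            rcases le_or_gt 0 Δ with h0 | h0
            · have : c1 * Δ ≤ 1 * Δ := mul_le_mul_of_nonneg_right hc11 h0
              linarith
            · have : c1 * Δ ≤ 0 := mul_nonpos_of_nonneg_of_nonpos hc1n h0.le
              linarith
      have hind : ind {ω | (k ω : ℝ) * Real.log 2 < η} w ω =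
          w ω * (if (k ω : ℝ) * Real.log 2 < η then 1 else 0) := by
        unfold ind
        by_cases hb : (k ω : ℝ) * Real.log 2 < η
        · rw [Set.indicator_of_mem (by exact hb), if_pos hb, mul_one]
        · rw [Set.indicator_of_notMem (by exact hb), if_neg hb, mul_zero]
      rw [hind, hex]
      have h3 := mul_le_mul_of_nonneg_left hmain (hw ω)
      refine h3.trans (le_of_eq ?_)
      rw [hΔ]
      ring
  have h3 := Finset.sum_le_sum h2
  rw [Finset.sum_add_distrib, Finset.sum_add_distrib, Finset.sum_sub_distrib, ← Finset.mul_sum,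
    Finset.sum_sub_distrib, ← Finset.mul_sum] at h3
  have h4 := lr_up38 w hw ρ D (Nat.sub_le b a)
  have e1 : ∑ ω, ind {ω | (k ω : ℝ) * Real.log 2 < η} w ω = pr w {ω | k ω * Real.log 2 < η} := rfl
  have e2 : ∑ ω, w ω * Real.log (rr38 w ρ D b ω) = NN38 w ρ D b := rfl
  have e3 : ∑ ω, w ω * Real.log (rr38 w ρ D (b - a) ω) = NN38 w ρ D (b - a) := rfl
  rw [e1, e2, e3] at h3
  linarith

/-- the sum of the drops over all levels -/
theorem drop_sum38 {γ : Type*} (ν : Λ → ℝ) (hν : ∀ l, 0 ≤ ν l) (g : Λ → V n → V n)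
    (hg : ∀ l x y, g l (x + y) = g l x + g l y) {a b0 h : ℕ}
    (hν1 : tot ν = 1) (ha : 1 ≤ a) (hab : a ≤ b0) (hbn : b0 + h ≤ n)
    (hF1 : ∀ b ≤ n, ∀ p < b, ∀ z : V n, pz38 p z = 0 → pz38 (p + 1) z ≠ 0 →
      qq38 ν g b z ≤ (1 / 2 : ℝ) ^ (b - p))
    (hF2 : ∀ b, b0 ≤ b → b + h ≤ n → ∀ z : V n, pz38 (b + h) z ≠ 0 →
      qq38 ν g b z ≤ (1 / 2 : ℝ) ^ (2 * a))
    (H : Ω → γ) (k : ℕ → Ω → ℕ)
    (hH : ∀ b, b0 ≤ b → b + h ≤ n → ∀ ω, w ω ≠ 0 →
      mass w (fun ω' => (pz38 (b + h) (ρ ω'), D ω', H ω')) (pz38 (b + h) (ρ ω), D ω, H ω) *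
        2 ^ k b ω ≤ mass w (fun ω' => (pz38 b (ρ ω'), D ω', H ω')) (pz38 b (ρ ω), D ω, H ω))
    (η : ℝ) (hη0 : 0 ≤ η) (hη : η ≤ a * Real.log 2) (δ : ℝ) (hδ0 : 0 ≤ δ)
    (hδ : ∀ b, b0 ≤ b → b + h ≤ n → pr w {ω | k b ω * Real.log 2 < η} ≤ δ) :
    η / Real.log 2 * (NN38 w ρ D n - tot w * ((h + a + b0 : ℕ) * Real.log 2)) -
        (n + 1) * (η * δ + tot w * (Real.log (n + 2) + 1)) ≤
      ∑ b ∈ range (n + 1), (NN38 w ρ D b -
        NN38 (fun q : Ω × Λ => w q.1 * ν q.2) (fun q => g q.2 (ρ q.1)) (fun q => (D q.1, q.2)) b) := by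
  classical
  have hl2 : 0 < Real.log 2 := Real.log_pos (by norm_num)
  have ha' : (1 : ℝ) ≤ a := by exact_mod_cast ha
  have ht := tot_nonneg w hw
  set F : ℕ → ℝ := fun b => NN38 w ρ D b with hF
  set Φ : ℕ → ℝ := fun b => NN38 (fun q : Ω × Λ => w q.1 * ν q.2) (fun q => g q.2 (ρ q.1))
    (fun q => (D q.1, q.2)) b with hΦ
  set c1 : ℝ := η / (a * Real.log 2) with hc1
  have hc1n : 0 ≤ c1 := div_nonneg hη0 (by positivity)
  set E : ℝ := η * δ + tot w * (Real.log (n + 2) + 1) with hE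
  have hn2 : 0 ≤ Real.log ((n : ℝ) + 2) := Real.log_nonneg (by
    have : (0 : ℝ) ≤ n := Nat.cast_nonneg n
    linarith)
  -- one level
  have hone : ∀ b ∈ range (n + 1), c1 * (if b0 ≤ b ∧ b + h ≤ n then F b - F (b - a) else 0) - E ≤
      F b - Φ b := by
    intro b hb
    have hbn' : b ≤ n := Nat.lt_succ_iff.1 (Finset.mem_range.1 hb)
    by_cases hc : b0 ≤ b ∧ b + h ≤ n
    · rw [if_pos hc]
      have h1 := drop_b38 w hw ρ D ν hν g hg hν1 ha (hab.trans hc.1) hbn' (hF1 b hbn')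
        (hF2 b hc.1 hc.2) H (k b) (hH b hc.1 hc.2) η hη0 hη
      have h2 := mul_le_mul_of_nonneg_left (hδ b hc.1 hc.2) hη0
      simp only [hF, hΦ]
      rw [hE]
      linarith
    · rw [if_neg hc, mul_zero]
      have h1 := drop_free38 w hw ρ D ν hν g hg hν1 hbn' (hF1 b hbn')
      have h2 : 0 ≤ η * δ := mul_nonneg hη0 hδ0
      simp only [hF, hΦ]
      rw [hE]
      nlinarith
  have hsum := Finset.sum_le_sum hone
  rw [Finset.sum_sub_distrib, ← Finset.mul_sum, Finset.sum_const, Finset.card_range,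
    nsmul_eq_mul] at hsum
  -- Abel summation
  set m : ℕ := n - h + 1 with hm
  have hfil : ∑ b ∈ range (n + 1), (if b0 ≤ b ∧ b + h ≤ n then F b - F (b - a) else 0) =
      ∑ b ∈ Ico b0 m, (F b - F (b - a)) := by
    rw [← Finset.sum_filter]
    refine Finset.sum_congr ?_ fun _ _ => rfl
    ext b
    simp only [Finset.mem_filter, Finset.mem_range, Finset.mem_Ico]
    omega
  have hshift : ∑ b ∈ Ico b0 m, F (b - a) = ∑ b ∈ Ico (b0 - a) (m - a), F b := by
    have h1 := Finset.sum_Ico_add' (fun x => F (x - a)) (b0 - a) (m - a) a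
    have e1 : b0 - a + a = b0 := by omega
    have e2 : m - a + a = m := by omega
    rw [e1, e2] at h1
    rw [← h1]
    refine Finset.sum_congr rfl fun x _ => ?_
    simp only [Nat.add_sub_cancel]
  have hS : ∑ b ∈ Ico b0 m, (F b - F (b - a)) =
      ∑ b ∈ Ico (m - a) m, F b - ∑ b ∈ Ico (b0 - a) b0, F b := by
    rw [Finset.sum_sub_distrib, hshift]
    have h1 := Finset.sum_Ico_consecutive F (show b0 - a ≤ b0 by omega) (show b0 ≤ m by omega)
    have h2 := Finset.sum_Ico_consecutive F (show b0 - a ≤ m - a by omega)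
      (show m - a ≤ m by omega)
    linarith
  have hmono : ∀ p q, p ≤ q → F p ≤ F q := fun p q hpq => NN38_mono w hw ρ D hpq
  have hlow : (a : ℝ) * (F n - tot w * ((h + a : ℕ) * Real.log 2)) ≤ ∑ b ∈ Ico (m - a) m, F b := by
    have h1 : ∑ b ∈ Ico (m - a) m, F (m - a) ≤ ∑ b ∈ Ico (m - a) m, F b :=
      Finset.sum_le_sum fun b hb => hmono _ _ (Finset.mem_Ico.1 hb).1
    rw [Finset.sum_const, Nat.card_Ico, nsmul_eq_mul] at h1
    have e : m - (m - a) = a := by omega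
    rw [e] at h1
    refine le_trans ?_ h1
    refine mul_le_mul_of_nonneg_left ?_ (by positivity)
    have h2 := NN38_le w hw ρ D (show m - a ≤ n by omega)
    have h3 : ((n - (m - a) : ℕ) : ℝ) ≤ ((h + a : ℕ) : ℝ) := by
      exact_mod_cast (show n - (m - a) ≤ h + a by omega)
    have h4 : tot w * (((n - (m - a) : ℕ) : ℝ) * Real.log 2) ≤
        tot w * (((h + a : ℕ) : ℝ) * Real.log 2) := by gcongr
    simp only [hF]
    linarith
  have hup : ∑ b ∈ Ico (b0 - a) b0, F b ≤ a * (tot w * (b0 * Real.log 2)) := by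
    have h1 : ∑ b ∈ Ico (b0 - a) b0, F b ≤ ∑ b ∈ Ico (b0 - a) b0, F b0 :=
      Finset.sum_le_sum fun b hb => hmono _ _ (Finset.mem_Ico.1 hb).2.le
    rw [Finset.sum_const, Nat.card_Ico, nsmul_eq_mul] at h1
    have e : b0 - (b0 - a) = a := by omega
    rw [e] at h1
    refine h1.trans (mul_le_mul_of_nonneg_left ?_ (by positivity))
    have h2 := NN38_le w hw ρ D (Nat.zero_le b0)
    rw [NN38_zero w hw ρ D, Nat.sub_zero, zero_add] at h2
    exact h2
  rw [hfil, hS] at hsum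
  have hc1a : c1 * a = η / Real.log 2 := by
    rw [hc1]
    field_simp
  have h5 : c1 * ((a : ℝ) * (F n - tot w * ((h + a : ℕ) * Real.log 2)) -
      a * (tot w * (b0 * Real.log 2))) ≤
      c1 * (∑ b ∈ Ico (m - a) m, F b - ∑ b ∈ Ico (b0 - a) b0, F b) :=
    mul_le_mul_of_nonneg_left (by linarith) hc1n
  have h6 : c1 * ((a : ℝ) * (F n - tot w * ((h + a : ℕ) * Real.log 2)) -
      a * (tot w * (b0 * Real.log 2))) =
      η / Real.log 2 * (NN38 w ρ D n - tot w * ((h + a + b0 : ℕ) * Real.log 2)) := by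
    rw [← hc1a]
    simp only [hF]
    push_cast
    ring
  rw [h6] at h5
  push_cast at hsum
  refine le_trans ?_ hsum
  linarith

end Abs

end Pool.Agent.NJ
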