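import Pool.Agent.NJ.Frt86
import Pool.Agent.NJ.Drop38

/-!
S19271, target B, row FRONT: the hypotheses `hF1`, `hF2` of `drop_sum38` for right letters.
-/

set_option autoImplicit false

namespace Pool.Agent.NJ

open Finset Pool.Agent.CutSeq

theorem qq_eq86 {B S n : ℕ} (b : ℕ) (z : V n) :
    qq38 (uw B S) (fun l => CutSeq.NJ.gl S l) b z = CutSeq.NJ.qb B S b z := by
  unfold qq38 CutSeq.NJ.qb
  rw [pr_eq86]
  refine Finset.sum_congr rfl fun l _ => ?_
  congr 1
  have hiff : pz38 b (CutSeq.NJ.gl S l z) = 0 ↔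
      l ∈ {lam : Wd B S | ∀ i : Fin n, i.val < b → CutSeq.NJ.gl S lam z i = 0} := by
    constructor
    · intro h i hi
      have h1 := congrFun h i
      unfold pz38 at h1
      rw [if_pos hi] at h1
      exact h1
    · intro h
      funext i
      unfold pz38
      by_cases hi : i.val < b
      · rw [if_pos hi]
        exact h i hi
      · rw [if_neg hi]
        rfl
  by_cases h : pz38 b (CutSeq.NJ.gl S l z) = 0
  · rw [if_pos h, I86_pos (hiff.1 h)]
  · rw [if_neg h, I86_neg (fun h' => h (hiff.2 h'))]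

/-- `hF1` of `drop_sum38` -/
theorem hF1_86 {B S n : ℕ} (hB : 0 < B) (hn : n ≤ B + 1) :
    ∀ b ≤ n, ∀ p < b, ∀ z : V n, pz38 p z = 0 → pz38 (p + 1) z ≠ 0 →
      qq38 (uw B S) (fun l => CutSeq.NJ.gl S l) b z ≤ (1 / 2 : ℝ) ^ (b - p) := by
  intro b hb p hp z h0 h1
  rw [qq_eq86]
  have hz : z ⟨p, lt_of_lt_of_le hp hb⟩ ≠ 0 := by
    intro hz
    apply h1
    funext j
    unfold pz38
    by_cases hj : j.val < p + 1
    · rw [if_pos hj]
      by_cases hj2 : j.val < p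
      · have h2 := congrFun h0 j
        unfold pz38 at h2
        rw [if_pos hj2] at h2
        exact h2
      · have hjp : j = ⟨p, lt_of_lt_of_le hp hb⟩ := Fin.ext (by show j.val = p; omega)
        rw [hjp, hz]
        rfl
    · rw [if_neg hj]
      rfl
  exact F1 hB hn hb z ⟨p, lt_of_lt_of_le hp hb⟩ hz (le_of_lt hp)

/-- `hF2` of `drop_sum38`: `S` letters, duration `s = S / B`; `a + h ≤ al * s`, `2 a + 1 ≤ b0`,
`n + s ≤ B`, `C (1 + log (S + 1)) ≤ s` -/
theorem hF2_86 : ∃ al C : ℝ, 0 < al ∧ 1 ≤ C ∧ ∀ (B S n a h b0 : ℕ), 0 < B →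
    (n : ℝ) + (S : ℝ) / B ≤ B → C * (1 + Real.log ((S : ℝ) + 1)) ≤ (S : ℝ) / B →
    (a : ℝ) + h ≤ al * ((S : ℝ) / B) → 2 * a + 1 ≤ b0 →
    ∀ b, b0 ≤ b → b + h ≤ n → ∀ z : V n, pz38 (b + h) z ≠ 0 →
      qq38 (uw B S) (fun l => CutSeq.NJ.gl S l) b z ≤ (1 / 2 : ℝ) ^ (2 * a) := by
  have hvv := Pool.Agent.UTM.Es.vv_ge
  obtain ⟨θ, C, hθ, hC, H⟩ := F2 (1 / 8) (by linarith)
  have hl2 : 0 < Real.log 2 := Real.log_pos (by norm_num)
  have hl2' : Real.log 2 ≤ 1 := by
    have := Real.log_two_lt_d9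
    linarith
  set K : ℝ := Real.log (C * (1 + Real.exp θ)) + 1 with hK
  have hCe : 1 ≤ C * (1 + Real.exp θ) := by
    have := Real.exp_pos θ
    nlinarith
  have hK1 : 1 ≤ K := by
    have := Real.log_nonneg hCe
    rw [hK]
    linarith
  refine ⟨min (1 / 32) (θ / 4), max 16 (2 * K / θ), by positivity, le_trans (by norm_num)
    (le_max_left _ _), ?_⟩
  intro B S n a h b0 hB hnB hlog hal hb0 b hb hbh z hz
  rw [qq_eq86]
  set s : ℝ := (S : ℝ) / B with hs
  have hs0 : 0 ≤ s := by positivity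
  have hlog0 : 0 ≤ Real.log ((S : ℝ) + 1) := Real.log_nonneg (by
    have : (0 : ℝ) ≤ S := Nat.cast_nonneg S
    linarith)
  have h16 : 16 ≤ s := by
    have h1 : (16 : ℝ) * 1 ≤ max 16 (2 * K / θ) * (1 + Real.log ((S : ℝ) + 1)) :=
      mul_le_mul (le_max_left _ _) (by linarith) (by norm_num) (by positivity)
    linarith
  have hKs : 2 * K / θ * (1 + Real.log ((S : ℝ) + 1)) ≤ s :=
    (mul_le_mul_of_nonneg_right (le_max_right _ _) (by linarith)).trans hlog
  have hal1 : (a : ℝ) + h ≤ 1 / 32 * s :=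
    hal.trans (mul_le_mul_of_nonneg_right (min_le_left _ _) hs0)
  have hal2 : (a : ℝ) + h ≤ θ / 4 * s :=
    hal.trans (mul_le_mul_of_nonneg_right (min_le_right _ _) hs0)
  have hh0 : (0 : ℝ) ≤ h := Nat.cast_nonneg h
  have ha0 : (0 : ℝ) ≤ a := Nat.cast_nonneg a
  obtain ⟨p, hp, h0, h1⟩ := exists_first38 (b + h) z hz
  have hpn : p < n := lt_of_lt_of_le hp hbh
  have hzp : z ⟨p, hpn⟩ ≠ 0 := by
    intro hzp
    apply h1
    funext j
    unfold pz38
    by_cases hj : j.val < p + 1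
    · rw [if_pos hj]
      by_cases hj2 : j.val < p
      · have h2 := congrFun h0 j
        unfold pz38 at h2
        rw [if_pos hj2] at h2
        exact h2
      · have hjp : j = ⟨p, hpn⟩ := Fin.ext (by show j.val = p; omega)
        rw [hjp, hzp]
        rfl
    · rw [if_neg hj]
      rfl
  have hfl : ((Nat.floor s : ℕ) : ℝ) ≤ s := Nat.floor_le hs0
  have hfl2 : s - 1 < ((Nat.floor s : ℕ) : ℝ) := Nat.sub_one_lt_floor s
  have hnX : n + Nat.floor s ≤ B := by
    have : ((n + Nat.floor s : ℕ) : ℝ) ≤ (B : ℝ) := by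
      push_cast
      linarith
    exact_mod_cast this
  have h2 := H B S b n (2 * a + 1) h (Nat.floor s) hB (by omega) (by omega) (by omega) hnX
    (by omega) (by
      push_cast
      linarith) z ⟨p, hpn⟩ hzp hp
  refine h2.trans ?_
  -- the exponential terms
  have e1 : Real.exp (-(θ * (Nat.floor s : ℕ))) ≤ Real.exp θ * Real.exp (-(θ * s)) := by
    rw [← Real.exp_add]
    apply Real.exp_le_exp.2
    nlinarith
  have e2 : C * ((S : ℝ) + 1) * (Real.exp (-(θ * s)) + Real.exp (-(θ * (Nat.floor s : ℕ)))) ≤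
      C * (1 + Real.exp θ) * ((S : ℝ) + 1) * Real.exp (-(θ * s)) := by
    have h3 : Real.exp (-(θ * s)) + Real.exp (-(θ * (Nat.floor s : ℕ))) ≤
        (1 + Real.exp θ) * Real.exp (-(θ * s)) := by linarith
    have h4 : 0 ≤ C * ((S : ℝ) + 1) := by positivity
    calc C * ((S : ℝ) + 1) * (Real.exp (-(θ * s)) + Real.exp (-(θ * (Nat.floor s : ℕ)))) ≤
        C * ((S : ℝ) + 1) * ((1 + Real.exp θ) * Real.exp (-(θ * s))) :=
          mul_le_mul_of_nonneg_left h3 h4
      _ = _ := by ring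
  have e3 : C * (1 + Real.exp θ) * ((S : ℝ) + 1) * Real.exp (-(θ * s)) ≤
      (1 / 2) ^ (2 * a + 1) := by
    have hS1 : (0 : ℝ) < (S : ℝ) + 1 := by positivity
    have hc0 : 0 < C * (1 + Real.exp θ) := by positivity
    have h5 : C * (1 + Real.exp θ) * ((S : ℝ) + 1) * Real.exp (-(θ * s)) =
        Real.exp (Real.log (C * (1 + Real.exp θ)) + Real.log ((S : ℝ) + 1) - θ * s) := by
      rw [sub_eq_add_neg, Real.exp_add, Real.exp_add, Real.exp_log hc0, Real.exp_log hS1]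
    have h6 : ((1 : ℝ) / 2) ^ (2 * a + 1) = Real.exp (-((2 * a + 1 : ℕ) : ℝ) * Real.log 2) := by
      rw [← Real.exp_log (show (0 : ℝ) < (1 / 2) ^ (2 * a + 1) by positivity), Real.log_pow,
        one_div, Real.log_inv]
      congr 1
      ring
    rw [h5, h6]
    apply Real.exp_le_exp.2
    have h7 : 2 * K * (1 + Real.log ((S : ℝ) + 1)) ≤ θ * s := by
      have h8 : 2 * K / θ * (1 + Real.log ((S : ℝ) + 1)) =
          2 * K * (1 + Real.log ((S : ℝ) + 1)) / θ := by ring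
      rw [h8, div_le_iff₀ hθ] at hKs
      linarith
    have h9 : K + Real.log ((S : ℝ) + 1) ≤ K * (1 + Real.log ((S : ℝ) + 1)) := by nlinarith
    have h10 : ((2 * a + 1 : ℕ) : ℝ) * Real.log 2 ≤ 2 * a + 1 := by
      push_cast
      nlinarith
    have h11 : 2 * (a : ℝ) ≤ θ * s / 2 := by linarith
    have h12 : Real.log (C * (1 + Real.exp θ)) = K - 1 := by rw [hK]; ring
    rw [h12]
    linarith
  have e4 : ((1 : ℝ) / 2) ^ (2 * a + 1) + (1 / 2) ^ (2 * a + 1) = (1 / 2) ^ (2 * a) := by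
    rw [pow_succ]
    ring
  linarith

end Pool.Agent.NJ
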