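import Pool.Agent.NJ.MI34
import Pool.Agent.NJ.FrN86
import Pool.Agent.NJ.HolS41
import Pool.Agent.CutSeq.Evt

/-!
S19271, target B, row DISPM: the lower bound for the drop of the profile under a slab of right
letters, in the letter model, from `drop_sum34`, the fronts (`hF2_86`) and the density of the
leads of `TT` (row HOLES, here the hypothesis `Holes37`).
-/

set_option autoImplicit false

namespace Pool.Agent.CutSeq.NJ

open Finset Module Bwd Pool.Agent.NJ

/-- row HOLES: the leads of `TT` have positive density -/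
def Holes37 : Prop :=
  ∃ c : ℝ, 0 < c ∧ c ≤ 1 ∧ ∀ κ δ : ℝ, 0 < κ → 0 < δ → ∃ N0 : ℕ, ∀ N : ℕ, N0 ≤ N →
    ∀ n l b y : ℕ, n ≤ 2 * N → 6 * (n * (4 * N)) ≤ l → (b : ℝ) + κ * N ≤ y → y ≤ n →
    pr (uw (4 * N) l) {ω | (Pool.Agent.NJ.rho (ext ω) l y n : ℝ) -
      Pool.Agent.NJ.rho (ext ω) l b n < c * ((y : ℝ) - b)} ≤ δ

theorem rho_dpf37 (α : Seq) (l a n : ℕ) : Pool.Agent.NJ.rho α l a n = dpf a (TT α l n) := rfl

theorem log_lin37 (e : ℝ) (he : 0 < e) : ∃ N1 : ℕ, ∀ N : ℕ, N1 ≤ N → Real.log N ≤ e * N := by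
  have h1 := Real.isLittleO_log_id_atTop.bound he
  obtain ⟨x, hx⟩ := Filter.eventually_atTop.1 h1
  obtain ⟨k, hk⟩ := exists_nat_ge x
  refine ⟨k, fun N hN => ?_⟩
  have h2 := hx N (hk.trans (by exact_mod_cast hN))
  rw [Real.norm_eq_abs, Real.norm_eq_abs, id] at h2
  have h3 : |(N : ℝ)| = N := abs_of_nonneg (Nat.cast_nonneg _)
  rw [h3] at h2
  exact (le_abs_self _).trans h2

/-- `log` of a quadratic expression -/
theorem log_sq37 (e : ℝ) (he : 0 < e) : ∃ N1 : ℕ, ∀ N : ℕ, N1 ≤ N → ∀ x : ℝ, 0 < x →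
    x ≤ 16 * (N : ℝ) ^ 2 → Real.log x ≤ e * N := by
  obtain ⟨N1, hN1⟩ := log_lin37 (e / 4) (by linarith)
  obtain ⟨k, hk⟩ := exists_nat_ge (Real.log 16 / (e / 2))
  refine ⟨N1 + k + 1, fun N hN x hx hxN => ?_⟩
  have h0 : (0 : ℝ) < N := by
    have : 0 < N := by omega
    exact_mod_cast this
  have h1 := hN1 N (by omega)
  have h2 : Real.log x ≤ Real.log (16 * (N : ℝ) ^ 2) := Real.log_le_log hx hxN
  rw [Real.log_mul (by norm_num) (by positivity), Real.log_pow] at h2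
  have h3 : Real.log 16 ≤ e / 2 * N := by
    rw [div_le_iff₀ (by linarith)] at hk
    have h4 : (k : ℝ) ≤ N := by
      have : k ≤ N := by omega
      exact_mod_cast this
    nlinarith
  push_cast at h2
  linarith

theorem KK_le_n37 {B l n : ℕ} (hB : 0 < B) :
    KK (uw B l) (fun ω => row (ext ω) l n) (fun ω => mm (ext ω) l n) ≤ n := by
  have h := KK_le (uw B l) (uw_nonneg B l) (fun ω => row (ext ω) l n) (fun ω => mm (ext ω) l n)
  rw [tot_uw hB, one_mul] at h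
  have h1 : (Fintype.card (V n) : ℝ) = 2 ^ n := by
    have h2 : Fintype.card (V n) = 2 ^ n := by
      show Fintype.card (Fin n → ZMod 2) = 2 ^ n
      rw [Fintype.card_fun, ZMod.card, Fintype.card_fin]
    rw [h2]
    push_cast
    rfl
  rw [h1, Real.log_pow] at h
  have h3 : Real.log 2 ≤ 1 := by
    have := Real.log_two_lt_d9
    linarith
  have h4 : (0 : ℝ) ≤ n := Nat.cast_nonneg _
  nlinarith

/-- **DISPM** -/
theorem dispm37 (hH : Holes37) : ∃ c8 C3 : ℝ, 0 < c8 ∧ 0 ≤ C3 ∧ ∀ κ ε : ℝ, 0 < κ → 0 < ε →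
    κ ≤ 1 → ∃ N0 : ℕ, ∀ N : ℕ, N0 ≤ N → ∀ n : ℕ, N ≤ n → n + 1 ≤ 2 * N → ∀ l : ℕ,
    6 * (n * (4 * N)) ≤ l →
    c8 * ⌈κ * N⌉₊ * (KK (uw (4 * N) l) (fun ω => row (ext ω) l n) (fun ω => mm (ext ω) l n) -
      C3 * ⌈κ * N⌉₊) - ε * (N : ℝ) ^ 2 ≤
    ∑ b ∈ range (n + 1), (KK (uw (4 * N) l) (fun ω => pfx b (row (ext ω) l n))
        (fun ω => mm (ext ω) l n) -
      KK (w2 (4 * N) l (⌈κ * N⌉₊ * (4 * N))) (fun q => pfx b (Rt n q))
        (fun q => (mm (ext q.1) l n, q.2))) := by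
  obtain ⟨al0, C, hal0, hC, hF⟩ := hF2_86
  obtain ⟨c, hc, hc1, hHol⟩ := hH
  obtain ⟨al, hal⟩ : ∃ al : ℝ, al = min al0 (1 / 2) := ⟨_, rfl⟩
  have halp : 0 < al := by rw [hal]; exact lt_min hal0 (by norm_num)
  have hal1 : al ≤ al0 := by rw [hal]; exact min_le_left _ _
  have hal2 : al ≤ 1 / 2 := by rw [hal]; exact min_le_right _ _
  have hl2 : 0 < Real.log 2 := Real.log_pos (by norm_num)
  have hl21 : Real.log 2 ≤ 1 := by
    have := Real.log_two_lt_d9
    linarith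
  refine ⟨c * al / 8, 2, by positivity, by norm_num, ?_⟩
  intro κ ε hκ hε hκ1
  obtain ⟨N1, hN1⟩ := hHol (al / 4 * κ) (ε / 16) (by positivity) (by positivity)
  obtain ⟨N2, hN2⟩ := log_sq37 (κ / (2 * C)) (by positivity)
  obtain ⟨N3, hN3⟩ := log_sq37 (ε / 16) (by positivity)
  obtain ⟨k1, hk1⟩ := exists_nat_ge (8 / (c * al * κ))
  obtain ⟨k2, hk2⟩ := exists_nat_ge (2 * C / κ)
  obtain ⟨k3, hk3⟩ := exists_nat_ge (32 / ε)
  refine ⟨N1 + N2 + N3 + k1 + k2 + k3 + 3, ?_⟩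
  intro N hN n hNn hnN l hl
  have hN0 : 3 ≤ N := by omega
  have hNR : (3 : ℝ) ≤ N := by exact_mod_cast hN0
  have hk1N : (k1 : ℝ) ≤ N := by
    have : k1 ≤ N := by omega
    exact_mod_cast this
  have hk2N : (k2 : ℝ) ≤ N := by
    have : k2 ≤ N := by omega
    exact_mod_cast this
  have hk3N : (k3 : ℝ) ≤ N := by
    have : k3 ≤ N := by omega
    exact_mod_cast this
  have hcal : 0 < c * al * κ := by positivity
  have e1 : 8 ≤ c * al * κ * N := by
    rw [div_le_iff₀ hcal] at hk1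
    nlinarith
  have e2 : 2 * C ≤ κ * N := by
    rw [div_le_iff₀ hκ] at hk2
    nlinarith
  have e3 : 32 ≤ ε * N := by
    rw [div_le_iff₀ hε] at hk3
    nlinarith
  obtain ⟨s, hs⟩ : ∃ s : ℕ, s = ⌈κ * N⌉₊ := ⟨_, rfl⟩
  rw [← hs]
  have hs1 : κ * N ≤ s := by rw [hs]; exact Nat.le_ceil _
  have hs2 : (s : ℝ) < κ * N + 1 := by rw [hs]; exact Nat.ceil_lt_add_one (by positivity)
  have hsN : (s : ℝ) < N + 1 := by nlinarith
  have hsN' : s ≤ N := by
    have : s < N + 1 := by exact_mod_cast hsN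
    omega
  have hsNR : (s : ℝ) ≤ N := by exact_mod_cast hsN'
  have hs0 : (0 : ℝ) ≤ s := Nat.cast_nonneg _
  have hnR : (N : ℝ) ≤ n := by exact_mod_cast hNn
  have hnR2 : (n : ℝ) + 1 ≤ 2 * N := by exact_mod_cast hnN
  have hB : 0 < 4 * N := by omega
  -- `h` and `a`
  obtain ⟨h, hh⟩ : ∃ h : ℕ, h = ⌊al / 2 * (s : ℝ)⌋₊ := ⟨_, rfl⟩
  obtain ⟨a, ha⟩ : ∃ a : ℕ, a = ⌊c * al / 8 * (s : ℝ)⌋₊ := ⟨_, rfl⟩
  have hh1 : (h : ℝ) ≤ al / 2 * s := by rw [hh]; exact Nat.floor_le (by positivity)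
  have hh2 : al / 2 * s - 1 < h := by rw [hh]; exact Nat.sub_one_lt_floor _
  have ha1 : (a : ℝ) ≤ c * al / 8 * s := by rw [ha]; exact Nat.floor_le (by positivity)
  have ha2 : c * al / 8 * s - 1 < a := by rw [ha]; exact Nat.sub_one_lt_floor _
  have hcs : 8 ≤ c * al * s := by
    have h1 : c * al * (κ * N) ≤ c * al * s := mul_le_mul_of_nonneg_left hs1 (by positivity)
    nlinarith
  have hals : 8 ≤ al * s := by
    have h1 : c * (al * s) ≤ 1 * (al * s) := mul_le_mul_of_nonneg_right hc1 (by positivity)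
    nlinarith
  have ha3 : 1 ≤ a := by
    rw [ha]
    apply Nat.le_floor
    push_cast
    linarith
  have ha4 : (a : ℝ) ≤ al / 8 * s := by
    refine ha1.trans ?_
    have h1 : c * (al * s) ≤ 1 * (al * s) := mul_le_mul_of_nonneg_right hc1 (by positivity)
    nlinarith
  have halsN : al * s ≤ 1 / 2 * N := by
    have h1 : al * s ≤ 1 / 2 * s := mul_le_mul_of_nonneg_right hal2 hs0
    linarith
  have hbn : 2 * a + 1 + h ≤ n := by
    have h1 : (2 : ℝ) * a + 1 + h ≤ n := by linarith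
    exact_mod_cast h1
  -- the fronts
  have hSB : ((s * (4 * N) : ℕ) : ℝ) / ((4 * N : ℕ) : ℝ) = s := by
    push_cast
    rw [mul_div_assoc, div_self (by positivity), mul_one]
  have hfr := hF (4 * N) (s * (4 * N)) n a h (2 * a + 1) hB
    (by rw [hSB]; push_cast; linarith)
    (by
      rw [hSB]
      have h1 := hN2 N (by omega) (((s * (4 * N) : ℕ) : ℝ) + 1) (by positivity) (by
        push_cast
        nlinarith)
      have h2 : C * (1 + Real.log (((s * (4 * N) : ℕ) : ℝ) + 1)) ≤ C * (1 + κ / (2 * C) * N) :=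
        mul_le_mul_of_nonneg_left (by linarith) (by linarith)
      have h3 : C * (1 + κ / (2 * C) * N) = C + κ * N / 2 := by
        have : C ≠ 0 := by linarith
        field_simp
      linarith)
    (by
      rw [hSB]
      have h1 : al * s ≤ al0 * s := mul_le_mul_of_nonneg_right hal1 hs0
      linarith) le_rfl
  -- the sum of the drops
  have hsum := drop_sum34 (B := 4 * N) (L := l) (S := s * (4 * N)) (n := n) hB (by omega)
    (a := a) (b0 := 2 * a + 1) (h := h) ha3 (by omega) (by omega)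
    (fun b hb hbh z hz => by
      rw [← qq_eq86]
      exact hfr b hb hbh z hz) (ε / 16) (by positivity)
    (fun b hb hbh => by
      refine le_trans ?_ (hN1 N (by omega) n l b (b + h) (by omega) hl ?_ hbh)
      · refine Evt.pr_mono _ Evt.uw_nonneg ?_
        intro ω hω
        have h1 : dpf (b + h) (TT (ext ω) l n) - dpf b (TT (ext ω) l n) < a := hω
        show (Pool.Agent.NJ.rho (ext ω) l (b + h) n : ℝ) - Pool.Agent.NJ.rho (ext ω) l b n <
          c * (((b + h : ℕ) : ℝ) - b)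
        rw [rho_dpf37, rho_dpf37]
        have h2 : dpf (b + h) (TT (ext ω) l n) < dpf b (TT (ext ω) l n) + a := by omega
        have h3 : (dpf (b + h) (TT (ext ω) l n) : ℝ) < dpf b (TT (ext ω) l n) + a := by
          exact_mod_cast h2
        have h4 : (a : ℝ) ≤ c * h := by
          have h5 : c * (al / 2 * s - 1) ≤ c * h := mul_le_mul_of_nonneg_left hh2.le hc.le
          have h6 : c * (al / 2 * s - 1) = c * al / 2 * s - c := by ring
          rw [h6] at h5
          nlinarith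
        push_cast
        linarith
      · push_cast
        have h1 : al / 4 * κ * N ≤ al / 4 * s := by
          have := mul_le_mul_of_nonneg_left hs1 (show 0 ≤ al / 4 by linarith)
          linarith
        linarith)
  refine le_trans ?_ hsum
  -- numbers
  obtain ⟨f, hf⟩ : ∃ f : ℝ, f = KK (uw (4 * N) l) (fun ω => row (ext ω) l n)
    (fun ω => mm (ext ω) l n) := ⟨_, rfl⟩
  have hfn : f ≤ n := by rw [hf]; exact KK_le_n37 hB
  rw [← hf]
  have ha0 : (0 : ℝ) ≤ a := Nat.cast_nonneg _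
  have hh0 : (0 : ℝ) ≤ h := Nat.cast_nonneg _
  have g1 : ((h + a + (2 * a + 1) : ℕ) : ℝ) * Real.log 2 ≤ 2 * s := by
    have h1 : ((h + a + (2 * a + 1) : ℕ) : ℝ) ≤ al * s + 1 := by
      push_cast
      linarith
    have h2 : ((h + a + (2 * a + 1) : ℕ) : ℝ) * Real.log 2 ≤ ((h + a + (2 * a + 1) : ℕ) : ℝ) * 1 :=
      mul_le_mul_of_nonneg_left hl21 (Nat.cast_nonneg _)
    have h3 : al * s ≤ 1 / 2 * s := mul_le_mul_of_nonneg_right hal2 hs0
    linarith
  have g2 : a * (f - 2 * s) ≤ a * (f - ((h + a + (2 * a + 1) : ℕ) : ℝ) * Real.log 2) :=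
    mul_le_mul_of_nonneg_left (by linarith) ha0
  have g3 : c * al / 8 * s * (f - 2 * s) - 2 * N ≤ a * (f - 2 * s) := by
    by_cases h0 : 0 ≤ f - 2 * s
    · have h1 : (c * al / 8 * s - 1) * (f - 2 * s) ≤ a * (f - 2 * s) :=
        mul_le_mul_of_nonneg_right ha2.le h0
      nlinarith
    · have h1 : c * al / 8 * s * (f - 2 * s) ≤ a * (f - 2 * s) :=
        mul_le_mul_of_nonpos_right ha1 (by linarith)
      linarith
  have g4 : Real.log ((n : ℝ) + 2) ≤ ε / 16 * N :=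
    hN3 N (by omega) _ (by positivity) (by nlinarith)
  have haN : (a : ℝ) ≤ N := by linarith
  have g5 : ((n : ℝ) + 1) * (a * Real.log 2 * (ε / 16) + (Real.log ((n : ℝ) + 2) + 1)) ≤
      2 * N * (N * (ε / 16) + (ε / 16 * N + 1)) := by
    have h1 : a * Real.log 2 * (ε / 16) ≤ N * (ε / 16) := by
      apply mul_le_mul_of_nonneg_right _ (by positivity)
      nlinarith
    have h2 : 0 ≤ Real.log ((n : ℝ) + 2) := Real.log_nonneg (by linarith)
    apply mul_le_mul hnR2 (by linarith) (by positivity) (by positivity)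
  have g6 : 2 * (N : ℝ) * (N * (ε / 16) + (ε / 16 * N + 1)) + 2 * N ≤ ε * N ^ 2 := by
    have h1 : 2 * (N : ℝ) * (N * (ε / 16) + (ε / 16 * N + 1)) + 2 * N =
        ε / 4 * N ^ 2 + 4 * N := by ring
    rw [h1]
    have h2 : 32 * (N : ℝ) ≤ ε * N * N := mul_le_mul_of_nonneg_right e3 (by linarith)
    nlinarith
  linarith

end Pool.Agent.CutSeq.NJ
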