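import Pool.Agent.NJ.Drop38
import Pool.Agent.NJ.HU34

/-!
The hole hypothesis of `drop_core38` in the model: given the history of level `n`, the first `p`
coordinates of the row of level `n` are uniform on the prefix of `TT`, so that the mass of the
coarser prefix is at least `2 ^ k` times the mass of the finer one, `k` the jump of the dimension.
-/

set_option autoImplicit false

namespace Pool.Agent.CutSeq.NJ

open Finset Module Bwd Pool.Agent.NJ

variable {n B L : ℕ}

/-- the two ways to write that two vectors have the same prefix -/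
theorem pz38_eq_iff34 (p : ℕ) (x y : V n) : pz38 p x = pz38 p y ↔ pfx p x = pfx p y := by
  constructor
  · intro h
    funext j
    show zx x j.val = zx y j.val
    unfold zx
    by_cases hj : j.val < n
    · rw [dif_pos hj, dif_pos hj]
      have e := congrFun h ⟨j.val, hj⟩
      simp only [pz38, if_pos j.isLt] at e
      exact e
    · rw [dif_neg hj, dif_neg hj]
  · intro h
    funext j
    simp only [pz38]
    by_cases hj : j.val < p
    · rw [if_pos hj, if_pos hj]
      have e : zx x j.val = zx y j.val := congrFun h ⟨j.val, hj⟩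
      unfold zx at e
      rw [dif_pos j.isLt, dif_pos j.isLt] at e
      exact e
    · rw [if_neg hj, if_neg hj]

/-- the prefix dimension is monotone -/
theorem dpf_mono34 {b b' : ℕ} (h : b ≤ b') (T : Submodule (ZMod 2) (V n)) :
    dpf b T ≤ dpf b' T := by
  unfold dpf
  have e : T.map (pfxL n b) = (T.map (pfxL n b')).map (pfxL b' b) := by
    rw [← Submodule.map_comp]
    congr 1
    apply LinearMap.ext
    intro R
    exact (pfx_pfx h R).symm
  rw [e]
  exact Submodule.finrank_map_le _ _

theorem dpf_le34 (b : ℕ) (T : Submodule (ZMod 2) (V n)) : dpf b T ≤ b := by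
  unfold dpf
  refine (Submodule.finrank_le _).trans ?_
  rw [finrank_fintype_fun_eq_card, Fintype.card_fin]

/-- the full prefix has the dimension of the space -/
theorem dpf_self34 (T : Submodule (ZMod 2) (V n)) : dpf n T = finrank (ZMod 2) T := by
  unfold dpf
  have e : pfxL n n = LinearMap.id := by
    apply LinearMap.ext
    intro R
    exact pfx_self R
  rw [e, Submodule.map_id]

/-- the history of level `n` as data -/
def hist34 (n L : ℕ) {B : ℕ} (ω : Wd B L) : Fin L → ℕ × ZMod 2 := fun i => msk n (ext ω i.val)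

theorem hist34_eq_iff (ω ω' : Wd B L) : hist34 n L ω' = hist34 n L ω ↔ Same n L ω ω' := by
  constructor
  · intro h i hi
    exact (congrFun h ⟨i, hi⟩).symm
  · intro h
    funext i
    exact (h i.val i.isLt).symm

theorem uw_same34 (ω ω' : Wd B L) : uw B L ω = uw B L ω' := rfl

open Classical in
/-- the mass of a prefix class together with the history -/
theorem mass_hist34 (p : ℕ) (ω : Wd B L) :
    mass (uw B L) (fun ω' => (pz38 p (row (ext ω') L n), mm (ext ω') L n, hist34 n L ω'))
        (pz38 p (row (ext ω) L n), mm (ext ω) L n, hist34 n L ω) * 2 ^ dpf p (TT (ext ω) L n) =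
      ∑ ω', if Same n L ω ω' then uw B L ω' else 0 := by
  rw [← HU0 p L le_rfl (uw B L) (fun ω ω' _ => uw_same34 ω ω') ω]
  congr 1
  unfold mass
  refine Finset.sum_congr rfl fun ω' _ => ?_
  have e : ((pz38 p (row (ext ω') L n), mm (ext ω') L n, hist34 n L ω') =
      (pz38 p (row (ext ω) L n), mm (ext ω) L n, hist34 n L ω)) ↔
      (Same n L ω ω' ∧ pfx p (row (ext ω') L n) = pfx p (row (ext ω) L n)) := by
    rw [Prod.mk.injEq, Prod.mk.injEq, pz38_eq_iff34, hist34_eq_iff]
    constructor
    · rintro ⟨h1, _, h3⟩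
      exact ⟨h3, h1⟩
    · rintro ⟨h1, h2⟩
      exact ⟨h2, h1.mm_eq.symm, h1⟩
  by_cases hc : Same n L ω ω' ∧ pfx p (row (ext ω') L n) = pfx p (row (ext ω) L n)
  · rw [if_pos hc]
    exact if_pos (e.2 hc)
  · rw [if_neg hc]
    exact if_neg (fun h => hc (e.1 h))

/-- (hH) the hole hypothesis of `drop_core38` in the model, with equality -/
theorem hole_eq34 (b h : ℕ) (ω : Wd B L) :
    mass (uw B L) (fun ω' => (pz38 (b + h) (row (ext ω') L n), mm (ext ω') L n, hist34 n L ω'))
        (pz38 (b + h) (row (ext ω) L n), mm (ext ω) L n, hist34 n L ω) *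
        2 ^ (dpf (b + h) (TT (ext ω) L n) - dpf b (TT (ext ω) L n)) =
      mass (uw B L) (fun ω' => (pz38 b (row (ext ω') L n), mm (ext ω') L n, hist34 n L ω'))
        (pz38 b (row (ext ω) L n), mm (ext ω) L n, hist34 n L ω) := by
  have h1 := mass_hist34 (n := n) (b + h) ω
  have h2 := mass_hist34 (n := n) b ω
  have h3 : dpf b (TT (ext ω) L n) ≤ dpf (b + h) (TT (ext ω) L n) :=
    dpf_mono34 (Nat.le_add_right b h) _
  rw [← h2] at h1
  have h4 : (2 : ℝ) ^ dpf (b + h) (TT (ext ω) L n) =
      2 ^ (dpf (b + h) (TT (ext ω) L n) - dpf b (TT (ext ω) L n)) *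
        2 ^ dpf b (TT (ext ω) L n) := by
    rw [← pow_add, Nat.sub_add_cancel h3]
  rw [h4, ← mul_assoc] at h1
  exact mul_right_cancel₀ (pow_ne_zero _ two_ne_zero) h1

theorem hole_le34 (b h : ℕ) (ω : Wd B L) :
    mass (uw B L) (fun ω' => (pz38 (b + h) (row (ext ω') L n), mm (ext ω') L n, hist34 n L ω'))
        (pz38 (b + h) (row (ext ω) L n), mm (ext ω) L n, hist34 n L ω) *
        2 ^ (dpf (b + h) (TT (ext ω) L n) - dpf b (TT (ext ω) L n)) ≤
      mass (uw B L) (fun ω' => (pz38 b (row (ext ω') L n), mm (ext ω') L n, hist34 n L ω'))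
        (pz38 b (row (ext ω) L n), mm (ext ω) L n, hist34 n L ω) := (hole_eq34 b h ω).le

/-- the profile at `b` is the relative entropy of the first `b` coordinates -/
theorem KK_pfx34 {Ω D : Type*} [Fintype Ω] (w : Ω → ℝ) (ρ : Ω → V n) (Y : Ω → D) {b : ℕ}
    (hb : b ≤ n) : KK w (fun ω => pfx b (ρ ω)) Y = NN38 w ρ Y b := by
  rw [← KK_cut38 w ρ Y hb]
  have e : (fun ω => pfx b (ρ ω)) = fun ω => cut hb (ρ ω) := by
    funext ω j
    show zx (ρ ω) j.val = _
    unfold zx
    rw [dif_pos (lt_of_lt_of_le j.isLt hb)]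
    rfl
  rw [e]

end Pool.Agent.CutSeq.NJ
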