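import Pool.Agent.NJ.FrN86
import Pool.Agent.NJ.HUm34

/-!
S19271, target B, row B4b: DISPM.  The displacement row in the model: fronts (FrN86), holes
(HUm34 and the interface `HolesP44`), the sum of the drops (`drop_sum38`) and the parameters.

`drop_model44` : `drop_sum38` in the model; `dispM44` : `HolesP44 → DispP44`.
-/

set_option autoImplicit false

namespace Pool.Agent.CutSeq.NJ

open Finset Module Bwd Pool.Agent.NJ

variable {n B L t : ℕ}

/-- the constant part of a word of right letters -/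
def gc44 : (S : ℕ) → Wd B S → V n
  | 0, _ => 0
  | S + 1, lam => rx ((lam 0).1.val, (lam 0).2) (gc44 S (fun i => lam i.succ))

theorem rx_affine44 (p : ℕ × ZMod 2) (x c : V n) : rx p (x + c) = rl p x + rx p c := by
  funext k
  show x k + c k + _ = (x k + _) + (c k + _)
  unfold zx
  by_cases hk : k.val = p.1
  · simp only [if_pos hk]
    by_cases h : k.val + 1 < n
    · simp only [dif_pos h, Pi.add_apply]
      ring
    · simp only [dif_neg h]
      ring
  · simp only [if_neg hk]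
    ring

theorem Rt_affine44 (om : Wd B L) : ∀ (S : ℕ) (lam : Wd B S),
    Rt n (om, lam) = gl S lam (row (ext om) L n) + gc44 S lam := by
  intro S
  induction S with
  | zero =>
    intro lam
    rw [Rt_zero]
    exact (add_zero _).symm
  | succ S ih =>
    intro lam
    have h1 : lam = cns (lam 0) (fun i => lam i.succ) := by
      funext i
      refine Fin.cases rfl (fun i => rfl) i
    have h2 : Rt n (om, lam) = Rt n (om, cns (lam 0) (fun i => lam i.succ)) := by rw [← h1]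
    rw [h2, Rt_cns, ih, rx_affine44]
    rfl

theorem Fm44 (b l : ℕ) (hb : b ≤ n) :
    KK (uw B l) (fun w => pfx b (row (ext w) l n)) (fun w => mm (ext w) l n) =
      NN38 (uw B l) (fun w => row (ext w) l n) (fun w => mm (ext w) l n) b :=
  KK_pfx34 _ _ _ hb

theorem Phm44 (b l S : ℕ) (hb : b ≤ n) :
    KK (w2 B l S) (fun q => pfx b (Rt n q)) (fun q => (mm (ext q.1) l n, q.2)) =
      NN38 (fun q : Wd B l × Wd B S => uw B l q.1 * uw B S q.2)
        (fun q => gl S q.2 (row (ext q.1) l n)) (fun q => (mm (ext q.1) l n, q.2)) b := by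
  have h1 : KK (w2 B l S) (fun q => pfx b (Rt n q)) (fun q => (mm (ext q.1) l n, q.2)) =
      NN38 (w2 B l S) (fun q => Rt n q) (fun q => (mm (ext q.1) l n, q.2)) b :=
    KK_pfx34 _ _ _ hb
  rw [h1, ← NN38_affine (uw B l) (fun w => row (ext w) l n) (fun w => mm (ext w) l n) (uw B S)
    (fun lam => gl S lam) (fun lam => gc44 S lam) b]
  congr 1
  funext q
  exact Rt_affine44 q.1 S q.2

/-- the drop in the model, before the choice of the parameters -/
theorem drop_model44 : ∃ al C : ℝ, 0 < al ∧ al ≤ 1 ∧ 1 ≤ C ∧ ∀ (B S n l a h b0 : ℕ), 0 < B →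
    n ≤ B + 1 →
    (n : ℝ) + (S : ℝ) / B ≤ B → C * (1 + Real.log ((S : ℝ) + 1)) ≤ (S : ℝ) / B →
    (a : ℝ) + h ≤ al * ((S : ℝ) / B) → 2 * a + 1 ≤ b0 → 1 ≤ a → b0 + h ≤ n →
    ∀ (η : ℝ), 0 ≤ η → η ≤ a * Real.log 2 → ∀ (δ : ℝ), 0 ≤ δ →
    (∀ b, b0 ≤ b → b + h ≤ n → pr (uw B l) {ω | ((dpf (b + h) (TT (ext ω) l n) -
      dpf b (TT (ext ω) l n) : ℕ) : ℝ) * Real.log 2 < η} ≤ δ) →
    η / Real.log 2 * (KK (uw B l) (fun w => row (ext w) l n) (fun w => mm (ext w) l n) -
        ((h + a + b0 : ℕ) * Real.log 2)) - (n + 1) * (η * δ + (Real.log (n + 2) + 1)) ≤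
      ∑ b ∈ range (n + 1), (KK (uw B l) (fun w => pfx b (row (ext w) l n)) (fun w => mm (ext w) l n)
        - KK (w2 B l S) (fun q => pfx b (Rt n q)) (fun q => (mm (ext q.1) l n, q.2))) := by
  obtain ⟨al, C, hal, hC, H⟩ := hF2_86
  refine ⟨min al 1, C, lt_min hal one_pos, min_le_right _ _, hC, ?_⟩
  intro B S n l a h b0 hB hnB hnS hlog hah hb0 ha hbn η hη0 hη δ hδ0 hδ
  have hF2 := H B S n a h b0 hB hnS hlog (hah.trans (mul_le_mul_of_nonneg_right (min_le_left _ _)
    (by positivity))) hb0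
  have h1 := drop_sum38 (uw B l) (Bwd.uw_nonneg B l) (fun w => row (ext w) l n)
    (fun w => mm (ext w) l n) (uw B S) (Bwd.uw_nonneg B S) (fun lam => gl S lam)
    (fun lam x y => gl_add lam x y) (a := a) (b0 := b0) (h := h) (Brg.tot_uw B S hB) ha
    (by omega) hbn (hF1_86 hB hnB) hF2 (hist34 n l)
    (fun b ω => dpf (b + h) (TT (ext ω) l n) - dpf b (TT (ext ω) l n))
    (fun b _ _ ω _ => hole_le34 b h ω) η hη0 hη δ hδ0 hδ
  rw [Brg.tot_uw B l hB, one_mul, one_mul] at h1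
  have e1 : NN38 (uw B l) (fun w => row (ext w) l n) (fun w => mm (ext w) l n) n =
      KK (uw B l) (fun w => row (ext w) l n) (fun w => mm (ext w) l n) := by
    rw [← Fm44 n l le_rfl]
    congr 1
    funext w
    exact pfx_self _
  rw [e1] at h1
  refine h1.trans (le_of_eq (Finset.sum_congr rfl fun b hb => ?_))
  have hb' : b ≤ n := Nat.lt_succ_iff.1 (Finset.mem_range.1 hb)
  rw [Fm44 b l hb', Phm44 b l S hb']

/-- HOLES, the interface: the constant `c` is absolute -/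
def HolesP44 : Prop := ∃ c : ℝ, 0 < c ∧ ∀ kap del : ℝ, 0 < kap → 0 < del → ∃ N0 : ℕ,
  ∀ N : ℕ, N0 ≤ N → ∀ n l : ℕ, n ≤ 2 * N → 6 * (n * (4 * N)) ≤ l → ∀ b y : ℕ,
    (b : ℝ) + kap * N ≤ y → y ≤ n →
    pr (uw (4 * N) l) {w | (dpf y (TT (ext w) l n) : ℝ) - dpf b (TT (ext w) l n)
      < c * ((y : ℝ) - b)} ≤ del

/-- (DISP), model form -/
def DispP44 : Prop := ∃ c8 C3 : ℝ, 0 < c8 ∧ 0 ≤ C3 ∧ ∀ kap eps : ℝ, 0 < kap → kap ≤ 1 → 0 < eps →
  ∃ N0 : ℕ, ∀ N : ℕ, N0 ≤ N → ∀ n : ℕ, N ≤ n → n + 1 ≤ 2 * N → ∀ l : ℕ, 6 * (n * (4 * N)) ≤ l →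
    c8 * (⌈kap * N⌉₊ : ℝ) * (KK (uw (4 * N) l) (fun w => row (ext w) l n)
      (fun w => mm (ext w) l n) - C3 * (⌈kap * N⌉₊ : ℝ)) - eps * (N : ℝ) ^ 2 ≤
    ∑ b ∈ range (n + 1), (KK (uw (4 * N) l) (fun w => pfx b (row (ext w) l n))
        (fun w => mm (ext w) l n)
      - KK (w2 (4 * N) l (⌈kap * N⌉₊ * (4 * N))) (fun q => pfx b (Rt n q))
        (fun q => (mm (ext q.1) l n, q.2)))

theorem log_sqrt44 (x : ℝ) (hx : 0 < x) : Real.log x ≤ 2 * √x := by
  have h1 : 0 < √x := Real.sqrt_pos.2 hx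
  have h2 : Real.log x = 2 * Real.log (√x) := by
    rw [Real.log_sqrt hx.le]
    ring
  have h3 := Real.log_le_sub_one_of_pos h1
  rw [h2]
  linarith

theorem dispM44 (hH : HolesP44) : DispP44 := by
  obtain ⟨c, hc, HH⟩ := hH
  obtain ⟨al, C, hal, hal1, hC, H⟩ := drop_model44
  have hl2 : 0 < Real.log 2 := Real.log_pos (by norm_num)
  have hl2' : Real.log 2 ≤ 1 := by
    have := Real.log_two_lt_d9
    linarith
  set c8 : ℝ := min (al / 8) (c * al / 4) with hc8
  have hc8p : 0 < c8 := lt_min (by positivity) (by positivity)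
  have hc8a : c8 ≤ al / 8 := min_le_left _ _
  have hc8b : c8 ≤ c * al / 4 := min_le_right _ _
  refine ⟨c8, 3, hc8p, by norm_num, ?_⟩
  intro kap eps hkap hkap1 heps
  obtain ⟨N1, HN1⟩ := HH (al * kap / 4) eps (by positivity) heps
  set M : ℝ := 16 / (al * kap) + (9 * C / kap) ^ 2 + (20 / eps) ^ 2 + 16 with hM
  refine ⟨max N1 ⌈M⌉₊, ?_⟩
  intro N hN n hNn hn l hl
  have hNM : M ≤ (N : ℝ) := (Nat.le_ceil M).trans (by exact_mod_cast (le_max_right _ _).trans hN)
  have hN1 : N1 ≤ N := (le_max_left _ _).trans hN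
  have hM1 : 16 / (al * kap) ≤ (N : ℝ) := by
    have h1 : 0 ≤ (9 * C / kap) ^ 2 := by positivity
    have h2 : 0 ≤ (20 / eps) ^ 2 := by positivity
    linarith
  have hM2 : (9 * C / kap) ^ 2 ≤ (N : ℝ) := by
    have h1 : 0 ≤ 16 / (al * kap) := by positivity
    have h2 : 0 ≤ (20 / eps) ^ 2 := by positivity
    linarith
  have hM3 : (20 / eps) ^ 2 ≤ (N : ℝ) := by
    have h1 : 0 ≤ 16 / (al * kap) := by positivity
    have h2 : 0 ≤ (9 * C / kap) ^ 2 := by positivity
    linarith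
  have hM4 : 16 ≤ (N : ℝ) := by
    have h1 : 0 ≤ 16 / (al * kap) := by positivity
    have h2 : 0 ≤ (9 * C / kap) ^ 2 := by positivity
    have h3 : 0 ≤ (20 / eps) ^ 2 := by positivity
    linarith
  have hN16 : 16 ≤ N := by exact_mod_cast hM4
  have hN0 : (0 : ℝ) < N := by linarith
  -- the window
  set s : ℕ := ⌈kap * N⌉₊ with hs
  have hs1 : kap * N ≤ (s : ℝ) := Nat.le_ceil _
  have hs2 : (s : ℝ) < kap * N + 1 := Nat.ceil_lt_add_one (by positivity)
  have hkN : kap * N ≤ (N : ℝ) := by nlinarith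
  have hs3 : (s : ℝ) ≤ N + 1 := by linarith
  have hals : 16 ≤ al * s := by
    rw [div_le_iff₀ (by positivity)] at hM1
    nlinarith
  have hs4 : 16 ≤ (s : ℝ) := by
    have : al * s ≤ 1 * s := mul_le_mul_of_nonneg_right hal1 (by positivity)
    linarith
  set a : ℕ := ⌊al * s / 4⌋₊ with ha
  set h : ℕ := ⌈al * s / 4⌉₊ with hh
  have ha1 : (a : ℝ) ≤ al * s / 4 := Nat.floor_le (by positivity)
  have ha2 : al * s / 4 - 1 < a := Nat.sub_one_lt_floor _
  have hh1 : al * s / 4 ≤ (h : ℝ) := Nat.le_ceil _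
  have hh2 : (h : ℝ) < al * s / 4 + 1 := Nat.ceil_lt_add_one (by positivity)
  have hals2 : al * s ≤ s := by
    have : al * s ≤ 1 * s := mul_le_mul_of_nonneg_right hal1 (by positivity)
    linarith
  have hapos : 1 ≤ a := by
    have : (1 : ℝ) ≤ (a : ℝ) := by linarith
    exact_mod_cast this
  have hB : 0 < 4 * N := by omega
  have hBr : ((4 * N : ℕ) : ℝ) = 4 * N := by push_cast; ring
  have hSB : ((s * (4 * N) : ℕ) : ℝ) / ((4 * N : ℕ) : ℝ) = s := by
    rw [Nat.cast_mul]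
    rw [mul_div_assoc, div_self (by rw [hBr]; positivity), mul_one]
  have hnr : (n : ℝ) + 1 ≤ 2 * N := by exact_mod_cast hn
  -- the logarithm
  have hSlog : C * (1 + Real.log (((s * (4 * N) : ℕ) : ℝ) + 1)) ≤ s := by
    have e1 : ((s * (4 * N) : ℕ) : ℝ) + 1 ≤ (3 * N) ^ 2 := by
      push_cast
      nlinarith
    have e2 : Real.log (((s * (4 * N) : ℕ) : ℝ) + 1) ≤ Real.log ((3 * N) ^ 2) :=
      Real.log_le_log (by positivity) e1
    rw [Real.log_pow] at e2
    have e3 := log_sqrt44 (3 * N) (by positivity)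
    have e4 : √(3 * (N : ℝ)) ≤ 2 * √(N : ℝ) := by
      rw [Real.sqrt_le_left (by positivity), mul_pow, Real.sq_sqrt hN0.le]
      linarith
    have e5 : (1 : ℝ) ≤ √(N : ℝ) := by
      rw [Real.one_le_sqrt]
      linarith
    have e6 : 9 * C / kap ≤ √(N : ℝ) := (le_abs_self _).trans (Real.abs_le_sqrt hM2)
    rw [div_le_iff₀ hkap] at e6
    have e7 : (√(N : ℝ)) ^ 2 = N := Real.sq_sqrt hN0.le
    have e8 : 9 * C * √(N : ℝ) ≤ kap * N := by
      calc 9 * C * √(N : ℝ) ≤ √(N : ℝ) * kap * √(N : ℝ) :=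
            mul_le_mul_of_nonneg_right e6 (by positivity)
        _ = kap * (√(N : ℝ)) ^ 2 := by ring
        _ = kap * N := by rw [e7]
    push_cast at e2
    have e9 : 1 + Real.log (((s * (4 * N) : ℕ) : ℝ) + 1) ≤ 9 * √(N : ℝ) := by
      push_cast
      linarith
    have e10 := mul_le_mul_of_nonneg_left e9 (show 0 ≤ C by linarith)
    linarith
  have hfin := H (4 * N) (s * (4 * N)) n l a h (2 * a + 1) hB (by omega)
    (by rw [hSB, hBr]; linarith) (by rw [hSB]; exact hSlog) (by rw [hSB]; linarith) le_rfl hapos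
    (by
      have : ((2 * a + 1 + h : ℕ) : ℝ) ≤ (n : ℝ) := by
        push_cast
        have : (N : ℝ) ≤ n := by exact_mod_cast hNn
        linarith
      exact_mod_cast this)
    (c8 * s * Real.log 2) (by positivity) (by
      refine mul_le_mul_of_nonneg_right ?_ hl2.le
      have : c8 * s ≤ al / 8 * s := mul_le_mul_of_nonneg_right hc8a (by positivity)
      linarith) eps heps.le (by
      intro b hb hbh
      refine le_trans ?_ (HN1 N hN1 n l (by omega) hl b (b + h) (by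
        push_cast
        nlinarith) hbh)
      refine Bwd.tot_ind_mono _ (Bwd.uw_nonneg _ _) fun w hw => ?_
      have hw' : ((dpf (b + h) (TT (ext w) l n) - dpf b (TT (ext w) l n) : ℕ) : ℝ) * Real.log 2
        < c8 * s * Real.log 2 := hw
      have hw2 := lt_of_mul_lt_mul_right hw' hl2.le
      have hmono := dpf_mono34 (Nat.le_add_right b h) (TT (ext w) l n)
      rw [Nat.cast_sub hmono] at hw2
      show ((dpf (b + h) (TT (ext w) l n) : ℕ) : ℝ) - dpf b (TT (ext w) l n) <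
        c * (((b + h : ℕ) : ℝ) - b)
      refine hw2.trans_le ?_
      push_cast
      have e1 : c8 * s ≤ c * al / 4 * s := mul_le_mul_of_nonneg_right hc8b (by positivity)
      have e2 : c * (al * s / 4) ≤ c * h := mul_le_mul_of_nonneg_left hh1 hc.le
      linarith)
  refine le_trans ?_ hfin
  have e0 : c8 * s * Real.log 2 / Real.log 2 = c8 * s := by
    field_simp
  rw [e0]
  have e1 : ((h + a + (2 * a + 1) : ℕ) : ℝ) * Real.log 2 ≤ 3 * s := by
    have h1 : ((h + a + (2 * a + 1) : ℕ) : ℝ) ≤ 3 * s := by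
      push_cast
      linarith
    calc ((h + a + (2 * a + 1) : ℕ) : ℝ) * Real.log 2 ≤ ((h + a + (2 * a + 1) : ℕ) : ℝ) * 1 :=
          mul_le_mul_of_nonneg_left hl2' (by positivity)
      _ ≤ 3 * s := by rw [mul_one]; exact h1
  have e2 : c8 * s * (((h + a + (2 * a + 1) : ℕ) : ℝ) * Real.log 2) ≤ c8 * s * (3 * s) :=
    mul_le_mul_of_nonneg_left e1 (by positivity)
  have e3 : ((n : ℝ) + 1) * (c8 * s * Real.log 2 * eps + (Real.log (n + 2) + 1)) ≤
      eps * (N : ℝ) ^ 2 := by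
    have f1 : c8 * s * Real.log 2 ≤ N / 4 := by
      have g1 : c8 * s ≤ al / 8 * s := mul_le_mul_of_nonneg_right hc8a (by positivity)
      have g2 : c8 * s * Real.log 2 ≤ c8 * s * 1 :=
        mul_le_mul_of_nonneg_left hl2' (by positivity)
      linarith
    have f2 : Real.log ((n : ℝ) + 2) + 1 ≤ 5 * √(N : ℝ) := by
      have g1 : Real.log ((n : ℝ) + 2) ≤ Real.log (4 * N) :=
        Real.log_le_log (by positivity) (by linarith)
      have g2 := log_sqrt44 (4 * N) (by positivity)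
      have g3 : √(4 * (N : ℝ)) = 2 * √(N : ℝ) := by
        rw [Real.sqrt_mul (by norm_num), show (4 : ℝ) = 2 ^ 2 by norm_num,
          Real.sqrt_sq (by norm_num)]
      have g4 : (1 : ℝ) ≤ √(N : ℝ) := by
        rw [Real.one_le_sqrt]
        linarith
      rw [g3] at g2
      linarith
    have f3 : 20 / eps ≤ √(N : ℝ) := (le_abs_self _).trans (Real.abs_le_sqrt hM3)
    rw [div_le_iff₀ heps] at f3
    have f4 : (√(N : ℝ)) ^ 2 = N := Real.sq_sqrt hN0.le
    have f5 : 20 * √(N : ℝ) ≤ eps * N := by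
      calc 20 * √(N : ℝ) ≤ √(N : ℝ) * eps * √(N : ℝ) :=
            mul_le_mul_of_nonneg_right f3 (by positivity)
        _ = eps * (√(N : ℝ)) ^ 2 := by ring
        _ = eps * N := by rw [f4]
    have f6 : c8 * s * Real.log 2 * eps + (Real.log (n + 2) + 1) ≤ eps * N / 2 := by
      have g1 : c8 * s * Real.log 2 * eps ≤ N / 4 * eps := mul_le_mul_of_nonneg_right f1 heps.le
      linarith
    calc ((n : ℝ) + 1) * (c8 * s * Real.log 2 * eps + (Real.log (n + 2) + 1))
        ≤ ((n : ℝ) + 1) * (eps * N / 2) := mul_le_mul_of_nonneg_left f6 (by positivity)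
      _ ≤ 2 * N * (eps * N / 2) := mul_le_mul_of_nonneg_right hnr (by positivity)
      _ = eps * (N : ℝ) ^ 2 := by ring
  linarith

end Pool.Agent.CutSeq.NJ
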