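import Pool.Agent.CutSeq.SoftSlot

/-!
Production of entropy: the loss of relative entropy in one letter controls the total variation
distance between the law of the array and its image under each single letter.
-/

set_option autoImplicit false

namespace Pool.Agent.CutSeq.NJ

open Finset

/-- sum of `f log f` -/
noncomputable def ent {A : Type*} [Fintype A] (f : A → ℝ) : ℝ := ∑ a, f a * Real.log (f a)

/-- average of a function with its image under `σ` -/
noncomputable def avg2 {A : Type*} (σ : A → A) (f : A → ℝ) (a : A) : ℝ := (f a + f (σ a)) / 2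

theorem log_side (p m : ℝ) (hp : 0 ≤ p) (hm : 0 < m) :
    2 * p - 2 * (Real.sqrt p * Real.sqrt m) ≤ p * Real.log p - p * Real.log m := by
  rcases hp.eq_or_lt with h | h
  · rw [← h]
    simp
  · have ha : 0 < Real.sqrt p := Real.sqrt_pos.2 h
    have hc : 0 < Real.sqrt m := Real.sqrt_pos.2 hm
    have h1 : Real.log (Real.sqrt m / Real.sqrt p) ≤ Real.sqrt m / Real.sqrt p - 1 :=
      Real.log_le_sub_one_of_pos (by positivity)
    rw [Real.log_div hc.ne' ha.ne', Real.log_sqrt hm.le, Real.log_sqrt h.le] at h1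
    have h2 : p * (Real.sqrt m / Real.sqrt p) = Real.sqrt p * Real.sqrt m := by
      rw [← mul_div_assoc, div_eq_iff ha.ne']
      nlinarith [Real.mul_self_sqrt h.le]
    have h3 := mul_le_mul_of_nonneg_left h1 h.le
    rw [mul_sub p (Real.sqrt m / Real.sqrt p) 1, h2] at h3
    nlinarith

theorem pair_ineq (p q : ℝ) (hp : 0 ≤ p) (hq : 0 ≤ q) :
    (p - q) ^ 2 ≤ 4 * (p + q) * (p * Real.log p + q * Real.log q
      - 2 * ((p + q) / 2 * Real.log ((p + q) / 2))) := by
  rcases (add_nonneg hp hq).eq_or_lt with h | h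
  · have h1 : p = 0 := by linarith
    have h2 : q = 0 := by linarith
    rw [h1, h2]
    simp
  · have hm : 0 < (p + q) / 2 := by linarith
    have e1 := log_side p _ hp hm
    have e2 := log_side q _ hq hm
    have ha := Real.mul_self_sqrt hp
    have hb := Real.mul_self_sqrt hq
    have hc := Real.mul_self_sqrt hm.le
    have ha0 := Real.sqrt_nonneg p
    have hb0 := Real.sqrt_nonneg q
    set a := Real.sqrt p
    set b := Real.sqrt q
    set c := Real.sqrt ((p + q) / 2)
    have e3 : (a - b) ^ 2 / 2 ≤ p * Real.log p + q * Real.log q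
      - 2 * ((p + q) / 2 * Real.log ((p + q) / 2)) := by
      nlinarith [sq_nonneg (c - (a + b) / 2)]
    have e4 : (p - q) ^ 2 = (a - b) ^ 2 * (a + b) ^ 2 := by
      rw [← ha, ← hb]
      ring
    have e5 : (a + b) ^ 2 ≤ 2 * (p + q) := by
      rw [← ha, ← hb]
      nlinarith [sq_nonneg (a - b)]
    calc (p - q) ^ 2 = (a - b) ^ 2 * (a + b) ^ 2 := e4
      _ ≤ (a - b) ^ 2 * (2 * (p + q)) := mul_le_mul_of_nonneg_left e5 (sq_nonneg _)
      _ = 4 * (p + q) * ((a - b) ^ 2 / 2) := by ring
      _ ≤ _ := mul_le_mul_of_nonneg_left e3 (by linarith)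

/-- production at one involution controls the distance to the image -/
theorem tv_ent {A : Type*} [Fintype A] (f : A → ℝ) (hf : ∀ a, 0 ≤ f a) (σ : A → A)
    (hσ : ∀ a, σ (σ a) = a) :
    (∑ a, |f a - f (σ a)|) ^ 2 ≤ 16 * (∑ a, f a) * (ent f - ent (avg2 σ f)) := by
  have hs : ∀ g : A → ℝ, ∑ a, g (σ a) = ∑ a, g a := fun g =>
    Equiv.sum_comp (⟨σ, σ, hσ, hσ⟩ : A ≃ A) g
  have h1 : (∑ a, |f a - f (σ a)|) ^ 2 ≤ (∑ a, 4 * (f a + f (σ a))) *
      ∑ a, (f a * Real.log (f a) + f (σ a) * Real.log (f (σ a))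
        - 2 * ((f a + f (σ a)) / 2 * Real.log ((f a + f (σ a)) / 2))) := by
    have hΦ : ∀ a, 0 ≤ f a * Real.log (f a) + f (σ a) * Real.log (f (σ a))
        - 2 * ((f a + f (σ a)) / 2 * Real.log ((f a + f (σ a)) / 2)) := by
      intro a
      rcases (add_nonneg (hf a) (hf (σ a))).eq_or_lt with h | h
      · have h1 : f a = 0 := by linarith [hf a, hf (σ a)]
        have h2 : f (σ a) = 0 := by linarith [hf a, hf (σ a)]
        rw [h1, h2]
        simp
      · have h3 := pair_ineq _ _ (hf a) (hf (σ a))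
        by_contra h4
        push Not at h4
        have h5 : 4 * (f a + f (σ a)) * (f a * Real.log (f a) + f (σ a) * Real.log (f (σ a))
          - 2 * ((f a + f (σ a)) / 2 * Real.log ((f a + f (σ a)) / 2))) < 0 :=
          mul_neg_of_pos_of_neg (by linarith) h4
        nlinarith [sq_nonneg (f a - f (σ a))]
    refine Finset.sum_sq_le_sum_mul_sum_of_sq_le_mul _ (fun a _ => ?_) (fun a _ => hΦ a)
      (fun a _ => ?_)
    · exact mul_nonneg (by norm_num) (add_nonneg (hf _) (hf _))
    · rw [sq_abs]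
      exact pair_ineq _ _ (hf _) (hf _)
  refine h1.trans (le_of_eq ?_)
  have h2 : ∑ a, 4 * (f a + f (σ a)) = 8 * ∑ a, f a := by
    rw [← mul_sum, sum_add_distrib, hs f]
    ring
  have h3 : ∑ a, (f a * Real.log (f a) + f (σ a) * Real.log (f (σ a))
        - 2 * ((f a + f (σ a)) / 2 * Real.log ((f a + f (σ a)) / 2)))
      = 2 * (ent f - ent (avg2 σ f)) := by
    rw [sum_sub_distrib, sum_add_distrib, hs (fun a => f a * Real.log (f a)), ← mul_sum]
    unfold ent avg2
    ring
  rw [h2, h3]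
  ring

theorem ent_avg2_le {A : Type*} [Fintype A] (f : A → ℝ) (hf : ∀ a, 0 ≤ f a) (σ : A → A)
    (hσ : ∀ a, σ (σ a) = a) : ent (avg2 σ f) ≤ ent f := by
  rcases (sum_nonneg fun a (_ : a ∈ univ) => hf a).eq_or_lt with h | h
  · have h0 : ∀ a, f a = 0 := fun a => by
      have := (sum_eq_zero_iff_of_nonneg fun a (_ : a ∈ univ) => hf a).1 h.symm a (mem_univ a)
      exact this
    have : f = 0 := funext h0
    rw [this]
    unfold ent avg2
    simp
  · have h1 := tv_ent f hf σ hσ
    have h2 : 0 ≤ 16 * (∑ a, f a) * (ent f - ent (avg2 σ f)) := (sq_nonneg _).trans h1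
    have h3 : 0 < 16 * (∑ a, f a) := by linarith
    have := nonneg_of_mul_nonneg_right h2 h3
    linarith

/-! #### letters -/

/-- total variation distance (twice) between the law after `L` letters and its image under the
letter `b` -/
noncomputable def tvb (B L n b : ℕ) : ℝ := ∑ x : Un n, |lw B L n x - lw B L n (Brg.ro b x)|

theorem tvb_nonneg (B L n b : ℕ) : 0 ≤ tvb B L n b := sum_nonneg fun _ _ => abs_nonneg _

theorem lw_succ {B : ℕ} (hB : 0 < B) (L n : ℕ) (x : Un n) :
    lw B (L + 1) n x = ∑ b ∈ range B, (1 / (B : ℝ)) * avg2 (Brg.ro b) (lw B L n) x := by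
  have hB' : (0 : ℝ) < B := by exact_mod_cast hB
  have h := Slt.AW_succ hB L (Brg.dl x)
  have h1 : Slt.AW B (L + 1) (Brg.dl x) = lw B (L + 1) n x := by
    unfold Slt.AW Brg.dl
    rw [Finset.sum_eq_single x]
    · rw [if_pos rfl, mul_one]
    · intro z _ hz
      rw [if_neg hz, mul_zero]
    · intro h
      exact absurd (mem_univ _) h
  have h2 : Slt.AW B L (Slt.Tg B (Brg.dl x)) = ∑ b ∈ range B, (lw B L n x + lw B L n (Brg.ro b x)) := by
    unfold Slt.AW Slt.Tg
    rw [Finset.sum_congr rfl fun z _ => Finset.mul_sum _ _ _, Finset.sum_comm]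
    refine Finset.sum_congr rfl fun b _ => ?_
    have e1 : ∀ z : Un n, lw B L n z * (Brg.dl x z + Brg.dl x (Brg.ro b z))
        = lw B L n z * Brg.dl x z + lw B L n z * Brg.dl x (Brg.ro b z) := fun z => mul_add _ _ _
    rw [Finset.sum_congr rfl fun z _ => e1 z, sum_add_distrib]
    have e2 : ∀ y : Un n, ∀ g : Un n → ℝ, ∑ z, g z * Brg.dl y z = g y := by
      intro y g
      unfold Brg.dl
      rw [Finset.sum_eq_single y]
      · rw [if_pos rfl, mul_one]
      · intro z _ hz
        rw [if_neg hz, mul_zero]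
      · intro h
        exact absurd (mem_univ _) h
    congr 1
    · exact e2 x _
    · rw [← Brg.sum_ro b (fun z => lw B L n z * Brg.dl x (Brg.ro b z)), ← e2 x
        (fun z => lw B L n (Brg.ro b z))]
      exact Finset.sum_congr rfl fun z _ => by rw [Brg.ro_ro]
  rw [h1, h2] at h
  unfold avg2
  have h3 : lw B (L + 1) n x = (∑ b ∈ range B, (lw B L n x + lw B L n (Brg.ro b x))) / (B * 2) := by
    rw [h]
    field_simp
  rw [h3, Finset.sum_div]
  exact Finset.sum_congr rfl fun b _ => by field_simp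

theorem ent_succ {B : ℕ} (hB : 0 < B) (L n : ℕ) :
    ent (lw B (L + 1) n) ≤ (1 / (B : ℝ)) * ∑ b ∈ range B, ent (avg2 (Brg.ro b) (lw B L n)) := by
  have hB' : (0 : ℝ) < B := by exact_mod_cast hB
  have h1 : ∀ x : Un n, lw B (L + 1) n x * Real.log (lw B (L + 1) n x) ≤
      ∑ b ∈ range B, (1 / (B : ℝ)) * (avg2 (Brg.ro b) (lw B L n) x *
        Real.log (avg2 (Brg.ro b) (lw B L n) x)) := by
    intro x
    rw [lw_succ hB]
    have := Real.convexOn_mul_log.map_sum_le (t := range B) (w := fun _ => 1 / (B : ℝ))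
      (p := fun b => avg2 (Brg.ro b) (lw B L n) x) (fun _ _ => by positivity)
      (by rw [sum_const, card_range, nsmul_eq_mul]; field_simp)
      (fun b _ => by
        rw [Set.mem_Ici]
        unfold avg2
        have := Slt.lw_nonneg (B := B) L x
        have := Slt.lw_nonneg (B := B) L (Brg.ro b x)
        linarith)
    simpa [smul_eq_mul] using this
  unfold ent
  refine (sum_le_sum fun x _ => h1 x).trans (le_of_eq ?_)
  rw [sum_comm, mul_sum]
  exact sum_congr rfl fun b _ => by rw [mul_sum]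

/-- the loss of one letter controls all distances -/
theorem prod_one {B : ℕ} (hB : 0 < B) (L n : ℕ) :
    ∑ b ∈ range B, tvb B L n b ^ 2 ≤ 16 * B * (ent (lw B L n) - ent (lw B (L + 1) n)) := by
  have hB' : (0 : ℝ) < B := by exact_mod_cast hB
  have h1 : ∀ b ∈ range B, tvb B L n b ^ 2 ≤
      16 * (ent (lw B L n) - ent (avg2 (Brg.ro b) (lw B L n))) := by
    intro b _
    have := tv_ent (lw B L n) (Slt.lw_nonneg L) (Brg.ro b) (Brg.ro_ro b)
    rw [lw_sum B L n hB, mul_one] at this
    exact this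
  refine (sum_le_sum h1).trans ?_
  rw [← mul_sum, sum_sub_distrib, sum_const, card_range, nsmul_eq_mul]
  have h2 := ent_succ hB L n
  have h3 : (B : ℝ) * ent (lw B (L + 1) n) ≤ ∑ b ∈ range B, ent (avg2 (Brg.ro b) (lw B L n)) := by
    have := mul_le_mul_of_nonneg_left h2 hB'.le
    refine this.trans (le_of_eq ?_)
    field_simp
  nlinarith

theorem ent_anti {B : ℕ} (hB : 0 < B) (n : ℕ) : Antitone fun L => ent (lw B L n) := by
  refine antitone_nat_of_succ_le fun L => ?_
  have h1 := prod_one hB L n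
  have h2 : 0 ≤ ∑ b ∈ range B, tvb B L n b ^ 2 := sum_nonneg fun _ _ => sq_nonneg _
  have hB' : (0 : ℝ) < B := by exact_mod_cast hB
  have h3 : 0 ≤ 16 * (B : ℝ) * (ent (lw B L n) - ent (lw B (L + 1) n)) := h2.trans h1
  have := nonneg_of_mul_nonneg_right h3 (by positivity)
  linarith

/-- summed over a time interval -/
theorem prod_sum {B : ℕ} (hB : 0 < B) (n t₁ s : ℕ) :
    ∑ τ ∈ range s, ∑ b ∈ range B, tvb B (t₁ + τ) n b ^ 2 ≤
      16 * B * (ent (lw B t₁ n) - ent (lw B (t₁ + s) n)) := by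
  induction s with
  | zero => simp
  | succ s ih =>
      rw [sum_range_succ]
      have := prod_one hB (t₁ + s) n
      rw [← add_assoc]
      nlinarith

theorem prod_sum' {B : ℕ} (hB : 0 < B) (n t₁ s : ℕ) :
    ∑ τ ∈ range s, ∑ b ∈ range B, tvb B (t₁ + τ) n b ≤
      4 * B * Real.sqrt (s * (ent (lw B t₁ n) - ent (lw B (t₁ + s) n))) := by
  have h1 := prod_sum hB n t₁ s
  have hB' : (0 : ℝ) ≤ B := by exact_mod_cast hB.le
  have h0 : 0 ≤ ent (lw B t₁ n) - ent (lw B (t₁ + s) n) := by
    have := ent_anti hB n (show t₁ ≤ t₁ + s by omega)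
    simp only at this
    linarith
  rw [← Finset.sum_product'] at h1 ⊢
  have h2 : (∑ x ∈ range s ×ˢ range B, tvb B (t₁ + x.1) n x.2) ^ 2 ≤
      ((s : ℝ) * B) * ∑ x ∈ range s ×ˢ range B, tvb B (t₁ + x.1) n x.2 ^ 2 := by
    have := sq_sum_le_card_mul_sum_sq (s := range s ×ˢ range B)
      (f := fun x : ℕ × ℕ => tvb B (t₁ + x.1) n x.2)
    rw [card_product, card_range, card_range] at this
    push_cast at this
    exact this
  have h3 : 4 * (B : ℝ) * Real.sqrt (s * (ent (lw B t₁ n) - ent (lw B (t₁ + s) n)))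
      = Real.sqrt ((s : ℝ) * B * (16 * B * (ent (lw B t₁ n) - ent (lw B (t₁ + s) n)))) := by
    rw [show (s : ℝ) * B * (16 * B * (ent (lw B t₁ n) - ent (lw B (t₁ + s) n)))
      = (4 * B) ^ 2 * (s * (ent (lw B t₁ n) - ent (lw B (t₁ + s) n))) by ring,
      Real.sqrt_mul (show (0 : ℝ) ≤ (4 * (B : ℝ)) ^ 2 by positivity), Real.sqrt_sq (by positivity)]
  rw [h3]
  refine Real.le_sqrt_of_sq_le (h2.trans ?_)
  exact mul_le_mul_of_nonneg_left h1 (by positivity)

/-- the relative entropy in terms of `ent` -/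
theorem K0_mm {B : ℕ} (hB : 0 < B) (L n : ℕ) :
    K0 (uw B L) (fun ω => mm (ext ω) L n)
      = Real.log (Fintype.card (Un n)) + ent (lw B L n) := by
  classical
  rw [K0_eq, Brg.tot_uw B L hB]
  have hc : (0 : ℝ) < Fintype.card (Un n) := by exact_mod_cast Fintype.card_pos
  have h1 : ∀ ω : Wd B L, uw B L ω * Real.log ((Fintype.card (Un n) : ℝ) *
      mass (uw B L) (fun ω => mm (ext ω) L n) (mm (ext ω) L n) / 1)
      = uw B L ω * (fun x : Un n => Real.log ((Fintype.card (Un n) : ℝ) * lw B L n x))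
        (mm (ext ω) L n) := fun ω => by
    rw [div_one]
    rfl
  rw [Finset.sum_congr rfl fun ω _ => h1 ω, ← Brg.sum_mass_mul (uw B L) (fun ω => mm (ext ω) L n)
    (fun x : Un n => Real.log ((Fintype.card (Un n) : ℝ) * lw B L n x))]
  have h2 : ∀ x : Un n, mass (uw B L) (fun ω => mm (ext ω) L n) x *
      Real.log ((Fintype.card (Un n) : ℝ) * lw B L n x)
      = lw B L n x * Real.log (Fintype.card (Un n)) + lw B L n x * Real.log (lw B L n x) := by
    intro x
    change lw B L n x * _ = _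
    rcases (Slt.lw_nonneg (B := B) L x).eq_or_lt with h | h
    · rw [← h]
      simp
    · rw [Real.log_mul hc.ne' h.ne']
      ring
  rw [Finset.sum_congr rfl fun x _ => h2 x, sum_add_distrib, ← sum_mul, lw_sum B L n hB, one_mul]
  rfl

end Pool.Agent.CutSeq.NJ
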