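import Pool.Agent.NJ.Shell52
import Pool.Agent.NJ.Prod13

/-!
S19271, target B, row NB-7 (END): from the inequality of one window of `s * B` letters to the theorem
NOJUMP.
-/

set_option autoImplicit false

namespace Pool.Agent.CutSeq.NJ

open Finset

/-- information of the row `n` given the first `n` rows after `l` letters -/
noncomputable def fB46 (B n l : ℕ) : ℝ :=
  KK (uw B l) (fun ω : Wd B l => row (ext ω) l n) (fun ω => mm (ext ω) l n)

/-- entropy of the first `n` rows after `l` letters -/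
noncomputable def pB46 (B n l : ℕ) : ℝ := K0 (uw B l) (fun ω : Wd B l => mm (ext ω) l n)

/-- one window (output of UP and DISP) -/
def WinB : Prop := ∃ c8 C2 C3 : ℝ, 0 < c8 ∧ 0 ≤ C2 ∧ 0 ≤ C3 ∧ ∀ κ ε : ℝ, 0 < κ → κ ≤ 1 → 0 < ε →
  ∃ N₀ : ℕ, ∀ N ≥ N₀, ∀ n : ℕ, N ≤ n → n + 1 ≤ 2 * N → ∀ l : ℕ, 6 * (n * (4 * N)) ≤ l →
    c8 * ⌈κ * (N : ℝ)⌉₊ * (fB46 (4 * N) n l - C3 * ⌈κ * (N : ℝ)⌉₊) - ε * (N : ℝ) ^ 2 ≤
      C2 * √((pB46 (4 * N) (n + 1) l - pB46 (4 * N) (n + 1) (l + ⌈κ * (N : ℝ)⌉₊ * (4 * N))) *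
          ⌈κ * (N : ℝ)⌉₊ * fB46 (4 * N) n l) +
        ⌈κ * (N : ℝ)⌉₊ / 2 * (fB46 (4 * N) n l - fB46 (4 * N) n (l + ⌈κ * (N : ℝ)⌉₊ * (4 * N)))

/-- the information of the next row decreases in time -/
def AntiB : Prop := ∀ B n l l' : ℕ, n + 1 ≤ B → l ≤ l' → fB46 B n l' ≤ fB46 B n l

/-- **NOJUMP** -/
def NoJumpB : Prop := ∃ C₀ : ℝ, 0 < C₀ ∧ ∀ d v : ℝ, 0 < d → 0 < v → ∃ N₀ : ℕ, ∀ N ≥ N₀, ∀ n : ℕ,
  N ≤ n → n + 1 ≤ 2 * N → ∀ l l' : ℕ, 6 * (n * (4 * N)) ≤ l → (l : ℝ) + d * N * (4 * N) ≤ l' →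
    fB46 (4 * N) n l' ≤ C₀ * pB46 (4 * N) (n + 1) l / (d * N) + v * N

theorem endAlg46 {c8 C2 C3 s P f g E : ℝ} (hc : 0 < c8) (hs : 0 < s) (hP : 0 ≤ P) (hf : 0 ≤ f)
    (h : c8 * s * (f - C3 * s) - E ≤ C2 * √(P * s * f) + s / 2 * (f - g)) :
    f ≤ (C2 / c8) ^ 2 / s * P + 1 / c8 * (f - g) + (2 * C3 * s + 2 * E / (c8 * s)) := by
  have h1 : √(P * s * f) = √P * √(s * f) := by
    rw [mul_assoc, Real.sqrt_mul hP]
  have hsf : 0 ≤ s * f := mul_nonneg hs.le hf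
  have ha := Real.sq_sqrt hP
  have hb := Real.sq_sqrt hsf
  rw [h1] at h
  set a := √P
  set b := √(s * f)
  have h2 : C2 * (a * b) ≤ c8 * (s * f) / 2 + C2 ^ 2 * P / (2 * c8) := by
    have h3 : c8 * (s * f) / 2 + C2 ^ 2 * P / (2 * c8) - C2 * (a * b)
        = (c8 * b - C2 * a) ^ 2 / (2 * c8) := by
      rw [← ha, ← hb]
      field_simp
      ring
    have h4 : 0 ≤ (c8 * b - C2 * a) ^ 2 / (2 * c8) := by positivity
    linarith
  have h5 : c8 * s / 2 * f ≤ C2 ^ 2 * P / (2 * c8) + s / 2 * (f - g) + c8 * C3 * s ^ 2 + E := by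
    nlinarith
  have h6 : (C2 / c8) ^ 2 / s * P + 1 / c8 * (f - g) + (2 * C3 * s + 2 * E / (c8 * s))
      = (C2 ^ 2 * P / (2 * c8) + s / 2 * (f - g) + c8 * C3 * s ^ 2 + E) / (c8 * s / 2) := by
    field_simp
    ring
  rw [h6, le_div_iff₀ (by positivity)]
  linarith

theorem endSum46 (P f : ℕ → ℝ) (m : ℕ) (a b e : ℝ) (ha : 0 ≤ a) (hb : 0 ≤ b) (hP : 0 ≤ P m)
    (hf : 0 ≤ f m) (hanti : ∀ i < m, f m ≤ f i)
    (h : ∀ i < m, f i ≤ a * (P i - P (i + 1)) + b * (f i - f (i + 1)) + e) :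
    m * f m ≤ a * P 0 + b * f 0 + m * e := by
  have h1 : ∑ i ∈ range m, f m ≤ ∑ i ∈ range m, (a * (P i - P (i + 1)) + b * (f i - f (i + 1)) + e) :=
    sum_le_sum fun i hi => (hanti i (mem_range.1 hi)).trans (h i (mem_range.1 hi))
  rw [sum_const, card_range, nsmul_eq_mul, sum_add_distrib, sum_add_distrib, ← mul_sum, ← mul_sum,
    sum_range_sub', sum_range_sub', sum_const, card_range, nsmul_eq_mul] at h1
  have h2 : 0 ≤ a * P m := mul_nonneg ha hP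
  have h3 : 0 ≤ b * f m := mul_nonneg hb hf
  linarith

theorem pB46_anti {B : ℕ} (hB : 0 < B) (n : ℕ) {l l' : ℕ} (h : l ≤ l') :
    pB46 B n l' ≤ pB46 B n l := by
  unfold pB46
  rw [K0_mm hB, K0_mm hB]
  have := ent_anti hB n h
  simp only at this
  linarith

theorem pB46_nonneg (B n l : ℕ) : 0 ≤ pB46 B n l := KK_nonneg _ Evt.uw_nonneg _ _

theorem fB46_nonneg (B n l : ℕ) : 0 ≤ fB46 B n l := KK_nonneg _ Evt.uw_nonneg _ _

theorem fB46_le {B : ℕ} (hB : 0 < B) (n l : ℕ) : fB46 B n l ≤ n := by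
  refine (KK_le _ Evt.uw_nonneg _ _).trans ?_
  rw [Brg.tot_uw B l hB, one_mul, log_card_V]
  have h1 : Real.log 2 ≤ 1 := by
    have := Real.log_two_lt_d9
    linarith
  have h2 : (0 : ℝ) ≤ n := Nat.cast_nonneg n
  nlinarith

theorem noJump46 (hW : WinB) (hA : AntiB) : NoJumpB := by
  obtain ⟨c8, C2, C3, hc8, hC2, hC3, hW⟩ := hW
  refine ⟨2 * (C2 / c8) ^ 2 + 1, by positivity, fun d v hd hv => ?_⟩
  obtain ⟨κ, hκ⟩ : ∃ κ : ℝ, κ = min (min 1 (d / 4)) (min (v * c8 * d / 32) (v / (16 * (C3 + 1)))) :=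
    ⟨_, rfl⟩
  have hκ0 : 0 < κ := by
    rw [hκ]
    refine lt_min (lt_min one_pos (by positivity)) (lt_min (by positivity) (by positivity))
  have hκ1 : κ ≤ 1 := by rw [hκ]; exact (min_le_left _ _).trans (min_le_left _ _)
  have hκd : κ ≤ d / 4 := by rw [hκ]; exact (min_le_left _ _).trans (min_le_right _ _)
  have hκv : κ ≤ v * c8 * d / 32 := by rw [hκ]; exact (min_le_right _ _).trans (min_le_left _ _)
  have hκC : κ ≤ v / (16 * (C3 + 1)) := by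
    rw [hκ]; exact (min_le_right _ _).trans (min_le_right _ _)
  obtain ⟨N₀, hN₀⟩ := hW κ (v * c8 * κ / 8) hκ0 hκ1 (by positivity)
  refine ⟨max N₀ (max 1 ⌈1 / κ⌉₊), fun N hN n hn hn2 l l' hl hl' => ?_⟩
  have hN1 : N₀ ≤ N := (le_max_left _ _).trans hN
  have hN2 : 1 ≤ N := (le_max_left _ _).trans ((le_max_right _ _).trans hN)
  have hN3 : ⌈1 / κ⌉₊ ≤ N := (le_max_right _ _).trans ((le_max_right _ _).trans hN)
  have hNR : (1 : ℝ) ≤ N := by exact_mod_cast hN2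
  have hN0 : (0 : ℝ) < N := by linarith
  have hκN : 1 ≤ κ * N := by
    have h1 : 1 / κ ≤ N := (Nat.le_ceil _).trans (by exact_mod_cast hN3)
    rw [div_le_iff₀ hκ0] at h1
    linarith
  obtain ⟨s, hs⟩ : ∃ s : ℕ, s = ⌈κ * (N : ℝ)⌉₊ := ⟨_, rfl⟩
  have hs1 : κ * N ≤ s := by rw [hs]; exact Nat.le_ceil _
  have hs2 : (s : ℝ) ≤ 2 * κ * N := by
    have h1 : (s : ℝ) < κ * N + 1 := by rw [hs]; exact Nat.ceil_lt_add_one (by positivity)
    linarith
  have hs0 : (0 : ℝ) < s := by linarith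
  have hw := hN₀ N hN1 n hn hn2
  rw [← hs] at hw
  obtain ⟨m, hm⟩ : ∃ m : ℕ, m = ⌊d * N / s⌋₊ := ⟨_, rfl⟩
  have hx2 : 2 ≤ d * N / s := by
    rw [le_div_iff₀ hs0]
    have : κ * N ≤ d / 4 * N := mul_le_mul_of_nonneg_right hκd hN0.le
    linarith
  have hm1 : (m : ℝ) ≤ d * N / s := by rw [hm]; exact Nat.floor_le (by linarith)
  have hm2 : d * N / (2 * s) ≤ m := by
    have h1 : d * N / s < m + 1 := by rw [hm]; exact Nat.lt_floor_add_one _
    have h2 : d * N / (2 * s) = (d * N / s) / 2 := by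
      field_simp
    rw [h2]
    linarith
  have hm0 : (0 : ℝ) < m := lt_of_lt_of_le (by positivity) hm2
  have hms : (m : ℝ) * s ≤ d * N := by rwa [le_div_iff₀ hs0] at hm1
  have hB : 0 < 4 * N := by omega
  have hBR : (0 : ℝ) < 4 * N := by positivity
  -- the windows
  have hsum := endSum46 (fun i => pB46 (4 * N) (n + 1) (l + i * (s * (4 * N))))
    (fun i => fB46 (4 * N) n (l + i * (s * (4 * N)))) m ((C2 / c8) ^ 2 / s) (1 / c8)
    (2 * C3 * s + 2 * (v * c8 * κ / 8 * (N : ℝ) ^ 2) / (c8 * s)) (by positivity) (by positivity)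
    (pB46_nonneg _ _ _) (fB46_nonneg _ _ _)
    (fun i hi => hA _ _ _ _ (by omega) (by
      refine Nat.add_le_add_left (Nat.mul_le_mul_right _ hi.le) l))
    (fun i _ => by
      have h1 := hw (l + i * (s * (4 * N))) (by omega)
      have e1 : l + i * (s * (4 * N)) + s * (4 * N) = l + (i + 1) * (s * (4 * N)) := by ring
      rw [e1] at h1
      refine endAlg46 hc8 hs0 ?_ (fB46_nonneg _ _ _) h1
      have := pB46_anti hB (n + 1) (show l + i * (s * (4 * N)) ≤ l + (i + 1) * (s * (4 * N)) by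
        rw [← e1]; omega)
      linarith)
  simp only [Nat.zero_mul, Nat.add_zero] at hsum
  have hlast : fB46 (4 * N) n l' ≤ fB46 (4 * N) n (l + m * (s * (4 * N))) := by
    refine hA _ _ _ _ (by omega) ?_
    have h1 : ((l + m * (s * (4 * N)) : ℕ) : ℝ) ≤ l' := by
      push_cast
      have h2 : (m : ℝ) * (s * (4 * N)) ≤ d * N * (4 * N) := by
        rw [← mul_assoc]
        exact mul_le_mul_of_nonneg_right hms hBR.le
      linarith
    exact_mod_cast h1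
  refine hlast.trans ?_
  set F := fB46 (4 * N) n (l + m * (s * (4 * N))) with hF
  set P₀ := pB46 (4 * N) (n + 1) l with hP₀
  have hP₀0 : 0 ≤ P₀ := pB46_nonneg _ _ _
  have hf0 : fB46 (4 * N) n l ≤ 2 * N := by
    refine (fB46_le hB n l).trans ?_
    have : n ≤ 2 * N := by omega
    exact_mod_cast this
  have h1 : F ≤ ((C2 / c8) ^ 2 / s * P₀ + 1 / c8 * (2 * N)) / m +
      (2 * C3 * s + 2 * (v * c8 * κ / 8 * (N : ℝ) ^ 2) / (c8 * s)) := by
    have h2 : 1 / c8 * fB46 (4 * N) n l ≤ 1 / c8 * (2 * N) :=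
      mul_le_mul_of_nonneg_left hf0 (by positivity)
    rw [← sub_le_iff_le_add, le_div_iff₀ hm0]
    linarith
  have h2 : ((C2 / c8) ^ 2 / s * P₀ + 1 / c8 * (2 * N)) / m ≤
      ((C2 / c8) ^ 2 / s * P₀ + 1 / c8 * (2 * N)) / (d * N / (2 * s)) :=
    div_le_div_of_nonneg_left (by positivity) (by positivity) hm2
  have h3 : ((C2 / c8) ^ 2 / s * P₀ + 1 / c8 * (2 * N)) / (d * N / (2 * s)) =
      2 * (C2 / c8) ^ 2 * P₀ / (d * N) + 4 * s / (c8 * d) := by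
    field_simp
    ring
  have h4 : 4 * (s : ℝ) / (c8 * d) ≤ v * N / 4 := by
    rw [div_le_iff₀ (by positivity)]
    have h5 : κ * N ≤ v * c8 * d / 32 * N := mul_le_mul_of_nonneg_right hκv hN0.le
    nlinarith
  have h5 : 2 * C3 * s ≤ v * N / 4 := by
    have h6 : κ * (16 * (C3 + 1)) ≤ v := by
      rwa [le_div_iff₀ (by positivity)] at hκC
    have h7 : κ * (16 * (C3 + 1)) * N ≤ v * N := mul_le_mul_of_nonneg_right h6 hN0.le
    have h8 : C3 * s ≤ C3 * (2 * κ * N) := mul_le_mul_of_nonneg_left hs2 hC3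
    have h9 : 0 ≤ κ * N := by positivity
    nlinarith
  have h6 : 2 * (v * c8 * κ / 8 * (N : ℝ) ^ 2) / (c8 * s) ≤ v * N / 4 := by
    rw [div_le_iff₀ (by positivity)]
    have h7 : v * c8 * N / 4 * (κ * N) ≤ v * c8 * N / 4 * s :=
      mul_le_mul_of_nonneg_left hs1 (by positivity)
    nlinarith
  have h7 : (2 * (C2 / c8) ^ 2 + 1) * P₀ / (d * N) =
      2 * (C2 / c8) ^ 2 * P₀ / (d * N) + P₀ / (d * N) := by ring
  have h8 : 0 ≤ P₀ / (d * N) := by positivity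
  have h9 : 0 ≤ v * N := by positivity
  rw [h7]
  linarith

end Pool.Agent.CutSeq.NJ
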