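import Pool.Agent.NJ.EntA76

/-! Entropy toolbox, part C: tails of the conditional density, event bounds, disintegration,
changes of the weight. -/

set_option autoImplicit false

namespace Pool.Agent.CutSeq.NJ

open Finset

variable {Ω Ω' A A' A'' B B' C : Type*} [Fintype Ω] [Fintype Ω']

namespace P76

omit [Fintype Ω] in
lemma ind_nonneg (w : Ω → ℝ) (hw : ∀ ω, 0 ≤ w ω) (E : Set Ω) (ω : Ω) : 0 ≤ ind E w ω :=
  Set.indicator_nonneg (fun ω _ => hw ω) ω

omit [Fintype Ω] in
lemma ind_le (w : Ω → ℝ) (hw : ∀ ω, 0 ≤ w ω) (E : Set Ω) (ω : Ω) : ind E w ω ≤ w ω :=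
  Set.indicator_le_self' (fun _ _ => hw _) _

omit [Fintype Ω] in
lemma ind_mem (w : Ω → ℝ) {E : Set Ω} {ω : Ω} (h : ω ∈ E) : ind E w ω = w ω :=
  Set.indicator_of_mem h w

omit [Fintype Ω] in
lemma ind_not_mem (w : Ω → ℝ) {E : Set Ω} {ω : Ω} (h : ω ∉ E) : ind E w ω = 0 :=
  Set.indicator_of_notMem h w

omit [Fintype Ω] in
lemma ind_ne {w : Ω → ℝ} {E : Set Ω} {ω : Ω} (h : ind E w ω ≠ 0) : ω ∈ E ∧ w ω ≠ 0 := by
  by_cases h1 : ω ∈ E
  · exact ⟨h1, by rwa [ind_mem w h1] at h⟩
  · exact absurd (ind_not_mem w h1) h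

lemma pr_nonneg (w : Ω → ℝ) (hw : ∀ ω, 0 ≤ w ω) (E : Set Ω) : 0 ≤ pr w E :=
  Finset.sum_nonneg fun ω _ => ind_nonneg w hw E ω

lemma pr_le_tot (w : Ω → ℝ) (hw : ∀ ω, 0 ≤ w ω) (E : Set Ω) : pr w E ≤ tot w :=
  Finset.sum_le_sum fun ω _ => ind_le w hw E ω

lemma pr_mono (w : Ω → ℝ) (hw : ∀ ω, 0 ≤ w ω) {E F : Set Ω} (h : E ⊆ F) : pr w E ≤ pr w F :=
  Finset.sum_le_sum fun ω _ => Set.indicator_le_indicator_of_subset h (fun ω => hw ω) ω

lemma pr_union_le (w : Ω → ℝ) (hw : ∀ ω, 0 ≤ w ω) (E F : Set Ω) :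
    pr w (E ∪ F) ≤ pr w E + pr w F := by
  unfold pr tot
  rw [← Finset.sum_add_distrib]
  refine Finset.sum_le_sum fun ω _ => ?_
  have h1 := ind_nonneg w hw E ω
  have h2 := ind_nonneg w hw F ω
  by_cases h : ω ∈ E ∪ F
  · rw [ind_mem w h]
    rcases h with h | h
    · rw [ind_mem w h]
      linarith
    · rw [ind_mem w h]
      linarith
  · rw [ind_not_mem w h]
    linarith

lemma pr_add_compl (w : Ω → ℝ) (E : Set Ω) : pr w E + pr w Eᶜ = tot w := by
  unfold pr tot
  rw [← Finset.sum_add_distrib]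
  refine Finset.sum_congr rfl fun ω _ => ?_
  by_cases h : ω ∈ E
  · rw [ind_mem w h, ind_not_mem w (by simpa using h), add_zero]
  · rw [ind_not_mem w h, ind_mem w (by simpa using h), zero_add]

/-- Markov inequality -/
lemma pr_markov (w : Ω → ℝ) (hw : ∀ ω, 0 ≤ w ω) (f : Ω → ℝ) (hf : ∀ ω, w ω ≠ 0 → 0 ≤ f ω)
    (t : ℝ) : t * pr w {ω | t ≤ f ω} ≤ ∑ ω, w ω * f ω := by
  unfold pr tot
  rw [Finset.mul_sum]
  refine Finset.sum_le_sum fun ω _ => ?_
  by_cases hω : w ω = 0
  · have : ind {ω | t ≤ f ω} w ω = 0 := by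
      by_cases h : ω ∈ {ω | t ≤ f ω}
      · rw [ind_mem w h, hω]
      · exact ind_not_mem w h
    rw [this, hω]
    simp
  · by_cases h : ω ∈ {ω | t ≤ f ω}
    · rw [ind_mem w h, mul_comm]
      exact mul_le_mul_of_nonneg_left h (hw ω)
    · rw [ind_not_mem w h, mul_zero]
      exact mul_nonneg (hw ω) (hf ω hω)

end P76

open P76

/-- conditional density of `X` given `Y` with respect to the uniform law, at `ω` -/
noncomputable def dens [Fintype A] (w : Ω → ℝ) (X : Ω → A) (Y : Ω → B) (ω : Ω) : ℝ :=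
  Fintype.card A * mass w (fun ω => (X ω, Y ω)) (X ω, Y ω) / mass w Y (Y ω)

lemma KK_dens [Fintype A] (w : Ω → ℝ) (X : Ω → A) (Y : Ω → B) :
    KK w X Y = ∑ ω, w ω * Real.log (dens w X Y ω) := rfl

lemma dens_pos [Fintype A] (w : Ω → ℝ) (hw : ∀ ω, 0 ≤ w ω) (X : Ω → A) (Y : Ω → B) {ω : Ω}
    (h : w ω ≠ 0) : 0 < dens w X Y ω := by
  have m1 := mass_pos w hw (fun ω => (X ω, Y ω)) h
  have m2 := mass_pos w hw Y h
  have hA : (0 : ℝ) < Fintype.card A := by
    have : Nonempty A := ⟨X ω⟩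
    exact_mod_cast Fintype.card_pos
  unfold dens
  positivity

/-- (C1) the expectation of the inverse density, with a nonnegative function `ψ` -/
theorem sum_inv_dens_le [Fintype A] (w : Ω → ℝ) (hw : ∀ ω, 0 ≤ w ω) (X : Ω → A) (Y : Ω → B)
    (ψ : A → B → ℝ) (hψ : ∀ a b, 0 ≤ ψ a b) :
    ∑ ω, w ω * (ψ (X ω) (Y ω) / dens w X Y ω) ≤
      ∑ ω, w ω * ((∑ a, ψ a (Y ω)) / Fintype.card A) := by
  have h1 := basic_count' w hw X Y Finset.univ (fun _ _ => Finset.mem_univ _)
    (fun a b => ψ a b / Fintype.card A) (fun a b => div_nonneg (hψ a b) (by positivity))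
  refine le_trans (le_of_eq ?_) (h1.trans (le_of_eq ?_))
  · refine Finset.sum_congr rfl fun ω _ => ?_
    by_cases h : w ω = 0
    · simp [h]
    · have m1 := mass_pos w hw (fun ω => (X ω, Y ω)) h
      have m2 := mass_pos w hw Y h
      have hA : (0 : ℝ) < Fintype.card A := by
        have : Nonempty A := ⟨X ω⟩
        exact_mod_cast Fintype.card_pos
      unfold dens
      congr 1
      field_simp
  · refine Finset.sum_congr rfl fun ω _ => ?_
    rw [Finset.sum_div]

lemma sum_inv_dens_le_tot [Fintype A] (w : Ω → ℝ) (hw : ∀ ω, 0 ≤ w ω) (X : Ω → A) (Y : Ω → B) :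
    ∑ ω, w ω * (1 / dens w X Y ω) ≤ tot w := by
  refine (sum_inv_dens_le w hw X Y (fun _ _ => 1) (fun _ _ => zero_le_one)).trans ?_
  unfold tot
  refine Finset.sum_le_sum fun ω _ => ?_
  have hA : (0 : ℝ) < Fintype.card A := by
    have : Nonempty A := ⟨X ω⟩
    exact_mod_cast Fintype.card_pos
  rw [Finset.sum_const, Finset.card_univ, nsmul_eq_mul, mul_one, div_self hA.ne', mul_one]

/-- (C2) lower tail of the density -/
theorem pr_dens_le [Fintype A] (w : Ω → ℝ) (hw : ∀ ω, 0 ≤ w ω) (X : Ω → A) (Y : Ω → B)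
    (c : ℝ) (hc : 0 ≤ c) : pr w {ω | dens w X Y ω ≤ c} ≤ c * tot w := by
  have h1 := sum_inv_dens_le_tot w hw X Y
  have h2 : pr w {ω | dens w X Y ω ≤ c} ≤ ∑ ω, c * (w ω * (1 / dens w X Y ω)) := by
    unfold pr tot
    refine Finset.sum_le_sum fun ω _ => ?_
    by_cases hω : w ω = 0
    · have : ind {ω | dens w X Y ω ≤ c} w ω = 0 := by
        by_cases h : ω ∈ {ω | dens w X Y ω ≤ c}
        · rw [ind_mem w h, hω]
        · exact ind_not_mem w h
      rw [this, hω]
      simp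
    · have hd := dens_pos w hw X Y hω
      by_cases h : ω ∈ {ω | dens w X Y ω ≤ c}
      · rw [ind_mem w h]
        have h3 : 1 ≤ c * (1 / dens w X Y ω) := by
          rw [mul_one_div, le_div_iff₀ hd, one_mul]
          exact h
        have := mul_le_mul_of_nonneg_left h3 (hw ω)
        linarith
      · rw [ind_not_mem w h]
        have := hw ω
        positivity
  refine h2.trans ?_
  rw [← Finset.mul_sum]
  exact mul_le_mul_of_nonneg_left h1 hc

/-- (C3) the negative part of the log-density -/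
theorem sum_neg_log_dens_le [Fintype A] (w : Ω → ℝ) (hw : ∀ ω, 0 ≤ w ω) (X : Ω → A)
    (Y : Ω → B) : ∑ ω, w ω * max (-Real.log (dens w X Y ω)) 0 ≤ tot w := by
  refine le_trans (Finset.sum_le_sum fun ω _ => ?_) (sum_inv_dens_le_tot w hw X Y)
  by_cases hω : w ω = 0
  · simp [hω]
  · have hd := dens_pos w hw X Y hω
    refine mul_le_mul_of_nonneg_left (max_le ?_ (by positivity)) (hw ω)
    rw [← Real.log_inv, ← one_div]
    have := Real.log_le_sub_one_of_pos (x := 1 / dens w X Y ω) (by positivity)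
    linarith

/-- (C4) the positive part of the log-density -/
theorem sum_pos_log_dens_le [Fintype A] (w : Ω → ℝ) (hw : ∀ ω, 0 ≤ w ω) (X : Ω → A)
    (Y : Ω → B) : ∑ ω, w ω * max (Real.log (dens w X Y ω)) 0 ≤ KK w X Y + tot w := by
  have h1 := sum_neg_log_dens_le w hw X Y
  have h2 : ∑ ω, w ω * max (Real.log (dens w X Y ω)) 0 =
      KK w X Y + ∑ ω, w ω * max (-Real.log (dens w X Y ω)) 0 := by
    rw [KK_dens, ← Finset.sum_add_distrib]
    refine Finset.sum_congr rfl fun ω _ => ?_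
    rw [← mul_add]
    congr 1
    rcases le_total (Real.log (dens w X Y ω)) 0 with h | h
    · rw [max_eq_right h, max_eq_left (by linarith)]
      ring
    · rw [max_eq_left h, max_eq_right (by linarith)]
      ring
  linarith

/-- (C5) upper tail of the log-density -/
theorem pr_log_dens_ge [Fintype A] (w : Ω → ℝ) (hw : ∀ ω, 0 ≤ w ω) (X : Ω → A) (Y : Ω → B)
    (t : ℝ) : t * pr w {ω | t ≤ Real.log (dens w X Y ω)} ≤ KK w X Y + tot w := by
  by_cases ht : 0 < t
  · have h1 := pr_markov w hw (fun ω => max (Real.log (dens w X Y ω)) 0)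
      (fun ω _ => le_max_right _ _) t
    have h2 : {ω | t ≤ Real.log (dens w X Y ω)} ⊆ {ω | t ≤ max (Real.log (dens w X Y ω)) 0} :=
      fun ω h => le_trans (b := Real.log (dens w X Y ω)) h (le_max_left _ _)
    have h3 := mul_le_mul_of_nonneg_left (pr_mono w hw h2) ht.le
    exact h3.trans (h1.trans (sum_pos_log_dens_le w hw X Y))
  · have h1 : t * pr w {ω | t ≤ Real.log (dens w X Y ω)} ≤ 0 :=
      mul_nonpos_of_nonpos_of_nonneg (not_lt.1 ht) (pr_nonneg w hw _)
    have h2 := KK_nonneg w hw X Y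
    have h3 := tot_nonneg w hw
    linarith

/-- (C6) event bound, exponential form -/
theorem event_exp [Fintype A] (w : Ω → ℝ) (hw : ∀ ω, 0 ≤ w ω) (X : Ω → A) (Y : Ω → B)
    (E : A → B → Prop) (t u : ℝ) (ht : 0 ≤ t)
    (hE : ∀ ω, w ω ≠ 0 → (Nat.card {a : A // E a (Y ω)} : ℝ) ≤ u * Fintype.card A) :
    pr w {ω | E (X ω) (Y ω)} * t ≤ KK w X Y + tot w * Real.log (1 + (Real.exp t - 1) * u) := by
  classical
  have h1 := DV w hw X Y (fun a b => if E a b then t else 0)
  have h2 : ∑ ω, w ω * (if E (X ω) (Y ω) then t else 0) = pr w {ω | E (X ω) (Y ω)} * t := by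
    unfold pr tot
    rw [Finset.sum_mul]
    refine Finset.sum_congr rfl fun ω _ => ?_
    by_cases h : E (X ω) (Y ω)
    · rw [if_pos h, ind_mem w (E := {ω | E (X ω) (Y ω)}) h]
    · rw [if_neg h, ind_not_mem w (E := {ω | E (X ω) (Y ω)}) h]
      ring
  have h3 : ∑ ω, w ω * Real.log ((∑ a, Real.exp (if E a (Y ω) then t else 0)) /
      Fintype.card A) ≤ tot w * Real.log (1 + (Real.exp t - 1) * u) := by
    unfold tot
    rw [Finset.sum_mul]
    refine Finset.sum_le_sum fun ω _ => ?_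
    by_cases hω : w ω = 0
    · simp [hω]
    · refine mul_le_mul_of_nonneg_left ?_ (hw ω)
      have hA : (0 : ℝ) < Fintype.card A := by
        have : Nonempty A := ⟨X ω⟩
        exact_mod_cast Fintype.card_pos
      have h4 : ∑ a, Real.exp (if E a (Y ω) then t else 0) =
          Fintype.card A + (Real.exp t - 1) * (Nat.card {a : A // E a (Y ω)} : ℝ) := by
        have h5 : ∀ a : A, Real.exp (if E a (Y ω) then t else 0) =
            1 + (if E a (Y ω) then (Real.exp t - 1) else 0) := by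
          intro a
          split
          · ring
          · rw [Real.exp_zero, add_zero]
        rw [Finset.sum_congr rfl fun a _ => h5 a, Finset.sum_add_distrib, Finset.sum_const,
          Finset.card_univ, nsmul_eq_mul, mul_one, ← Finset.sum_filter, Finset.sum_const,
          nsmul_eq_mul, Nat.card_eq_fintype_card, Fintype.card_subtype]
        ring
      have h6 : 0 < ∑ a, Real.exp (if E a (Y ω) then t else 0) :=
        Finset.sum_pos (fun a _ => Real.exp_pos _) ⟨X ω, Finset.mem_univ _⟩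
      refine Real.log_le_log (by positivity) ?_
      rw [h4, div_le_iff₀ hA]
      have h7 : 0 ≤ Real.exp t - 1 := by
        have := Real.one_le_exp ht
        linarith
      have h8 := mul_le_mul_of_nonneg_left (hE ω hω) h7
      linarith
  rw [h2] at h1
  linarith

/-- (C7) event bound: an event of conditional uniform measure at most `u` -/
theorem event_log [Fintype A] (w : Ω → ℝ) (hw : ∀ ω, 0 ≤ w ω) (X : Ω → A) (Y : Ω → B)
    (E : A → B → Prop) (u : ℝ) (hu : 0 < u) (hu1 : u ≤ 1)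
    (hE : ∀ ω, w ω ≠ 0 → (Nat.card {a : A // E a (Y ω)} : ℝ) ≤ u * Fintype.card A) :
    pr w {ω | E (X ω) (Y ω)} * Real.log (1 / u) ≤ KK w X Y + tot w * Real.log 2 := by
  have hl : 0 ≤ Real.log (1 / u) := Real.log_nonneg (by rw [le_div_iff₀ hu]; linarith)
  refine (event_exp w hw X Y E (Real.log (1 / u)) u hl hE).trans ?_
  have h1 : 1 + (Real.exp (Real.log (1 / u)) - 1) * u = 2 - u := by
    rw [Real.exp_log (by positivity)]
    field_simp
    ring
  rw [h1]
  have h2 : Real.log (2 - u) ≤ Real.log 2 := Real.log_le_log (by linarith) (by linarith)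
  have h3 := mul_le_mul_of_nonneg_left h2 (tot_nonneg w hw)
  linarith

/-- (C8) disintegration along a map `Z` -/
theorem mass_disint (w : Ω → ℝ) (X : Ω → A) (Z : Ω → C) (a : A) (z : C) :
    mass w (fun ω => (X ω, Z ω)) (a, z) = mass (ind {ω | Z ω = z} w) X a := by
  classical
  unfold mass
  refine Finset.sum_congr rfl fun ω _ => ?_
  by_cases hz : Z ω = z
  · rw [ind_mem w (E := {ω | Z ω = z}) hz]
    by_cases ha : X ω = a
    · rw [if_pos (Prod.ext ha hz), if_pos ha]
    · rw [if_neg (fun h => ha (Prod.mk.inj h).1), if_neg ha]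
  · rw [ind_not_mem w (E := {ω | Z ω = z}) hz, if_neg (fun h => hz (Prod.mk.inj h).2)]
    simp

theorem sum_disint [DecidableEq C] (w : Ω → ℝ) (Z : Ω → C) (G : Ω → ℝ) :
    ∑ ω, w ω * G ω = ∑ z ∈ Finset.univ.image Z, ∑ ω, ind {ω | Z ω = z} w ω * G ω := by
  rw [Finset.sum_comm]
  refine Finset.sum_congr rfl fun ω _ => ?_
  rw [Finset.sum_eq_single_of_mem (Z ω) (Finset.mem_image_of_mem Z (Finset.mem_univ ω))]
  · rw [ind_mem w (E := {ω' | Z ω' = Z ω}) rfl]
  · intro z _ hz
    rw [ind_not_mem w (E := {ω' | Z ω' = z}) (fun h => hz h.symm), zero_mul]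

theorem KK_disint [Fintype A] [DecidableEq C] (w : Ω → ℝ) (X : Ω → A) (Y : Ω → B)
    (Z : Ω → C) : KK w X (fun ω => (Z ω, Y ω)) =
      ∑ z ∈ Finset.univ.image Z, KK (ind {ω | Z ω = z} w) X Y := by
  unfold KK
  rw [sum_disint w Z]
  refine Finset.sum_congr rfl fun z _ => ?_
  refine Finset.sum_congr rfl fun ω _ => ?_
  by_cases hz : Z ω = z
  · congr 3
    · rw [← mass_disint w (fun ω => (X ω, Y ω)) Z (X ω, Y ω) z]
      congr 1
      refine mass_congr w _ _ _ _ fun ω' _ => ?_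
      simp only [Prod.mk.injEq, hz]
      tauto
    · rw [← mass_disint w Y Z (Y ω) z]
      refine mass_congr w _ _ _ _ fun ω' _ => ?_
      simp only [Prod.mk.injEq, hz]
      tauto
  · rw [ind_not_mem w (E := {ω | Z ω = z}) hz]
    ring

theorem CE_disint [DecidableEq C] (w : Ω → ℝ) (X : Ω → A) (Y : Ω → B)
    (Z : Ω → C) : CE w X (fun ω => (Z ω, Y ω)) =
      ∑ z ∈ Finset.univ.image Z, CE (ind {ω | Z ω = z} w) X Y := by
  unfold CE
  rw [sum_disint w Z]
  refine Finset.sum_congr rfl fun z _ => ?_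
  refine Finset.sum_congr rfl fun ω _ => ?_
  by_cases hz : Z ω = z
  · congr 3
    · rw [← mass_disint w Y Z (Y ω) z]
      refine mass_congr w _ _ _ _ fun ω' _ => ?_
      simp only [Prod.mk.injEq, hz]
      tauto
    · rw [← mass_disint w (fun ω => (X ω, Y ω)) Z (X ω, Y ω) z]
      refine mass_congr w _ _ _ _ fun ω' _ => ?_
      simp only [Prod.mk.injEq, hz]
      tauto
  · rw [ind_not_mem w (E := {ω | Z ω = z}) hz]
    ring

/-- (C9) a factor which is a function of the observed variable comes out of the mass -/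
theorem mass_mul_fun (w : Ω → ℝ) (X : Ω → A) (R : A → ℝ) (a : A) :
    mass (fun ω => w ω * R (X ω)) X a = mass w X a * R a := by
  classical
  unfold mass
  rw [Finset.sum_mul]
  refine Finset.sum_congr rfl fun ω _ => ?_
  by_cases h : X ω = a
  · simp only [h, if_true]
  · rw [if_neg h, if_neg h, zero_mul]

theorem mass_mul_fun_snd (w : Ω → ℝ) (X : Ω → A) (Y : Ω → B) (R : B → ℝ) (a : A) (b : B) :
    mass (fun ω => w ω * R (Y ω)) (fun ω => (X ω, Y ω)) (a, b) =
      mass w (fun ω => (X ω, Y ω)) (a, b) * R b :=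
  mass_mul_fun w (fun ω => (X ω, Y ω)) (fun p => R p.2) (a, b)

/-- (C10) weights changed by a function of the conditioning have the same densities -/
theorem KK_mul_fun [Fintype A] (w : Ω → ℝ) (X : Ω → A) (Y : Ω → B) (R : B → ℝ) :
    KK (fun ω => w ω * R (Y ω)) X Y = ∑ ω, w ω * R (Y ω) * Real.log (dens w X Y ω) := by
  unfold KK dens
  refine Finset.sum_congr rfl fun ω _ => ?_
  by_cases h : R (Y ω) = 0
  · simp [h]
  · rw [mass_mul_fun_snd, mass_mul_fun]
    congr 2
    rw [← mul_assoc, mul_div_mul_right _ _ h]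

/-- (C11) the relative entropy with respect to a dominating weight -/
theorem KK_le_of_dom [Fintype A] (w w' : Ω → ℝ) (hw' : ∀ ω, 0 ≤ w' ω) (c : ℝ)
    (hle : ∀ ω, w' ω ≤ c * w ω) (X : Ω → A) (Y : Ω → B) :
    KK w' X Y ≤ ∑ ω, w' ω * Real.log
      (Fintype.card A * (c * mass w (fun ω => (X ω, Y ω)) (X ω, Y ω)) / mass w' Y (Y ω)) := by
  unfold KK
  refine Finset.sum_le_sum fun ω _ => ?_
  by_cases h : w' ω = 0
  · simp [h]
  · have m1 := mass_pos w' hw' (fun ω => (X ω, Y ω)) h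
    have m2 := mass_pos w' hw' Y h
    have hA : (0 : ℝ) < Fintype.card A := by
      have : Nonempty A := ⟨X ω⟩
      exact_mod_cast Fintype.card_pos
    have m3 : mass w' (fun ω => (X ω, Y ω)) (X ω, Y ω) ≤
        c * mass w (fun ω => (X ω, Y ω)) (X ω, Y ω) := by
      have h1 := mass_le_mass (fun ω => c * w ω) w' hle (fun ω => (X ω, Y ω)) (X ω, Y ω)
      refine h1.trans (le_of_eq ?_)
      unfold mass
      rw [Finset.mul_sum]
      refine Finset.sum_congr rfl fun ω' _ => ?_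
      split
      · rfl
      · rw [mul_zero]
    refine mul_le_mul_of_nonneg_left (Real.log_le_log (by positivity) ?_) (hw' ω)
    gcongr

/-- (C12) homogeneity in the weight -/
theorem mass_smul (w : Ω → ℝ) (c : ℝ) (X : Ω → A) (a : A) :
    mass (fun ω => c * w ω) X a = c * mass w X a := by
  unfold mass
  rw [Finset.mul_sum]
  refine Finset.sum_congr rfl fun ω' _ => ?_
  split
  · rfl
  · rw [mul_zero]

theorem KK_smul [Fintype A] (w : Ω → ℝ) (c : ℝ) (X : Ω → A) (Y : Ω → B) :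
    KK (fun ω => c * w ω) X Y = c * KK w X Y := by
  unfold KK
  rw [Finset.mul_sum]
  refine Finset.sum_congr rfl fun ω _ => ?_
  by_cases hc : c = 0
  · simp [hc]
  · rw [mass_smul, mass_smul, mul_assoc]
    congr 3
    rw [mul_left_comm, mul_div_mul_left _ _ hc]

theorem CE_smul (w : Ω → ℝ) (c : ℝ) (X : Ω → A) (Y : Ω → B) :
    CE (fun ω => c * w ω) X Y = c * CE w X Y := by
  unfold CE
  rw [Finset.mul_sum]
  refine Finset.sum_congr rfl fun ω _ => ?_
  by_cases hc : c = 0
  · simp [hc]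
  · rw [mass_smul, mass_smul, mul_assoc]
    congr 3
    rw [mul_div_mul_left _ _ hc]

/-- (C13) restriction to an event determined by the conditioning variable: the sum of the log
densities over the event -/
theorem KK_ind_of_cond [Fintype A] (w : Ω → ℝ) (X : Ω → A) (Y : Ω → B) (S : Set B) :
    KK (ind {ω | Y ω ∈ S} w) X Y = ∑ ω, ind {ω | Y ω ∈ S} w ω * Real.log (dens w X Y ω) := by
  classical
  have h1 : ind {ω | Y ω ∈ S} w = fun ω => w ω * (if Y ω ∈ S then 1 else 0) := by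
    funext ω
    by_cases h : Y ω ∈ S
    · rw [ind_mem w (E := {ω | Y ω ∈ S}) h, if_pos h, mul_one]
    · rw [ind_not_mem w (E := {ω | Y ω ∈ S}) h, if_neg h, mul_zero]
  have h2 := KK_mul_fun w X Y (fun b => if b ∈ S then 1 else 0)
  rw [h1]
  exact h2

/-- (C14) additivity of the relative entropy over events of the conditioning variable -/
theorem KK_ind_add [Fintype A] (w : Ω → ℝ) (X : Ω → A) (Y : Ω → B) (S : Set B) :
    KK w X Y = KK (ind {ω | Y ω ∈ S} w) X Y + KK (ind {ω | Y ω ∉ S} w) X Y := by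
  have h1 := KK_ind_of_cond w X Y S
  have h2 := KK_ind_of_cond w X Y Sᶜ
  have h3 : {ω | Y ω ∈ Sᶜ} = {ω | Y ω ∉ S} := rfl
  rw [h3] at h2
  rw [h1, h2, KK_dens, ← Finset.sum_add_distrib]
  refine Finset.sum_congr rfl fun ω _ => ?_
  by_cases h : Y ω ∈ S
  · rw [ind_mem w (E := {ω | Y ω ∈ S}) h, ind_not_mem w (E := {ω | Y ω ∉ S}) (fun h' => h' h)]
    ring
  · rw [ind_not_mem w (E := {ω | Y ω ∈ S}) h, ind_mem w (E := {ω | Y ω ∉ S}) h]
    ring

/-- (C15) restriction to an event of the conditioning variable decreases the relative entropy -/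
theorem KK_ind_le [Fintype A] (w : Ω → ℝ) (hw : ∀ ω, 0 ≤ w ω) (X : Ω → A) (Y : Ω → B)
    (S : Set B) : KK (ind {ω | Y ω ∈ S} w) X Y ≤ KK w X Y := by
  rw [KK_ind_add w X Y S]
  have := KK_nonneg (ind {ω | Y ω ∉ S} w) (ind_nonneg w hw _) X Y
  linarith

end Pool.Agent.CutSeq.NJ
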