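import Pool.Agent.NJ.Broom36
import Pool.Agent.CutSeq.Quant

/-!
S19271, Lemma L: a statistic `S` of the window history inside the column relations, decodable from
the broom with `M - 1` row siblings and `q` column siblings, is paid by the row increment.
-/

set_option autoImplicit false

namespace Pool.Agent.CutSeq.NJ

open Finset

variable {Ω : Type*} [Fintype Ω] {n : ℕ}

/-- number of elements of a subspace of `V n` -/
lemma card_sub36 (S : Submodule (ZMod 2) (V n)) :
    (Nat.card S : ℝ) = 2 ^ Module.finrank (ZMod 2) S := by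
  have h1 := Module.natCard_eq_pow_finrank (K := ZMod 2) (V := S)
  rw [Nat.card_zmod] at h1
  rw [h1]
  push_cast
  rfl

open Classical in
/-- number of elements of the orthogonal of a subspace -/
lemma card_perp36 (S : Submodule (ZMod 2) (V n)) :
    ∑ a : V n, (if a ∈ perp S then (2 : ℝ) ^ Module.finrank (ZMod 2) S else 0) = 2 ^ n := by
  have h1 : ∀ a : V n, (if a ∈ perp S then (2 : ℝ) ^ Module.finrank (ZMod 2) S else 0) =
      2 ^ Module.finrank (ZMod 2) S * ∑ x, uT S x * sg (x ⬝ᵥ a) := by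
    intro a
    rw [sum_uT_sg]
    split <;> simp
  simp only [h1]
  rw [← Finset.mul_sum, Finset.sum_comm]
  have h2 : ∀ x : V n, ∑ a : V n, uT S x * sg (x ⬝ᵥ a) = uT S x * if x = 0 then (2 : ℝ) ^ n else 0 := by
    intro x
    rw [← Finset.mul_sum, sum_sg]
  simp only [h2]
  rw [Finset.sum_eq_single (0 : V n)]
  · rw [if_pos rfl]
    unfold uT
    rw [if_pos S.zero_mem, card_sub36 S]
    field_simp
  · intro x _ hx
    rw [if_neg hx, mul_zero]
  · intro h
    exact absurd (Finset.mem_univ _) h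

/-- a sibling orthogonal to a known subspace has entropy at least its dimension -/
lemma eR_dim (w : Ω → ℝ) (hw : ∀ ω, 0 ≤ w ω) {B : Type*}
    (T T' : Ω → Submodule (ZMod 2) (V n)) (D : Ω → B) (S : Ω → Submodule (ZMod 2) (V n))
    (hS : ∀ ω, w ω ≠ 0 → S ω ≤ perp (T ω)) (i j : ℕ) :
    Real.log 2 * ∑ ω, w ω * (Module.finrank (ZMod 2) (S ω) : ℝ) ≤
      eR w T T' (fun ω => (S ω, D ω)) i j := by
  classical
  have hW := sib2_nonneg w hw T T' (i + 1) j
  have key := DV_density (sib2 w T T' (i + 1) j) hW (fun p => p.2.1 (Fin.last i))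
    (fun p => ((S p.1, D p.1), (fun l : Fin i => p.2.1 l.castSucc), p.2.2))
    (fun a b => if a ∈ perp b.1.1 then (2 : ℝ) ^ Module.finrank (ZMod 2) b.1.1 else 0)
    (fun a b => by
      show 0 ≤ (if a ∈ perp b.1.1 then (2 : ℝ) ^ Module.finrank (ZMod 2) b.1.1 else 0)
      split
      · positivity
      · exact le_rfl) ?_ ?_
  · refine le_trans (le_of_eq ?_) key
    have h1 : ∀ p ∈ (Finset.univ : Finset (Ω × (Fin (i + 1) → V n) × (Fin j → V n))),
        sib2 w T T' (i + 1) j p * Real.log (if p.2.1 (Fin.last i) ∈ perp (S p.1) then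
          (2 : ℝ) ^ Module.finrank (ZMod 2) (S p.1) else 0) =
        sib2 w T T' (i + 1) j p * (Real.log 2 * (Module.finrank (ZMod 2) (S p.1) : ℝ)) := by
      intro p _
      by_cases hp : sib2 w T T' (i + 1) j p = 0
      · simp [hp]
      · obtain ⟨h2, h3, _⟩ := sib2_ne_zero hp
        have h4 : p.2.1 (Fin.last i) ∈ perp (S p.1) := by
          rw [mem_perp]
          intro s hs
          have := (mem_perp _ _).1 (hS _ h2 hs) _ (h3 (Fin.last i))
          rw [dotProduct_comm]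
          exact this
        rw [if_pos h4, Real.log_pow]
        ring
    rw [Finset.sum_congr rfl h1, Finset.mul_sum]
    have h5 := (push_sib2 w T T' (Fin.elim0 : Fin 0 → Fin (i + 1)) (fun a => a.elim0)
      (Fin.elim0 : Fin 0 → Fin j) (fun a => a.elim0)).sum
      (fun p => Real.log 2 * (Module.finrank (ZMod 2) (S p.1) : ℝ))
    rw [h5, Fintype.sum_prod_type]
    refine Finset.sum_congr rfl fun ω _ => ?_
    rw [Fintype.sum_prod_type]
    simp [sib2]
    ring
  · intro p hp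
    obtain ⟨h2, h3, _⟩ := sib2_ne_zero hp
    have h4 : p.2.1 (Fin.last i) ∈ perp (S p.1) := by
      rw [mem_perp]
      intro s hs
      have := (mem_perp _ _).1 (hS _ h2 hs) _ (h3 (Fin.last i))
      rw [dotProduct_comm]
      exact this
    show 0 < (if p.2.1 (Fin.last i) ∈ perp (S p.1) then
      (2 : ℝ) ^ Module.finrank (ZMod 2) (S p.1) else 0)
    rw [if_pos h4]
    positivity
  · intro p _
    show ∑ a : V n, (if a ∈ perp (S p.1) then (2 : ℝ) ^ Module.finrank (ZMod 2) (S p.1) else 0) =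
      (Fintype.card (V n) : ℝ)
    rw [card_perp36]
    simp

section

variable {B C : Type*}

/-- entropy of the statistic given the broom -/
noncomputable def JJ (w : Ω → ℝ) (T T' : Ω → Submodule (ZMod 2) (V n)) (D : Ω → B) (S : Ω → C)
    (i j : ℕ) : ℝ :=
  CE (sib2 w T T' i j) (fun p => S p.1) (fun p => (D p.1, p.2.1, p.2.2))

lemma JJ_nonneg (w : Ω → ℝ) (hw : ∀ ω, 0 ≤ w ω) (T T' : Ω → Submodule (ZMod 2) (V n)) (D : Ω → B)
    (S : Ω → C) (i j : ℕ) : 0 ≤ JJ w T T' D S i j :=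
  CE_nonneg _ (sib2_nonneg w hw T T' i j) _ _

lemma JJ_swap (w : Ω → ℝ) (hw : ∀ ω, 0 ≤ w ω) (T T' : Ω → Submodule (ZMod 2) (V n)) (D : Ω → B)
    (S : Ω → C) (i j : ℕ) : JJ w T T' D S i j = JJ w T' T D S j i := by
  have h1 := (push_swap w T T' i j).CE (fun p => S p.1) (fun p => (D p.1, p.2.1, p.2.2))
  unfold JJ
  rw [← h1]
  refine CE_cond_congr _ (sib2_nonneg w hw T T' i j) _ _ _ fun p p' _ _ => ?_
  simp only [Prod.mk.injEq]
  tauto

/-- more siblings, less entropy -/
lemma JJ_anti_left (w : Ω → ℝ) (hw : ∀ ω, 0 ≤ w ω) (T T' : Ω → Submodule (ZMod 2) (V n))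
    (D : Ω → B) (S : Ω → C) {i i' : ℕ} (hi : i ≤ i') (j : ℕ) :
    JJ w T T' D S i' j ≤ JJ w T T' D S i j := by
  have h1 := (push_sib2 w T T' (Fin.castLE hi) (Fin.castLE_injective hi)
    (id : Fin j → Fin j) Function.injective_id).CE (fun p => S p.1) (fun p => (D p.1, p.2.1, p.2.2))
  unfold JJ
  rw [← h1]
  refine CE_finer _ (sib2_nonneg w hw T T' _ _) _ _ _ ?_
  intro p p' _ _ h
  simp only [Prod.mk.injEq] at h ⊢
  exact ⟨h.1, by rw [h.2.1], by rw [h.2.2]⟩

lemma JJ_anti_right (w : Ω → ℝ) (hw : ∀ ω, 0 ≤ w ω) (T T' : Ω → Submodule (ZMod 2) (V n))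
    (D : Ω → B) (S : Ω → C) (i : ℕ) {j j' : ℕ} (hj : j ≤ j') :
    JJ w T T' D S i j' ≤ JJ w T T' D S i j := by
  rw [JJ_swap w hw T T' D S i j', JJ_swap w hw T T' D S i j]
  exact JJ_anti_left w hw T' T D S hj i

/-- the information between the statistic and the row siblings, computed on both sides -/
lemma info_rows (w : Ω → ℝ) (hw : ∀ ω, 0 ≤ w ω) (T T' : Ω → Submodule (ZMod 2) (V n)) (D : Ω → B)
    (S : Ω → C) (i j : ℕ) :
    ∑ l ∈ range i, eR w T T' (fun ω => (S ω, D ω)) l j + JJ w T T' D S i j =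
      ∑ l ∈ range i, eR w T T' D l j + JJ w T T' D S 0 j := by
  have hW := sib2_nonneg w hw T T' i j
  have h1 : KK (sib2 w T T' i j) (fun p => p.2.1) (fun p => (S p.1, (D p.1, p.2.2))) +
      CE (sib2 w T T' i j) (fun p => S p.1) (fun p => (p.2.1, (D p.1, p.2.2))) =
      KK (sib2 w T T' i j) (fun p => p.2.1) (fun p => (D p.1, p.2.2)) +
      CE (sib2 w T T' i j) (fun p => S p.1) (fun p => (D p.1, p.2.2)) := by
    have h0 := KK_pair_cond (sib2 w T T' i j) hW (fun p => p.2.1) (fun p => S p.1)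
      (fun p => (D p.1, p.2.2))
    rw [MI_comm _ hW] at h0
    unfold MI at h0
    linarith
  have h2 := KR_sum w hw T T' D i j
  have h3 := KR_sum w hw T T' (fun ω => (S ω, D ω)) i j
  have h4 : KK (sib2 w T T' i j) (fun p => p.2.1) (fun p => (S p.1, (D p.1, p.2.2))) =
      KK (sib2 w T T' i j) (fun p => p.2.1) (fun p => ((S p.1, D p.1), p.2.2)) := by
    refine le_antisymm ?_ ?_
    · refine KK_finer _ hW _ _ _ ?_
      intro p p' _ _ h
      simp only [Prod.mk.injEq] at h ⊢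
      exact ⟨h.1.1, h.1.2, h.2⟩
    · refine KK_finer _ hW _ _ _ ?_
      intro p p' _ _ h
      simp only [Prod.mk.injEq] at h ⊢
      exact ⟨⟨h.1, h.2.1⟩, h.2.2⟩
  have h5 : CE (sib2 w T T' i j) (fun p => S p.1) (fun p => (p.2.1, (D p.1, p.2.2))) =
      JJ w T T' D S i j := by
    refine CE_cond_congr _ hW _ _ _ fun p p' _ _ => ?_
    simp only [Prod.mk.injEq]
    tauto
  have h6 : CE (sib2 w T T' i j) (fun p => S p.1) (fun p => (D p.1, p.2.2)) =
      JJ w T T' D S 0 j := by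
    have h7 := (push_sib2 w T T' (Fin.elim0 : Fin 0 → Fin i) (fun a => a.elim0)
      (id : Fin j → Fin j) Function.injective_id).CE (fun p => S p.1)
      (fun p => (D p.1, p.2.1, p.2.2))
    unfold JJ
    rw [← h7]
    refine CE_cond_congr _ hW _ _ _ fun p p' _ _ => ?_
    simp only [Prod.mk.injEq, Function.comp_id]
    refine ⟨fun h => ⟨h.1, ?_, h.2⟩, fun h => ⟨h.1, h.2.2⟩⟩
    funext a
    exact a.elim0
  rw [h4, h3, h5, h2, h6] at h1
  exact h1

end

/-- **Lemma L** -/
theorem lemmaL (w : Ω → ℝ) (hw : ∀ ω, 0 ≤ w ω) {A : Type*} [Fintype A]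
    (T T' : Ω → Submodule (ZMod 2) (V n)) (m : Ω → A) (S : Ω → Submodule (ZMod 2) (V n))
    (hS : ∀ ω, w ω ≠ 0 → S ω ≤ perp (T' ω)) (q M : ℕ) (hq : q ≤ M) (hM : 1 ≤ M) :
    ((M : ℝ) - q) * (Real.log 2 * ∑ ω, w ω * (Module.finrank (ZMod 2) (S ω) : ℝ)) +
        UU w T T' m M q ≤
      UU w T T' m 0 M + M * (UU w T T' m M q - UU w T T' m (M - 1) q) +
        (M + 1) * JJ w T T' m S (M - 1) q := by
  obtain ⟨M', rfl⟩ : ∃ M', M = M' + 1 := ⟨M - 1, by omega⟩
  simp only [Nat.add_sub_cancel]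
  set d : ℝ := Real.log 2 * ∑ ω, w ω * (Module.finrank (ZMod 2) (S ω) : ℝ) with hd
  -- columns: the statistic is tested by the siblings `q, ..., M - 1`
  have c1 := info_rows w hw T' T m S (M' + 1) 0
  have c2 := info_rows w hw T' T m S q 0
  have c3 : ((M' + 1 : ℕ) - q : ℝ) * d ≤
      ∑ l ∈ Finset.Ico q (M' + 1), eR w T' T (fun ω => (S ω, m ω)) l 0 := by
    have h1 : ∑ _l ∈ Finset.Ico q (M' + 1), d ≤
        ∑ l ∈ Finset.Ico q (M' + 1), eR w T' T (fun ω => (S ω, m ω)) l 0 :=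
      Finset.sum_le_sum fun l _ => eR_dim w hw T' T m S hS l 0
    rw [Finset.sum_const, Nat.card_Ico, nsmul_eq_mul, Nat.cast_sub hq] at h1
    exact h1
  have c4 : ∑ l ∈ range (M' + 1), eR w T' T (fun ω => (S ω, m ω)) l 0 =
      ∑ l ∈ range q, eR w T' T (fun ω => (S ω, m ω)) l 0 +
      ∑ l ∈ Finset.Ico q (M' + 1), eR w T' T (fun ω => (S ω, m ω)) l 0 :=
    (Finset.sum_range_add_sum_Ico _ hq).symm
  have c5 := UU_eq_sum_right w hw T T' m 0 (M' + 1)
  have c6 := UU_eq_sum_right w hw T T' m 0 q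
  have c7 := JJ_nonneg w hw T' T m S (M' + 1) 0
  -- rows
  have r1 := info_rows w hw T T' m S (M' + 1) q
  have r2 := UU_eq_sum_left w hw T T' m (M' + 1) q
  have r3 : ∑ l ∈ range (M' + 1), eR w T T' (fun ω => (S ω, m ω)) l q ≤
      ((M' + 1 : ℕ) : ℝ) * (eR w T T' m M' q + JJ w T T' m S M' q) := by
    have h1 : ∀ l ∈ range (M' + 1), eR w T T' (fun ω => (S ω, m ω)) l q ≤
        eR w T T' m M' q + JJ w T T' m S M' q := by
      intro l hl
      have hl' : l ≤ M' := by
        have := Finset.mem_range.1 hl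
        omega
      exact (eR_mono_left w hw T T' _ hl' q).trans (eR_data_le w hw T T' m S M' q)
    have h2 := Finset.sum_le_sum h1
    rwa [Finset.sum_const, Finset.card_range, nsmul_eq_mul] at h2
  have r4 := JJ_anti_left w hw T T' m S (Nat.le_succ M') q
  have r5 := UU_succ_left w hw T T' m M' q
  have r6 := JJ_nonneg w hw T T' m S (M' + 1) q
  have s1 := JJ_swap w hw T T' m S 0 q
  have e1 : UU w T T' m (M' + 1) q - UU w T T' m M' q = eR w T T' m M' q := by linarith
  rw [e1]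
  push_cast at c3 r3 ⊢
  nlinarith [c1, c2, c3, c4, c5, c6, c7, r1, r2, r3, r4, r5, r6, s1]

/-- **Lemma L** for a weight which is invariant under the exchange of rows and columns -/
theorem lemmaL_sym (w : Ω → ℝ) (hw : ∀ ω, 0 ≤ w ω) {A : Type*} [Fintype A]
    (T T' : Ω → Submodule (ZMod 2) (V n)) (m : Ω → A) (S : Ω → Submodule (ZMod 2) (V n))
    (hS : ∀ ω, w ω ≠ 0 → S ω ≤ perp (T' ω)) (q M : ℕ) (hq : q ≤ M) (hM : 1 ≤ M)
    (hsym : UU w T T' m 0 M = UU w T T' m M 0) :
    ((M : ℝ) - q) * (Real.log 2 * ∑ ω, w ω * (Module.finrank (ZMod 2) (S ω) : ℝ)) ≤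
      M * eR w T T' m (M - 1) q + (M + 1) * JJ w T T' m S (M - 1) q := by
  have h1 := lemmaL w hw T T' m S hS q M hq hM
  have h2 := UU_mono w hw T T' m (le_refl M) (Nat.zero_le q)
  have h3 : UU w T T' m M q - UU w T T' m (M - 1) q = eR w T T' m (M - 1) q := by
    obtain ⟨M', rfl⟩ : ∃ M', M = M' + 1 := ⟨M - 1, by omega⟩
    have := UU_succ_left w hw T T' m M' q
    simp only [Nat.add_sub_cancel]
    linarith
  rw [h3] at h1
  linarith

/-- number of subspaces -/
lemma card_submodule_le : Nat.card (Submodule (ZMod 2) (V n)) ≤ 2 ^ (n * n) := by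
  classical
  have h1 : Function.Surjective
      (fun x : Fin n → V n => Submodule.span (ZMod 2) (Set.range x)) := by
    intro S
    obtain ⟨b⟩ : Nonempty (Module.Basis (Fin (Module.finrank (ZMod 2) S)) (ZMod 2) S) :=
      ⟨Module.finBasis (ZMod 2) S⟩
    have hd : Module.finrank (ZMod 2) S ≤ n := by
      have := Submodule.finrank_le S
      simpa using this
    refine ⟨fun i => if h : i.val < Module.finrank (ZMod 2) S then (b ⟨i.val, h⟩ : V n) else 0, ?_⟩
    apply le_antisymm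
    · rw [Submodule.span_le]
      rintro _ ⟨i, rfl⟩
      show (if h : i.val < Module.finrank (ZMod 2) S then (b ⟨i.val, h⟩ : V n) else 0) ∈ S
      split
      · exact Subtype.mem _
      · exact S.zero_mem
    · intro x hx
      have h2 := b.mem_span (⟨x, hx⟩ : S)
      have h3 : (S.subtype (⟨x, hx⟩ : S)) ∈
          (Submodule.span (ZMod 2) (Set.range b)).map S.subtype :=
        Submodule.mem_map_of_mem h2
      rw [Submodule.map_span] at h3
      refine Submodule.span_mono ?_ h3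
      rintro _ ⟨_, ⟨i, rfl⟩, rfl⟩
      refine ⟨⟨i.val, lt_of_lt_of_le i.isLt hd⟩, ?_⟩
      simp [i.isLt]
  have h2 := Nat.card_le_card_of_surjective _ h1
  refine h2.trans (le_of_eq ?_)
  rw [Nat.card_eq_fintype_card, Fintype.card_fun, Fintype.card_fun, ZMod.card, Fintype.card_fin,
    ← pow_mul]

/-- a statistic which is decoded from the broom up to probability `2 ^ (-s)` -/
theorem JJ_le_of_decoder (w : Ω → ℝ) (hw : ∀ ω, 0 ≤ w ω) (htot : tot w ≤ 1) {B : Type*}
    (T T' : Ω → Submodule (ZMod 2) (V n)) (D : Ω → B) (S : Ω → Submodule (ZMod 2) (V n))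
    (i j : ℕ) (dec : B × (Fin i → V n) × (Fin j → V n) → Submodule (ZMod 2) (V n)) (s : ℕ)
    (hs : 1 ≤ s)
    (h : pr (sib2 w T T' i j) {p | S p.1 ≠ dec (D p.1, p.2.1, p.2.2)} ≤ (1 / 2 : ℝ) ^ s) :
    JJ w T T' D S i j ≤ (1 / 2 : ℝ) ^ s * (n ^ 2 + 2 * s + 3) := by
  classical
  have : Fintype (Submodule (ZMod 2) (V n)) := Fintype.ofFinite _
  have hW := sib2_nonneg w hw T T' i j
  have h1 := CE_fano (sib2 w T T' i j) hW (fun p => S p.1) (fun p => (D p.1, p.2.1, p.2.2))
    Finset.univ (fun _ _ => Finset.mem_univ _) (fun b => {dec b})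
  have h2 : ∑ p, ind {p : Ω × (Fin i → V n) × (Fin j → V n) |
      S p.1 ∈ ({dec (D p.1, p.2.1, p.2.2)} : Finset (Submodule (ZMod 2) (V n)))}
      (sib2 w T T' i j) p * Real.log (({dec (D p.1, p.2.1, p.2.2)} :
        Finset (Submodule (ZMod 2) (V n))).card) = 0 := by
    refine Finset.sum_eq_zero fun p _ => ?_
    simp
  rw [h2, zero_add] at h1
  have e1 : {p : Ω × (Fin i → V n) × (Fin j → V n) |
      S p.1 ∉ ({dec (D p.1, p.2.1, p.2.2)} : Finset (Submodule (ZMod 2) (V n)))} =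
      {p | S p.1 ≠ dec (D p.1, p.2.1, p.2.2)} := by
    ext p
    simp
  rw [e1] at h1
  set b := pr (sib2 w T T' i j) {p | S p.1 ≠ dec (D p.1, p.2.1, p.2.2)} with hb
  set a := pr (sib2 w T T' i j) {p : Ω × (Fin i → V n) × (Fin j → V n) |
      S p.1 ∈ ({dec (D p.1, p.2.1, p.2.2)} : Finset (Submodule (ZMod 2) (V n)))} with ha
  have ha0 : 0 ≤ a := Finset.sum_nonneg fun p _ => Set.indicator_nonneg (fun _ _ => hW _) _
  have hb0 : 0 ≤ b := Finset.sum_nonneg fun p _ => Set.indicator_nonneg (fun _ _ => hW _) _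
  have hab : a + b ≤ 1 := by
    have h3 : a + b = tot (sib2 w T T' i j) := by
      rw [ha, hb]
      unfold pr tot
      rw [← Finset.sum_add_distrib]
      refine Finset.sum_congr rfl fun p _ => ?_
      by_cases hp : S p.1 = dec (D p.1, p.2.1, p.2.2)
      · rw [ind, ind, Set.indicator_of_mem (by simpa using hp), Set.indicator_of_notMem (by
          simpa using hp), add_zero]
      · rw [ind, ind, Set.indicator_of_notMem (by simpa using hp), Set.indicator_of_mem (by
          simpa using hp), zero_add]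
    rw [h3, tot_sib2]
    exact htot
  have h2s : (2 : ℝ) ≤ 2 ^ s := by
    calc (2 : ℝ) = 2 ^ 1 := by norm_num
      _ ≤ 2 ^ s := pow_le_pow_right₀ (by norm_num) hs
  have h4 := HH_le a b (2 ^ s) ha0 hb0 hab h2s
  have h5 : Real.log ((Finset.univ : Finset (Submodule (ZMod 2) (V n))).card) ≤ (n : ℝ) ^ 2 := by
    have h6 := card_submodule_le (n := n)
    rw [Nat.card_eq_fintype_card] at h6
    rw [Finset.card_univ]
    have h7 : (0 : ℝ) < Fintype.card (Submodule (ZMod 2) (V n)) := by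
      exact_mod_cast Fintype.card_pos
    have h8 : Real.log (Fintype.card (Submodule (ZMod 2) (V n))) ≤ Real.log (2 ^ (n * n)) := by
      refine Real.log_le_log h7 ?_
      exact_mod_cast h6
    rw [Real.log_pow] at h8
    have h9 := Real.log_two_lt_d9
    push_cast at h8
    nlinarith [sq_nonneg (n : ℝ), mul_self_nonneg (n : ℝ)]
  rw [Real.log_pow] at h4
  have hl2 := Real.log_two_lt_d9
  have hl2' := Real.log_two_gt_d9
  have h10 : (2 : ℝ) / 2 ^ s = 2 * (1 / 2) ^ s := by
    rw [one_div, inv_pow]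
    ring
  rw [h10] at h4
  have h11 : 0 ≤ Real.log ((Finset.univ : Finset (Submodule (ZMod 2) (V n))).card) := by
    refine Real.log_nonneg ?_
    rw [Finset.card_univ]
    exact_mod_cast Fintype.card_pos
  have hs0 : (0 : ℝ) ≤ s := Nat.cast_nonneg s
  have h12 : b * Real.log ((Finset.univ : Finset (Submodule (ZMod 2) (V n))).card) ≤
      (1 / 2) ^ s * (n : ℝ) ^ 2 := mul_le_mul h h5 h11 (by positivity)
  have h13 : b * (1 + 2 * (s * Real.log 2)) ≤ (1 / 2) ^ s * (1 + 2 * s) := by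
    refine mul_le_mul h ?_ (by positivity) (by positivity)
    nlinarith
  unfold JJ
  linarith

end Pool.Agent.CutSeq.NJ
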