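import Pool.Agent.NJ.LocDefs
import Pool.Agent.NJ.LemmaL36

/-!
S19271 / NJ, row FA: Fano, and the number of subspaces.
-/

set_option autoImplicit false

namespace Pool.Agent.NJ

open Finset Pool.Agent.CutSeq Pool.Agent.CutSeq.NJ

/-- FA (Fano) -/
theorem HC_fano {Ω A' B : Type*} [Fintype Ω] [Fintype A'] (w : Ω → ℝ) (hw : ∀ ω, 0 ≤ w ω)
    (X : Ω → A') (Y : Ω → B) (Dec : B → A') :
    HC w X Y ≤ pr w {ω | Dec (Y ω) ≠ X ω} * Real.log (Fintype.card A')
      + HH (pr w {ω | Dec (Y ω) ≠ X ω}) (tot w - pr w {ω | Dec (Y ω) ≠ X ω}) := by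
  classical
  have h1 := CE_fano w hw X Y Finset.univ (fun _ _ => Finset.mem_univ _) (fun b => {Dec b})
  have h2 : ∑ ω, ind {ω | X ω ∈ ({Dec (Y ω)} : Finset A')} w ω
      * Real.log ((({Dec (Y ω)} : Finset A').card : ℕ) : ℝ) = 0 := by
    refine Finset.sum_eq_zero fun ω _ => ?_
    rw [Finset.card_singleton]
    simp
  have h3 : {ω | X ω ∉ ({Dec (Y ω)} : Finset A')} = {ω | Dec (Y ω) ≠ X ω} := by
    ext ω
    simp [eq_comm]
  have h4 : pr w {ω | X ω ∈ ({Dec (Y ω)} : Finset A')} = tot w - pr w {ω | Dec (Y ω) ≠ X ω} := by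
    rw [← h3]
    unfold pr tot ind
    rw [← Finset.sum_sub_distrib]
    refine Finset.sum_congr rfl fun ω _ => ?_
    by_cases h : X ω ∈ ({Dec (Y ω)} : Finset A')
    · have e1 : ω ∈ {ω | X ω ∈ ({Dec (Y ω)} : Finset A')} := h
      have e2 : ω ∉ {ω | X ω ∉ ({Dec (Y ω)} : Finset A')} := fun h' => h' h
      rw [Set.indicator_of_mem e1, Set.indicator_of_notMem e2, sub_zero]
    · have e1 : ω ∉ {ω | X ω ∈ ({Dec (Y ω)} : Finset A')} := h
      have e2 : ω ∈ {ω | X ω ∉ ({Dec (Y ω)} : Finset A')} := h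
      rw [Set.indicator_of_notMem e1, Set.indicator_of_mem e2, sub_self]
  unfold HC
  rw [KK_eq_sub_CE w hw, sub_sub_cancel]
  rw [h2, h3, h4, zero_add, Finset.card_univ] at h1
  refine h1.trans (le_of_eq ?_)
  congr 1
  unfold HH
  rw [add_comm (tot w - pr w {ω | Dec (Y ω) ≠ X ω}), add_comm]

/-- number of subspaces -/
theorem card_sub_le (n : ℕ) :
    Real.log (Fintype.card (Submodule (ZMod 2) (V n))) ≤ n ^ 2 * Real.log 2 := by
  have h1 := card_submodule_le (n := n)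
  rw [Nat.card_eq_fintype_card] at h1
  have h2 : (Fintype.card (Submodule (ZMod 2) (V n)) : ℝ) ≤ 2 ^ (n * n) := by exact_mod_cast h1
  have h3 : (0 : ℝ) < Fintype.card (Submodule (ZMod 2) (V n)) := by
    exact_mod_cast Fintype.card_pos
  refine (Real.log_le_log h3 h2).trans (le_of_eq ?_)
  rw [Real.log_pow]
  push_cast
  ring

end Pool.Agent.NJ
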