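import Pool.Agent.NJ.JuncB77
import Pool.Agent.NJ.Prod13
import Pool.Agent.NJ.EndB46

/-!
S19271, target B, row ITERATION (Z1 ==> Z2): the linear NOJUMP, iterated `J` times, gives the rounds.
-/

set_option autoImplicit false

namespace Pool.Agent.CutSeq.NJ

open Finset Filter Topology

/-- Z1 of NJ_RowsB16: linear NOJUMP -/
def NoJumpZ : Prop := ∃ C₀ : ℝ, 0 < C₀ ∧ ∀ C d v : ℝ, 0 < d → 0 < v → ∃ N₀ : ℕ, ∀ N ≥ N₀,
    ∀ n : ℕ, N ≤ n → n + 1 ≤ 2 * N → ∀ l : ℕ, 6 * n * (4 * N) ≤ l → (l : ℝ) ≤ C * N * (4 * N) →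
      ∀ l' : ℕ, l + d * N * (4 * N) ≤ l' →
      K0 (uw (4 * N) l') (fun ω => mm (ext ω) l' (n + 1))
          - K0 (uw (4 * N) l') (fun ω => mm (ext ω) l' n)
        ≤ C₀ / (d * N) * K0 (uw (4 * N) l) (fun ω => mm (ext ω) l (n + 1)) + v * N

theorem uw_nonneg32 {B L : ℕ} (ω : Wd B L) : 0 ≤ uw B L ω := Evt.uw_nonneg ω

/-- one more level -/
theorem K0_level32 (B L n : ℕ) :
    K0 (uw B L) (fun ω => mm (ext ω) L (n + 1))
      = K0 (uw B L) (fun ω => mm (ext ω) L n)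
        + KK (uw B L) (fun ω => row (ext ω) L n) (fun ω => mm (ext ω) L n) :=
  K0_pre_succ (uw B L) uw_nonneg32 (fun ω => arr (ext ω) L) n

/-- helper46's form gives Z1 -/
theorem noJumpZ_of_B32 (h : NoJumpB) : NoJumpZ := by
  obtain ⟨C₀, hC₀, h⟩ := h
  refine ⟨C₀, hC₀, fun C d v hd hv => ?_⟩
  obtain ⟨N₀, h⟩ := h d v hd hv
  refine ⟨N₀, fun N hN n hn hn2 l hl _ l' hl' => ?_⟩
  have h1 := h N hN n hn hn2 l l' (by rw [← mul_assoc]; exact hl) hl'
  unfold fB46 pB46 at h1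
  rw [K0_level32]
  have e : C₀ / (d * N) * K0 (uw (4 * N) l) (fun ω => mm (ext ω) l (n + 1))
      = C₀ * K0 (uw (4 * N) l) (fun ω => mm (ext ω) l (n + 1)) / (d * N) := by ring
  rw [e]
  linarith

/-- the deficit decreases in time -/
theorem K0_time32 {B : ℕ} (hB : 0 < B) (n : ℕ) {l l' : ℕ} (h : l ≤ l') :
    K0 (uw B l') (fun ω => mm (ext ω) l' n) ≤ K0 (uw B l) (fun ω => mm (ext ω) l n) := by
  rw [K0_mm hB, K0_mm hB]
  have := ent_anti hB n h
  simp only at this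
  linarith

/-- one row costs at most `n log 2` -/
theorem K0_level_le32 {B : ℕ} (hB : 0 < B) (L n : ℕ) :
    K0 (uw B L) (fun ω => mm (ext ω) L (n + 1))
      ≤ K0 (uw B L) (fun ω => mm (ext ω) L n) + n * Real.log 2 := by
  rw [K0_level32]
  have h1 := KK_le (uw B L) uw_nonneg32 (fun ω => row (ext ω) L n) (fun ω => mm (ext ω) L n)
  rw [Brg.tot_uw B L hB, one_mul, log_card_V] at h1
  linarith

/-- deficit of the levels `< n` after `l` letters -/
noncomputable def KN32 (B n l : ℕ) : ℝ := K0 (uw B l) (fun ω => mm (ext ω) l n)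

theorem KN32_nonneg (B n l : ℕ) : 0 ≤ KN32 B n l := KK_nonneg _ uw_nonneg32 _ _

theorem KN32_time {B : ℕ} (hB : 0 < B) (n : ℕ) {l l' : ℕ} (h : l ≤ l') : KN32 B n l' ≤ KN32 B n l :=
  K0_time32 hB n h

theorem KN32_level_le {B : ℕ} (hB : 0 < B) (l n : ℕ) :
    KN32 B (n + 1) l ≤ KN32 B n l + n * Real.log 2 := K0_level_le32 hB l n

theorem KN32_mono (B l : ℕ) {n m : ℕ} (h : n ≤ m) : KN32 B n l ≤ KN32 B m l := K0_uw_mono l h

/-- levels `N .. N + k` -/
theorem KN32_levels {B l N : ℕ} (k : ℕ) (u : ℝ)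
    (h : ∀ i < k, KN32 B (N + i + 1) l - KN32 B (N + i) l ≤ u) :
    KN32 B (N + k) l ≤ KN32 B N l + k * u := by
  induction k with
  | zero => simp
  | succ k ih =>
    have h1 := ih fun i hi => h i (by omega)
    have h2 := h k (by omega)
    rw [← add_assoc]
    push_cast
    linarith

/-- the recursion, abstractly -/
theorem iter_abs32 (D : ℕ → ℝ) (J : ℕ) (a A E : ℝ) (ha0 : 0 ≤ a) (ha : a ≤ 1 / 2) (hE : 0 ≤ E)
    (h0 : D 0 ≤ A) (hs : ∀ j < J, D (j + 1) ≤ E + a * D j) (j : ℕ) (hj : j ≤ J) :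
    D j ≤ a ^ j * A + 2 * E := by
  induction j with
  | zero => rw [pow_zero, one_mul]; linarith
  | succ j ih =>
    have e1 := hs j (by omega)
    have e2 := mul_le_mul_of_nonneg_left (ih (by omega)) ha0
    have e3 : a * (2 * E) ≤ E := by nlinarith
    have e4 : a * (a ^ j * A + 2 * E) = a ^ (j + 1) * A + a * (2 * E) := by ring
    rw [e4] at e2
    linarith

/-- the linear NOJUMP in terms of `KN32` -/
theorem noJumpZ_KN (h : NoJumpZ) : ∃ C₀ : ℝ, 0 < C₀ ∧ ∀ C d v : ℝ, 0 < d → 0 < v → ∃ N₀ : ℕ, ∀ N ≥ N₀,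
    ∀ n : ℕ, N ≤ n → n + 1 ≤ 2 * N → ∀ l : ℕ, 6 * n * (4 * N) ≤ l → (l : ℝ) ≤ C * N * (4 * N) →
      ∀ l' : ℕ, l + d * N * (4 * N) ≤ l' →
      KN32 (4 * N) (n + 1) l' - KN32 (4 * N) n l' ≤ C₀ / (d * N) * KN32 (4 * N) (n + 1) l + v * N := h

/-- **ITERATION** in terms of `KN32` -/
theorem rounds_KN32 (hNJ : NoJumpZ) : ∃ C₁ : ℝ, 1 ≤ C₁ ∧ ∀ (J : ℕ) (C d x v : ℝ), 0 < d → 0 < x →
    x ≤ 1 / 8 → 0 < v → C₁ * (J + 1) * x ≤ d → ∃ N₀ : ℕ, ∃ κ : ℝ, 0 < κ ∧ ∀ N ≥ N₀, ∀ n₁ : ℕ,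
      (N : ℝ) ≤ n₁ → (n₁ : ℝ) ≤ (1 + x) * N →
      ∀ l : ℕ, 7 * N * (4 * N) ≤ l + x * N * (4 * N) → (l : ℝ) ≤ C * N * (4 * N) →
      KN32 (4 * N) N l ≤ κ * N ^ 2 → ∀ l' : ℕ, l + d * N * (4 * N) ≤ l' →
      KN32 (4 * N) n₁ l' ≤ ((C₁ * (J + 1) * x / d) ^ J * x + v) * N ^ 2 := by
  obtain ⟨C₀, hC₀, hNJ⟩ := noJumpZ_KN hNJ
  refine ⟨max 1 (2 * C₀), le_max_left _ _, ?_⟩
  intro J C d x v hd hx hx8 hv hC1
  set C₁ : ℝ := max 1 (2 * C₀) with hC₁
  have hC₁0 : 0 < C₁ := lt_of_lt_of_le one_pos (le_max_left _ _)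
  have hC₁2 : 2 * C₀ ≤ C₁ := le_max_right _ _
  set d' : ℝ := d / (J + 1) with hd'
  have hJ0 : (0 : ℝ) < (J : ℝ) + 1 := by positivity
  have hd'0 : 0 < d' := by positivity
  obtain ⟨N₁, hN₁⟩ := hNJ (C + d) d' v hd'0 hv
  set κ : ℝ := v / 6 with hκ
  have hκ0 : 0 < κ := by positivity
  -- the ratio
  set a : ℝ := C₀ * x / d' with ha
  have ha0 : 0 ≤ a := by positivity
  have ha1 : a ≤ C₁ * (J + 1) * x / d / 2 := by
    have e1 : a = 2 * C₀ * ((J + 1) * x / d) / 2 := by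
      rw [ha, hd']; field_simp
    have e2 : C₁ * (J + 1) * x / d / 2 = C₁ * ((J + 1) * x / d) / 2 := by ring
    rw [e1, e2]
    have : 0 ≤ (J + 1) * x / d := by positivity
    have := mul_le_mul_of_nonneg_right hC₁2 this
    linarith
  have ha2 : a ≤ 1 / 2 := by
    refine ha1.trans ?_
    have : C₁ * (J + 1) * x / d ≤ 1 := (div_le_one hd).2 hC1
    linarith
  refine ⟨max N₁ (⌈(J + 1 : ℝ) * (J + 1) / d⌉₊ + 1), κ, hκ0, fun N hN n₁ h1 h2 l h3 h4 h5 l' h6 => ?_⟩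
  have hNN₁ : N₁ ≤ N := le_trans (le_max_left _ _) hN
  have hN2 : ⌈(J + 1 : ℝ) * (J + 1) / d⌉₊ + 1 ≤ N := le_trans (le_max_right _ _) hN
  have hN1 : 1 ≤ N := by omega
  have hNR : (1 : ℝ) ≤ N := by exact_mod_cast hN1
  have hN0 : (0 : ℝ) < N := by linarith
  have hB : 0 < 4 * N := by omega
  have hJN : (J + 1 : ℝ) * (J + 1) / d ≤ N := by
    refine (Nat.le_ceil _).trans ?_
    have : ⌈(J + 1 : ℝ) * (J + 1) / d⌉₊ ≤ N := by omega
    exact_mod_cast this
  -- the step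
  obtain ⟨s, hs1, hs2⟩ : ∃ s : ℕ, d' * N * (4 * N) ≤ (s : ℝ) ∧ (s : ℝ) ≤ d' * N * (4 * N) + 1 :=
    ⟨⌈d' * N * (4 * N)⌉₊, Nat.le_ceil _, (Nat.ceil_lt_add_one (by positivity)).le⟩
  have hsJ : (J : ℝ) * s ≤ d * N * (4 * N) := by
    have e1 : (J : ℝ) * s ≤ J * (d' * N * (4 * N) + 1) :=
      mul_le_mul_of_nonneg_left hs2 (Nat.cast_nonneg _)
    have e2 : d * N * (4 * N) = (J + 1) * (d' * N * (4 * N)) := by
      rw [hd']; field_simp
    have e3 : (J : ℝ) ≤ d' * N * (4 * N) := by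
      rw [div_le_iff₀ hd] at hJN
      have e4 : (J : ℝ) + 1 ≤ d' * N := by
        rw [hd', div_mul_eq_mul_div, le_div_iff₀ hJ0]
        linarith
      have e5 : d' * N ≤ d' * N * (4 * N) := by
        have : 0 ≤ d' * N := by positivity
        nlinarith
      linarith
    rw [e2]
    linarith
  obtain ⟨k, rfl⟩ : ∃ k, n₁ = N + k := ⟨n₁ - N, by
    have : N ≤ n₁ := by exact_mod_cast h1
    omega⟩
  have hk : (k : ℝ) ≤ x * N := by
    push_cast at h2
    linarith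
  have hk0 : (0 : ℝ) ≤ k := Nat.cast_nonneg _
  have hxN : x * N ≤ 1 / 8 * N := mul_le_mul_of_nonneg_right hx8 hN0.le
  have hlog : Real.log 2 ≤ 7 / 10 := by
    have := Real.log_two_lt_d9
    linarith
  have hlog0 : 0 ≤ Real.log 2 := Real.log_nonneg (by norm_num)
  have hN2' : (0 : ℝ) ≤ (N : ℝ) ^ 2 := by positivity
  -- start
  have hD0 : KN32 (4 * N) (N + k) (l + 0 * s) ≤ κ * N ^ 2 + x * N ^ 2 := by
    rw [Nat.zero_mul, Nat.add_zero]
    have e1 : KN32 (4 * N) (N + k) l ≤ KN32 (4 * N) N l + k * ((N + k) * Real.log 2) := by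
      refine KN32_levels k _ fun i hi => ?_
      have e2 := KN32_level_le hB l (N + i)
      have e3 : ((N + i : ℕ) : ℝ) * Real.log 2 ≤ ((N : ℝ) + k) * Real.log 2 := by
        refine mul_le_mul_of_nonneg_right ?_ hlog0
        push_cast
        have : (i : ℝ) ≤ k := by exact_mod_cast hi.le
        linarith
      linarith
    have e2 : (k : ℝ) * ((N + k) * Real.log 2) ≤ x * N ^ 2 := by
      have e3 : ((N : ℝ) + k) * Real.log 2 ≤ N := by
        have : (N : ℝ) + k ≤ 9 / 8 * N := by linarith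
        have f := mul_le_mul this hlog hlog0 (by positivity)
        linarith
      calc (k : ℝ) * ((N + k) * Real.log 2) ≤ k * N := mul_le_mul_of_nonneg_left e3 hk0
        _ ≤ x * N * N := mul_le_mul_of_nonneg_right hk hN0.le
        _ = x * N ^ 2 := by ring
    linarith
  -- one round
  have hstep : ∀ j < J, KN32 (4 * N) (N + k) (l + (j + 1) * s)
      ≤ (κ * N ^ 2 + x * v * N ^ 2) + a * KN32 (4 * N) (N + k) (l + j * s) := by
    intro j hj
    have hjJ : ((j : ℝ) + 1) ≤ J := by exact_mod_cast hj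
    have hs0 : (0 : ℝ) ≤ s := Nat.cast_nonneg _
    have hjs : (j : ℝ) * s ≤ J * s := mul_le_mul_of_nonneg_right (by linarith) hs0
    have hDnn := KN32_nonneg (4 * N) (N + k) (l + j * s)
    have e1 : KN32 (4 * N) (N + k) (l + (j + 1) * s) ≤ KN32 (4 * N) N (l + (j + 1) * s)
        + k * (C₀ / (d' * N) * KN32 (4 * N) (N + k) (l + j * s) + v * N) := by
      refine KN32_levels k _ fun i hi => ?_
      have hiR : (i : ℝ) + 1 ≤ k := by exact_mod_cast hi
      have c1 : N + i + 1 ≤ 2 * N := by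
        have : (N : ℝ) + i + 1 ≤ 2 * N := by linarith
        exact_mod_cast this
      have c2 : 6 * (N + i) * (4 * N) ≤ l + j * s := by
        have : (6 : ℝ) * (N + i) * (4 * N) ≤ l + j * s := by
          have f1 : (6 : ℝ) * (N + i) * (4 * N) + x * N * (4 * N) ≤ 7 * N * (4 * N) := by
            have f2 : (6 : ℝ) * (N + i) + x * N ≤ 7 * N := by linarith
            have f3 : (0 : ℝ) ≤ 4 * N := by positivity
            calc (6 : ℝ) * (N + i) * (4 * N) + x * N * (4 * N)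
                = (6 * (N + i) + x * N) * (4 * N) := by ring
              _ ≤ 7 * N * (4 * N) := mul_le_mul_of_nonneg_right f2 f3
          have f4 : (0 : ℝ) ≤ j * s := by positivity
          linarith
        exact_mod_cast this
      have c3 : ((l + j * s : ℕ) : ℝ) ≤ (C + d) * N * (4 * N) := by
        push_cast
        have : (C + d) * N * (4 * N) = C * N * (4 * N) + d * N * (4 * N) := by ring
        linarith
      have c4 : ((l + j * s : ℕ) : ℝ) + d' * N * (4 * N) ≤ ((l + (j + 1) * s : ℕ) : ℝ) := by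
        push_cast
        linarith
      have e2 := hN₁ N hNN₁ (N + i) (Nat.le_add_right _ _) c1 (l + j * s) c2 c3 (l + (j + 1) * s) c4
      refine e2.trans ?_
      have e3 : KN32 (4 * N) (N + i + 1) (l + j * s) ≤ KN32 (4 * N) (N + k) (l + j * s) :=
        KN32_mono _ _ (by omega)
      have e4 : 0 ≤ C₀ / (d' * N) := by positivity
      have := mul_le_mul_of_nonneg_left e3 e4
      linarith
    have e2 : KN32 (4 * N) N (l + (j + 1) * s) ≤ κ * N ^ 2 :=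
      (KN32_time hB N (Nat.le_add_right _ _)).trans h5
    have e3 : (k : ℝ) * (C₀ / (d' * N) * KN32 (4 * N) (N + k) (l + j * s) + v * N)
        ≤ x * v * N ^ 2 + a * KN32 (4 * N) (N + k) (l + j * s) := by
      have f0 : 0 ≤ C₀ / (d' * N) * KN32 (4 * N) (N + k) (l + j * s) + v * N := by positivity
      refine (mul_le_mul_of_nonneg_right hk f0).trans (le_of_eq ?_)
      rw [ha]
      field_simp
      ring
    linarith
  have hfin := iter_abs32 (fun j => KN32 (4 * N) (N + k) (l + j * s)) J a (κ * N ^ 2 + x * N ^ 2)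
    (κ * N ^ 2 + x * v * N ^ 2) ha0 ha2 (by positivity) hD0 hstep J le_rfl
  -- the end
  have hend : KN32 (4 * N) (N + k) l' ≤ KN32 (4 * N) (N + k) (l + J * s) := by
    refine KN32_time hB _ ?_
    have : ((l + J * s : ℕ) : ℝ) ≤ l' := by
      push_cast
      linarith
    exact_mod_cast this
  refine hend.trans (hfin.trans ?_)
  have haJ : a ^ J ≤ (C₁ * (J + 1) * x / d) ^ J := by
    refine pow_le_pow_left₀ ha0 ?_ J
    have : 0 ≤ C₁ * (J + 1) * x / d := by positivity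
    linarith
  have haJ1 : a ^ J ≤ 1 := pow_le_one₀ ha0 (by linarith)
  have g1 : a ^ J * (κ * N ^ 2 + x * N ^ 2) ≤ κ * N ^ 2 + (C₁ * (J + 1) * x / d) ^ J * x * N ^ 2 := by
    have e1 : a ^ J * (κ * N ^ 2) ≤ 1 * (κ * N ^ 2) := mul_le_mul_of_nonneg_right haJ1 (by positivity)
    have e2 : a ^ J * (x * N ^ 2) ≤ (C₁ * (J + 1) * x / d) ^ J * (x * N ^ 2) :=
      mul_le_mul_of_nonneg_right haJ (by positivity)
    rw [mul_add]
    linarith
  have g2 : 3 * (κ * N ^ 2) + 2 * (x * v * N ^ 2) ≤ v * N ^ 2 := by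
    have e0 : 0 ≤ v * (N : ℝ) ^ 2 := by positivity
    have e1 : x * v * (N : ℝ) ^ 2 ≤ 1 / 8 * (v * N ^ 2) := by
      rw [mul_assoc]
      exact mul_le_mul_of_nonneg_right hx8 e0
    have e2 : κ * (N : ℝ) ^ 2 = v * N ^ 2 / 6 := by rw [hκ]; ring
    linarith
  rw [add_mul]
  linarith

/-- **ITERATION**: Z1 implies Z2 -/
theorem rounds_of_nojump32 (hNJ : NoJumpZ) : RoundsB := rounds_KN32 hNJ

/-- **ITERATION**, from helper46's `NoJumpB` -/
theorem rounds_of_B32 (hNJ : NoJumpB) : RoundsB := rounds_of_nojump32 (noJumpZ_of_B32 hNJ)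

/-- the form which the junction consumes -/
theorem spread_of_B32 (hNJ : NoJumpB) : SpreadB := spread_of_rounds (rounds_of_B32 hNJ)

end Pool.Agent.CutSeq.NJ
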