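import Pool.Agent.NJ.LV85
import Pool.Agent.NJ.Brm85

/-! Tilt bound for the local structure (helper85).

* `Loc.rowL85`, `Loc.colL85`, `Loc.corL85`: linear versions.
* `edat_mix85`, `dat_mix85`: the data of the combined siblings are a public function of the larger data.
* `pubE_bal85`: fibres of equal size.
* `Loc.tb_ext`, `Loc.tb_loc`: (TB) for the extended data and for the data.
* `Loc.tb_dat`: the form used by the list bound.
-/

set_option autoImplicit false

namespace Pool.Agent.NJ

open Finset Pool.Agent.CutSeq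

section Lin

variable {H A : Type*} {n t : ℕ} (S : Loc H A n t)

/-- row sibling, linear in the coins -/
def Loc.rowL85 (h : H) : V t →ₗ[ZMod 2] V n where
  toFun := S.row h
  map_add' := by
    intro x y
    simp only [Loc.row, Pi.add_apply, add_smul, Finset.sum_add_distrib]
  map_smul' := by
    intro c x
    simp only [Loc.row, Pi.smul_apply, smul_eq_mul, mul_smul, Finset.smul_sum, RingHom.id_apply]

/-- column sibling, linear in the coins -/
def Loc.colL85 (h : H) : V t →ₗ[ZMod 2] V n where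
  toFun := S.col h
  map_add' := by
    intro x y
    simp only [Loc.col, Pi.add_apply, add_smul, Finset.sum_add_distrib]
  map_smul' := by
    intro c x
    simp only [Loc.col, Pi.smul_apply, smul_eq_mul, mul_smul, Finset.smul_sum, RingHom.id_apply]

/-- corner bit, bilinear in the coins -/
def Loc.corL85 (h : H) : V t →ₗ[ZMod 2] V t →ₗ[ZMod 2] ZMod 2 :=
  LinearMap.mk₂ (ZMod 2) (S.cor h)
    (by
      intro x x' y
      simp only [Loc.cor, Pi.add_apply, add_mul, Finset.sum_add_distrib])
    (by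
      intro c x y
      simp only [Loc.cor, Pi.smul_apply, smul_eq_mul, Finset.mul_sum]
      refine Finset.sum_congr rfl fun r _ => Finset.sum_congr rfl fun r' _ => ?_
      ring)
    (by
      intro x y y'
      simp only [Loc.cor, Pi.add_apply, mul_add, add_mul, Finset.sum_add_distrib])
    (by
      intro c x y
      simp only [Loc.cor, Pi.smul_apply, smul_eq_mul, Finset.mul_sum]
      refine Finset.sum_congr rfl fun r _ => Finset.sum_congr rfl fun r' _ => ?_
      ring)

lemma Loc.rowL_apply85 (h : H) (x : V t) : S.rowL85 h x = S.row h x := rfl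

lemma Loc.colL_apply85 (h : H) (x : V t) : S.colL85 h x = S.col h x := rfl

lemma Loc.corL_apply85 (h : H) (x y : V t) : S.corL85 h x y = S.cor h x y := rfl

end Lin

section Pub

variable {H A : Type*} {n t : ℕ} (S : Loc H A n t) {i j l : ℕ}

/-- combined corner bits -/
def mixC85 (D : Cf i j l) (c : Fin (i + l) → Fin (j + l) → ZMod 2) : Fin i → Fin j → ZMod 2 :=
  fun a => mx D.2 (spl85 j l (ZMod 2) (mx D.1 (spl85 i l (Fin (j + l) → ZMod 2) c) a))

/-- the public map on the linear part of the extended data -/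
def pubEL85 (D : Cf i j l) :
    (Co n (i + l) (j + l) × (Fin (i + l) → Fin (j + l) → ZMod 2)) →+
      (Co n i j × (Fin i → Fin j → ZMod 2)) where
  toFun := fun y => (mix D y.1, mixC85 D y.2)
  map_zero' := by
    refine Prod.ext (Prod.ext ?_ ?_) ?_
    · funext a
      simp [mix]
    · funext a
      simp [mix]
    · funext a b
      simp [mixC85, mx, spl_inl85, spl_inr85]
  map_add' := by
    intro y y'
    refine Prod.ext (Prod.ext ?_ ?_) ?_
    · funext a
      simp only [mix, Prod.fst_add, Pi.add_apply, smul_add, Finset.sum_add_distrib]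
      abel
    · funext a
      simp only [mix, Prod.fst_add, Prod.snd_add, Pi.add_apply, smul_add, Finset.sum_add_distrib]
      abel
    · funext a b
      simp only [mixC85, mx, spl_inl85, spl_inr85, Prod.snd_add, Pi.add_apply, smul_add,
        Finset.sum_add_distrib, Finset.sum_apply, Pi.smul_apply]
      abel

lemma pubEL_surj85 (D : Cf i j l) : Function.Surjective (pubEL85 (n := n) D) := by
  intro y
  refine ⟨((Fin.append y.1.1 0, Fin.append y.1.2 0),
    Fin.append (fun a => Fin.append (y.2 a) 0) 0), ?_⟩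
  refine Prod.ext (Prod.ext ?_ ?_) ?_
  · funext a
    simp [pubEL85, mix]
  · funext a
    simp [pubEL85, mix]
  · funext a b
    simp [pubEL85, mixC85, mx, spl_inl85, spl_inr85]

/-- the public map on the extended data -/
def pubE85 (D : Cf i j l)
    (y : (A × (Fin (i + l) → V n) × (Fin (j + l) → V n)) × (Fin (i + l) → Fin (j + l) → ZMod 2)) :
    (A × (Fin i → V n) × (Fin j → V n)) × (Fin i → Fin j → ZMod 2) :=
  ((y.1.1, mix D y.1.2), mixC85 D y.2)

/-- the extended data of the combined siblings -/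
theorem Loc.edat_mix85 (D : Cf i j l) (h : H) (c : Co t (i + l) (j + l)) :
    S.edat i j (h, mix D c) = pubE85 D (S.edat (i + l) (j + l) (h, c)) := by
  refine Prod.ext (Prod.ext rfl (Prod.ext ?_ ?_)) ?_
  · funext a
    exact map_mx (S.rowL85 h) D.1 (spl85 i l (V t) c.1) a
  · funext b
    exact map_mx (S.colL85 h) D.2 (spl85 j l (V t) c.2) b
  · funext a b
    change S.corL85 h (mx D.1 (spl85 i l (V t) c.1) a) (mx D.2 (spl85 j l (V t) c.2) b) = _
    rw [map_mx (S.corL85 h (mx D.1 (spl85 i l (V t) c.1) a)) D.2 (spl85 j l (V t) c.2) b]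
    change mx D.2 _ b = mx D.2 _ b
    congr 1
    funext b'
    rw [map_mx (S.corL85 h) D.1 (spl85 i l (V t) c.1) a]
    cases b' with
    | inl b' =>
      rw [spl_inl85, spl_inl85]
      simp only [mx, LinearMap.add_apply, LinearMap.sum_apply, LinearMap.smul_apply, Pi.add_apply,
        Finset.sum_apply, Pi.smul_apply, spl_inl85, spl_inr85]
      rfl
    | inr b' =>
      rw [spl_inr85, spl_inr85]
      simp only [mx, LinearMap.add_apply, LinearMap.sum_apply, LinearMap.smul_apply, Pi.add_apply,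
        Finset.sum_apply, Pi.smul_apply, spl_inl85, spl_inr85]
      rfl

/-- the data of the combined siblings -/
theorem Loc.dat_mix85 (D : Cf i j l) (h : H) (c : Co t (i + l) (j + l)) :
    S.dat i j (h, mix D c) =
      ((S.dat (i + l) (j + l) (h, c)).1, mix D (S.dat (i + l) (j + l) (h, c)).2) :=
  congrArg Prod.fst (S.edat_mix85 D h c)

/-- fibres of equal size -/
theorem pubE_bal85 [Fintype A] (D : Cf i j l)
    (a : (A × (Fin i → V n) × (Fin j → V n)) × (Fin i → Fin j → ZMod 2)) :
    Nat.card {y // pubE85 (A := A) (n := n) D y = a} *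
      Fintype.card ((A × (Fin i → V n) × (Fin j → V n)) × (Fin i → Fin j → ZMod 2)) =
    Fintype.card ((A × (Fin (i + l) → V n) × (Fin (j + l) → V n)) ×
      (Fin (i + l) → Fin (j + l) → ZMod 2)) := by
  have h1 : Nat.card {y // pubE85 (A := A) (n := n) D y = a} =
      Nat.card {x // pubEL85 (n := n) D x = (a.1.2, a.2)} := by
    refine Nat.card_congr
      { toFun := fun y => ⟨(y.1.1.2, y.1.2), ?_⟩
        invFun := fun x => ⟨((a.1.1, x.1.1), x.1.2), ?_⟩
        left_inv := ?_
        right_inv := fun x => rfl }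
    · exact congrArg (fun z => (z.1.2, z.2)) y.2
    · have h := x.2
      have h1 : mix D x.1.1 = a.1.2 := congrArg (fun z => z.1) h
      have h2 : mixC85 D x.1.2 = a.2 := congrArg (fun z => z.2) h
      change ((a.1.1, mix D x.1.1), mixC85 D x.1.2) = a
      rw [h1, h2]
    · rintro ⟨⟨⟨u, v⟩, v'⟩, h⟩
      have := congrArg (fun z => z.1.1) h
      apply Subtype.ext
      exact Prod.ext (Prod.ext this.symm rfl) rfl
  have h2 := hom_bal (pubEL85 (n := n) D) (pubEL_surj85 D) (a.1.2, a.2)
  rw [h1]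
  simp only [Fintype.card_prod] at h2 ⊢
  calc _ = Fintype.card A * (Nat.card {x // pubEL85 (n := n) D x = (a.1.2, a.2)} *
        (Fintype.card (Fin i → V n) * Fintype.card (Fin j → V n) *
          Fintype.card (Fin i → Fin j → ZMod 2))) := by ring
    _ = _ := by rw [h2]; ring

end Pub

section TB

variable {H A : Type*} [Fintype H] [Fintype A] {n t : ℕ} (S : Loc H A n t)

/-- (TB) for the extended data -/
theorem Loc.tb_ext (w : H → ℝ) (hw : ∀ h, 0 ≤ w h) (hw1 : tot w ≤ 1) (M : ℝ) (hM : 0 ≤ M)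
    (I : ℕ) (hSC : S.SC w M I) (i j l : ℕ) (hI : (i + l) + (j + l) ≤ I)
    (E : Set ((A × (Fin i → V n) × (Fin j → V n)) × (Fin i → Fin j → ZMod 2))) (lam : ℝ)
    (hE : (Nat.card E : ℝ) ≤ Real.exp (-lam) *
      Fintype.card ((A × (Fin i → V n) × (Fin j → V n)) × (Fin i → Fin j → ZMod 2)))
    (q : ℝ) (hq0 : 0 < q) (hq : q ≤ pr (pw w (Co t i j)) {p | S.edat i j p ∈ E})
    (he : 16 * (1 / 2) ^ l ≤ q) :
    lam ≤ 2 * M + 3 * Real.log (1 / q) + 6 * Real.log 2 := by
  refine tb_event (C := Co t i j) (C' := Co t (i + l) (j + l)) (K := Cf i j l) w hw hw1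
    (fun h c => S.edat i j (h, c)) (fun h c => S.edat (i + l) (j + l) (h, c)) mix pubE85
    (fun h k c => S.edat_mix85 k h c) (fun k a => pubE_bal85 k a) ((1 / 2) ^ l) (fun g => mix_var g) M hM
    E lam hE q hq0 hq he ?_
  intro G _ _
  exact hSC G (i + l) (j + l) hI

/-- (TB) for the data -/
theorem Loc.tb_loc (w : H → ℝ) (hw : ∀ h, 0 ≤ w h) (hw1 : tot w ≤ 1) (M : ℝ) (hM : 0 ≤ M)
    (I : ℕ) (hSC : S.SC w M I) (i j l : ℕ) (hI : (i + l) + (j + l) ≤ I)
    (E : Set (A × (Fin i → V n) × (Fin j → V n))) (lam : ℝ)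
    (hE : (Nat.card E : ℝ) ≤ Real.exp (-lam) *
      Fintype.card (A × (Fin i → V n) × (Fin j → V n)))
    (q : ℝ) (hq0 : 0 < q) (hq : q ≤ pr (pw w (Co t i j)) {p | S.dat i j p ∈ E})
    (he : 16 * (1 / 2) ^ l ≤ q) :
    lam ≤ 2 * M + 3 * Real.log (1 / q) + 6 * Real.log 2 := by
  refine S.tb_ext w hw hw1 M hM I hSC i j l hI {y | y.1 ∈ E} lam ?_ q hq0 hq he
  have h1 : Nat.card ({y | y.1 ∈ E} : Set ((A × (Fin i → V n) × (Fin j → V n)) ×
      (Fin i → Fin j → ZMod 2))) = Nat.card E * Fintype.card (Fin i → Fin j → ZMod 2) := by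
    rw [← Nat.card_eq_fintype_card, ← Nat.card_prod]
    exact Nat.card_congr
      { toFun := fun y => (⟨y.1.1, y.2⟩, y.1.2)
        invFun := fun y => ⟨(y.1.1, y.2), y.1.2⟩
        left_inv := fun y => rfl
        right_inv := fun y => rfl }
  rw [h1, Fintype.card_prod]
  push_cast
  rw [← mul_assoc]
  exact mul_le_mul_of_nonneg_right hE (by positivity)

/-- (TB) in the form used by the list bound -/
theorem Loc.tb_dat (w : H → ℝ) (hw : ∀ h, 0 ≤ w h) (hw1 : tot w ≤ 1) (M : ℝ) (hM : 0 ≤ M)
    (I : ℕ) (hSC : S.SC w M I) (i j k s l r : ℕ) (hI : (i + l) + (j + r + l) ≤ I) (hks : k + 1 ≤ s)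
    (hnum : 2 * M + 3 * l * Real.log 2 < ((r : ℝ) - s) * ((s : ℝ) - k - 1) * Real.log 2)
    (E : Set (A × (Fin i → V n) × (Fin (j + r) → V n)))
    (hE : (Nat.card E : ℝ) * 2 ^ (r * (s - k - 1)) ≤ 2 ^ (s * (s - k - 1)) *
      Fintype.card (A × (Fin i → V n) × (Fin (j + r) → V n))) :
    pr (pw w (Co t i (j + r))) {p | S.dat i (j + r) p ∈ E} ≤ 16 * (1 / 2) ^ l := by
  by_contra hcon
  push Not at hcon
  have hq0 : (0 : ℝ) < 16 * (1 / 2) ^ l := by positivity
  have hu : ((s - k - 1 : ℕ) : ℝ) = (s : ℝ) - k - 1 := by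
    have : s - k - 1 = s - (k + 1) := by omega
    rw [this, Nat.cast_sub hks]
    push_cast
    ring
  have hlam : (Nat.card E : ℝ) ≤ Real.exp (-(((r : ℝ) - s) * ((s : ℝ) - k - 1) * Real.log 2)) *
      Fintype.card (A × (Fin i → V n) × (Fin (j + r) → V n)) := by
    have e1 : Real.exp (-(((r : ℝ) - s) * ((s : ℝ) - k - 1) * Real.log 2)) =
        2 ^ (s * (s - k - 1)) / 2 ^ (r * (s - k - 1)) := by
      rw [← Real.exp_log (show (0 : ℝ) < 2 ^ (s * (s - k - 1)) / 2 ^ (r * (s - k - 1)) by positivity),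
        Real.log_div (by positivity) (by positivity), Real.log_pow, Real.log_pow]
      congr 1
      push_cast
      rw [hu]
      ring
    rw [e1, div_mul_eq_mul_div, le_div_iff₀ (by positivity)]
    exact hE
  have h := S.tb_loc w hw hw1 M hM I hSC i (j + r) l hI E _ hlam (16 * (1 / 2) ^ l) hq0 hcon.le le_rfl
  have hlog : Real.log (1 / (16 * (1 / 2) ^ l)) = l * Real.log 2 - 4 * Real.log 2 := by
    have : (1 : ℝ) / (16 * (1 / 2) ^ l) = 2 ^ l / 2 ^ 4 := by
      rw [one_div_pow]
      field_simp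
      norm_num
    rw [this, Real.log_div (by positivity) (by positivity), Real.log_pow, Real.log_pow]
    norm_num
  rw [hlog] at h
  have hl2 := Real.log_pos (show (1 : ℝ) < 2 by norm_num)
  nlinarith

end TB

end Pool.Agent.NJ
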