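import Pool.Agent.NJ.LB58
import Pool.Agent.NJ.TBl85

/-!
S19271 / NJ, row LB (helper58 with helper85): the list is short, verbatim.
-/

set_option autoImplicit false

namespace Pool.Agent.NJ

open Finset Pool.Agent.CutSeq

variable {H A : Type*} [Fintype H] [Fintype A] {n t : ℕ} (S : Loc H A n t)

/-- **LB**: the list is short. -/
theorem Loc.list_short (w : H → ℝ) (hw : ∀ h, 0 ≤ w h) (hw1 : tot w ≤ 1) (M : ℝ) (hM : 0 ≤ M)
    (I : ℕ) (hSC : S.SC w M I) (i j k s l r : ℕ) (hI : (i + l) + (j + r + l) ≤ I) (hks : k + 1 ≤ s)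
    (hnum : 2 * M + 3 * l * Real.log 2 < ((r : ℝ) - s) * ((s : ℝ) - k - 1) * Real.log 2) :
    pr (pw w (Co t i j)) {p | 2 ^ s < Nat.card (S.ls w i j k (S.dat i j p))} ≤ 2 ^ (k + 5) * (1 / 2) ^ l :=
  S.list_short_of58 w hw i j k s l r hks
    (fun E hE => S.tb_dat w hw hw1 M hM I hSC i j k s l r hI hks hnum E hE)

end Pool.Agent.NJ
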