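import Pool.Agent.NJ.VTa41
import Pool.Agent.NJ.LBz58
import Pool.Agent.NJ.DC69

/-!
S19271 / NJ, row VT: the relations of the list are, up to a tiny error, inside a space which is a
function of the history and is decoded from more siblings.  Assembly of LB (the list is short), RB
(robust statistic) and DC (decoding).
-/

set_option autoImplicit false

namespace Pool.Agent.NJ

open Finset Pool.Agent.CutSeq

variable {H A : Type*} [Fintype H] [Fintype A] {n t : ℕ} (S : Loc H A n t)

open Classical in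
/-- VT: the relations of the list are, up to a tiny error, inside a space `T'` which is a function of the
history and is decoded from `i + 24 s` row and `j + 24 s + 3 s` column siblings -/
theorem Loc.visible (w : H → ℝ) (hw : ∀ h, 0 ≤ w h) (hw1 : tot w ≤ 1) (M : ℝ) (hM : 0 ≤ M)
    (I : ℕ) (hSC : S.SC w M I) (i j k s r : ℕ) (hk : 1 ≤ k) (hks : k + 1 ≤ s) (hn : n ≤ 2 ^ s)
    (hI : (i + 48 * s) + (j + r + 48 * s) ≤ I)
    (hnum : 2 * M + 72 * s * Real.log 2 < ((r : ℝ) - s) * ((s : ℝ) - k - 1) * Real.log 2) :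
    ∃ T' : H → Submodule (ZMod 2) (V n), (∀ h, T' h ≤ perp (S.TC h)) ∧
      (∑ p, pw w (Co t i j) p * Real.log (Nat.card {a : V n // a ∈ perp (S.TC p.1) ∧
          a ∈ lst (pw w (Co t i j)) (fun p => S.TC p.1) (S.dat i j) k (S.dat i j p)})
        ≤ Real.log 2 * ∑ h, w h * (Module.finrank (ZMod 2) (T' h) : ℝ) + 16 * (1 / 4) ^ s) ∧
      ∃ Dec : A × (Fin (i + 24 * s) → V n) × (Fin (j + 24 * s + 3 * s) → V n) →
          Submodule (ZMod 2) (V n),
        pr (pw w (Co t (i + 24 * s) (j + 24 * s + 3 * s)))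
          {p | Dec (S.dat (i + 24 * s) (j + 24 * s + 3 * s) p) ≠ T' p.1} ≤ 16 * (1 / 4) ^ s := by
  have hs : 2 ≤ s := by omega
  have hl2 : 0 < Real.log 2 := Real.log_pos (by norm_num)
  have hksR : (k : ℝ) + 1 ≤ s := by exact_mod_cast hks
  have hkR : (1 : ℝ) ≤ k := by exact_mod_cast hk
  have hrs : 0 < (r : ℝ) - s := by
    by_contra hcon
    push Not at hcon
    have h1 : ((r : ℝ) - s) * ((s : ℝ) - k - 1) * Real.log 2 ≤ 0 := by
      refine mul_nonpos_of_nonpos_of_nonneg ?_ hl2.le
      exact mul_nonpos_of_nonpos_of_nonneg hcon (by linarith)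
    have h2 : 0 ≤ 2 * M + 72 * s * Real.log 2 := by positivity
    linarith
  refine S.visible_of41 w hw i j k s hs hks hn ?_ ?_
    (fun θ hθ => S.robust w hw hw1 i j k s (24 * s) θ hθ)
    (S.decode w hw hw1 i j k s (24 * s) (3 * s) (2 ^ (6 * s)) Nat.one_le_two_pow
      ((1 / 2) ^ (3 * s)) (by positivity))
  · refine S.list_short w hw hw1 M hM I hSC (i + 24 * s) (j + 24 * s) 1 s (24 * s) r (by omega)
      (by omega) ?_
    have h1 : ((r : ℝ) - s) * ((s : ℝ) - k - 1) * Real.log 2
        ≤ ((r : ℝ) - s) * ((s : ℝ) - (1 : ℕ) - 1) * Real.log 2 := by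
      refine mul_le_mul_of_nonneg_right (mul_le_mul_of_nonneg_left ?_ hrs.le) hl2.le
      push_cast
      linarith
    push_cast at h1 ⊢
    linarith
  · refine S.list_short w hw hw1 M hM I hSC i j k s (24 * s) r (by omega) hks ?_
    push_cast
    linarith

end Pool.Agent.NJ
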