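import Pool.Agent.NJ.JuncS89
import Pool.Agent.NJ.VT41

/-!
S19271, junction, final form: the sibling inequality for the weights of the next stage in the real model.
-/

set_option autoImplicit false

namespace Pool.Agent.CutSeq.NJ.S89

open Finset Pool.Agent.CutSeq Pool.Agent.CutSeq.NJ Pool.Agent.NJ

variable {B L : ℕ}

/-- **JUNCTION**: one column sibling is seen at most as much as a late row sibling, for the weight
`nextG` of the next stage (`hsib` of `sum61`) -/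
theorem junc89 {n0 : ℕ} {G : ℕ → Set (Wd B L)} (h : n0 + 2 ≤ B) (hG : Fam19 B L n0 G)
    (nA n x I i s1 s k r q N y0 D x' : ℕ) (κ ε M₀ : ℝ) (hn : 1 ≤ n) (hx : 1 ≤ x)
    (hsz : n + I + 2 * x ≤ nA) (hnA : nA ≤ n0) (hε : 0 < ε)
    (hM₀ : M₀ = κ + Real.log (1 / ε) + 4 * (nA : ℝ) ^ 2 * Real.exp (-((x : ℝ) ^ 2 / (16 * nA))))
    (hM0 : 0 ≤ M₀) (hs1 : 1 ≤ s1) (hs : 3 ≤ s) (hk : 1 ≤ k) (hks : k + 1 ≤ s) (hns : n ≤ 2 ^ s)
    (hq : 1 ≤ q) (hnN : n ≤ N) (hkq : 2 * N ≤ k * q)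
    (hy0 : s1 + 27 * s ≤ y0) (hD : 2 * y0 ≤ D) (hx' : 1 ≤ x')
    (hI1 : i + (s1 + q + x') ≤ I) (hI2 : i + D + x' + y0 ≤ I)
    (hI3 : (i + 48 * s) + (s1 + r + 48 * s) ≤ I)
    (hnum : 2 * M₀ + 72 * s * Real.log 2 < ((r : ℝ) - s) * ((s : ℝ) - k - 1) * Real.log 2) :
    fw (ind (nextG h G nA κ ε n) (uw B L)) 1 n i
      ≤ UU (ind (nextG h G nA κ ε n) (uw B L)) (fun ω => TR (ext ω) L 1 n)
          (fun ω => TC (ext ω) L 1 n) (fun ω => wm (ext ω) L 1 n) (i + D) y0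
        - UU (ind (nextG h G nA κ ε n) (uw B L)) (fun ω => TR (ext ω) L 1 n)
          (fun ω => TC (ext ω) L 1 n) (fun ω => wm (ext ω) L 1 n) (i + D - 1) y0
        + ((q : ℝ) ^ 2 * ((M₀ + 1) / x') / s1 + 2 * y0 * ((M₀ + 1) / x') / D
          + 64 * (1 / 4) ^ s * (n ^ 2 + 4 * s) + 16 * (1 / 4) ^ s + (1 / 2) ^ N) := by
  refine junc_of_vis h hG nA n x I i s1 s k q N y0 D x' κ ε M₀ hn hx hsz hnA hε hM₀ hM0 hs1 hs hq
    hnN hkq hy0 hD hx' hI1 hI2 fun y hy => ?_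
  have hw : ∀ ω, 0 ≤ ind (nextG h G nA κ ε n) (uw B L) ω :=
    fun ω => ind_nonneg19 _ (fun _ => (uw_pos19 _).le) ω
  have hw1 : tot (ind (nextG h G nA κ ε n) (uw B L)) ≤ 1 := by
    have h1 : tot (ind (nextG h G nA κ ε n) (uw B L)) ≤ tot (uw B L) := by
      unfold tot
      refine Finset.sum_le_sum fun ω _ => ?_
      unfold ind
      exact Set.indicator_le_self' (fun _ _ => (uw_pos19 _).le) ω
    have h2 : tot (uw B L) ≤ 1 := by
      unfold tot uw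
      rw [Finset.sum_const, Finset.card_univ, nsmul_eq_mul, mul_one_div]
      exact div_self_le_one _
    exact h1.trans h2
  have hSC := locR_SC (L := L) h hG nA n I x hn hx hsz hnA κ ε hε
  rw [← hM₀] at hSC
  exact (locR B L n).visible _ hw hw1 M₀ hM0 I hSC i y k s r hk hks hns (by omega) hnum

end Pool.Agent.CutSeq.NJ.S89
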