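import Pool.Agent.NJ.Rot84
import Pool.Agent.NJ.T1s59

/-!
S19271, row MODEL: entropies of windows, the chain step (removing the lowest level of the window).
-/

set_option autoImplicit false

namespace Pool.Agent.CutSeq.NJ

open Finset

variable {B L : ℕ}

/-! #### K1: the landed level `n` -/

theorem K0_wm_mm (n : ℕ) (h : n ≤ B) :
    K0 (uw B L) (fun ω => wm (ext ω) L 1 n) = K0 (uw B L) (fun ω => mm (ext ω) L n) := by
  classical
  refine KK_law _ _ _ _ _ _ fun a b => ?_
  unfold mass
  refine ((Equiv.sum_comp (tau B L) _).symm).trans (Finset.sum_congr rfl fun ω _ => ?_)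
  have e : wm (ext (tau B L ω)) L 1 n = mm (ext ω) L n := by
    rw [← wm_zero]
    exact wm_tau 0 n (by omega) ω
  simp only [e, uw_tau]
  split_ifs <;> rfl

/-! #### K2: entries of a window -/

/-- fibres of a surjective homomorphism -/
theorem card_fiber_hom {A A' : Type*} [Fintype A] [Fintype A'] [AddGroup A] [AddGroup A']
    (φ : A → A') (hadd : ∀ x y, φ (x + y) = φ x + φ y) (hφ : Function.Surjective φ) (a' : A') :
    Nat.card {a // φ a = a'} * Fintype.card A' = Fintype.card A := by
  classical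
  have hz : ∀ x y, φ (x - y) = φ x - φ y := by
    intro x y
    have := hadd (x - y) y
    rw [sub_add_cancel] at this
    rw [this, add_sub_cancel_right]
  have h1 : ∀ b', Nat.card {a // φ a = b'} = Nat.card {a // φ a = a'} := by
    intro b'
    obtain ⟨x, hx⟩ := hφ a'
    obtain ⟨y, hy⟩ := hφ b'
    refine Nat.card_congr ⟨fun z => ⟨z.val - y + x, by
        rw [hadd, hz, z.2, hy, sub_self, zero_add, hx]⟩,
      fun z => ⟨z.val - x + y, by rw [hadd, hz, z.2, hx, sub_self, zero_add, hy]⟩, ?_, ?_⟩
    · intro z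
      apply Subtype.ext
      show z.val - y + x - x + y = z.val
      rw [add_sub_cancel_right, sub_add_cancel]
    · intro z
      apply Subtype.ext
      show z.val - x + y - y + x = z.val
      rw [add_sub_cancel_right, sub_add_cancel]
  have h2 : Fintype.card A = ∑ b' : A', Nat.card {a // φ a = b'} := by
    rw [← Nat.card_eq_fintype_card, ← Nat.card_congr (Equiv.sigmaFiberEquiv φ), Nat.card_sigma]
  rw [h2, Finset.sum_congr rfl fun b' _ => h1 b', Finset.sum_const, Finset.card_univ, smul_eq_mul,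
    mul_comm]

/-- the entries of the window at given positions -/
def entU {n : ℕ} {ι : Type*} (pos : ι → ℕ × ℕ) (hpos : ∀ i, (pos i).2 < (pos i).1 ∧ (pos i).1 < n)
    (x : Un n) : ι → ZMod 2 := fun i => x ⟨(pos i).1, (hpos i).2⟩ ⟨(pos i).2, (hpos i).1⟩

theorem entU_card {n : ℕ} {ι : Type*} [Fintype ι] [DecidableEq ι] (pos : ι → ℕ × ℕ)
    (hpos : ∀ i, (pos i).2 < (pos i).1 ∧ (pos i).1 < n) (hinj : Function.Injective pos)
    (a' : ι → ZMod 2) :
    Nat.card {a : Un n // entU pos hpos a = a'} * Fintype.card (ι → ZMod 2)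
      = Fintype.card (Un n) := by
  classical
  refine card_fiber_hom (A := Un n) (A' := ι → ZMod 2) (entU pos hpos) (fun x y => rfl) ?_ a'
  intro v
  refine ⟨fun k j => if h : ∃ i, pos i = (k.val, j.val) then v h.choose else 0, ?_⟩
  funext i
  show (if h : ∃ i', pos i' = ((pos i).1, (pos i).2) then v h.choose else 0) = v i
  have h : ∃ i', pos i' = ((pos i).1, (pos i).2) := ⟨i, rfl⟩
  rw [dif_pos h]
  congr 1
  exact hinj h.choose_spec

/-- entropies of entries of the window -/
theorem KK_ent_le {Ω C : Type*} [Fintype Ω] (w : Ω → ℝ) (hw : ∀ ω, 0 ≤ w ω) (α : Ω → Seq) (a n : ℕ)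
    {ι : Type*} [Fintype ι] [DecidableEq ι] (pos : ι → ℕ × ℕ)
    (hpos : ∀ i, a ≤ (pos i).2 ∧ (pos i).2 < (pos i).1 ∧ (pos i).1 < a + n)
    (hinj : Function.Injective pos) (Y : Ω → C) :
    KK w (fun ω => fun i : ι => Mst (α ω) L (pos i).1 (pos i).2) Y
      ≤ KK w (fun ω => wm (α ω) L a n) Y := by
  set pos' : ι → ℕ × ℕ := fun i => ((pos i).1 - a, (pos i).2 - a) with hp
  have hpos' : ∀ i, (pos' i).2 < (pos' i).1 ∧ (pos' i).1 < n := by
    intro i
    have := hpos i
    simp only [hp]
    omega
  have hinj' : Function.Injective pos' := by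
    intro i i' h
    have h1 := hpos i
    have h2 := hpos i'
    simp only [hp, Prod.mk.injEq] at h
    apply hinj
    exact Prod.ext (by omega) (by omega)
  have h := KK_map w hw (fun ω => wm (α ω) L a n) Y (entU pos' hpos') (entU_card pos' hpos' hinj')
  refine le_trans (le_of_eq ?_) h
  congr 1
  funext ω i
  show Mst (α ω) L (pos i).1 (pos i).2 = Mst (α ω) L (a + ((pos i).1 - a)) (a + ((pos i).2 - a))
  have := hpos i
  rw [show a + ((pos i).1 - a) = (pos i).1 by omega, show a + ((pos i).2 - a) = (pos i).2 by omega]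

theorem K0_ent_le {Ω : Type*} [Fintype Ω] (w : Ω → ℝ) (hw : ∀ ω, 0 ≤ w ω) (α : Ω → Seq) (a n : ℕ)
    {ι : Type*} [Fintype ι] [DecidableEq ι] (pos : ι → ℕ × ℕ)
    (hpos : ∀ i, a ≤ (pos i).2 ∧ (pos i).2 < (pos i).1 ∧ (pos i).1 < a + n)
    (hinj : Function.Injective pos) :
    K0 w (fun ω => fun i : ι => Mst (α ω) L (pos i).1 (pos i).2) ≤ K0 w (fun ω => wm (α ω) L a n) :=
  KK_ent_le w hw α a n pos hpos hinj _

/-! #### K3: the chain step -/

theorem uT_map {n n' : ℕ} (T : Submodule (ZMod 2) (V n')) (π : V n' →ₗ[ZMod 2] V n) (y : V n) :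
    ∑ z, uT T z * (if π z = y then (1 : ℝ) else 0) = uT (T.map π) y := by
  classical
  have h0 : ∀ z, uT T z * (if π z = y then (1 : ℝ) else 0) =
      if z ∈ T ∧ π z = y then 1 / (Nat.card T : ℝ) else 0 := by
    intro z
    unfold uT
    by_cases h1 : z ∈ T
    · by_cases h2 : π z = y
      · simp [h1, h2]
      · simp [h1, h2]
    · simp [h1]
  rw [Finset.sum_congr rfl fun z _ => h0 z, ← Finset.sum_filter, Finset.sum_const, nsmul_eq_mul]
  have h1 : ((univ.filter fun z : V n' => z ∈ T ∧ π z = y).card : ℝ)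
      = (Nat.card {z : T // π z.val = y} : ℝ) := by
    norm_cast
    rw [← Fintype.card_subtype, ← Nat.card_eq_fintype_card]
    exact Nat.card_congr ⟨fun z => ⟨⟨z.val, z.2.1⟩, z.2.2⟩, fun z => ⟨z.val.val, z.val.2, z.2⟩,
      fun _ => rfl, fun _ => rfl⟩
  rw [h1]
  unfold uT
  by_cases hy : y ∈ T.map π
  · rw [if_pos hy]
    have h2 := card_fiber_hom (A := T) (A' := T.map π)
      (fun z => ⟨π z.val, Submodule.mem_map_of_mem z.2⟩)
      (fun z z' => Subtype.ext (by
        show π ((z + z' : T) : V n') = π z.val + π z'.val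
        rw [Submodule.coe_add, map_add])) (by
        rintro ⟨_, z, hz, rfl⟩
        exact ⟨⟨z, hz⟩, rfl⟩) ⟨y, hy⟩
    have h3 : Nat.card {z : T // (⟨π z.val, Submodule.mem_map_of_mem z.2⟩ : T.map π) = ⟨y, hy⟩}
        = Nat.card {z : T // π z.val = y} :=
      Nat.card_congr (Equiv.subtypeEquivRight fun z =>
        ⟨fun h => congrArg Subtype.val h, fun h => Subtype.ext h⟩)
    rw [h3] at h2
    have h4 : (Nat.card {z : T // π z.val = y} : ℝ) * (Nat.card (T.map π) : ℝ) =
        (Nat.card T : ℝ) := by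
      rw [Nat.card_eq_fintype_card (α := T.map π), Nat.card_eq_fintype_card (α := T)]
      exact_mod_cast h2
    have h5 : (Nat.card (T.map π) : ℝ) ≠ 0 := by
      have : 0 < Nat.card (T.map π) := Nat.card_pos
      exact_mod_cast this.ne'
    have h6 : (Nat.card T : ℝ) ≠ 0 := by
      have : 0 < Nat.card T := Nat.card_pos
      exact_mod_cast this.ne'
    field_simp
    linarith
  · rw [if_neg hy]
    have : IsEmpty {z : T // π z.val = y} := ⟨fun z => hy ⟨z.val.val, z.val.2, z.2⟩⟩
    rw [Nat.card_of_isEmpty]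
    simp

/-- siblings and linear maps -/
theorem sum_sib_map {n n' i : ℕ} (T : Submodule (ZMod 2) (V n')) (π : V n' →ₗ[ZMod 2] V n)
    (g : (Fin i → V n) → ℝ) :
    ∑ X : Fin i → V n', (∏ l, uT T (X l)) * g (fun l => π (X l))
      = ∑ x : Fin i → V n, (∏ l, uT (T.map π) (x l)) * g x := by
  classical
  have h1 : ∀ x : Fin i → V n, ∏ l, uT (T.map π) (x l) =
      ∑ X : Fin i → V n', (∏ l, uT T (X l)) * (if (fun l => π (X l)) = x then 1 else 0) := by
    intro x
    have h2 : ∀ l, uT (T.map π) (x l) = ∑ z, uT T z * (if π z = x l then (1 : ℝ) else 0) :=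
      fun l => (uT_map T π (x l)).symm
    rw [Finset.prod_congr rfl fun l _ => h2 l, Finset.prod_univ_sum, Fintype.piFinset_univ]
    refine Finset.sum_congr rfl fun X _ => ?_
    rw [Finset.prod_mul_distrib]
    congr 1
    by_cases h3 : (fun l => π (X l)) = x
    · rw [if_pos h3]
      refine Finset.prod_eq_one fun l _ => ?_
      rw [if_pos (congrFun h3 l)]
    · rw [if_neg h3]
      obtain ⟨l, hl⟩ : ∃ l, π (X l) ≠ x l := by
        by_contra hcon
        push Not at hcon
        exact h3 (funext hcon)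
      refine Finset.prod_eq_zero (Finset.mem_univ l) ?_
      rw [if_neg hl]
  have h5 : ∑ x : Fin i → V n, (∏ l, uT (T.map π) (x l)) * g x =
      ∑ x : Fin i → V n, ∑ X : Fin i → V n',
        (∏ l, uT T (X l)) * (if (fun l => π (X l)) = x then 1 else 0) * g x :=
    Finset.sum_congr rfl fun x _ => by rw [h1 x, Finset.sum_mul]
  rw [h5, Finset.sum_comm]
  refine Finset.sum_congr rfl fun X _ => ?_
  have h4 : ∀ x : Fin i → V n, (∏ l, uT T (X l)) * (if (fun l => π (X l)) = x then 1 else 0) * g x
      = if (fun l => π (X l)) = x then (∏ l, uT T (X l)) * g x else 0 := by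
    intro x
    split_ifs
    · ring
    · ring
  rw [Finset.sum_congr rfl fun x _ => h4 x, Finset.sum_ite_eq univ (fun l => π (X l))]
  simp


/-- the lowest level split off: the array of the upper levels, and the lowest column -/
def lowE (n : ℕ) : Un (n + 1) ≃ Un n × V n where
  toFun x := (fun k j => x k.succ j.succ, fun k => x k.succ (⟨0, Nat.succ_pos k.val⟩ : Fin (k.val + 1)))
  invFun p := fun k => Fin.cases (motive := fun k : Fin (n + 1) => V k.val) (0 : V 0)
    (fun k => (Fin.cons (p.2 k) (p.1 k) : V (k.val + 1))) k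
  left_inv := by
    intro x
    funext k
    refine Fin.cases ?_ (fun k => ?_) k
    · funext j
      exact j.elim0
    · exact Fin.cons_self_tail (α := fun _ => ZMod 2) (x k.succ)
  right_inv := by
    rintro ⟨y, v⟩
    rfl

theorem lowE_wm (α : Seq) (a n : ℕ) :
    lowE n (wm α L a (n + 1)) = (wm α L (a + 1) n, colW α L (a + 1) n a) := by
  refine Prod.ext ?_ ?_
  · funext k j
    show Mst α L (a + (k.val + 1)) (a + (j.val + 1)) = Mst α L (a + 1 + k.val) (a + 1 + j.val)
    rw [show a + (k.val + 1) = a + 1 + k.val by omega, show a + (j.val + 1) = a + 1 + j.val by omega]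
  · funext k
    show Mst α L (a + (k.val + 1)) a = Mst α L (a + 1 + k.val) a
    rw [show a + (k.val + 1) = a + 1 + k.val by omega]

/-- removing the first coordinate -/
def tl1 (n : ℕ) : V (n + 1) →ₗ[ZMod 2] V n :=
  LinearMap.funLeft (ZMod 2) (ZMod 2) (Fin.succ : Fin n → Fin (n + 1))

/-- the data of the window of size `n + 1` with `i` row siblings, split -/
def splitE (n i : ℕ) : (Un (n + 1) × (Fin i → V (n + 1))) ≃
    ((Un n × (Fin i → V n)) × V n) × (Fin i → ZMod 2) where
  toFun p := ((((lowE n p.1).1, fun l => tl1 n (p.2 l)), (lowE n p.1).2), fun l => p.2 l 0)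
  invFun q := ((lowE n).symm (q.1.1.1, q.1.2), fun l => Fin.cons (q.2 l) (q.1.1.2 l))
  left_inv := by
    rintro ⟨x, X⟩
    refine Prod.ext ?_ ?_
    · exact (lowE n).symm_apply_apply x
    · funext l
      exact Fin.cons_self_tail (α := fun _ => ZMod 2) (X l)
  right_inv := by
    rintro ⟨⟨⟨y, X⟩, v⟩, b⟩
    show ((((lowE n ((lowE n).symm (y, v))).1,
      fun l => tl1 n (Fin.cons (b l) (X l) : V (n + 1))), (lowE n ((lowE n).symm (y, v))).2),
      fun l => (Fin.cons (b l) (X l) : V (n + 1)) 0) = (((y, X), v), b)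
    rw [(lowE n).apply_symm_apply (y, v)]
    rfl

theorem sib_nonneg' {Ω : Type*} {n : ℕ} (w : Ω → ℝ) (hw : ∀ ω, 0 ≤ w ω)
    (T : Ω → Submodule (ZMod 2) (V n)) (m : ℕ) (p : Ω × (Fin m → V n)) : 0 ≤ sib w T m p :=
  sib_nonneg_sib w hw T m p

/-- the corner bits of the row siblings given the rest (the bottom term of the chain) -/
noncomputable def bott (w : Wd B L → ℝ) (a n i : ℕ) : ℝ :=
  KK (sib w (fun ω => TR (ext ω) L a (n + 1)) i) (fun p => fun l => p.2 l 0)
    (fun p => (wm (ext p.1) L a (n + 1), fun l => tl1 n (p.2 l)))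

/-- entropy of the window array and `i` row siblings -/
noncomputable def Dw (w : Wd B L → ℝ) (a n i : ℕ) : ℝ :=
  K0 (sib w (fun ω => TR (ext ω) L a n) i) (fun p => (wm (ext p.1) L a n, p.2))

/-- entropy of one column sibling given the window array and `i` row siblings -/
noncomputable def fw (w : Wd B L → ℝ) (a n i : ℕ) : ℝ :=
  KK (sib2 w (fun ω => TR (ext ω) L a n) (fun ω => TC (ext ω) L a n) i 1) (fun p => p.2.2 0)
    (fun p => (wm (ext p.1) L a n, p.2.1))

theorem chain_step_a (w : Wd B L → ℝ) (a n i : ℕ) :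
    K0 (sib w (fun ω => TR (ext ω) L a (n + 1)) i)
        (fun p => (wm (ext p.1) L (a + 1) n, fun l => tl1 n (p.2 l))) = Dw w (a + 1) n i := by
  classical
  unfold Dw K0
  refine KK_law _ _ _ _ _ _ fun x b => ?_
  unfold mass sib
  rw [Fintype.sum_prod_type, Fintype.sum_prod_type]
  refine Finset.sum_congr rfl fun ω _ => ?_
  have h := sum_sib_map (i := i) (TR (ext ω) L a (n + 1)) (tl1 n)
    (fun X => if ((wm (ext ω) L (a + 1) n, X), ()) = (x, b) then w ω else 0)
  have hT : (TR (ext ω) L a (n + 1)).map (tl1 n) = TR (ext ω) L (a + 1) n := (TR_tail _ _ _).symm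
  rw [hT] at h
  calc _ = ∑ X : Fin i → V (n + 1), (∏ l, uT (TR (ext ω) L a (n + 1)) (X l)) *
        (if ((wm (ext ω) L (a + 1) n, fun l => tl1 n (X l)), ()) = (x, b) then w ω else 0) := by
        refine Finset.sum_congr rfl fun X _ => ?_
        simp only
        split_ifs
        · ring
        · ring
    _ = _ := by
        rw [h]
        refine Finset.sum_congr rfl fun X _ => ?_
        simp only
        split_ifs
        · ring
        · ring

theorem chain_step_b (w : Wd B L → ℝ) (a n i : ℕ) (hf : FlipInv (a + 1) w) :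
    KK (sib w (fun ω => TR (ext ω) L a (n + 1)) i) (fun p => colW (ext p.1) L (a + 1) n a)
        (fun p => (wm (ext p.1) L (a + 1) n, fun l => tl1 n (p.2 l))) = fw w (a + 1) n i := by
  classical
  unfold fw
  refine KK_law _ _ _ _ _ _ fun y b => ?_
  obtain ⟨m, x⟩ := b
  unfold mass sib sib2
  rw [Fintype.sum_prod_type, Fintype.sum_prod_type]
  -- left side
  have h1 : ∀ ω : Wd B L, (∑ X : Fin i → V (n + 1),
      if (colW (ext ω) L (a + 1) n a, wm (ext ω) L (a + 1) n, fun l => tl1 n (X l)) = (y, m, x) then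
        w ω * ∏ l, uT (TR (ext ω) L a (n + 1)) (X l) else 0)
      = (if wm (ext ω) L (a + 1) n = m then w ω * ∏ l, uT (TR (ext ω) L (a + 1) n) (x l) else 0) *
          (if colW (ext ω) L (a + 1) n a = y then 1 else 0) := by
    intro ω
    have h := sum_sib_map (i := i) (TR (ext ω) L a (n + 1)) (tl1 n)
      (fun X => if (colW (ext ω) L (a + 1) n a, wm (ext ω) L (a + 1) n, X) = (y, m, x) then w ω
        else 0)
    have hT : (TR (ext ω) L a (n + 1)).map (tl1 n) = TR (ext ω) L (a + 1) n := (TR_tail _ _ _).symm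
    rw [hT] at h
    calc _ = ∑ X : Fin i → V (n + 1), (∏ l, uT (TR (ext ω) L a (n + 1)) (X l)) *
          (if (colW (ext ω) L (a + 1) n a, wm (ext ω) L (a + 1) n, fun l => tl1 n (X l)) = (y, m, x)
            then w ω else 0) := by
          refine Finset.sum_congr rfl fun X _ => ?_
          split_ifs
          · ring
          · ring
      _ = ∑ X : Fin i → V n, if X = x then
            (if wm (ext ω) L (a + 1) n = m then w ω * ∏ l, uT (TR (ext ω) L (a + 1) n) (X l) else 0) *
              (if colW (ext ω) L (a + 1) n a = y then 1 else 0) else 0 := by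
          rw [h]
          refine Finset.sum_congr rfl fun X _ => ?_
          by_cases e1 : colW (ext ω) L (a + 1) n a = y
          · by_cases e2 : wm (ext ω) L (a + 1) n = m
            · by_cases e3 : X = x
              · simp only [e1, e2, e3, if_true]
                ring
              · simp [e3]
            · simp [e2]
          · simp [e1]
      _ = _ := by
          rw [Finset.sum_ite_eq' univ x]
          simp
  have h2 := colW_uniform (B := B) (L := L) (a + 1) n (by omega)
    (fun ω => if wm (ext ω) L (a + 1) n = m then w ω * ∏ l, uT (TR (ext ω) L (a + 1) n) (x l) else 0)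
    (by
      intro c ω
      have e1 := sameW_flip (B := B) (L := L) (a + 1) n (a + 1) (Or.inl le_rfl) c ω
      have e2 := hf c ω
      simp only [e1.wm_eq, e1.TR_eq, e2]) y
  rw [show a + 1 - 1 = a by omega] at h2
  refine (Finset.sum_congr rfl fun ω _ => (Finset.sum_congr rfl fun X _ => ?_).trans (h1 ω)).trans ?_
  · split_ifs <;> rfl
  rw [h2]
  refine Finset.sum_congr rfl fun ω _ => ?_
  rw [Fintype.sum_prod_type]
  calc _ = ∑ X : Fin i → V n, if X = x then
        ((if wm (ext ω) L (a + 1) n = m then w ω * ∏ l, uT (TR (ext ω) L (a + 1) n) (X l) else 0) *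
          uT (TC (ext ω) L (a + 1) n) y) else 0 := by
        rw [Finset.sum_ite_eq' univ x]
        simp
    _ = _ := by
        refine Finset.sum_congr rfl fun X _ => ?_
        have h3 := Equiv.sum_comp (Equiv.funUnique (Fin 1) (V n)).symm (fun z : Fin 1 → V n =>
          if (z 0, wm (ext ω) L (a + 1) n, X) = (y, m, x) then
            w ω * (∏ l, uT (TR (ext ω) L (a + 1) n) (X l)) * ∏ l, uT (TC (ext ω) L (a + 1) n) (z l)
          else 0)
        have h4 : ∀ z : V n, (if (z, wm (ext ω) L (a + 1) n, X) = (y, m, x) then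
            w ω * (∏ l, uT (TR (ext ω) L (a + 1) n) (X l)) * uT (TC (ext ω) L (a + 1) n) z else 0) =
            if z = y then (if X = x then
        ((if wm (ext ω) L (a + 1) n = m then w ω * ∏ l, uT (TR (ext ω) L (a + 1) n) (X l) else 0) *
          uT (TC (ext ω) L (a + 1) n) y) else 0) else 0 := by
          intro z
          by_cases e1 : z = y
          · by_cases e2 : wm (ext ω) L (a + 1) n = m
            · by_cases e3 : X = x
              · simp [e1, e2, e3]
              · simp [e3]
            · simp [e2]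
          · simp [e1]
        have h5 : (∑ z : Fin 1 → V n, if (z 0, wm (ext ω) L (a + 1) n, X) = (y, m, x) then
            w ω * (∏ l, uT (TR (ext ω) L (a + 1) n) (X l)) * ∏ l, uT (TC (ext ω) L (a + 1) n) (z l)
          else 0) = if X = x then
        ((if wm (ext ω) L (a + 1) n = m then w ω * ∏ l, uT (TR (ext ω) L (a + 1) n) (X l) else 0) *
          uT (TC (ext ω) L (a + 1) n) y) else 0 := by
          rw [← h3]
          simp only [Equiv.funUnique_symm_apply, Finset.univ_unique, Finset.prod_singleton,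
            uniqueElim_const]
          rw [Finset.sum_congr rfl fun z _ => h4 z, Finset.sum_ite_eq' univ y]
          simp
        rw [← h5]
        refine Finset.sum_congr rfl fun z _ => ?_
        split_ifs <;> rfl

/-- (K3) the chain step -/
theorem chain_step (w : Wd B L → ℝ) (hw : ∀ ω, 0 ≤ w ω) (a n i : ℕ) (hf : FlipInv (a + 1) w) :
    Dw w a (n + 1) i = Dw w (a + 1) n i + fw w (a + 1) n i + bott w a n i := by
  classical
  have hW := sib_nonneg' w hw (fun ω => TR (ext ω) L a (n + 1)) i
  set W := sib w (fun ω => TR (ext ω) L a (n + 1)) i with hWdef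
  have e1 : Dw w a (n + 1) i = K0 W (fun p => (((wm (ext p.1) L (a + 1) n, fun l => tl1 n (p.2 l)),
      colW (ext p.1) L (a + 1) n a), fun l => p.2 l 0)) := by
    unfold Dw
    refine (Pool.Agent.NJ.K0_bij W hW (fun p => (wm (ext p.1) L a (n + 1), p.2)) _ (splitE n i)
      ?_).symm
    intro p _
    show (((wm (ext p.1) L (a + 1) n, fun l => tl1 n (p.2 l)), colW (ext p.1) L (a + 1) n a),
      fun l => p.2 l 0) = ((((lowE n (wm (ext p.1) L a (n + 1))).1, fun l => tl1 n (p.2 l)),
      (lowE n (wm (ext p.1) L a (n + 1))).2), fun l => p.2 l 0)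
    rw [lowE_wm]
  rw [e1]
  unfold K0
  rw [KK_chain W hW, KK_chain W hW]
  have e2 : KK W (fun p => (wm (ext p.1) L (a + 1) n, fun l => tl1 n (p.2 l))) (fun _ => ())
      = Dw w (a + 1) n i := chain_step_a w a n i
  have e3 : KK W (fun p => colW (ext p.1) L (a + 1) n a)
      (fun p => ((wm (ext p.1) L (a + 1) n, fun l => tl1 n (p.2 l)), ())) = fw w (a + 1) n i := by
    rw [← chain_step_b w a n i hf]
    refine le_antisymm (KK_finer W hW _ _ _ ?_) (KK_finer W hW _ _ _ ?_)
    · intro p p' _ _ h
      rw [Prod.mk.injEq]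
      exact ⟨h, rfl⟩
    · intro p p' _ _ h
      exact (Prod.mk.inj h).1
  have e4 : KK W (fun p => fun l => p.2 l 0)
      (fun p => (((wm (ext p.1) L (a + 1) n, fun l => tl1 n (p.2 l)),
        colW (ext p.1) L (a + 1) n a), ())) = bott w a n i := by
    unfold bott
    refine le_antisymm (KK_finer W hW _ _ _ ?_) (KK_finer W hW _ _ _ ?_)
    · intro p p' _ _ h
      have h1 := (Prod.mk.inj h).1
      have h2 := (Prod.mk.inj h).2
      have h3 : lowE n (wm (ext p.1) L a (n + 1)) = lowE n (wm (ext p'.1) L a (n + 1)) := by rw [h1]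
      rw [lowE_wm, lowE_wm] at h3
      have h4 := Prod.mk.inj h3
      simp only [Prod.mk.injEq]
      exact ⟨⟨⟨h4.1, h2⟩, h4.2⟩, trivial⟩
    · intro p p' _ _ h
      simp only [Prod.mk.injEq] at h
      obtain ⟨⟨⟨h1, h2⟩, h3⟩, _⟩ := h
      refine Prod.ext ?_ h2
      apply (lowE n).injective
      show lowE n (wm (ext p.1) L a (n + 1)) = lowE n (wm (ext p'.1) L a (n + 1))
      rw [lowE_wm, lowE_wm, h1, h3]
  rw [e2, e3, e4]

end Pool.Agent.CutSeq.NJ
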