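import Pool.Agent.NJ.Shell52
import Pool.Agent.NJ.Wtb19
import Pool.Agent.NJ.KKW84

/-!
S19271, NJ: the iteration of the stages and the theorem `no_junk`, from the stage theorem.
-/

set_option autoImplicit false

namespace Pool.Agent.CutSeq.NJ

open Finset Pool.Agent.CutSeq

/-- the stage theorem, as a hypothesis -/
def StgHyp50 (C e₀ : ℝ) : Prop := ∀ e : ℝ, 0 < e → e ≤ e₀ → ∀ N : ℕ, C ≤ e ^ 39 * N →
  ∀ B L n₀ : ℕ, B = 4 * N → 2 * (B * Real.log N) ≤ L → N ≤ 2 * n₀ → n₀ ≤ 2 * N →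
  ∀ (G : ℕ → Set (Wd B L)) (p : ℝ), Fam19 B L n₀ G →
    K0 (ind (G n₀) (uw B L)) (fun ω => wm (ext ω) L 1 n₀) ≤ e ^ 40 * N ^ 2 →
    pr (uw B L) {ω | ∃ a < B, rot B L a ω ∉ G n₀} ≤ p →
    ∃ (G' : ℕ → Set (Wd B L)) (n₂ : ℕ), (n₀ : ℝ) - C * e * N ≤ n₂ ∧ n₂ ≤ n₀ ∧ Fam19 B L n₂ G' ∧
      K0 (ind (G' n₂) (uw B L)) (fun ω => wm (ext ω) L 1 n₂) ≤ (9 / 10 * e) ^ 40 * N ^ 2 ∧
      pr (uw B L) {ω | ∃ a < B, rot B L a ω ∉ G' n₂} ≤ p + C * e

variable {B L : ℕ}

/-- several stages -/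
theorem iter50 {C e₀ : ℝ} (hC : 1 ≤ C) (hst : StgHyp50 C e₀) (e : ℝ) (he : 0 < e) (he0 : e ≤ e₀)
    (N : ℕ) (B L n₀ : ℕ) (hB : B = 4 * N) (hL : 2 * (B * Real.log N) ≤ L)
    (h1 : (N : ℝ) + 20 * C * e * N ≤ 2 * n₀) (h2 : n₀ ≤ 2 * N)
    (hK : K0 (uw B L) (fun ω => wm (ext ω) L 1 n₀) ≤ e ^ 40 * N ^ 2) (j : ℕ)
    (hj : ∀ i < j, C ≤ ((9 / 10) ^ i * e) ^ 39 * N) :
    ∃ (G' : ℕ → Set (Wd B L)) (n₂ : ℕ), (n₀ : ℝ) - 10 * C * e * (1 - (9 / 10) ^ j) * N ≤ n₂ ∧
      n₂ ≤ n₀ ∧ Fam19 B L n₂ G' ∧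
      K0 (ind (G' n₂) (uw B L)) (fun ω => wm (ext ω) L 1 n₂) ≤ ((9 / 10) ^ j * e) ^ 40 * N ^ 2 ∧
      pr (uw B L) {ω | ∃ a < B, rot B L a ω ∉ G' n₂} ≤ 10 * C * e * (1 - (9 / 10) ^ j) := by
  induction j with
  | zero =>
    refine ⟨fun _ => Set.univ, n₀, ?_, le_rfl, ⟨?_, ?_, ?_⟩, ?_, ?_⟩
    · norm_num
    · intro n _ ω ω' _
      exact ⟨fun _ => Set.mem_univ _, fun _ => Set.mem_univ _⟩
    · intro n _ d n' _ ω _
      exact Set.mem_univ _
    · intro n _ ω _
      exact Set.mem_univ _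
    · have hi : ind Set.univ (uw B L) = uw B L := by
        unfold ind
        exact Set.indicator_univ _
      rw [hi, pow_zero, one_mul]
      exact hK
    · have hE : {ω : Wd B L | ∃ a < B, rot B L a ω ∉ (Set.univ : Set (Wd B L))} = ∅ := by
        ext ω
        simp
      rw [hE]
      unfold pr tot ind
      simp
  | succ j ih =>
    obtain ⟨G, n₁, a1, a2, a3, a4, a5⟩ := ih fun i hi => hj i (by omega)
    have hp : (0 : ℝ) < (9 / 10) ^ j := by positivity
    have hp1 : ((9 : ℝ) / 10) ^ j ≤ 1 := pow_le_one₀ (by norm_num) (by norm_num)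
    have hN0 : (0 : ℝ) ≤ N := Nat.cast_nonneg _
    have hn1 : N ≤ 2 * n₁ := by
      have h3 : 10 * C * e * (1 - (9 / 10) ^ j) * N ≤ 10 * C * e * N := by
        have h4 : 10 * C * e * (1 - (9 / 10) ^ j) ≤ 10 * C * e := by
          have : 0 ≤ 10 * C * e := by positivity
          nlinarith
        exact mul_le_mul_of_nonneg_right h4 hN0
      have h5 : (N : ℝ) ≤ 2 * n₁ := by nlinarith
      exact_mod_cast h5
    obtain ⟨G', n₂, b1, b2, b3, b4, b5⟩ := hst ((9 / 10) ^ j * e) (by positivity)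
      (le_trans (by nlinarith) he0) N (hj j (Nat.lt_succ_self j)) B L n₁ hB hL hn1 (by omega)
      G _ a3 a4 a5
    refine ⟨G', n₂, ?_, b2.trans a2, b3, ?_, ?_⟩
    · have h6 : (n₀ : ℝ) - 10 * C * e * (1 - (9 / 10) ^ (j + 1)) * N =
          (n₀ : ℝ) - 10 * C * e * (1 - (9 / 10) ^ j) * N - C * ((9 / 10) ^ j * e) * N := by
        rw [pow_succ]
        ring
      rw [h6]
      linarith
    · have h7 : (9 / 10 : ℝ) ^ (j + 1) * e = 9 / 10 * ((9 / 10) ^ j * e) := by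
        rw [pow_succ]
        ring
      rw [h7]
      exact b4
    · have h8 : 10 * C * e * (1 - (9 / 10) ^ (j + 1)) =
          10 * C * e * (1 - (9 / 10) ^ j) + C * ((9 / 10) ^ j * e) := by
        rw [pow_succ]
        ring
      rw [h8]
      exact b5

/-- from the window `[1, 1 + n)` to the landed window `[0, n)` -/
theorem to_mm50 (n n₂ : ℕ) (h : n ≤ n₂) (hB : n₂ ≤ B) (G : Set (Wd B L)) :
    K0 (ind {ω | tau B L ω ∈ G} (uw B L)) (fun ω => mm (ext ω) L n) ≤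
      K0 (ind G (uw B L)) (fun ω => wm (ext ω) L 1 n₂) := by
  classical
  refine (K0_mm_mono _ L h).trans (le_of_eq ?_)
  refine KK_law _ _ _ _ _ _ fun a b => ?_
  unfold mass
  refine Eq.trans ?_ (Equiv.sum_comp (tau B L) _)
  refine Finset.sum_congr rfl fun ω _ => ?_
  have e : wm (ext (tau B L ω)) L 1 n₂ = mm (ext ω) L n₂ := by
    rw [← wm_zero]
    exact wm_tau 0 n₂ (by omega) ω
  have e2 : ind {ω | tau B L ω ∈ G} (uw B L) ω = ind G (uw B L) (tau B L ω) := by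
    unfold ind
    simp only [Set.indicator_apply, Set.mem_ofPred_eq, uw_tau]
  simp only [e, e2]

/-- **no junk**: at a fixed time, small entropy implies a clean window which is almost as large, up to
a small probability; the threshold is a power of the relative loss -/
theorem no_junk_of_stage {C e₀ : ℝ} (hC : 1 ≤ C) (he0 : 0 < e₀) (hst : StgHyp50 C e₀) :
    NJpoly := by
  refine ⟨max (10 * C) (1 / e₀), le_max_of_le_left (by linarith), ?_⟩
  intro e z he hCe hz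
  have hm1 : 10 * C ≤ max (10 * C) (1 / e₀) := le_max_left _ _
  have hm2 : 1 / e₀ ≤ max (10 * C) (1 / e₀) := le_max_right _ _
  set C' := max (10 * C) (1 / e₀) with hC'
  have hee : e ≤ e₀ := by
    have h1 : 1 / e₀ * e ≤ 1 := (mul_le_mul_of_nonneg_right hm2 he.le).trans hCe
    rw [div_mul_eq_mul_div, one_mul, div_le_one he0] at h1
    exact h1
  -- the number of stages
  obtain ⟨N₁, hN₁⟩ := exists_nat_gt (C * (C / z) ^ 39)
  obtain ⟨N₂, hN₂⟩ := exists_nat_gt (C / e ^ 39)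
  refine ⟨max (max N₁ N₂) 1, ?_⟩
  intro N hN B L n₀ n hB hL hn hn₀ hnn hK
  have hNN1 : N₁ ≤ N := le_trans (le_trans (le_max_left _ _) (le_max_left _ _)) hN
  have hNN2 : N₂ ≤ N := le_trans (le_trans (le_max_right _ _) (le_max_left _ _)) hN
  have hNN3 : 1 ≤ N := le_trans (le_max_right _ _) hN
  have hNpos : (0 : ℝ) < N := by exact_mod_cast hNN3
  have hR1 : (N₁ : ℝ) ≤ N := by exact_mod_cast hNN1
  have hR2 : (N₂ : ℝ) ≤ N := by exact_mod_cast hNN2
  -- some power is small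
  have hex : ∃ j : ℕ, ((9 / 10 : ℝ) ^ j * e) ^ 39 * N < C := by
    have ht : Filter.Tendsto (fun j : ℕ => ((9 / 10 : ℝ) ^ j * e) ^ 39 * N) Filter.atTop
        (nhds ((0 * e) ^ 39 * N)) := by
      have h0 : Filter.Tendsto (fun j : ℕ => (9 / 10 : ℝ) ^ j) Filter.atTop (nhds 0) :=
        tendsto_pow_atTop_nhds_zero_of_lt_one (by norm_num) (by norm_num)
      exact ((h0.mul_const e).pow 39).mul_const (N : ℝ)
    have hlt : ((0 : ℝ) * e) ^ 39 * N < C := by
      rw [zero_mul, zero_pow (by norm_num), zero_mul]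
      linarith
    exact (ht.eventually (gt_mem_nhds hlt)).exists
  classical
  set J := Nat.find hex with hJ
  have hJ1 : ((9 / 10 : ℝ) ^ J * e) ^ 39 * N < C := Nat.find_spec hex
  have hJ2 : ∀ i < J, C ≤ ((9 / 10 : ℝ) ^ i * e) ^ 39 * N := by
    intro i hi
    have := Nat.find_min hex hi
    linarith
  have hnR : (N : ℝ) ≤ 2 * n := by exact_mod_cast hn
  have h20 : (N : ℝ) + 20 * C * e * N ≤ 2 * n₀ := by
    have h3 : 10 * C * e * N ≤ C' * e * N := by
      have : 10 * C * e ≤ C' * e := mul_le_mul_of_nonneg_right hm1 he.le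
      exact mul_le_mul_of_nonneg_right this hNpos.le
    linarith
  have hn₀B : n₀ ≤ B := by omega
  obtain ⟨G, n₂, a1, a2, a3, a4, a5⟩ := iter50 hC hst e he hee N B L n₀ hB hL h20 hn₀
    (by rw [K0_wm_mm n₀ hn₀B]; exact hK) J hJ2
  set q : ℝ := (9 / 10) ^ J with hq
  have hq0 : 0 < q := by rw [hq]; positivity
  have hq1 : q ≤ 1 := pow_le_one₀ (by norm_num) (by norm_num)
  have hCe0 : 0 < 10 * C * e := by positivity
  have hnn2 : n ≤ n₂ := by
    have h3 : 10 * C * e * (1 - q) * N ≤ C' * e * N := by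
      have h4 : 10 * C * e * (1 - q) ≤ C' * e := by
        have h5 : 10 * C * e * (1 - q) ≤ 10 * C * e := by nlinarith
        exact h5.trans (mul_le_mul_of_nonneg_right hm1 he.le)
      exact mul_le_mul_of_nonneg_right h4 hNpos.le
    have h6 : (n : ℝ) ≤ n₂ := by linarith
    exact_mod_cast h6
  refine ⟨{ω | tau B L ω ∈ G n₂}, ?_, ?_⟩
  · -- probability
    have h1 : pr (uw B L) {ω | tau B L ω ∈ G n₂}ᶜ ≤
        pr (uw B L) {ω | ∃ a < B, rot B L a ω ∉ G n₂} := by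
      have h2 : pr (uw B L) {ω | tau B L ω ∈ G n₂}ᶜ = pr (uw B L) (G n₂)ᶜ := by
        unfold pr tot ind
        refine Eq.trans ?_ (Equiv.sum_comp (tau B L) _)
        refine Finset.sum_congr rfl fun ω _ => ?_
        simp only [Set.indicator_apply, Set.mem_compl_iff, Set.mem_ofPred_eq, uw_tau]
      rw [h2]
      refine Evt.pr_mono _ Evt.uw_nonneg ?_
      intro ω hω
      exact ⟨0, by omega, hω⟩
    refine h1.trans (a5.trans ?_)
    have h5 : 10 * C * e * (1 - q) ≤ 10 * C * e := by nlinarith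
    exact h5.trans (mul_le_mul_of_nonneg_right hm1 he.le)
  · refine (to_mm50 n n₂ hnn2 (by omega) (G n₂)).trans (a4.trans ?_)
    have hx0 : 0 < q * e := by positivity
    have hx : C * (q * e) ≤ z := by
      by_contra hcon
      push Not at hcon
      have h6 : z / C < q * e := by
        rw [div_lt_iff₀ (by linarith)]
        linarith
      have h7 : (z / C) ^ 39 < (q * e) ^ 39 := pow_lt_pow_left₀ h6 (by positivity) (by norm_num)
      have h8 : (z / C) ^ 39 * N < C := lt_trans (mul_lt_mul_of_pos_right h7 hNpos) hJ1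
      have h9 : C * (C / z) ^ 39 < N := lt_of_lt_of_le hN₁ hR1
      have h10 : (z / C) ^ 39 * (C * (C / z) ^ 39) = C := by
        rw [show (z / C) ^ 39 * (C * (C / z) ^ 39) = C * ((z / C) * (C / z)) ^ 39 by
          rw [mul_pow]; ring]
        have : (z / C) * (C / z) = 1 := by
          have hC0 : C ≠ 0 := by linarith
          field_simp
        rw [this, one_pow, mul_one]
      have h11 : (z / C) ^ 39 * (C * (C / z) ^ 39) < (z / C) ^ 39 * N :=
        mul_lt_mul_of_pos_left h9 (by positivity)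
      linarith
    calc (q * e) ^ 40 * (N : ℝ) ^ 2 = ((q * e) ^ 39 * N) * (q * e) * N := by ring
      _ ≤ C * (q * e) * N := by
          have := mul_le_mul_of_nonneg_right hJ1.le hx0.le
          exact mul_le_mul_of_nonneg_right this hNpos.le
      _ ≤ z * N := mul_le_mul_of_nonneg_right hx hNpos.le

end Pool.Agent.CutSeq.NJ
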