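import Pool.Agent.NJ.SC88
import Pool.Agent.NJ.BT49

/-!
S19271 (helper88): consequences of (SC) in the real model: entropies of brooms, slopes, corner bits.
-/

set_option autoImplicit false

namespace Pool.Agent.CutSeq.NJ

open Finset Pool.Agent.NJ

/-! ### general weights -/

section Gen

variable {Ω A : Type*} [Fintype Ω] [Fintype A] {n : ℕ}

lemma UU_nonneg88 (w : Ω → ℝ) (hw : ∀ ω, 0 ≤ w ω) (T T' : Ω → Submodule (ZMod 2) (V n)) (m : Ω → A)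
    (i j : ℕ) : 0 ≤ UU w T T' m i j :=
  KK_nonneg _ (sib2_nonneg w hw T T' i j) _ _

/-- the next row sibling -/
theorem eR_mul_le88 (w : Ω → ℝ) (hw : ∀ ω, 0 ≤ w ω) (T T' : Ω → Submodule (ZMod 2) (V n))
    (m : Ω → A) (i j y : ℕ) : (y : ℝ) * eR w T T' m i j ≤ UU w T T' m (i + y) j := by
  rw [UU_eq_sum_left w hw T T' m (i + y) j, Finset.sum_range_add]
  have h1 := UU_nonneg88 w hw T T' m 0 j
  have h2 : 0 ≤ ∑ l ∈ range i, eR w T T' m l j :=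
    Finset.sum_nonneg fun l _ => eR_nonneg w hw T T' m l j
  have h3 : (y : ℝ) * eR w T T' m i j ≤ ∑ l ∈ range y, eR w T T' m (i + l) j := by
    calc (y : ℝ) * eR w T T' m i j = ∑ _l ∈ range y, eR w T T' m i j := by
          rw [Finset.sum_const, Finset.card_range, nsmul_eq_mul]
      _ ≤ _ := Finset.sum_le_sum fun l _ => eR_mono_left w hw T T' m (Nat.le_add_right i l) j
  linarith

theorem UU_slopeR88 (w : Ω → ℝ) (hw : ∀ ω, 0 ≤ w ω) (T T' : Ω → Submodule (ZMod 2) (V n))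
    (m : Ω → A) (i j y : ℕ) :
    (y : ℝ) * (UU w T T' m (i + 1) j - UU w T T' m i j) ≤ UU w T T' m (i + y) j := by
  rw [UU_succ_left w hw, add_sub_cancel_left]
  exact eR_mul_le88 w hw T T' m i j y

theorem UU_slopeC88 (w : Ω → ℝ) (hw : ∀ ω, 0 ≤ w ω) (T T' : Ω → Submodule (ZMod 2) (V n))
    (m : Ω → A) (i j y : ℕ) :
    (y : ℝ) * (UU w T T' m i (j + 1) - UU w T T' m i j) ≤ UU w T T' m i (j + y) := by
  rw [UU_swap w hw T T' m i (j + 1), UU_swap w hw T T' m i j, UU_swap w hw T T' m i (j + y)]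
  exact UU_slopeR88 w hw T' T m j i y

lemma x_log_inv88 {x : ℝ} (h0 : 0 ≤ x) (h1 : x ≤ 1) : x * Real.log (1 / x) ≤ 1 := by
  rcases eq_or_lt_of_le h0 with h | h
  · rw [← h, zero_mul]
    norm_num
  · have h2 := Real.log_le_sub_one_of_pos (x := 1 / x) (by positivity)
    have h3 := mul_le_mul_of_nonneg_left h2 h0
    have h4 : x * (1 / x - 1) = 1 - x := by
      field_simp
    linarith

end Gen

/-! ### the real model -/

variable {B L n0 : ℕ} {G : ℕ → Set (Wd B L)}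

/-- the constant of (SC) -/
noncomputable def scM88 (nA x : ℕ) (κ ε : ℝ) : ℝ :=
  κ + Real.log (1 / ε) + 4 * (nA : ℝ) ^ 2 * Real.exp (-((x : ℝ) ^ 2 / (16 * nA)))

/-- the entropy of the brooms under a set of words -/
theorem UU_le88 (h : n0 + 2 ≤ B) (hG : Fam19 B L n0 G) (nA n i j x : ℕ) (hn : 1 ≤ n) (hx : 1 ≤ x)
    (hs : n + i + j + 2 * x ≤ nA) (hnA : nA ≤ n0) (κ ε : ℝ) (hε : 0 < ε) (S : Set (Wd B L))
    (hS : S ⊆ nextG h G nA κ ε n) :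
    UU (ind S (uw B L)) (fun ω => TR (ext ω) L 1 n) (fun ω => TC (ext ω) L 1 n)
        (fun ω => wm (ext ω) L 1 n) i j ≤
      pr (uw B L) S * (scM88 nA x κ ε + Real.log (1 / pr (uw B L) S)) := by
  have hw : ∀ ω, 0 ≤ ind S (uw B L) ω := fun ω => ind_nonneg19 _ (fun _ => (uw_pos19 _).le) ω
  have h1 := UU_le_obs88 (ind S (uw B L)) hw (rg B L 1 n) i j
  have h2 : (fun ω => LinearMap.range ((rg B L 1 n).X ω)) = fun ω => TR (ext ω) L 1 n :=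
    funext fun ω => range_rg_X 1 n ω
  have h3 : (fun ω => LinearMap.range ((rg B L 1 n).Y ω)) = fun ω => TC (ext ω) L 1 n :=
    funext fun ω => range_rg_Y 1 n ω
  rw [h2, h3] at h1
  refine h1.trans ((sc_obs88 h hG nA n i j x hn hx hs hnA κ ε hε S hS).trans (le_of_eq ?_))
  unfold scM88
  ring

/-- the entropy of the brooms of the new weight -/
theorem UU_le_one88 (h : n0 + 2 ≤ B) (hG : Fam19 B L n0 G) (nA n i j x : ℕ) (hn : 1 ≤ n)
    (hx : 1 ≤ x) (hs : n + i + j + 2 * x ≤ nA) (hnA : nA ≤ n0) (κ ε : ℝ) (hε : 0 < ε)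
    (hM : 0 ≤ scM88 nA x κ ε) (S : Set (Wd B L)) (hS : S ⊆ nextG h G nA κ ε n) :
    UU (ind S (uw B L)) (fun ω => TR (ext ω) L 1 n) (fun ω => TC (ext ω) L 1 n)
        (fun ω => wm (ext ω) L 1 n) i j ≤ scM88 nA x κ ε + 1 := by
  have hw : ∀ ω, 0 ≤ uw B L ω := fun ω => (uw_pos19 ω).le
  have h0 : 0 ≤ pr (uw B L) S := pr_nonneg19 S hw
  have h1 : pr (uw B L) S ≤ 1 := (pr_le_tot19 S hw).trans tot_uw_le19
  have h2 := UU_le88 h hG nA n i j x hn hx hs hnA κ ε hε S hS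
  have h3 := x_log_inv88 h0 h1
  have h4 : pr (uw B L) S * scM88 nA x κ ε ≤ scM88 nA x κ ε := by nlinarith
  linarith

/-- slope in the rows -/
theorem slopeR88 (h : n0 + 2 ≤ B) (hG : Fam19 B L n0 G) (nA n i j x y : ℕ) (hn : 1 ≤ n)
    (hx : 1 ≤ x) (hy : 1 ≤ y) (hs : n + i + j + y + 2 * x ≤ nA) (hnA : nA ≤ n0) (κ ε : ℝ)
    (hε : 0 < ε) (hM : 0 ≤ scM88 nA x κ ε) (S : Set (Wd B L)) (hS : S ⊆ nextG h G nA κ ε n) :
    UU (ind S (uw B L)) (fun ω => TR (ext ω) L 1 n) (fun ω => TC (ext ω) L 1 n)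
        (fun ω => wm (ext ω) L 1 n) (i + 1) j -
      UU (ind S (uw B L)) (fun ω => TR (ext ω) L 1 n) (fun ω => TC (ext ω) L 1 n)
        (fun ω => wm (ext ω) L 1 n) i j ≤ (scM88 nA x κ ε + 1) / y := by
  have hw : ∀ ω, 0 ≤ ind S (uw B L) ω := fun ω => ind_nonneg19 _ (fun _ => (uw_pos19 _).le) ω
  have hy0 : (0 : ℝ) < y := by exact_mod_cast hy
  rw [le_div_iff₀ hy0, mul_comm]
  exact (UU_slopeR88 _ hw _ _ _ i j y).trans
    (UU_le_one88 h hG nA n (i + y) j x hn hx (by omega) hnA κ ε hε hM S hS)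

/-- slope in the columns -/
theorem slopeC88 (h : n0 + 2 ≤ B) (hG : Fam19 B L n0 G) (nA n i j x y : ℕ) (hn : 1 ≤ n)
    (hx : 1 ≤ x) (hy : 1 ≤ y) (hs : n + i + j + y + 2 * x ≤ nA) (hnA : nA ≤ n0) (κ ε : ℝ)
    (hε : 0 < ε) (hM : 0 ≤ scM88 nA x κ ε) (S : Set (Wd B L)) (hS : S ⊆ nextG h G nA κ ε n) :
    UU (ind S (uw B L)) (fun ω => TR (ext ω) L 1 n) (fun ω => TC (ext ω) L 1 n)
        (fun ω => wm (ext ω) L 1 n) i (j + 1) -
      UU (ind S (uw B L)) (fun ω => TR (ext ω) L 1 n) (fun ω => TC (ext ω) L 1 n)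
        (fun ω => wm (ext ω) L 1 n) i j ≤ (scM88 nA x κ ε + 1) / y := by
  have hw : ∀ ω, 0 ≤ ind S (uw B L) ω := fun ω => ind_nonneg19 _ (fun _ => (uw_pos19 _).le) ω
  have hy0 : (0 : ℝ) < y := by exact_mod_cast hy
  rw [le_div_iff₀ hy0, mul_comm]
  exact (UU_slopeC88 _ hw _ _ _ i j y).trans
    (UU_le_one88 h hG nA n i (j + y) x hn hx (by omega) hnA κ ε hε hM S hS)

/-- the corner bits of `i` row siblings with one column sibling -/
theorem bottR88 (h : n0 + 2 ≤ B) (hG : Fam19 B L n0 G) (nA n i S₁ S₂ l x : ℕ) (hn : 1 ≤ n)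
    (hx : 1 ≤ x) (hs : n + ((i + S₁ + l) + (S₂ + l)) + 2 * x ≤ nA) (hnA : nA ≤ n0) (κ ε : ℝ)
    (hε : 0 < ε) (hM : 0 ≤ scM88 nA x κ ε) (hS : 1 ≤ S₂) (β : ℝ) (hβ : 0 < β) (hβ1 : β ≤ 1)
    (h1 : 2 ^ 6 * (1 / 2) ^ l * (nA : ℝ) ^ 2 ≤ β) (h3 : Real.log (16 / β) / Real.log 2 + 2 ≤ S₂)
    (h2 : (Real.log (16 / β) / Real.log 2 + 2) *
        (Real.log 2 + 3 * ((2 * scM88 nA x κ ε + 3 * l + 12 + Real.log (4 / β)) / S₂))
      + Real.log (2 / β) + 3 * Real.log 2 < S₁ * Real.log 2) :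
    K0 (cw (ind (nextG h G nA κ ε n) (uw B L)) L L (Fin i) (Fin 1))
        (fun p => obs (rg B L 1 n) p.1 p.2.1 p.2.2) -
      UU (ind (nextG h G nA κ ε n) (uw B L)) (fun ω => TR (ext ω) L 1 n)
        (fun ω => TC (ext ω) L 1 n) (fun ω => wm (ext ω) L 1 n) i 1 ≤ i * β := by
  have hw : ∀ ω, 0 ≤ ind (nextG h G nA κ ε n) (uw B L) ω :=
    fun ω => ind_nonneg19 _ (fun _ => (uw_pos19 _).le) ω
  have hw1 : tot (ind (nextG h G nA κ ε n) (uw B L)) ≤ 1 :=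
    (pr_le_tot19 _ (fun ω => (uw_pos19 ω).le)).trans tot_uw_le19
  rw [← locR_E n _ hw, ← locR_U]
  have hlog2 : Real.log 2 ≤ 1 := by
    have := Real.log_two_lt_d9
    linarith
  have hlog20 : 0 ≤ Real.log 2 := Real.log_nonneg (by norm_num)
  refine (locR B L n).bott _ hw hw1 (scM88 nA x κ ε) hM ((i + S₁ + l) + (S₂ + l))
    (locR_SC h hG nA n _ x hn hx hs hnA κ ε hε) i S₁ S₂ l le_rfl hS β _ hβ hβ1 rfl ?_ h3 h2
  refine le_trans ?_ h1
  refine mul_le_mul_of_nonneg_left ?_ (by positivity)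
  have h4 := log_card_Un_le31 n
  have h5 : ((((i + S₁) * n + S₂ * n + (i + S₁) * S₂ : ℕ) : ℝ)) + (n : ℝ) ^ 2 / 2 ≤
      (nA : ℝ) ^ 2 / 2 := by
    have h6 : ((n : ℝ) + (i + S₁) + S₂) ≤ nA := by
      have : n + (i + S₁) + S₂ ≤ nA := by omega
      exact_mod_cast this
    have h7 : ((n : ℝ) + (i + S₁) + S₂) ^ 2 ≤ (nA : ℝ) ^ 2 :=
      pow_le_pow_left₀ (by positivity) h6 2
    push_cast
    nlinarith [sq_nonneg ((i : ℝ) + S₁), sq_nonneg (S₂ : ℝ)]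
  nlinarith

end Pool.Agent.CutSeq.NJ
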