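import Pool.Agent.NJ.WtArc19

/-!
S19271, no junk: the interface of a stage.

All windows are arcs of the cycle of `B` bonds; the arc `(a, n)` is the standard window `[1, 1 + n)` of
the word `rot B L a ω`.  `StG B L n0 K p G`: `G` is a family of events (seen by the standard window of
size `n`, decreasing in the window, invariant under reflection), the loss over all arcs is at most `p`,
and the array of the standard window of size `n0` has relative entropy at most `K` on `G n0`.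
-/

set_option autoImplicit false

namespace Pool.Agent.CutSeq.NJ

open Finset

/-- input and output of a stage -/
structure StG (B L n0 : ℕ) (K p : ℝ) (G : ℕ → Set (Wd B L)) : Prop where
  fam : Fam19 B L n0 G
  ent : K0 (ind (G n0) (uw B L)) (fun ω => wm (ext ω) L 1 n0) ≤ K
  loss : pr (uw B L) {ω | ∃ a < B, rot B L a ω ∉ G n0} ≤ p

/-- the stage theorem with the constants `ε₀` and `C` -/
def StageAt (ε₀ C : ℝ) : Prop :=
  ∀ ε : ℝ, 0 < ε → ε ≤ ε₀ → ∀ N : ℕ, C ≤ ε ^ 39 * N → ∀ L n0 : ℕ,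
    2 * ((4 * N : ℕ) * Real.log N) ≤ L → N ≤ 2 * n0 → n0 ≤ 2 * N →
    ∀ (p : ℝ) (G : ℕ → Set (Wd (4 * N) L)), StG (4 * N) L n0 (ε ^ 40 * N ^ 2) p G →
    ∃ (n1 : ℕ) (G' : ℕ → Set (Wd (4 * N) L)), n1 ≤ n0 ∧ (n0 : ℝ) ≤ n1 + C * ε * N ∧
      StG (4 * N) L n1 ((9 / 10 * ε) ^ 40 * N ^ 2) (p + C * ε) G'

/-- the stage theorem -/
def StageThm : Prop := ∃ ε₀ C : ℝ, 0 < ε₀ ∧ 1 ≤ C ∧ StageAt ε₀ C

end Pool.Agent.CutSeq.NJ
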