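import Mathlib

/-! S19271 / NJ: the numbers of one stage -/

set_option autoImplicit false

namespace Pool.Agent.CutSeq.NJ

namespace N89

lemma sq_le_two_pow (k : ℕ) (hk : 4 ≤ k) : k ^ 2 ≤ 2 ^ k := by
  induction k, hk using Nat.le_induction with
  | base => norm_num
  | succ k hk ih =>
      have : (k + 1) ^ 2 ≤ 2 * k ^ 2 := by nlinarith
      calc (k + 1) ^ 2 ≤ 2 * k ^ 2 := this
        _ ≤ 2 * 2 ^ k := by omega
        _ = 2 ^ (k + 1) := by ring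

lemma exp_neg_le (y : ℝ) (hy : 0 < y) : Real.exp (-y) ≤ 2 / y ^ 2 := by
  have h1 : y ^ 2 / 2 ≤ Real.exp y := by
    have h2 := Real.quadratic_le_exp_of_nonneg hy.le
    nlinarith
  rw [Real.exp_neg, inv_eq_one_div, div_le_div_iff₀ (Real.exp_pos y) (by positivity)]
  nlinarith

lemma pow4_le_exp (y : ℝ) (hy : 0 ≤ y) : y ^ 4 / 64 ≤ Real.exp y := by
  have h1 : (y / 2) ^ 2 / 2 ≤ Real.exp (y / 2) := by
    have h2 := Real.quadratic_le_exp_of_nonneg (x := y / 2) (by positivity)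
    nlinarith
  have h3 : Real.exp y = Real.exp (y / 2) ^ 2 := by
    rw [← Real.exp_nat_mul]
    congr 1
    push_cast
    ring
  rw [h3]
  have h4 : y ^ 4 / 64 = ((y / 2) ^ 2 / 2) ^ 2 := by ring
  rw [h4]
  exact pow_le_pow_left₀ (by positivity) h1 2

lemma log_le_two_sqrt (y : ℝ) (hy : 0 < y) : Real.log y ≤ 2 * Real.sqrt y := by
  have h1 := Real.log_le_sub_one_of_pos (x := Real.sqrt y) (Real.sqrt_pos.2 hy)
  rw [Real.log_sqrt hy.le] at h1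
  linarith

/-- basic facts -/
structure Bas (e : ℝ) (N : ℕ) : Prop where
  he : 0 < e
  he1 : e ≤ 1 / 2000
  h39 : 10 ^ 8 ≤ e ^ 39 * N

variable {e : ℝ} {N : ℕ}

lemma Bas.pow_le (h : Bas e N) (j : ℕ) : e ^ j ≤ 1 :=
  pow_le_one₀ h.he.le (h.he1.trans (by norm_num))

lemma Bas.Npos (h : Bas e N) : (0 : ℝ) < N := by
  by_contra hc
  have h1 : (N : ℝ) = 0 := le_antisymm (not_lt.1 hc) (Nat.cast_nonneg _)
  have := h.h39
  rw [h1, mul_zero] at this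
  norm_num at this

lemma Bas.big (h : Bas e N) (j : ℕ) (hj : j ≤ 39) : 10 ^ 8 ≤ e ^ j * N := by
  obtain ⟨i, hi⟩ := Nat.exists_eq_add_of_le hj
  have h1 : e ^ 39 = e ^ j * e ^ i := by rw [hi, pow_add]
  have h2 := h.h39
  rw [h1] at h2
  have h3 : e ^ j * e ^ i * N ≤ e ^ j * 1 * N := by
    have := h.pow_le i
    have h4 : 0 < e ^ j := pow_pos h.he j
    have h5 := h.Npos
    gcongr
  linarith

/-- `e ^ (i + j) N ≤ (1/2000)^i e^j N` -/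
lemma Bas.step (h : Bas e N) (i j : ℕ) : e ^ (i + j) * N ≤ (1 / 2000) ^ i * (e ^ j * N) := by
  have h1 : e ^ i ≤ (1 / 2000) ^ i := pow_le_pow_left₀ h.he.le h.he1 i
  have h2 : 0 ≤ e ^ j * N := mul_nonneg (pow_pos h.he j).le h.Npos.le
  calc e ^ (i + j) * N = e ^ i * (e ^ j * N) := by rw [pow_add]; ring
    _ ≤ (1 / 2000) ^ i * (e ^ j * N) := mul_le_mul_of_nonneg_right h1 h2

/-- the parameters, with their bounds -/
structure Par (e : ℝ) (N n0 x k q D : ℕ) : Prop where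
  hx1 : e * N ≤ x
  hx2 : (x : ℝ) ≤ e * N + 1
  hk1 : e ^ 10 * N ≤ k
  hk2 : (k : ℝ) ≤ e ^ 10 * N + 1
  hq1 : 4 ≤ e ^ 10 * q
  hq2 : e ^ 10 * q ≤ 5
  hD1 : e ^ 5 * N ≤ D
  hD2 : (D : ℝ) ≤ e ^ 5 * N + 1
  hn1 : N ≤ 2 * n0
  hn2 : n0 ≤ 2 * N

theorem exists_par (h : Bas e N) (n0 : ℕ) (h1 : N ≤ 2 * n0) (h2 : n0 ≤ 2 * N) :
    ∃ x k q D : ℕ, Par e N n0 x k q D := by
  have he := h.he
  have hN := h.Npos
  have h10 : 0 < e ^ 10 := pow_pos he 10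
  refine ⟨⌈e * N⌉₊, ⌈e ^ 10 * N⌉₊, ⌈4 / e ^ 10⌉₊, ⌈e ^ 5 * N⌉₊, Nat.le_ceil _,
    (Nat.ceil_lt_add_one (by positivity)).le, Nat.le_ceil _,
    (Nat.ceil_lt_add_one (by positivity)).le, ?_, ?_, Nat.le_ceil _,
    (Nat.ceil_lt_add_one (by positivity)).le, h1, h2⟩
  · have h3 := Nat.le_ceil (4 / e ^ 10)
    rw [div_le_iff₀ h10] at h3
    linarith
  · have h3 := (Nat.ceil_lt_add_one (a := 4 / e ^ 10) (by positivity)).le
    have h4 := h.pow_le 10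
    calc e ^ 10 * (⌈4 / e ^ 10⌉₊ : ℝ) ≤ e ^ 10 * (4 / e ^ 10 + 1) :=
          mul_le_mul_of_nonneg_left h3 h10.le
      _ = 4 + e ^ 10 := by field_simp
      _ ≤ 5 := by linarith

variable {n0 x k q D : ℕ}

/-- natural number inequalities -/
theorem nat_block (h : Bas e N) (P : Par e N n0 x k q D) :
    1 ≤ x ∧ 10 ^ 8 ≤ k ∧ 1 ≤ q ∧ 2 * (2 * N) ≤ k * q ∧ 2 * (k + 27 * (2 * k + 2)) ≤ D ∧
    D + (k + 27 * (2 * k + 2)) ≤ x ∧ 96 * (2 * k + 2) + k + (2 * k + 2 + 145 + k) ≤ 2 * x ∧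
    q ≤ D ∧ 8 * x ≤ n0 ∧ 1000 ≤ x := by
  have he := h.he
  have hN := h.Npos
  have hx1 := P.hx1
  have hk1 := P.hk1
  have hk2 := P.hk2
  have hD1 := P.hD1
  have hD2 := P.hD2
  have s1 := h.step 5 5
  have s2 := h.step 4 1
  have s3 := h.step 9 1
  have s4 := h.step 1 0
  have b10 := h.big 10 (by norm_num)
  have b1 := h.big 1 (by norm_num)
  have b5 := h.big 5 (by norm_num)
  norm_num at s1 s2 s3 s4 b1
  refine ⟨?_, ?_, ?_, ?_, ?_, ?_, ?_, ?_, ?_, ?_⟩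
  · have : (1 : ℝ) ≤ x := by linarith
    exact_mod_cast this
  · have : ((10 ^ 8 : ℕ) : ℝ) ≤ k := by
      push_cast
      linarith
    exact_mod_cast this
  · have h1 := P.hq1
    rcases Nat.eq_zero_or_pos q with h0 | h0
    · rw [h0] at h1
      norm_num at h1
    · exact h0
  · have h1 : (4 : ℝ) * N ≤ k * q := by
      have h2 : (0 : ℝ) ≤ q := Nat.cast_nonneg _
      calc (4 : ℝ) * N ≤ (e ^ 10 * q) * N := mul_le_mul_of_nonneg_right P.hq1 hN.le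
        _ = (e ^ 10 * N) * q := by ring
        _ ≤ k * q := mul_le_mul_of_nonneg_right hk1 h2
    have h3 : ((2 * (2 * N) : ℕ) : ℝ) ≤ ((k * q : ℕ) : ℝ) := by
      push_cast
      linarith
    exact_mod_cast h3
  · have h3 : ((2 * (k + 27 * (2 * k + 2)) : ℕ) : ℝ) ≤ (D : ℝ) := by
      push_cast
      linarith
    exact_mod_cast h3
  · have h3 : ((D + (k + 27 * (2 * k + 2)) : ℕ) : ℝ) ≤ (x : ℝ) := by
      push_cast
      linarith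
    exact_mod_cast h3
  · have h3 : ((96 * (2 * k + 2) + k + (2 * k + 2 + 145 + k) : ℕ) : ℝ) ≤ ((2 * x : ℕ) : ℝ) := by
      push_cast
      linarith
    exact_mod_cast h3
  · -- `q ≤ D`
    have h1 := P.hq2
    have h2 : e ^ 10 * (q : ℝ) ≤ e ^ 10 * (D : ℝ) := by
      have h3 : e ^ 10 * (e ^ 5 * N) ≤ e ^ 10 * D :=
        mul_le_mul_of_nonneg_left hD1 (pow_pos he 10).le
      have h4 := h.big 15 (by norm_num)
      have h5 : e ^ 10 * (e ^ 5 * N) = e ^ 15 * N := by ring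
      linarith
    have h6 : (q : ℝ) ≤ D := le_of_mul_le_mul_left h2 (pow_pos he 10)
    exact_mod_cast h6
  · have h1 := P.hx2
    have h2 : (N : ℝ) ≤ 2 * n0 := by exact_mod_cast P.hn1
    have h3 : ((8 * x : ℕ) : ℝ) ≤ (n0 : ℝ) := by
      push_cast
      have b0 := h.big 0 (by norm_num)
      norm_num at b0
      linarith
    exact_mod_cast h3
  · have : ((1000 : ℕ) : ℝ) ≤ x := by
      push_cast
      linarith
    exact_mod_cast this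

lemma log_inv6 (h : Bas e N) : Real.log (1 / (1 / (N : ℝ)) ^ 6) = 6 * Real.log N := by
  have hN := h.Npos
  have h1 : 1 / (1 / (N : ℝ)) ^ 6 = (N : ℝ) ^ 6 := by field_simp
  rw [h1, Real.log_pow]
  norm_num

lemma Bas.N_big (h : Bas e N) : (10 : ℝ) ^ 8 ≤ N := by
  have h0 := h.big 0 (by norm_num)
  rwa [pow_zero, one_mul] at h0

lemma log_nonneg' (h : Bas e N) : 0 ≤ Real.log N := by
  have h0 := h.N_big
  exact Real.log_nonneg (by linarith)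

lemma six_log (h : Bas e N) : 6 * Real.log N ≤ e ^ 38 * N ^ 2 / 4 := by
  have hN := h.Npos
  have h1 := Real.log_le_sub_one_of_pos hN
  have h2 := h.big 38 (by norm_num)
  have h3 : e ^ 38 * (N : ℝ) ^ 2 = (e ^ 38 * N) * N := by ring
  rw [h3]
  nlinarith

/-- the level of `(SC)` -/
theorem M_block (h : Bas e N) (P : Par e N n0 x k q D) (nA : ℕ) (hnA : nA ≤ 2 * N) (M : ℝ)
    (hM : M = e ^ 38 * N ^ 2 + Real.log (1 / (1 / (N : ℝ)) ^ 6) +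
        4 * (nA : ℝ) ^ 2 * Real.exp (-((x : ℝ) ^ 2 / (16 * nA)))) :
    0 ≤ M ∧ M ≤ 2 * (e ^ 38 * N ^ 2) := by
  have he := h.he
  have hN := h.Npos
  have hx1 := P.hx1
  have hx0 : 0 < (x : ℝ) := lt_of_lt_of_le (by positivity) hx1
  rw [log_inv6 h] at hM
  have hl := log_nonneg' h
  have h6 := six_log h
  have hA0 : (0 : ℝ) ≤ nA := Nat.cast_nonneg _
  have hA1 : (nA : ℝ) ≤ 2 * N := by exact_mod_cast hnA
  have hexp : 4 * (nA : ℝ) ^ 2 * Real.exp (-((x : ℝ) ^ 2 / (16 * nA))) ≤ e ^ 38 * N ^ 2 / 2 := by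
    rcases eq_or_lt_of_le hA0 with h0 | h0
    · rw [← h0]
      have : 0 ≤ e ^ 38 * (N : ℝ) ^ 2 := by positivity
      simp only [ne_eq, OfNat.ofNat_ne_zero, not_false_eq_true, zero_pow, mul_zero, zero_mul]
      linarith
    · have h1 := exp_neg_le ((x : ℝ) ^ 2 / (16 * nA)) (by positivity)
      have h2 : 4 * (nA : ℝ) ^ 2 * Real.exp (-((x : ℝ) ^ 2 / (16 * nA)))
          ≤ 4 * (nA : ℝ) ^ 2 * (2 / ((x : ℝ) ^ 2 / (16 * nA)) ^ 2) :=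
        mul_le_mul_of_nonneg_left h1 (by positivity)
      have h3 : 4 * (nA : ℝ) ^ 2 * (2 / ((x : ℝ) ^ 2 / (16 * nA)) ^ 2)
          = 2048 * (nA : ℝ) ^ 4 / (x : ℝ) ^ 4 := by
        field_simp
        ring
      have h4 : 2048 * (nA : ℝ) ^ 4 / (x : ℝ) ^ 4 ≤ 2048 * (2 * N) ^ 4 / (e * N) ^ 4 := by
        gcongr
      have h5 : 2048 * (2 * (N : ℝ)) ^ 4 / (e * N) ^ 4 = 32768 / e ^ 4 := by
        field_simp
        ring
      have h7 : 32768 / e ^ 4 ≤ e ^ 38 * N ^ 2 / 2 := by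
        rw [div_le_iff₀ (by positivity)]
        have h8 := h.h39
        have h9 := h.big 3 (by norm_num)
        have h10 : e ^ 38 * (N : ℝ) ^ 2 / 2 * e ^ 4 = (e ^ 39 * N) * (e ^ 3 * N) / 2 := by ring
        rw [h10]
        have h11 : (10 : ℝ) ^ 8 * 10 ^ 8 ≤ (e ^ 39 * N) * (e ^ 3 * N) :=
          mul_le_mul h8 h9 (by norm_num) (by positivity)
        norm_num at h11
        linarith
      linarith
  have hexp0 : 0 ≤ 4 * (nA : ℝ) ^ 2 * Real.exp (-((x : ℝ) ^ 2 / (16 * nA))) := by positivity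
  have h38 : 0 ≤ e ^ 38 * (N : ℝ) ^ 2 := by positivity
  constructor
  · rw [hM]
    linarith
  · rw [hM]
    linarith

/-- the slope -/
theorem es_block (h : Bas e N) (P : Par e N n0 x k q D) (M es : ℝ) (hM0 : 0 ≤ M)
    (hM1 : M ≤ 2 * (e ^ 38 * N ^ 2)) (hes : es = (M + 1) / x) : 0 ≤ es ∧ es ≤ 3 * (e ^ 37 * N) := by
  have he := h.he
  have hN := h.Npos
  have hx1 := P.hx1
  have hx0 : 0 < (x : ℝ) := lt_of_lt_of_le (by positivity) hx1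
  constructor
  · rw [hes]
    positivity
  · rw [hes, div_le_iff₀ hx0]
    have h1 : 3 * (e ^ 37 * N) * (e * N) ≤ 3 * (e ^ 37 * N) * x :=
      mul_le_mul_of_nonneg_left hx1 (by positivity)
    have h2 : 3 * (e ^ 37 * N) * (e * N) = 3 * (e ^ 38 * (N : ℝ) ^ 2) := by ring
    have h3 : 1 ≤ e ^ 38 * (N : ℝ) ^ 2 := by
      have h4 := h.big 38 (by norm_num)
      have h5 := h.big 0 (by norm_num)
      have h6 : e ^ 38 * (N : ℝ) ^ 2 = (e ^ 38 * N) * (e ^ 0 * N) := by ring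
      rw [h6]
      have h7 : (10 : ℝ) ^ 8 * 10 ^ 8 ≤ (e ^ 38 * N) * (e ^ 0 * N) :=
        mul_le_mul h4 h5 (by norm_num) (by positivity)
      norm_num at h7
      norm_num
      linarith
    linarith

/-- `N ≤ k ^ 2` and `4 k ^ 4 ≤ 2 ^ s` -/
theorem k_block (h : Bas e N) (P : Par e N n0 x k q D) :
    (N : ℝ) ≤ (k : ℝ) ^ 2 ∧ 4 * (k : ℝ) ^ 4 ≤ 2 ^ (2 * k + 2) := by
  have he := h.he
  have hN := h.Npos
  have hk1 := P.hk1
  have hk0 : 0 ≤ e ^ 10 * (N : ℝ) := by positivity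
  constructor
  · have h1 : (e ^ 10 * (N : ℝ)) ^ 2 ≤ (k : ℝ) ^ 2 := pow_le_pow_left₀ hk0 hk1 2
    have h2 : (e ^ 10 * (N : ℝ)) ^ 2 = (e ^ 20 * N) * N := by ring
    have h3 := h.big 20 (by norm_num)
    have h4 : 1 * (N : ℝ) ≤ (e ^ 20 * N) * N := by
      refine mul_le_mul_of_nonneg_right ?_ hN.le
      linarith
    linarith
  · have h1 := sq_le_two_pow k (by
      have := (nat_block h P).2.1
      omega)
    have h2 : ((k ^ 2 : ℕ) : ℝ) ≤ ((2 ^ k : ℕ) : ℝ) := by exact_mod_cast h1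
    push_cast at h2
    have h3 : (2 : ℝ) ^ (2 * k + 2) = 4 * ((2 : ℝ) ^ k) ^ 2 := by
      rw [pow_add, pow_mul']
      norm_num
      ring
    rw [h3]
    have h4 : ((k : ℝ) ^ 2) ^ 2 ≤ ((2 : ℝ) ^ k) ^ 2 := pow_le_pow_left₀ (by positivity) h2 2
    have h5 : ((k : ℝ) ^ 2) ^ 2 = (k : ℝ) ^ 4 := by ring
    linarith

/-- `N ≤ (e^2 N)^2` -/
lemma sqrt_le (h : Bas e N) : Real.sqrt N ≤ e ^ 2 * N := by
  have he := h.he
  have hN := h.Npos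
  rw [Real.sqrt_le_left (by positivity)]
  have h1 : (e ^ 2 * (N : ℝ)) ^ 2 = (e ^ 4 * N) * N := by ring
  have h2 := h.big 4 (by norm_num)
  rw [h1]
  have h4 : 1 * (N : ℝ) ≤ (e ^ 4 * N) * N := by
    refine mul_le_mul_of_nonneg_right ?_ hN.le
    linarith
  linarith

/-- the error of the sibling inequality -/
theorem c_block (h : Bas e N) (P : Par e N n0 x k q D) (es c : ℝ) (hes0 : 0 ≤ es)
    (hes1 : es ≤ 3 * (e ^ 37 * N))
    (hc : c = (q : ℝ) ^ 2 * es / k + 2 * ((k + 27 * (2 * k + 2) : ℕ) : ℝ) * es / D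
      + 64 * (1 / 4) ^ (2 * k + 2) * ((2 * (N : ℝ)) ^ 2 + 4 * ((2 * k + 2 : ℕ) : ℝ))
      + 16 * (1 / 4) ^ (2 * k + 2) + (1 / 2) ^ (2 * N)) :
    c * (2 * N) ≤ e ^ 41 * N ^ 2 := by
  have he := h.he
  have hN := h.Npos
  have hN8 := h.N_big
  have hk1 := P.hk1
  have hk2 := P.hk2
  have hD1 := P.hD1
  have hk8 : (10 : ℝ) ^ 8 ≤ k := (h.big 10 (by norm_num)).trans hk1
  have hk0 : (0 : ℝ) < k := by linarith
  have hD0 : (0 : ℝ) < D := lt_of_lt_of_le (by positivity) hD1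
  have h41 : 10 ^ 8 * (e ^ 2 * N) ≤ e ^ 41 * N ^ 2 := by
    have h1 : e ^ 41 * (N : ℝ) ^ 2 = (e ^ 39 * N) * (e ^ 2 * N) := by ring
    rw [h1]
    exact mul_le_mul_of_nonneg_right h.h39 (by positivity)
  have h2N := h.big 2 (by norm_num)
  -- first term
  have t1 : (q : ℝ) ^ 2 * es / k * (2 * N) ≤ e ^ 41 * N ^ 2 / 8 := by
    have h1 : (q : ℝ) ^ 2 * es / k ≤ 75 * e ^ 7 := by
      rw [div_le_iff₀ hk0]
      have h2 : (e ^ 10 * q) ^ 2 ≤ 5 ^ 2 := pow_le_pow_left₀ (by positivity) P.hq2 2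
      have h3 : e ^ 20 * ((q : ℝ) ^ 2 * es) ≤ e ^ 20 * (75 * e ^ 7 * k) := by
        calc e ^ 20 * ((q : ℝ) ^ 2 * es) = (e ^ 10 * q) ^ 2 * es := by ring
          _ ≤ 5 ^ 2 * (3 * (e ^ 37 * N)) := mul_le_mul h2 hes1 hes0 (by norm_num)
          _ = e ^ 20 * (75 * e ^ 7 * (e ^ 10 * N)) := by ring
          _ ≤ e ^ 20 * (75 * e ^ 7 * k) := by gcongr
      exact le_of_mul_le_mul_left h3 (by positivity)
    have h4 : (q : ℝ) ^ 2 * es / k * (2 * N) ≤ 75 * e ^ 7 * (2 * N) :=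
      mul_le_mul_of_nonneg_right h1 (by positivity)
    have h5 : 75 * e ^ 7 * (2 * N) ≤ e ^ 41 * N ^ 2 / 8 := by
      have h6 : e ^ 41 * (N : ℝ) ^ 2 / 8 = e ^ 7 * N * (e ^ 34 * N) / 8 := by ring
      rw [h6]
      have h7 := h.big 34 (by norm_num)
      have h8 : e ^ 7 * N * 10 ^ 8 ≤ e ^ 7 * N * (e ^ 34 * N) :=
        mul_le_mul_of_nonneg_left h7 (by positivity)
      have h9 : 0 ≤ e ^ 7 * (N : ℝ) := by positivity
      norm_num at h8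
      linarith
    linarith
  -- second term
  have t2 : 2 * ((k + 27 * (2 * k + 2) : ℕ) : ℝ) * es / D * (2 * N) ≤ e ^ 41 * N ^ 2 / 2 := by
    have h1 : 2 * ((k + 27 * (2 * k + 2) : ℕ) : ℝ) * es / D ≤ 336 * (e ^ 42 * N) := by
      rw [div_le_iff₀ hD0]
      have h2 : ((k + 27 * (2 * k + 2) : ℕ) : ℝ) ≤ 56 * (e ^ 10 * N) := by
        push_cast
        have := h.big 10 (by norm_num)
        linarith
      calc 2 * ((k + 27 * (2 * k + 2) : ℕ) : ℝ) * es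
          ≤ 2 * (56 * (e ^ 10 * N)) * (3 * (e ^ 37 * N)) := by gcongr
        _ = 336 * (e ^ 42 * N) * (e ^ 5 * N) := by ring
        _ ≤ 336 * (e ^ 42 * N) * D := by gcongr
    have h3 : 2 * ((k + 27 * (2 * k + 2) : ℕ) : ℝ) * es / D * (2 * N)
        ≤ 336 * (e ^ 42 * N) * (2 * N) := mul_le_mul_of_nonneg_right h1 (by positivity)
    have h4 : 336 * (e ^ 42 * (N : ℝ)) * (2 * N) = 672 * e * (e ^ 41 * N ^ 2) := by ring
    have h5 : 672 * e * (e ^ 41 * (N : ℝ) ^ 2) ≤ 1 / 2 * (e ^ 41 * N ^ 2) := by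
      refine mul_le_mul_of_nonneg_right ?_ (by positivity)
      have := h.he1
      linarith
    linarith
  -- the tiny terms
  obtain ⟨hNk, hks⟩ := k_block h P
  have hq4 : (1 / 4 : ℝ) ^ (2 * k + 2) ≤ 1 / (16 * (k : ℝ) ^ 8) := by
    have h1 : (1 / 4 : ℝ) ^ (2 * k + 2) = 1 / ((2 : ℝ) ^ (2 * k + 2)) ^ 2 := by
      rw [one_div_pow, ← pow_mul, mul_comm (2 * k + 2) 2, pow_mul]
      norm_num
    rw [h1]
    have h2 : (4 * (k : ℝ) ^ 4) ^ 2 ≤ ((2 : ℝ) ^ (2 * k + 2)) ^ 2 :=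
      pow_le_pow_left₀ (by positivity) hks 2
    refine one_div_le_one_div_of_le (by positivity) ?_
    calc 16 * (k : ℝ) ^ 8 = (4 * (k : ℝ) ^ 4) ^ 2 := by ring
      _ ≤ _ := h2
  have t3 : 64 * (1 / 4 : ℝ) ^ (2 * k + 2) * ((2 * (N : ℝ)) ^ 2 + 4 * ((2 * k + 2 : ℕ) : ℝ)) * (2 * N)
      ≤ 1 := by
    have h1 : (2 * (N : ℝ)) ^ 2 + 4 * ((2 * k + 2 : ℕ) : ℝ) ≤ 5 * (k : ℝ) ^ 4 := by
      push_cast
      have h2 : (N : ℝ) ^ 2 ≤ ((k : ℝ) ^ 2) ^ 2 := pow_le_pow_left₀ hN.le hNk 2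
      have h3 : ((k : ℝ) ^ 2) ^ 2 = (k : ℝ) ^ 4 := by ring
      have h4 : 4 * (2 * (k : ℝ) + 2) ≤ (k : ℝ) ^ 4 := by
        have h5 : (k : ℝ) * 10 ^ 8 ≤ (k : ℝ) * k := mul_le_mul_of_nonneg_left hk8 hk0.le
        have h6 : (k : ℝ) * k * 1 ≤ (k : ℝ) * k * (k * k) := by
          refine mul_le_mul_of_nonneg_left ?_ (by positivity)
          nlinarith
        have h7 : (k : ℝ) * k * (k * k) = (k : ℝ) ^ 4 := by ring
        norm_num at h5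
        linarith
      nlinarith
    have h2 : 64 * (1 / 4 : ℝ) ^ (2 * k + 2) * ((2 * (N : ℝ)) ^ 2 + 4 * ((2 * k + 2 : ℕ) : ℝ)) * (2 * N)
        ≤ 64 * (1 / (16 * (k : ℝ) ^ 8)) * (5 * (k : ℝ) ^ 4) * (2 * (k : ℝ) ^ 2) := by
      gcongr
    have h3 : 64 * (1 / (16 * (k : ℝ) ^ 8)) * (5 * (k : ℝ) ^ 4) * (2 * (k : ℝ) ^ 2)
        = 40 / (k : ℝ) ^ 2 := by
      field_simp
      norm_num
    have h4 : 40 / (k : ℝ) ^ 2 ≤ 1 := by
      rw [div_le_one (by positivity)]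
      nlinarith
    linarith
  have t4 : 16 * (1 / 4 : ℝ) ^ (2 * k + 2) * (2 * N) ≤ 1 := by
    have h2 : 16 * (1 / 4 : ℝ) ^ (2 * k + 2) * (2 * N)
        ≤ 16 * (1 / (16 * (k : ℝ) ^ 8)) * (2 * (k : ℝ) ^ 2) := by gcongr
    have h3 : 16 * (1 / (16 * (k : ℝ) ^ 8)) * (2 * (k : ℝ) ^ 2) = 2 / (k : ℝ) ^ 6 := by
      field_simp
    have h4 : 2 / (k : ℝ) ^ 6 ≤ 1 := by
      rw [div_le_one (by positivity)]
      have h5 : (2 : ℝ) ^ 6 ≤ (k : ℝ) ^ 6 := pow_le_pow_left₀ (by norm_num) (by linarith) 6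
      norm_num at h5
      linarith
    linarith
  have t5 : (1 / 2 : ℝ) ^ (2 * N) * (2 * N) ≤ 1 := by
    have h1 : ((2 * N : ℕ) : ℝ) < ((2 ^ (2 * N) : ℕ) : ℝ) := by exact_mod_cast Nat.lt_two_pow_self
    push_cast at h1
    rw [one_div_pow, div_mul_eq_mul_div, one_mul, div_le_one (by positivity)]
    exact h1.le
  have hc2 : c * (2 * N) = (q : ℝ) ^ 2 * es / k * (2 * N)
      + 2 * ((k + 27 * (2 * k + 2) : ℕ) : ℝ) * es / D * (2 * N)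
      + 64 * (1 / 4 : ℝ) ^ (2 * k + 2) * ((2 * (N : ℝ)) ^ 2 + 4 * ((2 * k + 2 : ℕ) : ℝ)) * (2 * N)
      + 16 * (1 / 4 : ℝ) ^ (2 * k + 2) * (2 * N) + (1 / 2 : ℝ) ^ (2 * N) * (2 * N) := by
    rw [hc]
    ring
  rw [hc2]
  norm_num at h41 h2N
  linarith

/-- the entropy of the next stage -/
theorem ent_block (h : Bas e N) (P : Par e N n0 x k q D) (es c b K : ℝ) (hes0 : 0 ≤ es)
    (hes1 : es ≤ 3 * (e ^ 37 * N)) (hc0 : 0 ≤ c) (hc : c * (2 * N) ≤ e ^ 41 * N ^ 2)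
    (hb : b = e ^ 42 + 1 / (N : ℝ) ^ 2) (hK1 : 1 ≤ K) (hK2 : K ≤ 2 * N) :
    K * ((((D : ℝ) + ((k + 27 * (2 * k + 2) : ℕ) : ℝ)) * es) / x + c) + K ^ 2 * b
      + (2 * Real.log K + 3) ≤ (9 / 10 * e) ^ 40 * N ^ 2 := by
  have he := h.he
  have hN := h.Npos
  have hN8 := h.N_big
  have hx1 := P.hx1
  have hx0 : 0 < (x : ℝ) := lt_of_lt_of_le (by positivity) hx1
  have h41 : 10 ^ 8 * (e ^ 2 * N) ≤ e ^ 41 * N ^ 2 := by
    have h1 : e ^ 41 * (N : ℝ) ^ 2 = (e ^ 39 * N) * (e ^ 2 * N) := by ring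
    rw [h1]
    exact mul_le_mul_of_nonneg_right h.h39 (by positivity)
  have h2N := h.big 2 (by norm_num)
  norm_num at h41 h2N
  have hX : 0 ≤ e ^ 41 * (N : ℝ) ^ 2 := by positivity
  -- main term
  have hDy : (D : ℝ) + ((k + 27 * (2 * k + 2) : ℕ) : ℝ) ≤ 11 / 10 * (e ^ 5 * N) := by
    have s1 := h.step 5 5
    have b10 := h.big 10 (by norm_num)
    have hk2 := P.hk2
    have hD2 := P.hD2
    norm_num at s1
    push_cast
    linarith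
  have t1 : ((((D : ℝ) + ((k + 27 * (2 * k + 2) : ℕ) : ℝ)) * es) / x) ≤ 33 / 10 * (e ^ 41 * N) := by
    rw [div_le_iff₀ hx0]
    calc (((D : ℝ) + ((k + 27 * (2 * k + 2) : ℕ) : ℝ)) * es)
        ≤ (11 / 10 * (e ^ 5 * N)) * (3 * (e ^ 37 * N)) := by gcongr
      _ = 33 / 10 * (e ^ 41 * N) * (e * N) := by ring
      _ ≤ 33 / 10 * (e ^ 41 * N) * x := by gcongr
  have t1' : K * ((((D : ℝ) + ((k + 27 * (2 * k + 2) : ℕ) : ℝ)) * es) / x + c)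
      ≤ 76 / 10 * (e ^ 41 * N ^ 2) := by
    have h1 : K * ((((D : ℝ) + ((k + 27 * (2 * k + 2) : ℕ) : ℝ)) * es) / x + c)
        ≤ (2 * N) * (33 / 10 * (e ^ 41 * N) + c) := by gcongr
    have h2 : (2 * (N : ℝ)) * (33 / 10 * (e ^ 41 * N) + c)
        = 66 / 10 * (e ^ 41 * N ^ 2) + c * (2 * N) := by ring
    linarith
  have t2 : K ^ 2 * b ≤ 1 / 100 * (e ^ 41 * N ^ 2) + 4 := by
    have h1 : K ^ 2 * b ≤ (2 * N) ^ 2 * b := by
      have hb0 : 0 ≤ b := by rw [hb]; positivity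
      gcongr
    have h2 : (2 * (N : ℝ)) ^ 2 * b = 4 * e * (e ^ 41 * N ^ 2) + 4 := by
      rw [hb]
      field_simp
      ring
    have h3 : 4 * e * (e ^ 41 * (N : ℝ) ^ 2) ≤ 1 / 100 * (e ^ 41 * N ^ 2) := by
      refine mul_le_mul_of_nonneg_right ?_ hX
      have := h.he1
      linarith
    linarith
  have t3 : 2 * Real.log K + 3 ≤ 8 * (e ^ 2 * N) + 3 := by
    have h1 : Real.log K ≤ Real.log (2 * N) := Real.log_le_log (by linarith) hK2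
    have h2 := log_le_two_sqrt (2 * (N : ℝ)) (by positivity)
    have h3 : Real.sqrt (2 * N) ≤ 2 * Real.sqrt N := by
      rw [Real.sqrt_le_left (by positivity), mul_pow, Real.sq_sqrt hN.le]
      linarith
    have h4 := sqrt_le h
    linarith
  have h940 : (1 : ℝ) / 100 ≤ (9 / 10) ^ 40 := by norm_num
  have h5 : (9 / 10 * e) ^ 40 * (N : ℝ) ^ 2 = (9 / 10) ^ 40 * (e ^ 40 * N ^ 2) := by
    rw [mul_pow]
    ring
  have h6 : 20 * (e ^ 41 * (N : ℝ) ^ 2) ≤ 1 / 100 * (e ^ 40 * N ^ 2) := by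
    have h7 : 20 * (e ^ 41 * (N : ℝ) ^ 2) = (20 * e) * (e ^ 40 * N ^ 2) := by ring
    rw [h7]
    refine mul_le_mul_of_nonneg_right ?_ (by positivity)
    have := h.he1
    linarith
  have h8 : 1 / 100 * (e ^ 40 * (N : ℝ) ^ 2) ≤ (9 / 10) ^ 40 * (e ^ 40 * N ^ 2) :=
    mul_le_mul_of_nonneg_right h940 (by positivity)
  rw [h5]
  linarith

/-- the corner bits -/
theorem corner_block (h : Bas e N) (P : Par e N n0 x k q D) (nA : ℕ) (hnA : nA ≤ 2 * N)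
    (M b : ℝ) (hM0 : 0 ≤ M) (hM1 : M ≤ 2 * (e ^ 38 * N ^ 2)) (hb : b = e ^ 42 + 1 / (N : ℝ) ^ 2) :
    100 ≤ x / 4 ∧ (nA : ℝ) ^ 2 ≤ (2 : ℝ) ^ (((x / 4 : ℕ) : ℝ) / 2) ∧
      64 * Real.exp (-(Real.log 2 * ((x / 4 : ℕ) : ℝ) ^ 2 / (24 * ((x / 4 : ℕ) : ℝ) + 10 * M))) ≤ b ∧
      Real.log 2 * Real.exp (-(2 * Real.log N)) ≤ b := by
  have he := h.he
  have hN := h.Npos
  have hN8 := h.N_big
  have hx1 := P.hx1
  have hx2 := P.hx2
  have hl2 : (69 : ℝ) / 100 ≤ Real.log 2 := by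
    have := Real.log_two_gt_d9
    linarith
  have hl2' : Real.log 2 ≤ 1 := by
    have := Real.log_two_lt_d9
    linarith
  have h1N := h.big 1 (by norm_num)
  rw [pow_one] at h1N
  have hd1 : e * N / 5 ≤ ((x / 4 : ℕ) : ℝ) := by
    have h1 : x ≤ 4 * (x / 4) + 3 := by omega
    have h2 : (x : ℝ) ≤ 4 * ((x / 4 : ℕ) : ℝ) + 3 := by exact_mod_cast h1
    linarith
  have hd2 : ((x / 4 : ℕ) : ℝ) ≤ e * N := by
    have h1 : 4 * (x / 4) ≤ x := by omega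
    have h2 : 4 * ((x / 4 : ℕ) : ℝ) ≤ (x : ℝ) := by exact_mod_cast h1
    linarith
  set d : ℝ := ((x / 4 : ℕ) : ℝ) with hd
  have heN : 0 < e * (N : ℝ) := by positivity
  refine ⟨?_, ?_, ?_, ?_⟩
  · have h1 := (nat_block h P).2.2.2.2.2.2.2.2.2
    omega
  · have h1 : (2 : ℝ) ^ (d / 2) = Real.exp (Real.log 2 * (d / 2)) := by
      rw [Real.rpow_def_of_pos (by norm_num)]
    rw [h1]
    have h2 := pow4_le_exp (Real.log 2 * (d / 2)) (by positivity)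
    have h3 : 69 / 1000 * (e * N) ≤ Real.log 2 * (d / 2) := by
      have : 69 / 100 * (e * N / 10) ≤ Real.log 2 * (d / 2) := by
        refine mul_le_mul hl2 (by linarith) (by positivity) (by positivity)
      linarith
    have h4 : (69 / 1000 * (e * N)) ^ 4 ≤ (Real.log 2 * (d / 2)) ^ 4 :=
      pow_le_pow_left₀ (by positivity) h3 4
    have h5 : (69 / 1000 * (e * (N : ℝ))) ^ 4 = (69 / 1000) ^ 4 * (e ^ 4 * N) * N ^ 3 := by ring
    have h6 := h.big 4 (by norm_num)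
    have h7 : (69 / 1000 : ℝ) ^ 4 * 10 ^ 8 * N ^ 3 ≤ (69 / 1000) ^ 4 * (e ^ 4 * N) * N ^ 3 := by
      gcongr
    have hA : (nA : ℝ) ≤ 2 * N := by exact_mod_cast hnA
    have h8 : (nA : ℝ) ^ 2 ≤ (2 * N) ^ 2 := pow_le_pow_left₀ (Nat.cast_nonneg _) hA 2
    have h9 : (10 : ℝ) ^ 8 * N ^ 2 ≤ N * N ^ 2 := mul_le_mul_of_nonneg_right hN8 (by positivity)
    have h10 : (N : ℝ) * N ^ 2 = N ^ 3 := by ring
    norm_num at h7 h9
    have h11 : 0 ≤ (N : ℝ) ^ 2 := by positivity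
    nlinarith
  · have hMp : 0 < 24 * d + 10 * M := by
      have : 0 < d := by linarith [div_pos heN (by norm_num : (0 : ℝ) < 5)]
      linarith
    have h38 : 48 * (e * N) ≤ e ^ 38 * (N : ℝ) ^ 2 := by
      have h1 : e ^ 38 * (N : ℝ) ^ 2 = (e ^ 37 * N) * (e * N) := by ring
      have h2 := h.big 37 (by norm_num)
      rw [h1]
      refine mul_le_mul_of_nonneg_right ?_ heN.le
      linarith
    have hden : 24 * d + 10 * M ≤ 21 * (e ^ 38 * N ^ 2) := by linarith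
    have h38p : 0 < e ^ 38 * (N : ℝ) ^ 2 := by positivity
    have hy : 1 / (1000 * e ^ 36) ≤ Real.log 2 * d ^ 2 / (24 * d + 10 * M) := by
      rw [div_le_div_iff₀ (by positivity) hMp]
      have h1 : (e * N / 5) ^ 2 ≤ d ^ 2 := pow_le_pow_left₀ (by positivity) hd1 2
      have h2 : 69 / 100 * (e * N / 5) ^ 2 ≤ Real.log 2 * d ^ 2 :=
        mul_le_mul hl2 h1 (by positivity) (by linarith)
      have h3 : 69 / 100 * (e * (N : ℝ) / 5) ^ 2 * (1000 * e ^ 36)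
          = 69 * 10 / 25 * (e ^ 38 * N ^ 2) := by ring
      have h4 : 69 / 100 * (e * (N : ℝ) / 5) ^ 2 * (1000 * e ^ 36)
          ≤ Real.log 2 * d ^ 2 * (1000 * e ^ 36) := mul_le_mul_of_nonneg_right h2 (by positivity)
      linarith
    have hy0 : 0 < 1 / (1000 * e ^ 36) := by positivity
    have h1 : Real.exp (-(Real.log 2 * d ^ 2 / (24 * d + 10 * M)))
        ≤ Real.exp (-(1 / (1000 * e ^ 36))) := Real.exp_le_exp.2 (by linarith)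
    have h2 := exp_neg_le (1 / (1000 * e ^ 36)) hy0
    have h3 : 2 / (1 / (1000 * e ^ 36)) ^ 2 = 2 * 10 ^ 6 * e ^ 72 := by
      field_simp
      norm_num
    have h4 : 64 * (2 * 10 ^ 6 * e ^ 72) ≤ e ^ 42 := by
      have h5 : e ^ 3 ≤ (1 / 2000) ^ 3 := pow_le_pow_left₀ he.le h.he1 3
      have h6 : 64 * (2 * 10 ^ 6 * e ^ 72) = (128 * 10 ^ 6 * e ^ 3) * (e ^ 27 * e ^ 42) := by ring
      have h7 : e ^ 27 * e ^ 42 ≤ 1 * e ^ 42 :=
        mul_le_mul_of_nonneg_right (h.pow_le 27) (by positivity)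
      have h8 : 128 * 10 ^ 6 * e ^ 3 ≤ 1 := by
        norm_num at h5
        linarith
      rw [h6]
      calc (128 * 10 ^ 6 * e ^ 3) * (e ^ 27 * e ^ 42) ≤ 1 * (1 * e ^ 42) :=
            mul_le_mul h8 h7 (by positivity) (by norm_num)
        _ = e ^ 42 := by ring
    have h9 : 0 ≤ 1 / (N : ℝ) ^ 2 := by positivity
    rw [hb]
    rw [h3] at h2
    linarith
  · have h1 : Real.exp (-(2 * Real.log N)) = 1 / (N : ℝ) ^ 2 := by
      rw [Real.exp_neg, show (2 : ℝ) * Real.log N = Real.log ((N : ℝ) ^ 2) by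
        rw [Real.log_pow]; norm_num, Real.exp_log (by positivity), one_div]
    rw [h1, hb]
    have h2 : 0 < 1 / (N : ℝ) ^ 2 := by positivity
    have h3 : 0 < e ^ 42 := by positivity
    nlinarith

/-- the loss of probability -/
theorem loss_block (h : Bas e N) (P : Par e N n0 x k q D) :
    6 * Real.log N < e ^ 38 * N ^ 2 ∧
      ((4 * (N : ℝ)) * ((n0 : ℝ) + 1)) ^ 2 * ((1 / (N : ℝ)) ^ 6 + Real.exp (-(6 * Real.log N))) +
        ((4 * (N : ℝ)) / x + 1) * ((e ^ 40 * N ^ 2 + 1) / (e ^ 38 * N ^ 2 - 6 * Real.log N)) ≤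
        100 * e := by
  have he := h.he
  have hN := h.Npos
  have hN8 := h.N_big
  have hx1 := P.hx1
  have hx0 : 0 < (x : ℝ) := lt_of_lt_of_le (by positivity) hx1
  have h6 := six_log h
  have h38p : 0 < e ^ 38 * (N : ℝ) ^ 2 := by positivity
  refine ⟨by linarith, ?_⟩
  have h1 : Real.exp (-(6 * Real.log N)) = (1 / (N : ℝ)) ^ 6 := by
    rw [Real.exp_neg, show (6 : ℝ) * Real.log N = Real.log ((N : ℝ) ^ 6) by
      rw [Real.log_pow]; norm_num, Real.exp_log (by positivity), one_div, inv_pow]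
  rw [h1]
  have hn0 : (n0 : ℝ) ≤ 2 * N := by exact_mod_cast P.hn2
  have t1 : ((4 * (N : ℝ)) * ((n0 : ℝ) + 1)) ^ 2 * ((1 / (N : ℝ)) ^ 6 + (1 / (N : ℝ)) ^ 6) ≤ e := by
    have h2 : ((4 * (N : ℝ)) * ((n0 : ℝ) + 1)) ^ 2 ≤ ((4 * (N : ℝ)) * (3 * N)) ^ 2 := by
      have : (n0 : ℝ) + 1 ≤ 3 * N := by linarith
      gcongr
    have h3 : ((4 * (N : ℝ)) * ((n0 : ℝ) + 1)) ^ 2 * ((1 / (N : ℝ)) ^ 6 + (1 / (N : ℝ)) ^ 6)
        ≤ ((4 * (N : ℝ)) * (3 * N)) ^ 2 * ((1 / (N : ℝ)) ^ 6 + (1 / (N : ℝ)) ^ 6) := by gcongr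
    have h4 : ((4 * (N : ℝ)) * (3 * N)) ^ 2 * ((1 / (N : ℝ)) ^ 6 + (1 / (N : ℝ)) ^ 6)
        = 288 / N ^ 2 := by
      field_simp
      norm_num
    have h5 : 288 / (N : ℝ) ^ 2 ≤ e := by
      rw [div_le_iff₀ (by positivity)]
      have h7 := h.big 1 (by norm_num)
      rw [pow_one] at h7
      nlinarith
    linarith
  have t2 : ((4 * (N : ℝ)) / x + 1) ≤ 5 / e := by
    have h2 : (4 * (N : ℝ)) / x ≤ 4 / e := by
      rw [div_le_div_iff₀ hx0 he]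
      nlinarith
    have h3 : 1 ≤ 1 / e := by
      rw [le_div_iff₀ he]
      have := h.he1
      linarith
    have h4 : 4 / e + 1 / e = 5 / e := by ring
    linarith
  have t3 : (e ^ 40 * (N : ℝ) ^ 2 + 1) / (e ^ 38 * N ^ 2 - 6 * Real.log N) ≤ 4 * e ^ 2 := by
    rw [div_le_iff₀ (by linarith)]
    have h2 : 1 ≤ e ^ 40 * (N : ℝ) ^ 2 := by
      have h3 : e ^ 40 * (N : ℝ) ^ 2 = (e ^ 39 * N) * (e * N) := by ring
      have h4 := h.h39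
      have h5 := h.big 1 (by norm_num)
      rw [pow_one] at h5
      rw [h3]
      have h7 : (10 : ℝ) ^ 8 * 10 ^ 8 ≤ (e ^ 39 * N) * (e * N) :=
        mul_le_mul h4 h5 (by norm_num) (by positivity)
      norm_num at h7
      linarith
    have h3 : 4 * e ^ 2 * (e ^ 38 * (N : ℝ) ^ 2 - 6 * Real.log N)
        ≥ 4 * e ^ 2 * (3 / 4 * (e ^ 38 * (N : ℝ) ^ 2)) := by
      have : 0 < 4 * e ^ 2 := by positivity
      nlinarith
    have h4 : 4 * e ^ 2 * (3 / 4 * (e ^ 38 * (N : ℝ) ^ 2)) = 3 * (e ^ 40 * N ^ 2) := by ring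
    linarith
  have t4 : ((4 * (N : ℝ)) / x + 1) * ((e ^ 40 * N ^ 2 + 1) / (e ^ 38 * N ^ 2 - 6 * Real.log N))
      ≤ 5 / e * (4 * e ^ 2) := by
    refine mul_le_mul t2 t3 ?_ (by positivity)
    refine div_nonneg (by positivity) (by linarith)
  have t5 : 5 / e * (4 * e ^ 2) = 20 * e := by
    field_simp
    norm_num
  linarith

end N89

open N89 in
/-- numbers of the stage; `κ = ε ^ 38 * N ^ 2`, `e = (1 / N) ^ 6`, `t = 6 * log N`,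
`M = scM88 nA x κ e` (unfolded) -/
theorem stg_num74 : ∃ ε₀ : ℝ, 0 < ε₀ ∧ ε₀ ≤ 1 ∧ ∃ C : ℝ, 1 ≤ C ∧ ∀ ε : ℝ, 0 < ε → ε ≤ ε₀ →
    ∀ N : ℕ, C ≤ ε ^ 39 * N → ∀ n0 : ℕ, N ≤ 2 * n0 → n0 ≤ 2 * N →
    ∃ (x nA k₀ R D y0 k q s s1 r D4 : ℕ) (M b es c : ℝ),
      M = ε ^ 38 * N ^ 2 + Real.log (1 / (1 / (N : ℝ)) ^ 6) +
        4 * (nA : ℝ) ^ 2 * Real.exp (-((x : ℝ) ^ 2 / (16 * nA))) ∧ 0 ≤ M ∧
      es = (M + 1) / x ∧
      c = (q : ℝ) ^ 2 * es / s1 + 2 * y0 * es / D + 64 * (1 / 4) ^ s * ((2 * (N : ℝ)) ^ 2 + 4 * s)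
        + 16 * (1 / 4) ^ s + (1 / 2) ^ (2 * N) ∧
      -- sizes
      1 ≤ x ∧ nA + x ≤ n0 ∧ 0 < R ∧ 2 ≤ k₀ ∧
      k₀ + R + D + y0 + 3 * x ≤ nA ∧ k₀ + R + 96 * s + s1 + r + 2 * x ≤ nA ∧
      k₀ + R + 4 * D4 + 2 * x ≤ nA ∧ (n0 : ℝ) - C * ε * N ≤ k₀ ∧
      -- sibling inequality
      1 ≤ s1 ∧ 3 ≤ s ∧ 1 ≤ q ∧ 2 * (2 * N) ≤ k * q ∧ s1 + 27 * s ≤ y0 ∧ 2 * y0 ≤ D ∧
      24 * s + 1 ≤ D ∧ s1 + q ≤ D + y0 ∧ 1 ≤ k ∧ k + 1 ≤ s ∧ 2 * N ≤ 2 ^ s ∧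
      2 * M + 72 * s * Real.log 2 < ((r : ℝ) - s) * ((s : ℝ) - k - 1) * Real.log 2 ∧
      -- corner bits
      100 ≤ D4 ∧ (nA : ℝ) ^ 2 ≤ (2 : ℝ) ^ ((D4 : ℝ) / 2) ∧
      64 * Real.exp (-(Real.log 2 * (D4 : ℝ) ^ 2 / (24 * D4 + 10 * M))) ≤ b ∧
      Real.log 2 * Real.exp (-(2 * Real.log N)) ≤ b ∧
      -- entropy of the next stage
      ((k₀ : ℝ) + R) * ((((D : ℝ) + y0) * es) / R + c) + ((k₀ : ℝ) + R) ^ 2 * b +
        (2 * Real.log ((k₀ : ℝ) + R) + 3) ≤ (9 / 10 * ε) ^ 40 * N ^ 2 ∧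
      -- loss of probability
      6 * Real.log N < ε ^ 38 * N ^ 2 ∧
      ((4 * (N : ℝ)) * ((n0 : ℝ) + 1)) ^ 2 * ((1 / (N : ℝ)) ^ 6 + Real.exp (-(6 * Real.log N))) +
        ((4 * (N : ℝ)) / x + 1) * ((ε ^ 40 * N ^ 2 + 1) / (ε ^ 38 * N ^ 2 - 6 * Real.log N)) ≤
        C * ε := by
  refine ⟨1 / 2000, by norm_num, by norm_num, 10 ^ 8, by norm_num, ?_⟩
  intro e he he1 N h39 n0 hn1 hn2
  have h : Bas e N := ⟨he, he1, h39⟩
  obtain ⟨x, k, q, D, P⟩ := exists_par h n0 hn1 hn2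
  obtain ⟨b1, b2, b3, b4, b5, b6, b7, b8, b9, b10⟩ := nat_block h P
  have hnA : n0 - x ≤ 2 * N := by omega
  set nA : ℕ := n0 - x with hnAdef
  obtain ⟨M, hM⟩ : ∃ M : ℝ, M = e ^ 38 * N ^ 2 + Real.log (1 / (1 / (N : ℝ)) ^ 6) +
        4 * (nA : ℝ) ^ 2 * Real.exp (-((x : ℝ) ^ 2 / (16 * nA))) := ⟨_, rfl⟩
  obtain ⟨hM0, hM1⟩ := M_block h P nA hnA M hM
  obtain ⟨es, hes⟩ : ∃ es : ℝ, es = (M + 1) / x := ⟨_, rfl⟩
  obtain ⟨hes0, hes1⟩ := es_block h P M es hM0 hM1 hes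
  obtain ⟨c, hc⟩ : ∃ c : ℝ, c = (q : ℝ) ^ 2 * es / k
      + 2 * ((k + 27 * (2 * k + 2) : ℕ) : ℝ) * es / D
      + 64 * (1 / 4) ^ (2 * k + 2) * ((2 * (N : ℝ)) ^ 2 + 4 * ((2 * k + 2 : ℕ) : ℝ))
      + 16 * (1 / 4) ^ (2 * k + 2) + (1 / 2) ^ (2 * N) := ⟨_, rfl⟩
  have hc1 := c_block h P es c hes0 hes1 hc
  have hc0 : 0 ≤ c := by rw [hc]; positivity
  obtain ⟨b, hb⟩ : ∃ b : ℝ, b = e ^ 42 + 1 / (N : ℝ) ^ 2 := ⟨_, rfl⟩
  obtain ⟨c1, c2, c3, c4⟩ := corner_block h P nA hnA M b hM0 hM1 hb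
  obtain ⟨l1, l2⟩ := loss_block h P
  have hN8 := h.N_big
  have hk₀ : ((n0 - x - 5 * x : ℕ) : ℝ) = (n0 : ℝ) - 6 * x := by
    rw [Nat.sub_sub, Nat.cast_sub (by omega)]
    push_cast
    ring
  refine ⟨x, nA, nA - 5 * x, x, D, k + 27 * (2 * k + 2), k, q, 2 * k + 2, k, 2 * k + 2 + 145 + k,
    x / 4, M, b, es, c, hM, hM0, hes, hc, b1, by omega, by omega, by omega, by omega, by omega,
    by omega, ?_, by omega, by omega, b3, b4, le_rfl, b5, by omega, by omega, by omega, by omega,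
    ?_, ?_, c1, c2, c3, c4, ?_, l1, l2.trans ?_⟩
  · rw [hnAdef, hk₀]
    have hx2 := P.hx2
    have h1N := h.big 1 (by norm_num)
    rw [pow_one] at h1N
    nlinarith
  · obtain ⟨h1, h2⟩ := k_block h P
    have h3 : ((2 * N : ℕ) : ℝ) ≤ ((2 ^ (2 * k + 2) : ℕ) : ℝ) := by
      push_cast
      have hk0 : (1 : ℝ) ≤ k := by exact_mod_cast (show 1 ≤ k by omega)
      have h4 : (k : ℝ) ^ 2 * 1 ≤ (k : ℝ) ^ 2 * (k : ℝ) ^ 2 := by
        refine mul_le_mul_of_nonneg_left ?_ (by positivity)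
        nlinarith
      have h5 : (k : ℝ) ^ 2 * (k : ℝ) ^ 2 = (k : ℝ) ^ 4 := by ring
      linarith
    exact_mod_cast h3
  · push_cast
    have hk1 := P.hk1
    have hN := h.Npos
    have h1 : 2 * M ≤ 4 * e ^ 18 * (k : ℝ) ^ 2 := by
      have h2 : (e ^ 10 * (N : ℝ)) ^ 2 ≤ (k : ℝ) ^ 2 := pow_le_pow_left₀ (by positivity) hk1 2
      have h3 : 2 * (2 * (e ^ 38 * (N : ℝ) ^ 2)) = 4 * e ^ 18 * (e ^ 10 * N) ^ 2 := by ring
      have h4 : 4 * e ^ 18 * (e ^ 10 * (N : ℝ)) ^ 2 ≤ 4 * e ^ 18 * (k : ℝ) ^ 2 :=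
        mul_le_mul_of_nonneg_left h2 (by positivity)
      linarith
    have h5 : 4 * e ^ 18 ≤ 1 / 2 := by
      have h6 : e ^ 18 ≤ (1 / 2000) ^ 18 := pow_le_pow_left₀ he.le he1 18
      norm_num at h6 ⊢
      linarith
    have h7 : 4 * e ^ 18 * (k : ℝ) ^ 2 ≤ 1 / 2 * (k : ℝ) ^ 2 :=
      mul_le_mul_of_nonneg_right h5 (by positivity)
    have hl2 : (69 : ℝ) / 100 ≤ Real.log 2 := by
      have := Real.log_two_gt_d9
      linarith
    have hk0 : (1 : ℝ) ≤ k := by exact_mod_cast (show 1 ≤ k by omega)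
    have h8 : (2 * (k : ℝ) + 2 + 145 + k - (2 * k + 2)) * (2 * k + 2 - k - 1) * Real.log 2
        - 72 * (2 * k + 2) * Real.log 2 = ((k : ℝ) + 1) ^ 2 * Real.log 2 := by ring
    have h9 : 69 / 100 * ((k : ℝ) + 1) ^ 2 ≤ ((k : ℝ) + 1) ^ 2 * Real.log 2 := by
      rw [mul_comm]
      exact mul_le_mul_of_nonneg_left hl2 (by positivity)
    nlinarith
  · have hK : (((nA - 5 * x : ℕ) : ℝ) + x) ≤ 2 * N := by
      have h1 : nA - 5 * x + x ≤ 2 * N := by omega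
      exact_mod_cast h1
    have hK1 : 1 ≤ (((nA - 5 * x : ℕ) : ℝ) + x) := by
      have h1 : 1 ≤ nA - 5 * x + x := by omega
      exact_mod_cast h1
    exact ent_block h P es c b _ hes0 hes1 hc0 hc1 hb hK1 hK
  · nlinarith

end Pool.Agent.CutSeq.NJ
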