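import Pool.Agent.NJ.StgAsm19
import Pool.Agent.NJ.StgNum89
import Pool.Agent.NJ.SlopeR88
import Pool.Agent.NJ.BTj49
import Pool.Agent.NJ.JuncT89
import Pool.Agent.NJ.Chain81
import Pool.Agent.NJ.BottEq81
import Pool.Agent.NJ.Stg59
import Pool.Agent.NJ.NJ50

/-!
S19271 / NJ (helper19): the stage theorem.
-/

set_option autoImplicit false

namespace Pool.Agent.CutSeq.NJ

open Finset Pool.Agent.CutSeq Pool.Agent.NJ


/-! ### the stage -/

/-- **STAGE**, the hypothesis of the iteration -/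
theorem stage_final : ∃ e0 C : ℝ, 0 < e0 ∧ 1 ≤ C ∧ StgHyp50 C e0 := by
  obtain ⟨ε₀, hε0, hε01, C, hC, hnum⟩ := stg_num74
  refine ⟨ε₀, C, hε0, hC, ?_⟩
  intro e he hee N hN B L n0 hB hL h3 h4 G p hG hK hp
  obtain ⟨x, nA, k₀, R, D, y0, k, q, s, s1, r, D4, M, b, es, c, hM, hM0, hes, hc, hx, hnAx, hR, hk2,
    hz1, hz2, hz3, hz4, hs1, hs3, hq, hkq, hy0, hD, hD2, hsq, hk1, hks, hNs, hnumM, hD4, hA2, hb1,
    hb2, hend, hlog, hloss⟩ := hnum e he hee N hN n0 h3 h4
  have hN1 : 1 ≤ N := by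
    rcases Nat.eq_zero_or_pos N with h0 | h0
    · rw [h0] at hN
      simp at hN
      linarith
    · exact h0
  have hNr : (1 : ℝ) ≤ N := by exact_mod_cast hN1
  have h : n0 + 2 ≤ B := by omega
  have hBr : (B : ℝ) = 4 * N := by rw [hB]; push_cast; ring
  set κ : ℝ := e ^ 38 * N ^ 2 with hκ
  set ε : ℝ := (1 / (N : ℝ)) ^ 6 with hε
  have hεp : 0 < ε := by positivity
  have hMs : scM88 nA x κ ε = M := by rw [hM]; rfl
  have hfam := nextG_fam h hG nA κ ε
  have hx0 : (0 : ℝ) < x := by exact_mod_cast hx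
  have hes0 : 0 ≤ es := by rw [hes]; positivity
  have hs0 : (0 : ℝ) < s1 := by exact_mod_cast hs1
  have hD0 : (0 : ℝ) < D := by
    have : 0 < D := by omega
    exact_mod_cast this
  have hc0 : 0 ≤ c := by rw [hc]; positivity
  have hb0 : 0 ≤ b := le_trans (by positivity) hb1
  -- the first step
  have hstart : Real.log 2 * (1 - 1 / (B : ℝ)) ^ L ≤ b := by
    refine le_trans (mul_le_mul_of_nonneg_left ?_ (Real.log_nonneg (by norm_num))) hb2
    have hB0 : (0 : ℝ) < B := by rw [hBr]; linarith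
    have h5 : 1 - 1 / (B : ℝ) ≤ Real.exp (-(1 / (B : ℝ))) := by
      have := Real.add_one_le_exp (-(1 / (B : ℝ)))
      linarith
    have h6 : 0 ≤ 1 - 1 / (B : ℝ) := by
      rw [sub_nonneg, div_le_one hB0, hBr]
      linarith
    calc (1 - 1 / (B : ℝ)) ^ L ≤ Real.exp (-(1 / (B : ℝ))) ^ L := pow_le_pow_left₀ h6 h5 L
      _ = Real.exp (-(L / (B : ℝ))) := by
          rw [← Real.exp_nat_mul]
          congr 1
          ring
      _ ≤ Real.exp (-(2 * Real.log N)) := by
          refine Real.exp_le_exp.2 (neg_le_neg ?_)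
          rw [le_div_iff₀ hB0]
          linarith
  obtain ⟨k', hk'1, hk'2, hk'3⟩ := stage_core19 hfam k₀ R D y0 es c b hR (by omega) hes0 hc0 hb0
    (by omega) (by omega)
    (fun n i hni => by
      refine chain81 h hfam n i (by omega) b (fun hn => ?_) hstart
      rw [bott_ind81 h hfam n i hn (by omega)]
      refine (bott_fin49 h hG nA n x hn hx (by omega) κ ε hεp M hM hM0 i D4 hD4 (by omega)
        hA2).trans ?_
      exact mul_le_mul_of_nonneg_left hb1 (Nat.cast_nonneg i))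
    (fun n i hn hni => by
      have h5 := S89.junc89 h hG nA n x (nA - n - 2 * x) i s1 s k r q (2 * N) y0 D x κ ε M hn hx
        (by omega) (by omega) hεp hM hM0 hs1 hs3 hk1 hks (by omega) hq (by omega) hkq hy0 hD hx
        (by omega) (by omega) (by omega) hnumM
      rw [UG19_one, add_sub_cancel_left]
      refine h5.trans ?_
      show UG19 B L (nextG h G nA κ ε) n (i + D) y0 - UG19 B L (nextG h G nA κ ε) n (i + D - 1) y0 + _ ≤ _
      rw [hc, hes]
      have h6 : (n : ℝ) ^ 2 ≤ (2 * (N : ℝ)) ^ 2 := by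
        refine pow_le_pow_left₀ (Nat.cast_nonneg n) ?_ 2
        have : n ≤ 2 * N := by omega
        exact_mod_cast this
      have h7 : 64 * (1 / 4 : ℝ) ^ s * ((n : ℝ) ^ 2 + 4 * s) ≤
          64 * (1 / 4 : ℝ) ^ s * ((2 * (N : ℝ)) ^ 2 + 4 * s) := by
        refine mul_le_mul_of_nonneg_left ?_ (by positivity)
        linarith
      linarith)
    (fun n i hn hni => by
      rw [hes, ← hMs]
      exact slopeR88 h hG nA n i y0 x x hn hx hx (by omega) (by omega) κ ε hεp (by rw [hMs]; exact hM0)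
        (nextG h G nA κ ε n) subset_rfl)
    (fun n i hn hni j hj => by
      rw [hes, ← hMs]
      exact slopeC88 h hG nA n i j x x hn hx hx (by omega) (by omega) κ ε hεp (by rw [hMs]; exact hM0)
        (nextG h G nA κ ε n) subset_rfl)
  refine ⟨nextG h G nA κ ε, k', ?_, by omega, hfam.restrict (by omega), hk'3.trans hend, ?_⟩
  · have : (k₀ : ℝ) ≤ k' := by exact_mod_cast hk'1
    linarith
  · have h5 := nextG_loss h hG hK hp x nA hx (by omega) κ ε (6 * Real.log N) hεp.le hlog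
    refine (hfam.bad_mono (show k' ≤ n0 by omega)).trans (h5.trans ?_)
    rw [hBr]
    linarith

/-- **STAGE** -/
theorem stage19 : StageThm := by
  obtain ⟨e0, C, he0, hC, hst⟩ := stage_final
  refine ⟨e0, C, he0, hC, ?_⟩
  intro e he hee N hN L n0 hL h3 h4 p G hG
  obtain ⟨G', n2, h5, h6, h7, h8, h9⟩ := hst e he hee N hN (4 * N) L n0 rfl hL h3 h4 G p hG.fam
    hG.ent hG.loss
  exact ⟨n2, G', h6, by linarith, h7, h8, h9⟩

/-- **NO JUNK**, polynomial form -/
theorem njpoly19 : NJpoly := by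
  obtain ⟨e0, C, he0, hC, hst⟩ := stage_final
  exact no_junk_of_stage hC he0 hst

end Pool.Agent.CutSeq.NJ
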