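import Pool.Agent.NJ.FinA52
import Pool.Agent.NJ.StgFin19
import Pool.Agent.NJ.Iter32

/-!
S19271, closing step: from the linear NOJUMP estimate to the frozen statement.
-/

set_option autoImplicit false

namespace Pool.Agent.CutSeq.NJ

open Filter Topology Finset

variable {d : ℕ → ℝ → ℝ} {T : ℕ → ℝ → ℝ}

/-- a distance which is not near zero forces the time to be at least `7 N` -/
theorem Basic52.low7 (hb : Basic52 d T) (h : ℝ) (hh : 0 < h) (hh1 : h < 1) :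
    ∃ N₀ : ℕ, ∀ N ≥ N₀, ∀ t : ℝ, 0 ≤ t → dd N t ≤ 1 - h → 7 * (N : ℝ) ≤ t := by
  obtain ⟨N₀, hN₀⟩ := eventually_atTop.1 (hb.hlow (1 - h) (by linarith) (by linarith))
  refine ⟨max N₀ 2, fun N hN t ht htd => ?_⟩
  have h1 : N₀ ≤ N := le_trans (le_max_left _ _) hN
  have h2 : 2 ≤ N := le_trans (le_max_right _ _) hN
  refine (hN₀ N h1).trans ?_
  rw [hb.hT]
  exact csInf_le ⟨0, fun s hs => hs.1⟩ ⟨ht, by rw [hb.hD N h2 t ht]; exact htd⟩

/-- **the frozen statement from the linear NOJUMP estimate** -/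
theorem frozen77 (hB : NoJumpB) :
    ∀ (K : (n : ℕ) → Matrix (Matrix (Fin n) (Fin n) (ZMod 2)) (Matrix (Fin n) (Fin n) (ZMod 2)) ℝ),
      (∀ (n : ℕ) (A B : Matrix (Fin n) (Fin n) (ZMod 2)),
        K n A B = (1 / 2 : ℝ) * (if B = A then 1 else 0)
          + (1 / (2 * ((n : ℝ) - 1))) *
            ∑ i : Fin n, ∑ j : Fin n,
              (if j.val = i.val + 1 ∧ B = A.updateRow i (A i + A j) then (1 : ℝ) else 0)) →
    ∀ (d : ℕ → ℝ → ℝ),
      (∀ (n : ℕ) (t : ℝ),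
        d n t = (1 / 2 : ℝ) * ∑ B : Matrix (Fin n) (Fin n) (ZMod 2),
          |(∑' k : ℕ, Real.exp (-(((n : ℝ) - 1) * t)) * (((n : ℝ) - 1) * t) ^ k
              / (k.factorial : ℝ) * ((K n) ^ k) 1 B)
            - (if (∀ a : Fin n, B a a = 1) ∧ (∀ a b : Fin n, b < a → B a b = 0)
                then (1 / 2 : ℝ) ^ (n * (n - 1) / 2) else 0)|) →
    ∀ (T : ℕ → ℝ → ℝ),
      (∀ (n : ℕ) (ε : ℝ), T n ε = sInf {t : ℝ | 0 ≤ t ∧ d n t ≤ ε}) →
    ∀ ε : ℝ, 0 < ε → ε < 1 →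
      Tendsto (fun n : ℕ => T n ε / T n (1 - ε)) atTop (𝓝 1) := by
  intro K hK d hd T hT ε hε hε1
  have hb : Basic52 d T := basic52 K hK _ (fun _ _ _ => rfl) d hd T hT
  exact full52 hb (fun C δ q e hC hδ hq hq1 he =>
    cutB_of_spread (spread_of_B32 hB) njpoly19 hb.low7 C δ q e hC hδ hq hq1 he) ε hε hε1

end Pool.Agent.CutSeq.NJ
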