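import Pool.Agent.CutSeq.TForm
import Pool.Agent.CutSeq.Start
import Pool.Agent.CutSeq.SoftA
import Pool.Agent.CutSeq.Fin
import Pool.Agent.CutSeq.Gap
import Pool.Agent.CutSeq.Sib

/-!
S19271, outer shell: from the total variation distance to the entropy of the array, and back.
-/

set_option autoImplicit false

namespace Pool.Agent.CutSeq.NJ

open Finset Filter Topology

section Ent

variable {Ω A : Type*} [Fintype Ω] [Fintype A]

/-- the entropy from a bound of the density off a bad set -/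
theorem K0_le_bad (w : Ω → ℝ) (hw : ∀ ω, 0 ≤ w ω) (htot : tot w = 1) (X : Ω → A) (bad : Set A)
    (R p : ℝ) (hR : 1 ≤ R) (h : ∀ a ∉ bad, mass w X a * (Fintype.card A : ℝ) ≤ R)
    (hp : pr w {ω | X ω ∈ bad} ≤ p) :
    K0 w X ≤ Real.log R + p * Real.log (Fintype.card A) := by
  classical
  rw [K0_eq, htot]
  have hlR : 0 ≤ Real.log R := Real.log_nonneg hR
  have hlA : 0 ≤ Real.log (Fintype.card A) := by
    rcases Nat.eq_zero_or_pos (Fintype.card A) with h | h
    · rw [h]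
      simp
    · exact Real.log_nonneg (by exact_mod_cast h)
  have h1 : ∀ ω, w ω * Real.log (Fintype.card A * mass w X (X ω) / 1) ≤
      w ω * Real.log R + ind {ω | X ω ∈ bad} w ω * Real.log (Fintype.card A) := by
    intro ω
    by_cases hz : w ω = 0
    · have : ind {ω | X ω ∈ bad} w ω = 0 := by
        unfold ind
        rw [Set.indicator_apply]
        split_ifs
        · exact hz
        · rfl
      simp [hz, this]
    · have hp : 0 < w ω := lt_of_le_of_ne (hw ω) (Ne.symm hz)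
      have hm := mass_pos w hw X hz
      have hA : (0 : ℝ) < Fintype.card A := by
        have : Nonempty A := ⟨X ω⟩
        exact_mod_cast Fintype.card_pos
      rw [div_one]
      by_cases hb : X ω ∈ bad
      · have h2 : ind {ω | X ω ∈ bad} w ω = w ω := by
          unfold ind
          rw [Set.indicator_of_mem (show ω ∈ {ω | X ω ∈ bad} from hb)]
        rw [h2]
        have hm1 : mass w X (X ω) ≤ 1 := by
          rw [← htot]
          unfold mass tot
          refine Finset.sum_le_sum fun ω' _ => ?_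
          split_ifs
          · exact le_rfl
          · exact hw ω'
        have h3 : Real.log (Fintype.card A * mass w X (X ω)) ≤ Real.log (Fintype.card A) := by
          refine Real.log_le_log (by positivity) ?_
          nlinarith
        have h4 : 0 ≤ w ω * Real.log R := mul_nonneg hp.le hlR
        have h5 := mul_le_mul_of_nonneg_left h3 hp.le
        linarith
      · have h2 : ind {ω | X ω ∈ bad} w ω = 0 := by
          unfold ind
          rw [Set.indicator_of_notMem (show ω ∉ {ω | X ω ∈ bad} from hb)]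
        rw [h2, zero_mul, add_zero]
        refine mul_le_mul_of_nonneg_left ?_ hp.le
        refine Real.log_le_log (by positivity) ?_
        rw [mul_comm]
        exact h _ hb
  refine (Finset.sum_le_sum fun ω _ => h1 ω).trans ?_
  rw [Finset.sum_add_distrib, ← Finset.sum_mul, ← Finset.sum_mul]
  have h2 : (∑ ω, w ω) = 1 := htot
  have h3 : (∑ ω, ind {ω | X ω ∈ bad} w ω) = pr w {ω | X ω ∈ bad} := rfl
  rw [h2, h3, one_mul]
  have := mul_le_mul_of_nonneg_right hp hlA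
  linarith

/-- fewer rows have a smaller entropy -/
theorem K0_pre_mono (w : Ω → ℝ) (hw : ∀ ω, 0 ≤ w ω) (ρ : Ω → (k : ℕ) → V k) {n m : ℕ} (h : n ≤ m) :
    K0 w (fun ω => pre (ρ ω) n) ≤ K0 w (fun ω => pre (ρ ω) m) := by
  induction m, h using Nat.le_induction with
  | base => exact le_rfl
  | succ m _ ih =>
    refine ih.trans ?_
    rw [K0_pre_succ_sib w hw ρ m]
    have := KK_nonneg w hw (fun ω => ρ ω m) (fun ω => pre (ρ ω) m)
    linarith

end Ent

variable {B L : ℕ}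

theorem K0_mm_mono (G : Set (Wd B L)) (l : ℕ) {n m : ℕ} (h : n ≤ m) :
    K0 (ind G (uw B L)) (fun ω => mm (ext ω) l n) ≤ K0 (ind G (uw B L)) (fun ω => mm (ext ω) l m) :=
  K0_pre_mono _ (Evt.ind_nonneg G _ Evt.uw_nonneg) (fun ω => arr (ext ω) l) h

theorem K0_uw_mono (l : ℕ) {n m : ℕ} (h : n ≤ m) :
    K0 (uw B L) (fun ω => mm (ext ω) l n) ≤ K0 (uw B L) (fun ω => mm (ext ω) l m) :=
  K0_pre_mono _ Evt.uw_nonneg (fun ω => arr (ext ω) l) h

theorem log_card_Un_le52 (n : ℕ) : Real.log (Fintype.card (Un n)) ≤ (n : ℝ) ^ 2 / 2 := by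
  rw [card_Un]
  push_cast
  rw [Real.log_pow]
  have h1 : ((n * (n - 1) / 2 : ℕ) : ℝ) ≤ (n : ℝ) ^ 2 / 2 := by
    have h2 : 2 * (n * (n - 1) / 2) ≤ n * n := by
      have h3 : 2 * (n * (n - 1) / 2) ≤ n * (n - 1) := Nat.mul_div_le _ _
      exact h3.trans (Nat.mul_le_mul_left n (Nat.sub_le n 1))
    have h4 : (2 : ℝ) * ((n * (n - 1) / 2 : ℕ) : ℝ) ≤ n * n := by exact_mod_cast h2
    nlinarith
  have h2 : Real.log 2 ≤ 1 := by
    have := Real.log_two_lt_d9
    linarith
  have h3 : 0 ≤ Real.log 2 := Real.log_nonneg (by norm_num)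
  have h4 : (0 : ℝ) ≤ ((n * (n - 1) / 2 : ℕ) : ℝ) := Nat.cast_nonneg _
  calc ((n * (n - 1) / 2 : ℕ) : ℝ) * Real.log 2 ≤ ((n * (n - 1) / 2 : ℕ) : ℝ) * 1 :=
        mul_le_mul_of_nonneg_left h2 h4
    _ ≤ _ := by rw [mul_one]; exact h1

open Strt in
/-- **START.**  Before mixing the array has an entropy deficit `o(M²)`. -/
theorem start52 (h C b σ : ℝ) (hh : 0 < h) (hh1 : h < 1) (hC : 0 < C) (hb : 1 ≤ b) (hσ : 0 < σ) :
    ∃ N₀ : ℕ, ∀ M ≥ N₀, ∀ t : ℝ, 0 ≤ t → t ≤ C * M → dd M t ≤ 1 - h →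
      ∀ B : ℕ, M ≤ B + 1 → 1 ≤ B → (B : ℝ) ≤ b * M → ∃ S : ℕ,
        |(S : ℝ) - B * t| ≤ 8 * (C + 1) * b * M ∧
        K0 (uw B S) (fun ω => mm (ext ω) S M) ≤ σ * (M : ℝ) ^ 2 := by
  have hq : 0 < σ / 8 := by positivity
  obtain ⟨N₁, hN₁⟩ := soft h (σ / 4) (σ / 8) C hh hh1 (by positivity) hq hC
  -- the logarithm
  have hlim : ∀ᶠ M : ℕ in atTop, Real.log (12 * (8 * (C + 1) * b * M)) ≤ σ / 4 * (M : ℝ) := by
    have h1 : Tendsto (fun x : ℝ => Real.log x / x) atTop (𝓝 0) := by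
      have := Real.isLittleO_log_id_atTop
      exact this.tendsto_div_nhds_zero
    have hk : 0 < 12 * (8 * (C + 1) * b) := by positivity
    have h2 : Tendsto (fun M : ℕ => 12 * (8 * (C + 1) * b) * (M : ℝ)) atTop atTop :=
      Tendsto.const_mul_atTop hk tendsto_natCast_atTop_atTop
    have h3 := (h1.comp h2).eventually_le_const
      (show (0 : ℝ) < σ / 4 / (12 * (8 * (C + 1) * b)) by positivity)
    filter_upwards [h3, eventually_ge_atTop 1] with M hM hM1
    have hM0 : (0 : ℝ) < M := by exact_mod_cast hM1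
    simp only [Function.comp] at hM
    rw [div_le_iff₀ (by positivity)] at hM
    have e1 : 12 * (8 * (C + 1) * b * (M : ℝ)) = 12 * (8 * (C + 1) * b) * M := by ring
    rw [e1]
    refine hM.trans (le_of_eq ?_)
    field_simp
  obtain ⟨N₂, hN₂⟩ := eventually_atTop.1 hlim
  refine ⟨max (max N₁ N₂) 1, fun M hM t ht htC hd B hMB hB hBb => ?_⟩
  have hM1 : 1 ≤ M := le_trans (le_max_right _ _) hM
  have hMR : (1 : ℝ) ≤ M := by exact_mod_cast hM1
  have hMN₁ : N₁ ≤ M := le_trans (le_trans (le_max_left _ _) (le_max_left _ _)) hM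
  have hMN₂ : N₂ ≤ M := le_trans (le_trans (le_max_right _ _) (le_max_left _ _)) hM
  set W : ℝ := 8 * (C + 1) * b * M with hW
  have hW1 : 1 ≤ W := by
    have h1 : 1 ≤ (C + 1) * b := by nlinarith
    have h2 : 1 ≤ (C + 1) * b * M := by nlinarith
    rw [hW]
    nlinarith
  have hBt : (B : ℝ) * t ≤ b * M * (C * M) := by
    have : (0 : ℝ) ≤ B := Nat.cast_nonneg _
    exact mul_le_mul hBb htC ht (by positivity)
  have hWW : 8 * ((B : ℝ) * t) ≤ W ^ 2 := by
    have h1 : 8 * ((B : ℝ) * t) ≤ 8 * (b * M * (C * M)) := by linarith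
    refine h1.trans ?_
    have h2 : C ≤ (C + 1) ^ 2 := by nlinarith
    have h3 : b * C ≤ b ^ 2 * (C + 1) ^ 2 := by
      have : b ≤ b ^ 2 := by nlinarith
      exact mul_le_mul this h2 hC.le (by positivity)
    have h4 : b * C * (M : ℝ) ^ 2 ≤ b ^ 2 * (C + 1) ^ 2 * (M : ℝ) ^ 2 :=
      mul_le_mul_of_nonneg_right h3 (by positivity)
    have h5 : 0 ≤ b * C * (M : ℝ) ^ 2 := by positivity
    rw [hW]
    nlinarith
  have hsoft := hN₁ M hMN₁ M le_rfl t ht htC hd
  obtain ⟨S, bad, hS1, hS2, hS3⟩ := level_pick (B := B) (n := M) (by omega) hMB ht hW1 hWW hq hsoft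
  refine ⟨S, hS1, ?_⟩
  set R : ℝ := 12 * W * Real.exp (σ / 4 * (M : ℝ) ^ 2) with hR
  have hR1 : 1 ≤ R := by
    have h1 : 1 ≤ Real.exp (σ / 4 * (M : ℝ) ^ 2) := Real.one_le_exp (by positivity)
    rw [hR]
    nlinarith
  have hK := K0_le_bad (uw B S) Evt.uw_nonneg (tot_uw (by omega)) (fun ω => mm (ext ω) S M) bad R
    (4 * (σ / 8)) hR1 (fun x hx => by
      rw [mass_law (by omega) le_rfl]
      exact hS3 x hx) (hS2 S le_rfl)
  refine hK.trans ?_
  have hlog : Real.log R ≤ σ / 4 * (M : ℝ) + σ / 4 * (M : ℝ) ^ 2 := by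
    rw [hR, Real.log_mul (by positivity) (Real.exp_pos _).ne', Real.log_exp]
    have := hN₂ M hMN₂
    linarith
  have hcard := log_card_Un_le52 M
  have h1 : 4 * (σ / 8) * Real.log (Fintype.card (Un M)) ≤ 4 * (σ / 8) * ((M : ℝ) ^ 2 / 2) :=
    mul_le_mul_of_nonneg_left hcard (by positivity)
  have h2 : σ / 4 * (M : ℝ) ≤ σ / 4 * (M : ℝ) ^ 2 := by
    refine mul_le_mul_of_nonneg_left ?_ (by positivity)
    nlinarith
  nlinarith

/-- **END.**  A linear entropy deficit is flushed in a time `d N`. -/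
theorem end52 (C b d e : ℝ) (hC : 0 < C) (hd : 0 < d) (he : 0 < e) :
    ∃ z : ℝ, 0 < z ∧ ∃ N₀ : ℕ, ∀ N ≥ N₀, ∀ B : ℕ, N ≤ B + 1 → (N : ℝ) ≤ B → (B : ℝ) ≤ b * N →
      ∀ t : ℝ, 0 ≤ t → t ≤ C * N → ∀ S : ℕ, (S : ℝ) ≤ B * (t + d / 4 * N) →
      ∀ G : Set (Wd B S), Past S G → pr (uw B S) Gᶜ ≤ e / 4 →
        K0 (ind G (uw B S)) (fun ω => mm (ext ω) S N) ≤ z * N → dd N (t + d * N) ≤ e := by
  obtain ⟨c, hc0, hc⟩ := gap
  set ρ : ℝ := min (c * d / 2) (e / 8) with hρ
  have hρ0 : 0 < ρ := lt_min (by positivity) (by positivity)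
  refine ⟨ρ ^ 2, by positivity, ?_⟩
  have hlim1 : ∀ᶠ N : ℕ in atTop, 16 * (C + d) / (d ^ 2 * (N : ℝ) ^ 2) ≤ e / 8 := by
    have h1 : Tendsto (fun N : ℕ => 16 * (C + d) / (d ^ 2 * (N : ℝ) ^ 2)) atTop (𝓝 0) := by
      apply Tendsto.div_atTop tendsto_const_nhds
      apply Tendsto.const_mul_atTop (by positivity)
      exact (tendsto_pow_atTop (by norm_num)).comp tendsto_natCast_atTop_atTop
    exact h1.eventually_le_const (by positivity)
  have hlim2 : ∀ᶠ N : ℕ in atTop, 1 / (ρ * (N : ℝ)) ≤ e / 8 := by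
    have h1 : Tendsto (fun N : ℕ => 1 / (ρ * (N : ℝ))) atTop (𝓝 0) := by
      apply Tendsto.div_atTop tendsto_const_nhds
      exact Tendsto.const_mul_atTop (by positivity) tendsto_natCast_atTop_atTop
    exact h1.eventually_le_const (by positivity)
  have hlim3 : ∀ᶠ N : ℕ in atTop, Real.exp (-(c * d / 4 * (N : ℝ))) ≤ e / 8 := by
    have h1 : Tendsto (fun N : ℕ => Real.exp (-(c * d / 4 * (N : ℝ)))) atTop (𝓝 0) := by
      apply Real.tendsto_exp_neg_atTop_nhds_zero.comp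
      exact Tendsto.const_mul_atTop (by positivity) tendsto_natCast_atTop_atTop
    exact h1.eventually_le_const (by positivity)
  obtain ⟨N₃, hN₃⟩ := eventually_atTop.1 (hlim1.and (hlim2.and hlim3))
  refine ⟨max N₃ 1, fun N hN B hNB hNB' hBb t ht htC S hS G hG hGq hK => ?_⟩
  have hN1 : 1 ≤ N := le_trans (le_max_right _ _) hN
  have hNR : (1 : ℝ) ≤ N := by exact_mod_cast hN1
  have hN0 : (0 : ℝ) < N := by linarith
  obtain ⟨hl1, hl2, hl3⟩ := hN₃ N (le_trans (le_max_left _ _) hN)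
  have hB0 : (0 : ℝ) < B := by linarith
  have hBpos : 0 < B := by exact_mod_cast hB0
  have hfin := finish c hc B S N S hBpos hNB le_rfl G hG (ρ ^ 2 * N) (e / 4) (ρ * N)
    hK hGq (by positivity) (t + d / 2 * N) (d / 2 * N) (by positivity) (by positivity)
  have hts : t + d / 2 * N + d / 2 * N = t + d * N := by ring
  rw [hts] at hfin
  refine le_trans hfin ?_
  -- the tail
  have htail : ∑ j ∈ range S, pois (B * (t + d / 2 * N)) j ≤ e / 8 := by
    have hW : 0 < (B : ℝ) * (d / 4 * N) := by positivity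
    have h1 := pois_tail (x := B * (t + d / 2 * N)) (W := B * (d / 4 * N)) (by positivity) hW (range S)
      (by
        intro j hj
        have hj1 : j < S := Finset.mem_range.mp hj
        have hj2 : (j : ℝ) < S := by exact_mod_cast hj1
        rw [abs_sub_comm]
        apply le_trans _ (le_abs_self _)
        have h4 : (B : ℝ) * (d / 4 * N) + B * (t + d / 4 * N) ≤ B * (t + d / 2 * N) := by
          rw [← mul_add]
          apply mul_le_mul_of_nonneg_left _ hB0.le
          have : 0 ≤ d * N := by positivity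
          linarith
        linarith)
    refine le_trans h1 (le_trans ?_ hl1)
    rw [div_le_div_iff₀ (by positivity) (by positivity)]
    have h5 : t + d / 2 * N ≤ (C + d) * N := by nlinarith
    have h6 : (B : ℝ) * (t + d / 2 * N) * (d ^ 2 * (N : ℝ) ^ 2)
        ≤ B * ((C + d) * N) * (d ^ 2 * (N : ℝ) ^ 2) := by
      apply mul_le_mul_of_nonneg_right _ (by positivity)
      exact mul_le_mul_of_nonneg_left h5 hB0.le
    refine le_trans h6 ?_
    have h7 : 16 * (C + d) * ((B : ℝ) * (d / 4 * N)) ^ 2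
        = B * ((C + d) * B) * (d ^ 2 * (N : ℝ) ^ 2) := by ring
    rw [h7]
    apply mul_le_mul_of_nonneg_right _ (by positivity)
    apply mul_le_mul_of_nonneg_left _ hB0.le
    exact mul_le_mul_of_nonneg_left hNB' (by positivity)
  -- truncation
  have htr : (ρ ^ 2 * N + 1) / (ρ * N) ≤ e / 8 + e / 8 := by
    have h1 : (ρ ^ 2 * N + 1) / (ρ * N) = ρ + 1 / (ρ * N) := by
      field_simp
    rw [h1]
    have h2 : ρ ≤ e / 8 := min_le_right _ _
    linarith
  -- the exponential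
  have hexp : Real.exp (ρ * N / 2 - c * (d / 2 * N)) ≤ e / 8 := by
    refine le_trans (Real.exp_le_exp.mpr ?_) hl3
    have h1 : ρ ≤ c * d / 2 := min_le_left _ _
    have h2 : ρ * N ≤ c * d / 2 * N := mul_le_mul_of_nonneg_right h1 hN0.le
    have : 0 ≤ c * d * N := by positivity
    linarith
  linarith

/-- the output of the inner part: a deficit `o(N²)` slightly above level `N` forces a deficit `o(N)` at
level `N`, off a set of small probability -/
def NJout : Prop := ∀ c z z' : ℝ, 0 < c → c ≤ 1 → 0 < z → 0 < z' →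
  ∃ κ : ℝ, 0 < κ ∧ ∃ N₀ : ℕ, ∀ N ≥ N₀, ∀ B L n₀ : ℕ, B = 4 * N → 2 * (B * Real.log N) ≤ L →
    (1 + c) * N ≤ n₀ → n₀ ≤ 2 * N → K0 (uw B L) (fun ω => mm (ext ω) L n₀) ≤ κ * N ^ 2 →
    ∃ G : Set (Wd B L), pr (uw B L) Gᶜ ≤ z' ∧
      K0 (ind G (uw B L)) (fun ω => mm (ext ω) L N) ≤ z * N

/-- the polynomial form of the inner part (theorem `no_junk` of NJ50) -/
def NJpoly : Prop := ∃ C : ℝ, 1 ≤ C ∧ ∀ e z : ℝ, 0 < e → C * e ≤ 1 → 0 < z →
  ∃ N₀ : ℕ, ∀ N ≥ N₀, ∀ B L n₀ n : ℕ, B = 4 * N → 2 * (B * Real.log N) ≤ L → N ≤ 2 * n →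
    n₀ ≤ 2 * N → (n : ℝ) + C * e * N ≤ n₀ →
    K0 (uw B L) (fun ω => mm (ext ω) L n₀) ≤ e ^ 40 * N ^ 2 →
    ∃ G : Set (Wd B L), pr (uw B L) Gᶜ ≤ C * e ∧
      K0 (ind G (uw B L)) (fun ω => mm (ext ω) L n) ≤ z * N

theorem NJout_of_poly (h : NJpoly) : NJout := by
  obtain ⟨C, hC, h⟩ := h
  intro c z z' hc hc1 hz hz'
  have hC0 : 0 < C := by linarith
  set m : ℝ := min c z' with hm
  have hm0 : 0 < m := lt_min hc hz'
  have hmc : m ≤ c := min_le_left _ _
  have hmz : m ≤ z' := min_le_right _ _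
  have hCe : C * (m / C) = m := by field_simp
  obtain ⟨N₀, hN₀⟩ := h (m / C) z (by positivity) (by rw [hCe]; linarith) hz
  refine ⟨(m / C) ^ 40, by positivity, N₀, fun N hN B L n₀ hB hL hn₀ hn₀' hK => ?_⟩
  obtain ⟨G, hG, hKG⟩ := hN₀ N hN B L n₀ N hB hL (by omega) hn₀' (by
    rw [hCe]
    have hN0 : (0 : ℝ) ≤ N := Nat.cast_nonneg N
    nlinarith) hK
  exact ⟨G, by rw [hCe] at hG; linarith, hKG⟩

/-- every set of words of length `L` is an event of the first `L` letters -/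
theorem past_all (G : Set (Wd B L)) : Past L G := by
  intro ω ω' h
  have : ω = ω' := by
    funext i
    have h1 := h i.val i.isLt
    unfold ext at h1
    rw [dif_pos i.isLt, dif_pos i.isLt] at h1
    have h2 := Prod.mk.inj h1
    exact Prod.ext (Fin.ext h2.1) h2.2
  rw [this]

/-- **SHELL**: the inner part gives the comparison of the distances -/
theorem shell52 (hNJ : NJout) (C c d h e : ℝ) (hC : 0 < C) (hc : 0 < c) (hd : 0 < d) (hh : 0 < h)
    (hh1 : h < 1) (he : 0 < e) :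
    ∃ N₀ : ℕ, ∀ M ≥ N₀, ∀ t : ℝ, 0 ≤ t → t ≤ C * M → dd M t ≤ 1 - h →
      ∀ n : ℕ, (n : ℝ) ≤ (1 - c) * M → dd n (t + d * M) ≤ e := by
  -- the relative margin
  set c' : ℝ := min c 1 / 2 with hc'
  have hm0 : 0 < min c 1 := lt_min hc one_pos
  have hc'0 : 0 < c' := by positivity
  have hc'1 : c' ≤ 1 / 2 := by
    have := min_le_right c 1
    rw [hc']
    linarith
  have hc'c : 2 * c' ≤ c := by
    have := min_le_left c 1
    rw [hc']
    linarith
  set C' : ℝ := C + d / 4 with hC'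
  have hC'0 : 0 < C' := by positivity
  obtain ⟨z, hz, N₁, hN₁⟩ := end52 (2 * C') 4 (d / 4) e (by positivity) (by positivity) he
  obtain ⟨k₀, hk₀, N₂, hN₂⟩ := hNJ c' z (e / 4) hc'0 (by linarith) hz (by positivity)
  obtain ⟨N₃, hN₃⟩ := start52 h C' 4 (k₀ / 4) hh hh1 hC'0 (by norm_num) (by positivity)
  -- thresholds
  have hlog : ∀ᶠ M : ℕ in atTop, 3 * Real.log M ≤ d / 8 * (M : ℝ) := by
    have h1 : Tendsto (fun x : ℝ => Real.log x / x) atTop (𝓝 0) := by
      have := Real.isLittleO_log_id_atTop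
      exact this.tendsto_div_nhds_zero
    have h3 := (h1.comp tendsto_natCast_atTop_atTop).eventually_le_const
      (show (0 : ℝ) < d / 24 by positivity)
    filter_upwards [h3, eventually_ge_atTop 1] with M hM hM1
    have hM0 : (0 : ℝ) < M := by exact_mod_cast hM1
    simp only [Function.comp] at hM
    rw [div_le_iff₀ hM0] at hM
    linarith
  obtain ⟨N₄, hN₄⟩ := eventually_atTop.1 hlog
  set P : ℕ := ⌈max (2 / c') (4 * (8 * (C' + 1) * 4) * 16 / d)⌉₊ with hP
  refine ⟨max (max (2 * N₁ + 2) (2 * N₂ + 2)) (max (max N₃ N₄) (P + 7)),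
    fun M hM t ht htC hdM n hn => ?_⟩
  have hM1 : 2 * N₁ + 2 ≤ M := le_trans (le_trans (le_max_left _ _) (le_max_left _ _)) hM
  have hM2 : 2 * N₂ + 2 ≤ M := le_trans (le_trans (le_max_right _ _) (le_max_left _ _)) hM
  have hM3 : N₃ ≤ M :=
    le_trans (le_trans (le_trans (le_max_left _ _) (le_max_left _ _)) (le_max_right _ _)) hM
  have hM5 : N₄ ≤ M :=
    le_trans (le_trans (le_trans (le_max_right _ _) (le_max_left _ _)) (le_max_right _ _)) hM
  have hM4 : P + 7 ≤ M := le_trans (le_trans (le_max_right _ _) (le_max_right _ _)) hM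
  have hMR4 : (4 : ℝ) ≤ M := by
    have : 4 ≤ M := by omega
    exact_mod_cast this
  have hM0 : (0 : ℝ) < M := by linarith
  have hPM : max (2 / c') (4 * (8 * (C' + 1) * 4) * 16 / d) ≤ M := by
    refine (Nat.le_ceil _).trans ?_
    rw [← hP]
    have : P ≤ M := by omega
    exact_mod_cast this
  have hcM : 2 ≤ c' * M := by
    have := (le_max_left _ _).trans hPM
    rw [div_le_iff₀ hc'0] at this
    linarith
  have hWM : 4 * (8 * (C' + 1) * 4) * 16 ≤ d * M := by
    have := (le_max_right _ _).trans hPM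
    rw [div_le_iff₀ hd] at this
    linarith
  -- the level
  set N : ℕ := ⌊(M : ℝ) / (1 + c')⌋₊ with hN
  have h1c : 0 < 1 + c' := by linarith
  have hNle : (N : ℝ) ≤ M / (1 + c') := Nat.floor_le (by positivity)
  have hNlt : (M : ℝ) / (1 + c') < N + 1 := Nat.lt_floor_add_one _
  have hN1c : (1 + c') * (N : ℝ) ≤ M := by
    rw [le_div_iff₀ h1c] at hNle
    linarith
  have hNM : (N : ℝ) ≤ M := by nlinarith
  have hMN : (M : ℝ) ≤ (1 + c') * (N + 1) := by
    rw [div_lt_iff₀ h1c] at hNlt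
    linarith
  have hMN' : (M : ℝ) ≤ 2 * N + 1 := by nlinarith
  have hMNn : M ≤ 2 * N + 1 := by exact_mod_cast hMN'
  have hNN₁ : N₁ ≤ N := by omega
  have hNN₂ : N₂ ≤ N := by omega
  have hN1 : 1 ≤ N := by omega
  have hN3 : 3 ≤ N := by omega
  have hNR : (1 : ℝ) ≤ N := by exact_mod_cast hN1
  have hB4 : ((4 * N : ℕ) : ℝ) = 4 * N := by push_cast; ring
  have hM2N : (M : ℝ) ≤ 2 * N := by
    have h4 : (3 : ℝ) ≤ N := by exact_mod_cast hN3
    nlinarith
  -- the shifted time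
  set t' : ℝ := t + d / 4 * M with ht'
  have hdM4 : 0 ≤ d / 4 * (M : ℝ) := by positivity
  have ht'0 : 0 ≤ t' := by linarith
  have ht'C : t' ≤ C' * M := by
    rw [ht', hC']
    nlinarith
  have hdM' : dd M t' ≤ 1 - h := (dd_antitone M ht (by linarith)).trans hdM
  -- start
  obtain ⟨S, hS, hKS⟩ := hN₃ M hM3 t' ht'0 ht'C hdM' (4 * N) (by omega) (by omega)
    (by rw [hB4]; linarith)
  have hSlow : 2 * (((4 * N : ℕ) : ℝ) * Real.log N) ≤ S := by
    have h1 := (abs_le.1 hS).1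
    have h2 : 8 * (C' + 1) * 4 * (M : ℝ) ≤ 4 * N * (d / 16 * M) := by
      have h3 : (M : ℝ) ≤ 2 * N := hM2N
      have h5 : 4 * (8 * (C' + 1) * 4) * 16 * M ≤ d * M * M :=
        mul_le_mul_of_nonneg_right hWM hM0.le
      have h6 : d * (M : ℝ) * M ≤ d * M * (2 * N) :=
        mul_le_mul_of_nonneg_left hM2N (by positivity)
      nlinarith
    have h3 : Real.log N ≤ Real.log M := Real.log_le_log (by linarith) hNM
    have h4 := hN₄ M hM5
    have h5 : (0 : ℝ) ≤ Real.log N := Real.log_nonneg hNR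
    have h6 : Real.log N ≤ d / 24 * M := by linarith
    rw [hB4] at h1 ⊢
    have h7 : 4 * (N : ℝ) * (d / 4 * M) ≤ 4 * N * t' := by
      refine mul_le_mul_of_nonneg_left ?_ (by positivity)
      linarith
    have h8 : 2 * (4 * (N : ℝ) * Real.log N) ≤ 2 * (4 * N * (d / 24 * M)) := by
      refine mul_le_mul_of_nonneg_left ?_ (by norm_num)
      exact mul_le_mul_of_nonneg_left h6 (by positivity)
    have h9 : 0 ≤ (N : ℝ) * (d * M) := by positivity
    nlinarith
  -- the inner part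
  have hK1 : K0 (uw (4 * N) S) (fun ω => mm (ext ω) S M) ≤ k₀ * (N : ℝ) ^ 2 := by
    refine hKS.trans ?_
    have h5 : (M : ℝ) ^ 2 ≤ (2 * N) ^ 2 := pow_le_pow_left₀ hM0.le hM2N 2
    have h6 : k₀ / 4 * (M : ℝ) ^ 2 ≤ k₀ / 4 * (2 * N) ^ 2 :=
      mul_le_mul_of_nonneg_left h5 (by positivity)
    have h7 : k₀ / 4 * (2 * (N : ℝ)) ^ 2 = k₀ * (N : ℝ) ^ 2 := by ring
    linarith
  obtain ⟨G, hGq, hKG⟩ := hN₂ N hNN₂ (4 * N) S M rfl hSlow hN1c (by exact_mod_cast hM2N) hK1
  -- end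
  have hSle : (S : ℝ) ≤ ((4 * N : ℕ) : ℝ) * (t' + d / 4 / 4 * N) := by
    have h1 := (abs_le.1 hS).2
    have h2 : 8 * (C' + 1) * 4 * (M : ℝ) ≤ 4 * N * (d / 4 / 4 * N) := by
      have h4 : 0 ≤ d * (M : ℝ) := by positivity
      have h5 : 4 * (8 * (C' + 1) * 4) * 16 * M ≤ d * M * M :=
        mul_le_mul_of_nonneg_right hWM hM0.le
      have h6 : (M : ℝ) * M ≤ (2 * N) * (2 * N) :=
        mul_le_mul hM2N hM2N hM0.le (by positivity)
      have h7 : d * (M : ℝ) * M ≤ d * ((2 * N) * (2 * N)) := by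
        rw [mul_assoc]
        exact mul_le_mul_of_nonneg_left h6 hd.le
      have h8 : 0 ≤ d * ((N : ℝ) * N) := by positivity
      nlinarith
    rw [hB4] at h1 ⊢
    have h9 : 4 * (N : ℝ) * (t' + d / 4 / 4 * N) = 4 * N * t' + 4 * N * (d / 4 / 4 * N) := by ring
    rw [h9]
    linarith
  have hdN := hN₁ N hNN₁ (4 * N) (by omega) (by rw [hB4]; linarith) (by rw [hB4])
    t' ht'0 (by
      have h4 : C' * (M : ℝ) ≤ C' * (2 * N) := mul_le_mul_of_nonneg_left hM2N hC'0.le
      linarith) S hSle G (past_all G) hGq hKG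
  -- monotonicity in the level and in time
  have hnN : n ≤ N := by
    have h1 : (n : ℝ) < N + 1 := by
      refine lt_of_le_of_lt (hn.trans ?_) hNlt
      rw [le_div_iff₀ h1c]
      nlinarith
    have : n < N + 1 := by exact_mod_cast h1
    omega
  have h1 : dd n (t + d * M) ≤ dd N (t + d * M) := dd_mono_level hnN (by positivity)
  have h2 : dd N (t + d * M) ≤ dd N (t' + d / 4 * N) := by
    refine dd_antitone N (by positivity) ?_
    have : d / 4 * (N : ℝ) ≤ d / 4 * M := mul_le_mul_of_nonneg_left hNM (by positivity)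
    rw [ht']
    nlinarith
  linarith

end Pool.Agent.CutSeq.NJ
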