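import Pool.Agent.UTM.Lower
import Pool.Agent.Helper8.UT.AsymHigh
import Pool.Agent.Helper8.UT.Frozen
import Pool.Agent.CutSeq.Lim
import Pool.Agent.NJ.Shell52
import Pool.Agent.NJ.Dens52

/-!
S19271: from the comparison of the distances `dd` to the statements about the mixing times in the
frozen normalisation.
-/

set_option autoImplicit false

namespace Pool.Agent.CutSeq.NJ

open Filter Topology Finset

/-- the mixing times in the frozen normalisation: facts which hold for all sizes -/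
structure Basic52 (d : ℕ → ℝ → ℝ) (T : ℕ → ℝ → ℝ) : Prop where
  hD : ∀ n, 2 ≤ n → ∀ t, 0 ≤ t → d n t = dd n t
  hT : ∀ n ε, T n ε = sInf {t : ℝ | 0 ≤ t ∧ d n t ≤ ε}
  hT0 : ∀ n ε, 0 ≤ T n ε
  hmono : ∀ ε : ℝ, 0 < ε → Monotone fun n => T n ε
  hne : ∀ n, 2 ≤ n → ∀ ε : ℝ, 0 < ε → ∃ t : ℝ, 0 ≤ t ∧ d n t ≤ ε
  hlow : ∀ ε : ℝ, 0 < ε → ε < 1 → ∀ᶠ n : ℕ in atTop, 7 * (n : ℝ) ≤ T n ε
  hup : ∃ C : ℝ, 0 < C ∧ ∀ ε : ℝ, 0 < ε → ∀ᶠ n : ℕ in atTop, T n ε ≤ C * n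
  hanti : ∀ n, 2 ≤ n → ∀ ε ε' : ℝ, 0 < ε → ε ≤ ε' → T n ε' ≤ T n ε
  hzero : ∀ n, n < 2 → ∀ ε : ℝ, 0 < ε → T n ε = 0

theorem basic52 (K : (n : ℕ) → Matrix (Matrix (Fin n) (Fin n) (ZMod 2)) (Matrix (Fin n) (Fin n) (ZMod 2)) ℝ)
    (hK : ∀ (n : ℕ) (A B : Matrix (Fin n) (Fin n) (ZMod 2)),
        K n A B = (1 / 2 : ℝ) * (if B = A then 1 else 0)
          + (1 / (2 * ((n : ℝ) - 1))) *
            ∑ i : Fin n, ∑ j : Fin n,
              (if j.val = i.val + 1 ∧ B = A.updateRow i (A i + A j) then (1 : ℝ) else 0))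
    (P : (n : ℕ) → ℝ → Matrix (Fin n) (Fin n) (ZMod 2) → ℝ)
    (hP : ∀ (n : ℕ) (t : ℝ) (B : Matrix (Fin n) (Fin n) (ZMod 2)),
        P n t B = ∑' k : ℕ, Real.exp (-(((n : ℝ) - 1) * t)) * (((n : ℝ) - 1) * t) ^ k
              / (k.factorial : ℝ) * ((K n) ^ k) 1 B)
    (d : ℕ → ℝ → ℝ)
    (hd : ∀ (n : ℕ) (t : ℝ),
        d n t = (1 / 2 : ℝ) * ∑ B : Matrix (Fin n) (Fin n) (ZMod 2),
          |P n t B - (if (∀ a : Fin n, B a a = 1) ∧ (∀ a b : Fin n, b < a → B a b = 0)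
                then (1 / 2 : ℝ) ^ (n * (n - 1) / 2) else 0)|)
    (T : ℕ → ℝ → ℝ)
    (hT : ∀ (n : ℕ) (ε : ℝ), T n ε = sInf {t : ℝ | 0 ≤ t ∧ d n t ≤ ε}) : Basic52 d T := by
  have hK' : Pool.Agent.UTM.IsKernel K := hK
  -- the distance is `dd`
  have hD : ∀ n, 2 ≤ n → ∀ t, 0 ≤ t → d n t = dd n t := by
    intro n hn t ht
    rw [hd n t]
    exact frozen_dd K hK P hP n hn t ht
  -- `d 0 0 = 0` and `d 1 0 = 0`
  have hsmall : ∀ n : ℕ, n < 2 → d n 0 = 0 := by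
    intro n hn
    rw [hd n 0]
    have hP0 : ∀ B : Matrix (Fin n) (Fin n) (ZMod 2), P n 0 B = if (1 : Matrix (Fin n) (Fin n) (ZMod 2)) = B then 1 else 0 := by
      intro B
      rw [hP n 0 B, tsum_eq_single 0]
      · simp [Matrix.one_apply]
      · intro k hk
        simp [hk]
    have h1 : ∀ B : Matrix (Fin n) (Fin n) (ZMod 2),
        |P n 0 B - (if (∀ a : Fin n, B a a = 1) ∧ (∀ a b : Fin n, b < a → B a b = 0)
                then (1 / 2 : ℝ) ^ (n * (n - 1) / 2) else 0)| = 0 := by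
      intro B
      rw [hP0 B, abs_eq_zero]
      have hpow : (1 / 2 : ℝ) ^ (n * (n - 1) / 2) = 1 := by
        interval_cases n <;> norm_num
      rw [hpow]
      have hiff : (1 : Matrix (Fin n) (Fin n) (ZMod 2)) = B ↔
          ((∀ a : Fin n, B a a = 1) ∧ (∀ a b : Fin n, b < a → B a b = 0)) := by
        constructor
        · intro h
          subst h
          refine ⟨fun a => Matrix.one_apply_eq a, fun a b hab => Matrix.one_apply_ne (ne_of_gt hab)⟩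
        · rintro ⟨h2, _⟩
          ext a b
          have hab : a = b := by
            apply Fin.ext
            have := a.isLt
            have := b.isLt
            omega
          subst hab
          rw [Matrix.one_apply_eq, h2]
      by_cases h : (1 : Matrix (Fin n) (Fin n) (ZMod 2)) = B
      · rw [if_pos h, if_pos (hiff.mp h), sub_self]
      · rw [if_neg h, if_neg (fun h3 => h (hiff.mpr h3)), sub_self]
    rw [Finset.sum_eq_zero fun B _ => h1 B, mul_zero]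
  have hT0 : ∀ n ε, 0 ≤ T n ε := by
    intro n ε
    rw [hT]
    exact Real.sInf_nonneg fun t ht => ht.1
  have hmono : ∀ ε : ℝ, 0 < ε → Monotone fun n => T n ε := fun ε hε =>
    T_mono d hD (hsmall 0 (by norm_num)) (hsmall 1 (by norm_num)) T hT ε hε
  -- nonempty sets
  have hne : ∀ n, 2 ≤ n → ∀ ε : ℝ, 0 < ε → ∃ t : ℝ, 0 ≤ t ∧ d n t ≤ ε := by
    intro n hn ε hε
    obtain ⟨t, ht0, ht⟩ := exists_dd_le n ε hε
    exact ⟨t, ht0, by rw [hD n hn t ht0]; exact ht⟩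
  -- lower bound by `7 n`
  have hlow7 : ∀ ε : ℝ, 0 < ε → ε < 1 → ∀ᶠ n : ℕ in atTop, 7 * (n : ℝ) ≤ T n ε := by
    intro ε hε hε1
    have hdist : ∀ n t, d n t = Pool.Agent.UTM.dist1 K n t := by
      intro n t
      rw [hd n t]
      unfold Pool.Agent.UTM.dist1
      congr 1
      apply Finset.sum_congr rfl
      intro B _
      rw [show P n t B = Pool.Agent.UTM.mu K n t B from hP n t B]
      by_cases hB : Pool.Agent.UTM.IsUni B
      · rw [if_pos hB, if_pos (show (∀ a : Fin n, B a a = 1) ∧ (∀ a b : Fin n, b < a → B a b = 0) from hB)]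
      · rw [if_neg hB, if_neg (show ¬ ((∀ a : Fin n, B a a = 1) ∧ (∀ a b : Fin n, b < a → B a b = 0)) from hB)]
    filter_upwards [Pool.Agent.UTM.lower_bound hK' (1 - ε) (by linarith), eventually_ge_atTop 2]
      with n hn hn2
    rw [hT]
    apply le_csInf (hne n hn2 ε hε)
    rintro t ⟨ht0, ht⟩
    by_contra hcon
    have h1 := hn t ht0 (not_le.1 hcon).le
    rw [← hdist] at h1
    linarith
  -- the upper bound
  have hdTV : ∀ n : ℕ, 2 ≤ n → ∀ t, d n t = Pool.Agent.Helper8.UT.TV n t := by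
    intro n hn t
    rw [hd n t, ← Pool.Agent.Helper8.UT.frozen_d hn (K n) (hK n) t]
    simp only [hP n t]
  have hJ := Pool.Agent.Helper8.UT.JJ_pos
  set J : ℝ := Pool.Agent.Helper8.UT.JJ with hJdef
  have hJup : ∀ ε : ℝ, 0 < ε → ∀ᶠ n : ℕ in atTop, T n ε ≤ 2 / J * (n : ℝ) := by
    intro ε hε
    filter_upwards [Pool.Agent.Helper8.UT.TV_high ε (1 / 2) hε (by norm_num),
      (Tendsto.const_mul_atTop (show 0 < 1 / 2 / J by positivity)
        tendsto_natCast_atTop_atTop).eventually_ge_atTop 1,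
      eventually_ge_atTop 2] with n h3 h4 hn2
    obtain ⟨t, ht0, ht1, ht⟩ := h3
    have hmem : t ∈ {t : ℝ | 0 ≤ t ∧ d n t ≤ ε} := ⟨ht0, by rw [hdTV n hn2]; exact ht⟩
    have hbdd : BddBelow {t : ℝ | 0 ≤ t ∧ d n t ≤ ε} := ⟨0, fun s hs => hs.1⟩
    rw [hT]
    refine (csInf_le hbdd hmem).trans (ht1.trans ?_)
    have e : 2 / J * (n : ℝ) = (1 + 1 / 2) * n / J + 1 / 2 / J * n := by ring
    rw [e]
    linarith
  refine ⟨hD, hT, hT0, hmono, hne, hlow7, ⟨2 / J, by positivity, hJup⟩, ?_, ?_⟩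
  · intro n hn ε ε' hε hee
    rw [hT, hT]
    apply csInf_le_csInf ⟨0, fun s hs => hs.1⟩ (hne n hn ε hε)
    rintro t ⟨ht0, ht⟩
    exact ⟨ht0, ht.trans hee⟩
  · intro n hn ε hε
    rw [hT]
    apply le_antisymm
    · exact csInf_le ⟨0, fun s hs => hs.1⟩ ⟨le_rfl, by rw [hsmall n hn]; exact hε.le⟩
    · exact Real.sInf_nonneg fun t ht => ht.1

variable {d T : ℕ → ℝ → ℝ}

/-- a comparison of distances gives a comparison of mixing times; `c = 0` is the full comparison -/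
theorem Basic52.comp (hb : Basic52 d T) (c : ℝ) (hc : 0 ≤ c) (δ ε : ℝ) (hδ : 0 < δ) (hε : 0 < ε)
    (hε1 : ε < 1)
    (h : ∀ C : ℝ, 0 < C → ∃ N₀ : ℕ, ∀ M ≥ N₀, ∀ t : ℝ, 0 ≤ t → t ≤ C * M → dd M t ≤ 1 - ε →
      ∀ n : ℕ, (n : ℝ) ≤ (1 - c) * M → dd n (t + δ / 2 * M) ≤ ε) :
    ∀ᶠ M : ℕ in atTop, ∀ n : ℕ, (n : ℝ) ≤ (1 - c) * M → T n ε ≤ T M (1 - ε) + δ * M := by
  obtain ⟨C, hC, hup⟩ := hb.hup
  obtain ⟨N₀, hN₀⟩ := h (C + δ) (by positivity)
  filter_upwards [hup (1 - ε) (by linarith), eventually_ge_atTop N₀, eventually_ge_atTop 2]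
    with M hM hMN hM2 n hn
  have hM0 : (0 : ℝ) < M := by
    have : 0 < M := by omega
    exact_mod_cast this
  have hδM : 0 < δ / 2 * (M : ℝ) := by positivity
  rcases Nat.lt_or_ge n 2 with hn2 | hn2
  · rw [hb.hzero n hn2 ε hε]
    have := hb.hT0 M (1 - ε)
    have : 0 < δ * (M : ℝ) := by positivity
    linarith [hb.hT0 M (1 - ε)]
  -- a time
  obtain ⟨t, ht, htM⟩ : ∃ t : ℝ, (0 ≤ t ∧ d M t ≤ 1 - ε) ∧ t < T M (1 - ε) + δ / 2 * M := by
    have h1 : sInf {t : ℝ | 0 ≤ t ∧ d M t ≤ 1 - ε} < T M (1 - ε) + δ / 2 * M := by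
      rw [← hb.hT M (1 - ε)]
      linarith
    obtain ⟨t, ht1, ht2⟩ := exists_lt_of_csInf_lt (hb.hne M hM2 (1 - ε) (by linarith)) h1
    exact ⟨t, ht1, ht2⟩
  have htd : dd M t ≤ 1 - ε := by
    rw [← hb.hD M hM2 t ht.1]
    exact ht.2
  have htC : t ≤ (C + δ) * M := by
    have : 0 < δ * (M : ℝ) := by positivity
    nlinarith
  have h1 := hN₀ M hMN t ht.1 htC htd n hn
  have ht' : 0 ≤ t + δ / 2 * M := by linarith [ht.1]
  rw [← hb.hD n hn2 _ ht'] at h1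
  rw [hb.hT n ε]
  have h2 : sInf {t : ℝ | 0 ≤ t ∧ d n t ≤ ε} ≤ t + δ / 2 * M :=
    csInf_le ⟨0, fun s hs => hs.1⟩ ⟨ht', h1⟩
  linarith

/-- full cutoff from the full comparison of the distances -/
theorem full52 (hb : Basic52 d T)
    (h : ∀ C δ q e : ℝ, 0 < C → 0 < δ → 0 < q → q < 1 → 0 < e → ∃ N₀ : ℕ, ∀ N ≥ N₀, ∀ t : ℝ,
      0 ≤ t → t ≤ C * N → dd N t ≤ 1 - q → dd N (t + δ * N) ≤ e)
    (ε : ℝ) (hε : 0 < ε) (hε1 : ε < 1) :
    Tendsto (fun n : ℕ => T n ε / T n (1 - ε)) atTop (𝓝 1) := by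
  -- comparison at one size, for all levels
  have key : ∀ δ e : ℝ, 0 < δ → 0 < e → e < 1 → ∀ᶠ M : ℕ in atTop, T M e ≤ T M (1 - e) + δ * M := by
    intro δ e hδ he he1
    have h1 := hb.comp 0 le_rfl δ e hδ he he1 (fun C hC => by
      obtain ⟨N₀, hN₀⟩ := h C (δ / 2) e e hC (by positivity) he he1 he
      refine ⟨N₀, fun M hM t ht htC hd n hn => ?_⟩
      have hnM : n ≤ M := by
        rw [sub_zero, one_mul] at hn
        exact_mod_cast hn
      exact (dd_mono_level hnM (by positivity)).trans (hN₀ M hM t ht htC hd))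
    filter_upwards [h1] with M hM
    exact hM M (by rw [sub_zero, one_mul])
  rw [Metric.tendsto_nhds]
  intro ρ hρ
  have hm0 : 0 < min ε (1 - ε) := lt_min hε (by linarith)
  have hm1 : min ε (1 - ε) < 1 := lt_of_le_of_lt (min_le_left _ _) hε1
  filter_upwards [key (min ρ 1) (min ε (1 - ε)) (lt_min hρ one_pos) hm0 hm1,
    hb.hlow ε hε hε1, hb.hlow (1 - ε) (by linarith) (by linarith), eventually_ge_atTop 2]
    with M hM h7 h7' hM2
  have hM0 : (0 : ℝ) < M := by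
    have : 0 < M := by omega
    exact_mod_cast this
  have he1 : min ε (1 - ε) ≤ ε := min_le_left _ _
  have he2 : min ε (1 - ε) ≤ 1 - ε := min_le_right _ _
  have h1 : T M ε ≤ T M (min ε (1 - ε)) := hb.hanti M hM2 _ _ hm0 he1
  have h2 : T M (1 - ε) ≤ T M (min ε (1 - ε)) := hb.hanti M hM2 _ _ hm0 he2
  have h3 : T M (1 - min ε (1 - ε)) ≤ T M ε := hb.hanti M hM2 _ _ hε (by linarith)
  have h4 : T M (1 - min ε (1 - ε)) ≤ T M (1 - ε) := hb.hanti M hM2 _ _ (by linarith) (by linarith)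
  have hx0 : 0 < T M ε := lt_of_lt_of_le (by positivity) h7
  have hy0 : 0 < T M (1 - ε) := lt_of_lt_of_le (by positivity) h7'
  have hr1 : min ρ 1 ≤ ρ := min_le_left _ _
  have hr0 : 0 < min ρ 1 := lt_min hρ one_pos
  rw [Real.dist_eq, abs_lt]
  have h5 : min ρ 1 * (M : ℝ) ≤ min ρ 1 * (T M (1 - ε) / 7) := by
    refine mul_le_mul_of_nonneg_left ?_ hr0.le
    linarith
  constructor
  · rw [lt_sub_iff_add_lt, lt_div_iff₀ hy0]
    nlinarith
  · rw [sub_lt_iff_lt_add, div_lt_iff₀ hy0]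
    nlinarith

/-- the comparison for all sizes, cutoff for almost all sizes, and the criterion -/
theorem finA52 (hNJ : NJout) (hb : Basic52 d T) :
    (∀ ε δ : ℝ, 0 < ε → ε < 1 → 0 < δ → ∀ᶠ M : ℕ in atTop, ∀ n : ℕ, (n : ℝ) ≤ (1 - δ) * M →
      T n ε ≤ T M (1 - ε) + δ * M) ∧
    (∃ S : Set ℕ, Tendsto (fun M : ℕ => ({N : ℕ | N < M ∧ N ∈ S}.ncard : ℝ) / M) atTop (𝓝 1) ∧
      ∀ ε : ℝ, 0 < ε → ε < 1 → Tendsto (fun N => T N ε / T N (1 - ε)) (atTop ⊓ 𝓟 S) (𝓝 1)) := by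
  classical
  have h1 : ∀ ε δ : ℝ, 0 < ε → ε < 1 → 0 < δ → ∀ᶠ M : ℕ in atTop, ∀ n : ℕ,
      (n : ℝ) ≤ (1 - δ) * M → T n ε ≤ T M (1 - ε) + δ * M := by
    intro ε δ hε hε1 hδ
    exact hb.comp δ hδ.le δ ε hδ hε hε1 (fun C hC =>
      shell52 hNJ C δ (δ / 2) ε ε hC hδ (by positivity) hε hε1 hε)
  refine ⟨h1, ?_⟩
  obtain ⟨C, hC, hup⟩ := hb.hup
  obtain ⟨S, hS1, hS2⟩ := cut52 T hb.hT0 hb.hmono
    (by
      filter_upwards [eventually_ge_atTop 2] with n hn ε ε' hε hee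
      exact hb.hanti n hn ε ε' hε hee)
    C 7 hC (by norm_num) (fun ε hε _ => hup ε hε) hb.hlow h1
  refine ⟨S, ?_, hS2⟩
  refine hS1.congr fun M => ?_
  congr 2
  rw [← Set.ncard_coe_finset]
  congr 1
  ext N
  simp

end Pool.Agent.CutSeq.NJ
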