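import Pool.Agent.NJ.FinA52

/-!
S19271: the final statement about almost all sizes, from `NJpoly`.
-/

set_option autoImplicit false

namespace Pool.Agent.CutSeq.NJ

open Filter Topology Finset

/-- an upper bound passes through the comparison, for all large sizes -/
theorem ev52 {f g : ℕ → ℝ} (h : ∀ δ : ℝ, 0 < δ → ∀ᶠ M : ℕ in atTop, ∀ n : ℕ,
    (n : ℝ) ≤ (1 - δ) * M → f n ≤ g M + δ * M) {x x' : ℝ} (hx0 : 0 ≤ x) (hxx : x < x')
    (hx : ∀ᶠ n : ℕ in atTop, g n ≤ x * n) : ∀ᶠ n : ℕ in atTop, f n ≤ x' * n := by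
  -- choice of `δ`
  obtain ⟨δ, hδ, hδ1, hδx⟩ : ∃ δ : ℝ, 0 < δ ∧ δ < 1 ∧ (x + δ) * (1 + δ) < x' * (1 - δ) := by
    have h1 : Tendsto (fun δ : ℝ => x' * (1 - δ) - (x + δ) * (1 + δ)) (𝓝[>] 0)
        (𝓝 (x' * (1 - 0) - (x + 0) * (1 + 0))) := by
      apply Tendsto.mono_left _ nhdsWithin_le_nhds
      apply Continuous.tendsto
      fun_prop
    have h2 : 0 < x' * (1 - 0) - (x + 0) * (1 + 0) := by
      ring_nf
      linarith
    have h3 := h1.eventually (lt_mem_nhds h2)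
    have h4 : ∀ᶠ δ : ℝ in 𝓝[>] 0, δ ∈ Set.Ioo (0 : ℝ) 1 := Ioo_mem_nhdsGT one_pos
    obtain ⟨δ, a1, a2⟩ := (h3.and h4).exists
    exact ⟨δ, a2.1, a2.2, by linarith⟩
  obtain ⟨M₀, hM₀⟩ := eventually_atTop.1 ((h δ hδ).and hx)
  filter_upwards [eventually_ge_atTop M₀, eventually_ge_atTop ⌈1 / δ⌉₊] with n hn1 hn2
  have hn0 : (0 : ℝ) < n := by
    have : (0 : ℝ) < 1 / δ := by positivity
    exact this.trans_le ((Nat.le_ceil _).trans (by exact_mod_cast hn2))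
  have hnd : 1 ≤ δ * (n : ℝ) := by
    have h1 : 1 / δ ≤ (n : ℝ) := (Nat.le_ceil _).trans (by exact_mod_cast hn2)
    rw [div_le_iff₀ hδ] at h1
    linarith
  have h1δ : 0 < 1 - δ := by linarith
  -- the larger size
  set M : ℕ := ⌈(n : ℝ) / (1 - δ)⌉₊ with hMdef
  have hM1 : (n : ℝ) / (1 - δ) ≤ M := Nat.le_ceil _
  have hM2 : (M : ℝ) < (n : ℝ) / (1 - δ) + 1 := Nat.ceil_lt_add_one (by positivity)
  have hnM : (n : ℝ) ≤ (1 - δ) * M := by
    rw [div_le_iff₀ h1δ] at hM1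
    linarith
  have hMn : (1 - δ) * M ≤ (1 + δ) * n := by
    have h1 : (1 - δ) * M ≤ (1 - δ) * ((n : ℝ) / (1 - δ) + 1) :=
      mul_le_mul_of_nonneg_left hM2.le h1δ.le
    have h2 : (1 - δ) * ((n : ℝ) / (1 - δ) + 1) = n + (1 - δ) := by
      field_simp
    nlinarith
  have hMM : M₀ ≤ M := by
    have h1 : (n : ℝ) ≤ M := by
      have : 0 ≤ (M : ℝ) := Nat.cast_nonneg _
      nlinarith
    have h2 : n ≤ M := by exact_mod_cast h1
    omega
  obtain ⟨b1, b2⟩ := hM₀ M hMM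
  have b3 := b1 n hnM
  have h5 : f n ≤ (x + δ) * M := by linarith
  have h6 : (x + δ) * ((1 - δ) * M) ≤ (x + δ) * ((1 + δ) * n) :=
    mul_le_mul_of_nonneg_left hMn (by linarith)
  have h7 : (x + δ) * (1 + δ) * n ≤ x' * (1 - δ) * n :=
    mul_le_mul_of_nonneg_right hδx.le hn0.le
  have h8 : (1 - δ) * f n ≤ (1 - δ) * (x' * n) := by
    have h9 : (1 - δ) * f n ≤ (1 - δ) * ((x + δ) * M) := mul_le_mul_of_nonneg_left h5 h1δ.le
    linarith
  exact le_of_mul_le_mul_left h8 h1δ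

/-- an upper bound passes through the comparison, for infinitely many sizes -/
theorem fr52 {f g : ℕ → ℝ} (h : ∀ δ : ℝ, 0 < δ → ∀ᶠ M : ℕ in atTop, ∀ n : ℕ,
    (n : ℝ) ≤ (1 - δ) * M → f n ≤ g M + δ * M) {x x' : ℝ} (hx0 : 0 ≤ x) (hxx : x < x')
    (hx : ∃ᶠ n : ℕ in atTop, g n ≤ x * n) : ∃ᶠ n : ℕ in atTop, f n ≤ x' * n := by
  obtain ⟨δ, hδ, hδ1, hδx⟩ : ∃ δ : ℝ, 0 < δ ∧ δ < 1 / 2 ∧ (x + δ) < x' * (1 - 2 * δ) := by
    have h1 : Tendsto (fun δ : ℝ => x' * (1 - 2 * δ) - (x + δ)) (𝓝[>] 0)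
        (𝓝 (x' * (1 - 2 * 0) - (x + 0))) := by
      apply Tendsto.mono_left _ nhdsWithin_le_nhds
      apply Continuous.tendsto
      fun_prop
    have h2 : 0 < x' * (1 - 2 * 0) - (x + 0) := by
      ring_nf
      linarith
    have h3 := h1.eventually (lt_mem_nhds h2)
    have h4 : ∀ᶠ δ : ℝ in 𝓝[>] 0, δ ∈ Set.Ioo (0 : ℝ) (1 / 2) := Ioo_mem_nhdsGT (by norm_num)
    obtain ⟨δ, a1, a2⟩ := (h3.and h4).exists
    exact ⟨δ, a2.1, a2.2, by linarith⟩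
  rw [frequently_atTop] at hx ⊢
  intro m
  obtain ⟨M₀, hM₀⟩ := eventually_atTop.1 (h δ hδ)
  obtain ⟨M, hM, hgM⟩ := hx (M₀ + 2 * (m + 1) + ⌈1 / δ⌉₊)
  have h1δ : 0 < 1 - δ := by linarith
  have hM0 : (0 : ℝ) < M := by
    have : 0 < M := by omega
    exact_mod_cast this
  have hMd : 1 ≤ δ * (M : ℝ) := by
    have h1 : 1 / δ ≤ (M : ℝ) := (Nat.le_ceil _).trans (by exact_mod_cast (by omega))
    rw [div_le_iff₀ hδ] at h1
    linarith
  set n : ℕ := ⌊(1 - δ) * (M : ℝ)⌋₊ with hndef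
  have hn1 : (n : ℝ) ≤ (1 - δ) * M := Nat.floor_le (by positivity)
  have hn2 : (1 - δ) * (M : ℝ) < n + 1 := Nat.lt_floor_add_one _
  have hn3 : (1 - 2 * δ) * (M : ℝ) ≤ n := by nlinarith
  refine ⟨n, ?_, ?_⟩
  · have h1 : (m : ℝ) < n + 1 := by
      have h2 : (2 * (m + 1) : ℝ) ≤ M := by
        have : 2 * (m + 1) ≤ M := by omega
        exact_mod_cast this
      nlinarith
    have h2 : m < n + 1 := by exact_mod_cast h1
    omega
  · have h1 := hM₀ M (by omega) n hn1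
    have hx'0 : 0 < x' := by linarith
    have h2 : (x + δ) * M ≤ x' * (1 - 2 * δ) * M := mul_le_mul_of_nonneg_right hδx.le hM0.le
    have h3 : x' * ((1 - 2 * δ) * M) ≤ x' * n := mul_le_mul_of_nonneg_left hn3 hx'0.le
    linarith

variable {d T : ℕ → ℝ → ℝ}

/-- the comparison for two arbitrary levels -/
theorem Basic52.lev (hb : Basic52 d T)
    (h : ∀ ε δ : ℝ, 0 < ε → ε < 1 → 0 < δ → ∀ᶠ M : ℕ in atTop, ∀ n : ℕ, (n : ℝ) ≤ (1 - δ) * M →
      T n ε ≤ T M (1 - ε) + δ * M) (ε ε' : ℝ) (hε : 0 < ε) (hε1 : ε < 1) (hε' : 0 < ε')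
    (hε1' : ε' < 1) (δ : ℝ) (hδ : 0 < δ) :
    ∀ᶠ M : ℕ in atTop, ∀ n : ℕ, (n : ℝ) ≤ (1 - δ) * M → T n ε ≤ T M ε' + δ * M := by
  have hm0 : 0 < min ε (1 - ε') := lt_min hε (by linarith)
  have hm1 : min ε (1 - ε') < 1 := lt_of_le_of_lt (min_le_left _ _) hε1
  filter_upwards [h (min ε (1 - ε')) δ hm0 hm1 hδ, eventually_ge_atTop 2] with M hM hM2 n hn
  have h1 : T n ε ≤ T n (min ε (1 - ε')) := by
    rcases Nat.lt_or_ge n 2 with hn2 | hn2
    · rw [hb.hzero n hn2 ε hε, hb.hzero n hn2 _ hm0]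
    · exact hb.hanti n hn2 _ _ hm0 (min_le_left _ _)
  have h2 : T M (1 - min ε (1 - ε')) ≤ T M ε' :=
    hb.hanti M hM2 _ _ hε' (by linarith [min_le_right ε (1 - ε')])
  linarith [hM n hn]

/-- the lower and the upper limit of `T n ε / n` do not depend on `ε` -/
theorem Basic52.lims (hb : Basic52 d T)
    (h : ∀ ε δ : ℝ, 0 < ε → ε < 1 → 0 < δ → ∀ᶠ M : ℕ in atTop, ∀ n : ℕ, (n : ℝ) ≤ (1 - δ) * M →
      T n ε ≤ T M (1 - ε) + δ * M) :
    ∃ a b : ℝ, 7 ≤ a ∧ a ≤ b ∧ ∀ ε η : ℝ, 0 < ε → ε < 1 → 0 < η →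
      (∀ᶠ n : ℕ in atTop, (a - η) * n ≤ T n ε ∧ T n ε ≤ (b + η) * n) ∧
      (∃ᶠ n : ℕ in atTop, T n ε ≤ (a + η) * n) ∧ (∃ᶠ n : ℕ in atTop, (b - η) * n ≤ T n ε) := by
  obtain ⟨C, hC, hup⟩ := hb.hup
  have hpos : ∀ᶠ n : ℕ in atTop, (0 : ℝ) < n := by
    filter_upwards [eventually_ge_atTop 1] with n hn
    exact_mod_cast hn
  have hlo : ∀ᶠ n : ℕ in atTop, 7 ≤ T n (1 / 2) / n := by
    filter_upwards [hb.hlow (1 / 2) (by norm_num) (by norm_num), hpos] with n h1 h2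
    rw [le_div_iff₀ h2]
    exact h1
  have hhi : ∀ᶠ n : ℕ in atTop, T n (1 / 2) / n ≤ C := by
    filter_upwards [hup (1 / 2) (by norm_num), hpos] with n h1 h2
    rw [div_le_iff₀ h2]
    exact h1
  have hB1 : IsBoundedUnder (· ≤ ·) atTop fun n : ℕ => T n (1 / 2) / n := ⟨C, by simpa using hhi⟩
  have hB2 : IsBoundedUnder (· ≥ ·) atTop fun n : ℕ => T n (1 / 2) / n := ⟨7, by simpa using hlo⟩
  have hC1 : IsCoboundedUnder (· ≤ ·) atTop fun n : ℕ => T n (1 / 2) / n := hB2.isCoboundedUnder_le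
  have hC2 : IsCoboundedUnder (· ≥ ·) atTop fun n : ℕ => T n (1 / 2) / n := hB1.isCoboundedUnder_ge
  set a : ℝ := liminf (fun n : ℕ => T n (1 / 2) / n) atTop with ha
  set b : ℝ := limsup (fun n : ℕ => T n (1 / 2) / n) atTop with hbdef
  have ha7 : 7 ≤ a := le_liminf_of_le hC2 hlo
  have hab : a ≤ b := liminf_le_limsup hB1 hB2
  -- the four facts at level `1 / 2`
  have f1 : ∀ η : ℝ, 0 < η → ∀ᶠ n : ℕ in atTop, (a - η) * n < T n (1 / 2) := by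
    intro η hη
    filter_upwards [eventually_lt_of_lt_liminf (show a - η < a by linarith) hB2, hpos] with n h1 h2
    rwa [lt_div_iff₀ h2] at h1
  have f2 : ∀ η : ℝ, 0 < η → ∃ᶠ n : ℕ in atTop, T n (1 / 2) ≤ (a + η) * n := by
    intro η hη
    have h1 := frequently_lt_of_liminf_lt hC2 (show a < a + η by linarith)
    refine (h1.and_eventually hpos).mono fun n hn => ?_
    have h2 := hn.1
    rw [div_lt_iff₀ hn.2] at h2
    exact h2.le
  have f3 : ∀ η : ℝ, 0 < η → ∀ᶠ n : ℕ in atTop, T n (1 / 2) ≤ (b + η) * n := by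
    intro η hη
    filter_upwards [eventually_lt_of_limsup_lt (show b < b + η by linarith) hB1, hpos] with n h1 h2
    rw [div_lt_iff₀ h2] at h1
    exact h1.le
  have f4 : ∀ η : ℝ, 0 < η → ∃ᶠ n : ℕ in atTop, (b - η) * n < T n (1 / 2) := by
    intro η hη
    have h1 := frequently_lt_of_lt_limsup hC1 (show b - η < b by linarith)
    refine (h1.and_eventually hpos).mono fun n hn => ?_
    have h2 := hn.1
    rwa [lt_div_iff₀ hn.2] at h2
  refine ⟨a, b, ha7, hab, fun ε η hε hε1 hη => ⟨?_, ?_, ?_⟩⟩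
  · have g1 : ∀ᶠ n : ℕ in atTop, (a - min η 1) * n ≤ T n ε := by
      by_contra hcon
      rw [not_eventually] at hcon
      have h1 : ∃ᶠ n : ℕ in atTop, T n ε ≤ (a - min η 1) * n :=
        hcon.mono fun n hn => (not_le.1 hn).le
      have hm : 0 < min η 1 := lt_min hη one_pos
      have hm1 : min η 1 ≤ 1 := min_le_right _ _
      have h2 := fr52 (hb.lev h (1 / 2) ε (by norm_num) (by norm_num) hε hε1)
        (show 0 ≤ a - min η 1 by linarith) (show a - min η 1 < a - min η 1 / 2 by linarith) h1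
      obtain ⟨n, h3, h4⟩ := (h2.and_eventually (f1 (min η 1 / 2) (by linarith))).exists
      linarith
    have g2 := ev52 (hb.lev h ε (1 / 2) hε hε1 (by norm_num) (by norm_num))
      (show 0 ≤ b + η / 2 by linarith) (show b + η / 2 < b + η by linarith) (f3 (η / 2) (by linarith))
    filter_upwards [g1, g2] with n h1 h2
    refine ⟨?_, h2⟩
    have h3 : (a - η) * (n : ℝ) ≤ (a - min η 1) * n :=
      mul_le_mul_of_nonneg_right (by linarith [min_le_left η 1]) (Nat.cast_nonneg _)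
    linarith
  · exact fr52 (hb.lev h ε (1 / 2) hε hε1 (by norm_num) (by norm_num))
      (show 0 ≤ a + η / 2 by linarith) (show a + η / 2 < a + η by linarith) (f2 (η / 2) (by linarith))
  · by_contra hcon
    have hm : 0 < min η 1 := lt_min hη one_pos
    have hm1 : min η 1 ≤ 1 := min_le_right _ _
    rw [not_frequently] at hcon
    have h1 : ∀ᶠ n : ℕ in atTop, T n ε ≤ (b - min η 1) * n := by
      filter_upwards [hcon] with n hn
      have h3 : (b - η) * (n : ℝ) ≤ (b - min η 1) * n :=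
        mul_le_mul_of_nonneg_right (by linarith [min_le_left η 1]) (Nat.cast_nonneg _)
      linarith [not_le.1 hn]
    have h2 := ev52 (hb.lev h (1 / 2) ε (by norm_num) (by norm_num) hε hε1)
      (show 0 ≤ b - min η 1 by linarith) (show b - min η 1 < b - min η 1 / 2 by linarith) h1
    obtain ⟨n, h3, h4⟩ := ((f4 (min η 1 / 2) (by linarith)).and_eventually h2).exists
    linarith

/-- if `T n ε₀ / n` converges for one `ε₀`, then it converges for all `ε`, and there is cutoff -/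
theorem crit52 (h : ∃ a b : ℝ, 7 ≤ a ∧ a ≤ b ∧ ∀ ε η : ℝ, 0 < ε → ε < 1 → 0 < η →
      (∀ᶠ n : ℕ in atTop, (a - η) * n ≤ T n ε ∧ T n ε ≤ (b + η) * n) ∧
      (∃ᶠ n : ℕ in atTop, T n ε ≤ (a + η) * n) ∧ (∃ᶠ n : ℕ in atTop, (b - η) * n ≤ T n ε))
    (ε₀ L : ℝ) (h0 : 0 < ε₀) (h1 : ε₀ < 1) (hL : Tendsto (fun n : ℕ => T n ε₀ / n) atTop (𝓝 L))
    (ε : ℝ) (hε : 0 < ε) (hε1 : ε < 1) :
    Tendsto (fun n : ℕ => T n ε / n) atTop (𝓝 L) ∧
      Tendsto (fun n : ℕ => T n ε / T n (1 - ε)) atTop (𝓝 1) := by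
  obtain ⟨a, b, ha, hab, hall⟩ := h
  have hpos : ∀ᶠ n : ℕ in atTop, (0 : ℝ) < n := by
    filter_upwards [eventually_ge_atTop 1] with n hn
    exact_mod_cast hn
  -- `a = L` and `b = L`
  have hLa : L ≤ a := by
    refine le_of_forall_pos_lt_add fun η hη => ?_
    by_contra hcon
    have h2 := hL.eventually (lt_mem_nhds (show a + η / 2 < L by linarith))
    obtain ⟨n, h3, h4, h5⟩ :=
      ((hall ε₀ (η / 2) h0 h1 (by linarith)).2.1.and_eventually (h2.and hpos)).exists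
    rw [lt_div_iff₀ h5] at h4
    linarith
  have hLb : b ≤ L := by
    refine le_of_forall_pos_lt_add fun η hη => ?_
    by_contra hcon
    have h2 := hL.eventually (gt_mem_nhds (show L < b - η / 2 by linarith))
    obtain ⟨n, h3, h4, h5⟩ :=
      ((hall ε₀ (η / 2) h0 h1 (by linarith)).2.2.and_eventually (h2.and hpos)).exists
    rw [div_lt_iff₀ h5] at h4
    linarith
  have haL : a = L := le_antisymm (hab.trans hLb) hLa
  have hbL : b = L := le_antisymm hLb (hLa.trans hab)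
  subst haL
  rw [hbL] at hall
  have hlim : ∀ ε : ℝ, 0 < ε → ε < 1 → Tendsto (fun n : ℕ => T n ε / n) atTop (𝓝 a) := by
    intro ε hε hε1
    rw [Metric.tendsto_nhds]
    intro ρ hρ
    filter_upwards [(hall ε (ρ / 2) hε hε1 (by linarith)).1, hpos] with n hn hn0
    rw [Real.dist_eq, abs_lt]
    constructor
    · rw [lt_sub_iff_add_lt, lt_div_iff₀ hn0]
      nlinarith [hn.1]
    · rw [sub_lt_iff_lt_add, div_lt_iff₀ hn0]
      nlinarith [hn.2]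
  refine ⟨hlim ε hε hε1, ?_⟩
  have h2 := (hlim ε hε hε1).div (hlim (1 - ε) (by linarith) (by linarith)) (by linarith)
  rw [div_self (by linarith : a ≠ 0)] at h2
  refine h2.congr' ?_
  filter_upwards [hpos] with n hn
  simp only [Pi.div_apply]
  rw [div_div_div_cancel_right₀ hn.ne']

/-- the statement about almost all sizes -/
theorem almost52 (hNJ : NJout) (hb : Basic52 d T) :
    (∃ S : Set ℕ, Tendsto (fun M : ℕ => ({N : ℕ | N < M ∧ N ∈ S}.ncard : ℝ) / M) atTop (𝓝 1) ∧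
      ∀ ε : ℝ, 0 < ε → ε < 1 → Tendsto (fun N => T N ε / T N (1 - ε)) (atTop ⊓ 𝓟 S) (𝓝 1)) ∧
    (∀ ε ε' δ : ℝ, 0 < ε → ε < 1 → 0 < ε' → ε' < 1 → 0 < δ → ∀ᶠ M : ℕ in atTop, ∀ n : ℕ,
      (n : ℝ) ≤ (1 - δ) * M → T n ε ≤ T M ε' + δ * M) ∧
    (∃ a b : ℝ, 7 ≤ a ∧ a ≤ b ∧ ∀ ε η : ℝ, 0 < ε → ε < 1 → 0 < η →
      (∀ᶠ n : ℕ in atTop, (a - η) * n ≤ T n ε ∧ T n ε ≤ (b + η) * n) ∧
      (∃ᶠ n : ℕ in atTop, T n ε ≤ (a + η) * n) ∧ (∃ᶠ n : ℕ in atTop, (b - η) * n ≤ T n ε)) ∧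
    (∀ ε₀ L : ℝ, 0 < ε₀ → ε₀ < 1 → Tendsto (fun n : ℕ => T n ε₀ / n) atTop (𝓝 L) →
      ∀ ε : ℝ, 0 < ε → ε < 1 → Tendsto (fun n : ℕ => T n ε / n) atTop (𝓝 L) ∧
        Tendsto (fun n : ℕ => T n ε / T n (1 - ε)) atTop (𝓝 1)) := by
  obtain ⟨h1, h2⟩ := finA52 hNJ hb
  have h3 := hb.lims h1
  exact ⟨h2, fun ε ε' δ hε hε1 hε' hε1' hδ => hb.lev h1 ε ε' hε hε1 hε' hε1' δ hδ, h3,
    fun ε₀ L a1 a2 hL ε hε hε1 => crit52 h3 ε₀ L a1 a2 hL ε hε hε1⟩

end Pool.Agent.CutSeq.NJ
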