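import Pool.Agent.CutSeq.TraA
import Pool.Agent.CutSeq.Mod
import Pool.Agent.CutSeq.Fwd
import Pool.Agent.CutSeq.Poi

/-!
S19271, target B, row B5 (FRONT): the probability that the image of a fixed vector under a fresh slab
has top at most `b`, seen in a window of `n` levels.
-/

set_option autoImplicit false

namespace Pool.Agent.CutSeq.NJ

open Finset Bwd

variable {B S : ℕ}

/-- the retreat -/
theorem front_back37 {n : ℕ} (hB : 0 < B) (z : V n) (b : ℕ) :
    pr (uw B S) {ω | tp (act (mm (ext ω) S n) z) ≤ b} ≤ (1 / 2) ^ (tp z - b) := by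
  by_cases hz : z = 0
  · have h1 : tp z - b = 0 := by
      have h2 : tp z ≤ 0 := tp_le_of z 0 fun k _ => by rw [hz]; rfl
      omega
    rw [h1, pow_zero, ← tot_uw (B := B) (L := S) hB]
    refine le_trans (tot_ind_mono _ (uw_nonneg B S) (Set.subset_univ _)) ?_
    rw [lv_ind_univ]
  · by_cases hb : b ≤ tp z
    · have h1 := backward (S := S) (ℓ := tp z - b) hB (fun _ : Fin 1 => z) (fun _ => hz)
        (fun i j _ => Subsingleton.elim i j)
      rw [mul_one] at h1
      refine le_trans (tot_ind_mono _ (uw_nonneg B S) ?_) h1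
      intro ω hω _
      have h2 : tp (act (mm (ext ω) S n) z) ≤ b := hω
      omega
    · have h1 : tp z - b = 0 := by omega
      rw [h1, pow_zero, ← tot_uw (B := B) (L := S) hB]
      refine le_trans (tot_ind_mono _ (uw_nonneg B S) (Set.subset_univ _)) ?_
      rw [lv_ind_univ]

/-- half of the vectors of `T`, with any value of the functional -/
theorem uT_half37 {n : ℕ} (T : Submodule (ZMod 2) (V n)) (a : V n) (c : ZMod 2)
    (ha : a ∉ perp T) : ∑ x, (if x ⬝ᵥ a = c then uT T x else 0) = 1 / 2 := by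
  classical
  have h0 := lv_uT_half T a ha
  rcases zmod2_cases c with rfl | rfl
  · exact h0
  · have h1 := lv_uT_tot T
    have h2 : ∑ x, uT T x = ∑ x, (if x ⬝ᵥ a = 0 then uT T x else 0)
        + ∑ x, (if x ⬝ᵥ a = 1 then uT T x else 0) := by
      rw [← sum_add_distrib]
      refine sum_congr rfl fun x _ => ?_
      rcases zmod2_cases (x ⬝ᵥ a) with h | h
      · rw [h, if_pos rfl, if_neg (by decide), add_zero]
      · rw [h, if_neg (by decide), if_pos rfl, zero_add]
    linarith

/-- one level which is seen: any prescribed value has conditional probability one half -/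
theorem lev_half37 {L : ℕ} (l i : ℕ) (hl : l ≤ L) (a : V i) (c : ZMod 2) (f : Wd B L → ℝ)
    (hf0 : ∀ ω, 0 ≤ f ω) (hf : ∀ ω ω', Same i l ω ω' → f ω = f ω') :
    tot (ind {ω | row (ext ω) l i ⬝ᵥ a = c ∧ a ∉ AA (ext ω) l i} f) ≤ 1 / 2 * tot f := by
  classical
  set f' : Wd B L → ℝ := fun ω => if a ∉ AA (ext ω) l i then f ω else 0 with hf'
  have hf'm : ∀ ω ω', Same i l ω ω' → f' ω = f' ω' := by
    intro ω ω' hs
    simp only [hf', hs.lv_AA_eq, hf ω ω' hs]
  have h1 : tot (ind {ω | row (ext ω) l i ⬝ᵥ a = c ∧ a ∉ AA (ext ω) l i} f)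
      = ∑ x : V i, if x ⬝ᵥ a = c then ∑ ω, f' ω * (if row (ext ω) l i = x then 1 else 0) else 0 := by
    have : ∀ x : V i, (if x ⬝ᵥ a = c then ∑ ω, f' ω * (if row (ext ω) l i = x then 1 else 0) else 0)
        = ∑ ω, (if x ⬝ᵥ a = c then f' ω * (if row (ext ω) l i = x then 1 else 0) else 0) := by
      intro x
      split_ifs <;> simp
    simp only [this]
    rw [Finset.sum_comm]
    unfold tot
    refine Finset.sum_congr rfl fun ω _ => ?_
    rw [Finset.sum_eq_single (row (ext ω) l i)]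
    · simp only [ind, Set.indicator_apply, Set.mem_ofPred_eq, hf', if_true, mul_one]
      by_cases h1 : row (ext ω) l i ⬝ᵥ a = c <;> by_cases h2 : a ∈ AA (ext ω) l i <;> simp [h1, h2]
    · intro x _ hx
      have hx' : ¬ row (ext ω) l i = x := fun h => hx h.symm
      simp [hx']
    · intro h
      exact absurd (Finset.mem_univ _) h
  have h2 : ∀ x : V i, (if x ⬝ᵥ a = c then ∑ ω, f' ω * (if row (ext ω) l i = x then 1 else 0) else 0)
      = ∑ ω, f' ω * (if x ⬝ᵥ a = c then uT (TT (ext ω) l i) x else 0) := by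
    intro x
    split_ifs with hx
    · exact row_uniform i l hl f' hf'm x
    · simp
  rw [h1]
  simp only [h2]
  rw [Finset.sum_comm]
  unfold tot
  rw [Finset.mul_sum]
  refine Finset.sum_le_sum fun ω _ => ?_
  rw [← Finset.mul_sum]
  by_cases ha : a ∈ AA (ext ω) l i
  · simp only [hf', ha, not_true_eq_false, if_false, zero_mul]
    have := hf0 ω
    positivity
  · rw [uT_half37 _ _ _ ha]
    simp only [hf', ha, not_false_eq_true, if_true]
    linarith

/-- the first `x` coordinates of a vector -/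
def hd37 {n : ℕ} (z : V n) (x : ℕ) : V x := fun j => zx z j.val

theorem zx_pad37 {n n' : ℕ} (h : n ≤ n') (z : V n) (k : ℕ) : zx (pad z : V n') k = zx z k := by
  unfold zx pad
  by_cases h1 : k < n
  · rw [dif_pos (lt_of_lt_of_le h1 h), dif_pos h1]
  · rw [dif_neg h1]
    by_cases h2 : k < n'
    · rw [dif_pos h2, dif_neg h1]
    · rw [dif_neg h2]

/-- the window sees the lower coordinates of the action -/
theorem act_pad_coord37 {n n' : ℕ} (h : n ≤ n') (α : Seq) (l : ℕ) (z : V n) (k : ℕ) (hk : k < n) :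
    act (mm α l n') (pad z) ⟨k, lt_of_lt_of_le hk h⟩ = act (mm α l n) z ⟨k, hk⟩ := by
  rw [act_eq, act_eq]
  simp only [zx_pad37 h]

/-- a level of the window which is not seen is crossed by nothing -/
theorem seen37 {n n' : ℕ} (h : n ≤ n') (α : Seq) (l b x : ℕ) (hbx : b ≤ x) (hx : x < n) (z : V n)
    (h1 : tp (act (mm α l n) z) ≤ b) (h2 : b < tp (act (mm α l n') (pad z))) :
    hd37 z x ∉ AA α l x := by
  intro hA
  -- the lower part of `z`, padded
  have hlow : act (mm α l n) (pad (hd37 z x)) = pad (act (mm α l x) (hd37 z x)) :=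
    act_pad_hidden α l hx.le (hd37 z x) hA
  set z2 : V n := z + pad (hd37 z x) with hz2
  have hz2lo : ∀ k : Fin n, k.val < x → z2 k = 0 := by
    intro k hk
    have e1 : (pad (hd37 z x) : V n) k = z k := by
      unfold pad hd37
      rw [dif_pos hk]
      exact zx_eq z k
    rw [hz2, Pi.add_apply, e1]
    rcases zmod2_cases (z k) with h3 | h3 <;> rw [h3] <;> decide
  have hz2hi : ∀ k : Fin n, x ≤ k.val → z2 k = z k := by
    intro k hk
    have e1 : (pad (hd37 z x) : V n) k = 0 := by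
      unfold pad
      rw [dif_neg (by omega)]
    rw [hz2, Pi.add_apply, e1, add_zero]
  have hact2 : act (mm α l n) z2 = 0 := by
    funext k
    rw [Pi.zero_apply]
    by_cases hk : k.val < x
    · unfold act
      rw [hz2lo k hk, zero_add]
      refine sum_eq_zero fun j _ => ?_
      rw [hz2lo ⟨j.val, j.isLt.trans k.isLt⟩ (j.isLt.trans hk), mul_zero]
    · rw [hz2, act_add, hlow, Pi.add_apply]
      have e1 : act (mm α l n) z k = 0 := eq_zero_of_tp_le _ k (by omega)
      have e2 : (pad (act (mm α l x) (hd37 z x)) : V n) k = 0 := by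
        unfold pad
        rw [dif_neg (by omega)]
      rw [e1, e2, add_zero]
  have hz20 : z2 = 0 := by
    apply act_injective (mm α l n)
    rw [hact2]
    funext k
    simp [act]
  have hz : z = pad (hd37 z x) := by
    funext k
    by_cases hk : k.val < x
    · unfold pad hd37
      rw [dif_pos hk]
      exact (zx_eq z k).symm
    · have h3 := hz2hi k (by omega)
      rw [hz20] at h3
      unfold pad
      rw [dif_neg hk, ← h3]
      rfl
  have hzp : (pad z : V n') = pad (hd37 z x) := by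
    funext k
    by_cases hk : k.val < x
    · have hkn : k.val < n := hk.trans hx
      have e1 : (pad z : V n') k = z ⟨k.val, hkn⟩ := by
        unfold pad
        rw [dif_pos hkn]
      have e2 : (pad (hd37 z x) : V n') k = zx z k.val := by
        unfold pad
        rw [dif_pos hk]
        rfl
      rw [e1, e2]
      exact (zx_eq z ⟨k.val, hkn⟩).symm
    · have e2 : (pad (hd37 z x) : V n') k = 0 := by
        unfold pad
        rw [dif_neg hk]
      rw [e2]
      by_cases hk' : k.val < n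
      · have e1 : (pad z : V n') k = z ⟨k.val, hk'⟩ := by
          unfold pad
          rw [dif_pos hk']
        have e3 := hz2hi ⟨k.val, hk'⟩ (by simp only; omega)
        rw [e1, ← e3, hz20]
        rfl
      · unfold pad
        rw [dif_neg hk']
  have hup : act (mm α l n') (pad z) = pad (act (mm α l x) (hd37 z x)) := by
    rw [hzp]
    exact act_pad_hidden α l (hx.le.trans h) (hd37 z x) hA
  -- the top is at most `x`, hence inside the window, hence at most `b`
  have h3 : tp (act (mm α l n') (pad z)) ≤ b := by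
    refine tp_le_of _ _ fun k hk => ?_
    by_cases hkx : k.val < x
    · have h4 : act (mm α l n') (pad z) ⟨k.val, lt_of_lt_of_le (hkx.trans hx) h⟩
          = act (mm α l n) z ⟨k.val, hkx.trans hx⟩ :=
        act_pad_coord37 h α l z k.val (hkx.trans hx)
      have h5 : act (mm α l n) z ⟨k.val, hkx.trans hx⟩ = 0 :=
        eq_zero_of_tp_le _ _ (le_trans h1 hk)
      rw [h5] at h4
      exact h4
    · rw [hup]
      unfold pad
      rw [dif_neg hkx]
  omega

/-- the front, up to the forward bound in the large window -/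
theorem front_seen37 {n n' : ℕ} (h : n ≤ n') (z : V n) (b : ℕ) :
    pr (uw B S) {ω | tp (act (mm (ext ω) S n) z) ≤ b ∧ b < tp (act (mm (ext ω) S n') (pad z))}
      ≤ (1 / 2) ^ (n - b) * tot (uw B S) := by
  by_cases hbn : b ≤ n
  · have h1 := level_product (B := B) (L := S) S b n hbn
      (fun x => {ω : Wd B S | row (ext ω) S x ⬝ᵥ hd37 z x = zx z x ∧ hd37 z x ∉ AA (ext ω) S x})
      (fun _ => 1 / 2) (fun _ => by norm_num)
      (by
        intro i h1 h2 ω ω' hs
        simp only [Set.mem_ofPred_eq, hs.row_eq, (hs.mono (Nat.le_succ i) le_rfl).lv_AA_eq])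
      (by
        intro i h1 h2 g hg0 hg
        exact lev_half37 S i le_rfl (hd37 z i) (zx z i) g hg0 hg)
      (uw B S) (uw_nonneg B S) (fun _ _ _ => rfl)
    rw [Finset.prod_const, Nat.card_Ico] at h1
    refine le_trans (tot_ind_mono _ (uw_nonneg B S) ?_) h1
    rintro ω ⟨h3, h4⟩ x hx1 hx2
    refine ⟨?_, seen37 h (ext ω) S b x hx1 hx2 z h3 h4⟩
    have h5 : act (mm (ext ω) S n) z ⟨x, hx2⟩ = 0 := eq_zero_of_tp_le _ _ (le_trans h3 hx1)
    rw [act_eq] at h5
    have h6 : row (ext ω) S x ⬝ᵥ hd37 z x = - zx z x := eq_neg_of_add_eq_zero_right h5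
    rw [h6]
    exact ZMod.neg_eq_self_mod_two _
  · have h1 : n - b = 0 := by omega
    rw [h1, pow_zero, one_mul]
    refine le_trans (tot_ind_mono _ (uw_nonneg B S) (Set.subset_univ _)) ?_
    rw [lv_ind_univ]

/-- (FRONT): the advance -/
theorem front_forw37 {n : ℕ} (hB : 0 < B) (hn : n ≤ B + 1) (z : V n) (b ℓ : ℕ)
    (hb : b < tp z + ℓ) (pF : ℝ)
    (hF : pr (uw B S) {ω | tp (act (mm (ext ω) S (B + 1)) (pad z)) < tp z + ℓ} ≤ pF) :
    pr (uw B S) {ω | tp (act (mm (ext ω) S n) z) ≤ b} ≤ pF + (1 / 2) ^ (n - b) := by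
  classical
  have h1 := front_seen37 (B := B) (S := S) hn z b
  rw [tot_uw hB, mul_one] at h1
  have h2 : pr (uw B S) {ω | tp (act (mm (ext ω) S n) z) ≤ b}
      ≤ pr (uw B S) {ω | tp (act (mm (ext ω) S (B + 1)) (pad z)) < tp z + ℓ}
        + pr (uw B S) {ω | tp (act (mm (ext ω) S n) z) ≤ b ∧
            b < tp (act (mm (ext ω) S (B + 1)) (pad z))} := by
    unfold pr tot
    rw [← sum_add_distrib]
    refine sum_le_sum fun ω _ => ?_
    unfold ind
    simp only [Set.indicator_apply, Set.mem_ofPred_eq]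
    have hu := uw_nonneg B S ω
    by_cases h3 : tp (act (mm (ext ω) S n) z) ≤ b
    · by_cases h4 : tp (act (mm (ext ω) S (B + 1)) (pad z)) < tp z + ℓ
      · rw [if_pos h3, if_pos h4]
        split_ifs <;> linarith
      · rw [if_pos h3, if_neg h4, if_pos ⟨h3, by omega⟩]
        linarith
    · rw [if_neg h3]
      split_ifs <;> linarith
  linarith

/-- the forward bound with explicit factors -/
theorem slow37 : ∃ u θ C : ℝ, 0 < u ∧ 0 < θ ∧ 1 ≤ C ∧ ∀ (B : ℕ), 0 < B → ∀ S ℓ X : ℕ,
    (ℓ : ℝ) * B ≤ u * S → ∀ z : V (B + 1), z ≠ 0 → tp z + ℓ + X ≤ B →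
      pr (uw B S) {ω | tp (act (mm (ext ω) S (B + 1)) z) < tp z + ℓ}
        ≤ C * (4 * S + 4) * (Real.exp (-(θ * (S / B))) + Real.exp (-(θ * X))) := by
  have hv := Pool.Agent.UTM.Es.vv_pos
  obtain ⟨θ, C, hθ, hC, H⟩ := forward (Pool.Agent.UTM.Es.vv / 2) (by linarith)
  refine ⟨Pool.Agent.UTM.Es.vv / 2, θ, C, by linarith, hθ, hC, ?_⟩
  intro B hB S ℓ X hℓ z hz hroom
  have hB' : (0 : ℝ) < B := by exact_mod_cast hB
  have h1 := H B hB ((S : ℝ) / B) (by positivity) S ℓ X (by
    rw [← mul_div_assoc, le_div_iff₀ hB']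
    exact hℓ) z hz hroom
  have h2 : (B : ℝ) * ((S : ℝ) / B) = (S : ℝ) := by
    field_simp
  rw [h2] at h1
  have h3 := pois_mode S
  have h4 : (0 : ℝ) < 4 * (S : ℝ) + 4 := by positivity
  have h5 : 0 ≤ pr (uw B S) {ω | tp (act (mm (ext ω) S (B + 1)) z) < tp z + ℓ} :=
    sum_nonneg fun ω _ => Set.indicator_nonneg (fun ω _ => uw_nonneg B S ω) ω
  have h6 := mul_le_mul_of_nonneg_right h3 h5
  have h7 := le_trans h6 h1
  rw [one_div, inv_mul_le_iff₀ h4] at h7
  linarith

/-- (FRONT), all bounds together -/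
theorem front37 : ∃ u θ C : ℝ, 0 < u ∧ 0 < θ ∧ 1 ≤ C ∧ ∀ (B : ℕ), 0 < B → ∀ S ℓ X n b : ℕ,
    (ℓ : ℝ) * B ≤ u * S → n + ℓ + X ≤ B → ∀ z : V n, z ≠ 0 →
      pr (uw B S) {ω | tp (act (mm (ext ω) S n) z) ≤ b} ≤ (1 / 2) ^ (tp z - b) ∧
      (b < tp z + ℓ → pr (uw B S) {ω | tp (act (mm (ext ω) S n) z) ≤ b}
        ≤ C * (4 * S + 4) * (Real.exp (-(θ * (S / B))) + Real.exp (-(θ * X)))
          + (1 / 2) ^ (n - b)) := by
  obtain ⟨u, θ, C, hu, hθ, hC, H⟩ := slow37
  refine ⟨u, θ, C, hu, hθ, hC, ?_⟩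
  intro B hB S ℓ X n b hℓ hroom z hz
  refine ⟨front_back37 hB z b, fun hb => ?_⟩
  have hn : n ≤ B + 1 := by omega
  have htp : tp (pad z : V (B + 1)) = tp z := tr_tp_pad hn z
  refine front_forw37 hB hn z b ℓ hb _ ?_
  have hz' : (pad z : V (B + 1)) ≠ 0 := by
    intro h0
    apply hz
    funext k
    have h1 : (pad z : V (B + 1)) ⟨k.val, lt_of_lt_of_le k.isLt hn⟩ = z k := by
      unfold pad
      rw [dif_pos k.isLt]
    rw [← h1, h0]
    rfl
  have h1 := H B hB S ℓ X hℓ (pad z) hz' (by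
    rw [htp]
    have := tp_le z
    omega)
  rw [htp] at h1
  exact h1

end Pool.Agent.CutSeq.NJ
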