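import Pool.Agent.NJ.Shell52

/-!
S19271, target B, junction: from the rounds (linear NOJUMP iterated) and the inner part (NO JUNK,
polynomial form) to the comparison of the distances at one size.
-/

set_option autoImplicit false

namespace Pool.Agent.CutSeq.NJ

open Finset Filter Topology

/-- the rounds (Z2 of NJ_RowsB16, word for word) -/
def RoundsB : Prop := ∃ C₁ : ℝ, 1 ≤ C₁ ∧ ∀ (J : ℕ) (C d x v : ℝ), 0 < d → 0 < x → x ≤ 1 / 8 → 0 < v →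
    C₁ * (J + 1) * x ≤ d → ∃ N₀ : ℕ, ∃ κ : ℝ, 0 < κ ∧ ∀ N ≥ N₀, ∀ n₁ : ℕ,
      (N : ℝ) ≤ n₁ → (n₁ : ℝ) ≤ (1 + x) * N →
      ∀ l : ℕ, 7 * N * (4 * N) ≤ l + x * N * (4 * N) → (l : ℝ) ≤ C * N * (4 * N) →
      K0 (uw (4 * N) l) (fun ω => mm (ext ω) l N) ≤ κ * N ^ 2 →
      ∀ l' : ℕ, l + d * N * (4 * N) ≤ l' →
      K0 (uw (4 * N) l') (fun ω => mm (ext ω) l' n₁)
        ≤ ((C₁ * (J + 1) * x / d) ^ J * x + v) * N ^ 2

/-- the output of the iteration (E3 form): an entropy deficit `o(N²)` at size `N` is, a time `d N`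
later, a deficit `≤ (c x) ^ 40 N²` at the size `(1 + x) N`, for one `x` below any given bound -/
def SpreadB : Prop := ∀ C d q c : ℝ, 0 < C → 0 < d → 0 < q → 0 < c →
  ∃ x : ℝ, 0 < x ∧ x ≤ q ∧ x ≤ 1 / 8 ∧ ∃ κ : ℝ, 0 < κ ∧ ∃ N₀ : ℕ, ∀ N ≥ N₀, ∀ l : ℕ,
      7 * N * (4 * N) ≤ l + x * N * (4 * N) → (l : ℝ) ≤ C * N * (4 * N) →
      K0 (uw (4 * N) l) (fun ω => mm (ext ω) l N) ≤ κ * N ^ 2 →
      ∀ l' : ℕ, l + d * N * (4 * N) ≤ l' →
      K0 (uw (4 * N) l') (fun ω => mm (ext ω) l' ⌊(1 + x) * (N : ℝ)⌋₊) ≤ (c * x) ^ 40 * N ^ 2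

theorem spread_of_rounds (hR : RoundsB) : SpreadB := by
  obtain ⟨C₁, hC₁, hR⟩ := hR
  intro C d q c _ hd hq hc
  have hC₁0 : 0 < C₁ := by linarith
  set x₀ : ℝ := (c * d / (C₁ * 41)) ^ 40 / 2 with hx₀
  have hx₀0 : 0 < x₀ := by positivity
  set x : ℝ := min (min (1 / 8) q) (min (d / (C₁ * 41)) x₀) with hx
  have hx0 : 0 < x := lt_min (lt_min (by norm_num) hq) (lt_min (by positivity) hx₀0)
  have hx8 : x ≤ 1 / 8 := (min_le_left _ _).trans (min_le_left _ _)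
  have hxq : x ≤ q := (min_le_left _ _).trans (min_le_right _ _)
  have hxd : x ≤ d / (C₁ * 41) := (min_le_right _ _).trans (min_le_left _ _)
  have hxx₀ : x ≤ x₀ := (min_le_right _ _).trans (min_le_right _ _)
  have hxd' : C₁ * ((40 : ℕ) + 1) * x ≤ d := by
    rw [le_div_iff₀ (by positivity)] at hxd
    push_cast
    linarith
  set v : ℝ := (c * x) ^ 40 / 2 with hv
  have hv0 : 0 < v := by positivity
  obtain ⟨N₀, κ, hκ, h⟩ := hR 40 C d x v hd hx0 hx8 hv0 hxd'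
  refine ⟨x, hx0, hxq, hx8, κ, hκ, max N₀ (⌈1 / x⌉₊ + 1), fun N hN l h3 h4 h5 l' h6 => ?_⟩
  have hNN : N₀ ≤ N := le_trans (le_max_left _ _) hN
  have hNx : 1 ≤ x * (N : ℝ) := by
    have h7 : ⌈1 / x⌉₊ ≤ N := by
      have := le_trans (le_max_right _ _) hN
      omega
    have h8 : 1 / x ≤ (N : ℝ) := (Nat.le_ceil _).trans (by exact_mod_cast h7)
    rw [div_le_iff₀ hx0] at h8
    linarith
  have hN0 : (0 : ℝ) ≤ N := Nat.cast_nonneg N
  have h1 : (N : ℝ) ≤ ((⌊(1 + x) * (N : ℝ)⌋₊ : ℕ) : ℝ) := by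
    have := Nat.lt_floor_add_one ((1 + x) * (N : ℝ))
    linarith
  have h2 : ((⌊(1 + x) * (N : ℝ)⌋₊ : ℕ) : ℝ) ≤ (1 + x) * N := Nat.floor_le (by positivity)
  refine (h N hNN _ h1 h2 l h3 h4 h5 l' h6).trans ?_
  refine mul_le_mul_of_nonneg_right ?_ (by positivity)
  have h7 : (C₁ * (((40 : ℕ) : ℝ) + 1) * x / d) ^ 40 * x ≤ (c * x) ^ 40 / 2 := by
    have e1 : (C₁ * (((40 : ℕ) : ℝ) + 1) * x / d) ^ 40 * x = (C₁ * 41 / d) ^ 40 * x ^ 40 * x := by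
      push_cast
      rw [← mul_pow]
      congr 2
      ring
    rw [e1]
    have h8 : (C₁ * 41 / d) ^ 40 * x ≤ c ^ 40 / 2 := by
      have h9 : (C₁ * 41 / d) ^ 40 * x ≤ (C₁ * 41 / d) ^ 40 * x₀ :=
        mul_le_mul_of_nonneg_left hxx₀ (by positivity)
      refine h9.trans (le_of_eq ?_)
      rw [hx₀, ← mul_div_assoc, ← mul_pow]
      congr 2
      field_simp
    calc (C₁ * 41 / d) ^ 40 * x ^ 40 * x = (C₁ * 41 / d) ^ 40 * x * x ^ 40 := by ring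
      _ ≤ c ^ 40 / 2 * x ^ 40 := mul_le_mul_of_nonneg_right h8 (by positivity)
      _ = (c * x) ^ 40 / 2 := by rw [mul_pow]; ring
  have h8 : v = (c * x) ^ 40 / 2 := hv
  rw [h8]
  linarith

/-- the iteration, as announced by its owners (E3 form) -/
def IterB : Prop := ∀ d C C' x₀ : ℝ, 0 < d → 0 < C → 1 ≤ C' → 0 < x₀ →
  ∃ x : ℝ, 0 < x ∧ x ≤ x₀ ∧ x ≤ 1 / 8 ∧ ∃ σ : ℝ, 0 < σ ∧ ∃ N₀ : ℕ, ∀ N ≥ N₀, ∀ l : ℕ,
      6 * ((1 + x) * N * (4 * N)) ≤ l → (l : ℝ) ≤ C * N * (4 * N) →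
      K0 (uw (4 * N) l) (fun ω => mm (ext ω) l N) ≤ σ * N ^ 2 →
      ∀ l' : ℕ, l + d * N * (4 * N) ≤ l' →
      K0 (uw (4 * N) l') (fun ω => mm (ext ω) l' ⌊(1 + x) * (N : ℝ)⌋₊) ≤ (x / (2 * C')) ^ 40 * N ^ 2

theorem spread_of_iter (hI : IterB) : SpreadB := by
  intro C d q c hC hd hq hc
  obtain ⟨x, hx0, hxq, hx8, σ, hσ, N₀, h⟩ := hI d C (max 1 (1 / (2 * c))) q hd hC (le_max_left _ _) hq
  refine ⟨x, hx0, hxq, hx8, σ, hσ, N₀, fun N hN l h3 h4 h5 l' h6 => ?_⟩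
  have h3' : 6 * ((1 + x) * N * (4 * N)) ≤ (l : ℝ) := by
    have h9 : 0 ≤ (1 / 8 - x) * ((N : ℝ) * N) := mul_nonneg (by linarith) (by positivity)
    have h10 : (0 : ℝ) ≤ (N : ℝ) * N := by positivity
    linarith
  refine (h N hN l h3' h4 h5 l' h6).trans ?_
  refine mul_le_mul_of_nonneg_right ?_ (by positivity)
  have h7 : 0 < max 1 (1 / (2 * c)) := lt_of_lt_of_le one_pos (le_max_left _ _)
  have h8 : 1 / (2 * c) ≤ max 1 (1 / (2 * c)) := le_max_right _ _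
  refine pow_le_pow_left₀ (by positivity) ?_ 40
  rw [div_le_iff₀ (by positivity)]
  have h11 : 1 ≤ 2 * c * max 1 (1 / (2 * c)) := by
    have h12 := mul_le_mul_of_nonneg_left h8 (show (0 : ℝ) ≤ 2 * c by positivity)
    have h13 : 2 * c * (1 / (2 * c)) = 1 := by field_simp
    linarith
  nlinarith

/-- **JUNCTION B**: the comparison of the distances at one size. -/
theorem cutB_of_spread (hS : SpreadB) (hNJ : NJpoly)
    (hlow : ∀ h : ℝ, 0 < h → h < 1 → ∃ N₀ : ℕ, ∀ N ≥ N₀, ∀ t : ℝ, 0 ≤ t → dd N t ≤ 1 - h →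
      7 * (N : ℝ) ≤ t)
    (C d h e : ℝ) (hC : 0 < C) (hd : 0 < d) (hh : 0 < h) (hh1 : h < 1) (he : 0 < e) :
    ∃ N₀ : ℕ, ∀ N ≥ N₀, ∀ t : ℝ, 0 ≤ t → t ≤ C * N → dd N t ≤ 1 - h → dd N (t + d * N) ≤ e := by
  obtain ⟨CJ, hCJ, hNJ⟩ := hNJ
  have hCJ0 : 0 < CJ := by linarith
  -- the parameters
  obtain ⟨z, hz, N₁, hN₁⟩ := end52 (C + d) 4 (d / 2) e (by positivity) (by positivity) he
  obtain ⟨x, hx0, hxe, hx8, κ, hκ, N₂, hN₂⟩ :=
    hS (C + 1) (d / 4) (e / 2) (1 / (2 * CJ)) (by positivity) (by positivity) (by positivity)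
      (by positivity)
  have hx1 : x ≤ 1 := by linarith
  set eJ : ℝ := 1 / (2 * CJ) * x with heJ
  have heJ0 : 0 < eJ := by positivity
  have hCe : CJ * eJ = x / 2 := by
    rw [heJ]
    field_simp
  obtain ⟨N₃, hN₃⟩ := hNJ eJ z heJ0 (by rw [hCe]; linarith) hz
  obtain ⟨N₄, hN₄⟩ := start52 h C 4 κ hh hh1 hC (by norm_num) hκ
  obtain ⟨N₅, hN₅⟩ := hlow h hh hh1
  set P : ℕ := ⌈max (8 * (C + 1) / x) (max (32 * (C + 1)) (40 * (C + 1) / d))⌉₊ with hP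
  refine ⟨max (max (max N₁ N₂) (max N₃ N₄)) (max N₅ (P + 3)), fun N hN t ht htC hdN => ?_⟩
  have hM1 : N₁ ≤ N :=
    le_trans (le_trans (le_trans (le_max_left _ _) (le_max_left _ _)) (le_max_left _ _)) hN
  have hM2 : N₂ ≤ N :=
    le_trans (le_trans (le_trans (le_max_right _ _) (le_max_left _ _)) (le_max_left _ _)) hN
  have hM3 : N₃ ≤ N :=
    le_trans (le_trans (le_trans (le_max_left _ _) (le_max_right _ _)) (le_max_left _ _)) hN
  have hM4 : N₄ ≤ N :=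
    le_trans (le_trans (le_trans (le_max_right _ _) (le_max_right _ _)) (le_max_left _ _)) hN
  have hM5 : N₅ ≤ N := le_trans (le_trans (le_max_left _ _) (le_max_right _ _)) hN
  have hM6 : P + 3 ≤ N := le_trans (le_trans (le_max_right _ _) (le_max_right _ _)) hN
  have hPN : max (8 * (C + 1) / x) (max (32 * (C + 1)) (40 * (C + 1) / d)) ≤ N := by
    refine (Nat.le_ceil _).trans ?_
    rw [← hP]
    have : P ≤ N := by omega
    exact_mod_cast this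
  have hN1 : (1 : ℝ) ≤ N := by
    have : 1 ≤ N := by omega
    exact_mod_cast this
  have hN0 : (0 : ℝ) < N := by linarith
  have hxN : 8 * (C + 1) ≤ x * N := by
    have := (le_max_left _ _).trans hPN
    rw [div_le_iff₀ hx0] at this
    linarith
  have hCN : 32 * (C + 1) ≤ (N : ℝ) := ((le_max_left _ _).trans (le_max_right _ _)).trans hPN
  have hdN' : 40 * (C + 1) ≤ d * N := by
    have := ((le_max_right _ _).trans (le_max_right _ _)).trans hPN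
    rw [div_le_iff₀ hd] at this
    linarith
  have hB4 : ((4 * N : ℕ) : ℝ) = 4 * N := by push_cast; ring
  -- the time
  have ht7 : 7 * (N : ℝ) ≤ t := hN₅ N hM5 t ht hdN
  -- start
  obtain ⟨S, hS, hKS⟩ := hN₄ N hM4 t ht htC hdN (4 * N) (by omega) (by omega)
    (by rw [hB4])
  rw [hB4] at hS
  have hSlow := (abs_le.1 hS).1
  have hSup := (abs_le.1 hS).2
  -- the level
  set n₁ : ℕ := ⌊(1 + x) * (N : ℝ)⌋₊ with hn₁
  have hn₁le : (n₁ : ℝ) ≤ (1 + x) * N := Nat.floor_le (by positivity)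
  have hn₁lt : (1 + x) * (N : ℝ) < n₁ + 1 := Nat.lt_floor_add_one _
  have hxN2 : 2 ≤ x * (N : ℝ) := by linarith
  have hn₁N : (N : ℝ) + x / 2 * N ≤ n₁ := by linarith
  have hn₁N' : (N : ℝ) ≤ n₁ := by linarith
  have hn₁2 : n₁ ≤ 2 * N := by
    have h1 : (n₁ : ℝ) ≤ 2 * N := by nlinarith
    exact_mod_cast h1
  -- the rounds
  set l' : ℕ := S + ⌈d / 4 * N * (4 * N)⌉₊ with hl'
  have hceil : d / 4 * (N : ℝ) * (4 * N) ≤ (⌈d / 4 * (N : ℝ) * (4 * N)⌉₊ : ℝ) := Nat.le_ceil _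
  have hceil' : (⌈d / 4 * (N : ℝ) * (4 * N)⌉₊ : ℝ) < d / 4 * (N : ℝ) * (4 * N) + 1 :=
    Nat.ceil_lt_add_one (by positivity)
  have hl'R : (l' : ℝ) = S + (⌈d / 4 * (N : ℝ) * (4 * N)⌉₊ : ℝ) := by
    rw [hl']
    push_cast
    rfl
  have htN : 4 * (N : ℝ) * (7 * N) ≤ 4 * N * t := mul_le_mul_of_nonneg_left ht7 (by positivity)
  have hxNN : 8 * (C + 1) * (4 * (N : ℝ)) ≤ x * N * (4 * N) :=
    mul_le_mul_of_nonneg_right hxN (by positivity)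
  have hS1 : 7 * (N : ℝ) * (4 * N) ≤ S + x * N * (4 * N) := by linarith
  have hS2 : (S : ℝ) ≤ (C + 1) * N * (4 * N) := by
    have h1 : 4 * (N : ℝ) * t ≤ 4 * N * (C * N) := mul_le_mul_of_nonneg_left htC (by positivity)
    have h2 : 32 * (C + 1) * (N : ℝ) ≤ N * N := mul_le_mul_of_nonneg_right hCN hN0.le
    linarith
  have hK1 := hN₂ N hM2 S hS1 hS2 hKS l' (by rw [hl'R]; linarith)
  -- the inner part
  have hl'log : 2 * (((4 * N : ℕ) : ℝ) * Real.log N) ≤ l' := by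
    have h1 : Real.log N ≤ N := (Real.log_le_sub_one_of_pos hN0).trans (by linarith)
    have h2 : 4 * (N : ℝ) * Real.log N ≤ 4 * N * N := mul_le_mul_of_nonneg_left h1 (by positivity)
    have h3 : x * (N : ℝ) * (4 * N) ≤ 1 * N * (4 * N) := by
      refine mul_le_mul_of_nonneg_right ?_ (by positivity)
      exact mul_le_mul_of_nonneg_right hx1 hN0.le
    have h4 : 0 ≤ d / 4 * (N : ℝ) * (4 * N) := by positivity
    rw [hB4, hl'R]
    linarith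
  obtain ⟨G, hG, hKG⟩ := hN₃ N hM3 (4 * N) l' n₁ N rfl hl'log (by omega) hn₁2
    (by rw [hCe]; exact hn₁N) (by rw [heJ]; exact hK1)
  -- end
  have hfin := hN₁ N hM1 (4 * N) (by omega) (by rw [hB4]; linarith) (by rw [hB4])
    (t + d / 2 * N) (by positivity) (by linarith) l' (by
      rw [hB4, hl'R]
      have h1 : 40 * (C + 1) * (N : ℝ) ≤ d * N * N := mul_le_mul_of_nonneg_right hdN' hN0.le
      have h2 : 1 ≤ (C + 1) * (N : ℝ) := by linarith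
      linarith) G (past_all G) (by rw [hCe] at hG; linarith) hKG
  have e1 : t + d / 2 * (N : ℝ) + d / 2 * N = t + d * N := by ring
  rw [e1] at hfin
  exact hfin

theorem cutB_of (hR : RoundsB) (hNJ : NJpoly)
    (hlow : ∀ h : ℝ, 0 < h → h < 1 → ∃ N₀ : ℕ, ∀ N ≥ N₀, ∀ t : ℝ, 0 ≤ t → dd N t ≤ 1 - h →
      7 * (N : ℝ) ≤ t) :
    ∀ C d h e : ℝ, 0 < C → 0 < d → 0 < h → h < 1 → 0 < e →
      ∃ N₀ : ℕ, ∀ N ≥ N₀, ∀ t : ℝ, 0 ≤ t → t ≤ C * N → dd N t ≤ 1 - h → dd N (t + d * N) ≤ e :=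
  fun C d h e hC hd hh hh1 he =>
    cutB_of_spread (spread_of_rounds hR) hNJ hlow C d h e hC hd hh hh1 he

end Pool.Agent.CutSeq.NJ
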