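import Pool.Agent.NJ.FinA52
import Pool.Agent.NJ.JuncB77

/-!
S19271: the frozen statement from the comparison of the distances at one size, and the lower bound
`7 N` for the times.
-/

set_option autoImplicit false

namespace Pool.Agent.CutSeq.NJ

open Filter Topology

/-- the comparison of the distances at one size -/
def CutB : Prop := ∀ C d h e : ℝ, 0 < C → 0 < d → 0 < h → h < 1 → 0 < e →
  ∃ N₀ : ℕ, ∀ N ≥ N₀, ∀ t : ℝ, 0 ≤ t → t ≤ C * N → dd N t ≤ 1 - h → dd N (t + d * N) ≤ e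

/-- full cutoff, in the form of the frozen statement -/
theorem frozen3 (hcut : CutB) :
    ∀ (K : (n : ℕ) → Matrix (Matrix (Fin n) (Fin n) (ZMod 2)) (Matrix (Fin n) (Fin n) (ZMod 2)) ℝ),
      (∀ (n : ℕ) (A B : Matrix (Fin n) (Fin n) (ZMod 2)),
        K n A B = (1 / 2 : ℝ) * (if B = A then 1 else 0)
          + (1 / (2 * ((n : ℝ) - 1))) *
            ∑ i : Fin n, ∑ j : Fin n,
              (if j.val = i.val + 1 ∧ B = A.updateRow i (A i + A j) then (1 : ℝ) else 0)) →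
    ∀ (d : ℕ → ℝ → ℝ),
      (∀ (n : ℕ) (t : ℝ),
        d n t = (1 / 2 : ℝ) * ∑ B : Matrix (Fin n) (Fin n) (ZMod 2),
          |(∑' k : ℕ, Real.exp (-(((n : ℝ) - 1) * t)) * (((n : ℝ) - 1) * t) ^ k
              / (k.factorial : ℝ) * ((K n) ^ k) 1 B)
            - (if (∀ a : Fin n, B a a = 1) ∧ (∀ a b : Fin n, b < a → B a b = 0)
                then (1 / 2 : ℝ) ^ (n * (n - 1) / 2) else 0)|) →
    ∀ (T : ℕ → ℝ → ℝ),
      (∀ (n : ℕ) (ε : ℝ), T n ε = sInf {t : ℝ | 0 ≤ t ∧ d n t ≤ ε}) →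
    ∀ ε : ℝ, 0 < ε → ε < 1 →
      Tendsto (fun n : ℕ => T n ε / T n (1 - ε)) atTop (𝓝 1) := by
  intro K hK d hd T hT ε hε hε1
  have hb : Basic52 d T := basic52 K hK
    (fun n t B => ∑' k : ℕ, Real.exp (-(((n : ℝ) - 1) * t)) * (((n : ℝ) - 1) * t) ^ k
              / (k.factorial : ℝ) * ((K n) ^ k) 1 B)
    (fun _ _ _ => rfl) d hd T hT
  exact full52 hb hcut ε hε hε1

/-- the lower bound for the times, for the distance `dd` -/
theorem low7 (h : ℝ) (hh : 0 < h) (hh1 : h < 1) : ∃ N₀ : ℕ, ∀ N ≥ N₀, ∀ t : ℝ, 0 ≤ t →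
    dd N t ≤ 1 - h → 7 * (N : ℝ) ≤ t := by
  have _ := hh1
  set K : (n : ℕ) → Matrix (Matrix (Fin n) (Fin n) (ZMod 2)) (Matrix (Fin n) (Fin n) (ZMod 2)) ℝ :=
    fun n A B => (1 / 2 : ℝ) * (if B = A then 1 else 0)
          + (1 / (2 * ((n : ℝ) - 1))) *
            ∑ i : Fin n, ∑ j : Fin n,
              (if j.val = i.val + 1 ∧ B = A.updateRow i (A i + A j) then (1 : ℝ) else 0) with hKdef
  have hK : ∀ (n : ℕ) (A B : Matrix (Fin n) (Fin n) (ZMod 2)),
        K n A B = (1 / 2 : ℝ) * (if B = A then 1 else 0)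
          + (1 / (2 * ((n : ℝ) - 1))) *
            ∑ i : Fin n, ∑ j : Fin n,
              (if j.val = i.val + 1 ∧ B = A.updateRow i (A i + A j) then (1 : ℝ) else 0) :=
    fun _ _ _ => rfl
  have hK' : Pool.Agent.UTM.IsKernel K := hK
  obtain ⟨N₀, hN₀⟩ := eventually_atTop.1
    ((Pool.Agent.UTM.lower_bound hK' h hh).and (eventually_ge_atTop 2))
  refine ⟨N₀, fun N hN t ht hdd => ?_⟩
  obtain ⟨h1, hN2⟩ := hN₀ N hN
  by_contra hcon
  have h2 := h1 t ht (not_le.1 hcon).le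
  have h3 := frozen_dd K hK
    (fun n t B => ∑' k : ℕ, Real.exp (-(((n : ℝ) - 1) * t)) * (((n : ℝ) - 1) * t) ^ k
              / (k.factorial : ℝ) * ((K n) ^ k) 1 B)
    (fun _ _ _ => rfl) N hN2 t ht
  have h4 : Pool.Agent.UTM.dist1 K N t = dd N t := by
    rw [← h3]
    unfold Pool.Agent.UTM.dist1
    congr 1
    apply Finset.sum_congr rfl
    intro B _
    by_cases hB : Pool.Agent.UTM.IsUni B
    · rw [if_pos hB, if_pos (show (∀ a : Fin N, B a a = 1) ∧ (∀ a b : Fin N, b < a → B a b = 0) from hB)]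
      rfl
    · rw [if_neg hB, if_neg (show ¬ ((∀ a : Fin N, B a a = 1) ∧ (∀ a b : Fin N, b < a → B a b = 0)) from hB)]
      rfl
  rw [h4] at h2
  linarith

/-- junction: the spread of the entropy and the inner part give the frozen statement -/
theorem cutB3 (hS : SpreadB) (hNJ : NJpoly) : CutB :=
  fun C d h e hC hd hh hh1 he => cutB_of_spread hS hNJ low7 C d h e hC hd hh hh1 he

end Pool.Agent.CutSeq.NJ
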