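import Pool.Agent.CutSeq.Back
import Pool.Agent.CutSeq.Mod2

/-!
Right letters, linear part: definitions.  A right letter `(b, ξ)` adds `ξ` times the coordinate `b + 1`
to the coordinate `b`; words act with the letter `0` last (newest letter first, as `Fin.cons`).
-/

set_option autoImplicit false

namespace Pool.Agent.CutSeq.NJ

open Finset Bwd

variable {n B S : ℕ}

/-- linear part of a right letter -/
def rl (p : ℕ × ZMod 2) (z : V n) : V n := fun k =>
  z k + if k.val = p.1 then p.2 * zx z (k.val + 1) else 0

/-- linear part of a word of right letters; the letter `0` acts last -/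
def gl : (S : ℕ) → Wd B S → V n → V n
  | 0, _, z => z
  | S + 1, lam, z => rl ((lam 0).1.val, (lam 0).2) (gl S (fun i => lam i.succ) z)

/-- probability that a slab of `S` right letters kills the first `b` coordinates of `z` -/
noncomputable def qb (B S b : ℕ) (z : V n) : ℝ :=
  pr (uw B S) {lam | ∀ i : Fin n, i.val < b → gl S lam z i = 0}

theorem gl_zero (lam : Wd B 0) (z : V n) : gl 0 lam z = z := rfl

theorem gl_succ (lam : Wd B (S + 1)) (z : V n) :
    gl (S + 1) lam z = rl ((lam 0).1.val, (lam 0).2) (gl S (fun i => lam i.succ) z) := rfl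

theorem gl_cons (p : Fin B × ZMod 2) (lam : Wd B S) (z : V n) :
    gl (S + 1) (Fin.cons p lam) z = rl (p.1.val, p.2) (gl S lam z) := rfl

theorem zx_add' (z z' : V n) (k : ℕ) : zx (z + z') k = zx z k + zx z' k := by
  unfold zx
  split_ifs
  · rfl
  · rw [add_zero]

theorem rl_add (p : ℕ × ZMod 2) (z z' : V n) : rl p (z + z') = rl p z + rl p z' := by
  funext k
  change (z k + z' k) + (if k.val = p.1 then p.2 * zx (z + z') (k.val + 1) else 0) =
    (z k + if k.val = p.1 then p.2 * zx z (k.val + 1) else 0) +
      (z' k + if k.val = p.1 then p.2 * zx z' (k.val + 1) else 0)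
  rw [zx_add']
  split_ifs <;> ring

theorem rl_zero (p : ℕ × ZMod 2) : rl p (0 : V n) = 0 := by
  have h := rl_add p (0 : V n) 0
  rw [add_zero] at h
  exact left_eq_add.mp h

theorem rl_rl (p : ℕ × ZMod 2) (z : V n) : rl p (rl p z) = z := by
  funext k
  change (z k + if k.val = p.1 then p.2 * zx z (k.val + 1) else 0) +
    (if k.val = p.1 then p.2 * zx (rl p z) (k.val + 1) else 0) = z k
  by_cases h : k.val = p.1
  · have h1 : zx (rl p z) (k.val + 1) = zx z (k.val + 1) := by
      unfold zx
      by_cases h2 : k.val + 1 < n
      · simp only [dif_pos h2, rl]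
        rw [if_neg (by omega), add_zero]
      · simp only [dif_neg h2]
    rw [if_pos h, if_pos h, h1, add_assoc, CharTwo.add_self_eq_zero, add_zero]
  · rw [if_neg h, if_neg h, add_zero, add_zero]

theorem gl_add (lam : Wd B S) (z z' : V n) : gl S lam (z + z') = gl S lam z + gl S lam z' := by
  induction S with
  | zero => rfl
  | succ S ih => rw [gl_succ, ih, rl_add, ← gl_succ, ← gl_succ]

theorem gl_bijective (S : ℕ) (lam : Wd B S) : Function.Bijective (gl (n := n) S lam) := by
  induction S with
  | zero => exact Function.bijective_id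
  | succ S ih =>
    exact (Function.Involutive.bijective (fun z => rl_rl _ z)).comp (ih fun i => lam i.succ)

end Pool.Agent.CutSeq.NJ
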