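import Pool.Agent.CutSeq.Fwd
import Pool.Agent.CutSeq.Back
import Pool.Agent.NJ.RLg87

/-!
S19271, target B, row FRONT in primal form.

A right letter `(b, ξ)` adds `ξ` times the coordinate `b + 1` to the coordinate `b` (differences of
rows: the coordinate `n` is zero).  `Qb86 B S b z` is the probability that `S` fresh letters kill the
first `b` coordinates of `z`.
-/

set_option autoImplicit false

namespace Pool.Agent.NJ

open Finset Pool.Agent.CutSeq

/-- one right letter on a difference of rows -/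
def rl86 {n : ℕ} (p : ℕ × ZMod 2) (z : V n) : V n := fun k =>
  z k + if k.val = p.1 then p.2 * Bwd.zx z (p.1 + 1) else 0

/-- the letters of a word in turn -/
def run86 {B n : ℕ} : (S : ℕ) → Wd B S → V n → V n
  | 0, _, z => z
  | S + 1, w, z => run86 S (Fin.tail w) (rl86 ((w 0).1.val, (w 0).2) z)

/-- probability that `S` fresh right letters kill the first `b` coordinates -/
noncomputable def Qb86 (B S b : ℕ) {n : ℕ} (z : V n) : ℝ :=
  pr (uw B S) {w | ∀ i : Fin n, i.val < b → run86 S w z i = 0}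

/-- reflection of the coordinates -/
def refl86 {n : ℕ} (z : V n) : V n := fun k => z k.rev

open Classical in
/-- indicator of a proposition -/
noncomputable def I86 (P : Prop) : ℝ := if P then 1 else 0

lemma I86_pos {P : Prop} (h : P) : I86 P = 1 := if_pos h

lemma I86_neg {P : Prop} (h : ¬ P) : I86 P = 0 := if_neg h

lemma I86_nonneg (P : Prop) : 0 ≤ I86 P := by
  by_cases h : P
  · rw [I86_pos h]
    norm_num
  · rw [I86_neg h]

lemma I86_mono {P Q : Prop} (h : P → Q) : I86 P ≤ I86 Q := by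
  by_cases hP : P
  · rw [I86_pos hP, I86_pos (h hP)]
  · rw [I86_neg hP]
    exact I86_nonneg Q

lemma I86_congr {P Q : Prop} (h : P ↔ Q) : I86 P = I86 Q := by
  rw [propext h]

/-- average over one letter -/
noncomputable def av86 (B : ℕ) (g : ℕ × ZMod 2 → ℝ) : ℝ :=
  (1 / (2 * B : ℝ)) * ∑ p : Fin B × ZMod 2, g (p.1.val, p.2)

lemma av86_mono {B : ℕ} {g g' : ℕ × ZMod 2 → ℝ} (h : ∀ p : ℕ × ZMod 2, p.1 < B → g p ≤ g' p) :
    av86 B g ≤ av86 B g' := by
  unfold av86
  refine mul_le_mul_of_nonneg_left (Finset.sum_le_sum fun p _ => h _ p.1.isLt) (by positivity)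

lemma av86_add {B : ℕ} (g g' : ℕ × ZMod 2 → ℝ) :
    av86 B (fun p => g p + g' p) = av86 B g + av86 B g' := by
  unfold av86
  rw [Finset.sum_add_distrib, mul_add]

lemma av86_const {B : ℕ} (hB : 0 < B) (c : ℝ) : av86 B (fun _ => c) = c := by
  unfold av86
  rw [Finset.sum_const, Finset.card_univ, Fintype.card_prod, Fintype.card_fin, ZMod.card,
    nsmul_eq_mul]
  have : (B : ℝ) ≠ 0 := by positivity
  push_cast
  field_simp

/-- the relabelling of the bonds under the reflection -/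
def sg86 (n b : ℕ) : ℕ := if b + 2 ≤ n then n - 2 - b else b

lemma sg86_sg (n b : ℕ) : sg86 n (sg86 n b) = b := by
  unfold sg86
  split_ifs <;> omega

lemma sg86_lt {n b B : ℕ} (hb : b < B) : sg86 n b < B ∨ B + 2 ≤ n := by
  unfold sg86
  split_ifs <;> omega

lemma sg86_lt' {n b B : ℕ} (hn : n ≤ B + 1) (hb : b < B) : sg86 n b < B := by
  unfold sg86
  split_ifs <;> omega

lemma av86_sg {n B : ℕ} (hn : n ≤ B + 1) (g : ℕ × ZMod 2 → ℝ) :
    av86 B (fun p => g (sg86 n p.1, p.2)) = av86 B g := by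
  unfold av86
  congr 1
  let e : Fin B ≃ Fin B :=
    { toFun := fun b => ⟨sg86 n b.val, sg86_lt' hn b.isLt⟩
      invFun := fun b => ⟨sg86 n b.val, sg86_lt' hn b.isLt⟩
      left_inv := fun b => Fin.ext (sg86_sg n b.val)
      right_inv := fun b => Fin.ext (sg86_sg n b.val) }
  exact Fintype.sum_equiv (e.prodCongr (Equiv.refl _)) _ _ fun p => rfl

/-- sums over words, first letter first -/
lemma sum_cons86 {B S : ℕ} (F : Wd B (S + 1) → ℝ) :
    ∑ w, F w = ∑ p : Fin B × ZMod 2, ∑ w : Wd B S, F (Fin.cons p w) := by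
  rw [← Fintype.sum_prod_type' (f := fun (p : Fin B × ZMod 2) (w : Wd B S) =>
    F (Fin.cons p w))]
  exact (Fintype.sum_equiv (Fin.consEquiv fun _ => Fin B × ZMod 2) _ _ fun _ => rfl).symm

lemma uw_succ86 {B S : ℕ} (w : Wd B (S + 1)) (w' : Wd B S) :
    uw B (S + 1) w = 1 / (2 * B : ℝ) * uw B S w' := by
  unfold uw
  rw [Fintype.card_fun, Fintype.card_fun, Fintype.card_fin, Fintype.card_fin, Fintype.card_prod,
    Fintype.card_fin, ZMod.card, pow_succ]
  push_cast
  rw [one_div_mul_one_div_rev]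
  congr 1
  ring

/-- expectation of a function of the position after the word, left letters -/
noncomputable def ea86 (B : ℕ) {n : ℕ} (S : ℕ) (F : V n → ℝ) (y : V n) : ℝ :=
  ∑ w : Wd B S, uw B S w * F (act (mm (CutSeq.ext w) S n) y)

/-- expectation of a function of the position after the word, right letters -/
noncomputable def er86 (B : ℕ) {n : ℕ} (S : ℕ) (F : V n → ℝ) (z : V n) : ℝ :=
  ∑ w : Wd B S, uw B S w * F (run86 S w z)

lemma ext_zero86 {B S : ℕ} (p : Fin B × ZMod 2) (w : Wd B S) :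
    CutSeq.ext (Fin.cons p w : Wd B (S + 1)) 0 = (p.1.val, p.2) := by
  unfold CutSeq.ext
  rw [dif_pos (Nat.succ_pos S)]
  rfl

lemma act_cons86 {B S n : ℕ} (p : Fin B × ZMod 2) (w : Wd B S) (y : V n) :
    act (mm (CutSeq.ext (Fin.cons p w : Wd B (S + 1))) (S + 1) n) y =
      act (mm (CutSeq.ext w) S n) (Bwd.lt (p.1.val, p.2) y) := by
  rw [Bwd.act_first, ext_zero86]
  refine Bwd.act_congr S _ _ (fun i hi => ?_) _
  unfold CutSeq.ext
  rw [dif_pos (Nat.succ_lt_succ hi), dif_pos hi]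
  rfl

lemma ea86_zero {B n : ℕ} (F : V n → ℝ) (y : V n) : ea86 B 0 F y = F y := by
  unfold ea86
  have h1 : ∀ w : Wd B 0, uw B 0 w * F (act (mm (CutSeq.ext w) 0 n) y) = F y := by
    intro w
    rw [Bwd.act_zero']
    unfold uw
    rw [Fintype.card_fun, Fintype.card_fin, pow_zero, Nat.cast_one, div_one, one_mul]
  rw [Finset.sum_congr rfl fun w _ => h1 w, Finset.sum_const, Finset.card_univ, Fintype.card_fun,
    Fintype.card_fin, pow_zero, one_smul]

lemma ea86_succ {B n S : ℕ} (F : V n → ℝ) (y : V n) :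
    ea86 B (S + 1) F y = av86 B fun p => ea86 B S F (Bwd.lt p y) := by
  unfold ea86 av86
  rw [sum_cons86, Finset.mul_sum]
  refine Finset.sum_congr rfl fun p _ => ?_
  rw [Finset.mul_sum]
  refine Finset.sum_congr rfl fun w _ => ?_
  rw [act_cons86, uw_succ86 _ w, mul_assoc]

lemma er86_zero {B n : ℕ} (F : V n → ℝ) (y : V n) : er86 B 0 F y = F y := by
  unfold er86
  have h1 : ∀ w : Wd B 0, uw B 0 w * F (run86 0 w y) = F y := by
    intro w
    unfold uw run86
    rw [Fintype.card_fun, Fintype.card_fin, pow_zero, Nat.cast_one, div_one, one_mul]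
  rw [Finset.sum_congr rfl fun w _ => h1 w, Finset.sum_const, Finset.card_univ, Fintype.card_fun,
    Fintype.card_fin, pow_zero, one_smul]

lemma er86_succ {B n S : ℕ} (F : V n → ℝ) (y : V n) :
    er86 B (S + 1) F y = av86 B fun p => er86 B S F (rl86 p y) := by
  unfold er86 av86
  rw [sum_cons86, Finset.mul_sum]
  refine Finset.sum_congr rfl fun p _ => ?_
  rw [Finset.mul_sum]
  refine Finset.sum_congr rfl fun w _ => ?_
  rw [uw_succ86 _ w, mul_assoc]
  rfl

/-- reflection of one letter -/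
lemma refl_rl86 {n : ℕ} (p : ℕ × ZMod 2) (z : V n) :
    refl86 (rl86 p z) = Bwd.lt (sg86 n p.1, p.2) (refl86 z) := by
  funext k
  unfold refl86 rl86 Bwd.lt sg86
  have hk := k.isLt
  have hr : k.rev.val = n - 1 - k.val := by
    rw [Fin.val_rev]
    omega
  show z k.rev + (if k.rev.val = p.1 then p.2 * Bwd.zx z (p.1 + 1) else 0) =
    z k.rev + if k.val = (if p.1 + 2 ≤ n then n - 2 - p.1 else p.1) + 1 then
      p.2 * Bwd.zx (fun k : Fin n => z k.rev) (if p.1 + 2 ≤ n then n - 2 - p.1 else p.1) else 0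
  congr 1
  rw [hr]
  by_cases h : p.1 + 2 ≤ n
  · rw [if_pos h]
    by_cases h2 : n - 1 - k.val = p.1
    · rw [if_pos h2, if_pos (by omega)]
      congr 1
      unfold Bwd.zx
      rw [dif_pos (show p.1 + 1 < n by omega), dif_pos (show n - 2 - p.1 < n by omega)]
      congr 1
      apply Fin.ext
      rw [Fin.val_rev]
      show p.1 + 1 = n - (n - 2 - p.1 + 1)
      omega
    · rw [if_neg h2, if_neg (by omega)]
  · rw [if_neg h, if_neg (show ¬ k.val = p.1 + 1 by omega)]
    by_cases h2 : n - 1 - k.val = p.1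
    · rw [if_pos h2]
      unfold Bwd.zx
      rw [dif_neg (by omega), mul_zero]
    · rw [if_neg h2]

lemma refl_refl86 {n : ℕ} (z : V n) : refl86 (refl86 z) = z := by
  funext k
  unfold refl86
  rw [Fin.rev_rev]

theorem er86_eq {B n : ℕ} (hn : n ≤ B + 1) (S : ℕ) : ∀ (F : V n → ℝ) (z : V n),
    er86 B S F z = ea86 B S (fun y => F (refl86 y)) (refl86 z) := by
  induction S with
  | zero =>
    intro F z
    rw [er86_zero, ea86_zero, refl_refl86]
  | succ S ih =>
    intro F z
    rw [er86_succ, ea86_succ, ← av86_sg hn fun p => ea86 B S (fun y => F (refl86 y))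
      (Bwd.lt p (refl86 z))]
    congr 1
    funext p
    rw [ih F, refl_rl86]

lemma pr_eq86 {B S : ℕ} (G : Set (Wd B S)) : pr (uw B S) G =
    ∑ w : Wd B S, uw B S w * I86 (w ∈ G) := by
  unfold pr tot ind
  refine Finset.sum_congr rfl fun w _ => ?_
  by_cases h : w ∈ G
  · rw [Set.indicator_of_mem h, I86_pos h, mul_one]
  · rw [Set.indicator_of_notMem h, I86_neg h, mul_zero]

lemma tp_refl_iff86 {n b : ℕ} (hb : b ≤ n) (z : V n) :
    (∀ i : Fin n, i.val < b → refl86 z i = 0) ↔ tp z ≤ n - b := by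
  constructor
  · intro h
    refine Bwd.tp_le_of z _ fun k hk => ?_
    have := h k.rev (by rw [Fin.val_rev]; have := k.isLt; omega)
    unfold refl86 at this
    rwa [Fin.rev_rev] at this
  · intro h i hi
    unfold refl86
    refine Bwd.eq_zero_of_tp_le z _ (h.trans ?_)
    rw [Fin.val_rev]
    omega

/-- the killing probability in terms of the landed left letters -/
theorem Qb86_eq {B S b n : ℕ} (hn : n ≤ B + 1) (hb : b ≤ n) (z : V n) :
    Qb86 B S b z = pr (uw B S) {w | tp (act (mm (CutSeq.ext w) S n) (refl86 z)) ≤ n - b} := by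
  unfold Qb86
  rw [pr_eq86, pr_eq86]
  have h1 := er86_eq hn S (fun y : V n => I86 (∀ i : Fin n, i.val < b → y i = 0)) z
  unfold er86 ea86 at h1
  refine Eq.trans h1 (Finset.sum_congr rfl fun w _ => ?_)
  congr 1
  exact I86_congr (tp_refl_iff86 hb _)

lemma tp_refl86 {n : ℕ} (z : V n) (p : Fin n) (hp : z p ≠ 0) : n - p.val ≤ tp (refl86 z) := by
  by_contra hcon
  apply hp
  have h1 := Bwd.eq_zero_of_tp_le (refl86 z) p.rev (by rw [Fin.val_rev]; omega)
  unfold refl86 at h1
  rwa [Fin.rev_rev] at h1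

lemma Qb86_nonneg {B S b n : ℕ} (z : V n) : 0 ≤ Qb86 B S b z := by
  unfold Qb86
  rw [pr_eq86]
  exact Finset.sum_nonneg fun w _ => mul_nonneg (Bwd.uw_nonneg B S w) (I86_nonneg _)

/-- retreat in the landed orientation -/
theorem retreat86 {B S n : ℕ} (hB : 0 < B) (y : V n) (hy : y ≠ 0) (ℓ : ℕ) :
    pr (uw B S) {w | tp (act (mm (CutSeq.ext w) S n) y) + ℓ ≤ tp y} ≤ (1 / 2) ^ ℓ := by
  have h1 := backward (B := B) (S := S) (n := n) (e := 1) (ℓ := ℓ) hB (fun _ => y) (fun _ => hy)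
    (fun i j _ => Subsingleton.elim i j)
  rw [mul_one] at h1
  refine le_trans (le_of_eq ?_) h1
  congr 1
  ext w
  exact ⟨fun h _ => h, fun h => h 0⟩

/-- (F1) the front does not retreat -/
theorem F1_86 {B S b n : ℕ} (hB : 0 < B) (hn : n ≤ B + 1) (hb : b ≤ n) (z : V n) (p : Fin n)
    (hp : z p ≠ 0) (hpb : p.val ≤ b) : Qb86 B S b z ≤ (1 / 2) ^ (b - p.val) := by
  rw [Qb86_eq hn hb]
  have hz : refl86 z ≠ 0 := by
    intro h
    apply hp
    have := congrFun h p.rev
    unfold refl86 at this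
    rwa [Fin.rev_rev] at this
  refine le_trans ?_ (retreat86 (S := S) hB (refl86 z) hz (b - p.val))
  rw [pr_eq86, pr_eq86]
  refine Finset.sum_le_sum fun w _ => mul_le_mul_of_nonneg_left ?_ (Bwd.uw_nonneg B S w)
  have h2 := tp_refl86 z p hp
  refine I86_mono fun h => ?_
  have h' : tp (act (mm (CutSeq.ext w) S n) (refl86 z)) ≤ n - b := h
  show tp (act (mm (CutSeq.ext w) S n) (refl86 z)) + (b - p.val) ≤ tp (refl86 z)
  have := p.isLt
  omega

/-- probability that the front stays below `T` during `S` letters -/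
noncomputable def nr86 (B : ℕ) {n : ℕ} (T : ℕ) : ℕ → V n → ℝ
  | 0, y => I86 (tp y < T)
  | S + 1, y => I86 (tp y < T) * av86 B fun p => nr86 B T S (Bwd.lt p y)

/-- strong Markov: either the front stays below `T`, or it has to retreat -/
theorem ea_le_nr86 {B n T a : ℕ} (hB : 0 < B) (hT : 0 < T) (S : ℕ) : ∀ y : V n,
    ea86 B S (fun x => I86 (tp x + a ≤ T)) y ≤ nr86 B T S y + (1 / 2) ^ a := by
  have key : ∀ (S : ℕ) (y : V n), T ≤ tp y →
      ea86 B S (fun x => I86 (tp x + a ≤ T)) y ≤ (1 / 2) ^ a := by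
    intro S y hy
    have hy0 : y ≠ 0 := by
      intro h
      rw [h] at hy
      have : tp (0 : V n) ≤ 0 := Bwd.tp_le_of _ _ fun _ _ => rfl
      omega
    refine le_trans ?_ (retreat86 (S := S) hB y hy0 a)
    rw [pr_eq86]
    unfold ea86
    refine Finset.sum_le_sum fun w _ => mul_le_mul_of_nonneg_left ?_ (Bwd.uw_nonneg B S w)
    exact I86_mono fun h => le_trans h hy
  have nrn : ∀ (S : ℕ) (y : V n), 0 ≤ nr86 B T S y := by
    intro S
    induction S with
    | zero =>
      intro y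
      exact I86_nonneg _
    | succ S ih =>
      intro y
      rw [nr86]
      refine mul_nonneg (I86_nonneg _) ?_
      unfold av86
      exact mul_nonneg (by positivity) (Finset.sum_nonneg fun p _ => ih _)
  induction S with
  | zero =>
    intro y
    rw [ea86_zero]
    rw [nr86]
    by_cases h : tp y < T
    · rw [I86_pos h]
      have : (0 : ℝ) ≤ (1 / 2) ^ a := by positivity
      have h3 : I86 (tp y + a ≤ T) ≤ 1 := by
        rw [← I86_pos trivial]
        exact I86_mono fun _ => trivial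
      linarith
    · have h2 := key 0 y (not_lt.mp h)
      rw [ea86_zero] at h2
      rw [I86_neg h, zero_add]
      exact h2
  | succ S ih =>
    intro y
    by_cases h : tp y < T
    · rw [ea86_succ]
      refine (av86_mono fun p _ => ih (Bwd.lt p y)).trans (le_of_eq ?_)
      rw [av86_add, av86_const hB]
      congr 1
      rw [nr86, I86_pos h, one_mul]
    · have h2 := key (S + 1) y (not_lt.mp h)
      have h3 := nrn (S + 1) y
      linarith

lemma zx_pad86 {n n' : ℕ} (h : n ≤ n') (y : V n) (k : ℕ) :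
    Bwd.zx (pad y : V n') k = Bwd.zx y k := by
  unfold Bwd.zx pad
  by_cases h1 : k < n
  · rw [dif_pos h1, dif_pos (lt_of_lt_of_le h1 h)]
    show (if h : k < n then y ⟨k, h⟩ else 0) = _
    rw [dif_pos h1]
  · rw [dif_neg h1]
    by_cases h2 : k < n'
    · rw [dif_pos h2]
      show (if h : k < n then y ⟨k, h⟩ else 0) = _
      rw [dif_neg h1]
    · rw [dif_neg h2]

lemma tp_pad86 {n n' : ℕ} (h : n ≤ n') (y : V n) : tp (pad y : V n') = tp y := by
  apply le_antisymm
  · refine Bwd.tp_le_of _ _ fun k hk => ?_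
    unfold pad
    by_cases h1 : k.val < n
    · rw [dif_pos h1]
      exact Bwd.eq_zero_of_tp_le y ⟨k.val, h1⟩ hk
    · rw [dif_neg h1]
  · refine Bwd.tp_le_of _ _ fun k hk => ?_
    have h2 := Bwd.eq_zero_of_tp_le (pad y : V n') ⟨k.val, lt_of_lt_of_le k.isLt h⟩ hk
    unfold pad at h2
    rw [dif_pos k.isLt] at h2
    exact h2

/-- one letter commutes with the padding while the front is below `n` -/
lemma pad_lt86 {n n' : ℕ} (h : n ≤ n') (y : V n) (hy : tp y < n) (p : ℕ × ZMod 2) :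
    (pad (Bwd.lt p y) : V n') = Bwd.lt p (pad y : V n') := by
  funext k
  show (if h : k.val < n then Bwd.lt p y ⟨k.val, h⟩ else 0) =
    (if h : k.val < n then y ⟨k.val, h⟩ else 0) +
      if k.val = p.1 + 1 then p.2 * Bwd.zx (pad y : V n') p.1 else 0
  rw [zx_pad86 h]
  by_cases h1 : k.val < n
  · rw [dif_pos h1, dif_pos h1]
    rfl
  · rw [dif_neg h1, dif_neg h1, zero_add]
    by_cases h2 : k.val = p.1 + 1
    · rw [if_pos h2]
      have h3 : Bwd.zx y p.1 = 0 := by
        unfold Bwd.zx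
        by_cases h4 : p.1 < n
        · rw [dif_pos h4]
          exact Bwd.eq_zero_of_tp_le y ⟨p.1, h4⟩ (by show tp y ≤ p.1; omega)
        · rw [dif_neg h4]
      rw [h3, mul_zero]
    · rw [if_neg h2]

/-- staying below `T ≤ n` in the box is staying below `T` in the large system -/
theorem nr_le_ea86 {B n n' T : ℕ} (h : n ≤ n') (hT : T ≤ n) (S : ℕ) : ∀ y : V n,
    nr86 B T S y ≤ ea86 B S (fun x : V n' => I86 (tp x < T)) (pad y) := by
  induction S with
  | zero =>
    intro y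
    rw [ea86_zero, tp_pad86 h, nr86]
  | succ S ih =>
    intro y
    rw [nr86]
    by_cases h1 : tp y < T
    · rw [I86_pos h1, one_mul, ea86_succ]
      refine av86_mono fun p _ => ?_
      rw [← pad_lt86 h y (lt_of_lt_of_le h1 hT)]
      exact ih _
    · rw [I86_neg h1, zero_mul]
      unfold ea86
      exact Finset.sum_nonneg fun w _ => mul_nonneg (Bwd.uw_nonneg B (S + 1) w) (I86_nonneg _)

/-- (F2), comparison with the large system -/
theorem F2a_86 {B S b n a : ℕ} (hB : 0 < B) (hn : n ≤ B + 1) (hb : b ≤ n) (ha : a ≤ b)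
    (hn0 : 0 < n - b + a) (z : V n) :
    Qb86 B S b z ≤ (1 / 2) ^ a + pr (uw B S)
      {w | tp (act (mm (CutSeq.ext w) S (B + 1)) (pad (refl86 z) : V (B + 1))) < n - b + a} := by
  have h1 := ea_le_nr86 (B := B) (n := n) (T := n - b + a) (a := a) hB hn0 S (refl86 z)
  have h2 := nr_le_ea86 (B := B) (T := n - b + a) hn (by omega) S (refl86 z)
  rw [Qb86_eq hn hb, pr_eq86, pr_eq86]
  unfold ea86 at h1 h2
  have h3 : ∑ w : Wd B S, uw B S w * I86 (w ∈ {w : Wd B S |
      tp (act (mm (CutSeq.ext w) S n) (refl86 z)) ≤ n - b}) ≤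
      ∑ w : Wd B S, uw B S w * I86 (tp (act (mm (CutSeq.ext w) S n) (refl86 z)) + a ≤
        n - b + a) := by
    refine Finset.sum_le_sum fun w _ => mul_le_mul_of_nonneg_left ?_ (Bwd.uw_nonneg B S w)
    refine I86_mono fun h => ?_
    have h' : tp (act (mm (CutSeq.ext w) S n) (refl86 z)) ≤ n - b := h
    omega
  have h4 : ∑ w : Wd B S, uw B S w * I86 (tp (act (mm (CutSeq.ext w) S (B + 1))
        (pad (refl86 z) : V (B + 1))) < n - b + a) =
      ∑ w : Wd B S, uw B S w * I86 (w ∈ {w : Wd B S | tp (act (mm (CutSeq.ext w) S (B + 1))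
        (pad (refl86 z) : V (B + 1))) < n - b + a}) := rfl
  rw [← h4]
  linarith

/-- (F2): a difference whose first nonzero coordinate is below `b + h` is not killed -/
theorem F2_86 (u : ℝ) (hu : u < Pool.Agent.UTM.Es.vv) : ∃ θ C : ℝ, 0 < θ ∧ 1 ≤ C ∧
    ∀ (B S b n a h X : ℕ), 0 < B → n ≤ B + 1 → b ≤ n → a ≤ b → n + X ≤ B → 0 < n - b + a →
      ((h + a : ℕ) : ℝ) ≤ u * ((S : ℝ) / B) → ∀ (z : V n) (p : Fin n), z p ≠ 0 → p.val < b + h →
      Qb86 B S b z ≤ (1 / 2) ^ a + C * ((S : ℝ) + 1) *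
        (Real.exp (-(θ * ((S : ℝ) / B))) + Real.exp (-(θ * X))) := by
  obtain ⟨θ, C, hθ, hC, H⟩ := forward u hu
  refine ⟨θ, 4 * C, hθ, by linarith, ?_⟩
  intro B S b n a h X hB hn hb ha hX hn0 hu2 z p hp hpb
  have hBr : (0 : ℝ) < B := by exact_mod_cast hB
  set s : ℝ := (S : ℝ) / B with hs
  have hs0 : 0 ≤ s := by positivity
  have hz : (pad (refl86 z) : V (B + 1)) ≠ 0 := by
    intro h0
    have h1 := tp_refl86 z p hp
    rw [← tp_pad86 hn (refl86 z), h0] at h1
    have h2 : tp (0 : V (B + 1)) ≤ 0 := Bwd.tp_le_of _ _ fun _ _ => rfl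
    have := p.isLt
    omega
  have htp : n - p.val ≤ tp (pad (refl86 z) : V (B + 1)) := by
    rw [tp_pad86 hn]
    exact tp_refl86 z p hp
  have h1 := F2a_86 (S := S) hB hn hb ha hn0 z
  refine h1.trans (add_le_add (le_refl _) ?_)
  have hnonneg : 0 ≤ Real.exp (-(θ * s)) + Real.exp (-(θ * X)) := by positivity
  set y : V (B + 1) := pad (refl86 z) with hy
  set T : ℕ := n - b + a with hT
  have hpn := p.isLt
  have hyn : tp y ≤ n := by
    rw [hy, tp_pad86 hn]
    exact Bwd.tp_le _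
  have h2 := H B hB s hs0 S (T - tp y) X (le_trans (by
    have : T - tp y ≤ h + a := by omega
    exact_mod_cast this) hu2) y hz (by omega)
  have h3 : pr (uw B S) {w | tp (act (mm (CutSeq.ext w) S (B + 1)) y) < T} ≤
      pr (uw B S) {w | tp (act (mm (CutSeq.ext w) S (B + 1)) y) < tp y + (T - tp y)} := by
    refine Bwd.tot_ind_mono _ (Bwd.uw_nonneg B S) fun w hw => ?_
    have hw' : tp (act (mm (CutSeq.ext w) S (B + 1)) y) < T := hw
    show tp (act (mm (CutSeq.ext w) S (B + 1)) y) < tp y + (T - tp y)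
    omega
  refine h3.trans ?_
  have hBs : (B : ℝ) * s = (S : ℝ) := by
    rw [hs]
    field_simp
  rw [hBs] at h2
  have h5 := pois_mode S
  have h6 : (0 : ℝ) < 4 * (S : ℝ) + 4 := by positivity
  set q := pr (uw B S) {w | tp (act (mm (CutSeq.ext w) S (B + 1)) y) < tp y + (T - tp y)} with hq
  have hq0 : 0 ≤ q := by
    rw [hq, pr_eq86]
    exact Finset.sum_nonneg fun w _ => mul_nonneg (Bwd.uw_nonneg B S w) (I86_nonneg _)
  have h7 : 1 / (4 * (S : ℝ) + 4) * q ≤ C * (Real.exp (-(θ * s)) + Real.exp (-(θ * X))) :=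
    (mul_le_mul_of_nonneg_right h5 hq0).trans h2
  rw [div_mul_eq_mul_div, one_mul, div_le_iff₀ h6] at h7
  calc q ≤ C * (Real.exp (-(θ * s)) + Real.exp (-(θ * X))) * (4 * (S : ℝ) + 4) := h7
    _ = _ := by ring

/-! ### the form of the row (helper87): `qb` -/

lemma rl_eq86 {n : ℕ} (p : ℕ × ZMod 2) (z : V n) : CutSeq.NJ.rl p z = rl86 p z := by
  funext k
  unfold CutSeq.NJ.rl rl86
  by_cases h : k.val = p.1
  · rw [if_pos h, if_pos h, h]
  · rw [if_neg h, if_neg h]

/-- expectation of a function of the position after the word, newest letter first -/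
noncomputable def gw86 (B : ℕ) {n : ℕ} (S : ℕ) (F : V n → ℝ) (z : V n) : ℝ :=
  ∑ w : Wd B S, uw B S w * F (CutSeq.NJ.gl S w z)

lemma gw86_zero {B n : ℕ} (F : V n → ℝ) (y : V n) : gw86 B 0 F y = F y := by
  unfold gw86
  have h1 : ∀ w : Wd B 0, uw B 0 w * F (CutSeq.NJ.gl 0 w y) = F y := by
    intro w
    unfold uw
    rw [CutSeq.NJ.gl_zero, Fintype.card_fun, Fintype.card_fin, pow_zero, Nat.cast_one, div_one,
      one_mul]
  rw [Finset.sum_congr rfl fun w _ => h1 w, Finset.sum_const, Finset.card_univ, Fintype.card_fun,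
    Fintype.card_fin, pow_zero, one_smul]

lemma gw86_succ {B n S : ℕ} (F : V n → ℝ) (y : V n) :
    gw86 B (S + 1) F y = av86 B fun p => gw86 B S (fun x => F (rl86 p x)) y := by
  unfold gw86 av86
  rw [sum_cons86, Finset.mul_sum]
  refine Finset.sum_congr rfl fun p _ => ?_
  rw [Finset.mul_sum]
  refine Finset.sum_congr rfl fun w _ => ?_
  rw [uw_succ86 _ w, mul_assoc, CutSeq.NJ.gl_cons, rl_eq86]

/-- averages commute with expectations -/
lemma av_er86 {B n S : ℕ} (F : V n → ℝ) (y : V n) :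
    av86 B (fun p => er86 B S (fun x => F (rl86 p x)) y) =
      er86 B S (fun x => av86 B fun p => F (rl86 p x)) y := by
  unfold er86 av86
  simp only [Finset.mul_sum]
  rw [Finset.sum_comm]
  refine Finset.sum_congr rfl fun w _ => Finset.sum_congr rfl fun p _ => ?_
  ring

/-- the average over one letter commutes with the word -/
lemma er_comm86 {B n : ℕ} (S : ℕ) : ∀ (F : V n → ℝ) (y : V n),
    er86 B S (fun x => av86 B fun p => F (rl86 p x)) y = av86 B fun p => er86 B S F (rl86 p y) := by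
  induction S with
  | zero =>
    intro F y
    rw [er86_zero]
    congr 1
    funext p
    rw [er86_zero]
  | succ S ih =>
    intro F y
    rw [er86_succ]
    congr 1
    funext p
    rw [ih F, er86_succ]

theorem gw_eq86 {B n : ℕ} (S : ℕ) : ∀ (F : V n → ℝ) (z : V n), gw86 B S F z = er86 B S F z := by
  induction S with
  | zero =>
    intro F z
    rw [gw86_zero, er86_zero]
  | succ S ih =>
    intro F z
    rw [gw86_succ, er86_succ]
    have h1 : (av86 B fun p => gw86 B S (fun x => F (rl86 p x)) z) =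
        av86 B fun p => er86 B S (fun x => F (rl86 p x)) z := by
      congr 1
      funext p
      exact ih _ _
    rw [h1, av_er86, er_comm86]

theorem qb_eq86 {B S b n : ℕ} (z : V n) : CutSeq.NJ.qb B S b z = Qb86 B S b z := by
  unfold CutSeq.NJ.qb Qb86
  rw [pr_eq86, pr_eq86]
  exact gw_eq86 S (fun y : V n => I86 (∀ i : Fin n, i.val < b → y i = 0)) z

/-- (F1) -/
theorem F1 {B S b n : ℕ} (hB : 0 < B) (hn : n ≤ B + 1) (hb : b ≤ n) (z : V n) (p : Fin n)
    (hp : z p ≠ 0) (hpb : p.val ≤ b) : CutSeq.NJ.qb B S b z ≤ (1 / 2) ^ (b - p.val) := by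
  rw [qb_eq86]
  exact F1_86 hB hn hb z p hp hpb

/-- (F2), comparison with the large system -/
theorem F2a {B S b n a : ℕ} (hB : 0 < B) (hn : n ≤ B + 1) (hb : b ≤ n) (ha : a ≤ b)
    (hn0 : 0 < n - b + a) (z : V n) :
    CutSeq.NJ.qb B S b z ≤ (1 / 2) ^ a + pr (uw B S)
      {w | tp (act (mm (CutSeq.ext w) S (B + 1)) (pad (refl86 z) : V (B + 1))) < n - b + a} := by
  rw [qb_eq86]
  exact F2a_86 hB hn hb ha hn0 z

/-- (F2) -/
theorem F2 (u : ℝ) (hu : u < Pool.Agent.UTM.Es.vv) : ∃ θ C : ℝ, 0 < θ ∧ 1 ≤ C ∧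
    ∀ (B S b n a h X : ℕ), 0 < B → n ≤ B + 1 → b ≤ n → a ≤ b → n + X ≤ B → 0 < n - b + a →
      ((h + a : ℕ) : ℝ) ≤ u * ((S : ℝ) / B) → ∀ (z : V n) (p : Fin n), z p ≠ 0 → p.val < b + h →
      CutSeq.NJ.qb B S b z ≤ (1 / 2) ^ a + C * ((S : ℝ) + 1) *
        (Real.exp (-(θ * ((S : ℝ) / B))) + Real.exp (-(θ * X))) := by
  obtain ⟨θ, C, hθ, hC, H⟩ := F2_86 u hu
  refine ⟨θ, C, hθ, hC, ?_⟩
  intro B S b n a h X hB hn hb ha hX hn0 hu2 z p hp hpb
  rw [qb_eq86]
  exact H B S b n a h X hB hn hb ha hX hn0 hu2 z p hp hpb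

end Pool.Agent.NJ
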