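import Pool.Agent.CutSeq.Ent
import Pool.Agent.CutSeq.Mod2
import Pool.Agent.NJ.B.Defs16
import Pool.Agent.NJ.Drop38

/-!
S19271 / target B: holes.  Given the history of level `n` the row of level `n` is uniform on `TT`,
hence prefixes of the row are uniform on the prefixes of `TT`, and a dimension increment `k`
costs a factor `2 ^ (-k)` of the mass.  `hH66` is the hypothesis `hH` of `drop_core38`.
-/

set_option autoImplicit false

namespace Pool.Agent.NJ

open Finset Pool.Agent.CutSeq

/-- size of a finite space -/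
theorem card_map66 {A : Type*} [AddCommGroup A] [Module (ZMod 2) A] [Finite A]
    (S : Submodule (ZMod 2) A) :
    (Nat.card S : ℝ) = 2 ^ (Module.finrank (ZMod 2) S) := by
  classical
  have : Fintype S := Fintype.ofFinite S
  rw [Nat.card_eq_fintype_card, Module.card_eq_pow_finrank (K := ZMod 2), ZMod.card]
  push_cast
  rfl

/-- mass of a fibre of a linear map under the uniform law of a subspace, in the image -/
theorem sum_uT_in66 {n : ℕ} {A : Type*} [AddCommGroup A] [Module (ZMod 2) A] [Finite A]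
    [DecidableEq A] (T : Submodule (ZMod 2) (V n)) (f : V n →ₗ[ZMod 2] A) (x : A)
    (hx : x ∈ T.map f) :
    (∑ r : V n, if f r = x then uT T r else 0) * 2 ^ (Module.finrank (ZMod 2) (T.map f)) = 1 := by
  classical
  have : Fintype A := Fintype.ofFinite A
  have key : ∀ y ∈ T.map f, (∑ r : V n, if f r = y then uT T r else 0) =
      ∑ r : V n, if f r = 0 then uT T r else 0 := by
    intro y hy
    obtain ⟨t, ht, rfl⟩ := hy
    rw [← Equiv.sum_comp (Equiv.addRight t) (fun r => if f r = f t then uT T r else 0)]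
    refine Finset.sum_congr rfl fun r _ => ?_
    have h1 : (f (r + t) = f t) ↔ f r = 0 := by
      rw [map_add]
      constructor
      · intro h
        simpa using h
      · intro h
        rw [h, zero_add]
    have h2 : uT T (r + t) = uT T r := by
      unfold uT
      have : r + t ∈ T ↔ r ∈ T := by
        constructor
        · intro h
          have := T.sub_mem h ht
          simpa using this
        · intro h
          exact T.add_mem h ht
      simp only [this]
    simp only [Equiv.coe_addRight, h1, h2]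
  have hout : ∀ y, y ∉ T.map f → (∑ r : V n, if f r = y then uT T r else 0) = 0 := by
    intro y hy
    refine Finset.sum_eq_zero fun r _ => ?_
    by_cases h : f r = y
    · rw [if_pos h]
      unfold uT
      rw [if_neg]
      intro hr
      exact hy ⟨r, hr, h⟩
    · rw [if_neg h]
  have htot : (∑ y : A, ∑ r : V n, if f r = y then uT T r else 0) = 1 := by
    rw [Finset.sum_comm]
    simp only [Finset.sum_ite_eq, Finset.mem_univ, if_true]
    exact sum_uT T
  set c : ℝ := ∑ r : V n, if f r = 0 then uT T r else 0 with hc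
  have h3 : (∑ y : A, if y ∈ T.map f then c else 0) = 1 := by
    rw [← htot]
    refine Finset.sum_congr rfl fun y _ => ?_
    by_cases hy : y ∈ T.map f
    · rw [if_pos hy, key y hy]
    · rw [if_neg hy, hout y hy]
  have h4 : (∑ y : A, if y ∈ T.map f then c else 0) = (Nat.card (T.map f) : ℝ) * c := by
    rw [← Finset.sum_filter, Finset.sum_const, nsmul_eq_mul, Nat.card_eq_fintype_card,
      Fintype.card_subtype]
  rw [key x hx, ← card_map66, mul_comm, ← h4, h3]

/-- mass of a fibre off the image -/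
theorem sum_uT_out66 {n : ℕ} {A : Type*} [AddCommGroup A] [Module (ZMod 2) A]
    [DecidableEq A] (T : Submodule (ZMod 2) (V n)) (f : V n →ₗ[ZMod 2] A) (x : A)
    (hx : x ∉ T.map f) :
    (∑ r : V n, if f r = x then uT T r else 0) = 0 := by
  classical
  refine Finset.sum_eq_zero fun r _ => ?_
  by_cases h : f r = x
  · rw [if_pos h]
    unfold uT
    rw [if_neg]
    intro hr
    exact hx ⟨r, hr, h⟩
  · rw [if_neg h]

/-- a finer linear map with image dimension larger by `k` has fibres lighter by `2 ^ (-k)` -/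
theorem sum_uT_le66 {n k : ℕ} {A A' : Type*} [AddCommGroup A] [Module (ZMod 2) A] [Finite A]
    [DecidableEq A] [AddCommGroup A'] [Module (ZMod 2) A'] [Finite A'] [DecidableEq A']
    (T : Submodule (ZMod 2) (V n)) (f : V n →ₗ[ZMod 2] A) (g : V n →ₗ[ZMod 2] A')
    (hfg : ∀ x y, f x = f y → g x = g y)
    (hk : k + Module.finrank (ZMod 2) (T.map g) ≤ Module.finrank (ZMod 2) (T.map f)) (x : V n) :
    (∑ r : V n, if f r = f x then uT T r else 0) * 2 ^ k ≤
      ∑ r : V n, if g r = g x then uT T r else 0 := by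
  classical
  by_cases hx : f x ∈ T.map f
  · have hx2 : g x ∈ T.map g := by
      obtain ⟨t, ht, h⟩ := hx
      exact ⟨t, ht, hfg _ _ h⟩
    have h1 := sum_uT_in66 T f (f x) hx
    have h2 := sum_uT_in66 T g (g x) hx2
    set a : ℝ := ∑ r : V n, if f r = f x then uT T r else 0 with ha
    set b : ℝ := ∑ r : V n, if g r = g x then uT T r else 0 with hb
    have ha0 : 0 ≤ a := by
      by_contra hneg
      have : a * 2 ^ (Module.finrank (ZMod 2) (T.map f)) < 0 :=
        mul_neg_of_neg_of_pos (not_le.1 hneg) (by positivity)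
      rw [h1] at this
      exact absurd this (by norm_num)
    have h3 : a * 2 ^ k * 2 ^ (Module.finrank (ZMod 2) (T.map g)) ≤
        b * 2 ^ (Module.finrank (ZMod 2) (T.map g)) := by
      rw [h2, ← h1, mul_assoc, ← pow_add]
      exact mul_le_mul_of_nonneg_left (pow_le_pow_right₀ (by norm_num) hk) ha0
    exact le_of_mul_le_mul_right h3 (by positivity)
  · rw [sum_uT_out66 T f (f x) hx, zero_mul]
    refine Finset.sum_nonneg fun r _ => ?_
    split
    · unfold uT
      split <;> positivity
    · exact le_rfl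

section Word

variable {M L : ℕ} {C : Type*}

/-- the mass of a fibre through the uniform law of the row given the history -/
theorem mass_row66 {n l : ℕ} {A : Type*} [AddCommGroup A] [Module (ZMod 2) A] [DecidableEq A]
    (hl : l ≤ L) (P : V n →ₗ[ZMod 2] A) (w : Wd M L → ℝ)
    (hw : ∀ ω ω', Same n l ω ω' → w ω = w ω')
    (Y : Wd M L → C) [DecidableEq C] (hY : ∀ ω ω', Same n l ω ω' → Y ω = Y ω') (x : V n) (y : C) :
    mass w (fun ω => (P (row (ext ω) l n), Y ω)) (P x, y) =
      ∑ ω, (if Y ω = y then w ω else 0) *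
        ∑ r : V n, (if P r = P x then uT (TT (ext ω) l n) r else 0) := by
  classical
  set f' : Wd M L → ℝ := fun ω => if Y ω = y then w ω else 0 with hf'
  have hf'S : ∀ ω ω', Same n l ω ω' → f' ω = f' ω' := by
    intro ω ω' h
    simp only [hf', hY ω ω' h, hw ω ω' h]
  have h1 : mass w (fun ω => (P (row (ext ω) l n), Y ω)) (P x, y) =
      ∑ ω, ∑ r : V n, (if P r = P x then
        f' ω * (if row (ext ω) l n = r then 1 else 0) else 0) := by
    unfold mass
    refine Finset.sum_congr rfl fun ω _ => ?_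
    rw [Finset.sum_eq_single (row (ext ω) l n)]
    · simp only [if_true, mul_one, hf', Prod.mk.injEq]
      by_cases h1 : P (row (ext ω) l n) = P x <;> by_cases h2 : Y ω = y <;>
        simp [h1, h2]
    · intro r _ hr
      rw [if_neg (fun h => hr h.symm : ¬ row (ext ω) l n = r), mul_zero]
      exact ite_self 0
    · intro h
      exact absurd (Finset.mem_univ _) h
  rw [h1, Finset.sum_comm]
  have h2 : ∀ r : V n, ∑ ω, (if P r = P x then
        f' ω * (if row (ext ω) l n = r then 1 else 0) else 0) =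
      ∑ ω, (if P r = P x then f' ω * uT (TT (ext ω) l n) r else 0) := by
    intro r
    by_cases h : P r = P x
    · simp only [h, if_true]
      exact row_uniform n l hl f' hf'S r
    · simp only [h, if_false]
  rw [Finset.sum_congr rfl fun r _ => h2 r, Finset.sum_comm]
  refine Finset.sum_congr rfl fun ω _ => ?_
  rw [Finset.mul_sum]
  refine Finset.sum_congr rfl fun r _ => ?_
  by_cases h : P r = P x
  · rw [if_pos h, if_pos h]
  · rw [if_neg h, if_neg h, mul_zero]

/-- **holes, letter model**, for a weight of the level-`n` history, at one value `y` of the data -/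
theorem hole66 {n l k : ℕ} {A A' : Type*} [AddCommGroup A] [Module (ZMod 2) A] [Finite A]
    [AddCommGroup A'] [Module (ZMod 2) A'] [Finite A'] (hl : l ≤ L)
    (P : V n →ₗ[ZMod 2] A) (Q : V n →ₗ[ZMod 2] A') (hPQ : ∀ x y, P x = P y → Q x = Q y)
    (w : Wd M L → ℝ) (hw0 : ∀ ω, 0 ≤ w ω) (hw : ∀ ω ω', Same n l ω ω' → w ω = w ω')
    (Y : Wd M L → C) (hY : ∀ ω ω', Same n l ω ω' → Y ω = Y ω') (x : V n) (y : C)
    (hk : ∀ ω, w ω ≠ 0 → Y ω = y → k + Module.finrank (ZMod 2) ((TT (ext ω) l n).map Q) ≤
      Module.finrank (ZMod 2) ((TT (ext ω) l n).map P)) :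
    mass w (fun ω => (P (row (ext ω) l n), Y ω)) (P x, y) * 2 ^ k ≤
      mass w (fun ω => (Q (row (ext ω) l n), Y ω)) (Q x, y) := by
  classical
  rw [mass_row66 hl P w hw Y hY x y, mass_row66 hl Q w hw Y hY x y, Finset.sum_mul]
  refine Finset.sum_le_sum fun ω _ => ?_
  by_cases h0 : Y ω = y
  · rw [if_pos h0, mul_assoc]
    by_cases h1 : w ω = 0
    · rw [h1, zero_mul, zero_mul]
    · exact mul_le_mul_of_nonneg_left (sum_uT_le66 (TT (ext ω) l n) P Q hPQ (hk ω h1 h0) x) (hw0 ω)
  · rw [if_neg h0, zero_mul, zero_mul, zero_mul]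

/-- prefixes by truncation and by masking carry the same information -/
theorem pfx_eq_iff66 {n b : ℕ} (hb : b ≤ n) (x y : V n) :
    B.pfx b x = B.pfx b y ↔ pz38 b x = pz38 b y := by
  constructor
  · intro h
    funext j
    simp only [pz38]
    by_cases hj : j.val < b
    · rw [if_pos hj, if_pos hj]
      have := congrFun h ⟨j.val, hj⟩
      simpa only [B.pfx, j.isLt, dif_pos] using this
    · rw [if_neg hj, if_neg hj]
  · intro h
    funext j
    have hj : j.val < n := lt_of_lt_of_le j.isLt hb
    have := congrFun h ⟨j.val, hj⟩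
    simp only [pz38, j.isLt, if_true] at this
    simpa only [B.pfx, hj, dif_pos] using this

/-- **the hypothesis `hH` of `drop_core38` in the letter model** -/
theorem hH66 {n l b h : ℕ} {γ : Type*} (hl : l ≤ L) (hbn : b + h ≤ n) (w : Wd M L → ℝ)
    (hw0 : ∀ ω, 0 ≤ w ω) (hw : ∀ ω ω', Same n l ω ω' → w ω = w ω')
    (D : Wd M L → C) (hD : ∀ ω ω', Same n l ω ω' → D ω = D ω')
    (H : Wd M L → γ) (hH : ∀ ω ω', Same n l ω ω' → H ω = H ω') (k : Wd M L → ℕ)
    (hk : ∀ ω, w ω ≠ 0 → ∀ ω', w ω' ≠ 0 → D ω' = D ω → H ω' = H ω →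
      k ω + B.dT (ext ω') l n b ≤ B.dT (ext ω') l n (b + h)) :
    ∀ ω, w ω ≠ 0 →
      mass w (fun ω' => (pz38 (b + h) (row (ext ω') l n), D ω', H ω'))
          (pz38 (b + h) (row (ext ω) l n), D ω, H ω) * 2 ^ k ω ≤
        mass w (fun ω' => (pz38 b (row (ext ω') l n), D ω', H ω'))
          (pz38 b (row (ext ω) l n), D ω, H ω) := by
  intro ω hω
  have h1 := hole66 (k := k ω) hl (B.pfxL n (b + h)) (B.pfxL n b)
    (fun x y hxy => by
      have h2 : B.pfx (b + h) x = B.pfx (b + h) y := hxy
      rw [pfx_eq_iff66 hbn] at h2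
      show B.pfx b x = B.pfx b y
      rw [pfx_eq_iff66 (by omega)]
      exact pz38_eq_of_le (by omega) h2)
    w hw0 hw (fun ω' => (D ω', H ω')) (fun ω' ω'' hs => by rw [hD _ _ hs, hH _ _ hs])
    (row (ext ω) l n) (D ω, H ω)
    (fun ω' hω' h2 => hk ω hω ω' hω' (Prod.mk.inj h2).1 (Prod.mk.inj h2).2)
  have h2 : ∀ b' ≤ n, mass w (fun ω' => (B.pfxL n b' (row (ext ω') l n), D ω', H ω'))
      (B.pfxL n b' (row (ext ω) l n), D ω, H ω) =
      mass w (fun ω' => (pz38 b' (row (ext ω') l n), D ω', H ω'))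
          (pz38 b' (row (ext ω) l n), D ω, H ω) := by
    intro b' hb'
    refine mass_congr w _ _ _ _ fun ω' _ => ?_
    simp only [Prod.mk.injEq]
    refine and_congr ?_ Iff.rfl
    exact pfx_eq_iff66 hb' _ _
  rw [← h2 (b + h) hbn, ← h2 b (by omega)]
  exact h1

/-- the dimension of prefixes grows -/
theorem dT_mono66 (α : Seq) (l n : ℕ) {b c : ℕ} (h : b ≤ c) (hc : c ≤ n) :
    B.dT α l n b ≤ B.dT α l n c := by
  unfold B.dT
  have h1 : (TT α l n).map (B.pfxL n b) =
      ((TT α l n).map (B.pfxL n c)).map (B.pfxL c b) := by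
    rw [← Submodule.map_comp]
    congr 1
    refine LinearMap.ext fun x => ?_
    funext j
    show B.pfx b x j = B.pfx b (B.pfx c x) j
    have hj : j.val < n := by omega
    have hj2 : j.val < c := by omega
    simp only [B.pfx, hj, hj2, dif_pos]
  rw [h1]
  exact Submodule.finrank_map_le _ _

/-- the history of level `n` as data -/
def hist66 (n l : ℕ) (ω : Wd M L) : Fin l → ℕ × ZMod 2 := fun i => msk n (ext ω i.val)

theorem hist66_eq_iff (n l : ℕ) (ω ω' : Wd M L) : hist66 n l ω = hist66 n l ω' ↔ Same n l ω ω' := by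
  constructor
  · intro h i hi
    exact congrFun h ⟨i, hi⟩
  · intro h
    funext i
    exact h i.val i.isLt

/-- **`hH` of `drop_core38` with the full history of level `n`** -/
theorem hH66' {n l b h : ℕ} (hl : l ≤ L) (hbn : b + h ≤ n) (w : Wd M L → ℝ)
    (hw0 : ∀ ω, 0 ≤ w ω) (hw : ∀ ω ω', Same n l ω ω' → w ω = w ω')
    (D : Wd M L → C) (hD : ∀ ω ω', Same n l ω ω' → D ω = D ω') :
    ∀ ω, w ω ≠ 0 →
      mass w (fun ω' => (pz38 (b + h) (row (ext ω') l n), D ω', hist66 n l ω'))
          (pz38 (b + h) (row (ext ω) l n), D ω, hist66 n l ω) *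
          2 ^ (B.dT (ext ω) l n (b + h) - B.dT (ext ω) l n b) ≤
        mass w (fun ω' => (pz38 b (row (ext ω') l n), D ω', hist66 n l ω'))
          (pz38 b (row (ext ω) l n), D ω, hist66 n l ω) := by
  refine hH66 hl hbn w hw0 hw D hD (hist66 n l) (fun ω ω' hs => (hist66_eq_iff n l ω ω').2 hs)
    (fun ω => B.dT (ext ω) l n (b + h) - B.dT (ext ω) l n b) ?_
  intro ω _ ω' _ _ hH
  have hs := (hist66_eq_iff n l ω' ω).1 hH
  have h1 : ∀ b', B.dT (ext ω') l n b' = B.dT (ext ω) l n b' := by
    intro b'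
    unfold B.dT
    rw [hs.TT_eq]
  rw [h1, h1]
  have := dT_mono66 (ext ω) l n (Nat.le_add_right b h) hbn
  omega

end Word

end Pool.Agent.NJ
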