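import Pool.Agent.NJ.Stg59

/-!
S19271, no junk: iteration of the stage theorem; `no_junk` with a polynomial threshold.
-/

set_option autoImplicit false

namespace Pool.Agent.CutSeq.NJ

open Finset

variable {B L : ℕ}

theorem ind_univ59 {Ω : Type*} (w : Ω → ℝ) : ind Set.univ w = w := Set.indicator_univ w

theorem pr_mono59 {Ω : Type*} [Fintype Ω] {G G' : Set Ω} (w : Ω → ℝ) (hw : ∀ ω, 0 ≤ w ω)
    (h : G ⊆ G') : pr w G ≤ pr w G' := by
  unfold pr tot ind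
  exact Finset.sum_le_sum fun ω _ => Set.indicator_le_indicator_of_subset h hw ω

/-- the first `n` rows of an array with `m` rows, as a homomorphism -/
def truH {n m : ℕ} (h : n ≤ m) : Un m →+ Un n where
  toFun := fun x k => x ⟨k.val, lt_of_lt_of_le k.isLt h⟩
  map_zero' := rfl
  map_add' _ _ := rfl

theorem truH_surjective {n m : ℕ} (h : n ≤ m) : Function.Surjective (truH h) := by
  intro y
  refine ⟨fun k => if hk : k.val < n then y ⟨k.val, hk⟩ else 0, ?_⟩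
  funext k
  simp [truH]

theorem truH_card {n m : ℕ} (h : n ≤ m) (y : Un n) :
    Nat.card {x : Un m // truH h x = y} * Fintype.card (Un n) = Fintype.card (Un m) := by
  classical
  have h0 : ∀ y' : Un n, Nat.card {x : Un m // truH h x = y'}
      = (univ.filter fun x : Un m => truH h x = y').card := fun y' => by
    rw [Nat.card_eq_fintype_card, Fintype.card_subtype]
  have h1 := Finset.card_eq_sum_card_fiberwise (f := truH h) (s := (univ : Finset (Un m)))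
    (t := (univ : Finset (Un n))) (fun _ _ => by simp)
  have h2 : ∀ y' : Un n, (univ.filter fun x : Un m => truH h x = y').card
      = (univ.filter fun x : Un m => truH h x = y).card := by
    intro y'
    exact AddMonoidHom.card_fiber_eq_of_mem_range (truH h) (truH_surjective h y')
      (truH_surjective h y)
  rw [h0, ← Finset.card_univ (α := Un m), h1, Finset.sum_congr rfl (fun y' _ => h2 y'),
    Finset.sum_const, Finset.card_univ, smul_eq_mul, mul_comm]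

/-- smaller windows have smaller entropies -/
theorem K0_mm_mono59 (w : Wd B L → ℝ) (hw : ∀ ω, 0 ≤ w ω) {n n' : ℕ} (h : n ≤ n') :
    K0 w (fun ω => mm (ext ω) L n) ≤ K0 w (fun ω => mm (ext ω) L n') :=
  KK_map w hw (fun ω => mm (ext ω) L n') (fun _ => ()) (truH h) (truH_card h)

/-- the law of the window `[0, n)` is the law of the standard window -/
theorem K0_mm_tau59 (n : ℕ) (hn : n ≤ B) (G : Set (Wd B L)) :
    K0 (ind {ω | tau B L ω ∈ G} (uw B L)) (fun ω => mm (ext ω) L n)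
      = K0 (ind G (uw B L)) (fun ω => wm (ext ω) L 1 n) := by
  classical
  unfold K0
  refine KK_law _ _ _ _ _ _ fun a b => ?_
  unfold mass
  refine Fintype.sum_equiv (tau B L) _ _ fun ω => ?_
  have h1 : wm (ext (tau B L ω)) L 1 n = mm (ext ω) L n := by
    rw [← wm_zero]
    exact wm_tau 0 n (by omega) ω
  have h2 : ind {ω | tau B L ω ∈ G} (uw B L) ω = ind G (uw B L) (tau B L ω) := rfl
  by_cases h : mm (ext ω) L n = a
  · have h3 : (mm (ext ω) L n, ()) = (a, b) := by rw [h]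
    have h4 : (wm (ext (tau B L ω)) L 1 n, ()) = (a, b) := by rw [h1]; exact h3
    rw [if_pos h3, if_pos h4, h2]
  · have h3 : ¬ (mm (ext ω) L n, ()) = (a, b) := fun h' => h (congrArg Prod.fst h')
    have h4 : ¬ (wm (ext (tau B L ω)) L 1 n, ()) = (a, b) := by rw [h1]; exact h3
    rw [if_neg h3, if_neg h4]

/-- the start -/
theorem StG.start59 (n0 : ℕ) (K : ℝ)
    (h : K0 (uw B L) (fun ω => wm (ext ω) L 1 n0) ≤ K) : StG B L n0 K 0 (fun _ => Set.univ) where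
  fam :=
    { lev := fun _ _ _ _ _ => Iff.rfl
      sub := fun _ _ _ _ _ _ _ => Set.mem_univ _
      ref := fun _ _ _ _ => Set.mem_univ _ }
  ent := by
    rw [ind_univ59]
    exact h
  loss := by
    have : {ω : Wd B L | ∃ a < B, rot B L a ω ∉ (Set.univ : Set (Wd B L))} = ∅ := by
      ext ω
      simp
    rw [this]
    unfold pr tot ind
    simp

/-- geometric sums -/
theorem geom_bound59 (j : ℕ) : ∑ i ∈ range j, (9 / 10 : ℝ) ^ i ≤ 10 := by
  have h2 : (∑ i ∈ range j, (9 / 10 : ℝ) ^ i) * ((9 / 10 : ℝ) - 1) = (9 / 10 : ℝ) ^ j - 1 :=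
    geom_sum_mul _ j
  have := pow_nonneg (show (0 : ℝ) ≤ 9 / 10 by norm_num) j
  linarith

/-- **the iteration**: as long as the entropy is at least `z N`, the stage theorem applies -/
theorem iterate59 {ε₀ C : ℝ} (hC : 1 ≤ C) (hst : StageAt ε₀ C) (ε : ℝ) (hε : 0 < ε)
    (hε0 : ε ≤ ε₀) (z : ℝ) (hz : 0 < z) :
    ∃ N₀ : ℕ, ∀ N ≥ N₀, ∀ L n0 : ℕ, 2 * ((4 * N : ℕ) * Real.log N) ≤ L →
      (N : ℝ) / 2 + 10 * C * ε * N ≤ n0 → n0 ≤ 2 * N →
      ∀ (p : ℝ) (G : ℕ → Set (Wd (4 * N) L)), StG (4 * N) L n0 (ε ^ 40 * N ^ 2) p G →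
      ∃ (n1 : ℕ) (G' : ℕ → Set (Wd (4 * N) L)), n1 ≤ n0 ∧ (n0 : ℝ) ≤ n1 + 10 * C * ε * N ∧
        StG (4 * N) L n1 (z * N) (p + 10 * C * ε) G' := by
  have hC0 : 0 < C := by linarith
  -- the threshold for `N`
  have hzC : 0 < z / C := div_pos hz hC0
  obtain ⟨N₁, hN₁⟩ := exists_nat_ge (C / (z / C) ^ 39)
  refine ⟨max N₁ 1, fun N hN L n0 hL hn hn2 p G hG => ?_⟩
  have hN1 : N₁ ≤ N := (le_max_left _ _).trans hN
  have hN4 : 1 ≤ N := (le_max_right _ _).trans hN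
  have hNr : (1 : ℝ) ≤ N := by exact_mod_cast hN4
  have hN0 : (0 : ℝ) < N := by linarith
  have hbig : ∀ ε' : ℝ, 0 < ε' → z * N ≤ ε' ^ 40 * N ^ 2 → C ≤ ε' ^ 39 * N := by
    intro ε' h0 h1
    have h2 : z ≤ ε' ^ 40 * N := by
      have : z * N ≤ ε' ^ 40 * N * N := by
        calc z * N ≤ ε' ^ 40 * N ^ 2 := h1
          _ = ε' ^ 40 * N * N := by ring
      exact le_of_mul_le_mul_right this hN0
    rcases le_total ε' (z / C) with h3 | h3
    · have h4 : z ≤ (ε' ^ 39 * N) * (z / C) := by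
        calc z ≤ ε' ^ 40 * N := h2
          _ = (ε' ^ 39 * N) * ε' := by ring
          _ ≤ (ε' ^ 39 * N) * (z / C) := mul_le_mul_of_nonneg_left h3 (by positivity)
      have h5 : z * C ≤ (ε' ^ 39 * N) * z := by
        calc z * C ≤ (ε' ^ 39 * N) * (z / C) * C := mul_le_mul_of_nonneg_right h4 hC0.le
          _ = (ε' ^ 39 * N) * z := by field_simp
      nlinarith
    · have h4 : (z / C) ^ 39 ≤ ε' ^ 39 := pow_le_pow_left₀ hzC.le h3 39
      have h5 : C / (z / C) ^ 39 ≤ N := hN₁.trans (by exact_mod_cast hN1)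
      have h6 : C ≤ N * (z / C) ^ 39 := by
        rwa [div_le_iff₀ (by positivity)] at h5
      calc C ≤ N * (z / C) ^ 39 := h6
        _ ≤ N * ε' ^ 39 := mul_le_mul_of_nonneg_left h4 hN0.le
        _ = ε' ^ 39 * N := by ring
  have hpow0 : ∀ i : ℕ, 0 < (9 / 10 : ℝ) ^ i := fun i => by positivity
  have hpow1 : ∀ i : ℕ, (9 / 10 : ℝ) ^ i ≤ 1 := fun i => pow_le_one₀ (by norm_num) (by norm_num)
  -- the iteration
  have hit : ∀ j : ℕ, (∀ i < j, z * N ≤ ((9 / 10 : ℝ) ^ i * ε) ^ 40 * N ^ 2) →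
      ∃ (m : ℕ) (G' : ℕ → Set (Wd (4 * N) L)), m ≤ n0 ∧
      (n0 : ℝ) ≤ m + C * ε * (∑ i ∈ range j, (9 / 10 : ℝ) ^ i) * N ∧
      StG (4 * N) L m (((9 / 10 : ℝ) ^ j * ε) ^ 40 * N ^ 2)
        (p + C * ε * ∑ i ∈ range j, (9 / 10 : ℝ) ^ i) G' := by
    intro j
    induction j with
    | zero =>
      intro _
      refine ⟨n0, G, le_rfl, by simp, ?_⟩
      simpa using hG
    | succ j ih =>
      intro hj
      obtain ⟨m, G', hm, hm', hG'⟩ := ih fun i hi => hj i (by omega)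
      have hmN : N ≤ 2 * m := by
        have h1 := geom_bound59 j
        have h2 : C * ε * (∑ i ∈ range j, (9 / 10 : ℝ) ^ i) * N ≤ C * ε * 10 * N :=
          mul_le_mul_of_nonneg_right (mul_le_mul_of_nonneg_left h1 (by positivity)) hN0.le
        have h5 : (N : ℝ) ≤ 2 * m := by linarith
        exact_mod_cast h5
      have he1 : 0 < (9 / 10 : ℝ) ^ j * ε := mul_pos (hpow0 j) hε
      have he2 : (9 / 10 : ℝ) ^ j * ε ≤ ε₀ :=
        (mul_le_of_le_one_left hε.le (hpow1 j)).trans hε0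
      obtain ⟨m', G'', h1, h2, h3⟩ := hst ((9 / 10 : ℝ) ^ j * ε) he1 he2 N
        (hbig _ he1 (hj j (by omega))) L m hL hmN (hm.trans hn2) _ G' hG'
      refine ⟨m', G'', h1.trans hm, ?_, ?_⟩
      · rw [sum_range_succ]
        have : C * ε * (∑ i ∈ range j, (9 / 10 : ℝ) ^ i + (9 / 10 : ℝ) ^ j) * N
            = C * ε * (∑ i ∈ range j, (9 / 10 : ℝ) ^ i) * N + C * ((9 / 10 : ℝ) ^ j * ε) * N := by
          ring
        linarith
      · rw [sum_range_succ]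
        have e1 : (9 / 10 : ℝ) ^ (j + 1) * ε = 9 / 10 * ((9 / 10 : ℝ) ^ j * ε) := by
          rw [pow_succ]; ring
        have e2 : p + C * ε * (∑ i ∈ range j, (9 / 10 : ℝ) ^ i + (9 / 10 : ℝ) ^ j)
            = p + C * ε * (∑ i ∈ range j, (9 / 10 : ℝ) ^ i) + C * ((9 / 10 : ℝ) ^ j * ε) := by
          ring
        rw [e1, e2]
        exact h3
  -- the last stage
  have hex : ∃ j : ℕ, ((9 / 10 : ℝ) ^ j * ε) ^ 40 * N ^ 2 < z * N := by
    have ht : Filter.Tendsto (fun j : ℕ => ((9 / 10 : ℝ) ^ j * ε) ^ 40 * (N : ℝ) ^ 2)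
        Filter.atTop (nhds ((0 * ε) ^ 40 * (N : ℝ) ^ 2)) :=
      (((tendsto_pow_atTop_nhds_zero_of_lt_one (by norm_num) (by norm_num)).mul_const ε).pow
        40).mul_const _
    have h0 : ((0 : ℝ) * ε) ^ 40 * (N : ℝ) ^ 2 < z * N := by
      rw [zero_mul, zero_pow (by norm_num), zero_mul]
      positivity
    exact ((ht.eventually (gt_mem_nhds h0))).exists
  classical
  obtain ⟨m, G', hm, hm', hG'⟩ := hit (Nat.find hex) fun i hi => not_lt.1 (Nat.find_min hex hi)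
  have hs := geom_bound59 (Nat.find hex)
  refine ⟨m, G', hm, ?_, hG'.fam, hG'.ent.trans (Nat.find_spec hex).le, hG'.loss.trans ?_⟩
  · have h2 : C * ε * (∑ i ∈ range (Nat.find hex), (9 / 10 : ℝ) ^ i) * N ≤ C * ε * 10 * N :=
      mul_le_mul_of_nonneg_right (mul_le_mul_of_nonneg_left hs (by positivity)) hN0.le
    linarith
  · have h2 : C * ε * (∑ i ∈ range (Nat.find hex), (9 / 10 : ℝ) ^ i) ≤ C * ε * 10 :=
      mul_le_mul_of_nonneg_left hs (by positivity)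
    linarith

/-- **no junk** (polynomial threshold): if the entropy of the array of size `n0` is at most
`ε ^ 40 N ^ 2`, then off an event of probability `C ε` all arrays of size at most `n0 - C ε N` have
entropy at most `z N` -/
theorem no_junk59 (hs : StageThm) : ∃ C : ℝ, 1 ≤ C ∧ ∀ ε z : ℝ, 0 < ε → C * ε ≤ 1 → 0 < z →
    ∃ N₀ : ℕ, ∀ N ≥ N₀, ∀ B L n0 : ℕ, B = 4 * N → 2 * (B * Real.log N) ≤ L →
      (N : ℝ) / 2 + C * ε * N ≤ n0 → n0 ≤ 2 * N →
      K0 (uw B L) (fun ω => mm (ext ω) L n0) ≤ ε ^ 40 * N ^ 2 →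
      ∃ G : Set (Wd B L), pr (uw B L) Gᶜ ≤ C * ε ∧
        ∀ n : ℕ, n + C * ε * N ≤ n0 →
          K0 (ind G (uw B L)) (fun ω => mm (ext ω) L n) ≤ z * N := by
  obtain ⟨ε₀, C, hε₀, hC, hst⟩ := hs
  refine ⟨max (10 * C) (1 / ε₀), le_max_of_le_left (by linarith), fun ε z hε hε1 hz => ?_⟩
  set C1 := max (10 * C) (1 / ε₀) with hC1
  have hC10 : 0 < C1 := lt_of_lt_of_le (by linarith) (le_max_left _ _)
  have h2 : ε ≤ ε₀ := by
    have h3 : 1 / ε₀ ≤ C1 := le_max_right _ _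
    have h4 : 1 / ε₀ * ε ≤ 1 := (mul_le_mul_of_nonneg_right h3 hε.le).trans hε1
    rw [one_div, inv_mul_le_iff₀ hε₀, mul_one] at h4
    exact h4
  have h3 : 10 * C * ε ≤ C1 * ε := mul_le_mul_of_nonneg_right (le_max_left _ _) hε.le
  obtain ⟨N₀, hN₀⟩ := iterate59 hC hst ε hε h2 z hz
  refine ⟨max N₀ 1, fun N hN' B L n0 hBN hL hn hn2 hK => ?_⟩
  subst hBN
  have hN : N₀ ≤ N := (le_max_left _ _).trans hN'
  have hN1 : 1 ≤ N := (le_max_right _ _).trans hN'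
  have h3N : 10 * C * ε * N ≤ C1 * ε * N := mul_le_mul_of_nonneg_right h3 (by positivity)
  have huw : ∀ ω, 0 ≤ uw (4 * N) L ω := fun _ => by unfold uw; positivity
  have hB : n0 ≤ 4 * N := by omega
  have hstart : StG (4 * N) L n0 (ε ^ 40 * N ^ 2) 0 (fun _ => Set.univ) := by
    refine StG.start59 n0 _ ?_
    have e1 := K0_mm_tau59 (B := 4 * N) (L := L) n0 hB Set.univ
    have e2 : {ω : Wd (4 * N) L | tau (4 * N) L ω ∈ (Set.univ : Set (Wd (4 * N) L))}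
        = Set.univ := by
      ext; simp
    rw [e2, ind_univ59] at e1
    rw [← e1]
    exact hK
  obtain ⟨m, G, hm, hm', hG⟩ := hN₀ N hN L n0 hL (by linarith) hn2 0 _ hstart
  have hind : ∀ (S : Set (Wd (4 * N) L)) ω, 0 ≤ ind S (uw (4 * N) L) ω := fun S ω => by
    unfold ind
    exact Set.indicator_nonneg (fun _ _ => huw _) _
  refine ⟨{ω | tau (4 * N) L ω ∈ G m}, ?_, fun n hn' => ?_⟩
  · have e1 : pr (uw (4 * N) L) {ω | tau (4 * N) L ω ∈ G m}ᶜ = pr (uw (4 * N) L) (G m)ᶜ := by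
      unfold pr tot
      refine Fintype.sum_equiv (tau (4 * N) L) _ _ fun ω => ?_
      unfold ind
      by_cases h : tau (4 * N) L ω ∈ G m
      · rw [Set.indicator_of_notMem (by simpa using h), Set.indicator_of_notMem (by simpa using h)]
      · rw [Set.indicator_of_mem (by simpa using h), Set.indicator_of_mem (by simpa using h)]
        rfl
    rw [e1]
    have e2 : pr (uw (4 * N) L) (G m)ᶜ ≤
        pr (uw (4 * N) L) {ω | ∃ a < 4 * N, rot (4 * N) L a ω ∉ G m} :=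
      pr_mono59 _ huw fun ω hω => ⟨0, by omega, hω⟩
    exact e2.trans (hG.loss.trans (by linarith))
  · have hnm : n ≤ m := by
      have e4 : (n : ℝ) ≤ m := by linarith
      exact_mod_cast e4
    refine (K0_mm_mono59 _ (hind _) hnm).trans ?_
    rw [K0_mm_tau59 m (by omega)]
    exact hG.ent

/-- the form with one size -/
theorem no_junk59' (hs : StageThm) : ∃ C : ℝ, 1 ≤ C ∧ ∀ ε z : ℝ, 0 < ε → C * ε ≤ 1 → 0 < z →
    ∃ N₀ : ℕ, ∀ N ≥ N₀, ∀ B L n0 n : ℕ, B = 4 * N → 2 * (B * Real.log N) ≤ L → N ≤ 2 * n →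
      n0 ≤ 2 * N → (n : ℝ) + C * ε * N ≤ n0 →
      K0 (uw B L) (fun ω => mm (ext ω) L n0) ≤ ε ^ 40 * N ^ 2 →
      ∃ G : Set (Wd B L), pr (uw B L) Gᶜ ≤ C * ε ∧
        K0 (ind G (uw B L)) (fun ω => mm (ext ω) L n) ≤ z * N := by
  obtain ⟨C, hC, h⟩ := no_junk59 hs
  refine ⟨C, hC, fun ε z hε hε1 hz => ?_⟩
  obtain ⟨N₀, hN₀⟩ := h ε z hε hε1 hz
  refine ⟨N₀, fun N hN B L n0 n hB hL hn hn0 hs hK => ?_⟩
  have h1 : (N : ℝ) / 2 ≤ n := by
    have : (N : ℝ) ≤ 2 * n := by exact_mod_cast hn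
    linarith
  obtain ⟨G, hG, hG'⟩ := hN₀ N hN B L n0 hB hL (by linarith) hn0 hK
  exact ⟨G, hG, hG' n hs⟩

/-- the stage theorem, spelled out, gives `StageAt` -/
theorem stageAt_of59 {ε₀ C : ℝ} (h : ∀ e : ℝ, 0 < e → e ≤ ε₀ → ∀ N : ℕ, C ≤ e ^ 39 * N →
    ∀ B L n0 : ℕ, B = 4 * N → 2 * (B * Real.log N) ≤ L → N ≤ 2 * n0 → n0 ≤ 2 * N →
    ∀ (G : ℕ → Set (Wd B L)) (p : ℝ), Fam19 B L n0 G →
    K0 (ind (G n0) (uw B L)) (fun w => wm (ext w) L 1 n0) ≤ e ^ 40 * N ^ 2 →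
    pr (uw B L) {w | ∃ a < B, rot B L a w ∉ G n0} ≤ p →
    ∃ (G' : ℕ → Set (Wd B L)) (n2 : ℕ), (n0 : ℝ) - C * e * N ≤ n2 ∧ n2 ≤ n0 ∧ Fam19 B L n2 G' ∧
      K0 (ind (G' n2) (uw B L)) (fun w => wm (ext w) L 1 n2) ≤ (9 / 10 * e) ^ 40 * N ^ 2 ∧
      pr (uw B L) {w | ∃ a < B, rot B L a w ∉ G' n2} ≤ p + C * e) : StageAt ε₀ C := by
  intro ε h0 h1 N hN L n0 hL hn hn2 p G hG
  obtain ⟨G', n2, a1, a2, a3, a4, a5⟩ := h ε h0 h1 N hN (4 * N) L n0 rfl hL hn hn2 G p hG.fam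
    hG.ent hG.loss
  exact ⟨n2, G', a2, by linarith, ⟨a3, a4, a5⟩⟩

end Pool.Agent.CutSeq.NJ
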