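import Pool.Agent.CutSeq.Ent

/-!
Lemma C of the no jump page: the entropy defect of one bit is Lipschitz, in the square root of the
Jensen-Shannon divergence.

`Hf u v = u log (2u / (u + v)) + v log (2v / (u + v))` serves twice: the defect of a bit is the sum of
`Hf (p (0, z)) (p (1, z))` over `z`, and the Jensen-Shannon divergence of two laws is the sum of
`Hf (p x) (p' x)`.
-/

set_option autoImplicit false

namespace Pool.Agent.NJ

open Finset Pool.Agent.CutSeq

/-! #### the real function -/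

/-- `u log (2u / (u + v)) + v log (2v / (u + v))` -/
noncomputable def Hf (u v : ℝ) : ℝ := u * Real.log (2 * u / (u + v)) + v * Real.log (2 * v / (u + v))

theorem Hf_comm (u v : ℝ) : Hf u v = Hf v u := by
  unfold Hf
  rw [add_comm u v, add_comm (u * _)]

theorem Hf_zero_left (v : ℝ) (hv : 0 ≤ v) : Hf 0 v = v * Real.log 2 := by
  unfold Hf
  rcases hv.eq_or_lt with h | h
  · rw [← h]; simp
  · rw [zero_mul, zero_add, zero_add, mul_div_assoc, div_self h.ne', mul_one]

/-- `a log (a / b) ≥ a - b` -/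
theorem mul_log_ge34 {a b : ℝ} (ha : 0 ≤ a) (hb : 0 < b) :
    a - b ≤ a * Real.log (a / b) := by
  rcases ha.eq_or_lt with h0 | h0
  · rw [← h0, zero_mul]
    linarith
  · have h1 := Real.log_le_sub_one_of_pos (x := b / a) (by positivity)
    have h2 : Real.log (a / b) = -Real.log (b / a) := by
      rw [← Real.log_inv, inv_div]
    rw [h2]
    have h3 : a * Real.log (b / a) ≤ a * (b / a - 1) := mul_le_mul_of_nonneg_left h1 h0.le
    have h4 : a * (b / a - 1) = b - a := by
      field_simp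
    linarith

theorem Hf_nonneg {u v : ℝ} (hu : 0 ≤ u) (hv : 0 ≤ v) : 0 ≤ Hf u v := by
  rcases (add_nonneg hu hv).eq_or_lt with h | h
  · have h1 : u = 0 := by linarith
    have h2 : v = 0 := by linarith
    rw [h1, h2]
    simp [Hf]
  · have h1 := mul_log_ge34 (a := u) (b := (u + v) / 2) hu (by positivity)
    have h2 := mul_log_ge34 (a := v) (b := (u + v) / 2) hv (by positivity)
    have e1 : u / ((u + v) / 2) = 2 * u / (u + v) := by field_simp
    have e2 : v / ((u + v) / 2) = 2 * v / (u + v) := by field_simp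
    rw [e1] at h1
    rw [e2] at h2
    unfold Hf
    linarith

/-- `x log² x ≤ 4 (x log x - x + 1)` for `0 ≤ x ≤ 2` -/
theorem psi_ge {x : ℝ} (hx : 0 ≤ x) (hx2 : x ≤ 2) :
    x * Real.log x ^ 2 ≤ 4 * (x * Real.log x - x + 1) := by
  rcases hx.eq_or_lt with h | h
  · rw [← h]; simp
  · set y := Real.log x with hy
    have hxy : x = Real.exp y := (Real.exp_log h).symm
    have hy2 : y ≤ 2 := by
      have h1 := Real.log_le_sub_one_of_pos h
      linarith
    have h1 : 1 - y / 2 ≤ Real.exp (-(y / 2)) := by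
      have := Real.add_one_le_exp (-(y / 2))
      linarith
    have h2 : (1 - y / 2) ^ 2 ≤ Real.exp (-y) := by
      have h3 : Real.exp (-y) = Real.exp (-(y / 2)) ^ 2 := by
        rw [← Real.exp_nat_mul]
        congr 1
        push_cast
        ring
      rw [h3]
      exact pow_le_pow_left₀ (by linarith) h1 2
    have h4 : Real.exp y * Real.exp (-y) = 1 := by rw [← Real.exp_add]; simp
    have h5 : 0 < Real.exp y := Real.exp_pos y
    have h6 : Real.exp y * (1 - y / 2) ^ 2 ≤ 1 :=
      (mul_le_mul_of_nonneg_left h2 h5.le).trans h4.le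
    rw [hxy]
    nlinarith

theorem Hf_sq {u v : ℝ} (hu : 0 ≤ u) (hv : 0 ≤ v) :
    u * Real.log (2 * u / (u + v)) ^ 2 + v * Real.log (2 * v / (u + v)) ^ 2 ≤ 4 * Hf u v := by
  rcases (add_nonneg hu hv).eq_or_lt with h | h
  · have h1 : u = 0 := by linarith
    have h2 : v = 0 := by linarith
    rw [h1, h2]
    simp [Hf]
  · have h1 := psi_ge (x := 2 * u / (u + v)) (by positivity) (by
      rw [div_le_iff₀ h]; linarith)
    have h2 := psi_ge (x := 2 * v / (u + v)) (by positivity) (by
      rw [div_le_iff₀ h]; linarith)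
    set a := Real.log (2 * u / (u + v))
    set b := Real.log (2 * v / (u + v))
    have e1 : (u + v) / 2 * (2 * u / (u + v)) = u := by field_simp
    have e2 : (u + v) / 2 * (2 * v / (u + v)) = v := by field_simp
    have h3 := mul_le_mul_of_nonneg_left h1 (by positivity : (0 : ℝ) ≤ (u + v) / 2)
    have h4 := mul_le_mul_of_nonneg_left h2 (by positivity : (0 : ℝ) ≤ (u + v) / 2)
    have e3 : (u + v) / 2 * (2 * u / (u + v) * a ^ 2) = u * a ^ 2 := by rw [← mul_assoc, e1]
    have e4 : (u + v) / 2 * (2 * v / (u + v) * b ^ 2) = v * b ^ 2 := by rw [← mul_assoc, e2]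
    have e5 : (u + v) / 2 * (4 * (2 * u / (u + v) * a - 2 * u / (u + v) + 1)) =
        4 * (u * a - u + (u + v) / 2) := by
      have : (u + v) / 2 * (4 * (2 * u / (u + v) * a - 2 * u / (u + v) + 1)) =
        4 * ((u + v) / 2 * (2 * u / (u + v)) * a - (u + v) / 2 * (2 * u / (u + v)) + (u + v) / 2) := by
        ring
      rw [this, e1]
    have e6 : (u + v) / 2 * (4 * (2 * v / (u + v) * b - 2 * v / (u + v) + 1)) =
        4 * (v * b - v + (u + v) / 2) := by
      have : (u + v) / 2 * (4 * (2 * v / (u + v) * b - 2 * v / (u + v) + 1)) =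
        4 * ((u + v) / 2 * (2 * v / (u + v)) * b - (u + v) / 2 * (2 * v / (u + v)) + (u + v) / 2) := by
        ring
      rw [this, e2]
    rw [e3, e5] at h3
    rw [e4, e6] at h4
    have e7 : Hf u v = u * a + v * b := rfl
    rw [e7]
    linarith

/-- lower bound by the square root distance -/
theorem Hf_ge_sqrt {a b : ℝ} (ha : 0 ≤ a) (hb : 0 ≤ b) :
    (Real.sqrt a - Real.sqrt b) ^ 2 ≤ 2 * Hf a b := by
  rcases (add_nonneg ha hb).eq_or_lt with h | h
  · have h1 : a = 0 := by linarith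
    have h2 : b = 0 := by linarith
    rw [h1, h2]
    simp [Hf]
  · have key : ∀ x : ℝ, 0 ≤ x → 2 * x - Real.sqrt 2 * Real.sqrt (a + b) * Real.sqrt x ≤
        x * Real.log (2 * x / (a + b)) := by
      intro x hx
      rcases hx.eq_or_lt with h0 | h0
      · rw [← h0]; simp
      · have h1 := Real.log_le_sub_one_of_pos (x := Real.sqrt ((a + b) / (2 * x))) (by positivity)
        have h2 : Real.log (2 * x / (a + b)) = -(2 * Real.log (Real.sqrt ((a + b) / (2 * x)))) := by
          rw [Real.log_sqrt (by positivity), ← inv_div, Real.log_inv]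
          ring
        rw [h2]
        have h3 : x * Real.sqrt ((a + b) / (2 * x)) * 2 =
            Real.sqrt 2 * Real.sqrt (a + b) * Real.sqrt x := by
          rw [Real.sqrt_div h.le, Real.sqrt_mul (by norm_num : (0 : ℝ) ≤ 2)]
          have e1 : Real.sqrt x * Real.sqrt x = x := Real.mul_self_sqrt hx
          have e2 : Real.sqrt 2 * Real.sqrt 2 = 2 := Real.mul_self_sqrt (by norm_num)
          have p1 : 0 < Real.sqrt x := Real.sqrt_pos.2 h0
          have p2 : 0 < Real.sqrt 2 := Real.sqrt_pos.2 (by norm_num)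
          field_simp
          nlinarith
        have h4 := mul_le_mul_of_nonneg_left h1 hx
        nlinarith
    have h1 := key a ha
    have h2 := key b hb
    have e0 : Hf a b = a * Real.log (2 * a / (a + b)) + b * Real.log (2 * b / (a + b)) := rfl
    set S := Real.sqrt (a + b) with hS
    set A := Real.sqrt a with hA
    set B := Real.sqrt b with hB
    set q := Real.sqrt 2 with hq
    have sS : S * S = a + b := Real.mul_self_sqrt h.le
    have sA : A * A = a := Real.mul_self_sqrt ha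
    have sB : B * B = b := Real.mul_self_sqrt hb
    have sq : q * q = 2 := Real.mul_self_sqrt (by norm_num)
    have pS : 0 < S := Real.sqrt_pos.2 h
    have pA : 0 ≤ A := Real.sqrt_nonneg a
    have pB : 0 ≤ B := Real.sqrt_nonneg b
    have pq : 0 ≤ q := Real.sqrt_nonneg 2
    -- `q (A + B) ≤ 2 S`
    have h3 : q * (A + B) ≤ 2 * S := by
      apply le_of_sq_le_sq _ (by positivity)
      have : (q * (A + B)) ^ 2 = (q * q) * (A + B) ^ 2 := by ring
      rw [this, sq]
      nlinarith [sq_nonneg (A - B)]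
    have h4 : 2 * (A - B) ^ 2 = (2 * S - q * (A + B)) * (2 * S + q * (A + B)) := by
      have : (2 * S - q * (A + B)) * (2 * S + q * (A + B)) =
          4 * (S * S) - (q * q) * (A + B) ^ 2 := by ring
      rw [this, sq, sS, ← sA, ← sB]
      ring
    have h5 : (2 * S - q * (A + B)) * (2 * S + q * (A + B)) ≤
        (2 * S - q * (A + B)) * (4 * S) :=
      mul_le_mul_of_nonneg_left (by linarith) (by linarith)
    have h6 : (A - B) ^ 2 ≤ 2 * (S * (2 * S - q * (A + B))) := by nlinarith
    have h7 : S * (2 * S - q * (A + B)) = (2 * a - q * S * A) + (2 * b - q * S * B) := by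
      have : S * (2 * S - q * (A + B)) = 2 * (S * S) - q * S * A - q * S * B := by ring
      rw [this, sS]
      ring
    rw [e0]
    linarith
where
  le_of_sq_le_sq {x y : ℝ} (h : x ^ 2 ≤ y ^ 2) (hy : 0 ≤ y) : x ≤ y := by
    by_contra hc
    rw [not_le] at hc
    nlinarith

theorem Hf_diff {a b : ℝ} (ha : 0 ≤ a) (hb : 0 ≤ b) : (a - b) ^ 2 ≤ 4 * (a + b) * Hf a b := by
  have h1 := Hf_ge_sqrt ha hb
  set A := Real.sqrt a with hA
  set B := Real.sqrt b with hB
  have sA : A * A = a := Real.mul_self_sqrt ha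
  have sB : B * B = b := Real.mul_self_sqrt hb
  have h2 : (a - b) ^ 2 = (A - B) ^ 2 * (A + B) ^ 2 := by
    rw [← sA, ← sB]
    ring
  have h3 : (A + B) ^ 2 ≤ 2 * (a + b) := by
    rw [← sA, ← sB]
    nlinarith [sq_nonneg (A - B)]
  rw [h2]
  calc (A - B) ^ 2 * (A + B) ^ 2 ≤ (2 * Hf a b) * (2 * (a + b)) :=
        mul_le_mul h1 h3 (sq_nonneg _) (by have := Hf_nonneg ha hb; positivity)
    _ = 4 * (a + b) * Hf a b := by ring

/-- two-term Cauchy-Schwarz inequality -/
theorem cs34 {x₁ x₂ a₁ a₂ b₁ b₂ : ℝ} (ha₁ : 0 ≤ a₁) (ha₂ : 0 ≤ a₂) (hb₁ : 0 ≤ b₁) (hb₂ : 0 ≤ b₂)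
    (h₁ : x₁ ^ 2 ≤ a₁ * b₁) (h₂ : x₂ ^ 2 ≤ a₂ * b₂) :
    (x₁ + x₂) ^ 2 ≤ (a₁ + a₂) * (b₁ + b₂) := by
  have h3 : (2 * (x₁ * x₂)) ^ 2 ≤ (a₁ * b₂ + a₂ * b₁) ^ 2 := by
    have h4 : x₁ ^ 2 * x₂ ^ 2 ≤ (a₁ * b₁) * (a₂ * b₂) :=
      mul_le_mul h₁ h₂ (sq_nonneg _) (mul_nonneg ha₁ hb₁)
    nlinarith [sq_nonneg (a₁ * b₂ - a₂ * b₁)]
  have h4 : 2 * (x₁ * x₂) ≤ a₁ * b₂ + a₂ * b₁ :=
    abs_le_of_sq_le_sq' h3 (by positivity) |>.2
  nlinarith

/-- Gibbs inequality for a pair -/
theorem Hf_gibbs {u v a b : ℝ} (hu : 0 ≤ u) (hv : 0 ≤ v) (ha : 0 ≤ a) (hb : 0 ≤ b)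
    (hua : 0 < u → 0 < a) (hvb : 0 < v → 0 < b) :
    u * Real.log (2 * a / (a + b)) + v * Real.log (2 * b / (a + b)) ≤ Hf u v := by
  rcases (add_nonneg hu hv).eq_or_lt with h | h
  · have h1 : u = 0 := by linarith
    have h2 : v = 0 := by linarith
    rw [h1, h2]
    simp [Hf]
  · have hab : 0 < a + b := by
      rcases hu.eq_or_lt with h1 | h1
      · have := hvb (by linarith)
        linarith
      · have := hua h1
        linarith
    have key : ∀ x y : ℝ, 0 ≤ x → 0 ≤ y → (0 < x → 0 < y) →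
        x * Real.log (2 * y / (a + b)) + (x - y * (u + v) / (a + b)) ≤
          x * Real.log (2 * x / (u + v)) := by
      intro x y hx hy hxy
      rcases hx.eq_or_lt with h0 | h0
      · rw [← h0]
        simp only [zero_mul, zero_add, zero_sub]
        have : 0 ≤ y * (u + v) / (a + b) := by positivity
        linarith
      · have hy0 := hxy h0
        have h1 := mul_log_ge34 (a := x) (b := y * (u + v) / (a + b)) hx (by positivity)
        have h2 : Real.log (2 * x / (u + v)) = Real.log (2 * y / (a + b)) +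
            Real.log (x / (y * (u + v) / (a + b))) := by
          rw [← Real.log_mul (by positivity) (by positivity)]
          congr 1
          field_simp
        rw [h2]
        nlinarith
    have h1 := key u a hu ha hua
    have h2 := key v b hv hb hvb
    have h3 : a * (u + v) / (a + b) + b * (u + v) / (a + b) = u + v := by
      field_simp
    unfold Hf
    linarith

/-- the pointwise inequality -/
theorem Hf_lip {u v u' v' : ℝ} (hu : 0 ≤ u) (hv : 0 ≤ v) (hu' : 0 ≤ u') (hv' : 0 ≤ v') :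
    |Hf u v - Hf u' v'| ≤ 5 * Real.sqrt ((Hf u u' + Hf v v') * (Hf u v + Hf u' v')) := by
  set mu := (u + u') / 2 with hmu
  set mv := (v + v') / 2 with hmv
  have pmu : 0 ≤ mu := by positivity
  have pmv : 0 ≤ mv := by positivity
  set fu := Real.log (2 * mu / (mu + mv)) with hfu
  set fv := Real.log (2 * mv / (mu + mv)) with hfv
  set Q := Hf u u' + Hf v v' with hQ
  set T := Hf u v + Hf u' v' with hT
  have hQ0 : 0 ≤ Q := add_nonneg (Hf_nonneg hu hu') (Hf_nonneg hv hv')
  have hT0 : 0 ≤ T := add_nonneg (Hf_nonneg hu hv) (Hf_nonneg hu' hv')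
  have hm : Hf mu mv = mu * fu + mv * fv := rfl
  have hm0 : 0 ≤ Hf mu mv := Hf_nonneg pmu pmv
  -- the two excesses
  have e1 : u * fu + v * fv ≤ Hf u v := Hf_gibbs hu hv pmu pmv
    (fun h => by rw [hmu]; positivity) (fun h => by rw [hmv]; positivity)
  have e2 : u' * fu + v' * fv ≤ Hf u' v' := Hf_gibbs hu' hv' pmu pmv
    (fun h => by rw [hmu]; positivity) (fun h => by rw [hmv]; positivity)
  have e3 : (u * fu + v * fv) + (u' * fu + v' * fv) = 2 * Hf mu mv := by
    rw [hm, hmu, hmv]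
    ring
  have hTm : 2 * Hf mu mv ≤ T := by linarith
  -- the sum of the excesses is at most `Q`
  have e4 : T - 2 * Hf mu mv ≤ Q := by
    have hH := Hf_nonneg (add_nonneg hu hv) (add_nonneg hu' hv')
    have key : ∀ x y z w : ℝ, 0 ≤ x → 0 ≤ y → 0 ≤ z → 0 ≤ w →
        x * Real.log (2 * x / (x + y)) - x * Real.log (2 * ((x + z) / 2) / ((x + z) / 2 + (y + w) / 2)) =
        x * Real.log (2 * x / (x + z)) - x * Real.log (2 * (x + y) / ((x + y) + (z + w))) := by
      intro x y z w hx hy hz hw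
      rcases hx.eq_or_lt with h0 | h0
      · rw [← h0]; simp
      · rw [← mul_sub, ← mul_sub, ← Real.log_div (by positivity) (by positivity),
          ← Real.log_div (by positivity) (by positivity)]
        congr 2
        field_simp
        ring
    have k1 := key u v u' v' hu hv hu' hv'
    have k2 := key v u v' u' hv hu hv' hu'
    have k3 := key u' v' u v hu' hv' hu hv
    have k4 := key v' u' v u hv' hu' hv hu
    rw [hT, hQ, hm, hfu, hfv]
    have r1 : Hf u v = u * Real.log (2 * u / (u + v)) + v * Real.log (2 * v / (u + v)) := rfl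
    have r2 : Hf u' v' = u' * Real.log (2 * u' / (u' + v')) + v' * Real.log (2 * v' / (u' + v')) := rfl
    have r3 : Hf u u' = u * Real.log (2 * u / (u + u')) + u' * Real.log (2 * u' / (u + u')) := rfl
    have r4 : Hf v v' = v * Real.log (2 * v / (v + v')) + v' * Real.log (2 * v' / (v + v')) := rfl
    have r5 : Hf (u + v) (u' + v') = (u + v) * Real.log (2 * (u + v) / ((u + v) + (u' + v'))) +
      (u' + v') * Real.log (2 * (u' + v') / ((u + v) + (u' + v'))) := rfl
    rw [add_comm v u, add_comm v' u', add_comm ((v + v') / 2) ((u + u') / 2)] at k2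
    rw [add_comm v' u', add_comm v u, add_comm ((v' + v) / 2) ((u' + u) / 2), add_comm v' v,
      add_comm u' u] at k4
    rw [add_comm u' u, add_comm v' v, add_comm (u' + v') (u + v)] at k3
    rw [add_comm (u' + v') (u + v)] at k4
    have a1 : 2 * mu / (mu + mv) = 2 * ((u + u') / 2) / ((u + u') / 2 + (v + v') / 2) := rfl
    have a2 : 2 * mv / (mu + mv) = 2 * ((v + v') / 2) / ((u + u') / 2 + (v + v') / 2) := rfl
    rw [r1, r2, r3, r4, a1, a2]
    rw [r5] at hH
    have m1 : mu = (u + u') / 2 := rfl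
    have m2 : mv = (v + v') / 2 := rfl
    rw [m1, m2]
    nlinarith [k1, k2, k3, k4, hH]
  -- the main part
  have e5 : ((u - u') * fu + (v - v') * fv) ^ 2 ≤ 16 * (Q * T) := by
    have h1 : ((u - u') * fu) ^ 2 ≤ (8 * Hf u u') * (mu * fu ^ 2) := by
      have := Hf_diff hu hu'
      have h2 : 4 * (u + u') = 8 * mu := by rw [hmu]; ring
      rw [h2] at this
      calc ((u - u') * fu) ^ 2 = (u - u') ^ 2 * fu ^ 2 := by ring
        _ ≤ (8 * mu * Hf u u') * fu ^ 2 := mul_le_mul_of_nonneg_right this (sq_nonneg _)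
        _ = _ := by ring
    have h2 : ((v - v') * fv) ^ 2 ≤ (8 * Hf v v') * (mv * fv ^ 2) := by
      have := Hf_diff hv hv'
      have h2 : 4 * (v + v') = 8 * mv := by rw [hmv]; ring
      rw [h2] at this
      calc ((v - v') * fv) ^ 2 = (v - v') ^ 2 * fv ^ 2 := by ring
        _ ≤ (8 * mv * Hf v v') * fv ^ 2 := mul_le_mul_of_nonneg_right this (sq_nonneg _)
        _ = _ := by ring
    have h3 := cs34 (by have := Hf_nonneg hu hu'; positivity) (by have := Hf_nonneg hv hv'; positivity)
      (mul_nonneg pmu (sq_nonneg fu)) (mul_nonneg pmv (sq_nonneg fv)) h1 h2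
    have h4 : mu * fu ^ 2 + mv * fv ^ 2 ≤ 4 * Hf mu mv := Hf_sq pmu pmv
    have h5 : 8 * Hf u u' + 8 * Hf v v' = 8 * Q := by rw [hQ]; ring
    rw [h5] at h3
    calc ((u - u') * fu + (v - v') * fv) ^ 2 ≤ 8 * Q * (mu * fu ^ 2 + mv * fv ^ 2) := h3
      _ ≤ 8 * Q * (2 * T) := mul_le_mul_of_nonneg_left (by linarith) (by positivity)
      _ = 16 * (Q * T) := by ring
  have e6 : |(u - u') * fu + (v - v') * fv| ≤ 4 * Real.sqrt (Q * T) := by
    have h1 : Real.sqrt (((u - u') * fu + (v - v') * fv) ^ 2) ≤ Real.sqrt (16 * (Q * T)) :=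
      Real.sqrt_le_sqrt e5
    rw [Real.sqrt_sq_eq_abs, Real.sqrt_mul (by norm_num : (0 : ℝ) ≤ 16)] at h1
    have h2 : Real.sqrt 16 = 4 := by
      rw [show (16 : ℝ) = 4 ^ 2 by norm_num]
      exact Real.sqrt_sq (by norm_num)
    rwa [h2] at h1
  have e7 : T - 2 * Hf mu mv ≤ Real.sqrt (Q * T) := by
    apply Real.le_sqrt_of_sq_le
    have h0 : 0 ≤ T - 2 * Hf mu mv := by linarith
    calc (T - 2 * Hf mu mv) ^ 2 = (T - 2 * Hf mu mv) * (T - 2 * Hf mu mv) := by ring
      _ ≤ Q * T := mul_le_mul e4 (by linarith) h0 hQ0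
  rw [abs_le] at e6 ⊢
  have h9 : T = Hf u v + Hf u' v' := rfl
  constructor
  · nlinarith [e6.1, e6.2]
  · nlinarith [e6.1, e6.2]

end Pool.Agent.NJ
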