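import Pool.Agent.NJ.Slope85

/-! Continuity of the conditional entropy of one bit (helper85).

For laws `p`, `q` on `Z × {0,1}`, with `KB p = K(bit | Z)` and `JJ p q = 2 JS(p,q)`:
`KB p - KB q ≤ 5 √(JJ p q * (KB p + KB q))`.
-/

set_option autoImplicit false

namespace Pool.Agent.NJ

open Finset Pool.Agent.CutSeq

section Scalar

/-- `x log² x ≤ 4 (x log x - x + 1)` on `[0, 2]` -/
lemma xlog2_le85 {x : ℝ} (h0 : 0 ≤ x) (h2 : x ≤ 2) :
    x * Real.log x ^ 2 ≤ 4 * (x * Real.log x - x + 1) := by
  rcases eq_or_lt_of_le h0 with h | h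
  · rw [← h]
    norm_num
  · set L := Real.log x with hL
    have hx : x = Real.exp L := (Real.exp_log h).symm
    have hL2 : L ≤ 1 := by
      have : L ≤ Real.log 2 := Real.log_le_log h h2
      have := Real.log_two_lt_d9
      linarith
    have h3 : 1 - L / 2 ≤ Real.exp (-(L / 2)) := by
      have := Real.add_one_le_exp (-(L / 2))
      linarith
    have h4 : (1 - L / 2) ^ 2 ≤ Real.exp (-L) := by
      have h5 : Real.exp (-L) = Real.exp (-(L / 2)) ^ 2 := by
        rw [← Real.exp_nat_mul]
        congr 1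
        push_cast
        ring
      rw [h5]
      exact pow_le_pow_left₀ (by linarith) h3 2
    have h6 : x * Real.exp (-L) = 1 := by
      rw [hx, ← Real.exp_add]
      simp
    have h7 : x * (1 - L / 2) ^ 2 ≤ 1 := by
      have h8 := mul_le_mul_of_nonneg_left h4 h.le
      rwa [h6] at h8
    nlinarith

lemma lg85 {a A : ℝ} (ha : 0 < a) (hA : 0 < A) :
    Real.log (2 * a / A) = Real.log 2 + Real.log a - Real.log A := by
  rw [Real.log_div (by positivity) hA.ne', Real.log_mul (by norm_num) ha.ne']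

/-- one term of the relative entropy against Hellinger -/
lemma plog_ge85 {p m : ℝ} (hp : 0 ≤ p) (hm : 0 < m) :
    p - m + (Real.sqrt p - Real.sqrt m) ^ 2 ≤ p * Real.log (p / m) := by
  rcases eq_or_lt_of_le hp with h | h
  · rw [← h]
    simp only [Real.sqrt_zero, zero_mul, zero_sub, neg_sq, Real.sq_sqrt hm.le]
    linarith
  · have hsp : 0 < Real.sqrt p := Real.sqrt_pos.2 h
    have hsm : 0 < Real.sqrt m := Real.sqrt_pos.2 hm
    have e1 : Real.sqrt p ^ 2 = p := Real.sq_sqrt h.le
    have e2 : Real.sqrt m ^ 2 = m := Real.sq_sqrt hm.le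
    have h1 : Real.log (p / m) = -(2 * Real.log (Real.sqrt m / Real.sqrt p)) := by
      rw [Real.log_div h.ne' hm.ne', Real.log_div hsm.ne' hsp.ne']
      have e3 : Real.log p = 2 * Real.log (Real.sqrt p) := by
        conv_lhs => rw [← e1]
        rw [Real.log_pow]
        norm_num
      have e4 : Real.log m = 2 * Real.log (Real.sqrt m) := by
        conv_lhs => rw [← e2]
        rw [Real.log_pow]
        norm_num
      rw [e3, e4]
      ring
    have h2 := Real.log_le_sub_one_of_pos (show 0 < Real.sqrt m / Real.sqrt p by positivity)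
    have h3 : -(2 * (Real.sqrt m / Real.sqrt p - 1)) ≤ Real.log (p / m) := by
      rw [h1]
      linarith
    have h4 : p * (-(2 * (Real.sqrt m / Real.sqrt p - 1))) =
        2 * p - 2 * (Real.sqrt p * Real.sqrt m) := by
      have e5 : p * (Real.sqrt m / Real.sqrt p) = Real.sqrt p * Real.sqrt m := by
        rw [mul_div_assoc', div_eq_iff hsp.ne']
        nlinarith
      linarith
    have h5 := mul_le_mul_of_nonneg_left h3 h.le
    nlinarith

/-- the divergence of two masses from their mean -/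
noncomputable def jm85 (p q : ℝ) : ℝ :=
  p * Real.log (2 * p / (p + q)) + q * Real.log (2 * q / (p + q))

lemma jm85_ge {p q : ℝ} (hp : 0 ≤ p) (hq : 0 ≤ q) :
    (p - q) ^ 2 / (4 * (p + q)) ≤ jm85 p q := by
  rcases eq_or_lt_of_le (add_nonneg hp hq) with h | h
  · have hp0 : p = 0 := by linarith
    have hq0 : q = 0 := by linarith
    rw [hp0, hq0]
    simp [jm85]
  · have hm : 0 < (p + q) / 2 := by linarith
    have h1 := plog_ge85 hp hm
    have h2 := plog_ge85 hq hm
    have e1 : p / ((p + q) / 2) = 2 * p / (p + q) := by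
      field_simp
    have e2 : q / ((p + q) / 2) = 2 * q / (p + q) := by
      field_simp
    rw [e1] at h1
    rw [e2] at h2
    set a := Real.sqrt p with ha
    set b := Real.sqrt q with hb
    set m := Real.sqrt ((p + q) / 2) with hmm
    have ep : a ^ 2 = p := Real.sq_sqrt hp
    have eq' : b ^ 2 = q := Real.sq_sqrt hq
    have h3 : (a - b) ^ 2 / 2 ≤ jm85 p q := by
      unfold jm85
      nlinarith [sq_nonneg (a + b - 2 * m)]
    refine le_trans ?_ h3
    rw [div_le_iff₀ (by linarith)]
    have h4 : (p - q) ^ 2 = (a - b) ^ 2 * (a + b) ^ 2 := by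
      rw [← ep, ← eq']
      ring
    have h5 : (a + b) ^ 2 ≤ 2 * (p + q) := by
      nlinarith [sq_nonneg (a - b)]
    rw [h4]
    have h6 := mul_le_mul_of_nonneg_left h5 (sq_nonneg (a - b))
    linarith

lemma jm85_nonneg {p q : ℝ} (hp : 0 ≤ p) (hq : 0 ≤ q) : 0 ≤ jm85 p q :=
  le_trans (by positivity) (jm85_ge hp hq)

end Scalar

section Core

variable {Z : Type*} [Fintype Z]

/-- marginal -/
noncomputable def mg85 (p : Z → ZMod 2 → ℝ) (z : Z) : ℝ := ∑ y, p z y

/-- `K(bit | Z)` -/
noncomputable def KB85 (p : Z → ZMod 2 → ℝ) : ℝ :=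
  ∑ z, ∑ y, p z y * Real.log (2 * p z y / mg85 p z)

/-- `2 JS` -/
noncomputable def JJ85 (p q : Z → ZMod 2 → ℝ) : ℝ := ∑ z, ∑ y, jm85 (p z y) (q z y)

/-- the mean -/
noncomputable def av85 (p q : Z → ZMod 2 → ℝ) : Z → ZMod 2 → ℝ := fun z y => (p z y + q z y) / 2

/-- the conditional divergence -/
noncomputable def DD85 (p m : Z → ZMod 2 → ℝ) : ℝ :=
  ∑ z, ∑ y, p z y * (Real.log (2 * p z y / mg85 p z) - Real.log (2 * m z y / mg85 m z))

omit [Fintype Z] in
lemma mg85_nonneg {p : Z → ZMod 2 → ℝ} (hp : ∀ z y, 0 ≤ p z y) (z : Z) : 0 ≤ mg85 p z :=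
  Finset.sum_nonneg fun y _ => hp z y

omit [Fintype Z] in
lemma le_mg85 {p : Z → ZMod 2 → ℝ} (hp : ∀ z y, 0 ≤ p z y) (z : Z) (y : ZMod 2) :
    p z y ≤ mg85 p z :=
  Finset.single_le_sum (f := fun y => p z y) (fun y _ => hp z y) (Finset.mem_univ y)

omit [Fintype Z] in
lemma mg85_av (p q : Z → ZMod 2 → ℝ) (z : Z) : mg85 (av85 p q) z = (mg85 p z + mg85 q z) / 2 := by
  unfold mg85 av85
  rw [← Finset.sum_add_distrib, Finset.sum_div]

/-- the conditional divergence is nonnegative -/
lemma DD85_nonneg {p m : Z → ZMod 2 → ℝ} (hp : ∀ z y, 0 ≤ p z y) (hm : ∀ z y, 0 ≤ m z y)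
    (hpm : ∀ z y, m z y = 0 → p z y = 0) : 0 ≤ DD85 p m := by
  unfold DD85
  refine Finset.sum_nonneg fun z _ => ?_
  rcases eq_or_lt_of_le (mg85_nonneg hp z) with h | h
  · have : ∀ y, p z y = 0 := fun y => le_antisymm (h ▸ le_mg85 hp z y) (hp z y)
    simp [this]
  · have hmz : 0 < mg85 m z := by
      rcases eq_or_lt_of_le (mg85_nonneg hm z) with h' | h'
      · exfalso
        have h1 : ∀ y, m z y = 0 := fun y => le_antisymm (h' ▸ le_mg85 hm z y) (hm z y)
        have h2 : mg85 p z = 0 := Finset.sum_eq_zero fun y _ => hpm z y (h1 y)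
        linarith
      · exact h'
    have key : ∀ y, p z y - mg85 p z * (m z y / mg85 m z) ≤
        p z y * (Real.log (2 * p z y / mg85 p z) - Real.log (2 * m z y / mg85 m z)) := by
      intro y
      rcases eq_or_lt_of_le (hp z y) with h0 | h0
      · rw [← h0]
        have := hm z y
        have : 0 ≤ mg85 p z * (m z y / mg85 m z) := by positivity
        linarith
      · have hmy : 0 < m z y := by
          rcases eq_or_lt_of_le (hm z y) with h' | h'
          · exfalso
            have := hpm z y h'.symm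
            linarith
          · exact h'
        have e1 : Real.log (2 * p z y / mg85 p z) - Real.log (2 * m z y / mg85 m z) =
            -Real.log ((m z y / mg85 m z) * (mg85 p z / p z y)) := by
          rw [lg85 h0 h, lg85 hmy hmz, Real.log_mul (by positivity) (by positivity),
            Real.log_div hmy.ne' hmz.ne', Real.log_div h.ne' h0.ne']
          ring
        rw [e1]
        have h2 := Real.log_le_sub_one_of_pos
          (show 0 < (m z y / mg85 m z) * (mg85 p z / p z y) by positivity)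
        have h3 : p z y * ((m z y / mg85 m z) * (mg85 p z / p z y)) =
            mg85 p z * (m z y / mg85 m z) := by
          field_simp
        nlinarith
    refine le_trans (le_of_eq ?_) (Finset.sum_le_sum fun y _ => key y)
    rw [Finset.sum_sub_distrib, ← Finset.mul_sum, ← Finset.sum_div]
    change 0 = mg85 p z - mg85 p z * (mg85 m z / mg85 m z)
    rw [div_self hmz.ne']
    ring

/-- the sum of the two conditional divergences from the mean -/
lemma DD85_add {p q : Z → ZMod 2 → ℝ} (hp : ∀ z y, 0 ≤ p z y) (hq : ∀ z y, 0 ≤ q z y) :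
    DD85 p (av85 p q) + DD85 q (av85 p q) ≤ JJ85 p q := by
  have key : ∀ z y, p z y * (Real.log (2 * p z y / mg85 p z) -
      Real.log (2 * av85 p q z y / mg85 (av85 p q) z)) +
      q z y * (Real.log (2 * q z y / mg85 q z) -
      Real.log (2 * av85 p q z y / mg85 (av85 p q) z)) =
      jm85 (p z y) (q z y) - (p z y * Real.log (2 * mg85 p z / (mg85 p z + mg85 q z)) +
        q z y * Real.log (2 * mg85 q z / (mg85 p z + mg85 q z))) := by
    intro z y
    have hterm : ∀ a b A B : ℝ, 0 ≤ a → 0 ≤ b → a ≤ A → b ≤ B →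
        a * (Real.log (2 * a / A) - Real.log (2 * ((a + b) / 2) / ((A + B) / 2))) =
          a * Real.log (2 * a / (a + b)) - a * Real.log (2 * A / (A + B)) := by
      intro a b A B ha hb haA hbB
      rcases eq_or_lt_of_le ha with h0 | h0
      · rw [← h0]
        ring
      · have hA : 0 < A := lt_of_lt_of_le h0 haA
        have hB : 0 ≤ B := hb.trans hbB
        have h1 : 0 < a + b := by linarith
        have h2 : 0 < A + B := by linarith
        rw [← mul_sub]
        congr 1
        have h3 : 0 < (a + b) / 2 := by linarith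
        have h4 : 0 < (A + B) / 2 := by linarith
        rw [lg85 h0 hA, lg85 h3 h4, lg85 h0 h1, lg85 hA h2, Real.log_div h1.ne' (by norm_num),
          Real.log_div h2.ne' (by norm_num)]
        ring
    have h1 := hterm (p z y) (q z y) (mg85 p z) (mg85 q z) (hp z y) (hq z y) (le_mg85 hp z y)
      (le_mg85 hq z y)
    have h2 := hterm (q z y) (p z y) (mg85 q z) (mg85 p z) (hq z y) (hp z y) (le_mg85 hq z y)
      (le_mg85 hp z y)
    rw [add_comm (q z y) (p z y), add_comm (mg85 q z) (mg85 p z)] at h2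
    rw [mg85_av]
    unfold av85 jm85
    rw [h1, h2]
    ring
  unfold DD85 JJ85
  rw [← Finset.sum_add_distrib]
  refine Finset.sum_le_sum fun z _ => ?_
  rw [← Finset.sum_add_distrib]
  simp only [key]
  rw [Finset.sum_sub_distrib]
  have h1 : ∑ y, (p z y * Real.log (2 * mg85 p z / (mg85 p z + mg85 q z)) +
      q z y * Real.log (2 * mg85 q z / (mg85 p z + mg85 q z))) = jm85 (mg85 p z) (mg85 q z) := by
    rw [Finset.sum_add_distrib, ← Finset.sum_mul, ← Finset.sum_mul]
    rfl
  rw [h1]
  have := jm85_nonneg (mg85_nonneg hp z) (mg85_nonneg hq z)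
  linarith

/-- second moment of the log density -/
lemma log2_le85 {m : Z → ZMod 2 → ℝ} (hm : ∀ z y, 0 ≤ m z y) :
    ∑ z, ∑ y, m z y * Real.log (2 * m z y / mg85 m z) ^ 2 ≤ 4 * KB85 m := by
  unfold KB85
  rw [Finset.mul_sum]
  refine Finset.sum_le_sum fun z _ => ?_
  rcases eq_or_lt_of_le (mg85_nonneg hm z) with h | h
  · have : ∀ y, m z y = 0 := fun y => le_antisymm (h ▸ le_mg85 hm z y) (hm z y)
    simp [this]
  · have key : ∀ y, m z y * Real.log (2 * m z y / mg85 m z) ^ 2 ≤
        4 * (m z y * Real.log (2 * m z y / mg85 m z)) - 4 * m z y + 2 * mg85 m z := by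
      intro y
      have h1 := xlog2_le85 (x := 2 * m z y / mg85 m z)
        (div_nonneg (mul_nonneg (by norm_num) (hm z y)) h.le)
        (by
          rw [div_le_iff₀ h]
          have := le_mg85 hm z y
          linarith)
      have h2 := mul_le_mul_of_nonneg_left h1 (show 0 ≤ mg85 m z / 2 by linarith)
      have e1 : mg85 m z / 2 * (2 * m z y / mg85 m z * Real.log (2 * m z y / mg85 m z) ^ 2) =
          m z y * Real.log (2 * m z y / mg85 m z) ^ 2 := by
        field_simp
      have e2 : mg85 m z / 2 * (4 * (2 * m z y / mg85 m z * Real.log (2 * m z y / mg85 m z) -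
          2 * m z y / mg85 m z + 1)) =
          4 * (m z y * Real.log (2 * m z y / mg85 m z)) - 4 * m z y + 2 * mg85 m z := by
        field_simp
        ring
      rw [e1, e2] at h2
      exact h2
    refine (Finset.sum_le_sum fun y _ => key y).trans (le_of_eq ?_)
    rw [Finset.sum_add_distrib, Finset.sum_sub_distrib, ← Finset.mul_sum, ← Finset.mul_sum,
      Finset.sum_const, Finset.card_univ, ZMod.card]
    change 4 * _ - 4 * mg85 m z + 2 • (2 * mg85 m z) = _
    rw [nsmul_eq_mul]
    push_cast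
    ring

lemma KB85_nonneg {p : Z → ZMod 2 → ℝ} (hp : ∀ z y, 0 ≤ p z y) : 0 ≤ KB85 p := by
  have h := log2_le85 hp
  have : 0 ≤ ∑ z, ∑ y, p z y * Real.log (2 * p z y / mg85 p z) ^ 2 :=
    Finset.sum_nonneg fun z _ => Finset.sum_nonneg fun y _ =>
      mul_nonneg (hp z y) (sq_nonneg _)
  linarith

/-- continuity of the conditional entropy of a bit -/
theorem KB85_sub_le {p q : Z → ZMod 2 → ℝ} (hp : ∀ z y, 0 ≤ p z y) (hq : ∀ z y, 0 ≤ q z y) :
    KB85 p - KB85 q ≤ 5 * Real.sqrt (JJ85 p q * (KB85 p + KB85 q)) := by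
  set m := av85 p q with hm
  have hm0 : ∀ z y, 0 ≤ m z y := fun z y => by
    have := hp z y
    have := hq z y
    simp only [hm, av85]
    linarith
  have hpm : ∀ z y, m z y = 0 → p z y = 0 := fun z y h => by
    have h1 := hp z y
    have h2 := hq z y
    simp only [hm, av85] at h
    linarith
  have hqm : ∀ z y, m z y = 0 → q z y = 0 := fun z y h => by
    have h1 := hp z y
    have h2 := hq z y
    simp only [hm, av85] at h
    linarith
  have hDp := DD85_nonneg hp hm0 hpm
  have hDq := DD85_nonneg hq hm0 hqm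
  have hD := DD85_add hp hq
  rw [← hm] at hD
  have hJ0 : 0 ≤ JJ85 p q := Finset.sum_nonneg fun z _ => Finset.sum_nonneg fun y _ =>
    jm85_nonneg (hp z y) (hq z y)
  have hKp := KB85_nonneg hp
  have hKq := KB85_nonneg hq
  have hKm := KB85_nonneg hm0
  -- expansions
  have e1 : KB85 p - KB85 q = (∑ z, ∑ y, Real.log (2 * m z y / mg85 m z) * (p z y - q z y)) +
      DD85 p m - DD85 q m := by
    unfold KB85 DD85
    rw [← Finset.sum_sub_distrib, ← Finset.sum_add_distrib, ← Finset.sum_sub_distrib]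
    refine Finset.sum_congr rfl fun z _ => ?_
    rw [← Finset.sum_sub_distrib, ← Finset.sum_add_distrib, ← Finset.sum_sub_distrib]
    refine Finset.sum_congr rfl fun y _ => ?_
    ring
  have e2 : KB85 p + KB85 q = 2 * KB85 m + DD85 p m + DD85 q m := by
    unfold KB85 DD85
    rw [← Finset.sum_add_distrib, Finset.mul_sum, ← Finset.sum_add_distrib, ← Finset.sum_add_distrib]
    refine Finset.sum_congr rfl fun z _ => ?_
    rw [← Finset.sum_add_distrib, Finset.mul_sum, ← Finset.sum_add_distrib, ← Finset.sum_add_distrib]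
    refine Finset.sum_congr rfl fun y _ => ?_
    have : 2 * (m z y * Real.log (2 * m z y / mg85 m z)) =
        (p z y + q z y) * Real.log (2 * m z y / mg85 m z) := by
      simp only [hm, av85]
      ring
    rw [this]
    ring
  set K := KB85 p + KB85 q with hK
  -- the main term
  have hT : ∑ z, ∑ y, Real.log (2 * m z y / mg85 m z) * (p z y - q z y) ≤
      4 * Real.sqrt (JJ85 p q * K) := by
    rw [← Finset.sum_product']
    have hcs := Finset.sum_mul_sq_le_sq_mul_sq (Finset.univ ×ˢ Finset.univ : Finset (Z × ZMod 2))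
      (fun a => Real.sqrt (m a.1 a.2) * Real.log (2 * m a.1 a.2 / mg85 m a.1))
      (fun a => (p a.1 a.2 - q a.1 a.2) / Real.sqrt (m a.1 a.2))
    have h1 : ∑ a ∈ (Finset.univ ×ˢ Finset.univ : Finset (Z × ZMod 2)),
        (Real.sqrt (m a.1 a.2) * Real.log (2 * m a.1 a.2 / mg85 m a.1)) *
        ((p a.1 a.2 - q a.1 a.2) / Real.sqrt (m a.1 a.2)) =
        ∑ a ∈ (Finset.univ ×ˢ Finset.univ : Finset (Z × ZMod 2)),
          Real.log (2 * m a.1 a.2 / mg85 m a.1) * (p a.1 a.2 - q a.1 a.2) := by
      refine Finset.sum_congr rfl fun a _ => ?_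
      rcases eq_or_lt_of_le (hm0 a.1 a.2) with h | h
      · rw [hpm a.1 a.2 h.symm, hqm a.1 a.2 h.symm, ← h]
        simp
      · have : 0 < Real.sqrt (m a.1 a.2) := Real.sqrt_pos.2 h
        field_simp
    have h2 : ∑ a ∈ (Finset.univ ×ˢ Finset.univ : Finset (Z × ZMod 2)),
        (Real.sqrt (m a.1 a.2) * Real.log (2 * m a.1 a.2 / mg85 m a.1)) ^ 2 ≤ 4 * KB85 m := by
      refine le_trans (le_of_eq ?_) (log2_le85 hm0)
      rw [← Finset.sum_product']
      refine Finset.sum_congr rfl fun a _ => ?_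
      rw [mul_pow, Real.sq_sqrt (hm0 a.1 a.2)]
    have h3 : ∑ a ∈ (Finset.univ ×ˢ Finset.univ : Finset (Z × ZMod 2)),
        ((p a.1 a.2 - q a.1 a.2) / Real.sqrt (m a.1 a.2)) ^ 2 ≤ 8 * JJ85 p q := by
      unfold JJ85
      rw [← Finset.sum_product', Finset.mul_sum]
      refine Finset.sum_le_sum fun a _ => ?_
      have h4 := jm85_ge (hp a.1 a.2) (hq a.1 a.2)
      rw [div_pow, Real.sq_sqrt (hm0 a.1 a.2)]
      have h5 : (p a.1 a.2 - q a.1 a.2) ^ 2 / m a.1 a.2 =
          8 * ((p a.1 a.2 - q a.1 a.2) ^ 2 / (4 * (p a.1 a.2 + q a.1 a.2))) := by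
        simp only [hm, av85]
        rcases eq_or_lt_of_le (add_nonneg (hp a.1 a.2) (hq a.1 a.2)) with h | h
        · rw [← h]
          simp
        · field_simp
          ring
      rw [h5]
      linarith
    rw [h1] at hcs
    have h4 : (∑ a ∈ (Finset.univ ×ˢ Finset.univ : Finset (Z × ZMod 2)),
        Real.log (2 * m a.1 a.2 / mg85 m a.1) * (p a.1 a.2 - q a.1 a.2)) ^ 2 ≤
        16 * (JJ85 p q * K) := by
      refine hcs.trans ?_
      have h5 := mul_le_mul h2 h3 (Finset.sum_nonneg fun a _ => sq_nonneg _)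
        (mul_nonneg (by norm_num) hKm)
      refine h5.trans ?_
      have h6 : 2 * KB85 m ≤ K := by linarith
      have h7 := mul_le_mul_of_nonneg_left h6 hJ0
      linarith
    have h5 : 4 * Real.sqrt (JJ85 p q * K) = Real.sqrt (16 * (JJ85 p q * K)) := by
      rw [Real.sqrt_mul (show (0 : ℝ) ≤ 16 by norm_num) (JJ85 p q * K)]
      congr 1
      rw [show (16 : ℝ) = 4 ^ 2 by norm_num, Real.sqrt_sq (by norm_num)]
    rw [h5]
    exact Real.le_sqrt_of_sq_le h4
  -- the remainder
  have hR : DD85 p m ≤ Real.sqrt (JJ85 p q * K) := by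
    refine Real.le_sqrt_of_sq_le ?_
    have h1 : DD85 p m ≤ JJ85 p q := by linarith
    have h2 : DD85 p m ≤ K := by linarith
    nlinarith
  linarith

end Core

end Pool.Agent.NJ
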