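import Pool.Agent.NJ.JS34

/-!
Lemma C of the no jump page: for two weights `w`, `w'` of the same total and a bit `Y`,
`|KK w Y Z - KK w' Y Z| ≤ 5 √(Q (KK w Y Z + KK w' Y Z))`, where
`Q = K0 w X + K0 w' X - 2 K0 ((w + w') / 2) X` and `(Y, Z)` is a function of `X`.
-/

set_option autoImplicit false

namespace Pool.Agent.NJ

open Finset Pool.Agent.CutSeq

variable {Ω A C : Type*} [Fintype Ω] [Fintype A]

/-- the entropy defect of a bit -/
theorem KK_bit34 (w : Ω → ℝ) (Y : Ω → ZMod 2) (Z : Ω → C)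
    (s : Finset C) (hs : ∀ ω, Z ω ∈ s) :
    KK w Y Z = ∑ z ∈ s, Hf (mass w (fun ω => (Y ω, Z ω)) (0, z))
      (mass w (fun ω => (Y ω, Z ω)) (1, z)) := by
  have h1 := sum_eq_sum_mass w (fun ω => (Y ω, Z ω)) ((univ : Finset (ZMod 2)) ×ˢ s)
    (by
      intro ω _
      rw [mem_product]
      exact ⟨mem_univ _, hs ω⟩)
    (fun c => Real.log (2 * mass w (fun ω => (Y ω, Z ω)) c / mass w Z c.2))
  have h2 : KK w Y Z = ∑ ω, w ω * Real.log (2 * mass w (fun ω => (Y ω, Z ω)) (Y ω, Z ω) /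
      mass w Z (Z ω)) := by
    unfold KK
    have hc : (Fintype.card (ZMod 2) : ℝ) = 2 := by
      rw [ZMod.card]
      norm_num
    rw [hc]
  rw [h2, h1, Finset.sum_product_right]
  refine Finset.sum_congr rfl fun z _ => ?_
  have h3 : mass w Z z = mass w (fun ω => (Y ω, Z ω)) (0, z) + mass w (fun ω => (Y ω, Z ω)) (1, z) := by
    rw [← sum_mass w Y Z z]
    exact Fin.sum_univ_two (fun a : Fin 2 => mass w (fun ω => (Y ω, Z ω)) ((a : ZMod 2), z))
  have h4 : ∑ y : ZMod 2, mass w (fun ω => (Y ω, Z ω)) (y, z) *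
      Real.log (2 * mass w (fun ω => (Y ω, Z ω)) (y, z) / mass w Z z) =
      mass w (fun ω => (Y ω, Z ω)) (0, z) *
      Real.log (2 * mass w (fun ω => (Y ω, Z ω)) (0, z) / mass w Z z) +
      mass w (fun ω => (Y ω, Z ω)) (1, z) *
      Real.log (2 * mass w (fun ω => (Y ω, Z ω)) (1, z) / mass w Z z) :=
    Fin.sum_univ_two (fun a : Fin 2 => mass w (fun ω => (Y ω, Z ω)) ((a : ZMod 2), z) *
      Real.log (2 * mass w (fun ω => (Y ω, Z ω)) ((a : ZMod 2), z) / mass w Z z))
  rw [h4, h3]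
  rfl

/-- pointwise form of the Jensen-Shannon divergence -/
theorem Hf_js34 {a b c : ℝ} (ha : 0 ≤ a) (hb : 0 ≤ b) (hc : 0 < c) :
    a * Real.log (c * a) + b * Real.log (c * b) - 2 * ((a + b) / 2 * Real.log (c * ((a + b) / 2))) =
      Hf a b := by
  have key : ∀ x y : ℝ, 0 ≤ x → 0 ≤ y → x * Real.log (c * x) =
      x * Real.log (2 * x / (x + y)) + x * Real.log (c * ((x + y) / 2)) := by
    intro x y hx hy
    rcases hx.eq_or_lt with h | h
    · rw [← h]; simp
    · rw [← mul_add, ← Real.log_mul (by positivity) (by positivity)]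
      congr 2
      field_simp
  have h1 := key a b ha hb
  have h2 := key b a hb ha
  rw [add_comm b a] at h2
  rw [h1, h2]
  unfold Hf
  ring

/-- the Jensen-Shannon divergence -/
theorem js34 (w w' : Ω → ℝ) (hw : ∀ ω, 0 ≤ w ω) (hw' : ∀ ω, 0 ≤ w' ω) (htot : tot w = tot w')
    (X : Ω → A) :
    K0 w X + K0 w' X - 2 * K0 (fun ω => (w ω + w' ω) / 2) X =
      ∑ x, Hf (mass w X x) (mass w' X x) := by
  classical
  have hm : ∀ x, mass (fun ω => (w ω + w' ω) / 2) X x = (mass w X x + mass w' X x) / 2 := by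
    intro x
    unfold mass
    rw [← Finset.sum_add_distrib, Finset.sum_div]
    refine Finset.sum_congr rfl fun ω _ => ?_
    split
    · rfl
    · norm_num
  have ht : tot (fun ω => (w ω + w' ω) / 2) = tot w := by
    unfold tot at htot ⊢
    rw [← Finset.sum_div, Finset.sum_add_distrib, ← htot]
    ring
  have e : ∀ v : Ω → ℝ, tot v = tot w → K0 v X =
      ∑ x, mass v X x * Real.log (Fintype.card A * mass v X x / tot w) := by
    intro v hv
    rw [K0_eq, hv]
    exact sum_eq_sum_mass v X univ (fun _ _ => mem_univ _)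
      (fun x => Real.log (Fintype.card A * mass v X x / tot w))
  rw [e w rfl, e w' htot.symm, e _ ht, ← Finset.sum_add_distrib, Finset.mul_sum,
    ← Finset.sum_sub_distrib]
  refine Finset.sum_congr rfl fun x _ => ?_
  rw [hm x]
  rcases (tot_nonneg w hw).eq_or_lt with h | h
  · have h1 : ∀ ω, w ω = 0 := by
      intro ω
      have := le_tot w hw ω
      have := hw ω
      linarith
    have h2 : ∀ ω, w' ω = 0 := by
      intro ω
      have := le_tot w' hw' ω
      have := hw' ω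
      linarith
    have h3 : mass w X x = 0 := by
      unfold mass
      exact Finset.sum_eq_zero fun ω _ => by rw [h1 ω]; simp
    have h4 : mass w' X x = 0 := by
      unfold mass
      exact Finset.sum_eq_zero fun ω _ => by rw [h2 ω]; simp
    rw [h3, h4]
    simp [Hf]
  · have : Nonempty A := by
      by_contra hne
      rw [not_nonempty_iff] at hne
      exact hne.elim x
    have hA : (0 : ℝ) < Fintype.card A := by exact_mod_cast Fintype.card_pos
    have h1 := Hf_js34 (a := mass w X x) (b := mass w' X x) (c := Fintype.card A / tot w)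
      (mass_nonneg w hw X x) (mass_nonneg w' hw' X x) (by positivity)
    have e2 : ∀ y : ℝ, (Fintype.card A : ℝ) * y / tot w = Fintype.card A / tot w * y := by
      intro y
      ring
    rw [e2, e2, e2]
    exact h1

/-- superadditivity -/
theorem Hf_sum_le34 {ι : Type*} (s : Finset ι) (a b : ι → ℝ) (ha : ∀ i, 0 ≤ a i) (hb : ∀ i, 0 ≤ b i) :
    Hf (∑ i ∈ s, a i) (∑ i ∈ s, b i) ≤ ∑ i ∈ s, Hf (a i) (b i) := by
  have hA : 0 ≤ ∑ i ∈ s, a i := Finset.sum_nonneg fun i _ => ha i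
  have hB : 0 ≤ ∑ i ∈ s, b i := Finset.sum_nonneg fun i _ => hb i
  have h1 : ∀ i ∈ s, a i * Real.log (2 * (∑ i ∈ s, a i) / ((∑ i ∈ s, a i) + ∑ i ∈ s, b i)) +
      b i * Real.log (2 * (∑ i ∈ s, b i) / ((∑ i ∈ s, a i) + ∑ i ∈ s, b i)) ≤ Hf (a i) (b i) := by
    intro i hi
    refine Hf_gibbs (ha i) (hb i) hA hB (fun h => ?_) (fun h => ?_)
    · exact lt_of_lt_of_le h (Finset.single_le_sum (f := a) (fun j _ => ha j) hi)
    · exact lt_of_lt_of_le h (Finset.single_le_sum (f := b) (fun j _ => hb j) hi)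
  have h2 := Finset.sum_le_sum h1
  rw [Finset.sum_add_distrib, ← Finset.sum_mul, ← Finset.sum_mul] at h2
  exact h2

theorem mass_comp34 [DecidableEq C] (w : Ω → ℝ) (X : Ω → A) (f : A → C) (c : C) :
    mass w (fun ω => f (X ω)) c = ∑ x ∈ univ.filter (fun x => f x = c), mass w X x := by
  classical
  unfold mass
  rw [Finset.sum_comm]
  refine Finset.sum_congr rfl fun ω _ => ?_
  by_cases h : f (X ω) = c
  · rw [if_pos h, Finset.sum_eq_single_of_mem (X ω) (by simp [h])]
    · rw [if_pos rfl]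
    · intro x _ hx
      rw [if_neg (fun h' => hx h'.symm)]
  · rw [if_neg h]
    symm
    refine Finset.sum_eq_zero fun x hx => ?_
    rw [mem_filter] at hx
    rw [if_neg]
    intro h'
    rw [h'] at h
    exact h hx.2

/-- LEMMA C -/
theorem lemC34 (w w' : Ω → ℝ) (hw : ∀ ω, 0 ≤ w ω) (hw' : ∀ ω, 0 ≤ w' ω) (htot : tot w = tot w')
    (X : Ω → A) (y : A → ZMod 2) (z : A → C) :
    |KK w (fun ω => y (X ω)) (fun ω => z (X ω)) - KK w' (fun ω => y (X ω)) (fun ω => z (X ω))| ≤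
      5 * Real.sqrt ((K0 w X + K0 w' X - 2 * K0 (fun ω => (w ω + w' ω) / 2) X) *
        (KK w (fun ω => y (X ω)) (fun ω => z (X ω)) +
          KK w' (fun ω => y (X ω)) (fun ω => z (X ω)))) := by
  classical
  set s : Finset C := univ.image z with hs
  have hsm : ∀ ω, z (X ω) ∈ s := fun ω => mem_image_of_mem z (mem_univ _)
  have e1 := KK_bit34 w (fun ω => y (X ω)) (fun ω => z (X ω)) s hsm
  have e2 := KK_bit34 w' (fun ω => y (X ω)) (fun ω => z (X ω)) s hsm
  set p : ZMod 2 × C → ℝ := mass w (fun ω => (y (X ω), z (X ω))) with hp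
  set p' : ZMod 2 × C → ℝ := mass w' (fun ω => (y (X ω), z (X ω))) with hp'
  have hp0 : ∀ c, 0 ≤ p c := fun c => mass_nonneg w hw _ c
  have hp0' : ∀ c, 0 ≤ p' c := fun c => mass_nonneg w' hw' _ c
  rw [js34 w w' hw hw' htot X, e1, e2]
  set Q : C → ℝ := fun c => Hf (p (0, c)) (p' (0, c)) + Hf (p (1, c)) (p' (1, c)) with hQ
  set T : C → ℝ := fun c => Hf (p (0, c)) (p (1, c)) + Hf (p' (0, c)) (p' (1, c)) with hT
  have hQ0 : ∀ c, 0 ≤ Q c := fun c =>
    add_nonneg (Hf_nonneg (hp0 _) (hp0' _)) (Hf_nonneg (hp0 _) (hp0' _))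
  have hT0 : ∀ c, 0 ≤ T c := fun c =>
    add_nonneg (Hf_nonneg (hp0 _) (hp0 _)) (Hf_nonneg (hp0' _) (hp0' _))
  -- data processing
  have hdp : ∑ c ∈ s, Q c ≤ ∑ x, Hf (mass w X x) (mass w' X x) := by
    have h1 : ∀ c : ZMod 2 × C, Hf (p c) (p' c) ≤
        ∑ x ∈ univ.filter (fun x => (y x, z x) = c), Hf (mass w X x) (mass w' X x) := by
      intro c
      have r1 : p c = ∑ x ∈ univ.filter (fun x => (y x, z x) = c), mass w X x :=
        mass_comp34 w X (fun x => (y x, z x)) c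
      have r2 : p' c = ∑ x ∈ univ.filter (fun x => (y x, z x) = c), mass w' X x :=
        mass_comp34 w' X (fun x => (y x, z x)) c
      rw [r1, r2]
      exact Hf_sum_le34 _ _ _ (fun x => mass_nonneg w hw X x) (fun x => mass_nonneg w' hw' X x)
    have h2 : ∑ c ∈ s, Q c = ∑ c ∈ (univ : Finset (ZMod 2)) ×ˢ s, Hf (p c) (p' c) := by
      rw [Finset.sum_product_right]
      refine Finset.sum_congr rfl fun c _ => ?_
      exact (Fin.sum_univ_two (fun a : Fin 2 => Hf (p ((a : ZMod 2), c)) (p' ((a : ZMod 2), c)))).symm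
    rw [h2]
    refine (Finset.sum_le_sum fun c _ => h1 c).trans ?_
    rw [Finset.sum_comm' (t' := univ) (s' := fun x => ((univ : Finset (ZMod 2)) ×ˢ s).filter
      (fun c => (y x, z x) = c))]
    · refine Finset.sum_le_sum fun x _ => ?_
      rw [Finset.sum_const]
      have h3 : (((univ : Finset (ZMod 2)) ×ˢ s).filter (fun c => (y x, z x) = c)).card ≤ 1 := by
        rw [Finset.card_le_one]
        intro a ha b hb
        rw [mem_filter] at ha hb
        rw [← ha.2, ← hb.2]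
      have h4 := Hf_nonneg (mass_nonneg w hw X x) (mass_nonneg w' hw' X x)
      rw [nsmul_eq_mul]
      have h5 : ((((univ : Finset (ZMod 2)) ×ˢ s).filter (fun c => (y x, z x) = c)).card : ℝ) ≤ 1 := by
        exact_mod_cast h3
      nlinarith
    · intro c x
      simp only [mem_filter, mem_univ, true_and, and_true]
  -- Cauchy-Schwarz
  rw [← Finset.sum_sub_distrib, ← Finset.sum_add_distrib]
  calc |∑ c ∈ s, (Hf (p (0, c)) (p (1, c)) - Hf (p' (0, c)) (p' (1, c)))|
      ≤ ∑ c ∈ s, |Hf (p (0, c)) (p (1, c)) - Hf (p' (0, c)) (p' (1, c))| :=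
        Finset.abs_sum_le_sum_abs _ _
    _ ≤ ∑ c ∈ s, 5 * (Real.sqrt (Q c) * Real.sqrt (T c)) := by
        refine Finset.sum_le_sum fun c _ => ?_
        rw [← Real.sqrt_mul (hQ0 c)]
        exact Hf_lip (hp0 _) (hp0 _) (hp0' _) (hp0' _)
    _ = 5 * ∑ c ∈ s, Real.sqrt (Q c) * Real.sqrt (T c) := by rw [Finset.mul_sum]
    _ ≤ 5 * (Real.sqrt (∑ c ∈ s, Q c) * Real.sqrt (∑ c ∈ s, T c)) :=
        mul_le_mul_of_nonneg_left (Real.sum_sqrt_mul_sqrt_le s hQ0 hT0) (by norm_num)
    _ = 5 * Real.sqrt ((∑ c ∈ s, Q c) * ∑ c ∈ s, T c) := by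
        rw [Real.sqrt_mul (Finset.sum_nonneg fun c _ => hQ0 c)]
    _ ≤ _ := by
        refine mul_le_mul_of_nonneg_left (Real.sqrt_le_sqrt ?_) (by norm_num)
        exact mul_le_mul_of_nonneg_right hdp (Finset.sum_nonneg fun c _ => hT0 c)

/-- LEMMA C, with `(Y, Z)` determined by `X` -/
theorem lemC34' [Nonempty C] (w w' : Ω → ℝ) (hw : ∀ ω, 0 ≤ w ω) (hw' : ∀ ω, 0 ≤ w' ω)
    (htot : tot w = tot w') (X : Ω → A) (Y : Ω → ZMod 2) (Z : Ω → C)
    (hX : ∀ ω ω', X ω = X ω' → Y ω = Y ω' ∧ Z ω = Z ω') :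
    |KK w Y Z - KK w' Y Z| ≤
      5 * Real.sqrt ((K0 w X + K0 w' X - 2 * K0 (fun ω => (w ω + w' ω) / 2) X) *
        (KK w Y Z + KK w' Y Z)) := by
  classical
  set y : A → ZMod 2 := fun x => if h : ∃ ω, X ω = x then Y h.choose else 0 with hy
  set z : A → C := fun x => if h : ∃ ω, X ω = x then Z h.choose else Classical.arbitrary C with hz
  have h1 : Y = fun ω => y (X ω) := by
    funext ω
    have h : ∃ ω', X ω' = X ω := ⟨ω, rfl⟩
    simp only [hy, dif_pos h]
    exact (hX _ _ h.choose_spec).1.symm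
  have h2 : Z = fun ω => z (X ω) := by
    funext ω
    have h : ∃ ω', X ω' = X ω := ⟨ω, rfl⟩
    simp only [hz, dif_pos h]
    exact (hX _ _ h.choose_spec).2.symm
  rw [h1, h2]
  exact lemC34 w w' hw hw' htot X y z

end Pool.Agent.NJ
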