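import Pool.Agent.NJ.Loc50

/-!
S19271 / NJ: the shared definitions of the local rows (verbatim from helper50's statement file
`NJ_RowsLoc50.lean`).  Import this file in every local row.
-/

set_option autoImplicit false

namespace Pool.Agent.NJ

open Finset Pool.Agent.CutSeq

/-- public coefficients -/
abbrev Cf (i j l : ℕ) := (Fin i → Fin l → ZMod 2) × (Fin j → Fin l → ZMod 2)

/-- `X + D Z`, `Y + D' Z'` where `Z`, `Z'` are the last `l` coins -/
def mix {t i j l : ℕ} (D : Cf i j l) (c : Co t (i + l) (j + l)) : Co t i j :=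
  (fun a => c.1 (Fin.castAdd l a) + ∑ b, D.1 a b • c.1 (Fin.natAdd i b),
   fun a => c.2 (Fin.castAdd l a) + ∑ b, D.2 a b • c.2 (Fin.natAdd j b))

/-- the transformation `(X, Z) ↦ (X + D Z, Z)` -/
def shr {t i j l : ℕ} (D : Cf i j l) (c : Co t (i + l) (j + l)) : Co t (i + l) (j + l) :=
  (Fin.append (mix D c).1 (fun b => c.1 (Fin.natAdd i b)),
   Fin.append (mix D c).2 (fun b => c.2 (Fin.natAdd j b)))

/-- first coins -/
def ini {t i j : ℕ} (l l' : ℕ) (c : Co t (i + l) (j + l')) : Co t i j :=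
  (fun a => c.1 (Fin.castAdd l a), fun a => c.2 (Fin.castAdd l' a))

variable {H A : Type*} [Fintype H] [Fintype A] {n t : ℕ} (S : Loc H A n t)

/-- list of the vectors of posterior probability `≥ 2 ^ (-k)` -/
noncomputable def Loc.ls (w : H → ℝ) (i j k : ℕ) (y : A × (Fin i → V n) × (Fin j → V n)) : Set (V n) :=
  lst (pw w (Co t i j)) (fun p => S.TC p.1) (S.dat i j) k y

open Classical in
/-- capped list -/
noncomputable def Loc.cl (w : H → ℝ) (i j k s : ℕ) (y : A × (Fin i → V n) × (Fin j → V n)) :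
    Set (V n) := if Nat.card (S.ls w i j k y) ≤ 2 ^ s then S.ls w i j k y else ∅

open Classical in
/-- probability, given the history, that `a` is in the capped list -/
noncomputable def Loc.pa (w : H → ℝ) (i j k s : ℕ) (h : H) (a : V n) : ℝ :=
  (∑ c : Co t i j, if a ∈ S.cl w i j k s (S.dat i j (h, c)) then (1 : ℝ) else 0)
    / (Fintype.card (Co t i j) : ℝ)

/-- the robust space -/
noncomputable def Loc.rob (w : H → ℝ) (i j k s : ℕ) (θ : ℝ) (h : H) : Submodule (ZMod 2) (V n) :=
  Submodule.span (ZMod 2) {a | a ∈ perp (S.TC h) ∧ θ ≤ S.pa w i j k s h a}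

/-- conditional entropy (unnormalised, nats) -/
noncomputable def HC {Ω A' B : Type*} [Fintype Ω] [Fintype A'] (w : Ω → ℝ) (X : Ω → A') (Y : Ω → B) : ℝ :=
  tot w * Real.log (Fintype.card A') - KK w X Y

end Pool.Agent.NJ
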