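import Pool.Agent.NJ.SibC89
import Pool.Agent.NJ.LocDefs
import Pool.Agent.NJ.Brm85

/-!
S19271, junction: from the local rows in coin space to the sibling inequality for `UU`.
-/

set_option autoImplicit false

namespace Pool.Agent.CutSeq.NJ.S89

open Finset Pool.Agent.CutSeq Pool.Agent.CutSeq.NJ Pool.Agent.NJ

section Gen

variable {Ω A B : Type*} [Fintype Ω] [Fintype A] {n : ℕ}

/-- the logarithm of the number of relations in the list, averaged -/
noncomputable def lterm (w : Ω → ℝ) (T T' : Ω → Submodule (ZMod 2) (V n)) (m : Ω → A)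
    (i y k : ℕ) : ℝ :=
  ∑ p, sib2 w T T' i y p * Real.log (Nat.card {a : V n // a ∈ perp (T' p.1) ∧
    a ∈ lst (sib2 w T T' i y) (fun p => T' p.1) (fun p => (m p.1, p.2.1, p.2.2)) k
      (m p.1, p.2.1, p.2.2)})

/-- decoder output, second form: the list term is bounded by the dimension of `W` -/
def VisOut (w : Ω → ℝ) (T T' : Ω → Submodule (ZMod 2) (V n)) (m : Ω → A) (i y M1 y0 k : ℕ)
    (d1 d2 : ℝ) : Prop :=
  ∃ (W : Ω × (Fin y0 → V n) → Submodule (ZMod 2) (V n))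
    (Wh : A × (Fin M1 → V n) × (Fin y0 → V n) → Submodule (ZMod 2) (V n)),
    (∀ p, w p.1 ≠ 0 → W p ≤ perp (T' p.1)) ∧
    pr (sib2 w T T' M1 y0) {p | W (p.1, p.2.2) ≠ Wh (m p.1, p.2.1, p.2.2)} ≤ d1 ∧
    lterm w T T' m i y k
      ≤ Real.log 2 * (∑ p, sib w T' y0 p * (Module.finrank (ZMod 2) (W p) : ℝ)) + d2

/-- one window, one number `y` of column siblings -/
theorem sib_one' (w : Ω → ℝ) (hw : ∀ ω, 0 ≤ w ω) (htot : tot w ≤ 1)
    (T T' : Ω → Submodule (ZMod 2) (V n)) (m : Ω → A) (i y q k N y0 M r : ℕ)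
    (hq : 1 ≤ q) (hnN : n ≤ N) (hkq : 2 * N ≤ k * q) (hM : 2 * y0 ≤ M) (hM1 : 1 ≤ M) (hr : 1 ≤ r)
    (hsym : UU w T T' m 0 M = UU w T T' m M 0) (e d2 : ℝ)
    (heR : UU w T T' m M y0 - UU w T T' m (M - 1) y0 ≤ e)
    (hdec : VisOut w T T' m i y (M - 1) y0 k ((1 / 2) ^ r) d2) :
    UU w T T' m i (y + 1) - UU w T T' m i y
      ≤ ((UU w T T' m i (y + q) - UU w T T' m i y)
          - q * (UU w T T' m i (y + 1) - UU w T T' m i y))
        + (UU w T T' m M y0 - UU w T T' m (M - 1) y0) + 2 * y0 * e / M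
        + 4 * ((1 / 2) ^ r * (n ^ 2 + 2 * r + 3))
        + d2 + (1 / 2) ^ N := by
  obtain ⟨W, Wh, hW, h1, h2⟩ := hdec
  have hWi : ∀ p, 0 ≤ sib2 w T T' i y p := sib2_nonneg89 w hw T T' i y
  have hq1 := quantise (sib2 w T T' i y) hWi (by rw [tot_sib2_89]; exact htot)
    (fun p => T' p.1) (fun p => (m p.1, p.2.1, p.2.2)) q k N hq hnN hkq
  have hU1 := UU_add w hw T T' m i y 1
  have hUq := UU_add w hw T T' m i y q
  unfold US at hU1 hUq
  rw [hU1, hUq] at hq1
  have hlt : ∑ p : Ω × (Fin i → V n) × (Fin y → V n), sib2 w T T' i y p *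
      Real.log (Nat.card {a : V n // a ∈ perp (T' p.1) ∧
        a ∈ lst (sib2 w T T' i y) (fun p => T' p.1) (fun p => (m p.1, p.2.1, p.2.2)) k
          (m p.1, p.2.1, p.2.2)}) = lterm w T T' m i y k := rfl
  rw [hlt] at hq1
  have hW2 : ∀ p, 0 ≤ sib2 w T T' (M - 1) y0 p := sib2_nonneg89 w hw T T' _ _
  have hL := lemmaLB w hw T T' m y0 M (by omega) hM1 W hW
  have hCE := CE_le_of_decoder (sib2 w T T' (M - 1) y0) hW2 (by rw [tot_sib2_89]; exact htot)
    (fun p => W (p.1, p.2.2)) (fun p => (m p.1, p.2.1, p.2.2)) Wh r hr h1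
  have hmono : UU w T T' m 0 M ≤ UU w T T' m M y0 := by
    rw [hsym]
    exact UU_mono w hw T T' m le_rfl (Nat.zero_le _)
  have hd0 : 0 ≤ UU w T T' m M y0 - UU w T T' m (M - 1) y0 := by
    have := UU_mono w hw T T' m (show M - 1 ≤ M by omega) (le_refl y0)
    linarith
  set δ := UU w T T' m M y0 - UU w T T' m (M - 1) y0 with hδ
  set E := Real.log 2 * ∑ p, sib w T' y0 p * (Module.finrank (ZMod 2) (W p) : ℝ) with hE
  set C := CE (sib2 w T T' (M - 1) y0) (fun p => W (p.1, p.2.2))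
    (fun p => (m p.1, p.2.1, p.2.2)) with hC
  have hC0 : 0 ≤ C := CE_nonneg _ hW2 _ _
  have hMr : (1 : ℝ) ≤ M := by exact_mod_cast hM1
  have hy0r : 2 * (y0 : ℝ) ≤ M := by exact_mod_cast hM
  have hy00 : (0 : ℝ) ≤ y0 := Nat.cast_nonneg _
  have hpos : 0 < (M : ℝ) - y0 := by linarith
  have hE0 : 0 ≤ E := by
    refine mul_nonneg (Real.log_nonneg (by norm_num)) (Finset.sum_nonneg fun p _ => ?_)
    exact mul_nonneg (sib_nonneg_sib w hw T' y0 p) (Nat.cast_nonneg _)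
  have hE1 : ((M : ℝ) - y0) * E ≤ M * δ + (M + 1) * C := by linarith
  have hE2 : E ≤ δ + 2 * y0 * e / M + 4 * C := by
    have h3 : ((M : ℝ) - y0) * E ≤ ((M : ℝ) - y0) * (δ + 2 * y0 * e / M + 4 * C) := by
      have h4 : (M + 1) * C ≤ ((M : ℝ) - y0) * (4 * C) := by nlinarith
      have h5 : M * δ ≤ ((M : ℝ) - y0) * (δ + 2 * y0 * e / M) := by
        have h6 : ((M : ℝ) - y0) * (δ + 2 * y0 * e / M)
            = M * δ - y0 * δ + (((M : ℝ) - y0) / M) * (2 * y0 * e) := by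
          field_simp
        have h7 : (1 : ℝ) / 2 ≤ ((M : ℝ) - y0) / M := by
          rw [le_div_iff₀ (by linarith)]
          linarith
        have h8 : 0 ≤ e := hd0.trans heR
        have h9 : (1 : ℝ) / 2 * (2 * y0 * e) ≤ (((M : ℝ) - y0) / M) * (2 * y0 * e) :=
          mul_le_mul_of_nonneg_right h7 (by positivity)
        have h10 : y0 * δ ≤ y0 * e := mul_le_mul_of_nonneg_left heR hy00
        rw [h6]
        linarith
      nlinarith
    exact le_of_mul_le_mul_left h3 hpos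
  linarith

/-- **SIB**, second form -/
theorem sib_main' (w : Ω → ℝ) (hw : ∀ ω, 0 ≤ w ω) (htot : tot w ≤ 1)
    (T T' : Ω → Submodule (ZMod 2) (V n)) (m : Ω → A) (i s q k N y0 M r : ℕ) (hs : 1 ≤ s)
    (hq : 1 ≤ q) (hnN : n ≤ N) (hkq : 2 * N ≤ k * q) (hM : 2 * y0 ≤ M) (hM1 : 1 ≤ M)
    (hr : 1 ≤ r) (hsym : UU w T T' m 0 M = UU w T T' m M 0) (e d2 : ℝ)
    (heC : ∀ l, l < s + q → UU w T T' m i (l + 1) - UU w T T' m i l ≤ e)
    (heR : UU w T T' m M y0 - UU w T T' m (M - 1) y0 ≤ e)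
    (hdec : ∀ y, y < s → VisOut w T T' m i y (M - 1) y0 k ((1 / 2) ^ r) d2) :
    UU w T T' m i 1 - UU w T T' m i 0
      ≤ (UU w T T' m M y0 - UU w T T' m (M - 1) y0) + (q : ℝ) ^ 2 * e / s + 2 * y0 * e / M
        + 4 * ((1 / 2) ^ r * (n ^ 2 + 2 * r + 3))
        + d2 + (1 / 2) ^ N := by
  have he : 0 ≤ e := by
    have := UU_mono w hw T T' m (show M - 1 ≤ M by omega) (le_refl y0)
    linarith
  obtain ⟨y, hy, hTC⟩ := avg_incr (fun l => UU w T T' m i l) (fun l => UU_le_succ w hw T T' m i l)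
    e he s q hs heC
  have h1 := sib_one' w hw htot T T' m i y q k N y0 M r hq hnN hkq hM hM1 hr hsym
    e d2 heR (hdec y hy)
  have h2 : UU w T T' m i 1 - UU w T T' m i 0 ≤ UU w T T' m i (y + 1) - UU w T T' m i y := by
    have hmono : Monotone (fun l => UU w T T' m i (l + 1) - UU w T T' m i l) :=
      monotone_nat_of_le_succ fun l => UU_incr w hw T T' m i l
    exact hmono (Nat.zero_le y)
  linarith

end Gen

section Coin

variable {H A : Type*} [Fintype H] [Fintype A] {n t : ℕ} (S : Loc H A n t)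

/-- the siblings of the coins -/
def sibm {i j : ℕ} (p : H × Co t i j) : H × (Fin i → V n) × (Fin j → V n) :=
  (p.1, fun a => S.row p.1 (p.2.1 a), fun b => S.col p.1 (p.2.2 b))

omit [Fintype H] [Fintype A] in
lemma row_avg (h : H) (i : ℕ) (g : (Fin i → V n) → ℝ) :
    (∑ ξ : Fin i → V t, g (fun a => S.row h (ξ a))) / (Fintype.card (Fin i → V t) : ℝ)
      = ∑ x : Fin i → V n, (∏ a, uT (S.TR h) (x a)) * g x := by
  have h1 := sum_coins (Fintype.linearCombination (ZMod 2) (S.R h)) i g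
  rw [Fintype.range_linearCombination] at h1
  simp only [Fintype.linearCombination_apply] at h1
  exact h1

omit [Fintype H] [Fintype A] in
lemma col_avg (h : H) (j : ℕ) (g : (Fin j → V n) → ℝ) :
    (∑ η : Fin j → V t, g (fun b => S.col h (η b))) / (Fintype.card (Fin j → V t) : ℝ)
      = ∑ y : Fin j → V n, (∏ b, uT (S.TC h) (y b)) * g y := by
  have h1 := sum_coins (Fintype.linearCombination (ZMod 2) (S.C h)) j g
  rw [Fintype.range_linearCombination] at h1
  simp only [Fintype.linearCombination_apply] at h1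
  exact h1

omit [Fintype A] in
/-- uniform coins give the siblings -/
theorem push_loc (w : H → ℝ) (i j : ℕ) :
    Push (pw w (Co t i j)) (sibm S) (sib2 w S.TR S.TC i j) := by
  refine push_of_sum fun g => ?_
  have h1 := sum_pw w (C := Co t i j)
    (fun h c => g (h, fun a => S.row h (c.1 a), fun b => S.col h (c.2 b)))
  refine h1.trans ?_
  rw [Fintype.sum_prod_type]
  refine Finset.sum_congr rfl fun h _ => ?_
  rw [Fintype.sum_prod_type, Fintype.sum_prod_type]
  have hc : (Fintype.card (Co t i j) : ℝ)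
      = (Fintype.card (Fin i → V t) : ℝ) * (Fintype.card (Fin j → V t) : ℝ) := by
    rw [Fintype.card_prod]
    push_cast
    rfl
  have h2 : (∑ ξ : Fin i → V t, ∑ η : Fin j → V t,
      g (h, fun a => S.row h (ξ a), fun b => S.col h (η b))) / (Fintype.card (Co t i j) : ℝ)
      = ∑ x : Fin i → V n, (∏ a, uT (S.TR h) (x a)) *
        ∑ y : Fin j → V n, (∏ b, uT (S.TC h) (y b)) * g (h, x, y) := by
    rw [← row_avg S h i, hc, mul_comm, ← div_div, Finset.sum_div]
    congr 1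
    refine Finset.sum_congr rfl fun ξ _ => ?_
    exact col_avg S h j (fun y => g (h, fun a => S.row h (ξ a), y))
  rw [h2, Finset.mul_sum]
  refine Finset.sum_congr rfl fun x _ => ?_
  rw [← mul_assoc, Finset.mul_sum]
  refine Finset.sum_congr rfl fun y _ => ?_
  unfold sib2
  ring

/-- `Loc.U` is `UU` -/
theorem loc_U (w : H → ℝ) (i j : ℕ) : S.U w i j = UU w S.TR S.TC S.m i j :=
  (push_loc S w i j).K0 (fun p => (S.m p.1, p.2.1, p.2.2))

omit [Fintype A] in
lemma loc_mass_ind (w : H → ℝ) (i j : ℕ) (a : V n) (y : A × (Fin i → V n) × (Fin j → V n)) :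
    mass (ind {p : H × Co t i j | a ∈ perp (S.TC p.1)} (pw w (Co t i j))) (S.dat i j) y
      = mass (ind {p : H × (Fin i → V n) × (Fin j → V n) | a ∈ perp (S.TC p.1)}
          (sib2 w S.TR S.TC i j)) (fun p => (S.m p.1, p.2.1, p.2.2)) y := by
  classical
  have h1 := (push_loc S w i j).sum (fun p => if a ∈ perp (S.TC p.1) ∧
    (S.m p.1, p.2.1, p.2.2) = y then 1 else 0)
  have h2 : mass (ind {p : H × Co t i j | a ∈ perp (S.TC p.1)} (pw w (Co t i j))) (S.dat i j) y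
      = ∑ p : H × Co t i j, pw w (Co t i j) p *
        (if a ∈ perp (S.TC (sibm S p).1) ∧
          (S.m (sibm S p).1, (sibm S p).2.1, (sibm S p).2.2) = y then 1 else 0) := by
    unfold mass ind
    refine Finset.sum_congr rfl fun p _ => ?_
    by_cases hy : S.dat i j p = y
    · by_cases ha : a ∈ perp (S.TC p.1)
      · rw [if_pos hy, Set.indicator_of_mem (by exact ha), if_pos ⟨ha, hy⟩, mul_one]
      · rw [if_pos hy, Set.indicator_of_notMem (by exact ha), if_neg (fun h => ha h.1), mul_zero]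
    · rw [if_neg hy, if_neg (fun h => hy h.2), mul_zero]
  have h3 : mass (ind {p : H × (Fin i → V n) × (Fin j → V n) | a ∈ perp (S.TC p.1)}
          (sib2 w S.TR S.TC i j)) (fun p => (S.m p.1, p.2.1, p.2.2)) y
      = ∑ p, sib2 w S.TR S.TC i j p * (if a ∈ perp (S.TC p.1) ∧
          (S.m p.1, p.2.1, p.2.2) = y then 1 else 0) := by
    unfold mass ind
    refine Finset.sum_congr rfl fun p _ => ?_
    by_cases hy : (S.m p.1, p.2.1, p.2.2) = y
    · by_cases ha : a ∈ perp (S.TC p.1)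
      · rw [if_pos hy, Set.indicator_of_mem (by exact ha), if_pos ⟨ha, hy⟩, mul_one]
      · rw [if_pos hy, Set.indicator_of_notMem (by exact ha), if_neg (fun h => ha h.1), mul_zero]
    · rw [if_neg hy, if_neg (fun h => hy h.2), mul_zero]
  rw [h2, h3]
  exact h1

omit [Fintype A] in
/-- the lists agree -/
theorem loc_lst (w : H → ℝ) (i j k : ℕ) (y : A × (Fin i → V n) × (Fin j → V n)) :
    lst (pw w (Co t i j)) (fun p => S.TC p.1) (S.dat i j) k y
      = lst (sib2 w S.TR S.TC i j) (fun p => S.TC p.1) (fun p => (S.m p.1, p.2.1, p.2.2)) k y := by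
  ext a
  unfold lst post
  rw [Set.mem_ofPred_eq, Set.mem_ofPred_eq, loc_mass_ind S w i j a y]
  have h1 := (push_loc S w i j).mass (fun p => (S.m p.1, p.2.1, p.2.2)) y
  have h2 : mass (pw w (Co t i j)) (S.dat i j) y
      = mass (sib2 w S.TR S.TC i j) (fun p => (S.m p.1, p.2.1, p.2.2)) y := h1
  rw [h2]

omit [Fintype A] in
/-- the list terms agree -/
theorem loc_lterm (w : H → ℝ) (i j k : ℕ) :
    ∑ p, pw w (Co t i j) p * Real.log (Nat.card {a : V n // a ∈ perp (S.TC p.1) ∧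
          a ∈ lst (pw w (Co t i j)) (fun p => S.TC p.1) (S.dat i j) k (S.dat i j p)})
      = lterm w S.TR S.TC S.m i j k := by
  unfold lterm
  rw [← (push_loc S w i j).sum]
  refine Finset.sum_congr rfl fun p _ => ?_
  rw [loc_lst S w i j k]
  rfl

omit [Fintype A] in
/-- probabilities of events of the data and of the history -/
theorem loc_pr (w : H → ℝ) (i j : ℕ) (P : H → A × (Fin i → V n) × (Fin j → V n) → Prop) :
    pr (pw w (Co t i j)) {p | P p.1 (S.dat i j p)}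
      = pr (sib2 w S.TR S.TC i j) {p | P p.1 (S.m p.1, p.2.1, p.2.2)} := by
  classical
  rw [pr_eq_sum_ite, pr_eq_sum_ite]
  exact (push_loc S w i j).sum (fun p => if p ∈ {p : H × (Fin i → V n) × (Fin j → V n) |
    P p.1 (S.m p.1, p.2.1, p.2.2)} then 1 else 0)

/-- the conclusion of row VT at the data with `i` rows and `y` columns -/
def VTc (w : H → ℝ) (i y k s : ℕ) : Prop :=
  ∃ T' : H → Submodule (ZMod 2) (V n), (∀ h, T' h ≤ perp (S.TC h)) ∧
    (∑ p, pw w (Co t i y) p * Real.log (Nat.card {a : V n // a ∈ perp (S.TC p.1) ∧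
        a ∈ lst (pw w (Co t i y)) (fun p => S.TC p.1) (S.dat i y) k (S.dat i y p)})
      ≤ Real.log 2 * ∑ h, w h * (Module.finrank (ZMod 2) (T' h) : ℝ) + 16 * (1 / 4) ^ s) ∧
    ∃ Dec : A × (Fin (i + 24 * s) → V n) × (Fin (y + 24 * s + 3 * s) → V n) →
        Submodule (ZMod 2) (V n),
      pr (pw w (Co t (i + 24 * s) (y + 24 * s + 3 * s)))
        {p | Dec (S.dat (i + 24 * s) (y + 24 * s + 3 * s) p) ≠ T' p.1} ≤ 16 * (1 / 4) ^ s

omit [Fintype A] in
theorem vis_of_loc (w : H → ℝ) (i y k s M1 y0 : ℕ) (h1 : i + 24 * s ≤ M1)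
    (h2 : y + 24 * s + 3 * s ≤ y0) (hvis : VTc S w i y k s) :
    VisOut w S.TR S.TC S.m i y M1 y0 k (16 * (1 / 4) ^ s) (16 * (1 / 4) ^ s) := by
  classical
  obtain ⟨T', hT, hl, Dec, hD⟩ := hvis
  refine ⟨fun p => T' p.1, fun d => Dec (d.1, fun a => d.2.1 (Fin.castLE h1 a),
    fun b => d.2.2 (Fin.castLE h2 b)), fun p _ => hT p.1, ?_, ?_⟩
  · refine le_trans (le_of_eq ?_) hD
    have h3 := loc_pr S w (i + 24 * s) (y + 24 * s + 3 * s) (fun h d => Dec d ≠ T' h)
    rw [h3, pr_eq_sum_ite, pr_eq_sum_ite]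
    have h4 := (push_sib2 w S.TR S.TC (Fin.castLE h1) (Fin.castLE_injective h1) (Fin.castLE h2)
      (Fin.castLE_injective h2)).sum (fun p : H × (Fin (i + 24 * s) → V n) ×
        (Fin (y + 24 * s + 3 * s) → V n) => if p ∈ {p : H × (Fin (i + 24 * s) → V n) ×
        (Fin (y + 24 * s + 3 * s) → V n) | Dec (S.m p.1, p.2.1, p.2.2) ≠ T' p.1}
        then (1 : ℝ) else 0)
    refine Eq.trans ?_ (h4.trans ?_)
    · refine Finset.sum_congr rfl fun p _ => ?_
      congr 1
      split_ifs with ha hb hb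
      · rfl
      · exact absurd (fun h => ha (Eq.symm h)) hb
      · exact absurd (fun h => hb (Eq.symm h)) ha
      · rfl
    · refine Finset.sum_congr rfl fun p _ => ?_
      congr 1
      by_cases hp : p ∈ {p : H × (Fin (i + 24 * s) → V n) × (Fin (y + 24 * s + 3 * s) → V n) |
          Dec (S.m p.1, p.2.1, p.2.2) ≠ T' p.1}
      · rw [if_pos hp, if_pos hp]
      · rw [if_neg hp, if_neg hp]
  · rw [← loc_lterm]
    have h5 : ∑ p, sib w S.TC y0 p * (Module.finrank (ZMod 2) (T' p.1) : ℝ)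
        = ∑ h, w h * (Module.finrank (ZMod 2) (T' h) : ℝ) := by
      rw [Fintype.sum_prod_type]
      refine Finset.sum_congr rfl fun h _ => ?_
      have h6 : ∀ x : Fin y0 → V n, sib w S.TC y0 (h, x) * (Module.finrank (ZMod 2) (T' h) : ℝ)
          = w h * (Module.finrank (ZMod 2) (T' h) : ℝ) * ∏ l, uT (S.TC h) (x l) := by
        intro x
        unfold sib
        ring
      simp only [h6]
      rw [← Finset.mul_sum, sum_prod_uT, mul_one]
    rw [h5]
    exact hl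

/-- **SIB** at one window, in coin space, from row VT -/
theorem loc_sib (w : H → ℝ) (hw : ∀ h, 0 ≤ w h) (hw1 : tot w ≤ 1) (i s1 s q k N y0 M : ℕ)
    (hs1 : 1 ≤ s1) (hs : 3 ≤ s) (hq : 1 ≤ q) (hnN : n ≤ N) (hkq : 2 * N ≤ k * q)
    (hy0 : s1 + 27 * s ≤ y0) (hM : 2 * y0 ≤ M) (hiM : i + 24 * s + 1 ≤ M)
    (hsym : S.U w 0 M = S.U w M 0) (e : ℝ)
    (heC : ∀ l, l < s1 + q → S.U w i (l + 1) - S.U w i l ≤ e)
    (heR : S.U w M y0 - S.U w (M - 1) y0 ≤ e)
    (hvis : ∀ y, y < s1 → VTc S w i y k s) :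
    S.U w i 1 - S.U w i 0
      ≤ (S.U w M y0 - S.U w (M - 1) y0) + (q : ℝ) ^ 2 * e / s1 + 2 * y0 * e / M
        + 64 * (1 / 4) ^ s * (n ^ 2 + 4 * s)
        + 16 * (1 / 4) ^ s + (1 / 2) ^ N := by
  simp only [loc_U] at hsym heC heR ⊢
  have hpow : (16 : ℝ) * (1 / 4) ^ s = (1 / 2) ^ (2 * s - 4) := by
    obtain ⟨u, rfl⟩ : ∃ u, s = u + 2 := ⟨s - 2, by omega⟩
    rw [show 2 * (u + 2) - 4 = 2 * u by omega, pow_add, pow_mul]
    norm_num
    ring
  have hdec : ∀ y, y < s1 → VisOut w S.TR S.TC S.m i y (M - 1) y0 k ((1 / 2) ^ (2 * s - 4))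
      (16 * (1 / 4) ^ s) := by
    intro y hy
    rw [← hpow]
    exact vis_of_loc S w i y k s (M - 1) y0 (by omega) (by omega) (hvis y hy)
  have h := sib_main' w hw hw1 S.TR S.TC S.m i s1 q k N y0 M (2 * s - 4) hs1 hq hnN hkq hM
    (by omega) (by omega) hsym e (16 * (1 / 4) ^ s) heC heR hdec
  refine h.trans ?_
  rw [← hpow]
  have h2 : (4 : ℝ) * (16 * (1 / 4) ^ s * ((n : ℝ) ^ 2 + 2 * ((2 * s - 4 : ℕ) : ℝ) + 3))
      ≤ 64 * (1 / 4) ^ s * (n ^ 2 + 4 * s) := by
    have h3 : ((2 * s - 4 : ℕ) : ℝ) = 2 * s - 4 := by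
      rw [Nat.cast_sub (by omega)]
      push_cast
      ring
    rw [h3]
    have h4 : (0 : ℝ) ≤ (1 / 4) ^ s := by positivity
    nlinarith
  linarith

end Coin

end Pool.Agent.CutSeq.NJ.S89
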