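import Pool.Agent.NJ.Junc89
import Pool.Agent.NJ.SC88
import Pool.Agent.NJ.KKW84

/-!
S19271, junction, real model: slopes of the brooms and the sibling inequality for the weights `nextG`.
-/

set_option autoImplicit false

namespace Pool.Agent.CutSeq.NJ.S89

open Finset Pool.Agent.CutSeq Pool.Agent.CutSeq.NJ Pool.Agent.NJ

section Slope

variable {H A : Type*} [Fintype H] [Fintype A] {n t : ℕ} (S : Loc H A n t)

lemma mul_log_inv_le (x : ℝ) (hx : 0 ≤ x) : x * Real.log (1 / x) ≤ 1 := by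
  rcases eq_or_lt_of_le hx with h | h
  · rw [← h]
    simp
  · have h1 := Real.log_le_sub_one_of_pos (x := 1 / x) (by positivity)
    have h2 : x * Real.log (1 / x) ≤ x * (1 / x - 1) := mul_le_mul_of_nonneg_left h1 hx
    have h3 : x * (1 / x - 1) = 1 - x := by field_simp
    linarith

/-- the brooms are cheap -/
lemma U_le_SC (w : H → ℝ) (hw : ∀ h, 0 ≤ w h) (hw1 : tot w ≤ 1) (M₀ : ℝ) (hM₀ : 0 ≤ M₀) (I : ℕ)
    (hSC : S.SC w M₀ I) (i j : ℕ) (hij : i + j ≤ I) : S.U w i j ≤ M₀ + 1 := by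
  have h1 := hSC Set.univ i j hij
  have h2 : ind Set.univ w = w := by
    unfold ind
    exact Set.indicator_univ w
  rw [h2] at h1
  have h3 : S.U w i j ≤ S.E w i j := by
    have hW := pw_nonneg (C := Co t i j) w hw
    exact K0_fst_le (pw w (Co t i j)) hW (S.dat i j)
      (fun p => fun a b => S.cor p.1 (p.2.1 a) (p.2.2 b))
  have h4 : 0 ≤ tot w := tot_nonneg w hw
  have h5 : tot w * M₀ ≤ 1 * M₀ := mul_le_mul_of_nonneg_right hw1 hM₀
  have h6 := mul_log_inv_le (tot w) h4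
  nlinarith

/-- slope in the number of column siblings -/
lemma slope_col (w : H → ℝ) (hw : ∀ h, 0 ≤ w h) (hw1 : tot w ≤ 1) (M₀ : ℝ) (hM₀ : 0 ≤ M₀) (I : ℕ)
    (hSC : S.SC w M₀ I) (i l x' : ℕ) (hx' : 1 ≤ x') (hI : i + (l + x') ≤ I) :
    S.U w i (l + 1) - S.U w i l ≤ (M₀ + 1) / x' := by
  have hb := U_le_SC S w hw hw1 M₀ hM₀ I hSC i (l + x') hI
  rw [loc_U] at hb
  rw [loc_U, loc_U]
  set f : ℕ → ℝ := fun j => UU w S.TR S.TC S.m i j with hf
  have hinc : ∀ l, f (l + 1) - f l ≤ f (l + 2) - f (l + 1) := fun l => UU_incr w hw _ _ _ i l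
  have hmono : Monotone (fun l => f (l + 1) - f l) := monotone_nat_of_le_succ hinc
  have hsum : ∀ x : ℕ, (x : ℝ) * (f (l + 1) - f l) ≤ f (l + x) - f l := by
    intro x
    induction x with
    | zero => simp
    | succ x ih =>
        have h1 : f (l + 1) - f l ≤ f (l + x + 1) - f (l + x) := hmono (Nat.le_add_right l x)
        have h2 : f (l + (x + 1)) = f (l + x + 1) := rfl
        rw [h2]
        push_cast
        linarith
  have h1 := hsum x'
  have h0 : 0 ≤ f l := by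
    simp only [hf]
    unfold UU K0
    exact KK_nonneg _ (sib2_nonneg89 w hw _ _ _ _) _ _
  have hx0 : (0 : ℝ) < x' := by exact_mod_cast hx'
  rw [le_div_iff₀ hx0]
  have h2 : f (l + x') ≤ M₀ + 1 := hb
  show (f (l + 1) - f l) * (x' : ℝ) ≤ M₀ + 1
  linarith

/-- slope in the number of row siblings -/
lemma slope_row (w : H → ℝ) (hw : ∀ h, 0 ≤ w h) (hw1 : tot w ≤ 1) (M₀ : ℝ) (hM₀ : 0 ≤ M₀) (I : ℕ)
    (hSC : S.SC w M₀ I) (i j x' : ℕ) (hx' : 1 ≤ x') (hI : (i + x') + j ≤ I) :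
    S.U w (i + 1) j - S.U w i j ≤ (M₀ + 1) / x' := by
  have hb := U_le_SC S w hw hw1 M₀ hM₀ I hSC (i + x') j hI
  rw [loc_U, ← UU_swap w hw S.TC S.TR S.m] at hb
  rw [loc_U, loc_U, ← UU_swap w hw S.TC S.TR S.m, ← UU_swap w hw S.TC S.TR S.m]
  set f : ℕ → ℝ := fun i => UU w S.TC S.TR S.m j i with hf
  have hinc : ∀ l, f (l + 1) - f l ≤ f (l + 2) - f (l + 1) := fun l => UU_incr w hw _ _ _ j l
  have hmono : Monotone (fun l => f (l + 1) - f l) := monotone_nat_of_le_succ hinc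
  have hsum : ∀ x : ℕ, (x : ℝ) * (f (i + 1) - f i) ≤ f (i + x) - f i := by
    intro x
    induction x with
    | zero => simp
    | succ x ih =>
        have h1 : f (i + 1) - f i ≤ f (i + x + 1) - f (i + x) := hmono (Nat.le_add_right i x)
        have h2 : f (i + (x + 1)) = f (i + x + 1) := rfl
        rw [h2]
        push_cast
        linarith
  have h1 := hsum x'
  have h0 : 0 ≤ f i := by
    simp only [hf]
    unfold UU K0
    exact KK_nonneg _ (sib2_nonneg89 w hw _ _ _ _) _ _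
  have hx0 : (0 : ℝ) < x' := by exact_mod_cast hx'
  rw [le_div_iff₀ hx0]
  have h2 : f (i + x') ≤ M₀ + 1 := hb
  show (f (i + 1) - f i) * (x' : ℝ) ≤ M₀ + 1
  linarith

/-- the columns cost at most `y0` slopes -/
lemma cols_le (w : H → ℝ) (hw : ∀ h, 0 ≤ w h) (hw1 : tot w ≤ 1) (M₀ : ℝ) (hM₀ : 0 ≤ M₀) (I : ℕ)
    (hSC : S.SC w M₀ I) (i y0 x' : ℕ) (hx' : 1 ≤ x') (hI : i + (y0 + x') ≤ I) :
    S.U w i y0 - S.U w i 0 ≤ y0 * ((M₀ + 1) / x') := by
  have h : ∀ y, y ≤ y0 → S.U w i y - S.U w i 0 ≤ y * ((M₀ + 1) / x') := by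
    intro y
    induction y with
    | zero => intro _; simp
    | succ y ih =>
        intro hy
        have h1 := ih (by omega)
        have h2 := slope_col S w hw hw1 M₀ hM₀ I hSC i y x' hx' (by omega)
        push_cast
        linarith
  exact h y0 le_rfl

/-- **SIB** from (SC), with the conclusion of VT as hypothesis -/
theorem sib_SC (w : H → ℝ) (hw : ∀ h, 0 ≤ w h) (hw1 : tot w ≤ 1) (M₀ : ℝ) (hM₀ : 0 ≤ M₀) (I : ℕ)
    (hSC : S.SC w M₀ I) (i s1 s k q N y0 D x' : ℕ)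
    (hs1 : 1 ≤ s1) (hs : 3 ≤ s) (hq : 1 ≤ q) (hnN : n ≤ N) (hkq : 2 * N ≤ k * q)
    (hy0 : s1 + 27 * s ≤ y0) (hD : 2 * y0 ≤ D) (hx' : 1 ≤ x')
    (hI1 : i + (s1 + q + x') ≤ I) (hI2 : i + D + x' + y0 ≤ I)
    (hsym : S.U w 0 (i + D) = S.U w (i + D) 0)
    (hvis : ∀ y, y < s1 → VTc S w i y k s) :
    S.U w i 1 - S.U w i 0
      ≤ S.U w (i + D) y0 - S.U w (i + D - 1) y0
        + ((q : ℝ) ^ 2 * ((M₀ + 1) / x') / s1 + 2 * y0 * ((M₀ + 1) / x') / D
          + 64 * (1 / 4) ^ s * (n ^ 2 + 4 * s) + 16 * (1 / 4) ^ s + (1 / 2) ^ N) := by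
  have hD1 : 1 ≤ D := by omega
  have heR : S.U w (i + D) y0 - S.U w (i + D - 1) y0 ≤ (M₀ + 1) / x' := by
    have h1 := slope_row S w hw hw1 M₀ hM₀ I hSC (i + D - 1) y0 x' hx' (by omega)
    rwa [show i + D - 1 + 1 = i + D by omega] at h1
  have h := loc_sib S w hw hw1 i s1 s q k N y0 (i + D) hs1 hs hq hnN hkq hy0 (by omega) (by omega)
    hsym ((M₀ + 1) / x')
    (fun l hl => slope_col S w hw hw1 M₀ hM₀ I hSC i l x' hx' (by omega)) heR hvis
  have h2 : 2 * (y0 : ℝ) * ((M₀ + 1) / x') / ((i + D : ℕ) : ℝ)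
      ≤ 2 * y0 * ((M₀ + 1) / x') / D := by
    have hDr : (0 : ℝ) < D := by exact_mod_cast hD1
    have hx0 : (0 : ℝ) < x' := by exact_mod_cast hx'
    refine div_le_div_of_nonneg_left (by positivity) hDr ?_
    push_cast
    have : (0 : ℝ) ≤ i := Nat.cast_nonneg i
    linarith
  linarith

end Slope

section Real

variable {B L : ℕ}

lemma fw_eq (w : Wd B L → ℝ) (hw : ∀ ω, 0 ≤ w ω) (n i : ℕ) :
    fw w 1 n i = (locR B L n).U w i 1 - (locR B L n).U w i 0 := by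
  classical
  rw [locR_U, locR_U]
  have h1 := UU_succ_right w hw (fun ω => TR (ext ω) L 1 n) (fun ω => TC (ext ω) L 1 n)
    (fun ω => wm (ext ω) L 1 n) i 0
  rw [h1]
  have h2 : eR w (fun ω => TC (ext ω) L 1 n) (fun ω => TR (ext ω) L 1 n)
      (fun ω => wm (ext ω) L 1 n) 0 i = fw w 1 n i := by
    unfold eR fw
    have h3 := (push_swap w (fun ω => TR (ext ω) L 1 n) (fun ω => TC (ext ω) L 1 n) i 1).KK
      (fun p => p.2.1 (Fin.last 0)) (fun p => (wm (ext p.1) L 1 n, p.2.2))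
    have hnn := sib2_nonneg w hw (fun ω => TR (ext ω) L 1 n) (fun ω => TC (ext ω) L 1 n) i 1
    have hnn' := sib2_nonneg w hw (fun ω => TC (ext ω) L 1 n) (fun ω => TR (ext ω) L 1 n) 1 i
    refine Eq.trans ?_ h3.symm
    refine le_antisymm (KK_finer _ hnn' _ _ _ ?_) (KK_finer _ hnn' _ _ _ ?_)
    · intro p p' _ _ h4
      have h5 : wm (ext p.1) L 1 n = wm (ext p'.1) L 1 n ∧ p.2.2 = p'.2.2 := Prod.mk.inj h4
      refine Prod.ext h5.1 (Prod.ext ?_ h5.2)
      funext l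
      exact l.elim0
    · intro p p' _ _ h4
      have h5 := Prod.mk.inj h4
      have h6 := Prod.mk.inj h5.2
      exact Prod.ext h5.1 h6.2
  rw [h2]
  ring

/-- **JUNCTION**: the sibling inequality for the weight of the next stage, real model, with the conclusion
of VT as hypothesis -/
theorem junc_of_vis {n0 : ℕ} {G : ℕ → Set (Wd B L)} (h : n0 + 2 ≤ B) (hG : Fam19 B L n0 G)
    (nA n x I i s1 s k q N y0 D x' : ℕ) (κ ε M₀ : ℝ) (hn : 1 ≤ n) (hx : 1 ≤ x)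
    (hsz : n + I + 2 * x ≤ nA) (hnA : nA ≤ n0) (hε : 0 < ε)
    (hM₀ : M₀ = κ + Real.log (1 / ε) + 4 * (nA : ℝ) ^ 2 * Real.exp (-((x : ℝ) ^ 2 / (16 * nA))))
    (hM0 : 0 ≤ M₀) (hs1 : 1 ≤ s1) (hs : 3 ≤ s) (hq : 1 ≤ q) (hnN : n ≤ N) (hkq : 2 * N ≤ k * q)
    (hy0 : s1 + 27 * s ≤ y0) (hD : 2 * y0 ≤ D) (hx' : 1 ≤ x')
    (hI1 : i + (s1 + q + x') ≤ I) (hI2 : i + D + x' + y0 ≤ I)
    (hvis : ∀ y, y < s1 → VTc (locR B L n) (ind (nextG h G nA κ ε n) (uw B L)) i y k s) :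
    fw (ind (nextG h G nA κ ε n) (uw B L)) 1 n i
      ≤ UU (ind (nextG h G nA κ ε n) (uw B L)) (fun ω => TR (ext ω) L 1 n)
          (fun ω => TC (ext ω) L 1 n) (fun ω => wm (ext ω) L 1 n) (i + D) y0
        - UU (ind (nextG h G nA κ ε n) (uw B L)) (fun ω => TR (ext ω) L 1 n)
          (fun ω => TC (ext ω) L 1 n) (fun ω => wm (ext ω) L 1 n) (i + D - 1) y0
        + ((q : ℝ) ^ 2 * ((M₀ + 1) / x') / s1 + 2 * y0 * ((M₀ + 1) / x') / D
          + 64 * (1 / 4) ^ s * (n ^ 2 + 4 * s) + 16 * (1 / 4) ^ s + (1 / 2) ^ N) := by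
  set w := ind (nextG h G nA κ ε n) (uw B L) with hwdef
  have hw : ∀ ω, 0 ≤ w ω := fun ω => ind_nonneg19 _ (fun _ => (uw_pos19 _).le) ω
  have hw1 : tot w ≤ 1 := by
    have h1 : tot w ≤ tot (uw B L) := by
      unfold tot
      refine Finset.sum_le_sum fun ω _ => ?_
      rw [hwdef]
      unfold ind
      exact Set.indicator_le_self' (fun _ _ => (uw_pos19 _).le) ω
    have h2 : tot (uw B L) ≤ 1 := by
      unfold tot uw
      rw [Finset.sum_const, Finset.card_univ, nsmul_eq_mul, mul_one_div]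
      exact div_self_le_one _
    exact h1.trans h2
  have hSC := locR_SC (L := L) h hG nA n I x hn hx hsz hnA κ ε hε
  rw [← hM₀, ← hwdef] at hSC
  have hrefl : ∀ ω, w (refl B L n ω) = w ω := by
    intro ω
    have h1 := (nextG_fam h hG nA κ ε).ref_iff h (n := n) (by omega) ω
    rw [hwdef]
    unfold ind
    by_cases hm : ω ∈ nextG h G nA κ ε n
    · rw [Set.indicator_of_mem hm, Set.indicator_of_mem (h1.2 hm)]
      rfl
    · rw [Set.indicator_of_notMem hm, Set.indicator_of_notMem (fun h2 => hm (h1.1 h2))]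
  have hsym : (locR B L n).U w 0 (i + D) = (locR B L n).U w (i + D) 0 := by
    rw [locR_U, locR_U]
    exact UU_refl88 n hn (by omega) w hw hrefl 0 (i + D)
  have hmain := sib_SC (locR B L n) w hw hw1 M₀ hM0 I hSC i s1 s k q N y0 D x' hs1 hs hq hnN hkq
    hy0 hD hx' hI1 hI2 hsym hvis
  rw [fw_eq w hw n i]
  simp only [locR_U] at hmain ⊢
  exact hmain

end Real

end Pool.Agent.CutSeq.NJ.S89
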