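import Pool.Agent.NJ.Loc50
import Pool.Agent.NJ.Brm85

/-! S19271 / NJ, row LA-b (helper43): the column siblings with uniform coins are linear siblings.

* `Loc.sum_col` (LA7): a uniform coin gives the uniform law on the column space.
* `Loc.U_sib` (LA6): `m` further column siblings are `m` linear siblings. -/

set_option autoImplicit false

namespace Pool.Agent.NJ

open Finset Pool.Agent.CutSeq

variable {H A : Type*} [Fintype H] [Fintype A] {n t : ℕ} (S : Loc H A n t)

/-- `η ↦ col h η` as a linear map -/
noncomputable def Loc.colL43 (h : H) : V t →ₗ[ZMod 2] V n :=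
  Fintype.linearCombination (ZMod 2) (S.C h)

omit [Fintype H] [Fintype A] in
lemma Loc.colL43_apply (h : H) (η : V t) : S.colL43 h η = S.col h η := by
  unfold Loc.colL43 Loc.col
  rw [Fintype.linearCombination_apply]

omit [Fintype H] [Fintype A] in
lemma Loc.range_colL43 (h : H) : LinearMap.range (S.colL43 h) = S.TC h := by
  unfold Loc.colL43 Loc.TC
  rw [Fintype.range_linearCombination]

omit [Fintype H] [Fintype A] in
/-- LA7 -/
theorem Loc.sum_col (h : H) (F : V n → ℝ) :
    (∑ η : V t, F (S.col h η)) / (Fintype.card (V t) : ℝ) = ∑ x, uT (S.TC h) x * F x := by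
  rw [← S.range_colL43 h, ← sum_coin (S.colL43 h) F]
  simp only [S.colL43_apply]

omit [Fintype H] [Fintype A] in
/-- several coins -/
theorem Loc.sum_cols (h : H) (m : ℕ) (F : (Fin m → V n) → ℝ) :
    (∑ η : Fin m → V t, F (fun b => S.col h (η b))) / (Fintype.card (Fin m → V t) : ℝ)
      = ∑ y : Fin m → V n, (∏ b, uT (S.TC h) (y b)) * F y := by
  rw [← S.range_colL43 h, ← sum_coins (S.colL43 h) m F]
  simp only [S.colL43_apply]

/-- splitting a function on `Fin (j + m)` -/
def spl43 {α : Type*} (j m : ℕ) : (Fin (j + m) → α) ≃ (Fin j → α) × (Fin m → α) where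
  toFun f := (fun b => f (Fin.castAdd m b), fun b => f (Fin.natAdd j b))
  invFun p := Fin.append p.1 p.2
  left_inv f := by
    funext b
    refine Fin.addCases (fun b => ?_) (fun b => ?_) b
    · exact Fin.append_left _ _ b
    · exact Fin.append_right _ _ b
  right_inv p := by
    refine Prod.ext ?_ ?_
    · funext b
      exact Fin.append_left p.1 p.2 b
    · funext b
      exact Fin.append_right p.1 p.2 b

omit [Fintype A] in
/-- averages over the coins of `m` further column siblings are averages over `m` linear siblings -/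
theorem Loc.sum_pw_cols (w : H → ℝ) (i j m : ℕ) (F : H × Co t i j → (Fin m → V n) → ℝ) :
    ∑ p : H × Co t i (j + m), pw w (Co t i (j + m)) p *
        F (p.1, (p.2.1, fun b => p.2.2 (Fin.castAdd m b)))
          (fun b => S.col p.1 (p.2.2 (Fin.natAdd j b)))
      = ∑ q, sib (pw w (Co t i j)) (fun p => S.TC p.1) m q * F q.1 q.2 := by
  classical
  unfold sib pw
  rw [Fintype.sum_prod_type, Fintype.sum_prod_type, Fintype.sum_prod_type]
  refine Finset.sum_congr rfl fun h _ => ?_
  rw [Fintype.sum_prod_type, Fintype.sum_prod_type]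
  refine Finset.sum_congr rfl fun ξ _ => ?_
  rw [← (spl43 j m).symm.sum_comp, Fintype.sum_prod_type]
  refine Finset.sum_congr rfl fun η _ => ?_
  have hcard : (Fintype.card (Co t i (j + m)) : ℝ) =
      (Fintype.card (Co t i j) : ℝ) * (Fintype.card (Fin m → V t) : ℝ) := by
    have : Fintype.card (Co t i (j + m)) = Fintype.card (Co t i j) * Fintype.card (Fin m → V t) := by
      rw [← Fintype.card_prod]
      exact Fintype.card_congr ((Equiv.prodCongr (Equiv.refl _) (spl43 j m)).trans
        (Equiv.prodAssoc _ _ _).symm)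
    exact_mod_cast this
  have key := S.sum_cols h m (fun y => F (h, (ξ, η)) y)
  have hL : ∀ η' : Fin m → V t,
      w h / (Fintype.card (Co t i (j + m)) : ℝ) *
          F (h, (ξ, fun b => (spl43 j m).symm (η, η') (Fin.castAdd m b)))
            (fun b => S.col h ((spl43 j m).symm (η, η') (Fin.natAdd j b)))
      = w h / (Fintype.card (Co t i j) : ℝ) *
          (F (h, (ξ, η)) (fun b => S.col h (η' b)) / (Fintype.card (Fin m → V t) : ℝ)) := by
    intro η'
    have h1 : (fun b => (spl43 j m).symm (η, η') (Fin.castAdd m b)) = η := by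
      funext b
      exact Fin.append_left η η' b
    have h2 : (fun b => S.col h ((spl43 j m).symm (η, η') (Fin.natAdd j b)))
        = fun b => S.col h (η' b) := by
      funext b
      congr 1
      exact Fin.append_right η η' b
    rw [h1, h2, hcard, ← div_div]
    ring
  refine (Finset.sum_congr rfl fun η' _ => hL η').trans ?_
  rw [← Finset.mul_sum, ← Finset.sum_div, key, Finset.mul_sum]
  refine Finset.sum_congr rfl fun y _ => ?_
  simp only
  ring

omit [Fintype A] in
/-- the law of any functions of the history, the coins and `m` further column siblings -/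
theorem Loc.law_cols (w : H → ℝ) (i j m : ℕ) {B C : Type*} [Fintype B]
    (X : H × Co t i j → (Fin m → V n) → B) (Y : H × Co t i j → (Fin m → V n) → C) :
    KK (pw w (Co t i (j + m)))
        (fun p => X (p.1, (p.2.1, fun b => p.2.2 (Fin.castAdd m b)))
          (fun b => S.col p.1 (p.2.2 (Fin.natAdd j b))))
        (fun p => Y (p.1, (p.2.1, fun b => p.2.2 (Fin.castAdd m b)))
          (fun b => S.col p.1 (p.2.2 (Fin.natAdd j b))))
      = KK (sib (pw w (Co t i j)) (fun p => S.TC p.1) m)
        (fun q => X q.1 q.2) (fun q => Y q.1 q.2) := by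
  classical
  refine KK_law _ _ _ _ _ _ fun a b => ?_
  have key := S.sum_pw_cols w i j m (fun p y => if (X p y, Y p y) = (a, b) then 1 else 0)
  unfold mass
  refine Eq.trans ?_ (key.trans ?_)
  · refine Finset.sum_congr rfl fun p _ => ?_
    by_cases h : (X (p.1, (p.2.1, fun b => p.2.2 (Fin.castAdd m b)))
          (fun b => S.col p.1 (p.2.2 (Fin.natAdd j b))),
        Y (p.1, (p.2.1, fun b => p.2.2 (Fin.castAdd m b)))
          (fun b => S.col p.1 (p.2.2 (Fin.natAdd j b)))) = (a, b)
    · refine (if_pos h).trans ?_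
      rw [if_pos h, mul_one]
    · refine (if_neg h).trans ?_
      rw [if_neg h, mul_zero]
  · refine Finset.sum_congr rfl fun q _ => ?_
    by_cases h : (X q.1 q.2, Y q.1 q.2) = (a, b)
    · refine Eq.trans ?_ (if_pos h).symm
      rw [if_pos h, mul_one]
    · refine Eq.trans ?_ (if_neg h).symm
      rw [if_neg h, mul_zero]

/-- LA6: further column siblings as linear siblings -/
theorem Loc.U_sib (w : H → ℝ) (hw : ∀ h, 0 ≤ w h) (i j m : ℕ) :
    S.U w i (j + m) = S.U w i j +
      KK (sib (pw w (Co t i j)) (fun p => S.TC p.1) m) (fun q => q.2) (fun q => S.dat i j q.1) := by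
  classical
  have hW := pw_nonneg (C := Co t i (j + m)) w hw
  have hW' : ∀ q, 0 ≤ sib (pw w (Co t i j)) (fun p => S.TC p.1) m q :=
    sib_nonneg_sib _ (pw_nonneg w hw) _ m
  -- split the last `m` siblings
  have h1 : S.U w i (j + m) = K0 (pw w (Co t i (j + m)))
      (fun p => (S.dat i j (p.1, (p.2.1, fun b => p.2.2 (Fin.castAdd m b))),
        fun b => S.col p.1 (p.2.2 (Fin.natAdd j b)))) := by
    unfold Loc.U
    refine (K0_bij _ hW _ _
      { toFun := fun z => ((z.1, z.2.1, ((spl43 j m) z.2.2).1), ((spl43 j m) z.2.2).2)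
        invFun := fun z => (z.1.1, z.1.2.1, (spl43 j m).symm (z.1.2.2, z.2))
        left_inv := fun z => by simp
        right_inv := fun z => by simp } fun p _ => ?_).symm
    rfl
  have h2 := S.law_cols w i j m (fun p y => (S.dat i j p, y)) (fun _ _ => ())
  have h3 : S.U w i (j + m) = K0 (sib (pw w (Co t i j)) (fun p => S.TC p.1) m)
      (fun q => (S.dat i j q.1, q.2)) := h1.trans h2
  rw [h3]
  unfold K0
  rw [KK_chain _ hW' (fun q => S.dat i j q.1) (fun q => q.2) (fun _ => ())]
  congr 1
  · exact KK_sib_fst _ _ m (S.dat i j) (fun _ => ())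
  · refine le_antisymm ?_ ?_
    · refine KK_finer _ hW' _ _ _ ?_
      intro ω ω' _ _ h
      show (_, ()) = (_, ())
      exact Prod.ext h rfl
    · refine KK_finer _ hW' _ _ _ ?_
      intro ω ω' _ _ h
      exact (Prod.mk.inj h).1

end Pool.Agent.NJ
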