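import Pool.Agent.NJ.Loc50
import Pool.Agent.NJ.EntA76

/-! S19271 / NJ, row LA-a: basic facts on the entropies of double brooms. -/

set_option autoImplicit false

namespace Pool.Agent.NJ

open Finset Pool.Agent.CutSeq Pool.Agent.CutSeq.NJ

section Gen76

variable {Ω A A' A'' B C C' H : Type*} [Fintype Ω] [Fintype H] [Fintype C] [Fintype C']

/-- the relative entropy only depends on the partition and the number of values -/
theorem KK_congr76 [Fintype A] [Fintype A'] (w : Ω → ℝ) (hw : ∀ ω, 0 ≤ w ω) (X : Ω → A)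
    (X' : Ω → A') (Y : Ω → B) (hcard : Fintype.card A' = Fintype.card A)
    (h : ∀ ω ω', X ω = X ω' ↔ X' ω = X' ω') : KK w X' Y = KK w X Y := by
  rw [KK_eq_sub_CE w hw, KK_eq_sub_CE w hw, hcard,
    CE_congr w hw X X' Y (fun ω ω' _ _ _ => h ω ω')]

theorem K0_congr76 [Fintype A] [Fintype A'] (w : Ω → ℝ) (hw : ∀ ω, 0 ≤ w ω) (X : Ω → A)
    (X' : Ω → A') (hcard : Fintype.card A' = Fintype.card A)
    (h : ∀ ω ω', X ω = X ω' ↔ X' ω = X' ω') : K0 w X' = K0 w X :=
  KK_congr76 w hw X X' _ hcard h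

/-- monotonicity -/
theorem K0_mono76 [Fintype A] [Fintype A'] (w : Ω → ℝ) (hw : ∀ ω, 0 ≤ w ω) (D : Ω → A)
    (X : Ω → A') : K0 w D ≤ K0 w (fun ω => (D ω, X ω)) := by
  unfold K0
  rw [KK_chain w hw D X]
  have := KK_nonneg w hw X (fun ω => (D ω, ()))
  linarith

/-- submodularity -/
theorem K0_submod76 [Fintype A] [Fintype A'] [Fintype A''] (w : Ω → ℝ) (hw : ∀ ω, 0 ≤ w ω)
    (D : Ω → A) (X : Ω → A') (X' : Ω → A'') :
    K0 w (fun ω => (D ω, X ω)) + K0 w (fun ω => (D ω, X' ω)) ≤
      K0 w D + K0 w (fun ω => (D ω, (X ω, X' ω))) := by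
  unfold K0
  rw [KK_chain w hw D X, KK_chain w hw D X', KK_chain w hw D (fun ω => (X ω, X' ω))]
  have := KK_super w hw X X' (fun ω => (D ω, ()))
  linarith

/-- averages along a surjective homomorphism -/
lemma avg_hom76 {G G' : Type*} [AddCommGroup G] [AddCommGroup G'] [Fintype G] [Fintype G']
    (π : G → G') (hadd : ∀ x y, π (x + y) = π x + π y) (hs : Function.Surjective π)
    (F : G' → ℝ) :
    (∑ g, F (π g)) / (Fintype.card G : ℝ) = (∑ g', F g') / (Fintype.card G' : ℝ) := by
  have h1 : ∀ y : G', ∑ g, F (π g + y) = ∑ g, F (π g) := by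
    intro y
    obtain ⟨a, rfl⟩ := hs y
    rw [← Equiv.sum_comp (Equiv.addRight a) (fun g => F (π g))]
    refine Finset.sum_congr rfl fun g _ => ?_
    rw [Equiv.coe_addRight, hadd]
  have h2 : ∑ y : G', ∑ g : G, F (π g + y) = (Fintype.card G' : ℝ) * ∑ g, F (π g) := by
    rw [Finset.sum_congr rfl fun y _ => h1 y, Finset.sum_const, Finset.card_univ, nsmul_eq_mul]
  have h3 : ∑ y : G', ∑ g : G, F (π g + y) = (Fintype.card G : ℝ) * ∑ y, F y := by
    rw [Finset.sum_comm]
    have h4 : ∀ g : G, ∑ y : G', F (π g + y) = ∑ y, F y := fun g =>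
      Equiv.sum_comp (Equiv.addLeft (π g)) F
    rw [Finset.sum_congr rfl fun g _ => h4 g, Finset.sum_const, Finset.card_univ, nsmul_eq_mul]
  have hG : (0 : ℝ) < Fintype.card G := by
    have : Nonempty G := ⟨0⟩
    exact_mod_cast Fintype.card_pos
  have hG' : (0 : ℝ) < Fintype.card G' := by
    have : Nonempty G' := ⟨0⟩
    exact_mod_cast Fintype.card_pos
  rw [div_eq_div_iff hG.ne' hG'.ne']
  rw [h2] at h3
  linarith

/-- laws along a surjective homomorphism of the coins -/
lemma mass_pw_hom76 [AddCommGroup C] [AddCommGroup C'] (w : H → ℝ) (π : C' → C)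
    (hadd : ∀ x y, π (x + y) = π x + π y) (hs : Function.Surjective π) (X : H × C → A) (a : A) :
    mass (pw w C') (fun p => X (p.1, π p.2)) a = mass (pw w C) X a := by
  classical
  unfold mass
  have h1 := sum_pw (C := C') w (fun h c => if X (h, π c) = a then 1 else 0)
  have h2 := sum_pw (C := C) w (fun h c => if X (h, c) = a then 1 else 0)
  have h3 : ∀ h : H, (∑ c : C', if X (h, π c) = a then (1 : ℝ) else 0) / (Fintype.card C' : ℝ) =
      (∑ c : C, if X (h, c) = a then (1 : ℝ) else 0) / (Fintype.card C : ℝ) := fun h =>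
    avg_hom76 π hadd hs (fun c => if X (h, c) = a then (1 : ℝ) else 0)
  have h4 : ∑ h, w h * ((∑ c : C', if X (h, π c) = a then (1 : ℝ) else 0) / (Fintype.card C' : ℝ)) =
      ∑ h, w h * ((∑ c : C, if X (h, c) = a then (1 : ℝ) else 0) / (Fintype.card C : ℝ)) :=
    Finset.sum_congr rfl fun h _ => by rw [h3 h]
  rw [h4, ← h2] at h1
  refine Eq.trans ?_ (h1.trans ?_)
  · refine Finset.sum_congr rfl fun p _ => ?_
    split <;> simp
  · refine Finset.sum_congr rfl fun p _ => ?_
    split <;> simp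

theorem KK_pw_hom76 [Fintype A] [AddCommGroup C] [AddCommGroup C'] (w : H → ℝ) (π : C' → C)
    (hadd : ∀ x y, π (x + y) = π x + π y) (hs : Function.Surjective π) (X : H × C → A)
    (Y : H × C → B) :
    KK (pw w C') (fun p => X (p.1, π p.2)) (fun p => Y (p.1, π p.2)) = KK (pw w C) X Y :=
  KK_law _ _ _ _ _ _ fun a b => mass_pw_hom76 w π hadd hs (fun q => (X q, Y q)) (a, b)

theorem K0_pw_hom76 [Fintype A] [AddCommGroup C] [AddCommGroup C'] (w : H → ℝ) (π : C' → C)
    (hadd : ∀ x y, π (x + y) = π x + π y) (hs : Function.Surjective π) (X : H × C → A) :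
    K0 (pw w C') (fun p => X (p.1, π p.2)) = K0 (pw w C) X :=
  KK_pw_hom76 w π hadd hs X (fun _ => ())

end Gen76

variable {H A : Type*} [Fintype H] [Fintype A] {n t : ℕ} (S : Loc H A n t)

/-- sub-family of the coins -/
def sel76 {t I J i j : ℕ} (sg : Fin i → Fin I) (ta : Fin j → Fin J) (c : Co t I J) : Co t i j :=
  (fun a => c.1 (sg a), fun b => c.2 (ta b))

lemma sel76_add {t I J i j : ℕ} (sg : Fin i → Fin I) (ta : Fin j → Fin J) (c c' : Co t I J) :
    sel76 sg ta (c + c') = sel76 sg ta c + sel76 sg ta c' := rfl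

lemma sel76_surj {t I J i j : ℕ} (sg : Fin i → Fin I) (ta : Fin j → Fin J)
    (hsg : Function.Injective sg) (hta : Function.Injective ta) :
    Function.Surjective (sel76 (t := t) sg ta) := by
  intro c
  refine ⟨(Function.extend sg c.1 0, Function.extend ta c.2 0), ?_⟩
  refine Prod.ext (funext fun a => ?_) (funext fun b => ?_)
  · exact hsg.extend_apply c.1 0 a
  · exact hta.extend_apply c.2 0 b

/-- the entropy of a broom, inside a larger family of coins -/
theorem Loc.U_sel76 (w : H → ℝ) {I J i j : ℕ} (sg : Fin i → Fin I) (ta : Fin j → Fin J)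
    (hsg : Function.Injective sg) (hta : Function.Injective ta) :
    K0 (pw w (Co t I J)) (fun p => S.dat i j (p.1, sel76 sg ta p.2)) = S.U w i j :=
  K0_pw_hom76 w (sel76 sg ta) (sel76_add sg ta) (sel76_surj sg ta hsg hta) (S.dat i j)

/-- LA1 -/
theorem Loc.U_le_E (w : H → ℝ) (hw : ∀ h, 0 ≤ w h) (i j : ℕ) : S.U w i j ≤ S.E w i j :=
  K0_mono76 (pw w (Co t i j)) (pw_nonneg w hw) (S.dat i j) _

/-- LA2 -/
theorem Loc.U_swap (w : H → ℝ) (hw : ∀ h, 0 ≤ w h) (i j : ℕ) : S.swap.U w j i = S.U w i j := by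
  have h1 := K0_pw_hom76 w (fun c : Co t i j => (c.2, c.1)) (fun _ _ => rfl)
    (fun c => ⟨(c.2, c.1), rfl⟩) (S.swap.dat j i)
  have h2 : K0 (pw w (Co t i j)) (fun p => S.swap.dat j i (p.1, (p.2.2, p.2.1))) = S.U w i j := by
    refine K0_congr76 (pw w (Co t i j)) (pw_nonneg w hw) (S.dat i j) _ ?_ ?_
    · simp only [Fintype.card_prod]
      ring
    · intro p p'
      simp only [Loc.dat, Prod.mk.injEq]
      constructor
      · rintro ⟨h3, h4, h5⟩
        exact ⟨h3, h5, h4⟩
      · rintro ⟨h3, h4, h5⟩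
        exact ⟨h3, h5, h4⟩
  exact h1.symm.trans h2

theorem Loc.E_swap (w : H → ℝ) (hw : ∀ h, 0 ≤ w h) (i j : ℕ) : S.swap.E w j i = S.E w i j := by
  have h1 := K0_pw_hom76 w (fun c : Co t i j => (c.2, c.1)) (fun _ _ => rfl)
    (fun c => ⟨(c.2, c.1), rfl⟩) (S.swap.edat j i)
  have hc : ∀ (h : H) (ξ η : V t), S.swap.cor h ξ η = S.cor h η ξ := by
    intro h ξ η
    unfold Loc.cor
    rw [Finset.sum_comm]
    refine Finset.sum_congr rfl fun r _ => Finset.sum_congr rfl fun r' _ => ?_
    show ξ r' * η r * S.Q h r r' = η r * ξ r' * S.Q h r r'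
    ring
  have h2 : K0 (pw w (Co t i j)) (fun p => S.swap.edat j i (p.1, (p.2.2, p.2.1))) = S.E w i j := by
    refine K0_congr76 (pw w (Co t i j)) (pw_nonneg w hw) (S.edat i j) _ ?_ ?_
    · have e : Fintype.card (Fin j → Fin i → ZMod 2) = Fintype.card (Fin i → Fin j → ZMod 2) := by
        simp only [Fintype.card_fun, Fintype.card_fin, ZMod.card]
        rw [← pow_mul, ← pow_mul, mul_comm]
      simp only [Fintype.card_prod]
      rw [e]
      ring
    · intro p p'
      simp only [Loc.edat, Loc.dat, Prod.mk.injEq, hc]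
      constructor
      · rintro ⟨⟨h3, h4, h5⟩, h6⟩
        refine ⟨⟨h3, h5, h4⟩, ?_⟩
        funext a b
        exact congrFun (congrFun h6 b) a
      · rintro ⟨⟨h3, h4, h5⟩, h6⟩
        refine ⟨⟨h3, h5, h4⟩, ?_⟩
        funext a b
        exact congrFun (congrFun h6 b) a
  exact h1.symm.trans h2

lemma card_step76 (A : Type*) [Fintype A] (n i j : ℕ) :
    Fintype.card (A × (Fin i → V n) × (Fin (j + 1) → V n)) =
      Fintype.card ((A × (Fin i → V n) × (Fin j → V n)) × V n) := by
  simp only [Fintype.card_prod, Fintype.card_fun, Fintype.card_fin]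
  ring

/-- LA3 -/
theorem Loc.U_mono_j (w : H → ℝ) (hw : ∀ h, 0 ≤ w h) (i j : ℕ) : S.U w i j ≤ S.U w i (j + 1) := by
  have hW := pw_nonneg (C := Co t i (j + 1)) w hw
  have h1 := S.U_sel76 w (I := i) (J := j + 1) (id : Fin i → Fin i) (Fin.castSucc : Fin j → Fin (j + 1))
    Function.injective_id (Fin.castSucc_injective j)
  have h2 := K0_mono76 (pw w (Co t i (j + 1))) hW
    (fun p => S.dat i j (p.1, sel76 (id : Fin i → Fin i) Fin.castSucc p.2))
    (fun p => S.col p.1 (p.2.2 (Fin.last j)))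
  have h3 : S.U w i (j + 1) = K0 (pw w (Co t i (j + 1)))
      (fun p => (S.dat i j (p.1, sel76 (id : Fin i → Fin i) Fin.castSucc p.2),
        S.col p.1 (p.2.2 (Fin.last j)))) := by
    refine K0_congr76 (pw w (Co t i (j + 1))) hW _ _ (card_step76 A n i j) ?_
    intro p p'
    simp only [Loc.dat, sel76, Prod.mk.injEq, funext_iff, Fin.forall_fin_succ', id]
    tauto
  rw [h3, ← h1]
  exact h2

/-- LA4 -/
theorem Loc.U_convex_j (w : H → ℝ) (hw : ∀ h, 0 ≤ w h) (i j : ℕ) :
    2 * S.U w i (j + 1) ≤ S.U w i j + S.U w i (j + 2) := by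
  have hW := pw_nonneg (C := Co t i (j + 2)) w hw
  set D : H × Co t i (j + 2) → A × (Fin i → V n) × (Fin j → V n) := fun p =>
    S.dat i j (p.1, sel76 (id : Fin i → Fin i) (fun b : Fin j => b.castSucc.castSucc) p.2) with hD
  set y1 : H × Co t i (j + 2) → V n := fun p => S.col p.1 (p.2.2 (Fin.last j).castSucc) with hy1
  set y2 : H × Co t i (j + 2) → V n := fun p => S.col p.1 (p.2.2 (Fin.last (j + 1))) with hy2
  have hsub := K0_submod76 (pw w (Co t i (j + 2))) hW D y1 y2
  have h0 : K0 (pw w (Co t i (j + 2))) D = S.U w i j :=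
    S.U_sel76 w (id : Fin i → Fin i) (fun b : Fin j => b.castSucc.castSucc) Function.injective_id
      (fun a b hab => Fin.castSucc_injective _ (Fin.castSucc_injective _ hab))
  have h1 : K0 (pw w (Co t i (j + 2))) (fun p => (D p, y1 p)) = S.U w i (j + 1) := by
    rw [← S.U_sel76 w (I := i) (J := j + 2) (id : Fin i → Fin i)
      (Fin.castSucc : Fin (j + 1) → Fin (j + 2)) Function.injective_id (Fin.castSucc_injective _)]
    refine K0_congr76 _ hW _ _ (card_step76 A n i j).symm ?_
    intro p p'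
    simp only [hD, hy1, Loc.dat, sel76, Prod.mk.injEq, funext_iff, Fin.forall_fin_succ', id]
    tauto
  have h2 : K0 (pw w (Co t i (j + 2))) (fun p => (D p, y2 p)) = S.U w i (j + 1) := by
    set ta : Fin (j + 1) → Fin (j + 2) :=
      Fin.snoc (α := fun _ => Fin (j + 2)) (fun b : Fin j => b.castSucc.castSucc) (Fin.last (j + 1))
      with hta
    have hta1 : ∀ b : Fin j, ta b.castSucc = b.castSucc.castSucc := fun b => by
      simp only [hta, Fin.snoc_castSucc]
    have hta2 : ta (Fin.last j) = Fin.last (j + 1) := by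
      simp only [hta, Fin.snoc_last]
    have hinj : Function.Injective ta := by
      intro a b
      refine Fin.lastCases ?_ (fun a => ?_) a
      · refine Fin.lastCases (fun _ => rfl) (fun b => ?_) b
        rw [hta1, hta2]
        intro h
        have h' := congrArg Fin.val h
        simp only [Fin.val_last, Fin.val_castSucc] at h'
        have := b.isLt
        omega
      · refine Fin.lastCases ?_ (fun b => ?_) b
        · rw [hta1, hta2]
          intro h
          have h' := congrArg Fin.val h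
          simp only [Fin.val_last, Fin.val_castSucc] at h'
          have := a.isLt
          omega
        · rw [hta1, hta1]
          intro h
          exact Fin.castSucc_injective _ h
    rw [← S.U_sel76 w (I := i) (J := j + 2) (id : Fin i → Fin i) ta Function.injective_id hinj]
    refine K0_congr76 _ hW _ _ (card_step76 A n i j).symm ?_
    intro p p'
    simp only [hD, hy2, Loc.dat, sel76, Prod.mk.injEq, funext_iff, Fin.forall_fin_succ', id, hta1,
      hta2]
    tauto
  have h3 : K0 (pw w (Co t i (j + 2))) (fun p => (D p, (y1 p, y2 p))) = S.U w i (j + 2) := by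
    refine K0_congr76 _ hW _ _ ?_ ?_
    · simp only [Fintype.card_prod, Fintype.card_fun, Fintype.card_fin]
      ring
    · intro p p'
      simp only [hD, hy1, hy2, Loc.dat, sel76, Prod.mk.injEq, funext_iff, Fin.forall_fin_succ', id]
      tauto
  rw [h0, h1, h2, h3] at hsub
  linarith

/-- LA5 -/
theorem Loc.U_super (w : H → ℝ) (hw : ∀ h, 0 ≤ w h) (i j : ℕ) :
    S.U w (i + 1) j + S.U w i (j + 1) ≤ S.U w i j + S.U w (i + 1) (j + 1) := by
  have hW := pw_nonneg (C := Co t (i + 1) (j + 1)) w hw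
  set D : H × Co t (i + 1) (j + 1) → A × (Fin i → V n) × (Fin j → V n) := fun p =>
    S.dat i j (p.1, sel76 (Fin.castSucc : Fin i → Fin (i + 1)) (Fin.castSucc : Fin j → Fin (j + 1))
      p.2) with hD
  set x1 : H × Co t (i + 1) (j + 1) → V n := fun p => S.row p.1 (p.2.1 (Fin.last i)) with hx1
  set y1 : H × Co t (i + 1) (j + 1) → V n := fun p => S.col p.1 (p.2.2 (Fin.last j)) with hy1
  have hsub := K0_submod76 (pw w (Co t (i + 1) (j + 1))) hW D x1 y1
  have h0 : K0 (pw w (Co t (i + 1) (j + 1))) D = S.U w i j :=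
    S.U_sel76 w (Fin.castSucc : Fin i → Fin (i + 1)) (Fin.castSucc : Fin j → Fin (j + 1))
      (Fin.castSucc_injective _) (Fin.castSucc_injective _)
  have h1 : K0 (pw w (Co t (i + 1) (j + 1))) (fun p => (D p, x1 p)) = S.U w (i + 1) j := by
    rw [← S.U_sel76 w (I := i + 1) (J := j + 1) (id : Fin (i + 1) → Fin (i + 1))
      (Fin.castSucc : Fin j → Fin (j + 1)) Function.injective_id (Fin.castSucc_injective _)]
    refine K0_congr76 _ hW _ _ ?_ ?_
    · simp only [Fintype.card_prod, Fintype.card_fun, Fintype.card_fin]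
      ring
    · intro p p'
      simp only [hD, hx1, Loc.dat, sel76, Prod.mk.injEq, funext_iff, Fin.forall_fin_succ', id]
      tauto
  have h2 : K0 (pw w (Co t (i + 1) (j + 1))) (fun p => (D p, y1 p)) = S.U w i (j + 1) := by
    rw [← S.U_sel76 w (I := i + 1) (J := j + 1) (Fin.castSucc : Fin i → Fin (i + 1))
      (id : Fin (j + 1) → Fin (j + 1)) (Fin.castSucc_injective _) Function.injective_id]
    refine K0_congr76 _ hW _ _ (card_step76 A n i j).symm ?_
    intro p p'
    simp only [hD, hy1, Loc.dat, sel76, Prod.mk.injEq, funext_iff, Fin.forall_fin_succ', id]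
    tauto
  have h3 : K0 (pw w (Co t (i + 1) (j + 1))) (fun p => (D p, (x1 p, y1 p))) =
      S.U w (i + 1) (j + 1) := by
    refine K0_congr76 _ hW _ _ ?_ ?_
    · simp only [Fintype.card_prod, Fintype.card_fun, Fintype.card_fin]
      ring
    · intro p p'
      simp only [hD, hx1, hy1, Loc.dat, sel76, Prod.mk.injEq, funext_iff, Fin.forall_fin_succ']
      tauto
  rw [h0, h1, h2, h3] at hsub
  linarith

end Pool.Agent.NJ
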