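import Pool.Agent.CutSeq.Quant

/-!
S19271, row LB: the list bound.

If the list of the vectors of posterior probability at least `2 ^ (-k)` has more than `2 ^ s` elements,
then with conditional probability `2 ^ (-k - 1)` at least `2 ^ (s - k - 1)` of them are true, and `r` test
siblings are orthogonal to `s - k - 1` independent elements of the list.
-/

set_option autoImplicit false

namespace Pool.Agent.CutSeq.NJ

open Finset

variable {n : ℕ}

/-- the vectors orthogonal to `u` independent vectors -/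
lemma card_orth (u : ℕ) (t : Fin u → V n) (ht : LinearIndependent (ZMod 2) t) :
    (Nat.card {y : V n // ∀ j, y ⬝ᵥ t j = 0} : ℝ) * 2 ^ u = 2 ^ n := by
  classical
  set M : Matrix (Fin u) (Fin n) (ZMod 2) := Matrix.of t with hM
  have hr : M.rank = u := by
    have := LinearIndependent.rank_matrix (M := M) ht
    simpa using this
  have h1 := LinearMap.finrank_range_add_finrank_ker M.mulVecLin
  have h2 : Module.finrank (ZMod 2) (LinearMap.range M.mulVecLin) = u := hr
  rw [h2, Module.finrank_fin_fun] at h1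
  have h3 : Nat.card {y : V n // ∀ j, y ⬝ᵥ t j = 0} = Nat.card (LinearMap.ker M.mulVecLin) := by
    refine Nat.card_congr (Equiv.subtypeEquivRight fun y => ?_)
    rw [LinearMap.mem_ker, Matrix.mulVecLin_apply]
    constructor
    · intro h
      funext j
      show t j ⬝ᵥ y = 0
      rw [dotProduct_comm]
      exact h j
    · intro h j
      have := congrFun h j
      rw [dotProduct_comm]
      exact this
  have h4 : Nat.card (LinearMap.ker M.mulVecLin)
      = 2 ^ Module.finrank (ZMod 2) (LinearMap.ker M.mulVecLin) := by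
    have := Module.card_eq_pow_finrank (K := ZMod 2) (V := LinearMap.ker M.mulVecLin)
    rw [Nat.card_eq_fintype_card, this, ZMod.card]
  rw [h3, h4]
  push_cast
  rw [← pow_add]
  congr 1
  omega

/-- a set with at least `2 ^ u` elements contains `u` independent vectors -/
lemma exists_indep (S : Finset (V n)) (u : ℕ) (h : 2 ^ u ≤ S.card) :
    ∃ t : Fin u → V n, LinearIndependent (ZMod 2) t ∧ ∀ j, t j ∈ S := by
  classical
  obtain ⟨b, hbs, hspan, hlin⟩ := exists_linearIndependent (ZMod 2) (S : Set (V n))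
  have hfin : b.Finite := Set.toFinite b
  have : Fintype b := hfin.fintype
  have hdim : Module.finrank (ZMod 2) (Submodule.span (ZMod 2) (S : Set (V n))) = Fintype.card b := by
    rw [← hspan, finrank_span_set_eq_card hlin, Set.toFinset_card]
  have hcard : S.card ≤ 2 ^ Fintype.card b := by
    have h1 := Module.card_eq_pow_finrank (K := ZMod 2)
      (V := Submodule.span (ZMod 2) (S : Set (V n)))
    rw [hdim, ZMod.card] at h1
    rw [← h1, ← Fintype.card_coe]
    exact Fintype.card_le_of_injective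
      (fun x : S => (⟨x.1, Submodule.subset_span x.2⟩ : Submodule.span (ZMod 2) (S : Set (V n))))
      (fun x y hxy => Subtype.ext (by simpa using hxy))
  have hu : u ≤ Fintype.card b := by
    by_contra hlt
    push Not at hlt
    have := Nat.pow_lt_pow_right (by norm_num : 1 < 2) hlt
    omega
  let e : Fin (Fintype.card b) ≃ b := (Fintype.equivFin b).symm
  refine ⟨fun j => (e (Fin.castLE hu j) : V n), ?_, fun j => hbs (e _).2⟩
  exact hlin.comp (fun j => e (Fin.castLE hu j)) (e.injective.comp (Fin.castLE_injective hu))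

/-- number of the test tuples which are orthogonal to many elements of a list -/
lemma card_tests (Lo : Finset (V n)) (s u r : ℕ) (hLo : Lo.card ≤ 2 ^ s) :
    (Nat.card {Y : Fin r → V n // 2 ^ u ≤ (Lo.filter fun a => ∀ b, Y b ⬝ᵥ a = 0).card} : ℝ) * 2 ^ (r * u)
      ≤ 2 ^ (s * u) * Fintype.card (Fin r → V n) := by
  classical
  set I : Finset (Fin u → V n) :=
    (Fintype.piFinset fun _ : Fin u => Lo).filter fun t => LinearIndependent (ZMod 2) t with hI
  have hIc : (I.card : ℝ) ≤ 2 ^ (s * u) := by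
    have h1 : I.card ≤ Lo.card ^ u := by
      refine (Finset.card_filter_le _ _).trans ?_
      rw [Fintype.card_piFinset]
      simp
    have h2 : Lo.card ^ u ≤ 2 ^ (s * u) := by
      rw [pow_mul]
      exact Nat.pow_le_pow_left hLo u
    exact_mod_cast h1.trans h2
  have hsub : (Nat.card {Y : Fin r → V n // 2 ^ u ≤ (Lo.filter fun a => ∀ b, Y b ⬝ᵥ a = 0).card} : ℝ)
      ≤ ∑ t ∈ I, (Nat.card {Y : Fin r → V n // ∀ b, ∀ j, Y b ⬝ᵥ t j = 0} : ℝ) := by
    have h1 : (univ.filter fun Y : Fin r → V n => 2 ^ u ≤ (Lo.filter fun a => ∀ b, Y b ⬝ᵥ a = 0).card)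
        ⊆ I.biUnion fun t => univ.filter fun Y : Fin r → V n => ∀ b, ∀ j, Y b ⬝ᵥ t j = 0 := by
      intro Y hY
      rw [mem_filter] at hY
      obtain ⟨t, ht, htm⟩ := exists_indep _ u hY.2
      rw [mem_biUnion]
      refine ⟨t, ?_, ?_⟩
      · rw [hI, mem_filter, Fintype.mem_piFinset]
        exact ⟨fun j => (mem_filter.1 (htm j)).1, ht⟩
      · rw [mem_filter]
        exact ⟨mem_univ _, fun b j => (mem_filter.1 (htm j)).2 b⟩
    have h2 := (Finset.card_le_card h1).trans Finset.card_biUnion_le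
    have h3 : Nat.card {Y : Fin r → V n // 2 ^ u ≤ (Lo.filter fun a => ∀ b, Y b ⬝ᵥ a = 0).card}
        = (univ.filter fun Y : Fin r → V n =>
          2 ^ u ≤ (Lo.filter fun a => ∀ b, Y b ⬝ᵥ a = 0).card).card := by
      rw [Nat.card_eq_fintype_card, Fintype.card_subtype]
    have h4 : ∀ t : Fin u → V n, Nat.card {Y : Fin r → V n // ∀ b, ∀ j, Y b ⬝ᵥ t j = 0}
        = (univ.filter fun Y : Fin r → V n => ∀ b, ∀ j, Y b ⬝ᵥ t j = 0).card := by
      intro t
      rw [Nat.card_eq_fintype_card, Fintype.card_subtype]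
    rw [h3]
    simp only [h4]
    exact_mod_cast h2
  have hone : ∀ t ∈ I, (Nat.card {Y : Fin r → V n // ∀ b, ∀ j, Y b ⬝ᵥ t j = 0} : ℝ) * 2 ^ (r * u)
      = Fintype.card (Fin r → V n) := by
    intro t ht
    have hlin : LinearIndependent (ZMod 2) t := (mem_filter.1 ht).2
    have h1 : Nat.card {Y : Fin r → V n // ∀ b, ∀ j, Y b ⬝ᵥ t j = 0}
        = (Nat.card {y : V n // ∀ j, y ⬝ᵥ t j = 0}) ^ r := by
      have e : {Y : Fin r → V n // ∀ b, ∀ j, Y b ⬝ᵥ t j = 0}
          ≃ (Fin r → {y : V n // ∀ j, y ⬝ᵥ t j = 0}) :=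
        { toFun := fun Y b => ⟨Y.1 b, Y.2 b⟩
          invFun := fun Z => ⟨fun b => (Z b).1, fun b => (Z b).2⟩
          left_inv := fun _ => rfl
          right_inv := fun _ => rfl }
      rw [Nat.card_congr e, Nat.card_pi]
      simp
    have h2 := card_orth u t hlin
    rw [h1, mul_comm r u, pow_mul]
    push_cast
    rw [← mul_pow, h2]
    rw [Fintype.card_pi]
    simp
  calc (Nat.card {Y : Fin r → V n // 2 ^ u ≤ (Lo.filter fun a => ∀ b, Y b ⬝ᵥ a = 0).card} : ℝ)
        * 2 ^ (r * u)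
      ≤ (∑ t ∈ I, (Nat.card {Y : Fin r → V n // ∀ b, ∀ j, Y b ⬝ᵥ t j = 0} : ℝ)) * 2 ^ (r * u) :=
        mul_le_mul_of_nonneg_right hsub (by positivity)
    _ = ∑ t ∈ I, (Fintype.card (Fin r → V n) : ℝ) := by
        rw [Finset.sum_mul]
        exact Finset.sum_congr rfl hone
    _ = I.card * (Fintype.card (Fin r → V n) : ℝ) := by
        rw [Finset.sum_const, nsmul_eq_mul]
    _ ≤ 2 ^ (s * u) * Fintype.card (Fin r → V n) :=
        mul_le_mul_of_nonneg_right hIc (Nat.cast_nonneg _)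

section LB

variable {Ω A : Type*} [Fintype Ω] [Fintype A]

open Classical in
/-- the list as a finite set -/
noncomputable def lstF (w : Ω → ℝ) (T : Ω → Submodule (ZMod 2) (V n)) (d : Ω → A) (k : ℕ) (y : A) :
    Finset (V n) := univ.filter fun a => a ∈ lst w T d k y

omit [Fintype A] in
lemma mem_lstF (w : Ω → ℝ) (T : Ω → Submodule (ZMod 2) (V n)) (d : Ω → A) (k : ℕ) (y : A) (a : V n) :
    a ∈ lstF w T d k y ↔ (1 / 2 : ℝ) ^ k ≤ post w T d a y := by
  classical
  unfold lstF
  rw [mem_filter]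
  exact ⟨fun h => h.2, fun h => ⟨mem_univ _, h⟩⟩

open Classical in
/-- mean number of true elements of a sublist -/
lemma mean_true (w : Ω → ℝ) (hw : ∀ ω, 0 ≤ w ω) (T : Ω → Submodule (ZMod 2) (V n)) (d : Ω → A) (k : ℕ)
    (Lo : A → Finset (V n)) (hLo : ∀ y, Lo y ⊆ lstF w T d k y) :
    (1 / 2 : ℝ) ^ k * ∑ ω, w ω * ((Lo (d ω)).card : ℝ)
      ≤ ∑ ω, w ω * (∑ a ∈ Lo (d ω), if a ∈ perp (T ω) then (1 : ℝ) else 0) := by
  classical
  have e1 : ∑ ω, w ω * ((Lo (d ω)).card : ℝ) = ∑ a, ∑ y, mass w d y * (if a ∈ Lo y then 1 else 0) := by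
    rw [sum_eq_sum_mass w d univ (fun _ _ => mem_univ _) (fun y => ((Lo y).card : ℝ)), Finset.sum_comm]
    refine Finset.sum_congr rfl fun y _ => ?_
    rw [← Finset.mul_sum]
    congr 1
    rw [Finset.sum_ite_mem, Finset.univ_inter]
    simp
  have e2 : ∑ ω, w ω * (∑ a ∈ Lo (d ω), if a ∈ perp (T ω) then (1 : ℝ) else 0)
      = ∑ a, ∑ y, mass (ind {ω | a ∈ perp (T ω)} w) d y * (if a ∈ Lo y then 1 else 0) := by
    have h1 : ∀ a, ∑ y, mass (ind {ω | a ∈ perp (T ω)} w) d y * (if a ∈ Lo y then (1 : ℝ) else 0)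
        = ∑ ω, ind {ω | a ∈ perp (T ω)} w ω * (if a ∈ Lo (d ω) then 1 else 0) := fun a =>
      (sum_eq_sum_mass (ind {ω | a ∈ perp (T ω)} w) d univ (fun _ _ => mem_univ _)
        (fun y => if a ∈ Lo y then (1 : ℝ) else 0)).symm
    simp only [h1]
    rw [Finset.sum_comm]
    refine Finset.sum_congr rfl fun ω _ => ?_
    have h2 : ∀ a, ind {ω | a ∈ perp (T ω)} w ω * (if a ∈ Lo (d ω) then (1 : ℝ) else 0)
        = w ω * (if a ∈ Lo (d ω) then (if a ∈ perp (T ω) then (1 : ℝ) else 0) else 0) := by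
      intro a
      unfold ind
      by_cases h : a ∈ perp (T ω)
      · rw [Set.indicator_of_mem (by exact h), if_pos h]
      · rw [Set.indicator_of_notMem (by exact h), if_neg h]
        simp
    simp only [h2]
    rw [← Finset.mul_sum]
    congr 1
    rw [Finset.sum_ite_mem, Finset.univ_inter]
  rw [e1, e2, Finset.mul_sum]
  refine Finset.sum_le_sum fun a _ => ?_
  rw [Finset.mul_sum]
  refine Finset.sum_le_sum fun y _ => ?_
  by_cases ha : a ∈ Lo y
  · rw [if_pos ha, mul_one, mul_one]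
    have hp := (mem_lstF w T d k y a).1 (hLo y ha)
    unfold post at hp
    rcases eq_or_ne (mass w d y) 0 with hm | hm
    · rw [hm, div_zero] at hp
      exact absurd hp (not_le.2 (by positivity))
    · have hm0 : 0 < mass w d y := lt_of_le_of_ne (mass_nonneg w hw d y) (Ne.symm hm)
      rwa [le_div_iff₀ hm0] at hp
  · rw [if_neg ha]
    simp

/-- **List bound.**  `hTB` is the tilt bound for the data with `r` test siblings. -/
theorem list_bound (w : Ω → ℝ) (hw : ∀ ω, 0 ≤ w ω) (T : Ω → Submodule (ZMod 2) (V n)) (d : Ω → A)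
    (r k s : ℕ) (hs : k + 1 ≤ s) (q : ℝ)
    (hTB : ∀ E : Set (A × (Fin r → V n)),
      (Nat.card E : ℝ) * 2 ^ (r * (s - k - 1)) ≤ 2 ^ (s * (s - k - 1)) * Fintype.card (A × (Fin r → V n)) →
      pr (sib w T r) {p | (d p.1, p.2) ∈ E} ≤ q) :
    pr w {ω | 2 ^ s < Nat.card (lst w T d k (d ω))} ≤ 2 ^ (k + 1) * q := by
  classical
  set u : ℕ := s - k - 1 with hu
  -- the sublists
  have hcardlst : ∀ y, Nat.card (lst w T d k y) = (lstF w T d k y).card := by
    intro y
    have : ((lstF w T d k y : Finset (V n)) : Set (V n)) = lst w T d k y := by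
      ext a
      rw [Finset.mem_coe, mem_lstF]
      rfl
    rw [← this]
    simp
  have hex : ∀ y, ∃ Lo : Finset (V n), Lo ⊆ lstF w T d k y ∧
      Lo.card = if 2 ^ s < (lstF w T d k y).card then 2 ^ s else 0 := by
    intro y
    by_cases h : 2 ^ s < (lstF w T d k y).card
    · obtain ⟨Lo, h1, h2⟩ := Finset.exists_subset_card_eq h.le
      exact ⟨Lo, h1, by rw [if_pos h]; exact h2⟩
    · exact ⟨∅, Finset.empty_subset _, by rw [if_neg h]; rfl⟩
  choose Lo hLosub hLocard using hex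
  have hLoc : ∀ y, (Lo y).card ≤ 2 ^ s := by
    intro y
    rw [hLocard]
    split
    · exact le_rfl
    · exact Nat.zero_le _
  -- the event
  set E : Set (A × (Fin r → V n)) :=
    {z | 2 ^ u ≤ ((Lo z.1).filter fun a => ∀ b, z.2 b ⬝ᵥ a = 0).card} with hE
  have hEcard : (Nat.card E : ℝ) * 2 ^ (r * u) ≤ 2 ^ (s * u) * Fintype.card (A × (Fin r → V n)) := by
    have h1 : (Nat.card E : ℝ) = ∑ y : A, (Nat.card {Y : Fin r → V n //
        2 ^ u ≤ ((Lo y).filter fun a => ∀ b, Y b ⬝ᵥ a = 0).card} : ℝ) := by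
      have e : E ≃ (Σ y : A, {Y : Fin r → V n //
          2 ^ u ≤ ((Lo y).filter fun a => ∀ b, Y b ⬝ᵥ a = 0).card}) :=
        { toFun := fun z => ⟨z.1.1, ⟨z.1.2, z.2⟩⟩
          invFun := fun z => ⟨(z.1, z.2.1), z.2.2⟩
          left_inv := fun _ => rfl
          right_inv := fun _ => rfl }
      rw [Nat.card_congr e, Nat.card_sigma]
      push_cast
      rfl
    rw [h1, Finset.sum_mul, Fintype.card_prod]
    refine (Finset.sum_le_sum fun y _ => card_tests (Lo y) s u r (hLoc y)).trans ?_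
    rw [Finset.sum_const, Finset.card_univ, nsmul_eq_mul]
    push_cast
    linarith [mul_comm (Fintype.card A : ℝ) (2 ^ (s * u) * (Fintype.card (Fin r → V n) : ℝ))]
  have hpr := hTB E hEcard
  -- true elements
  set big : Set Ω := {ω | 2 ^ s < Nat.card (lst w T d k (d ω))} with hbig
  set tr : Ω → ℕ := fun ω => ((Lo (d ω)).filter fun a => a ∈ perp (T ω)).card with htr
  have hlow : pr w {ω | 2 ^ u ≤ tr ω} ≤ pr (sib w T r) {p | (d p.1, p.2) ∈ E} := by
    unfold pr tot
    rw [Fintype.sum_prod_type]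
    refine Finset.sum_le_sum fun ω _ => ?_
    by_cases h : 2 ^ u ≤ tr ω
    · have h0 : ind {ω | 2 ^ u ≤ tr ω} w ω = w ω := Set.indicator_of_mem (by exact h) w
      have hsum : w ω = ∑ Y : Fin r → V n, w ω * ∏ i, uT (T ω) (Y i) := by
        rw [← Finset.mul_sum, sum_prod_uT, mul_one]
      rw [h0, hsum]
      refine Finset.sum_le_sum fun Y _ => ?_
      by_cases hY : sib w T r (ω, Y) = 0
      · have h1 : w ω * ∏ i, uT (T ω) (Y i) = 0 := hY
        rw [h1]
        exact Set.indicator_nonneg (fun p _ => sib_nonneg w hw T r p) _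
      · obtain ⟨_, hx⟩ := sib_ne hY
        have hmem : ((ω, Y) : Ω × (Fin r → V n)) ∈ {p : Ω × (Fin r → V n) | (d p.1, p.2) ∈ E} := by
          show 2 ^ u ≤ ((Lo (d ω)).filter fun a => ∀ b, Y b ⬝ᵥ a = 0).card
          refine h.trans (Finset.card_le_card ?_)
          intro a ha
          rw [mem_filter] at ha ⊢
          exact ⟨ha.1, fun b => (mem_perp (T ω) a).1 ha.2 (Y b) (hx b)⟩
        have h1 : ind {p : Ω × (Fin r → V n) | (d p.1, p.2) ∈ E} (sib w T r) (ω, Y) = sib w T r (ω, Y) :=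
          Set.indicator_of_mem hmem _
        rw [h1]
        exact le_rfl
    · have h0 : ind {ω | 2 ^ u ≤ tr ω} w ω = 0 := Set.indicator_of_notMem (by exact h) w
      rw [h0]
      exact Finset.sum_nonneg fun Y _ => Set.indicator_nonneg (fun p _ => sib_nonneg w hw T r p) _
  have hmean := mean_true w hw T d k Lo hLosub
  have h1 : ∑ ω, w ω * ((Lo (d ω)).card : ℝ) = 2 ^ s * pr w big := by
    unfold pr tot
    rw [Finset.mul_sum]
    refine Finset.sum_congr rfl fun ω _ => ?_
    rw [hLocard, ← hcardlst]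
    by_cases h : 2 ^ s < Nat.card (lst w T d k (d ω))
    · rw [if_pos h]
      have : ind big w ω = w ω := Set.indicator_of_mem (by exact h) w
      rw [this]
      push_cast
      ring
    · rw [if_neg h]
      have : ind big w ω = 0 := Set.indicator_of_notMem (by exact h) w
      rw [this]
      simp
  have h2 : ∑ ω, w ω * (∑ a ∈ Lo (d ω), if a ∈ perp (T ω) then (1 : ℝ) else 0)
      ≤ 2 ^ s * pr w {ω | 2 ^ u ≤ tr ω} + 2 ^ u * pr w big := by
    unfold pr tot
    rw [Finset.mul_sum, Finset.mul_sum, ← Finset.sum_add_distrib]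
    refine Finset.sum_le_sum fun ω _ => ?_
    have e1 : (∑ a ∈ Lo (d ω), if a ∈ perp (T ω) then (1 : ℝ) else 0) = (tr ω : ℝ) := by
      rw [htr]
      simp only
      rw [← Finset.sum_filter, Finset.sum_const, nsmul_eq_mul, mul_one]
    rw [e1]
    have hI1 : 0 ≤ ind big w ω := Set.indicator_nonneg (fun ω _ => hw ω) ω
    have hI2 : 0 ≤ ind {ω | 2 ^ u ≤ tr ω} w ω := Set.indicator_nonneg (fun ω _ => hw ω) ω
    have htl : (tr ω : ℝ) ≤ ((Lo (d ω)).card : ℝ) := by
      exact_mod_cast Finset.card_filter_le _ _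
    by_cases hb : 2 ^ s < Nat.card (lst w T d k (d ω))
    · have eb : ind big w ω = w ω := Set.indicator_of_mem (by exact hb) w
      have hLo2 : ((Lo (d ω)).card : ℝ) ≤ 2 ^ s := by exact_mod_cast hLoc (d ω)
      by_cases ht : 2 ^ u ≤ tr ω
      · have et : ind {ω | 2 ^ u ≤ tr ω} w ω = w ω := Set.indicator_of_mem (by exact ht) w
        rw [eb, et]
        have h3 : w ω * (tr ω : ℝ) ≤ w ω * 2 ^ s := mul_le_mul_of_nonneg_left (htl.trans hLo2) (hw ω)
        have h4 : 0 ≤ (2 : ℝ) ^ u * w ω := mul_nonneg (by positivity) (hw ω)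
        linarith
      · push Not at ht
        rw [eb]
        have h3 : (tr ω : ℝ) ≤ 2 ^ u := by exact_mod_cast ht.le
        have h4 : w ω * (tr ω : ℝ) ≤ w ω * 2 ^ u := mul_le_mul_of_nonneg_left h3 (hw ω)
        have h5 : 0 ≤ (2 : ℝ) ^ s * ind {ω | 2 ^ u ≤ tr ω} w ω := mul_nonneg (by positivity) hI2
        linarith
    · have h3 : (Lo (d ω)).card = 0 := by
        rw [hLocard, ← hcardlst, if_neg hb]
      have h4 : (tr ω : ℝ) = 0 := by
        have : tr ω ≤ 0 := by
          rw [← h3]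
          exact Finset.card_filter_le _ _
        have : tr ω = 0 := by omega
        exact_mod_cast this
      rw [h4, mul_zero]
      positivity
  -- conclusion
  have hpq : pr w {ω | 2 ^ u ≤ tr ω} ≤ q := hlow.trans hpr
  have hprb : 0 ≤ pr w big := by
    unfold pr tot
    exact Finset.sum_nonneg fun ω _ => Set.indicator_nonneg (fun ω _ => hw ω) ω
  rw [h1] at hmean
  have h3 : (1 / 2 : ℝ) ^ k * (2 ^ s * pr w big) ≤ 2 ^ s * q + 2 ^ u * pr w big := by
    have := mul_le_mul_of_nonneg_left hpq (by positivity : (0 : ℝ) ≤ 2 ^ s)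
    linarith
  obtain ⟨v, hv⟩ : ∃ v, s = k + 1 + v := ⟨s - (k + 1), by omega⟩
  have huv : u = v := by omega
  rw [huv, hv] at h3
  have e1 : (1 / 2 : ℝ) ^ k * (2 ^ (k + 1 + v) * pr w big) = 2 * (2 ^ v * pr w big) := by
    rw [pow_add, pow_add]
    have : (1 / 2 : ℝ) ^ k * 2 ^ k = 1 := by
      rw [← mul_pow]
      norm_num
    calc (1 / 2 : ℝ) ^ k * (2 ^ k * 2 ^ 1 * 2 ^ v * pr w big)
        = ((1 / 2 : ℝ) ^ k * 2 ^ k) * (2 * (2 ^ v * pr w big)) := by ring
      _ = 2 * (2 ^ v * pr w big) := by rw [this, one_mul]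
  have e2 : (2 : ℝ) ^ (k + 1 + v) * q = 2 ^ v * (2 ^ (k + 1) * q) := by
    rw [pow_add]
    ring
  rw [e1, e2] at h3
  have h4 : (2 : ℝ) ^ v * pr w big ≤ 2 ^ v * (2 ^ (k + 1) * q) := by linarith
  exact le_of_mul_le_mul_left h4 (by positivity)

end LB

end Pool.Agent.CutSeq.NJ
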