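import Pool.Agent.NJ.LocDefs
import Pool.Agent.NJ.Brm85
import Pool.Agent.NJ.ListBd97

/-!
S19271 / NJ, row LB (helper58): further column siblings in coin space are linear siblings (bridge), and
the bound of the list in the language of `Loc`.
-/

set_option autoImplicit false

namespace Pool.Agent.NJ

open Finset Pool.Agent.CutSeq

variable {H A : Type*} {n t : ℕ} (S : Loc H A n t)

/-- the column sibling as a linear function of its coins -/
def Loc.colL58 (h : H) : V t →ₗ[ZMod 2] V n := Fintype.linearCombination (ZMod 2) (S.C h)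

lemma Loc.colL58_apply (h : H) (η : V t) : S.colL58 h η = S.col h η := by
  unfold Loc.colL58 Loc.col
  rw [Fintype.linearCombination_apply]

lemma Loc.range_colL58 (h : H) : LinearMap.range (S.colL58 h) = S.TC h := by
  unfold Loc.colL58 Loc.TC
  exact Fintype.range_linearCombination (ZMod 2) (S.C h)

/-- sums over the coins of `r` columns -/
lemma Loc.sum_cols58 (h : H) (r : ℕ) (g : (Fin r → V n) → ℝ) :
    (∑ η : Fin r → V t, g (fun b => S.col h (η b))) / (Fintype.card (Fin r → V t) : ℝ)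
      = ∑ y : Fin r → V n, (∏ b, uT (S.TC h) (y b)) * g y := by
  have h1 := sum_coins (S.colL58 h) r g
  rw [S.range_colL58 h] at h1
  rw [← h1]
  rfl

/-- splitting the coins of `j + r` columns -/
lemma sum_Co58 (i j r : ℕ) (G : Co t i (j + r) → ℝ) :
    ∑ c, G c = ∑ c : Co t i j, ∑ η : Fin r → V t, G (c.1, Fin.append c.2 η) := by
  rw [Fintype.sum_prod_type, Fintype.sum_prod_type]
  refine Finset.sum_congr rfl fun x _ => ?_
  rw [← (Fin.appendEquiv j r).sum_comp (fun c2 => G (x, c2)), Fintype.sum_prod_type]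
  rfl

lemma card_Co58 (i j r : ℕ) : (Fintype.card (Co t i (j + r)) : ℝ)
    = (Fintype.card (Co t i j) : ℝ) * (Fintype.card (Fin r → V t) : ℝ) := by
  have h1 := sum_Co58 (t := t) i j r (fun _ => (1 : ℝ))
  simp only [Finset.sum_const, Finset.card_univ, nsmul_eq_mul, mul_one] at h1
  linarith

/-- **Bridge**: `r` further column siblings in coin space are `r` linear siblings. -/
theorem Loc.bridge58 [Fintype H] (w : H → ℝ) (i j r : ℕ) (F : (H × Co t i j) → (Fin r → V n) → ℝ) :
    ∑ p : H × Co t i (j + r), pw w (Co t i (j + r)) p *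
        F (p.1, (p.2.1, fun b => p.2.2 (Fin.castAdd r b))) (fun b => S.col p.1 (p.2.2 (Fin.natAdd j b)))
      = ∑ q, sib (pw w (Co t i j)) (fun p => S.TC p.1) r q * F q.1 q.2 := by
  have hL := sum_pw w (fun (h : H) (c : Co t i (j + r)) =>
    F (h, (c.1, fun b => c.2 (Fin.castAdd r b))) (fun b => S.col h (c.2 (Fin.natAdd j b))))
  rw [hL, sum_sib]
  have hR := sum_pw w (fun (h : H) (c : Co t i j) =>
    ∑ x : Fin r → V n, (∏ b, uT (S.TC h) (x b)) * F (h, c) x)
  rw [hR]
  refine Finset.sum_congr rfl fun h _ => ?_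
  congr 1
  rw [sum_Co58, card_Co58]
  rw [mul_comm (Fintype.card (Co t i j) : ℝ), ← div_div, Finset.sum_div]
  congr 1
  refine Finset.sum_congr rfl fun c _ => ?_
  rw [← S.sum_cols58 h r (fun y => F (h, c) y)]
  congr 1
  refine Finset.sum_congr rfl fun η _ => ?_
  simp only [Fin.append_left, Fin.append_right]

open Classical in
/-- probabilities through the bridge -/
theorem Loc.pr_bridge58 [Fintype H] (w : H → ℝ) (i j r : ℕ) (E : Set ((H × Co t i j) × (Fin r → V n))) :
    pr (sib (pw w (Co t i j)) (fun p => S.TC p.1) r) E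
      = pr (pw w (Co t i (j + r))) {p | ((p.1, (p.2.1, fun b => p.2.2 (Fin.castAdd r b))),
          (fun b => S.col p.1 (p.2.2 (Fin.natAdd j b)))) ∈ E} := by
  have h1 := S.bridge58 w i j r (fun p y => if (p, y) ∈ E then (1 : ℝ) else 0)
  rw [pr_eq_sum, pr_eq_sum]
  have h2 : ∀ (x : ℝ) (P : Prop), (if P then x else 0) = x * (if P then 1 else 0) := by
    intro x P
    split <;> simp
  simp only [Set.mem_ofPred_eq]
  rw [Finset.sum_congr rfl fun q _ => h2 _ _, Finset.sum_congr rfl fun q _ => h2 _ _]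
  exact h1.symm

/-- regrouping of the data of `j + r` columns -/
def spl58 {A : Type*} {n i j r : ℕ} :
    (A × (Fin i → V n) × (Fin (j + r) → V n)) ≃ ((A × (Fin i → V n) × (Fin j → V n)) × (Fin r → V n)) where
  toFun z := ((z.1, z.2.1, fun b => z.2.2 (Fin.castAdd r b)), fun b => z.2.2 (Fin.natAdd j b))
  invFun z := (z.1.1, z.1.2.1, Fin.append z.1.2.2 z.2)
  left_inv := by
    rintro ⟨a, x, y⟩
    simp only [Prod.mk.injEq, true_and]
    funext b
    refine Fin.addCases (fun b => ?_) (fun b => ?_) b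
    · rw [Fin.append_left]
    · rw [Fin.append_right]
  right_inv := by
    rintro ⟨⟨a, x, y⟩, z⟩
    simp only [Prod.mk.injEq, true_and]
    exact ⟨funext fun b => Fin.append_left _ _ b, funext fun b => Fin.append_right _ _ b⟩

lemma Loc.spl_dat58 (i j r : ℕ) (p : H × Co t i (j + r)) :
    spl58 (S.dat i (j + r) p) = (S.dat i j (p.1, (p.2.1, fun b => p.2.2 (Fin.castAdd r b))),
      fun b => S.col p.1 (p.2.2 (Fin.natAdd j b))) := rfl

/-- LB from the tilt bound -/
theorem Loc.list_short_of58 [Fintype H] [Fintype A] (w : H → ℝ) (hw : ∀ h, 0 ≤ w h) (i j k s l r : ℕ)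
    (hks : k + 1 ≤ s)
    (hTB : ∀ E : Set (A × (Fin i → V n) × (Fin (j + r) → V n)),
      (Nat.card E : ℝ) * 2 ^ (r * (s - k - 1)) ≤ 2 ^ (s * (s - k - 1)) *
        Fintype.card (A × (Fin i → V n) × (Fin (j + r) → V n)) →
      pr (pw w (Co t i (j + r))) {p | S.dat i (j + r) p ∈ E} ≤ 16 * (1 / 2) ^ l) :
    pr (pw w (Co t i j)) {p | 2 ^ s < Nat.card (S.ls w i j k (S.dat i j p))}
      ≤ 2 ^ (k + 5) * (1 / 2) ^ l := by
  have h := CutSeq.NJ.list_bound (pw w (Co t i j)) (fun p => pw_nonneg w hw p)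
    (fun p : H × Co t i j => S.TC p.1) (S.dat i j) r k s hks (16 * (1 / 2) ^ l) (by
      intro E hE
      have h1 := hTB (spl58 ⁻¹' E) (by
        have e1 : Nat.card (spl58 (A := A) (n := n) (i := i) (j := j) (r := r) ⁻¹' E) = Nat.card E :=
          Nat.card_congr (spl58.subtypeEquiv fun _ => Iff.rfl)
        have e2 : Fintype.card (A × (Fin i → V n) × (Fin (j + r) → V n))
            = Fintype.card ((A × (Fin i → V n) × (Fin j → V n)) × (Fin r → V n)) :=
          Fintype.card_congr spl58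
        rw [e1, e2]
        exact hE)
      rw [S.pr_bridge58]
      exact h1)
  have e3 : (2 : ℝ) ^ (k + 5) * (1 / 2) ^ l = 2 ^ (k + 1) * (16 * (1 / 2) ^ l) := by
    rw [pow_add, pow_add]
    ring
  rw [e3]
  exact h

end Pool.Agent.NJ
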