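import Pool.Agent.NJ.LocDefs
import Pool.Agent.NJ.LemmaL36

/-!
S19271 / NJ, row LL: Lemma L in coin space (from Lemma L for siblings in subspaces).
-/

set_option autoImplicit false

namespace Pool.Agent.NJ

open Finset Pool.Agent.CutSeq Pool.Agent.CutSeq.NJ

/-- the image of the uniform law on coins under a linear map is the uniform law on the range -/
theorem sum_lin_uT94 {n t : ℕ} (f : V t →ₗ[ZMod 2] V n) (F : V n → ℝ) :
    (∑ η : V t, F (f η)) / (Fintype.card (V t) : ℝ) = ∑ x, uT (LinearMap.range f) x * F x := by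
  classical
  have hcard : ∀ x ∈ LinearMap.range f, (Finset.univ.filter fun η : V t => f η = x).card
      = Fintype.card (LinearMap.ker f) := by
    rintro x ⟨η₀, rfl⟩
    rw [Fintype.card_of_subtype (s := Finset.univ.filter fun η : V t => f η = 0)
      (fun η => by simp [LinearMap.mem_ker])]
    refine Finset.card_bij (fun η _ => η - η₀) ?_ ?_ ?_
    · intro η hη
      simp only [Finset.mem_filter, Finset.mem_univ, true_and] at hη ⊢
      rw [map_sub, hη, sub_self]
    · intro a _ b _ h
      simpa using h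
    · intro b hb
      simp only [Finset.mem_filter, Finset.mem_univ, true_and] at hb
      refine ⟨b + η₀, ?_, by simp⟩
      simp only [Finset.mem_filter, Finset.mem_univ, true_and]
      rw [map_add, hb, zero_add]
  have hmul : (Fintype.card (V t) : ℝ)
      = (Fintype.card (LinearMap.ker f) : ℝ) * (Nat.card (LinearMap.range f) : ℝ) := by
    have h1 := Submodule.card_eq_card_quotient_mul_card (LinearMap.ker f)
    have h2 := Nat.card_congr f.quotKerEquivRange.toEquiv
    rw [h2] at h1
    rw [← Nat.card_eq_fintype_card, h1, Nat.card_eq_fintype_card (α := LinearMap.ker f)]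
    push_cast
    ring
  have hk : (0 : ℝ) < (Fintype.card (LinearMap.ker f) : ℝ) := by
    exact_mod_cast Fintype.card_pos
  have hr : (0 : ℝ) < (Nat.card (LinearMap.range f) : ℝ) := by
    exact_mod_cast Nat.card_pos
  have h3 : ∑ η : V t, F (f η)
      = ∑ x, ((Finset.univ.filter fun η : V t => f η = x).card : ℝ) * F x := by
    rw [← Finset.sum_fiberwise (s := Finset.univ) (g := fun η : V t => f η)]
    refine Finset.sum_congr rfl fun x _ => ?_
    rw [Finset.sum_congr rfl (g := fun _ => F x) (fun η hη => by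
      rw [(Finset.mem_filter.1 hη).2]), Finset.sum_const, nsmul_eq_mul]
  rw [h3, Finset.sum_div]
  refine Finset.sum_congr rfl fun x _ => ?_
  by_cases hx : x ∈ LinearMap.range f
  · rw [hcard x hx, hmul]
    unfold uT
    rw [if_pos hx]
    field_simp
  · have h0 : (Finset.univ.filter fun η : V t => f η = x) = ∅ := by
      rw [Finset.filter_eq_empty_iff]
      intro η _ hη
      exact hx ⟨η, hη⟩
    rw [h0]
    unfold uT
    rw [if_neg hx]
    simp

/-- average of a product form over families of coins -/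
theorem avg_pi94 {n t i : ℕ} (f : V t →ₗ[ZMod 2] V n) (G : (Fin i → V n) → ℝ) :
    (∑ ξ : Fin i → V t, G (fun a => f (ξ a))) / (Fintype.card (Fin i → V t) : ℝ)
      = ∑ x : Fin i → V n, (∏ a, uT (LinearMap.range f) (x a)) * G x := by
  classical
  induction i with
  | zero =>
    rw [Fintype.sum_unique, Fintype.sum_unique]
    simp only [Finset.univ_eq_empty, Finset.prod_empty, one_mul]
    have h1 : (Fintype.card (Fin 0 → V t) : ℝ) = 1 := by simp
    rw [h1, div_one]
    congr 1
    funext a
    exact a.elim0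
  | succ i ih =>
    have e1 : ∑ ξ : Fin (i + 1) → V t, G (fun a => f (ξ a))
        = ∑ ξ₀ : V t, ∑ ξ : Fin i → V t, G (Fin.cons (f ξ₀) (fun a => f (ξ a))) := by
      rw [← (Fin.consEquiv (fun _ : Fin (i + 1) => V t)).sum_comp, Fintype.sum_prod_type]
      refine Finset.sum_congr rfl fun ξ₀ _ => Finset.sum_congr rfl fun ξ _ => ?_
      congr 1
      funext a
      refine Fin.cases ?_ (fun b => ?_) a <;> simp [Fin.consEquiv]
    have e2 : ∑ x : Fin (i + 1) → V n, (∏ a, uT (LinearMap.range f) (x a)) * G x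
        = ∑ x₀ : V n, uT (LinearMap.range f) x₀ *
          ∑ x : Fin i → V n, (∏ a, uT (LinearMap.range f) (x a)) * G (Fin.cons x₀ x) := by
      rw [← (Fin.consEquiv (fun _ : Fin (i + 1) => V n)).sum_comp, Fintype.sum_prod_type]
      refine Finset.sum_congr rfl fun x₀ _ => ?_
      rw [Finset.mul_sum]
      refine Finset.sum_congr rfl fun x _ => ?_
      rw [Fin.prod_univ_succ]
      simp only [Fin.consEquiv, Equiv.coe_fn_mk, Fin.cons_zero, Fin.cons_succ]
      ring
    rw [e1, e2, ← sum_lin_uT94 f (fun x₀ => ∑ x : Fin i → V n,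
      (∏ a, uT (LinearMap.range f) (x a)) * G (Fin.cons x₀ x))]
    have e3 : ∀ x₀ : V n, ∑ x : Fin i → V n, (∏ a, uT (LinearMap.range f) (x a)) * G (Fin.cons x₀ x)
        = (∑ ξ : Fin i → V t, G (Fin.cons x₀ (fun a => f (ξ a)))) / (Fintype.card (Fin i → V t) : ℝ) :=
      fun x₀ => (ih (fun x => G (Fin.cons x₀ x))).symm
    simp only [e3]
    rw [← Finset.sum_div, div_div]
    congr 1
    have hc : ∀ j : ℕ, (Fintype.card (Fin j → V t) : ℝ) = (Fintype.card (V t) : ℝ) ^ j := by
      intro j
      rw [Fintype.card_fun, Fintype.card_fin]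
      push_cast
      rfl
    rw [hc, hc]
    ring

namespace Loc

variable {H A : Type*} [Fintype H] [Fintype A] {n t : ℕ} (S : Loc H A n t)

/-- a row sibling is a linear function of its coins -/
def rowL94 (h : H) : V t →ₗ[ZMod 2] V n where
  toFun := S.row h
  map_add' := by
    intro x y
    simp [Loc.row, add_smul, Finset.sum_add_distrib]
  map_smul' := by
    intro c x
    simp [Loc.row, Finset.smul_sum, smul_smul]

omit [Fintype H] [Fintype A] in
theorem range_rowL94 (h : H) : LinearMap.range (S.rowL94 h) = S.TR h := by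
  apply le_antisymm
  · rintro _ ⟨ξ, rfl⟩
    show ∑ r, ξ r • S.R h r ∈ Submodule.span (ZMod 2) (Set.range (S.R h))
    refine Submodule.sum_mem _ fun r _ => Submodule.smul_mem _ _ ?_
    exact Submodule.subset_span (Set.mem_range_self r)
  · unfold Loc.TR
    rw [Submodule.span_le]
    rintro _ ⟨r, rfl⟩
    refine ⟨Pi.single r 1, ?_⟩
    show S.row h (Pi.single r 1) = S.R h r
    unfold Loc.row
    rw [Finset.sum_eq_single r]
    · simp
    · intro b _ hb
      rw [Pi.single_eq_of_ne hb, zero_smul]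
    · intro h0
      exact absurd (Finset.mem_univ _) h0

omit [Fintype A] in
/-- the coin family is a family of siblings in subspaces -/
theorem push94 (w : H → ℝ) (i j : ℕ) :
    Push (pw w (Co t i j))
      (fun p => (p.1, (fun a => S.row p.1 (p.2.1 a)), fun b => S.col p.1 (p.2.2 b)))
      (sib2 w S.TR S.TC i j) := by
  classical
  refine push_of_sum fun g => ?_
  unfold sib2 pw
  rw [Fintype.sum_prod_type, Fintype.sum_prod_type]
  refine Finset.sum_congr rfl fun h _ => ?_
  rw [Fintype.sum_prod_type, Fintype.sum_prod_type]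
  have hr := S.range_rowL94 h
  have hc := S.swap.range_rowL94 h
  have e1 := avg_pi94 (i := i) (S.rowL94 h)
    (fun x => ∑ y : Fin j → V n, (∏ l, uT (S.TC h) (y l)) * g (h, x, y))
  rw [hr] at e1
  have e2 : ∀ x : Fin i → V n, ∑ y : Fin j → V n, (∏ l, uT (S.TC h) (y l)) * g (h, x, y)
      = (∑ η : Fin j → V t, g (h, x, fun b => S.col h (η b))) / (Fintype.card (Fin j → V t) : ℝ) := by
    intro x
    have e3 := avg_pi94 (i := j) (S.swap.rowL94 h) (fun y => g (h, x, y))
    rw [hc] at e3
    exact e3.symm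
  have e5 : ∑ x : Fin i → V n, ∑ y : Fin j → V n,
      w h * (∏ l, uT (S.TR h) (x l)) * (∏ l, uT (S.TC h) (y l)) * g (h, x, y)
      = w h * ∑ x : Fin i → V n, (∏ l, uT (S.TR h) (x l)) *
        ∑ y : Fin j → V n, (∏ l, uT (S.TC h) (y l)) * g (h, x, y) := by
    rw [Finset.mul_sum]
    refine Finset.sum_congr rfl fun x _ => ?_
    rw [Finset.mul_sum, Finset.mul_sum]
    refine Finset.sum_congr rfl fun y _ => ?_
    ring
  rw [e5, ← e1]
  simp only [e2]
  rw [← Finset.sum_div, Fintype.card_prod, div_div]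
  push_cast
  rw [mul_comm (Fintype.card (Fin j → V t) : ℝ) (Fintype.card (Fin i → V t) : ℝ), mul_div_assoc',
    Finset.mul_sum, Finset.sum_div]
  refine Finset.sum_congr rfl fun ξ _ => ?_
  rw [Finset.mul_sum, Finset.sum_div]
  refine Finset.sum_congr rfl fun η _ => ?_
  show w h / _ * g (h, (fun a => S.row h (ξ a)), fun b => S.col h (η b)) = _
  ring_nf
  rfl

/-- the entropy of the double broom is the entropy of the broom of siblings in subspaces -/
theorem U_eq_UU94 (w : H → ℝ) (i j : ℕ) : S.U w i j = UU w S.TR S.TC S.m i j :=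
  (S.push94 w i j).K0 (fun p => (S.m p.1, p.2.1, p.2.2))

omit [Fintype A] in
/-- conditional entropy of a function of the history, given the double broom -/
theorem HC_eq_JJ94 {C : Type*} [Fintype C] (w : H → ℝ) (hw : ∀ h, 0 ≤ w h) (T' : H → C) (i j : ℕ) :
    HC (pw w (Co t i j)) (fun p => T' p.1) (S.dat i j) = JJ w S.TR S.TC S.m T' i j := by
  unfold HC JJ
  rw [KK_eq_sub_CE _ (pw_nonneg w hw)]
  rw [sub_sub_cancel]
  exact (S.push94 w i j).CE (fun p => T' p.1) (fun p => (S.m p.1, p.2.1, p.2.2))

/-- LL: **Lemma L** in coin space -/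
theorem lemmaL (w : H → ℝ) (hw : ∀ h, 0 ≤ w h) (T' : H → Submodule (ZMod 2) (V n))
    (hT : ∀ h, T' h ≤ perp (S.TC h)) (M q : ℕ) (hq : q ≤ M) (hM : 1 ≤ M) :
    ((M : ℝ) - q) * Real.log 2 * ∑ h, w h * (Module.finrank (ZMod 2) (T' h) : ℝ)
      ≤ M * (S.U w M q - S.U w (M - 1) q)
        + (M + 1) * HC (pw w (Co t (M - 1) q)) (fun p => T' p.1) (S.dat (M - 1) q)
        + (S.U w 0 M - S.U w M 0) := by
  have h1 := Pool.Agent.CutSeq.NJ.lemmaL w hw S.TR S.TC S.m T' (fun h _ => hT h) q M hq hM
  have h2 := UU_mono w hw S.TR S.TC S.m (le_refl M) (Nat.zero_le q)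
  rw [S.HC_eq_JJ94 w hw]
  simp only [S.U_eq_UU94]
  linarith

end Loc

end Pool.Agent.NJ
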