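import Pool.Agent.NJ.LocDefs

/-!
S19271 / NJ, row LP1: the posterior given `d+` is invariant under `shr`.
-/

set_option autoImplicit false

namespace Pool.Agent.NJ

open Finset Pool.Agent.CutSeq

/-! ### Posteriors under a measure preserving map -/

section Inv

variable {Ω B : Type*} [Fintype Ω]

theorem mass_inv (w : Ω → ℝ) (Y : Ω → B) (e : Ω ≃ Ω) (Ψ : B → B) (hΨ : Function.Injective Ψ)
    (hw : ∀ ω, w (e ω) = w ω) (hY : ∀ ω, Y (e ω) = Ψ (Y ω)) (y : B) :
    mass w Y (Ψ y) = mass w Y y := by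
  classical
  unfold mass
  rw [← Equiv.sum_comp e]
  refine Finset.sum_congr rfl fun ω _ => ?_
  by_cases h : Y ω = y
  · rw [if_pos h, if_pos (by rw [hY, h]), hw]
  · rw [if_neg h, if_neg (fun h' => h (hΨ (by rw [← hY, h'])))]

omit [Fintype Ω] in
theorem ind_inv (w : Ω → ℝ) (e : Ω ≃ Ω) (G : Set Ω) (hw : ∀ ω, w (e ω) = w ω)
    (hG : ∀ ω, e ω ∈ G ↔ ω ∈ G) (ω : Ω) : ind G w (e ω) = ind G w ω := by
  classical
  unfold ind
  by_cases h : ω ∈ G
  · rw [Set.indicator_of_mem h, Set.indicator_of_mem ((hG ω).2 h), hw]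
  · rw [Set.indicator_of_notMem h, Set.indicator_of_notMem (fun h' => h ((hG ω).1 h'))]

/-- invariance of the posterior -/
theorem post_inv {n : ℕ} (w : Ω → ℝ) (T : Ω → Submodule (ZMod 2) (V n)) (Y : Ω → B) (e : Ω ≃ Ω)
    (Ψ : B → B) (hΨ : Function.Injective Ψ) (hw : ∀ ω, w (e ω) = w ω) (hT : ∀ ω, T (e ω) = T ω)
    (hY : ∀ ω, Y (e ω) = Ψ (Y ω)) (a : V n) (y : B) : post w T Y a (Ψ y) = post w T Y a y := by
  unfold post
  rw [mass_inv w Y e Ψ hΨ hw hY, mass_inv _ Y e Ψ hΨ (ind_inv w e _ hw (fun ω => by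
    simp only [Set.mem_ofPred_eq, hT])) hY]

end Inv

/-! ### The transformation -/

theorem add_self_zmod2 {M : Type*} [AddCommGroup M] [Module (ZMod 2) M] (x : M) : x + x = 0 := by
  have h : (2 : ZMod 2) • x = x + x := two_smul _ x
  rw [← h, show (2 : ZMod 2) = 0 from rfl, zero_smul]

@[simp] theorem shr_fst_castAdd {t i j l : ℕ} (D : Cf i j l) (c : Co t (i + l) (j + l)) (a : Fin i) :
    (shr D c).1 (Fin.castAdd l a) = c.1 (Fin.castAdd l a) + ∑ b, D.1 a b • c.1 (Fin.natAdd i b) := by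
  simp [shr, mix, Fin.append_left]

@[simp] theorem shr_fst_natAdd {t i j l : ℕ} (D : Cf i j l) (c : Co t (i + l) (j + l)) (b : Fin l) :
    (shr D c).1 (Fin.natAdd i b) = c.1 (Fin.natAdd i b) := by
  simp [shr, Fin.append_right]

@[simp] theorem shr_snd_castAdd {t i j l : ℕ} (D : Cf i j l) (c : Co t (i + l) (j + l)) (a : Fin j) :
    (shr D c).2 (Fin.castAdd l a) = c.2 (Fin.castAdd l a) + ∑ b, D.2 a b • c.2 (Fin.natAdd j b) := by
  simp [shr, mix, Fin.append_left]

@[simp] theorem shr_snd_natAdd {t i j l : ℕ} (D : Cf i j l) (c : Co t (i + l) (j + l)) (b : Fin l) :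
    (shr D c).2 (Fin.natAdd j b) = c.2 (Fin.natAdd j b) := by
  simp [shr, Fin.append_right]

/-- the transformation of one side: `(X, Z) ↦ (X + D Z, Z)` for vectors of any module -/
def shr1 {M : Type*} [AddCommGroup M] [Module (ZMod 2) M] {i l : ℕ} (D : Fin i → Fin l → ZMod 2)
    (x : Fin (i + l) → M) : Fin (i + l) → M :=
  Fin.append (fun a => x (Fin.castAdd l a) + ∑ b, D a b • x (Fin.natAdd i b))
    (fun b => x (Fin.natAdd i b))

theorem shr_eq {t i j l : ℕ} (D : Cf i j l) (c : Co t (i + l) (j + l)) :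
    shr D c = (shr1 D.1 c.1, shr1 D.2 c.2) := rfl

theorem shr1_shr1 {M : Type*} [AddCommGroup M] [Module (ZMod 2) M] {i l : ℕ}
    (D : Fin i → Fin l → ZMod 2) (x : Fin (i + l) → M) : shr1 D (shr1 D x) = x := by
  funext a
  refine Fin.addCases (fun a => ?_) (fun b => ?_) a
  · simp only [shr1, Fin.append_left, Fin.append_right]
    rw [add_assoc, add_self_zmod2, add_zero]
  · simp only [shr1, Fin.append_right]

/-- a linear map commutes with `shr1` -/
theorem shr1_map {M N : Type*} [AddCommGroup M] [Module (ZMod 2) M] [AddCommGroup N]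
    [Module (ZMod 2) N] {i l : ℕ} (D : Fin i → Fin l → ZMod 2) (f : M →ₗ[ZMod 2] N)
    (x : Fin (i + l) → M) : (fun a => f (shr1 D x a)) = shr1 D (fun a => f (x a)) := by
  funext a
  refine Fin.addCases (fun a => ?_) (fun b => ?_) a
  · simp only [shr1, Fin.append_left, map_add, map_sum, map_smul]
  · simp only [shr1, Fin.append_right]

/-- `shr D` as a permutation of the coins -/
def shrE {t i j l : ℕ} (D : Cf i j l) : Co t (i + l) (j + l) ≃ Co t (i + l) (j + l) where
  toFun := shr D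
  invFun := shr D
  left_inv c := by rw [shr_eq, shr_eq]; simp only [shr1_shr1]
  right_inv c := by rw [shr_eq, shr_eq]; simp only [shr1_shr1]

@[simp] theorem shrE_apply {t i j l : ℕ} (D : Cf i j l) (c : Co t (i + l) (j + l)) :
    shrE D c = shr D c := rfl

theorem shr_shr {t i j l : ℕ} (D : Cf i j l) (c : Co t (i + l) (j + l)) : shr D (shr D c) = c :=
  (shrE D).left_inv c

namespace Loc

variable {H A : Type*} {n t : ℕ} (S : Loc H A n t)

/-- `row` as a linear map -/
def rowL32 (h : H) : V t →ₗ[ZMod 2] V n where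
  toFun := S.row h
  map_add' x y := by simp only [row, Pi.add_apply, add_smul, Finset.sum_add_distrib]
  map_smul' c x := by
    simp only [row, Pi.smul_apply, smul_eq_mul, mul_smul, RingHom.id_apply, Finset.smul_sum]

/-- `col` as a linear map -/
def colL32 (h : H) : V t →ₗ[ZMod 2] V n where
  toFun := S.col h
  map_add' x y := by simp only [col, Pi.add_apply, add_smul, Finset.sum_add_distrib]
  map_smul' c x := by
    simp only [col, Pi.smul_apply, smul_eq_mul, mul_smul, RingHom.id_apply, Finset.smul_sum]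

@[simp] theorem rowL32_apply (h : H) (ξ : V t) : S.rowL32 h ξ = S.row h ξ := rfl
@[simp] theorem colL32_apply (h : H) (ξ : V t) : S.colL32 h ξ = S.col h ξ := rfl

end Loc

/-- the transformation of the data -/
def Psi {A : Type*} {n i j l : ℕ} (D : Cf i j l) (y : A × (Fin (i + l) → V n) × (Fin (j + l) → V n)) :
    A × (Fin (i + l) → V n) × (Fin (j + l) → V n) := (y.1, shr1 D.1 y.2.1, shr1 D.2 y.2.2)

theorem Psi_Psi {A : Type*} {n i j l : ℕ} (D : Cf i j l)
    (y : A × (Fin (i + l) → V n) × (Fin (j + l) → V n)) : Psi D (Psi D y) = y := by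
  simp only [Psi, shr1_shr1]

theorem Psi_injective {A : Type*} {n i j l : ℕ} (D : Cf i j l) :
    Function.Injective (Psi (A := A) (n := n) D) := fun x y h => by
  rw [← Psi_Psi D x, h, Psi_Psi]

theorem Loc.dat_shr {H A : Type*} {n t : ℕ} (S : Loc H A n t) {i j l : ℕ} (D : Cf i j l) (h : H)
    (c : Co t (i + l) (j + l)) :
    S.dat (i + l) (j + l) (h, shr D c) = Psi D (S.dat (i + l) (j + l) (h, c)) := by
  have h1 : (fun a => S.row h ((shr D c).1 a)) = shr1 D.1 (fun a => S.row h (c.1 a)) := by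
    exact shr1_map D.1 (S.rowL32 h) c.1
  have h2 : (fun a => S.col h ((shr D c).2 a)) = shr1 D.2 (fun a => S.col h (c.2 a)) := by
    exact shr1_map D.2 (S.colL32 h) c.2
  simp only [Loc.dat, Psi]
  rw [h1, h2]

/-- `shr` on histories and coins -/
def shrH (H : Type*) {t i j l : ℕ} (D : Cf i j l) : H × Co t (i + l) (j + l) ≃ H × Co t (i + l) (j + l) :=
  Equiv.prodCongr (Equiv.refl H) (shrE D)

variable {H A : Type*} [Fintype H] [Fintype A] {n t : ℕ} (S : Loc H A n t)

theorem Loc.post_shr (w : H → ℝ) (i j l : ℕ) (D : Cf i j l) (h : H)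
    (c : Co t (i + l) (j + l)) (a : V n) :
    post (pw w (Co t (i + l) (j + l))) (fun p => S.TC p.1) (S.dat (i + l) (j + l)) a
        (S.dat (i + l) (j + l) (h, shr D c))
      = post (pw w (Co t (i + l) (j + l))) (fun p => S.TC p.1) (S.dat (i + l) (j + l)) a
        (S.dat (i + l) (j + l) (h, c)) := by
  rw [S.dat_shr D h c]
  exact post_inv _ _ _ (shrH H D) (Psi D) (Psi_injective D) (fun p => rfl) (fun p => rfl)
    (fun p => S.dat_shr D p.1 p.2) a _

/-- LP1: the posterior given `d+` is invariant under `shr` -/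
theorem Loc.ls_shr (w : H → ℝ) (hw : ∀ h, 0 ≤ w h) (i j l k : ℕ) (D : Cf i j l) (h : H)
    (c : Co t (i + l) (j + l)) :
    S.ls w (i + l) (j + l) k (S.dat (i + l) (j + l) (h, shr D c))
      = S.ls w (i + l) (j + l) k (S.dat (i + l) (j + l) (h, c)) := by
  ext a
  simp only [Loc.ls, lst, Set.mem_ofPred_eq]
  rw [S.post_shr w i j l D h c a]

end Pool.Agent.NJ
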