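import Pool.Agent.CutSeq.Ent

/-! Tower property for posterior probabilities. -/

set_option autoImplicit false

namespace Pool.Agent.NJ

open Finset Pool.Agent.CutSeq

open Classical in
/-- tower property for the posterior -/
lemma tower_ind {Θ D : Type*} [Fintype Θ] (W : Θ → ℝ) (hW : ∀ p, 0 ≤ W p) (DD : Θ → D)
    (E : Set Θ) (g : D → ℝ) :
    ∑ p, W p * ((if p ∈ E then 1 else 0) * g (DD p)) =
      ∑ p, W p * ((mass (ind E W) DD (DD p) / mass W DD (DD p)) * g (DD p)) := by
  have h1 : ∀ p, W p * ((mass (ind E W) DD (DD p) / mass W DD (DD p)) * g (DD p)) =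
      ∑ p', (if DD p' = DD p then
        W p * (ind E W p' * g (DD p') / mass W DD (DD p')) else 0) := by
    intro p
    rw [show mass (ind E W) DD (DD p) = ∑ p', if DD p' = DD p then ind E W p' else 0 from rfl,
      Finset.sum_div, Finset.sum_mul, Finset.mul_sum]
    refine Finset.sum_congr rfl fun p' _ => ?_
    by_cases h : DD p' = DD p
    · rw [if_pos h, if_pos h, h]
      ring
    · rw [if_neg h, if_neg h]
      ring
  simp only [h1]
  rw [Finset.sum_comm]
  refine Finset.sum_congr rfl fun p' _ => ?_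
  have h2 : ∑ p, (if DD p' = DD p then
        W p * (ind E W p' * g (DD p') / mass W DD (DD p')) else 0) =
      mass W DD (DD p') * (ind E W p' * g (DD p') / mass W DD (DD p')) := by
    rw [mass, Finset.sum_mul]
    refine Finset.sum_congr rfl fun p _ => ?_
    by_cases h : DD p = DD p'
    · rw [if_pos h.symm, if_pos h]
    · rw [if_neg (fun h' => h h'.symm), if_neg h, zero_mul]
  rw [h2]
  by_cases hp : W p' = 0
  · have : ind E W p' = 0 := by
      unfold ind
      by_cases h : p' ∈ E
      · rw [Set.indicator_of_mem h, hp]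
      · rw [Set.indicator_of_notMem h]
    rw [hp, this]
    ring
  · have hm := (mass_pos W hW DD hp).ne'
    unfold ind
    by_cases h : p' ∈ E
    · rw [if_pos h, Set.indicator_of_mem h]
      field_simp
    · rw [if_neg h, Set.indicator_of_notMem h]
      ring

/-- an event of posterior probability less than one half is less likely than its complement -/
lemma pr_lt_half {Θ D : Type*} [Fintype Θ] (W : Θ → ℝ) (hW : ∀ p, 0 ≤ W p) (DD : Θ → D)
    (E : Set Θ) (G : Set D)
    (h : ∀ p, W p ≠ 0 → DD p ∈ G → mass (ind E W) DD (DD p) / mass W DD (DD p) ≤ 1 / 2) :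
    pr W {p | p ∈ E ∧ DD p ∈ G} ≤ pr W {p | p ∉ E ∧ DD p ∈ G} := by
  classical
  have h1 := tower_ind W hW DD E (fun d => if d ∈ G then (1 : ℝ) else 0)
  have h2 : ∑ p, W p * ((mass (ind E W) DD (DD p) / mass W DD (DD p)) *
      (if DD p ∈ G then (1 : ℝ) else 0)) ≤ ∑ p, W p * ((1 / 2) * (if DD p ∈ G then (1 : ℝ) else 0)) := by
    refine Finset.sum_le_sum fun p _ => ?_
    by_cases hp : W p = 0
    · rw [hp, zero_mul, zero_mul]
    · refine mul_le_mul_of_nonneg_left ?_ (hW p)
      by_cases hg : DD p ∈ G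
      · rw [if_pos hg, mul_one, mul_one]
        exact h p hp hg
      · rw [if_neg hg, mul_zero, mul_zero]
  have h3 : pr W {p | p ∈ E ∧ DD p ∈ G} =
      ∑ p, W p * ((if p ∈ E then 1 else 0) * (if DD p ∈ G then (1 : ℝ) else 0)) := by
    unfold pr tot ind
    refine Finset.sum_congr rfl fun p _ => ?_
    by_cases h4 : p ∈ E ∧ DD p ∈ G
    · rw [Set.indicator_of_mem (by exact h4), if_pos h4.1, if_pos h4.2]
      ring
    · rw [Set.indicator_of_notMem (by exact h4)]
      by_cases h5 : p ∈ E
      · rw [if_neg (fun h6 => h4 ⟨h5, h6⟩)]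
        ring
      · rw [if_neg h5]
        ring
  have h4 : pr W {p | p ∉ E ∧ DD p ∈ G} =
      ∑ p, W p * ((if p ∈ E then 0 else 1) * (if DD p ∈ G then (1 : ℝ) else 0)) := by
    unfold pr tot ind
    refine Finset.sum_congr rfl fun p _ => ?_
    by_cases h4 : p ∉ E ∧ DD p ∈ G
    · rw [Set.indicator_of_mem (by exact h4), if_neg h4.1, if_pos h4.2]
      ring
    · rw [Set.indicator_of_notMem (by exact h4)]
      by_cases h5 : p ∈ E
      · rw [if_pos h5]
        ring
      · rw [if_neg h5, if_neg (fun h6 => h4 ⟨h5, h6⟩)]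
        ring
  have h5 : ∑ p, W p * ((if p ∈ E then 1 else 0) * (if DD p ∈ G then (1 : ℝ) else 0)) +
      ∑ p, W p * ((if p ∈ E then 0 else 1) * (if DD p ∈ G then (1 : ℝ) else 0)) =
      2 * ∑ p, W p * ((1 / 2) * (if DD p ∈ G then (1 : ℝ) else 0)) := by
    rw [← Finset.sum_add_distrib, Finset.mul_sum]
    refine Finset.sum_congr rfl fun p _ => ?_
    by_cases h5 : p ∈ E
    · rw [if_pos h5, if_pos h5]
      ring
    · rw [if_neg h5, if_neg h5]
      ring
  rw [h3, h4]
  linarith

end Pool.Agent.NJ
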