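import Pool.Agent.NJ.LocDefs
import Pool.Agent.NJ.Tow86

/-! S19271 / NJ, row LP2: `Loc.ls_late`. -/

set_option autoImplicit false

namespace Pool.Agent.NJ

open Finset Pool.Agent.CutSeq

namespace LP86

variable {H A : Type*} {n t : ℕ} (S : Loc H A n t)

lemma col_mem (h : H) (η : V t) : S.col h η ∈ S.TC h :=
  Submodule.sum_mem _ fun r _ => Submodule.smul_mem _ _ (Submodule.subset_span ⟨r, rfl⟩)

lemma col_add (h : H) (η η' : V t) : S.col h (η + η') = S.col h η + S.col h η' := by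
  unfold Loc.col
  rw [← Finset.sum_add_distrib]
  refine Finset.sum_congr rfl fun r _ => ?_
  rw [Pi.add_apply, add_smul]

lemma col_single (h : H) (r : Fin t) : S.col h (Pi.single r 1) = S.C h r := by
  classical
  unfold Loc.col
  rw [Finset.sum_eq_single r]
  · rw [Pi.single_eq_same, one_smul]
  · intro r' _ hr
    rw [Pi.single_eq_of_ne hr, zero_smul]
  · intro hr
    exact absurd (Finset.mem_univ r) hr

lemma exists_ne (h : H) (a : V n) (ha : a ∉ perp (S.TC h)) : ∃ r, S.C h r ⬝ᵥ a ≠ 0 := by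
  by_contra hcon
  push Not at hcon
  refine ha fun x hx => ?_
  induction hx using Submodule.span_induction with
  | mem x hx =>
    obtain ⟨r, rfl⟩ := hx
    exact hcon r
  | zero => exact zero_dotProduct a
  | add x y _ _ hx hy => rw [add_dotProduct, hx, hy, add_zero]
  | smul c x _ hx => rw [smul_dotProduct, hx, smul_zero]

open Classical in
/-- a vector which is not a relation is orthogonal to half of the columns -/
lemma half_col (h : H) (a : V n) (ha : a ∉ perp (S.TC h)) :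
    2 * ∑ η : V t, (if S.col h η ⬝ᵥ a = 0 then (1 : ℝ) else 0) ≤ Fintype.card (V t) := by
  obtain ⟨r, hr⟩ := exists_ne S h a ha
  have hr1 : S.C h r ⬝ᵥ a = 1 := by
    have : ∀ z : ZMod 2, z ≠ 0 → z = 1 := by decide
    exact this _ hr
  have h1 : ∑ η : V t, (if S.col h η ⬝ᵥ a = 0 then (1 : ℝ) else 0) =
      ∑ η : V t, (if S.col h η ⬝ᵥ a = 1 then (1 : ℝ) else 0) := by
    rw [← Equiv.sum_comp (Equiv.addRight (Pi.single r 1 : V t))
      (fun η => if S.col h η ⬝ᵥ a = 0 then (1 : ℝ) else 0)]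
    refine Finset.sum_congr rfl fun η _ => ?_
    rw [Equiv.coe_addRight, col_add, col_single, add_dotProduct, hr1]
    have h2 : ∀ z : ZMod 2, (z + 1 = 0 ↔ z = 1) := by decide
    by_cases h3 : S.col h η ⬝ᵥ a = 1
    · rw [if_pos h3, if_pos ((h2 _).2 h3)]
    · rw [if_neg h3, if_neg (fun h4 => h3 ((h2 _).1 h4))]
  rw [two_mul]
  nth_rewrite 2 [h1]
  rw [← Finset.sum_add_distrib]
  have h2 : ∀ η : V t, ((if S.col h η ⬝ᵥ a = 0 then (1 : ℝ) else 0) +
      (if S.col h η ⬝ᵥ a = 1 then (1 : ℝ) else 0)) ≤ 1 := by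
    intro η
    by_cases h3 : S.col h η ⬝ᵥ a = 0
    · rw [if_pos h3, if_neg (fun h4 => by
        rw [h3] at h4
        exact absurd h4 (by decide))]
      norm_num
    · rw [if_neg h3]
      split <;> norm_num
  refine (Finset.sum_le_sum fun η _ => h2 η).trans (le_of_eq ?_)
  simp

/-- sums over `Fin (m + k) → α` -/
lemma sum_append {α : Type*} [Fintype α] (m k : ℕ) (F : (Fin (m + k) → α) → ℝ) :
    ∑ f, F f = ∑ g : Fin m → α, ∑ g' : Fin k → α, F (Fin.append g g') := by
  rw [← Fintype.sum_prod_type']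
  exact (Equiv.sum_comp (Fin.appendEquiv m k) F).symm

open Classical in
/-- the last columns are orthogonal to `a` with probability at most `(1 / 2) ^ l` -/
lemma late (h : H) (i j l : ℕ) (a : V n) (ha : a ∉ perp (S.TC h)) (F : Co t i j → ℝ)
    (hF : ∀ c, 0 ≤ F c) :
    (∑ c : Co t (i + l) (j + l), F (ini l l c) *
      (if ∀ b : Fin l, S.col h (c.2 (Fin.natAdd j b)) ⬝ᵥ a = 0 then (1 : ℝ) else 0)) /
        (Fintype.card (Co t (i + l) (j + l)) : ℝ) ≤
      (1 / 2) ^ l * ((∑ c, F c) / (Fintype.card (Co t i j) : ℝ)) := by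
  have hN : (0 : ℝ) < Fintype.card (V t) := by exact_mod_cast Fintype.card_pos
  set N : ℝ := ((Fintype.card (V t) : ℕ) : ℝ) with hNdef
  have hcf : ∀ m : ℕ, ((Fintype.card (Fin m → V t) : ℕ) : ℝ) = N ^ m := by
    intro m
    have h1 : Fintype.card (Fin m → V t) = (Fintype.card (V t)) ^ m := by
      have := Fintype.card_fun (α := Fin m) (β := V t)
      rw [Fintype.card_fin] at this
      exact this
    rw [h1, Nat.cast_pow]
  have hc1 : (Fintype.card (Co t i j) : ℝ) = N ^ i * N ^ j := by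
    rw [Fintype.card_prod, Nat.cast_mul, hcf, hcf]
  have hc2 : (Fintype.card (Co t (i + l) (j + l)) : ℝ) = N ^ i * N ^ j * N ^ l * N ^ l := by
    rw [Fintype.card_prod, Nat.cast_mul, hcf, hcf, pow_add, pow_add]
    ring
  have hsum : ∑ c : Co t (i + l) (j + l), F (ini l l c) *
      (if ∀ b : Fin l, S.col h (c.2 (Fin.natAdd j b)) ⬝ᵥ a = 0 then (1 : ℝ) else 0) =
      N ^ l * ((∑ c, F c) * (∑ η : V t, (if S.col h η ⬝ᵥ a = 0 then (1 : ℝ) else 0)) ^ l) := by
    rw [Fintype.sum_prod_type, sum_append]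
    have h1 : ∀ (g : Fin i → V t) (g' : Fin l → V t), ∑ y : Fin (j + l) → V t,
        F (ini l l (Fin.append g g', y)) *
        (if ∀ b : Fin l, S.col h (y (Fin.natAdd j b)) ⬝ᵥ a = 0 then (1 : ℝ) else 0) =
        (∑ f : Fin j → V t, F (g, f)) *
          (∑ η : V t, (if S.col h η ⬝ᵥ a = 0 then (1 : ℝ) else 0)) ^ l := by
      intro g g'
      rw [sum_append, Finset.sum_mul]
      refine Finset.sum_congr rfl fun f _ => ?_
      have h2 : (∑ η : V t, (if S.col h η ⬝ᵥ a = 0 then (1 : ℝ) else 0)) ^ l =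
          ∑ f' : Fin l → V t, ∏ b, (if S.col h (f' b) ⬝ᵥ a = 0 then (1 : ℝ) else 0) := by
        rw [← Fintype.prod_sum (fun (_ : Fin l) η => if S.col h η ⬝ᵥ a = 0 then (1 : ℝ) else 0)]
        simp
      rw [h2, Finset.mul_sum]
      refine Finset.sum_congr rfl fun f' _ => ?_
      have h3 : ini l l (Fin.append g g', Fin.append f f') = (g, f) := by
        unfold ini
        refine Prod.ext ?_ ?_
        · funext b
          simp
        · funext b
          simp
      rw [h3]
      congr 1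
      by_cases h4 : ∀ b : Fin l, S.col h (f' b) ⬝ᵥ a = 0
      · rw [if_pos (by
          intro b
          simp only [Fin.append_right]
          exact h4 b)]
        symm
        refine Finset.prod_eq_one fun b _ => ?_
        rw [if_pos (h4 b)]
      · rw [if_neg (by
          intro h5
          refine h4 fun b => ?_
          have := h5 b
          simpa only [Fin.append_right] using this)]
        symm
        push Not at h4
        obtain ⟨b, hb⟩ := h4
        exact Finset.prod_eq_zero (Finset.mem_univ b) (if_neg hb)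
    have h2 : ∀ (g : Fin i → V t) (g' : Fin l → V t), ∑ y : Fin (j + l) → V t,
        F (ini l l ((Fin.append g g', y) : Co t (i + l) (j + l))) *
        (if ∀ b : Fin l, S.col h (((Fin.append g g', y) : Co t (i + l) (j + l)).2
          (Fin.natAdd j b)) ⬝ᵥ a = 0 then (1 : ℝ) else 0) =
        (∑ f : Fin j → V t, F (g, f)) *
          (∑ η : V t, (if S.col h η ⬝ᵥ a = 0 then (1 : ℝ) else 0)) ^ l := h1
    simp only [h2]
    rw [Finset.sum_congr rfl (fun g _ => Finset.sum_const _)]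
    simp only [Finset.card_univ, nsmul_eq_mul]
    rw [← Finset.mul_sum, ← Finset.sum_mul, ← Fintype.sum_prod_type', hcf]
  rw [hsum, hc1, hc2]
  have hh := half_col S h a ha
  have hs0 : 0 ≤ ∑ η : V t, (if S.col h η ⬝ᵥ a = 0 then (1 : ℝ) else 0) := by
    refine Finset.sum_nonneg fun η _ => ?_
    split <;> norm_num
  have hle : (∑ η : V t, (if S.col h η ⬝ᵥ a = 0 then (1 : ℝ) else 0)) ^ l ≤ ((1 / 2) * N) ^ l :=
    pow_le_pow_left₀ hs0 (by linarith) l
  have hF0 : 0 ≤ ∑ c, F c := Finset.sum_nonneg fun c _ => hF c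
  rw [div_le_iff₀ (by positivity)]
  calc N ^ l * ((∑ c, F c) * (∑ η : V t, (if S.col h η ⬝ᵥ a = 0 then (1 : ℝ) else 0)) ^ l)
      ≤ N ^ l * ((∑ c, F c) * ((1 / 2) * N) ^ l) := by gcongr
    _ = _ := by
      rw [mul_pow]
      field_simp

end LP86

variable {H A : Type*} [Fintype H] [Fintype A] {n t : ℕ} (S : Loc H A n t)

omit [Fintype A] in
/-- LP2: a relation of `A'` which is in the list is visible after `l` further column siblings, up to
probability `2 ^ (-l)` -/
theorem Loc.ls_late (w : H → ℝ) (hw : ∀ h, 0 ≤ w h) (i j l : ℕ)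
    (G : Set (A × (Fin i → V n) × (Fin j → V n))) (a : V n) :
    pr (pw w (Co t (i + l) (j + l))) {p | a ∈ perp (S.TC p.1) ∧ S.dat i j (p.1, ini l l p.2) ∈ G ∧
        a ∉ S.ls w (i + l) (j + l) 1 (S.dat (i + l) (j + l) p)}
      ≤ (1 / 2) ^ l * pr (pw w (Co t i j)) {p | S.dat i j p ∈ G} := by
  classical
  set W := pw w (Co t (i + l) (j + l)) with hWdef
  have hW : ∀ p, 0 ≤ W p := pw_nonneg w hw
  set E : Set (H × Co t (i + l) (j + l)) := {p | a ∈ perp (S.TC p.1)} with hE
  set Gp : Set (A × (Fin (i + l) → V n) × (Fin (j + l) → V n)) :=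
    {y | (y.1, fun b => y.2.1 (Fin.castAdd l b), fun b => y.2.2 (Fin.castAdd l b)) ∈ G ∧
      (∀ b : Fin l, y.2.2 (Fin.natAdd j b) ⬝ᵥ a = 0) ∧
      mass (ind E W) (S.dat (i + l) (j + l)) y / mass W (S.dat (i + l) (j + l)) y ≤ 1 / 2} with hGp
  have hmono : ∀ A B : Set (H × Co t (i + l) (j + l)), A ⊆ B → pr W A ≤ pr W B := by
    intro A B hAB
    unfold pr tot ind
    exact Finset.sum_le_sum fun p _ => Set.indicator_le_indicator_of_subset hAB hW p
  have h1 : pr W {p | a ∈ perp (S.TC p.1) ∧ S.dat i j (p.1, ini l l p.2) ∈ G ∧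
      a ∉ S.ls w (i + l) (j + l) 1 (S.dat (i + l) (j + l) p)} ≤
      pr W {p | p ∈ E ∧ S.dat (i + l) (j + l) p ∈ Gp} := by
    refine hmono _ _ fun p hp => ?_
    obtain ⟨hp1, hp2, hp3⟩ := hp
    refine ⟨hp1, hp2, fun b => hp1 _ (LP86.col_mem S p.1 _), ?_⟩
    have h4 : ¬ ((1 / 2 : ℝ) ^ 1 ≤ post W (fun p => S.TC p.1) (S.dat (i + l) (j + l)) a
        (S.dat (i + l) (j + l) p)) := hp3
    rw [pow_one] at h4
    push Not at h4
    exact h4.le
  have h2 : pr W {p | p ∈ E ∧ S.dat (i + l) (j + l) p ∈ Gp} ≤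
      pr W {p | p ∉ E ∧ S.dat (i + l) (j + l) p ∈ Gp} :=
    pr_lt_half W hW (S.dat (i + l) (j + l)) E Gp fun p _ hp => hp.2.2
  refine h1.trans (h2.trans ?_)
  -- the complement
  have h3 : pr W {p | p ∉ E ∧ S.dat (i + l) (j + l) p ∈ Gp} ≤
      ∑ p : H × Co t (i + l) (j + l), W p * ((if a ∈ perp (S.TC p.1) then 0 else 1) *
        ((if S.dat i j (p.1, ini l l p.2) ∈ G then (1 : ℝ) else 0) *
        (if ∀ b : Fin l, S.col p.1 (p.2.2 (Fin.natAdd j b)) ⬝ᵥ a = 0 then (1 : ℝ) else 0))) := by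
    unfold pr tot ind
    refine Finset.sum_le_sum fun p _ => ?_
    by_cases hp : p ∉ E ∧ S.dat (i + l) (j + l) p ∈ Gp
    · rw [Set.indicator_of_mem (by exact hp)]
      obtain ⟨hp1, hp2, hp3, -⟩ := hp
      have hp1' : a ∉ perp (S.TC p.1) := hp1
      have hp2' : S.dat i j (p.1, ini l l p.2) ∈ G := hp2
      have hp3' : ∀ b : Fin l, S.col p.1 (p.2.2 (Fin.natAdd j b)) ⬝ᵥ a = 0 := hp3
      rw [if_neg hp1', if_pos hp2', if_pos hp3']
      simp
    · rw [Set.indicator_of_notMem (by exact hp)]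
      refine mul_nonneg (hW p) ?_
      split <;> split <;> split <;> norm_num
  refine h3.trans ?_
  rw [hWdef, sum_pw w (fun h (c : Co t (i + l) (j + l)) => (if a ∈ perp (S.TC h) then 0 else 1) *
        ((if S.dat i j (h, ini l l c) ∈ G then (1 : ℝ) else 0) *
        (if ∀ b : Fin l, S.col h (c.2 (Fin.natAdd j b)) ⬝ᵥ a = 0 then (1 : ℝ) else 0)))]
  have h4 : pr (pw w (Co t i j)) {p | S.dat i j p ∈ G} =
      ∑ h, w h * ((∑ c : Co t i j, if S.dat i j (h, c) ∈ G then (1 : ℝ) else 0) /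
        Fintype.card (Co t i j)) := by
    rw [← sum_pw w (fun h (c : Co t i j) => if S.dat i j (h, c) ∈ G then (1 : ℝ) else 0)]
    unfold pr tot ind
    refine Finset.sum_congr rfl fun p _ => ?_
    by_cases hp : S.dat i j p ∈ G
    · rw [Set.indicator_of_mem (by exact hp), if_pos (by exact hp), mul_one]
    · rw [Set.indicator_of_notMem (by exact hp), if_neg (by exact hp), mul_zero]
  rw [h4, Finset.mul_sum]
  refine Finset.sum_le_sum fun h _ => ?_
  rw [mul_left_comm]
  refine mul_le_mul_of_nonneg_left ?_ (hw h)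
  by_cases ha : a ∈ perp (S.TC h)
  · simp only [if_pos ha, zero_mul, Finset.sum_const_zero, zero_div]
    refine mul_nonneg (by positivity) (div_nonneg (Finset.sum_nonneg fun c _ => ?_) (Nat.cast_nonneg _))
    split <;> norm_num
  · simp only [if_neg ha, one_mul]
    exact LP86.late S h i j l a ha (fun c => if S.dat i j (h, c) ∈ G then (1 : ℝ) else 0)
      (fun c => by split <;> norm_num)

end Pool.Agent.NJ
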