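import Pool.Agent.NJ.Brm85

/-! Lemma V for coin brooms (helper85): `VarOK P Q I J Z Z' e` as soon as
`(1/2)^|Z| ≤ e` and `(1/2)^|Z'| ≤ e`. -/

set_option autoImplicit false

namespace Pool.Agent.NJ

open Finset Pool.Agent.CutSeq

section Abs

variable {X L : Type*} [Fintype X] [Fintype L] [DecidableEq L] [DecidableEq X]

omit [DecidableEq L] in
/-- Fourier inversion for an orthogonal system -/
lemma four_inv85 (χ : L → X → ℝ) (c : ℝ) (hc : c ≠ 0)
    (o2 : ∀ x y, ∑ l, χ l x * χ l y = if x = y then c else 0) (g : X → ℝ) (x : X) :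
    g x = ∑ l, ((∑ y, g y * χ l y) / c) * χ l x := by
  have h1 : ∑ l, ((∑ y, g y * χ l y) / c) * χ l x = (∑ y, g y * ∑ l, χ l y * χ l x) / c := by
    have h2 : ∀ l, ((∑ y, g y * χ l y) / c) * χ l x = (∑ y, g y * (χ l y * χ l x)) / c := by
      intro l
      rw [div_mul_eq_mul_div, Finset.sum_mul]
      congr 1
      refine Finset.sum_congr rfl fun y _ => ?_
      ring
    simp only [h2]
    rw [← Finset.sum_div, Finset.sum_comm]
    congr 1
    refine Finset.sum_congr rfl fun y _ => ?_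
    rw [Finset.mul_sum]
  rw [h1]
  simp only [o2]
  rw [Finset.sum_eq_single x]
  · rw [if_pos rfl]
    field_simp
  · intro y _ hy
    rw [if_neg hy, mul_zero]
  · intro h
    exact absurd (Finset.mem_univ x) h

omit [DecidableEq X] in
/-- Parseval for an orthogonal system -/
lemma four_pars85 (χ : L → X → ℝ) (c : ℝ)
    (o1 : ∀ l l', ∑ x, χ l x * χ l' x = if l = l' then c else 0) (a : L → ℝ) :
    ∑ x, (∑ l, a l * χ l x) ^ 2 = c * ∑ l, a l ^ 2 := by
  have h1 : ∀ x, (∑ l, a l * χ l x) ^ 2 = ∑ l, ∑ l', (a l * a l') * (χ l x * χ l' x) := by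
    intro x
    rw [pow_two, Finset.sum_mul_sum]
    refine Finset.sum_congr rfl fun l _ => Finset.sum_congr rfl fun l' _ => ?_
    ring
  simp only [h1]
  rw [Finset.sum_comm, Finset.mul_sum]
  refine Finset.sum_congr rfl fun l _ => ?_
  rw [Finset.sum_comm]
  rw [Finset.sum_eq_single l]
  · rw [← Finset.mul_sum, o1, if_pos rfl]
    ring
  · intro l' _ hl'
    rw [← Finset.mul_sum, o1, if_neg (Ne.symm hl'), mul_zero]
  · intro h
    exact absurd (Finset.mem_univ l) h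

end Abs

section Char

variable {P : ℕ} {I : Type*} [Fintype I] [DecidableEq I]

/-- characters of families of vectors -/
noncomputable def sgp85 (Λ ξ : I → V P) : ℝ := sg (∑ a, Λ a ⬝ᵥ ξ a)

omit [DecidableEq I] in
lemma sgp_add85 (Λ ξ ξ' : I → V P) : sgp85 Λ (ξ + ξ') = sgp85 Λ ξ * sgp85 Λ ξ' := by
  unfold sgp85
  rw [← sg_add, ← Finset.sum_add_distrib]
  congr 1
  refine Finset.sum_congr rfl fun a _ => ?_
  rw [Pi.add_apply, dotProduct_add]

omit [DecidableEq I] in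
lemma sgp_comm85 (Λ ξ : I → V P) : sgp85 Λ ξ = sgp85 ξ Λ := by
  unfold sgp85
  congr 1
  refine Finset.sum_congr rfl fun a _ => ?_
  rw [dotProduct_comm]

omit [DecidableEq I] in
lemma sgp_zero85 (ξ : I → V P) : sgp85 0 ξ = 1 := by
  unfold sgp85
  simp [sg_zero]

omit [DecidableEq I] in
lemma sgp_sq85 (Λ ξ : I → V P) : sgp85 Λ ξ * sgp85 Λ ξ = 1 := by
  unfold sgp85
  rw [← sg_add, CharTwo.add_self_eq_zero, sg_zero]

lemma sum_sgp85 (Λ : I → V P) :
    ∑ ξ : I → V P, sgp85 Λ ξ = if Λ = 0 then (Fintype.card (I → V P) : ℝ) else 0 := by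
  by_cases h : Λ = 0
  · rw [if_pos h, h]
    simp [sgp_zero85]
  · rw [if_neg h]
    obtain ⟨a, ha⟩ : ∃ a, Λ a ≠ 0 := by
      by_contra hcon
      push Not at hcon
      exact h (funext hcon)
    obtain ⟨p, hp⟩ : ∃ p, Λ a p ≠ 0 := by
      by_contra hcon
      push Not at hcon
      exact ha (funext hcon)
    set t : I → V P := Pi.single a (Pi.single p 1) with ht
    have h1 : sgp85 Λ t = -1 := by
      unfold sgp85
      have h2 : ∑ b, Λ b ⬝ᵥ t b = Λ a p := by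
        rw [Finset.sum_eq_single a]
        · rw [ht, Pi.single_eq_same, dotProduct_single, mul_one]
        · intro b _ hb
          rw [ht, Pi.single_eq_of_ne hb, dotProduct_zero]
        · intro h
          exact absurd (Finset.mem_univ a) h
      rw [h2]
      exact sg_ne hp
    have h3 : ∑ ξ : I → V P, sgp85 Λ ξ = ∑ ξ : I → V P, sgp85 Λ (ξ + t) := by
      rw [← Equiv.sum_comp (Equiv.addRight t) (fun ξ => sgp85 Λ ξ)]
      rfl
    simp only [sgp_add85, h1, mul_neg, mul_one, Finset.sum_neg_distrib] at h3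
    linarith

lemma eq_iff_add_zero85 {M : Type*} [AddCommGroup M] [Module (ZMod 2) M] (x y : M) :
    x + y = 0 ↔ x = y := by
  have hxx : ∀ z : M, z + z = 0 := by
    intro z
    have : (2 : ZMod 2) • z = z + z := by
      rw [two_smul]
    rw [← this]
    have h2 : (2 : ZMod 2) = 0 := by decide
    rw [h2, zero_smul]
  constructor
  · intro h
    have := congrArg (· + y) h
    simp only [add_assoc, hxx y, add_zero, zero_add] at this
    exact this
  · intro h
    rw [h]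
    exact hxx y

/-- orthogonality -/
lemma sgp_orth85 (Λ Λ' : I → V P) :
    ∑ ξ : I → V P, sgp85 Λ ξ * sgp85 Λ' ξ = if Λ = Λ' then (Fintype.card (I → V P) : ℝ) else 0 := by
  have h1 : ∀ ξ : I → V P, sgp85 Λ ξ * sgp85 Λ' ξ = sgp85 (Λ + Λ') ξ := by
    intro ξ
    rw [sgp_comm85 (Λ + Λ') ξ, sgp_add85, sgp_comm85 ξ Λ, sgp_comm85 ξ Λ']
  simp only [h1, sum_sgp85]
  by_cases h : Λ = Λ'
  · rw [if_pos h, if_pos ((eq_iff_add_zero85 _ _).2 h)]
  · rw [if_neg h, if_neg (fun h' => h ((eq_iff_add_zero85 _ _).1 h'))]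

variable {Z : Type*} [Fintype Z] [DecidableEq Z]

/-- the combination `D ζ` -/
def dm85 (D : I → Z → ZMod 2) (ζ : Z → V P) : I → V P := fun a => ∑ z, D a z • ζ z

open Classical in
/-- average over the public coefficients -/
lemma sum_dm85 (Λ : I → V P) (ζ : Z → V P) :
    ∑ D : I → Z → ZMod 2, sgp85 Λ (dm85 D ζ) =
      if ∀ a z, Λ a ⬝ᵥ ζ z = 0 then (Fintype.card (I → Z → ZMod 2) : ℝ) else 0 := by
  have hval : ∀ D : I → Z → ZMod 2, ∑ a, Λ a ⬝ᵥ dm85 D ζ a = ∑ a, ∑ z, D a z * (Λ a ⬝ᵥ ζ z) := by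
    intro D
    refine Finset.sum_congr rfl fun a _ => ?_
    unfold dm85
    rw [dotProduct_sum]
    refine Finset.sum_congr rfl fun z _ => ?_
    rw [dotProduct_smul, smul_eq_mul]
  by_cases h : ∀ a z, Λ a ⬝ᵥ ζ z = 0
  · rw [if_pos h]
    have h1 : ∀ D : I → Z → ZMod 2, sgp85 Λ (dm85 D ζ) = 1 := by
      intro D
      unfold sgp85
      rw [hval]
      simp [h, sg_zero]
    simp [h1]
  · rw [if_neg h]
    push Not at h
    obtain ⟨a, z, haz⟩ := h
    set T : I → Z → ZMod 2 := Pi.single a (Pi.single z 1) with hT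
    have h1 : sgp85 Λ (dm85 T ζ) = -1 := by
      unfold sgp85
      rw [hval]
      have h2 : ∑ b, ∑ z', T b z' * (Λ b ⬝ᵥ ζ z') = Λ a ⬝ᵥ ζ z := by
        rw [Finset.sum_eq_single a]
        · rw [Finset.sum_eq_single z]
          · rw [hT, Pi.single_eq_same, Pi.single_eq_same, one_mul]
          · intro z' _ hz'
            rw [hT, Pi.single_eq_same, Pi.single_eq_of_ne hz', zero_mul]
          · intro h
            exact absurd (Finset.mem_univ z) h
        · intro b _ hb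
          refine Finset.sum_eq_zero fun z' _ => ?_
          rw [hT, Pi.single_eq_of_ne hb, Pi.zero_apply, zero_mul]
        · intro h
          exact absurd (Finset.mem_univ a) h
      rw [h2]
      exact sg_ne haz
    have hadd : ∀ D D' : I → Z → ZMod 2, dm85 (D + D') ζ = dm85 D ζ + dm85 D' ζ := by
      intro D D'
      funext b
      simp only [dm85, Pi.add_apply, add_smul, Finset.sum_add_distrib]
    have h3 : ∑ D : I → Z → ZMod 2, sgp85 Λ (dm85 D ζ) = ∑ D : I → Z → ZMod 2, sgp85 Λ (dm85 (D + T) ζ) := by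
      rw [← Equiv.sum_comp (Equiv.addRight T) (fun D => sgp85 Λ (dm85 D ζ))]
      rfl
    simp only [hadd, sgp_add85, h1, mul_neg, mul_one, Finset.sum_neg_distrib] at h3
    linarith

omit [DecidableEq I] in
open Classical in
/-- a nonzero character survives with small probability -/
lemma surv_le85 (Λ : I → V P) (hΛ : Λ ≠ 0) :
    (∑ ζ : Z → V P, if ∀ a z, Λ a ⬝ᵥ ζ z = 0 then (1 : ℝ) else 0) ≤
      (1 / 2) ^ Fintype.card Z * Fintype.card (Z → V P) := by
  obtain ⟨a, ha⟩ : ∃ a, Λ a ≠ 0 := by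
    by_contra hcon
    push Not at hcon
    exact hΛ (funext hcon)
  have h1 : ∀ ζ : Z → V P, (if ∀ a z, Λ a ⬝ᵥ ζ z = 0 then (1 : ℝ) else 0) ≤
      ∏ z, (1 + sg (Λ a ⬝ᵥ ζ z)) / 2 := by
    intro ζ
    have hnn : ∀ z, 0 ≤ (1 + sg (Λ a ⬝ᵥ ζ z)) / 2 := by
      intro z
      have := neg_abs_le (sg (Λ a ⬝ᵥ ζ z))
      rw [abs_sg] at this
      linarith
    split
    · rename_i h
      refine le_of_eq ?_
      symm
      refine Finset.prod_eq_one fun z _ => ?_
      rw [h a z, sg_zero]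
      norm_num
    · exact Finset.prod_nonneg fun z _ => hnn z
  refine (Finset.sum_le_sum fun ζ _ => h1 ζ).trans ?_
  have h2 := Fintype.prod_sum (ι := Z) (κ := fun _ => V P) (f := fun _ v => (1 + sg (Λ a ⬝ᵥ v)) / 2)
  rw [← h2]
  have h3 : ∑ v : V P, (1 + sg (Λ a ⬝ᵥ v)) / 2 = Fintype.card (V P) / 2 := by
    rw [← Finset.sum_div, Finset.sum_add_distrib, sum_sg, if_neg ha]
    simp
  rw [h3, Finset.prod_const, Finset.card_univ]
  have h4 : (Fintype.card (Z → V P) : ℝ) = (Fintype.card (V P) : ℝ) ^ Fintype.card Z := by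
    have := @Fintype.card_fun Z (V P) _ _ _
    exact_mod_cast this
  rw [h4, div_eq_mul_inv, mul_pow, mul_comm, one_div]

end Char

/-- families of vectors -/
abbrev Fm85 (I : Type*) (P : ℕ) := I → V P

section Main

variable {P Q : ℕ} {I J Z Z' : Type*} [Fintype I] [Fintype J] [Fintype Z] [Fintype Z']
  [DecidableEq I] [DecidableEq J] [DecidableEq Z] [DecidableEq Z']

open Classical in
/-- Lemma V -/
theorem lemV (e : ℝ) (hZ : (1 / 2 : ℝ) ^ Fintype.card Z ≤ e) (hZ' : (1 / 2 : ℝ) ^ Fintype.card Z' ≤ e) :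
    VarOK P Q I J Z Z' e := by
  intro g
  -- cardinalities
  have c1 : (0 : ℝ) < Fintype.card (Fm85 I P) := by exact_mod_cast (Fintype.card_pos : 0 < Fintype.card (Fm85 I P))
  have c2 : (0 : ℝ) < Fintype.card (Fm85 J Q) := by exact_mod_cast (Fintype.card_pos : 0 < Fintype.card (Fm85 J Q))
  have f1 : (0 : ℝ) < Fintype.card (Fm85 Z P) := by exact_mod_cast (Fintype.card_pos : 0 < Fintype.card (Fm85 Z P))
  have f2 : (0 : ℝ) < Fintype.card (Fm85 Z' Q) := by exact_mod_cast (Fintype.card_pos : 0 < Fintype.card (Fm85 Z' Q))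
  have k1 : (0 : ℝ) < Fintype.card (I → Z → ZMod 2) := by
    exact_mod_cast (Fintype.card_pos : 0 < Fintype.card (I → Z → ZMod 2))
  have k2 : (0 : ℝ) < Fintype.card (J → Z' → ZMod 2) := by
    exact_mod_cast (Fintype.card_pos : 0 < Fintype.card (J → Z' → ZMod 2))
  set c : ℝ := (Fintype.card (Fm85 I P) : ℝ) * Fintype.card (Fm85 J Q) with hcdef
  have hc : 0 < c := mul_pos c1 c2
  -- the characters
  set χ : Fm85 I P × Fm85 J Q → Fm85 I P × Fm85 J Q → ℝ := fun l x => sgp85 l.1 x.1 * sgp85 l.2 x.2 with hχ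
  have o1 : ∀ l l', ∑ x, χ l x * χ l' x = if l = l' then c else 0 := by
    intro l l'
    rw [Fintype.sum_prod_type]
    have h1 : ∀ x : Fm85 I P, ∑ y : Fm85 J Q, χ l (x, y) * χ l' (x, y) =
        (sgp85 l.1 x * sgp85 l'.1 x) * ∑ y, sgp85 l.2 y * sgp85 l'.2 y := by
      intro x
      rw [Finset.mul_sum]
      refine Finset.sum_congr rfl fun y _ => ?_
      simp only [hχ]
      ring
    simp only [h1]
    rw [← Finset.sum_mul, sgp_orth85, sgp_orth85]
    by_cases ha : l.1 = l'.1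
    · by_cases hb : l.2 = l'.2
      · rw [if_pos ha, if_pos hb, if_pos (Prod.ext ha hb)]
      · rw [if_neg hb, mul_zero, if_neg (fun h => hb (congrArg Prod.snd h))]
    · rw [if_neg ha, zero_mul, if_neg (fun h => ha (congrArg Prod.fst h))]
  have o2 : ∀ x y, ∑ l, χ l x * χ l y = if x = y then c else 0 := by
    intro x y
    rw [← o1 x y]
    refine Finset.sum_congr rfl fun l _ => ?_
    simp only [hχ]
    rw [sgp_comm85 l.1 x.1, sgp_comm85 l.2 x.2, sgp_comm85 l.1 y.1, sgp_comm85 l.2 y.2]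
  set ĝ : Fm85 I P × Fm85 J Q → ℝ := fun l => (∑ y, g y * χ l y) / c with hĝ
  have hinv : ∀ x, g x = ∑ l, ĝ l * χ l x := fun x => four_inv85 χ c hc.ne' o2 g x
  have hpars : ∑ x, g x ^ 2 = c * ∑ l, ĝ l ^ 2 := by
    have := four_pars85 χ c o1 ĝ
    rw [← this]
    refine Finset.sum_congr rfl fun x _ => ?_
    rw [← hinv x]
  have hcc : (Fintype.card (Fm85 I P × Fm85 J Q) : ℝ) = c := by
    rw [Fintype.card_prod]
    push_cast
    rfl
  have hmean : (∑ x, g x) / Fintype.card (Fm85 I P × Fm85 J Q) = ĝ 0 := by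
    rw [hcc]
    simp only [hĝ]
    congr 1
    refine Finset.sum_congr rfl fun x _ => ?_
    simp [hχ, sgp_zero85]
  -- survival
  set s : Fm85 I P × Fm85 J Q → Fm85 Z P × Fm85 Z' Q → ℝ := fun l f =>
    (if ∀ a z, l.1 a ⬝ᵥ f.1 z = 0 then 1 else 0) * (if ∀ a z, l.2 a ⬝ᵥ f.2 z = 0 then 1 else 0) with hs
  have hs01 : ∀ l f, s l f ^ 2 = s l f := by
    intro l f
    simp only [hs]
    split <;> split <;> norm_num
  have hs0 : ∀ f, s 0 f = 1 := by
    intro f
    simp [hs]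
  have hsurv : ∀ l, l ≠ 0 → ∑ f, s l f ≤ e * (Fintype.card (Fm85 Z P) * Fintype.card (Fm85 Z' Q)) := by
    intro l hl
    rw [Fintype.sum_prod_type]
    have h1 : ∀ x : Fm85 Z P, ∑ y : Fm85 Z' Q, s l (x, y) = (if ∀ a z, l.1 a ⬝ᵥ x z = 0 then (1 : ℝ) else 0) *
        ∑ y : Fm85 Z' Q, (if ∀ a z, l.2 a ⬝ᵥ y z = 0 then (1 : ℝ) else 0) := by
      intro x
      rw [Finset.mul_sum]
    simp only [h1]
    rw [← Finset.sum_mul]
    have u1 : (∑ x : Fm85 Z P, if ∀ a z, l.1 a ⬝ᵥ x z = 0 then (1 : ℝ) else 0) ≤ Fintype.card (Fm85 Z P) := by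
      calc (∑ x : Fm85 Z P, if ∀ a z, l.1 a ⬝ᵥ x z = 0 then (1 : ℝ) else 0) ≤ ∑ _x : Fm85 Z P, (1 : ℝ) :=
            Finset.sum_le_sum fun x _ => by split <;> norm_num
        _ = Fintype.card (Fm85 Z P) := by simp
    have u2 : (∑ x : Fm85 Z' Q, if ∀ a z, l.2 a ⬝ᵥ x z = 0 then (1 : ℝ) else 0) ≤ Fintype.card (Fm85 Z' Q) := by
      calc (∑ x : Fm85 Z' Q, if ∀ a z, l.2 a ⬝ᵥ x z = 0 then (1 : ℝ) else 0) ≤ ∑ _x : Fm85 Z' Q, (1 : ℝ) :=
            Finset.sum_le_sum fun x _ => by split <;> norm_num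
        _ = Fintype.card (Fm85 Z' Q) := by simp
    have n1 : 0 ≤ (∑ x : Fm85 Z P, if ∀ a z, l.1 a ⬝ᵥ x z = 0 then (1 : ℝ) else 0) :=
      Finset.sum_nonneg fun x _ => by split <;> norm_num
    have n2 : 0 ≤ (∑ x : Fm85 Z' Q, if ∀ a z, l.2 a ⬝ᵥ x z = 0 then (1 : ℝ) else 0) :=
      Finset.sum_nonneg fun x _ => by split <;> norm_num
    by_cases ha : l.1 = 0
    · have hb : l.2 ≠ 0 := fun hb => hl (Prod.ext ha hb)
      have h2 := surv_le85 (Z := Z') l.2 hb
      calc (∑ x : Fm85 Z P, if ∀ a z, l.1 a ⬝ᵥ x z = 0 then (1 : ℝ) else 0) *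
            (∑ x : Fm85 Z' Q, if ∀ a z, l.2 a ⬝ᵥ x z = 0 then (1 : ℝ) else 0)
          ≤ Fintype.card (Fm85 Z P) * ((1 / 2) ^ Fintype.card Z' * Fintype.card (Fm85 Z' Q)) :=
            mul_le_mul u1 h2 n2 f1.le
        _ ≤ Fintype.card (Fm85 Z P) * (e * Fintype.card (Fm85 Z' Q)) := by gcongr
        _ = e * (Fintype.card (Fm85 Z P) * Fintype.card (Fm85 Z' Q)) := by ring
    · have h2 := surv_le85 (Z := Z) l.1 ha
      calc (∑ x : Fm85 Z P, if ∀ a z, l.1 a ⬝ᵥ x z = 0 then (1 : ℝ) else 0) *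
            (∑ x : Fm85 Z' Q, if ∀ a z, l.2 a ⬝ᵥ x z = 0 then (1 : ℝ) else 0)
          ≤ ((1 / 2) ^ Fintype.card Z * Fintype.card (Fm85 Z P)) * Fintype.card (Fm85 Z' Q) := by
            refine mul_le_mul h2 u2 n2 (by positivity)
        _ ≤ (e * Fintype.card (Fm85 Z P)) * Fintype.card (Fm85 Z' Q) := by gcongr
        _ = e * (Fintype.card (Fm85 Z P) * Fintype.card (Fm85 Z' Q)) := by ring
  -- the average over the public coefficients
  have havg : ∀ (ξ : Fm85 I P) (ζ : Fm85 Z P) (η : Fm85 J Q) (ζ' : Fm85 Z' Q),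
      (∑ k : (I → Z → ZMod 2) × (J → Z' → ZMod 2), g (ξ + dm85 k.1 ζ, η + dm85 k.2 ζ')) /
        Fintype.card ((I → Z → ZMod 2) × (J → Z' → ZMod 2)) =
      ∑ l, (ĝ l * s l (ζ, ζ')) * χ l (ξ, η) := by
    intro ξ ζ η ζ'
    have h1 : ∑ k : (I → Z → ZMod 2) × (J → Z' → ZMod 2), g (ξ + dm85 k.1 ζ, η + dm85 k.2 ζ') =
        ∑ l, (ĝ l * χ l (ξ, η)) * ((∑ D : I → Z → ZMod 2, sgp85 l.1 (dm85 D ζ)) *
          ∑ D' : J → Z' → ZMod 2, sgp85 l.2 (dm85 D' ζ')) := by
      have h2 : ∀ k : (I → Z → ZMod 2) × (J → Z' → ZMod 2), g (ξ + dm85 k.1 ζ, η + dm85 k.2 ζ') =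
          ∑ l, (ĝ l * χ l (ξ, η)) * (sgp85 l.1 (dm85 k.1 ζ) * sgp85 l.2 (dm85 k.2 ζ')) := by
        intro k
        rw [hinv]
        refine Finset.sum_congr rfl fun l _ => ?_
        simp only [hχ, sgp_add85]
        ring
      simp only [h2]
      rw [Finset.sum_comm]
      refine Finset.sum_congr rfl fun l _ => ?_
      rw [← Finset.mul_sum, Fintype.sum_prod_type]
      congr 1
      rw [Finset.sum_mul_sum]
    rw [h1, Fintype.card_prod]
    push_cast
    rw [Finset.sum_div]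
    refine Finset.sum_congr rfl fun l _ => ?_
    rw [sum_dm85, sum_dm85]
    simp only [hs]
    split <;> split <;> (try field_simp) <;> (try ring)
  -- splitting the coins
  have hmx1 : ∀ (D : I → Z → ZMod 2) (x : Fm85 I P) (z : Fm85 Z P), mx D (Sum.elim x z) = x + dm85 D z := by
    intro D x z
    funext a
    simp [mx, dm85]
  have hmx2 : ∀ (D : J → Z' → ZMod 2) (x : Fm85 J Q) (z : Fm85 Z' Q), mx D (Sum.elim x z) = x + dm85 D z := by
    intro D x z
    funext a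
    simp [mx, dm85]
  set H : (I ⊕ Z → V P) × (J ⊕ Z' → V Q) → ℝ := fun c =>
    ((∑ k : (I → Z → ZMod 2) × (J → Z' → ZMod 2), g (mx k.1 c.1, mx k.2 c.2)) /
      Fintype.card ((I → Z → ZMod 2) × (J → Z' → ZMod 2)) - ĝ 0) ^ 2 with hH
  have hsplit : ∑ c, H c = ∑ f : Fm85 Z P × Fm85 Z' Q, ∑ x : Fm85 I P × Fm85 J Q,
      (∑ l, (ĝ l * s l f) * χ l x - ĝ 0) ^ 2 := by
    rw [← Equiv.sum_comp ((Equiv.sumArrowEquivProdArrow I Z (V P)).symm.prodCongr
      (Equiv.sumArrowEquivProdArrow J Z' (V Q)).symm) H]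
    rw [Fintype.sum_prod_type, Fintype.sum_prod_type]
    have h1 : ∀ (x : Fm85 I P) (z : Fm85 Z P), ∑ c2 : Fm85 J Q × Fm85 Z' Q,
        H (((Equiv.sumArrowEquivProdArrow I Z (V P)).symm.prodCongr
          (Equiv.sumArrowEquivProdArrow J Z' (V Q)).symm) ((x, z), c2)) =
        ∑ y : Fm85 J Q, ∑ z' : Fm85 Z' Q, (∑ l, (ĝ l * s l (z, z')) * χ l (x, y) - ĝ 0) ^ 2 := by
      intro x z
      rw [Fintype.sum_prod_type]
      refine Finset.sum_congr rfl fun y _ => Finset.sum_congr rfl fun z' _ => ?_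
      rw [← havg x z y z']
      simp only [hH]
      have h5 : ∀ k : (I → Z → ZMod 2) × (J → Z' → ZMod 2),
          g (mx k.1 (Sum.elim x z), mx k.2 (Sum.elim y z')) = g (x + dm85 k.1 z, y + dm85 k.2 z') := by
        intro k
        rw [hmx1, hmx2]
      have h6 := Finset.sum_congr (rfl : (Finset.univ : Finset ((I → Z → ZMod 2) × (J → Z' → ZMod 2))) = Finset.univ)
        (fun k _ => h5 k)
      rw [← h6]
      rfl
    simp only [h1]
    rw [Finset.sum_comm]
    rw [Fintype.sum_prod_type]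
    refine Finset.sum_congr rfl fun z _ => ?_
    have h2 : ∀ z' : Fm85 Z' Q, ∑ x : Fm85 I P × Fm85 J Q, (∑ l, (ĝ l * s l (z, z')) * χ l x - ĝ 0) ^ 2 =
        ∑ x : Fm85 I P, ∑ y : Fm85 J Q, (∑ l, (ĝ l * s l (z, z')) * χ l (x, y) - ĝ 0) ^ 2 := fun z' =>
      Fintype.sum_prod_type _
    simp only [h2]
    rw [Finset.sum_comm (s := (Finset.univ : Finset (Fm85 Z' Q)))]
    refine Finset.sum_congr rfl fun x _ => ?_
    rw [Finset.sum_comm]
  have hone : ∀ f : Fm85 Z P × Fm85 Z' Q, ∑ x : Fm85 I P × Fm85 J Q, (∑ l, (ĝ l * s l f) * χ l x - ĝ 0) ^ 2 =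
      c * ∑ l, (if l = 0 then 0 else ĝ l * s l f) ^ 2 := by
    intro f
    rw [← four_pars85 χ c o1]
    refine Finset.sum_congr rfl fun x _ => ?_
    congr 1
    have h1 : ∑ l, (ĝ l * s l f) * χ l x =
        ∑ l, (if l = 0 then 0 else ĝ l * s l f) * χ l x + ĝ 0 := by
      rw [← Finset.add_sum_erase _ _ (Finset.mem_univ (0 : Fm85 I P × Fm85 J Q)),
        ← Finset.add_sum_erase (s := Finset.univ) (f := fun l =>
          (if l = 0 then 0 else ĝ l * s l f) * χ l x) (a := (0 : Fm85 I P × Fm85 J Q)) (Finset.mem_univ _)]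
      have h2 : ∑ l ∈ Finset.univ.erase (0 : Fm85 I P × Fm85 J Q), (ĝ l * s l f) * χ l x =
          ∑ l ∈ Finset.univ.erase (0 : Fm85 I P × Fm85 J Q), (if l = 0 then 0 else ĝ l * s l f) * χ l x := by
        refine Finset.sum_congr rfl fun l hl => ?_
        rw [if_neg (Finset.ne_of_mem_erase hl)]
      rw [h2, if_pos rfl, hs0]
      have h3 : χ 0 x = 1 := by simp [hχ, sgp_zero85]
      rw [h3]
      ring
    rw [h1]
    ring
  rw [hmean]
  change (∑ c, H c) / _ ≤ _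
  rw [hsplit]
  simp only [hone]
  rw [← Finset.mul_sum, Finset.sum_comm]
  have hb : ∀ l : Fm85 I P × Fm85 J Q, ∑ f : Fm85 Z P × Fm85 Z' Q, (if l = 0 then 0 else ĝ l * s l f) ^ 2 ≤
      ĝ l ^ 2 * (e * (Fintype.card (Fm85 Z P) * Fintype.card (Fm85 Z' Q))) := by
    intro l
    by_cases hl : l = 0
    · simp only [hl, if_true]
      have he : 0 ≤ e := le_trans (by positivity) hZ
      simp
      positivity
    · simp only [hl, if_false, mul_pow, hs01]
      rw [← Finset.mul_sum]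
      exact mul_le_mul_of_nonneg_left (hsurv l hl) (by positivity)
  have hcard : (Fintype.card ((I ⊕ Z → V P) × (J ⊕ Z' → V Q)) : ℝ) =
      c * (Fintype.card (Fm85 Z P) * Fintype.card (Fm85 Z' Q)) := by
    rw [Fintype.card_prod, Fintype.card_congr (Equiv.sumArrowEquivProdArrow I Z (V P)),
      Fintype.card_congr (Equiv.sumArrowEquivProdArrow J Z' (V Q)), Fintype.card_prod,
      Fintype.card_prod]
    push_cast
    rw [hcdef]
    ring
  rw [hcard, hcc, hpars]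
  rw [div_le_iff₀ (by positivity)]
  have h1 : c * ∑ l : Fm85 I P × Fm85 J Q, ∑ f : Fm85 Z P × Fm85 Z' Q, (if l = 0 then 0 else ĝ l * s l f) ^ 2 ≤
      c * ∑ l : Fm85 I P × Fm85 J Q, ĝ l ^ 2 * (e * (Fintype.card (Fm85 Z P) * Fintype.card (Fm85 Z' Q))) :=
    mul_le_mul_of_nonneg_left (Finset.sum_le_sum fun l _ => hb l) hc.le
  refine h1.trans (le_of_eq ?_)
  rw [← Finset.sum_mul]
  field_simp

end Main

end Pool.Agent.NJ
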