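import Pool.Agent.NJ.LocDefs
import Pool.Agent.NJ.LemV85

/-! Row LV (helper85): `mix_var` from `lemV`, and the equivalence `Fin (i + l) → M ≃ Fin i ⊕ Fin l → M`. -/

set_option autoImplicit false

namespace Pool.Agent.NJ

open Finset Pool.Agent.CutSeq

/-- splitting the index set -/
def spl85 (i l : ℕ) (M : Type*) : (Fin (i + l) → M) ≃ (Fin i ⊕ Fin l → M) :=
  Equiv.arrowCongr finSumFinEquiv.symm (Equiv.refl M)

lemma spl_inl85 {i l : ℕ} {M : Type*} (c : Fin (i + l) → M) (a : Fin i) :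
    spl85 i l M c (Sum.inl a) = c (Fin.castAdd l a) := rfl

lemma spl_inr85 {i l : ℕ} {M : Type*} (c : Fin (i + l) → M) (b : Fin l) :
    spl85 i l M c (Sum.inr b) = c (Fin.natAdd i b) := rfl

lemma mix_eq_mx85 {t i j l : ℕ} (D : Cf i j l) (c : Co t (i + l) (j + l)) :
    mix D c = (mx D.1 (spl85 i l (V t) c.1), mx D.2 (spl85 j l (V t) c.2)) := rfl

/-- LV -/
theorem mix_var {t i j l : ℕ} (g : Co t i j → ℝ) :
    (∑ c : Co t (i + l) (j + l), ((∑ D : Cf i j l, g (mix D c)) / (Fintype.card (Cf i j l) : ℝ) -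
      (∑ c, g c) / (Fintype.card (Co t i j) : ℝ)) ^ 2) / (Fintype.card (Co t (i + l) (j + l)) : ℝ)
      ≤ (1 / 2) ^ l * ((∑ c, g c ^ 2) / (Fintype.card (Co t i j) : ℝ)) := by
  have h := lemV (P := t) (Q := t) (I := Fin i) (J := Fin j) (Z := Fin l) (Z' := Fin l) ((1 / 2) ^ l)
    (by rw [Fintype.card_fin]) (by rw [Fintype.card_fin]) g
  have hcard : Fintype.card (Co t (i + l) (j + l)) =
      Fintype.card ((Fin i ⊕ Fin l → V t) × (Fin j ⊕ Fin l → V t)) :=
    Fintype.card_congr ((spl85 i l (V t)).prodCongr (spl85 j l (V t)))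
  have hs := Equiv.sum_comp ((spl85 i l (V t)).prodCongr (spl85 j l (V t)))
    (fun c : (Fin i ⊕ Fin l → V t) × (Fin j ⊕ Fin l → V t) =>
      ((∑ k : (Fin i → Fin l → ZMod 2) × (Fin j → Fin l → ZMod 2), g (mx k.1 c.1, mx k.2 c.2)) /
          Fintype.card ((Fin i → Fin l → ZMod 2) × (Fin j → Fin l → ZMod 2)) -
        (∑ c, g c) / Fintype.card ((Fin i → V t) × (Fin j → V t))) ^ 2)
  rw [← hs, ← hcard] at h
  exact h

end Pool.Agent.NJ
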