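import Pool.Agent.CutSeq.Ent

/-!
S19271, target B, LEMMA C (helper2): the conditional entropy of one bit is continuous in the square root
of the Jensen-Shannon divergence.

* `JS w w' X` : Jensen-Shannon divergence of the laws of `X` under `w` and `w'` (in terms of `K0`).
* `JS_nonneg`, `JS_mono` (data processing).
* `lemC` : `|KK w Y Z - KK w' Y Z| ≤ 8 * √(JS w w' X * (KK w Y Z + KK w' Y Z))` if `Y` is one bit and
  `Y`, `Z` are functions of `X`.
-/

set_option autoImplicit false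

namespace Pool.Agent.NJ

open Finset Pool.Agent.CutSeq

/-! ### two inequalities for real functions -/

/-- `e^v ≥ 1 + v + v²/3` for `v ≥ - log 2` -/
theorem exp_third {v : ℝ} (hv : -Real.log 2 ≤ v) : 1 + v + v ^ 2 / 3 ≤ Real.exp v := by
  rcases le_or_gt 0 v with h | h
  · have := Real.quadratic_le_exp_of_nonneg h
    nlinarith [sq_nonneg v]
  · have hl : Real.log 2 < 0.6931471808 := Real.log_two_lt_d9
    have h1 : |v| ≤ 1 := by
      rw [abs_le]
      constructor <;> linarith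
    have h2 := Real.exp_bound h1 (n := 4) (by norm_num)
    rw [abs_le] at h2
    have h3 := h2.1
    norm_num [Finset.sum_range_succ, Nat.factorial] at h3
    have h4 : |v| ^ 4 = v ^ 4 := by
      rw [← abs_pow]
      exact abs_of_nonneg (by positivity)
    have h5 : -(v ^ 4 * (5 / 96)) ≤ Real.exp v - (1 + v + v ^ 2 / 2 + v ^ 3 / 6) := by
      have e : |v| ^ 4 * (5 / 96) = v ^ 4 * (5 / 96) := by rw [h4]
      linarith
    have h6 : v ^ 2 / 3 ≤ v ^ 2 / 2 + v ^ 3 / 6 - v ^ 4 * (5 / 96) := by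
      have h7 : 0 ≤ 1 / 6 + v / 6 - v ^ 2 * (5 / 96) := by nlinarith
      nlinarith [mul_nonneg (sq_nonneg v) h7]
    linarith

/-- `x log² x ≤ 3 (x log x - x + 1)` on `[0, 2]` -/
theorem log_sq_le {x : ℝ} (h0 : 0 ≤ x) (h2 : x ≤ 2) :
    x * Real.log x ^ 2 ≤ 3 * (x * Real.log x - x + 1) := by
  rcases eq_or_lt_of_le h0 with h | h
  · rw [← h]
    norm_num
  · have h3 := exp_third (v := -Real.log x) (by
      have := Real.log_le_log h h2
      linarith)
    rw [Real.exp_neg, Real.exp_log h] at h3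
    have h4 := mul_le_mul_of_nonneg_left h3 h.le
    rw [mul_inv_cancel₀ h.ne'] at h4
    nlinarith

/-- `(r - 1)² ≤ 3 (r log r - r + 1)` on `[0, 2]` -/
theorem sub_sq_le {r : ℝ} (h0 : 0 ≤ r) (h2 : r ≤ 2) :
    (r - 1) ^ 2 ≤ 3 * (r * Real.log r - r + 1) := by
  rcases eq_or_lt_of_le h0 with h | h
  · rw [← h]
    norm_num
  · rcases le_or_gt 1 r with h1 | h1
    · have h3 := Real.le_log_one_add_of_nonneg (x := r - 1) (by linarith)
      rw [show 1 + (r - 1) = r by ring, show r - 1 + 2 = r + 1 by ring] at h3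
      have h4 := mul_le_mul_of_nonneg_left h3 h.le
      have h5 : (r - 1) + (r - 1) ^ 2 / 3 ≤ r * (2 * (r - 1) / (r + 1)) := by
        rw [← mul_div_assoc, le_div_iff₀ (by linarith)]
        nlinarith [mul_nonneg (mul_nonneg (sub_nonneg.2 h1) (sub_nonneg.2 h1)) (sub_nonneg.2 h2)]
      linarith
    · have h3 : -Real.log r ≤ Real.sinh (-Real.log r) :=
        Real.self_le_sinh_iff.2 (by
          have := Real.log_neg h h1
          linarith)
      rw [Real.sinh_neg, Real.sinh_log h] at h3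
      have h4 : r * ((r - r⁻¹) / 2) ≤ r * Real.log r := mul_le_mul_of_nonneg_left (by linarith) h.le
      have h5 : r * ((r - r⁻¹) / 2) = (r ^ 2 - 1) / 2 := by
        field_simp
      rw [h5] at h4
      nlinarith

/-! ### divergence of the laws of a variable -/

variable {Ω A B C : Type*} [Fintype Ω]

/-- change of measure -/
theorem chg_le (w m : Ω → ℝ) (_hw : ∀ ω, 0 ≤ w ω) (hm : ∀ ω, 0 ≤ m ω) (X : Ω → C) (g : C → ℝ)
    (hg : ∀ c, 0 ≤ g c) :
    ∑ ω, w ω * (mass m X (X ω) / mass w X (X ω) * g (X ω)) ≤ ∑ ω, m ω * g (X ω) := by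
  classical
  rw [sum_eq_sum_mass w X (univ.image X) (fun ω _ => by simp)
      (fun c => mass m X c / mass w X c * g c),
    sum_eq_sum_mass m X (univ.image X) (fun ω _ => by simp) g]
  refine Finset.sum_le_sum fun c _ => ?_
  by_cases h : mass w X c = 0
  · rw [h, zero_mul]
    exact mul_nonneg (mass_nonneg m hm X c) (hg c)
  · rw [← mul_assoc, mul_div_cancel₀ _ h]

/-- divergence of the law of `U` under `w` from the law of `U` under `m` -/
noncomputable def KLd (w m : Ω → ℝ) (U : Ω → C) : ℝ :=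
  ∑ ω, w ω * Real.log (mass w U (U ω) / mass m U (U ω))

/-- data processing -/
theorem KLd_mono (w m : Ω → ℝ) (hw : ∀ ω, 0 ≤ w ω) (hm : ∀ ω, 0 ≤ m ω)
    (hac : ∀ ω, m ω = 0 → w ω = 0) (X : Ω → A) (U : Ω → C)
    (hU : ∀ ω ω', X ω = X ω' → U ω = U ω') : KLd w m U ≤ KLd w m X := by
  classical
  -- `U = φ ∘ X` on the range
  have key : ∑ ω, w ω * (mass m X (X ω) / mass w X (X ω) *
      (mass w U (U ω) / mass m U (U ω))) ≤ tot w := by
    have h1 : ∃ g : A → ℝ, (∀ a, 0 ≤ g a) ∧ ∀ ω, g (X ω) = mass w U (U ω) / mass m U (U ω) := by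
      refine ⟨fun a => if h : ∃ ω, X ω = a then
        mass w U (U h.choose) / mass m U (U h.choose) else 0, fun a => ?_, fun ω => ?_⟩
      · dsimp only
        split
        · exact div_nonneg (mass_nonneg w hw _ _) (mass_nonneg m hm _ _)
        · exact le_rfl
      · have hh : ∃ ω', X ω' = X ω := ⟨ω, rfl⟩
        dsimp only
        rw [dif_pos hh, hU _ _ hh.choose_spec]
    obtain ⟨g, hg, hgX⟩ := h1
    have h2 := chg_le w m hw hm X g hg
    simp_rw [hgX] at h2
    refine h2.trans ?_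
    have h3 := chg_le m w hm hw U (fun _ => 1) (fun _ => zero_le_one)
    simp only [mul_one] at h3
    exact h3
  unfold KLd
  rw [← sub_nonneg, ← Finset.sum_sub_distrib]
  have h4 : ∀ ω ∈ (univ : Finset Ω), w ω - w ω * (mass m X (X ω) / mass w X (X ω) *
      (mass w U (U ω) / mass m U (U ω))) ≤
      w ω * Real.log (mass w X (X ω) / mass m X (X ω)) -
        w ω * Real.log (mass w U (U ω) / mass m U (U ω)) := by
    intro ω _
    by_cases h : w ω = 0
    · simp [h]
    · have hm0 : m ω ≠ 0 := fun h' => h (hac ω h')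
      have a1 := mass_pos w hw X h
      have a2 := mass_pos w hw U h
      have a3 := mass_pos m hm X hm0
      have a4 := mass_pos m hm U hm0
      rw [← mul_sub, ← Real.log_div (by positivity) (by positivity)]
      have h5 := Real.log_le_sub_one_of_pos (x := mass m X (X ω) / mass w X (X ω) *
        (mass w U (U ω) / mass m U (U ω))) (by positivity)
      have h6 : Real.log (mass w X (X ω) / mass m X (X ω) / (mass w U (U ω) / mass m U (U ω))) =
          -Real.log (mass m X (X ω) / mass w X (X ω) * (mass w U (U ω) / mass m U (U ω))) := by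
        rw [← Real.log_inv]
        congr 1
        field_simp
      rw [h6]
      have h7 : w ω - w ω * (mass m X (X ω) / mass w X (X ω) *
          (mass w U (U ω) / mass m U (U ω))) = w ω * (1 - mass m X (X ω) / mass w X (X ω) *
          (mass w U (U ω) / mass m U (U ω))) := by ring
      rw [h7]
      exact mul_le_mul_of_nonneg_left (by linarith) (hw ω)
  refine le_trans ?_ (Finset.sum_le_sum h4)
  rw [Finset.sum_sub_distrib]
  have h8 : ∑ ω, w ω = tot w := rfl
  linarith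

/-- the divergence is nonnegative if the total weights are equal -/
theorem KLd_nonneg (w m : Ω → ℝ) (hw : ∀ ω, 0 ≤ w ω) (hm : ∀ ω, 0 ≤ m ω)
    (hac : ∀ ω, m ω = 0 → w ω = 0) (ht : tot w = tot m) (X : Ω → A) : 0 ≤ KLd w m X := by
  have h1 := KLd_mono w m hw hm hac X (fun _ => ()) (fun _ _ _ => rfl)
  have h2 : KLd w m (fun _ => ()) = 0 := by
    unfold KLd
    refine Finset.sum_eq_zero fun ω _ => ?_
    rw [mass_const, mass_const, ht]
    by_cases h : tot m = 0
    · rw [h]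
      simp
    · rw [div_self h]
      simp
  linarith

/-- the middle weight -/
noncomputable def mid (w w' : Ω → ℝ) : Ω → ℝ := fun ω => (w ω + w' ω) / 2

theorem mid_comm (w w' : Ω → ℝ) : mid w w' = mid w' w := by
  funext ω
  unfold mid
  ring

theorem mid_nonneg {w w' : Ω → ℝ} (hw : ∀ ω, 0 ≤ w ω) (hw' : ∀ ω, 0 ≤ w' ω) (ω : Ω) :
    0 ≤ mid w w' ω := by
  unfold mid
  linarith [hw ω, hw' ω]

theorem mid_ac {w w' : Ω → ℝ} (hw : ∀ ω, 0 ≤ w ω) (hw' : ∀ ω, 0 ≤ w' ω) (ω : Ω)
    (h : mid w w' ω = 0) : w ω = 0 := by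
  unfold mid at h
  linarith [hw ω, hw' ω]

theorem tot_mid {w w' : Ω → ℝ} (ht : tot w = tot w') : tot (mid w w') = tot w := by
  unfold tot mid at *
  rw [← Finset.sum_div, Finset.sum_add_distrib, ← ht]
  ring

theorem mass_mid (w w' : Ω → ℝ) (X : Ω → C) (c : C) :
    mass (mid w w') X c = (mass w X c + mass w' X c) / 2 := by
  classical
  unfold mass mid
  rw [← Finset.sum_add_distrib, Finset.sum_div]
  refine Finset.sum_congr rfl fun ω _ => ?_
  split
  · rfl
  · simp

/-- Jensen-Shannon divergence (unnormalised, nats) of the laws of `X` under `w` and `w'` -/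
noncomputable def JS [Fintype A] (w w' : Ω → ℝ) (X : Ω → A) : ℝ :=
  (K0 w X + K0 w' X) / 2 - K0 (mid w w') X

theorem JS_comm [Fintype A] (w w' : Ω → ℝ) (X : Ω → A) : JS w w' X = JS w' w X := by
  unfold JS
  rw [mid_comm w w']
  ring

/-- half of the sum of the divergences from the middle weight -/
noncomputable def JD (w w' : Ω → ℝ) (X : Ω → C) : ℝ :=
  (KLd w (mid w w') X + KLd w' (mid w w') X) / 2

theorem KLd_eq_K0 [Fintype A] (w m : Ω → ℝ) (hw : ∀ ω, 0 ≤ w ω) (hm : ∀ ω, 0 ≤ m ω)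
    (hac : ∀ ω, m ω = 0 → w ω = 0) (ht : tot w = tot m) (X : Ω → A) :
    KLd w m X = K0 w X - ∑ ω, w ω * Real.log (Fintype.card A * mass m X (X ω) / tot m) := by
  rw [K0_eq]
  unfold KLd
  rw [← Finset.sum_sub_distrib]
  refine Finset.sum_congr rfl fun ω _ => ?_
  by_cases h : w ω = 0
  · simp [h]
  · have hm0 : m ω ≠ 0 := fun h' => h (hac ω h')
    have a1 := mass_pos w hw X h
    have a3 := mass_pos m hm X hm0
    have a5 : 0 < tot m := lt_of_lt_of_le (lt_of_le_of_ne (hm ω) hm0.symm) (le_tot m hm ω)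
    have hA : (0 : ℝ) < Fintype.card A := by
      have : Nonempty A := ⟨X ω⟩
      exact_mod_cast Fintype.card_pos
    rw [← mul_sub, ht, ← Real.log_div (by positivity) (by positivity)]
    congr 2
    field_simp

theorem JS_eq_JD [Fintype A] (w w' : Ω → ℝ) (hw : ∀ ω, 0 ≤ w ω) (hw' : ∀ ω, 0 ≤ w' ω)
    (ht : tot w = tot w') (X : Ω → A) : JS w w' X = JD w w' X := by
  unfold JS JD
  rw [KLd_eq_K0 w _ hw (mid_nonneg hw hw') (mid_ac hw hw') (tot_mid ht).symm,
    KLd_eq_K0 w' _ hw' (mid_nonneg hw hw') (fun ω h => mid_ac hw' hw ω (by rwa [mid_comm] at h))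
      ((tot_mid ht).trans ht).symm, K0_eq (mid w w')]
  have h1 : ∑ ω, mid w w' ω * Real.log (Fintype.card A * mass (mid w w') X (X ω) / tot (mid w w')) =
      (∑ ω, w ω * Real.log (Fintype.card A * mass (mid w w') X (X ω) / tot (mid w w')) +
        ∑ ω, w' ω * Real.log (Fintype.card A * mass (mid w w') X (X ω) / tot (mid w w'))) / 2 := by
    rw [← Finset.sum_add_distrib, Finset.sum_div]
    refine Finset.sum_congr rfl fun ω _ => ?_
    show (w ω + w' ω) / 2 * _ = _
    ring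
  rw [h1]
  ring

theorem JD_nonneg (w w' : Ω → ℝ) (hw : ∀ ω, 0 ≤ w ω) (hw' : ∀ ω, 0 ≤ w' ω)
    (ht : tot w = tot w') (X : Ω → C) : 0 ≤ JD w w' X := by
  have h1 := KLd_nonneg w _ hw (mid_nonneg hw hw') (mid_ac hw hw') (tot_mid ht).symm X
  have h2 := KLd_nonneg w' _ hw' (mid_nonneg hw hw')
    (fun ω h => mid_ac hw' hw ω (by rwa [mid_comm] at h)) ((tot_mid ht).trans ht).symm X
  unfold JD
  linarith

theorem JD_mono (w w' : Ω → ℝ) (hw : ∀ ω, 0 ≤ w ω) (hw' : ∀ ω, 0 ≤ w' ω) (X : Ω → A) (U : Ω → C)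
    (hU : ∀ ω ω', X ω = X ω' → U ω = U ω') : JD w w' U ≤ JD w w' X := by
  have h1 := KLd_mono w _ hw (mid_nonneg hw hw') (mid_ac hw hw') X U hU
  have h2 := KLd_mono w' _ hw' (mid_nonneg hw hw')
    (fun ω h => mid_ac hw' hw ω (by rwa [mid_comm] at h)) X U hU
  unfold JD
  linarith

theorem JS_nonneg [Fintype A] (w w' : Ω → ℝ) (hw : ∀ ω, 0 ≤ w ω) (hw' : ∀ ω, 0 ≤ w' ω)
    (ht : tot w = tot w') (X : Ω → A) : 0 ≤ JS w w' X := by
  rw [JS_eq_JD w w' hw hw' ht]
  exact JD_nonneg w w' hw hw' ht X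

/-- data processing for the Jensen-Shannon divergence -/
theorem JS_mono [Fintype A] [Fintype C] (w w' : Ω → ℝ) (hw : ∀ ω, 0 ≤ w ω) (hw' : ∀ ω, 0 ≤ w' ω)
    (ht : tot w = tot w') (X : Ω → A) (U : Ω → C) (hU : ∀ ω ω', X ω = X ω' → U ω = U ω') :
    JS w w' U ≤ JS w w' X := by
  rw [JS_eq_JD w w' hw hw' ht, JS_eq_JD w w' hw hw' ht]
  exact JD_mono w w' hw hw' X U hU

/-! ### one bit -/

/-- change of the conditional entropy: `KK w - KK against the density of m` -/
theorem KK_sub_KLd [Fintype A] (w m : Ω → ℝ) (hw : ∀ ω, 0 ≤ w ω) (hm : ∀ ω, 0 ≤ m ω)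
    (hac : ∀ ω, m ω = 0 → w ω = 0) (Y : Ω → A) (Z : Ω → C) :
    KK w Y Z = KLd w m (fun ω => (Y ω, Z ω)) - KLd w m Z + ∑ ω, w ω *
      Real.log (Fintype.card A * mass m (fun ω => (Y ω, Z ω)) (Y ω, Z ω) / mass m Z (Z ω)) := by
  unfold KLd KK
  rw [← Finset.sum_sub_distrib, ← Finset.sum_add_distrib]
  refine Finset.sum_congr rfl fun ω _ => ?_
  by_cases h : w ω = 0
  · simp [h]
  · have hm0 : m ω ≠ 0 := fun h' => h (hac ω h')
    have a1 := mass_pos w hw (fun ω => (Y ω, Z ω)) h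
    have a2 := mass_pos w hw Z h
    have a3 := mass_pos m hm (fun ω => (Y ω, Z ω)) hm0
    have a4 := mass_pos m hm Z hm0
    have hA : (0 : ℝ) < Fintype.card A := by
      have : Nonempty A := ⟨Y ω⟩
      exact_mod_cast Fintype.card_pos
    rw [← mul_sub, ← mul_add, ← Real.log_div (by positivity) (by positivity),
      ← Real.log_mul (by positivity) (by positivity)]
    congr 2
    field_simp

/-- half of the sum of the entropies against the entropy of the middle weight -/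
theorem KK_mid [Fintype A] (w w' : Ω → ℝ) (hw : ∀ ω, 0 ≤ w ω) (hw' : ∀ ω, 0 ≤ w' ω)
    (Y : Ω → A) (Z : Ω → C) :
    (KK w Y Z + KK w' Y Z) / 2 - KK (mid w w') Y Z =
      JD w w' (fun ω => (Y ω, Z ω)) - JD w w' Z := by
  rw [KK_sub_KLd w (mid w w') hw (mid_nonneg hw hw') (mid_ac hw hw'),
    KK_sub_KLd w' (mid w w') hw' (mid_nonneg hw hw')
      (fun ω h => mid_ac hw' hw ω (by rwa [mid_comm] at h))]
  have h1 : KK (mid w w') Y Z = (∑ ω, w ω *
      Real.log (Fintype.card A * mass (mid w w') (fun ω => (Y ω, Z ω)) (Y ω, Z ω) /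
        mass (mid w w') Z (Z ω)) + ∑ ω, w' ω *
      Real.log (Fintype.card A * mass (mid w w') (fun ω => (Y ω, Z ω)) (Y ω, Z ω) /
        mass (mid w w') Z (Z ω))) / 2 := by
    unfold KK
    rw [← Finset.sum_add_distrib, Finset.sum_div]
    refine Finset.sum_congr rfl fun ω _ => ?_
    show (w ω + w' ω) / 2 * _ = _
    ring
  rw [h1]
  unfold JD
  ring

theorem KK_mid_le [Fintype A] (w w' : Ω → ℝ) (hw : ∀ ω, 0 ≤ w ω) (hw' : ∀ ω, 0 ≤ w' ω)
    (Y : Ω → A) (Z : Ω → C) : KK (mid w w') Y Z ≤ (KK w Y Z + KK w' Y Z) / 2 := by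
  have h1 := KK_mid w w' hw hw' Y Z
  have h2 := JD_mono w w' hw hw' (fun ω => (Y ω, Z ω)) Z (fun _ _ h => (Prod.mk.inj h).2)
  linarith

/-- chi square against divergence -/
theorem chi_le (w m : Ω → ℝ) (hw : ∀ ω, 0 ≤ w ω) (hm : ∀ ω, 0 ≤ m ω) (hwm : ∀ ω, w ω ≤ 2 * m ω)
    (ht : tot w = tot m) (U : Ω → C) (S : Finset C) (hS : ∀ ω, U ω ∈ S) :
    ∑ c ∈ S, (mass m U c - mass w U c) ^ 2 / mass m U c ≤ 3 * KLd w m U := by
  classical
  have hW : ∀ c, mass w U c ≤ 2 * mass m U c := by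
    intro c
    have := mass_le_mass (fun ω => 2 * m ω) w hwm U c
    refine this.trans (le_of_eq ?_)
    unfold mass
    rw [Finset.mul_sum]
    refine Finset.sum_congr rfl fun ω _ => ?_
    split <;> simp
  have h1 : KLd w m U = ∑ c ∈ S, mass w U c * Real.log (mass w U c / mass m U c) :=
    sum_eq_sum_mass w U S (fun ω _ => hS ω) (fun c => Real.log (mass w U c / mass m U c))
  have h2 : ∀ v : Ω → ℝ, ∑ c ∈ S, mass v U c = tot v := by
    intro v
    have := sum_eq_sum_mass v U S (fun ω _ => hS ω) (fun _ => 1)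
    simp only [mul_one] at this
    exact this.symm
  have h3 : ∀ c ∈ S, (mass m U c - mass w U c) ^ 2 / mass m U c ≤
      3 * (mass w U c * Real.log (mass w U c / mass m U c) - mass w U c + mass m U c) := by
    intro c _
    have b1 := mass_nonneg w hw U c
    rcases eq_or_lt_of_le (mass_nonneg m hm U c) with h | h
    · have h4 : mass w U c = 0 := le_antisymm (by have := hW c; rw [← h] at this; linarith) b1
      rw [← h, h4]
      simp
    · have h5 := sub_sq_le (r := mass w U c / mass m U c) (by positivity)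
        (by rw [div_le_iff₀ h]; exact hW c)
      have h6 := mul_le_mul_of_nonneg_left h5 h.le
      have h7 : mass m U c * (mass w U c / mass m U c - 1) ^ 2 =
          (mass m U c - mass w U c) ^ 2 / mass m U c := by
        field_simp
        ring
      have h8 : mass m U c * (3 * (mass w U c / mass m U c * Real.log (mass w U c / mass m U c) -
          mass w U c / mass m U c + 1)) =
          3 * (mass w U c * Real.log (mass w U c / mass m U c) - mass w U c + mass m U c) := by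
        field_simp
      rw [h7, h8] at h6
      exact h6
  refine (Finset.sum_le_sum h3).trans (le_of_eq ?_)
  rw [← Finset.mul_sum, Finset.sum_add_distrib, Finset.sum_sub_distrib, h2, h2, ← h1, ht]
  ring

/-- second moment of the conditional information of one bit -/
theorem info_sq_le (m : Ω → ℝ) (hm : ∀ ω, 0 ≤ m ω) (Y : Ω → ZMod 2) (Z : Ω → C)
    (S : Finset C) (hS : ∀ ω, Z ω ∈ S) :
    ∑ u ∈ (univ : Finset (ZMod 2)) ×ˢ S, mass m (fun ω => (Y ω, Z ω)) u *
      Real.log (2 * mass m (fun ω => (Y ω, Z ω)) u / mass m Z u.2) ^ 2 ≤ 3 * KK m Y Z := by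
  classical
  have hU : ∀ ω, (Y ω, Z ω) ∈ (univ : Finset (ZMod 2)) ×ˢ S := by
    intro ω
    simp [hS ω]
  have h1 : KK m Y Z = ∑ u ∈ (univ : Finset (ZMod 2)) ×ˢ S, mass m (fun ω => (Y ω, Z ω)) u *
      Real.log (2 * mass m (fun ω => (Y ω, Z ω)) u / mass m Z u.2) := by
    have := sum_eq_sum_mass m (fun ω => (Y ω, Z ω)) ((univ : Finset (ZMod 2)) ×ˢ S)
      (fun ω _ => hU ω) (fun u => Real.log (2 * mass m (fun ω => (Y ω, Z ω)) u / mass m Z u.2))
    rw [← this]
    unfold KK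
    rw [ZMod.card]
    norm_num
  have h2 : ∑ u ∈ (univ : Finset (ZMod 2)) ×ˢ S, mass m (fun ω => (Y ω, Z ω)) u = tot m := by
    have := sum_eq_sum_mass m (fun ω => (Y ω, Z ω)) ((univ : Finset (ZMod 2)) ×ˢ S)
      (fun ω _ => hU ω) (fun _ => 1)
    simp only [mul_one] at this
    exact this.symm
  have h3 : ∑ u ∈ (univ : Finset (ZMod 2)) ×ˢ S, mass m Z u.2 / 2 = tot m := by
    rw [Finset.sum_product]
    simp only [Finset.sum_const, Finset.card_univ, ZMod.card, nsmul_eq_mul]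
    rw [← Finset.sum_div]
    have := sum_eq_sum_mass m Z S (fun ω _ => hS ω) (fun _ => 1)
    simp only [mul_one] at this
    rw [← this]
    unfold tot
    push_cast
    ring
  have h4 : ∀ u ∈ (univ : Finset (ZMod 2)) ×ˢ S, mass m (fun ω => (Y ω, Z ω)) u *
      Real.log (2 * mass m (fun ω => (Y ω, Z ω)) u / mass m Z u.2) ^ 2 ≤
      3 * (mass m (fun ω => (Y ω, Z ω)) u *
        Real.log (2 * mass m (fun ω => (Y ω, Z ω)) u / mass m Z u.2) -
        mass m (fun ω => (Y ω, Z ω)) u + mass m Z u.2 / 2) := by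
    intro u _
    have b1 := mass_nonneg m hm (fun ω => (Y ω, Z ω)) u
    have b2 : mass m (fun ω => (Y ω, Z ω)) u ≤ mass m Z u.2 :=
      mass_mono m hm _ _ _ _ (fun ω h => by rw [← h])
    rcases eq_or_lt_of_le (mass_nonneg m hm Z u.2) with h | h
    · have h5 : mass m (fun ω => (Y ω, Z ω)) u = 0 := le_antisymm (by rw [← h] at b2; exact b2) b1
      rw [h5, ← h]
      simp
    · have h5 := log_sq_le (x := 2 * mass m (fun ω => (Y ω, Z ω)) u / mass m Z u.2)
        (by positivity) (by rw [div_le_iff₀ h]; linarith)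
      have h6 := mul_le_mul_of_nonneg_left h5 (show 0 ≤ mass m Z u.2 / 2 by linarith)
      have h7 : mass m Z u.2 / 2 * (2 * mass m (fun ω => (Y ω, Z ω)) u / mass m Z u.2 *
          Real.log (2 * mass m (fun ω => (Y ω, Z ω)) u / mass m Z u.2) ^ 2) =
          mass m (fun ω => (Y ω, Z ω)) u *
            Real.log (2 * mass m (fun ω => (Y ω, Z ω)) u / mass m Z u.2) ^ 2 := by
        field_simp
      have h8 : mass m Z u.2 / 2 * (3 * (2 * mass m (fun ω => (Y ω, Z ω)) u / mass m Z u.2 *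
          Real.log (2 * mass m (fun ω => (Y ω, Z ω)) u / mass m Z u.2) -
          2 * mass m (fun ω => (Y ω, Z ω)) u / mass m Z u.2 + 1)) =
          3 * (mass m (fun ω => (Y ω, Z ω)) u *
            Real.log (2 * mass m (fun ω => (Y ω, Z ω)) u / mass m Z u.2) -
            mass m (fun ω => (Y ω, Z ω)) u + mass m Z u.2 / 2) := by
        field_simp
      rw [h7, h8] at h6
      exact h6
  refine (Finset.sum_le_sum h4).trans (le_of_eq ?_)
  rw [← Finset.mul_sum, Finset.sum_add_distrib, Finset.sum_sub_distrib, h2, h3, ← h1]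
  ring

/-- the entropy of one bit under a dominating weight against the entropy under the weight -/
theorem KK_bit_sub_le (w m : Ω → ℝ) (hw : ∀ ω, 0 ≤ w ω) (hm : ∀ ω, 0 ≤ m ω)
    (hwm : ∀ ω, w ω ≤ 2 * m ω) (ht : tot w = tot m) (Y : Ω → ZMod 2) (Z : Ω → C) :
    KK m Y Z - KK w Y Z ≤ 3 * Real.sqrt (KLd w m (fun ω => (Y ω, Z ω)) * KK m Y Z) := by
  classical
  set U : Ω → ZMod 2 × C := fun ω => (Y ω, Z ω) with hUdef
  set SZ : Finset C := univ.image Z with hSZ
  have hS : ∀ ω, Z ω ∈ SZ := fun ω => by simp [hSZ]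
  have hU : ∀ ω, U ω ∈ (univ : Finset (ZMod 2)) ×ˢ SZ := by
    intro ω
    simp [hUdef, hS ω]
  have hac : ∀ ω, m ω = 0 → w ω = 0 := by
    intro ω h
    have := hwm ω
    rw [h] at this
    exact le_antisymm (by linarith) (hw ω)
  set L : ZMod 2 × C → ℝ := fun u => Real.log (2 * mass m U u / mass m Z u.2) with hL
  -- Gibbs
  have g1 : ∑ ω, w ω * L (U ω) ≤ KK w Y Z := by
    refine DV_density w hw Y Z (fun y z => 2 * mass m U (y, z) / mass m Z z) ?_ ?_ ?_
    · intro y z
      exact div_nonneg (mul_nonneg zero_le_two (mass_nonneg m hm _ _)) (mass_nonneg m hm _ _)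
    · intro ω h
      have hm0 : m ω ≠ 0 := fun h' => h (hac ω h')
      have a3 : 0 < mass m U (Y ω, Z ω) := mass_pos m hm U hm0
      have a4 := mass_pos m hm Z hm0
      positivity
    · intro ω h
      have hm0 : m ω ≠ 0 := fun h' => h (hac ω h')
      have a4 := mass_pos m hm Z hm0
      rw [← Finset.sum_div, ← Finset.mul_sum, sum_mass m Y Z (Z ω), ZMod.card]
      push_cast
      field_simp
  have g2 : KK m Y Z = ∑ ω, m ω * L (U ω) := by
    unfold KK
    rw [ZMod.card]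
    norm_num
    rfl
  -- as sums over the values
  have g3 : ∑ ω, w ω * L (U ω) = ∑ u ∈ (univ : Finset (ZMod 2)) ×ˢ SZ, mass w U u * L u :=
    sum_eq_sum_mass w U _ (fun ω _ => hU ω) L
  have g4 : ∑ ω, m ω * L (U ω) = ∑ u ∈ (univ : Finset (ZMod 2)) ×ˢ SZ, mass m U u * L u :=
    sum_eq_sum_mass m U _ (fun ω _ => hU ω) L
  have hW : ∀ c, mass w U c ≤ 2 * mass m U c := by
    intro c
    have := mass_le_mass (fun ω => 2 * m ω) w hwm U c
    refine this.trans (le_of_eq ?_)
    unfold mass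
    rw [Finset.mul_sum]
    refine Finset.sum_congr rfl fun ω _ => ?_
    split <;> simp
  -- Cauchy-Schwarz
  have h1 := chi_le w m hw hm hwm ht U _ hU
  have h2 := info_sq_le m hm Y Z SZ hS
  have h3 : (∑ u ∈ (univ : Finset (ZMod 2)) ×ˢ SZ, (mass m U u - mass w U u) * L u) ^ 2 ≤
      (∑ u ∈ (univ : Finset (ZMod 2)) ×ˢ SZ, (mass m U u - mass w U u) ^ 2 / mass m U u) *
        ∑ u ∈ (univ : Finset (ZMod 2)) ×ˢ SZ, mass m U u * L u ^ 2 := by
    refine Finset.sum_sq_le_sum_mul_sum_of_sq_eq_mul _ (fun u _ => ?_) (fun u _ => ?_)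
      (fun u _ => ?_)
    · exact div_nonneg (sq_nonneg _) (mass_nonneg m hm _ _)
    · exact mul_nonneg (mass_nonneg m hm _ _) (sq_nonneg _)
    · by_cases h : mass m U u = 0
      · have h5 : mass w U u = 0 := le_antisymm (by have := hW u; rw [h] at this; linarith)
          (mass_nonneg w hw _ _)
        rw [h, h5]
        simp
      · field_simp
  have hk := KK_nonneg m hm Y Z
  have hd := KLd_nonneg w m hw hm hac ht U
  have h4 : (∑ u ∈ (univ : Finset (ZMod 2)) ×ˢ SZ, (mass m U u - mass w U u) * L u) ^ 2 ≤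
      (3 * Real.sqrt (KLd w m U * KK m Y Z)) ^ 2 := by
    refine h3.trans ?_
    rw [mul_pow, Real.sq_sqrt (mul_nonneg hd hk)]
    have h5 : 0 ≤ ∑ u ∈ (univ : Finset (ZMod 2)) ×ˢ SZ, mass m U u * L u ^ 2 :=
      Finset.sum_nonneg fun u _ => mul_nonneg (mass_nonneg m hm _ _) (sq_nonneg _)
    calc _ ≤ (3 * KLd w m U) * (3 * KK m Y Z) :=
          mul_le_mul h1 h2 h5 (by positivity)
      _ = _ := by ring
  have h5 := abs_le_of_sq_le_sq' h4 (by positivity)
  calc KK m Y Z - KK w Y Z ≤ ∑ ω, m ω * L (U ω) - ∑ ω, w ω * L (U ω) := by linarith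
    _ = ∑ u ∈ (univ : Finset (ZMod 2)) ×ˢ SZ, (mass m U u - mass w U u) * L u := by
        rw [g3, g4, ← Finset.sum_sub_distrib]
        refine Finset.sum_congr rfl fun u _ => ?_
        ring
    _ ≤ _ := h5.2

/-- one-sided form of LEMMA C -/
theorem lemC_aux (w w' : Ω → ℝ) (hw : ∀ ω, 0 ≤ w ω) (hw' : ∀ ω, 0 ≤ w' ω) (ht : tot w = tot w')
    (Y : Ω → ZMod 2) (Z : Ω → C) :
    KK w Y Z - KK w' Y Z ≤
      8 * Real.sqrt (JD w w' (fun ω => (Y ω, Z ω)) * (KK w Y Z + KK w' Y Z)) := by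
  set J := JD w w' (fun ω => (Y ω, Z ω)) with hJ
  set S := KK w Y Z + KK w' Y Z with hSd
  have hJ0 : 0 ≤ J := JD_nonneg w w' hw hw' ht _
  have k1 := KK_nonneg w hw Y Z
  have k2 := KK_nonneg w' hw' Y Z
  have hm := mid_nonneg hw hw'
  have k3 := KK_nonneg _ hm Y Z
  have h1 := KK_mid w w' hw hw' Y Z
  have h2 : 0 ≤ JD w w' Z := JD_nonneg w w' hw hw' ht _
  have h3 := KK_mid_le w w' hw hw' Y Z
  have hac' : ∀ ω, mid w w' ω = 0 → w' ω = 0 := fun ω h =>
    mid_ac hw' hw ω (by rwa [mid_comm] at h)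
  have h4 := KK_bit_sub_le w' (mid w w') hw' hm (fun ω => by unfold mid; linarith [hw ω])
    ((tot_mid ht).trans ht).symm Y Z
  have h5 : KLd w' (mid w w') (fun ω => (Y ω, Z ω)) ≤ 2 * J := by
    have := KLd_nonneg w (mid w w') hw hm (mid_ac hw hw') (tot_mid ht).symm (fun ω => (Y ω, Z ω))
    rw [hJ]
    unfold JD
    linarith
  have h6 : KLd w' (mid w w') (fun ω => (Y ω, Z ω)) * KK (mid w w') Y Z ≤ J * S := by
    calc _ ≤ (2 * J) * (S / 2) := mul_le_mul h5 h3 k3 (by positivity)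
      _ = J * S := by ring
  have h7 := Real.sqrt_le_sqrt h6
  -- the Jensen part
  set j := S / 2 - KK (mid w w') Y Z with hj
  have h8 : j ≤ J := by linarith
  have h9 : j ≤ S := by linarith
  have h10 : 0 ≤ j := by linarith
  have h11 : j ≤ Real.sqrt (J * S) := by
    refine Real.le_sqrt_of_sq_le ?_
    rw [sq]
    exact mul_le_mul h8 h9 h10 hJ0
  have h12 : KK w Y Z - KK w' Y Z = 2 * j + 2 * (KK (mid w w') Y Z - KK w' Y Z) := by
    rw [hj, hSd]
    ring
  linarith

/-- LEMMA C -/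
theorem lemC [Fintype A] (w w' : Ω → ℝ) (hw : ∀ ω, 0 ≤ w ω) (hw' : ∀ ω, 0 ≤ w' ω)
    (ht : tot w = tot w') (X : Ω → A) (Y : Ω → ZMod 2) (Z : Ω → C)
    (hX : ∀ ω ω', X ω = X ω' → Y ω = Y ω' ∧ Z ω = Z ω') :
    |KK w Y Z - KK w' Y Z| ≤ 8 * Real.sqrt (JS w w' X * (KK w Y Z + KK w' Y Z)) := by
  have k1 := KK_nonneg w hw Y Z
  have k2 := KK_nonneg w' hw' Y Z
  have h1 : JD w w' (fun ω => (Y ω, Z ω)) ≤ JS w w' X := by
    rw [JS_eq_JD w w' hw hw' ht]
    exact JD_mono w w' hw hw' X _ (fun ω ω' h => Prod.ext (hX ω ω' h).1 (hX ω ω' h).2)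
  have h2 := lemC_aux w w' hw hw' ht Y Z
  have h3 := lemC_aux w' w hw' hw ht.symm Y Z
  have h4 : JD w' w (fun ω => (Y ω, Z ω)) = JD w w' (fun ω => (Y ω, Z ω)) := by
    unfold JD
    rw [mid_comm w' w]
    ring
  rw [h4, add_comm (KK w' Y Z)] at h3
  have h5 : Real.sqrt (JD w w' (fun ω => (Y ω, Z ω)) * (KK w Y Z + KK w' Y Z)) ≤
      Real.sqrt (JS w w' X * (KK w Y Z + KK w' Y Z)) :=
    Real.sqrt_le_sqrt (mul_le_mul_of_nonneg_right h1 (by linarith))
  rw [abs_le]
  constructor <;> linarith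

end Pool.Agent.NJ
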