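import Pool.Agent.CutSeq.Quant
import Pool.Agent.NJ.Defs84
import Pool.Agent.NJ.Tow86

/-!
Robust statistic (page NOJUNK3, inequality (R)): a vector of a capped list which is a true relation
but which is rarely in the list given the history has small probability.

The siblings are `X : Fin i → V R` and `Z : Fin l → V R`, uniform on `T ω` given `ω` (coins:
`T = ⊤`).  The fine data `Dp ω X Z` behave well under `X ↦ X + ρ Z`.
-/

set_option autoImplicit false

namespace Pool.Agent.NJ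

open Finset Pool.Agent.CutSeq Pool.Agent.CutSeq.NJ

section Mix

variable {Ω Bp : Type*} [Fintype Ω] {R n i l : ℕ}

/-- `X + ρ Z` -/
def mixv (ρ : Fin i → Fin l → ZMod 2) (X : Fin i → V R) (Z : Fin l → V R) : Fin i → V R :=
  fun a => X a + ∑ b, ρ a b • Z b

lemma mixv_mixv (ρ : Fin i → Fin l → ZMod 2) (X : Fin i → V R) (Z : Fin l → V R) :
    mixv ρ (mixv ρ X Z) Z = X := by
  funext a
  unfold mixv
  rw [add_assoc]
  have : (∑ b, ρ a b • Z b) + ∑ b, ρ a b • Z b = 0 := by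
    funext j
    exact CharTwo.add_self_eq_zero _
  rw [this, add_zero]

/-- the change of variables -/
def mixE (ρ : Fin i → Fin l → ZMod 2) :
    Ω × (Fin i → V R) × (Fin l → V R) ≃ Ω × (Fin i → V R) × (Fin l → V R) where
  toFun p := (p.1, mixv ρ p.2.1 p.2.2, p.2.2)
  invFun p := (p.1, mixv ρ p.2.1 p.2.2, p.2.2)
  left_inv p := by
    show (p.1, mixv ρ (mixv ρ p.2.1 p.2.2) p.2.2, p.2.2) = p
    rw [mixv_mixv]
  right_inv p := by
    show (p.1, mixv ρ (mixv ρ p.2.1 p.2.2) p.2.2, p.2.2) = p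
    rw [mixv_mixv]

omit [Fintype Ω] in
lemma sib2_mix (w : Ω → ℝ) (T : Ω → Submodule (ZMod 2) (V R)) (ρ : Fin i → Fin l → ZMod 2)
    (p : Ω × (Fin i → V R) × (Fin l → V R)) :
    sib2 w T T i l (mixE ρ p) = sib2 w T T i l p := by
  show w p.1 * (∏ a, uT (T p.1) (mixv ρ p.2.1 p.2.2 a)) * (∏ b, uT (T p.1) (p.2.2 b)) =
    w p.1 * (∏ a, uT (T p.1) (p.2.1 a)) * ∏ b, uT (T p.1) (p.2.2 b)
  by_cases h : ∏ b, uT (T p.1) (p.2.2 b) = 0
  · rw [h, mul_zero, mul_zero]
  · have hZ : ∀ b, p.2.2 b ∈ T p.1 := by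
      intro b
      rw [← ne_eq, Finset.prod_ne_zero_iff] at h
      exact (uT_pos_iff _ _).1 (h b (Finset.mem_univ b))
    congr 2
    refine Finset.prod_congr rfl fun a _ => ?_
    unfold mixv
    exact uT_add (T p.1) (Submodule.sum_mem _ fun b _ => (T p.1).smul_mem _ (hZ b)) _

lemma sum_mix (w : Ω → ℝ) (T : Ω → Submodule (ZMod 2) (V R)) (ρ : Fin i → Fin l → ZMod 2)
    (F : Ω × (Fin i → V R) × (Fin l → V R) → ℝ) :
    ∑ p, sib2 w T T i l p * F (mixE ρ p) = ∑ p, sib2 w T T i l p * F p := by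
  rw [← Equiv.sum_comp (mixE (Ω := Ω) (R := R) ρ) (fun p => sib2 w T T i l p * F p)]
  refine Finset.sum_congr rfl fun p _ => ?_
  rw [sib2_mix]

omit [Fintype Ω] in
lemma sib2_nonneg (w : Ω → ℝ) (hw : ∀ ω, 0 ≤ w ω) (T T' : Ω → Submodule (ZMod 2) (V R))
    (p : Ω × (Fin i → V R) × (Fin l → V R)) : 0 ≤ sib2 w T T' i l p :=
  mul_nonneg (mul_nonneg (hw _) (Finset.prod_nonneg fun _ _ => uT_nonneg _ _))
    (Finset.prod_nonneg fun _ _ => uT_nonneg _ _)

/-- sums over the second family -/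
lemma sum_sib2_fst (w : Ω → ℝ) (T T' : Ω → Submodule (ZMod 2) (V R)) (G : Ω → (Fin i → V R) → ℝ) :
    ∑ p, sib2 w T T' i l p * G p.1 p.2.1 = ∑ ω, w ω * ∑ X : Fin i → V R,
      (∏ a, uT (T ω) (X a)) * G ω X := by
  unfold sib2
  rw [Fintype.sum_prod_type]
  refine Finset.sum_congr rfl fun ω _ => ?_
  rw [Fintype.sum_prod_type, Finset.mul_sum]
  refine Finset.sum_congr rfl fun X _ => ?_
  simp only
  have h : ∀ Z : Fin l → V R, w ω * (∏ a, uT (T ω) (X a)) * (∏ b, uT (T' ω) (Z b)) * G ω X =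
      (w ω * ((∏ a, uT (T ω) (X a)) * G ω X)) * ∏ b, uT (T' ω) (Z b) := by
    intro Z
    ring
  simp only [h]
  rw [← Finset.mul_sum, sum_prod_uT, mul_one]

lemma sum_sib2_zero (w : Ω → ℝ) (T T' : Ω → Submodule (ZMod 2) (V R)) (G : Ω → ℝ) :
    ∑ p, sib2 w T T' i l p * G p.1 = ∑ ω, w ω * G ω := by
  rw [sum_sib2_fst w T T' (fun ω (_ : Fin i → V R) => G ω)]
  refine Finset.sum_congr rfl fun ω _ => ?_
  rw [← Finset.sum_mul, sum_prod_uT, one_mul]

lemma tot_sib2 (w : Ω → ℝ) (T T' : Ω → Submodule (ZMod 2) (V R)) :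
    tot (sib2 w T T' i l) = tot w := by
  have := sum_sib2_zero (i := i) (l := l) w T T' (fun _ => 1)
  simpa [tot] using this

end Mix

section Rob

variable {Ω Bp : Type*} [Fintype Ω] {R n i l : ℕ}

/-- fine data -/
def fine (Dp : Ω → (Fin i → V R) → (Fin l → V R) → Bp) (p : Ω × (Fin i → V R) × (Fin l → V R)) : Bp :=
  Dp p.1 p.2.1 p.2.2

/-- posterior probability of `a ∈ A'` given the fine data -/
noncomputable def postF (w : Ω → ℝ) (T : Ω → Submodule (ZMod 2) (V R)) (A' : Ω → Set (V n))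
    (Dp : Ω → (Fin i → V R) → (Fin l → V R) → Bp) (a : V n) (d : Bp) : ℝ :=
  mass (ind {p | a ∈ A' p.1} (sib2 w T T i l)) (fine Dp) d / mass (sib2 w T T i l) (fine Dp) d

open Classical in
/-- probability given the history that `a` is in the list -/
noncomputable def pL (T : Ω → Submodule (ZMod 2) (V R)) (Lw : Ω → (Fin i → V R) → Finset (V n))
    (a : V n) (ω : Ω) : ℝ :=
  ∑ X : Fin i → V R, (∏ b, uT (T ω) (X b)) * (if a ∈ Lw ω X then 1 else 0)

open Classical in
/-- average over the mixings -/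
noncomputable def FL (Lw : Ω → (Fin i → V R) → Finset (V n)) (a : V n)
    (p : Ω × (Fin i → V R) × (Fin l → V R)) : ℝ :=
  (∑ ρ : Fin i → Fin l → ZMod 2, if a ∈ Lw p.1 (mixv ρ p.2.1 p.2.2) then (1 : ℝ) else 0) /
    Fintype.card (Fin i → Fin l → ZMod 2)

omit [Fintype Ω] in
lemma pL_nonneg (T : Ω → Submodule (ZMod 2) (V R)) (Lw : Ω → (Fin i → V R) → Finset (V n))
    (a : V n) (ω : Ω) : 0 ≤ pL T Lw a ω := by
  classical
  refine Finset.sum_nonneg fun X _ => mul_nonneg (Finset.prod_nonneg fun _ _ => uT_nonneg _ _) ?_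
  split <;> norm_num

omit [Fintype Ω] in
lemma FL_nonneg (Lw : Ω → (Fin i → V R) → Finset (V n)) (a : V n)
    (p : Ω × (Fin i → V R) × (Fin l → V R)) : 0 ≤ FL Lw a p := by
  classical
  refine div_nonneg (Finset.sum_nonneg fun ρ _ => ?_) (Nat.cast_nonneg _)
  split <;> norm_num

/-- the posterior is invariant under mixing -/
lemma postF_mix (w : Ω → ℝ) (T : Ω → Submodule (ZMod 2) (V R)) (A' : Ω → Set (V n))
    (Dp : Ω → (Fin i → V R) → (Fin l → V R) → Bp)
    (Φ : (Fin i → Fin l → ZMod 2) → Bp → Bp)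
    (hΦ : ∀ ρ ω X Z, Dp ω (mixv ρ X Z) Z = Φ ρ (Dp ω X Z)) (a : V n)
    (ρ : Fin i → Fin l → ZMod 2) (p : Ω × (Fin i → V R) × (Fin l → V R)) :
    postF w T A' Dp a (fine Dp (mixE ρ p)) = postF w T A' Dp a (fine Dp p) := by
  classical
  have hfine : ∀ q : Ω × (Fin i → V R) × (Fin l → V R), fine Dp (mixE ρ q) = Φ ρ (fine Dp q) :=
    fun q => hΦ ρ q.1 q.2.1 q.2.2
  have hinv : ∀ q : Ω × (Fin i → V R) × (Fin l → V R), Φ ρ (Φ ρ (fine Dp q)) = fine Dp q := by
    intro q
    rw [← hfine q, ← hfine]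
    congr 1
    exact (mixE ρ).left_inv q
  have hiff : ∀ q : Ω × (Fin i → V R) × (Fin l → V R),
      (fine Dp (mixE ρ q) = fine Dp (mixE ρ p) ↔ fine Dp q = fine Dp p) := by
    intro q
    rw [hfine, hfine]
    constructor
    · intro h
      rw [← hinv q, ← hinv p, h]
    · intro h
      rw [h]
  have hmass : ∀ W : Ω × (Fin i → V R) × (Fin l → V R) → ℝ, (∀ q, W (mixE ρ q) = W q) →
      mass W (fine Dp) (fine Dp (mixE ρ p)) = mass W (fine Dp) (fine Dp p) := by
    intro W hW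
    unfold mass
    rw [← Equiv.sum_comp (mixE (Ω := Ω) (R := R) ρ)
      (fun q => if fine Dp q = fine Dp (mixE ρ p) then W q else 0)]
    refine Finset.sum_congr rfl fun q _ => ?_
    rw [hW]
    by_cases h : fine Dp q = fine Dp p
    · rw [if_pos h, if_pos ((hiff q).2 h)]
    · rw [if_neg h, if_neg (fun h' => h ((hiff q).1 h'))]
  unfold postF
  rw [hmass _ (fun q => sib2_mix w T ρ q), hmass _ (fun q => ?_)]
  unfold ind
  by_cases h : a ∈ A' q.1
  · rw [Set.indicator_of_mem (show mixE ρ q ∈ {p | a ∈ A' p.1} from h),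
      Set.indicator_of_mem (show q ∈ {p : Ω × (Fin i → V R) × (Fin l → V R) | a ∈ A' p.1} from h),
      sib2_mix]
  · rw [Set.indicator_of_notMem (show mixE ρ q ∉ {p | a ∈ A' p.1} from h),
      Set.indicator_of_notMem (show q ∉ {p : Ω × (Fin i → V R) × (Fin l → V R) | a ∈ A' p.1} from h)]

open Classical in
/-- (R1): the averages over the mixings are close to the probabilities given the history -/
theorem rob1 (w : Ω → ℝ) (hw : ∀ ω, 0 ≤ w ω) (T : Ω → Submodule (ZMod 2) (V R))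
    (Lw : Ω → (Fin i → V R) → Finset (V n)) (Sz δ : ℝ) (hδ : 0 ≤ δ)
    (hSz : ∀ ω X, ((Lw ω X).card : ℝ) ≤ Sz)
    (hV : ∀ (ω : Ω) (g : (Fin i → V R) → ℝ), ∑ X : Fin i → V R, ∑ Z : Fin l → V R,
      (∏ a, uT (T ω) (X a)) * (∏ b, uT (T ω) (Z b)) *
        ((∑ ρ : Fin i → Fin l → ZMod 2, g (mixv ρ X Z)) / Fintype.card (Fin i → Fin l → ZMod 2) -
          ∑ X' : Fin i → V R, (∏ a, uT (T ω) (X' a)) * g X') ^ 2 ≤
      δ * ∑ X : Fin i → V R, (∏ a, uT (T ω) (X a)) * g X ^ 2) :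
    ∑ p, sib2 w T T i l p * ∑ a, (FL Lw a p - pL T Lw a p.1) ^ 2 ≤ δ * Sz * tot w := by
  have h1 : ∀ a : V n, ∑ p, sib2 w T T i l p * (FL Lw a p - pL T Lw a p.1) ^ 2 ≤
      ∑ ω, w ω * (δ * ∑ X : Fin i → V R, (∏ b, uT (T ω) (X b)) *
        (if a ∈ Lw ω X then (1 : ℝ) else 0) ^ 2) := by
    intro a
    unfold sib2
    rw [Fintype.sum_prod_type]
    refine Finset.sum_le_sum fun ω _ => ?_
    refine le_trans (le_of_eq ?_) (mul_le_mul_of_nonneg_left
      (hV ω (fun X => if a ∈ Lw ω X then (1 : ℝ) else 0)) (hw ω))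
    rw [Fintype.sum_prod_type, Finset.mul_sum]
    refine Finset.sum_congr rfl fun X _ => ?_
    rw [Finset.mul_sum]
    refine Finset.sum_congr rfl fun Z _ => ?_
    simp only [FL, pL]
    ring
  have h2 : ∑ p, sib2 w T T i l p * ∑ a, (FL Lw a p - pL T Lw a p.1) ^ 2 =
      ∑ a, ∑ p, sib2 w T T i l p * (FL Lw a p - pL T Lw a p.1) ^ 2 := by
    simp only [Finset.mul_sum]
    rw [Finset.sum_comm]
  rw [h2]
  refine (Finset.sum_le_sum fun a _ => h1 a).trans ?_
  rw [Finset.sum_comm]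
  have h3 : ∀ ω, ∑ a : V n, w ω * (δ * ∑ X : Fin i → V R, (∏ b, uT (T ω) (X b)) *
      (if a ∈ Lw ω X then (1 : ℝ) else 0) ^ 2) ≤ w ω * (δ * Sz) := by
    intro ω
    rw [← Finset.mul_sum, ← Finset.mul_sum, Finset.sum_comm]
    refine mul_le_mul_of_nonneg_left (mul_le_mul_of_nonneg_left ?_ hδ) (hw ω)
    have h4 : ∀ X : Fin i → V R, ∑ a : V n, (∏ b, uT (T ω) (X b)) *
        (if a ∈ Lw ω X then (1 : ℝ) else 0) ^ 2 ≤ (∏ b, uT (T ω) (X b)) * Sz := by
      intro X
      rw [← Finset.mul_sum]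
      refine mul_le_mul_of_nonneg_left ?_ (Finset.prod_nonneg fun _ _ => uT_nonneg _ _)
      refine le_trans (le_of_eq ?_) (hSz ω X)
      have h5 : ∀ a : V n, (if a ∈ Lw ω X then (1 : ℝ) else 0) ^ 2 =
          if a ∈ Lw ω X then 1 else 0 := by
        intro a
        split <;> norm_num
      simp only [h5]
      rw [Finset.sum_boole]
      congr 2
      ext a
      simp
    refine (Finset.sum_le_sum fun X _ => h4 X).trans ?_
    rw [← Finset.sum_mul, sum_prod_uT, one_mul]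
  refine (Finset.sum_le_sum fun ω _ => h3 ω).trans (le_of_eq ?_)
  rw [← Finset.sum_mul, mul_comm]
  rfl

open Classical in
/-- (R2): false vectors which are often in the list -/
theorem rob2 (w : Ω → ℝ) (hw : ∀ ω, 0 ≤ w ω) (T : Ω → Submodule (ZMod 2) (V R))
    (A' : Ω → Set (V n)) (Lw : Ω → (Fin i → V R) → Finset (V n)) (th : ℝ) :
    th * ∑ ω, w ω * ∑ a : V n, (if a ∉ A' ω ∧ th ≤ pL T Lw a ω then (1 : ℝ) else 0) ≤
      ∑ p, sib2 w T T i l p * ∑ a : V n, (if a ∈ Lw p.1 p.2.1 ∧ a ∉ A' p.1 then (1 : ℝ) else 0) := by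
  rw [sum_sib2_fst w T T (fun ω X => ∑ a : V n, (if a ∈ Lw ω X ∧ a ∉ A' ω then (1 : ℝ) else 0)),
    Finset.mul_sum]
  refine Finset.sum_le_sum fun ω _ => ?_
  rw [← mul_assoc, mul_comm th, mul_assoc]
  refine mul_le_mul_of_nonneg_left ?_ (hw ω)
  simp only [Finset.mul_sum]
  rw [Finset.sum_comm]
  refine Finset.sum_le_sum fun a _ => ?_
  by_cases h : a ∉ A' ω ∧ th ≤ pL T Lw a ω
  · rw [if_pos h, mul_one]
    refine h.2.trans (le_of_eq ?_)
    unfold pL
    refine Finset.sum_congr rfl fun X _ => ?_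
    by_cases h2 : a ∈ Lw ω X
    · rw [if_pos h2, if_pos ⟨h2, h.1⟩]
    · rw [if_neg h2, if_neg (fun h3 => h2 h3.1)]
  · rw [if_neg h, mul_zero]
    refine Finset.sum_nonneg fun X _ => mul_nonneg (Finset.prod_nonneg fun _ _ => uT_nonneg _ _) ?_
    split <;> norm_num

open Classical in
/-- (R): true relations of the list which are rarely in the list given the history -/
theorem rob (w : Ω → ℝ) (hw : ∀ ω, 0 ≤ w ω) (T : Ω → Submodule (ZMod 2) (V R))
    (A' : Ω → Set (V n)) (Dp : Ω → (Fin i → V R) → (Fin l → V R) → Bp)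
    (Φ : (Fin i → Fin l → ZMod 2) → Bp → Bp)
    (hΦ : ∀ ρ ω X Z, Dp ω (mixv ρ X Z) Z = Φ ρ (Dp ω X Z))
    (Lf : Bp → Finset (V n)) (Lw : Ω → (Fin i → V R) → Finset (V n))
    (hL : ∀ ω X Z, Lf (Dp ω X Z) = Lw ω X) (Sz S2 κ th t δ : ℝ)
    (hSz : ∀ ω X, ((Lw ω X).card : ℝ) ≤ Sz) (hκ : 0 ≤ κ) (hth : 0 ≤ th) (hδ : 0 ≤ δ)
    (ht : 0 < t) (hS2 : 0 ≤ S2)
    (hV : ∀ (ω : Ω) (g : (Fin i → V R) → ℝ), ∑ X : Fin i → V R, ∑ Z : Fin l → V R,
      (∏ a, uT (T ω) (X a)) * (∏ b, uT (T ω) (Z b)) *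
        ((∑ ρ : Fin i → Fin l → ZMod 2, g (mixv ρ X Z)) / Fintype.card (Fin i → Fin l → ZMod 2) -
          ∑ X' : Fin i → V R, (∏ a, uT (T ω) (X' a)) * g X') ^ 2 ≤
      δ * ∑ X : Fin i → V R, (∏ a, uT (T ω) (X a)) * g X ^ 2) :
    ∑ p, sib2 w T T i l p *
        ∑ a : V n, (if a ∈ A' p.1 ∧ a ∈ Lw p.1 p.2.1 ∧ pL T Lw a p.1 < th then (1 : ℝ) else 0) ≤
      (κ * Sz + S2 * (th + t) + δ * Sz / (4 * t)) * tot w +
        Sz * pr (sib2 w T T i l)
          {p | S2 < ((univ.filter fun a : V n => κ ≤ postF w T A' Dp a (fine Dp p)).card : ℝ)} := by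
  set W := sib2 (i := i) (j := l) w T T with hWdef
  have hW : ∀ p, 0 ≤ sib2 w T T i l p := sib2_nonneg w hw T T
  set gd : V n → Ω × (Fin i → V R) × (Fin l → V R) → Prop := fun a p =>
    κ ≤ postF w T A' Dp a (fine Dp p) with hgd
  set big : Ω × (Fin i → V R) × (Fin l → V R) → Prop := fun p =>
    S2 < ((univ.filter fun a : V n => gd a p).card : ℝ) with hbig
  set Hf : V n → Ω × (Fin i → V R) × (Fin l → V R) → ℝ := fun a p =>
    if gd a p ∧ pL T Lw a p.1 < th ∧ ¬ big p then 1 else 0 with hHf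
  have htotW : tot (sib2 w T T i l) = tot w := tot_sib2 w T T
  have hcard : ∀ p : Ω × (Fin i → V R) × (Fin l → V R),
      ∑ a : V n, (if a ∈ Lw p.1 p.2.1 then (1 : ℝ) else 0) ≤ Sz := by
    intro p
    refine le_trans (le_of_eq ?_) (hSz p.1 p.2.1)
    rw [Finset.sum_boole]
    congr 2
    ext a
    simp
  have hgdmix : ∀ a ρ p, gd a (mixE ρ p) ↔ gd a p := by
    intro a ρ p
    simp only [hgd]
    rw [postF_mix w T A' Dp Φ hΦ a ρ p]
  have hbigmix : ∀ ρ p, big (mixE ρ p) ↔ big p := by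
    intro ρ p
    simp only [hbig, hgdmix]
  have hHmix : ∀ a ρ p, Hf a (mixE ρ p) = Hf a p := by
    intro a ρ p
    have h1 : (gd a (mixE ρ p) ∧ pL T Lw a (mixE ρ p).1 < th ∧ ¬ big (mixE ρ p)) ↔
        (gd a p ∧ pL T Lw a p.1 < th ∧ ¬ big p) := by
      rw [hgdmix, hbigmix]
      exact Iff.rfl
    simp only [hHf]
    by_cases h : gd a p ∧ pL T Lw a p.1 < th ∧ ¬ big p
    · rw [if_pos h, if_pos (h1.2 h)]
    · rw [if_neg h, if_neg (fun h' => h (h1.1 h'))]
  -- the three parts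
  have hsplit : ∀ p : Ω × (Fin i → V R) × (Fin l → V R),
      ∑ a : V n, (if a ∈ A' p.1 ∧ a ∈ Lw p.1 p.2.1 ∧ pL T Lw a p.1 < th then (1 : ℝ) else 0) ≤
      ∑ a : V n, (if a ∈ A' p.1 then 1 else 0) * (if a ∈ Lf (fine Dp p) ∧ ¬ gd a p then (1 : ℝ) else 0)
        + (if big p then Sz else 0) +
        ∑ a : V n, (if a ∈ Lw p.1 p.2.1 then (1 : ℝ) else 0) * Hf a p := by
    intro p
    by_cases hb : big p
    · rw [if_pos hb]
      have h1 : ∑ a : V n, (if a ∈ A' p.1 ∧ a ∈ Lw p.1 p.2.1 ∧ pL T Lw a p.1 < th then (1 : ℝ)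
          else 0) ≤ ∑ a : V n, (if a ∈ Lw p.1 p.2.1 then (1 : ℝ) else 0) := by
        refine Finset.sum_le_sum fun a _ => ?_
        by_cases h : a ∈ A' p.1 ∧ a ∈ Lw p.1 p.2.1 ∧ pL T Lw a p.1 < th
        · rw [if_pos h, if_pos h.2.1]
        · rw [if_neg h]
          split <;> norm_num
      have h2 : 0 ≤ ∑ a : V n, (if a ∈ A' p.1 then 1 else 0) *
          (if a ∈ Lf (fine Dp p) ∧ ¬ gd a p then (1 : ℝ) else 0) := by
        refine Finset.sum_nonneg fun a _ => ?_
        split <;> split <;> norm_num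
      have h3 : 0 ≤ ∑ a : V n, (if a ∈ Lw p.1 p.2.1 then (1 : ℝ) else 0) * Hf a p := by
        refine Finset.sum_nonneg fun a _ => ?_
        simp only [hHf]
        split <;> split <;> norm_num
      have h4 := hcard p
      linarith
    · rw [if_neg hb, add_zero, ← Finset.sum_add_distrib]
      refine Finset.sum_le_sum fun a _ => ?_
      have hLf : Lf (fine Dp p) = Lw p.1 p.2.1 := hL p.1 p.2.1 p.2.2
      rw [hLf]
      by_cases h : a ∈ A' p.1 ∧ a ∈ Lw p.1 p.2.1 ∧ pL T Lw a p.1 < th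
      · rw [if_pos h, if_pos h.1, if_pos h.2.1]
        by_cases hg : gd a p
        · have : Hf a p = 1 := by
            simp only [hHf]
            rw [if_pos ⟨hg, h.2.2, hb⟩]
          rw [this, if_neg (fun h' => h'.2 hg)]
          norm_num
        · rw [if_pos ⟨h.2.1, hg⟩]
          have : 0 ≤ Hf a p := by
            simp only [hHf]
            split <;> norm_num
          linarith
      · rw [if_neg h]
        have h0 : 0 ≤ Hf a p := by
          simp only [hHf]
          split <;> norm_num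
        refine add_nonneg ?_ (mul_nonneg ?_ h0)
        · split <;> split <;> norm_num
        · split <;> norm_num
  -- part one
  have hp1 : ∑ p, sib2 w T T i l p * ∑ a : V n, (if a ∈ A' p.1 then 1 else 0) *
      (if a ∈ Lf (fine Dp p) ∧ ¬ gd a p then (1 : ℝ) else 0) ≤ κ * Sz * tot w := by
    have h1 : ∀ a : V n, ∑ p, sib2 w T T i l p * ((if a ∈ A' p.1 then 1 else 0) *
        (if a ∈ Lf (fine Dp p) ∧ ¬ gd a p then (1 : ℝ) else 0)) ≤
        ∑ p, sib2 w T T i l p * (κ * (if a ∈ Lw p.1 p.2.1 then (1 : ℝ) else 0)) := by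
      intro a
      have h2 := tower_ind (sib2 w T T i l) hW (fine Dp) {p | a ∈ A' p.1}
        (fun d => if a ∈ Lf d ∧ ¬ κ ≤ postF w T A' Dp a d then (1 : ℝ) else 0)
      have h3 : ∀ p : Ω × (Fin i → V R) × (Fin l → V R),
          (if p ∈ {p : Ω × (Fin i → V R) × (Fin l → V R) | a ∈ A' p.1} then (1 : ℝ) else 0) =
          if a ∈ A' p.1 then 1 else 0 := by
        intro p
        by_cases h : a ∈ A' p.1
        · rw [if_pos h, if_pos (show p ∈ {p : Ω × (Fin i → V R) × (Fin l → V R) | a ∈ A' p.1} from h)]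
        · rw [if_neg h, if_neg (show p ∉ {p : Ω × (Fin i → V R) × (Fin l → V R) | a ∈ A' p.1} from h)]
      simp only [h3] at h2
      refine le_trans (le_of_eq h2) (Finset.sum_le_sum fun p _ => ?_)
      refine mul_le_mul_of_nonneg_left ?_ (hW p)
      have hLf : Lf (fine Dp p) = Lw p.1 p.2.1 := hL p.1 p.2.1 p.2.2
      rw [hLf]
      by_cases h4 : a ∈ Lw p.1 p.2.1
      · by_cases h5 : κ ≤ postF w T A' Dp a (fine Dp p)
        · rw [if_neg (fun h => h.2 h5), if_pos h4]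
          simpa using hκ
        · rw [if_pos ⟨h4, h5⟩, if_pos h4, mul_one, mul_one]
          push Not at h5
          exact h5.le
      · rw [if_neg (fun h => h4 h.1), if_neg h4]
        simp
    have h2 : ∑ p, sib2 w T T i l p * ∑ a : V n, (if a ∈ A' p.1 then 1 else 0) *
        (if a ∈ Lf (fine Dp p) ∧ ¬ gd a p then (1 : ℝ) else 0) =
        ∑ a : V n, ∑ p, sib2 w T T i l p * ((if a ∈ A' p.1 then 1 else 0) *
        (if a ∈ Lf (fine Dp p) ∧ ¬ gd a p then (1 : ℝ) else 0)) := by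
      simp only [Finset.mul_sum]
      rw [Finset.sum_comm]
    rw [h2]
    refine (Finset.sum_le_sum fun a _ => h1 a).trans ?_
    rw [Finset.sum_comm]
    have h3 : ∀ p : Ω × (Fin i → V R) × (Fin l → V R),
        ∑ a : V n, sib2 w T T i l p * (κ * (if a ∈ Lw p.1 p.2.1 then (1 : ℝ) else 0)) ≤
        sib2 w T T i l p * (κ * Sz) := by
      intro p
      rw [← Finset.mul_sum, ← Finset.mul_sum]
      exact mul_le_mul_of_nonneg_left (mul_le_mul_of_nonneg_left (hcard p) hκ) (hW p)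
    refine (Finset.sum_le_sum fun p _ => h3 p).trans (le_of_eq ?_)
    rw [← Finset.sum_mul, mul_comm]
    unfold tot at htotW
    rw [htotW]
    rfl
  -- part two
  have hp2 : ∑ p, sib2 w T T i l p * (if big p then Sz else 0) =
      Sz * pr (sib2 w T T i l) {p | big p} := by
    unfold pr tot ind
    rw [Finset.mul_sum]
    refine Finset.sum_congr rfl fun p _ => ?_
    by_cases h : big p
    · rw [if_pos h, Set.indicator_of_mem (by exact h), mul_comm]
    · rw [if_neg h, Set.indicator_of_notMem (by exact h)]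
      ring
  -- part three
  have hp3 : ∑ p, sib2 w T T i l p * ∑ a : V n, (if a ∈ Lw p.1 p.2.1 then (1 : ℝ) else 0) * Hf a p ≤
      (S2 * (th + t) + δ * Sz / (4 * t)) * tot w := by
    have h1 : ∀ a : V n, ∑ p, sib2 w T T i l p *
        ((if a ∈ Lw p.1 p.2.1 then (1 : ℝ) else 0) * Hf a p) =
        ∑ p, sib2 w T T i l p * (FL Lw a p * Hf a p) := by
      intro a
      have hK : (0 : ℝ) < Fintype.card (Fin i → Fin l → ZMod 2) := by
        exact_mod_cast Fintype.card_pos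
      have h2 : ∀ ρ : Fin i → Fin l → ZMod 2, ∑ p, sib2 w T T i l p *
          ((if a ∈ Lw p.1 p.2.1 then (1 : ℝ) else 0) * Hf a p) =
          ∑ p, sib2 w T T i l p *
            ((if a ∈ Lw p.1 (mixv ρ p.2.1 p.2.2) then (1 : ℝ) else 0) * Hf a p) := by
        intro ρ
        rw [← sum_mix w T ρ (fun p => (if a ∈ Lw p.1 p.2.1 then (1 : ℝ) else 0) * Hf a p)]
        refine Finset.sum_congr rfl fun p _ => ?_
        rw [hHmix]
        rfl
      have h3 : ∑ p, sib2 w T T i l p * (FL Lw a p * Hf a p) =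
          (∑ ρ : Fin i → Fin l → ZMod 2, ∑ p, sib2 w T T i l p *
            ((if a ∈ Lw p.1 (mixv ρ p.2.1 p.2.2) then (1 : ℝ) else 0) * Hf a p)) /
            Fintype.card (Fin i → Fin l → ZMod 2) := by
        rw [Finset.sum_comm, Finset.sum_div]
        refine Finset.sum_congr rfl fun p _ => ?_
        simp only [FL]
        rw [← Finset.mul_sum, ← Finset.sum_mul]
        ring
      rw [h3, Finset.sum_congr rfl (fun ρ _ => (h2 ρ).symm), Finset.sum_const, nsmul_eq_mul,
        Finset.card_univ]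
      field_simp
    have h2 : ∑ p, sib2 w T T i l p * ∑ a : V n,
        (if a ∈ Lw p.1 p.2.1 then (1 : ℝ) else 0) * Hf a p =
        ∑ p, sib2 w T T i l p * ∑ a : V n, FL Lw a p * Hf a p := by
      simp only [Finset.mul_sum]
      rw [Finset.sum_comm, Finset.sum_congr rfl (fun a _ => h1 a), Finset.sum_comm]
    rw [h2]
    have h3 : ∀ p : Ω × (Fin i → V R) × (Fin l → V R), ∑ a : V n, FL Lw a p * Hf a p ≤
        S2 * (th + t) + (∑ a : V n, (FL Lw a p - pL T Lw a p.1) ^ 2) / (4 * t) := by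
      intro p
      have h4 : ∀ a : V n, FL Lw a p * Hf a p ≤
          Hf a p * (th + t) + (FL Lw a p - pL T Lw a p.1) ^ 2 / (4 * t) := by
        intro a
        simp only [hHf]
        by_cases h : gd a p ∧ pL T Lw a p.1 < th ∧ ¬ big p
        · rw [if_pos h, mul_one, one_mul]
          have h5 : FL Lw a p - pL T Lw a p.1 ≤ t + (FL Lw a p - pL T Lw a p.1) ^ 2 / (4 * t) := by
            rw [← sub_nonneg]
            have h6 : t + (FL Lw a p - pL T Lw a p.1) ^ 2 / (4 * t) - (FL Lw a p - pL T Lw a p.1) =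
                (2 * t - (FL Lw a p - pL T Lw a p.1)) ^ 2 / (4 * t) := by
              field_simp
              ring
            rw [h6]
            positivity
          linarith [h.2.1]
        · rw [if_neg h, mul_zero, zero_mul, zero_add]
          positivity
      refine (Finset.sum_le_sum fun a _ => h4 a).trans ?_
      rw [Finset.sum_add_distrib, ← Finset.sum_mul, ← Finset.sum_div]
      have h5 : ∑ a : V n, Hf a p ≤ S2 := by
        by_cases hb : big p
        · have : ∀ a, Hf a p = 0 := by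
            intro a
            simp only [hHf]
            rw [if_neg (fun h => h.2.2 hb)]
          simp only [this, Finset.sum_const_zero]
          exact hS2
        · have h6 : ∑ a : V n, Hf a p ≤ ((univ.filter fun a : V n => gd a p).card : ℝ) := by
            rw [← Finset.sum_boole]
            refine Finset.sum_le_sum fun a _ => ?_
            simp only [hHf]
            by_cases h : gd a p
            · rw [if_pos h]
              split <;> norm_num
            · rw [if_neg h, if_neg (fun h' => h h'.1)]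
          have h7 : ((univ.filter fun a : V n => gd a p).card : ℝ) ≤ S2 := by
            simp only [hbig] at hb
            push Not at hb
            exact hb
          linarith
      have h6 : (∑ a : V n, Hf a p) * (th + t) ≤ S2 * (th + t) :=
        mul_le_mul_of_nonneg_right h5 (by linarith)
      linarith
    have h4 := rob1 w hw T Lw Sz δ hδ hSz hV
    have h5 : ∑ p, sib2 w T T i l p * ∑ a : V n, FL Lw a p * Hf a p ≤
        ∑ p, (sib2 w T T i l p * (S2 * (th + t)) +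
          (sib2 w T T i l p * ∑ a : V n, (FL Lw a p - pL T Lw a p.1) ^ 2) / (4 * t)) := by
      refine Finset.sum_le_sum fun p _ => ?_
      have := mul_le_mul_of_nonneg_left (h3 p) (hW p)
      refine this.trans (le_of_eq ?_)
      ring
    refine h5.trans ?_
    rw [Finset.sum_add_distrib, ← Finset.sum_mul, ← Finset.sum_div]
    have h6 : ∑ p, sib2 w T T i l p = tot w := htotW
    rw [h6]
    have h7 : (∑ p, sib2 w T T i l p * ∑ a : V n, (FL Lw a p - pL T Lw a p.1) ^ 2) / (4 * t) ≤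
        (δ * Sz * tot w) / (4 * t) := by
      gcongr
    refine (add_le_add_right h7 _).trans (le_of_eq ?_)
    ring
  have hall : ∑ p, sib2 w T T i l p *
      ∑ a : V n, (if a ∈ A' p.1 ∧ a ∈ Lw p.1 p.2.1 ∧ pL T Lw a p.1 < th then (1 : ℝ) else 0) ≤
      ∑ p, (sib2 w T T i l p * ∑ a : V n, (if a ∈ A' p.1 then 1 else 0) *
        (if a ∈ Lf (fine Dp p) ∧ ¬ gd a p then (1 : ℝ) else 0)
        + sib2 w T T i l p * (if big p then Sz else 0) +
        sib2 w T T i l p * ∑ a : V n, (if a ∈ Lw p.1 p.2.1 then (1 : ℝ) else 0) * Hf a p) := by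
    refine Finset.sum_le_sum fun p _ => ?_
    have := mul_le_mul_of_nonneg_left (hsplit p) (hW p)
    refine this.trans (le_of_eq ?_)
    ring
  refine hall.trans ?_
  rw [Finset.sum_add_distrib, Finset.sum_add_distrib, hp2]
  have : (κ * Sz + S2 * (th + t) + δ * Sz / (4 * t)) * tot w =
      κ * Sz * tot w + (S2 * (th + t) + δ * Sz / (4 * t)) * tot w := by ring
  rw [this]
  linarith

end Rob

end Pool.Agent.NJ
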