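import Pool.Agent.NJ.Dec97
import Pool.Agent.NJ.Broom36

/-!
S19271: sums over double families of siblings as nested sums, appended families.
-/

set_option autoImplicit false

namespace Pool.Agent.CutSeq.NJ

open Finset

section App

variable {α : Type*} [Fintype α] {M : Type*} [AddCommMonoid M]

/-- a sum over families of length `i + l` as a double sum -/
lemma sum_append39 {i l : ℕ} (f : (Fin (i + l) → α) → M) :
    ∑ x, f x = ∑ X : Fin i → α, ∑ Z : Fin l → α, f (Fin.append X Z) := by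
  classical
  rw [← Fintype.sum_prod_type', ← (Fin.appendEquiv (α := α) i l).sum_comp]
  rfl

variable {n : ℕ}

lemma pT_append {i l : ℕ} (T : Submodule (ZMod 2) (V n)) (X : Fin i → V n) (Z : Fin l → V n) :
    pT T (Fin.append X Z) = pT T X * pT T Z := by
  unfold pT
  rw [Fin.prod_univ_add]
  simp only [Fin.append_left, Fin.append_right]

lemma sum_pT_append {i l : ℕ} (T : Submodule (ZMod 2) (V n)) (f : (Fin (i + l) → V n) → ℝ) :
    ∑ x, pT T x * f x = ∑ X : Fin i → V n, pT T X * ∑ Z : Fin l → V n, pT T Z * f (Fin.append X Z) := by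
  rw [sum_append39]
  refine Finset.sum_congr rfl fun X _ => ?_
  rw [Finset.mul_sum]
  refine Finset.sum_congr rfl fun Z _ => ?_
  rw [pT_append, mul_assoc]

lemma sum_pT_const {i : ℕ} (T : Submodule (ZMod 2) (V n)) (c : ℝ) :
    ∑ X : Fin i → V n, pT T X * c = c := by
  rw [← Finset.sum_mul, sum_pT, one_mul]

lemma sum_pT_comm {i j : ℕ} (T T' : Submodule (ZMod 2) (V n)) (f : (Fin i → V n) → (Fin j → V n) → ℝ) :
    ∑ X, pT T X * ∑ Y, pT T' Y * f X Y = ∑ Y, pT T' Y * ∑ X, pT T X * f X Y := by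
  simp only [Finset.mul_sum]
  rw [Finset.sum_comm]
  refine Finset.sum_congr rfl fun Y _ => Finset.sum_congr rfl fun X _ => ?_
  ring

end App

section Sum

variable {Ω : Type*} [Fintype Ω] {n : ℕ} (w : Ω → ℝ) (T T' : Ω → Submodule (ZMod 2) (V n))

omit [Fintype Ω] in
lemma sib_eq_pT (i : ℕ) (p : Ω × (Fin i → V n)) : sib w T i p = w p.1 * pT (T p.1) p.2 := rfl

omit [Fintype Ω] in
lemma sib2_eq_pT (i j : ℕ) (p : Ω × (Fin i → V n) × (Fin j → V n)) :
    sib2 w T T' i j p = w p.1 * pT (T p.1) p.2.1 * pT (T' p.1) p.2.2 := rfl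

/-- sums over one family -/
theorem sum_sib_pT (i : ℕ) (f : Ω × (Fin i → V n) → ℝ) :
    ∑ p, sib w T i p * f p = ∑ ω, w ω * ∑ X, pT (T ω) X * f (ω, X) := by
  rw [Fintype.sum_prod_type]
  refine Finset.sum_congr rfl fun ω _ => ?_
  rw [Finset.mul_sum]
  refine Finset.sum_congr rfl fun X _ => ?_
  rw [sib_eq_pT, mul_assoc]

/-- sums over two families, rows first -/
theorem sum_sib2_pT (i j : ℕ) (f : Ω × (Fin i → V n) × (Fin j → V n) → ℝ) :
    ∑ p, sib2 w T T' i j p * f p =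
      ∑ ω, w ω * ∑ X, pT (T ω) X * ∑ Y, pT (T' ω) Y * f (ω, X, Y) := by
  rw [Fintype.sum_prod_type]
  refine Finset.sum_congr rfl fun ω _ => ?_
  rw [Fintype.sum_prod_type, Finset.mul_sum]
  refine Finset.sum_congr rfl fun X _ => ?_
  rw [Finset.mul_sum, Finset.mul_sum]
  refine Finset.sum_congr rfl fun Y _ => ?_
  rw [sib2_eq_pT]
  ring

/-- sums over two families, columns first -/
theorem sum_sib2_pT' (i j : ℕ) (f : Ω × (Fin i → V n) × (Fin j → V n) → ℝ) :
    ∑ p, sib2 w T T' i j p * f p =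
      ∑ ω, w ω * ∑ Y, pT (T' ω) Y * ∑ X, pT (T ω) X * f (ω, X, Y) := by
  rw [sum_sib2_pT]
  refine Finset.sum_congr rfl fun ω _ => ?_
  rw [sum_pT_comm]

/-- **splitting**: `i + l` rows and `y + r` columns; order: world, first columns, first rows, further
rows, further columns -/
theorem sum_sib2_split (i l y r : ℕ) (f : Ω × (Fin (i + l) → V n) × (Fin (y + r) → V n) → ℝ) :
    ∑ p, sib2 w T T' (i + l) (y + r) p * f p =
      ∑ ω, w ω * ∑ Y₁ : Fin y → V n, pT (T' ω) Y₁ * ∑ X : Fin i → V n, pT (T ω) X *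
        ∑ Z : Fin l → V n, pT (T ω) Z * ∑ Y₂ : Fin r → V n, pT (T' ω) Y₂ *
          f (ω, Fin.append X Z, Fin.append Y₁ Y₂) := by
  rw [sum_sib2_pT']
  refine Finset.sum_congr rfl fun ω _ => ?_
  congr 1
  rw [sum_pT_append]
  refine Finset.sum_congr rfl fun Y₁ _ => ?_
  congr 1
  have h1 : ∀ Y₂ : Fin r → V n, ∑ X : Fin (i + l) → V n, pT (T ω) X * f (ω, X, Fin.append Y₁ Y₂) =
      ∑ X : Fin i → V n, pT (T ω) X * ∑ Z : Fin l → V n, pT (T ω) Z *
        f (ω, Fin.append X Z, Fin.append Y₁ Y₂) := fun Y₂ => sum_pT_append _ _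
  rw [Finset.sum_congr rfl fun Y₂ _ => by rw [h1 Y₂]]
  rw [sum_pT_comm (T' ω) (T ω) (fun (Y₂ : Fin r → V n) (X : Fin i → V n) =>
    ∑ Z : Fin l → V n, pT (T ω) Z * f (ω, Fin.append X Z, Fin.append Y₁ Y₂))]
  refine Finset.sum_congr rfl fun X _ => ?_
  congr 1
  rw [sum_pT_comm (T' ω) (T ω) (fun (Y₂ : Fin r → V n) (Z : Fin l → V n) =>
    f (ω, Fin.append X Z, Fin.append Y₁ Y₂))]

/-- the world with the first columns inside -/
theorem sum_sib2_world (i l y r : ℕ) (f : Ω × (Fin (i + l) → V n) × (Fin (y + r) → V n) → ℝ) :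
    ∑ p, sib2 w T T' (i + l) (y + r) p * f p =
      ∑ q : Ω × (Fin y → V n), sib w T' y q * ∑ X : Fin i → V n, pT (T q.1) X *
        ∑ Z : Fin l → V n, pT (T q.1) Z * ∑ Y₂ : Fin r → V n, pT (T' q.1) Y₂ *
          f (q.1, Fin.append X Z, Fin.append q.2 Y₂) := by
  rw [sum_sib2_split, sum_sib_pT w T' y (fun q => ∑ X : Fin i → V n, pT (T q.1) X *
        ∑ Z : Fin l → V n, pT (T q.1) Z * ∑ Y₂ : Fin r → V n, pT (T' q.1) Y₂ *
          f (q.1, Fin.append X Z, Fin.append q.2 Y₂))]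

/-- no further columns -/
theorem sum_sib2_world_rows (i l y : ℕ) (f : Ω × (Fin (i + l) → V n) × (Fin y → V n) → ℝ) :
    ∑ p, sib2 w T T' (i + l) y p * f p =
      ∑ q : Ω × (Fin y → V n), sib w T' y q * ∑ X : Fin i → V n, pT (T q.1) X *
        ∑ Z : Fin l → V n, pT (T q.1) Z * f (q.1, Fin.append X Z, q.2) := by
  rw [sum_sib2_pT', sum_sib_pT w T' y (fun q => ∑ X : Fin i → V n, pT (T q.1) X *
        ∑ Z : Fin l → V n, pT (T q.1) Z * f (q.1, Fin.append X Z, q.2))]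
  refine Finset.sum_congr rfl fun ω _ => ?_
  congr 1
  refine Finset.sum_congr rfl fun Y _ => ?_
  rw [sum_pT_append]

/-- no further rows -/
theorem sum_sib2_world_cols (i y r : ℕ) (f : Ω × (Fin i → V n) × (Fin (y + r) → V n) → ℝ) :
    ∑ p, sib2 w T T' i (y + r) p * f p =
      ∑ q : Ω × (Fin y → V n), sib w T' y q * ∑ X : Fin i → V n, pT (T q.1) X *
        ∑ Y₂ : Fin r → V n, pT (T' q.1) Y₂ * f (q.1, X, Fin.append q.2 Y₂) := by
  rw [sum_sib2_pT', sum_sib_pT w T' y (fun q => ∑ X : Fin i → V n, pT (T q.1) X *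
        ∑ Y₂ : Fin r → V n, pT (T' q.1) Y₂ * f (q.1, X, Fin.append q.2 Y₂))]
  refine Finset.sum_congr rfl fun ω _ => ?_
  congr 1
  rw [sum_pT_append]
  refine Finset.sum_congr rfl fun Y₁ _ => ?_
  congr 1
  rw [sum_pT_comm (T' ω) (T ω) (fun (Y₂ : Fin r → V n) (X : Fin i → V n) =>
    f (ω, X, Fin.append Y₁ Y₂))]

/-- plain world form -/
theorem sum_sib2_world' (i y : ℕ) (f : Ω × (Fin i → V n) × (Fin y → V n) → ℝ) :
    ∑ p, sib2 w T T' i y p * f p =
      ∑ q : Ω × (Fin y → V n), sib w T' y q * ∑ X : Fin i → V n, pT (T q.1) X * f (q.1, X, q.2) := by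
  rw [sum_sib2_pT', sum_sib_pT w T' y (fun q => ∑ X : Fin i → V n, pT (T q.1) X * f (q.1, X, q.2))]

end Sum

section Pr

variable {Ω : Type*} [Fintype Ω] {n : ℕ} (w : Ω → ℝ) (T T' : Ω → Submodule (ZMod 2) (V n))

open Classical in
/-- probability of an event as a sum -/
lemma pr_eq_sum_ite {Ω : Type*} [Fintype Ω] (w : Ω → ℝ) (Q : Ω → Prop) :
    pr w {ω | Q ω} = ∑ ω, w ω * (if Q ω then (1 : ℝ) else 0) := by
  unfold pr tot ind
  refine Finset.sum_congr rfl fun ω _ => ?_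
  by_cases h : Q ω
  · rw [Set.indicator_of_mem (show ω ∈ {ω | Q ω} from h), if_pos h, mul_one]
  · rw [Set.indicator_of_notMem (show ω ∉ {ω | Q ω} from h), if_neg h, mul_zero]

open Classical in
theorem pr_sib2_split (i l y r : ℕ)
    (Q : Ω × (Fin (i + l) → V n) × (Fin (y + r) → V n) → Prop) :
    pr (sib2 w T T' (i + l) (y + r)) {p | Q p} =
      ∑ ω, w ω * ∑ Y₁ : Fin y → V n, pT (T' ω) Y₁ * ∑ X : Fin i → V n, pT (T ω) X *
        ∑ Z : Fin l → V n, pT (T ω) Z * ∑ Y₂ : Fin r → V n, pT (T' ω) Y₂ *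
          (if Q (ω, Fin.append X Z, Fin.append Y₁ Y₂) then (1 : ℝ) else 0) := by
  rw [pr_eq_sum_ite]
  exact sum_sib2_split w T T' i l y r _

open Classical in
theorem pr_sib2_world (i l y r : ℕ)
    (Q : Ω × (Fin (i + l) → V n) × (Fin (y + r) → V n) → Prop) :
    pr (sib2 w T T' (i + l) (y + r)) {p | Q p} =
      ∑ q : Ω × (Fin y → V n), sib w T' y q * ∑ X : Fin i → V n, pT (T q.1) X *
        ∑ Z : Fin l → V n, pT (T q.1) Z * ∑ Y₂ : Fin r → V n, pT (T' q.1) Y₂ *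
          (if Q (q.1, Fin.append X Z, Fin.append q.2 Y₂) then (1 : ℝ) else 0) := by
  rw [pr_eq_sum_ite]
  exact sum_sib2_world w T T' i l y r _

open Classical in
theorem pr_sib2_world_rows (i l y : ℕ) (Q : Ω × (Fin (i + l) → V n) × (Fin y → V n) → Prop) :
    pr (sib2 w T T' (i + l) y) {p | Q p} =
      ∑ q : Ω × (Fin y → V n), sib w T' y q * ∑ X : Fin i → V n, pT (T q.1) X *
        ∑ Z : Fin l → V n, pT (T q.1) Z *
          (if Q (q.1, Fin.append X Z, q.2) then (1 : ℝ) else 0) := by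
  rw [pr_eq_sum_ite]
  exact sum_sib2_world_rows w T T' i l y _

open Classical in
theorem pr_sib2_world_cols (i y r : ℕ) (Q : Ω × (Fin i → V n) × (Fin (y + r) → V n) → Prop) :
    pr (sib2 w T T' i (y + r)) {p | Q p} =
      ∑ q : Ω × (Fin y → V n), sib w T' y q * ∑ X : Fin i → V n, pT (T q.1) X *
        ∑ Y₂ : Fin r → V n, pT (T' q.1) Y₂ *
          (if Q (q.1, X, Fin.append q.2 Y₂) then (1 : ℝ) else 0) := by
  rw [pr_eq_sum_ite]
  exact sum_sib2_world_cols w T T' i y r _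

open Classical in
theorem pr_sib2_world' (i y : ℕ) (Q : Ω × (Fin i → V n) × (Fin y → V n) → Prop) :
    pr (sib2 w T T' i y) {p | Q p} =
      ∑ q : Ω × (Fin y → V n), sib w T' y q * ∑ X : Fin i → V n, pT (T q.1) X *
          (if Q (q.1, X, q.2) then (1 : ℝ) else 0) := by
  rw [pr_eq_sum_ite]
  exact sum_sib2_world' w T T' i y _

open Classical in
theorem pr_sib_pT (i : ℕ) (Q : Ω × (Fin i → V n) → Prop) :
    pr (sib w T i) {p | Q p} =
      ∑ ω, w ω * ∑ X : Fin i → V n, pT (T ω) X * (if Q (ω, X) then (1 : ℝ) else 0) := by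
  rw [pr_eq_sum_ite]
  exact sum_sib_pT w T i _

/-- the first rows and the first columns of a larger double family -/
theorem push_split (i l y r : ℕ) :
    Push (sib2 w T T' (i + l) (y + r))
      (fun p => (p.1, (fun a => p.2.1 (Fin.castAdd l a)), (fun b => p.2.2 (Fin.castAdd r b))))
      (sib2 w T T' i y) :=
  push_sib2 w T T' (Fin.castAdd l) (Fin.castAdd_injective i l) (Fin.castAdd r)
    (Fin.castAdd_injective y r)

/-- pushes preserve probabilities -/
lemma Push.pr39 {Ω Ω' : Type*} [Fintype Ω] [Fintype Ω'] {W : Ω → ℝ} {r : Ω → Ω'} {W' : Ω' → ℝ}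
    (h : Push W r W') (Q : Ω' → Prop) : pr W {ω | Q (r ω)} = pr W' {c | Q c} := by
  classical
  rw [pr_eq_sum_ite, pr_eq_sum_ite]
  exact h.sum (fun c => if Q c then (1 : ℝ) else 0)

end Pr

end Pool.Agent.CutSeq.NJ
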