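import Pool.Agent.NJ.LV85
import Pool.Agent.NJ.Split39
import Pool.Agent.NJ.Rob86

/-!
S19271: Lemma V for siblings which are uniform on a subspace (one family), and its summed forms.
-/

set_option autoImplicit false

namespace Pool.Agent.CutSeq.NJ

open Finset

section LV

variable {n : ℕ}

/-- every subspace is the range of an endomorphism -/
lemma exists_range39 (T : Submodule (ZMod 2) (V n)) :
    ∃ L : V n →ₗ[ZMod 2] V n, LinearMap.range L = T := by
  obtain ⟨W, hW⟩ := Submodule.exists_isCompl T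
  refine ⟨T.subtype ∘ₗ T.projectionOnto W hW, ?_⟩
  rw [LinearMap.range_comp, Submodule.range_projectionOnto, Submodule.map_top,
    Submodule.range_subtype]

/-- one-sided Lemma V in coin space -/
lemma lemV_one (P i l : ℕ) (g : (Fin i → V P) → ℝ) :
    (∑ c : Fin i ⊕ Fin l → V P,
      ((∑ ρ : Fin i → Fin l → ZMod 2, g (Pool.Agent.NJ.mx ρ c)) /
          Fintype.card (Fin i → Fin l → ZMod 2) -
        (∑ x, g x) / Fintype.card (Fin i → V P)) ^ 2) / Fintype.card (Fin i ⊕ Fin l → V P) ≤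
    (1 / 2) ^ l * ((∑ x, g x ^ 2) / Fintype.card (Fin i → V P)) := by
  have h := Pool.Agent.NJ.lemV (P := P) (Q := 0) (I := Fin i) (J := Fin 0) (Z := Fin l)
    (Z' := Fin l) ((1 / 2) ^ l)
    (by rw [Fintype.card_fin]) (by rw [Fintype.card_fin]) (fun c => g c.1)
  simp only [Fintype.sum_prod_type, Fintype.card_prod, Fintype.sum_unique, Fintype.card_unique,
    mul_one] at h
  exact h

/-- **Lemma V for siblings uniform on a subspace** (one family). -/
theorem lemVT {i l : ℕ} (T : Submodule (ZMod 2) (V n)) (g : (Fin i → V n) → ℝ) :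
    ∑ X : Fin i → V n, pT T X * ∑ Z : Fin l → V n, pT T Z *
      ((∑ ρ : Fin i → Fin l → ZMod 2, g (mixR ρ X Z)) / Fintype.card (Fin i → Fin l → ZMod 2) -
        ∑ X' : Fin i → V n, pT T X' * g X') ^ 2 ≤
    (1 / 2) ^ l * ∑ X : Fin i → V n, pT T X * g X ^ 2 := by
  obtain ⟨L, hL⟩ := exists_range39 T
  have h := lemV_one n i l (fun x => g (fun a => L (x a)))
  have e1 := Pool.Agent.NJ.sum_coins L i g
  have e2 := Pool.Agent.NJ.sum_coins L i (fun y => g y ^ 2)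
  rw [hL] at e1 e2
  rw [e1, e2] at h
  have e3 := Pool.Agent.NJ.sum_coins L (i + l) (fun y =>
    ((∑ ρ : Fin i → Fin l → ZMod 2, g (mixR ρ (fun a => y (Fin.castAdd l a))
      (fun b => y (Fin.natAdd i b)))) / Fintype.card (Fin i → Fin l → ZMod 2) -
        ∑ X' : Fin i → V n, pT T X' * g X') ^ 2)
  rw [hL] at e3
  have e4 := sum_pT_append (i := i) (l := l) T (fun y =>
    ((∑ ρ : Fin i → Fin l → ZMod 2, g (mixR ρ (fun a => y (Fin.castAdd l a))
      (fun b => y (Fin.natAdd i b)))) / Fintype.card (Fin i → Fin l → ZMod 2) -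
        ∑ X' : Fin i → V n, pT T X' * g X') ^ 2)
  simp only [Fin.append_left, Fin.append_right] at e4
  rw [← e4]
  refine le_trans (le_of_eq ?_) h
  refine Eq.trans e3.symm ?_
  rw [← (Pool.Agent.NJ.spl85 i l (V n)).sum_comp,
    ← Fintype.card_congr (Pool.Agent.NJ.spl85 i l (V n))]
  congr 1
  refine Finset.sum_congr rfl fun c _ => ?_
  congr 3
  refine Finset.sum_congr rfl fun ρ _ => ?_
  congr 1
  funext a
  rw [Pool.Agent.NJ.map_mx]
  rfl

/-- the same, in the form of the hypothesis `hV` of `Pool.Agent.NJ.rob1` and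
`Pool.Agent.NJ.rob` -/
theorem lemVT' {i l : ℕ} (T : Submodule (ZMod 2) (V n)) (g : (Fin i → V n) → ℝ) :
    ∑ X : Fin i → V n, ∑ Z : Fin l → V n, (∏ a, uT T (X a)) * (∏ b, uT T (Z b)) *
      ((∑ ρ : Fin i → Fin l → ZMod 2, g (Pool.Agent.NJ.mixv ρ X Z)) /
          Fintype.card (Fin i → Fin l → ZMod 2) -
        ∑ X' : Fin i → V n, (∏ a, uT T (X' a)) * g X') ^ 2 ≤
    (1 / 2) ^ l * ∑ X : Fin i → V n, (∏ a, uT T (X a)) * g X ^ 2 := by
  refine le_trans (le_of_eq ?_) (lemVT (l := l) T g)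
  refine Finset.sum_congr rfl fun X _ => ?_
  rw [Finset.mul_sum]
  refine Finset.sum_congr rfl fun Z _ => ?_
  rw [← mul_assoc]
  rfl

open Classical in
/-- one subspace, all vectors of the list -/
lemma R1_pt {i l : ℕ} (T : Submodule (ZMod 2) (V n)) (Lf : (Fin i → V n) → Finset (V n)) (Sz : ℝ)
    (hSz : ∀ X, ((Lf X).card : ℝ) ≤ Sz) :
    ∑ X : Fin i → V n, pT T X * ∑ Z : Fin l → V n, pT T Z *
      ∑ a, (FL Lf X Z a - pL T Lf a) ^ 2 ≤ (1 / 2) ^ l * Sz := by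
  have h1 : ∑ X : Fin i → V n, pT T X * ∑ Z : Fin l → V n, pT T Z *
      ∑ a, (FL Lf X Z a - pL T Lf a) ^ 2 =
      ∑ a, ∑ X : Fin i → V n, pT T X * ∑ Z : Fin l → V n, pT T Z *
        (FL Lf X Z a - pL T Lf a) ^ 2 := by
    simp only [Finset.mul_sum]
    have e1 : ∀ X : Fin i → V n, ∑ Z : Fin l → V n, ∑ a : V n,
        pT T X * (pT T Z * (FL Lf X Z a - pL T Lf a) ^ 2) =
        ∑ a : V n, ∑ Z : Fin l → V n, pT T X * (pT T Z * (FL Lf X Z a - pL T Lf a) ^ 2) :=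
      fun X => Finset.sum_comm
    simp only [e1]
    exact Finset.sum_comm
  rw [h1]
  have h2 : ∀ a : V n, ∑ X : Fin i → V n, pT T X * ∑ Z : Fin l → V n, pT T Z *
      (FL Lf X Z a - pL T Lf a) ^ 2 ≤
      (1 / 2) ^ l * ∑ X : Fin i → V n, pT T X * (if a ∈ Lf X then (1 : ℝ) else 0) := by
    intro a
    have h := lemVT (l := l) T (fun X => if a ∈ Lf X then (1 : ℝ) else 0)
    have e2 : ∀ X : Fin i → V n, (if a ∈ Lf X then (1 : ℝ) else 0) ^ 2 =
        if a ∈ Lf X then (1 : ℝ) else 0 := by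
      intro X
      split <;> norm_num
    simp only [e2] at h
    exact h
  refine le_trans (Finset.sum_le_sum fun a _ => h2 a) ?_
  rw [← Finset.mul_sum]
  refine mul_le_mul_of_nonneg_left ?_ (by positivity)
  exact sum_pL_le T Lf Sz hSz

open Classical in
/-- **(R1)**: the hypothesis `hR1` of `dec_abs` holds with `e = (1/2) ^ l`. -/
theorem R1_39 {Ω B : Type*} [Fintype Ω] (w : Ω → ℝ) (hw : ∀ ω, 0 ≤ w ω) (htot : tot w ≤ 1)
    (T : Ω → Submodule (ZMod 2) (V n)) (m : Ω → B) (i l : ℕ)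
    (Lf : B → (Fin i → V n) → Finset (V n)) (Sz : ℝ) (hSz0 : 0 ≤ Sz)
    (hSz : ∀ b X, ((Lf b X).card : ℝ) ≤ Sz) :
    ∑ ω, w ω * ∑ X : Fin i → V n, pT (T ω) X * ∑ Z : Fin l → V n, pT (T ω) Z *
      ∑ a, (FL (Lf (m ω)) X Z a - pL (T ω) (Lf (m ω)) a) ^ 2 ≤ (1 / 2) ^ l * Sz := by
  refine le_trans (Finset.sum_le_sum fun ω _ => mul_le_mul_of_nonneg_left
    (R1_pt (l := l) (T ω) (Lf (m ω)) Sz (hSz (m ω))) (hw ω)) ?_
  rw [← Finset.sum_mul]
  have h0 : 0 ≤ (1 / 2 : ℝ) ^ l * Sz := by positivity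
  exact mul_le_of_le_one_left h0 htot

end LV

end Pool.Agent.CutSeq.NJ
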