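import Pool.Agent.NJ.LemmaL36

/-!
S19271, Lemma L for a statistic which may also depend on the `q` column siblings of the base.
-/

set_option autoImplicit false

namespace Pool.Agent.CutSeq.NJ

open Finset

variable {Ω : Type*} [Fintype Ω] {n : ℕ}

/-- the first `q` column siblings moved into the base -/
theorem push_regroup (w : Ω → ℝ) (T T' : Ω → Submodule (ZMod 2) (V n)) (i q j : ℕ) :
    Push (sib2 w T T' i (q + j))
      (fun p => ((p.1, fun l : Fin q => p.2.2 (Fin.castAdd j l)), p.2.1,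
        fun l : Fin j => p.2.2 (Fin.natAdd q l)))
      (sib2 (sib w T' q) (fun p => T p.1) (fun p => T' p.1) i j) := by
  refine push_of_sum fun g => ?_
  let e : Ω × (Fin i → V n) × (Fin (q + j) → V n) ≃
      (Ω × (Fin q → V n)) × (Fin i → V n) × (Fin j → V n) :=
    { toFun := fun p => ((p.1, fun l : Fin q => p.2.2 (Fin.castAdd j l)), p.2.1,
        fun l : Fin j => p.2.2 (Fin.natAdd q l))
      invFun := fun r => (r.1.1, r.2.1, Fin.append r.1.2 r.2.2)
      left_inv := by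
        rintro ⟨ω, x, y⟩
        simp only [Prod.mk.injEq, true_and]
        exact Fin.append_castAdd_natAdd
      right_inv := by
        rintro ⟨⟨ω, y⟩, x, y'⟩
        simp }
  refine Fintype.sum_equiv e _ _ fun p => ?_
  obtain ⟨ω, x, y⟩ := p
  show w ω * (∏ l, uT (T ω) (x l)) * (∏ l, uT (T' ω) (y l)) * g _ =
    (w ω * ∏ l, uT (T' ω) (y (Fin.castAdd j l))) * (∏ l, uT (T ω) (x l)) *
      (∏ l, uT (T' ω) (y (Fin.natAdd q l))) * g _
  rw [Fin.prod_univ_add]
  have : ∀ a b c d f : ℝ, a * b * (c * d) * f = a * c * b * d * f := by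
    intro a b c d f
    ring
  rw [this]
  rfl

section

variable {A : Type*} [Fintype A]

lemma UU_regroup (w : Ω → ℝ) (hw : ∀ ω, 0 ≤ w ω) (T T' : Ω → Submodule (ZMod 2) (V n))
    (m : Ω → A) (i q j : ℕ) :
    UU (sib w T' q) (fun p => T p.1) (fun p => T' p.1) (fun p => (m p.1, p.2)) i j =
      UU w T T' m i (q + j) := by
  have h1 := (push_regroup w T T' i q j).K0 (fun p => ((m p.1.1, p.1.2), p.2.1, p.2.2))
  unfold UU
  refine h1.symm.trans ?_
  refine KK_bij _ (sib2_nonneg w hw T T' _ _) (fun p => (m p.1, p.2.1, p.2.2)) _ _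
    (fun _ =>
      { toFun := fun r => ((r.1, fun l : Fin q => r.2.2 (Fin.castAdd j l)), r.2.1,
          fun l : Fin j => r.2.2 (Fin.natAdd q l))
        invFun := fun r => (r.1.1, r.2.1, Fin.append r.1.2 r.2.2)
        left_inv := ?_
        right_inv := ?_ }) (fun p _ => rfl)
  · rintro ⟨a, x, y⟩
    simp only [Prod.mk.injEq, true_and]
    exact Fin.append_castAdd_natAdd
  · rintro ⟨⟨a, y⟩, x, y'⟩
    simp

/-- **Lemma L**, the statistic depends on the history and on the column siblings of the base -/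
theorem lemmaLB (w : Ω → ℝ) (hw : ∀ ω, 0 ≤ w ω)
    (T T' : Ω → Submodule (ZMod 2) (V n)) (m : Ω → A) (q M : ℕ) (hq : q ≤ M) (hM : 1 ≤ M)
    (S : Ω × (Fin q → V n) → Submodule (ZMod 2) (V n))
    (hS : ∀ p, w p.1 ≠ 0 → S p ≤ perp (T' p.1)) :
    ((M : ℝ) - q) * (Real.log 2 * ∑ p, sib w T' q p * (Module.finrank (ZMod 2) (S p) : ℝ)) +
        UU w T T' m M q ≤
      UU w T T' m 0 M + M * (UU w T T' m M q - UU w T T' m (M - 1) q) +
        (M + 1) * CE (sib2 w T T' (M - 1) q) (fun p => S (p.1, p.2.2))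
          (fun p => (m p.1, p.2.1, p.2.2)) := by
  obtain ⟨M', rfl⟩ : ∃ M', M = M' + 1 := ⟨M - 1, by omega⟩
  change (((M' + 1 : ℕ) : ℝ) - q) * (Real.log 2 *
      ∑ p, sib w T' q p * (Module.finrank (ZMod 2) (S p) : ℝ)) + UU w T T' m (M' + 1) q ≤
    UU w T T' m 0 (M' + 1) + ((M' + 1 : ℕ) : ℝ) * (UU w T T' m (M' + 1) q - UU w T T' m M' q) +
      (((M' + 1 : ℕ) : ℝ) + 1) * CE (sib2 w T T' M' q) (fun p => S (p.1, p.2.2))
        (fun p => (m p.1, p.2.1, p.2.2))
  -- the base with `q` column siblings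
  set w2 : Ω × (Fin q → V n) → ℝ := sib w T' q with hw2def
  have hw2 : ∀ p, 0 ≤ w2 p := sib_nonneg_sib w hw T' q
  set T2 : Ω × (Fin q → V n) → Submodule (ZMod 2) (V n) := fun p => T p.1 with hT2
  set T2' : Ω × (Fin q → V n) → Submodule (ZMod 2) (V n) := fun p => T' p.1 with hT2'
  set D : Ω × (Fin q → V n) → A × (Fin q → V n) := fun p => (m p.1, p.2) with hD
  have hS2 : ∀ p, w2 p ≠ 0 → S p ≤ perp (T2' p) := by
    intro p hp
    refine hS p fun h => hp ?_
    rw [hw2def]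
    simp [sib, h]
  set d : ℝ := Real.log 2 * ∑ p, w2 p * (Module.finrank (ZMod 2) (S p) : ℝ) with hd
  -- columns
  have c1 := info_rows w2 hw2 T2' T2 D S (M' + 1 - q) 0
  have c3 : ((M' + 1 : ℕ) - q : ℝ) * d ≤
      ∑ l ∈ range (M' + 1 - q), eR w2 T2' T2 (fun p => (S p, D p)) l 0 := by
    have h1 : ∑ _l ∈ range (M' + 1 - q), d ≤
        ∑ l ∈ range (M' + 1 - q), eR w2 T2' T2 (fun p => (S p, D p)) l 0 :=
      Finset.sum_le_sum fun l _ => eR_dim w2 hw2 T2' T2 D S hS2 l 0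
    rw [Finset.sum_const, Finset.card_range, nsmul_eq_mul, Nat.cast_sub hq] at h1
    exact h1
  have c5 := UU_eq_sum_right w2 hw2 T2 T2' D 0 (M' + 1 - q)
  have c7 := JJ_nonneg w2 hw2 T2' T2 D S (M' + 1 - q) 0
  have u1 : UU w2 T2 T2' D 0 (M' + 1 - q) = UU w T T' m 0 (q + (M' + 1 - q)) :=
    UU_regroup w hw T T' m 0 q (M' + 1 - q)
  have u2 : UU w2 T2 T2' D 0 0 = UU w T T' m 0 q := UU_regroup w hw T T' m 0 q 0
  rw [Nat.add_sub_cancel' hq] at u1
  -- rows
  have r1 := info_rows w2 hw2 T2 T2' D S (M' + 1) 0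
  have r2 := UU_eq_sum_left w2 hw2 T2 T2' D (M' + 1) 0
  have r3 : ∑ l ∈ range (M' + 1), eR w2 T2 T2' (fun p => (S p, D p)) l 0 ≤
      ((M' + 1 : ℕ) : ℝ) * (eR w2 T2 T2' D M' 0 + JJ w2 T2 T2' D S M' 0) := by
    have h1 : ∀ l ∈ range (M' + 1), eR w2 T2 T2' (fun p => (S p, D p)) l 0 ≤
        eR w2 T2 T2' D M' 0 + JJ w2 T2 T2' D S M' 0 := by
      intro l hl
      have hl' : l ≤ M' := by
        have := Finset.mem_range.1 hl
        omega
      exact (eR_mono_left w2 hw2 T2 T2' _ hl' 0).trans (eR_data_le w2 hw2 T2 T2' D S M' 0)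
    have h2 := Finset.sum_le_sum h1
    rwa [Finset.sum_const, Finset.card_range, nsmul_eq_mul] at h2
  have r4 := JJ_anti_left w2 hw2 T2 T2' D S (Nat.le_succ M') 0
  have r5 := UU_succ_left w2 hw2 T2 T2' D M' 0
  have r6 := JJ_nonneg w2 hw2 T2 T2' D S (M' + 1) 0
  have s1 := JJ_swap w2 hw2 T2 T2' D S 0 0
  have u3 : UU w2 T2 T2' D (M' + 1) 0 = UU w T T' m (M' + 1) q :=
    UU_regroup w hw T T' m (M' + 1) q 0
  have u4 : UU w2 T2 T2' D M' 0 = UU w T T' m M' q := UU_regroup w hw T T' m M' q 0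
  have j1 : JJ w2 T2 T2' D S M' 0 = CE (sib2 w T T' M' q) (fun p => S (p.1, p.2.2))
      (fun p => (m p.1, p.2.1, p.2.2)) := by
    have h1 := (push_regroup w T T' M' q 0).CE (fun p => S p.1) (fun p => (D p.1, p.2.1, p.2.2))
    unfold JJ
    refine h1.symm.trans ?_
    refine CE_cond_congr _ (sib2_nonneg w hw T T' _ _) _ _ _ fun p p' _ _ => ?_
    simp only [hD, Prod.mk.injEq]
    constructor
    · rintro ⟨⟨h1, h2⟩, h3, _⟩
      exact ⟨h1, h3, h2⟩
    · rintro ⟨h1, h2, h3⟩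
      exact ⟨⟨h1, h3⟩, h2, funext fun a => a.elim0⟩
  have e1 : UU w T T' m (M' + 1) q - UU w T T' m M' q = eR w2 T2 T2' D M' 0 := by
    rw [← u3, ← u4]
    linarith
  rw [e1, ← j1]
  push_cast at c3 r3 ⊢
  nlinarith [c1, c3, c5, c7, r1, r2, r3, r4, r5, r6, s1, u1, u2, u3, u4]

end

/-- a statistic (of the history and the base columns) decoded up to a small mass -/
theorem CE_le_of_decoder (w : Ω → ℝ) (hw : ∀ ω, 0 ≤ w ω) (htot : tot w ≤ 1) {B : Type*}
    (S : Ω → Submodule (ZMod 2) (V n)) (D : Ω → B) (dec : B → Submodule (ZMod 2) (V n)) (s : ℕ)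
    (hs : 1 ≤ s) (h : pr w {ω | S ω ≠ dec (D ω)} ≤ (1 / 2 : ℝ) ^ s) :
    CE w S D ≤ (1 / 2 : ℝ) ^ s * (n ^ 2 + 2 * s + 3) := by
  have h1 := JJ_le_of_decoder w hw htot (fun _ => (⊥ : Submodule (ZMod 2) (V n)))
    (fun _ => (⊥ : Submodule (ZMod 2) (V n))) D S 0 0 (fun b => dec b.1) s hs ?_
  · refine le_trans (le_of_eq ?_) h1
    have h2 : Push (sib2 w (fun _ => (⊥ : Submodule (ZMod 2) (V n)))
        (fun _ => (⊥ : Submodule (ZMod 2) (V n))) 0 0) (fun p => p.1) w := by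
      refine push_of_sum fun g => ?_
      rw [Fintype.sum_prod_type]
      refine Finset.sum_congr rfl fun ω _ => ?_
      rw [Fintype.sum_prod_type]
      simp [sib2]
    unfold JJ
    rw [← h2.CE S D]
    refine (CE_cond_congr _ (sib2_nonneg w hw _ _ _ _) _ _ _ fun p p' _ _ => ?_)
    simp only [Prod.mk.injEq]
    constructor
    · intro h
      exact ⟨h, funext fun a => a.elim0, funext fun a => a.elim0⟩
    · intro h
      exact h.1
  · refine le_trans (le_of_eq ?_) h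
    unfold pr tot ind
    rw [Fintype.sum_prod_type]
    refine Finset.sum_congr rfl fun ω _ => ?_
    rw [Fintype.sum_prod_type]
    simp [sib2, Set.indicator_apply]

end Pool.Agent.CutSeq.NJ
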