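import Pool.Agent.NJ.ConcE43
import Pool.Agent.NJ.RkA8

/-! S19271, target B, row HOLES (helper43): the means of the corner ranks in a box with room `2 t` are
`Gg8` up to `2`; law of large numbers (from the concentration `crk_conc43`). -/

set_option autoImplicit false
set_option linter.unusedSectionVars false

namespace Pool.Agent.CutFull

open Finset Matrix Pool.Agent.Helper8.UT

variable {N : ℕ}

theorem crk_mid_le43 (s n : ℕ) (h : s + n ≤ N) (a b : ℕ) (A : MM N) :
    crk a b (mid s n h A) ≤ crk (s + a) (s + b) A := by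
  unfold crk
  refine rank_ext _ _ (fun i => some ⟨s + i.val, by omega⟩) (fun i => some ⟨s + i.val, by omega⟩) ?_
  intro i j
  simp only [Option.elim]
  unfold cblk mid
  by_cases h1 : i.val < a ∧ b ≤ j.val
  · rw [if_pos h1, if_pos]
    constructor
    · change s + i.val < s + a
      omega
    · change s + b ≤ s + j.val
      omega
  · rw [if_neg h1, if_neg]
    rintro ⟨h2, h3⟩
    change s + i.val < s + a at h2
    change s + b ≤ s + j.val at h3
    apply h1
    constructor <;> omega

/-- a corner at distance `g` from the diagonal: near part and far rows and columns -/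
theorem crk_le_mid43 {a g c : ℕ} (hc : c ≤ a) (hN : a + g + c ≤ N) (A : MM N) :
    crk a (a + g) A ≤ crk c (c + g) (mid (a - c) (2 * c + g) (by omega) A) + nR a c A +
      nR (N - (a + g)) c (Helper8.UT.flip A) := by
  classical
  obtain ⟨X, hX⟩ : ∃ X : MM N, X = fun i j => if (a - c ≤ i.val ∧ i.val < a) ∧
      (a + g ≤ j.val ∧ j.val < a + g + c) then A i j else 0 := ⟨_, rfl⟩
  obtain ⟨Y, hY⟩ : ∃ Y : MM N, Y = fun i j => if i.val < a - c ∧ a + g ≤ j.val then A i j else 0 :=
    ⟨_, rfl⟩
  obtain ⟨Z, hZ⟩ : ∃ Z : MM N, Z = fun i j => if (a - c ≤ i.val ∧ i.val < a) ∧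
      a + g + c ≤ j.val then A i j else 0 := ⟨_, rfl⟩
  have h1 : cblk a (a + g) A = X + Y + Z := by
    funext i j
    rw [Matrix.add_apply, Matrix.add_apply, hX, hY, hZ]
    unfold cblk
    beta_reduce
    by_cases h2 : i.val < a ∧ a + g ≤ j.val
    · rw [if_pos h2]
      by_cases h4 : a - c ≤ i.val
      · by_cases h5 : j.val < a + g + c
        · rw [if_pos ⟨⟨h4, h2.1⟩, h2.2, h5⟩, if_neg (fun h => by omega), if_neg (fun h => by omega),
            add_zero, add_zero]
        · rw [if_neg (fun h => h5 h.2.2), if_neg (fun h => by omega),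
            if_pos ⟨⟨h4, h2.1⟩, not_lt.1 h5⟩, zero_add, zero_add]
      · rw [if_neg (fun h => h4 h.1.1), if_pos ⟨not_le.1 h4, h2.2⟩, if_neg (fun h => h4 h.1.1),
          zero_add, add_zero]
    · rw [if_neg h2, if_neg (fun h => h2 ⟨h.1.2, h.2.1⟩), if_neg (fun h => h2 ⟨by omega, h.2⟩),
        if_neg (fun h => h2 ⟨h.1.2, by omega⟩), add_zero, add_zero]
  have h2 : X.rank ≤ crk c (c + g) (mid (a - c) (2 * c + g) (by omega) A) := by
    unfold crk
    refine rank_ext _ _ (fun i => if h : a - c ≤ i.val ∧ i.val < a + g + c then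
      some ⟨i.val - (a - c), by omega⟩ else none)
      (fun i => if h : a - c ≤ i.val ∧ i.val < a + g + c then
      some ⟨i.val - (a - c), by omega⟩ else none) ?_
    intro i j
    rw [hX]
    beta_reduce
    by_cases hi : a - c ≤ i.val ∧ i.val < a + g + c <;>
      by_cases hj : a - c ≤ j.val ∧ j.val < a + g + c
    · rw [dif_pos hi, dif_pos hj]
      simp only [Option.elim]
      unfold cblk mid
      have e1 : (⟨a - c + (i.val - (a - c)), by omega⟩ : Fin N) = i := by
        apply Fin.ext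
        change a - c + (i.val - (a - c)) = i.val
        omega
      have e2 : (⟨a - c + (j.val - (a - c)), by omega⟩ : Fin N) = j := by
        apply Fin.ext
        change a - c + (j.val - (a - c)) = j.val
        omega
      simp only [e1, e2]
      by_cases h : (a - c ≤ i.val ∧ i.val < a) ∧ (a + g ≤ j.val ∧ j.val < a + g + c)
      · rw [if_pos h, if_pos]
        constructor <;> omega
      · rw [if_neg h, if_neg]
        rintro ⟨h3, h4⟩
        apply h
        refine ⟨⟨hi.1, ?_⟩, ⟨?_, hj.2⟩⟩ <;> omega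
    · rw [dif_pos hi, dif_neg hj, if_neg]
      · rfl
      · rintro ⟨h3, h4⟩
        omega
    · rw [dif_neg hi, if_neg]
      · rfl
      · rintro ⟨h3, h4⟩
        omega
    · rw [dif_neg hi, if_neg]
      · rfl
      · rintro ⟨h3, h4⟩
        omega
  have h3 : Y.rank ≤ nR a c A := by
    refine (rank_le_rows Y (fun i => i.val < a - c ∧ RowNZ a i.val A) ?_).trans ?_
    · intro i hi j
      rw [hY]
      beta_reduce
      split_ifs with h
      · by_contra h4
        refine hi ⟨h.1, j, by omega, ?_⟩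
        rw [rowN_fin]
        exact h4
      · rfl
    · unfold nR
      refine card_le_card_of_injOn (fun i => i.val) ?_ ?_
      · intro i hi
        have hi' := (mem_filter.1 hi).2
        refine mem_coe.2 (mem_filter.2 ⟨mem_range.2 ?_, ?_, hi'.2⟩)
        · have := hi'.1
          change i.val < a
          omega
        · have := hi'.1
          change i.val + c < a
          omega
      · intro x _ y _ hxy
        exact Fin.ext hxy
  have h4 : Z.rank ≤ nR (N - (a + g)) c (Helper8.UT.flip A) := by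
    rw [← Matrix.rank_transpose Z]
    refine (rank_le_rows Zᵀ (fun j => a + g + c ≤ j.val ∧ RowNZ (N - (a + g)) (N - 1 - j.val)
      (Helper8.UT.flip A)) ?_).trans ?_
    · intro j hj i
      rw [Matrix.transpose_apply, hZ]
      beta_reduce
      split_ifs with h
      · by_contra h4
        refine hj ⟨h.2, i.rev, ?_, ?_⟩
        · rw [Fin.val_rev]
          omega
        · have e1 : N - 1 - j.val = j.rev.val := by
            rw [Fin.val_rev]
            omega
          rw [e1, rowN_fin]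
          change A i.rev.rev j.rev.rev ≠ 0
          rw [Fin.rev_rev, Fin.rev_rev]
          exact h4
      · rfl
    · unfold nR
      refine card_le_card_of_injOn (fun j => N - 1 - j.val) ?_ ?_
      · intro j hj
        have hj' := (mem_filter.1 hj).2
        have h5 := hj'.1
        have h6 := j.isLt
        refine mem_coe.2 (mem_filter.2 ⟨mem_range.2 ?_, ?_, hj'.2⟩)
        · change N - 1 - j.val < N - (a + g)
          omega
        · change N - 1 - j.val + c < N - (a + g)
          omega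
      · intro x _ y _ hxy
        have h5 := x.isLt
        have h6 := y.isLt
        change N - 1 - x.val = N - 1 - y.val at hxy
        exact Fin.ext (by omega)
  unfold crk at *
  rw [h1]
  have h5 := mrank_add_le (X + Y) Z
  have h6 := mrank_add_le X Y
  omega

theorem cg_mono43 {n a g s : ℕ} (h : s + n ≤ N) {t : ℝ} (ht : 0 ≤ t) :
    cg8 n a g t ≤ cg8 N (s + a) g t := by
  unfold cg8
  rw [← EE_mid s n h t (fun A => (crk a (a + g) A : ℝ))]
  refine EE_mono ht fun A _ => ?_
  have := crk_mid_le43 s n h a (a + g) A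
  rw [← add_assoc] at this
  exact_mod_cast this

theorem cg_le_two43 {a g c : ℕ} (hc : c ≤ a) (hN : a + g + c ≤ N) {t : ℝ} (ht : 0 ≤ t)
    (h2 : 2 * t ≤ c) : cg8 N a g t ≤ cg8 (2 * c + g) c g t + 2 := by
  have h3 : cg8 N a g t ≤ EE N t (fun A =>
      ((crk c (c + g) (mid (a - c) (2 * c + g) (by omega) A) : ℝ) + nR a c A) +
      nR (N - (a + g)) c (Helper8.UT.flip A)) := by
    unfold cg8
    refine EE_mono ht fun A _ => ?_
    exact_mod_cast crk_le_mid43 hc hN A
  have h4 : EE N t (fun A =>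
      ((crk c (c + g) (mid (a - c) (2 * c + g) (by omega) A) : ℝ) + nR a c A) +
      nR (N - (a + g)) c (Helper8.UT.flip A)) =
        cg8 (2 * c + g) c g t + EE N t (fun A => (nR a c A : ℝ)) +
        EE N t (fun A => (nR (N - (a + g)) c A : ℝ)) := by
    unfold cg8
    rw [← EE_mid (a - c) (2 * c + g) (by omega : a - c + (2 * c + g) ≤ N) t
        (fun A => (crk c (c + g) A : ℝ)),
      ← EE_flip t (fun A => (nR (N - (a + g)) c A : ℝ))]
    unfold EE
    rw [Sg_add_apply _ t (fun A : MM N =>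
      (crk c (c + g) (mid (a - c) (2 * c + g) (by omega) A) : ℝ) +
      (nR a c A : ℝ)) (fun A => (nR (N - (a + g)) c (Helper8.UT.flip A) : ℝ)),
      Sg_add_apply _ t (fun A : MM N =>
        (crk c (c + g) (mid (a - c) (2 * c + g) (by omega) A) : ℝ))
        (fun A => (nR a c A : ℝ))]
  rw [h4] at h3
  have h5 := EE_nR (N := N) (a := a) ht h2
  have h6 := EE_nR (N := N) (a := N - (a + g)) ht h2
  linarith

theorem Gg_le_two43 {g c : ℕ} {t : ℝ} (ht : 0 ≤ t) (h2 : 2 * t ≤ c) :
    Gg8 g t ≤ cg8 (2 * c + g) c g t + 2 := by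
  refine ciSup_le fun p => ?_
  obtain ⟨N, a⟩ := p
  change cg8 N a g t ≤ _
  have h3 : max a c - a + N ≤ max a c + g + max (N - (a + g)) c + a := by omega
  have h4 : (max a c - a) + N ≤ (max a c + g + max N c) := by omega
  have h5 := cg_mono43 (a := a) (g := g) h4 ht
  have h6 : max a c - a + a = max a c := by omega
  rw [h6] at h5
  exact h5.trans (cg_le_two43 (by omega) (by omega) ht h2)

/-- a box with room `2 t` on both sides has the mean `Gg8` up to `2` -/
theorem Gg_room43 {n a g c : ℕ} {t : ℝ} (ht : 0 ≤ t) (h2 : 2 * t ≤ c) (hc : c ≤ a)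
    (hn : a + g + c ≤ n) : Gg8 g t ≤ cg8 n a g t + 2 := by
  have h3 := Gg_le_two43 (g := g) ht h2
  have h4 : (a - c) + (2 * c + g) ≤ n := by omega
  have h5 := cg_mono43 (a := c) (g := g) h4 ht
  have h6 : a - c + c = a := by omega
  rw [h6] at h5
  linarith

open Classical in
/-- (LLN): for two gaps one box, with room `t` on both sides, in which both corner ranks are near
`Gg8` with high probability -/
theorem lln_room43 (eps q : ℝ) (heps : 0 < eps) (hq : 0 < q) :
    ∃ t0 : ℝ, 0 < t0 ∧ ∀ t : ℝ, t0 ≤ t →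
    ∀ g g' : ℕ, g ≤ g' → (g' : ℝ) ≤ t → ∃ N a : ℕ, a + g' ≤ N ∧ 1 ≤ a ∧ 2 * t ≤ (a : ℝ) ∧
      (a : ℝ) + g' + 2 * t ≤ (N : ℝ) ∧
      EE N t (fun A => if eps * t < |(crk a (a + g) A : ℝ) - Gg8 g t| then (1 : ℝ) else 0) ≤ q ∧
      EE N t (fun A => if eps * t < |(crk a (a + g') A : ℝ) - Gg8 g' t| then (1 : ℝ) else 0) ≤ q := by
  obtain ⟨N₀, hN₀⟩ := crk_conc43 (eps / 14) q 1 (by positivity) hq one_pos
  refine ⟨max (max 2 (4 / eps)) N₀, lt_max_of_lt_left (lt_max_of_lt_left (by norm_num)), ?_⟩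
  intro t ht g g' hgg hg't
  have ht2 : 2 ≤ t := (le_max_left _ _).trans ((le_max_left _ _).trans ht)
  have ht4 : 4 / eps ≤ t := (le_max_right _ _).trans ((le_max_left _ _).trans ht)
  have htN : (N₀ : ℝ) ≤ t := (le_max_right _ _).trans ht
  have ht0 : 0 ≤ t := by linarith
  obtain ⟨c, hc⟩ : ∃ c : ℕ, c = ⌈2 * t⌉₊ := ⟨_, rfl⟩
  have hc1 : 2 * t ≤ c := by rw [hc]; exact Nat.le_ceil _
  have hc2 : (c : ℝ) < 2 * t + 1 := by rw [hc]; exact Nat.ceil_lt_add_one (by positivity)
  obtain ⟨n, hn⟩ : ∃ n : ℕ, n = 2 * c + g' := ⟨_, rfl⟩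
  have hnt : (n : ℝ) ≤ 7 * t := by
    rw [hn]
    push_cast
    linarith
  have hnt' : t ≤ n := by
    rw [hn]
    push_cast
    have : (0 : ℝ) ≤ g' := Nat.cast_nonneg _
    linarith
  have hnN : N₀ ≤ n := by exact_mod_cast htN.trans hnt'
  have key : ∀ g₁ : ℕ, g₁ ≤ g' →
      EE n t (fun A => if eps * t < |(crk c (c + g₁) A : ℝ) - Gg8 g₁ t| then (1 : ℝ) else 0) ≤ q := by
    intro g₁ hg₁
    have h1 := hN₀ n hnN n le_rfl t ht0 (by linarith) c (c + g₁) (Nat.le_add_right _ _)
    refine le_trans (EE_mono ht0 fun A _ => ?_) h1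
    have h2 := cg_le_Gg8 n c g₁ ht0
    have h3 := Gg_room43 (n := n) (a := c) (g := g₁) ht0 hc1 le_rfl (by omega)
    have h4 : EE n t (fun A => (crk c (c + g₁) A : ℝ)) = cg8 n c g₁ t := rfl
    by_cases h5 : eps * t < |(crk c (c + g₁) A : ℝ) - Gg8 g₁ t|
    · rw [if_pos h5, if_pos]
      rw [h4]
      have h6 : |(crk c (c + g₁) A : ℝ) - Gg8 g₁ t| ≤
          |(crk c (c + g₁) A : ℝ) - cg8 n c g₁ t| + 2 := by
        have h7 : (crk c (c + g₁) A : ℝ) - Gg8 g₁ t =
            ((crk c (c + g₁) A : ℝ) - cg8 n c g₁ t) - (Gg8 g₁ t - cg8 n c g₁ t) := by ring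
        rw [h7]
        refine (abs_sub _ _).trans ?_
        have h8 : |Gg8 g₁ t - cg8 n c g₁ t| ≤ 2 := by
          rw [abs_le]
          constructor <;> linarith
        linarith
      have h9 : eps / 14 * n ≤ eps * t / 2 := by
        calc eps / 14 * n ≤ eps / 14 * (7 * t) := mul_le_mul_of_nonneg_left hnt (by positivity)
          _ = eps * t / 2 := by ring
      have h10 : 4 ≤ eps * t := by
        rw [div_le_iff₀ heps] at ht4
        linarith
      linarith
    · rw [if_neg h5]
      split_ifs <;> norm_num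
  refine ⟨n, c, by omega, ?_, hc1, ?_, key g hgg, key g' le_rfl⟩
  · have h1 : (1 : ℝ) ≤ c := by linarith
    exact_mod_cast h1
  · rw [hn]
    push_cast
    linarith

open Classical in
/-- (LLN): for two gaps one box in which both corner ranks are near `Gg8` with high probability -/
theorem lln43 (eps q : ℝ) (heps : 0 < eps) (hq : 0 < q) : ∃ t0 : ℝ, 0 < t0 ∧ ∀ t : ℝ, t0 ≤ t →
    ∀ g g' : ℕ, g ≤ g' → (g' : ℝ) ≤ t → ∃ N a : ℕ, a + g' ≤ N ∧
      EE N t (fun A => if eps * t < |(crk a (a + g) A : ℝ) - Gg8 g t| then (1 : ℝ) else 0) ≤ q ∧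
      EE N t (fun A => if eps * t < |(crk a (a + g') A : ℝ) - Gg8 g' t| then (1 : ℝ) else 0) ≤ q := by
  obtain ⟨t0, h0, h1⟩ := lln_room43 eps q heps hq
  refine ⟨t0, h0, fun t ht g g' hgg hg' => ?_⟩
  obtain ⟨N, a, h2, -, -, -, h3, h4⟩ := h1 t ht g g' hgg hg'
  exact ⟨N, a, h2, h3, h4⟩

end Pool.Agent.CutFull
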