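import Pool.Agent.NJ.HUm34
import Pool.Agent.NJ.Frt86

/-!
The drop of the profile of the row under a slab of right letters, in the model (NOJUMP, model
instantiation of `Drop38`).
-/

set_option autoImplicit false

namespace Pool.Agent.CutSeq.NJ

open Finset Module Bwd Pool.Agent.NJ

variable {n B L S : ℕ}

/-! #### the slab acts by an affine map -/

theorem rx_add_rl34 (p : ℕ × ZMod 2) (x y : V n) : rx p (x + y) = rl p x + rx p y := by
  funext k
  show (x k + y k) + (if k.val = p.1 then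
      p.2 * (if h : k.val + 1 < n then x ⟨k.val + 1, h⟩ + y ⟨k.val + 1, h⟩ else 1) else 0) =
    (x k + (if k.val = p.1 then p.2 * zx x (k.val + 1) else 0)) +
      (y k + (if k.val = p.1 then p.2 * (if h : k.val + 1 < n then y ⟨k.val + 1, h⟩ else 1) else 0))
  by_cases h1 : k.val = p.1
  · rw [if_pos h1, if_pos h1, if_pos h1]
    unfold zx
    by_cases h2 : k.val + 1 < n
    · rw [dif_pos h2, dif_pos h2, dif_pos h2]
      ring
    · rw [dif_neg h2, dif_neg h2, dif_neg h2]
      ring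
  · rw [if_neg h1, if_neg h1, if_neg h1]
    ring

/-- action of a word of right letters on a row; the letter `0` acts last -/
def ra34 : (S : ℕ) → Wd B S → V n → V n
  | 0, _, z => z
  | S + 1, lam, z => rx ((lam 0).1.val, (lam 0).2) (ra34 S (fun i => lam i.succ) z)

theorem ra_add34 (S : ℕ) (lam : Wd B S) (x y : V n) :
    ra34 S lam (x + y) = gl S lam x + ra34 S lam y := by
  induction S with
  | zero => rfl
  | succ S ih =>
    show rx ((lam 0).1.val, (lam 0).2) (ra34 S (fun i => lam i.succ) (x + y)) =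
      rl ((lam 0).1.val, (lam 0).2) (gl S (fun i => lam i.succ) x) +
        rx ((lam 0).1.val, (lam 0).2) (ra34 S (fun i => lam i.succ) y)
    rw [ih, rx_add_rl34]

theorem Rt_ra34 (om : Wd B L) (S : ℕ) (lam : Wd B S) :
    Rt n (om, lam) = ra34 S lam (row (ext om) L n) := by
  induction S with
  | zero => exact Rt_zero _
  | succ S ih =>
    have h : lam = cns (lam 0) (fun i => lam i.succ) := (Fin.cons_self_tail lam).symm
    conv_lhs => rw [h]
    rw [Rt_cns, ih]
    rfl

/-- the row after the slab is an affine function of the row before -/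
theorem Rt_gl34 (om : Wd B L) (lam : Wd B S) :
    Rt n (om, lam) = gl S lam (row (ext om) L n) + ra34 S lam 0 := by
  rw [Rt_ra34, ← ra_add34, add_zero]

theorem Rt_add_gl34 (om om' : Wd B L) (lam : Wd B S) :
    Rt n (om, lam) + Rt n (om', lam) = gl S lam (row (ext om) L n + row (ext om') L n) := by
  rw [Rt_gl34, Rt_gl34, gl_add]
  have h : ra34 S lam (0 : V n) + ra34 S lam 0 = 0 := by
    funext k
    exact CharTwo.add_self_eq_zero _
  calc gl S lam (row (ext om) L n) + ra34 S lam 0 + (gl S lam (row (ext om') L n) + ra34 S lam 0)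
      = gl S lam (row (ext om) L n) + gl S lam (row (ext om') L n) +
        (ra34 S lam 0 + ra34 S lam 0) := by abel
    _ = _ := by rw [h, add_zero]

/-- the defect of the first `b` entries after the slab in the form of `Drop38` -/
theorem Phm_eq34 {b : ℕ} (hb : b ≤ n) :
    KK (w2 B L S) (fun q => pfx b (Rt n q)) (fun q => (mm (ext q.1) L n, q.2)) =
      NN38 (fun q : Wd B L × Wd B S => uw B L q.1 * uw B S q.2)
        (fun q => gl S q.2 (row (ext q.1) L n)) (fun q => (mm (ext q.1) L n, q.2)) b := by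
  rw [KK_pfx34 (w2 B L S) (fun q => Rt n q) (fun q => (mm (ext q.1) L n, q.2)) hb]
  rw [← NN38_affine (uw B L) (fun ω => row (ext ω) L n) (fun ω => mm (ext ω) L n) (uw B S)
    (fun lam => gl S lam) (fun lam => ra34 S lam 0) b]
  have e : (fun q : Wd B L × Wd B S => Rt n q) =
      fun q => gl S q.2 (row (ext q.1) L n) + ra34 S q.2 0 := by
    funext q
    exact Rt_gl34 q.1 q.2
  rw [e]
  rfl

/-! #### the fronts -/

theorem pz38_zero_iff34 (b : ℕ) (z : V n) : pz38 b z = 0 ↔ ∀ i : Fin n, i.val < b → z i = 0 := by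
  constructor
  · intro h i hi
    have e := congrFun h i
    simp only [pz38, if_pos hi] at e
    exact e
  · intro h
    funext i
    simp only [pz38]
    by_cases hi : i.val < b
    · rw [if_pos hi, h i hi]
      rfl
    · rw [if_neg hi]
      rfl

theorem qq_qb34 (b : ℕ) (z : V n) : qq38 (uw B S) (fun lam => gl S lam) b z = qb B S b z := by
  unfold qq38 qb pr tot ind
  refine Finset.sum_congr rfl fun lam _ => ?_
  by_cases h : pz38 b (gl S lam z) = 0
  · rw [if_pos h, mul_one, Set.indicator_of_mem]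
    exact (pz38_zero_iff34 b _).1 h
  · rw [if_neg h, mul_zero, Set.indicator_of_notMem]
    exact fun h' => h ((pz38_zero_iff34 b _).2 h')

/-- (F1) in the form of `Drop38` -/
theorem F1_38_34 (hB : 0 < B) (hn : n ≤ B + 1) {b : ℕ} (hb : b ≤ n) :
    ∀ p < b, ∀ z : V n, pz38 p z = 0 → pz38 (p + 1) z ≠ 0 →
      qq38 (uw B S) (fun lam => gl S lam) b z ≤ (1 / 2 : ℝ) ^ (b - p) := by
  intro p hp z h1 h2
  rw [qq_qb34]
  have h3 : ∃ i : Fin n, i.val < p + 1 ∧ z i ≠ 0 := by
    by_contra hc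
    push Not at hc
    exact h2 ((pz38_zero_iff34 (p + 1) z).2 hc)
  obtain ⟨i, hi, hz⟩ := h3
  have h4 : i.val = p := by
    by_contra hne
    exact hz ((pz38_zero_iff34 p z).1 h1 i (by omega))
  have h5 := F1 (B := B) (S := S) hB hn hb z i hz (by omega)
  rw [h4] at h5
  exact h5

theorem tot_uw34 (hB : 0 < B) : tot (uw B S) = 1 := tot_uw hB

/-- the free bound in the model -/
theorem free34 (hB : 0 < B) (hn : n ≤ B + 1) {b : ℕ} (hb : b ≤ n) :
    KK (w2 B L S) (fun q => pfx b (Rt n q)) (fun q => (mm (ext q.1) L n, q.2)) ≤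
      KK (uw B L) (fun ω => pfx b (row (ext ω) L n)) (fun ω => mm (ext ω) L n) +
        Real.log (n + 2) := by
  rw [Phm_eq34 hb, KK_pfx34 (uw B L) (fun ω => row (ext ω) L n) _ hb]
  have h := drop_free38 (uw B L) (uw_nonneg B L) (fun ω => row (ext ω) L n)
    (fun ω => mm (ext ω) L n) (uw B S) (uw_nonneg B S) (fun lam => gl S lam)
    (fun lam x y => gl_add lam x y) (tot_uw hB) hb (F1_38_34 hB hn hb)
  rw [tot_uw hB, one_mul] at h
  exact h

/-- the drop at one level, in the model; `k` is the jump of the dimension of the hidden space -/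
theorem drop34 (hB : 0 < B) (hn : n ≤ B + 1) {a b h : ℕ} (ha : 1 ≤ a) (hab : a ≤ b) (hb : b ≤ n)
    (hF2 : ∀ z : V n, pz38 (b + h) z ≠ 0 → qb B S b z ≤ (1 / 2 : ℝ) ^ (2 * a)) :
    KK (w2 B L S) (fun q => pfx b (Rt n q)) (fun q => (mm (ext q.1) L n, q.2)) ≤
      KK (uw B L) (fun ω => pfx (b - a) (row (ext ω) L n)) (fun ω => mm (ext ω) L n) +
        a * Real.log 2 * pr (uw B L) {ω | dpf (b + h) (TT (ext ω) L n) -
          dpf b (TT (ext ω) L n) < a} + (Real.log (n + 2) + 1) := by
  have hl2 : 0 < Real.log 2 := Real.log_pos (by norm_num)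
  have ha' : (1 : ℝ) ≤ a := by exact_mod_cast ha
  rw [Phm_eq34 hb, KK_pfx34 (uw B L) (fun ω => row (ext ω) L n) _ ((Nat.sub_le b a).trans hb)]
  have h1 := drop_b38 (uw B L) (uw_nonneg B L) (fun ω => row (ext ω) L n)
    (fun ω => mm (ext ω) L n) (uw B S) (uw_nonneg B S) (fun lam => gl S lam)
    (fun lam x y => gl_add lam x y) (tot_uw hB) ha hab hb (F1_38_34 hB hn hb)
    (fun z hz => by rw [qq_qb34]; exact hF2 z hz) (hist34 n L)
    (fun ω => dpf (b + h) (TT (ext ω) L n) - dpf b (TT (ext ω) L n))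
    (fun ω _ => hole_le34 b h ω) (a * Real.log 2) (by positivity) le_rfl
  rw [div_self (by positivity), one_mul, tot_uw hB, one_mul] at h1
  have e : {ω : Wd B L | ((dpf (b + h) (TT (ext ω) L n) - dpf b (TT (ext ω) L n) : ℕ) : ℝ) *
      Real.log 2 < a * Real.log 2} = {ω | dpf (b + h) (TT (ext ω) L n) -
          dpf b (TT (ext ω) L n) < a} := by
    ext ω
    simp only [Set.mem_ofPred_eq]
    rw [mul_lt_mul_iff_left₀ hl2, Nat.cast_lt]
  rw [e] at h1
  linarith

/-- the sum of the drops, in the model -/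
theorem drop_sum34 (hB : 0 < B) (hn : n ≤ B + 1) {a b0 h : ℕ} (ha : 1 ≤ a) (hab : a ≤ b0)
    (hbn : b0 + h ≤ n)
    (hF2 : ∀ b, b0 ≤ b → b + h ≤ n → ∀ z : V n, pz38 (b + h) z ≠ 0 →
      qb B S b z ≤ (1 / 2 : ℝ) ^ (2 * a)) (δ : ℝ) (hδ0 : 0 ≤ δ)
    (hδ : ∀ b, b0 ≤ b → b + h ≤ n → pr (uw B L) {ω | dpf (b + h) (TT (ext ω) L n) -
          dpf b (TT (ext ω) L n) < a} ≤ δ) :
    a * (KK (uw B L) (fun ω => row (ext ω) L n) (fun ω => mm (ext ω) L n) -
        ((h + a + b0 : ℕ) * Real.log 2)) -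
        (n + 1) * (a * Real.log 2 * δ + (Real.log (n + 2) + 1)) ≤
      ∑ b ∈ range (n + 1), (KK (uw B L) (fun ω => pfx b (row (ext ω) L n)) (fun ω => mm (ext ω) L n) -
        KK (w2 B L S) (fun q => pfx b (Rt n q)) (fun q => (mm (ext q.1) L n, q.2))) := by
  have hl2 : 0 < Real.log 2 := Real.log_pos (by norm_num)
  have ha' : (1 : ℝ) ≤ a := by exact_mod_cast ha
  have h1 := drop_sum38 (uw B L) (uw_nonneg B L) (fun ω => row (ext ω) L n)
    (fun ω => mm (ext ω) L n) (uw B S) (uw_nonneg B S) (fun lam => gl S lam)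
    (fun lam x y => gl_add lam x y) (tot_uw hB) ha hab hbn
    (fun b hb => F1_38_34 hB hn hb)
    (fun b hb hbh z hz => by rw [qq_qb34]; exact hF2 b hb hbh z hz) (hist34 n L)
    (fun b ω => dpf (b + h) (TT (ext ω) L n) - dpf b (TT (ext ω) L n))
    (fun b _ _ ω _ => hole_le34 b h ω) (a * Real.log 2) (by positivity) le_rfl δ hδ0
    (by
      intro b hb hbh
      have e : {ω : Wd B L | ((dpf (b + h) (TT (ext ω) L n) - dpf b (TT (ext ω) L n) : ℕ) : ℝ) *
          Real.log 2 < a * Real.log 2} = {ω | dpf (b + h) (TT (ext ω) L n) -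
              dpf b (TT (ext ω) L n) < a} := by
        ext ω
        simp only [Set.mem_ofPred_eq]
        rw [mul_lt_mul_iff_left₀ hl2, Nat.cast_lt]
      rw [e]
      exact hδ b hb hbh)
  rw [tot_uw hB, one_mul, one_mul, mul_div_cancel_right₀ _ hl2.ne'] at h1
  have e1 : NN38 (uw B L) (fun ω => row (ext ω) L n) (fun ω => mm (ext ω) L n) n =
      KK (uw B L) (fun ω => row (ext ω) L n) (fun ω => mm (ext ω) L n) := by
    rw [← KK_pfx34 (uw B L) (fun ω => row (ext ω) L n) (fun ω => mm (ext ω) L n) le_rfl]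
    have e : (fun ω : Wd B L => pfx n (row (ext ω) L n)) = fun ω => row (ext ω) L n := by
      funext ω
      exact pfx_self _
    rw [e]
  rw [e1] at h1
  refine h1.trans (le_of_eq ?_)
  refine Finset.sum_congr rfl fun b hb => ?_
  have hb' : b ≤ n := Nat.lt_succ_iff.1 (Finset.mem_range.1 hb)
  rw [Phm_eq34 hb', KK_pfx34 (uw B L) (fun ω => row (ext ω) L n) _ hb']

end Pool.Agent.CutSeq.NJ
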