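import Pool.Agent.NJ.Slope85

/-! Amplified luck (helper85): if a linear sibling is lucky with probability `p`, then `z` siblings have
`r` linearly independent lucky combinations with probability at least `1/2` as soon as
`(2^z - 1) p ≥ max 8 (2^r)`; the uniform probability of such an event is at most `(2^z u)^r`.

* `hom_bal`: the fibres of a surjective homomorphism have equal size.
* `many_prob`: the probability side.
* `card_many_le`: the uniform side.
-/

set_option autoImplicit false

namespace Pool.Agent.NJ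

open Finset Pool.Agent.CutSeq

/-- fibres of surjective homomorphisms -/
theorem hom_bal {G G' : Type*} [AddCommGroup G] [AddCommGroup G'] [Fintype G] [Fintype G']
    (f : G' →+ G) (hf : Function.Surjective f) (a : G) :
    Nat.card {x // f x = a} * Fintype.card G = Fintype.card G' := by
  classical
  have key : ∀ b : G, Nat.card {x // f x = b} = Nat.card {x // f x = a} := by
    intro b
    obtain ⟨u, hu⟩ := hf a
    obtain ⟨v, hv⟩ := hf b
    refine Nat.card_congr
      { toFun := fun x => ⟨x.1 - v + u, ?_⟩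
        invFun := fun x => ⟨x.1 - u + v, ?_⟩
        left_inv := fun x => Subtype.ext (by simp)
        right_inv := fun x => Subtype.ext (by simp) }
    · rw [map_add, map_sub, x.2, hv, hu]
      simp
    · rw [map_add, map_sub, x.2, hv, hu]
      simp
  have htot : Fintype.card G' = ∑ b : G, Nat.card {x // f x = b} := by
    rw [← Finset.card_univ, Finset.card_eq_sum_card_fiberwise (f := f) (t := univ)
      (fun _ _ => Finset.mem_univ _)]
    refine Finset.sum_congr rfl fun b _ => ?_
    rw [Nat.card_eq_fintype_card, Fintype.card_subtype]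
  rw [htot, Finset.sum_congr rfl fun b _ => key b, Finset.sum_const, Finset.card_univ,
    smul_eq_mul, mul_comm]

section Many

variable {n : ℕ}

/-- `r` linearly independent lucky combinations -/
def Many {z : ℕ} (r : ℕ) (E : Set (V n)) (y : Fin z → V n) : Prop :=
  ∃ f : Fin r → (Fin z → ZMod 2), LinearIndependent (ZMod 2) f ∧ ∀ k, comb (f k) y ∈ E

/-- a large set contains independent vectors -/
lemma exists_indep {z r : ℕ} (S : Set (Fin z → ZMod 2)) (h0 : (0 : Fin z → ZMod 2) ∉ S)
    (hS : 2 ^ r ≤ 2 * Nat.card S) :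
    ∃ f : Fin r → (Fin z → ZMod 2), LinearIndependent (ZMod 2) f ∧ ∀ k, f k ∈ S := by
  classical
  have hd : r ≤ Module.finrank (ZMod 2) (Submodule.span (ZMod 2) S) := by
    by_contra hlt
    push Not at hlt
    have hr1 : 1 ≤ r := by omega
    set W := Submodule.span (ZMod 2) S with hW
    have h1 : Nat.card W = 2 ^ Module.finrank (ZMod 2) W := by
      rw [Nat.card_eq_fintype_card, Module.card_eq_pow_finrank (K := ZMod 2), ZMod.card]
    have h2 : Nat.card S + 1 ≤ Nat.card W := by
      have h3 : S ∪ {0} ⊆ (W : Set (Fin z → ZMod 2)) := by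
        rintro x (hx | hx)
        · exact Submodule.subset_span hx
        · rw [Set.mem_singleton_iff] at hx
          rw [hx]
          exact W.zero_mem
      have h4 := Set.ncard_le_ncard h3 (Set.toFinite _)
      rw [Set.ncard_union_eq (by
        rw [Set.disjoint_singleton_right]
        exact h0) (Set.toFinite _) (Set.toFinite _), Set.ncard_singleton] at h4
      exact h4
    have h5 : 2 ^ Module.finrank (ZMod 2) W ≤ 2 ^ (r - 1) :=
      Nat.pow_le_pow_right (by norm_num) (by omega)
    have h6 : 2 * 2 ^ (r - 1) = 2 ^ r := by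
      rw [← pow_succ']
      congr 1
      omega
    rw [h1] at h2
    omega
  obtain ⟨f, hfS, _, hfi⟩ := Submodule.exists_fun_fin_finrank_span_eq (ZMod 2) S
  refine ⟨fun k => f (Fin.castLE hd k), hfi.comp _ (Fin.castLE_injective hd), fun k => hfS _⟩

open Classical in
/-- second moment: many independent lucky combinations -/
theorem many_prob (T : Submodule (ZMod 2) (V n)) (z r : ℕ) (E : Set (V n)) (p : ℝ)
    (hp : p = ∑ v, uT T v * (if v ∈ E then 1 else 0)) (h8 : 8 ≤ ((2 : ℝ) ^ z - 1) * p)
    (hr : (2 : ℝ) ^ r ≤ ((2 : ℝ) ^ z - 1) * p) :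
    1 / 2 ≤ ∑ y : Fin z → V n, (∏ i, uT T (y i)) * (if Many r E y then 1 else 0) := by
  set g : V n → ℝ := fun v => if v ∈ E then 1 else 0 with hg
  set S : Finset (Fin z → ZMod 2) := Finset.univ.filter fun c => c ≠ 0 with hS
  have hcard : (S.card : ℝ) = 2 ^ z - 1 := by
    have h1 : S = Finset.univ.erase 0 := by
      ext c
      simp [hS]
    rw [h1, Finset.card_erase_of_mem (Finset.mem_univ _), Finset.card_univ]
    simp only [Fintype.card_fun, ZMod.card, Fintype.card_fin]
    rw [Nat.cast_sub (Nat.one_le_two_pow)]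
    push_cast
    ring
  set a : ℝ := (2 ^ z - 1) * p with ha
  have ha0 : 0 < a := by linarith
  set N : (Fin z → V n) → ℝ := fun y => ∑ c ∈ S, g (comb c y) with hN
  have hEN : ∑ y : Fin z → V n, (∏ i, uT T (y i)) * N y = a := by
    simp only [hN, Finset.mul_sum]
    rw [Finset.sum_comm]
    have : ∀ c ∈ S, ∑ y : Fin z → V n, (∏ i, uT T (y i)) * g (comb c y) = p := by
      intro c hc
      rw [hS, Finset.mem_filter] at hc
      rw [sum_comb_one T z c hc.2 g, hp]
    rw [Finset.sum_congr rfl this, Finset.sum_const, nsmul_eq_mul, hcard]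
  have hgg : ∀ v, g v * g v = g v := by
    intro v
    simp only [hg]
    split <;> norm_num
  have hEN2 : ∑ y : Fin z → V n, (∏ i, uT T (y i)) * N y ^ 2 ≤ a + a ^ 2 := by
    have h1 : ∀ y : Fin z → V n, (∏ i, uT T (y i)) * N y ^ 2 =
        ∑ c ∈ S, ∑ c' ∈ S, (∏ i, uT T (y i)) * (g (comb c y) * g (comb c' y)) := by
      intro y
      simp only [hN]
      rw [pow_two, Finset.sum_mul_sum, Finset.mul_sum]
      refine Finset.sum_congr rfl fun c _ => ?_
      rw [Finset.mul_sum]
    simp only [h1]
    rw [Finset.sum_comm]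
    have h2 : ∀ c ∈ S, ∑ y : Fin z → V n, ∑ c' ∈ S, (∏ i, uT T (y i)) * (g (comb c y) * g (comb c' y)) ≤
        p + S.card * p ^ 2 := by
      intro c hc
      rw [Finset.sum_comm]
      have hc0 : c ≠ 0 := by
        rw [hS, Finset.mem_filter] at hc
        exact hc.2
      rw [← Finset.add_sum_erase S _ hc]
      have h3 : ∑ y : Fin z → V n, (∏ i, uT T (y i)) * (g (comb c y) * g (comb c y)) = p := by
        simp only [hgg]
        rw [sum_comb_one T z c hc0 g, hp]
      rw [h3]
      have h4 : ∀ c' ∈ S.erase c, ∑ y : Fin z → V n,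
          (∏ i, uT T (y i)) * (g (comb c y) * g (comb c' y)) = p ^ 2 := by
        intro c' hc'
        rw [Finset.mem_erase, hS, Finset.mem_filter] at hc'
        rw [sum_comb_two T z c c' hc0 hc'.2.2 (Ne.symm hc'.1) g, hp]
      rw [Finset.sum_congr rfl h4, Finset.sum_const, nsmul_eq_mul]
      have h5 : ((S.erase c).card : ℝ) ≤ S.card := by
        exact_mod_cast Finset.card_le_card (Finset.erase_subset _ _)
      have h6 : 0 ≤ p ^ 2 := by positivity
      nlinarith
    refine (Finset.sum_le_sum h2).trans ?_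
    rw [Finset.sum_const, nsmul_eq_mul, hcard]
    apply le_of_eq
    rw [ha]
    ring
  have hkey : ∀ y : Fin z → V n, 1 - 4 / a ^ 2 * (N y - a) ^ 2 ≤ if Many r E y then 1 else 0 := by
    intro y
    by_cases h : Many r E y
    · rw [if_pos h]
      have : 0 ≤ 4 / a ^ 2 * (N y - a) ^ 2 := by positivity
      linarith
    · rw [if_neg h]
      -- few lucky combinations
      have h1 : N y < a / 2 := by
        by_contra hcon
        push Not at hcon
        apply h
        set Lk : Set (Fin z → ZMod 2) := {c | c ≠ 0 ∧ comb c y ∈ E} with hLk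
        have h2 : N y = Nat.card Lk := by
          simp only [hN, hg]
          rw [Finset.sum_boole, Nat.card_eq_fintype_card, ← Set.toFinset_card]
          congr 2
          ext c
          simp [hS, hLk]
        have h3 : (2 : ℝ) ^ r ≤ 2 * Nat.card Lk := by
          rw [← h2]
          linarith
        have h4 : 2 ^ r ≤ 2 * Nat.card Lk := by exact_mod_cast h3
        obtain ⟨f, hf1, hf2⟩ := exists_indep Lk (by simp [hLk]) h4
        exact ⟨f, hf1, fun k => (hf2 k).2⟩
      have h6 : a ^ 2 / 4 ≤ (N y - a) ^ 2 := by nlinarith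
      have h7 : 1 ≤ 4 / a ^ 2 * (N y - a) ^ 2 := by
        rw [div_mul_eq_mul_div, le_div_iff₀ (by positivity)]
        linarith
      linarith
  have h1 : ∑ y : Fin z → V n, (∏ i, uT T (y i)) * (1 - 4 / a ^ 2 * (N y - a) ^ 2) ≤
      ∑ y : Fin z → V n, (∏ i, uT T (y i)) * (if Many r E y then 1 else 0) :=
    Finset.sum_le_sum fun y _ => mul_le_mul_of_nonneg_left (hkey y) (prod_uT_nonneg T z y)
  refine le_trans ?_ h1
  have h2 : ∑ y : Fin z → V n, (∏ i, uT T (y i)) * (1 - 4 / a ^ 2 * (N y - a) ^ 2) =
      (∑ y : Fin z → V n, (∏ i, uT T (y i))) - 4 / a ^ 2 *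
        ((∑ y : Fin z → V n, (∏ i, uT T (y i)) * N y ^ 2) -
          2 * a * (∑ y : Fin z → V n, (∏ i, uT T (y i)) * N y) +
          a ^ 2 * ∑ y : Fin z → V n, (∏ i, uT T (y i))) := by
    rw [Finset.mul_sum, Finset.mul_sum, ← Finset.sum_sub_distrib, ← Finset.sum_add_distrib,
      Finset.mul_sum, ← Finset.sum_sub_distrib]
    refine Finset.sum_congr rfl fun y _ => ?_
    ring
  rw [h2, hEN, sum_prod_uT]
  have h3 : (∑ y : Fin z → V n, (∏ i, uT T (y i)) * N y ^ 2) - 2 * a * a + a ^ 2 * 1 ≤ a := by
    linarith [hEN2, sq a]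
  have h4 : 4 / a ^ 2 * ((∑ y : Fin z → V n, (∏ i, uT T (y i)) * N y ^ 2) - 2 * a * a + a ^ 2 * 1) ≤
      4 / a ^ 2 * a := mul_le_mul_of_nonneg_left h3 (by positivity)
  have h5 : 4 / a ^ 2 * a = 4 / a := by
    field_simp
  have h6 : 4 / a ≤ 1 / 2 := by
    rw [div_le_iff₀ ha0]
    linarith
  linarith

/-- combinations with independent coefficients -/
def combHom {z r : ℕ} (f : Fin r → (Fin z → ZMod 2)) : (Fin z → V n) →+ (Fin r → V n) where
  toFun := fun y k => comb (f k) y
  map_zero' := by
    funext k
    simp [comb]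
  map_add' := by
    intro y y'
    funext k
    exact comb_add _ _ _

lemma combHom_surj {z r : ℕ} (f : Fin r → (Fin z → ZMod 2)) (hf : LinearIndependent (ZMod 2) f) :
    Function.Surjective (combHom (n := n) f) := by
  classical
  -- a left inverse
  have hinj : LinearMap.ker (Fintype.linearCombination (ZMod 2) f) = ⊥ := by
    rw [LinearMap.ker_eq_bot]
    exact hf.fintypeLinearCombination_injective
  obtain ⟨g, hg⟩ := (Fintype.linearCombination (ZMod 2) f).exists_leftInverse_of_injective hinj
  have hgf : ∀ k, g (f k) = Pi.single k 1 := by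
    intro k
    have h1 := LinearMap.congr_fun hg (Pi.single k 1)
    rw [LinearMap.comp_apply, Fintype.linearCombination_apply_single, one_smul] at h1
    exact h1
  intro t
  refine ⟨fun i => ∑ j, g (Pi.single i 1) j • t j, ?_⟩
  funext k
  change comb (f k) (fun i => ∑ j, g (Pi.single i 1) j • t j) = t k
  unfold comb
  have h2 : ∀ j, ∑ i, f k i * g (Pi.single i 1) j = g (f k) j := by
    intro j
    have h3 : f k = ∑ i, f k i • (Pi.single i (1 : ZMod 2) : Fin z → ZMod 2) := by
      rw [← pi_eq_sum_univ' (f k)] 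
    conv_rhs => rw [h3]
    rw [map_sum, Finset.sum_apply]
    refine Finset.sum_congr rfl fun i _ => ?_
    rw [map_smul, Pi.smul_apply, smul_eq_mul]
  calc ∑ i, f k i • ∑ j, g (Pi.single i 1) j • t j
      = ∑ j, (∑ i, f k i * g (Pi.single i 1) j) • t j := by
        simp only [Finset.smul_sum, Finset.sum_smul, smul_smul]
        rw [Finset.sum_comm]
    _ = ∑ j, (Pi.single k (1 : ZMod 2) : Fin r → ZMod 2) j • t j := by
        simp only [h2, hgf]
    _ = t k := by
        rw [Finset.sum_eq_single k]
        · rw [Pi.single_eq_same, one_smul]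
        · intro j _ hj
          rw [Pi.single_eq_of_ne hj, zero_smul]
        · intro h
          exact absurd (Finset.mem_univ k) h

/-- uniform probability of many independent lucky combinations -/
theorem card_many_le (z r : ℕ) (E : Set (V n)) (x : ℝ)
    (hE : (Nat.card E : ℝ) ≤ Real.exp (-x) * Fintype.card (V n)) :
    (Nat.card {y : Fin z → V n | Many r E y} : ℝ) ≤
      Real.exp (-(r * (x - z * Real.log 2))) * Fintype.card (Fin z → V n) := by
  classical
  have hcount : ∀ (ι : Type) [Fintype ι] (P : ι → Prop), (Nat.card {y : ι | P y} : ℝ) =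
      ∑ y : ι, if P y then (1 : ℝ) else 0 := by
    intro ι _ P
    rw [Nat.card_eq_fintype_card, ← Set.toFinset_card, Finset.sum_boole]
    congr 2
    ext y
    simp
  have hV0 : (0 : ℝ) < Fintype.card (V n) := by
    have : 0 < Fintype.card (V n) := Fintype.card_pos
    exact_mod_cast this
  -- one family of coefficients
  have h2 : ∀ f : Fin r → (Fin z → ZMod 2), LinearIndependent (ZMod 2) f →
      (∑ y : Fin z → V n, if ∀ k, comb (f k) y ∈ E then (1 : ℝ) else 0) ≤
        (Fintype.card (Fin z → V n) : ℝ) * Real.exp (-x) ^ r := by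
    intro f hf
    have h3 : (∑ y : Fin z → V n, if ∀ k, comb (f k) y ∈ E then (1 : ℝ) else 0) =
        ∑ t : Fin r → V n, (Nat.card {y // combHom (n := n) f y = t} : ℝ) *
          (if ∀ k, t k ∈ E then 1 else 0) := by
      rw [← Finset.sum_fiberwise_of_maps_to (s := (Finset.univ : Finset (Fin z → V n)))
        (t := (Finset.univ : Finset (Fin r → V n))) (g := combHom (n := n) f)
        (fun _ _ => Finset.mem_univ _)]
      refine Finset.sum_congr rfl fun t _ => ?_
      rw [Finset.sum_congr rfl (g := fun _ => if ∀ k, t k ∈ E then (1 : ℝ) else 0)]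
      · rw [Finset.sum_const, nsmul_eq_mul]
        congr 2
        rw [Nat.card_eq_fintype_card, Fintype.card_subtype]
      · intro y hy
        rw [Finset.mem_filter] at hy
        rw [← hy.2]
        rfl
    have hVr : (Fintype.card (Fin r → V n) : ℝ) = (Fintype.card (V n) : ℝ) ^ r := by
      have := @Fintype.card_fun (Fin r) (V n) _ _ _
      rw [Fintype.card_fin] at this
      exact_mod_cast this
    have hfib : ∀ t : Fin r → V n, (Nat.card {y // combHom (n := n) f y = t} : ℝ) =
        Fintype.card (Fin z → V n) / (Fintype.card (V n) : ℝ) ^ r := by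
      intro t
      rw [eq_div_iff (by positivity), ← hVr]
      exact_mod_cast hom_bal (combHom (n := n) f) (combHom_surj f hf) t
    rw [h3]
    simp only [hfib]
    rw [← Finset.mul_sum]
    have h4 : ∑ t : Fin r → V n, (if ∀ k, t k ∈ E then (1 : ℝ) else 0) = (Nat.card E : ℝ) ^ r := by
      have h5 : ∀ t : Fin r → V n, (if ∀ k, t k ∈ E then (1 : ℝ) else 0) =
          ∏ k, if t k ∈ E then (1 : ℝ) else 0 := by
        intro t
        by_cases h : ∀ k, t k ∈ E
        · rw [if_pos h]
          symm
          exact Finset.prod_eq_one fun k _ => if_pos (h k)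
        · rw [if_neg h]
          push Not at h
          obtain ⟨k, hk⟩ := h
          symm
          exact Finset.prod_eq_zero (Finset.mem_univ k) (if_neg hk)
      simp only [h5]
      have h6 := Fintype.prod_sum (ι := Fin r) (κ := fun _ => V n)
        (f := fun _ v => if v ∈ E then (1 : ℝ) else 0)
      rw [← h6, Finset.prod_const, Finset.card_univ, Fintype.card_fin,
        ← hcount (V n) (fun v => v ∈ E)]
      rfl
    rw [h4]
    have h7 : (Nat.card E : ℝ) ^ r ≤ Real.exp (-x) ^ r * (Fintype.card (V n) : ℝ) ^ r := by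
      rw [← mul_pow]
      gcongr
    calc (Fintype.card (Fin z → V n) : ℝ) / (Fintype.card (V n) : ℝ) ^ r * (Nat.card E : ℝ) ^ r
        ≤ (Fintype.card (Fin z → V n) : ℝ) / (Fintype.card (V n) : ℝ) ^ r *
          (Real.exp (-x) ^ r * (Fintype.card (V n) : ℝ) ^ r) := by gcongr
      _ = (Fintype.card (Fin z → V n) : ℝ) * Real.exp (-x) ^ r := by
          field_simp
  have h1 : ∀ y : Fin z → V n, (if Many r E y then (1 : ℝ) else 0) ≤
      ∑ f ∈ Finset.univ.filter (fun f : Fin r → (Fin z → ZMod 2) => LinearIndependent (ZMod 2) f),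
        if ∀ k, comb (f k) y ∈ E then (1 : ℝ) else 0 := by
    intro y
    by_cases h : Many r E y
    · rw [if_pos h]
      obtain ⟨f, hf, hfE⟩ := h
      have := Finset.single_le_sum
        (f := fun f : Fin r → (Fin z → ZMod 2) => if ∀ k, comb (f k) y ∈ E then (1 : ℝ) else 0)
        (s := Finset.univ.filter (fun f : Fin r → (Fin z → ZMod 2) => LinearIndependent (ZMod 2) f))
        (fun i _ => by
          show 0 ≤ (if ∀ k, comb (i k) y ∈ E then (1 : ℝ) else 0)
          split <;> norm_num)
        (Finset.mem_filter.2 ⟨Finset.mem_univ f, hf⟩)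
      simp only [hfE, implies_true, if_true] at this
      exact this
    · rw [if_neg h]
      refine Finset.sum_nonneg fun c _ => ?_
      split <;> norm_num
  rw [hcount (Fin z → V n) (fun y => Many r E y)]
  refine (Finset.sum_le_sum fun y _ => h1 y).trans ?_
  rw [Finset.sum_comm]
  refine (Finset.sum_le_sum fun f hf => h2 f (Finset.mem_filter.1 hf).2).trans ?_
  rw [Finset.sum_const, nsmul_eq_mul]
  have h5 : ((Finset.univ.filter (fun f : Fin r → (Fin z → ZMod 2) =>
      LinearIndependent (ZMod 2) f)).card : ℝ) ≤ ((2 : ℝ) ^ z) ^ r := by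
    have h6 : (Finset.univ.filter (fun f : Fin r → (Fin z → ZMod 2) =>
      LinearIndependent (ZMod 2) f)).card ≤ Fintype.card (Fin r → (Fin z → ZMod 2)) :=
      Finset.card_le_univ _
    have h7 : Fintype.card (Fin r → (Fin z → ZMod 2)) = (2 ^ z) ^ r := by
      simp [ZMod.card]
    rw [h7] at h6
    exact_mod_cast h6
  have h7 : Real.exp (-(r * (x - z * Real.log 2))) = ((2 : ℝ) ^ z) ^ r * Real.exp (-x) ^ r := by
    have h8 : (2 : ℝ) ^ z * Real.exp (-x) = Real.exp (z * Real.log 2 - x) := by
      rw [sub_eq_add_neg, Real.exp_add, mul_comm (z : ℝ), Real.exp_mul, Real.exp_log (by norm_num)]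
      norm_num
    rw [← mul_pow, h8, ← Real.exp_nat_mul]
    congr 1
    ring
  rw [h7]
  have hc0 : (0 : ℝ) ≤ Fintype.card (Fin z → V n) := by positivity
  calc ((Finset.univ.filter (fun f : Fin r → (Fin z → ZMod 2) =>
        LinearIndependent (ZMod 2) f)).card : ℝ) *
        ((Fintype.card (Fin z → V n) : ℝ) * Real.exp (-x) ^ r)
      ≤ ((2 : ℝ) ^ z) ^ r * ((Fintype.card (Fin z → V n) : ℝ) * Real.exp (-x) ^ r) := by gcongr
    _ = ((2 : ℝ) ^ z) ^ r * Real.exp (-x) ^ r * (Fintype.card (Fin z → V n) : ℝ) := by ring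

end Many

end Pool.Agent.NJ
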