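import Pool.Agent.NJ.Defs84

set_option autoImplicit false

namespace Pool.Agent.CutSeq.NJ

open Finset

variable {B L : ℕ}

theorem SameW.refl (a n : ℕ) (ω : Wd B L) : SameW a n ω ω := fun _ _ => rfl

theorem SameW.symm {a n : ℕ} {ω ω' : Wd B L} (h : SameW a n ω ω') : SameW a n ω' ω :=
  fun i hi => (h i hi).symm

theorem SameW.trans {a n : ℕ} {ω ω' ω'' : Wd B L} (h : SameW a n ω ω') (h' : SameW a n ω' ω'') :
    SameW a n ω ω'' := fun i hi => (h i hi).trans (h' i hi)

theorem mskW_inner {a n : ℕ} {p : ℕ × ZMod 2} (h : a ≤ p.1 ∧ p.1 + 1 < a + n) :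
    mskW a n p = some p := by
  unfold mskW
  rw [if_pos h]

theorem mskW_bdry {a n : ℕ} {p : ℕ × ZMod 2} (h : p.1 + 1 = a ∨ p.1 + 1 = a + n) :
    mskW a n p = some (p.1, 0) := by
  unfold mskW
  rw [if_neg (by omega), if_pos h]

theorem mskW_outer {a n : ℕ} {p : ℕ × ZMod 2} (h : p.1 + 1 < a ∨ a + n < p.1 + 1) :
    mskW a n p = none := by
  unfold mskW
  rw [if_neg (by omega), if_neg (by omega)]

theorem mskW_bind {a n a' n' : ℕ} (ha : a ≤ a') (hn : a' + n' ≤ a + n) (p : ℕ × ZMod 2) :
    (mskW a n p).bind (mskW a' n') = mskW a' n' p := by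
  by_cases h1 : a ≤ p.1 ∧ p.1 + 1 < a + n
  · rw [mskW_inner h1, Option.bind_some]
  · by_cases h2 : p.1 + 1 = a ∨ p.1 + 1 = a + n
    · rw [mskW_bdry h2, Option.bind_some]
      by_cases h3 : p.1 + 1 = a' ∨ p.1 + 1 = a' + n'
      · rw [mskW_bdry h3, mskW_bdry (a := a') (n := n') (p := (p.1, 0)) h3]
      · rw [mskW_outer (p := p) (by omega), mskW_outer (p := (p.1, 0)) (by simp only; omega)]
    · rw [mskW_outer (by omega), Option.bind_none, mskW_outer (by omega)]

/-- smaller windows see less -/
theorem SameW.mono {a n a' n' : ℕ} {ω ω' : Wd B L} (h : SameW a n ω ω') (ha : a ≤ a')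
    (hn : a' + n' ≤ a + n) : SameW a' n' ω ω' := by
  intro i hi
  rw [← mskW_bind ha hn, h i hi, mskW_bind ha hn]

/-- inner letters are determined -/
theorem eq_of_mskW {a n : ℕ} {p q : ℕ × ZMod 2} (h : mskW a n p = mskW a n q)
    (hp : a ≤ p.1 ∧ p.1 + 1 < a + n) : p = q := by
  rw [mskW_inner hp] at h
  by_cases h1 : a ≤ q.1 ∧ q.1 + 1 < a + n
  · rw [mskW_inner h1] at h
    exact Option.some.inj h
  · by_cases h2 : q.1 + 1 = a ∨ q.1 + 1 = a + n
    · rw [mskW_bdry h2] at h
      have h3 := Option.some.inj h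
      have h4 : p.1 = q.1 := by rw [h3]
      omega
    · rw [mskW_outer (p := q) (by omega)] at h
      cases h

/-- rings of the bonds of the window are determined -/
theorem bond_of_mskW {a n : ℕ} {p q : ℕ × ZMod 2} (h : mskW a n p = mskW a n q)
    (hp : a ≤ p.1 + 1 ∧ p.1 + 1 ≤ a + n) : p.1 = q.1 := by
  by_cases h1 : a ≤ p.1 ∧ p.1 + 1 < a + n
  · rw [eq_of_mskW h h1]
  · have h2 : p.1 + 1 = a ∨ p.1 + 1 = a + n := by omega
    rw [mskW_bdry h2] at h
    by_cases h3 : a ≤ q.1 ∧ q.1 + 1 < a + n
    · rw [mskW_inner h3] at h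
      rw [← Option.some.inj h]
    · by_cases h4 : q.1 + 1 = a ∨ q.1 + 1 = a + n
      · rw [mskW_bdry h4] at h
        exact (Prod.mk.inj (Option.some.inj h)).1
      · rw [mskW_outer (p := q) (by omega)] at h
        cases h

/-- windows starting at the bottom are the levels of the landed model -/
theorem sameW_zero_iff (n : ℕ) (ω ω' : Wd B L) : SameW 0 n ω ω' ↔ Same n L ω ω' := by
  refine forall_congr' fun i => forall_congr' fun _ => ?_
  generalize ext ω i = p
  generalize ext ω' i = q
  constructor
  · intro h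
    by_cases h1 : p.1 + 1 < n
    · rw [eq_of_mskW h (by omega)]
    · by_cases h2 : p.1 + 1 = n
      · have h3 := bond_of_mskW h (by omega)
        unfold msk
        rw [if_neg h1, if_neg (by omega), h3]
      · have h3 : n ≤ q.1 := by
          by_contra hcon
          have := bond_of_mskW h.symm (by omega)
          omega
        unfold msk
        rw [if_neg h1, if_neg (by omega)]
        have : min p.1 n = min q.1 n := by omega
        rw [this]
  · intro h
    by_cases h1 : p.1 + 1 < n
    · rw [msk_eq_of_lt h h1]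
    · by_cases h2 : p.1 + 1 = n
      · have h3 := ring_of_msk h h2
        rw [mskW_bdry (by omega), mskW_bdry (by omega)]
        have : p.1 = q.1 := by omega
        rw [this]
      · have h3 : ¬ q.1 + 1 < n := by
          intro hcon
          rw [← msk_eq_of_lt h.symm hcon] at h1
          exact h1 hcon
        have h4 : ¬ q.1 + 1 = n := by
          intro hcon
          exact h2 (ring_of_msk h.symm hcon)
        rw [mskW_outer (by omega), mskW_outer (by omega)]

theorem wm_zero (α : Seq) (n : ℕ) : wm α L 0 n = mm α L n := by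
  funext k j
  show Mst α L (0 + k.val) (0 + j.val) = Mst α L k.val j.val
  rw [Nat.zero_add, Nat.zero_add]

theorem TR_zero (α : Seq) (n : ℕ) : TR α L 0 n = TT α L n := by
  unfold TR TT
  congr 1
  ext x
  refine exists_congr fun i => and_congr_right fun _ => ?_
  rw [Nat.zero_add]
  refine and_congr_right fun _ => ?_
  have : lowW α i 0 n = low α i n := by
    funext j
    show Mst α i (0 + n - 1) (0 + j.val) = Mst α i (n - 1) j.val
    rw [Nat.zero_add, Nat.zero_add]
  rw [this]

/-- the entries of the window only depend on the masked letters -/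
theorem Mst_congrW {α β : Seq} {a n l : ℕ} (h : ∀ i < l, mskW a n (α i) = mskW a n (β i)) :
    ∀ k < n, ∀ j, Mst α l (a + k) (a + j) = Mst β l (a + k) (a + j) := by
  induction l with
  | zero => intro k _ j; rfl
  | succ l ih =>
    have ih' := ih fun i hi => h i (by omega)
    intro k hk j
    have hl := h l (by omega)
    simp only [Mst]
    rw [ih' k hk j]
    congr 1
    by_cases h1 : a + k = (α l).1 + 1
    · have hb : (α l).1 = (β l).1 := bond_of_mskW hl (by omega)
      by_cases hk0 : k = 0
      · rw [if_pos h1, if_pos (by omega), Mst_upper α l (α l).1 (a + j) (by omega),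
          Mst_upper β l (β l).1 (a + j) (by omega), mul_zero, mul_zero]
      · have h2 : α l = β l := eq_of_mskW hl (by omega)
        rw [← h2, if_pos h1, if_pos h1]
        have h3 : (α l).1 = a + (k - 1) := by omega
        rw [h3, ih' (k - 1) (by omega) j]
    · by_cases h3 : a + k = (β l).1 + 1
      · have hb : (β l).1 = (α l).1 := bond_of_mskW hl.symm (by omega)
        omega
      · rw [if_neg h1, if_neg h3]

theorem SameW.wm_eq {a n : ℕ} {ω ω' : Wd B L} (h : SameW a n ω ω') :
    wm (ext ω) L a n = wm (ext ω') L a n := by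
  funext k j
  exact Mst_congrW h k.val k.isLt j.val

theorem TR_congrW {α β : Seq} {a n : ℕ} (h : ∀ i < L, mskW a n (α i) = mskW a n (β i)) :
    TR α L a n ≤ TR β L a n := by
  refine Submodule.span_mono ?_
  rintro x ⟨i, hi, h1, rfl⟩
  have hb := bond_of_mskW (h i hi) (by omega)
  refine ⟨i, hi, by omega, ?_⟩
  funext j
  show Mst α i (a + n - 1) (a + j.val) = Mst β i (a + n - 1) (a + j.val)
  have hj := j.isLt
  have e : a + n - 1 = a + (n - 1) := by omega
  rw [e]
  exact Mst_congrW (fun i' hi' => h i' (by omega)) (n - 1) (by omega) j.val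

theorem SameW.TR_eq {a n : ℕ} {ω ω' : Wd B L} (h : SameW a n ω ω') :
    TR (ext ω) L a n = TR (ext ω') L a n :=
  le_antisymm (TR_congrW h) (TR_congrW fun i hi => (h i hi).symm)

theorem TC_congrW {α β : Seq} {a n : ℕ} (h : ∀ i < L, mskW a n (α i) = mskW a n (β i)) :
    TC α L a n ≤ TC β L a n := by
  refine Submodule.span_mono ?_
  rintro x ⟨i, hi, h1, rfl⟩
  have hb := bond_of_mskW (h i hi) (by omega)
  refine ⟨i, hi, by omega, ?_⟩
  funext k
  have := Mst_congrW (α := shift α (i + 1)) (β := shift β (i + 1)) (a := a) (n := n)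
    (l := L - (i + 1)) (fun i' hi' => h (i + 1 + i') (by omega)) k.val k.isLt 0
  exact this

theorem SameW.TC_eq {a n : ℕ} {ω ω' : Wd B L} (h : SameW a n ω ω') :
    TC (ext ω) L a n = TC (ext ω') L a n :=
  le_antisymm (TC_congrW h) (TC_congrW fun i hi => (h i hi).symm)


/-! #### B. flips of the coins of one bond -/

/-- letters of the flipped word -/
theorem ext_flip (m : ℕ) (c : Fin L → ZMod 2) (ω : Wd B L) (i : ℕ) :
    ext (flipW m L c ω) i = ((ext ω i).1, if (ext ω i).1 + 1 = m then
      (ext ω i).2 + (if h : i < L then c ⟨i, h⟩ else 0) else (ext ω i).2) := by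
  by_cases hi : i < L
  · exact ext_flipW m L le_rfl c ω i hi
  · unfold ext
    simp [hi]

/-- the history of a window does not see the coins of its boundary bonds and of the bonds outside -/
theorem sameW_flip (a n m : ℕ) (hm : m ≤ a ∨ a + n ≤ m) (c : Fin L → ZMod 2) (ω : Wd B L) :
    SameW a n (flipW m L c ω) ω := by
  intro i _
  rw [ext_flip]
  generalize ext ω i = p
  obtain ⟨b, ξ⟩ := p
  simp only
  by_cases h1 : b + 1 = m
  · rw [if_pos h1]
    by_cases h2 : b + 1 = a ∨ b + 1 = a + n
    · rw [mskW_bdry (p := (b, _)) h2, mskW_bdry (p := (b, _)) h2]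
    · rw [mskW_outer (p := (b, _)) (by simp only; omega), mskW_outer (p := (b, _)) (by simp only; omega)]
  · rw [if_neg h1]

theorem MeasW.flipInv {C : Type*} {a n m : ℕ} {f : Wd B L → C} (h : MeasW a n f)
    (hm : m ≤ a ∨ a + n ≤ m) : FlipInv m f := fun c ω => h _ _ (sameW_flip a n m hm c ω)

/-- rows below level `m` do not depend on the coins of the bond `m - 1` -/
theorem Mst_flip_lt (m k j : ℕ) (hk : k < m) (l : ℕ) (c : Fin L → ZMod 2) (ω : Wd B L) :
    Mst (ext (flipW m L c ω)) l k j = Mst (ext ω) l k j := by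
  induction l generalizing k with
  | zero => rfl
  | succ l ih =>
    simp only [Mst]
    rw [ih k hk, ext_flip]
    simp only
    congr 1
    by_cases h1 : k = (ext ω l).1 + 1
    · rw [if_pos h1, if_pos h1, if_neg (by omega), ih (ext ω l).1 (by omega)]
    · rw [if_neg h1, if_neg h1]

/-- columns from `m` on do not depend on the coins of the bond `m - 1` -/
theorem Mst_flip_ge (m k j : ℕ) (hj : m ≤ j) (l s : ℕ) (c : Fin L → ZMod 2) (ω : Wd B L) :
    Mst (shift (ext (flipW m L c ω)) l) s k j = Mst (shift (ext ω) l) s k j := by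
  induction s generalizing k with
  | zero => rfl
  | succ s ih =>
    simp only [Mst]
    rw [ih k]
    have e : ∀ α : Seq, shift α l s = α (l + s) := fun _ => rfl
    rw [e, e, ext_flip]
    simp only
    congr 1
    by_cases h1 : k = (ext ω (l + s)).1 + 1
    · rw [if_pos h1, if_pos h1, ih]
      by_cases h2 : (ext ω (l + s)).1 + 1 = m
      · rw [Mst_upper (shift (ext ω) l) s (ext ω (l + s)).1 j (by omega), mul_zero, mul_zero]
      · rw [if_neg h2]
    · rw [if_neg h1, if_neg h1]

theorem FlipInv.comp {C D : Type*} {m : ℕ} {f : Wd B L → C} (h : FlipInv m f) (g : C → D) :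
    FlipInv m (fun ω => g (f ω)) := fun c ω => by
  show g (f (flipW m L c ω)) = g (f ω)
  rw [h c ω]

theorem FlipInv.prod {C D : Type*} {m : ℕ} {f : Wd B L → C} {g : Wd B L → D} (h : FlipInv m f)
    (h' : FlipInv m g) : FlipInv m (fun ω => (f ω, g ω)) := fun c ω => by
  show (f (flipW m L c ω), g (flipW m L c ω)) = (f ω, g ω)
  rw [h c ω, h' c ω]

/-! #### C. true rows and columns -/

/-- the true row as a sum over the rings -/
theorem rowW_eq_sum (α : Seq) (a n : ℕ) : rowW α L a n (a + n) =
    ∑ i ∈ range L, if (α i).1 + 1 = a + n then (α i).2 • lowW α i a n else 0 := by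
  induction L with
  | zero =>
    funext j
    show (if a + n = a + j.val then (1 : ZMod 2) else 0) = _
    rw [if_neg (by have := j.isLt; omega), range_zero, sum_empty]
    rfl
  | succ l ih =>
    rw [sum_range_succ, ← ih]
    funext j
    simp only [rowW, Mst, Pi.add_apply]
    congr 1
    by_cases h : (α l).1 + 1 = a + n
    · rw [if_pos h, if_pos h.symm]
      simp only [Pi.smul_apply, smul_eq_mul, lowW]
      rw [show (α l).1 = a + n - 1 by omega]
    · rw [if_neg h, if_neg (fun h' => h h'.symm)]
      rfl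

theorem shift_add84 (α : Seq) (l s : ℕ) : shift (shift α l) s = shift α (l + s) := by
  funext i
  show α (l + (s + i)) = α (l + s + i)
  rw [Nat.add_assoc]

/-- the first letter split off -/
theorem Mst_first84 (α : Seq) (s k j : ℕ) : Mst α (s + 1) k j =
    Mst (shift α 1) s k j + if j = (α 0).1 then (α 0).2 * Mst (shift α 1) s k ((α 0).1 + 1) else 0 := by
  induction s generalizing k with
  | zero =>
    simp only [Mst]
    congr 1
    by_cases h1 : k = (α 0).1 + 1
    · by_cases h2 : j = (α 0).1
      · rw [if_pos h1, if_pos h2, if_pos h1, if_pos h2.symm]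
      · rw [if_pos h1, if_neg h2, if_neg (fun h => h2 h.symm), mul_zero]
    · rw [if_neg h1, if_neg h1]
      simp
  | succ s ih =>
    have e : Mst α (s + 1 + 1) k j = Mst α (s + 1) k j +
        if k = (α (s + 1)).1 + 1 then (α (s + 1)).2 * Mst α (s + 1) (α (s + 1)).1 j else 0 := rfl
    have e2 : ∀ k' j', Mst (shift α 1) (s + 1) k' j' = Mst (shift α 1) s k' j' +
        if k' = (α (s + 1)).1 + 1 then (α (s + 1)).2 * Mst (shift α 1) s (α (s + 1)).1 j' else 0 := by
      intro k' j'
      have : shift α 1 s = α (s + 1) := by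
        show α (1 + s) = α (s + 1)
        rw [Nat.add_comm]
      rw [← this]
      rfl
    rw [e, ih k, ih (α (s + 1)).1, e2, e2]
    by_cases h1 : k = (α (s + 1)).1 + 1
    · by_cases h2 : j = (α 0).1
      · simp only [if_pos h1, if_pos h2]
        ring
      · simp only [if_pos h1, if_neg h2]
        ring
    · simp only [if_neg h1, add_zero]

/-- the true column as a sum over the rings -/
theorem colW_eq_sum (α : Seq) (a n : ℕ) (ha : 1 ≤ a) : colW α L a n (a - 1) =
    ∑ i ∈ range L, if (α i).1 + 1 = a then (α i).2 • colV α L i a n else 0 := by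
  induction L generalizing α with
  | zero =>
    funext k
    show (if a + k.val = a - 1 then (1 : ZMod 2) else 0) = _
    rw [if_neg (by omega), range_zero, sum_empty]
    rfl
  | succ l ih =>
    rw [sum_range_succ']
    have h1 := ih (shift α 1)
    funext k
    show Mst α (l + 1) (a + k.val) (a - 1) = _
    rw [Mst_first84]
    have h2 : Mst (shift α 1) l (a + k.val) (a - 1) =
      (∑ i ∈ range l, if (shift α 1 i).1 + 1 = a then (shift α 1 i).2 • colV (shift α 1) l i a n
        else 0) k := congrFun h1 k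
    rw [h2, Pi.add_apply]
    congr 1
    · refine congrArg (fun f : V n => f k) (Finset.sum_congr rfl fun i _ => ?_)
      have e1 : shift α 1 i = α (i + 1) := by
        show α (1 + i) = α (i + 1)
        rw [Nat.add_comm]
      have e2 : colV (shift α 1) l i a n = colV α (l + 1) (i + 1) a n := by
        funext k'
        show Mst (shift (shift α 1) (i + 1)) (l - (i + 1)) (a + k'.val) a =
          Mst (shift α (i + 1 + 1)) (l + 1 - (i + 1 + 1)) (a + k'.val) a
        rw [shift_add84, show 1 + (i + 1) = i + 1 + 1 by ring,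
          show l + 1 - (i + 1 + 1) = l - (i + 1) by omega]
      rw [e1, e2]
    · by_cases h3 : (α 0).1 + 1 = a
      · rw [if_pos h3, if_pos (by omega)]
        show _ = (α 0).2 * Mst (shift α (0 + 1)) (l + 1 - (0 + 1)) (a + k.val) a
        rw [h3, show l + 1 - (0 + 1) = l by omega]
      · rw [if_neg h3, if_neg (by omega)]
        rfl


/-- counting the solutions of a linear equation -/
theorem count_lin {n : ℕ} (Λ : (Fin L → ZMod 2) →ₗ[ZMod 2] V n) (a x : V n)
    (ha : a ∈ LinearMap.range Λ) :
    ∑ c : Fin L → ZMod 2, (if a + Λ c = x then (1 : ℝ) else 0)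
      = (Fintype.card (Fin L → ZMod 2) : ℝ) * uT (LinearMap.range Λ) x := by
  classical
  unfold uT
  by_cases hx : x ∈ LinearMap.range Λ
  · rw [if_pos hx]
    have h1 : x - a ∈ LinearMap.range Λ := Submodule.sub_mem _ hx ha
    obtain ⟨c0, hc0⟩ := h1
    have h2 : ∀ c, (a + Λ c = x ↔ c - c0 ∈ LinearMap.ker Λ) := by
      intro c
      rw [LinearMap.mem_ker, map_sub, hc0]
      constructor
      · intro h; rw [← h]; abel
      · intro h
        have : Λ c = x - a := by rw [← sub_eq_zero]; exact h
        rw [this]; abel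
    have h3 : ∑ c : Fin L → ZMod 2, (if a + Λ c = x then (1 : ℝ) else 0)
        = ∑ c : Fin L → ZMod 2, (if c ∈ LinearMap.ker Λ then (1 : ℝ) else 0) := by
      rw [← Equiv.sum_comp (Equiv.subRight c0)
        (fun c => if c ∈ LinearMap.ker Λ then (1 : ℝ) else 0)]
      refine Finset.sum_congr rfl fun c _ => ?_
      simp only [Equiv.subRight_apply, h2 c]
    rw [h3, Finset.sum_boole]
    have h4 : ((univ.filter fun c => c ∈ LinearMap.ker Λ).card : ℝ)
        = (Nat.card (LinearMap.ker Λ) : ℝ) := by
      rw [Nat.card_eq_fintype_card, Fintype.card_subtype]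
    rw [h4]
    have h5 : Nat.card (Fin L → ZMod 2) =
        Nat.card (LinearMap.range Λ) * Nat.card (LinearMap.ker Λ) := by
      rw [Submodule.card_eq_card_quotient_mul_card (LinearMap.ker Λ)]
      rw [Nat.card_congr (LinearMap.quotKerEquivRange Λ).toEquiv]
      ring
    have h6 : (Fintype.card (Fin L → ZMod 2) : ℝ)
        = (Nat.card (LinearMap.range Λ) : ℝ) * (Nat.card (LinearMap.ker Λ) : ℝ) := by
      rw [← Nat.card_eq_fintype_card, h5]
      push_cast
      ring
    rw [h6]
    have h7 : (Nat.card (LinearMap.range Λ) : ℝ) ≠ 0 := by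
      have : 0 < Nat.card (LinearMap.range Λ) := Nat.card_pos
      exact_mod_cast this.ne'
    field_simp
  · rw [if_neg hx, mul_zero]
    refine Finset.sum_eq_zero fun c _ => ?_
    rw [if_neg]
    intro h
    apply hx
    rw [← h]
    exact Submodule.add_mem _ ha (LinearMap.mem_range_self Λ c)

/-- a vector which is linear in the coins of one bond is uniform on the span of its coefficients -/
theorem coin_uniform {n : ℕ} (m : ℕ) (f : Wd B L → ℝ) (hf : FlipInv m f)
    (Λ : Wd B L → (Fin L → ZMod 2) →ₗ[ZMod 2] V n) (Z : Wd B L → V n)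
    (hZ : ∀ c ω, Z (flipW m L c ω) = Z ω + Λ ω c) (hZ' : ∀ ω, Z ω ∈ LinearMap.range (Λ ω))
    (x : V n) :
    ∑ ω, f ω * (if Z ω = x then 1 else 0) = ∑ ω, f ω * uT (LinearMap.range (Λ ω)) x := by
  classical
  set C : ℝ := (Fintype.card (Fin L → ZMod 2) : ℝ) with hC
  have hC0 : C ≠ 0 := by
    have : 0 < Fintype.card (Fin L → ZMod 2) := Fintype.card_pos
    rw [hC]
    exact_mod_cast this.ne'
  have h1 : ∀ c : Fin L → ZMod 2, ∑ ω, f ω * (if Z ω = x then (1 : ℝ) else 0)
      = ∑ ω, f ω * (if Z ω + Λ ω c = x then (1 : ℝ) else 0) := by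
    intro c
    have h0 : Function.Bijective (flipW (B := B) m L c) :=
      Function.Involutive.bijective (fun ω => flipW_flipW m L c ω)
    have h2 := Function.Bijective.sum_comp h0 (fun ω => f ω * (if Z ω = x then (1 : ℝ) else 0))
    rw [← h2]
    refine Finset.sum_congr rfl fun ω _ => ?_
    rw [hZ c ω, hf c ω]
  have h3 : C * ∑ ω, f ω * (if Z ω = x then (1 : ℝ) else 0)
      = C * ∑ ω, f ω * uT (LinearMap.range (Λ ω)) x := by
    have h4 : C * ∑ ω, f ω * (if Z ω = x then (1 : ℝ) else 0)
        = ∑ c : Fin L → ZMod 2, ∑ ω : Wd B L,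
          f ω * (if Z ω + Λ ω c = x then (1 : ℝ) else 0) := by
      rw [← Finset.sum_congr rfl fun c _ => h1 c]
      rw [Finset.sum_const, nsmul_eq_mul, Finset.card_univ]
    rw [h4, Finset.sum_comm, Finset.mul_sum]
    refine Finset.sum_congr rfl fun ω _ => ?_
    rw [← Finset.mul_sum, count_lin _ _ _ (hZ' ω)]
    ring
  exact mul_left_cancel₀ hC0 h3

/-- the linear map of the coins of the bond `m - 1` with coefficients `v` -/
noncomputable def coinL {n : ℕ} (α : Seq) (L m : ℕ) (v : ℕ → V n) : (Fin L → ZMod 2) →ₗ[ZMod 2] V n :=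
  Fintype.linearCombination (ZMod 2) (fun i : Fin L => if (α i.val).1 + 1 = m then v i.val else 0)

theorem coinL_apply {n : ℕ} (α : Seq) (m : ℕ) (v : ℕ → V n) (c : Fin L → ZMod 2) :
    coinL α L m v c = ∑ i ∈ range L, if (α i).1 + 1 = m then
      (if h : i < L then c ⟨i, h⟩ else 0) • v i else 0 := by
  classical
  unfold coinL
  rw [Fintype.linearCombination_apply]
  rw [← Fin.sum_univ_eq_sum_range (fun i : ℕ => if (α i).1 + 1 = m then
      (if h : i < L then c ⟨i, h⟩ else 0) • v i else 0) L]
  refine Finset.sum_congr rfl fun i _ => ?_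
  simp only [i.isLt, dif_pos, Fin.eta]
  by_cases h : (α i.val).1 + 1 = m
  · rw [if_pos h, if_pos h]
  · rw [if_neg h, if_neg h, smul_zero]

theorem range_coinL {n : ℕ} (α : Seq) (m : ℕ) (v : ℕ → V n) :
    LinearMap.range (coinL α L m v) =
      Submodule.span (ZMod 2) {x | ∃ i < L, (α i).1 + 1 = m ∧ x = v i} := by
  unfold coinL
  rw [Fintype.range_linearCombination]
  apply le_antisymm
  · rw [Submodule.span_le]
    rintro x ⟨i, rfl⟩
    simp only
    split
    · rename_i h
      exact Submodule.subset_span ⟨i.val, i.isLt, h, rfl⟩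
    · exact Submodule.zero_mem _
  · refine Submodule.span_mono ?_
    rintro x ⟨i, hi, h1, rfl⟩
    refine ⟨⟨i, hi⟩, ?_⟩
    simp only
    rw [if_pos h1]

theorem sum_coins_mem {n : ℕ} (α : Seq) (m : ℕ) (v : ℕ → V n) :
    (∑ i ∈ range L, if (α i).1 + 1 = m then (α i).2 • v i else 0) ∈
      LinearMap.range (coinL α L m v) := by
  rw [range_coinL]
  refine Submodule.sum_mem _ fun i hi => ?_
  split_ifs with h
  · exact Submodule.smul_mem _ _ (Submodule.subset_span ⟨i, mem_range.1 hi, h, rfl⟩)
  · exact Submodule.zero_mem _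

/-- the sum over the rings of the flipped word -/
theorem sum_coins_flip {n : ℕ} (m : ℕ) (v : Wd B L → ℕ → V n)
    (hv : ∀ i < L, FlipInv m (fun ω => v ω i)) (c : Fin L → ZMod 2) (ω : Wd B L) :
    (∑ i ∈ range L, if (ext (flipW m L c ω) i).1 + 1 = m then
        (ext (flipW m L c ω) i).2 • v (flipW m L c ω) i else 0)
      = (∑ i ∈ range L, if (ext ω i).1 + 1 = m then (ext ω i).2 • v ω i else 0)
        + coinL (ext ω) L m (v ω) c := by
  rw [coinL_apply, ← sum_add_distrib]
  refine Finset.sum_congr rfl fun i hi => ?_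
  rw [mem_range] at hi
  have h1 : v (flipW m L c ω) i = v ω i := hv i hi c ω
  rw [h1, ext_flip]
  simp only
  by_cases h : (ext ω i).1 + 1 = m
  · rw [if_pos h, if_pos h, if_pos h, if_pos h, add_smul]
  · rw [if_neg h, if_neg h, if_neg h, add_zero]

theorem lowW_flipInv (a n m i : ℕ) (hm : m ≤ a ∨ a + n ≤ m) (hn : 1 ≤ n) :
    FlipInv m (fun ω : Wd B L => lowW (ext ω) i a n) := by
  intro c ω
  funext j
  show Mst (ext (flipW m L c ω)) i (a + n - 1) (a + j.val) = Mst (ext ω) i (a + n - 1) (a + j.val)
  rcases hm with hm | hm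
  · have h := Mst_flip_ge (B := B) (L := L) m (a + n - 1) (a + j.val) (by omega) 0 i c ω
    have e : ∀ α : Seq, shift α 0 = α := by
      intro α
      funext i
      show α (0 + i) = α i
      rw [Nat.zero_add]
    rw [e, e] at h
    exact h
  · exact Mst_flip_lt (B := B) (L := L) m (a + n - 1) (a + j.val) (by omega) i c ω

theorem Mst_shift_flip_lt (m k j : ℕ) (hk : k < m) (l s : ℕ) (c : Fin L → ZMod 2) (ω : Wd B L) :
    Mst (shift (ext (flipW m L c ω)) l) s k j = Mst (shift (ext ω) l) s k j := by
  induction s generalizing k with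
  | zero => rfl
  | succ s ih =>
    simp only [Mst]
    rw [ih k hk]
    have e : ∀ α : Seq, shift α l s = α (l + s) := fun _ => rfl
    rw [e, e, ext_flip]
    simp only
    congr 1
    by_cases h1 : k = (ext ω (l + s)).1 + 1
    · rw [if_pos h1, if_pos h1, if_neg (by omega), ih (ext ω (l + s)).1 (by omega)]
    · rw [if_neg h1, if_neg h1]

theorem colV_flipInv (a n m i : ℕ) (hm : m ≤ a ∨ a + n ≤ m) :
    FlipInv m (fun ω : Wd B L => colV (ext ω) L i a n) := by
  intro c ω
  funext k
  show Mst (shift (ext (flipW m L c ω)) (i + 1)) (L - (i + 1)) (a + k.val) a =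
    Mst (shift (ext ω) (i + 1)) (L - (i + 1)) (a + k.val) a
  rcases hm with hm | hm
  · exact Mst_flip_ge m _ a hm _ _ c ω
  · exact Mst_shift_flip_lt m _ a (by have := k.isLt; omega) _ _ c ω

theorem TR_eq_range (α : Seq) (a n : ℕ) :
    TR α L a n = LinearMap.range (coinL α L (a + n) (fun i => lowW α i a n)) :=
  (range_coinL α (a + n) _).symm

theorem TC_eq_range (α : Seq) (a n : ℕ) :
    TC α L a n = LinearMap.range (coinL α L a (fun i => colV α L i a n)) :=
  (range_coinL α a _).symm

theorem TR_flipInv (a n m : ℕ) (hm : m ≤ a ∨ a + n ≤ m) :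
    FlipInv m (fun ω : Wd B L => TR (ext ω) L a n) := fun c ω => (sameW_flip a n m hm c ω).TR_eq

theorem TC_flipInv (a n m : ℕ) (hm : m ≤ a ∨ a + n ≤ m) :
    FlipInv m (fun ω : Wd B L => TC (ext ω) L a n) := fun c ω => (sameW_flip a n m hm c ω).TC_eq

/-- the true column does not depend on the coins of the upper boundary bond -/
theorem colW_flipInv (a n m j : ℕ) (hm : a + n ≤ m) :
    FlipInv m (fun ω : Wd B L => colW (ext ω) L a n j) := by
  intro c ω
  funext k
  exact Mst_flip_lt m (a + k.val) j (by have := k.isLt; omega) L c ω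

/-- the true row does not depend on the coins of the lower boundary bond -/
theorem rowW_flipInv (a n m i : ℕ) (hm : m ≤ a) :
    FlipInv m (fun ω : Wd B L => rowW (ext ω) L a n i) := by
  intro c ω
  funext j
  have h := Mst_flip_ge (B := B) (L := L) m i (a + j.val) (by omega) 0 L c ω
  have e : ∀ α : Seq, shift α 0 = α := by
    intro α
    funext i
    show α (0 + i) = α i
    rw [Nat.zero_add]
  rw [e, e] at h
  exact h

/-- (U-row) -/
theorem rowW_uniform (a n : ℕ) (f : Wd B L → ℝ) (hf : FlipInv (a + n) f) (x : V n) :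
    ∑ ω, f ω * (if rowW (ext ω) L a n (a + n) = x then 1 else 0)
      = ∑ ω, f ω * uT (TR (ext ω) L a n) x := by
  have h := coin_uniform (B := B) (L := L) (a + n) f hf
    (fun ω => coinL (ext ω) L (a + n) (fun i => lowW (ext ω) i a n))
    (fun ω => rowW (ext ω) L a n (a + n)) (by
      intro c ω
      rw [rowW_eq_sum, rowW_eq_sum]
      rcases Nat.eq_zero_or_pos n with h0 | h0
      · subst h0
        exact Subsingleton.elim _ _
      · exact sum_coins_flip (a + n) (fun ω i => lowW (ext ω) i a n)
          (fun i _ => lowW_flipInv a n (a + n) i (Or.inr le_rfl) h0) c ω) (by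
      intro ω
      rw [rowW_eq_sum]
      exact sum_coins_mem _ _ _) x
  simp only [← TR_eq_range] at h
  exact h

/-- (U-col) -/
theorem colW_uniform (a n : ℕ) (ha : 1 ≤ a) (f : Wd B L → ℝ) (hf : FlipInv a f) (x : V n) :
    ∑ ω, f ω * (if colW (ext ω) L a n (a - 1) = x then 1 else 0)
      = ∑ ω, f ω * uT (TC (ext ω) L a n) x := by
  have h := coin_uniform (B := B) (L := L) a f hf
    (fun ω => coinL (ext ω) L a (fun i => colV (ext ω) L i a n))
    (fun ω => colW (ext ω) L a n (a - 1)) (by
      intro c ω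
      rw [colW_eq_sum _ _ _ ha, colW_eq_sum _ _ _ ha]
      exact sum_coins_flip a (fun ω i => colV (ext ω) L i a n)
          (fun i _ => colV_flipInv a n a i (Or.inl le_rfl)) c ω) (by
      intro ω
      rw [colW_eq_sum _ _ _ ha]
      exact sum_coins_mem _ _ _) x
  simp only [← TC_eq_range] at h
  exact h

/-- (U-both) -/
theorem both_uniform (a n : ℕ) (ha : 1 ≤ a) (f : Wd B L → ℝ) (hf : FlipInv (a + n) f)
    (hf' : FlipInv a f) (x y : V n) :
    ∑ ω, f ω * ((if rowW (ext ω) L a n (a + n) = x then 1 else 0)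
        * (if colW (ext ω) L a n (a - 1) = y then 1 else 0))
      = ∑ ω, f ω * (uT (TR (ext ω) L a n) x * uT (TC (ext ω) L a n) y) := by
  classical
  have h1 := rowW_uniform (B := B) (L := L) a n
    (fun ω => f ω * (if colW (ext ω) L a n (a - 1) = y then 1 else 0)) (by
      intro c ω
      have e : colW (ext (flipW (a + n) L c ω)) L a n (a - 1) = colW (ext ω) L a n (a - 1) :=
        colW_flipInv (B := B) a n (a + n) (a - 1) le_rfl c ω
      simp only [hf c ω, e]) x
  have h2 := colW_uniform (B := B) (L := L) a n ha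
    (fun ω => f ω * uT (TR (ext ω) L a n) x) (by
      intro c ω
      have e : TR (ext (flipW a L c ω)) L a n = TR (ext ω) L a n :=
        TR_flipInv (B := B) a n a (Or.inl le_rfl) c ω
      simp only [hf' c ω, e]) y
  calc ∑ ω, f ω * ((if rowW (ext ω) L a n (a + n) = x then 1 else 0)
        * (if colW (ext ω) L a n (a - 1) = y then 1 else 0))
      = ∑ ω, (f ω * (if colW (ext ω) L a n (a - 1) = y then 1 else 0)) *
          (if rowW (ext ω) L a n (a + n) = x then 1 else 0) :=
        Finset.sum_congr rfl fun ω _ => by ring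
    _ = ∑ ω, (f ω * uT (TR (ext ω) L a n) x) *
          (if colW (ext ω) L a n (a - 1) = y then 1 else 0) := by
        rw [h1]
        exact Finset.sum_congr rfl fun ω _ => by ring
    _ = _ := by
        rw [h2]
        exact Finset.sum_congr rfl fun ω _ => by ring


theorem TR_mono_time (α : Seq) (a n : ℕ) {l l' : ℕ} (h : l ≤ l') : TR α l a n ≤ TR α l' a n := by
  refine Submodule.span_mono ?_
  rintro x ⟨i, hi, h1, h2⟩
  exact ⟨i, lt_of_lt_of_le hi h, h1, h2⟩

/-- rows above the window lie in the row space -/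
theorem rowW_mem (α : Seq) (a n i : ℕ) (h : a + n ≤ i) : rowW α L a n i ∈ TR α L a n := by
  induction L generalizing i with
  | zero =>
    have e : rowW α 0 a n i = 0 := by
      funext j
      show (if i = a + j.val then (1 : ZMod 2) else 0) = 0
      rw [if_neg (by have := j.isLt; omega)]
    rw [e]
    exact Submodule.zero_mem _
  | succ l ih =>
    by_cases h1 : i = (α l).1 + 1
    · have e : rowW α (l + 1) a n i = rowW α l a n i +
          (α l).2 • (fun j : Fin n => Mst α l (α l).1 (a + j.val) : V n) := by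
        funext j
        show Mst α l i (a + j.val) +
            (if i = (α l).1 + 1 then (α l).2 * Mst α l (α l).1 (a + j.val) else 0) =
          Mst α l i (a + j.val) + (α l).2 * Mst α l (α l).1 (a + j.val)
        rw [if_pos h1]
      rw [e]
      refine Submodule.add_mem _ (TR_mono_time α a n (Nat.le_succ l) (ih i h))
        (Submodule.smul_mem _ _ ?_)
      by_cases h2 : a + n ≤ (α l).1
      · exact TR_mono_time α a n (Nat.le_succ l) (ih (α l).1 h2)
      · refine Submodule.subset_span ⟨l, Nat.lt_succ_self l, by omega, ?_⟩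
        funext j
        show Mst α l (α l).1 (a + j.val) = Mst α l (a + n - 1) (a + j.val)
        have e3 : (α l).1 = a + n - 1 := by omega
        rw [e3]
    · have e : rowW α (l + 1) a n i = rowW α l a n i := by
        funext j
        show Mst α l i (a + j.val) +
            (if i = (α l).1 + 1 then (α l).2 * Mst α l (α l).1 (a + j.val) else 0) =
          Mst α l i (a + j.val)
        rw [if_neg h1, add_zero]
      rw [e]
      exact TR_mono_time α a n (Nat.le_succ l) (ih i h)

theorem TC_shift_le (α : Seq) (a n l : ℕ) : TC (shift α 1) l a n ≤ TC α (l + 1) a n := by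
  refine Submodule.span_mono ?_
  rintro x ⟨i, hi, h1, rfl⟩
  have e1 : shift α 1 i = α (i + 1) := by
    show α (1 + i) = α (i + 1)
    rw [Nat.add_comm]
  refine ⟨i + 1, by omega, by rw [← e1]; exact h1, ?_⟩
  funext k'
  show Mst (shift (shift α 1) (i + 1)) (l - (i + 1)) (a + k'.val) a =
    Mst (shift α (i + 1 + 1)) (l + 1 - (i + 1 + 1)) (a + k'.val) a
  rw [shift_add84, show 1 + (i + 1) = i + 1 + 1 by ring,
    show l + 1 - (i + 1 + 1) = l - (i + 1) by omega]

/-- columns before the window lie in the column space -/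
theorem colW_mem (α : Seq) (a n j : ℕ) (h : j < a) : colW α L a n j ∈ TC α L a n := by
  induction L generalizing α j with
  | zero =>
    have e : colW α 0 a n j = 0 := by
      funext k
      show (if a + k.val = j then (1 : ZMod 2) else 0) = 0
      rw [if_neg (by omega)]
    rw [e]
    exact Submodule.zero_mem _
  | succ l ih =>
    have e : colW α (l + 1) a n j = colW (shift α 1) l a n j +
        if j = (α 0).1 then (α 0).2 • colW (shift α 1) l a n ((α 0).1 + 1) else 0 := by
      funext k
      show Mst α (l + 1) (a + k.val) j = _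
      rw [Mst_first84, Pi.add_apply]
      congr 1
      by_cases h1 : j = (α 0).1
      · rw [if_pos h1, if_pos h1]
        rfl
      · rw [if_neg h1, if_neg h1]
        rfl
    rw [e]
    refine Submodule.add_mem _ (TC_shift_le α a n l (ih (shift α 1) j h)) ?_
    split_ifs with h1
    · refine Submodule.smul_mem _ _ ?_
      by_cases h2 : (α 0).1 + 1 < a
      · exact TC_shift_le α a n l (ih (shift α 1) _ h2)
      · refine Submodule.subset_span ⟨0, Nat.succ_pos l, by omega, ?_⟩
        funext k
        show Mst (shift α 1) l (a + k.val) ((α 0).1 + 1) =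
          Mst (shift α (0 + 1)) (l + 1 - (0 + 1)) (a + k.val) a
        rw [show (α 0).1 + 1 = a by omega, show l + 1 - (0 + 1) = l by omega]
    · exact Submodule.zero_mem _

/-! #### D. smaller windows -/

/-- removing the lowest level: the row space is the projection -/
theorem TR_tail (α : Seq) (a n : ℕ) : TR α L (a + 1) n =
    (TR α L a (n + 1)).map (LinearMap.funLeft (ZMod 2) (ZMod 2) (Fin.succ : Fin n → Fin (n + 1))) := by
  unfold TR
  rw [Submodule.map_span]
  congr 1
  ext x
  constructor
  · rintro ⟨i, hi, h1, rfl⟩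
    refine ⟨lowW α i a (n + 1), ⟨i, hi, by omega, rfl⟩, ?_⟩
    funext j
    show Mst α i (a + (n + 1) - 1) (a + (j.val + 1)) = Mst α i (a + 1 + n - 1) (a + 1 + j.val)
    rw [show a + (n + 1) - 1 = a + 1 + n - 1 by omega, show a + (j.val + 1) = a + 1 + j.val by omega]
  · rintro ⟨y, ⟨i, hi, h1, rfl⟩, rfl⟩
    refine ⟨i, hi, by omega, ?_⟩
    funext j
    show Mst α i (a + (n + 1) - 1) (a + (j.val + 1)) = Mst α i (a + 1 + n - 1) (a + 1 + j.val)
    rw [show a + (n + 1) - 1 = a + 1 + n - 1 by omega, show a + (j.val + 1) = a + 1 + j.val by omega]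

/-- removing the top level: the column space is the projection -/
theorem TC_init (α : Seq) (a n : ℕ) : TC α L a n =
    (TC α L a (n + 1)).map
      (LinearMap.funLeft (ZMod 2) (ZMod 2) (Fin.castSucc : Fin n → Fin (n + 1))) := by
  unfold TC
  rw [Submodule.map_span]
  congr 1
  ext x
  constructor
  · rintro ⟨i, hi, h1, rfl⟩
    exact ⟨colV α L i a (n + 1), ⟨i, hi, h1, rfl⟩, rfl⟩
  · rintro ⟨y, ⟨i, hi, h1, rfl⟩, rfl⟩
    exact ⟨i, hi, h1, rfl⟩

end Pool.Agent.CutSeq.NJ
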