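import Mathlib

/-! S19271, stage numbers: the corner bits (`bott_fin49`). -/

set_option autoImplicit false

namespace Pool.Agent.CutSeq.NJ

/-- numbers for the corner bits: `D = ⌈e N / 8⌉`, `M₀ ≤ 2 e ^ 38 N ^ 2` -/
theorem numB97 : ∃ C₀ : ℝ, 1 ≤ C₀ ∧ ∃ e₀ : ℝ, 0 < e₀ ∧ ∀ e : ℝ, 0 < e → e ≤ e₀ → ∀ N : ℕ,
    C₀ ≤ e ^ 39 * N → ∀ D : ℕ, D = ⌈e * N / 8⌉₊ → ∀ M₀ : ℝ, 0 ≤ M₀ → M₀ ≤ 2 * (e ^ 38 * (N : ℝ) ^ 2) →
      100 ≤ D ∧ e * N / 8 ≤ D ∧ (4 * D : ℝ) ≤ e * N ∧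
      (∀ nA : ℕ, nA ≤ 2 * N → (nA : ℝ) ^ 2 ≤ (2 : ℝ) ^ ((D : ℝ) / 2)) ∧
      64 * Real.exp (-(Real.log 2 * (D : ℝ) ^ 2 / (24 * D + 10 * M₀))) ≤ e ^ 42 := by
  refine ⟨10 ^ 9, by norm_num, 1 / 4, by norm_num, ?_⟩
  intro e he he0 N hN D hD M₀ hM0 hM1
  have he1 : e ≤ 1 := by linarith
  have hNR : (0 : ℝ) ≤ N := Nat.cast_nonneg N
  have hpow : ∀ k : ℕ, k ≤ 39 → e ^ 39 ≤ e ^ k := fun k hk => pow_le_pow_of_le_one he.le he1 hk
  have hN1 : (10 : ℝ) ^ 9 ≤ N := by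
    have h1 : e ^ 39 * N ≤ 1 * N := mul_le_mul_of_nonneg_right (pow_le_one₀ he.le he1) hNR
    linarith
  have hNpos : (0 : ℝ) < N := by linarith
  -- `e N` is large
  have heN : (10 : ℝ) ^ 9 ≤ e * N := by
    have h1 := mul_le_mul_of_nonneg_right (hpow 1 (by norm_num)) hNR
    rw [pow_one] at h1
    linarith
  have heN0 : 0 < e * N := by positivity
  have hD1 : e * N / 8 ≤ D := by
    rw [hD]
    exact Nat.le_ceil _
  have hD2 : (D : ℝ) < e * N / 8 + 1 := by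
    rw [hD]
    exact Nat.ceil_lt_add_one (by positivity)
  have hD4 : (4 * D : ℝ) ≤ e * N := by linarith
  have hD0 : (0 : ℝ) < D := by linarith
  have hD100 : 100 ≤ D := by
    have : (100 : ℝ) ≤ D := by linarith
    exact_mod_cast this
  have hl0 : (1 : ℝ) / 2 ≤ Real.log 2 := by
    have := Real.log_two_gt_d9
    linarith
  refine ⟨hD100, hD1, hD4, ?_, ?_⟩
  · intro nA hnA
    have h1 : (nA : ℝ) ≤ 2 * N := by exact_mod_cast hnA
    have h2 : (nA : ℝ) ^ 2 ≤ 4 * (N : ℝ) ^ 2 := by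
      have h3 := pow_le_pow_left₀ (Nat.cast_nonneg nA) h1 2
      have h4 : (2 * (N : ℝ)) ^ 2 = 4 * (N : ℝ) ^ 2 := by ring
      rw [h4] at h3
      exact h3
    refine h2.trans ?_
    rw [Real.rpow_def_of_pos (by norm_num : (0 : ℝ) < 2)]
    set u : ℝ := Real.log 2 * ((D : ℝ) / 2) with hu
    have hu1 : e * N / 32 ≤ u := by
      rw [hu]
      nlinarith
    have hu0 : 0 ≤ u := by
      have : 0 ≤ e * N / 32 := by positivity
      linarith
    have h5 := Real.pow_div_factorial_le_exp u hu0 4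
    have h6 : ((Nat.factorial 4 : ℕ) : ℝ) = 24 := by
      norm_num [Nat.factorial]
    rw [h6] at h5
    refine le_trans ?_ h5
    have h7 : (e * N / 32) ^ 4 ≤ u ^ 4 := pow_le_pow_left₀ (by positivity) hu1 4
    have h8 : 4 * (N : ℝ) ^ 2 ≤ (e * N / 32) ^ 4 / 24 := by
      have h9 : (e * N / 32) ^ 4 / 24 = (N : ℝ) ^ 2 * ((e ^ 4 * N) * N / (32 ^ 4 * 24)) := by ring
      rw [h9]
      have h10 : (10 : ℝ) ^ 9 ≤ e ^ 4 * N := by
        have := mul_le_mul_of_nonneg_right (hpow 4 (by norm_num)) hNR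
        linarith
      have h11 : (10 : ℝ) ^ 9 * 10 ^ 9 ≤ (e ^ 4 * N) * N :=
        mul_le_mul h10 hN1 (by norm_num) (by positivity)
      have h12 : (4 : ℝ) ≤ (e ^ 4 * N) * N / (32 ^ 4 * 24) := by
        rw [le_div_iff₀ (by norm_num)]
        refine le_trans ?_ h11
        norm_num
      have h13 : 0 ≤ (N : ℝ) ^ 2 := by positivity
      nlinarith
    linarith
  · -- the exponential
    have hden : 0 < 24 * (D : ℝ) + 10 * M₀ := by positivity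
    have h37 : 1 ≤ e ^ 37 * N := by
      have := mul_le_mul_of_nonneg_right (hpow 37 (by norm_num)) hNR
      linarith
    have hden2 : 24 * (D : ℝ) + 10 * M₀ ≤ 26 * (e ^ 38 * (N : ℝ) ^ 2) := by
      have h1 : e * N ≤ e ^ 38 * (N : ℝ) ^ 2 := by
        have h2 : e ^ 38 * (N : ℝ) ^ 2 = (e ^ 37 * N) * (e * N) := by ring
        rw [h2]
        nlinarith
      linarith
    set u : ℝ := Real.log 2 * (D : ℝ) ^ 2 / (24 * D + 10 * M₀) with hu
    have hul : 1 / (3328 * e ^ 36) ≤ u := by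
      rw [hu, div_le_div_iff₀ (by positivity) hden]
      have h1 : (e * N / 8) ^ 2 ≤ (D : ℝ) ^ 2 := pow_le_pow_left₀ (by positivity) hD1 2
      have h2 : (1 : ℝ) / 2 * (e * N / 8) ^ 2 ≤ Real.log 2 * (D : ℝ) ^ 2 :=
        mul_le_mul hl0 h1 (by positivity) (by linarith)
      have h3 : (1 : ℝ) / 2 * (e * N / 8) ^ 2 * (3328 * e ^ 36) ≤
          Real.log 2 * (D : ℝ) ^ 2 * (3328 * e ^ 36) :=
        mul_le_mul_of_nonneg_right h2 (by positivity)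
      have h4 : (1 : ℝ) / 2 * (e * N / 8) ^ 2 * (3328 * e ^ 36) = 26 * (e ^ 38 * (N : ℝ) ^ 2) := by
        ring
      linarith
    have hu0 : 0 < u := lt_of_lt_of_le (by positivity) hul
    have h1 := Real.quadratic_le_exp_of_nonneg hu0.le
    have h2 : u ^ 2 / 2 ≤ Real.exp u := by linarith
    have h3 : Real.exp (-u) ≤ 2 / u ^ 2 := by
      rw [Real.exp_neg, inv_le_comm₀ (Real.exp_pos u) (by positivity), inv_div]
      exact h2
    have h4 : 2 / u ^ 2 ≤ 2 * (3328 * e ^ 36) ^ 2 := by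
      rw [div_le_iff₀ (by positivity)]
      have h5 : (1 / (3328 * e ^ 36)) ^ 2 ≤ u ^ 2 := pow_le_pow_left₀ (by positivity) hul 2
      have h6 : 2 * (3328 * e ^ 36) ^ 2 * (1 / (3328 * e ^ 36)) ^ 2 ≤ 2 * (3328 * e ^ 36) ^ 2 * u ^ 2 :=
        mul_le_mul_of_nonneg_left h5 (by positivity)
      have h7 : 2 * (3328 * e ^ 36) ^ 2 * (1 / (3328 * e ^ 36)) ^ 2 = 2 := by
        field_simp
      linarith
    have h5 : 64 * Real.exp (-u) ≤ e ^ 42 * (128 * 3328 ^ 2 * e ^ 30) := by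
      have h6 : 64 * (2 * (3328 * e ^ 36) ^ 2) = e ^ 42 * (128 * 3328 ^ 2 * e ^ 30) := by ring
      linarith
    have h6 : 128 * 3328 ^ 2 * e ^ 30 ≤ 1 := by
      have h7 : e ^ 30 ≤ (1 / 4) ^ 30 := pow_le_pow_left₀ he.le he0 30
      have h8 : (128 : ℝ) * 3328 ^ 2 * (1 / 4) ^ 30 ≤ 1 := by norm_num
      have h9 := mul_le_mul_of_nonneg_left h7 (by norm_num : (0 : ℝ) ≤ 128 * 3328 ^ 2)
      linarith
    have h7 : 0 ≤ e ^ 42 := by positivity
    nlinarith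

end Pool.Agent.CutSeq.NJ
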