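import Mathlib

/-! A Pinsker inequality (constant 4) through the Hellinger distance. -/

set_option autoImplicit false

namespace Pool.Agent.NJ

open Finset

lemma mul_log_ge (P Q : ℝ) (hP : 0 ≤ P) (hPQ : 0 < P → 0 < Q) :
    P + P - 2 * (Real.sqrt P * Real.sqrt Q) ≤ P * Real.log (P / Q) := by
  rcases hP.eq_or_lt with h | h
  · rw [← h]
    simp
  · have hq := hPQ h
    have h1 : Real.log (Real.sqrt Q / Real.sqrt P) ≤ Real.sqrt Q / Real.sqrt P - 1 :=
      Real.log_le_sub_one_of_pos (div_pos (Real.sqrt_pos.2 hq) (Real.sqrt_pos.2 h))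
    have h2 : Real.log (P / Q) = -2 * Real.log (Real.sqrt Q / Real.sqrt P) := by
      rw [Real.log_div (Real.sqrt_pos.2 hq).ne' (Real.sqrt_pos.2 h).ne', Real.log_sqrt hq.le,
        Real.log_sqrt h.le, Real.log_div h.ne' hq.ne']
      ring
    rw [h2]
    have h3 : P * (Real.sqrt Q / Real.sqrt P) = Real.sqrt P * Real.sqrt Q := by
      have h4 : Real.sqrt P * Real.sqrt P = P := Real.mul_self_sqrt h.le
      have h5 : Real.sqrt P ≠ 0 := (Real.sqrt_pos.2 h).ne'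
      calc P * (Real.sqrt Q / Real.sqrt P) = (Real.sqrt P * Real.sqrt P) * (Real.sqrt Q / Real.sqrt P) := by
            rw [h4]
        _ = Real.sqrt P * Real.sqrt Q := by field_simp
    have h6 := mul_le_mul_of_nonneg_left h1 h.le
    rw [mul_sub, h3, mul_one] at h6
    linarith

theorem pinsker4 {D : Type*} [Fintype D] (P Q : D → ℝ) (hP : ∀ d, 0 ≤ P d) (hQ : ∀ d, 0 ≤ Q d)
    (hP1 : ∑ d, P d = 1) (hQ1 : ∑ d, Q d = 1) (hPQ : ∀ d, 0 < P d → 0 < Q d) :
    (∑ d, |P d - Q d|) ^ 2 ≤ 4 * ∑ d, P d * Real.log (P d / Q d) := by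
  have h1 : ∑ d, (Real.sqrt (P d) - Real.sqrt (Q d)) ^ 2 ≤ ∑ d, P d * Real.log (P d / Q d) := by
    have h2 : ∑ d, (P d + P d - 2 * (Real.sqrt (P d) * Real.sqrt (Q d))) ≤
        ∑ d, P d * Real.log (P d / Q d) :=
      Finset.sum_le_sum fun d _ => mul_log_ge (P d) (Q d) (hP d) (hPQ d)
    refine le_trans (le_of_eq ?_) h2
    have h3 : ∀ d, (Real.sqrt (P d) - Real.sqrt (Q d)) ^ 2 =
        P d + Q d - 2 * (Real.sqrt (P d) * Real.sqrt (Q d)) := by
      intro d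
      have h4 : Real.sqrt (P d) ^ 2 = P d := Real.sq_sqrt (hP d)
      have h5 : Real.sqrt (Q d) ^ 2 = Q d := Real.sq_sqrt (hQ d)
      rw [sub_sq, h4, h5]
      ring
    simp only [h3, Finset.sum_sub_distrib, Finset.sum_add_distrib, hP1, hQ1]
  have h2 : ∑ d, (Real.sqrt (P d) + Real.sqrt (Q d)) ^ 2 ≤ 4 := by
    have h3 : ∀ d, (Real.sqrt (P d) + Real.sqrt (Q d)) ^ 2 ≤ 2 * P d + 2 * Q d := by
      intro d
      have h4 : Real.sqrt (P d) ^ 2 = P d := Real.sq_sqrt (hP d)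
      have h5 : Real.sqrt (Q d) ^ 2 = Q d := Real.sq_sqrt (hQ d)
      nlinarith [sq_nonneg (Real.sqrt (P d) - Real.sqrt (Q d))]
    refine (Finset.sum_le_sum fun d _ => h3 d).trans ?_
    rw [Finset.sum_add_distrib, ← Finset.mul_sum, ← Finset.mul_sum, hP1, hQ1]
    norm_num
  have h3 : ∀ d, |P d - Q d| = |Real.sqrt (P d) - Real.sqrt (Q d)| *
      (Real.sqrt (P d) + Real.sqrt (Q d)) := by
    intro d
    have h4 : Real.sqrt (P d) ^ 2 = P d := Real.sq_sqrt (hP d)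
    have h5 : Real.sqrt (Q d) ^ 2 = Q d := Real.sq_sqrt (hQ d)
    have h6 : P d - Q d = (Real.sqrt (P d) - Real.sqrt (Q d)) *
        (Real.sqrt (P d) + Real.sqrt (Q d)) := by
      rw [← sub_eq_zero]
      nlinarith
    rw [h6, abs_mul, abs_of_nonneg (a := Real.sqrt (P d) + Real.sqrt (Q d))
      (add_nonneg (Real.sqrt_nonneg _) (Real.sqrt_nonneg _))]
  simp only [h3]
  have h4 := Finset.sum_mul_sq_le_sq_mul_sq Finset.univ
    (fun d => |Real.sqrt (P d) - Real.sqrt (Q d)|) (fun d => Real.sqrt (P d) + Real.sqrt (Q d))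
  simp only [sq_abs] at h4
  have h5 : 0 ≤ ∑ d, (Real.sqrt (P d) - Real.sqrt (Q d)) ^ 2 :=
    Finset.sum_nonneg fun d _ => sq_nonneg _
  calc _ ≤ _ := h4
    _ ≤ (∑ d, (Real.sqrt (P d) - Real.sqrt (Q d)) ^ 2) * 4 := mul_le_mul_of_nonneg_left h2 h5
    _ ≤ (∑ d, P d * Real.log (P d / Q d)) * 4 := mul_le_mul_of_nonneg_right h1 (by norm_num)
    _ = _ := by ring

end Pool.Agent.NJ
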