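import Pool.Agent.NJ.LP32
import Pool.Agent.NJ.LP86
import Pool.Agent.NJ.LV85
import Pool.Agent.NJ.LA76

/-!
S19271 / NJ, row RB: the robust statistic.
-/

set_option autoImplicit false

namespace Pool.Agent.NJ

open Finset Pool.Agent.CutSeq

variable {H A : Type*} [Fintype H] [Fintype A] {n t : ℕ} (S : Loc H A n t)

namespace RB89

lemma avg_ini {i j l : ℕ} (F : Co t i j → ℝ) :
    (∑ c : Co t (i + l) (j + l), F (ini l l c)) / (Fintype.card (Co t (i + l) (j + l)) : ℝ)
      = (∑ c, F c) / (Fintype.card (Co t i j) : ℝ) :=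
  avg_hom76 (sel76 (t := t) (Fin.castAdd l) (Fin.castAdd l)) (sel76_add _ _)
    (sel76_surj _ _ (Fin.castAdd_injective i l) (Fin.castAdd_injective j l)) F

open Classical in
lemma cl_card_sum (w : H → ℝ) (i j k s : ℕ) (y : A × (Fin i → V n) × (Fin j → V n)) :
    ∑ a : V n, (if a ∈ S.cl w i j k s y then (1 : ℝ) else 0) ≤ 2 ^ s := by
  have h1 : ∑ a : V n, (if a ∈ S.cl w i j k s y then (1 : ℝ) else 0)
      = (Nat.card (S.cl w i j k s y) : ℝ) := by
    rw [Nat.card_eq_fintype_card, Finset.sum_boole]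
    congr 1
    rw [Fintype.card_subtype]
  rw [h1]
  unfold Loc.cl
  by_cases h : Nat.card (S.ls w i j k y) ≤ 2 ^ s
  · rw [if_pos h]
    exact_mod_cast h
  · rw [if_neg h]
    simp

open Classical in
lemma ls_card_sum (w : H → ℝ) (i j k : ℕ) (y : A × (Fin i → V n) × (Fin j → V n)) :
    ∑ a : V n, (if a ∈ S.ls w i j k y then (1 : ℝ) else 0) = (Nat.card (S.ls w i j k y) : ℝ) := by
  rw [Nat.card_eq_fintype_card, Finset.sum_boole]
  congr 1
  rw [Fintype.card_subtype]

lemma real_ineq (F p θ : ℝ) (hθ : 0 < θ) (hp : p < θ) : F ≤ 2 * θ + (F - p) ^ 2 / θ := by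
  have h1 : F - p ≤ θ + (F - p) ^ 2 / θ := by
    have h2 : 0 ≤ (F - p - θ) ^ 2 := sq_nonneg _
    have h3 : (F - p) * θ ≤ θ ^ 2 + (F - p) ^ 2 := by nlinarith [sq_nonneg (F - p), sq_nonneg θ]
    have h4 : F - p ≤ (θ ^ 2 + (F - p) ^ 2) / θ := by
      rw [le_div_iff₀ hθ]
      exact h3
    refine h4.trans (le_of_eq ?_)
    field_simp
  linarith

end RB89

open RB89

/-- RB -/
theorem Loc.robust (w : H → ℝ) (hw : ∀ h, 0 ≤ w h) (hw1 : tot w ≤ 1) (i j k s l : ℕ) (θ : ℝ)
    (hθ : 0 < θ) :
    ∑ p, pw w (Co t i j) p * (Nat.card {a : V n // a ∈ perp (S.TC p.1) ∧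
        a ∈ S.cl w i j k s (S.dat i j p) ∧ S.pa w i j k s p.1 a < θ} : ℝ)
      ≤ 2 ^ s * (1 / 2) ^ l + 2 ^ (s + 1) * θ + 2 ^ s * (1 / 2) ^ l / θ
        + 2 ^ s * pr (pw w (Co t (i + l) (j + l)))
          {p | 2 ^ s < Nat.card (S.ls w (i + l) (j + l) 1 (S.dat (i + l) (j + l) p))} := by
  classical
  set K : ℝ := (Fintype.card (Co t i j) : ℝ) with hK
  set K' : ℝ := (Fintype.card (Co t (i + l) (j + l)) : ℝ) with hK'
  have hK'0 : 0 < K' := by
    rw [hK']
    exact_mod_cast Fintype.card_pos
  set g : H → V n → Co t i j → ℝ := fun h a c =>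
    if a ∈ S.cl w i j k s (S.dat i j (h, c)) then 1 else 0 with hg
  set F : H → V n → Co t (i + l) (j + l) → ℝ := fun h a c =>
    (∑ D : Cf i j l, g h a (mix D c)) / (Fintype.card (Cf i j l) : ℝ) with hF
  set L : H → V n → Co t (i + l) (j + l) → ℝ := fun h a c =>
    if a ∈ S.ls w (i + l) (j + l) 1 (S.dat (i + l) (j + l) (h, c)) then 1 else 0 with hL
  set q : H → V n → ℝ := fun h a =>
    (if a ∈ perp (S.TC h) then 1 else 0) * (if S.pa w i j k s h a < θ then 1 else 0) with hq
  have hg0 : ∀ h a c, 0 ≤ g h a c := fun h a c => by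
    simp only [hg]; split_ifs <;> norm_num
  have hg1 : ∀ h a c, g h a c ≤ 1 := fun h a c => by
    simp only [hg]; split_ifs <;> norm_num
  have hL0 : ∀ h a c, 0 ≤ L h a c := fun h a c => by
    simp only [hL]; split_ifs <;> norm_num
  have hL1 : ∀ h a c, L h a c ≤ 1 := fun h a c => by
    simp only [hL]; split_ifs <;> norm_num
  have hcf : (0 : ℝ) < (Fintype.card (Cf i j l) : ℝ) := by exact_mod_cast Fintype.card_pos
  have hF0 : ∀ h a c, 0 ≤ F h a c := fun h a c =>
    div_nonneg (Finset.sum_nonneg fun D _ => hg0 _ _ _) hcf.le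
  have hgs : ∀ h c, ∑ a, g h a c ≤ 2 ^ s := fun h c => cl_card_sum S w i j k s _
  have hFs : ∀ h c, ∑ a, F h a c ≤ 2 ^ s := by
    intro h c
    simp only [hF]
    rw [← Finset.sum_div, Finset.sum_comm, div_le_iff₀ hcf]
    calc ∑ D : Cf i j l, ∑ a, g h a (mix D c) ≤ ∑ _D : Cf i j l, (2 : ℝ) ^ s :=
          Finset.sum_le_sum fun D _ => hgs h _
      _ = 2 ^ s * (Fintype.card (Cf i j l) : ℝ) := by
          rw [Finset.sum_const, Finset.card_univ, nsmul_eq_mul, mul_comm]
  -- the left side
  have hlhs : ∑ p, pw w (Co t i j) p * (Nat.card {a : V n // a ∈ perp (S.TC p.1) ∧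
        a ∈ S.cl w i j k s (S.dat i j p) ∧ S.pa w i j k s p.1 a < θ} : ℝ)
      = ∑ h, w h * ∑ a, q h a * ((∑ c, g h a c) / K) := by
    have h1 : ∀ (h : H) (c : Co t i j), (Nat.card {a : V n // a ∈ perp (S.TC h) ∧
        a ∈ S.cl w i j k s (S.dat i j (h, c)) ∧ S.pa w i j k s h a < θ} : ℝ)
        = ∑ a, q h a * g h a c := by
      intro h c
      rw [Nat.card_eq_fintype_card, Fintype.card_subtype, ← Finset.sum_boole]
      refine Finset.sum_congr rfl fun a _ => ?_
      simp only [hq, hg]
      by_cases h1 : a ∈ perp (S.TC h)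
      · by_cases h2 : a ∈ S.cl w i j k s (S.dat i j (h, c))
        · by_cases h3 : S.pa w i j k s h a < θ
          · simp [h1, h2, h3]
          · simp [h1, h2, h3]
        · simp [h1, h2]
      · simp [h1]
    have h2 := sum_pw w (C := Co t i j) (fun h c => ∑ a, q h a * g h a c)
    calc _ = ∑ p : H × Co t i j, pw w (Co t i j) p * (∑ a, q p.1 a * g p.1 a p.2) := by
          refine Finset.sum_congr rfl fun p _ => ?_
          rw [← h1 p.1 p.2]
      _ = ∑ h, w h * ((∑ c, ∑ a, q h a * g h a c) / (Fintype.card (Co t i j) : ℝ)) := h2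
      _ = _ := by
          refine Finset.sum_congr rfl fun h _ => ?_
          rw [Finset.sum_comm, Finset.sum_div]
          congr 1
          refine Finset.sum_congr rfl fun a _ => ?_
          rw [← Finset.mul_sum, mul_div_assoc]
  -- the average of `g` on the big space
  have hsplit : ∀ h a, (∑ c, g h a c) / K
      = (∑ c : Co t (i + l) (j + l), (g h a (ini l l c) * (1 - L h a c) + F h a c * L h a c)) / K' := by
    intro h a
    rw [hK, ← avg_ini (l := l) (fun c => g h a c)]
    congr 1
    have h1 : ∀ D : Cf i j l, ∑ c : Co t (i + l) (j + l), g h a (ini l l c) * L h a c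
        = ∑ c : Co t (i + l) (j + l), g h a (mix D c) * L h a c := by
      intro D
      rw [← (shrE D).sum_comp]
      refine Finset.sum_congr rfl fun c _ => ?_
      have h2 : L h a (shr D c) = L h a c := by
        simp only [hL]
        rw [S.ls_shr w hw i j l 1 D h c]
      have h3 : ini l l (shr D c) = mix D c := by
        refine Prod.ext ?_ ?_
        · funext b
          simp [ini, mix]
        · funext b
          simp [ini, mix]
      rw [shrE_apply, h2, h3]
    have h2 : ∑ c : Co t (i + l) (j + l), g h a (ini l l c) * L h a c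
        = ∑ c : Co t (i + l) (j + l), F h a c * L h a c := by
      have h3 : (Fintype.card (Cf i j l) : ℝ) *
          ∑ c : Co t (i + l) (j + l), g h a (ini l l c) * L h a c
          = ∑ D : Cf i j l, ∑ c : Co t (i + l) (j + l), g h a (mix D c) * L h a c := by
        rw [Finset.sum_congr rfl fun D _ => (h1 D).symm, Finset.sum_const, Finset.card_univ,
          nsmul_eq_mul]
      have h4 : (Fintype.card (Cf i j l) : ℝ) * ∑ c : Co t (i + l) (j + l), F h a c * L h a c
          = ∑ D : Cf i j l, ∑ c : Co t (i + l) (j + l), g h a (mix D c) * L h a c := by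
        rw [Finset.sum_comm, Finset.mul_sum]
        refine Finset.sum_congr rfl fun c _ => ?_
        simp only [hF]
        rw [← Finset.sum_mul]
        field_simp
      exact mul_left_cancel₀ hcf.ne' (h3.trans h4.symm)
    rw [Finset.sum_add_distrib, ← h2, ← Finset.sum_add_distrib]
    refine Finset.sum_congr rfl fun c _ => ?_
    ring
  -- variance
  have hvar : ∀ h a, (∑ c : Co t (i + l) (j + l), (F h a c - S.pa w i j k s h a) ^ 2) / K'
      ≤ (1 / 2) ^ l * ((∑ c, g h a c) / K) := by
    intro h a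
    have h1 := mix_var (l := l) (fun c : Co t i j => g h a c)
    have h2 : ∀ c, g h a c ^ 2 = g h a c := fun c => by
      simp only [hg]; split_ifs <;> norm_num
    have h3 : S.pa w i j k s h a = (∑ c, g h a c) / (Fintype.card (Co t i j) : ℝ) := rfl
    rw [h3]
    simp only [h2] at h1
    exact h1
  -- the rare part
  have hrare : ∑ h, w h * ∑ a, q h a *
      ((∑ c : Co t (i + l) (j + l), g h a (ini l l c) * (1 - L h a c)) / K')
      ≤ 2 ^ s * (1 / 2) ^ l := by
    have h1 : ∀ a : V n, ∑ h, w h * (q h a *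
        ((∑ c : Co t (i + l) (j + l), g h a (ini l l c) * (1 - L h a c)) / K'))
        ≤ (1 / 2) ^ l * ∑ h, w h * ((∑ c, g h a c) / K) := by
      intro a
      have h2 := S.ls_late w hw i j l {y | a ∈ S.cl w i j k s y} a
      have h3 : pr (pw w (Co t i j)) {p | S.dat i j p ∈ {y | a ∈ S.cl w i j k s y}}
          = ∑ h, w h * ((∑ c, g h a c) / K) := by
        rw [← sum_pw w (C := Co t i j) (fun h c => g h a c)]
        unfold pr tot ind
        refine Finset.sum_congr rfl fun p _ => ?_
        by_cases hp : a ∈ S.cl w i j k s (S.dat i j p)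
        · rw [Set.indicator_of_mem (by exact hp)]
          simp only [hg]
          rw [if_pos hp, mul_one]
        · rw [Set.indicator_of_notMem (by exact hp)]
          simp only [hg]
          rw [if_neg hp, mul_zero]
      rw [h3] at h2
      refine le_trans ?_ h2
      have h4 : pr (pw w (Co t (i + l) (j + l))) {p | a ∈ perp (S.TC p.1) ∧
          S.dat i j (p.1, ini l l p.2) ∈ {y | a ∈ S.cl w i j k s y} ∧
          a ∉ S.ls w (i + l) (j + l) 1 (S.dat (i + l) (j + l) p)}
          = ∑ h, w h * ((∑ c : Co t (i + l) (j + l), (if a ∈ perp (S.TC h) then 1 else 0) *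
            (g h a (ini l l c) * (1 - L h a c))) / K') := by
        rw [hK', ← sum_pw w (C := Co t (i + l) (j + l)) (fun h c =>
          (if a ∈ perp (S.TC h) then 1 else 0) * (g h a (ini l l c) * (1 - L h a c)))]
        unfold pr tot ind
        refine Finset.sum_congr rfl fun p _ => ?_
        by_cases hp : p ∈ {p : H × Co t (i + l) (j + l) | a ∈ perp (S.TC p.1) ∧
          S.dat i j (p.1, ini l l p.2) ∈ {y | a ∈ S.cl w i j k s y} ∧
          a ∉ S.ls w (i + l) (j + l) 1 (S.dat (i + l) (j + l) p)}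
        · rw [Set.indicator_of_mem hp]
          obtain ⟨p1, p2, p3⟩ := hp
          have p2' : a ∈ S.cl w i j k s (S.dat i j (p.1, ini l l p.2)) := p2
          have p3' : a ∉ S.ls w (i + l) (j + l) 1 (S.dat (i + l) (j + l) (p.1, p.2)) := p3
          simp only [hg, hL]
          rw [if_pos p1, if_pos p2', if_neg p3']
          ring
        · rw [Set.indicator_of_notMem hp]
          by_cases p1 : a ∈ perp (S.TC p.1)
          · by_cases p2 : a ∈ S.cl w i j k s (S.dat i j (p.1, ini l l p.2))
            · by_cases p3 : a ∈ S.ls w (i + l) (j + l) 1 (S.dat (i + l) (j + l) (p.1, p.2))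
              · simp only [hg, hL]
                rw [if_pos p3]
                ring
              · exact absurd ⟨p1, p2, p3⟩ hp
            · simp only [hg, hL]
              rw [if_neg p2]
              ring
          · rw [if_neg p1]
            ring
      rw [h4]
      refine Finset.sum_le_sum fun h _ => mul_le_mul_of_nonneg_left ?_ (hw h)
      rw [← Finset.mul_sum, mul_div_assoc]
      refine mul_le_mul_of_nonneg_right ?_ ?_
      · simp only [hq]
        split_ifs <;> norm_num
      · refine div_nonneg (Finset.sum_nonneg fun c _ => mul_nonneg (hg0 _ _ _) ?_) hK'0.le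
        have := hL1 h a c
        linarith
    have h5 : ∑ h, w h * ∑ a, q h a *
        ((∑ c : Co t (i + l) (j + l), g h a (ini l l c) * (1 - L h a c)) / K')
        = ∑ a : V n, ∑ h, w h * (q h a *
          ((∑ c : Co t (i + l) (j + l), g h a (ini l l c) * (1 - L h a c)) / K')) := by
      rw [Finset.sum_comm]
      exact Finset.sum_congr rfl fun h _ => Finset.mul_sum _ _ _
    rw [h5]
    refine (Finset.sum_le_sum fun a _ => h1 a).trans ?_
    rw [← Finset.mul_sum, Finset.sum_comm]
    have h6 : ∑ h, ∑ a : V n, w h * ((∑ c, g h a c) / K) ≤ 2 ^ s := by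
      calc ∑ h, ∑ a : V n, w h * ((∑ c, g h a c) / K) ≤ ∑ h, w h * 2 ^ s := by
            refine Finset.sum_le_sum fun h _ => ?_
            rw [← Finset.mul_sum]
            refine mul_le_mul_of_nonneg_left ?_ (hw h)
            rw [← Finset.sum_div, Finset.sum_comm, div_le_iff₀ (by rw [hK]; exact_mod_cast Fintype.card_pos)]
            calc ∑ c : Co t i j, ∑ a, g h a c ≤ ∑ _c : Co t i j, (2 : ℝ) ^ s :=
                  Finset.sum_le_sum fun c _ => hgs h c
              _ = 2 ^ s * K := by rw [Finset.sum_const, Finset.card_univ, nsmul_eq_mul, mul_comm]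
        _ = tot w * 2 ^ s := by rw [← Finset.sum_mul]; rfl
        _ ≤ 1 * 2 ^ s := mul_le_mul_of_nonneg_right hw1 (by positivity)
        _ = 2 ^ s := one_mul _
    calc (1 / 2 : ℝ) ^ l * ∑ h, ∑ a : V n, w h * ((∑ c, g h a c) / K) ≤ (1 / 2) ^ l * 2 ^ s :=
          mul_le_mul_of_nonneg_left h6 (by positivity)
      _ = 2 ^ s * (1 / 2) ^ l := mul_comm _ _
  -- the visible part
  set Bd : H → Co t (i + l) (j + l) → ℝ := fun h c =>
    if 2 ^ s < Nat.card (S.ls w (i + l) (j + l) 1 (S.dat (i + l) (j + l) (h, c))) then 1 else 0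
    with hBd
  have hq0 : ∀ h a, 0 ≤ q h a := fun h a => by
    simp only [hq]; split_ifs <;> norm_num
  have hq1 : ∀ h a, q h a ≤ 1 := fun h a => by
    simp only [hq]; split_ifs <;> norm_num
  have hpt : ∀ h c, ∑ a, q h a * (F h a c * L h a c)
      ≤ 2 ^ s * Bd h c + 2 ^ (s + 1) * θ + ∑ a, (F h a c - S.pa w i j k s h a) ^ 2 / θ := by
    intro h c
    have hnn : 0 ≤ ∑ a, (F h a c - S.pa w i j k s h a) ^ 2 / θ :=
      Finset.sum_nonneg fun a _ => div_nonneg (sq_nonneg _) hθ.le
    by_cases hb : 2 ^ s < Nat.card (S.ls w (i + l) (j + l) 1 (S.dat (i + l) (j + l) (h, c)))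
    · have h1 : Bd h c = 1 := by
        simp only [hBd]
        rw [if_pos hb]
      have h2 : ∑ a, q h a * (F h a c * L h a c) ≤ 2 ^ s := by
        refine (Finset.sum_le_sum fun a _ => ?_).trans (hFs h c)
        have h3 : F h a c * L h a c ≤ F h a c := by
          have := mul_le_mul_of_nonneg_left (hL1 h a c) (hF0 h a c)
          linarith
        have h4 : q h a * (F h a c * L h a c) ≤ 1 * (F h a c * L h a c) :=
          mul_le_mul_of_nonneg_right (hq1 h a) (mul_nonneg (hF0 _ _ _) (hL0 _ _ _))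
        linarith
      rw [h1]
      have h5 : (0 : ℝ) ≤ 2 ^ (s + 1) * θ := by positivity
      linarith
    · have h1 : Bd h c = 0 := by
        simp only [hBd]
        rw [if_neg hb]
      have h2 : ∀ a, q h a * (F h a c * L h a c)
          ≤ 2 * θ * L h a c + (F h a c - S.pa w i j k s h a) ^ 2 / θ := by
        intro a
        have hv : 0 ≤ (F h a c - S.pa w i j k s h a) ^ 2 / θ := div_nonneg (sq_nonneg _) hθ.le
        by_cases hp : S.pa w i j k s h a < θ
        · have h3 := real_ineq (F h a c) (S.pa w i j k s h a) θ hθ hp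
          have h4 : q h a * (F h a c * L h a c) ≤ 1 * (F h a c * L h a c) :=
            mul_le_mul_of_nonneg_right (hq1 h a) (mul_nonneg (hF0 _ _ _) (hL0 _ _ _))
          have h5 : F h a c * L h a c
              ≤ (2 * θ + (F h a c - S.pa w i j k s h a) ^ 2 / θ) * L h a c :=
            mul_le_mul_of_nonneg_right h3 (hL0 _ _ _)
          have h6 : (F h a c - S.pa w i j k s h a) ^ 2 / θ * L h a c
              ≤ (F h a c - S.pa w i j k s h a) ^ 2 / θ * 1 :=
            mul_le_mul_of_nonneg_left (hL1 h a c) hv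
          nlinarith
        · have h3 : q h a = 0 := by
            simp only [hq]
            rw [if_neg hp, mul_zero]
          rw [h3, zero_mul]
          have := hL0 h a c
          positivity
      have h3 : ∑ a, L h a c ≤ 2 ^ s := by
        have h4 := ls_card_sum S w (i + l) (j + l) 1 (S.dat (i + l) (j + l) (h, c))
        have h5 : ∑ a, L h a c = ∑ a : V n, (if a ∈ S.ls w (i + l) (j + l) 1
            (S.dat (i + l) (j + l) (h, c)) then (1 : ℝ) else 0) := rfl
        rw [h5, h4]
        have h6 := not_lt.1 hb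
        exact_mod_cast h6
      calc ∑ a, q h a * (F h a c * L h a c)
          ≤ ∑ a, (2 * θ * L h a c + (F h a c - S.pa w i j k s h a) ^ 2 / θ) :=
            Finset.sum_le_sum fun a _ => h2 a
        _ = 2 * θ * ∑ a, L h a c + ∑ a, (F h a c - S.pa w i j k s h a) ^ 2 / θ := by
            rw [Finset.sum_add_distrib, ← Finset.mul_sum]
        _ ≤ 2 * θ * 2 ^ s + ∑ a, (F h a c - S.pa w i j k s h a) ^ 2 / θ := by
            have := mul_le_mul_of_nonneg_left h3 (by positivity : 0 ≤ 2 * θ)
            linarith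
        _ = 2 ^ s * Bd h c + 2 ^ (s + 1) * θ
            + ∑ a, (F h a c - S.pa w i j k s h a) ^ 2 / θ := by
            rw [h1, pow_succ]
            ring
  have hgsum : ∑ h, w h * ∑ a, ((∑ c, g h a c) / K) ≤ 2 ^ s := by
    calc ∑ h, w h * ∑ a, ((∑ c, g h a c) / K) ≤ ∑ h, w h * 2 ^ s := by
          refine Finset.sum_le_sum fun h _ => ?_
          refine mul_le_mul_of_nonneg_left ?_ (hw h)
          rw [← Finset.sum_div, Finset.sum_comm, div_le_iff₀ (by rw [hK]; exact_mod_cast Fintype.card_pos)]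
          calc ∑ c : Co t i j, ∑ a, g h a c ≤ ∑ _c : Co t i j, (2 : ℝ) ^ s :=
                Finset.sum_le_sum fun c _ => hgs h c
            _ = 2 ^ s * K := by rw [Finset.sum_const, Finset.card_univ, nsmul_eq_mul, mul_comm]
      _ = tot w * 2 ^ s := by rw [← Finset.sum_mul]; rfl
      _ ≤ 1 * 2 ^ s := mul_le_mul_of_nonneg_right hw1 (by positivity)
      _ = 2 ^ s := one_mul _
  have hpr : ∑ h, w h * ((∑ c : Co t (i + l) (j + l), Bd h c) / K')
      = pr (pw w (Co t (i + l) (j + l)))
          {p | 2 ^ s < Nat.card (S.ls w (i + l) (j + l) 1 (S.dat (i + l) (j + l) p))} := by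
    rw [hK', ← sum_pw w (C := Co t (i + l) (j + l)) (fun h c => Bd h c)]
    unfold pr tot ind
    refine Finset.sum_congr rfl fun p _ => ?_
    by_cases hp : 2 ^ s < Nat.card (S.ls w (i + l) (j + l) 1 (S.dat (i + l) (j + l) (p.1, p.2)))
    · rw [Set.indicator_of_mem (by exact hp)]
      simp only [hBd]
      rw [if_pos hp, mul_one]
    · rw [Set.indicator_of_notMem (by exact hp)]
      simp only [hBd]
      rw [if_neg hp, mul_zero]
  have hvis : ∑ h, w h * ∑ a, q h a * ((∑ c : Co t (i + l) (j + l), F h a c * L h a c) / K')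
      ≤ 2 ^ s * pr (pw w (Co t (i + l) (j + l)))
          {p | 2 ^ s < Nat.card (S.ls w (i + l) (j + l) 1 (S.dat (i + l) (j + l) p))}
        + 2 ^ (s + 1) * θ + 2 ^ s * (1 / 2) ^ l / θ := by
    have h1 : ∀ h, ∑ a, q h a * ((∑ c : Co t (i + l) (j + l), F h a c * L h a c) / K')
        ≤ 2 ^ s * ((∑ c : Co t (i + l) (j + l), Bd h c) / K') + 2 ^ (s + 1) * θ
          + ((1 / 2) ^ l / θ) * ∑ a, ((∑ c, g h a c) / K) := by
      intro h
      have h2 : ∑ a, q h a * ((∑ c : Co t (i + l) (j + l), F h a c * L h a c) / K')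
          = (∑ c : Co t (i + l) (j + l), ∑ a, q h a * (F h a c * L h a c)) / K' := by
        rw [Finset.sum_comm, Finset.sum_div]
        refine Finset.sum_congr rfl fun a _ => ?_
        rw [← Finset.mul_sum, mul_div_assoc]
      have h3 : (∑ c : Co t (i + l) (j + l), ∑ a, q h a * (F h a c * L h a c)) / K'
          ≤ (∑ c : Co t (i + l) (j + l), (2 ^ s * Bd h c + 2 ^ (s + 1) * θ
            + ∑ a, (F h a c - S.pa w i j k s h a) ^ 2 / θ)) / K' := by
        refine div_le_div_of_nonneg_right (Finset.sum_le_sum fun c _ => hpt h c) hK'0.le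
      have h4 : (∑ c : Co t (i + l) (j + l), (2 ^ s * Bd h c + 2 ^ (s + 1) * θ
            + ∑ a, (F h a c - S.pa w i j k s h a) ^ 2 / θ)) / K'
          = 2 ^ s * ((∑ c : Co t (i + l) (j + l), Bd h c) / K') + 2 ^ (s + 1) * θ
            + ∑ a, ((∑ c : Co t (i + l) (j + l), (F h a c - S.pa w i j k s h a) ^ 2) / K') / θ := by
        rw [Finset.sum_add_distrib, Finset.sum_add_distrib, Finset.sum_const, Finset.card_univ,
          nsmul_eq_mul, ← Finset.mul_sum, ← hK', Finset.sum_comm]
        have h5 : ∀ a : V n, ∑ c : Co t (i + l) (j + l), (F h a c - S.pa w i j k s h a) ^ 2 / θ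
            = (∑ c : Co t (i + l) (j + l), (F h a c - S.pa w i j k s h a) ^ 2) / θ :=
          fun a => (Finset.sum_div _ _ _).symm
        rw [Finset.sum_congr rfl fun a _ => h5 a, add_div, add_div]
        congr 1
        · congr 1
          · rw [mul_div_assoc]
          · field_simp
        · rw [Finset.sum_div]
          refine Finset.sum_congr rfl fun a _ => ?_
          rw [div_div, div_div, mul_comm]
      have h6 : ∑ a, ((∑ c : Co t (i + l) (j + l), (F h a c - S.pa w i j k s h a) ^ 2) / K') / θ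
          ≤ ((1 / 2) ^ l / θ) * ∑ a, ((∑ c, g h a c) / K) := by
        rw [Finset.mul_sum]
        refine Finset.sum_le_sum fun a _ => ?_
        calc ((∑ c : Co t (i + l) (j + l), (F h a c - S.pa w i j k s h a) ^ 2) / K') / θ
            ≤ ((1 / 2) ^ l * ((∑ c, g h a c) / K)) / θ :=
              div_le_div_of_nonneg_right (hvar h a) hθ.le
          _ = ((1 / 2) ^ l / θ) * ((∑ c, g h a c) / K) := by ring
      rw [h2]
      linarith
    calc ∑ h, w h * ∑ a, q h a * ((∑ c : Co t (i + l) (j + l), F h a c * L h a c) / K')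
        ≤ ∑ h, w h * (2 ^ s * ((∑ c : Co t (i + l) (j + l), Bd h c) / K') + 2 ^ (s + 1) * θ
          + ((1 / 2) ^ l / θ) * ∑ a, ((∑ c, g h a c) / K)) :=
          Finset.sum_le_sum fun h _ => mul_le_mul_of_nonneg_left (h1 h) (hw h)
      _ = 2 ^ s * ∑ h, w h * ((∑ c : Co t (i + l) (j + l), Bd h c) / K')
          + tot w * (2 ^ (s + 1) * θ)
          + ((1 / 2) ^ l / θ) * ∑ h, w h * ∑ a, ((∑ c, g h a c) / K) := by
          unfold tot
          rw [Finset.mul_sum, Finset.mul_sum, Finset.sum_mul, ← Finset.sum_add_distrib,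
            ← Finset.sum_add_distrib]
          refine Finset.sum_congr rfl fun h _ => ?_
          ring
      _ ≤ 2 ^ s * ∑ h, w h * ((∑ c : Co t (i + l) (j + l), Bd h c) / K')
          + 1 * (2 ^ (s + 1) * θ) + ((1 / 2) ^ l / θ) * 2 ^ s := by
          have h7 : tot w * (2 ^ (s + 1) * θ) ≤ 1 * (2 ^ (s + 1) * θ) :=
            mul_le_mul_of_nonneg_right hw1 (by positivity)
          have h8 : ((1 / 2) ^ l / θ) * ∑ h, w h * ∑ a, ((∑ c, g h a c) / K)
              ≤ ((1 / 2) ^ l / θ) * 2 ^ s := mul_le_mul_of_nonneg_left hgsum (by positivity)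
          linarith
      _ = _ := by
          rw [hpr]
          ring
  -- conclusion
  have hfin : ∑ h, w h * ∑ a, q h a * ((∑ c, g h a c) / K)
      = ∑ h, w h * ∑ a, q h a *
          ((∑ c : Co t (i + l) (j + l), g h a (ini l l c) * (1 - L h a c)) / K')
        + ∑ h, w h * ∑ a, q h a * ((∑ c : Co t (i + l) (j + l), F h a c * L h a c) / K') := by
    rw [← Finset.sum_add_distrib]
    refine Finset.sum_congr rfl fun h _ => ?_
    rw [← mul_add, ← Finset.sum_add_distrib]
    congr 1
    refine Finset.sum_congr rfl fun a _ => ?_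
    rw [hsplit h a, Finset.sum_add_distrib, add_div, mul_add]
  rw [hlhs, hfin]
  linarith

end Pool.Agent.NJ
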