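import Pool.Agent.NJ.Corner84
import Pool.Agent.NJ.Brm85
import Pool.Agent.NJ.Rot84

/-!
S19271, row MODEL: the ring data of a window of a word (coin brooms of `Brm85`).
-/

set_option autoImplicit false

namespace Pool.Agent.CutSeq.NJ

open Finset Pool.Agent.NJ

variable {B L : ℕ}

/-! #### the bilinear corner -/

theorem qv_add (α : Seq) (a n : ℕ) (ξ ξ' : Fin L → ZMod 2) (s : ℕ) :
    qv α L a n (ξ + ξ') s = qv α L a n ξ s + qv α L a n ξ' s := by
  unfold qv
  rw [← Finset.sum_add_distrib]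
  refine Finset.sum_congr rfl fun r _ => ?_
  split_ifs
  · rw [Pi.add_apply, add_mul]
  · rw [add_zero]

theorem qv_smul (α : Seq) (a n : ℕ) (u : ZMod 2) (ξ : Fin L → ZMod 2) (s : ℕ) :
    qv α L a n (u • ξ) s = u • qv α L a n ξ s := by
  unfold qv
  rw [Finset.smul_sum]
  refine Finset.sum_congr rfl fun r _ => ?_
  split_ifs
  · rw [Pi.smul_apply, smul_eq_mul, smul_eq_mul, mul_assoc]
  · rw [smul_zero]

/-- the corner bit as a bilinear form of the coins -/
noncomputable def crnL (α : Seq) (L a n : ℕ) : V L →ₗ[ZMod 2] V L →ₗ[ZMod 2] ZMod 2 :=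
  LinearMap.mk₂ (ZMod 2) (fun ξ c => crn α L a n ξ c)
    (by
      intro ξ ξ' c
      simp only [crn]
      rw [← Finset.sum_add_distrib]
      refine Finset.sum_congr rfl fun s _ => ?_
      split_ifs
      · rw [qv_add, mul_add]
      · rw [add_zero])
    (by
      intro u ξ c
      simp only [crn]
      rw [Finset.smul_sum]
      refine Finset.sum_congr rfl fun s _ => ?_
      split_ifs
      · rw [qv_smul, smul_eq_mul, smul_eq_mul]
        ring
      · rw [smul_zero])
    (by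
      intro ξ c c'
      simp only [crn]
      rw [← Finset.sum_add_distrib]
      refine Finset.sum_congr rfl fun s _ => ?_
      split_ifs
      · rw [Pi.add_apply, add_mul]
      · rw [add_zero])
    (by
      intro u ξ c
      simp only [crn]
      rw [Finset.smul_sum]
      refine Finset.sum_congr rfl fun s _ => ?_
      split_ifs
      · rw [Pi.smul_apply, smul_eq_mul, smul_eq_mul, mul_assoc]
      · rw [smul_zero])

theorem crnL_apply (α : Seq) (a n : ℕ) (ξ c : V L) : crnL α L a n ξ c = crn α L a n ξ c := rfl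

/-! #### the ring data -/

/-- ring data of the window `[a, a + n)` -/
noncomputable def rg (B L a n : ℕ) : Rg (Wd B L) (Un n) L L n n where
  m := fun ω => wm (ext ω) L a n
  X := fun ω => coinL (ext ω) L (a + n) (fun i => lowW (ext ω) i a n)
  Y := fun ω => coinL (ext ω) L a (fun i => colV (ext ω) L i a n)
  C := fun ω => crnL (ext ω) L a n

theorem rg_m (a n : ℕ) (ω : Wd B L) : (rg B L a n).m ω = wm (ext ω) L a n := rfl

theorem rg_X (a n : ℕ) (ω : Wd B L) (ξ : V L) : (rg B L a n).X ω ξ = Xc (ext ω) L a n ξ :=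
  (Xc_eq (ext ω) a n ξ).symm

theorem rg_Y (a n : ℕ) (ω : Wd B L) (c : V L) : (rg B L a n).Y ω c = Yc (ext ω) L a n c :=
  (Yc_eq (ext ω) a n c).symm

theorem rg_C (a n : ℕ) (ω : Wd B L) (ξ c : V L) :
    (rg B L a n).C ω ξ c = crn (ext ω) L a n ξ c := rfl

theorem range_rg_X (a n : ℕ) (ω : Wd B L) :
    LinearMap.range ((rg B L a n).X ω) = TR (ext ω) L a n := (TR_eq_range (ext ω) a n).symm

theorem range_rg_Y (a n : ℕ) (ω : Wd B L) :
    LinearMap.range ((rg B L a n).Y ω) = TC (ext ω) L a n := (TC_eq_range (ext ω) a n).symm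

/-- the broom of a window -/
theorem obs_rg {I J : Type*} (a n : ℕ) (ω : Wd B L) (ξ : I → V L) (η : J → V L) :
    obs (rg B L a n) ω ξ η = (wm (ext ω) L a n, (fun l => Xc (ext ω) L a n (ξ l)),
      (fun b => Yc (ext ω) L a n (η b)), fun l b => crn (ext ω) L a n (ξ l) (η b)) := by
  refine Prod.ext rfl (Prod.ext ?_ (Prod.ext ?_ ?_))
  · funext l
    exact rg_X a n ω (ξ l)
  · funext b
    exact rg_Y a n ω (η b)
  · funext l b
    exact rg_C a n ω (ξ l) (η b)

/-! #### histories -/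

theorem SameW.rg_m {a n : ℕ} {ω ω' : Wd B L} (h : SameW a n ω ω') :
    (rg B L a n).m ω = (rg B L a n).m ω' := h.wm_eq

theorem SameW.rg_X {a n : ℕ} {ω ω' : Wd B L} (h : SameW a n ω ω') :
    (rg B L a n).X ω = (rg B L a n).X ω' := by
  refine LinearMap.ext fun ξ => ?_
  rw [NJ.rg_X, NJ.rg_X]
  exact h.Xc_eq ξ

theorem SameW.rg_Y {a n : ℕ} {ω ω' : Wd B L} (h : SameW a n ω ω') :
    (rg B L a n).Y ω = (rg B L a n).Y ω' := by
  refine LinearMap.ext fun c => ?_
  rw [NJ.rg_Y, NJ.rg_Y]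
  exact h.Yc_eq c

theorem SameW.rg_C {a n : ℕ} {ω ω' : Wd B L} (h : SameW a n ω ω') (hn : 1 ≤ n) :
    (rg B L a n).C ω = (rg B L a n).C ω' := by
  refine LinearMap.ext fun ξ => LinearMap.ext fun c => ?_
  rw [NJ.rg_C, NJ.rg_C]
  exact h.crn_eq hn ξ c

theorem SameW.obs_eq {a n : ℕ} {ω ω' : Wd B L} (h : SameW a n ω ω') (hn : 1 ≤ n) {I J : Type*}
    (ξ : I → V L) (η : J → V L) : obs (rg B L a n) ω ξ η = obs (rg B L a n) ω' ξ η := by
  unfold obs
  rw [h.rg_m, h.rg_X, h.rg_Y, h.rg_C hn]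

/-! #### rotation -/

/-- entries of the rotated word, seen from any starting time -/
theorem Mst_rot (d s l k j : ℕ) (hk : k + d ≤ B) (ω : Wd B L) :
    Mst (shift (ext (rot B L d ω)) s) l k j = Mst (shift (ext ω) s) l (k + d) (j + d) := by
  induction d generalizing k j with
  | zero => rfl
  | succ d ih =>
    rw [← Mst_tau s l k j (by omega), tau_rot_succ, ih (k + 1) (j + 1) (by omega)]
    rw [show k + 1 + d = k + (d + 1) by ring, show j + 1 + d = j + (d + 1) by ring]

theorem Mst_rot' (d l k j : ℕ) (hk : k + d ≤ B) (ω : Wd B L) :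
    Mst (ext (rot B L d ω)) l k j = Mst (ext ω) l (k + d) (j + d) := by
  have h := Mst_rot d 0 l k j hk ω
  rwa [shift_zero, shift_zero] at h

/-- rings of the rotated word -/
theorem bond_rot (d c : ℕ) (hc : 1 ≤ c) (hd : c + d ≤ B) (ω : Wd B L) (i : ℕ) (hi : i < L) :
    (ext (rot B L d ω) i).1 + 1 = c ↔ (ext ω i).1 + 1 = c + d := by
  induction d generalizing c with
  | zero => exact Iff.rfl
  | succ d ih =>
    have h1 := ih (c + 1) (by omega) (by omega)
    rw [← tau_rot_succ, ext_tau _ hi] at h1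
    simp only at h1
    rw [show c + (d + 1) = c + 1 + d by ring, ← h1]
    have h2 := ext_fst_lt (rot B L (d + 1) ω) hi
    split_ifs with h3
    · omega
    · omega

theorem Xl_rot31 (d k j : ℕ) (hk : 1 ≤ k) (hd : k + d ≤ B) (ω : Wd B L) (ξ : Fin L → ZMod 2) :
    Xl (ext (rot B L d ω)) L k ξ j = Xl (ext ω) L (k + d) ξ (j + d) := by
  unfold Xl
  refine Finset.sum_congr rfl fun r _ => ?_
  have h := bond_rot d k hk hd ω r.val r.isLt
  by_cases h1 : (ext ω r.val).1 + 1 = k + d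
  · rw [if_pos (h.2 h1), if_pos h1, Mst_rot' d r.val (k - 1) j (by omega),
      show k - 1 + d = k + d - 1 by omega]
  · rw [if_neg (fun h2 => h1 (h.1 h2)), if_neg h1]

theorem Xc_rot31 (d c n : ℕ) (hn : 1 ≤ n) (h : c + d + n ≤ B) (ω : Wd B L) (ξ : Fin L → ZMod 2) :
    Xc (ext (rot B L d ω)) L c n ξ = Xc (ext ω) L (c + d) n ξ := by
  funext j
  unfold Xc
  rw [Xl_rot31 d (c + n) (c + j.val) (by omega) (by omega),
    show c + n + d = c + d + n by ring, show c + j.val + d = c + d + j.val by ring]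

theorem colV_rot31 (d c n s : ℕ) (h : c + d + n ≤ B) (ω : Wd B L) :
    colV (ext (rot B L d ω)) L s c n = colV (ext ω) L s (c + d) n := by
  funext k
  unfold colV
  rw [Mst_rot d (s + 1) (L - (s + 1)) (c + k.val) c (by have := k.isLt; omega),
    show c + k.val + d = c + d + k.val by ring]

theorem Yc_rot31 (d c n : ℕ) (hc : 1 ≤ c) (h : c + d + n ≤ B) (ω : Wd B L) (η : Fin L → ZMod 2) :
    Yc (ext (rot B L d ω)) L c n η = Yc (ext ω) L (c + d) n η := by
  unfold Yc
  refine Finset.sum_congr rfl fun r _ => ?_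
  have h0 := bond_rot d c hc (by omega) ω r.val r.isLt
  by_cases h1 : (ext ω r.val).1 + 1 = c + d
  · rw [if_pos (h0.2 h1), if_pos h1, colV_rot31 d c n r.val h]
  · rw [if_neg (fun h2 => h1 (h0.1 h2)), if_neg h1]

theorem qv_rot31 (d c n s : ℕ) (hn : 1 ≤ n) (h : c + d + n ≤ B) (ω : Wd B L)
    (ξ : Fin L → ZMod 2) : qv (ext (rot B L d ω)) L c n ξ s = qv (ext ω) L (c + d) n ξ s := by
  unfold qv
  refine Finset.sum_congr rfl fun r _ => ?_
  have h0 := bond_rot d (c + n) (by omega) (by omega) ω r.val r.isLt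
  by_cases h1 : s < r.val ∧ (ext ω r.val).1 + 1 = c + d + n
  · rw [if_pos ⟨h1.1, h0.2 (by omega)⟩, if_pos h1,
      Mst_rot d (s + 1) (r.val - (s + 1)) (c + n - 1) c (by omega),
      show c + n - 1 + d = c + d + n - 1 by omega]
  · rw [if_neg (fun h2 => h1 ⟨h2.1, by have := h0.1 h2.2; omega⟩), if_neg h1]

theorem crn_rot31 (d c n : ℕ) (hc : 1 ≤ c) (hn : 1 ≤ n) (h : c + d + n ≤ B) (ω : Wd B L)
    (ξ η : Fin L → ZMod 2) : crn (ext (rot B L d ω)) L c n ξ η = crn (ext ω) L (c + d) n ξ η := by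
  unfold crn
  refine Finset.sum_congr rfl fun r _ => ?_
  have h0 := bond_rot d c hc (by omega) ω r.val r.isLt
  by_cases h1 : (ext ω r.val).1 + 1 = c + d
  · rw [if_pos (h0.2 h1), if_pos h1, qv_rot31 d c n r.val hn h]
  · rw [if_neg (fun h2 => h1 (h0.1 h2)), if_neg h1]

/-- the broom of a window of the rotated word -/
theorem obs_rot {I J : Type*} (d c n : ℕ) (hc : 1 ≤ c) (hn : 1 ≤ n) (h : c + d + n ≤ B)
    (ω : Wd B L) (ξ : I → V L) (η : J → V L) :
    obs (rg B L c n) (rot B L d ω) ξ η = obs (rg B L (c + d) n) ω ξ η := by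
  rw [obs_rg, obs_rg]
  refine Prod.ext ?_ (Prod.ext ?_ (Prod.ext ?_ ?_))
  · exact wm_rot d c n h ω
  · funext l
    exact Xc_rot31 d c n hn h ω (ξ l)
  · funext b
    exact Yc_rot31 d c n hc h ω (η b)
  · funext l b
    exact crn_rot31 d c n hc hn h ω (ξ l) (η b)

end Pool.Agent.CutSeq.NJ
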