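import Pool.Agent.NJ.RkA8

/-!
S19271, target B, holes: one box whose expected corner ranks are close to the suprema for two gaps.
-/

set_option autoImplicit false

namespace Pool.Agent.CutFull

open Finset Matrix Filter Topology Pool.Agent.Helper8.UT

theorem crk_mid_le55 {N : ℕ} (s n : ℕ) (h : s + n ≤ N) (a b : ℕ) (A : MM N) :
    crk a b (mid s n h A) ≤ crk (s + a) (s + b) A := by
  unfold crk
  refine rank_ext _ _ (fun i => some ⟨s + i.val, by omega⟩) (fun i => some ⟨s + i.val, by omega⟩) ?_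
  intro i j
  simp only [Option.elim]
  unfold cblk mid
  by_cases h1 : i.val < a ∧ b ≤ j.val
  · rw [if_pos h1, if_pos]
    constructor
    · change s + i.val < s + a
      omega
    · change s + b ≤ s + j.val
      omega
  · rw [if_neg h1, if_neg]
    rintro ⟨h2, h3⟩
    change s + i.val < s + a at h2
    change s + b ≤ s + j.val at h3
    apply h1
    constructor <;> omega

/-- larger boxes have larger expected corner ranks -/
theorem cg_mono55 {n a s N g : ℕ} (h : s + n ≤ N) {t : ℝ} (ht : 0 ≤ t) :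
    cg8 n a g t ≤ cg8 N (s + a) g t := by
  unfold cg8
  rw [← EE_mid s n h t (fun A => (crk a (a + g) A : ℝ))]
  refine EE_mono ht fun A _ => ?_
  have h1 := crk_mid_le55 s n h a (a + g) A
  rw [← add_assoc] at h1
  exact_mod_cast h1

/-- one box for two gaps, and all larger boxes -/
theorem box8 {t : ℝ} (ht : 0 ≤ t) (g g' : ℕ) : ∃ N a : ℕ, a + g ≤ N ∧ a + g' ≤ N ∧
    ∀ N₁ a₁ : ℕ, a ≤ a₁ → N - a ≤ N₁ - a₁ → a₁ ≤ N₁ →
      Gg8 g t - 1 ≤ cg8 N₁ a₁ g t ∧ Gg8 g' t - 1 ≤ cg8 N₁ a₁ g' t := by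
  obtain ⟨⟨n₁, b₁⟩, h₁⟩ := exists_lt_of_lt_ciSup
    (show Gg8 g t - 1 < ⨆ p : ℕ × ℕ, cg8 p.1 p.2 g t by unfold Gg8; linarith)
  obtain ⟨⟨n₂, b₂⟩, h₂⟩ := exists_lt_of_lt_ciSup
    (show Gg8 g' t - 1 < ⨆ p : ℕ × ℕ, cg8 p.1 p.2 g' t by unfold Gg8; linarith)
  simp only at h₁ h₂
  refine ⟨b₁ + b₂ + (n₁ + n₂ + g + g'), b₁ + b₂, by omega, by omega, ?_⟩
  intro N₁ a₁ ha hN haN
  constructor
  · have h3 := cg_mono55 (n := n₁) (a := b₁) (s := a₁ - b₁) (N := N₁) (g := g) (by omega) ht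
    have e : a₁ - b₁ + b₁ = a₁ := by omega
    rw [e] at h3
    linarith
  · have h3 := cg_mono55 (n := n₂) (a := b₂) (s := a₁ - b₂) (N := N₁) (g := g') (by omega) ht
    have e : a₁ - b₂ + b₂ = a₁ := by omega
    rw [e] at h3
    linarith

end Pool.Agent.CutFull
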