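import Pool.Agent.NJ.LemV85
import Pool.Agent.NJ.Dec97
import Pool.Agent.NJ.Rob86

/-!
Lemma V for vectors which are uniform on a subspace, and the robust inequalities (R1), (R) in the
notation of `Dec97`.
-/

set_option autoImplicit false

namespace Pool.Agent.NJ

open Finset Pool.Agent.CutSeq Pool.Agent.CutSeq.NJ

section LV

variable {n i l : ℕ}

/-- every subspace is the range of a linear map -/
lemma exists_range (T : Submodule (ZMod 2) (V n)) :
    ∃ L : V n →ₗ[ZMod 2] V n, LinearMap.range L = T := by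
  obtain ⟨q, hq⟩ := LinearMap.exists_leftInverse_of_injective T.subtype
    (LinearMap.ker_eq_bot.2 T.injective_subtype)
  refine ⟨T.subtype ∘ₗ q, ?_⟩
  rw [LinearMap.range_comp]
  have h1 : LinearMap.range q = ⊤ := by
    rw [LinearMap.range_eq_top]
    intro x
    exact ⟨T.subtype x, by
      have := congrArg (fun f => f x) hq
      simpa using this⟩
  rw [h1, Submodule.map_top, Submodule.range_subtype]

lemma card_V0 (κ : Type*) [Fintype κ] [DecidableEq κ] : Fintype.card (κ → V 0) = 1 := by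
  rw [Fintype.card_eq_one_iff]
  exact ⟨fun _ _ => 0, fun x => funext fun _ => funext fun j => j.elim0⟩

lemma sum_V0 (κ : Type*) [Fintype κ] [DecidableEq κ] (F : (κ → V 0) → ℝ) :
    ∑ c, F c = F (fun _ _ => 0) := by
  have : (Finset.univ : Finset (κ → V 0)) = {fun _ _ => 0} := by
    ext x
    simp only [Finset.mem_univ, Finset.mem_singleton, true_iff]
    exact funext fun _ => funext fun j => j.elim0
  rw [this, Finset.sum_singleton]

/-- Lemma V on a subspace -/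
theorem lemVT (T : Submodule (ZMod 2) (V n)) (g : (Fin i → V n) → ℝ) :
    ∑ X : Fin i → V n, ∑ Z : Fin l → V n,
      (∏ a, uT T (X a)) * (∏ b, uT T (Z b)) *
        ((∑ ρ : Fin i → Fin l → ZMod 2, g (mixv ρ X Z)) / Fintype.card (Fin i → Fin l → ZMod 2) -
          ∑ X' : Fin i → V n, (∏ a, uT T (X' a)) * g X') ^ 2 ≤
      (1 / 2) ^ l * ∑ X : Fin i → V n, (∏ a, uT T (X a)) * g X ^ 2 := by
  obtain ⟨L, rfl⟩ := exists_range T
  have hvar := lemV (P := n) (Q := 0) (I := Fin i) (J := Fin 0) (Z := Fin l) (Z' := Fin l)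
    ((1 / 2) ^ l) (by simp) (by simp)
  have h := hvar (fun c => g (fun a => L (c.1 a)))
  -- simplify the right hand side
  have e1 : (∑ c : (Fin i → V n) × (Fin 0 → V 0), g (fun a => L (c.1 a)) ^ 2) /
      (Fintype.card ((Fin i → V n) × (Fin 0 → V 0)) : ℝ) =
      ∑ X : Fin i → V n, (∏ a, uT (LinearMap.range L) (X a)) * g X ^ 2 := by
    rw [Fintype.card_prod, card_V0, mul_one, Fintype.sum_prod_type,
      ← sum_coins L i (fun X => g X ^ 2)]
    congr 1
    refine Finset.sum_congr rfl fun x _ => ?_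
    rw [sum_V0]
  have e2 : (∑ c : (Fin i → V n) × (Fin 0 → V 0), g (fun a => L (c.1 a))) /
      (Fintype.card ((Fin i → V n) × (Fin 0 → V 0)) : ℝ) =
      ∑ X : Fin i → V n, (∏ a, uT (LinearMap.range L) (X a)) * g X := by
    rw [Fintype.card_prod, card_V0, mul_one, Fintype.sum_prod_type, ← sum_coins L i g]
    congr 1
    refine Finset.sum_congr rfl fun x _ => ?_
    rw [sum_V0]
  rw [e1, e2] at h
  refine le_trans (le_of_eq ?_) h
  symm
  set μ : ℝ := ∑ X : Fin i → V n, (∏ a, uT (LinearMap.range L) (X a)) * g X with hμ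
  have hK : (Fintype.card ((Fin i → Fin l → ZMod 2) × (Fin 0 → Fin l → ZMod 2)) : ℝ) =
      Fintype.card (Fin i → Fin l → ZMod 2) := by
    rw [Fintype.card_prod]
    simp
  have hksum : ∀ c : (Fin i ⊕ Fin l → V n) × (Fin 0 ⊕ Fin l → V 0),
      (∑ k : (Fin i → Fin l → ZMod 2) × (Fin 0 → Fin l → ZMod 2),
        g (fun a => L ((mx k.1 c.1, mx k.2 c.2).1 a))) =
      ∑ ρ : Fin i → Fin l → ZMod 2,
        g (mixv ρ (fun a => L (c.1 (Sum.inl a))) (fun b => L (c.1 (Sum.inr b)))) := by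
    intro c
    rw [Fintype.sum_prod_type]
    refine Finset.sum_congr rfl fun ρ _ => ?_
    have h1 : ∀ k2 : Fin 0 → Fin l → ZMod 2,
        g (fun a => L (((mx ρ c.1, mx k2 c.2) : (Fin i → V n) × (Fin 0 → V 0)).1 a)) =
        g (mixv ρ (fun a => L (c.1 (Sum.inl a))) (fun b => L (c.1 (Sum.inr b)))) := by
      intro k2
      congr 1
      funext a
      exact map_mx L ρ c.1 a
    have h2 : (∑ k2 : Fin 0 → Fin l → ZMod 2,
        g (fun a => L (((mx ρ c.1, mx k2 c.2) : (Fin i → V n) × (Fin 0 → V 0)).1 a))) =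
        ∑ _k2 : Fin 0 → Fin l → ZMod 2,
          g (mixv ρ (fun a => L (c.1 (Sum.inl a))) (fun b => L (c.1 (Sum.inr b)))) :=
      Finset.sum_congr rfl fun k2 _ => h1 k2
    rw [h2]
    simp
  have hmain : (∑ c : (Fin i ⊕ Fin l → V n) × (Fin 0 ⊕ Fin l → V 0),
      ((∑ k : (Fin i → Fin l → ZMod 2) × (Fin 0 → Fin l → ZMod 2),
        g (fun a => L ((mx k.1 c.1, mx k.2 c.2).1 a))) /
          (Fintype.card ((Fin i → Fin l → ZMod 2) × (Fin 0 → Fin l → ZMod 2)) : ℝ) - μ) ^ 2) =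
      ∑ x : Fin i → V n, ∑ z : Fin l → V n,
        ((∑ ρ : Fin i → Fin l → ZMod 2, g (mixv ρ (fun a => L (x a)) (fun b => L (z b)))) /
          (Fintype.card (Fin i → Fin l → ZMod 2) : ℝ) - μ) ^ 2 := by
    rw [Fintype.sum_prod_type, ← Fintype.sum_prod_type'
      (f := fun (x : Fin i → V n) (z : Fin l → V n) =>
        ((∑ ρ : Fin i → Fin l → ZMod 2, g (mixv ρ (fun a => L (x a)) (fun b => L (z b)))) /
          (Fintype.card (Fin i → Fin l → ZMod 2) : ℝ) - μ) ^ 2)]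
    rw [← Equiv.sum_comp (Equiv.sumArrowEquivProdArrow (Fin i) (Fin l) (V n)).symm
      (fun c1 : Fin i ⊕ Fin l → V n => ∑ c2 : Fin 0 ⊕ Fin l → V 0,
        ((∑ k : (Fin i → Fin l → ZMod 2) × (Fin 0 → Fin l → ZMod 2),
          g (fun a => L (((mx k.1 c1, mx k.2 c2) : (Fin i → V n) × (Fin 0 → V 0)).1 a))) /
            (Fintype.card ((Fin i → Fin l → ZMod 2) × (Fin 0 → Fin l → ZMod 2)) : ℝ) - μ) ^ 2)]
    refine Finset.sum_congr rfl fun xz _ => ?_
    rw [sum_V0]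
    have h1 := hksum ((Equiv.sumArrowEquivProdArrow (Fin i) (Fin l) (V n)).symm xz, fun _ _ => 0)
    rw [h1, hK]
    rfl
  have hcard : (Fintype.card ((Fin i ⊕ Fin l → V n) × (Fin 0 ⊕ Fin l → V 0)) : ℝ) =
      Fintype.card (Fin i → V n) * Fintype.card (Fin l → V n) := by
    rw [Fintype.card_prod, card_V0, mul_one,
      Fintype.card_congr (Equiv.sumArrowEquivProdArrow (Fin i) (Fin l) (V n)), Fintype.card_prod,
      Nat.cast_mul]
  rw [hmain, hcard]
  -- from coins to vectors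
  have s1 : ∀ x : Fin i → V n, (∑ z : Fin l → V n,
      ((∑ ρ : Fin i → Fin l → ZMod 2, g (mixv ρ (fun a => L (x a)) (fun b => L (z b)))) /
        (Fintype.card (Fin i → Fin l → ZMod 2) : ℝ) - μ) ^ 2) =
      (Fintype.card (Fin l → V n) : ℝ) * ∑ Z : Fin l → V n, (∏ b, uT (LinearMap.range L) (Z b)) *
      ((∑ ρ : Fin i → Fin l → ZMod 2, g (mixv ρ (fun a => L (x a)) Z)) /
        (Fintype.card (Fin i → Fin l → ZMod 2) : ℝ) - μ) ^ 2 := by
    intro x
    rw [← sum_coins L l (fun Z => ((∑ ρ : Fin i → Fin l → ZMod 2, g (mixv ρ (fun a => L (x a)) Z)) /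
        (Fintype.card (Fin i → Fin l → ZMod 2) : ℝ) - μ) ^ 2)]
    have hc : (Fintype.card (Fin l → V n) : ℝ) ≠ 0 := by
      have : 0 < Fintype.card (Fin l → V n) := Fintype.card_pos
      exact_mod_cast this.ne'
    field_simp
  have s2 : ∑ x : Fin i → V n, (∑ Z : Fin l → V n, (∏ b, uT (LinearMap.range L) (Z b)) *
      ((∑ ρ : Fin i → Fin l → ZMod 2, g (mixv ρ (fun a => L (x a)) Z)) /
        (Fintype.card (Fin i → Fin l → ZMod 2) : ℝ) - μ) ^ 2) =
      (Fintype.card (Fin i → V n) : ℝ) * ∑ X : Fin i → V n, (∏ a, uT (LinearMap.range L) (X a)) *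
      (∑ Z : Fin l → V n, (∏ b, uT (LinearMap.range L) (Z b)) *
      ((∑ ρ : Fin i → Fin l → ZMod 2, g (mixv ρ X Z)) /
        (Fintype.card (Fin i → Fin l → ZMod 2) : ℝ) - μ) ^ 2) := by
    rw [← sum_coins L i (fun X => ∑ Z : Fin l → V n, (∏ b, uT (LinearMap.range L) (Z b)) *
      ((∑ ρ : Fin i → Fin l → ZMod 2, g (mixv ρ X Z)) /
        (Fintype.card (Fin i → Fin l → ZMod 2) : ℝ) - μ) ^ 2)]
    have hc : (Fintype.card (Fin i → V n) : ℝ) ≠ 0 := by
      have : 0 < Fintype.card (Fin i → V n) := Fintype.card_pos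
      exact_mod_cast this.ne'
    field_simp
  simp only [s1]
  rw [← Finset.mul_sum, s2]
  have hc1 : (Fintype.card (Fin i → V n) : ℝ) ≠ 0 := by
    have : 0 < Fintype.card (Fin i → V n) := Fintype.card_pos
    exact_mod_cast this.ne'
  have hc2 : (Fintype.card (Fin l → V n) : ℝ) ≠ 0 := by
    have : 0 < Fintype.card (Fin l → V n) := Fintype.card_pos
    exact_mod_cast this.ne'
  rw [← mul_assoc, mul_comm (Fintype.card (Fin l → V n) : ℝ), mul_div_assoc, mul_comm]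
  rw [div_mul_cancel₀ _ (mul_ne_zero hc1 hc2)]
  refine Finset.sum_congr rfl fun X _ => ?_
  rw [Finset.mul_sum]
  refine Finset.sum_congr rfl fun Z _ => ?_
  ring

end LV

end Pool.Agent.NJ

namespace Pool.Agent.CutSeq.NJ

open Finset

variable {Ω B : Type*} [Fintype Ω] {n i l : ℕ}

omit [Fintype Ω] in
open Classical in
lemma pL_eq86 (T : Ω → Submodule (ZMod 2) (V n)) (m : Ω → B) (Lf : B → (Fin i → V n) → Finset (V n))
    (ω : Ω) (a : V n) :
    Pool.Agent.NJ.pL T (fun ω X => Lf (m ω) X) a ω = pL (T ω) (Lf (m ω)) a := by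
  unfold Pool.Agent.NJ.pL pL pT
  refine Finset.sum_congr rfl fun X _ => ?_
  by_cases h : a ∈ Lf (m ω) X
  · simp only [if_pos h]
  · simp only [if_neg h]

omit [Fintype Ω] in
open Classical in
lemma FL_eq86 (m : Ω → B) (Lf : B → (Fin i → V n) → Finset (V n)) (ω : Ω) (X : Fin i → V n)
    (Z : Fin l → V n) (a : V n) :
    Pool.Agent.NJ.FL (fun ω X => Lf (m ω) X) a (ω, X, Z) = FL (Lf (m ω)) X Z a := by
  unfold Pool.Agent.NJ.FL FL
  congr 1

/-- (R1) in the form needed by `dec_abs` -/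
theorem rob1_dec (w : Ω → ℝ) (hw : ∀ ω, 0 ≤ w ω) (htot : tot w ≤ 1)
    (T : Ω → Submodule (ZMod 2) (V n)) (m : Ω → B) (Lf : B → (Fin i → V n) → Finset (V n)) (Sz : ℝ)
    (hSz0 : 0 ≤ Sz) (hSz : ∀ b X, ((Lf b X).card : ℝ) ≤ Sz) :
    ∑ ω, w ω * ∑ X : Fin i → V n, pT (T ω) X * ∑ Z : Fin l → V n, pT (T ω) Z *
      ∑ a, (FL (Lf (m ω)) X Z a - pL (T ω) (Lf (m ω)) a) ^ 2 ≤ (1 / 2) ^ l * Sz := by
  classical
  have h := Pool.Agent.NJ.rob1 (i := i) (l := l) w hw T (fun ω X => Lf (m ω) X) Sz ((1 / 2) ^ l)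
    (by positivity) (fun ω X => hSz _ _) (fun ω g => Pool.Agent.NJ.lemVT (T ω) g)
  have h2 : (1 / 2 : ℝ) ^ l * Sz * tot w ≤ (1 / 2) ^ l * Sz := by
    have : 0 ≤ (1 / 2 : ℝ) ^ l * Sz := by positivity
    nlinarith
  refine le_trans (le_of_eq ?_) (h.trans h2)
  symm
  unfold sib2
  rw [Fintype.sum_prod_type]
  refine Finset.sum_congr rfl fun ω _ => ?_
  rw [Fintype.sum_prod_type, Finset.mul_sum]
  refine Finset.sum_congr rfl fun X _ => ?_
  rw [Finset.mul_sum, Finset.mul_sum]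
  refine Finset.sum_congr rfl fun Z _ => ?_
  simp only [pL_eq86, FL_eq86]
  unfold pT
  ring

open Classical in
/-- (R) in the notation of `Dec97`: the list is a function of the data and of the rows -/
theorem rob_dec (w : Ω → ℝ) (hw : ∀ ω, 0 ≤ w ω) (T T' : Ω → Submodule (ZMod 2) (V n))
    (m : Ω → B) (Lf : B → (Fin i → V n) → Finset (V n)) (Sz : ℝ)
    (hSz : ∀ b X, ((Lf b X).card : ℝ) ≤ Sz) (k : ℕ) (S2 th t : ℝ) (hS2 : 0 ≤ S2) (hth : 0 ≤ th)
    (ht : 0 < t) :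
    ∑ ω, w ω * ∑ a, (if a ∈ perp (T' ω) ∧ pL (T ω) (Lf (m ω)) a < th then
        pL (T ω) (Lf (m ω)) a else 0) ≤
      ((1 / 2) ^ k * Sz + S2 * (th + t) + (1 / 2) ^ l * Sz / (4 * t)) * tot w +
        Sz * pr (sib2 w T T i l) {p | S2 < (Nat.card (lst (sib2 w T T i l) (fun p => T' p.1)
          (fun p => (m p.1, p.2.1, p.2.2)) k (m p.1, p.2.1, p.2.2)) : ℝ)} := by
  have h := Pool.Agent.NJ.rob (i := i) (l := l) w hw T (fun ω => (perp (T' ω) : Set (V n)))
    (fun ω X Z => (m ω, X, Z)) (fun ρ b => (b.1, Pool.Agent.NJ.mixv ρ b.2.1 b.2.2, b.2.2))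
    (fun ρ ω X Z => rfl) (fun b => Lf b.1 b.2.1) (fun ω X => Lf (m ω) X) (fun ω X Z => rfl) Sz S2
    ((1 / 2) ^ k) th t ((1 / 2) ^ l) (fun ω X => hSz _ _) (by positivity) hth (by positivity) ht hS2
    (fun ω g => Pool.Agent.NJ.lemVT (T ω) g)
  refine le_trans (le_of_eq ?_) (h.trans (le_of_eq ?_))
  · rw [Pool.Agent.NJ.sum_sib2_fst w T T (fun ω X => ∑ a : V n,
      (if a ∈ (perp (T' ω) : Set (V n)) ∧ a ∈ Lf (m ω) X ∧
        Pool.Agent.NJ.pL T (fun ω X => Lf (m ω) X) a ω < th then (1 : ℝ) else 0))]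
    refine Finset.sum_congr rfl fun ω _ => ?_
    congr 1
    simp only [Finset.mul_sum]
    rw [Finset.sum_comm]
    refine Finset.sum_congr rfl fun a _ => ?_
    rw [pL_eq86]
    by_cases h1 : a ∈ perp (T' ω) ∧ pL (T ω) (Lf (m ω)) a < th
    · rw [if_pos h1]
      unfold pL pT
      refine Finset.sum_congr rfl fun X _ => ?_
      by_cases h2 : a ∈ Lf (m ω) X
      · rw [if_pos h2, if_pos ⟨h1.1, h2, h1.2⟩]
      · rw [if_neg h2, if_neg (fun h3 => h2 h3.2.1)]
    · rw [if_neg h1]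
      symm
      refine Finset.sum_eq_zero fun X _ => ?_
      rw [if_neg (fun h3 => h1 ⟨h3.1, h3.2.2⟩), mul_zero]
  · congr 3
    ext p
    simp only [Set.mem_ofPred_eq]
    have h1 : (Nat.card (lst (sib2 w T T i l) (fun p => T' p.1)
          (fun p => (m p.1, p.2.1, p.2.2)) k (m p.1, p.2.1, p.2.2))) =
        (univ.filter fun a : V n => (1 / 2 : ℝ) ^ k ≤ Pool.Agent.NJ.postF w T
          (fun ω => (perp (T' ω) : Set (V n))) (fun ω X Z => (m ω, X, Z)) a
          (Pool.Agent.NJ.fine (fun ω X Z => (m ω, X, Z)) p)).card := by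
      rw [Nat.card_eq_fintype_card, Fintype.card_subtype]
      rfl
    rw [h1]

end Pool.Agent.CutSeq.NJ
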