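import Pool.Agent.NJ.SBa38
import Pool.Agent.NJ.VT41
import Pool.Agent.NJ.LL94
import Pool.Agent.NJ.FA94
import Pool.Agent.NJ.LA76
import Pool.Agent.NJ.LA43

/-!
S19271 / NJ, row SB (helper38): the sibling inequality at one window.
-/

set_option autoImplicit false

namespace Pool.Agent.NJ

open Finset Pool.Agent.CutSeq

section SBsec

variable {H A : Type*} [Fintype H] [Fintype A] {n t : ℕ} (S : Loc H A n t)

omit [Fintype A] in
/-- Fano with the decoder of a smaller broom -/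
theorem Loc.HC_dec (w : H → ℝ) (hw : ∀ h, 0 ≤ w h) (hw1 : tot w ≤ 1) {i j : ℕ} (x y N : ℕ)
    (hnN : n ≤ N) (T' : H → Submodule (ZMod 2) (V n))
    (Dec : A × (Fin i → V n) × (Fin j → V n) → Submodule (ZMod 2) (V n)) {ε : ℝ} (hε : 0 < ε)
    (hε1 : ε ≤ 1) (hD : pr (pw w (Co t i j)) {p | Dec (S.dat i j p) ≠ T' p.1} ≤ ε) :
    HC (pw w (Co t (i + x) (j + y))) (fun p => T' p.1) (S.dat (i + x) (j + y))
      ≤ ε * ((N : ℝ) ^ 2 * Real.log 2) + (ε * Real.log (1 / ε) + ε) := by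
  classical
  set W := pw w (Co t (i + x) (j + y)) with hW
  have hW0 : ∀ p, 0 ≤ W p := pw_nonneg w hw
  set res : A × (Fin (i + x) → V n) × (Fin (j + y) → V n) → A × (Fin i → V n) × (Fin j → V n) :=
    fun z => (z.1, fun a => z.2.1 (Fin.castAdd x a), fun b => z.2.2 (Fin.castAdd y b)) with hres
  have h1 := HC_fano W hW0 (fun p => T' p.1) (S.dat (i + x) (j + y)) (fun z => Dec (res z))
  have h2 : pr W {p | Dec (res (S.dat (i + x) (j + y) p)) ≠ T' p.1} =
      pr (pw w (Co t i j)) {p | Dec (S.dat i j p) ≠ T' p.1} :=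
    pr_ini w x y {p : H × Co t i j | Dec (S.dat i j p) ≠ T' p.1}
  rw [h2] at h1
  set a := pr (pw w (Co t i j)) {p | Dec (S.dat i j p) ≠ T' p.1} with ha
  have ha0 : 0 ≤ a := by
    rw [ha]
    unfold pr
    exact tot_nonneg _ fun p => Set.indicator_nonneg (fun _ _ => pw_nonneg w hw _) _
  have htot : tot W = tot w := tot_pw w
  have ha1 : a ≤ tot W := by
    rw [htot, ← tot_pw (C := Co t i j) w, ha]
    unfold pr tot ind
    exact Finset.sum_le_sum fun p _ => Set.indicator_le_self' (fun _ _ => pw_nonneg w hw _) _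
  have h3 := HH_small (a := a) (b := tot W - a) ha0 (by linarith) (by linarith) hD hε hε1
  have h4 : Real.log (Fintype.card (Submodule (ZMod 2) (V n))) ≤ (N : ℝ) ^ 2 * Real.log 2 := by
    refine (card_sub_le n).trans ?_
    have h5 : (n : ℝ) ≤ N := by exact_mod_cast hnN
    have h6 : (n : ℝ) ^ 2 ≤ (N : ℝ) ^ 2 := pow_le_pow_left₀ (Nat.cast_nonneg n) h5 2
    exact mul_le_mul_of_nonneg_right h6 (Real.log_nonneg (by norm_num))
  have h5 : 0 ≤ (N : ℝ) ^ 2 * Real.log 2 := by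
    have := Real.log_nonneg (x := 2) (by norm_num)
    positivity
  have h6 : a * Real.log (Fintype.card (Submodule (ZMod 2) (V n))) ≤
      ε * ((N : ℝ) ^ 2 * Real.log 2) :=
    (mul_le_mul_of_nonneg_left h4 ha0).trans (mul_le_mul_of_nonneg_right hD h5)
  linarith

/-- SB: `f(i,0) ≤ M/(M-q) e(M-1,q) + m^2/(2R) f(i,R+m) + tiny` -/
theorem Loc.sibling (w : H → ℝ) (hw : ∀ h, 0 ≤ w h) (hw1 : tot w ≤ 1) (M₀ : ℝ) (hM₀ : 0 ≤ M₀)
    (I : ℕ) (hSC : S.SC w M₀ I) (hsym : ∀ j, S.U w 0 j = S.U w j 0)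
    (N i k m s r R M q : ℕ) (hnN : n ≤ N) (hk : 1 ≤ k) (hm : 1 ≤ m) (hkm : 2 * N ≤ k * m)
    (hks : k + 1 ≤ s) (hN : 64 * (N + 1) ^ 2 ≤ 2 ^ s) (hR : 1 ≤ R)
    (hM1 : i + 24 * s + 1 ≤ M) (hq1 : R + 27 * s ≤ q) (hq2 : 2 * q ≤ M)
    (hI : (i + 48 * s) + (R + r + 48 * s) ≤ I)
    (hnum : 2 * M₀ + 72 * s * Real.log 2 < ((r : ℝ) - s) * ((s : ℝ) - k - 1) * Real.log 2) :
    S.U w i 1 - S.U w i 0 ≤ (M : ℝ) / (M - q) * (S.U w M q - S.U w (M - 1) q)
      + (m : ℝ) ^ 2 / (2 * R) * (S.U w i (R + m + 1) - S.U w i (R + m))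
      + 8 * (1 / 2) ^ s + (1 / 2) ^ N := by
  classical
  have hn : n ≤ 2 ^ s := by
    have h1 : N ≤ 64 * (N + 1) ^ 2 := by nlinarith
    omega
  set f : ℕ → ℝ := fun j => S.U w i (j + 1) - S.U w i j with hf
  have hf0 : ∀ j, 0 ≤ f j := fun j => sub_nonneg.2 (S.U_mono_j w hw i j)
  have hfm : ∀ j, f j ≤ f (j + 1) := by
    intro j
    have := S.U_convex_j w hw i j
    simp only [hf]
    linarith
  have hmono : Monotone f := monotone_nat_of_le_succ hfm
  have hMq : (0 : ℝ) < (M : ℝ) - q := by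
    have h1 : (2 : ℝ) * q ≤ M := by exact_mod_cast hq2
    have h2 : (1 : ℝ) ≤ M := by
      have : 1 ≤ M := by omega
      exact_mod_cast this
    linarith
  have hMR : (2 : ℝ) ≤ M := by
    have : 2 ≤ M := by omega
    exact_mod_cast this
  have hq2R : (2 : ℝ) * q ≤ M := by exact_mod_cast hq2
  set e : ℝ := S.U w M q - S.U w (M - 1) q with he
  -- one value of `j`
  have key : ∀ j < R, f j ≤ (∑ r ∈ range m, f (j + r) - m * f j) + (M : ℝ) / (M - q) * e
      + 8 * (1 / 2) ^ s + (1 / 2) ^ N := by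
    intro j hj
    obtain ⟨T', hT, hE, Dec, hD⟩ := S.visible w hw hw1 M₀ hM₀ I hSC i j k s r hk hks hn (by omega)
      hnum
    set W := pw w (Co t i j) with hW
    have hW0 : ∀ p, 0 ≤ W p := pw_nonneg w hw
    have hWt : tot W ≤ 1 := (tot_pw (C := Co t i j) w).trans_le hw1
    have hQ := quantise W hW0 hWt (fun p => S.TC p.1) (S.dat i j) m k N hm hnN hkm
    have hu1 := S.U_sib w hw i j 1
    have hum := S.U_sib w hw i j m
    have hfs : S.U w i (j + m) - S.U w i j = ∑ r ∈ range m, f (j + r) := by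
      simp only [hf]
      exact (Finset.sum_range_sub (fun r => S.U w i (j + r)) m).symm
    have hL := S.lemmaL w hw T' hT M q (by omega) (by omega)
    have hsy := hsym M
    obtain ⟨x, hx⟩ : ∃ x, M - 1 = (i + 24 * s) + x := ⟨M - 1 - (i + 24 * s), by omega⟩
    obtain ⟨y, hy⟩ : ∃ y, q = (j + 24 * s + 3 * s) + y := ⟨q - (j + 24 * s + 3 * s), by omega⟩
    have hs6 : 6 ≤ s := by
      by_contra h
      have h1 : (2 : ℕ) ^ s ≤ 2 ^ 5 := Nat.pow_le_pow_right (by norm_num) (by omega)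
      have h2 : 64 ≤ 64 * (N + 1) ^ 2 := by nlinarith [sq_nonneg N]
      omega
    have hε0 : (0 : ℝ) < 16 * (1 / 4) ^ s := by positivity
    have hε1 : (16 : ℝ) * (1 / 4) ^ s ≤ 1 := by
      have h1 : (1 / 4 : ℝ) ^ s ≤ (1 / 4) ^ 2 :=
        pow_le_pow_of_le_one (by norm_num) (by norm_num) (by omega)
      norm_num at h1 ⊢
      linarith
    have hHC : HC (pw w (Co t (M - 1) q)) (fun p => T' p.1) (S.dat (M - 1) q)
        ≤ 16 * (1 / 4) ^ s * ((N : ℝ) ^ 2 * Real.log 2) +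
          (16 * (1 / 4) ^ s * Real.log (1 / (16 * (1 / 4) ^ s)) + 16 * (1 / 4) ^ s) := by
      rw [hx, hy]
      exact S.HC_dec w hw hw1 x y N hnN T' Dec hε0 hε1 hD
    set hc := HC (pw w (Co t (M - 1) q)) (fun p => T' p.1) (S.dat (M - 1) q) with hhc
    set F := Real.log 2 * ∑ h, w h * (Module.finrank (ZMod 2) (T' h) : ℝ) with hF
    -- the rank
    have hF1 : ((M : ℝ) - q) * F ≤ M * e + (M + 1) * hc := by
      have : ((M : ℝ) - q) * F =
          ((M : ℝ) - q) * Real.log 2 * ∑ h, w h * (Module.finrank (ZMod 2) (T' h) : ℝ) := by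
        rw [hF]; ring
      rw [this]
      linarith
    have hc0 : 0 ≤ max hc 0 := le_max_right _ _
    have hF2 : F ≤ (M : ℝ) / (M - q) * e + 3 * max hc 0 := by
      have h1 : F ≤ (M * e + (M + 1) * max hc 0) / (M - q) := by
        rw [le_div_iff₀ hMq, mul_comm]
        refine hF1.trans ?_
        have : hc ≤ max hc 0 := le_max_left _ _
        gcongr
      refine h1.trans ?_
      rw [add_div, mul_div_right_comm]
      have h2 : (M + 1) * max hc 0 / (M - q) ≤ 3 * max hc 0 := by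
        rw [div_le_iff₀ hMq]
        nlinarith
      linarith
    have herr := sb_err hN (x := max hc 0) (max_le hHC (by
      have h1 : 0 ≤ Real.log 2 := Real.log_nonneg (by norm_num)
      have h2 : 0 ≤ Real.log (1 / (16 * (1 / 4 : ℝ) ^ s)) :=
        Real.log_nonneg (by rw [le_div_iff₀ hε0]; linarith)
      positivity))
    have hf1 : f j = KK (sib W (fun p => S.TC p.1) 1) (fun p => p.2) (fun p => S.dat i j p.1) := by
      simp only [hf]
      linarith
    rw [← hf1] at hQ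
    have hm' : KK (sib W (fun p => S.TC p.1) m) (fun p => p.2) (fun p => S.dat i j p.1) =
        ∑ r ∈ range m, f (j + r) := by linarith
    rw [hm'] at hQ
    linarith
  -- the average
  have hRR : (0 : ℝ) < R := by exact_mod_cast hR
  have h1 : (R : ℝ) * f 0 ≤ ∑ j ∈ range R, f j := by
    have : ∑ _j ∈ range R, f 0 ≤ ∑ j ∈ range R, f j :=
      Finset.sum_le_sum fun j _ => hmono (Nat.zero_le j)
    rwa [Finset.sum_const, Finset.card_range, nsmul_eq_mul] at this
  have h2 : ∑ j ∈ range R, f j ≤ (m : ℝ) ^ 2 / 2 * f (R + m) +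
      R * ((M : ℝ) / (M - q) * e + 8 * (1 / 2) ^ s + (1 / 2) ^ N) := by
    refine (Finset.sum_le_sum fun j hj => key j (Finset.mem_range.1 hj)).trans ?_
    have h3 := sb_tele f hfm hf0 R m
    have h4 : ∑ j ∈ range R, (∑ r ∈ range m, f (j + r) - m * f j + (M : ℝ) / (M - q) * e
        + 8 * (1 / 2) ^ s + (1 / 2) ^ N) =
        ∑ j ∈ range R, (∑ r ∈ range m, f (j + r) - m * f j) +
        R * ((M : ℝ) / (M - q) * e + 8 * (1 / 2) ^ s + (1 / 2) ^ N) := by
      have : ∀ j, (∑ r ∈ range m, f (j + r) - m * f j + (M : ℝ) / (M - q) * e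
          + 8 * (1 / 2) ^ s + (1 / 2) ^ N) = (∑ r ∈ range m, f (j + r) - m * f j) +
          ((M : ℝ) / (M - q) * e + 8 * (1 / 2) ^ s + (1 / 2) ^ N) := fun j => by ring
      simp only [this]
      rw [Finset.sum_add_distrib, Finset.sum_const, Finset.card_range, nsmul_eq_mul]
    rw [h4]
    linarith
  have h5 : (R : ℝ) * f 0 ≤ R * ((m : ℝ) ^ 2 / (2 * R) * f (R + m) +
      ((M : ℝ) / (M - q) * e + 8 * (1 / 2) ^ s + (1 / 2) ^ N)) := by
    refine (h1.trans h2).trans (le_of_eq ?_)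
    field_simp
  have h6 := le_of_mul_le_mul_left h5 hRR
  simp only [hf] at h6
  linarith

end SBsec

end Pool.Agent.NJ
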