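import Pool.Agent.NJ.SibA89

/-!
S19271, SIB assembly, part 2: the list term.
-/

set_option autoImplicit false

namespace Pool.Agent.CutSeq.NJ.S89

open Finset Pool.Agent.CutSeq Pool.Agent.CutSeq.NJ Pool.Agent.NJ

variable {Ω A B : Type*} [Fintype Ω] [Fintype A] {n : ℕ}

/-- forgetting the last column siblings -/
lemma sum_sib2_cols (w : Ω → ℝ) (T T' : Ω → Submodule (ZMod 2) (V n)) (i : ℕ) {y y0 : ℕ}
    (h : y ≤ y0) (G : Ω → (Fin i → V n) → (Fin y → V n) → ℝ) :
    ∑ p, sib2 w T T' i y0 p * G p.1 p.2.1 (fun l => p.2.2 (Fin.castLE h l))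
      = ∑ p, sib2 w T T' i y p * G p.1 p.2.1 p.2.2 := by
  obtain ⟨t, rfl⟩ := Nat.exists_eq_add_of_le h
  rw [Fintype.sum_prod_type, Fintype.sum_prod_type]
  refine Finset.sum_congr rfl fun ω _ => ?_
  rw [Fintype.sum_prod_type, Fintype.sum_prod_type]
  refine Finset.sum_congr rfl fun x _ => ?_
  rw [← (Fin.appendEquiv (α := V n) y t).sum_comp, Fintype.sum_prod_type]
  refine Finset.sum_congr rfl fun c _ => ?_
  have h1 : ∀ c' : Fin t → V n, (fun l => (Fin.appendEquiv (α := V n) y t (c, c')) (Fin.castLE h l)) = c := by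
    intro c'
    funext l
    show Fin.append c c' (Fin.castLE h l) = c l
    have : (Fin.castLE h l : Fin (y + t)) = Fin.castAdd t l := rfl
    rw [this, Fin.append_left]
  have h2 : ∀ c' : Fin t → V n, sib2 w T T' i (y + t) (ω, x, (Fin.appendEquiv (α := V n) y t) (c, c'))
      = sib2 w T T' i y (ω, x, c) * ∏ l, uT (T' ω) (c' l) := by
    intro c'
    show sib2 w T T' i (y + t) (ω, x, Fin.append c c') = _
    unfold sib2
    simp only [Fin.prod_univ_add, Fin.append_left, Fin.append_right]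
    ring
  simp only [h1, h2]
  have h3 : ∀ c' : Fin t → V n, sib2 w T T' i y (ω, x, c) * (∏ l, uT (T' ω) (c' l)) * G ω x c
      = sib2 w T T' i y (ω, x, c) * G ω x c * ∏ l, uT (T' ω) (c' l) := fun c' => by ring
  simp only [h3]
  rw [← Finset.mul_sum, sum_prod_uT, mul_one]

/-- forgetting the row siblings -/
lemma sum_sib2_rows (w : Ω → ℝ) (T T' : Ω → Submodule (ZMod 2) (V n)) (i j : ℕ)
    (G : Ω → (Fin j → V n) → ℝ) :
    ∑ p, sib2 w T T' i j p * G p.1 p.2.2 = ∑ p, sib w T' j p * G p.1 p.2 := by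
  rw [Fintype.sum_prod_type, Fintype.sum_prod_type]
  refine Finset.sum_congr rfl fun ω _ => ?_
  rw [Fintype.sum_prod_type, Finset.sum_comm]
  refine Finset.sum_congr rfl fun c _ => ?_
  unfold sib2 sib
  simp only
  have h3 : ∀ x : Fin i → V n, w ω * (∏ l, uT (T ω) (x l)) * (∏ l, uT (T' ω) (c l)) * G ω c
      = w ω * (∏ l, uT (T' ω) (c l)) * G ω c * ∏ l, uT (T ω) (x l) := fun x => by ring
  simp only [h3]
  rw [← Finset.mul_sum, sum_prod_uT, mul_one]

lemma pr_eq_sum (w : Ω → ℝ) (E : Set Ω) : pr w E = ∑ ω, E.indicator w ω := rfl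

open Classical in
lemma pr_eq_sum_ite (w : Ω → ℝ) (E : Set Ω) : pr w E = ∑ ω, w ω * (if ω ∈ E then 1 else 0) := by
  rw [pr_eq_sum]
  refine Finset.sum_congr rfl fun ω _ => ?_
  by_cases h : ω ∈ E
  · rw [Set.indicator_of_mem h, if_pos h, mul_one]
  · rw [Set.indicator_of_notMem h, if_neg h, mul_zero]

lemma card_submod (W : Submodule (ZMod 2) (V n)) :
    Real.log (Nat.card W) = Module.finrank (ZMod 2) W * Real.log 2 := by
  have h1 : Nat.card W = 2 ^ Module.finrank (ZMod 2) W := by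
    rw [Module.natCard_eq_pow_finrank (K := ZMod 2) (V := W)]
    simp
  rw [h1]
  push_cast
  rw [Real.log_pow]

lemma log_card_le_V (s : Set (V n)) : Real.log (Nat.card s) ≤ n * Real.log 2 := by
  classical
  have h1 : Nat.card s ≤ 2 ^ n := by
    calc Nat.card s ≤ Nat.card (V n) := Nat.card_le_card_of_injective (fun x : s => (x : V n))
          Subtype.val_injective
      _ = 2 ^ n := by simp [V]
  rcases Nat.eq_zero_or_pos (Nat.card s) with h | h
  · rw [h]
    simp only [Nat.cast_zero, Real.log_zero]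
    have := Real.log_nonneg (by norm_num : (1 : ℝ) ≤ 2)
    positivity
  · calc Real.log (Nat.card s) ≤ Real.log ((2 : ℝ) ^ n) := by
          refine Real.log_le_log (by exact_mod_cast h) ?_
          exact_mod_cast h1
      _ = n * Real.log 2 := by rw [Real.log_pow]

/-- the bad event: a relation of the columns in the list of the coarser data which is not in `W` -/
def missed (w : Ω → ℝ) (T T' : Ω → Submodule (ZMod 2) (V n)) (m : Ω → A) (i y y0 k : ℕ)
    (h : y ≤ y0) (W : Ω × (Fin y0 → V n) → Submodule (ZMod 2) (V n)) :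
    Set (Ω × (Fin i → V n) × (Fin y0 → V n)) :=
  {p | ∃ a, a ∈ perp (T' p.1) ∧
    a ∈ lst (sib2 w T T' i y) (fun p => T' p.1) (fun p => (m p.1, p.2.1, p.2.2)) k
      (m p.1, p.2.1, fun l => p.2.2 (Fin.castLE h l)) ∧ a ∉ W (p.1, p.2.2)}

/-- one column sibling: quantised bound -/
theorem col_le (w : Ω → ℝ) (hw : ∀ ω, 0 ≤ w ω) (htot : tot w ≤ 1)
    (T T' : Ω → Submodule (ZMod 2) (V n)) (m : Ω → A) (i y y0 q k N : ℕ) (h : y ≤ y0)
    (W : Ω × (Fin y0 → V n) → Submodule (ZMod 2) (V n)) (hq : 1 ≤ q) (hnN : n ≤ N)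
    (hkq : 2 * N ≤ k * q) :
    UU w T T' m i (y + 1) - UU w T T' m i y
      ≤ ((UU w T T' m i (y + q) - UU w T T' m i y)
          - q * (UU w T T' m i (y + 1) - UU w T T' m i y))
        + Real.log 2 * ∑ p, sib w T' y0 p * (Module.finrank (ZMod 2) (W p) : ℝ)
        + n * Real.log 2 * pr (sib2 w T T' i y0) (missed w T T' m i y y0 k h W)
        + (1 / 2) ^ N := by
  classical
  have hW2 : ∀ p, 0 ≤ sib2 w T T' i y p := sib2_nonneg89 w hw T T' i y
  have hW0 : ∀ p, 0 ≤ sib2 w T T' i y0 p := sib2_nonneg89 w hw T T' i y0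
  have hq1 := quantise (sib2 w T T' i y) hW2 (by rw [tot_sib2_89]; exact htot)
    (fun p => T' p.1) (fun p => (m p.1, p.2.1, p.2.2)) q k N hq hnN hkq
  have hU1 := UU_add w hw T T' m i y 1
  have hUq := UU_add w hw T T' m i y q
  unfold US at hU1 hUq
  rw [hU1, hUq] at hq1
  -- the list term
  set G : Ω → (Fin i → V n) → (Fin y → V n) → ℝ := fun ω x c =>
    Real.log (Nat.card {a : V n // a ∈ perp (T' ω) ∧
      a ∈ lst (sib2 w T T' i y) (fun p => T' p.1) (fun p => (m p.1, p.2.1, p.2.2)) k (m ω, x, c)})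
    with hG
  have h1 : ∑ p : Ω × (Fin i → V n) × (Fin y → V n), sib2 w T T' i y p *
      Real.log (Nat.card {a : V n // a ∈ perp (T' p.1) ∧
        a ∈ lst (sib2 w T T' i y) (fun p => T' p.1) (fun p => (m p.1, p.2.1, p.2.2)) k
          (m p.1, p.2.1, p.2.2)})
      = ∑ p, sib2 w T T' i y0 p * G p.1 p.2.1 (fun l => p.2.2 (Fin.castLE h l)) :=
    (sum_sib2_cols w T T' i h G).symm
  have h2 : ∀ p : Ω × (Fin i → V n) × (Fin y0 → V n),
      G p.1 p.2.1 (fun l => p.2.2 (Fin.castLE h l))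
        ≤ Real.log 2 * (Module.finrank (ZMod 2) (W (p.1, p.2.2)) : ℝ)
          + n * Real.log 2 * (if p ∈ missed w T T' m i y y0 k h W then 1 else 0) := by
    intro p
    have hl2 : 0 ≤ Real.log 2 := Real.log_nonneg (by norm_num)
    by_cases hp : p ∈ missed w T T' m i y y0 k h W
    · rw [if_pos hp, mul_one]
      have : G p.1 p.2.1 (fun l => p.2.2 (Fin.castLE h l)) ≤ n * Real.log 2 := log_card_le_V _
      have h3 : 0 ≤ Real.log 2 * (Module.finrank (ZMod 2) (W (p.1, p.2.2)) : ℝ) := by positivity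
      linarith
    · rw [if_neg hp, mul_zero, add_zero]
      have hsub : {a : V n | a ∈ perp (T' p.1) ∧
          a ∈ lst (sib2 w T T' i y) (fun p => T' p.1) (fun p => (m p.1, p.2.1, p.2.2)) k
            (m p.1, p.2.1, fun l => p.2.2 (Fin.castLE h l))} ⊆ (W (p.1, p.2.2) : Set (V n)) := by
        intro a ha
        by_contra hn
        exact hp ⟨a, ha.1, ha.2, hn⟩
      have hcard : Nat.card {a : V n // a ∈ perp (T' p.1) ∧
          a ∈ lst (sib2 w T T' i y) (fun p => T' p.1) (fun p => (m p.1, p.2.1, p.2.2)) k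
            (m p.1, p.2.1, fun l => p.2.2 (Fin.castLE h l))} ≤ Nat.card (W (p.1, p.2.2)) := by
        refine Nat.card_le_card_of_injective (fun x => ⟨x.1, hsub x.2⟩) ?_
        intro x x' hxx
        exact Subtype.ext (congrArg (fun z : W (p.1, p.2.2) => (z : V n)) hxx)
      rw [mul_comm, ← card_submod]
      rcases Nat.eq_zero_or_pos (Nat.card {a : V n // a ∈ perp (T' p.1) ∧
          a ∈ lst (sib2 w T T' i y) (fun p => T' p.1) (fun p => (m p.1, p.2.1, p.2.2)) k
            (m p.1, p.2.1, fun l => p.2.2 (Fin.castLE h l))}) with h0 | h0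
      · simp only [hG]
        rw [h0]
        simp only [Nat.cast_zero, Real.log_zero]
        exact Real.log_natCast_nonneg _
      · simp only [hG]
        exact Real.log_le_log (by exact_mod_cast h0) (by exact_mod_cast hcard)
  have h3 : ∑ p, sib2 w T T' i y0 p * G p.1 p.2.1 (fun l => p.2.2 (Fin.castLE h l))
      ≤ Real.log 2 * ∑ p, sib w T' y0 p * (Module.finrank (ZMod 2) (W p) : ℝ)
        + n * Real.log 2 * pr (sib2 w T T' i y0) (missed w T T' m i y y0 k h W) := by
    rw [pr_eq_sum_ite, ← sum_sib2_rows w T T' i y0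
      (fun ω c => (Module.finrank (ZMod 2) (W (ω, c)) : ℝ)), Finset.mul_sum, Finset.mul_sum,
      ← Finset.sum_add_distrib]
    refine Finset.sum_le_sum fun p _ => ?_
    have := mul_le_mul_of_nonneg_left (h2 p) (hW0 p)
    refine this.trans (le_of_eq ?_)
    ring
  linarith

end Pool.Agent.CutSeq.NJ.S89
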