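import Pool.Agent.NJ.SibB89
import Pool.Agent.NJ.LemmaLB36

/-!
S19271, SIB assembly, part 3: the information of one column sibling is at most that of a late row sibling,
given decoders.
-/

set_option autoImplicit false

namespace Pool.Agent.CutSeq.NJ.S89

open Finset Pool.Agent.CutSeq Pool.Agent.CutSeq.NJ Pool.Agent.NJ

variable {Ω A B : Type*} [Fintype Ω] [Fintype A] {n : ℕ}

/-- output of the decoder: relations `W` of the columns, a function of the world and of `y0` column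
siblings, decoded from `M1` rows and `y0` columns, which contains the relations of the list of the data with
`i` rows and `y` columns -/
def DecOut (w : Ω → ℝ) (T T' : Ω → Submodule (ZMod 2) (V n)) (m : Ω → A) (i y M1 y0 k : ℕ)
    (h : y ≤ y0) (d1 d2 : ℝ) : Prop :=
  ∃ (W : Ω × (Fin y0 → V n) → Submodule (ZMod 2) (V n))
    (Wh : A × (Fin M1 → V n) × (Fin y0 → V n) → Submodule (ZMod 2) (V n)),
    (∀ p, w p.1 ≠ 0 → W p ≤ perp (T' p.1)) ∧
    pr (sib2 w T T' M1 y0) {p | W (p.1, p.2.2) ≠ Wh (m p.1, p.2.1, p.2.2)} ≤ d1 ∧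
    pr (sib2 w T T' i y0) (missed w T T' m i y y0 k h W) ≤ d2

/-- one window, one number `y` of column siblings -/
theorem sib_one (w : Ω → ℝ) (hw : ∀ ω, 0 ≤ w ω) (htot : tot w ≤ 1)
    (T T' : Ω → Submodule (ZMod 2) (V n)) (m : Ω → A) (i y q k N y0 M r : ℕ) (h : y ≤ y0)
    (hq : 1 ≤ q) (hnN : n ≤ N) (hkq : 2 * N ≤ k * q) (hM : 2 * y0 ≤ M) (hM1 : 1 ≤ M) (hr : 1 ≤ r)
    (hsym : UU w T T' m 0 M = UU w T T' m M 0) (e d2 : ℝ)
    (heR : UU w T T' m M y0 - UU w T T' m (M - 1) y0 ≤ e)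
    (hdec : DecOut w T T' m i y (M - 1) y0 k h ((1 / 2) ^ r) d2) :
    UU w T T' m i (y + 1) - UU w T T' m i y
      ≤ ((UU w T T' m i (y + q) - UU w T T' m i y)
          - q * (UU w T T' m i (y + 1) - UU w T T' m i y))
        + (UU w T T' m M y0 - UU w T T' m (M - 1) y0) + 2 * y0 * e / M
        + 4 * ((1 / 2) ^ r * (n ^ 2 + 2 * r + 3))
        + n * Real.log 2 * d2 + (1 / 2) ^ N := by
  obtain ⟨W, Wh, hW, h1, h2⟩ := hdec
  have hc := col_le w hw htot T T' m i y y0 q k N h W hq hnN hkq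
  have hW2 : ∀ p, 0 ≤ sib2 w T T' (M - 1) y0 p := sib2_nonneg89 w hw T T' _ _
  have hL := lemmaLB w hw T T' m y0 M (by omega) hM1 W hW
  have hCE := CE_le_of_decoder (sib2 w T T' (M - 1) y0) hW2 (by rw [tot_sib2_89]; exact htot)
    (fun p => W (p.1, p.2.2)) (fun p => (m p.1, p.2.1, p.2.2)) Wh r hr h1
  have hmono : UU w T T' m 0 M ≤ UU w T T' m M y0 := by
    rw [hsym]
    exact UU_mono w hw T T' m le_rfl (Nat.zero_le _)
  have hd0 : 0 ≤ UU w T T' m M y0 - UU w T T' m (M - 1) y0 := by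
    have := UU_mono w hw T T' m (show M - 1 ≤ M by omega) (le_refl y0)
    linarith
  set δ := UU w T T' m M y0 - UU w T T' m (M - 1) y0 with hδ
  set E := Real.log 2 * ∑ p, sib w T' y0 p * (Module.finrank (ZMod 2) (W p) : ℝ) with hE
  set C := CE (sib2 w T T' (M - 1) y0) (fun p => W (p.1, p.2.2))
    (fun p => (m p.1, p.2.1, p.2.2)) with hC
  have hC0 : 0 ≤ C := CE_nonneg _ hW2 _ _
  have hMr : (1 : ℝ) ≤ M := by exact_mod_cast hM1
  have hy0r : 2 * (y0 : ℝ) ≤ M := by exact_mod_cast hM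
  have hy00 : (0 : ℝ) ≤ y0 := Nat.cast_nonneg _
  have hpos : 0 < (M : ℝ) - y0 := by linarith
  have hE0 : 0 ≤ E := by
    refine mul_nonneg (Real.log_nonneg (by norm_num)) (Finset.sum_nonneg fun p _ => ?_)
    exact mul_nonneg (sib_nonneg_sib w hw T' y0 p) (Nat.cast_nonneg _)
  have hE1 : ((M : ℝ) - y0) * E ≤ M * δ + (M + 1) * C := by linarith
  have hE2 : E ≤ δ + 2 * y0 * e / M + 4 * C := by
    have h3 : ((M : ℝ) - y0) * E ≤ ((M : ℝ) - y0) * (δ + 2 * y0 * e / M + 4 * C) := by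
      have h4 : (M + 1) * C ≤ ((M : ℝ) - y0) * (4 * C) := by nlinarith
      have h5 : M * δ ≤ ((M : ℝ) - y0) * (δ + 2 * y0 * e / M) := by
        have h6 : ((M : ℝ) - y0) * (δ + 2 * y0 * e / M)
            = M * δ - y0 * δ + (((M : ℝ) - y0) / M) * (2 * y0 * e) := by
          field_simp
        have h7 : (1 : ℝ) / 2 ≤ ((M : ℝ) - y0) / M := by
          rw [le_div_iff₀ (by linarith)]
          linarith
        have h8 : 0 ≤ e := hd0.trans heR
        have h9 : (1 : ℝ) / 2 * (2 * y0 * e) ≤ (((M : ℝ) - y0) / M) * (2 * y0 * e) :=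
          mul_le_mul_of_nonneg_right h7 (by positivity)
        have h10 : y0 * δ ≤ y0 * e := mul_le_mul_of_nonneg_left heR hy00
        rw [h6]
        linarith
      nlinarith
    exact le_of_mul_le_mul_left h3 hpos
  have hn0 : (0 : ℝ) ≤ n * Real.log 2 :=
    mul_nonneg (Nat.cast_nonneg _) (Real.log_nonneg (by norm_num))
  have h3 := mul_le_mul_of_nonneg_left h2 hn0
  linarith

/-- **SIB**: one column sibling is seen at most as much as a late row sibling -/
theorem sib_main (w : Ω → ℝ) (hw : ∀ ω, 0 ≤ w ω) (htot : tot w ≤ 1)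
    (T T' : Ω → Submodule (ZMod 2) (V n)) (m : Ω → A) (i s q k N y0 M r : ℕ) (hs : 1 ≤ s)
    (hsy : s ≤ y0) (hq : 1 ≤ q) (hnN : n ≤ N) (hkq : 2 * N ≤ k * q) (hM : 2 * y0 ≤ M)
    (hr : 1 ≤ r) (hsym : UU w T T' m 0 M = UU w T T' m M 0) (e d2 : ℝ)
    (heC : ∀ l, l < s + q → UU w T T' m i (l + 1) - UU w T T' m i l ≤ e)
    (heR : UU w T T' m M y0 - UU w T T' m (M - 1) y0 ≤ e)
    (hdec : ∀ y (h : y ≤ y0), y < s → DecOut w T T' m i y (M - 1) y0 k h ((1 / 2) ^ r) d2) :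
    UU w T T' m i 1 - UU w T T' m i 0
      ≤ (UU w T T' m M y0 - UU w T T' m (M - 1) y0) + (q : ℝ) ^ 2 * e / s + 2 * y0 * e / M
        + 4 * ((1 / 2) ^ r * (n ^ 2 + 2 * r + 3))
        + n * Real.log 2 * d2 + (1 / 2) ^ N := by
  have he : 0 ≤ e := by
    have := UU_mono w hw T T' m (show M - 1 ≤ M by omega) (le_refl y0)
    linarith
  obtain ⟨y, hy, hTC⟩ := avg_incr (fun l => UU w T T' m i l) (fun l => UU_le_succ w hw T T' m i l)
    e he s q hs heC
  have h1 := sib_one w hw htot T T' m i y q k N y0 M r (by omega) hq hnN hkq hM (by omega) hr hsym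
    e d2 heR (hdec y (by omega) hy)
  have h2 : UU w T T' m i 1 - UU w T T' m i 0 ≤ UU w T T' m i (y + 1) - UU w T T' m i y := by
    have hmono : Monotone (fun l => UU w T T' m i (l + 1) - UU w T T' m i l) :=
      monotone_nat_of_le_succ fun l => UU_incr w hw T T' m i l
    exact hmono (Nat.zero_le y)
  linarith

end Pool.Agent.CutSeq.NJ.S89
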