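import Pool.Agent.NJ.RkA8

/-!
Slope of the mean corner rank: for a fixed time the supremum over all boxes of the mean rank of the
corner at distance `g` is a convex function of `g`, at most one beyond the light cone; hence the mean
increment of the rank is at least a fixed multiple of the number of columns.
-/

set_option autoImplicit false
set_option linter.unusedSectionVars false

namespace Pool.Agent.CutFull

open Finset Matrix Module Pool.Agent.Helper8.UT

variable {N : ℕ}

namespace Slp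

/-! linear algebra -/

section Lin

variable {K V W : Type*} [Field K] [AddCommGroup V] [Module K V] [FiniteDimensional K V]
  [AddCommGroup W] [Module K W]

theorem map_add_ker (f : V →ₗ[K] W) (S : Submodule K V) :
    finrank K (S.map f) + finrank K (S ⊓ LinearMap.ker f : Submodule K V) = finrank K S := by
  have h := LinearMap.finrank_range_add_finrank_ker (f.domRestrict S)
  rw [LinearMap.range_domRestrict, LinearMap.ker_domRestrict] at h
  have h1 : finrank K (Submodule.comap S.subtype (LinearMap.ker f)) =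
      finrank K (S ⊓ LinearMap.ker f : Submodule K V) := by
    rw [← Submodule.map_comap_subtype, Submodule.finrank_map_subtype_eq]
  rw [← h1]
  exact h

theorem map_loss (f : V →ₗ[K] W) {S S' : Submodule K V} (h : S' ≤ S) :
    finrank K (S.map f) + finrank K S' ≤ finrank K S + finrank K (S'.map f) := by
  have h1 := map_add_ker f S
  have h2 := map_add_ker f S'
  have h3 : finrank K (S' ⊓ LinearMap.ker f : Submodule K V) ≤
      finrank K (S ⊓ LinearMap.ker f : Submodule K V) :=
    Submodule.finrank_mono (inf_le_inf_right _ h)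
  omega

end Lin

/-- coordinate projection -/
def dg (p : ℕ → Prop) [DecidablePred p] : MM N :=
  Matrix.diagonal (fun i : Fin N => if p i.val then (1 : ZMod 2) else 0)

/-- vectors supported on `p` -/
def SP (p : ℕ → Prop) : Submodule (ZMod 2) (Fin N → ZMod 2) where
  carrier := {x | ∀ i : Fin N, ¬ p i.val → x i = 0}
  add_mem' := by
    intro a b ha hb i hi
    rw [Pi.add_apply, ha i hi, hb i hi, add_zero]
  zero_mem' := fun _ _ => rfl
  smul_mem' := by
    intro c a ha i hi
    rw [Pi.smul_apply, ha i hi, smul_zero]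

theorem mem_SP {p : ℕ → Prop} {x : Fin N → ZMod 2} : x ∈ SP p ↔ ∀ i : Fin N, ¬ p i.val → x i = 0 :=
  Iff.rfl

theorem dg_mulVec (p : ℕ → Prop) [DecidablePred p] (x : Fin N → ZMod 2) (i : Fin N) :
    (dg p : MM N).mulVecLin x i = if p i.val then x i else 0 := by
  rw [Matrix.mulVecLin_apply]
  unfold dg
  rw [Matrix.mulVec_diagonal]
  split_ifs
  · rw [one_mul]
  · rw [zero_mul]

theorem range_dg (p : ℕ → Prop) [DecidablePred p] :
    LinearMap.range (dg p : MM N).mulVecLin = SP p := by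
  ext x
  rw [LinearMap.mem_range, mem_SP]
  constructor
  · rintro ⟨y, rfl⟩ i hi
    rw [dg_mulVec, if_neg hi]
  · intro h
    refine ⟨x, ?_⟩
    funext i
    rw [dg_mulVec]
    by_cases hi : p i.val
    · rw [if_pos hi]
    · rw [if_neg hi, h i hi]

theorem dg_mul_dg {p q : ℕ → Prop} [DecidablePred p] [DecidablePred q] (h : ∀ i, p i → q i) :
    (dg p : MM N) * dg q = dg p := by
  unfold dg
  rw [Matrix.diagonal_mul_diagonal]
  congr 1
  funext i
  by_cases hi : p i.val
  · rw [if_pos hi, if_pos (h _ hi), one_mul]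
  · rw [if_neg hi, zero_mul]

/-- rank of the block with rows in `p` and columns in `q` -/
noncomputable def br (p q : ℕ → Prop) [DecidablePred p] [DecidablePred q] (A : MM N) : ℕ :=
  (dg p * A * dg q).rank

theorem br_eq (p q : ℕ → Prop) [DecidablePred p] [DecidablePred q] (A : MM N) :
    br p q A = finrank (ZMod 2) (((SP q).map A.mulVecLin).map (dg p : MM N).mulVecLin) := by
  unfold br Matrix.rank
  rw [Matrix.mulVecLin_mul, Matrix.mulVecLin_mul, LinearMap.range_comp, range_dg,
    Submodule.map_comp]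

theorem crk_eq (a b : ℕ) (A : MM N) : crk a b A = br (fun i => i < a) (fun j => b ≤ j) A := by
  unfold crk br
  rw [cblk_eq]
  rfl

theorem SP_mono {p q : ℕ → Prop} (h : ∀ i, p i → q i) :
    (SP p : Submodule (ZMod 2) (Fin N → ZMod 2)) ≤ SP q :=
  fun _ hx i hi => hx i fun hp => hi (h _ hp)

/-- **submodularity**: the column increments of the rank grow with the set of rows -/
theorem br_submod {p p' q q' : ℕ → Prop} [DecidablePred p] [DecidablePred p'] [DecidablePred q]
    [DecidablePred q'] (hp : ∀ i, p i → p' i) (hq : ∀ i, q' i → q i) (A : MM N) :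
    br p q A + br p' q' A ≤ br p' q A + br p q' A := by
  rw [br_eq, br_eq, br_eq, br_eq]
  have h1 : ∀ S : Submodule (ZMod 2) (Fin N → ZMod 2), S.map (dg p : MM N).mulVecLin =
      (S.map (dg p' : MM N).mulVecLin).map (dg p : MM N).mulVecLin := by
    intro S
    rw [← Submodule.map_comp, ← Matrix.mulVecLin_mul, dg_mul_dg hp]
  rw [h1 ((SP q).map A.mulVecLin), h1 ((SP q').map A.mulVecLin)]
  exact map_loss _ (Submodule.map_mono (Submodule.map_mono (SP_mono hq)))

theorem crk_submod {a a' b b' : ℕ} (ha : a ≤ a') (hb : b ≤ b') (A : MM N) :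
    crk a b A + crk a' b' A ≤ crk a' b A + crk a b' A := by
  simp only [crk_eq]
  exact br_submod (fun i hi => by omega) (fun j hj => by omega) A

/-- the increments shrink when columns are added to the base -/
theorem br_cols {p q1 q2 q3 q4 : ℕ → Prop} [DecidablePred p] [DecidablePred q1] [DecidablePred q2]
    [DecidablePred q3] [DecidablePred q4] (h1 : ∀ i, q3 i → q1 i ∨ q2 i) (h2 : ∀ i, q4 i → q1 i ∧ q2 i)
    (A : MM N) : br p q3 A + br p q4 A ≤ br p q1 A + br p q2 A := by
  rw [br_eq, br_eq, br_eq, br_eq]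
  obtain ⟨F, hF⟩ : ∃ F : (ℕ → Prop) → Submodule (ZMod 2) (Fin N → ZMod 2), F = fun q =>
    ((SP q).map A.mulVecLin).map (dg p : MM N).mulVecLin := ⟨_, rfl⟩
  have e : ∀ q, ((SP q).map A.mulVecLin).map (dg p : MM N).mulVecLin = F q := by
    intro q
    rw [hF]
  rw [e, e, e, e, ← Submodule.finrank_sup_add_finrank_inf_eq (F q1) (F q2)]
  refine add_le_add (Submodule.finrank_mono ?_) (Submodule.finrank_mono ?_)
  · rw [← e, ← e, ← e, ← Submodule.map_sup, ← Submodule.map_sup]
    refine Submodule.map_mono (Submodule.map_mono ?_)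
    classical
    intro x hx
    rw [Submodule.mem_sup]
    refine ⟨fun i => if q1 i.val then x i else 0, ?_, fun i => if q1 i.val then 0 else x i, ?_, ?_⟩
    · intro i hi
      exact if_neg hi
    · intro i hi
      by_cases h : q1 i.val
      · exact if_pos h
      · change (if q1 i.val then 0 else x i) = 0
        rw [if_neg h]
        exact hx i fun h3 => (h1 _ h3).elim h hi
    · funext i
      change (if q1 i.val then x i else 0) + (if q1 i.val then 0 else x i) = x i
      split_ifs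
      · rw [add_zero]
      · rw [zero_add]
  · rw [← e, ← e, ← e]
    exact le_inf (Submodule.map_mono (Submodule.map_mono (SP_mono fun i hi => (h2 i hi).1)))
      (Submodule.map_mono (Submodule.map_mono (SP_mono fun i hi => (h2 i hi).2)))

theorem br_apply (p q : ℕ → Prop) [DecidablePred p] [DecidablePred q] (A : MM N) (i j : Fin N) :
    (dg p * A * dg q : MM N) i j = if p i.val ∧ q j.val then A i j else 0 := by
  unfold dg
  rw [Matrix.mul_diagonal, Matrix.diagonal_mul]
  by_cases h1 : p i.val <;> by_cases h2 : q j.val <;> simp [h1, h2]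

/-- the window is a block of the box -/
theorem crk_mid0_le {n : ℕ} (h : 0 + n ≤ N) (a b : ℕ) (A : MM N) :
    crk a b (mid 0 n h A) ≤ br (fun i => i < a) (fun j => b ≤ j ∧ j < n) A := by
  unfold crk br
  refine rank_ext _ _ (fun i => some ⟨i.val, by omega⟩) (fun i => some ⟨i.val, by omega⟩) ?_
  intro i j
  simp only [Option.elim]
  rw [br_apply]
  have hj := j.isLt
  unfold cblk mid
  by_cases h1 : i.val < a ∧ b ≤ j.val
  · rw [if_pos h1, if_pos ⟨h1.1, h1.2, hj⟩]
    congr 1 <;> (apply Fin.ext; simp)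
  · rw [if_neg h1, if_neg]
    rintro ⟨h2, h3, _⟩
    exact h1 ⟨h2, h3⟩

theorem le_crk_mid0 {n : ℕ} (h : 0 + n ≤ N) {a b : ℕ} (ha : a ≤ n) (A : MM N) :
    br (fun i => i < a) (fun j => b ≤ j ∧ j < n) A ≤ crk a b (mid 0 n h A) := by
  unfold crk br
  refine rank_ext _ _ (fun i => if hi : i.val < n then some ⟨i.val, hi⟩ else none)
    (fun i => if hi : i.val < n then some ⟨i.val, hi⟩ else none) ?_
  intro i j
  rw [br_apply]
  by_cases hi : i.val < n
  · by_cases hj : j.val < n
    · rw [dif_pos hi, dif_pos hj]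
      simp only [Option.elim]
      unfold cblk mid
      by_cases h1 : i.val < a ∧ b ≤ j.val ∧ j.val < n
      · rw [if_pos h1, if_pos ⟨h1.1, h1.2.1⟩]
        congr 1 <;> (apply Fin.ext; simp)
      · rw [if_neg h1, if_neg]
        rintro ⟨h2, h3⟩
        exact h1 ⟨h2, h3, hj⟩
    · rw [dif_pos hi, dif_neg hj, if_neg]
      · simp
      · rintro ⟨_, _, h3⟩
        exact hj h3
  · rw [dif_neg hi, if_neg]
    · simp
    · rintro ⟨h1, _⟩
      omega

/-- **closed window**: the increments of the closed window are at least those of the box -/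
theorem closed_inc {n : ℕ} (h : 0 + n ≤ N) {a b b' : ℕ} (ha : a ≤ n) (hb : b ≤ b') (hn : b' ≤ n)
    (A : MM N) :
    crk a b A + crk a b' (mid 0 n h A) ≤ crk a b (mid 0 n h A) + crk a b' A := by
  have h1 := crk_mid0_le h a b' A
  have h2 := le_crk_mid0 (b := b) h ha A
  have h3 := br_cols (p := fun i => i < a) (q1 := fun j => b ≤ j ∧ j < n) (q2 := fun j => b' ≤ j)
    (q3 := fun j => b ≤ j) (q4 := fun j => b' ≤ j ∧ j < n) (fun i hi => by
      show (b ≤ i ∧ i < n) ∨ b' ≤ i
      omega) (fun i hi => by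
      show (b ≤ i ∧ i < n) ∧ b' ≤ i
      omega) A
  rw [crk_eq a b A, crk_eq a b' A]
  omega

/-- the corner of a window -/
theorem crk_mid_le (s n : ℕ) (h : s + n ≤ N) (a b : ℕ) (A : MM N) :
    crk a b (mid s n h A) ≤ crk (s + a) (s + b) A := by
  unfold crk
  refine rank_ext _ _ (fun i => some ⟨s + i.val, by omega⟩) (fun i => some ⟨s + i.val, by omega⟩) ?_
  intro i j
  simp only [Option.elim]
  unfold cblk mid
  by_cases h1 : i.val < a ∧ b ≤ j.val
  · rw [if_pos h1, if_pos]
    exact ⟨by change s + i.val < s + a; omega, by change s + b ≤ s + j.val; omega⟩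
  · rw [if_neg h1, if_neg]
    rintro ⟨h2, h3⟩
    apply h1
    change s + i.val < s + a at h2
    change s + b ≤ s + j.val at h3
    omega

/-! the mean -/

/-- mean rank of the corner -/
noncomputable def cE (N a b : ℕ) (t : ℝ) : ℝ := EE N t (fun A => (crk a b A : ℝ))

/-- supremum of the mean rank over all boxes and cuts, distance `g` -/
noncomputable def GG (g : ℕ) (t : ℝ) : ℝ := ⨆ p : ℕ × ℕ, cE p.1 p.2 (p.2 + g) t

theorem cE_nonneg (N a b : ℕ) {t : ℝ} (ht : 0 ≤ t) : 0 ≤ cE N a b t :=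
  EE_nonneg ht fun A => Nat.cast_nonneg _

theorem cE_anti (N a : ℕ) {b b' : ℕ} (hb : b ≤ b') {t : ℝ} (ht : 0 ≤ t) : cE N a b' t ≤ cE N a b t :=
  EE_mono ht fun A _ => by exact_mod_cast crk_mono le_rfl hb A

theorem cE_diag (N a : ℕ) (t : ℝ) : cE N a a t = cur N a t := by
  unfold cE cur
  simp only [crk_diag]

theorem cE_mono {n a b s : ℕ} (h : s + n ≤ N) {t : ℝ} (ht : 0 ≤ t) :
    cE n a b t ≤ cE N (s + a) (s + b) t := by
  unfold cE
  rw [← EE_mid s n h t (fun A => (crk a b A : ℝ))]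
  refine EE_mono ht fun A _ => ?_
  exact_mod_cast crk_mid_le s n h a b A

theorem GG_bdd (g : ℕ) {t : ℝ} (ht : 0 ≤ t) :
    BddAbove (Set.range fun p : ℕ × ℕ => cE p.1 p.2 (p.2 + g) t) := by
  refine ⟨HH t, ?_⟩
  rintro _ ⟨p, rfl⟩
  refine (cE_anti p.1 p.2 (Nat.le_add_right p.2 g) ht).trans ?_
  rw [cE_diag]
  exact cur_le_HH _ _ ht

theorem cE_le_GG (N a g : ℕ) {t : ℝ} (ht : 0 ≤ t) : cE N a (a + g) t ≤ GG g t :=
  le_ciSup (GG_bdd g ht) (N, a)

theorem GG_nonneg (g : ℕ) {t : ℝ} (ht : 0 ≤ t) : 0 ≤ GG g t :=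
  (cE_nonneg 0 0 _ ht).trans (cE_le_GG 0 0 g ht)

theorem GG_anti {g g' : ℕ} (h : g ≤ g') {t : ℝ} (ht : 0 ≤ t) : GG g' t ≤ GG g t :=
  ciSup_le fun p => (cE_anti p.1 p.2 (by omega) ht).trans (cE_le_GG _ _ _ ht)

/-- large boxes are nearly optimal, one gap -/
theorem box_one (g : ℕ) {t : ℝ} (ht : 0 ≤ t) {e : ℝ} (he : 0 < e) :
    ∃ c : ℕ, ∀ N a : ℕ, c ≤ a → a + c ≤ N → GG g t - e ≤ cE N a (a + g) t := by
  obtain ⟨⟨N0, a0⟩, h0⟩ : ∃ p : ℕ × ℕ, GG g t - e < cE p.1 p.2 (p.2 + g) t :=
    exists_lt_of_lt_ciSup (show GG g t - e < GG g t by linarith)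
  refine ⟨max a0 N0, fun N a ha hN => ?_⟩
  have h1 : a - a0 + N0 ≤ N := by omega
  have h2 := cE_mono (n := N0) (a := a0) (b := a0 + g) h1 ht
  have h3 : a - a0 + a0 = a := by omega
  have h4 : a - a0 + (a0 + g) = a + g := by omega
  rw [h3, h4] at h2
  exact h0.le.trans h2

/-- large boxes are nearly optimal, finitely many gaps -/
theorem box_all (G : ℕ) {t : ℝ} (ht : 0 ≤ t) {e : ℝ} (he : 0 < e) :
    ∃ c : ℕ, ∀ g ≤ G, ∀ N a : ℕ, c ≤ a → a + c ≤ N → GG g t - e ≤ cE N a (a + g) t := by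
  induction G with
  | zero =>
    obtain ⟨c, hc⟩ := box_one 0 ht he
    refine ⟨c, fun g hg => ?_⟩
    obtain rfl : g = 0 := by omega
    exact hc
  | succ G ih =>
    obtain ⟨c1, h1⟩ := ih
    obtain ⟨c2, h2⟩ := box_one (G + 1) ht he
    refine ⟨max c1 c2, fun g hg N a ha hN => ?_⟩
    rcases Nat.lt_or_ge G g with h | h
    · obtain rfl : g = G + 1 := by omega
      exact h2 N a (by omega) (by omega)
    · exact h1 g h N a (by omega) (by omega)

/-- **convexity in the distance at a fixed time** -/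
theorem GG_convex (g : ℕ) {t : ℝ} (ht : 0 ≤ t) : 2 * GG (g + 1) t ≤ GG g t + GG (g + 2) t := by
  refine le_of_forall_pos_le_add fun e he => ?_
  obtain ⟨c, hc⟩ := box_one (g + 1) ht (show 0 < e / 2 by linarith)
  have h1 := hc (2 * c + 1) c le_rfl (by omega)
  have h2 := hc (2 * c + 1) (c + 1) (by omega) (by omega)
  have h3 : cE (2 * c + 1) c (c + (g + 1)) t + cE (2 * c + 1) (c + 1) (c + 1 + (g + 1)) t ≤
      cE (2 * c + 1) (c + 1) (c + 1 + g) t + cE (2 * c + 1) c (c + (g + 2)) t := by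
    unfold cE
    rw [← EE_add, ← EE_add]
    refine EE_mono ht fun A _ => ?_
    have h4 := crk_submod (a := c) (a' := c + 1) (b := c + (g + 1)) (b' := c + (g + 2)) (by omega)
      (by omega) A
    have e1 : c + 1 + (g + 1) = c + (g + 2) := by omega
    have e2 : c + 1 + g = c + (g + 1) := by omega
    rw [e1, e2]
    exact_mod_cast h4
  have h4 := cE_le_GG (2 * c + 1) (c + 1) g ht
  have h5 := cE_le_GG (2 * c + 1) c (g + 2) ht
  linarith

theorem GG_step_anti {g g' : ℕ} (h : g ≤ g') {t : ℝ} (ht : 0 ≤ t) :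
    GG g' t - GG (g' + 1) t ≤ GG g t - GG (g + 1) t := by
  induction g', h using Nat.le_induction with
  | base => exact le_rfl
  | succ k hk ih =>
    have h1 := GG_convex k ht
    linarith

/-- light cone -/
theorem crk_le_nR (a g : ℕ) (A : MM N) : crk a (a + g) A ≤ nR (a + g) g A := by
  classical
  unfold crk nR
  refine (rank_le_rows _ (fun i : Fin N => i.val < a ∧ RowNZ (a + g) i.val A) ?_).trans ?_
  · intro i hi j
    unfold cblk
    by_cases h : i.val < a ∧ a + g ≤ j.val
    · rw [if_pos h]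
      by_contra h1
      apply hi
      refine ⟨h.1, j, h.2, ?_⟩
      rw [rowN_fin]
      exact h1
    · rw [if_neg h]
  · refine card_le_card_of_injOn (fun i : Fin N => i.val) ?_ (fun i _ j _ hij => Fin.ext hij)
    intro i hi
    rw [mem_coe, mem_filter] at hi
    rw [mem_coe, mem_filter, mem_range]
    have h1 : i.val < a := hi.2.1
    exact ⟨by change i.val < a + g; omega, by change i.val + g < a + g; omega, hi.2.2⟩

theorem GG_far {g : ℕ} {t : ℝ} (ht : 0 ≤ t) (hg : 2 * t ≤ g) : GG g t ≤ 1 := by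
  refine ciSup_le fun p => ?_
  refine le_trans (EE_mono ht fun A _ => ?_) (EE_nR (N := p.1) (a := p.2 + g) (c := g) ht hg)
  exact_mod_cast crk_le_nR p.2 g A

theorem GG_telescope (g : ℕ) (t : ℝ) (J : ℕ) :
    ∑ j ∈ range J, (GG (g + j) t - GG (g + j + 1) t) = GG g t - GG (g + J) t := by
  induction J with
  | zero => simp
  | succ J ih => rw [sum_range_succ, ih]; ring_nf

/-- **slope of the mean** -/
theorem GG_slope {n m l : ℕ} {t P : ℝ} (ht : 0 ≤ t) (hP : P ≤ GG n t) (hml : m + l ≤ n) :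
    l * ((P - 1) / (2 * t + 1)) ≤ GG m t - GG (m + l) t := by
  obtain ⟨J, hJ⟩ : ∃ J : ℕ, J = ⌈2 * t⌉₊ := ⟨_, rfl⟩
  have hJ1 : 2 * t ≤ J := by rw [hJ]; exact Nat.le_ceil _
  have hJ2 : (J : ℝ) < 2 * t + 1 := by rw [hJ]; exact Nat.ceil_lt_add_one (by linarith)
  have h1 : ∀ k ≤ n, (P - 1) / (2 * t + 1) ≤ GG k t - GG (k + 1) t := by
    intro k hk
    have h2 := GG_far (g := n + J) ht (by push_cast; linarith [Nat.cast_nonneg (α := ℝ) n])
    have h3 := GG_telescope n t J
    have h4 : ∑ j ∈ range J, (GG (n + j) t - GG (n + j + 1) t) ≤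
        ∑ _j ∈ range J, (GG k t - GG (k + 1) t) :=
      sum_le_sum fun j _ => GG_step_anti (by omega) ht
    rw [sum_const, Finset.card_range, nsmul_eq_mul, h3] at h4
    have h5 : 0 ≤ GG k t - GG (k + 1) t := by
      have := GG_anti (Nat.le_succ k) ht
      linarith
    rw [div_le_iff₀ (by linarith)]
    have h6 : (J : ℝ) * (GG k t - GG (k + 1) t) ≤ (2 * t + 1) * (GG k t - GG (k + 1) t) :=
      mul_le_mul_of_nonneg_right hJ2.le h5
    linarith
  rw [← GG_telescope m t l]
  have h2 : ∑ _j ∈ range l, (P - 1) / (2 * t + 1) ≤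
      ∑ j ∈ range l, (GG (m + j) t - GG (m + j + 1) t) :=
    sum_le_sum fun j hj => h1 (m + j) (by have := mem_range.1 hj; omega)
  rw [sum_const, Finset.card_range, nsmul_eq_mul] at h2
  exact h2

/-- mean increment of a closed window with many rows above -/
theorem cE_closed_inc (G : ℕ) {t : ℝ} (ht : 0 ≤ t) {e : ℝ} (he : 0 < e) :
    ∃ c : ℕ, ∀ a : ℕ, c ≤ a → ∀ n m l : ℕ, m ≤ G → a + m + l ≤ n →
      GG m t - GG (m + l) t - e ≤ cE n a (a + m) t - cE n a (a + m + l) t := by
  obtain ⟨c, hc⟩ := box_all G ht he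
  refine ⟨c, fun a ha n m l hm hn => ?_⟩
  have h0 : 0 + n ≤ n + c := by omega
  have h1 := hc m hm (n + c) a ha (by omega)
  have h2 := cE_le_GG (n + c) a (m + l) ht
  rw [← add_assoc] at h2
  have h3 : cE (n + c) a (a + m) t + cE n a (a + m + l) t ≤
      cE n a (a + m) t + cE (n + c) a (a + m + l) t := by
    unfold cE
    rw [← EE_mid 0 n h0 t (fun A => (crk a (a + m + l) A : ℝ)),
      ← EE_mid 0 n h0 t (fun A => (crk a (a + m) A : ℝ)), ← EE_add, ← EE_add]
    refine EE_mono ht fun A _ => ?_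
    exact_mod_cast closed_inc h0 (b := a + m) (b' := a + m + l) (by omega) (by omega) hn A
  linarith

theorem GG_eq (g : ℕ) (t : ℝ) : GG g t = Gg8 g t := rfl

end Slp

/-- **discrete convexity in the distance at a fixed time** -/
theorem Gg_convex71 (g : ℕ) {t : ℝ} (ht : 0 ≤ t) : 2 * Gg8 (g + 1) t ≤ Gg8 g t + Gg8 (g + 2) t := by
  rw [← Slp.GG_eq, ← Slp.GG_eq, ← Slp.GG_eq]
  exact Slp.GG_convex g ht

/-- **slope of the mean rank** -/
theorem slope71 {n m l : ℕ} {t P : ℝ} (ht : 0 ≤ t) (hP : P ≤ Gg8 n t) (hml : m + l ≤ n) :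
    l * ((P - 1) / (2 * t + 1)) ≤ Gg8 m t - Gg8 (m + l) t := by
  rw [← Slp.GG_eq, ← Slp.GG_eq]
  exact Slp.GG_slope ht (by rw [Slp.GG_eq]; exact hP) hml

/-- the same with the quotient outside -/
theorem slope71' {n m l : ℕ} {t P : ℝ} (ht : 0 ≤ t) (hP : P ≤ Gg8 n t) (hml : m + l ≤ n) :
    l * (P - 1) / (2 * t + 1) ≤ Gg8 m t - Gg8 (m + l) t := by
  rw [mul_div_assoc]
  exact slope71 ht hP hml

/-- mean increments of a closed window with many rows above -/
theorem closed_slope71 (G : ℕ) {t : ℝ} (ht : 0 ≤ t) {e : ℝ} (he : 0 < e) :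
    ∃ c : ℕ, ∀ a : ℕ, c ≤ a → ∀ n m l : ℕ, m ≤ G → a + m + l ≤ n →
      Gg8 m t - Gg8 (m + l) t - e ≤
        EE n t (fun A => (crk a (a + m) A : ℝ)) - EE n t (fun A => (crk a (a + m + l) A : ℝ)) :=
  Slp.cE_closed_inc G ht he

end Pool.Agent.CutFull
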