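import Pool.Agent.NJ.WtArc19
import Pool.Agent.NJ.Sum61
import Pool.Agent.NJ.KKW84
import Pool.Agent.NJ.Broom36

/-!
S19271 / NJ, row STAGE (helper19): one stage of the iteration.

* `UU_zero19`, `UU_one19` : the entropies `Dw`, `fw` of the chain as broom entropies;
* `slopeR19`, `slopeC19` : slopes from the entropy bound of larger brooms;
* `stage_core19` : chain + sibling inequality + slopes give a good new size.
-/

set_option autoImplicit false

namespace Pool.Agent.CutSeq.NJ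

open Finset Pool.Agent.CutSeq Pool.Agent.NJ

variable {B L : ℕ}

section Brooms

variable {Ω A : Type*} [Fintype Ω] [Fintype A] {n : ℕ}

/-- no column siblings -/
theorem UU_zero19 (w : Ω → ℝ) (hw : ∀ ω, 0 ≤ w ω) (T T' : Ω → Submodule (ZMod 2) (V n))
    (m : Ω → A) (i : ℕ) :
    UU w T T' m i 0 = K0 (sib w T i) (fun p => (m p.1, p.2)) := by
  rw [← (push_zero w T T' i).K0 (fun p => (m p.1, p.2))]
  unfold UU
  refine (KK_bij _ (sib2_nonneg w hw T T' i 0) (fun p => (m p.1, p.2.1)) _ _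
    (fun _ => { toFun := fun q => (q.1, q.2, fun l : Fin 0 => l.elim0)
                invFun := fun q => (q.1, q.2.1)
                left_inv := fun q => rfl
                right_inv := fun q => ?_ }) (fun p _ => ?_))
  · obtain ⟨a, x, y⟩ := q
    simp only [Prod.mk.injEq, true_and]
    exact Subsingleton.elim _ _
  · obtain ⟨ω, x, y⟩ := p
    simp only [Equiv.coe_fn_mk, Prod.mk.injEq, true_and]
    exact Subsingleton.elim _ _

/-- one column sibling -/
theorem UU_one19 (w : Ω → ℝ) (hw : ∀ ω, 0 ≤ w ω) (T T' : Ω → Submodule (ZMod 2) (V n))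
    (m : Ω → A) (i : ℕ) :
    UU w T T' m i 1 = UU w T T' m i 0 +
      KK (sib2 w T T' i 1) (fun p => p.2.2 0) (fun p => (m p.1, p.2.1)) := by
  have h0 := UU_succ_right w hw T T' m i 0
  refine h0.trans ?_
  congr 1
  have h := (push_swap w T T' i (0 + 1)).KK (fun p => p.2.1 (Fin.last 0))
    (fun p => (m p.1, (fun l : Fin 0 => p.2.1 l.castSucc), p.2.2))
  unfold eR
  rw [← h]
  refine le_antisymm (KK_finer _ (sib2_nonneg w hw T T' i 1) _ _ _ ?_)
    (KK_finer _ (sib2_nonneg w hw T T' i 1) _ _ _ ?_)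
  · intro p p' _ _ he
    simp only [Prod.mk.injEq] at he ⊢
    exact ⟨he.1, Subsingleton.elim _ _, he.2⟩
  · intro p p' _ _ he
    simp only [Prod.mk.injEq] at he ⊢
    exact ⟨he.1, he.2.2⟩

/-- slopes in the rows from the entropy of a larger broom -/
theorem slopeR19 (w : Ω → ℝ) (hw : ∀ ω, 0 ≤ w ω) (T T' : Ω → Submodule (ZMod 2) (V n))
    (m : Ω → A) (i j x : ℕ) (hx : 1 ≤ x) (M : ℝ) (h : UU w T T' m (i + x) j ≤ M) :
    UU w T T' m (i + 1) j - UU w T T' m i j ≤ M / x := by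
  have hx' : (0 : ℝ) < x := by exact_mod_cast hx
  have h1 : ∀ y : ℕ, (y : ℝ) * eR w T T' m i j ≤ UU w T T' m (i + y) j - UU w T T' m i j := by
    intro y
    induction y with
    | zero => simp
    | succ y ih =>
      have h2 := eR_mono_left w hw T T' m (show i ≤ i + y by omega) j
      rw [show i + (y + 1) = i + y + 1 by omega, UU_succ_left w hw]
      push_cast
      linarith
  have h2 := h1 x
  have h3 : 0 ≤ UU w T T' m i j := KK_nonneg _ (sib2_nonneg w hw T T' _ _) _ _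
  rw [UU_succ_left w hw, le_div_iff₀ hx']
  linarith

/-- slopes in the columns from the entropy of a larger broom -/
theorem slopeC19 (w : Ω → ℝ) (hw : ∀ ω, 0 ≤ w ω) (T T' : Ω → Submodule (ZMod 2) (V n))
    (m : Ω → A) (i j x : ℕ) (hx : 1 ≤ x) (M : ℝ) (h : UU w T T' m i (j + x) ≤ M) :
    UU w T T' m i (j + 1) - UU w T T' m i j ≤ M / x := by
  rw [UU_swap w hw T T' m i (j + 1), UU_swap w hw T T' m i j]
  refine slopeR19 w hw T' T m j i x hx M ?_
  rwa [← UU_swap w hw T T' m i (j + x)]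

/-- several column siblings -/
theorem colsum19 (w : Ω → ℝ) (T T' : Ω → Submodule (ZMod 2) (V n))
    (m : Ω → A) (i y : ℕ) (es : ℝ)
    (h : ∀ j < y, UU w T T' m i (j + 1) - UU w T T' m i j ≤ es) :
    UU w T T' m i y - UU w T T' m i 0 ≤ y * es := by
  induction y with
  | zero => simp
  | succ y ih =>
    have h1 := ih (fun j hj => h j (by omega))
    have h2 := h y (by omega)
    push_cast
    linarith

end Brooms

/-! ### the families -/

variable {n0 : ℕ} {G : ℕ → Set (Wd B L)}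

lemma rot_zero19 (ω : Wd B L) : rot B L 0 ω = ω := rfl

lemma Fam19.mono (hG : Fam19 B L n0 G) {n k : ℕ} (hn : n ≤ n0) (hk : k ≤ n) : G n ⊆ G k := by
  intro ω hω
  have := hG.sub n hn 0 k (by omega) ω hω
  rwa [rot_zero19] at this

lemma Fam19.restrict (hG : Fam19 B L n0 G) {k : ℕ} (hk : k ≤ n0) : Fam19 B L k G :=
  ⟨fun n hn => hG.lev n (hn.trans hk), fun n hn => hG.sub n (hn.trans hk),
    fun n hn => hG.ref n (hn.trans hk)⟩

lemma Fam19.bad_mono (hG : Fam19 B L n0 G) {k : ℕ} (hk : k ≤ n0) :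
    pr (uw B L) {ω | ∃ a < B, rot B L a ω ∉ G k} ≤
      pr (uw B L) {ω | ∃ a < B, rot B L a ω ∉ G n0} := by
  refine pr_mono19 (fun ω => (uw_pos19 ω).le) ?_
  rintro ω ⟨a, ha, h⟩
  exact ⟨a, ha, fun h' => h (hG.mono le_rfl hk h')⟩

/-- broom entropies of a family at the standard window -/
noncomputable def UG19 (B L : ℕ) (G : ℕ → Set (Wd B L)) (n i j : ℕ) : ℝ :=
  UU (ind (G n) (uw B L)) (fun ω => TR (ext ω) L 1 n) (fun ω => TC (ext ω) L 1 n)
    (fun ω => wm (ext ω) L 1 n) i j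

lemma ind_nn19 (S : Set (Wd B L)) (ω : Wd B L) : 0 ≤ ind S (uw B L) ω :=
  ind_nonneg19 _ (fun ω => (uw_pos19 ω).le) ω

lemma UG19_zero (n i : ℕ) : UG19 B L G n i 0 = Dw (ind (G n) (uw B L)) 1 n i :=
  UU_zero19 _ (ind_nn19 _) _ _ _ i

lemma UG19_one (n i : ℕ) : UG19 B L G n i 1 = UG19 B L G n i 0 + fw (ind (G n) (uw B L)) 1 n i :=
  UU_one19 _ (ind_nn19 _) _ _ _ i

lemma UG19_nonneg (n i j : ℕ) : 0 ≤ UG19 B L G n i j :=
  KK_nonneg _ (sib2_nonneg _ (ind_nn19 _) _ _ _ _) _ _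

lemma UG19_mono (n : ℕ) {i i' j j' : ℕ} (hi : i ≤ i') (hj : j ≤ j') :
    UG19 B L G n i j ≤ UG19 B L G n i' j' :=
  UU_mono _ (ind_nn19 _) _ _ _ hi hj

/-- the window of size `0` -/
lemma UG19_null (i j : ℕ) : UG19 B L G 0 i j = 0 := by
  refine le_antisymm ?_ (UG19_nonneg 0 i j)
  have h := KK_le (sib2 (ind (G 0) (uw B L)) (fun ω => TR (ext ω) L 1 0) (fun ω => TC (ext ω) L 1 0)
    i j) (sib2_nonneg _ (ind_nn19 _) _ _ _ _)
    (fun p => (wm (ext p.1) L 1 0, p.2.1, p.2.2)) (fun _ => ())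
  have hc : Fintype.card (Un 0 × (Fin i → V 0) × (Fin j → V 0)) = 1 := by
    rw [Fintype.card_eq_one_iff]
    refine ⟨(fun k => k.elim0, fun _ k => k.elim0, fun _ k => k.elim0), fun y => ?_⟩
    refine Prod.ext (funext fun k => k.elim0) (Prod.ext (funext fun _ => funext fun k => k.elim0)
      (funext fun _ => funext fun k => k.elim0))
  rw [hc, Nat.cast_one, Real.log_one, mul_zero] at h
  exact h

/-- **chain, sibling inequality and slopes give a good size** -/
theorem stage_core19 (hG : Fam19 B L n0 G) (k₀ R r y : ℕ) (es c b : ℝ) (hR : 0 < R) (hr : 1 ≤ r)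
    (hes : 0 ≤ es) (hc : 0 ≤ c) (hb : 0 ≤ b) (h2 : 2 ≤ k₀ + R) (hk : k₀ + R ≤ n0)
    (hchain : ∀ n i, n + i + 1 < k₀ + R → Dw (ind (G (n + 1)) (uw B L)) 1 (n + 1) i ≤
      Dw (ind (G n) (uw B L)) 1 n i + fw (ind (G n) (uw B L)) 1 n i + i * b +
        HH (pr (uw B L) (G (n + 1))) (pr (uw B L) (G n) - pr (uw B L) (G (n + 1))))
    (hsib : ∀ n i, 1 ≤ n → n + i + 1 < k₀ + R →
      UG19 B L G n i 1 - UG19 B L G n i 0 ≤ UG19 B L G n (i + r) y - UG19 B L G n (i + r - 1) y + c)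
    (hslR : ∀ n i, 1 ≤ n → n + i < k₀ + R + r → UG19 B L G n (i + 1) y - UG19 B L G n i y ≤ es)
    (hslC : ∀ n i, 1 ≤ n → n + i < k₀ + R + r → ∀ j < y,
      UG19 B L G n i (j + 1) - UG19 B L G n i j ≤ es) :
    ∃ k, k₀ ≤ k ∧ k < k₀ + R ∧ K0 (ind (G k) (uw B L)) (fun ω => wm (ext ω) L 1 k) ≤
      ((k₀ : ℝ) + R) * ((((r : ℝ) + y) * es) / R + c) + ((k₀ : ℝ) + R) ^ 2 * b +
        (2 * Real.log ((k₀ : ℝ) + R) + 3) := by
  have hw0 : ∀ ω : Wd B L, 0 ≤ uw B L ω := fun ω => (uw_pos19 ω).le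
  set p : ℕ → ℝ := fun n => pr (uw B L) (G (min n n0)) with hp
  have hpe : ∀ n ≤ n0, p n = pr (uw B L) (G n) := fun n hn => by rw [hp]; simp only; rw [min_eq_left hn]
  have hpn : ∀ n, 0 ≤ p n := fun n => Finset.sum_nonneg fun ω _ => ind_nn19 _ ω
  have hdec : ∀ n, p (n + 1) ≤ p n := by
    intro n
    refine pr_mono19 hw0 (hG.mono (min_le_right _ _) ?_)
    omega
  have hp1 : p 0 ≤ 1 := by
    refine le_trans ?_ (tot_uw_le19 (B := B) (L := L))
    refine Finset.sum_le_sum fun ω _ => ?_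
    unfold ind
    exact Set.indicator_le_self' (fun _ _ => hw0 _) ω
  have hh := hh61 p (k₀ + R) h2 hp1 (fun n _ => hpn n) (fun n _ => hdec n)
  obtain ⟨k, hk1, hk2, h3⟩ := sum61 (fun n i => UG19 B L G n i 0) (fun n i => UG19 B L G n i y)
    (fun n i => UG19 B L G n i 1 - UG19 B L G n i 0) (fun n => HH (p (n + 1)) (p n - p (n + 1)))
    k₀ R r y es c b hR hr hes hc hb
    (fun n => HH_nonneg _ _ (hpn _) (by linarith [hdec n]))
    (fun i _ => (UG19_null i 0).le)
    (fun n i hni => by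
      have h4 := hchain n i hni
      show UG19 B L G (n + 1) i 0 ≤ UG19 B L G n i 0 + (UG19 B L G n i 1 - UG19 B L G n i 0) + i * b +
        HH (p (n + 1)) (p n - p (n + 1))
      rw [hpe n (by omega), hpe (n + 1) (by omega), UG19_one, UG19_zero, UG19_zero]
      linarith)
    (fun n i hni => by
      rcases Nat.eq_zero_or_pos n with rfl | hn
      · simp only [UG19_null]
        linarith
      · exact hsib n i hn hni)
    (fun n i _ => UG19_mono n le_rfl (Nat.zero_le _))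
    (fun n i _ => UG19_mono n (Nat.le_succ _) le_rfl)
    (fun n i hni => by
      rcases Nat.eq_zero_or_pos n with rfl | hn
      · simp only [UG19_null]
        linarith
      · exact hslR n i hn hni)
    (fun n i hni => by
      rcases Nat.eq_zero_or_pos n with rfl | hn
      · simp only [UG19_null]
        rw [sub_zero]
        positivity
      · exact colsum19 _ _ _ _ i y es (hslC n i hn hni))
  refine ⟨k, hk1, hk2, ?_⟩
  have h4 : UG19 B L G k 0 0 = K0 (ind (G k) (uw B L)) (fun ω => wm (ext ω) L 1 k) := by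
    rw [UG19_zero]
    unfold Dw
    have h5 := K0_bij (sib (ind (G k) (uw B L)) (fun ω => TR (ext ω) L 1 k) 0)
      (sib_nonneg' _ (ind_nn19 _) _ _)
      (fun p => (wm (ext p.1) L 1 k, p.2)) (fun p => wm (ext p.1) L 1 k)
      { toFun := fun q => q.1
        invFun := fun q => (q, fun l => l.elim0)
        left_inv := fun q => Prod.ext rfl (Subsingleton.elim _ _)
        right_inv := fun q => rfl } (fun p _ => rfl)
    rw [← h5]
    exact KK_sib_fst _ _ 0 (fun ω => wm (ext ω) L 1 k) (fun _ => ())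
  rw [← h4]
  push_cast at hh
  linarith

end Pool.Agent.CutSeq.NJ
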