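import Mathlib

/-! S19271 / NJ: the numbers of one stage. -/

set_option autoImplicit false

namespace Pool.Agent.CutSeq.NJ

namespace N74

lemma log_sq (n : ℝ) (hn : 1 ≤ n) : (Real.log n + 1) ^ 2 ≤ 4 * n := by
  have hs : 0 < Real.sqrt n := Real.sqrt_pos.2 (by linarith)
  have h1 : Real.log n = 2 * Real.log (Real.sqrt n) := by
    rw [Real.log_sqrt (by linarith)]
    ring
  have h2 : Real.log (Real.sqrt n) ≤ Real.sqrt n - 1 := Real.log_le_sub_one_of_pos hs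
  have h3 : 0 ≤ Real.log n := Real.log_nonneg hn
  have h4 : Real.sqrt n ^ 2 = n := Real.sq_sqrt (by linarith)
  nlinarith

/-- the basic facts on `ε` and `n` -/
structure B (ε n : ℝ) : Prop where
  pos : 0 < ε
  le : ε ≤ 1 / 10 ^ 5
  big : 10 ^ 12 ≤ ε ^ 39 * n

variable {ε n : ℝ}

lemma B.one (h : B ε n) : ε ≤ 1 := h.le.trans (by norm_num)

lemma B.n12 (h : B ε n) : 10 ^ 12 ≤ n := by
  have h1 : ε ^ 39 ≤ 1 := pow_le_one₀ h.pos.le h.one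
  have h2 : 0 < ε ^ 39 := pow_pos h.pos _
  have h3 := h.big
  by_contra hc
  push Not at hc
  rcases le_or_gt n 0 with h0 | h0
  · nlinarith
  · nlinarith

lemma B.npos (h : B ε n) : 0 < n := by linarith [h.n12]

/-- `(ε ^ 19 n) ^ 2 ≥ 10 ^ 12 n` -/
lemma B.sq (h : B ε n) : 10 ^ 12 * n ≤ (ε ^ 19 * n) ^ 2 := by
  have h1 : ε ^ 39 ≤ ε ^ 38 := pow_le_pow_of_le_one h.pos.le h.one (by norm_num)
  have h2 : (ε ^ 19 * n) ^ 2 = ε ^ 38 * n * n := by ring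
  rw [h2]
  have h3 := h.big
  have h4 := h.npos
  have h5 : ε ^ 39 * n ≤ ε ^ 38 * n := by nlinarith
  nlinarith

lemma B.log (h : B ε n) (j : ℕ) (hj : j ≤ 19) : 10 ^ 5 * (Real.log n + 1) ≤ ε ^ j * n := by
  have h0 := h.npos
  have h1 := log_sq n (by linarith [h.n12])
  have h2 := h.sq
  have h3 : 0 ≤ ε ^ 19 * n := mul_nonneg (pow_nonneg h.pos.le _) h0.le
  have h4 : 10 ^ 5 * (Real.log n + 1) ≤ ε ^ 19 * n := by
    by_contra hc
    push Not at hc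
    nlinarith
  have h5 : ε ^ 19 ≤ ε ^ j := pow_le_pow_of_le_one h.pos.le h.one hj
  have h6 : ε ^ 19 * n ≤ ε ^ j * n := by nlinarith
  exact h4.trans h6

lemma B.L0 (h : B ε n) : 0 ≤ Real.log n := Real.log_nonneg (by linarith [h.n12])

/-- comparison of two powers -/
lemma B.down (h : B ε n) (i j : ℕ) : ε ^ (i + j) * n ≤ (1 / 10 ^ 5) ^ j * (ε ^ i * n) := by
  have h1 : ε ^ j ≤ (1 / 10 ^ 5) ^ j := pow_le_pow_left₀ h.pos.le h.le j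
  have h2 : 0 ≤ ε ^ i * n := mul_nonneg (pow_nonneg h.pos.le _) h.npos.le
  rw [pow_add]
  nlinarith

/-- `exp (-y) ≤ 1 / (16 n ^ 2)` for `y ≥ 3000 (log n + 1)` -/
lemma B.exp (h : B ε n) (y : ℝ) (hy : 3000 * (Real.log n + 1) ≤ y) :
    16 * n ^ 2 * Real.exp (-y) ≤ 1 := by
  have h0 := h.npos
  have h1 : Real.exp (-y) ≤ Real.exp (-(2 * Real.log n)) * Real.exp (-3000) := by
    rw [← Real.exp_add]
    exact Real.exp_le_exp.2 (by linarith [h.L0])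
  have h2 : Real.exp (-(2 * Real.log n)) = 1 / n ^ 2 := by
    rw [Real.exp_neg, two_mul, Real.exp_add, Real.exp_log h0]
    ring
  have h3 : Real.exp (-3000) ≤ 1 / 16 := by
    rw [Real.exp_neg]
    have h4 : (3000 : ℝ) + 1 ≤ Real.exp 3000 := Real.add_one_le_exp _
    rw [← one_div]
    exact one_div_le_one_div_of_le (by norm_num) (by linarith)
  rw [h2] at h1
  have h5 : (0 : ℝ) < n ^ 2 := by positivity
  have h6 : Real.exp (-y) ≤ 1 / n ^ 2 * (1 / 16) :=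
    h1.trans (mul_le_mul_of_nonneg_left h3 (by positivity))
  calc 16 * n ^ 2 * Real.exp (-y) ≤ 16 * n ^ 2 * (1 / n ^ 2 * (1 / 16)) :=
        mul_le_mul_of_nonneg_left h6 (by positivity)
    _ = 1 := by field_simp

/-- `T ^ 2 = ε ^ 38 n ^ 2` is large -/
lemma B.T (h : B ε n) : 10 ^ 10 * (Real.log n + 1) ≤ ε ^ 38 * n ^ 2 := by
  have h1 := h.log 19 le_rfl
  have h2 := h.L0
  have h3 : ε ^ 38 * n ^ 2 = (ε ^ 19 * n) ^ 2 := by ring
  rw [h3]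
  nlinarith

lemma B.M_le (h : B ε n) (x nA : ℝ) (hx : ε * n ≤ x) (h0 : 0 < nA) (hnA : nA ≤ 2 * n) :
    ε ^ 38 * n ^ 2 ≤ ε ^ 38 * n ^ 2 + Real.log (1 / (1 / n) ^ 6) +
        4 * nA ^ 2 * Real.exp (-(x ^ 2 / (16 * nA))) ∧
    ε ^ 38 * n ^ 2 + Real.log (1 / (1 / n) ^ 6) +
        4 * nA ^ 2 * Real.exp (-(x ^ 2 / (16 * nA))) ≤ 2 * (ε ^ 38 * n ^ 2) := by
  have hn := h.npos
  have e1 : Real.log (1 / (1 / n) ^ 6) = 6 * Real.log n := by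
    rw [one_div, Real.log_inv, Real.log_pow, one_div, Real.log_inv]
    push_cast
    ring
  rw [e1]
  have hL := h.L0
  have hp : 0 < ε * n := mul_pos h.pos hn
  have h1 : 3000 * (Real.log n + 1) ≤ x ^ 2 / (16 * nA) := by
    rw [le_div_iff₀ (by positivity)]
    have h2 := h.log 2 (by norm_num)
    have h3 : (ε * n) ^ 2 ≤ x ^ 2 := pow_le_pow_left₀ hp.le hx 2
    have h4 : (ε * n) ^ 2 = ε ^ 2 * n * n := by ring
    rw [h4] at h3
    have h5 : 3000 * (Real.log n + 1) * (16 * nA) ≤ 3000 * (Real.log n + 1) * (16 * (2 * n)) := by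
      refine mul_le_mul_of_nonneg_left (by linarith) (by linarith)
    have h6 : 10 ^ 5 * (Real.log n + 1) * n ≤ ε ^ 2 * n * n := mul_le_mul_of_nonneg_right h2 hn.le
    nlinarith
  have h2 := h.exp _ h1
  have h3 : 4 * nA ^ 2 * Real.exp (-(x ^ 2 / (16 * nA))) ≤ 1 := by
    refine le_trans ?_ h2
    refine mul_le_mul_of_nonneg_right ?_ (Real.exp_pos _).le
    nlinarith
  have h4 := h.T
  have h5 : 0 ≤ 4 * nA ^ 2 * Real.exp (-(x ^ 2 / (16 * nA))) := by positivity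
  constructor
  · linarith
  · linarith

/-- small powers of `1 / 4` -/
lemma B.quarter (h : B ε n) (s : ℕ) (hs : 4 * Real.log n ≤ s) : (1 / 4 : ℝ) ^ s ≤ 1 / n ^ 4 := by
  have hn := h.npos
  have h1 : (1 / 4 : ℝ) ≤ Real.exp (-1) := by
    rw [Real.exp_neg, ← one_div]
    exact one_div_le_one_div_of_le (Real.exp_pos _) (by linarith [Real.exp_one_lt_d9])
  have h2 : (1 / 4 : ℝ) ^ s ≤ Real.exp (-1) ^ s := pow_le_pow_left₀ (by norm_num) h1 s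
  have h3 : Real.exp (-1) ^ s = Real.exp (-s) := by
    rw [← Real.exp_nat_mul]
    congr 1
    ring
  have h4 : Real.exp (-(s : ℝ)) ≤ Real.exp (-(4 * Real.log n)) :=
    Real.exp_le_exp.2 (by linarith)
  have h5 : Real.exp (-(4 * Real.log n)) = 1 / n ^ 4 := by
    rw [Real.exp_neg, show (4 : ℝ) * Real.log n = ((4 : ℕ) : ℝ) * Real.log n by norm_num,
      Real.exp_nat_mul, Real.exp_log hn, one_div]
  linarith

lemma B.err (h : B ε n) (s N : ℕ) (hN : (N : ℝ) = n) (hs : 4 * Real.log n ≤ s) (hs2 : (s : ℝ) ≤ n) :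
    64 * (1 / 4 : ℝ) ^ s * ((2 * n) ^ 2 + 4 * s) + 16 * (1 / 4) ^ s + (1 / 2) ^ (2 * N)
      ≤ 600 / n ^ 2 := by
  have hn := h.npos
  have hn1 : 1 ≤ n := by linarith [h.n12]
  have h1 := h.quarter s hs
  have h2 : (1 / 2 : ℝ) ^ (2 * N) ≤ 1 / n ^ 4 := by
    rw [pow_mul]
    have h3 : ((1 / 2 : ℝ) ^ 2) = 1 / 4 := by norm_num
    rw [h3]
    refine h.quarter N ?_
    rw [hN]
    have := h.log 0 (by norm_num)
    rw [pow_zero, one_mul] at this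
    linarith [h.L0]
  have h3 : (0 : ℝ) ≤ (1 / 4) ^ s := by positivity
  have h4 : 64 * (1 / 4 : ℝ) ^ s * ((2 * n) ^ 2 + 4 * s) ≤ 64 * (1 / n ^ 4) * (8 * n ^ 2) := by
    have h5 : (2 * n) ^ 2 + 4 * (s : ℝ) ≤ 8 * n ^ 2 := by nlinarith
    have h6 : 0 ≤ (2 * n) ^ 2 + 4 * (s : ℝ) := by positivity
    have h7 : 64 * (1 / 4 : ℝ) ^ s ≤ 64 * (1 / n ^ 4) := by linarith
    exact mul_le_mul h7 h5 h6 (by positivity)
  have h8 : 64 * (1 / n ^ 4) * (8 * n ^ 2) = 512 / n ^ 2 := by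
    field_simp
    norm_num
  have h9 : 17 * (1 / n ^ 4) ≤ 88 / n ^ 2 := by
    have h10 : 17 * (1 / n ^ 4) = (17 / n ^ 2) / n ^ 2 := by
      field_simp
    rw [h10]
    refine div_le_div_of_nonneg_right ?_ (by positivity)
    rw [div_le_iff₀ (by positivity)]
    nlinarith
  have h11 : 600 / n ^ 2 = 512 / n ^ 2 + 88 / n ^ 2 := by ring
  rw [h11]
  linarith

lemma B.c_le (h : B ε n) (q es s1 y0 D er : ℝ) (hq0 : 0 ≤ q) (hq : q * ε ^ 10 ≤ 5)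
    (hes0 : 0 ≤ es) (hes : es ≤ 3 * ε ^ 37 * n) (hs1 : ε ^ 10 * n ≤ s1)
    (hy : y0 ≤ 60 * (ε ^ 10 * n)) (hD : ε ^ 5 * n ≤ D) (her : er ≤ 600 / n ^ 2) :
    q ^ 2 * es / s1 + 2 * y0 * es / D + er ≤ 75 * ε ^ 7 + 360 * (ε ^ 42 * n) + 600 / n ^ 2 := by
  have hn := h.npos
  have hε := h.pos
  have hs10 : 0 < s1 := lt_of_lt_of_le (by positivity) hs1
  have hD0 : 0 < D := lt_of_lt_of_le (by positivity) hD
  have h1 : q ^ 2 * es / s1 ≤ 75 * ε ^ 7 := by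
    rw [div_le_iff₀ hs10]
    have h2 : (q * ε ^ 10) ^ 2 ≤ 5 ^ 2 := pow_le_pow_left₀ (by positivity) hq 2
    have h3 : q ^ 2 * es ≤ q ^ 2 * (3 * ε ^ 37 * n) :=
      mul_le_mul_of_nonneg_left hes (by positivity)
    have h4 : q ^ 2 * (3 * ε ^ 37 * n) = (q * ε ^ 10) ^ 2 * (3 * (ε ^ 17 * n)) := by ring
    have h5 : (q * ε ^ 10) ^ 2 * (3 * (ε ^ 17 * n)) ≤ 5 ^ 2 * (3 * (ε ^ 17 * n)) :=
      mul_le_mul_of_nonneg_right h2 (by positivity)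
    have h6 : 75 * ε ^ 7 * (ε ^ 10 * n) ≤ 75 * ε ^ 7 * s1 :=
      mul_le_mul_of_nonneg_left hs1 (by positivity)
    have h7 : 75 * ε ^ 7 * (ε ^ 10 * n) = 5 ^ 2 * (3 * (ε ^ 17 * n)) := by ring
    linarith
  have h2 : 2 * y0 * es / D ≤ 360 * (ε ^ 42 * n) := by
    rw [div_le_iff₀ hD0]
    have h3 : 2 * y0 * es ≤ 2 * (60 * (ε ^ 10 * n)) * (3 * ε ^ 37 * n) :=
      mul_le_mul (by linarith) hes hes0 (by positivity)
    have h4 : 360 * (ε ^ 42 * n) * (ε ^ 5 * n) ≤ 360 * (ε ^ 42 * n) * D :=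
      mul_le_mul_of_nonneg_left hD (by positivity)
    have h5 : 360 * (ε ^ 42 * n) * (ε ^ 5 * n) = 2 * (60 * (ε ^ 10 * n)) * (3 * ε ^ 37 * n) := by
      ring
    linarith
  linarith

lemma B.final (h : B ε n) (P DD es x c b : ℝ) (hP0 : 1 ≤ P) (hP : P ≤ 2 * n)
    (hDD : DD ≤ 2 * (ε ^ 5 * n)) (hes0 : 0 ≤ es) (hes : es ≤ 3 * ε ^ 37 * n)
    (hx : ε * n ≤ x) (hc : c ≤ 75 * ε ^ 7 + 360 * (ε ^ 42 * n) + 600 / n ^ 2)
    (hb0 : 0 ≤ b) (hb : b ≤ ε ^ 42 + 1 / n ^ 2) :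
    P * (DD * es / x + c) + P ^ 2 * b + (2 * Real.log P + 3) ≤ (9 / 10 * ε) ^ 40 * n ^ 2 := by
  have hn := h.npos
  have hε := h.pos
  have hx0 : 0 < x := lt_of_lt_of_le (by positivity) hx
  have h1 : DD * es / x ≤ 6 * (ε ^ 41 * n) := by
    rw [div_le_iff₀ hx0]
    have h2 : DD * es ≤ 2 * (ε ^ 5 * n) * (3 * ε ^ 37 * n) :=
      mul_le_mul hDD hes hes0 (by positivity)
    have h3 : 6 * (ε ^ 41 * n) * (ε * n) ≤ 6 * (ε ^ 41 * n) * x :=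
      mul_le_mul_of_nonneg_left hx (by positivity)
    have h4 : 6 * (ε ^ 41 * n) * (ε * n) = 2 * (ε ^ 5 * n) * (3 * ε ^ 37 * n) := by ring
    linarith
  -- the unit
  have hY1 : 10 ^ 12 * (ε ^ 2 * n) ≤ ε ^ 41 * n ^ 2 := by
    have h2 : ε ^ 41 * n ^ 2 = (ε ^ 39 * n) * (ε ^ 2 * n) := by ring
    rw [h2]
    exact mul_le_mul_of_nonneg_right h.big (by positivity)
  have hY2 := h.log 2 (by norm_num)
  have hL := h.L0
  set Y := ε ^ 41 * n ^ 2 with hY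
  have hYn : Y = ε ^ 40 * n ^ 2 * ε := by
    rw [hY]
    ring
  have h2 : P * (DD * es / x + c)
      ≤ 2 * n * (6 * (ε ^ 41 * n) + (75 * ε ^ 7 + 360 * (ε ^ 42 * n) + 600 / n ^ 2)) := by
    have h3 : DD * es / x + c
        ≤ 6 * (ε ^ 41 * n) + (75 * ε ^ 7 + 360 * (ε ^ 42 * n) + 600 / n ^ 2) := by linarith
    refine (mul_le_mul_of_nonneg_left h3 (by linarith)).trans ?_
    exact mul_le_mul_of_nonneg_right hP (by positivity)
  have h3 : 2 * n * (6 * (ε ^ 41 * n) + (75 * ε ^ 7 + 360 * (ε ^ 42 * n) + 600 / n ^ 2))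
      = 12 * Y + 150 * (ε ^ 7 * n) + 720 * (Y * ε) + 1200 / n := by
    rw [hY]
    field_simp
    ring
  have h4 : ε ^ 7 * n ≤ ε ^ 2 * n := by
    have := pow_le_pow_of_le_one hε.le h.one (show 2 ≤ 7 by norm_num)
    nlinarith
  have h5 : 0 ≤ Y := by positivity
  have h6 : 720 * (Y * ε) ≤ Y := by
    have := h.le
    nlinarith
  have h7 : 1200 / n ≤ 1 := by
    rw [div_le_iff₀ hn]
    linarith [h.n12]
  have h8 : P ^ 2 * b ≤ 4 * (Y * ε) + 4 := by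
    have h9 : P ^ 2 ≤ (2 * n) ^ 2 := pow_le_pow_left₀ (by linarith) hP 2
    have h10 : P ^ 2 * b ≤ (2 * n) ^ 2 * (ε ^ 42 + 1 / n ^ 2) :=
      mul_le_mul h9 hb hb0 (by positivity)
    have h11 : (2 * n) ^ 2 * (ε ^ 42 + 1 / n ^ 2) = 4 * (Y * ε) + 4 := by
      rw [hY]
      field_simp
      ring
    linarith
  have h9 : Real.log P ≤ Real.log n + 1 := by
    have h10 : Real.log P ≤ Real.log (2 * n) := Real.log_le_log (by linarith) hP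
    rw [Real.log_mul (by norm_num) hn.ne'] at h10
    linarith [Real.log_two_lt_d9]
  have h10 : 20 * Y ≤ (9 / 10 * ε) ^ 40 * n ^ 2 := by
    have h11 : (9 / 10 * ε) ^ 40 * n ^ 2 = (9 / 10 : ℝ) ^ 40 * (ε ^ 40 * n ^ 2) := by
      rw [mul_pow]
      ring
    have h12 : 20 * Y = 20 * ε * (ε ^ 40 * n ^ 2) := by
      rw [hYn]
      ring
    rw [h11, h12]
    refine mul_le_mul_of_nonneg_right ?_ (by positivity)
    have := h.le
    have h13 : (1 : ℝ) / 100 ≤ (9 / 10) ^ 40 := by norm_num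
    linarith
  linarith

lemma B.corner (h : B ε n) (D4 M : ℝ) (h1 : ε * n / 8 ≤ D4) (h2 : D4 ≤ ε * n)
    (hM0 : 0 ≤ M) (hM : M ≤ 2 * (ε ^ 38 * n ^ 2)) :
    64 * Real.exp (-(Real.log 2 * D4 ^ 2 / (24 * D4 + 10 * M))) ≤ ε ^ 42 := by
  have hn := h.npos
  have hε := h.pos
  have hp : 0 < ε * n := mul_pos hε hn
  have hD0 : 0 < D4 := by linarith
  have hden : 0 < 24 * D4 + 10 * M := by linarith
  -- the denominator
  have h3 : 24 * (ε * n) ≤ ε ^ 38 * n ^ 2 := by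
    have h4 : ε ^ 38 * n ^ 2 = (ε ^ 37 * n) * (ε * n) := by ring
    rw [h4]
    refine mul_le_mul_of_nonneg_right ?_ hp.le
    have h5 : ε ^ 39 * n ≤ ε ^ 37 * n :=
      mul_le_mul_of_nonneg_right (pow_le_pow_of_le_one hε.le h.one (by norm_num)) hn.le
    linarith [h.big]
  have h4 : 24 * D4 + 10 * M ≤ 21 * (ε ^ 38 * n ^ 2) := by linarith
  -- the exponent is at least `(1 / ε) ^ 35`
  set w := 1 / ε with hw
  have hw0 : 0 < w := by positivity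
  have hwε : w * ε = 1 := by
    rw [hw]
    field_simp
  have hw5 : 10 ^ 5 ≤ w := by
    rw [hw, le_div_iff₀ hε]
    have := h.le
    linarith
  have h5 : w ^ 35 ≤ Real.log 2 * D4 ^ 2 / (24 * D4 + 10 * M) := by
    rw [le_div_iff₀ hden]
    have h6 : w ^ 35 * (24 * D4 + 10 * M) ≤ w ^ 35 * (21 * (ε ^ 38 * n ^ 2)) :=
      mul_le_mul_of_nonneg_left h4 (by positivity)
    have h7 : w ^ 35 * (21 * (ε ^ 38 * n ^ 2)) = 21 * ε * (ε ^ 2 * n ^ 2) := by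
      have h8 : w ^ 35 * ε ^ 35 = 1 := by rw [← mul_pow, hwε, one_pow]
      calc w ^ 35 * (21 * (ε ^ 38 * n ^ 2)) = (w ^ 35 * ε ^ 35) * (21 * ε * (ε ^ 2 * n ^ 2)) := by
            ring
        _ = 21 * ε * (ε ^ 2 * n ^ 2) := by rw [h8, one_mul]
    have h8 : (1 / 128) * (ε ^ 2 * n ^ 2) ≤ Real.log 2 * D4 ^ 2 := by
      have h9 : (ε * n / 8) ^ 2 ≤ D4 ^ 2 := pow_le_pow_left₀ (by positivity) h1 2
      have h10 : (1 / 2 : ℝ) ≤ Real.log 2 := by linarith [Real.log_two_gt_d9]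
      have h11 : (1 / 2 : ℝ) * (ε * n / 8) ^ 2 ≤ Real.log 2 * D4 ^ 2 :=
        mul_le_mul h10 h9 (by positivity) (by linarith)
      have h12 : (1 / 2 : ℝ) * (ε * n / 8) ^ 2 = (1 / 128) * (ε ^ 2 * n ^ 2) := by ring
      linarith
    have h9 : 21 * ε * (ε ^ 2 * n ^ 2) ≤ (1 / 128) * (ε ^ 2 * n ^ 2) := by
      refine mul_le_mul_of_nonneg_right ?_ (by positivity)
      have := h.le
      linarith
    linarith
  have h6 : Real.exp (-(Real.log 2 * D4 ^ 2 / (24 * D4 + 10 * M))) ≤ Real.exp (-(w ^ 35)) :=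
    Real.exp_le_exp.2 (by linarith)
  have h7 : Real.exp (-(w ^ 35)) ≤ 2 / w ^ 70 := by
    rw [Real.exp_neg, ← one_div, div_le_div_iff₀ (Real.exp_pos _) (by positivity)]
    have h8 := Real.quadratic_le_exp_of_nonneg (show (0 : ℝ) ≤ w ^ 35 by positivity)
    have h9 : w ^ 70 = (w ^ 35) ^ 2 := by ring
    rw [h9]
    have h10 : (0 : ℝ) ≤ w ^ 35 := by positivity
    linarith
  have h8 : 2 / w ^ 70 = 2 * ε ^ 70 := by
    rw [hw]
    field_simp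
  have h9 : 128 * ε ^ 70 ≤ ε ^ 42 := by
    have h10 : ε ^ 70 ≤ ε ^ 44 := pow_le_pow_of_le_one hε.le h.one (by norm_num)
    have h11 : ε ^ 44 = ε ^ 2 * ε ^ 42 := by ring
    have h12 : 128 * ε ^ 2 ≤ 1 := by
      have := h.le
      nlinarith
    have h13 : 0 ≤ ε ^ 42 := by positivity
    nlinarith
  linarith

lemma B.loss (h : B ε n) (n0 x : ℝ) (hn0 : 0 ≤ n0) (hn1 : n0 ≤ 2 * n) (hx : ε * n ≤ x) :
    6 * Real.log n < ε ^ 38 * n ^ 2 ∧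
    ((4 * n) * (n0 + 1)) ^ 2 * ((1 / n) ^ 6 + Real.exp (-(6 * Real.log n))) +
        ((4 * n) / x + 1) * ((ε ^ 40 * n ^ 2 + 1) / (ε ^ 38 * n ^ 2 - 6 * Real.log n)) ≤
        10 ^ 12 * ε := by
  have hn := h.npos
  have hε := h.pos
  have hL := h.L0
  have hT := h.T
  have hn12 := h.n12
  have hp : 0 < ε * n := mul_pos hε hn
  have hx0 : 0 < x := by linarith
  have hp5 : 10 ^ 5 ≤ ε * n := by
    have := h.log 1 (by norm_num)
    rw [pow_one] at this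
    linarith
  refine ⟨by linarith, ?_⟩
  have e1 : Real.exp (-(6 * Real.log n)) = (1 / n) ^ 6 := by
    rw [Real.exp_neg, show (6 : ℝ) * Real.log n = ((6 : ℕ) : ℝ) * Real.log n by norm_num,
      Real.exp_nat_mul, Real.exp_log hn, one_div, inv_pow]
  rw [e1]
  have h1 : ((4 * n) * (n0 + 1)) ^ 2 * ((1 / n) ^ 6 + (1 / n) ^ 6) ≤ ε := by
    have h2 : ((4 * n) * (n0 + 1)) ^ 2 ≤ ((4 * n) * (3 * n)) ^ 2 := by
      refine pow_le_pow_left₀ (by positivity) ?_ 2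
      exact mul_le_mul_of_nonneg_left (by linarith) (by positivity)
    have h3 : ((4 * n) * (n0 + 1)) ^ 2 * ((1 / n) ^ 6 + (1 / n) ^ 6)
        ≤ ((4 * n) * (3 * n)) ^ 2 * ((1 / n) ^ 6 + (1 / n) ^ 6) :=
      mul_le_mul_of_nonneg_right h2 (by positivity)
    have h4 : ((4 * n) * (3 * n)) ^ 2 * ((1 / n) ^ 6 + (1 / n) ^ 6) = 288 / n ^ 2 := by
      field_simp
      norm_num
    have h5 : 288 / n ^ 2 ≤ ε := by
      rw [div_le_iff₀ (by positivity)]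
      nlinarith
    linarith
  have h2 : (4 * n) / x + 1 ≤ 5 / ε := by
    have h3 : (4 * n) / x ≤ 4 / ε := by
      rw [div_le_div_iff₀ hx0 hε]
      linarith
    have h4 : 1 ≤ 1 / ε := by
      rw [le_div_iff₀ hε]
      linarith [h.one]
    have h5 : 5 / ε = 4 / ε + 1 / ε := by ring
    linarith
  have h3 : (ε ^ 40 * n ^ 2 + 1) / (ε ^ 38 * n ^ 2 - 6 * Real.log n) ≤ 4 * ε ^ 2 := by
    rw [div_le_iff₀ (by linarith)]
    have h4 : 1 ≤ ε ^ 40 * n ^ 2 := by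
      have h5 : ε ^ 40 * n ^ 2 = (ε ^ 39 * n) * (ε * n) := by ring
      rw [h5]
      have := h.big
      nlinarith
    have h5 : ε ^ 40 * n ^ 2 = ε ^ 2 * (ε ^ 38 * n ^ 2) := by ring
    have h6 : ε ^ 38 * n ^ 2 / 2 ≤ ε ^ 38 * n ^ 2 - 6 * Real.log n := by linarith
    have h7 : 4 * ε ^ 2 * (ε ^ 38 * n ^ 2 / 2) ≤ 4 * ε ^ 2 * (ε ^ 38 * n ^ 2 - 6 * Real.log n) :=
      mul_le_mul_of_nonneg_left h6 (by positivity)
    have h8 : 4 * ε ^ 2 * (ε ^ 38 * n ^ 2 / 2) = 2 * (ε ^ 40 * n ^ 2) := by ring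
    linarith
  have h4 : ((4 * n) / x + 1) * ((ε ^ 40 * n ^ 2 + 1) / (ε ^ 38 * n ^ 2 - 6 * Real.log n))
      ≤ 5 / ε * (4 * ε ^ 2) := by
    refine mul_le_mul h2 h3 ?_ (by positivity)
    refine div_nonneg (by positivity) (by linarith)
  have h5 : 5 / ε * (4 * ε ^ 2) = 20 * ε := by
    field_simp
    norm_num
  linarith

end N74

open N74 in
/-- numbers of the stage; `κ = ε ^ 38 * N ^ 2`, `e = (1 / N) ^ 6`, `t = 6 * log N`,
`M = scM88 nA x κ e` (unfolded) -/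
theorem N74.stg_num : ∃ ε₀ : ℝ, 0 < ε₀ ∧ ε₀ ≤ 1 ∧ ∃ C : ℝ, 1 ≤ C ∧ ∀ ε : ℝ, 0 < ε → ε ≤ ε₀ →
    ∀ N : ℕ, C ≤ ε ^ 39 * N → ∀ n0 : ℕ, N ≤ 2 * n0 → n0 ≤ 2 * N →
    ∃ (x nA k₀ R D y0 k q s s1 r D4 : ℕ) (M b es c : ℝ),
      M = ε ^ 38 * N ^ 2 + Real.log (1 / (1 / (N : ℝ)) ^ 6) +
        4 * (nA : ℝ) ^ 2 * Real.exp (-((x : ℝ) ^ 2 / (16 * nA))) ∧ 0 ≤ M ∧
      es = (M + 1) / x ∧
      c = (q : ℝ) ^ 2 * es / s1 + 2 * y0 * es / D + 64 * (1 / 4) ^ s * ((2 * (N : ℝ)) ^ 2 + 4 * s)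
        + 16 * (1 / 4) ^ s + (1 / 2) ^ (2 * N) ∧
      -- sizes
      1 ≤ x ∧ nA + x ≤ n0 ∧ 0 < R ∧ 2 ≤ k₀ ∧
      k₀ + R + D + y0 + 3 * x ≤ nA ∧ k₀ + R + 96 * s + s1 + r + 2 * x ≤ nA ∧
      k₀ + R + 4 * D4 + 2 * x ≤ nA ∧ (n0 : ℝ) - C * ε * N ≤ k₀ ∧
      -- sibling inequality
      1 ≤ s1 ∧ 3 ≤ s ∧ 1 ≤ q ∧ 2 * (2 * N) ≤ k * q ∧ s1 + 27 * s ≤ y0 ∧ 2 * y0 ≤ D ∧
      24 * s + 1 ≤ D ∧ s1 + q ≤ D + y0 ∧ 1 ≤ k ∧ k + 1 ≤ s ∧ 2 * N ≤ 2 ^ s ∧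
      2 * M + 72 * s * Real.log 2 < ((r : ℝ) - s) * ((s : ℝ) - k - 1) * Real.log 2 ∧
      -- corner bits
      100 ≤ D4 ∧ (nA : ℝ) ^ 2 ≤ (2 : ℝ) ^ ((D4 : ℝ) / 2) ∧
      64 * Real.exp (-(Real.log 2 * (D4 : ℝ) ^ 2 / (24 * D4 + 10 * M))) ≤ b ∧
      Real.log 2 * Real.exp (-(2 * Real.log N)) ≤ b ∧
      -- entropy of the next stage
      ((k₀ : ℝ) + R) * ((((D : ℝ) + y0) * es) / R + c) + ((k₀ : ℝ) + R) ^ 2 * b +
        (2 * Real.log ((k₀ : ℝ) + R) + 3) ≤ (9 / 10 * ε) ^ 40 * N ^ 2 ∧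
      -- loss of probability
      6 * Real.log N < ε ^ 38 * N ^ 2 ∧
      ((4 * (N : ℝ)) * ((n0 : ℝ) + 1)) ^ 2 * ((1 / (N : ℝ)) ^ 6 + Real.exp (-(6 * Real.log N))) +
        ((4 * (N : ℝ)) / x + 1) * ((ε ^ 40 * N ^ 2 + 1) / (ε ^ 38 * N ^ 2 - 6 * Real.log N)) ≤
        C * ε := by
  refine ⟨1 / 10 ^ 5, by norm_num, by norm_num, 10 ^ 12, by norm_num, ?_⟩
  intro ε hε hε1 N hC n0 hn0 hn0'
  set n : ℝ := (N : ℝ) with hn
  have h : B ε n := ⟨hε, hε1, hC⟩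
  have hnpos := h.npos
  have hn12 := h.n12
  have hL := h.L0
  have hn0r : n ≤ 2 * (n0 : ℝ) := by
    rw [hn]
    exact_mod_cast hn0
  have hn0r' : (n0 : ℝ) ≤ 2 * n := by
    rw [hn]
    exact_mod_cast hn0'
  -- the three scales
  have hp1 : 10 ^ 5 * (Real.log n + 1) ≤ ε * n := by
    have := h.log 1 (by norm_num)
    rwa [pow_one] at this
  have hp10 := h.log 10 (by norm_num)
  have hd5 : ε ^ 5 * n ≤ 1 / 10 ^ 20 * (ε * n) := by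
    have h1 := h.down 1 4
    norm_num at h1
    norm_num
    linarith
  have hd10 : ε ^ 10 * n ≤ 1 / 10 ^ 25 * (ε ^ 5 * n) := by
    have h1 := h.down 5 5
    norm_num at h1
    norm_num
    linarith
  have hd1 : ε * n ≤ 1 / 10 ^ 5 * n := mul_le_mul_of_nonneg_right hε1 hnpos.le
  -- the numbers
  obtain ⟨x, hx1, hx2⟩ : ∃ x : ℕ, ε * n ≤ x ∧ (x : ℝ) < ε * n + 1 :=
    ⟨⌈ε * n⌉₊, Nat.le_ceil _, Nat.ceil_lt_add_one (by positivity)⟩
  obtain ⟨k, hk1, hk2⟩ : ∃ k : ℕ, ε ^ 10 * n ≤ k ∧ (k : ℝ) < ε ^ 10 * n + 1 :=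
    ⟨⌈ε ^ 10 * n⌉₊, Nat.le_ceil _, Nat.ceil_lt_add_one (by positivity)⟩
  obtain ⟨D, hD1, hD2⟩ : ∃ D : ℕ, ε ^ 5 * n ≤ D ∧ (D : ℝ) < ε ^ 5 * n + 1 :=
    ⟨⌈ε ^ 5 * n⌉₊, Nat.le_ceil _, Nat.ceil_lt_add_one (by positivity)⟩
  obtain ⟨q, hq1, hq2⟩ : ∃ q : ℕ, 4 / ε ^ 10 ≤ q ∧ (q : ℝ) < 4 / ε ^ 10 + 1 :=
    ⟨⌈4 / ε ^ 10⌉₊, Nat.le_ceil _, Nat.ceil_lt_add_one (by positivity)⟩
  have hε10 : (0 : ℝ) < ε ^ 10 := by positivity
  have hq1' : 4 ≤ q * ε ^ 10 := by rwa [div_le_iff₀ hε10] at hq1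
  have hq2' : q * ε ^ 10 ≤ 5 := by
    have h1 : q * ε ^ 10 ≤ (4 / ε ^ 10 + 1) * ε ^ 10 :=
      mul_le_mul_of_nonneg_right hq2.le hε10.le
    have h2 : (4 / ε ^ 10 + 1) * ε ^ 10 = 4 + ε ^ 10 := by
      field_simp
    have h3 : ε ^ 10 ≤ 1 := pow_le_one₀ hε.le h.one
    linarith
  have hqk : (q : ℝ) ≤ k := by
    -- `q ≤ 5 / ε ^ 10 ≤ ε ^ 10 n`
    have h1 : (q : ℝ) * ε ^ 10 ≤ (ε ^ 10 * n) * ε ^ 10 := by
      have h2 : (ε ^ 10 * n) * ε ^ 10 = ε ^ 20 * n := by ring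
      have h3 : ε ^ 39 * n ≤ ε ^ 20 * n :=
        mul_le_mul_of_nonneg_right (pow_le_pow_of_le_one hε.le h.one (by norm_num)) hnpos.le
      rw [h2]
      linarith [h.big]
    have h2 := le_of_mul_le_mul_right h1 hε10
    linarith
  have h6x : 6 * x + 2 ≤ n0 := by
    have h1 : (6 : ℝ) * x + 2 ≤ n0 := by linarith
    exact_mod_cast h1
  obtain ⟨k₀, hk0⟩ : ∃ k₀ : ℕ, n0 = k₀ + 6 * x := ⟨n0 - 6 * x, by omega⟩
  have hk0r : (n0 : ℝ) = k₀ + 6 * x := by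
    rw [hk0]
    push_cast
    ring
  have hx5 : (0 : ℝ) < x := by linarith
  -- `M` and `es`
  have hnA : (((k₀ + 5 * x : ℕ) : ℝ)) = k₀ + 5 * x := by push_cast; ring
  have hM := h.M_le x ((k₀ + 5 * x : ℕ) : ℝ) hx1 (by rw [hnA]; positivity)
    (by rw [hnA]; linarith)
  set M : ℝ := ε ^ 38 * n ^ 2 + Real.log (1 / (1 / n) ^ 6) +
        4 * ((k₀ + 5 * x : ℕ) : ℝ) ^ 2 * Real.exp (-((x : ℝ) ^ 2 / (16 * ((k₀ + 5 * x : ℕ) : ℝ))))
    with hMdef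
  have hT := h.T
  have hT0 : 0 ≤ ε ^ 38 * n ^ 2 := by positivity
  have hM0 : 0 ≤ M := by linarith [hM.1]
  have hes : (M + 1) / x ≤ 3 * ε ^ 37 * n := by
    rw [div_le_iff₀ hx5]
    have h1 : 3 * ε ^ 37 * n * (ε * n) ≤ 3 * ε ^ 37 * n * x :=
      mul_le_mul_of_nonneg_left hx1 (by positivity)
    have h2 : 3 * ε ^ 37 * n * (ε * n) = 3 * (ε ^ 38 * n ^ 2) := by ring
    linarith [hM.2]
  have hes0 : 0 ≤ (M + 1) / x := div_nonneg (by linarith) hx5.le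
  -- sizes of `s`
  have hs4 : 4 * Real.log n ≤ ((2 * k + 2 : ℕ) : ℝ) := by
    push_cast
    linarith
  have hsn : ((2 * k + 2 : ℕ) : ℝ) ≤ n := by
    push_cast
    linarith
  have herr := h.err (2 * k + 2) N hn.symm hs4 hsn
  have hc := h.c_le q ((M + 1) / x) k (((55 * k + 54 : ℕ) : ℝ)) D
    (64 * (1 / 4 : ℝ) ^ (2 * k + 2) * ((2 * n) ^ 2 + 4 * ((2 * k + 2 : ℕ) : ℝ))
      + 16 * (1 / 4) ^ (2 * k + 2) + (1 / 2) ^ (2 * N)) (Nat.cast_nonneg _) hq2' hes0 hes hk1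
    (by push_cast; linarith) hD1 herr
  have hDy : (D : ℝ) + ((55 * k + 54 : ℕ) : ℝ) ≤ 2 * (ε ^ 5 * n) := by
    push_cast
    linarith
  have hfin := h.final ((k₀ : ℝ) + x) ((D : ℝ) + ((55 * k + 54 : ℕ) : ℝ)) ((M + 1) / x) x
    (q ^ 2 * ((M + 1) / x) / k + 2 * ((55 * k + 54 : ℕ) : ℝ) * ((M + 1) / x) / D
      + (64 * (1 / 4 : ℝ) ^ (2 * k + 2) * ((2 * n) ^ 2 + 4 * ((2 * k + 2 : ℕ) : ℝ))
      + 16 * (1 / 4) ^ (2 * k + 2) + (1 / 2) ^ (2 * N))) (ε ^ 42 + 1 / n ^ 2)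
    (by linarith [(Nat.cast_nonneg k₀ : (0 : ℝ) ≤ k₀)]) (by linarith) hDy hes0 hes hx1 hc
    (by positivity) le_rfl
  have hloss := h.loss n0 x (Nat.cast_nonneg _) hn0r' hx1
  -- `D4`
  have hD4a : ε * n / 8 ≤ ((x / 4 : ℕ) : ℝ) := by
    have h1 : x < 4 * (x / 4) + 4 := by omega
    have h2 : (x : ℝ) < 4 * ((x / 4 : ℕ) : ℝ) + 4 := by exact_mod_cast h1
    linarith
  have hD4b : ((x / 4 : ℕ) : ℝ) ≤ ε * n := by
    have h1 : 4 * (x / 4) ≤ x := by omega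
    have h2 : 4 * ((x / 4 : ℕ) : ℝ) ≤ x := by exact_mod_cast h1
    linarith
  have hcor := h.corner ((x / 4 : ℕ) : ℝ) M hD4a hD4b hM0 hM.2
  refine ⟨x, k₀ + 5 * x, k₀, x, D, 55 * k + 54, k, q, 2 * k + 2, k, 3 * k + 147, x / 4, M,
    ε ^ 42 + 1 / n ^ 2, (M + 1) / x, _, hMdef, hM0, rfl, rfl, ?_, ?_, ?_, ?_, ?_, ?_, ?_, ?_, ?_,
    ?_, ?_, ?_, ?_, ?_, ?_, ?_, ?_, ?_, ?_, ?_, ?_, ?_, ?_, ?_, ?_, ?_, ?_⟩
  · have h1 : (1 : ℝ) ≤ x := by linarith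
    exact_mod_cast h1
  · omega
  · have h1 : (0 : ℝ) < x := hx5
    exact_mod_cast h1
  · omega
  · have h1 : (D : ℝ) + (55 * k + 54) ≤ x := by linarith
    have h2 : D + (55 * k + 54) ≤ x := by exact_mod_cast h1
    omega
  · have h1 : (96 : ℝ) * (2 * k + 2) + k + (3 * k + 147) ≤ x := by linarith
    have h2 : 96 * (2 * k + 2) + k + (3 * k + 147) ≤ x := by exact_mod_cast h1
    omega
  · omega
  · have h1 : (10 : ℝ) ^ 12 * ε * n = 10 ^ 12 * (ε * n) := by ring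
    linarith
  · have h1 : (1 : ℝ) ≤ k := by linarith
    exact_mod_cast h1
  · have h1 : (1 : ℝ) ≤ k := by linarith
    have h2 : 1 ≤ k := by exact_mod_cast h1
    omega
  · rcases Nat.eq_zero_or_pos q with h0 | h0
    · rw [h0] at hq1'
      norm_num at hq1'
    · omega
  · have h1 : 2 * (2 * n) ≤ (k : ℝ) * q := by
      have h2 : (ε ^ 10 * n) * q ≤ (k : ℝ) * q :=
        mul_le_mul_of_nonneg_right hk1 (Nat.cast_nonneg _)
      have h3 : (ε ^ 10 * n) * q = (q * ε ^ 10) * n := by ring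
      have h4 : 4 * n ≤ (q * ε ^ 10) * n := mul_le_mul_of_nonneg_right hq1' hnpos.le
      linarith
    rw [hn] at h1
    exact_mod_cast h1
  · omega
  · have h1 : (2 : ℝ) * (55 * k + 54) ≤ D := by linarith
    exact_mod_cast h1
  · have h1 : (24 : ℝ) * (2 * k + 2) + 1 ≤ D := by linarith
    exact_mod_cast h1
  · have h1 : q ≤ k := by exact_mod_cast hqk
    omega
  · have h1 : (1 : ℝ) ≤ k := by linarith
    exact_mod_cast h1
  · omega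
  · have h1 := h.quarter k (by linarith)
    have h2 : n ^ 4 ≤ 4 ^ k := by
      rw [one_div_pow, one_div_le_one_div (by positivity) (by positivity)] at h1
      exact h1
    have h3 : 2 * n ≤ (2 : ℝ) ^ (2 * k + 2) := by
      have h4 : (2 : ℝ) ^ (2 * k + 2) = 4 * 4 ^ k := by
        rw [pow_add, pow_mul]
        norm_num
        ring
      have h5 : n ≤ n ^ 4 := by
        have := pow_le_pow_right₀ (show 1 ≤ n by linarith) (show 1 ≤ 4 by norm_num)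
        rwa [pow_one] at this
      rw [h4]
      linarith
    rw [hn] at h3
    exact_mod_cast h3
  · push_cast
    have h1 : (3 * (k : ℝ) + 147 - (2 * k + 2)) * (2 * k + 2 - k - 1) * Real.log 2
        = (k + 1) ^ 2 * Real.log 2 + 72 * (2 * k + 2) * Real.log 2 := by ring
    rw [h1]
    have h2 : 2 * M < (k + 1) ^ 2 * Real.log 2 := by
      have h3 : (ε ^ 10 * n) ^ 2 < ((k : ℝ) + 1) ^ 2 :=
        pow_lt_pow_left₀ (by linarith) (by positivity) (by norm_num)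
      have h4 : (1 / 2 : ℝ) < Real.log 2 := by linarith [Real.log_two_gt_d9]
      have h5 : 8 * (ε ^ 38 * n ^ 2) ≤ (ε ^ 10 * n) ^ 2 := by
        have h6 : ε ^ 38 * n ^ 2 = ε ^ 18 * (ε ^ 10 * n) ^ 2 := by ring
        rw [h6]
        have h7 : ε ^ 18 ≤ ε ^ 1 := pow_le_pow_of_le_one hε.le h.one (by norm_num)
        rw [pow_one] at h7
        have h8 : 0 ≤ (ε ^ 10 * n) ^ 2 := by positivity
        have h9 : (8 * ε ^ 18) * (ε ^ 10 * n) ^ 2 ≤ 1 * (ε ^ 10 * n) ^ 2 :=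
          mul_le_mul_of_nonneg_right (by linarith) h8
        linarith
      have h9 : (1 / 2 : ℝ) * ((k : ℝ) + 1) ^ 2 < Real.log 2 * ((k : ℝ) + 1) ^ 2 :=
        mul_lt_mul_of_pos_right h4 (by positivity)
      linarith [hM.2]
    linarith
  · have h1 : (100 : ℝ) ≤ ((x / 4 : ℕ) : ℝ) := by linarith
    exact_mod_cast h1
  · have h1 : (2 : ℝ) ^ (((x / 4 : ℕ) : ℝ) / 2)
        = Real.exp (Real.log 2 * (((x / 4 : ℕ) : ℝ) / 2)) := by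
      rw [Real.rpow_def_of_pos (by norm_num)]
    rw [h1]
    have h2 : 3000 * (Real.log n + 1) ≤ Real.log 2 * (((x / 4 : ℕ) : ℝ) / 2) := by
      have h3 : (1 / 2 : ℝ) ≤ Real.log 2 := by linarith [Real.log_two_gt_d9]
      have h4 : (1 / 2 : ℝ) * (((x / 4 : ℕ) : ℝ) / 2) ≤ Real.log 2 * (((x / 4 : ℕ) : ℝ) / 2) :=
        mul_le_mul_of_nonneg_right h3 (by positivity)
      linarith
    have h3 := h.exp _ h2
    rw [Real.exp_neg, ← div_eq_mul_inv, div_le_one (Real.exp_pos _)] at h3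
    have h4 : ((k₀ + 5 * x : ℕ) : ℝ) ^ 2 ≤ (2 * n) ^ 2 := by
      refine pow_le_pow_left₀ (Nat.cast_nonneg _) ?_ 2
      rw [hnA]
      linarith
    have h5 : (2 * n) ^ 2 = 4 * n ^ 2 := by ring
    have h6 : 0 ≤ n ^ 2 := by positivity
    linarith
  · have h1 : (0 : ℝ) < 1 / n ^ 2 := by positivity
    linarith
  · have h1 : Real.exp (-(2 * Real.log n)) = 1 / n ^ 2 := by
      rw [Real.exp_neg, two_mul, Real.exp_add, Real.exp_log hnpos]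
      ring
    rw [h1]
    have h2 : (0 : ℝ) < 1 / n ^ 2 := by positivity
    have h3 : Real.log 2 ≤ 1 := by linarith [Real.log_two_lt_d9]
    have h4 : (0 : ℝ) ≤ ε ^ 42 := by positivity
    have h5 : Real.log 2 * (1 / n ^ 2) ≤ 1 * (1 / n ^ 2) := mul_le_mul_of_nonneg_right h3 h2.le
    rw [one_mul] at h5
    exact h5.trans (le_add_of_nonneg_left h4)
  · refine le_trans (le_of_eq ?_) hfin
    ring
  · exact hloss.1
  · exact hloss.2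

end Pool.Agent.CutSeq.NJ
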