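import Pool.Agent.NJ.Corner84
import Pool.Agent.NJ.Rot84

/-!
S19271, row MODEL: siblings from coins and extended columns under translation, rotation and
reflection.
-/

set_option autoImplicit false

namespace Pool.Agent.CutSeq.NJ

open Finset

variable {B L : ℕ}

/-! #### translation -/

theorem ring_tau {m : ℕ} (h1 : 1 ≤ m) (h2 : m + 1 ≤ B) (ω : Wd B L) {r : ℕ} (hr : r < L) :
    ((ext (tau B L ω) r).1 + 1 = m + 1) ↔ ((ext ω r).1 + 1 = m) := by
  have hb := ext_fst_lt ω hr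
  rw [ext_tau ω hr]
  simp only
  split_ifs with h3
  · omega
  · omega

theorem Xl_tau (k j : ℕ) (h1 : 1 ≤ k) (h2 : k + 1 ≤ B) (ω : Wd B L) (ξ : Fin L → ZMod 2) :
    Xl (ext (tau B L ω)) L (k + 1) ξ (j + 1) = Xl (ext ω) L k ξ j := by
  unfold Xl
  refine Finset.sum_congr rfl fun r _ => ?_
  have e := ring_tau h1 h2 ω r.isLt
  by_cases h : (ext ω r.val).1 + 1 = k
  · rw [if_pos h, if_pos (e.2 h), show k + 1 - 1 = (k - 1) + 1 by omega,
      Mst_tau' _ _ _ (by omega)]
  · rw [if_neg h, if_neg (fun h' => h (e.1 h'))]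

theorem Xc_tau (a n : ℕ) (ha : a + n + 1 ≤ B) (ω : Wd B L) (ξ : Fin L → ZMod 2) :
    Xc (ext (tau B L ω)) L (a + 1) n ξ = Xc (ext ω) L a n ξ := by
  funext j
  have hj := j.isLt
  show Xl (ext (tau B L ω)) L (a + 1 + n) ξ (a + 1 + j.val) = Xl (ext ω) L (a + n) ξ (a + j.val)
  rw [show a + 1 + n = a + n + 1 by omega, show a + 1 + j.val = a + j.val + 1 by omega]
  exact Xl_tau _ _ (by omega) ha ω ξ

theorem colV_tau (s a n : ℕ) (ha : a + n ≤ B) (ω : Wd B L) :
    colV (ext (tau B L ω)) L s (a + 1) n = colV (ext ω) L s a n := by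
  funext k
  show Mst (shift (ext (tau B L ω)) (s + 1)) (L - (s + 1)) (a + 1 + k.val) (a + 1) =
    Mst (shift (ext ω) (s + 1)) (L - (s + 1)) (a + k.val) a
  rw [show a + 1 + k.val = a + k.val + 1 by omega]
  exact Mst_tau _ _ _ _ (by have := k.isLt; omega) ω

theorem lowW_tau (i a n : ℕ) (hn : 1 ≤ a + n) (ha : a + n ≤ B) (ω : Wd B L) :
    lowW (ext (tau B L ω)) i (a + 1) n = lowW (ext ω) i a n := by
  funext j
  show Mst (ext (tau B L ω)) i (a + 1 + n - 1) (a + 1 + j.val) = Mst (ext ω) i (a + n - 1) (a + j.val)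
  rw [show a + 1 + n - 1 = (a + n - 1) + 1 by omega, show a + 1 + j.val = a + j.val + 1 by omega]
  exact Mst_tau' i _ _ (by omega) ω

theorem Yc_tau (a n : ℕ) (ha0 : 1 ≤ a) (ha : a + n + 1 ≤ B) (ω : Wd B L) (c : Fin L → ZMod 2) :
    Yc (ext (tau B L ω)) L (a + 1) n c = Yc (ext ω) L a n c := by
  unfold Yc
  refine Finset.sum_congr rfl fun s _ => ?_
  have e := ring_tau ha0 (by omega) ω s.isLt
  by_cases h : (ext ω s.val).1 + 1 = a
  · rw [if_pos h, if_pos (e.2 h), colV_tau _ _ _ (by omega)]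
  · rw [if_neg h, if_neg (fun h' => h (e.1 h'))]

theorem qv_tau (a n : ℕ) (ha0 : 1 ≤ a) (ha : a + n + 1 ≤ B) (ω : Wd B L) (ξ : Fin L → ZMod 2)
    (s : ℕ) : qv (ext (tau B L ω)) L (a + 1) n ξ s = qv (ext ω) L a n ξ s := by
  unfold qv
  refine Finset.sum_congr rfl fun r _ => ?_
  have e := ring_tau (m := a + n) (by omega) ha ω r.isLt
  rw [show a + 1 + n = a + n + 1 by omega, show a + n + 1 - 1 = (a + n - 1) + 1 by omega,
    Mst_tau (s + 1) _ _ _ (by omega) ω]
  by_cases h : s < r.val ∧ (ext ω r.val).1 + 1 = a + n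
  · rw [if_pos h, if_pos ⟨h.1, e.2 h.2⟩]
  · rw [if_neg h, if_neg (fun h' => h ⟨h'.1, e.1 h'.2⟩)]

theorem crn_tau (a n : ℕ) (ha0 : 1 ≤ a) (ha : a + n + 1 ≤ B) (ω : Wd B L) (ξ c : Fin L → ZMod 2) :
    crn (ext (tau B L ω)) L (a + 1) n ξ c = crn (ext ω) L a n ξ c := by
  unfold crn
  refine Finset.sum_congr rfl fun s _ => ?_
  have e := ring_tau ha0 (by omega) ω s.isLt
  by_cases h : (ext ω s.val).1 + 1 = a
  · rw [if_pos h, if_pos (e.2 h), qv_tau a n ha0 ha]
  · rw [if_neg h, if_neg (fun h' => h (e.1 h'))]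

theorem extC_tau (a n : ℕ) (ha0 : 1 ≤ a) (ha : a + n + 1 ≤ B) (ω : Wd B L) {i : ℕ}
    (ξ : Fin i → Fin L → ZMod 2) (s : ℕ) :
    extC (ext (tau B L ω)) L (a + 1) n ξ s = extC (ext ω) L a n ξ s := by
  unfold extC
  rw [colV_tau _ _ _ (by omega)]
  congr 1
  funext l
  exact qv_tau a n ha0 ha ω (ξ l) s

theorem colE_tau (a n j : ℕ) (hn : 1 ≤ a + n) (ha : a + n + 1 ≤ B) (ω : Wd B L) {i : ℕ}
    (ξ : Fin i → Fin L → ZMod 2) :
    colE (ext (tau B L ω)) L (a + 1) n ξ (j + 1) = colE (ext ω) L a n ξ j := by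
  unfold colE
  rw [colW_tau a n j (by omega)]
  congr 1
  funext l
  rw [show a + 1 + n = a + n + 1 by omega]
  exact Xl_tau _ _ hn ha ω (ξ l)

theorem TCE_tau (a n : ℕ) (ha0 : 1 ≤ a) (ha : a + n + 1 ≤ B) (ω : Wd B L) {i : ℕ}
    (ξ : Fin i → Fin L → ZMod 2) :
    TCE (ext (tau B L ω)) L (a + 1) n ξ = TCE (ext ω) L a n ξ := by
  unfold TCE
  congr 1
  ext x
  constructor
  · rintro ⟨s, hs, h1, h2⟩
    exact ⟨s, hs, (ring_tau ha0 (by omega) ω hs).1 h1, by rw [h2, extC_tau a n ha0 ha]⟩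
  · rintro ⟨s, hs, h1, h2⟩
    exact ⟨s, hs, (ring_tau ha0 (by omega) ω hs).2 h1, by rw [h2, extC_tau a n ha0 ha]⟩

/-! #### rotation -/

theorem Xl_rot80 (d k j : ℕ) (h1 : 1 ≤ k) (h : k + d ≤ B) (ω : Wd B L) (ξ : Fin L → ZMod 2) :
    Xl (ext (rot B L d ω)) L k ξ j = Xl (ext ω) L (k + d) ξ (j + d) := by
  induction d generalizing k j with
  | zero => rfl
  | succ d ih =>
    rw [← Xl_tau k j h1 (by omega), tau_rot_succ, ih (k + 1) (j + 1) (by omega) (by omega)]
    rw [show k + 1 + d = k + (d + 1) by ring, show j + 1 + d = j + (d + 1) by ring]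

theorem Xc_rot80 (d c n : ℕ) (h : c + d + n ≤ B) (ω : Wd B L) (ξ : Fin L → ZMod 2) :
    Xc (ext (rot B L d ω)) L c n ξ = Xc (ext ω) L (c + d) n ξ := by
  induction d generalizing c with
  | zero => rfl
  | succ d ih =>
    rw [← Xc_tau c n (by omega), tau_rot_succ, ih (c + 1) (by omega)]
    rw [show c + 1 + d = c + (d + 1) by ring]

theorem Yc_rot80 (d c n : ℕ) (hc : 1 ≤ c) (h : c + d + n ≤ B) (ω : Wd B L) (e : Fin L → ZMod 2) :
    Yc (ext (rot B L d ω)) L c n e = Yc (ext ω) L (c + d) n e := by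
  induction d generalizing c with
  | zero => rfl
  | succ d ih =>
    rw [← Yc_tau c n hc (by omega), tau_rot_succ, ih (c + 1) (by omega) (by omega)]
    rw [show c + 1 + d = c + (d + 1) by ring]

theorem qv_rot80 (d c n : ℕ) (hc : 1 ≤ c) (h : c + d + n ≤ B) (ω : Wd B L) (ξ : Fin L → ZMod 2)
    (s : ℕ) : qv (ext (rot B L d ω)) L c n ξ s = qv (ext ω) L (c + d) n ξ s := by
  induction d generalizing c with
  | zero => rfl
  | succ d ih =>
    rw [← qv_tau c n hc (by omega), tau_rot_succ, ih (c + 1) (by omega) (by omega)]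
    rw [show c + 1 + d = c + (d + 1) by ring]

theorem crn_rot80 (d c n : ℕ) (hc : 1 ≤ c) (h : c + d + n ≤ B) (ω : Wd B L)
    (ξ e : Fin L → ZMod 2) : crn (ext (rot B L d ω)) L c n ξ e = crn (ext ω) L (c + d) n ξ e := by
  induction d generalizing c with
  | zero => rfl
  | succ d ih =>
    rw [← crn_tau c n hc (by omega), tau_rot_succ, ih (c + 1) (by omega) (by omega)]
    rw [show c + 1 + d = c + (d + 1) by ring]

theorem colV_rot80 (s d c n : ℕ) (h : c + d + n ≤ B) (ω : Wd B L) :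
    colV (ext (rot B L d ω)) L s c n = colV (ext ω) L s (c + d) n := by
  induction d generalizing c with
  | zero => rfl
  | succ d ih =>
    rw [← colV_tau s c n (by omega), tau_rot_succ, ih (c + 1) (by omega)]
    rw [show c + 1 + d = c + (d + 1) by ring]

theorem extC_rot (d c n : ℕ) (hc : 1 ≤ c) (h : c + d + n ≤ B) (ω : Wd B L) {i : ℕ}
    (ξ : Fin i → Fin L → ZMod 2) (s : ℕ) :
    extC (ext (rot B L d ω)) L c n ξ s = extC (ext ω) L (c + d) n ξ s := by
  induction d generalizing c with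
  | zero => rfl
  | succ d ih =>
    rw [← extC_tau c n hc (by omega), tau_rot_succ, ih (c + 1) (by omega) (by omega)]
    rw [show c + 1 + d = c + (d + 1) by ring]

theorem colW_rot (d c n j : ℕ) (h : c + d + n ≤ B) (ω : Wd B L) :
    colW (ext (rot B L d ω)) L c n j = colW (ext ω) L (c + d) n (j + d) := by
  induction d generalizing c j with
  | zero => rfl
  | succ d ih =>
    rw [← colW_tau c n j (by omega), tau_rot_succ, ih (c + 1) (j + 1) (by omega)]
    rw [show c + 1 + d = c + (d + 1) by ring, show j + 1 + d = j + (d + 1) by ring]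

theorem rowW_rot (d c n i : ℕ) (h : i + d ≤ B) (ω : Wd B L) :
    rowW (ext (rot B L d ω)) L c n i = rowW (ext ω) L (c + d) n (i + d) := by
  induction d generalizing c i with
  | zero => rfl
  | succ d ih =>
    rw [← rowW_tau c n i (by omega), tau_rot_succ, ih (c + 1) (i + 1) (by omega)]
    rw [show c + 1 + d = c + (d + 1) by ring, show i + 1 + d = i + (d + 1) by ring]

theorem colE_rot (d c n j : ℕ) (hc : 1 ≤ c + n) (h : c + d + n ≤ B) (ω : Wd B L) {i : ℕ}
    (ξ : Fin i → Fin L → ZMod 2) :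
    colE (ext (rot B L d ω)) L c n ξ j = colE (ext ω) L (c + d) n ξ (j + d) := by
  induction d generalizing c j with
  | zero => rfl
  | succ d ih =>
    rw [← colE_tau c n j hc (by omega), tau_rot_succ, ih (c + 1) (j + 1) (by omega) (by omega)]
    rw [show c + 1 + d = c + (d + 1) by ring, show j + 1 + d = j + (d + 1) by ring]

theorem TCE_rot (d c n : ℕ) (hc : 1 ≤ c) (h : c + d + n ≤ B) (ω : Wd B L) {i : ℕ}
    (ξ : Fin i → Fin L → ZMod 2) :
    TCE (ext (rot B L d ω)) L c n ξ = TCE (ext ω) L (c + d) n ξ := by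
  induction d generalizing c with
  | zero => rfl
  | succ d ih =>
    rw [← TCE_tau c n hc (by omega), tau_rot_succ, ih (c + 1) (by omega) (by omega)]
    rw [show c + 1 + d = c + (d + 1) by ring]

/-! #### reflection -/

/-- the array of the reflected word, started at any time -/
theorem Mst_rho_shift (u l : ℕ) (hs : u + l ≤ L) (k j : ℕ) (hk : k ≤ B) (hj : j ≤ B) (ω : Wd B L) :
    Mst (shift (ext (rho B L ω)) u) l k j = Mst (shift (ext ω) (L - u - l)) l (B - j) (B - k) := by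
  induction l generalizing k with
  | zero =>
    show (if k = j then (1 : ZMod 2) else 0) = if B - j = B - k then 1 else 0
    by_cases h : k = j
    · rw [if_pos h, if_pos (by omega)]
    · rw [if_neg h, if_neg (by omega)]
  | succ l ih =>
    have hsL : u + l < L := by omega
    have hl' : L - 1 - (u + l) < L := by omega
    rw [Mst_first (shift (ext ω) (L - u - (l + 1))) l, shift_shift]
    have e0 : shift (ext ω) (L - u - (l + 1)) 0 = ext ω (L - 1 - (u + l)) := by
      show ext ω (L - u - (l + 1) + 0) = ext ω (L - 1 - (u + l))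
      congr 1
      omega
    have e1 : L - u - (l + 1) + 1 = L - u - l := by omega
    rw [e0, e1]
    show Mst (shift (ext (rho B L ω)) u) l k j + (if k = (ext (rho B L ω) (u + l)).1 + 1 then
        (ext (rho B L ω) (u + l)).2 *
          Mst (shift (ext (rho B L ω)) u) l (ext (rho B L ω) (u + l)).1 j else 0) = _
    rw [ih (by omega) k hk, ext_rho ω hsL]
    simp only
    congr 1
    have hb := ext_fst_lt ω hl'
    by_cases h1 : B - k = (ext ω (L - 1 - (u + l))).1
    · rw [if_pos h1, if_pos (by omega), ih (by omega) _ (by omega)]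
      have e2 : B - (B - 1 - (ext ω (L - 1 - (u + l))).1) = (ext ω (L - 1 - (u + l))).1 + 1 := by
        omega
      rw [e2]
    · rw [if_neg h1, if_neg (by omega)]

theorem ring_rho {m : ℕ} (h2 : m ≤ B) (ω : Wd B L) {r : ℕ} (hr : r < L) :
    ((ext (rho B L ω) r).1 + 1 = m) ↔ ((ext ω (L - 1 - r)).1 + 1 = B + 1 - m) := by
  have hb := ext_fst_lt ω (show L - 1 - r < L by omega)
  rw [ext_rho ω hr]
  simp only
  omega

theorem rev_val_L (r : Fin L) : (Fin.rev r).val = L - 1 - r.val := by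
  rw [Fin.val_rev]
  omega

theorem Xc_rho (a n : ℕ) (ha : a + n ≤ B + 1) (hn : 1 ≤ n) (ω : Wd B L) (ξ : Fin L → ZMod 2) :
    Xc (ext (rho B L ω)) L a n ξ =
      revV n (Yc (ext ω) L (B + 1 - a - n) n (fun s => ξ (Fin.rev s))) := by
  have h1 : Xc (ext (rho B L ω)) L a n ξ = ∑ r : Fin L,
      if (ext (rho B L ω) r.val).1 + 1 = a + n then
        ξ r • revV n (colV (ext ω) L (L - 1 - r.val) (B + 1 - a - n) n) else 0 := by
    funext j
    rw [Finset.sum_apply]
    show Xl (ext (rho B L ω)) L (a + n) ξ (a + j.val) = _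
    unfold Xl
    refine Finset.sum_congr rfl fun r _ => ?_
    by_cases h : (ext (rho B L ω) r.val).1 + 1 = a + n
    · rw [if_pos h, if_pos h, ← lowW_rho a n ha hn ω r.val r.isLt]
      rfl
    · rw [if_neg h, if_neg h]
      rfl
  rw [h1]
  unfold Yc
  rw [map_sum, ← Equiv.sum_comp (Fin.revPerm (n := L))]
  refine Finset.sum_congr rfl fun s _ => ?_
  rw [Fin.revPerm_apply]
  have hs := s.isLt
  have e3 : L - 1 - (Fin.rev s).val = s.val := by
    rw [rev_val_L]
    omega
  rw [e3]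
  rcases Nat.lt_or_ge B (a + n) with hB | hB
  · have hb := ext_fst_lt ω hs
    have hb' := ext_fst_lt (rho B L ω) (show (Fin.rev s).val < L from (Fin.rev s).isLt)
    rw [if_neg (by omega), if_neg (by omega), map_zero]
  · have e2 := ring_rho (B := B) (m := a + n) hB ω (Fin.rev s).isLt
    rw [e3] at e2
    by_cases h : (ext ω s.val).1 + 1 = B + 1 - a - n
    · rw [if_pos h, if_pos (e2.2 (by omega)), map_smul]
    · rw [if_neg h, if_neg (fun h' => h (by have := e2.1 h'; omega)), map_zero]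

theorem Yc_rho (a n : ℕ) (ha : a + n ≤ B + 1) (hn : 1 ≤ n) (ω : Wd B L) (c : Fin L → ZMod 2) :
    Yc (ext (rho B L ω)) L a n c =
      revV n (Xc (ext ω) L (B + 1 - a - n) n (fun s => c (Fin.rev s))) := by
  have h := Xc_rho (B + 1 - a - n) n (by omega) hn (rho B L ω) (fun s => c (Fin.rev s))
  rw [rho_rho, show B + 1 - (B + 1 - a - n) - n = a by omega] at h
  rw [h, revV_revV]
  simp only [Fin.rev_rev]

/-- the corner bit as a double sum -/
theorem crn_eq (α : Seq) (a n : ℕ) (ξ c : Fin L → ZMod 2) :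
    crn α L a n ξ c = ∑ s : Fin L, ∑ r : Fin L,
      if ((α s.val).1 + 1 = a ∧ s.val < r.val) ∧ (α r.val).1 + 1 = a + n then
        c s * ξ r * Mst (shift α (s.val + 1)) (r.val - (s.val + 1)) (a + n - 1) a else 0 := by
  unfold crn qv
  refine Finset.sum_congr rfl fun s _ => ?_
  by_cases h : (α s.val).1 + 1 = a
  · rw [if_pos h, Finset.mul_sum]
    refine Finset.sum_congr rfl fun r _ => ?_
    by_cases h2 : s.val < r.val ∧ (α r.val).1 + 1 = a + n
    · rw [if_pos h2, if_pos ⟨⟨h, h2.1⟩, h2.2⟩]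
      ring
    · rw [if_neg h2, if_neg (fun h' => h2 ⟨h'.1.2, h'.2⟩), mul_zero]
  · rw [if_neg h]
    refine (Finset.sum_eq_zero fun r _ => ?_).symm
    rw [if_neg (fun h' => h h'.1.1)]

theorem crn_rho (a n : ℕ) (ha : a + n ≤ B + 1) (hn : 1 ≤ n) (ω : Wd B L) (ξ c : Fin L → ZMod 2) :
    crn (ext (rho B L ω)) L a n ξ c =
      crn (ext ω) L (B + 1 - a - n) n (fun s => c (Fin.rev s)) (fun s => ξ (Fin.rev s)) := by
  rw [crn_eq, crn_eq, Finset.sum_comm, ← Equiv.sum_comp (Fin.revPerm (n := L))]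
  refine Finset.sum_congr rfl fun s _ => ?_
  rw [← Equiv.sum_comp (Fin.revPerm (n := L))]
  refine Finset.sum_congr rfl fun r _ => ?_
  simp only [Fin.revPerm_apply]
  have hs := s.isLt
  have hr := r.isLt
  have e1 : (Fin.rev s).val = L - 1 - s.val := rev_val_L s
  have e2 : (Fin.rev r).val = L - 1 - r.val := rev_val_L r
  have e3 : L - 1 - (Fin.rev s).val = s.val := by omega
  have e4 : L - 1 - (Fin.rev r).val = r.val := by omega
  have hbs := ext_fst_lt ω hs
  have hbr := ext_fst_lt ω hr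
  have hbs' := ext_fst_lt (rho B L ω) (Fin.rev s).isLt
  have hbr' := ext_fst_lt (rho B L ω) (Fin.rev r).isLt
  rcases Nat.lt_or_ge B (a + n) with hB | hB
  · rw [if_neg (by omega), if_neg (by omega)]
  · have f1 := ring_rho (B := B) (m := a) (by omega) ω (Fin.rev r).isLt
    have f2 := ring_rho (B := B) (m := a + n) hB ω (Fin.rev s).isLt
    rw [e4] at f1
    rw [e3] at f2
    by_cases h : ((ext ω s.val).1 + 1 = B + 1 - a - n ∧ s.val < r.val) ∧
        (ext ω r.val).1 + 1 = B + 1 - a - n + n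
    · rw [if_pos h, if_pos ⟨⟨f1.2 (by omega), by omega⟩, f2.2 (by omega)⟩]
      rw [Mst_rho_shift ((Fin.rev r).val + 1) ((Fin.rev s).val - ((Fin.rev r).val + 1)) (by omega)
        (a + n - 1) a (by omega) (by omega) ω]
      have g1 : L - ((Fin.rev r).val + 1) - ((Fin.rev s).val - ((Fin.rev r).val + 1)) = s.val + 1 := by
        omega
      have g2 : (Fin.rev s).val - ((Fin.rev r).val + 1) = r.val - (s.val + 1) := by omega
      rw [g1, g2, show B - a = B + 1 - a - n + n - 1 by omega,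
        show B - (a + n - 1) = B + 1 - a - n by omega]
      ring
    · rw [if_neg h, if_neg]
      rintro ⟨⟨h1, h2⟩, h3⟩
      have h4 := f1.1 h1
      have h5 := f2.1 h3
      exact h ⟨⟨by omega, by omega⟩, by omega⟩

/-! #### reflection of the standard window -/

theorem refl_Xc (n : ℕ) (h : n + 1 ≤ B) (hn : 1 ≤ n) (ω : Wd B L) (ξ : Fin L → ZMod 2) :
    Xc (ext (refl B L n ω)) L 1 n ξ = revV n (Yc (ext ω) L 1 n (fun s => ξ (Fin.rev s))) := by
  show Xc (ext (rot B L (B - n - 1) (rho B L ω))) L 1 n ξ = _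
  rw [Xc_rot80 (B - n - 1) 1 n (by omega), Xc_rho (1 + (B - n - 1)) n (by omega) hn,
    show B + 1 - (1 + (B - n - 1)) - n = 1 by omega]

theorem refl_Yc (n : ℕ) (h : n + 1 ≤ B) (hn : 1 ≤ n) (ω : Wd B L) (c : Fin L → ZMod 2) :
    Yc (ext (refl B L n ω)) L 1 n c = revV n (Xc (ext ω) L 1 n (fun s => c (Fin.rev s))) := by
  show Yc (ext (rot B L (B - n - 1) (rho B L ω))) L 1 n c = _
  rw [Yc_rot80 (B - n - 1) 1 n le_rfl (by omega), Yc_rho (1 + (B - n - 1)) n (by omega) hn,
    show B + 1 - (1 + (B - n - 1)) - n = 1 by omega]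

theorem refl_crn (n : ℕ) (h : n + 1 ≤ B) (hn : 1 ≤ n) (ω : Wd B L) (ξ c : Fin L → ZMod 2) :
    crn (ext (refl B L n ω)) L 1 n ξ c =
      crn (ext ω) L 1 n (fun s => c (Fin.rev s)) (fun s => ξ (Fin.rev s)) := by
  show crn (ext (rot B L (B - n - 1) (rho B L ω))) L 1 n ξ c = _
  rw [crn_rot80 (B - n - 1) 1 n le_rfl (by omega), crn_rho (1 + (B - n - 1)) n (by omega) hn,
    show B + 1 - (1 + (B - n - 1)) - n = 1 by omega]

end Pool.Agent.CutSeq.NJ
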