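import Pool.Agent.NJ.Cur13

/-!
S19271, NOJUMP, the step in time: most of the visible space after a fresh slab (threshold `1 - e'`)
was visible before it (threshold `1 - e`).

`μ A R` is the law of (array, next row) before the slab, `p d` the law of the slab, `f d A` the array
after the slab, `R + ψ d A` the next row after the slab, `ν` the law of the pair after the slab.
-/

set_option autoImplicit false

namespace Pool.Agent.CutSeq.NJ

open Finset Module

variable {n : ℕ}

namespace Time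

theorem sgn_le_one (x : ZMod 2) : sgn x ≤ 1 := by
  unfold sgn
  split_ifs <;> norm_num

theorem sgn_add (x y : ZMod 2) : sgn (x + y) = sgn x * sgn y := by
  unfold sgn
  revert x y
  have h : ∀ x y : ZMod 2, (x + y = 0 ↔ (x = 0 ↔ y = 0)) := by decide
  intro x y
  by_cases hx : x = 0
  · by_cases hy : y = 0
    · rw [if_pos ((h x y).2 ⟨fun _ => hy, fun _ => hx⟩), if_pos hx, if_pos hy, one_mul]
    · rw [if_neg (fun hh => hy (((h x y).1 hh).1 hx)), if_pos hx, if_neg hy, one_mul]
  · by_cases hy : y = 0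
    · rw [if_neg (fun hh => hx (((h x y).1 hh).2 hy)), if_neg hx, if_pos hy, mul_one]
    · rw [if_pos ((h x y).2 ⟨fun hh => absurd hh hx, fun hh => absurd hh hy⟩), if_neg hx, if_neg hy]
      norm_num

/-- a finite basis inside a spanning set, and the codimension of an intersection -/
theorem exists_basis_set (s : Set (V n)) : ∃ b : Finset (V n), (∀ a ∈ b, a ∈ s) ∧ b.card ≤ n ∧
    ∀ (W : Submodule (ZMod 2) (V n)), (finrank (ZMod 2) (Submodule.span (ZMod 2) s) : ℝ)
      - finrank (ZMod 2) (Submodule.span (ZMod 2) s ⊓ W : Submodule (ZMod 2) (V n))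
        ≤ ∑ a ∈ b, (by classical exact if a ∈ W then (0 : ℝ) else 1) := by
  classical
  obtain ⟨b, hbs, hspan, hli⟩ := exists_linearIndependent (ZMod 2) s
  have hfin : b.Finite := Set.toFinite b
  lift b to Finset (V n) using hfin
  have hcard : finrank (ZMod 2) (Submodule.span (ZMod 2) s) = b.card := by
    rw [← hspan]
    exact finrank_span_finset_eq_card hli
  refine ⟨b, fun a ha => hbs ha, ?_, fun W => ?_⟩
  · rw [← hcard]
    have h := Submodule.finrank_le (Submodule.span (ZMod 2) s)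
    rwa [finrank_fin_fun] at h
  · have hli2 : LinearIndependent (ZMod 2) (Subtype.val : {x // x ∈ b.filter (· ∈ W)} → V n) := by
      refine hli.comp (fun x : {x // x ∈ b.filter (· ∈ W)} =>
        (⟨x.1, mem_coe.2 (mem_filter.1 x.2).1⟩ : ((b : Set (V n)) : Type))) ?_
      intro x y hxy
      exact Subtype.ext (congrArg (fun z : ((b : Set (V n)) : Type) => z.1) hxy)
    have h1 : (b.filter (· ∈ W)).card
        ≤ finrank (ZMod 2) (Submodule.span (ZMod 2) s ⊓ W : Submodule (ZMod 2) (V n)) := by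
      rw [← finrank_span_finset_eq_card hli2]
      refine Submodule.finrank_mono (Submodule.span_le.2 fun x hx => ?_)
      have hx' := mem_filter.1 (mem_coe.1 hx)
      refine ⟨?_, hx'.2⟩
      rw [← hspan]
      exact Submodule.subset_span hx'.1
    have h2 : (b.card : ℝ) = (b.filter (· ∈ W)).card + ∑ a ∈ b, (if a ∈ W then (0 : ℝ) else 1) := by
      have h3 : ∀ a ∈ b, (if a ∈ W then (0 : ℝ) else 1) = 1 - if a ∈ W then (1 : ℝ) else 0 := by
        intro a _
        split_ifs <;> norm_num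
      rw [sum_congr rfl h3, sum_sub_distrib, sum_const, nsmul_eq_mul, mul_one, sum_boole]
      ring
    have h1' : ((b.filter (· ∈ W)).card : ℝ)
        ≤ finrank (ZMod 2) (Submodule.span (ZMod 2) s ⊓ W : Submodule (ZMod 2) (V n)) := by
      exact_mod_cast h1
    rw [hcard]
    linarith

end Time

variable {AA AA' D : Type*} [Fintype AA] [Fintype AA'] [Fintype D]

/-- unnormalised posterior -/
noncomputable def chA (μ : AA → V n → ℝ) (a : V n) (A : AA) : ℝ := ∑ R, μ A R * sgn (R ⬝ᵥ a)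

omit [Fintype AA] in
theorem mA_mul_pst (μ : AA → V n → ℝ) (hμ : ∀ A R, 0 ≤ μ A R) (a : V n) (A : AA) :
    mA μ A * pst μ a A = chA μ a A := by
  unfold pst chA
  rcases (mA_nonneg μ hμ A).eq_or_lt with h | h
  · have h1 : ∀ R, μ A R = 0 := fun R =>
      (sum_eq_zero_iff_of_nonneg fun R (_ : R ∈ univ) => hμ A R).1 h.symm R (mem_univ R)
    simp [h1]
  · rw [mul_sum]
    refine sum_congr rfl fun R _ => ?_
    rw [div_mul_eq_mul_div, mul_div_cancel₀ _ h.ne']

omit [Fintype AA] in
theorem chA_le (μ : AA → V n → ℝ) (hμ : ∀ A R, 0 ≤ μ A R) (a : V n) (A : AA) :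
    chA μ a A ≤ mA μ A := by
  unfold chA mA
  refine sum_le_sum fun R _ => ?_
  have h := mul_le_mul_of_nonneg_left (Time.sgn_le_one (R ⬝ᵥ a)) (hμ A R)
  rwa [mul_one] at h

open Classical in
/-- the law of the pair (array, next row) after the slab -/
noncomputable def slabLaw (μ : AA → V n → ℝ) (p : D → ℝ) (f : D → AA → AA') (ψ : D → AA → V n) :
    AA' → V n → ℝ := fun A' R' => ∑ A, ∑ d, if f d A = A' then p d * μ A (R' + ψ d A) else 0

open Classical in
omit [Fintype AA'] in
theorem mA_slab (μ : AA → V n → ℝ) (p : D → ℝ) (f : D → AA → AA') (ψ : D → AA → V n) (A' : AA') :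
    mA (slabLaw μ p f ψ) A' = ∑ A, ∑ d, if f d A = A' then p d * mA μ A else 0 := by
  unfold mA slabLaw
  rw [sum_comm]
  refine sum_congr rfl fun A _ => ?_
  rw [sum_comm]
  refine sum_congr rfl fun d _ => ?_
  split_ifs with h
  · rw [mul_sum]
    exact (Equiv.sum_comp (Equiv.addRight (ψ d A)) fun R => p d * μ A R)
  · rw [sum_const_zero]

open Classical in
omit [Fintype AA'] in
theorem chA_slab_le (μ : AA → V n → ℝ) (hpos : ∀ A a, 0 ≤ chA μ a A) (p : D → ℝ) (hp : ∀ d, 0 ≤ p d)
    (f : D → AA → AA') (ψ : D → AA → V n) (a : V n) (A' : AA') :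
    chA (slabLaw μ p f ψ) a A' ≤ ∑ A, ∑ d, if f d A = A' then p d * chA μ a A else 0 := by
  have h1 : chA (slabLaw μ p f ψ) a A' = ∑ A, ∑ d, if f d A = A' then
      p d * (sgn (ψ d A ⬝ᵥ a) * chA μ a A) else 0 := by
    unfold chA slabLaw
    simp only [sum_mul]
    rw [sum_comm]
    refine sum_congr rfl fun A _ => ?_
    rw [sum_comm]
    refine sum_congr rfl fun d _ => ?_
    split_ifs with h
    · rw [mul_sum, mul_sum]
      rw [← Equiv.sum_comp (Equiv.addRight (ψ d A))
        (fun R => p d * (sgn (ψ d A ⬝ᵥ a) * (μ A R * sgn (R ⬝ᵥ a))))]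
      refine sum_congr rfl fun R _ => ?_
      rw [Equiv.coe_addRight, add_dotProduct, Time.sgn_add]
      have h2 : sgn (ψ d A ⬝ᵥ a) * sgn (ψ d A ⬝ᵥ a) = 1 := by
        rw [← Time.sgn_add, CharTwo.add_self_eq_zero]
        exact if_pos rfl
      calc p d * μ A (R + ψ d A) * sgn (R ⬝ᵥ a)
          = p d * μ A (R + ψ d A) * sgn (R ⬝ᵥ a) * (sgn (ψ d A ⬝ᵥ a) * sgn (ψ d A ⬝ᵥ a)) := by
            rw [h2, mul_one]
        _ = _ := by ring
    · simp
  rw [h1]
  refine sum_le_sum fun A _ => sum_le_sum fun d _ => ?_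
  split_ifs with h
  · refine mul_le_mul_of_nonneg_left ?_ (hp d)
    have h2 := mul_le_mul_of_nonneg_right (Time.sgn_le_one (ψ d A ⬝ᵥ a)) (hpos A a)
    rwa [one_mul] at h2
  · exact le_rfl

/-- **the step in time** -/
theorem time_step (μ : AA → V n → ℝ) (hμ : ∀ A R, 0 ≤ μ A R) (hpos : ∀ A a, 0 ≤ chA μ a A)
    (p : D → ℝ) (hp : ∀ d, 0 ≤ p d) (f : D → AA → AA') (ψ : D → AA → V n) {e e' : ℝ} (he : 0 < e)
    (he' : 0 ≤ e') :
    ∑ A, ∑ d, p d * mA μ A * ((finrank (ZMod 2) (Vth (slabLaw μ p f ψ) (1 - e') (f d A)) : ℝ)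
      - finrank (ZMod 2) (Vth (slabLaw μ p f ψ) (1 - e') (f d A) ⊓ Vth μ (1 - e) A :
        Submodule (ZMod 2) (V n)))
      ≤ e' / e * (n * ((∑ d, p d) * ∑ A, mA μ A)) := by
  classical
  set ν := slabLaw μ p f ψ with hν
  have hνn : ∀ A' R', 0 ≤ ν A' R' := by
    intro A' R'
    refine sum_nonneg fun A _ => sum_nonneg fun d _ => ?_
    split_ifs
    · exact mul_nonneg (hp d) (hμ _ _)
    · exact le_rfl
  choose b hbs hbn hbW using fun A' : AA' => Time.exists_basis_set {a : V n | 1 - e' ≤ pst ν a A'}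
  -- one pair
  have h1 : ∀ A d, p d * mA μ A * ((finrank (ZMod 2) (Vth ν (1 - e') (f d A)) : ℝ)
      - finrank (ZMod 2) (Vth ν (1 - e') (f d A) ⊓ Vth μ (1 - e) A : Submodule (ZMod 2) (V n)))
      ≤ ∑ a ∈ b (f d A), p d * ((mA μ A - chA μ a A) / e) := by
    intro A d
    have hm := mA_nonneg μ hμ A
    have h2 := hbW (f d A) (Vth μ (1 - e) A)
    have h3 : ∀ a ∈ b (f d A), mA μ A * (if a ∈ Vth μ (1 - e) A then (0 : ℝ) else 1)
        ≤ (mA μ A - chA μ a A) / e := by
      intro a _
      split_ifs with h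
      · rw [mul_zero]
        exact div_nonneg (sub_nonneg.2 (chA_le μ hμ a A)) he.le
      · rw [mul_one, le_div_iff₀ he, ← mA_mul_pst μ hμ a A]
        have h4 : pst μ a A < 1 - e := by
          by_contra h5
          exact h (Submodule.subset_span (not_lt.1 h5))
        have h5 := mul_le_mul_of_nonneg_left h4.le hm
        linarith
    calc p d * mA μ A * ((finrank (ZMod 2) (Vth ν (1 - e') (f d A)) : ℝ)
      - finrank (ZMod 2) (Vth ν (1 - e') (f d A) ⊓ Vth μ (1 - e) A : Submodule (ZMod 2) (V n)))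
        ≤ p d * mA μ A * ∑ a ∈ b (f d A), (if a ∈ Vth μ (1 - e) A then (0 : ℝ) else 1) :=
          mul_le_mul_of_nonneg_left h2 (mul_nonneg (hp d) hm)
      _ = ∑ a ∈ b (f d A), p d * (mA μ A * (if a ∈ Vth μ (1 - e) A then (0 : ℝ) else 1)) := by
          rw [mul_sum]
          exact sum_congr rfl fun a _ => by ring
      _ ≤ _ := sum_le_sum fun a ha => mul_le_mul_of_nonneg_left (h3 a ha) (hp d)
  refine le_trans (sum_le_sum fun A _ => sum_le_sum fun d _ => h1 A d) ?_
  -- regroup by the array after the slab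
  have h2 : ∑ A, ∑ d, ∑ a ∈ b (f d A), p d * ((mA μ A - chA μ a A) / e)
      = ∑ A', ∑ a ∈ b A', (∑ A, ∑ d, if f d A = A' then p d * ((mA μ A - chA μ a A) / e) else 0) := by
    have h3 : ∀ A d, ∑ a ∈ b (f d A), p d * ((mA μ A - chA μ a A) / e)
        = ∑ A', ∑ a ∈ b A', if f d A = A' then p d * ((mA μ A - chA μ a A) / e) else 0 := by
      intro A d
      rw [sum_eq_single (f d A)]
      · exact sum_congr rfl fun a _ => by rw [if_pos rfl]
      · intro A' _ hA'
        exact sum_eq_zero fun a _ => if_neg fun h => hA' h.symm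
      · intro h
        exact absurd (mem_univ _) h
    simp only [h3]
    rw [sum_congr rfl fun A _ => sum_comm, sum_comm]
    refine sum_congr rfl fun A' _ => ?_
    rw [sum_congr rfl fun A _ => sum_comm, sum_comm]
  rw [h2]
  have h3 : ∀ A', ∀ a ∈ b A', (∑ A, ∑ d, if f d A = A' then p d * ((mA μ A - chA μ a A) / e) else 0)
      ≤ e' / e * mA ν A' := by
    intro A' a ha
    have h4 : (∑ A, ∑ d, if f d A = A' then p d * ((mA μ A - chA μ a A) / e) else 0)
        = ((∑ A, ∑ d, if f d A = A' then p d * mA μ A else 0)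
          - ∑ A, ∑ d, if f d A = A' then p d * chA μ a A else 0) / e := by
      rw [← sum_sub_distrib, sum_div]
      refine sum_congr rfl fun A _ => ?_
      rw [← sum_sub_distrib, sum_div]
      refine sum_congr rfl fun d _ => ?_
      split_ifs
      · ring
      · ring
    rw [h4, ← mA_slab, ← hν]
    have h5 := chA_slab_le μ hpos p hp f ψ a A'
    rw [← hν] at h5
    have h6 : 1 - e' ≤ pst ν a A' := hbs A' a ha
    have h7 := mul_le_mul_of_nonneg_left h6 (mA_nonneg ν hνn A')
    rw [mA_mul_pst ν hνn a A'] at h7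
    rw [div_mul_eq_mul_div]
    refine div_le_div_of_nonneg_right ?_ he.le
    linarith
  have h4 : ∑ A', ∑ a ∈ b A', (∑ A, ∑ d, if f d A = A' then p d * ((mA μ A - chA μ a A) / e) else 0)
      ≤ ∑ A', n * (e' / e * mA ν A') := by
    refine sum_le_sum fun A' _ => ?_
    refine le_trans (sum_le_sum (h3 A')) ?_
    rw [sum_const, nsmul_eq_mul]
    refine mul_le_mul_of_nonneg_right ?_ (mul_nonneg (div_nonneg he' he.le) (mA_nonneg ν hνn A'))
    exact_mod_cast hbn A'
  refine le_trans h4 ?_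
  have h5 : ∑ A', mA ν A' = (∑ d, p d) * ∑ A, mA μ A := by
    rw [hν]
    simp only [mA_slab]
    rw [sum_comm, mul_comm, sum_mul]
    refine sum_congr rfl fun A _ => ?_
    rw [sum_comm, mul_sum]
    refine sum_congr rfl fun d _ => ?_
    rw [sum_ite_eq, if_pos (mem_univ _)]
    ring
  rw [← mul_sum, ← mul_sum, h5]
  apply le_of_eq
  ring

end Pool.Agent.CutSeq.NJ
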