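import Pool.Agent.CutSeq.Back

/-!
Tops of a subspace and the action of one letter (no jump argument).

`low n c` are the vectors supported on the coordinates `< c`, `Nt c W` is the dimension of
`W ⊓ low n c` (the number of tops `< c` of `W`).  The letter `(b, 1)` changes only `Nt (b + 1)`:
it decreases by one for the pattern `P10` (a top at `b`, no top at `b + 1`) and increases by one for
the pattern `P01` (no top at `b`, a top at `b + 1` whose vectors have the coordinate `b` equal
to one); it exchanges the two patterns.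
-/

set_option autoImplicit false

namespace Pool.Agent.CutSeq.NJ34

open Finset Module

variable {n : ℕ}

/-- vectors supported on the coordinates `< c` -/
def low (n c : ℕ) : Submodule (ZMod 2) (V n) where
  carrier := {z | ∀ k : Fin n, c ≤ k.val → z k = 0}
  add_mem' := by
    intro a b ha hb k hk
    rw [Pi.add_apply, ha k hk, hb k hk, add_zero]
  zero_mem' := by
    intro k _
    rfl
  smul_mem' := by
    intro c a ha k hk
    rw [Pi.smul_apply, ha k hk, smul_zero]

theorem mem_low {c : ℕ} {z : V n} : z ∈ low n c ↔ ∀ k : Fin n, c ≤ k.val → z k = 0 := Iff.rfl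

theorem mem_low_iff_tp {c : ℕ} {z : V n} : z ∈ low n c ↔ tp z ≤ c := by
  constructor
  · intro h
    exact Bwd.tp_le_of z c h
  · intro h k hk
    exact Bwd.eq_zero_of_tp_le z k (h.trans hk)

theorem low_mono {c c' : ℕ} (h : c ≤ c') : low n c ≤ low n c' := by
  intro z hz k hk
  exact hz k (h.trans hk)

theorem low_zero : low n 0 = ⊥ := by
  ext z
  rw [Submodule.mem_bot]
  constructor
  · intro h
    funext k
    exact h k (Nat.zero_le _)
  · intro h
    subst h
    exact Submodule.zero_mem _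

theorem low_top {c : ℕ} (h : n ≤ c) : low n c = ⊤ := by
  ext z
  simp only [Submodule.mem_top, iff_true]
  intro k hk
  exact absurd k.isLt (by omega)

/-- number of tops `< c` of `W` -/
noncomputable def Nt (c : ℕ) (W : Submodule (ZMod 2) (V n)) : ℕ :=
  finrank (ZMod 2) (W ⊓ low n c : Submodule (ZMod 2) (V n))

theorem Nt_zero (W : Submodule (ZMod 2) (V n)) : Nt 0 W = 0 := by
  unfold Nt
  rw [low_zero, inf_bot_eq, finrank_bot]

theorem Nt_top {c : ℕ} (h : n ≤ c) (W : Submodule (ZMod 2) (V n)) :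
    Nt c W = finrank (ZMod 2) W := by
  unfold Nt
  rw [low_top h, inf_top_eq]

theorem Nt_mono {c c' : ℕ} (h : c ≤ c') (W : Submodule (ZMod 2) (V n)) : Nt c W ≤ Nt c' W :=
  Submodule.finrank_mono (inf_le_inf_left W (low_mono h))

theorem Nt_mono_left {W W' : Submodule (ZMod 2) (V n)} (h : W ≤ W') (c : ℕ) : Nt c W ≤ Nt c W' :=
  Submodule.finrank_mono (inf_le_inf_right _ h)

theorem Nt_le_finrank (c : ℕ) (W : Submodule (ZMod 2) (V n)) : Nt c W ≤ finrank (ZMod 2) W :=
  Submodule.finrank_mono inf_le_left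

/-- dimension of the kernel of a functional on a subspace -/
theorem finrank_ker_functional (D : Submodule (ZMod 2) (V n)) (f : V n →ₗ[ZMod 2] ZMod 2) :
    finrank (ZMod 2) D ≤ finrank (ZMod 2) (D ⊓ LinearMap.ker f : Submodule (ZMod 2) (V n)) + 1 ∧
    ((∃ z ∈ D, f z ≠ 0) → finrank (ZMod 2) D =
      finrank (ZMod 2) (D ⊓ LinearMap.ker f : Submodule (ZMod 2) (V n)) + 1) := by
  have h1 := LinearMap.finrank_range_add_finrank_ker (f.domRestrict D)
  have h2 : finrank (ZMod 2) (LinearMap.ker (f.domRestrict D)) =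
      finrank (ZMod 2) (D ⊓ LinearMap.ker f : Submodule (ZMod 2) (V n)) := by
    rw [LinearMap.ker_domRestrict]
    have e : (D ⊓ LinearMap.ker f : Submodule (ZMod 2) (V n)) =
        (Submodule.comap D.subtype (LinearMap.ker f)).map D.subtype := by
      rw [Submodule.map_comap_subtype]
    rw [e, LinearEquiv.finrank_eq (Submodule.equivMapOfInjective D.subtype
      (Submodule.injective_subtype D) (Submodule.comap D.subtype (LinearMap.ker f)))]
  have h3 : finrank (ZMod 2) (LinearMap.range (f.domRestrict D)) ≤ 1 := by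
    refine (Submodule.finrank_le _).trans ?_
    rw [finrank_self]
  constructor
  · omega
  · rintro ⟨z, hz, hfz⟩
    have h4 : 0 < finrank (ZMod 2) (LinearMap.range (f.domRestrict D)) := by
      rw [finrank_pos_iff]
      refine ⟨⟨f z, ⟨z, hz⟩, rfl⟩, 0, ?_⟩
      intro h
      exact hfz (congrArg Subtype.val h)
    omega

/-! #### one letter -/

/-- the coordinate `k` as a linear functional (zero for `k ≥ n`) -/
def zxL (n k : ℕ) : V n →ₗ[ZMod 2] ZMod 2 where
  toFun z := Bwd.zx z k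
  map_add' a b := by
    unfold Bwd.zx
    split
    · rfl
    · exact (add_zero 0).symm
  map_smul' c a := by
    unfold Bwd.zx
    split
    · rfl
    · exact (smul_zero c).symm

theorem zxL_apply (k : ℕ) (z : V n) : zxL n k z = Bwd.zx z k := rfl

/-- the action of the letter `(b, x)` as a linear equivalence -/
def ltE (n b : ℕ) (x : ZMod 2) : V n ≃ₗ[ZMod 2] V n where
  toFun := Bwd.lt (b, x)
  invFun := Bwd.lt (b, x)
  left_inv := Bwd.lt_lt (b, x)
  right_inv := Bwd.lt_lt (b, x)
  map_add' z z' := by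
    funext k
    have h : Bwd.zx (z + z') b = Bwd.zx z b + Bwd.zx z' b := (zxL n b).map_add z z'
    simp only [Bwd.lt, Pi.add_apply, h]
    split
    · ring
    · ring
  map_smul' c z := by
    funext k
    have h : Bwd.zx (c • z) b = c * Bwd.zx z b := (zxL n b).map_smul c z
    simp only [Bwd.lt, Pi.smul_apply, h, smul_eq_mul, RingHom.id_apply]
    split
    · ring
    · ring

theorem ltE_apply (b : ℕ) (x : ZMod 2) (z : V n) : ltE n b x z = Bwd.lt (b, x) z := rfl

theorem ltE_ltE (b : ℕ) (x : ZMod 2) (z : V n) : ltE n b x (ltE n b x z) = z :=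
  Bwd.lt_lt (b, x) z

theorem ltE_coord (b : ℕ) (x : ZMod 2) (z : V n) (k : Fin n) :
    ltE n b x z k = z k + if k.val = b + 1 then x * Bwd.zx z b else 0 := rfl

theorem ltE_zero (b : ℕ) (z : V n) : ltE n b 0 z = z := by
  funext k
  rw [ltE_coord]
  split
  · rw [zero_mul, add_zero]
  · rw [add_zero]

theorem map_map_ltE (b : ℕ) (x : ZMod 2) (W : Submodule (ZMod 2) (V n)) :
    (W.map (ltE n b x : V n →ₗ[ZMod 2] V n)).map (ltE n b x : V n →ₗ[ZMod 2] V n) = W := by
  ext z
  simp only [Submodule.mem_map, LinearEquiv.coe_coe]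
  constructor
  · rintro ⟨y, ⟨w, hw, rfl⟩, rfl⟩
    rw [ltE_ltE]
    exact hw
  · intro hz
    exact ⟨ltE n b x z, ⟨z, hz, rfl⟩, ltE_ltE b x z⟩

/-- membership in the image -/
theorem mem_map_ltE (b : ℕ) (x : ZMod 2) (W : Submodule (ZMod 2) (V n)) (z : V n) :
    z ∈ W.map (ltE n b x : V n →ₗ[ZMod 2] V n) ↔ ltE n b x z ∈ W := by
  constructor
  · rintro ⟨w, hw, rfl⟩
    change ltE n b x (ltE n b x w) ∈ W
    rw [ltE_ltE]
    exact hw
  · intro h
    exact ⟨_, h, ltE_ltE b x z⟩

theorem ltE_mem_low (b : ℕ) (x : ZMod 2) {c : ℕ} (hc : c ≠ b + 1) (z : V n) :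
    ltE n b x z ∈ low n c ↔ z ∈ low n c := by
  have key : ∀ z : V n, z ∈ low n c → ltE n b x z ∈ low n c := by
    intro z hz k hk
    rw [ltE_coord, hz k hk, zero_add]
    by_cases h : k.val = b + 1
    · rw [if_pos h]
      have h1 : Bwd.zx z b = 0 := by
        unfold Bwd.zx
        split
        · next hb => exact hz ⟨b, hb⟩ (by simp only; omega)
        · rfl
      rw [h1, mul_zero]
    · rw [if_neg h]
  constructor
  · intro h
    have := key _ h
    rwa [ltE_ltE] at this
  · exact key z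

/-- finrank of the image of a subspace under the letter -/
theorem finrank_map_ltE (b : ℕ) (x : ZMod 2) (W : Submodule (ZMod 2) (V n)) :
    finrank (ZMod 2) (W.map (ltE n b x : V n →ₗ[ZMod 2] V n)) = finrank (ZMod 2) W :=
  LinearEquiv.finrank_map_eq (ltE n b x) W

/-- a letter at `b` changes only `Nt (b + 1)` -/
theorem Nt_map_ne (b : ℕ) (x : ZMod 2) {c : ℕ} (hc : c ≠ b + 1) (W : Submodule (ZMod 2) (V n)) :
    Nt c (W.map (ltE n b x : V n →ₗ[ZMod 2] V n)) = Nt c W := by
  unfold Nt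
  have h : (W.map (ltE n b x : V n →ₗ[ZMod 2] V n) ⊓ low n c : Submodule (ZMod 2) (V n)) =
      (W ⊓ low n c : Submodule (ZMod 2) (V n)).map (ltE n b x : V n →ₗ[ZMod 2] V n) := by
    ext z
    rw [mem_map_ltE, Submodule.mem_inf, Submodule.mem_inf, mem_map_ltE, ltE_mem_low b x hc]
  rw [h, finrank_map_ltE]

/-- a top at `b` and no top at `b + 1` -/
def P10 (b : ℕ) (W : Submodule (ZMod 2) (V n)) : Prop :=
  (∀ z ∈ W ⊓ low n (b + 2), Bwd.zx z (b + 1) = 0) ∧ ∃ z ∈ W ⊓ low n (b + 2), Bwd.zx z b ≠ 0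

/-- no top at `b`, a top at `b + 1`, and the vectors with this top have the coordinate `b` equal
to one -/
def P01 (b : ℕ) (W : Submodule (ZMod 2) (V n)) : Prop :=
  (∀ z ∈ W ⊓ low n (b + 2), Bwd.zx z (b + 1) = Bwd.zx z b) ∧
    ∃ z ∈ W ⊓ low n (b + 2), Bwd.zx z b ≠ 0

theorem zx_ltE_self {b : ℕ} (x : ZMod 2) (z : V n) : Bwd.zx (ltE n b x z) b = Bwd.zx z b := by
  unfold Bwd.zx
  split
  · next h =>
      rw [ltE_coord, if_neg (by simp only; omega), add_zero]
  · rfl

theorem zx_ltE_succ {b : ℕ} (hb : b + 1 < n) (x : ZMod 2) (z : V n) :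
    Bwd.zx (ltE n b x z) (b + 1) = Bwd.zx z (b + 1) + x * Bwd.zx z b := by
  have h1 : Bwd.zx (ltE n b x z) (b + 1) = ltE n b x z ⟨b + 1, hb⟩ :=
    Bwd.zx_eq _ ⟨b + 1, hb⟩
  have h2 : Bwd.zx z (b + 1) = z ⟨b + 1, hb⟩ := Bwd.zx_eq _ ⟨b + 1, hb⟩
  rw [h1, h2, ltE_coord, if_pos rfl]

/-- the letter exchanges the two patterns -/
theorem P10_map {b : ℕ} (hb : b + 1 < n) (W : Submodule (ZMod 2) (V n)) :
    P10 b (W.map (ltE n b 1 : V n →ₗ[ZMod 2] V n)) ↔ P01 b W := by
  have h2 : ∀ z : V n, z ∈ (W.map (ltE n b 1 : V n →ₗ[ZMod 2] V n) ⊓ low n (b + 2) :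
      Submodule (ZMod 2) (V n)) ↔ ltE n b 1 z ∈ (W ⊓ low n (b + 2) : Submodule (ZMod 2) (V n)) := by
    intro z
    rw [Submodule.mem_inf, Submodule.mem_inf, mem_map_ltE, ltE_mem_low b 1 (by omega)]
  unfold P10 P01
  constructor
  · rintro ⟨h3, z, hz, hz1⟩
    refine ⟨fun y hy => ?_, ltE n b 1 z, (h2 z).1 hz, ?_⟩
    · have h4 := h3 (ltE n b 1 y) ((h2 _).2 (by rw [ltE_ltE]; exact hy))
      rw [zx_ltE_succ hb, one_mul] at h4
      exact CharTwo.add_eq_zero.1 h4
    · rw [zx_ltE_self]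
      exact hz1
  · rintro ⟨h3, z, hz, hz1⟩
    refine ⟨fun y hy => ?_, ltE n b 1 z, (h2 _).2 (by rw [ltE_ltE]; exact hz), ?_⟩
    · have h4 := h3 (ltE n b 1 y) ((h2 y).1 hy)
      rw [zx_ltE_succ hb, one_mul, zx_ltE_self] at h4
      have h5 : Bwd.zx y (b + 1) + Bwd.zx y b + Bwd.zx y b = Bwd.zx y b + Bwd.zx y b := by rw [h4]
      rwa [add_assoc, CharTwo.add_self_eq_zero, add_zero] at h5
    · rw [zx_ltE_self]
      exact hz1

theorem P01_map {b : ℕ} (hb : b + 1 < n) (W : Submodule (ZMod 2) (V n)) :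
    P01 b (W.map (ltE n b 1 : V n →ₗ[ZMod 2] V n)) ↔ P10 b W := by
  rw [← P10_map hb, map_map_ltE]

theorem low_succ_eq {b : ℕ} : low n (b + 1) = low n (b + 2) ⊓ LinearMap.ker (zxL n (b + 1)) := by
  ext z
  rw [Submodule.mem_inf, LinearMap.mem_ker, zxL_apply]
  constructor
  · intro h
    refine ⟨low_mono (by omega) h, ?_⟩
    unfold Bwd.zx
    split
    · next hb => exact h ⟨b + 1, hb⟩ le_rfl
    · rfl
  · rintro ⟨h1, h2⟩ k hk
    by_cases h3 : k.val = b + 1
    · have h4 := Bwd.zx_eq z k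
      rw [← h4, h3]
      exact h2
    · exact h1 k (by omega)

/-- (3) the number of tops `≤ c` grows by at most one -/
theorem Nt_succ_le (c : ℕ) (W : Submodule (ZMod 2) (V n)) : Nt (c + 1) W ≤ Nt c W + 1 := by
  unfold Nt
  have h : low n c = low n (c + 1) ⊓ LinearMap.ker (zxL n c) := by
    ext z
    rw [Submodule.mem_inf, LinearMap.mem_ker, zxL_apply]
    constructor
    · intro h
      refine ⟨low_mono (by omega) h, ?_⟩
      unfold Bwd.zx
      split
      · next hb => exact h ⟨c, hb⟩ le_rfl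
      · rfl
    · rintro ⟨h1, h2⟩ k hk
      by_cases h3 : k.val = c
      · have h4 := Bwd.zx_eq z k
        rw [← h4, h3]
        exact h2
      · exact h1 k (by omega)
  rw [h, ← inf_assoc]
  exact (finrank_ker_functional _ _).1

open Classical in
/-- the change of `Nt (b + 1)` under a letter at `b` -/
theorem Nt_map_succ {b : ℕ} (hb : b + 1 < n) (W : Submodule (ZMod 2) (V n)) :
    Nt (b + 1) (W.map (ltE n b 1 : V n →ₗ[ZMod 2] V n)) + (if P10 b W then 1 else 0) =
      Nt (b + 1) W + (if P01 b W then 1 else 0) := by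
  set D : Submodule (ZMod 2) (V n) := W ⊓ low n (b + 2) with hD
  have h1 : Nt (b + 1) W = finrank (ZMod 2) (D ⊓ LinearMap.ker (zxL n (b + 1)) :
      Submodule (ZMod 2) (V n)) := by
    unfold Nt
    rw [low_succ_eq, ← inf_assoc]
  have h2 : Nt (b + 1) (W.map (ltE n b 1 : V n →ₗ[ZMod 2] V n)) =
      finrank (ZMod 2) (D ⊓ LinearMap.ker (zxL n (b + 1) + zxL n b) :
      Submodule (ZMod 2) (V n)) := by
    unfold Nt
    have h : (W.map (ltE n b 1 : V n →ₗ[ZMod 2] V n) ⊓ low n (b + 1) : Submodule (ZMod 2) (V n)) =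
        (D ⊓ LinearMap.ker (zxL n (b + 1) + zxL n b) : Submodule (ZMod 2) (V n)).map
          (ltE n b 1 : V n →ₗ[ZMod 2] V n) := by
      ext z
      rw [Submodule.mem_inf, mem_map_ltE, mem_map_ltE, low_succ_eq, Submodule.mem_inf,
        Submodule.mem_inf, hD, Submodule.mem_inf, ltE_mem_low b 1 (by omega),
        LinearMap.mem_ker, LinearMap.mem_ker, LinearMap.add_apply, zxL_apply, zxL_apply, zxL_apply,
        zx_ltE_succ hb, zx_ltE_self, one_mul, add_assoc, CharTwo.add_self_eq_zero, add_zero]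
      tauto
    rw [h, finrank_map_ltE]
  have h3 := finrank_ker_functional D (zxL n (b + 1))
  have h4 := finrank_ker_functional D (zxL n (b + 1) + zxL n b)
  have hfull : ∀ f : V n →ₗ[ZMod 2] ZMod 2, (∀ z ∈ D, f z = 0) →
      finrank (ZMod 2) (D ⊓ LinearMap.ker f : Submodule (ZMod 2) (V n)) = finrank (ZMod 2) D := by
    intro f hf
    rw [inf_eq_left.2 (fun z hz => LinearMap.mem_ker.2 (hf z hz))]
  rw [h1, h2]
  by_cases ha : ∀ z ∈ D, zxL n (b + 1) z = 0
  · -- no top at `b + 1`
    have hP01 : ¬ P01 b W := by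
      rintro ⟨h5, z, hz, hz1⟩
      apply hz1
      rw [← h5 z hz]
      exact ha z hz
    rw [if_neg hP01, hfull _ ha]
    by_cases hbb : ∃ z ∈ D, zxL n b z ≠ 0
    · obtain ⟨z, hz, hz1⟩ := hbb
      have hP10 : P10 b W := ⟨ha, z, hz, hz1⟩
      rw [if_pos hP10]
      have h5 := h4.2 ⟨z, hz, by
        rw [LinearMap.add_apply, ha z hz, zero_add]
        exact hz1⟩
      omega
    · have hP10 : ¬ P10 b W := fun h => hbb h.2
      rw [if_neg hP10, hfull (zxL n (b + 1) + zxL n b)]
      intro z hz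
      rw [LinearMap.add_apply, ha z hz, zero_add]
      by_contra h6
      exact hbb ⟨z, hz, h6⟩
  · have hP10 : ¬ P10 b W := fun h => ha h.1
    rw [if_neg hP10]
    have ha' : ∃ z ∈ D, zxL n (b + 1) z ≠ 0 := by
      by_contra h
      apply ha
      intro z hz
      by_contra h6
      exact h ⟨z, hz, h6⟩
    have h5 := h3.2 ha'
    by_cases hc : ∀ z ∈ D, zxL n (b + 1) z = zxL n b z
    · obtain ⟨z, hz, hz1⟩ := ha'
      have hP01 : P01 b W := ⟨hc, z, hz, by
        have := hc z hz
        rw [this] at hz1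
        exact hz1⟩
      rw [if_pos hP01, hfull (zxL n (b + 1) + zxL n b)]
      · omega
      · intro y hy
        rw [LinearMap.add_apply, hc y hy, CharTwo.add_self_eq_zero]
    · have hP01 : ¬ P01 b W := fun h => hc h.1
      rw [if_neg hP01]
      have h6 : ∃ z ∈ D, (zxL n (b + 1) + zxL n b) z ≠ 0 := by
        by_contra h
        apply hc
        intro z hz
        by_contra h7
        apply h
        refine ⟨z, hz, fun h8 => h7 ?_⟩
        rw [LinearMap.add_apply] at h8
        exact CharTwo.add_eq_zero.1 h8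
      have h7 := h4.2 h6
      omega

/-- (4) a subspace of codimension `e` has at most `e` tops less -/
theorem Nt_le_add {W W' : Submodule (ZMod 2) (V n)} (h : W ≤ W') (c : ℕ) :
    Nt c W' + finrank (ZMod 2) W ≤ Nt c W + finrank (ZMod 2) W' := by
  unfold Nt
  have h1 := Submodule.finrank_sup_add_finrank_inf_eq (W' ⊓ low n c) W
  have h2 : ((W' ⊓ low n c) ⊓ W : Submodule (ZMod 2) (V n)) = W ⊓ low n c := by
    rw [inf_comm, ← inf_assoc, inf_eq_left.2 h]
  have h3 : finrank (ZMod 2) ((W' ⊓ low n c) ⊔ W : Submodule (ZMod 2) (V n)) ≤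
      finrank (ZMod 2) W' := Submodule.finrank_mono (sup_le inf_le_left h)
  rw [h2] at h1
  omega

open Classical in
/-- (5) the number of vectors with small top -/
theorem card_low (c : ℕ) (W : Submodule (ZMod 2) (V n)) :
    (univ.filter fun z : V n => z ∈ W ∧ tp z ≤ c).card = 2 ^ Nt c W := by
  have h1 := Module.natCard_eq_pow_finrank (K := ZMod 2)
    (V := (W ⊓ low n c : Submodule (ZMod 2) (V n)))
  have h2 : Nat.card (W ⊓ low n c : Submodule (ZMod 2) (V n)) =
      (univ.filter fun z : V n => z ∈ W ∧ tp z ≤ c).card := by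
    rw [Nat.card_eq_fintype_card, Fintype.card_subtype]
    congr 1
    ext z
    simp only [mem_filter, mem_univ, true_and, Submodule.mem_inf, mem_low_iff_tp]
  rw [← h2, h1]
  simp [Nt]

end Pool.Agent.CutSeq.NJ34
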