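import Pool.Agent.CutSeq.TraA
import Pool.Agent.CutSeq.Mod
import Pool.Agent.NJ.Tops63

/-!
S19271, target B, row (T0): the production of a slab is at least `ℓ log 2` times the expected dimension
of any space of relations, read off from the array at the later time, all of whose tops were lower by
`ℓ` before the slab.  Only the landed backward bound is used.
-/

set_option autoImplicit false

namespace Pool.Agent.CutSeq.NJ

open Finset Module

/-- every subspace has a family of nonzero vectors with distinct tops, as many as its dimension -/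
theorem exists_ech37 {n : ℕ} (Q : Submodule (ZMod 2) (V n)) :
    ∃ z : Fin (finrank (ZMod 2) Q) → V n, (∀ i, z i ∈ Q) ∧ (∀ i, z i ≠ 0) ∧
      Function.Injective fun i => tp (z i) := by
  classical
  set T : Finset ℕ := (range n).filter fun k => hasTop Q k with hT
  have hcard : T.card = finrank (ZMod 2) Q := by
    rw [← nb_top Q le_rfl, nb_eq_card]
  have hex : ∀ k ∈ T, ∃ z ∈ Q, z ≠ 0 ∧ tp z = k + 1 := by
    intro k hk
    obtain ⟨z, ⟨hzQ, hzv⟩, hzk⟩ := (mem_filter.mp hk).2
    have hkn : k < n := mem_range.mp (mem_filter.mp hk).1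
    refine ⟨z, hzQ, ?_, ?_⟩
    · rintro rfl
      apply hzk
      unfold Bwd.zx
      rw [dif_pos hkn]
      rfl
    · apply le_antisymm (mem_van_iff_tp.mp hzv)
      by_contra hlt
      have h1 : tp z ≤ k := by omega
      apply hzk
      unfold Bwd.zx
      rw [dif_pos hkn]
      exact Bwd.eq_zero_of_tp_le z ⟨k, hkn⟩ h1
  choose! f hf using hex
  let e := (T.equivFinOfCardEq hcard).symm
  refine ⟨fun i => f (e i).val, fun i => (hf _ (e i).2).1, fun i => (hf _ (e i).2).2.1, ?_⟩
  intro i j hij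
  have h1 : tp (f (e i).val) = tp (f (e j).val) := hij
  rw [(hf _ (e i).2).2.2, (hf _ (e j).2).2.2] at h1
  exact e.injective (Subtype.ext (by omega))

/-- the slab lowers all tops of the image of `W` by `ℓ` -/
def Low37 {B S n : ℕ} (ℓ : ℕ) (W : Submodule (ZMod 2) (V n)) (σ : Wd B S) (y : Un n) : Prop :=
  ∀ z ∈ W, z ≠ 0 → ∃ c : V n, act (mm (ext σ) S n) c = act y z ∧ tp c + ℓ ≤ tp (act y z)

theorem act_zero37 {n : ℕ} (x : Un n) : act x 0 = 0 := by
  funext k
  simp [act]

theorem act_add37 {n : ℕ} (x : Un n) (z z' : V n) : act x (z + z') = act x z + act x z' := by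
  funext k
  unfold act
  simp only [Pi.add_apply, mul_add, sum_add_distrib]
  ring

/-- the action as a linear map -/
def actL37 {n : ℕ} (x : Un n) : V n →ₗ[ZMod 2] V n where
  toFun := act x
  map_add' := act_add37 x
  map_smul' := by
    intro c z
    rcases Bwd.zmod2_cases c with rfl | rfl
    · rw [zero_smul, act_zero37, RingHom.id_apply, zero_smul]
    · rw [one_smul, RingHom.id_apply, one_smul]

theorem act_inj37 {n : ℕ} (x : Un n) : Function.Injective (act x) := by
  have h : ∀ z : V n, act x z = 0 → z = 0 := by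
    intro z hz
    by_contra hne
    obtain ⟨k, hk, -⟩ := Bwd.exists_top z hne
    -- lowest nonzero coordinate
    set s : Finset (Fin n) := univ.filter fun j : Fin n => z j ≠ 0 with hs
    have hsn : s.Nonempty := ⟨k, mem_filter.mpr ⟨mem_univ k, hk⟩⟩
    set j₀ := s.min' hsn with hj₀
    have hj₀m : j₀ ∈ s := s.min'_mem hsn
    have h1 : act x z j₀ = z j₀ := by
      unfold act
      rw [sum_eq_zero, add_zero]
      intro j _
      have : z ⟨j.val, j.isLt.trans j₀.isLt⟩ = 0 := by
        by_contra hj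
        have hm : (⟨j.val, j.isLt.trans j₀.isLt⟩ : Fin n) ∈ s := mem_filter.mpr ⟨mem_univ _, hj⟩
        have := s.min'_le _ hm
        rw [← hj₀, Fin.le_def] at this
        have := j.isLt
        simp only at *
        omega
      rw [this, mul_zero]
    rw [hz] at h1
    exact (mem_filter.mp hj₀m).2 h1.symm
  intro z z' hzz
  have h1 : act x (z - z') = 0 := by
    have h2 := (actL37 x).map_sub z z'
    change act x (z - z') = act x z - act x z' at h2
    rw [h2, hzz, sub_self]
  exact sub_eq_zero.mp (h _ h1)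

/-- the backward bound for a space -/
theorem low_bound37 {B S n ℓ : ℕ} (hB : 0 < B) (W : Submodule (ZMod 2) (V n)) (y : Un n) :
    pr (uw B S) {σ | Low37 ℓ W σ y} ≤ (1 / 2) ^ (ℓ * finrank (ZMod 2) W) := by
  classical
  set Q : Submodule (ZMod 2) (V n) := W.map (actL37 y) with hQ
  have hr : finrank (ZMod 2) Q = finrank (ZMod 2) W :=
    (Submodule.equivMapOfInjective (actL37 y) (act_inj37 y) W).finrank_eq.symm
  obtain ⟨z, hzQ, hz0, hinj⟩ := exists_ech37 Q
  rw [← hr]
  refine le_trans (Bwd.tot_ind_mono _ (Bwd.uw_nonneg B S) ?_)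
    (backward_inv (S := S) (ℓ := ℓ) hB z hz0 hinj)
  intro σ hσ i
  obtain ⟨v, hv, hvz⟩ := Submodule.mem_map.mp (hzQ i)
  have hv0 : v ≠ 0 := by
    rintro rfl
    exact hz0 i (by rw [← hvz, map_zero])
  obtain ⟨c, hc1, hc2⟩ := hσ v hv hv0
  have hvz' : act y v = z i := hvz
  rw [hvz'] at hc1 hc2
  exact ⟨c, hc1, hc2⟩

section Abstract

variable {Ω : Type*} [Fintype Ω] {B S n : ℕ}

/-- the weight of past and slab -/
noncomputable def ws37 (B S : ℕ) (w : Ω → ℝ) : Ω × Wd B S → ℝ := fun p => w p.1 * uw B S p.2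

/-- the array after the slab -/
def aft37 (X : Ω → Un n) : Ω × Wd B S → Un n := fun p => mulU (mm (ext p.2) S n) (X p.1)

theorem sum_uw37 (hB : 0 < B) : ∑ σ : Wd B S, uw B S σ = 1 := by
  have : NeZero B := ⟨hB.ne'⟩
  have h : (0 : ℝ) < (Fintype.card (Wd B S) : ℝ) := by
    exact_mod_cast Fintype.card_pos
  unfold uw
  rw [sum_const, card_univ, nsmul_eq_mul]
  field_simp

theorem tot_ws37 (hB : 0 < B) (w : Ω → ℝ) : tot (ws37 B S w) = tot w := by
  unfold tot ws37
  rw [Fintype.sum_prod_type]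
  refine sum_congr rfl fun ω _ => ?_
  show ∑ σ : Wd B S, w ω * uw B S σ = w ω
  rw [← mul_sum, sum_uw37 hB, mul_one]

theorem mass_snd37 (w : Ω → ℝ) (σ : Wd B S) :
    mass (ws37 B S w) (fun p => (p.2, ())) (σ, ()) = tot w * uw B S σ := by
  classical
  unfold mass ws37 tot
  rw [Fintype.sum_prod_type, sum_mul]
  refine sum_congr rfl fun ω _ => ?_
  rw [sum_eq_single σ]
  · rw [if_pos rfl]
  · intro b _ hb
    rw [if_neg (fun h => hb (Prod.ext_iff.mp h).1)]
  · intro h
    exact absurd (mem_univ σ) h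

theorem mass_both37 (w : Ω → ℝ) (X : Ω → Un n) (x : Un n) (σ : Wd B S) :
    mass (ws37 B S w) (fun p => (X p.1, (p.2, ()))) (x, (σ, ())) = mass w X x * uw B S σ := by
  classical
  unfold mass ws37
  rw [Fintype.sum_prod_type, sum_mul]
  refine sum_congr rfl fun ω _ => ?_
  rw [sum_eq_single σ]
  · by_cases h : X ω = x
    · rw [if_pos h, if_pos (show (X ω, (σ, ())) = (x, (σ, ())) by rw [h])]
    · rw [if_neg h, if_neg (fun h' => h (Prod.ext_iff.mp h').1), zero_mul]
  · intro b _ hb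
    rw [if_neg (fun h => hb (Prod.ext_iff.mp (Prod.ext_iff.mp h).2).1)]
  · intro h
    exact absurd (mem_univ σ) h

theorem uw_pos37 (hB : 0 < B) (σ : Wd B S) : 0 < uw B S σ := by
  have : NeZero B := ⟨hB.ne'⟩
  have h : (0 : ℝ) < (Fintype.card (Wd B S) : ℝ) := by
    exact_mod_cast Fintype.card_pos
  unfold uw
  positivity

/-- the slab carries no information on the past -/
theorem KK_fst37 (hB : 0 < B) (w : Ω → ℝ) (X : Ω → Un n) :
    KK (ws37 B S w) (fun p => X p.1) (fun p => (p.2, ())) = K0 w X := by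
  rw [K0_eq]
  unfold KK
  rw [Fintype.sum_prod_type]
  refine sum_congr rfl fun ω _ => ?_
  have h1 : ∀ σ : Wd B S, ws37 B S w (ω, σ) * Real.log (Fintype.card (Un n) *
      mass (ws37 B S w) (fun p => (X p.1, (p.2, ()))) (X ω, (σ, ())) /
        mass (ws37 B S w) (fun p => (p.2, ())) (σ, ()))
      = uw B S σ * (w ω * Real.log (Fintype.card (Un n) * mass w X (X ω) / tot w)) := by
    intro σ
    rw [mass_snd37, mass_both37]
    have h2 : (Fintype.card (Un n) : ℝ) * (mass w X (X ω) * uw B S σ) / (tot w * uw B S σ)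
        = (Fintype.card (Un n) : ℝ) * mass w X (X ω) / tot w := by
      rw [← mul_assoc, mul_div_mul_right _ _ (uw_pos37 hB σ).ne']
    rw [h2]
    unfold ws37
    ring
  rw [sum_congr rfl fun σ _ => h1 σ, ← sum_mul, sum_uw37 hB, one_mul]

/-- the slab is uniform -/
theorem K0_snd37 (hB : 0 < B) (w : Ω → ℝ) (hw : ∀ ω, 0 ≤ w ω) :
    KK (ws37 B S w) (fun p => p.2) (fun _ => ()) = 0 := by
  unfold KK
  refine sum_eq_zero fun p _ => ?_
  by_cases h : tot w = 0
  · have h1 : w p.1 = 0 := le_antisymm (h ▸ le_tot w hw p.1) (hw _)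
    unfold ws37
    rw [h1, zero_mul, zero_mul]
  · rw [mass_snd37, mass_const, tot_ws37 hB]
    have h2 : (Fintype.card (Wd B S) : ℝ) * (tot w * uw B S p.2) / tot w = 1 := by
      have : NeZero B := ⟨hB.ne'⟩
      have hc : (0 : ℝ) < (Fintype.card (Wd B S) : ℝ) := by
        exact_mod_cast Fintype.card_pos
      unfold uw
      field_simp
    rw [h2, Real.log_one, mul_zero]

/-- the information of the slab on the array after it is the loss of relative entropy -/
theorem info37 (hB : 0 < B) (w : Ω → ℝ) (hw : ∀ ω, 0 ≤ w ω) (X : Ω → Un n) :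
    KK (ws37 B S w) (fun p => p.2) (fun p => (aft37 X p, ()))
      = K0 w X - K0 (ws37 B S w) (aft37 X) := by
  have hw' : ∀ p, 0 ≤ ws37 B S w p := fun p => mul_nonneg (hw _) (Bwd.uw_nonneg B S _)
  have h1 := KK_chain (ws37 B S w) hw' (fun p => p.2) (aft37 X) (fun _ => ())
  have h2 := KK_chain (ws37 B S w) hw' (aft37 X) (fun p => p.2) (fun _ => ())
  have h3 : KK (ws37 B S w) (fun p => (p.2, aft37 X p)) (fun _ => ())
      = KK (ws37 B S w) (fun p => (aft37 X p, p.2)) (fun _ => ()) :=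
    KK_bij _ hw' _ _ _ (fun _ => Equiv.prodComm _ _) (fun _ _ => rfl)
  have h4 : KK (ws37 B S w) (aft37 X) (fun p => (p.2, ()))
      = KK (ws37 B S w) (fun p => X p.1) (fun p => (p.2, ())) :=
    KK_bij _ hw' _ _ _ (fun s => Equiv.ofBijective _ (mulU_bijective (mm (ext s.1) S n)))
      (fun _ _ => rfl)
  have h5 := K0_snd37 (S := S) hB w hw
  rw [h4, KK_fst37 hB, h5, zero_add] at h1
  unfold K0 at *
  linarith

open Classical in
/-- (T0), abstract form -/
theorem trans37 (hB : 0 < B) (w : Ω → ℝ) (hw : ∀ ω, 0 ≤ w ω) (X : Ω → Un n) (ℓ : ℕ)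
    (W : Un n → Submodule (ZMod 2) (V n)) :
    ℓ * Real.log 2 * (∑ p : Ω × Wd B S, ws37 B S w p *
      (if Low37 ℓ (W (aft37 X p)) p.2 (aft37 X p) then
        (finrank (ZMod 2) (W (aft37 X p)) : ℝ) else 0))
      ≤ K0 w X - K0 (ws37 B S w) (aft37 X) + Real.log 2 * tot w := by
  have hw' : ∀ p, 0 ≤ ws37 B S w p := fun p => mul_nonneg (hw _) (Bwd.uw_nonneg B S _)
  have : NeZero B := ⟨hB.ne'⟩
  have hc : (0 : ℝ) < (Fintype.card (Wd B S) : ℝ) := by
    exact_mod_cast Fintype.card_pos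
  set ψ : Wd B S → Un n × Unit → ℝ := fun σ y =>
    if Low37 ℓ (W y.1) σ y.1 then (2 : ℝ) ^ (ℓ * finrank (ZMod 2) (W y.1)) else 1 with hψ
  have hψpos : ∀ σ y, 0 < ψ σ y := by
    intro σ y
    simp only [hψ]
    split_ifs
    · positivity
    · exact one_pos
  have h1 := DV' (ws37 B S w) hw' (fun p => p.2) (fun p => (aft37 X p, ())) ψ
    (fun σ y => (hψpos σ y).le) (fun p _ => hψpos _ _)
  rw [info37 hB w hw X] at h1
  have h2 : ∀ y : Un n, (∑ σ, ψ σ (y, ())) / Fintype.card (Wd B S) ≤ 2 := by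
    intro y
    rw [div_le_iff₀ hc]
    have h3 : ∀ σ : Wd B S, ψ σ (y, ()) ≤ 1 + (2 : ℝ) ^ (ℓ * finrank (ZMod 2) (W y)) *
        (if Low37 ℓ (W y) σ y then 1 else 0) := by
      intro σ
      simp only [hψ]
      split_ifs
      · linarith
      · linarith
    refine le_trans (sum_le_sum fun σ _ => h3 σ) ?_
    rw [sum_add_distrib, ← mul_sum, sum_const, card_univ, nsmul_eq_mul, mul_one]
    have h4 := low_bound37 (S := S) (ℓ := ℓ) hB (W y) y
    have h5 : pr (uw B S) {σ | Low37 ℓ (W y) σ y}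
        = (∑ σ : Wd B S, if Low37 ℓ (W y) σ y then (1 : ℝ) else 0) / Fintype.card (Wd B S) := by
      unfold pr tot ind
      rw [sum_div]
      refine sum_congr rfl fun σ _ => ?_
      by_cases h : Low37 ℓ (W y) σ y
      · rw [Set.indicator_of_mem (show σ ∈ {σ | Low37 ℓ (W y) σ y} from h), if_pos h]
        rfl
      · rw [Set.indicator_of_notMem (show σ ∉ {σ | Low37 ℓ (W y) σ y} from h), if_neg h, zero_div]
    rw [h5, div_le_iff₀ hc] at h4
    have h6 : (2 : ℝ) ^ (ℓ * finrank (ZMod 2) (W y)) *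
        ((1 / 2) ^ (ℓ * finrank (ZMod 2) (W y)) * (Fintype.card (Wd B S) : ℝ))
        = (Fintype.card (Wd B S) : ℝ) := by
      rw [← mul_assoc, ← mul_pow]
      norm_num
    have h7 := mul_le_mul_of_nonneg_left h4
      (show (0 : ℝ) ≤ (2 : ℝ) ^ (ℓ * finrank (ZMod 2) (W y)) by positivity)
    rw [h6] at h7
    linarith
  have h3 : ∑ p, ws37 B S w p * Real.log ((∑ σ, ψ σ (aft37 X p, ())) / Fintype.card (Wd B S))
      ≤ Real.log 2 * tot w := by
    rw [← tot_ws37 (S := S) hB w]
    unfold tot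
    rw [mul_sum]
    refine sum_le_sum fun p _ => ?_
    rw [mul_comm (Real.log 2)]
    refine mul_le_mul_of_nonneg_left ?_ (hw' p)
    refine Real.log_le_log ?_ (h2 _)
    exact div_pos (sum_pos (fun σ _ => hψpos _ _) univ_nonempty) hc
  have h4 : ℓ * Real.log 2 * (∑ p : Ω × Wd B S, ws37 B S w p *
      (if Low37 ℓ (W (aft37 X p)) p.2 (aft37 X p) then
        (finrank (ZMod 2) (W (aft37 X p)) : ℝ) else 0))
      = ∑ p, ws37 B S w p * Real.log (ψ p.2 (aft37 X p, ())) := by
    rw [mul_sum]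
    refine sum_congr rfl fun p _ => ?_
    simp only [hψ]
    split_ifs
    · rw [Real.log_pow]
      push_cast
      ring
    · rw [Real.log_one]
      ring
  rw [h4]
  linarith

end Abstract

section Words

variable {B L : ℕ}

/-- summing over words = summing over past and slab -/
theorem sum_split37 (hB : 0 < B) (l S : ℕ) (h : l + S ≤ L) (w : Wd B L → ℝ)
    (hp : ∀ ω ω', (∀ i < l, ext ω i = ext ω' i) → w ω = w ω') {n : ℕ}
    (g : Un n → Un n → ℝ) :
    ∑ ω, w ω * g (mm (ext ω) l n) (mm (ext ω) (l + S) n)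
      = ∑ p : Wd B L × Wd B S, ws37 B S w p *
          g (mm (ext p.1) l n) (aft37 (fun ω => mm (ext ω) l n) p) := by
  have h1 := tr_joint hB l S h
    (fun ω σ => w ω * g (mm (ext ω) l n) (mulU (mm (ext σ) S n) (mm (ext ω) l n))) (by
      intro ω ω' σ ha
      have h2 : mm (ext ω) l n = mm (ext ω') l n := mm_congr' _ _ l n ha
      simp only [hp ω ω' ha, h2])
  have h2 : ∑ ω, w ω * g (mm (ext ω) l n) (mm (ext ω) (l + S) n)
      = ∑ ω, (fun ω σ => w ω * g (mm (ext ω) l n) (mulU (mm (ext σ) S n) (mm (ext ω) l n))) ω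
          (trSl l S h ω) := by
    refine sum_congr rfl fun ω _ => ?_
    simp only
    rw [mm_add, tr_mm_shift l S n h]
  rw [h2, h1, Fintype.sum_prod_type]
  refine sum_congr rfl fun ω _ => sum_congr rfl fun σ _ => ?_
  unfold ws37 aft37
  ring

open Classical in
/-- (T0): the production of the slab `(l, l + S]` -/
theorem trans_word37 (hB : 0 < B) (l S n ℓ : ℕ) (h : l + S ≤ L) (w : Wd B L → ℝ)
    (hw : ∀ ω, 0 ≤ w ω) (hp : ∀ ω ω', (∀ i < l, ext ω i = ext ω' i) → w ω = w ω')
    (W : Un n → Submodule (ZMod 2) (V n)) :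
    ℓ * Real.log 2 * (∑ ω, w ω *
      (if ∀ z ∈ W (mm (ext ω) (l + S) n), z ≠ 0 →
          tp (act (mm (ext ω) l n) z) + ℓ ≤ tp (act (mm (ext ω) (l + S) n) z) then
        (finrank (ZMod 2) (W (mm (ext ω) (l + S) n)) : ℝ) else 0))
      ≤ K0 w (fun ω => mm (ext ω) l n) - K0 w (fun ω => mm (ext ω) (l + S) n)
        + Real.log 2 * tot w := by
  set X : Wd B L → Un n := fun ω => mm (ext ω) l n with hX
  have h1 := trans37 (S := S) hB w hw X ℓ W
  have h2 : K0 (ws37 B S w) (aft37 X) = K0 w (fun ω => mm (ext ω) (l + S) n) := by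
    unfold K0
    refine (KK_law _ _ _ _ _ _ fun a b => ?_).symm
    unfold mass
    have h3 := sum_split37 hB l S h w hp (fun _ y => if (y, ()) = (a, b) then (1 : ℝ) else 0)
    simp only [mul_ite, mul_one, mul_zero] at h3
    convert h3
  rw [h2] at h1
  refine le_trans ?_ h1
  have h0 : (0 : ℝ) ≤ ℓ * Real.log 2 := mul_nonneg (by positivity) (Real.log_nonneg (by norm_num))
  refine mul_le_mul_of_nonneg_left ?_ h0
  have h3 := sum_split37 hB l S h w hp (fun x y =>
    if ∀ z ∈ W y, z ≠ 0 → tp (act x z) + ℓ ≤ tp (act y z) then (finrank (ZMod 2) (W y) : ℝ) else 0)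
  rw [h3]
  refine sum_le_sum fun p _ => ?_
  refine mul_le_mul_of_nonneg_left ?_ (mul_nonneg (hw _) (Bwd.uw_nonneg B S _))
  by_cases hE : ∀ z ∈ W (aft37 X p), z ≠ 0 →
      tp (act (mm (ext p.1) l n) z) + ℓ ≤ tp (act (aft37 X p) z)
  · have hL : Low37 ℓ (W (aft37 X p)) p.2 (aft37 X p) := by
      intro z hz hz0
      refine ⟨act (X p.1) z, ?_, hE z hz hz0⟩
      unfold aft37
      rw [act_mulU]
    rw [if_pos hL]
    exact le_of_eq (if_pos hE)
  · refine le_trans (le_of_eq (if_neg hE)) ?_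
    split_ifs
    · positivity
    · exact le_rfl

end Words

end Pool.Agent.CutSeq.NJ
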