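import Pool.Agent.NJ.ClosMix86
import Pool.Agent.NJ.Pin86

/-!
Two siblings: their joint conditional law, the information between them, and Pinsker.
-/

set_option autoImplicit false

namespace Pool.Agent.NJ

open Finset Pool.Agent.CutSeq

section Two

variable {Ω B : Type*} [Fintype Ω] {n : ℕ}

open Classical in
/-- tower property -/
lemma tow {D : Type*} [Fintype D] (w : Ω → ℝ) (hw : ∀ ω, 0 ≤ w ω) (Y : Ω → B) (F : Ω → D → ℝ)
    (g : D → B → ℝ) :
    ∑ ω, w ω * ∑ d, F ω d * g d (Y ω) =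
      ∑ ω, w ω * ∑ d, ((∑ ω', if Y ω' = Y ω then w ω' * F ω' d else 0) / mass w Y (Y ω)) *
        g d (Y ω) := by
  simp only [Finset.mul_sum]
  rw [Finset.sum_comm]
  conv_rhs => rw [Finset.sum_comm]
  refine Finset.sum_congr rfl fun d _ => ?_
  have h1 : ∀ ω, w ω * (((∑ ω', if Y ω' = Y ω then w ω' * F ω' d else 0) / mass w Y (Y ω)) *
      g d (Y ω)) = ∑ ω', (if Y ω' = Y ω then
        w ω * (w ω' * F ω' d * g d (Y ω') / mass w Y (Y ω')) else 0) := by
    intro ω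
    rw [Finset.sum_div, Finset.sum_mul, Finset.mul_sum]
    refine Finset.sum_congr rfl fun ω' _ => ?_
    by_cases h : Y ω' = Y ω
    · rw [if_pos h, if_pos h, h]
      ring
    · rw [if_neg h, if_neg h]
      ring
  simp only [h1]
  rw [Finset.sum_comm]
  refine Finset.sum_congr rfl fun ω' _ => ?_
  have h2 : ∑ ω, (if Y ω' = Y ω then
        w ω * (w ω' * F ω' d * g d (Y ω') / mass w Y (Y ω')) else 0) =
      mass w Y (Y ω') * (w ω' * F ω' d * g d (Y ω') / mass w Y (Y ω')) := by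
    rw [mass, Finset.sum_mul]
    refine Finset.sum_congr rfl fun ω _ => ?_
    by_cases h : Y ω = Y ω'
    · rw [if_pos h.symm, if_pos h]
    · rw [if_neg (fun h' => h h'.symm), if_neg h, zero_mul]
  rw [h2]
  by_cases hω : w ω' = 0
  · rw [hω]
    ring
  · have hm := (mass_pos w hw Y hω).ne'
    field_simp

/-- one sibling: from `T` to the conditional law -/
lemma tow1 (w : Ω → ℝ) (hw : ∀ ω, 0 ≤ w ω) (T : Ω → Submodule (ZMod 2) (V n)) (Y : Ω → B)
    (g : V n → B → ℝ) :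
    ∑ ω, w ω * ∑ v, uT (T ω) v * g v (Y ω) = ∑ ω, w ω * ∑ v, cl w T Y v (Y ω) * g v (Y ω) := by
  classical
  rw [tow w hw Y (fun ω v => uT (T ω) v) g]
  rfl

/-- two siblings -/
lemma tow2 (w : Ω → ℝ) (hw : ∀ ω, 0 ≤ w ω) (T : Ω → Submodule (ZMod 2) (V n)) (Y : Ω → B)
    (g : V n → V n → B → ℝ) :
    ∑ ω, w ω * ∑ u, ∑ v, uT (T ω) u * uT (T ω) v * g u v (Y ω) =
      ∑ ω, w ω * ∑ u, ∑ v, cl2 w T Y u v (Y ω) * g u v (Y ω) := by
  classical
  have h := tow w hw Y (fun ω (d : V n × V n) => uT (T ω) d.1 * uT (T ω) d.2)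
    (fun d y => g d.1 d.2 y)
  simp only [Fintype.sum_prod_type] at h
  rw [h]
  rfl

lemma cl2_nonneg (w : Ω → ℝ) (hw : ∀ ω, 0 ≤ w ω) (T : Ω → Submodule (ZMod 2) (V n)) (Y : Ω → B)
    (u v : V n) (y : B) : 0 ≤ cl2 w T Y u v y := by
  classical
  unfold cl2
  refine div_nonneg (Finset.sum_nonneg fun ω _ => ?_) (mass_nonneg w hw Y y)
  split
  · exact mul_nonneg (hw _) (mul_nonneg (uT_nonneg _ _) (uT_nonneg _ _))
  · exact le_rfl

lemma sum_cl2 (w : Ω → ℝ) (T : Ω → Submodule (ZMod 2) (V n)) (Y : Ω → B) (u : V n) (y : B) :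
    ∑ v, cl2 w T Y u v y = cl w T Y u y := by
  classical
  unfold cl2 cl
  rw [← Finset.sum_div, Finset.sum_comm]
  congr 1
  refine Finset.sum_congr rfl fun ω _ => ?_
  by_cases h : Y ω = y
  · simp only [if_pos h]
    rw [← Finset.mul_sum, ← Finset.mul_sum, sum_uT, mul_one]
  · simp only [if_neg h, Finset.sum_const_zero]

lemma cl2_comm (w : Ω → ℝ) (T : Ω → Submodule (ZMod 2) (V n)) (Y : Ω → B) (u v : V n) (y : B) :
    cl2 w T Y u v y = cl2 w T Y v u y := by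
  classical
  unfold cl2
  congr 1
  refine Finset.sum_congr rfl fun ω _ => ?_
  rw [mul_comm (uT (T ω) u)]

lemma cl2_le (w : Ω → ℝ) (hw : ∀ ω, 0 ≤ w ω) (T : Ω → Submodule (ZMod 2) (V n)) (Y : Ω → B)
    (u v : V n) (y : B) : cl2 w T Y u v y ≤ cl w T Y u y := by
  rw [← sum_cl2 w T Y u y]
  exact Finset.single_le_sum (f := fun v => cl2 w T Y u v y)
    (fun v _ => cl2_nonneg w hw T Y u v y) (Finset.mem_univ v)

/-- sums over two siblings -/
lemma sum_fin_two (f : V n → ℝ) (g : V n → V n → ℝ) :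
    ∑ x : Fin 2 → V n, (∏ i, f (x i)) * g (x 0) (x 1) = ∑ u, ∑ v, f u * f v * g u v := by
  rw [← Fintype.sum_prod_type' (f := fun u v => f u * f v * g u v)]
  refine Fintype.sum_equiv (finTwoArrowEquiv (V n)) _ _ fun x => ?_
  rw [Fin.prod_univ_two]
  rfl

lemma mass_sib_two (w : Ω → ℝ) (T : Ω → Submodule (ZMod 2) (V n)) (Y : Ω → B)
    (x : Fin 2 → V n) (y : B) (hy : mass w Y y ≠ 0) :
    mass (sib w T 2) (fun p => (p.2, Y p.1)) (x, y) = cl2 w T Y (x 0) (x 1) y * mass w Y y := by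
  classical
  unfold cl2
  rw [div_mul_cancel₀ _ hy]
  unfold mass sib
  rw [Fintype.sum_prod_type]
  refine Finset.sum_congr rfl fun ω _ => ?_
  by_cases h : Y ω = y
  · simp [h, Prod.ext_iff, Fin.prod_univ_two]
  · simp [h, Prod.ext_iff]

/-- information between two siblings at one value of the data -/
noncomputable def inf2 (w : Ω → ℝ) (T : Ω → Submodule (ZMod 2) (V n)) (Y : Ω → B) (y : B) : ℝ :=
  ∑ u, ∑ v, cl2 w T Y u v y * Real.log (cl2 w T Y u v y / (cl w T Y u y * cl w T Y v y))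

/-- the information between two siblings -/
theorem KK_two (w : Ω → ℝ) (hw : ∀ ω, 0 ≤ w ω) (T : Ω → Submodule (ZMod 2) (V n)) (Y : Ω → B) :
    KK (sib w T 2) (fun p => p.2) (fun p => Y p.1) -
      2 * KK (sib w T 1) (fun p => p.2) (fun p => Y p.1) = ∑ ω, w ω * inf2 w T Y (Y ω) := by
  classical
  have h1 : KK (sib w T 2) (fun p => p.2) (fun p => Y p.1) =
      ∑ p, sib w T 2 p * Real.log ((2 ^ n * 2 ^ n) * cl2 w T Y (p.2 0) (p.2 1) (Y p.1)) := by
    unfold KK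
    refine Finset.sum_congr rfl fun p _ => ?_
    by_cases hp : sib w T 2 p = 0
    · simp [hp]
    · have hω := (sib_ne hp).1
      have hm := (mass_pos w hw Y hω).ne'
      congr 2
      rw [mass_sib_two w T Y p.2 (Y p.1) hm, mass_sib_fst, ← mul_assoc, mul_div_assoc, div_self hm,
        mul_one]
      simp [pow_two]
  have h2 := sum_sib w T 2
    (fun ω x => Real.log ((2 ^ n * 2 ^ n) * cl2 w T Y (x 0) (x 1) (Y ω)))
  have h3 : KK (sib w T 2) (fun p => p.2) (fun p => Y p.1) =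
      ∑ ω, w ω * ∑ u, ∑ v, uT (T ω) u * uT (T ω) v *
        Real.log ((2 ^ n * 2 ^ n) * cl2 w T Y u v (Y ω)) := by
    rw [h1, h2]
    refine Finset.sum_congr rfl fun ω _ => ?_
    rw [sum_fin_two (fun v => uT (T ω) v)
      (fun u v => Real.log ((2 ^ n * 2 ^ n) * cl2 w T Y u v (Y ω)))]
  have h4 : KK (sib w T 1) (fun p => p.2) (fun p => Y p.1) =
      ∑ ω, w ω * ∑ u, ∑ v, uT (T ω) u * uT (T ω) v * Real.log (2 ^ n * cl w T Y u (Y ω)) := by
    rw [KK_one w hw T Y]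
    refine Finset.sum_congr rfl fun ω _ => ?_
    congr 1
    refine Finset.sum_congr rfl fun u _ => ?_
    rw [← Finset.sum_mul, ← Finset.mul_sum, sum_uT, mul_one]
  have h5 : KK (sib w T 1) (fun p => p.2) (fun p => Y p.1) =
      ∑ ω, w ω * ∑ u, ∑ v, uT (T ω) u * uT (T ω) v * Real.log (2 ^ n * cl w T Y v (Y ω)) := by
    rw [KK_one w hw T Y]
    refine Finset.sum_congr rfl fun ω _ => ?_
    congr 1
    rw [Finset.sum_comm]
    refine Finset.sum_congr rfl fun u _ => ?_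
    rw [← Finset.sum_mul, ← Finset.sum_mul, sum_uT, one_mul]
  rw [tow2 w hw T Y (fun u v y => Real.log ((2 ^ n * 2 ^ n) * cl2 w T Y u v y))] at h3
  rw [tow2 w hw T Y (fun u v y => Real.log (2 ^ n * cl w T Y u y))] at h4
  rw [tow2 w hw T Y (fun u v y => Real.log (2 ^ n * cl w T Y v y))] at h5
  rw [two_mul]
  nth_rewrite 1 [h4]
  rw [h5, h3, ← Finset.sum_add_distrib, ← Finset.sum_sub_distrib]
  refine Finset.sum_congr rfl fun ω _ => ?_
  rw [← mul_add, ← mul_sub, inf2, ← Finset.sum_add_distrib, ← Finset.sum_sub_distrib]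
  congr 1
  refine Finset.sum_congr rfl fun u _ => ?_
  rw [← Finset.sum_add_distrib, ← Finset.sum_sub_distrib]
  refine Finset.sum_congr rfl fun v _ => ?_
  rw [← mul_add, ← mul_sub]
  rcases (cl2_nonneg w hw T Y u v (Y ω)).eq_or_lt with h | h
  · rw [← h, zero_mul, zero_mul]
  · congr 1
    have hu : 0 < cl w T Y u (Y ω) := lt_of_lt_of_le h (cl2_le w hw T Y u v (Y ω))
    have hv : 0 < cl w T Y v (Y ω) := by
      refine lt_of_lt_of_le h ?_
      rw [cl2_comm]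
      exact cl2_le w hw T Y v u (Y ω)
    have h2n : (0 : ℝ) < 2 ^ n := by positivity
    rw [Real.log_mul (by positivity) h.ne', Real.log_mul h2n.ne' hu.ne',
      Real.log_mul h2n.ne' hv.ne', Real.log_mul h2n.ne' h2n.ne', Real.log_div h.ne' (by positivity),
      Real.log_mul hu.ne' hv.ne']
    ring

/-- Pinsker for the two siblings -/
lemma dep_sq_le (w : Ω → ℝ) (hw : ∀ ω, 0 ≤ w ω) (T : Ω → Submodule (ZMod 2) (V n)) (Y : Ω → B)
    (y : B) (hy : mass w Y y ≠ 0) : dep w T Y y ^ 2 ≤ 4 * inf2 w T Y y := by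
  have h := pinsker4 (D := V n × V n) (fun d => cl2 w T Y d.1 d.2 y)
    (fun d => cl w T Y d.1 y * cl w T Y d.2 y) (fun d => cl2_nonneg w hw T Y _ _ y)
    (fun d => mul_nonneg (cl_nonneg w hw T Y _ y) (cl_nonneg w hw T Y _ y)) ?_ ?_ ?_
  · simp only [Fintype.sum_prod_type] at h
    exact h
  · simp only [Fintype.sum_prod_type, sum_cl2, sum_cl w T Y y hy]
  · simp only [Fintype.sum_prod_type, ← Finset.mul_sum, sum_cl w T Y y hy, mul_one]
  · intro d h
    have hu : 0 < cl w T Y d.1 y := lt_of_lt_of_le h (cl2_le w hw T Y d.1 d.2 y)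
    have hv : 0 < cl w T Y d.2 y := by
      refine lt_of_lt_of_le h ?_
      show cl2 w T Y d.1 d.2 y ≤ _
      rw [cl2_comm]
      exact cl2_le w hw T Y d.2 d.1 y
    exact mul_pos hu hv

lemma dep_nonneg (w : Ω → ℝ) (T : Ω → Submodule (ZMod 2) (V n)) (Y : Ω → B) (y : B) :
    0 ≤ dep w T Y y :=
  Finset.sum_nonneg fun _ _ => Finset.sum_nonneg fun _ _ => abs_nonneg _

/-- mean dependence -/
theorem dep_mean (w : Ω → ℝ) (hw : ∀ ω, 0 ≤ w ω) (htot : tot w ≤ 1)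
    (T : Ω → Submodule (ZMod 2) (V n)) (Y : Ω → B) (z : ℝ)
    (hz : KK (sib w T 2) (fun p => p.2) (fun p => Y p.1) -
      2 * KK (sib w T 1) (fun p => p.2) (fun p => Y p.1) ≤ z) :
    ∑ ω, w ω * dep w T Y (Y ω) ≤ 2 * Real.sqrt z := by
  rw [KK_two w hw T Y] at hz
  have h1 : ∑ ω, w ω * dep w T Y (Y ω) ^ 2 ≤ 4 * z := by
    refine le_trans ?_ (mul_le_mul_of_nonneg_left hz (by norm_num))
    rw [Finset.mul_sum]
    refine Finset.sum_le_sum fun ω _ => ?_
    by_cases hω : w ω = 0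
    · rw [hω]
      simp
    · have h2 := dep_sq_le w hw T Y (Y ω) (mass_pos w hw Y hω).ne'
      have h3 := mul_le_mul_of_nonneg_left h2 (hw ω)
      linarith
  have h2 := Finset.sum_mul_sq_le_sq_mul_sq Finset.univ (fun ω => Real.sqrt (w ω))
    (fun ω => Real.sqrt (w ω) * dep w T Y (Y ω))
  have h3 : ∀ ω, Real.sqrt (w ω) * (Real.sqrt (w ω) * dep w T Y (Y ω)) = w ω * dep w T Y (Y ω) := by
    intro ω
    rw [← mul_assoc, Real.mul_self_sqrt (hw ω)]
  have h4 : ∀ ω, (Real.sqrt (w ω) * dep w T Y (Y ω)) ^ 2 = w ω * dep w T Y (Y ω) ^ 2 := by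
    intro ω
    rw [mul_pow, Real.sq_sqrt (hw ω)]
  have h5 : ∀ ω, Real.sqrt (w ω) ^ 2 = w ω := fun ω => Real.sq_sqrt (hw ω)
  simp only [h3, h4, h5] at h2
  have h6 : 0 ≤ ∑ ω, w ω * dep w T Y (Y ω) ^ 2 :=
    Finset.sum_nonneg fun ω _ => mul_nonneg (hw ω) (sq_nonneg _)
  have h7 : (∑ ω, w ω * dep w T Y (Y ω)) ^ 2 ≤ 4 * z := by
    refine h2.trans ?_
    have h8 : ∑ ω, w ω ≤ 1 := htot
    calc _ ≤ 1 * ∑ ω, w ω * dep w T Y (Y ω) ^ 2 := mul_le_mul_of_nonneg_right h8 h6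
      _ ≤ 4 * z := by linarith
  have h8 : (0 : ℝ) ≤ ∑ ω, w ω * dep w T Y (Y ω) :=
    Finset.sum_nonneg fun ω _ => mul_nonneg (hw ω) (dep_nonneg _ _ _ _)
  have h9 : 2 * Real.sqrt z = Real.sqrt (4 * z) := by
    have h10 : Real.sqrt 4 = 2 := by
      rw [show (4 : ℝ) = 2 ^ 2 by norm_num]
      exact Real.sqrt_sq (by norm_num)
    rw [Real.sqrt_mul (by norm_num), h10]
  rw [h9]
  exact Real.le_sqrt_of_sq_le h7

end Two

end Pool.Agent.NJ
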