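import Pool.Agent.CutSeq.Fwd

/-!
S19271 / TARGET B, HOLES (helper48): upper tail of the front of an arbitrary vector, in continuous
time (`up_ct`) and in the letter model (`upward`), the twin of the landed `forward`.
-/

set_option autoImplicit false

namespace Pool.Agent.NJ

open Finset Pool.Agent.CutSeq

/-- exponential moment of the front at every time, from every initial vector -/
theorem up_ct (u : ℝ) (hu : Pool.Agent.UTM.Es.vv < u) : ∃ θ C : ℝ, 0 < θ ∧ 1 ≤ C ∧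
    ∀ (N : ℕ), 0 < N → ∀ s : ℝ, 0 ≤ s → ∀ y : Pool.Agent.UTM.Es.Y N,
      Pool.Agent.UTM.Es.heat (Pool.Agent.UTM.Es.LL N) s
        (fun y => Real.exp (θ * Pool.Agent.UTM.Es.top y)) y
        ≤ C * Real.exp (θ * (u * s)) * Real.exp (θ * Pool.Agent.UTM.Es.top y) := by
  obtain ⟨m₀, hm₀, θ, hθ, hθ1, hexp⟩ :=
    Pool.Agent.UTM.Es.exp_moment (u - Pool.Agent.UTM.Es.vv) (by linarith)
  have hm : (1 : ℝ) ≤ m₀ := by exact_mod_cast hm₀
  have hv := Pool.Agent.UTM.Es.vv_nonneg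
  have hu0 : 0 < u := lt_of_le_of_lt hv hu
  have hc : (0 : ℝ) ≤ 1 / 2 * (Real.exp θ - 1) := by
    have := Real.add_one_le_exp θ
    linarith
  refine ⟨θ, Real.exp (1 / 2 * (Real.exp θ - 1) * m₀), hθ, Real.one_le_exp (by positivity), ?_⟩
  intro N hN s hs y
  obtain ⟨k, hk⟩ : ∃ k : ℕ, k = ⌊s / m₀⌋₊ := ⟨_, rfl⟩
  have hk1 : (k : ℝ) * m₀ ≤ s := by
    rw [hk, ← le_div_iff₀ (by linarith)]
    exact Nat.floor_le (by positivity)
  have hk2 : s < (k + 1 : ℝ) * m₀ := by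
    rw [hk, ← div_lt_iff₀ (by linarith)]
    exact Nat.lt_floor_add_one _
  have hr0 : 0 ≤ s - (k * m₀ : ℕ) := by push_cast; linarith
  have hr1 : s - (k * m₀ : ℕ) ≤ m₀ := by push_cast; nlinarith
  have e1 : s = (s - (k * m₀ : ℕ)) + ((k * m₀ : ℕ) : ℝ) := by ring
  have h1 : Pool.Agent.UTM.Es.heat (Pool.Agent.UTM.Es.LL N) s
      (fun y => Real.exp (θ * Pool.Agent.UTM.Es.top y)) y =
      Pool.Agent.UTM.Es.heat (Pool.Agent.UTM.Es.LL N) (s - (k * m₀ : ℕ))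
        (Pool.Agent.UTM.Es.heat (Pool.Agent.UTM.Es.LL N) ((k * m₀ : ℕ) : ℝ)
          (fun y => Real.exp (θ * Pool.Agent.UTM.Es.top y))) y := by
    rw [← Pool.Agent.UTM.Es.heat_add, ← e1]
  rw [h1]
  have h2 := Pool.Agent.UTM.Es.heat_mono (Pool.Agent.UTM.Es.LL_pos N) hr0
    (f := Pool.Agent.UTM.Es.heat (Pool.Agent.UTM.Es.LL N) ((k * m₀ : ℕ) : ℝ)
          (fun y => Real.exp (θ * Pool.Agent.UTM.Es.top y)))
    (g := Real.exp (θ * ((Pool.Agent.UTM.Es.vv + (u - Pool.Agent.UTM.Es.vv)) * (k * m₀ : ℕ))) •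
      fun y => Real.exp (θ * Pool.Agent.UTM.Es.top y)) (fun y => hexp N hN k y) y
  refine h2.trans ?_
  rw [map_smul, Pi.smul_apply, smul_eq_mul]
  have h3 := Pool.Agent.UTM.Es.heat_exp_top (N := N) (θ := θ) hθ.le hr0 y
  refine (mul_le_mul_of_nonneg_left h3 (Real.exp_pos _).le).trans ?_
  rw [← Real.exp_add, ← Real.exp_add, ← Real.exp_add, ← Real.exp_add]
  apply Real.exp_le_exp.mpr
  have h4 : 1 / 2 * (Real.exp θ - 1) * (s - (k * m₀ : ℕ)) ≤ 1 / 2 * (Real.exp θ - 1) * m₀ :=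
    mul_le_mul_of_nonneg_left hr1 hc
  have h5 : θ * ((Pool.Agent.UTM.Es.vv + (u - Pool.Agent.UTM.Es.vv)) * (k * m₀ : ℕ)) ≤ θ * (u * s) := by
    apply mul_le_mul_of_nonneg_left _ hθ.le
    rw [add_sub_cancel]
    apply mul_le_mul_of_nonneg_left _ hu0.le
    push_cast
    exact hk1
  linarith

end Pool.Agent.NJ
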