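import Pool.Agent.CutSeq.Ent

/-!
S19271, target B: continuity of the information of one bit.
For two weights `p`, `q` of the same total mass and a variable `Y` with two values,
`|KK p Y Z - KK q Y Z| ≤ 12 sqrt (J * (KK p Y Z + KK q Y Z))`, where `J` is the Jensen-Shannon
divergence of `p` and `q`.
-/

set_option autoImplicit false

namespace Pool.Agent.CutSeq.NJ

open Finset

section Scalar

/-- `(log x)² ≤ 8 (log x - 1 + 1 / x)` on `(0, 2]` -/
lemma sq_log_le36 {x : ℝ} (hx : 0 < x) (hx2 : x ≤ 2) :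
    Real.log x ^ 2 ≤ 8 * (Real.log x - 1 + 1 / x) := by
  set r := Real.sqrt x with hr
  have hr0 : 0 < r := Real.sqrt_pos.2 hx
  have hrx : r * r = x := Real.mul_self_sqrt hx.le
  have hlog : Real.log x = 2 * Real.log r := by
    rw [← hrx, Real.log_mul hr0.ne' hr0.ne']
    ring
  set v := 1 / r with hv
  have hv0 : 0 < v := by positivity
  have hrv : r * v = 1 := by
    rw [hv]
    field_simp
  have hxv : 1 / x = v * v := by
    rw [← hrx, hv]
    field_simp
  -- lower bound of the right hand side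
  have h1 : 1 - v ≤ Real.log r := by
    have := Real.one_sub_inv_le_log_of_pos hr0
    rwa [← one_div] at this
  have h2 : Real.log r ≤ r - 1 := Real.log_le_sub_one_of_pos hr0
  have h3 : 8 * (1 - v) ^ 2 ≤ 8 * (Real.log x - 1 + 1 / x) := by
    rw [hlog, hxv]
    nlinarith
  refine le_trans ?_ h3
  rw [hlog]
  rcases le_total r 1 with h | h
  · -- `log r ≤ 0`
    have hl : Real.log r ≤ 0 := Real.log_nonpos hr0.le h
    have hv1 : 1 ≤ v := by
      rw [hv, le_div_iff₀ hr0]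
      linarith
    nlinarith
  · have hl : 0 ≤ Real.log r := Real.log_nonneg h
    have hv1 : v ≤ 1 := by
      rw [hv, div_le_iff₀ hr0]
      linarith
    -- `log r ≤ r - 1 = r (1 - v)` and `r² ≤ 2`
    have h4 : r - 1 = r * (1 - v) := by
      rw [mul_sub, hrv, mul_one]
    have h5 : Real.log r ≤ r * (1 - v) := by rw [← h4]; exact h2
    have h6 : Real.log r ^ 2 ≤ (r * (1 - v)) ^ 2 := by
      apply sq_le_sq'
      · nlinarith [mul_nonneg hr0.le (sub_nonneg.2 hv1)]
      · exact h5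
    have h7 : (r * (1 - v)) ^ 2 = x * (1 - v) ^ 2 := by
      rw [mul_pow, sq r, hrx]
    rw [h7] at h6
    nlinarith [sq_nonneg (1 - v)]

/-- `(t - 1)² ≤ 6 (t log t - t + 1)` on `[0, 2]` -/
lemma sub_one_sq_le36 {t : ℝ} (ht : 0 ≤ t) (ht2 : t ≤ 2) :
    (t - 1) ^ 2 ≤ 6 * (t * Real.log t - t + 1) := by
  rcases eq_or_lt_of_le ht with h | h
  · rw [← h]
    norm_num
  · set r := Real.sqrt t with hr
    have hr0 : 0 < r := Real.sqrt_pos.2 h
    have hrt : r * r = t := Real.mul_self_sqrt ht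
    have hlog : Real.log t = 2 * Real.log r := by
      rw [← hrt, Real.log_mul hr0.ne' hr0.ne']
      ring
    have h1 : 1 - r⁻¹ ≤ Real.log r := Real.one_sub_inv_le_log_of_pos hr0
    have h2 : r - 1 ≤ r * Real.log r := by
      have := mul_le_mul_of_nonneg_left h1 hr0.le
      rw [mul_sub, mul_inv_cancel₀ hr0.ne', mul_one] at this
      exact this
    -- `t log t = 2 r (r log r)`
    have h3 : t * Real.log t = 2 * r * (r * Real.log r) := by
      rw [hlog, ← hrt]
      ring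
    have h4 : (r - 1) ^ 2 ≤ t * Real.log t - t + 1 := by
      rw [h3]
      nlinarith
    have hr2 : r ≤ 3 / 2 := by
      by_contra hc
      push Not at hc
      nlinarith
    have h5 : (t - 1) ^ 2 = (r - 1) ^ 2 * (r + 1) ^ 2 := by
      rw [← hrt]
      ring
    have h6 : (r + 1) ^ 2 ≤ 6 := by nlinarith
    rw [h5]
    nlinarith [sq_nonneg (r - 1)]

end Scalar

variable {Ω A B : Type*} [Fintype Ω] [Fintype A]

/-- the mean of two weights -/
noncomputable def mid (p q : Ω → ℝ) : Ω → ℝ := fun ω => (p ω + q ω) / 2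

/-- relative entropy of two weights -/
noncomputable def KL36 (p M : Ω → ℝ) : ℝ := ∑ ω, p ω * Real.log (p ω / M ω)

/-- Jensen-Shannon divergence -/
noncomputable def JS36 (p q : Ω → ℝ) : ℝ := (KL36 p (mid p q) + KL36 q (mid p q)) / 2

omit [Fintype Ω] in
lemma mid_comm (p q : Ω → ℝ) : mid p q = mid q p := by
  funext ω
  unfold mid
  ring

lemma JS36_comm (p q : Ω → ℝ) : JS36 p q = JS36 q p := by
  unfold JS36
  rw [mid_comm q p]
  ring

/-- logarithm of the conditional density of the mean -/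
noncomputable def LL36 (M : Ω → ℝ) (Y : Ω → A) (Z : Ω → B) (ω : Ω) : ℝ :=
  Real.log (Fintype.card A * mass M (fun ω => (Y ω, Z ω)) (Y ω, Z ω) / mass M Z (Z ω))

lemma KK_eq_LL36 (M : Ω → ℝ) (Y : Ω → A) (Z : Ω → B) : KK M Y Z = ∑ ω, M ω * LL36 M Y Z ω := rfl

/-- Gibbs -/
lemma gibbs36 (q M : Ω → ℝ) (hq : ∀ ω, 0 ≤ q ω) (hM : ∀ ω, 0 ≤ M ω)
    (hqM : ∀ ω, q ω ≠ 0 → M ω ≠ 0) (Y : Ω → A) (Z : Ω → B) :
    ∑ ω, q ω * LL36 M Y Z ω ≤ KK q Y Z := by
  refine DV_density q hq Y Z
    (fun a b => Fintype.card A * mass M (fun ω => (Y ω, Z ω)) (a, b) / mass M Z b)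
    (fun a b => div_nonneg (mul_nonneg (by positivity) (mass_nonneg M hM _ _))
      (mass_nonneg M hM _ _)) ?_ ?_
  · intro ω hω
    have m1 := mass_pos M hM (fun ω => (Y ω, Z ω)) (hqM ω hω)
    have m2 := mass_pos M hM Z (hqM ω hω)
    have hA : (0 : ℝ) < Fintype.card A := by
      have : Nonempty A := ⟨Y ω⟩
      exact_mod_cast Fintype.card_pos
    positivity
  · intro ω hω
    have m2 := mass_pos M hM Z (hqM ω hω)
    rw [← Finset.sum_div, ← Finset.mul_sum, sum_mass, mul_div_assoc, div_self m2.ne', mul_one]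

/-- the conditional part of the relative entropy is at most the relative entropy -/
lemma cond_le_KL36 (p M : Ω → ℝ) (hp : ∀ ω, 0 ≤ p ω) (hM : ∀ ω, 0 ≤ M ω)
    (hpM : ∀ ω, p ω ≠ 0 → M ω ≠ 0) (htot : tot M = tot p) (Y : Ω → A) (Z : Ω → B) :
    KK p Y Z - ∑ ω, p ω * LL36 M Y Z ω ≤ KL36 p M := by
  classical
  -- the density ratio of the conditional laws
  set c : A → B → ℝ := fun a b => (mass p (fun ω => (Y ω, Z ω)) (a, b) * mass M Z b) /
    (mass p Z b * mass M (fun ω => (Y ω, Z ω)) (a, b)) with hc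
  have hc0 : ∀ a b, 0 ≤ c a b := fun a b => div_nonneg
    (mul_nonneg (mass_nonneg p hp _ _) (mass_nonneg M hM _ _))
    (mul_nonneg (mass_nonneg p hp _ _) (mass_nonneg M hM _ _))
  -- `∑ M c ≤ tot M`
  have h1 : ∑ ω, M ω * c (Y ω) (Z ω) ≤ tot M := by
    have h2 := basic_count M hM Y Z (fun a b => mass p (fun ω => (Y ω, Z ω)) (a, b) / mass p Z b)
      (fun a b => div_nonneg (mass_nonneg p hp _ _) (mass_nonneg p hp _ _))
    have h3 : ∀ ω ∈ (Finset.univ : Finset Ω), M ω * c (Y ω) (Z ω) =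
        M ω * (mass p (fun ω => (Y ω, Z ω)) (Y ω, Z ω) / mass p Z (Z ω) * mass M Z (Z ω) /
          mass M (fun ω => (Y ω, Z ω)) (Y ω, Z ω)) := by
      intro ω _
      simp only [hc]
      congr 1
      rw [div_mul_eq_mul_div, div_div]
    rw [Finset.sum_congr rfl h3]
    refine h2.trans ?_
    unfold tot
    refine Finset.sum_le_sum fun ω _ => ?_
    rw [← Finset.sum_div, sum_mass]
    have h4 : mass p Z (Z ω) / mass p Z (Z ω) ≤ 1 := div_self_le_one _
    calc M ω * (mass p Z (Z ω) / mass p Z (Z ω)) ≤ M ω * 1 := mul_le_mul_of_nonneg_left h4 (hM ω)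
      _ = M ω := mul_one _
  -- pointwise
  have h5 : ∀ ω ∈ (Finset.univ : Finset Ω),
      p ω * Real.log (Fintype.card A * mass p (fun ω => (Y ω, Z ω)) (Y ω, Z ω) / mass p Z (Z ω)) -
        p ω * LL36 M Y Z ω - p ω * Real.log (p ω / M ω) ≤ M ω * c (Y ω) (Z ω) - p ω := by
    intro ω _
    by_cases hω : p ω = 0
    · rw [hω]
      simp only [zero_mul, sub_zero, sub_self]
      exact mul_nonneg (hM ω) (hc0 _ _)
    · have hpos : 0 < p ω := lt_of_le_of_ne (hp ω) (Ne.symm hω)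
      have hMpos : 0 < M ω := lt_of_le_of_ne (hM ω) (Ne.symm (hpM ω hω))
      have m1 := mass_pos p hp (fun ω => (Y ω, Z ω)) hω
      have m2 := mass_pos p hp Z hω
      have m3 := mass_pos M hM (fun ω => (Y ω, Z ω)) (hpM ω hω)
      have m4 := mass_pos M hM Z (hpM ω hω)
      have hA : (0 : ℝ) < Fintype.card A := by
        have : Nonempty A := ⟨Y ω⟩
        exact_mod_cast Fintype.card_pos
      unfold LL36
      rw [← mul_sub, ← mul_sub, ← Real.log_div (by positivity) (by positivity),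
        ← Real.log_div (by positivity) (by positivity)]
      have e1 : Fintype.card A * mass p (fun ω => (Y ω, Z ω)) (Y ω, Z ω) / mass p Z (Z ω) /
          (Fintype.card A * mass M (fun ω => (Y ω, Z ω)) (Y ω, Z ω) / mass M Z (Z ω)) /
          (p ω / M ω) = M ω * c (Y ω) (Z ω) / p ω := by
        simp only [hc]
        field_simp
      rw [e1]
      have hcp : 0 < c (Y ω) (Z ω) := by
        simp only [hc]
        positivity
      have h6 := Real.log_le_sub_one_of_pos (x := M ω * c (Y ω) (Z ω) / p ω) (by positivity)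
      have h7 := mul_le_mul_of_nonneg_left h6 hpos.le
      refine h7.trans (le_of_eq ?_)
      field_simp
  have h8 := Finset.sum_le_sum h5
  rw [Finset.sum_sub_distrib, Finset.sum_sub_distrib, Finset.sum_sub_distrib] at h8
  have h9 : KK p Y Z = ∑ ω, p ω * Real.log (Fintype.card A *
      mass p (fun ω => (Y ω, Z ω)) (Y ω, Z ω) / mass p Z (Z ω)) := rfl
  unfold KL36
  have h10 : ∑ ω, p ω = tot p := rfl
  linarith

/-- chi square against relative entropy -/
lemma chi_le_KL36 (p M : Ω → ℝ) (hp : ∀ ω, 0 ≤ p ω) (hM : ∀ ω, 0 ≤ M ω)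
    (hle : ∀ ω, p ω ≤ 2 * M ω) (htot : tot M = tot p) :
    ∑ ω, (p ω - M ω) ^ 2 / M ω ≤ 6 * KL36 p M := by
  have h1 : ∀ ω ∈ (Finset.univ : Finset Ω), (p ω - M ω) ^ 2 / M ω ≤
      6 * (p ω * Real.log (p ω / M ω)) - 6 * p ω + 6 * M ω := by
    intro ω _
    rcases eq_or_lt_of_le (hM ω) with h | h
    · have hp0 : p ω = 0 := le_antisymm (by have := hle ω; rw [← h] at this; linarith) (hp ω)
      rw [← h, hp0]
      simp
    · have ht0 : 0 ≤ p ω / M ω := div_nonneg (hp ω) h.le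
      have ht2 : p ω / M ω ≤ 2 := by
        rw [div_le_iff₀ h]
        exact hle ω
      have h2 := sub_one_sq_le36 ht0 ht2
      have h3 := mul_le_mul_of_nonneg_left h2 h.le
      have e1 : M ω * (p ω / M ω - 1) ^ 2 = (p ω - M ω) ^ 2 / M ω := by
        field_simp
      have e2 : M ω * (6 * (p ω / M ω * Real.log (p ω / M ω) - p ω / M ω + 1)) =
          6 * (p ω * Real.log (p ω / M ω)) - 6 * p ω + 6 * M ω := by
        field_simp
      rw [e1, e2] at h3
      exact h3
  have h2 := Finset.sum_le_sum h1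
  rw [Finset.sum_add_distrib, Finset.sum_sub_distrib, ← Finset.mul_sum, ← Finset.mul_sum,
    ← Finset.mul_sum] at h2
  unfold tot at htot
  unfold KL36
  linarith

/-- second moment of the logarithm of the density of a bit -/
lemma sq_LL36_le (M : Ω → ℝ) (hM : ∀ ω, 0 ≤ M ω) (Y : Ω → A) (Z : Ω → B)
    (hA : Fintype.card A = 2) : ∑ ω, M ω * LL36 M Y Z ω ^ 2 ≤ 8 * KK M Y Z := by
  classical
  have h1 := basic_count M hM Y Z (fun _ _ => 1 / 2) (fun _ _ => by norm_num)
  have h2 : ∑ ω, M ω * ∑ _a : A, (1 / 2 : ℝ) = tot M := by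
    unfold tot
    refine Finset.sum_congr rfl fun ω _ => ?_
    rw [Finset.sum_const, Finset.card_univ, hA]
    norm_num
  rw [h2] at h1
  have h3 : ∀ ω ∈ (Finset.univ : Finset Ω), M ω * LL36 M Y Z ω ^ 2 ≤
      8 * (M ω * LL36 M Y Z ω) - 8 * M ω +
      8 * (M ω * (1 / 2 * mass M Z (Z ω) / mass M (fun ω => (Y ω, Z ω)) (Y ω, Z ω))) := by
    intro ω _
    by_cases hω : M ω = 0
    · simp [hω]
    · have m1 := mass_pos M hM (fun ω => (Y ω, Z ω)) hω
      have m2 := mass_pos M hM Z hω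
      have m3 : mass M (fun ω => (Y ω, Z ω)) (Y ω, Z ω) ≤ mass M Z (Z ω) :=
        mass_mono M hM _ _ _ _ (fun ω' h' => (Prod.mk.inj h').2)
      have hx0 : 0 < (Fintype.card A : ℝ) * mass M (fun ω => (Y ω, Z ω)) (Y ω, Z ω) /
          mass M Z (Z ω) := by
        rw [hA]
        positivity
      have hx2 : (Fintype.card A : ℝ) * mass M (fun ω => (Y ω, Z ω)) (Y ω, Z ω) /
          mass M Z (Z ω) ≤ 2 := by
        rw [hA, div_le_iff₀ m2]
        push_cast
        linarith
      have h4 := sq_log_le36 hx0 hx2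
      have h5 := mul_le_mul_of_nonneg_left h4 (hM ω)
      refine h5.trans (le_of_eq ?_)
      unfold LL36
      rw [hA]
      push_cast
      field_simp
  have h6 := Finset.sum_le_sum h3
  rw [Finset.sum_add_distrib, Finset.sum_sub_distrib, ← Finset.mul_sum, ← Finset.mul_sum,
    ← Finset.mul_sum] at h6
  rw [KK_eq_LL36]
  unfold tot at h1
  linarith

/-- **continuity of the information of one bit** -/
theorem bit_continuity (p q : Ω → ℝ) (hp : ∀ ω, 0 ≤ p ω) (hq : ∀ ω, 0 ≤ q ω)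
    (htot : tot p = tot q) (Y : Ω → A) (Z : Ω → B) (hA : Fintype.card A = 2) :
    KK p Y Z - KK q Y Z ≤ 12 * Real.sqrt (JS36 p q * (KK p Y Z + KK q Y Z)) := by
  classical
  set M := mid p q with hMdef
  have hM : ∀ ω, 0 ≤ M ω := fun ω => by
    simp only [hMdef, mid]
    have := hp ω
    have := hq ω
    linarith
  have hpM : ∀ ω, p ω ≠ 0 → M ω ≠ 0 := fun ω h => by
    have h1 : 0 < p ω := lt_of_le_of_ne (hp ω) (Ne.symm h)
    have h2 := hq ω
    have : 0 < M ω := by
      simp only [hMdef, mid]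
      linarith
    exact this.ne'
  have hqM : ∀ ω, q ω ≠ 0 → M ω ≠ 0 := fun ω h => by
    have h1 : 0 < q ω := lt_of_le_of_ne (hq ω) (Ne.symm h)
    have h2 := hp ω
    have : 0 < M ω := by
      simp only [hMdef, mid]
      linarith
    exact this.ne'
  have htM : tot M = (tot p + tot q) / 2 := by
    simp only [hMdef, mid, tot]
    rw [← Finset.sum_add_distrib, Finset.sum_div]
  have htMp : tot M = tot p := by rw [htM, ← htot]; ring
  have htMq : tot M = tot q := by rw [htM, htot]; ring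
  set L := LL36 M Y Z with hL
  set Kp := KK p Y Z with hKp
  set Kq := KK q Y Z with hKq
  set J := JS36 p q with hJ
  have hKp0 : 0 ≤ Kp := KK_nonneg p hp Y Z
  have hKq0 : 0 ≤ Kq := KK_nonneg q hq Y Z
  have gp : ∑ ω, p ω * L ω ≤ Kp := gibbs36 p M hp hM hpM Y Z
  have gq : ∑ ω, q ω * L ω ≤ Kq := gibbs36 q M hq hM hqM Y Z
  have cp' : Kp - ∑ ω, p ω * L ω ≤ KL36 p M := cond_le_KL36 p M hp hM hpM htMp Y Z
  have cq' : Kq - ∑ ω, q ω * L ω ≤ KL36 q M := cond_le_KL36 q M hq hM hqM htMq Y Z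
  have hJ2 : KL36 p M + KL36 q M = 2 * J := by
    simp only [hJ, JS36, ← hMdef]
    ring
  have hKM0 : 0 ≤ KK M Y Z := KK_nonneg M hM Y Z
  have hKM : KK M Y Z = (∑ ω, p ω * L ω + ∑ ω, q ω * L ω) / 2 := by
    rw [KK_eq_LL36, ← Finset.sum_add_distrib, Finset.sum_div]
    refine Finset.sum_congr rfl fun ω _ => ?_
    show M ω * L ω = _
    simp only [hMdef, mid]
    ring
  -- the two parts
  set a := (Kp - ∑ ω, p ω * L ω) + (Kq - ∑ ω, q ω * L ω) with ha
  have ha0 : 0 ≤ a := by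
    simp only [ha]
    linarith
  have haJ : a ≤ 2 * J := by
    simp only [ha]
    linarith
  have haK : a ≤ Kp + Kq := by
    simp only [ha]
    linarith
  have hJ0 : 0 ≤ J := by linarith
  -- Cauchy-Schwarz
  have hpM2 : ∀ ω, p ω ≤ 2 * M ω := fun ω => by
    have h1 := hq ω
    simp only [hMdef, mid]
    linarith
  have hqM2 : ∀ ω, q ω ≤ 2 * M ω := fun ω => by
    have h1 := hp ω
    simp only [hMdef, mid]
    linarith
  have x1 := chi_le_KL36 p M hp hM hpM2 htMp
  have x2 := chi_le_KL36 q M hq hM hqM2 htMq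
  have x3 : ∀ ω, (q ω - M ω) ^ 2 / M ω = (p ω - M ω) ^ 2 / M ω := fun ω => by
    congr 1
    simp only [hMdef, mid]
    ring
  simp only [x3] at x2
  have x4 : ∑ ω, (p ω - M ω) ^ 2 / M ω ≤ 6 * J := by linarith
  have x5 := sq_LL36_le M hM Y Z hA
  have x6 : (∑ ω, (p ω - M ω) * L ω) ^ 2 ≤ (∑ ω, (p ω - M ω) ^ 2 / M ω) * ∑ ω, M ω * L ω ^ 2 := by
    have h1 := Finset.sum_mul_sq_le_sq_mul_sq (Finset.univ : Finset Ω)
      (fun ω => (p ω - M ω) / Real.sqrt (M ω)) (fun ω => Real.sqrt (M ω) * L ω)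
    have e1 : ∀ ω ∈ (Finset.univ : Finset Ω), (p ω - M ω) / Real.sqrt (M ω) *
        (Real.sqrt (M ω) * L ω) = (p ω - M ω) * L ω := by
      intro ω _
      rcases eq_or_lt_of_le (hM ω) with h | h
      · have hp0 : p ω = 0 := le_antisymm (by have := hpM2 ω; rw [← h] at this; linarith) (hp ω)
        rw [← h, hp0]
        simp
      · have hs : 0 < Real.sqrt (M ω) := Real.sqrt_pos.2 h
        field_simp
    have e2 : ∀ ω ∈ (Finset.univ : Finset Ω), ((p ω - M ω) / Real.sqrt (M ω)) ^ 2 =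
        (p ω - M ω) ^ 2 / M ω := by
      intro ω _
      rw [div_pow, Real.sq_sqrt (hM ω)]
    have e3 : ∀ ω ∈ (Finset.univ : Finset Ω), (Real.sqrt (M ω) * L ω) ^ 2 = M ω * L ω ^ 2 := by
      intro ω _
      rw [mul_pow, Real.sq_sqrt (hM ω)]
    rw [Finset.sum_congr rfl e1, Finset.sum_congr rfl e2, Finset.sum_congr rfl e3] at h1
    exact h1
  have x7 : ∑ ω, (p ω - M ω) * L ω = (∑ ω, p ω * L ω - ∑ ω, q ω * L ω) / 2 := by
    rw [← Finset.sum_sub_distrib, Finset.sum_div]
    refine Finset.sum_congr rfl fun ω _ => ?_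
    simp only [hMdef, mid]
    ring
  set d := ∑ ω, p ω * L ω - ∑ ω, q ω * L ω with hd
  have x8 : d ^ 2 ≤ 96 * (J * (Kp + Kq)) := by
    rw [x7] at x6
    have h1 : 0 ≤ ∑ ω, M ω * L ω ^ 2 :=
      Finset.sum_nonneg fun ω _ => mul_nonneg (hM ω) (sq_nonneg _)
    have h2 : (∑ ω, (p ω - M ω) ^ 2 / M ω) * ∑ ω, M ω * L ω ^ 2 ≤ (6 * J) * (8 * KK M Y Z) :=
      mul_le_mul x4 x5 h1 (by positivity)
    have h3 : KK M Y Z ≤ (Kp + Kq) / 2 := by
      rw [hKM]
      linarith
    have h4 : (6 * J) * (8 * KK M Y Z) ≤ (6 * J) * (8 * ((Kp + Kq) / 2)) := by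
      gcongr
    nlinarith
  have x9 : Kp - Kq ≤ a + d := by
    simp only [ha, hd]
    linarith
  have x10 : a ^ 2 ≤ 2 * (J * (Kp + Kq)) := by nlinarith
  have x11 : (a + d) ^ 2 ≤ (12 ^ 2) * (J * (Kp + Kq)) := by
    -- `(a + d)² ≤ (1 + 1/6) d² + (1 + 6) a²`
    nlinarith [sq_nonneg (d - 6 * a), sq_nonneg a, sq_nonneg d]
  have x12 : a + d ≤ Real.sqrt ((12 ^ 2) * (J * (Kp + Kq))) := Real.le_sqrt_of_sq_le x11
  rw [Real.sqrt_mul (by norm_num), Real.sqrt_sq (by norm_num)] at x12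
  linarith

/-- Jensen-Shannon divergence and relative entropies with respect to the uniform law -/
theorem JS36_eq (p q : Ω → ℝ) (hp : ∀ ω, 0 ≤ p ω) (hq : ∀ ω, 0 ≤ q ω) (htot : tot p = tot q) :
    JS36 p q = (K0 p (fun ω => ω) + K0 q (fun ω => ω)) / 2 - K0 (mid p q) (fun ω => ω) := by
  classical
  have hm : ∀ (w : Ω → ℝ) (ω : Ω), mass w (fun ω => ω) ω = w ω := by
    intro w ω
    unfold mass
    simp
  rw [K0_eq, K0_eq, K0_eq]
  simp only [hm]
  have htM : tot (mid p q) = tot p := by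
    have : tot (mid p q) = (tot p + tot q) / 2 := by
      simp only [mid, tot]
      rw [← Finset.sum_add_distrib, Finset.sum_div]
    rw [this, ← htot]
    ring
  rw [htM, ← htot]
  unfold JS36 KL36
  rw [← Finset.sum_add_distrib, ← Finset.sum_add_distrib, Finset.sum_div, Finset.sum_div,
    ← Finset.sum_sub_distrib]
  refine Finset.sum_congr rfl fun ω _ => ?_
  have hp0 := hp ω
  have hq0 := hq ω
  have key : ∀ (u m t : ℝ), 0 ≤ u → u ≤ 2 * m → (u ≠ 0 → 0 < t) →
      u * Real.log (u / m) = u * Real.log ((Fintype.card Ω : ℝ) * u / t) -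
        u * Real.log ((Fintype.card Ω : ℝ) * m / t) := by
    intro u m t hu hum ht
    by_cases h : u = 0
    · simp [h]
    · have hu' : 0 < u := lt_of_le_of_ne hu (Ne.symm h)
      have hm' : 0 < m := by linarith
      have ht' := ht h
      have hc : (0 : ℝ) < Fintype.card Ω := by
        have : Nonempty Ω := ⟨ω⟩
        exact_mod_cast Fintype.card_pos
      rw [← mul_sub, ← Real.log_div (by positivity) (by positivity)]
      congr 2
      field_simp
  have hmid : mid p q ω = (p ω + q ω) / 2 := rfl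
  have hpt : p ω ≠ 0 → 0 < tot p := fun h =>
    lt_of_lt_of_le (lt_of_le_of_ne hp0 (Ne.symm h)) (le_tot p hp ω)
  have hqt : q ω ≠ 0 → 0 < tot p := fun h => by
    rw [htot]
    exact lt_of_lt_of_le (lt_of_le_of_ne hq0 (Ne.symm h)) (le_tot q hq ω)
  rw [key (p ω) (mid p q ω) (tot p) hp0 (by rw [hmid]; linarith) hpt,
    key (q ω) (mid p q ω) (tot p) hq0 (by rw [hmid]; linarith) hqt]
  rw [hmid]
  ring

end Pool.Agent.CutSeq.NJ
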