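import Pool.Agent.NJ.UpA36
import Pool.Agent.NJ.EntC76
import Pool.Agent.NJ.Broom36

/-!
S19271, target B: upper bound for the drop (section 2 of the linear NOJUMP page), abstract form.
State: an array `s.1` and a row `s.2 : V n`.  The letter `(b, 1)` acts by `Xa xa n b`.
-/

set_option autoImplicit false

namespace Pool.Agent.CutSeq.NJ

open Finset

section Tools

variable {Ω A B : Type*} [Fintype Ω] [Fintype A]

/-- weights and an involution -/
lemma push_comp_invol (ν : Ω → ℝ) (X : Ω → Ω) (hX : Function.Involutive X) :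
    Push (fun ω => ν (X ω)) X ν := by
  refine push_of_sum fun g => ?_
  refine Fintype.sum_equiv hX.toPerm _ _ fun ω => ?_
  rfl

lemma KK_comp_invol (ν : Ω → ℝ) (X : Ω → Ω) (hX : Function.Involutive X) (f : Ω → A) (g : Ω → B) :
    KK (fun ω => ν (X ω)) f g = KK ν (fun ω => f (X ω)) (fun ω => g (X ω)) := by
  have h := (push_comp_invol ν X hX).KK (fun ω => f (X ω)) (fun ω => g (X ω))
  simp only [hX _] at h
  exact h

lemma tot_comp_invol (ν : Ω → ℝ) (X : Ω → Ω) (hX : Function.Involutive X) :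
    tot (fun ω => ν (X ω)) = tot ν := (push_comp_invol ν X hX).tot

lemma K0_id_comp_invol (ν : Ω → ℝ) (hν : ∀ ω, 0 ≤ ν ω) (X : Ω → Ω) (hX : Function.Involutive X) :
    K0 (fun ω => ν (X ω)) (fun ω => ω) = K0 ν (fun ω => ω) := by
  have h := KK_comp_invol ν X hX (fun ω => ω) (fun _ => ())
  have h2 := KK_bij ν hν (fun ω => ω) (fun ω => X ω) (fun _ => ()) (fun _ => hX.toPerm)
    (fun _ _ => rfl)
  unfold K0
  rw [h, h2]

lemma KK_zero (X : Ω → A) (Y : Ω → B) : KK (fun _ => (0 : ℝ)) X Y = 0 := by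
  unfold KK
  simp

/-- convexity, finite sums -/
lemma KK_sum_le {ι : Type*} (s : Finset ι) (w : ι → Ω → ℝ) (hw : ∀ i ω, 0 ≤ w i ω) (X : Ω → A)
    (Y : Ω → B) : KK (fun ω => ∑ i ∈ s, w i ω) X Y ≤ ∑ i ∈ s, KK (w i) X Y := by
  classical
  induction s using Finset.induction_on with
  | empty => simp [KK_zero]
  | insert i s hi ih =>
    rw [Finset.sum_insert hi]
    have e : (fun ω => ∑ j ∈ insert i s, w j ω) = w i + (fun ω => ∑ j ∈ s, w j ω) := by
      funext ω
      rw [Finset.sum_insert hi]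
      rfl
    rw [e]
    have h1 := KK_add_le (w i) (fun ω => ∑ j ∈ s, w j ω) (hw i)
      (fun ω => Finset.sum_nonneg fun j _ => hw j ω) X Y
    linarith

/-- convexity of the mean of two weights -/
lemma KK_mid_le (p q : Ω → ℝ) (hp : ∀ ω, 0 ≤ p ω) (hq : ∀ ω, 0 ≤ q ω) (X : Ω → A) (Y : Ω → B) :
    KK (mid p q) X Y ≤ (KK p X Y + KK q X Y) / 2 := by
  have e : mid p q = fun ω => (1 / 2) * (p + q) ω := by
    funext ω
    simp only [mid, Pi.add_apply]
    ring
  rw [e, KK_smul]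
  have := KK_add_le p q hp hq X Y
  linarith

omit [Fintype Ω] in
lemma mid_nonneg (p q : Ω → ℝ) (hp : ∀ ω, 0 ≤ p ω) (hq : ∀ ω, 0 ≤ q ω) (ω : Ω) :
    0 ≤ mid p q ω := by
  unfold mid
  have := hp ω
  have := hq ω
  linarith

lemma tot_mid (p q : Ω → ℝ) : tot (mid p q) = (tot p + tot q) / 2 := by
  simp only [mid, tot]
  rw [← Finset.sum_add_distrib, Finset.sum_div]

lemma JS36_nonneg (p q : Ω → ℝ) (hp : ∀ ω, 0 ≤ p ω) (hq : ∀ ω, 0 ≤ q ω) (htot : tot p = tot q) :
    0 ≤ JS36 p q := by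
  have hM := mid_nonneg p q hp hq
  have h1 : ∀ ω, p ω ≤ 2 * mid p q ω := fun ω => by
    unfold mid
    have := hq ω
    linarith
  have h2 : ∀ ω, q ω ≤ 2 * mid p q ω := fun ω => by
    unfold mid
    have := hp ω
    linarith
  have t1 : tot (mid p q) = tot p := by rw [tot_mid, ← htot]; ring
  have t2 : tot (mid p q) = tot q := by rw [tot_mid, htot]; ring
  have a1 := chi_le_KL36 p (mid p q) hp hM h1 t1
  have a2 := chi_le_KL36 q (mid p q) hq hM h2 t2
  have b1 : 0 ≤ ∑ ω, (p ω - mid p q ω) ^ 2 / mid p q ω :=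
    Finset.sum_nonneg fun ω _ => div_nonneg (sq_nonneg _) (hM ω)
  have b2 : 0 ≤ ∑ ω, (q ω - mid p q ω) ^ 2 / mid p q ω :=
    Finset.sum_nonneg fun ω _ => div_nonneg (sq_nonneg _) (hM ω)
  unfold JS36
  linarith

end Tools

namespace Up36

/-! ### rows -/

/-- coordinate `k` of a row; the diagonal entry is one -/
def cl (n : ℕ) (R : V n) (k : ℕ) : ZMod 2 := if h : k < n then R ⟨k, h⟩ else if k = n then 1 else 0

/-- the right letter `(b, 1)` on a row -/
def rx1 (n b : ℕ) (R : V n) : V n := fun j => if j.val = b then R j + cl n R (b + 1) else R j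

/-- the first `b` entries of a row -/
def pfx {n : ℕ} (b : ℕ) (R : V n) : V b := fun j => cl n R j.val

lemma zmod2_add_self (a : ZMod 2) : a + a = 0 := CharTwo.add_self_eq_zero a

lemma cl_rx1 (n b : ℕ) (R : V n) (k : ℕ) (hk : k ≠ b) : cl n (rx1 n b R) k = cl n R k := by
  unfold cl
  by_cases h : k < n
  · rw [dif_pos h, dif_pos h]
    unfold rx1
    rw [if_neg hk]
  · rw [dif_neg h, dif_neg h]

lemma rx1_invol (n b : ℕ) : Function.Involutive (rx1 n b) := by
  intro R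
  funext j
  have h1 := cl_rx1 n b R (b + 1) (by omega)
  unfold rx1 at h1 ⊢
  by_cases h : j.val = b
  · rw [if_pos h, if_pos h, h1, add_assoc, zmod2_add_self, add_zero]
  · rw [if_neg h, if_neg h]

lemma pfx_rx1 {n : ℕ} (b c : ℕ) (hc : c ≤ b) (R : V n) : pfx c (rx1 n b R) = pfx c R := by
  funext j
  have := j.isLt
  exact cl_rx1 n b R j.val (by omega)

lemma pfx_self {n : ℕ} (R : V n) : pfx n R = R := by
  funext j
  unfold pfx cl
  rw [dif_pos j.isLt]

lemma cl_rx1_self {n b : ℕ} (hb : b < n) (R : V n) :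
    cl n (rx1 n b R) b = cl n R b + cl n R (b + 1) := by
  unfold cl rx1
  rw [dif_pos hb, dif_pos hb]
  simp only [if_true]
  rfl

section Up

variable {AA : Type*} [Fintype AA] {n : ℕ}

/-- the right letter `(b, 1)` on a state -/
def Xa (xa : ℕ → AA → AA) (b : ℕ) (s : AA × V n) : AA × V n := (xa b s.1, rx1 n b s.2)

omit [Fintype AA] in
lemma Xa_invol (xa : ℕ → AA → AA) (hx : ∀ b, Function.Involutive (xa b)) (b : ℕ) :
    Function.Involutive (Xa (n := n) xa b) := by
  rintro ⟨a, R⟩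
  simp only [Xa, Prod.mk.injEq]
  exact ⟨hx b a, rx1_invol n b R⟩

/-- one uniform letter -/
noncomputable def stp (B : ℕ) (xa : ℕ → AA → AA) (ν : AA × V n → ℝ) : AA × V n → ℝ :=
  fun s => (∑ b ∈ range B, (ν s + ν (Xa xa b s)) / 2) / B

/-- information of the first `b` entries of the row given the array -/
noncomputable def Fb (ν : AA × V n → ℝ) (b : ℕ) : ℝ := KK ν (fun s => pfx b s.2) (fun s => s.1)

/-- difference of the information of the bits `R_b` and `R_b + R_{b+1}` -/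
noncomputable def Dl (ν : AA × V n → ℝ) (b : ℕ) : ℝ :=
  KK ν (fun s => cl n s.2 b) (fun s => (s.1, pfx b s.2)) -
    KK ν (fun s => cl n s.2 b + cl n s.2 (b + 1)) (fun s => (s.1, pfx b s.2))

/-- production of the letter `b` -/
noncomputable def JSb (xa : ℕ → AA → AA) (ν : AA × V n → ℝ) (b : ℕ) : ℝ :=
  JS36 ν (fun s => ν (Xa xa b s))

omit [Fintype AA] in
lemma stp_nonneg (B : ℕ) (xa : ℕ → AA → AA) (ν : AA × V n → ℝ) (hν : ∀ s, 0 ≤ ν s) (s) :
    0 ≤ stp B xa ν s := by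
  unfold stp
  refine div_nonneg (Finset.sum_nonneg fun b _ => ?_) (Nat.cast_nonneg _)
  have := hν s
  have := hν (Xa xa b s)
  linarith

omit [Fintype AA] in
lemma stp_eq (B : ℕ) (xa : ℕ → AA → AA) (ν : AA × V n → ℝ) :
    stp B xa ν = fun s => (1 / (B : ℝ)) * ∑ b ∈ range B, mid ν (fun s => ν (Xa xa b s)) s := by
  funext s
  simp only [stp, mid]
  rw [div_eq_inv_mul, one_div]

/-- (chain rule) one more entry -/
lemma Fb_succ (ν : AA × V n → ℝ) (hν : ∀ s, 0 ≤ ν s) (b : ℕ) :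
    Fb ν (b + 1) = Fb ν b + KK ν (fun s => cl n s.2 b) (fun s => (s.1, pfx b s.2)) := by
  have h1 := KK_chain ν hν (fun s => pfx b s.2) (fun s => cl n s.2 b) (fun s => s.1)
  have h2 : KK ν (fun s => pfx (b + 1) s.2) (fun s => s.1) =
      KK ν (fun s => (pfx b s.2, cl n s.2 b)) (fun s => s.1) := by
    refine KK_bij ν hν (fun s => (pfx b s.2, cl n s.2 b)) (fun s => pfx (b + 1) s.2) _
      (fun _ => (Equiv.prodComm _ _).trans (Fin.snocEquiv (fun _ : Fin (b + 1) => ZMod 2))) ?_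
    intro s _
    funext k
    refine Fin.lastCases ?_ (fun k => ?_) k
    · simp only [Equiv.trans_apply, Equiv.prodComm_apply, Prod.swap_prod_mk, Fin.snocEquiv_apply]
      rw [Fin.snoc_last]
      rfl
    · simp only [Equiv.trans_apply, Equiv.prodComm_apply, Prod.swap_prod_mk, Fin.snocEquiv_apply]
      rw [Fin.snoc_castSucc]
      rfl
  have h3 : KK ν (fun s => cl n s.2 b) (fun s => (pfx b s.2, s.1)) =
      KK ν (fun s => cl n s.2 b) (fun s => (s.1, pfx b s.2)) := by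
    refine le_antisymm (KK_finer ν hν _ _ _ ?_) (KK_finer ν hν _ _ _ ?_)
    · intro s s' _ _ h
      simp only [Prod.mk.injEq] at h ⊢
      exact ⟨h.2, h.1⟩
    · intro s s' _ _ h
      simp only [Prod.mk.injEq] at h ⊢
      exact ⟨h.2, h.1⟩
  unfold Fb
  rw [h2, h1, h3]

lemma Fb_mono (ν : AA × V n → ℝ) (hν : ∀ s, 0 ≤ ν s) : Monotone (Fb ν) := by
  refine monotone_nat_of_le_succ fun b => ?_
  rw [Fb_succ ν hν b]
  have := KK_nonneg ν hν (fun s => cl n s.2 b) (fun s => (s.1, pfx b s.2))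
  linarith

lemma Fb_nonneg (ν : AA × V n → ℝ) (hν : ∀ s, 0 ≤ ν s) (b : ℕ) : 0 ≤ Fb ν b := KK_nonneg ν hν _ _

/-- the second bit -/
lemma sum_bit_le (ν : AA × V n → ℝ) (hν : ∀ s, 0 ≤ ν s) (b : ℕ) :
    KK ν (fun s => cl n s.2 b + cl n s.2 (b + 1)) (fun s => (s.1, pfx b s.2)) ≤
      Fb ν (b + 2) - Fb ν b := by
  have h1 := KK_map ν hν (fun s => (cl n s.2 b, cl n s.2 (b + 1))) (fun s => (s.1, pfx b s.2))
    (fun p : ZMod 2 × ZMod 2 => p.1 + p.2) (by
      intro a
      have : Nat.card {x : ZMod 2 × ZMod 2 // x.1 + x.2 = a} = 2 := by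
        rw [Nat.card_eq_fintype_card]
        revert a
        decide
      rw [this]
      rfl)
  have h2 := KK_chain ν hν (fun s => cl n s.2 b) (fun s => cl n s.2 (b + 1))
    (fun s => (s.1, pfx b s.2))
  have h3 : KK ν (fun s => cl n s.2 (b + 1)) (fun s => (cl n s.2 b, (s.1, pfx b s.2))) =
      KK ν (fun s => cl n s.2 (b + 1)) (fun s => (s.1, pfx (b + 1) s.2)) := by
    have key : ∀ s s' : AA × V n, (cl n s.2 b = cl n s'.2 b ∧ pfx b s.2 = pfx b s'.2) ↔
        pfx (b + 1) s.2 = pfx (b + 1) s'.2 := by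
      intro s s'
      constructor
      · rintro ⟨h4, h5⟩
        funext k
        refine Fin.lastCases ?_ (fun k => ?_) k
        · exact h4
        · exact congrFun h5 k
      · intro h4
        refine ⟨congrFun h4 (Fin.last b), ?_⟩
        funext k
        exact congrFun h4 k.castSucc
    refine le_antisymm (KK_finer ν hν _ _ _ ?_) (KK_finer ν hν _ _ _ ?_)
    · intro s s' _ _ h
      simp only [Prod.mk.injEq] at h ⊢
      obtain ⟨h4, h5⟩ := h
      obtain ⟨h6, h7⟩ := (key s s').2 h5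
      exact ⟨h6, h4, h7⟩
    · intro s s' _ _ h
      simp only [Prod.mk.injEq] at h ⊢
      obtain ⟨h4, h5, h6⟩ := h
      exact ⟨h5, (key s s').1 ⟨h4, h6⟩⟩
  have h4 := Fb_succ ν hν b
  have h5 := Fb_succ ν hν (b + 1)
  rw [h2, h3] at h1
  have h6 : Fb ν (b + 2) = Fb ν (b + 1 + 1) := rfl
  rw [h6, h5, h4]
  linarith

/-- (LEMMA C) -/
theorem Dl_le (xa : ℕ → AA → AA) (hx : ∀ b, Function.Involutive (xa b)) (ν : AA × V n → ℝ)
    (hν : ∀ s, 0 ≤ ν s) (b : ℕ) (hb : b + 1 < n) :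
    Dl ν b ≤ 12 * Real.sqrt (JSb xa ν b * (2 * (Fb ν (b + 2) - Fb ν b))) := by
  have hX := Xa_invol (n := n) xa hx b
  have hq : ∀ s, 0 ≤ (fun s => ν (Xa xa b s)) s := fun s => hν _
  have ht := tot_comp_invol ν (Xa xa b) hX
  have h1 := bit_continuity ν (fun s => ν (Xa xa b s)) hν hq ht.symm
    (fun s : AA × V n => cl n s.2 b) (fun s => (s.1, pfx b s.2)) (by rfl)
  have h2 := KK_comp_invol ν (Xa xa b) hX (fun s : AA × V n => cl n s.2 b)
    (fun s => (s.1, pfx b s.2))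
  have h3 : KK ν (fun s => cl n (Xa xa b s).2 b) (fun s => ((Xa xa b s).1, pfx b (Xa xa b s).2)) =
      KK ν (fun s => cl n s.2 b + cl n s.2 (b + 1)) (fun s => (s.1, pfx b s.2)) := by
    have e1 : (fun s : AA × V n => cl n (Xa xa b s).2 b) =
        (fun s => cl n s.2 b + cl n s.2 (b + 1)) := by
      funext s
      exact cl_rx1_self (by omega) s.2
    have e2 : (fun s : AA × V n => ((Xa xa b s).1, pfx b (Xa xa b s).2)) =
        (fun s => (xa b s.1, pfx b s.2)) := by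
      funext s
      simp only [Xa, pfx_rx1 b b le_rfl]
    rw [e1, e2]
    refine le_antisymm (KK_finer ν hν _ _ _ ?_) (KK_finer ν hν _ _ _ ?_)
    · intro s s' _ _ h
      simp only [Prod.mk.injEq] at h ⊢
      exact ⟨by rw [h.1], h.2⟩
    · intro s s' _ _ h
      simp only [Prod.mk.injEq] at h ⊢
      exact ⟨(hx b).injective h.1, h.2⟩
  rw [h2, h3] at h1
  have h4 := Fb_succ ν hν b
  have h5 := Fb_mono ν hν (Nat.le_succ (b + 1))
  have h6 := sum_bit_le ν hν b
  have hJ := JS36_nonneg ν (fun s => ν (Xa xa b s)) hν hq ht.symm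
  have h7 : Fb ν (b + 1).succ = Fb ν (b + 2) := rfl
  rw [h7] at h5
  refine h1.trans ?_
  refine mul_le_mul_of_nonneg_left (Real.sqrt_le_sqrt ?_) (by norm_num)
  refine mul_le_mul_of_nonneg_left ?_ hJ
  linarith

/-- (PROD) -/
theorem prod36 (B : ℕ) (hB : 0 < B) (xa : ℕ → AA → AA) (hx : ∀ b, Function.Involutive (xa b))
    (ν : AA × V n → ℝ) (hν : ∀ s, 0 ≤ ν s) :
    ∑ b ∈ range B, JSb xa ν b ≤ B * (K0 ν (fun s => s) - K0 (stp B xa ν) (fun s => s)) := by
  have hB' : (0 : ℝ) < B := by exact_mod_cast hB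
  have h1 : ∀ b ∈ range B, JSb xa ν b = K0 ν (fun s => s) -
      K0 (mid ν (fun s => ν (Xa xa b s))) (fun s => s) := by
    intro b _
    have hX := Xa_invol (n := n) xa hx b
    unfold JSb
    rw [JS36_eq ν _ hν (fun s => hν _) (tot_comp_invol ν (Xa xa b) hX).symm,
      K0_id_comp_invol ν hν (Xa xa b) hX]
    ring
  rw [Finset.sum_congr rfl h1, Finset.sum_sub_distrib, Finset.sum_const, Finset.card_range,
    nsmul_eq_mul, mul_sub]
  have h2 : K0 (stp B xa ν) (fun s => s) ≤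
      (1 / (B : ℝ)) * ∑ b ∈ range B, K0 (mid ν (fun s => ν (Xa xa b s))) (fun s => s) := by
    rw [stp_eq]
    unfold K0
    rw [KK_smul]
    refine mul_le_mul_of_nonneg_left ?_ (by positivity)
    exact KK_sum_le (range B) (fun b => mid ν (fun s => ν (Xa xa b s)))
      (fun b s => mid_nonneg _ _ hν (fun s => hν _) s) _ _
  have h3 := mul_le_mul_of_nonneg_left h2 hB'.le
  rw [← mul_assoc, mul_one_div_cancel hB'.ne', one_mul] at h3
  linarith

/-- the information of the whole row does not increase -/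
theorem Fn_anti (B : ℕ) (hB : 0 < B) (xa : ℕ → AA → AA) (hx : ∀ b, Function.Involutive (xa b))
    (ν : AA × V n → ℝ) (hν : ∀ s, 0 ≤ ν s) : Fb (stp B xa ν) n ≤ Fb ν n := by
  have hB' : (0 : ℝ) < B := by exact_mod_cast hB
  have h1 : ∀ b ∈ range B, KK (mid ν (fun s => ν (Xa xa b s))) (fun s => pfx n s.2)
      (fun s => s.1) ≤ Fb ν n := by
    intro b _
    have hX := Xa_invol (n := n) xa hx b
    have h2 := KK_mid_le ν (fun s => ν (Xa xa b s)) hν (fun s => hν _) (fun s => pfx n s.2)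
      (fun s => s.1)
    have h3 := KK_comp_invol ν (Xa xa b) hX (fun s : AA × V n => pfx n s.2) (fun s => s.1)
    have h4 : KK ν (fun s => pfx n (Xa xa b s).2) (fun s => (Xa xa b s).1) = Fb ν n := by
      unfold Fb
      have h5 : KK ν (fun s => pfx n (Xa xa b s).2) (fun s => (Xa xa b s).1) =
          KK ν (fun s => pfx n (Xa xa b s).2) (fun s => s.1) := by
        refine le_antisymm (KK_finer ν hν _ _ _ ?_) (KK_finer ν hν _ _ _ ?_)
        · intro s s' _ _ h
          simp only [Xa]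
          rw [h]
        · intro s s' _ _ h
          exact (hx b).injective h
      rw [h5]
      refine KK_bij ν hν (fun s => pfx n s.2) (fun s => pfx n (Xa xa b s).2) _
        (fun _ => (rx1_invol n b).toPerm) ?_
      intro s _
      simp only [Xa, pfx_self, Function.Involutive.coe_toPerm]
    rw [h3, h4] at h2
    have h6 : KK ν (fun s => pfx n s.2) (fun s => s.1) = Fb ν n := rfl
    rw [h6] at h2
    linarith
  have h2 : Fb (stp B xa ν) n ≤ (1 / (B : ℝ)) * ∑ b ∈ range B,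
      KK (mid ν (fun s => ν (Xa xa b s))) (fun s => pfx n s.2) (fun s => s.1) := by
    unfold Fb
    rw [stp_eq, KK_smul]
    refine mul_le_mul_of_nonneg_left ?_ (by positivity)
    exact KK_sum_le (range B) (fun b => mid ν (fun s => ν (Xa xa b s)))
      (fun b s => mid_nonneg _ _ hν (fun s => hν _) s) _ _
  refine h2.trans ?_
  have h3 := Finset.sum_le_sum h1
  rw [Finset.sum_const, Finset.card_range, nsmul_eq_mul] at h3
  calc (1 / (B : ℝ)) * _ ≤ (1 / (B : ℝ)) * (B * Fb ν n) :=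
        mul_le_mul_of_nonneg_left h3 (by positivity)
    _ = Fb ν n := by field_simp

/-- the law after `t` letters -/
noncomputable def nut (B : ℕ) (xa : ℕ → AA → AA) (ν : AA × V n → ℝ) (t : ℕ) : AA × V n → ℝ :=
  (stp B xa)^[t] ν

omit [Fintype AA] in
lemma nut_succ (B : ℕ) (xa : ℕ → AA → AA) (ν : AA × V n → ℝ) (t : ℕ) :
    nut B xa ν (t + 1) = stp B xa (nut B xa ν t) := by
  unfold nut
  rw [Function.iterate_succ_apply']

omit [Fintype AA] in
lemma nut_nonneg (B : ℕ) (xa : ℕ → AA → AA) (ν : AA × V n → ℝ) (hν : ∀ s, 0 ≤ ν s) (t : ℕ) :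
    ∀ s, 0 ≤ nut B xa ν t s := by
  induction t with
  | zero => exact hν
  | succ t ih =>
    rw [nut_succ]
    exact stp_nonneg B xa _ ih

lemma nut_Fn_anti (B : ℕ) (hB : 0 < B) (xa : ℕ → AA → AA) (hx : ∀ b, Function.Involutive (xa b))
    (ν : AA × V n → ℝ) (hν : ∀ s, 0 ≤ ν s) : Antitone fun t => Fb (nut B xa ν t) n := by
  refine antitone_nat_of_succ_le fun t => ?_
  show Fb (nut B xa ν (t + 1)) n ≤ Fb (nut B xa ν t) n
  rw [nut_succ]
  exact Fn_anti B hB xa hx _ (nut_nonneg B xa ν hν t)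

/-- one step: the sum over the bonds -/
lemma sum_Dl_le (B : ℕ) (hB : 0 < B) (hnB : n ≤ B) (xa : ℕ → AA → AA)
    (hx : ∀ b, Function.Involutive (xa b)) (ν : AA × V n → ℝ) (hν : ∀ s, 0 ≤ ν s) :
    ∑ b ∈ range (n - 1), Dl ν b ≤
      24 * Real.sqrt (B * (K0 ν (fun s => s) - K0 (stp B xa ν) (fun s => s))) *
        Real.sqrt (Fb ν n) := by
  have h1 : ∀ b ∈ range (n - 1), Dl ν b ≤
      12 * (Real.sqrt (JSb xa ν b) * Real.sqrt (2 * (Fb ν (b + 2) - Fb ν b))) := by
    intro b hb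
    have hb' : b + 1 < n := by
      have := Finset.mem_range.1 hb
      omega
    have h2 := Dl_le xa hx ν hν b hb'
    have hJ := JS36_nonneg ν (fun s => ν (Xa xa b s)) hν (fun s => hν _)
      (tot_comp_invol ν (Xa xa b) (Xa_invol xa hx b)).symm
    rwa [Real.sqrt_mul (show 0 ≤ JSb xa ν b from hJ)] at h2
  have h2 := Finset.sum_le_sum h1
  rw [← Finset.mul_sum] at h2
  have hJ0 : ∀ b, 0 ≤ JSb xa ν b := fun b =>
    JS36_nonneg ν (fun s => ν (Xa xa b s)) hν (fun s => hν _)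
      (tot_comp_invol ν (Xa xa b) (Xa_invol xa hx b)).symm
  have hg0 : ∀ b, 0 ≤ 2 * (Fb ν (b + 2) - Fb ν b) := fun b => by
    have := Fb_mono ν hν (show b ≤ b + 2 by omega)
    linarith
  have h3 := Real.sum_sqrt_mul_sqrt_le (range (n - 1)) hJ0 hg0
  have h4 : ∑ b ∈ range (n - 1), JSb xa ν b ≤
      B * (K0 ν (fun s => s) - K0 (stp B xa ν) (fun s => s)) := by
    refine le_trans ?_ (prod36 B hB xa hx ν hν)
    refine Finset.sum_le_sum_of_subset_of_nonneg ?_ fun b _ _ => hJ0 b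
    intro b hb
    rw [Finset.mem_range] at hb ⊢
    omega
  have h5 : ∑ b ∈ range (n - 1), 2 * (Fb ν (b + 2) - Fb ν b) ≤ 4 * Fb ν n := by
    rw [← Finset.mul_sum]
    have h6 : ∀ k, ∑ b ∈ range k, (Fb ν (b + 2) - Fb ν b) =
        Fb ν (k + 1) + Fb ν k - Fb ν 1 - Fb ν 0 := by
      intro k
      induction k with
      | zero => simp
      | succ k ih =>
        rw [Finset.sum_range_succ, ih]
        have : Fb ν (k + 2) = Fb ν (k + 1 + 1) := rfl
        rw [this]
        ring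
    rw [h6]
    have a1 := Fb_nonneg ν hν 1
    have a2 := Fb_nonneg ν hν 0
    rcases Nat.eq_zero_or_pos n with hn | hn
    · subst hn
      have a3 := Fb_mono ν hν (show 0 ≤ 1 by omega)
      show 2 * (Fb ν 1 + Fb ν 0 - Fb ν 1 - Fb ν 0) ≤ 4 * Fb ν 0
      linarith
    · have a3 : n - 1 + 1 = n := by omega
      rw [a3]
      have a4 := Fb_mono ν hν (show n - 1 ≤ n by omega)
      linarith
  have h6 : Real.sqrt (∑ b ∈ range (n - 1), JSb xa ν b) *
      Real.sqrt (∑ b ∈ range (n - 1), 2 * (Fb ν (b + 2) - Fb ν b)) ≤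
      Real.sqrt (B * (K0 ν (fun s => s) - K0 (stp B xa ν) (fun s => s))) *
        (2 * Real.sqrt (Fb ν n)) := by
    refine mul_le_mul (Real.sqrt_le_sqrt h4) ?_ (Real.sqrt_nonneg _) (Real.sqrt_nonneg _)
    refine (Real.sqrt_le_sqrt h5).trans (le_of_eq ?_)
    rw [Real.sqrt_mul (by norm_num)]
    congr 1
    rw [show (4 : ℝ) = 2 ^ 2 by norm_num, Real.sqrt_sq (by norm_num)]
  calc ∑ b ∈ range (n - 1), Dl ν b ≤ 12 * ∑ b ∈ range (n - 1),
        Real.sqrt (JSb xa ν b) * Real.sqrt (2 * (Fb ν (b + 2) - Fb ν b)) := h2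
    _ ≤ 12 * (Real.sqrt (B * (K0 ν (fun s => s) - K0 (stp B xa ν) (fun s => s))) *
        (2 * Real.sqrt (Fb ν n))) := by
        refine mul_le_mul_of_nonneg_left (h3.trans h6) (by norm_num)
    _ = _ := by ring

/-- **(UP)** upper bound for the drop -/
theorem up36 (B : ℕ) (hB : 0 < B) (hnB : n ≤ B) (xa : ℕ → AA → AA)
    (hx : ∀ b, Function.Involutive (xa b)) (ν : AA × V n → ℝ) (hν : ∀ s, 0 ≤ ν s) (S : ℕ) :
    ∑ t ∈ range S, (1 / (2 * (B : ℝ))) * (∑ b ∈ range (n - 1), Dl (nut B xa ν t) b +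
        (Fb ν n - Fb (nut B xa ν t) n)) ≤
      12 * Real.sqrt (((S : ℝ) / B) * Fb ν n *
        (K0 ν (fun s => s) - K0 (nut B xa ν S) (fun s => s))) +
      ((S : ℝ) / (2 * B)) * (Fb ν n - Fb (nut B xa ν S) n) := by
  have hB' : (0 : ℝ) < B := by exact_mod_cast hB
  set f := Fb ν n with hf
  have hf0 : 0 ≤ f := Fb_nonneg ν hν n
  set k : ℕ → ℝ := fun t => K0 (nut B xa ν t) (fun s => s) with hk
  have hanti := nut_Fn_anti B hB xa hx ν hν
  have h0 : nut B xa ν 0 = ν := rfl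
  have hft : ∀ t, Fb (nut B xa ν t) n ≤ f := fun t => by
    have := hanti (Nat.zero_le t)
    simp only [h0] at this
    exact this
  -- drops of the entropy are nonnegative
  have hdrop : ∀ t, 0 ≤ k t - k (t + 1) := by
    intro t
    have h1 := prod36 B hB xa hx (nut B xa ν t) (nut_nonneg B xa ν hν t)
    rw [← nut_succ] at h1
    have h2 : 0 ≤ ∑ b ∈ range B, JSb xa (nut B xa ν t) b := Finset.sum_nonneg fun b _ =>
      JS36_nonneg _ _ (nut_nonneg B xa ν hν t) (fun s => nut_nonneg B xa ν hν t _)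
        (tot_comp_invol _ (Xa xa b) (Xa_invol xa hx b)).symm
    have h3 : 0 ≤ (B : ℝ) * (k t - k (t + 1)) := h2.trans h1
    exact nonneg_of_mul_nonneg_right h3 hB'
  have hstep : ∀ t ∈ range S, (1 / (2 * (B : ℝ))) * (∑ b ∈ range (n - 1),
      Dl (nut B xa ν t) b + (f - Fb (nut B xa ν t) n)) ≤
      12 * (Real.sqrt (k t - k (t + 1)) * Real.sqrt (f / B)) +
        (1 / (2 * (B : ℝ))) * (f - Fb (nut B xa ν S) n) := by
    intro t ht
    have h1 := sum_Dl_le B hB hnB xa hx (nut B xa ν t) (nut_nonneg B xa ν hν t)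
    rw [← nut_succ] at h1
    have h2 : Fb (nut B xa ν S) n ≤ Fb (nut B xa ν t) n := hanti (Finset.mem_range.1 ht).le
    have h3 : Real.sqrt (Fb (nut B xa ν t) n) ≤ Real.sqrt f := Real.sqrt_le_sqrt (hft t)
    have h4 : ∑ b ∈ range (n - 1), Dl (nut B xa ν t) b ≤
        24 * (Real.sqrt B * Real.sqrt (k t - k (t + 1))) * Real.sqrt f := by
      refine h1.trans ?_
      rw [Real.sqrt_mul hB'.le]
      exact mul_le_mul_of_nonneg_left h3 (by positivity)
    have h5 : (1 / (2 * (B : ℝ))) * (24 * (Real.sqrt B * Real.sqrt (k t - k (t + 1))) *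
        Real.sqrt f) = 12 * (Real.sqrt (k t - k (t + 1)) * Real.sqrt (f / B)) := by
      rw [Real.sqrt_div hf0]
      have hs0 : Real.sqrt B ≠ 0 := (Real.sqrt_pos.2 hB').ne'
      field_simp
      rw [Real.sq_sqrt hB'.le]
      ring
    rw [mul_add]
    refine add_le_add ?_ ?_
    · rw [← h5]
      exact mul_le_mul_of_nonneg_left h4 (by positivity)
    · refine mul_le_mul_of_nonneg_left ?_ (by positivity)
      linarith
  refine (Finset.sum_le_sum hstep).trans ?_
  rw [Finset.sum_add_distrib, ← Finset.mul_sum, Finset.sum_const, Finset.card_range, nsmul_eq_mul]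
  refine add_le_add ?_ (le_of_eq (by ring))
  refine mul_le_mul_of_nonneg_left ?_ (by norm_num)
  have h6 := Real.sum_sqrt_mul_sqrt_le (range S) hdrop (fun _ => div_nonneg hf0 hB'.le)
  refine h6.trans (le_of_eq ?_)
  have h7 : ∑ t ∈ range S, (k t - k (t + 1)) = k 0 - k S := Finset.sum_range_sub' k S
  rw [h7, Finset.sum_const, Finset.card_range, nsmul_eq_mul]
  have hkS : 0 ≤ k 0 - k S := by
    rw [← h7]
    exact Finset.sum_nonneg fun t _ => hdrop t
  rw [← Real.sqrt_mul hkS]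
  congr 1
  show (k 0 - k S) * ((S : ℝ) * (f / B)) = ((S : ℝ) / B) * f * (k 0 - k S)
  ring

end Up

end Up36

end Pool.Agent.CutSeq.NJ
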