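import Pool.Agent.NJ.LocDefs

/-!
S19271 / NJ, row VT, first part: the relations of the list are, up to a tiny error, inside a space which is a
function of the history and is decoded from more siblings.  Assembly of LB (the list is short), RB
(robust statistic) and DC (decoding).
-/

set_option autoImplicit false

namespace Pool.Agent.NJ

open Finset Pool.Agent.CutSeq

variable {H A : Type*} [Fintype H] [Fintype A] {n t : ℕ} (S : Loc H A n t)

/-- number of relations of the list: the good ones lie in a space -/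
theorem vt_card {n : ℕ} (T' : Submodule (ZMod 2) (V n)) (P Q : V n → Prop)
    (h : ∀ a, P a → a ∈ T' ∨ Q a) :
    Real.log (Nat.card {a : V n // P a})
      ≤ Real.log 2 * (Module.finrank (ZMod 2) T' : ℝ) + (Nat.card {a : V n // Q a} : ℝ) := by
  classical
  have h1 : Nat.card {a : V n // P a} ≤ Nat.card T' + Nat.card {a : V n // Q a} := by
    have h2 : Nat.card {a : V n // P a} ≤ Nat.card (T' ⊕ {a : V n // Q a}) := by
      refine Nat.card_le_card_of_injective
        (fun a : {a : V n // P a} => if hT : a.1 ∈ T' then Sum.inl ⟨a.1, hT⟩ else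
          Sum.inr ⟨a.1, (h a.1 a.2).resolve_left hT⟩) ?_
      intro a b hab
      apply Subtype.ext
      by_cases ha : a.1 ∈ T'
      · by_cases hb : b.1 ∈ T'
        · simp only [ha, hb, dif_pos, Sum.inl.injEq, Subtype.mk.injEq] at hab
          exact hab
        · simp only [ha, hb, dif_pos, dif_neg, not_false_eq_true, reduceCtorEq] at hab
      · by_cases hb : b.1 ∈ T'
        · simp only [ha, hb, dif_pos, dif_neg, not_false_eq_true, reduceCtorEq] at hab
        · simp only [ha, hb, dif_neg, not_false_eq_true, Sum.inr.injEq, Subtype.mk.injEq] at hab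
          exact hab
    rwa [Nat.card_sum] at h2
  have h3 : (Nat.card T' : ℝ) = 2 ^ Module.finrank (ZMod 2) T' := by
    have := Module.natCard_eq_pow_finrank (K := ZMod 2) (V := T')
    rw [this]
    simp
  have h4 : (0 : ℝ) < Nat.card T' := by rw [h3]; positivity
  have h4' : (1 : ℝ) ≤ Nat.card T' := by rw [h3]; exact one_le_pow₀ (by norm_num)
  have h5 : Real.log 2 * (Module.finrank (ZMod 2) T' : ℝ) = Real.log (Nat.card T') := by
    rw [h3, Real.log_pow]
    ring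
  rw [h5]
  rcases Nat.eq_zero_or_pos (Nat.card {a : V n // P a}) with h0 | h0
  · rw [h0]
    simp only [Nat.cast_zero, Real.log_zero]
    have := Real.log_nonneg h4'
    positivity
  · have h6 : (0 : ℝ) < Nat.card {a : V n // P a} := by exact_mod_cast h0
    have h7 : (Nat.card {a : V n // P a} : ℝ) ≤ Nat.card T' + (Nat.card {a : V n // Q a} : ℝ) := by
      exact_mod_cast h1
    have h8 : (Nat.card {a : V n // P a} : ℝ)
        ≤ Nat.card T' * (1 + (Nat.card {a : V n // Q a} : ℝ)) := by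
      have h9 : (0 : ℝ) ≤ Nat.card {a : V n // Q a} := Nat.cast_nonneg _
      nlinarith
    refine (Real.log_le_log h6 h8).trans ?_
    rw [Real.log_mul h4.ne' (by positivity)]
    have h10 : Real.log (1 + (Nat.card {a : V n // Q a} : ℝ)) ≤ (Nat.card {a : V n // Q a} : ℝ) := by
      have := Real.log_le_sub_one_of_pos (x := 1 + (Nat.card {a : V n // Q a} : ℝ)) (by positivity)
      linarith
    linarith

/-- trivial bound of the logarithm -/
theorem vt_log {n : ℕ} (P : V n → Prop) :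
    Real.log (Nat.card {a : V n // P a}) ≤ n * Real.log 2 := by
  classical
  rcases Nat.eq_zero_or_pos (Nat.card {a : V n // P a}) with h0 | h0
  · rw [h0]
    simp only [Nat.cast_zero, Real.log_zero]
    positivity
  · have h6 : (0 : ℝ) < Nat.card {a : V n // P a} := by exact_mod_cast h0
    have h7 : Nat.card {a : V n // P a} ≤ Nat.card (V n) := Nat.card_le_card_of_injective
      (fun a : {a : V n // P a} => a.1) Subtype.val_injective
    have h8 : (Nat.card {a : V n // P a} : ℝ) ≤ Fintype.card (V n) := by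
      rw [Nat.card_eq_fintype_card (α := V n)] at h7
      exact_mod_cast h7
    refine (Real.log_le_log h6 h8).trans (le_of_eq ?_)
    exact log_card_V n

/-- the decoding error -/
theorem vt_num1 (s : ℕ) (hs : 2 ≤ s) :
    2 ^ (s + 5) * (1 / 2 : ℝ) ^ (24 * s) * ((2 ^ (6 * s) : ℕ) : ℝ) ^ 2 / ((1 / 2) ^ (3 * s)) ^ 2
      + 2 ^ (s + 1) * (1 / 2) ^ (24 * s) / (1 / 2) ^ (3 * s)
      + 2 ^ s * (1 / 2) ^ (3 * s) + 2 ^ s / ((1 / 2) ^ (3 * s) * ((2 ^ (6 * s) : ℕ) : ℝ))
      + 2 ^ (1 + 5) * (1 / 2) ^ (24 * s) ≤ 16 * (1 / 4) ^ s := by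
  obtain ⟨x, hx⟩ : ∃ x : ℝ, x = (2 : ℝ) ^ s := ⟨_, rfl⟩
  have hx4 : 4 ≤ x := by
    rw [hx]
    calc (4 : ℝ) = 2 ^ 2 := by norm_num
      _ ≤ 2 ^ s := pow_le_pow_right₀ (by norm_num) hs
  have hx0 : 0 < x := by linarith
  have e1 : (1 / 2 : ℝ) ^ (24 * s) = 1 / x ^ 24 := by
    rw [hx, one_div, inv_pow, one_div, ← pow_mul]
    congr 2
    ring
  have e2 : (1 / 2 : ℝ) ^ (3 * s) = 1 / x ^ 3 := by
    rw [hx, one_div, inv_pow, one_div, ← pow_mul]
    congr 2
    ring
  have e3 : (1 / 4 : ℝ) ^ s = 1 / x ^ 2 := by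
    rw [hx, one_div, inv_pow, one_div, ← pow_mul, mul_comm s 2, pow_mul]
    norm_num
  have e4 : ((2 ^ (6 * s) : ℕ) : ℝ) = x ^ 6 := by
    push_cast
    rw [hx, ← pow_mul]
    congr 1
    ring
  have e5 : (2 : ℝ) ^ (s + 5) = 32 * x := by rw [hx, pow_add]; ring
  have e6 : (2 : ℝ) ^ (s + 1) = 2 * x := by rw [hx, pow_add]; ring
  rw [e1, e2, e3, e4, e5, e6, ← hx]
  have f1 : 32 * x * (1 / x ^ 24) * (x ^ 6) ^ 2 / (1 / x ^ 3) ^ 2 = 32 * (1 / x ^ 5) := by
    field_simp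
  have f2 : 2 * x * (1 / x ^ 24) / (1 / x ^ 3) = 2 * (1 / x ^ 20) := by
    field_simp
  have f3 : x * (1 / x ^ 3) = 1 / x ^ 2 := by
    field_simp
  have f4 : x / (1 / x ^ 3 * x ^ 6) = 1 / x ^ 2 := by
    field_simp
  have f5 : (2 : ℝ) ^ (1 + 5) = 64 := by norm_num
  rw [f1, f2, f3, f4, f5]
  have g : ∀ m : ℕ, 1 / x ^ (m + 2) ≤ (1 / 4) ^ m * (1 / x ^ 2) := by
    intro m
    rw [pow_add, ← one_div_mul_one_div]
    refine mul_le_mul_of_nonneg_right ?_ (by positivity)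
    rw [one_div_pow]
    exact one_div_le_one_div_of_le (by positivity) (pow_le_pow_left₀ (by norm_num) hx4 m)
  have g1 := g 3
  have g2 := g 18
  have g3 := g 22
  have g4 : 0 < (x ^ 2)⁻¹ := by positivity
  norm_num at g1 g2 g3 ⊢
  linarith

/-- the error of the list sum -/
theorem vt_num2 (s k n : ℕ) (hs : 2 ≤ s) (hks : k + 1 ≤ s) (hn : n ≤ 2 ^ s) (θ : ℝ)
    (h1 : (1 / 2 : ℝ) ^ (3 * s) ≤ θ) (h2 : θ ≤ 2 * (1 / 2) ^ (3 * s)) (q : ℝ)
    (hq : q ≤ 2 ^ (1 + 5) * (1 / 2) ^ (24 * s)) :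
    2 ^ s * (1 / 2) ^ (24 * s) + 2 ^ (s + 1) * θ + 2 ^ s * (1 / 2) ^ (24 * s) / θ + 2 ^ s * q
      + n * Real.log 2 * (2 ^ (k + 5) * (1 / 2) ^ (24 * s)) ≤ 16 * (1 / 4) ^ s := by
  obtain ⟨x, hx⟩ : ∃ x : ℝ, x = (2 : ℝ) ^ s := ⟨_, rfl⟩
  have hx4 : 4 ≤ x := by
    rw [hx]
    calc (4 : ℝ) = 2 ^ 2 := by norm_num
      _ ≤ 2 ^ s := pow_le_pow_right₀ (by norm_num) hs
  have hx0 : 0 < x := by linarith
  have e1 : (1 / 2 : ℝ) ^ (24 * s) = 1 / x ^ 24 := by
    rw [hx, one_div, inv_pow, one_div, ← pow_mul]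
    congr 2
    ring
  have e2 : (1 / 2 : ℝ) ^ (3 * s) = 1 / x ^ 3 := by
    rw [hx, one_div, inv_pow, one_div, ← pow_mul]
    congr 2
    ring
  have e3 : (1 / 4 : ℝ) ^ s = 1 / x ^ 2 := by
    rw [hx, one_div, inv_pow, one_div, ← pow_mul, mul_comm s 2, pow_mul]
    norm_num
  have e6 : (2 : ℝ) ^ (s + 1) = 2 * x := by rw [hx, pow_add]; ring
  have e7 : (2 : ℝ) ^ (k + 5) ≤ 16 * x := by
    calc (2 : ℝ) ^ (k + 5) ≤ 2 ^ (s + 4) := pow_le_pow_right₀ (by norm_num) (by omega)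
      _ = 16 * x := by rw [hx, pow_add]; ring
  have e8 : (n : ℝ) ≤ x := by
    rw [hx]
    exact_mod_cast hn
  have hn0 : (0 : ℝ) ≤ n := Nat.cast_nonneg n
  have hl0 : 0 ≤ Real.log 2 := Real.log_nonneg (by norm_num)
  have hl1 : Real.log 2 ≤ 1 := by
    have := Real.log_le_sub_one_of_pos (x := 2) (by norm_num)
    linarith
  rw [e1] at hq
  rw [e2] at h1 h2
  rw [e1, e3, e6, ← hx]
  have hθ0 : 0 < θ := lt_of_lt_of_le (by positivity) h1
  have g : ∀ m : ℕ, 1 / x ^ (m + 2) ≤ (1 / 4) ^ m * (1 / x ^ 2) := by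
    intro m
    rw [pow_add, ← one_div_mul_one_div]
    refine mul_le_mul_of_nonneg_right ?_ (by positivity)
    rw [one_div_pow]
    exact one_div_le_one_div_of_le (by positivity) (pow_le_pow_left₀ (by norm_num) hx4 m)
  have f1 : x * (1 / x ^ 24) = 1 / x ^ 23 := by field_simp
  have f2 : 2 * x * θ ≤ 4 * (1 / x ^ 2) := by
    calc 2 * x * θ ≤ 2 * x * (2 * (1 / x ^ 3)) := mul_le_mul_of_nonneg_left h2 (by positivity)
      _ = 4 * (1 / x ^ 2) := by
        field_simp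
        ring
  have f3 : x * (1 / x ^ 24) / θ ≤ 1 / x ^ 20 := by
    calc x * (1 / x ^ 24) / θ ≤ x * (1 / x ^ 24) / (1 / x ^ 3) :=
        div_le_div_of_nonneg_left (by positivity) (by positivity) h1
      _ = 1 / x ^ 20 := by field_simp
  have f4 : x * q ≤ 64 * (1 / x ^ 23) := by
    calc x * q ≤ x * (2 ^ (1 + 5) * (1 / x ^ 24)) := mul_le_mul_of_nonneg_left hq hx0.le
      _ = 64 * (1 / x ^ 23) := by
        field_simp
        norm_num
  have f5 : n * Real.log 2 * (2 ^ (k + 5) * (1 / x ^ 24)) ≤ 16 * (1 / x ^ 22) := by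
    calc n * Real.log 2 * (2 ^ (k + 5) * (1 / x ^ 24))
        ≤ x * 1 * (16 * x * (1 / x ^ 24)) := by
          refine mul_le_mul (mul_le_mul e8 hl1 hl0 hx0.le) ?_ (by positivity) (by positivity)
          exact mul_le_mul_of_nonneg_right e7 (by positivity)
      _ = 16 * (1 / x ^ 22) := by field_simp
  have g1 := g 21
  have g2 := g 18
  have g3 := g 20
  have g4 : 0 < (x ^ 2)⁻¹ := by positivity
  rw [f1] at f3 ⊢
  norm_num at f2 f3 f4 f5 g1 g2 g3 ⊢
  linarith

open Classical in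
/-- VT, from LB (twice), RB and DC -/
theorem Loc.visible_of41 (w : H → ℝ) (hw : ∀ h, 0 ≤ w h) (i j k s : ℕ) (hs : 2 ≤ s)
    (hks : k + 1 ≤ s) (hn : n ≤ 2 ^ s)
    (hlong1 : pr (pw w (Co t (i + 24 * s) (j + 24 * s)))
      {p | 2 ^ s < Nat.card (S.ls w (i + 24 * s) (j + 24 * s) 1
        (S.dat (i + 24 * s) (j + 24 * s) p))} ≤ 2 ^ (1 + 5) * (1 / 2) ^ (24 * s))
    (hlong2 : pr (pw w (Co t i j)) {p | 2 ^ s < Nat.card (S.ls w i j k (S.dat i j p))}
      ≤ 2 ^ (k + 5) * (1 / 2) ^ (24 * s))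
    (hrobust : ∀ θ : ℝ, 0 < θ →
      ∑ p, pw w (Co t i j) p * (Nat.card {a : V n // a ∈ perp (S.TC p.1) ∧
        a ∈ S.cl w i j k s (S.dat i j p) ∧ S.pa w i j k s p.1 a < θ} : ℝ)
      ≤ 2 ^ s * (1 / 2) ^ (24 * s) + 2 ^ (s + 1) * θ + 2 ^ s * (1 / 2) ^ (24 * s) / θ
        + 2 ^ s * pr (pw w (Co t (i + 24 * s) (j + 24 * s)))
          {p | 2 ^ s < Nat.card (S.ls w (i + 24 * s) (j + 24 * s) 1
            (S.dat (i + 24 * s) (j + 24 * s) p))})
    (hdecode : ∃ θ : ℝ, (1 / 2) ^ (3 * s) ≤ θ ∧ θ ≤ 2 * (1 / 2) ^ (3 * s) ∧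
      ∃ Dec : A × (Fin (i + 24 * s) → V n) × (Fin (j + 24 * s + 3 * s) → V n) →
          Submodule (ZMod 2) (V n),
        pr (pw w (Co t (i + 24 * s) (j + 24 * s + 3 * s)))
          {p | Dec (S.dat (i + 24 * s) (j + 24 * s + 3 * s) p) ≠ S.rob w i j k s θ p.1}
        ≤ 2 ^ (s + 5) * (1 / 2) ^ (24 * s) * ((2 ^ (6 * s) : ℕ) : ℝ) ^ 2 / ((1 / 2) ^ (3 * s)) ^ 2
          + 2 ^ (s + 1) * (1 / 2) ^ (24 * s) / (1 / 2) ^ (3 * s)
          + 2 ^ s * (1 / 2) ^ (3 * s) + 2 ^ s / ((1 / 2) ^ (3 * s) * ((2 ^ (6 * s) : ℕ) : ℝ))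
          + pr (pw w (Co t (i + 24 * s) (j + 24 * s)))
            {p | 2 ^ s < Nat.card (S.ls w (i + 24 * s) (j + 24 * s) 1
              (S.dat (i + 24 * s) (j + 24 * s) p))}) :
    ∃ T' : H → Submodule (ZMod 2) (V n), (∀ h, T' h ≤ perp (S.TC h)) ∧
      (∑ p, pw w (Co t i j) p * Real.log (Nat.card {a : V n // a ∈ perp (S.TC p.1) ∧
          a ∈ lst (pw w (Co t i j)) (fun p => S.TC p.1) (S.dat i j) k (S.dat i j p)})
        ≤ Real.log 2 * ∑ h, w h * (Module.finrank (ZMod 2) (T' h) : ℝ) + 16 * (1 / 4) ^ s) ∧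
      ∃ Dec : A × (Fin (i + 24 * s) → V n) × (Fin (j + 24 * s + 3 * s) → V n) →
          Submodule (ZMod 2) (V n),
        pr (pw w (Co t (i + 24 * s) (j + 24 * s + 3 * s)))
          {p | Dec (S.dat (i + 24 * s) (j + 24 * s + 3 * s) p) ≠ T' p.1} ≤ 16 * (1 / 4) ^ s := by
  have hθ0 : (0 : ℝ) < (1 / 2) ^ (3 * s) := by positivity
  obtain ⟨θ, hθ1, hθ2, Dec, hDec⟩ := hdecode
  have hθpos : 0 < θ := lt_of_lt_of_le hθ0 hθ1
  refine ⟨fun h => S.rob w i j k s θ h, ?_, ?_, Dec, ?_⟩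
  · intro h
    unfold Loc.rob
    rw [Submodule.span_le]
    rintro a ⟨ha, -⟩
    exact ha
  · -- the list sum
    have hrob := hrobust θ hθpos
    have hpt : ∀ p : H × Co t i j, Real.log (Nat.card {a : V n // a ∈ perp (S.TC p.1) ∧
          a ∈ lst (pw w (Co t i j)) (fun p => S.TC p.1) (S.dat i j) k (S.dat i j p)})
        ≤ Real.log 2 * (Module.finrank (ZMod 2) (S.rob w i j k s θ p.1) : ℝ)
          + (Nat.card {a : V n // a ∈ perp (S.TC p.1) ∧
            a ∈ S.cl w i j k s (S.dat i j p) ∧ S.pa w i j k s p.1 a < θ} : ℝ)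
          + n * Real.log 2 *
            (if p ∈ {p | 2 ^ s < Nat.card (S.ls w i j k (S.dat i j p))} then 1 else 0) := by
      intro p
      by_cases hp : 2 ^ s < Nat.card (S.ls w i j k (S.dat i j p))
      · rw [if_pos (show p ∈ {p | 2 ^ s < Nat.card (S.ls w i j k (S.dat i j p))} from hp), mul_one]
        refine (vt_log _).trans ?_
        have : 0 ≤ Real.log 2 * (Module.finrank (ZMod 2) (S.rob w i j k s θ p.1) : ℝ)
          + (Nat.card {a : V n // a ∈ perp (S.TC p.1) ∧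
            a ∈ S.cl w i j k s (S.dat i j p) ∧ S.pa w i j k s p.1 a < θ} : ℝ) := by positivity
        linarith
      · rw [if_neg (show p ∉ {p | 2 ^ s < Nat.card (S.ls w i j k (S.dat i j p))} from hp), mul_zero,
          add_zero]
        refine vt_card (S.rob w i j k s θ p.1) _ _ ?_
        rintro a ⟨ha1, ha2⟩
        by_cases hpa : S.pa w i j k s p.1 a < θ
        · right
          refine ⟨ha1, ?_, hpa⟩
          unfold Loc.cl
          rw [if_pos (not_lt.1 hp)]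
          exact ha2
        · left
          exact Submodule.subset_span ⟨ha1, not_lt.1 hpa⟩
    have hsum := Finset.sum_le_sum (s := Finset.univ) fun (p : H × Co t i j) _ =>
      mul_le_mul_of_nonneg_left (hpt p) (pw_nonneg (C := Co t i j) w hw p)
    have hdim : ∑ p : H × Co t i j, pw w (Co t i j) p *
        (Module.finrank (ZMod 2) (S.rob w i j k s θ p.1) : ℝ)
        = ∑ h, w h * (Module.finrank (ZMod 2) (S.rob w i j k s θ h) : ℝ) := by
      rw [sum_pw w (fun h (_ : Co t i j) => (Module.finrank (ZMod 2) (S.rob w i j k s θ h) : ℝ))]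
      refine Finset.sum_congr rfl fun h _ => ?_
      rw [Finset.sum_const, Finset.card_univ, nsmul_eq_mul, mul_div_assoc, mul_comm
        (Fintype.card (Co t i j) : ℝ), div_mul_cancel₀]
      exact_mod_cast Fintype.card_ne_zero
    have hpr : ∑ p : H × Co t i j, pw w (Co t i j) p *
        (if p ∈ {p | 2 ^ s < Nat.card (S.ls w i j k (S.dat i j p))} then (1 : ℝ) else 0)
        = pr (pw w (Co t i j)) {p | 2 ^ s < Nat.card (S.ls w i j k (S.dat i j p))} := by
      rw [pr_eq_sum]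
      refine Finset.sum_congr rfl fun p _ => ?_
      split
      · rw [mul_one]
      · rw [mul_zero]
    have hsplit : ∑ p : H × Co t i j, pw w (Co t i j) p *
        (Real.log 2 * (Module.finrank (ZMod 2) (S.rob w i j k s θ p.1) : ℝ)
          + (Nat.card {a : V n // a ∈ perp (S.TC p.1) ∧
            a ∈ S.cl w i j k s (S.dat i j p) ∧ S.pa w i j k s p.1 a < θ} : ℝ)
          + n * Real.log 2 *
            (if p ∈ {p | 2 ^ s < Nat.card (S.ls w i j k (S.dat i j p))} then 1 else 0))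
        = Real.log 2 * (∑ h, w h * (Module.finrank (ZMod 2) (S.rob w i j k s θ h) : ℝ))
          + (∑ p : H × Co t i j, pw w (Co t i j) p * (Nat.card {a : V n // a ∈ perp (S.TC p.1) ∧
            a ∈ S.cl w i j k s (S.dat i j p) ∧ S.pa w i j k s p.1 a < θ} : ℝ))
          + n * Real.log 2 *
            pr (pw w (Co t i j)) {p | 2 ^ s < Nat.card (S.ls w i j k (S.dat i j p))} := by
      rw [← hdim, ← hpr, Finset.mul_sum, Finset.mul_sum, ← Finset.sum_add_distrib,
        ← Finset.sum_add_distrib]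
      refine Finset.sum_congr rfl fun p _ => ?_
      ring
    rw [hsplit] at hsum
    refine hsum.trans ?_
    have hnum2 := vt_num2 s k n hs hks hn θ hθ1 hθ2 _ hlong1
    have h9 : n * Real.log 2 *
          pr (pw w (Co t i j)) {p | 2 ^ s < Nat.card (S.ls w i j k (S.dat i j p))}
        ≤ n * Real.log 2 * (2 ^ (k + 5) * (1 / 2) ^ (24 * s)) :=
      mul_le_mul_of_nonneg_left hlong2 (by positivity)
    linarith
  · have hnum1 := vt_num1 s hs
    linarith

end Pool.Agent.NJ
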