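import Pool.Agent.NJ.Loc50
import Pool.Agent.NJ.Defs84

/-!
S19271 / NJ (helper50): the standard window `[1, 1 + n)` of the letter model with `B` bonds, its
rotations, weights and systems of weights (cyclic: the bonds are `0, ..., B - 1`, arcs = rotations of
the standard window).
-/

set_option autoImplicit false

namespace Pool.Agent.NJ

open Finset Pool.Agent.CutSeq Pool.Agent.CutSeq.NJ

variable {B L : ℕ}

/-- what the window `[1, 1 + n)` sees of a letter: inner bonds `1, ..., n - 1` with the coin, boundary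
bonds `0` and `n` without the coin, everything else as the letter `(B - 1, 0)` -/
def hl (n : ℕ) (p : Fin B × ZMod 2) : Fin B × ZMod 2 :=
  if 1 ≤ p.1.val ∧ p.1.val < n then p
  else if p.1.val = 0 ∨ p.1.val = n then (p.1, 0)
  else (⟨B - 1, by have := p.1.isLt; omega⟩, 0)

/-- history of the standard window of size `n` (again a word) -/
def hst (n : ℕ) (ω : Wd B L) : Wd B L := fun l => hl n (ω l)

/-- local structure of the standard window -/
def locW (B L n : ℕ) : Loc (Wd B L) (Un n) n L where
  m h := wm (ext h) L 1 n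
  R h r := if (ext h r.val).1 = n then lowW (ext h) r.val 1 n else 0
  C h r := if (ext h r.val).1 = 0 then colV (ext h) L r.val 1 n else 0
  Q h r r' := if (ext h r.val).1 = n ∧ (ext h r'.val).1 = 0 ∧ r'.val < r.val then
    Mst (shift (ext h) (r'.val + 1)) (r.val - (r'.val + 1)) n 1 else 0

/-- image of a weight on the histories -/
noncomputable def push (n : ℕ) (v : Wd B L → ℝ) : Wd B L → ℝ := fun h => mass v (hst n) h

/-- rotation down by `c`: the arc starting `c` levels higher becomes the standard window -/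
def rt (c : ℕ) (ω : Wd B L) : Wd B L := (tau B L).symm^[c] ω

/-- rotation up by `c` -/
def ru (c : ℕ) (ω : Wd B L) : Wd B L := (tau B L)^[c] ω

/-- reflection of the standard window of size `n` -/
def refW (n : ℕ) (ω : Wd B L) : Wd B L := rt (B - 1 - n) (rho B L ω)

/-- a system of weights: `W n` is an event of the history of the standard window of size `n` -/
structure Sys (B L n₀ : ℕ) (W : ℕ → Set (Wd B L)) : Prop where
  lev : ∀ n ≤ n₀, ∀ ω ω', hst n ω = hst n ω' → (ω ∈ W n ↔ ω' ∈ W n)
  refl : ∀ n ≤ n₀, ∀ ω, refW n ω ∈ W n ↔ ω ∈ W n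
  up : ∀ n < n₀, W (n + 1) ⊆ W n
  dn : ∀ n < n₀, ∀ ω ∈ W (n + 1), rt 1 ω ∈ W n

/-- entropy of the true array of the standard window -/
noncomputable def KW (W : ℕ → Set (Wd B L)) (n : ℕ) : ℝ :=
  K0 (ind (W n) (uw B L)) (fun ω => wm (ext ω) L 1 n)

/-- probability that some arc of size `n` is bad -/
noncomputable def bad (W : ℕ → Set (Wd B L)) (n : ℕ) : ℝ :=
  pr (uw B L) {ω | ∃ c < B, rt c ω ∉ W n}

/-- broom entropies under the weights -/
noncomputable def UW (W : ℕ → Set (Wd B L)) (n i j : ℕ) : ℝ :=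
  (locW B L n).U (push n (ind (W n) (uw B L))) i j

/-- extended broom entropies under the weights -/
noncomputable def EW (W : ℕ → Set (Wd B L)) (n i j : ℕ) : ℝ :=
  (locW B L n).E (push n (ind (W n) (uw B L))) i j

/-- conditional probability of an event given the history of the standard window -/
noncomputable def cpr (n : ℕ) (G : Set (Wd B L)) (ω : Wd B L) : ℝ :=
  mass (ind G (uw B L)) (hst n) (hst n ω) / mass (uw B L) (hst n) (hst n ω)

/-- the outer window of size `n₀` is good and its array has log density at most `y` -/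
def EK (W : ℕ → Set (Wd B L)) (n₀ : ℕ) (y : ℝ) : Set (Wd B L) :=
  {ω | ω ∈ W n₀ ∧ ld (ind (W n₀) (uw B L)) (fun ω => wm (ext ω) L 1 n₀) (wm (ext ω) L 1 n₀) ≤ y}

/-- good history of the standard window: every broom which fits has a good outer window which is not
too improbable -/
def gd (W : ℕ → Set (Wd B L)) (n₀ n₁ δ : ℕ) (y e : ℝ) (n : ℕ) : Set (Wd B L) :=
  {ω | ∀ i j : ℕ, n + i + j ≤ n₁ → ∃ c : ℕ, j + δ ≤ c ∧ c + n + i + δ ≤ n₀ ∧
    e ≤ cpr n {ω' | ru c ω' ∈ EK W n₀ y} ω}

/-- the new weights -/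
def nw (W : ℕ → Set (Wd B L)) (n₀ n₁ δ : ℕ) (y e : ℝ) (n : ℕ) : Set (Wd B L) :=
  {ω | ω ∈ W n ∧ ∀ c n' : ℕ, c + n' ≤ n → rt c ω ∈ gd W n₀ n₁ δ y e n'}

end Pool.Agent.NJ
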