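import Pool.Agent.CutSeq.Ent

/-!
S19271 / NJ, the weights (helper19): windows, histories, good events of the stages.

`Win Ω` is an abstract environment of windows: index type with inclusion `le`, histories `S`,
observables `m` with restriction maps of constant fibre size.  A *system* `G` is a family of events,
`G J` determined by the history of `J` and decreasing in `J`.  `WNext` is the system of the next stage:
`ω` is in `WNext J` if it is in `G J` and no window inside `J` is bad; `J'` is bad if for some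
admissible `K` around `J'` the event `WEE K` (the density of the observable of `K` under `G K` is at
most `exp κ`) has conditional probability less than `ε` given the history of `J'`.

* `next_sys` : `WNext` is a system;
* `wloss` : the probability lost in a stage (three union bounds);
* `wmarkov` : the probability of a new bad window;
* `tilt_*` : the weight `R = 1_B 1_{WEE K} / P(WEE K | h_J)`;
* `next_equiv` : equivariance.
-/

set_option autoImplicit false

namespace Pool.Agent.NJ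

open Finset Pool.Agent.CutSeq

/-- windows, histories, observables -/
structure Win (Ω : Type) where
  /-- windows -/
  ι : Type
  finι : Fintype ι
  /-- inclusion -/
  le : ι → ι → Prop
  refl : ∀ J, le J J
  trans : ∀ J K L, le J K → le K L → le J L
  /-- same history -/
  S : ι → Ω → Ω → Prop
  eqv : ∀ J, Equivalence (S J)
  mono : ∀ J K, le J K → ∀ ω ω', S K ω ω' → S J ω ω'
  /-- values of the observables -/
  A : ι → Type
  finA : ∀ J, Fintype (A J)
  /-- observables -/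
  m : (J : ι) → Ω → A J
  meas : ∀ J ω ω', S J ω ω' → m J ω = m J ω'
  /-- restriction -/
  res : (J K : ι) → A K → A J
  hres : ∀ J K, le J K → ∀ ω, res J K (m K ω) = m J ω
  hcard : ∀ J K, le J K → ∀ a : A J, Nat.card {x // res J K x = a} * Nat.card (A J) = Nat.card (A K)

attribute [instance] Win.finι Win.finA

variable {Ω : Type} [Fintype Ω]

/-- determined by the history of `J` -/
def WSat (W : Win Ω) (J : W.ι) (G : Set Ω) : Prop := ∀ ω ω', W.S J ω ω' → (ω ∈ G ↔ ω' ∈ G)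

/-- a system of events -/
structure WSys (W : Win Ω) (G : W.ι → Set Ω) : Prop where
  sat : ∀ J, WSat W J (G J)
  dec : ∀ J K, W.le J K → G K ⊆ G J

/-- conditional probability given the history of `J` -/
noncomputable def wcnd (W : Win Ω) (w : Ω → ℝ) (J : W.ι) (E : Set Ω) (ω : Ω) : ℝ :=
  pr w (E ∩ {ω' | W.S J ω ω'}) / pr w {ω' | W.S J ω ω'}

/-- density of the observable of `K` under the restriction to `G` -/
noncomputable def wdens (W : Win Ω) (w : Ω → ℝ) (G : Set Ω) (K : W.ι) (ω : Ω) : ℝ :=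
  (Fintype.card (W.A K) : ℝ) * mass (ind G w) (W.m K) (W.m K ω)

/-- the density is small -/
def WEE (W : Win Ω) (w : Ω → ℝ) (G : W.ι → Set Ω) (κ : ℝ) (K : W.ι) : Set Ω :=
  {ω | ω ∈ G K ∧ Real.log (wdens W w (G K) K ω) ≤ κ}

/-- bad windows -/
def WBad (W : Win Ω) (w : Ω → ℝ) (G : W.ι → Set Ω) (adm : W.ι → Prop) (κ ε : ℝ) (J : W.ι) : Set Ω :=
  {ω | ∃ K, W.le J K ∧ adm K ∧ wcnd W w J (WEE W w G κ K) ω < ε}

/-- the system of the next stage -/
def WNext (W : Win Ω) (w : Ω → ℝ) (G : W.ι → Set Ω) (adm : W.ι → Prop) (κ ε : ℝ) (J : W.ι) : Set Ω :=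
  {ω | ω ∈ G J ∧ ∀ J', W.le J' J → ω ∉ WBad W w G adm κ ε J'}

variable (W : Win Ω) (w : Ω → ℝ)

lemma cnd_congr19 (J : W.ι) (E : Set Ω) (ω ω' : Ω) (h : W.S J ω ω') :
    wcnd W w J E ω = wcnd W w J E ω' := by
  have : {x | W.S J ω x} = {x | W.S J ω' x} := by
    ext x
    exact ⟨fun hx => (W.eqv J).trans ((W.eqv J).symm h) hx, fun hx => (W.eqv J).trans h hx⟩
  unfold wcnd
  rw [this]

omit [Fintype Ω] in
lemma sat_mono19 {J K : W.ι} (h : W.le J K) {G : Set Ω} (hG : WSat W J G) : WSat W K G :=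
  fun ω ω' h' => hG ω ω' (W.mono J K h ω ω' h')

lemma sat_bad19 (G : W.ι → Set Ω) (adm : W.ι → Prop) (κ ε : ℝ) (J : W.ι) :
    WSat W J (WBad W w G adm κ ε J) := by
  intro ω ω' h
  unfold WBad
  simp only [Set.mem_ofPred_eq]
  constructor
  · rintro ⟨K, h1, h2, h3⟩
    exact ⟨K, h1, h2, by rwa [← cnd_congr19 W w J _ ω ω' h]⟩
  · rintro ⟨K, h1, h2, h3⟩
    exact ⟨K, h1, h2, by rwa [cnd_congr19 W w J _ ω ω' h]⟩

/-- the next system is a system -/
theorem next_sys {G : W.ι → Set Ω} (hG : WSys W G) (adm : W.ι → Prop) (κ ε : ℝ) :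
    WSys W (WNext W w G adm κ ε) := by
  constructor
  · intro J ω ω' h
    have key : ∀ a b, W.S J a b → a ∈ WNext W w G adm κ ε J → b ∈ WNext W w G adm κ ε J := by
      intro a b hab ha
      refine ⟨(hG.sat J a b hab).1 ha.1, fun J' hJ' hb => ha.2 J' hJ' ?_⟩
      exact (sat_bad19 W w G adm κ ε J' a b (W.mono J' J hJ' a b hab)).2 hb
    exact ⟨key ω ω' h, key ω' ω ((W.eqv J).symm h)⟩
  · intro J K h ω hω
    exact ⟨hG.dec J K h hω.1, fun J' hJ' => hω.2 J' (W.trans J' J K hJ' h)⟩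

lemma next_sub {G : W.ι → Set Ω} (adm : W.ι → Prop) (κ ε : ℝ) (J : W.ι) :
    WNext W w G adm κ ε J ⊆ G J := fun _ h => h.1

/-! ### elementary facts on `pr` -/

omit [Fintype Ω] in
lemma ind_nonneg19 (G : Set Ω) {w : Ω → ℝ} (hw : ∀ ω, 0 ≤ w ω) (ω : Ω) : 0 ≤ ind G w ω :=
  Set.indicator_nonneg (fun ω _ => hw ω) ω

lemma pr_nonneg19 (G : Set Ω) {w : Ω → ℝ} (hw : ∀ ω, 0 ≤ w ω) : 0 ≤ pr w G :=
  Finset.sum_nonneg fun ω _ => ind_nonneg19 G hw ω

lemma pr_mono19 {G G' : Set Ω} {w : Ω → ℝ} (hw : ∀ ω, 0 ≤ w ω) (h : G ⊆ G') : pr w G ≤ pr w G' :=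
  Finset.sum_le_sum fun ω _ => Set.indicator_le_indicator_of_subset h (fun ω => hw ω) ω

lemma pr_le_tot19 (G : Set Ω) {w : Ω → ℝ} (hw : ∀ ω, 0 ≤ w ω) : pr w G ≤ tot w := by
  refine Finset.sum_le_sum fun ω _ => ?_
  exact Set.indicator_le_self' (fun ω _ => hw ω) ω

lemma pr_union19 (G G' : Set Ω) {w : Ω → ℝ} (hw : ∀ ω, 0 ≤ w ω) :
    pr w (G ∪ G') ≤ pr w G + pr w G' := by
  classical
  unfold pr tot ind
  rw [← Finset.sum_add_distrib]
  refine Finset.sum_le_sum fun ω _ => ?_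
  simp only [Set.indicator_apply, Set.mem_union]
  have := hw ω
  by_cases h : ω ∈ G <;> by_cases h' : ω ∈ G' <;> simp [h, h', this]

lemma pr_iUnion19 {κ : Type*} (s : Finset κ) (G : κ → Set Ω) {w : Ω → ℝ} (hw : ∀ ω, 0 ≤ w ω) :
    pr w {ω | ∃ x ∈ s, ω ∈ G x} ≤ ∑ x ∈ s, pr w (G x) := by
  classical
  induction s using Finset.induction_on with
  | empty =>
    have : {ω | ∃ x ∈ (∅ : Finset κ), ω ∈ G x} = (∅ : Set Ω) := by
      ext ω
      simp
    rw [this]
    simp [pr, tot, ind]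
  | insert a s ha ih =>
    have h1 : {ω | ∃ x ∈ insert a s, ω ∈ G x} = G a ∪ {ω | ∃ x ∈ s, ω ∈ G x} := by
      ext ω
      simp
    rw [h1, Finset.sum_insert ha]
    exact (pr_union19 _ _ hw).trans (by linarith)

/-- an event determined by the history on which the conditional probability of `E` is less than `ε`
has little common mass with `E` -/
lemma pr_small19 (hw : ∀ ω, 0 < w ω) (J : W.ι) (E : Set Ω) (ε : ℝ) (hε : 0 ≤ ε) :
    pr w (E ∩ {ω | wcnd W w J E ω < ε}) ≤ ε * tot w := by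
  classical
  -- classes
  let st : Setoid Ω := ⟨W.S J, W.eqv J⟩
  have hw' : ∀ ω, 0 ≤ w ω := fun ω => (hw ω).le
  have hsum : ∀ f : Ω → ℝ, ∑ ω, f ω = ∑ c : Quotient st, ∑ ω, if (⟦ω⟧ : Quotient st) = c then f ω else 0 := by
    intro f
    rw [Finset.sum_comm]
    refine Finset.sum_congr rfl fun ω _ => ?_
    simp
  unfold pr tot
  rw [hsum, hsum, Finset.mul_sum]
  refine Finset.sum_le_sum fun c _ => ?_
  obtain ⟨ω₀, rfl⟩ := Quotient.exists_rep c
  have hcl : ∀ ω, ((⟦ω⟧ : Quotient st) = ⟦ω₀⟧) ↔ W.S J ω₀ ω := by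
    intro ω
    rw [Quotient.eq]
    exact ⟨fun h => (W.eqv J).symm h, fun h => (W.eqv J).symm h⟩
  have e2 : (∑ ω, if (⟦ω⟧ : Quotient st) = ⟦ω₀⟧ then w ω else 0) = pr w {ω' | W.S J ω₀ ω'} := by
    unfold pr tot ind
    refine Finset.sum_congr rfl fun ω _ => ?_
    simp only [Set.indicator_apply, Set.mem_ofPred_eq, hcl]
  have hpos : 0 < pr w {ω' | W.S J ω₀ ω'} := by
    rw [← e2]
    refine Finset.sum_pos' (fun ω _ => ?_) ⟨ω₀, Finset.mem_univ _, ?_⟩
    · split
      · exact hw' ω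
      · exact le_rfl
    · simp [hw ω₀]
  rw [e2]
  by_cases h : wcnd W w J E ω₀ < ε
  · have e1 : (∑ ω, if (⟦ω⟧ : Quotient st) = ⟦ω₀⟧ then ind (E ∩ {ω | wcnd W w J E ω < ε}) w ω else 0)
        ≤ pr w (E ∩ {ω' | W.S J ω₀ ω'}) := by
      unfold pr tot ind
      refine Finset.sum_le_sum fun ω _ => ?_
      simp only [Set.indicator_apply, Set.mem_inter_iff, Set.mem_ofPred_eq, hcl]
      have := hw' ω
      by_cases h1 : W.S J ω₀ ω <;> by_cases h2 : ω ∈ E <;> simp [h1, h2]
      split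
      · exact le_rfl
      · exact this
    refine e1.trans ?_
    unfold wcnd at h
    rw [div_lt_iff₀ hpos] at h
    exact h.le
  · have e1 : (∑ ω, if (⟦ω⟧ : Quotient st) = ⟦ω₀⟧ then ind (E ∩ {ω | wcnd W w J E ω < ε}) w ω else 0) = 0 := by
      refine Finset.sum_eq_zero fun ω _ => ?_
      by_cases h1 : W.S J ω₀ ω
      · rw [if_pos ((hcl ω).2 h1)]
        refine Set.indicator_of_notMem ?_ _
        rintro ⟨_, h2⟩
        rw [Set.mem_ofPred_eq, ← cnd_congr19 W w J E ω₀ ω h1] at h2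
        exact h h2
      · rw [if_neg (fun h2 => h1 ((hcl ω).1 h2))]
    rw [e1]
    positivity

/-! ### densities -/

lemma mass_nonneg19 {A : Type*} {w : Ω → ℝ} (hw : ∀ ω, 0 ≤ w ω) (X : Ω → A) (a : A) :
    0 ≤ mass w X a := mass_nonneg w hw X a

/-- sum over the fibres of a restriction map -/
lemma sum_res19 {A A' : Type} [Fintype A] [Fintype A'] (φ : A → A')
    (hφ : ∀ a' : A', Nat.card {a // φ a = a'} * Nat.card A' = Nat.card A) (F : A' → ℝ) :
    (Fintype.card A' : ℝ) * ∑ a, F (φ a) = Fintype.card A * ∑ a', F a' := by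
  classical
  have h1 : ∑ a : A, F (φ a) = ∑ a' : A', (Nat.card {a // φ a = a'} : ℝ) * F a' := by
    rw [← Finset.sum_fiberwise_of_maps_to (s := (Finset.univ : Finset A))
      (t := (Finset.univ : Finset A')) (g := φ) (fun _ _ => Finset.mem_univ _)]
    refine Finset.sum_congr rfl fun a' _ => ?_
    rw [Finset.sum_congr rfl (g := fun _ => F a')]
    · rw [Finset.sum_const, nsmul_eq_mul]
      congr 2
      rw [Nat.card_eq_fintype_card, Fintype.card_subtype]
    · intro a ha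
      rw [Finset.mem_filter] at ha
      rw [ha.2]
  rw [h1, Finset.mul_sum, Finset.mul_sum]
  refine Finset.sum_congr rfl fun a' _ => ?_
  have h3 : ((Nat.card {a // φ a = a'} : ℕ) : ℝ) * (Fintype.card A' : ℝ) = Fintype.card A := by
    have := hφ a'
    rw [Nat.card_eq_fintype_card (α := A'), Nat.card_eq_fintype_card (α := A)] at this
    exact_mod_cast this
  rw [← h3]
  ring

/-- the density of a larger window is not much smaller -/
lemma dens_drop19 (hw : ∀ ω, 0 ≤ w ω) (G : W.ι → Set Ω) {J K : W.ι} (h : W.le J K)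
    (s : ℝ) (hs : 0 ≤ s) :
    pr w (G K ∩ {ω | wdens W w (G K) K ω < s * wdens W w (G J) J ω}) ≤ s * tot w := by
  classical
  set u := ind (G K) w with hu
  set v := ind (G J) w with hv
  have hu0 : ∀ ω, 0 ≤ u ω := ind_nonneg19 _ hw
  have hv0 : ∀ ω, 0 ≤ v ω := ind_nonneg19 _ hw
  -- the event in terms of the value
  set F : W.A K → ℝ := fun a =>
    if (Fintype.card (W.A K) : ℝ) * mass u (W.m K) a <
      s * ((Fintype.card (W.A J) : ℝ) * mass v (W.m J) (W.res J K a)) then 1 else 0 with hF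
  have e1 : pr w (G K ∩ {ω | wdens W w (G K) K ω < s * wdens W w (G J) J ω}) =
      ∑ ω, u ω * F (W.m K ω) := by
    unfold pr tot
    refine Finset.sum_congr rfl fun ω _ => ?_
    simp only [hF, hu, ind, Set.indicator_apply, Set.mem_inter_iff, wdens, W.hres J K h ω]
    by_cases h1 : ω ∈ G K
    · simp only [h1, true_and, if_true]
      by_cases h2 : (Fintype.card (W.A K) : ℝ) * mass ((G K).indicator w) (W.m K) (W.m K ω) <
        s * ((Fintype.card (W.A J) : ℝ) * mass v (W.m J) (W.m J ω))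
      · rw [if_pos h2, if_pos, mul_one]
        exact h2
      · rw [if_neg h2, if_neg, mul_zero]
        exact h2
    · simp [h1]
  rw [e1, sum_eq_sum_mass u (W.m K) Finset.univ (fun _ _ => Finset.mem_univ _)]
  have hcK : 0 < (Fintype.card (W.A K) : ℝ) ∨ Fintype.card (W.A K) = 0 := by
    rcases Nat.eq_zero_or_pos (Fintype.card (W.A K)) with h0 | h0
    · exact Or.inr h0
    · exact Or.inl (by exact_mod_cast h0)
  rcases hcK with hcK | hcK
  · have h2 : ∀ a, mass u (W.m K) a * F a ≤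
        s * ((Fintype.card (W.A J) : ℝ) / Fintype.card (W.A K)) * mass v (W.m J) (W.res J K a) := by
      intro a
      have hv1 := mass_nonneg v hv0 (W.m J) (W.res J K a)
      simp only [hF]
      split
      · rename_i h3
        rw [mul_one, mul_assoc, div_mul_eq_mul_div, mul_div_assoc', le_div_iff₀ hcK]
        linarith
      · rw [mul_zero]
        positivity
    refine (Finset.sum_le_sum fun a _ => h2 a).trans ?_
    rw [← Finset.mul_sum]
    have h4 := sum_res19 (W.res J K) (W.hcard J K h) (fun a => mass v (W.m J) a)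
    have h5 : ∑ a, mass v (W.m J) a ≤ tot w := by
      have h6 := sum_eq_sum_mass v (W.m J) Finset.univ (fun _ _ => Finset.mem_univ _) (fun _ => 1)
      simp only [mul_one] at h6
      rw [← h6]
      exact pr_le_tot19 _ hw
    have h7 : s * ((Fintype.card (W.A J) : ℝ) / Fintype.card (W.A K)) *
        ∑ a, mass v (W.m J) (W.res J K a) = s * ∑ a, mass v (W.m J) a := by
      have : ((Fintype.card (W.A J) : ℝ) / Fintype.card (W.A K)) *
        ∑ a, mass v (W.m J) (W.res J K a) = ∑ a, mass v (W.m J) a := by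
        rw [div_mul_eq_mul_div, h4, mul_div_assoc, mul_div_cancel₀ _ hcK.ne']
      rw [mul_assoc, this]
    rw [h7]
    exact mul_le_mul_of_nonneg_left h5 hs
  · have : IsEmpty (W.A K) := Fintype.card_eq_zero_iff.1 hcK
    rw [Finset.univ_eq_empty, Finset.sum_empty]
    exact mul_nonneg hs (Finset.sum_nonneg fun ω _ => hw ω)

/-- density of a point of the event -/
lemma dens_pos19 (hw : ∀ ω, 0 < w ω) {G : Set Ω} {K : W.ι} {ω : Ω} (h : ω ∈ G) :
    0 < wdens W w G K ω := by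
  unfold wdens
  have h1 : ind G w ω ≠ 0 := by
    unfold ind
    rw [Set.indicator_of_mem h]
    exact (hw ω).ne'
  have h2 := mass_pos (ind G w) (ind_nonneg19 G fun ω => (hw ω).le) (W.m K) h1
  have : Nonempty (W.A K) := ⟨W.m K ω⟩
  have h3 : (0 : ℝ) < Fintype.card (W.A K) := by exact_mod_cast Fintype.card_pos
  positivity

/-- **LOSS** : the probability lost in a stage -/
theorem wloss (hw : ∀ ω, 0 < w ω) (ht : tot w ≤ 1) (G : W.ι → Set Ω)
    (adm : W.ι → Prop) (κ ε t : ℝ) (hε : 0 ≤ ε) (g : W.ι → W.ι)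
    (hg : ∀ K, adm K → W.le K (g K)) (Γ : Finset W.ι) (hΓ : ∀ K, adm K → g K ∈ Γ) :
    pr w ({ω | ∀ J, ω ∈ G J} \ {ω | ∀ J, ω ∈ WNext W w G adm κ ε J}) ≤
      (Fintype.card W.ι : ℝ) ^ 2 * ε + (Fintype.card W.ι : ℝ) ^ 2 * Real.exp (-t) +
        ∑ K ∈ Γ, pr w (G K ∩ {ω | κ - t < Real.log (wdens W w (G K) K ω)}) := by
  classical
  have hw' : ∀ ω, 0 ≤ w ω := fun ω => (hw ω).le
  set U1 : Set Ω := {ω | ∃ x ∈ (Finset.univ : Finset (W.ι × W.ι)), ω ∈
    WEE W w G κ x.2 ∩ {ω | wcnd W w x.1 (WEE W w G κ x.2) ω < ε}} with hU1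
  set U2 : Set Ω := {ω | ∃ x ∈ (Finset.univ.filter fun x : W.ι × W.ι => W.le x.1 x.2), ω ∈
    G x.2 ∩ {ω | wdens W w (G x.2) x.2 ω < Real.exp (-t) * wdens W w (G x.1) x.1 ω}} with hU2
  set U3 : Set Ω := {ω | ∃ x ∈ Γ, ω ∈ G x ∩ {ω | κ - t < Real.log (wdens W w (G x) x ω)}} with hU3
  have hsub : {ω | ∀ J, ω ∈ G J} \ {ω | ∀ J, ω ∈ WNext W w G adm κ ε J} ⊆ (U1 ∪ U2) ∪ U3 := by
    rintro ω ⟨h1, h2⟩
    have h1' : ∀ J, ω ∈ G J := h1
    have h2' : ¬ ∀ J, ω ∈ WNext W w G adm κ ε J := h2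
    push Not at h2'
    obtain ⟨J₀, hJ₀⟩ := h2'
    have h3 : ∃ J', W.le J' J₀ ∧ ω ∈ WBad W w G adm κ ε J' := by
      by_contra hcon
      push Not at hcon
      exact hJ₀ ⟨h1' J₀, hcon⟩
    obtain ⟨J', _, K, hJK, hadm, hc⟩ := h3
    by_cases hE : ω ∈ WEE W w G κ K
    · exact Or.inl (Or.inl ⟨(J', K), Finset.mem_univ _, hE, hc⟩)
    · have h4 : κ < Real.log (wdens W w (G K) K ω) := by
        by_contra hcon
        exact hE ⟨h1' K, not_lt.1 hcon⟩
      by_cases h5 : wdens W w (G (g K)) (g K) ω < Real.exp (-t) * wdens W w (G K) K ω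
      · refine Or.inl (Or.inr ⟨(K, g K), ?_, h1' _, h5⟩)
        simp [hg K hadm]
      · refine Or.inr ⟨g K, hΓ K hadm, h1' _, ?_⟩
        have h6 := dens_pos19 W w hw (K := K) (h1' K)
        have h7 := Real.log_le_log (by positivity) (not_lt.1 h5)
        rw [Real.log_mul (Real.exp_pos _).ne' h6.ne', Real.log_exp] at h7
        show κ - t < _
        linarith
  refine (pr_mono19 hw' hsub).trans ((pr_union19 _ _ hw').trans ?_)
  have hU3' := pr_iUnion19 Γ (fun x => G x ∩ {ω | κ - t < Real.log (wdens W w (G x) x ω)}) hw'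
  refine add_le_add ((pr_union19 _ _ hw').trans (add_le_add ?_ ?_)) hU3'
  · refine (pr_iUnion19 _ _ hw').trans ?_
    have h8 : ∀ x ∈ (Finset.univ : Finset (W.ι × W.ι)),
        pr w (WEE W w G κ x.2 ∩ {ω | wcnd W w x.1 (WEE W w G κ x.2) ω < ε}) ≤ ε := by
      intro x _
      refine (pr_small19 W w hw x.1 _ ε hε).trans ?_
      nlinarith
    refine (Finset.sum_le_sum h8).trans ?_
    rw [Finset.sum_const, Finset.card_univ, Fintype.card_prod, nsmul_eq_mul]
    push_cast
    nlinarith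
  · refine (pr_iUnion19 _ _ hw').trans ?_
    have h8 : ∀ x ∈ (Finset.univ.filter fun x : W.ι × W.ι => W.le x.1 x.2),
        pr w (G x.2 ∩ {ω | wdens W w (G x.2) x.2 ω < Real.exp (-t) * wdens W w (G x.1) x.1 ω}) ≤
          Real.exp (-t) := by
      intro x hx
      refine (dens_drop19 W w hw' G (Finset.mem_filter.1 hx).2 _ (Real.exp_pos _).le).trans ?_
      have := Real.exp_pos (-t)
      nlinarith
    refine (Finset.sum_le_sum h8).trans ?_
    rw [Finset.sum_const, nsmul_eq_mul]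
    have h9 : ((Finset.univ.filter fun x : W.ι × W.ι => W.le x.1 x.2).card : ℝ) ≤
        (Fintype.card W.ι : ℝ) ^ 2 := by
      have := Finset.card_le_univ (Finset.univ.filter fun x : W.ι × W.ι => W.le x.1 x.2)
      rw [Fintype.card_prod] at this
      have h10 : ((Finset.univ.filter fun x : W.ι × W.ι => W.le x.1 x.2).card : ℝ) ≤
        ((Fintype.card W.ι * Fintype.card W.ι : ℕ) : ℝ) := by exact_mod_cast this
      push_cast at h10
      nlinarith
    exact mul_le_mul_of_nonneg_right h9 (Real.exp_pos _).le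

/-- positive part of the logarithm of the density -/
lemma pos_part19 (hw : ∀ ω, 0 ≤ w ω) (ht : tot w ≤ 1) (G : Set Ω) (K : W.ι) :
    ∑ ω, ind G w ω * max (Real.log (wdens W w G K ω)) 0 ≤ K0 (ind G w) (W.m K) + 1 := by
  classical
  set u := ind G w with hu
  have hu0 : ∀ ω, 0 ≤ u ω := ind_nonneg19 _ hw
  have htu : tot u ≤ 1 := (pr_le_tot19 G hw).trans ht
  rw [K0_eq]
  -- compare termwise through the negative part
  have h1 : ∀ ω, u ω * max (Real.log (wdens W w G K ω)) 0 ≤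
      u ω * Real.log (Fintype.card (W.A K) * mass u (W.m K) (W.m K ω) / tot u) +
      u ω * max (- Real.log (wdens W w G K ω)) 0 := by
    intro ω
    by_cases h : u ω = 0
    · simp [h]
    · have hup : 0 < u ω := lt_of_le_of_ne (hu0 ω) (Ne.symm h)
      have htp : 0 < tot u := lt_of_lt_of_le hup (le_tot u hu0 ω)
      have hm := mass_pos u hu0 (W.m K) h
      have hA : (0 : ℝ) < Fintype.card (W.A K) := by
        have : Nonempty (W.A K) := ⟨W.m K ω⟩
        exact_mod_cast Fintype.card_pos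
      rw [← mul_add]
      refine mul_le_mul_of_nonneg_left ?_ hup.le
      have h2 : Real.log (Fintype.card (W.A K) * mass u (W.m K) (W.m K ω) / tot u) =
          Real.log (wdens W w G K ω) - Real.log (tot u) := by
        rw [Real.log_div (by positivity) htp.ne']
        rfl
      have h3 : Real.log (tot u) ≤ 0 := Real.log_nonpos htp.le htu
      rw [h2]
      rcases le_total 0 (Real.log (wdens W w G K ω)) with h4 | h4
      · rw [max_eq_left h4]
        have := le_max_right (- Real.log (wdens W w G K ω)) 0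
        linarith
      · rw [max_eq_right h4, max_eq_left (by linarith)]
        linarith
  refine (Finset.sum_le_sum fun ω _ => h1 ω).trans ?_
  rw [Finset.sum_add_distrib]
  have h5 : ∑ ω, u ω * max (- Real.log (wdens W w G K ω)) 0 ≤ 1 := by
    have h6 := sum_eq_sum_mass u (W.m K) Finset.univ (fun _ _ => Finset.mem_univ _)
      (fun a => max (- Real.log ((Fintype.card (W.A K) : ℝ) * mass u (W.m K) a)) 0)
    have h7 : ∑ ω, u ω * max (- Real.log (wdens W w G K ω)) 0 =
      ∑ ω, u ω * max (- Real.log ((Fintype.card (W.A K) : ℝ) * mass u (W.m K) (W.m K ω))) 0 := rfl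
    rw [h7, h6]
    rcases Nat.eq_zero_or_pos (Fintype.card (W.A K)) with h0 | h0
    · have : IsEmpty (W.A K) := Fintype.card_eq_zero_iff.1 h0
      rw [Finset.univ_eq_empty, Finset.sum_empty]
      norm_num
    · have hc : (0 : ℝ) < Fintype.card (W.A K) := by exact_mod_cast h0
      have h8 : ∀ a ∈ (Finset.univ : Finset (W.A K)), mass u (W.m K) a *
          max (- Real.log ((Fintype.card (W.A K) : ℝ) * mass u (W.m K) a)) 0 ≤
          1 / (Fintype.card (W.A K) : ℝ) := by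
        intro a _
        have hm := mass_nonneg u hu0 (W.m K) a
        rcases eq_or_lt_of_le hm with h9 | h9
        · rw [← h9, zero_mul]
          positivity
        · rw [le_div_iff₀ hc]
          set f := (Fintype.card (W.A K) : ℝ) * mass u (W.m K) a with hf
          have hfp : 0 < f := by positivity
          have h10 : mass u (W.m K) a * max (- Real.log f) 0 * (Fintype.card (W.A K) : ℝ) =
              f * max (- Real.log f) 0 := by
            rw [hf]
            ring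
          rw [h10]
          rcases le_total 0 (- Real.log f) with h11 | h11
          · rw [max_eq_left h11]
            have h12 := Real.log_le_sub_one_of_pos (x := 1 / f) (by positivity)
            rw [one_div, Real.log_inv] at h12
            have h13 : f * (f⁻¹ - 1) = 1 - f := by
              field_simp
            nlinarith
          · rw [max_eq_right h11]
            norm_num
      refine (Finset.sum_le_sum h8).trans ?_
      rw [Finset.sum_const, Finset.card_univ, nsmul_eq_mul, mul_one_div, div_self hc.ne']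
  linarith

/-- **Markov** : the probability of a new bad window -/
theorem wmarkov (hw : ∀ ω, 0 ≤ w ω) (ht : tot w ≤ 1) (G : Set Ω) (K : W.ι) (x : ℝ) (hx : 0 < x) :
    pr w (G ∩ {ω | x < Real.log (wdens W w G K ω)}) ≤ (K0 (ind G w) (W.m K) + 1) / x := by
  classical
  rw [le_div_iff₀ hx]
  refine le_trans ?_ (pos_part19 W w hw ht G K)
  unfold pr tot
  rw [Finset.sum_mul]
  refine Finset.sum_le_sum fun ω _ => ?_
  by_cases h1 : ω ∈ G
  · have e : ind G w ω = w ω := Set.indicator_of_mem h1 w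
    rw [e]
    by_cases h2 : x < Real.log (wdens W w G K ω)
    · have e2 : ind (G ∩ {ω | x < Real.log (wdens W w G K ω)}) w ω = w ω :=
        Set.indicator_of_mem (show ω ∈ G ∩ {ω | x < Real.log (wdens W w G K ω)} from ⟨h1, h2⟩) w
      rw [e2]
      refine mul_le_mul_of_nonneg_left (h2.le.trans (le_max_left _ _)) (hw ω)
    · have e2 : ind (G ∩ {ω | x < Real.log (wdens W w G K ω)}) w ω = 0 :=
        Set.indicator_of_notMem (fun h => h2 h.2) w
      rw [e2, zero_mul]
      exact mul_nonneg (hw ω) (le_max_right _ _)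
  · have e : ind G w ω = 0 := Set.indicator_of_notMem h1 w
    have e2 : ind (G ∩ {ω | x < Real.log (wdens W w G K ω)}) w ω = 0 :=
      Set.indicator_of_notMem (fun h => h1 h.1) w
    rw [e, e2, zero_mul, zero_mul]

/-! ### the tilted weight -/

/-- the weight `1_B 1_{WEE K} w / P(WEE K | h_J)` -/
noncomputable def wtilt (G : W.ι → Set Ω) (κ : ℝ) (J K : W.ι) (B : Set Ω) (ω : Ω) : ℝ :=
  ind (B ∩ WEE W w G κ K) w ω / wcnd W w J (WEE W w G κ K) ω

lemma cnd_nonneg19 (hw : ∀ ω, 0 ≤ w ω) (J : W.ι) (E : Set Ω) (ω : Ω) : 0 ≤ wcnd W w J E ω :=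
  div_nonneg (pr_nonneg19 _ hw) (pr_nonneg19 _ hw)

theorem tilt_nonneg (hw : ∀ ω, 0 ≤ w ω) (G : W.ι → Set Ω) (κ : ℝ) (J K : W.ι) (B : Set Ω) (ω : Ω) :
    0 ≤ wtilt W w G κ J K B ω :=
  div_nonneg (ind_nonneg19 _ hw ω) (cnd_nonneg19 W w hw _ _ _)

/-- on `WNext J` the conditional probabilities are at least `ε` -/
lemma cnd_ge19 {G : W.ι → Set Ω} {adm : W.ι → Prop} {κ ε : ℝ} {J K : W.ι} (hJK : W.le J K)
    (hK : adm K) {ω : Ω} (h : ω ∈ WNext W w G adm κ ε J) : ε ≤ wcnd W w J (WEE W w G κ K) ω := by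
  by_contra hcon
  exact h.2 J (W.refl J) ⟨K, hJK, hK, not_le.1 hcon⟩

/-- the tilted weight is small -/
theorem tilt_le (hw : ∀ ω, 0 ≤ w ω) {G : W.ι → Set Ω} {adm : W.ι → Prop} {κ ε : ℝ} (hε : 0 < ε)
    {J K : W.ι} (hJK : W.le J K) (hK : adm K) {B : Set Ω} (hB : B ⊆ WNext W w G adm κ ε J) (ω : Ω) :
    wtilt W w G κ J K B ω ≤ ind (G K) w ω / ε := by
  classical
  unfold wtilt
  by_cases h : ω ∈ B ∩ WEE W w G κ K
  · have e1 : ind (B ∩ WEE W w G κ K) w ω = w ω := Set.indicator_of_mem h w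
    have e2 : ind (G K) w ω = w ω := Set.indicator_of_mem h.2.1 w
    rw [e1, e2]
    exact div_le_div_of_nonneg_left (hw ω) hε (cnd_ge19 W w hJK hK (hB h.1))
  · have e1 : ind (B ∩ WEE W w G κ K) w ω = 0 := Set.indicator_of_notMem h w
    rw [e1, zero_div]
    exact div_nonneg (ind_nonneg19 _ hw ω) hε.le

/-- the tilted weight has the same law of the history of `J` as `1_B w` -/
theorem tilt_sum (hw : ∀ ω, 0 < w ω) {G : W.ι → Set Ω} {adm : W.ι → Prop} {κ ε : ℝ} (hε : 0 < ε)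
    {J K : W.ι} (hJK : W.le J K) (hK : adm K) {B : Set Ω} (hB : B ⊆ WNext W w G adm κ ε J)
    (hBs : WSat W J B) (F : Ω → ℝ) (hF : ∀ ω ω', W.S J ω ω' → F ω = F ω') :
    ∑ ω, wtilt W w G κ J K B ω * F ω = ∑ ω, ind B w ω * F ω := by
  classical
  let st : Setoid Ω := ⟨W.S J, W.eqv J⟩
  have hw' : ∀ ω, 0 ≤ w ω := fun ω => (hw ω).le
  have hsum : ∀ f : Ω → ℝ, ∑ ω, f ω = ∑ c : Quotient st, ∑ ω, if (⟦ω⟧ : Quotient st) = c then f ω else 0 := by
    intro f
    rw [Finset.sum_comm]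
    refine Finset.sum_congr rfl fun ω _ => ?_
    simp
  rw [hsum, hsum (fun ω => ind B w ω * F ω)]
  refine Finset.sum_congr rfl fun c _ => ?_
  obtain ⟨ω₀, rfl⟩ := Quotient.exists_rep c
  have hcl : ∀ ω, ((⟦ω⟧ : Quotient st) = ⟦ω₀⟧) ↔ W.S J ω₀ ω := by
    intro ω
    rw [Quotient.eq]
    exact ⟨fun h => (W.eqv J).symm h, fun h => (W.eqv J).symm h⟩
  set E := WEE W w G κ K with hE
  by_cases hB0 : ω₀ ∈ B
  · have hcpos : 0 < wcnd W w J E ω₀ := lt_of_lt_of_le hε (cnd_ge19 W w hJK hK (hB hB0))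
    have e1 : (∑ ω, if (⟦ω⟧ : Quotient st) = ⟦ω₀⟧ then wtilt W w G κ J K B ω * F ω else 0) =
        pr w (E ∩ {ω' | W.S J ω₀ ω'}) * (F ω₀ / wcnd W w J E ω₀) := by
      unfold pr tot
      rw [Finset.sum_mul]
      refine Finset.sum_congr rfl fun ω _ => ?_
      by_cases h1 : W.S J ω₀ ω
      · rw [if_pos ((hcl ω).2 h1)]
        have hBω : ω ∈ B := (hBs ω₀ ω h1).1 hB0
        have e3 : wcnd W w J E ω = wcnd W w J E ω₀ := (cnd_congr19 W w J E ω₀ ω h1).symm
        have e4 : F ω = F ω₀ := (hF ω₀ ω h1).symm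
        have e5 : ind (B ∩ E) w ω = ind (E ∩ {ω' | W.S J ω₀ ω'}) w ω := by
          unfold ind
          simp only [Set.indicator_apply, Set.mem_inter_iff, Set.mem_ofPred_eq, hBω, h1, true_and,
            and_true]
        unfold wtilt
        rw [← hE, e3, e4, e5]
        ring
      · rw [if_neg (fun h => h1 ((hcl ω).1 h))]
        have e5 : ind (E ∩ {ω' | W.S J ω₀ ω'}) w ω = 0 :=
          Set.indicator_of_notMem (fun h => h1 h.2) w
        rw [e5, zero_mul]
    have e2 : (∑ ω, if (⟦ω⟧ : Quotient st) = ⟦ω₀⟧ then ind B w ω * F ω else 0) =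
        pr w {ω' | W.S J ω₀ ω'} * F ω₀ := by
      unfold pr tot
      rw [Finset.sum_mul]
      refine Finset.sum_congr rfl fun ω _ => ?_
      by_cases h1 : W.S J ω₀ ω
      · rw [if_pos ((hcl ω).2 h1)]
        have hBω : ω ∈ B := (hBs ω₀ ω h1).1 hB0
        have e4 : F ω = F ω₀ := (hF ω₀ ω h1).symm
        have e5 : ind B w ω = w ω := Set.indicator_of_mem hBω w
        have e6 : ind {ω' | W.S J ω₀ ω'} w ω = w ω :=
          Set.indicator_of_mem (show ω ∈ {ω' | W.S J ω₀ ω'} from h1) w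
        rw [e4, e5, e6]
      · rw [if_neg (fun h => h1 ((hcl ω).1 h))]
        have e6 : ind {ω' | W.S J ω₀ ω'} w ω = 0 :=
          Set.indicator_of_notMem (show ω ∉ {ω' | W.S J ω₀ ω'} from h1) w
        rw [e6, zero_mul]
    rw [e1, e2]
    have hpos : 0 < pr w {ω' | W.S J ω₀ ω'} := by
      refine Finset.sum_pos' (fun ω _ => ind_nonneg19 _ hw' ω) ⟨ω₀, Finset.mem_univ _, ?_⟩
      have e6 : ind {ω' | W.S J ω₀ ω'} w ω₀ = w ω₀ :=
        Set.indicator_of_mem (show ω₀ ∈ {ω' | W.S J ω₀ ω'} from (W.eqv J).refl ω₀) w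
      rw [e6]
      exact hw ω₀
    have e7 : pr w (E ∩ {ω' | W.S J ω₀ ω'}) = wcnd W w J E ω₀ * pr w {ω' | W.S J ω₀ ω'} := by
      unfold wcnd
      field_simp
    rw [e7]
    field_simp
  · have e1 : (∑ ω, if (⟦ω⟧ : Quotient st) = ⟦ω₀⟧ then wtilt W w G κ J K B ω * F ω else 0) = 0 := by
      refine Finset.sum_eq_zero fun ω _ => ?_
      by_cases h1 : W.S J ω₀ ω
      · rw [if_pos ((hcl ω).2 h1)]
        have hBω : ω ∉ B := fun h => hB0 ((hBs ω₀ ω h1).2 h)
        have e5 : ind (B ∩ E) w ω = 0 := Set.indicator_of_notMem (fun h => hBω h.1) w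
        unfold wtilt
        rw [← hE, e5, zero_div, zero_mul]
      · rw [if_neg (fun h => h1 ((hcl ω).1 h))]
    have e2 : (∑ ω, if (⟦ω⟧ : Quotient st) = ⟦ω₀⟧ then ind B w ω * F ω else 0) = 0 := by
      refine Finset.sum_eq_zero fun ω _ => ?_
      by_cases h1 : W.S J ω₀ ω
      · rw [if_pos ((hcl ω).2 h1)]
        have hBω : ω ∉ B := fun h => hB0 ((hBs ω₀ ω h1).2 h)
        have e5 : ind B w ω = 0 := Set.indicator_of_notMem hBω w
        rw [e5, zero_mul]
      · rw [if_neg (fun h => h1 ((hcl ω).1 h))]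
    rw [e1, e2]

/-- the same with additional coins -/
theorem tilt_mass (hw : ∀ ω, 0 < w ω) {G : W.ι → Set Ω} {adm : W.ι → Prop} {κ ε : ℝ} (hε : 0 < ε)
    {J K : W.ι} (hJK : W.le J K) (hK : adm K) {B : Set Ω} (hB : B ⊆ WNext W w G adm κ ε J)
    (hBs : WSat W J B) {C D : Type*} [Fintype C] (q : Ω → C → ℝ)
    (hq : ∀ ω ω', W.S J ω ω' → q ω = q ω') (X : Ω × C → D)
    (hX : ∀ ω ω' c, W.S J ω ω' → X (ω, c) = X (ω', c)) (d : D) :
    mass (fun p : Ω × C => wtilt W w G κ J K B p.1 * q p.1 p.2) X d =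
      mass (fun p : Ω × C => ind B w p.1 * q p.1 p.2) X d := by
  classical
  unfold mass
  rw [Fintype.sum_prod_type, Fintype.sum_prod_type]
  have h1 : ∀ v : Ω → ℝ, (∑ ω, ∑ c, if X (ω, c) = d then v ω * q ω c else 0) =
      ∑ ω, v ω * ∑ c, (if X (ω, c) = d then q ω c else 0) := by
    intro v
    refine Finset.sum_congr rfl fun ω _ => ?_
    rw [Finset.mul_sum]
    refine Finset.sum_congr rfl fun c _ => ?_
    split <;> simp
  simp only
  rw [h1, h1]
  refine tilt_sum W w hw hε hJK hK hB hBs _ fun ω ω' h => ?_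
  refine Finset.sum_congr rfl fun c _ => ?_
  rw [hX ω ω' c h, hq ω ω' h]

/-- total mass of the tilted weight -/
theorem tilt_tot (hw : ∀ ω, 0 < w ω) {G : W.ι → Set Ω} {adm : W.ι → Prop} {κ ε : ℝ} (hε : 0 < ε)
    {J K : W.ι} (hJK : W.le J K) (hK : adm K) {B : Set Ω} (hB : B ⊆ WNext W w G adm κ ε J)
    (hBs : WSat W J B) : tot (wtilt W w G κ J K B) = pr w B := by
  have := tilt_sum W w hw hε hJK hK hB hBs (fun _ => 1) (fun _ _ _ => rfl)
  simpa [tot, pr] using this

/-- **SC** : the entropy of the observable of `K` under the tilted weight -/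
theorem tilt_K0 (hw : ∀ ω, 0 < w ω) {G : W.ι → Set Ω} {adm : W.ι → Prop} {κ ε : ℝ} (hε : 0 < ε)
    {J K : W.ι} (hJK : W.le J K) (hK : adm K) {B : Set Ω} (hB : B ⊆ WNext W w G adm κ ε J)
    (hBs : WSat W J B) :
    K0 (wtilt W w G κ J K B) (W.m K) ≤ pr w B * (κ + Real.log (1 / ε) + Real.log (1 / pr w B)) := by
  classical
  have hw' : ∀ ω, 0 ≤ w ω := fun ω => (hw ω).le
  have ht := tilt_tot W w hw hε hJK hK hB hBs
  set R := wtilt W w G κ J K B with hR
  have hR0 : ∀ ω, 0 ≤ R ω := tilt_nonneg W w hw' G κ J K B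
  rw [K0_eq, ht, ← ht]
  unfold tot
  rw [Finset.sum_mul]
  refine Finset.sum_le_sum fun ω _ => ?_
  by_cases h : R ω = 0
  · simp [h]
  · have hRp : 0 < R ω := lt_of_le_of_ne (hR0 ω) (Ne.symm h)
    have htp : 0 < tot R := lt_of_lt_of_le hRp (le_tot R hR0 ω)
    refine mul_le_mul_of_nonneg_left ?_ hRp.le
    have hmem : ω ∈ B ∩ WEE W w G κ K := by
      by_contra hcon
      apply h
      rw [hR]
      unfold wtilt
      rw [show ind (B ∩ WEE W w G κ K) w ω = 0 from Set.indicator_of_notMem hcon w, zero_div]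
    have hd := dens_pos19 W w hw (K := K) hmem.2.1
    have hmR := mass_pos R hR0 (W.m K) h
    have hA : (0 : ℝ) < Fintype.card (W.A K) := by
      have : Nonempty (W.A K) := ⟨W.m K ω⟩
      exact_mod_cast Fintype.card_pos
    have h1 : mass R (W.m K) (W.m K ω) ≤ mass (ind (G K) w) (W.m K) (W.m K ω) / ε := by
      unfold mass
      rw [Finset.sum_div]
      refine Finset.sum_le_sum fun ω' _ => ?_
      split
      · exact tilt_le W w hw' hε hJK hK hB ω'
      · simp
    have h2 : (Fintype.card (W.A K) : ℝ) * mass R (W.m K) (W.m K ω) / tot R ≤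
        wdens W w (G K) K ω * (1 / ε) * (1 / tot R) := by
      unfold wdens
      rw [mul_one_div, mul_one_div]
      refine div_le_div_of_nonneg_right ?_ htp.le
      rw [mul_div_assoc]
      exact mul_le_mul_of_nonneg_left h1 hA.le
    have h3 := Real.log_le_log (by positivity) h2
    rw [Real.log_mul (by positivity) (by positivity), Real.log_mul hd.ne' (by positivity)] at h3
    have h4 : Real.log (wdens W w (G K) K ω) ≤ κ := hmem.2.2
    have h5 : (∑ i, R i) = tot R := rfl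
    rw [h5]
    linarith

/-! ### equivariance -/

/-- a symmetry of the environment -/
structure WSym (W : Win Ω) (w : Ω → ℝ) where
  σ : Ω ≃ Ω
  π : W.ι ≃ W.ι
  hle : ∀ J K, W.le (π J) (π K) ↔ W.le J K
  hS : ∀ J ω ω', W.S (π J) (σ ω) (σ ω') ↔ W.S J ω ω'
  hw : ∀ ω, w (σ ω) = w ω
  hA : ∀ J, Nat.card (W.A (π J)) = Nat.card (W.A J)
  hm : ∀ J ω ω', W.m (π J) (σ ω) = W.m (π J) (σ ω') ↔ W.m J ω = W.m J ω'

variable {W w}

omit [Fintype Ω] in
lemma sym_ind19 (s : WSym W w) {G G' : Set Ω} (h : ∀ ω, s.σ ω ∈ G' ↔ ω ∈ G) (ω : Ω) :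
    ind G' w (s.σ ω) = ind G w ω := by
  classical
  unfold ind
  simp only [Set.indicator_apply, h ω, s.hw ω]

lemma sym_pr19 (s : WSym W w) {G G' : Set Ω} (h : ∀ ω, s.σ ω ∈ G' ↔ ω ∈ G) :
    pr w G' = pr w G := by
  unfold pr tot
  rw [← s.σ.sum_comp]
  exact Finset.sum_congr rfl fun ω _ => sym_ind19 s h ω

lemma sym_cnd19 (s : WSym W w) {E E' : Set Ω} (h : ∀ ω, s.σ ω ∈ E' ↔ ω ∈ E) (J : W.ι) (ω : Ω) :
    wcnd W w (s.π J) E' (s.σ ω) = wcnd W w J E ω := by
  unfold wcnd
  rw [sym_pr19 s (G := E ∩ {ω' | W.S J ω ω'}) (G' := E' ∩ {ω' | W.S (s.π J) (s.σ ω) ω'})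
      (fun ω' => and_congr (h ω') (s.hS J ω ω')),
    sym_pr19 s (G := {ω' | W.S J ω ω'}) (G' := {ω' | W.S (s.π J) (s.σ ω) ω'})
      (fun ω' => s.hS J ω ω')]

lemma sym_dens19 (s : WSym W w) {G G' : Set Ω} (h : ∀ ω, s.σ ω ∈ G' ↔ ω ∈ G) (K : W.ι) (ω : Ω) :
    wdens W w G' (s.π K) (s.σ ω) = wdens W w G K ω := by
  classical
  unfold wdens mass
  rw [← s.σ.sum_comp]
  have h1 : Fintype.card (W.A (s.π K)) = Fintype.card (W.A K) := by
    have := s.hA K
    rwa [Nat.card_eq_fintype_card, Nat.card_eq_fintype_card] at this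
  rw [h1]
  congr 1
  refine Finset.sum_congr rfl fun ω' _ => ?_
  rw [sym_ind19 s h ω']
  by_cases h2 : W.m K ω' = W.m K ω
  · rw [if_pos h2, if_pos ((s.hm K ω' ω).2 h2)]
  · rw [if_neg h2, if_neg (fun h3 => h2 ((s.hm K ω' ω).1 h3))]

/-- **equivariance** of the next system -/
theorem next_equiv (s : WSym W w) {G : W.ι → Set Ω} (hG : ∀ J ω, s.σ ω ∈ G (s.π J) ↔ ω ∈ G J)
    {adm : W.ι → Prop} (hadm : ∀ K, adm (s.π K) ↔ adm K) (κ ε : ℝ) (J : W.ι) (ω : Ω) :
    s.σ ω ∈ WNext W w G adm κ ε (s.π J) ↔ ω ∈ WNext W w G adm κ ε J := by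
  have hE : ∀ K ω, s.σ ω ∈ WEE W w G κ (s.π K) ↔ ω ∈ WEE W w G κ K := by
    intro K ω
    unfold WEE
    simp only [Set.mem_ofPred_eq]
    rw [hG K ω, sym_dens19 s (hG K) K ω]
  have hBad : ∀ K ω, s.σ ω ∈ WBad W w G adm κ ε (s.π K) ↔ ω ∈ WBad W w G adm κ ε K := by
    intro K ω
    unfold WBad
    simp only [Set.mem_ofPred_eq]
    rw [← s.π.exists_congr_right]
    refine exists_congr fun K' => ?_
    rw [s.hle, hadm, sym_cnd19 s (hE K')]
  unfold WNext
  simp only [Set.mem_ofPred_eq]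
  refine and_congr (hG J ω) ?_
  rw [← s.π.forall_congr_right]
  refine forall_congr' fun K => ?_
  rw [s.hle, hBad]

end Pool.Agent.NJ
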